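import Mathlib

set_option autoImplicit false
open Set Topology Filter

namespace Pool.Agent.H89.BA

section Cantor
variable {X : Type} [TopologicalSpace X] (b : ℕ → X → Bool)

/-- Level `n` splits at `x`. -/
def Spl (n : ℕ) (x : X) : Prop := ∃ x', (∀ i < n, b i x' = b i x) ∧ b n x' ≠ b n x

omit [TopologicalSpace X] in
lemma spl_congr {n : ℕ} {x x' : X} (h : ∀ i < n, b i x' = b i x) (hs : Spl b n x) :
    Spl b n x' := by
  obtain ⟨w, hw, hw'⟩ := hs
  by_cases e : b n x' = b n x
  · exact ⟨w, fun i hi => (hw i hi).trans (h i hi).symm, by rw [e]; exact hw'⟩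
  · exact ⟨x, fun i hi => (h i hi).symm, fun e' => e e'.symm⟩

lemma ev_agree (hb : ∀ n, Continuous (b n)) (n : ℕ) (x : X) :
    ∀ᶠ x' in 𝓝 x, ∀ i < n, b i x' = b i x := by
  have : ∀ᶠ x' in 𝓝 x, ∀ i ∈ Finset.range n, b i x' = b i x := by
    rw [Filter.eventually_all_finset]
    intro i _
    exact ((IsLocallyConstant.iff_continuous _).2 (hb i)).eventually_eq x
  filter_upwards [this] with x' h i hi using h i (Finset.mem_range.2 hi)

open Classical in
/-- The coding map. -/
noncomputable def code (p : X × (ℕ → ℕ → Bool)) : ℕ → ℕ → Bool := fun n k =>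
  if Spl b n p.1 then Nat.casesOn k (b n p.1) (p.2 n) else p.2 n k

lemma code_cont (hb : ∀ n, Continuous (b n)) : Continuous (code b) := by
  classical
  refine continuous_pi fun n => continuous_pi fun k => ?_
  rw [continuous_iff_continuousAt]
  intro p
  have h1 : ∀ᶠ q in 𝓝 p, Spl b n q.1 ↔ Spl b n p.1 := by
    have := (continuous_fst (X := X) (Y := ℕ → ℕ → Bool)).continuousAt.eventually
      (ev_agree b hb n p.1)
    filter_upwards [this] with q hq
    exact ⟨spl_congr b (fun i hi => (hq i hi).symm), spl_congr b hq⟩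
  by_cases hs : Spl b n p.1
  · have : Continuous fun q : X × (ℕ → ℕ → Bool) =>
        (Nat.casesOn k (b n q.1) (q.2 n) : Bool) := by
      cases k with
      | zero => exact (hb n).comp continuous_fst
      | succ k => exact (continuous_apply k).comp ((continuous_apply n).comp continuous_snd)
    refine this.continuousAt.congr ?_
    filter_upwards [h1] with q hq
    simp only [code, hq.2 hs, if_true]
  · have : Continuous fun q : X × (ℕ → ℕ → Bool) => q.2 n k :=
      (continuous_apply k).comp ((continuous_apply n).comp continuous_snd)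
    refine this.continuousAt.congr ?_
    filter_upwards [h1] with q hq
    have : ¬ Spl b n q.1 := fun h => hs (hq.1 h)
    simp only [code, this, if_false]

omit [TopologicalSpace X] in
lemma code_inj (hsep : ∀ x x', (∀ n, b n x = b n x') → x = x') :
    Function.Injective (code b) := by
  rintro ⟨x, w⟩ ⟨x', w'⟩ h
  have h1 : ∀ n, ∀ i < n, b i x' = b i x := by
    intro n
    induction n with
    | zero => intro i hi; omega
    | succ n ih =>
      intro i hi
      rcases Nat.lt_succ_iff_lt_or_eq.1 hi with hi | rfl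
      · exact ih i hi
      by_cases hs : Spl b i x
      · have hs' := spl_congr b ih hs
        have := congrFun (congrFun h i) 0
        simp only [code, hs, hs', if_true] at this
        exact this.symm
      · by_contra hne
        exact hs ⟨x', ih, hne⟩
  have hx : x = x' := hsep _ _ fun n => (h1 (n + 1) n (Nat.lt_succ_self n)).symm
  subst hx
  congr 1
  funext n k
  by_cases hs : Spl b n x
  · have := congrFun (congrFun h n) (k + 1)
    simpa only [code, hs, if_true] using this
  · have := congrFun (congrFun h n) k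
    simpa only [code, hs, if_false] using this

lemma code_surj [CompactSpace X] [Nonempty X] (hb : ∀ n, Continuous (b n)) :
    Function.Surjective (code b) := by
  classical
  intro c
  let A : ℕ → Set X := fun n => {x | ∀ i < n, Spl b i x → b i x = c i 0}
  have hcg : ∀ n x x', (∀ i < n, b i x' = b i x) → x ∈ A n → x' ∈ A n := by
    intro n x x' h hx i hi hs
    rw [h i hi]
    exact hx i hi (spl_congr b (fun j hj => (h j (hj.trans hi)).symm) hs)
  have hne : ∀ n, (A n).Nonempty := by
    intro n
    induction n with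
    | zero => exact ⟨Classical.arbitrary X, fun i hi => by omega⟩
    | succ n ih =>
      obtain ⟨x, hx⟩ := ih
      by_cases h : Spl b n x → b n x = c n 0
      · refine ⟨x, fun i hi => ?_⟩
        rcases Nat.lt_succ_iff_lt_or_eq.1 hi with hi | rfl
        · exact hx i hi
        · exact h
      · push Not at h
        obtain ⟨⟨x', h1, h2⟩, h3⟩ := h
        refine ⟨x', fun i hi => ?_⟩
        rcases Nat.lt_succ_iff_lt_or_eq.1 hi with hi | rfl
        · exact hcg _ _ _ h1 hx i hi
        · intro _
          revert h2 h3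
          cases b i x' <;> cases b i x <;> cases c i 0 <;> simp
  have hcl : ∀ n, IsClosed (A n) := by
    intro n
    rw [← isOpen_compl_iff, isOpen_iff_mem_nhds]
    intro x hx
    filter_upwards [ev_agree b hb n x] with x' h hx'
    exact hx (hcg _ _ _ (fun i hi => (h i hi).symm) hx')
  obtain ⟨x, hx⟩ := IsCompact.nonempty_iInter_of_sequence_nonempty_isCompact_isClosed A
    (fun n x hx i hi => hx i (by omega)) hne (hcl 0).isCompact hcl
  have hx' : ∀ n, Spl b n x → b n x = c n 0 := fun n =>
    mem_iInter.1 hx (n + 1) n (Nat.lt_succ_self n)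
  refine ⟨(x, fun n k => if Spl b n x then c n (k + 1) else c n k), ?_⟩
  funext n k
  by_cases hs : Spl b n x
  · cases k with
    | zero => simp only [code, hs, if_true]; exact hx' n hs
    | succ k => simp only [code, hs, if_true]
  · simp only [code, hs, if_false]

/-- A compact space separated by countably many clopen sets, times the Cantor space, is
homeomorphic to the Cantor space. -/
theorem cantor_prod [CompactSpace X] [Nonempty X] (hb : ∀ n, Continuous (b n))
    (hsep : ∀ x x', (∀ n, b n x = b n x') → x = x') :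
    Nonempty ((X × (ℕ → ℕ → Bool)) ≃ₜ (ℕ → Bool)) := by
  let e1 : (X × (ℕ → ℕ → Bool)) ≃ₜ (ℕ → ℕ → Bool) :=
    Continuous.homeoOfEquivCompactToT2
      (f := Equiv.ofBijective (code b) ⟨code_inj b hsep, code_surj b hb⟩) (code_cont b hb)
  let e2 : (ℕ → ℕ → Bool) ≃ₜ (ℕ × ℕ → Bool) := Homeomorph.piCurry.symm
  let e3 : (ℕ × ℕ → Bool) ≃ₜ (ℕ → Bool) :=
    Homeomorph.piCongrLeft (Y := fun _ : ℕ => Bool) Nat.pairEquiv
  exact ⟨e1.trans (e2.trans e3)⟩

end Cantor

/-- The Folner condition. -/
def Fol (Γ : Type) [Group Γ] : Prop :=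
  ∀ (F : Finset Γ) (ε : ℝ), 0 < ε → ∃ S : Finset Γ, S.Nonempty ∧
    ∀ g ∈ F, ((((fun x => g * x) '' (S : Set Γ)) \ (S : Set Γ)).ncard : ℝ) < ε * (S.card : ℝ)

/-- Locally finite by cyclic groups have Folner sets. -/
theorem fol_of {Γ : Type} [Group Γ] (p : Γ →* Multiplicative ℤ) (t : Γ)
    (ht : p t = Multiplicative.ofAdd 1)
    (hl : ∀ s : Finset Γ, (∀ g ∈ s, p g = 1) → (Subgroup.closure (s : Set Γ) : Set Γ).Finite) :
    Fol Γ := by
  classical
  intro F ε hε
  let d : Γ → ℤ := fun g => Multiplicative.toAdd (p g)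
  have dmul : ∀ g h, d (g * h) = d g + d h := fun g h => by simp [d]
  have dt : ∀ k : ℤ, d (t ^ k) = k := fun k => by simp [d, map_zpow, ht]
  let M : ℕ := F.sup fun g => (d g).natAbs
  have hM : ∀ g ∈ F, (d g).natAbs ≤ M := fun g hg => Finset.le_sup (f := fun g => (d g).natAbs) hg
  obtain ⟨N, hN⟩ := exists_nat_gt ((M : ℝ) / ε)
  have hN' : (M : ℝ) < ε * N := by rwa [div_lt_iff₀' hε] at hN
  have hN0 : 0 < N := by
    rcases Nat.eq_zero_or_pos N with h | h
    · subst h
      have : (0 : ℝ) ≤ M := Nat.cast_nonneg _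
      simp at hN'
      linarith
    · exact h
  let s : Finset Γ := (Finset.range N ×ˢ F).image
    fun q => t ^ (-((q.1 : ℤ) + d q.2)) * q.2 * t ^ (q.1 : ℤ)
  have hs : ∀ g ∈ s, p g = 1 := by
    intro g hg
    obtain ⟨q, _, rfl⟩ := Finset.mem_image.1 hg
    have : d (t ^ (-((q.1 : ℤ) + d q.2)) * q.2 * t ^ (q.1 : ℤ)) = 0 := by
      rw [dmul, dmul, dt, dt]; ring
    exact this
  have hfin := hl s hs
  let H : Finset Γ := hfin.toFinset
  have hH : ∀ h, h ∈ H ↔ h ∈ Subgroup.closure (s : Set Γ) := fun h => by simp [H]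
  have hHd : ∀ h ∈ H, d h = 0 := by
    intro h hh
    have : Subgroup.closure (s : Set Γ) ≤ p.ker := by
      rw [Subgroup.closure_le]
      intro g hg
      exact hs g hg
    have := this ((hH h).1 hh)
    simp [d, MonoidHom.mem_ker.1 this]
  have hH1 : (1 : Γ) ∈ H := (hH 1).2 (one_mem _)
  have hHpos : (0 : ℝ) < H.card := by exact_mod_cast Finset.card_pos.2 ⟨1, hH1⟩
  let S : Finset Γ := (Finset.range N ×ˢ H).image fun q => t ^ (q.1 : ℤ) * q.2
  have hS : S.card = N * H.card := by
    rw [Finset.card_image_of_injOn, Finset.card_product, Finset.card_range]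
    rintro ⟨i, h⟩ h1 ⟨j, h'⟩ h2 e
    simp only [Finset.coe_product, Set.mem_prod, Finset.mem_coe] at h1 h2
    have e1 := congrArg d e
    simp only [dmul, dt, hHd _ h1.2, hHd _ h2.2, add_zero] at e1
    have : i = j := by exact_mod_cast e1
    subst this
    simp only [mul_right_inj] at e
    rw [e]
  refine ⟨S, ⟨t ^ ((0 : ℕ) : ℤ) * 1, Finset.mem_image.2 ⟨(0, 1), by simp [hN0, hH1], rfl⟩⟩, ?_⟩
  intro g hg
  let B : Finset ℕ := (Finset.range N).filter fun i => ¬ (0 ≤ (i : ℤ) + d g ∧ (i : ℤ) + d g < N)
  have hB : B.card ≤ M := by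
    have h1 := hM g hg
    rcases le_total 0 (d g) with h | h
    · have : B ⊆ Finset.Ico (N - M) N := by
        intro i hi
        simp only [B, Finset.mem_filter, Finset.mem_range] at hi
        simp only [Finset.mem_Ico]
        omega
      refine (Finset.card_le_card this).trans ?_
      simp only [Nat.card_Ico]
      omega
    · have : B ⊆ Finset.range M := by
        intro i hi
        simp only [B, Finset.mem_filter, Finset.mem_range] at hi
        simp only [Finset.mem_range]
        omega
      simpa using Finset.card_le_card this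
  have hsub : ((fun x => g * x) '' (S : Set Γ)) \ (S : Set Γ) ⊆
      (((B ×ˢ H).image fun q => g * (t ^ (q.1 : ℤ) * q.2) : Finset Γ) : Set Γ) := by
    rintro _ ⟨⟨x, hx, rfl⟩, hn⟩
    obtain ⟨⟨i, h⟩, hq, rfl⟩ := Finset.mem_image.1 hx
    simp only [Finset.mem_product] at hq
    refine Finset.mem_coe.2 (Finset.mem_image.2 ⟨(i, h), ?_, rfl⟩)
    simp only [Finset.mem_product, B, Finset.mem_filter]
    refine ⟨⟨hq.1, fun hc => hn ?_⟩, hq.2⟩
    refine Finset.mem_coe.2 (Finset.mem_image.2
      ⟨(((i : ℤ) + d g).toNat, (t ^ (-((i : ℤ) + d g)) * g * t ^ (i : ℤ)) * h), ?_, ?_⟩)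
    · simp only [Finset.mem_product, Finset.mem_range]
      refine ⟨by omega, (hH _).2 (mul_mem (Subgroup.subset_closure ?_) ((hH _).1 hq.2))⟩
      exact Finset.mem_coe.2 (Finset.mem_image.2 ⟨(i, g), by simp [hq.1, hg, Finset.mem_range.1 hq.1], rfl⟩)
    · simp only [Int.toNat_of_nonneg hc.1]
      group
  have h1 := Set.ncard_le_ncard hsub (Finset.finite_toSet _)
  rw [Set.ncard_coe_finset] at h1
  have h2 : ((B ×ˢ H).image fun q => g * (t ^ (q.1 : ℤ) * q.2)).card ≤ M * H.card :=
    Finset.card_image_le.trans (by rw [Finset.card_product]; exact Nat.mul_le_mul_right _ hB)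
  have h3 : ((((fun x => g * x) '' (S : Set Γ)) \ (S : Set Γ)).ncard : ℝ) ≤ M * H.card := by
    exact_mod_cast h1.trans h2
  rw [hS]
  push_cast
  nlinarith

end Pool.Agent.H89.BA
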