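import Mathlib

set_option autoImplicit false

namespace Pool.Agent.H89.WO

open Set FirstOrder FirstOrder.Language Cardinal

theorem bf {A B : Type} [Countable A] [Countable B] (R : ∀ ι : Type, (ι → A × B) → Prop)
    (hre : ∀ ι κ p, R ι p → ∀ f : κ → ι, R κ (p ∘ f))
    (forth : ∀ ι [Finite ι] p, R ι p → ∀ x, ∃ y, R (Option ι) fun o => o.elim (x, y) p)
    (back : ∀ ι [Finite ι] p, R ι p → ∀ y, ∃ x, R (Option ι) fun o => o.elim (x, y) p)
    (heq : ∀ ι p, R ι p → ∀ i j, (p i).1 = (p j).1 ↔ (p i).2 = (p j).2)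
    (ι0 : Type) [Finite ι0] (p0 : ι0 → A × B) (h0 : R ι0 p0) :
    ∃ e : A ≃ B, (∀ i, e (p0 i).1 = (p0 i).2) ∧
      ∀ (ι : Type) [Finite ι] (a : ι → A), R ι fun i => (a i, e (a i)) := by
  classical
  have fac : ∀ (ι : Type) (p : ι → A × B) (s : Finset (A × B)), R ι p → (∀ z ∈ s, ∃ i, p i = z) →
      R s Subtype.val := fun ι p s h1 h2 => by
    choose f hf using fun z : s => h2 z.1 z.2
    convert hre ι s p h1 f using 1
    exact funext fun z => (hf z).symm
  let P := {s : Finset (A × B) // R s Subtype.val}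
  have ins : ∀ (s : P) z, R (Option s.1) (fun o => o.elim z Subtype.val) →
      ∃ t : P, z ∈ t.1 ∧ s ≤ t := fun s z h =>
    ⟨⟨insert z s.1, fac _ _ _ h fun w hw => by
      rcases Finset.mem_insert.1 hw with rfl | hw
      exacts [⟨none, rfl⟩, ⟨some ⟨w, hw⟩, rfl⟩]⟩, Finset.mem_insert_self _ _,
      Finset.subset_insert _ _⟩
  let D : A ⊕ B → Order.Cofinal P := fun c => match c with
    | .inl x => ⟨{s | ∃ y, (x, y) ∈ s.1}, fun s => by
        obtain ⟨y, hy⟩ := forth _ _ s.2 x
        obtain ⟨t, h1, h2⟩ := ins s _ hy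
        exact ⟨t, ⟨y, h1⟩, h2⟩⟩
    | .inr y => ⟨{s | ∃ x, (x, y) ∈ s.1}, fun s => by
        obtain ⟨x, hx⟩ := back _ _ s.2 y
        obtain ⟨t, h1, h2⟩ := ins s _ hx
        exact ⟨t, ⟨x, h1⟩, h2⟩⟩
  cases nonempty_encodable (A ⊕ B)
  cases nonempty_fintype ι0
  let s0 : P := ⟨Finset.univ.image p0, fac _ _ _ h0 fun z hz => by simpa using hz⟩
  let q := Order.sequenceOfCofinals s0 D
  have qm : Monotone q := Order.sequenceOfCofinals.monotone s0 D
  have all : ∀ (ι : Type) [Finite ι] (p : ι → A × B), (∀ i, ∃ n, p i ∈ (q n).1) → R ι p := by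
    intro ι _ p h
    choose n hn using h
    obtain ⟨N, hN⟩ := (Set.finite_range n).bddAbove
    exact hre _ _ _ (q N).2 fun i => ⟨p i, qm (hN ⟨i, rfl⟩) (hn i)⟩
  choose f hf using fun x => Order.sequenceOfCofinals.encode_mem s0 D (.inl x)
  choose g hg using fun y => Order.sequenceOfCofinals.encode_mem s0 D (.inr y)
  have two : ∀ z w : A × B, (∃ n, z ∈ (q n).1) → (∃ n, w ∈ (q n).1) → (z.1 = w.1 ↔ z.2 = w.2) :=
    fun z w hz hw => heq Bool (fun b => cond b z w) (all _ _ fun b => by cases b <;> assumption)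
      true false
  refine ⟨⟨f, g, fun x => (two _ _ ⟨_, hg _⟩ ⟨_, hf x⟩).2 rfl,
    fun y => (two _ _ ⟨_, hf _⟩ ⟨_, hg y⟩).1 rfl⟩, fun i => ?_, fun ι _ a => all _ _ fun i => ⟨_, hf _⟩⟩
  exact (two _ _ ⟨_, hf _⟩ ⟨0, Finset.mem_image_of_mem p0 (Finset.mem_univ i)⟩).1 rfl

theorem cat {L : FirstOrder.Language.{0, 0}} [L.IsRelational] (M : Type) [L.Structure M] [Countable M]
    (h : ∀ (ι : Type) [Finite ι], ∃ (κ : Type) (_ : Finite κ) (ω : κ → L.Formula ι),
      (∀ x : ι → M, ∃ k, (ω k).Realize x) ∧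
      ∀ k (x y : ι → M), (ω k).Realize x → (ω k).Realize y → ∃ g : M ≃[L] M, g ∘ x = y) :
    Cardinal.Categorical aleph0.{0} (L.completeTheory M) := by
  suffices ∀ N : (L.completeTheory M).ModelType.{0, 0, 0}, #N = ℵ₀ → Nonempty (M ≃[L] N) from
    fun N N' a b => ⟨(this N' b).some.comp (this N a).some.symm⟩
  intro N hN
  haveI : Countable N := mk_le_aleph0_iff.1 hN.le
  have tr0 : ∀ φ : L.Sentence, M ⊨ φ → N ⊨ φ := fun φ h => Theory.realize_sentence_of_mem
    (L.completeTheory M) h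
  have tr : ∀ (ι : Type) [Finite ι] (ψ : L.Formula ι), (∀ x : ι → M, ψ.Realize x) →
      ∀ y : ι → N, ψ.Realize y := fun ι _ ψ h y => by
    have := tr0 ((ψ.relabel Sum.inr).iAlls ι) (by
      simp only [Sentence.Realize, Formula.realize_iAlls, Formula.realize_relabel]
      exact fun i => h _)
    simp only [Sentence.Realize, Formula.realize_iAlls, Formula.realize_relabel] at this
    exact this y
  let R : ∀ ι : Type, (ι → M × N) → Prop := fun ι p =>
    ∀ φ : L.Formula ι, φ.Realize (fun i => (p i).1) ↔ φ.Realize fun i => (p i).2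
  have key : ∀ (ι : Type) [Finite ι] (ω : L.Formula ι) (p : ι → M × N),
      (∀ x y : ι → M, ω.Realize x → ω.Realize y → ∃ g : M ≃[L] M, g ∘ x = y) →
      ω.Realize (fun i => (p i).1) → ω.Realize (fun i => (p i).2) → R ι p := by
    intro ι _ ω p h1 h2 h3
    have : ∀ φ : L.Formula ι, φ.Realize (fun i => (p i).1) → φ.Realize fun i => (p i).2 :=
      fun φ hφ => Formula.realize_imp.1 (tr ι (ω.imp φ) (fun x => Formula.realize_imp.2 fun hx => by
        obtain ⟨g, rfl⟩ := h1 _ x h2 hx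
        exact (StrongHomClass.realize_formula g φ).2 hφ) _) h3
    exact fun φ => ⟨this φ, fun h => by_contra fun h' =>
      Formula.realize_not.1 (this φ.not (Formula.realize_not.2 h')) h⟩
  have ex : ∀ (ι : Type) (ω : L.Formula (Option ι)), ∃ φ : L.Formula ι, ∀ (K : Type) [L.Structure K]
      (v : ι → K), φ.Realize v ↔ ∃ y, ω.Realize fun o => o.elim y v := fun ι ω => by
    refine ⟨(ω.relabel fun o => o.elim (Sum.inr ()) Sum.inl).iExs Unit, fun K _ v => ?_⟩
    simp only [Formula.realize_iExs, Formula.realize_relabel]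
    have : ∀ y : Unit → K, (fun a => Sum.elim v y a) ∘
        (fun o : Option ι => o.elim (Sum.inr ()) Sum.inl) = fun o => o.elim (y ()) v :=
      fun y => funext fun o => by cases o <;> rfl
    simp only [this]
    exact ⟨fun ⟨y, h⟩ => ⟨_, h⟩, fun ⟨y, h⟩ => ⟨fun _ => y, h⟩⟩
  have e1 : ∀ (ι : Type) (p : ι → M × N) x y, (fun o : Option ι => (o.elim (x, y) p).1) =
      fun o => o.elim x fun i => (p i).1 := fun _ _ _ _ => funext fun o => by cases o <;> rfl
  have e2 : ∀ (ι : Type) (p : ι → M × N) x y, (fun o : Option ι => (o.elim (x, y) p).2) =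
      fun o => o.elim y fun i => (p i).2 := fun _ _ _ _ => funext fun o => by cases o <;> rfl
  obtain ⟨e, -, he⟩ := bf R (fun ι κ p h f φ => by
      simpa only [Formula.realize_relabel] using! h (φ.relabel f))
    (fun ι _ p hp x => by
      obtain ⟨κ, _, ω, h1, h2⟩ := h (Option ι)
      obtain ⟨k, hk⟩ := h1 fun o => o.elim x fun i => (p i).1
      obtain ⟨φ, hφ⟩ := ex ι (ω k)
      obtain ⟨y, hy⟩ := (hφ _ _).1 ((hp φ).1 ((hφ _ _).2 ⟨x, hk⟩))
      exact ⟨y, key _ _ _ (h2 k) (by rwa [e1]) (by rwa [e2])⟩)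
    (fun ι _ p hp y => by
      obtain ⟨κ, _, ω, h1, h2⟩ := h (Option ι)
      obtain ⟨k, hk⟩ := Formula.realize_iSup.1 (tr _ (Formula.iSup ω)
        (fun x => Formula.realize_iSup.2 (h1 x)) fun o => o.elim y fun i => (p i).2)
      obtain ⟨φ, hφ⟩ := ex ι (ω k)
      obtain ⟨x, hx⟩ := (hφ _ _).1 ((hp φ).2 ((hφ _ _).2 ⟨y, hk⟩))
      exact ⟨x, key _ _ _ (h2 k) (by rwa [e1]) (by rwa [e2])⟩)
    (fun ι p h i j => by simpa using h (Term.equal (Term.var i) (Term.var j)))
    Empty Empty.elim fun φ => by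
      rw [Subsingleton.elim (α := Empty → M) (fun i => _) default,
        Subsingleton.elim (α := Empty → N) (fun i => _) default]
      exact ⟨tr0 φ, fun h => by_contra fun h' =>
        (Sentence.realize_not N).1 (tr0 φ.not ((Sentence.realize_not M).2 h')) h⟩
  refine ⟨⟨e, fun f => isEmptyElim f, fun {n} r x => ?_⟩⟩
  simpa using! (he (Fin n) x (r.formula Term.var)).symm

theorem noncat {L : FirstOrder.Language.{0, 0}} (hL : L.card ≤ ℵ₀) (M : Type) [L.Structure M]
    (hM : #M = ℵ₀) (φ : ℕ → (ℕ → Bool) → L.Formula (Fin 2))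
    (h1 : ∀ n s, ∃ v : Fin 2 → M, ∀ k ≤ n, (φ k s).Realize v)
    (h2 : ∀ s s' (v : Fin 2 → M), (∀ n, (φ n s).Realize v) → (∀ n, (φ n s').Realize v) → s = s') :
    ¬Cardinal.Categorical aleph0.{0} (L.completeTheory M) := by
  intro hc
  haveI : Countable M := mk_le_aleph0_iff.1 hM.le
  haveI : Infinite M := infinite_iff.2 hM.ge
  suffices ∀ s, ∃ v : Fin 2 → M, ∀ n, (φ n s).Realize v by
    choose v hv using this
    have : Function.Injective v := fun s s' h => h2 s s' _ (hv s) (h ▸ hv s')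
    have := mk_le_aleph0_iff.2 this.countable
    simp at this
    exact absurd this (not_le.2 aleph0_lt_continuum)
  intro s
  let T : ℕ → L[[Fin 2]].Theory := fun n => (L.lhomWithConstants (Fin 2)).onTheory
    (L.completeTheory M) ∪ (fun k => Formula.equivSentence (φ k s)) '' Iic n
  have sat : Theory.IsSatisfiable (⋃ n, T n) := by
    rw [Theory.isSatisfiable_directed_union_iff (Monotone.directed_le fun a b h =>
      union_subset_union_right _ (image_mono (Iic_subset_Iic.2 h)))]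
    intro n
    obtain ⟨v, hv⟩ := h1 n s
    letI : (constantsOn (Fin 2)).Structure M := constantsOn.structure v
    haveI : M ⊨ T n := by
      rw [Theory.model_union_iff]
      refine ⟨(LHom.onTheory_model _ _).2 inferInstance, ⟨?_⟩⟩
      rintro _ ⟨k, hk, rfl⟩
      exact (Formula.realize_equivSentence M _).2 (hv k hk)
    exact Theory.Model.isSatisfiable M
  have sub : (L.lhomWithConstants (Fin 2)).onTheory (L.completeTheory M) ⊆ ⋃ n, T n :=
    subset_union_left.trans (subset_iUnion T 0)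
  obtain ⟨N0⟩ := sat
  obtain ⟨N, hN⟩ := Theory.exists_model_card_eq ⟨N0, by
    have : ((N0.subtheoryModel sub).reduct _) ⊨ L.infiniteTheory :=
      ((N0.subtheoryModel sub).reduct _).is_model.mono
        (Theory.completeTheory.subset (T := L.infiniteTheory))
    exact (model_infiniteTheory_iff L).1 this⟩ aleph0.{0} le_rfl (by
      simp only [lift_id, card_withConstants, mk_fintype, Fintype.card_fin, lift_natCast]
      exact add_le_aleph0.2 ⟨hL, natCast_le_aleph0⟩)
  obtain ⟨e⟩ := hc ((N.subtheoryModel sub).reduct _) (Theory.ModelType.of _ M) hN hM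
  refine ⟨e ∘ fun a => (L.con a : N), fun n => (StrongHomClass.realize_formula e _).2 ?_⟩
  have hh : N ⊨ Formula.equivSentence (φ n s) := Theory.realize_sentence_of_mem (⋃ n, T n)
    (mem_iUnion.2 ⟨n, Or.inr ⟨n, self_mem_Iic, rfl⟩⟩)
  exact (@Formula.realize_equivSentence L N ((L.lhomWithConstants (Fin 2)).reduct N) _ _
    (LHom.isExpansionOn_reduct (L.lhomWithConstants (Fin 2)) N) _).1 hh

end Pool.Agent.H89.WO
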