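import Mathlib

set_option autoImplicit false

namespace Pool.Agent.H89.CR

open Finset
open scoped Classical

variable {V : Type} (adj : V → V → Prop)

/-- reachability inside `S`. -/
def Rch (S : Finset V) : V → V → Prop :=
  Relation.ReflTransGen fun a b => adj a b ∧ a ∈ S ∧ b ∈ S

/-- connected set -/
def Conn (S : Finset V) : Prop := S.Nonempty ∧ ∀ x ∈ S, ∀ y ∈ S, Rch adj S x y

/-- component -/
noncomputable def comp (S : Finset V) (x : V) : Finset V := S.filter (Rch adj S x)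

/-- covey -/
def Cov (K : Finset (Finset V)) : Prop :=
  (∀ C ∈ K, Conn adj C) ∧
    ∀ C ∈ K, ∀ D ∈ K, C ≠ D → Disjoint C D ∧ ∃ a ∈ C, ∃ b ∈ D, adj a b

variable {adj}

theorem Rch.mono {S T : Finset V} (h : S ⊆ T) {x y : V} (r : Rch adj S x y) : Rch adj T x y :=
  by
  induction r with
  | refl => exact Relation.ReflTransGen.refl
  | tail _ k ih => exact ih.tail ⟨k.1, h k.2.1, h k.2.2⟩

theorem sum_un (c : V → ℕ) (S T : Finset V) :
    ∑ v ∈ S ∪ T, c v ≤ ∑ v ∈ S, c v + ∑ v ∈ T, c v := by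
  rw [← sum_union_inter]; omega

theorem sum_bu (c : V → ℕ) {ι : Type} (I : Finset ι) (T : ι → Finset V) :
    ∑ v ∈ I.biUnion T, c v ≤ ∑ i ∈ I, ∑ v ∈ T i, c v := by
  induction I using Finset.induction_on with
  | empty => simp
  | insert a s ha ih =>
    rw [biUnion_insert, sum_insert ha]
    exact (sum_un c _ _).trans (Nat.add_le_add_left ih _)

theorem Rch.symm (hs : ∀ a b, adj a b → adj b a) {S : Finset V} {x y : V} (r : Rch adj S x y) :
    Rch adj S y x := by
  induction r with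
  | refl => exact Relation.ReflTransGen.refl
  | tail _ k ih => exact Relation.ReflTransGen.head ⟨hs _ _ k.1, k.2.2, k.2.1⟩ ih

theorem Rch.ind {S : Finset V} {x : V} (P : V → Prop) (h0 : P x)
    (h1 : ∀ a b, P a → adj a b → a ∈ S → b ∈ S → P b) {y : V} (r : Rch adj S x y) : P y := by
  induction r with
  | refl => exact h0
  | tail _ k ih => exact h1 _ _ ih k.1 k.2.1 k.2.2

theorem Rch.restrict {S T : Finset V} {x : V} (hx : x ∈ T)
    (h1 : ∀ a b, Rch adj S x a → a ∈ T → adj a b → a ∈ S → b ∈ S → b ∈ T) {y : V}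
    (r : Rch adj S x y) : y ∈ T ∧ Rch adj T x y := by
  induction r with
  | refl => exact ⟨hx, Relation.ReflTransGen.refl⟩
  | tail r k ih =>
    have := h1 _ _ r ih.1 k.1 k.2.1 k.2.2
    exact ⟨this, ih.2.tail ⟨k.1, ih.1, this⟩⟩

theorem mem_comp {S : Finset V} {x y : V} : y ∈ comp adj S x ↔ y ∈ S ∧ Rch adj S x y :=
  mem_filter

theorem comp_sub (S : Finset V) (x : V) : comp adj S x ⊆ S := filter_subset _ _

theorem self_mem {S : Finset V} {x : V} (h : x ∈ S) : x ∈ comp adj S x :=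
  mem_comp.2 ⟨h, Relation.ReflTransGen.refl⟩

theorem comp_step {S : Finset V} {x a b : V} (ha : a ∈ comp adj S x) (h : adj a b) (hb : b ∈ S) :
    b ∈ comp adj S x :=
  mem_comp.2 ⟨hb, (mem_comp.1 ha).2.tail ⟨h, (mem_comp.1 ha).1, hb⟩⟩

theorem rch_comp {S : Finset V} {x y : V} (hx : x ∈ S) (r : Rch adj S x y) :
    Rch adj (comp adj S x) x y :=
  (r.restrict (self_mem hx) fun _ _ _ ha h _ hb => comp_step ha h hb).2

theorem conn_of (hs : ∀ a b, adj a b → adj b a) {S : Finset V} {x : V} (hx : x ∈ S)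
    (h : ∀ y ∈ S, Rch adj S x y) : Conn adj S :=
  ⟨⟨x, hx⟩, fun a ha b hb => ((h a ha).symm hs).trans (h b hb)⟩

theorem conn_comp (hs : ∀ a b, adj a b → adj b a) {S : Finset V} {x : V} (hx : x ∈ S) :
    Conn adj (comp adj S x) :=
  conn_of hs (self_mem hx) fun _ hy => rch_comp hx (mem_comp.1 hy).2

theorem comp_eq (hs : ∀ a b, adj a b → adj b a) {S : Finset V} {x y : V}
    (h : Rch adj S x y) : comp adj S x = comp adj S y := by
  ext z
  rw [mem_comp, mem_comp]
  exact ⟨fun k => ⟨k.1, (h.symm hs).trans k.2⟩, fun k => ⟨k.1, h.trans k.2⟩⟩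

theorem cnt (W : ℕ → Prop) (hW : ∀ a b, a ≤ b → W a → W b) (c r : ℕ) :
    ((range r).filter fun t => W (t + c) ∧ ¬ W t).card ≤ c := by
  set F := (range r).filter fun t => W (t + c) ∧ ¬ W t
  rcases F.eq_empty_or_nonempty with h | h
  · simp [h]
  · have : F ⊆ Ico (F.min' h) (F.min' h + c) := by
      intro t ht
      rw [mem_Ico]
      refine ⟨F.min'_le t ht, ?_⟩
      by_contra k
      exact (mem_filter.1 ht).2.2 (hW _ _ (not_lt.1 k) (mem_filter.1 (F.min'_mem h)).2.1)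
    simpa using card_le_card this

theorem key (hs : ∀ a b, adj a b → adj b a) (c : V → ℕ) {ι : Type} (B : Finset V)
    (I : Finset ι) (A : ι → Finset V) (r : ℕ) (hr : 0 < r) :
    (∃ T ⊆ B, Conn adj T ∧ r * ∑ v ∈ T, c v ≤ (I.card + 1) * r ^ 2 + ∑ v ∈ B, c v ^ 2 ∧
      ∀ i ∈ I, ∃ a ∈ T, a ∈ A i) ∨
    ∃ Z ⊆ B, r * ∑ v ∈ Z, c v ≤ I.card * ∑ v ∈ B, c v ^ 2 ∧
      ∀ x ∈ B \ Z, ∃ i ∈ I, ∀ a ∈ comp adj (B \ Z) x, a ∉ A i := by
  let W : ι → V → ℕ → Prop := fun i v t =>
    ∃ T ⊆ B, v ∈ T ∧ (∀ y ∈ T, Rch adj T v y) ∧ ∑ v ∈ T, c v ≤ t ∧ ∃ a ∈ T, a ∈ A i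
  have Wm : ∀ i v a b, a ≤ b → W i v a → W i v b := by
    rintro i v a b h ⟨T, h1, h2, h3, h4, h5⟩
    exact ⟨T, h1, h2, h3, h4.trans h, h5⟩
  by_cases h : ∃ v ∈ B, ∀ i ∈ I, W i v r
  · left
    obtain ⟨v, hv, h⟩ := h
    choose! T h1 h2 h3 h4 h5 using h
    refine ⟨insert v (I.biUnion T), ?_, conn_of hs (mem_insert_self _ _) ?_, ?_, ?_⟩
    · exact insert_subset hv (biUnion_subset.2 h1)
    · intro y hy
      rcases mem_insert.1 hy with rfl | hy
      · exact Relation.ReflTransGen.refl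
      · obtain ⟨i, hi, hy⟩ := mem_biUnion.1 hy
        exact (h3 i hi y hy).mono ((subset_biUnion_of_mem T hi).trans (subset_insert _ _))
    · have e1 : ∑ v ∈ insert v (I.biUnion T), c v ≤ c v + ∑ v ∈ I.biUnion T, c v := by
        by_cases k : v ∈ I.biUnion T
        · rw [insert_eq_of_mem k]; omega
        · rw [sum_insert k]
      have e2 : ∑ v ∈ I.biUnion T, c v ≤ ∑ i ∈ I, ∑ v ∈ T i, c v :=
        sum_bu c I T
      have e3 : ∑ i ∈ I, ∑ v ∈ T i, c v ≤ I.card * r := by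
        simpa using sum_le_card_nsmul I _ r h4
      have e4 : c v ^ 2 ≤ ∑ v ∈ B, c v ^ 2 :=
        single_le_sum (f := fun v => c v ^ 2) (fun _ _ => Nat.zero_le _) hv
      have e5 : r * c v ≤ r ^ 2 + c v ^ 2 := by nlinarith [sq_nonneg ((r : ℤ) - c v)]
      have e6 := Nat.mul_le_mul_left r (e1.trans (Nat.add_le_add_left (e2.trans e3) _))
      nlinarith
    · intro i hi
      obtain ⟨a, ha, ha'⟩ := h5 i hi
      exact ⟨a, mem_insert_of_mem (mem_biUnion.2 ⟨i, hi, ha⟩), ha'⟩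
  · right
    let Z : ℕ → Finset V := fun t => B.filter fun v => ∃ i ∈ I, W i v (t + c v) ∧ ¬ W i v t
    have e : ∑ t ∈ range r, r * ∑ v ∈ Z t, c v ≤
        ∑ _t ∈ range r, I.card * ∑ v ∈ B, c v ^ 2 := by
      rw [← mul_sum, sum_const, card_range, smul_eq_mul]
      refine Nat.mul_le_mul_left r ?_
      have e1 : ∀ t, ∑ v ∈ Z t, c v ≤
          ∑ v ∈ B, ∑ i ∈ I, if W i v (t + c v) ∧ ¬ W i v t then c v else 0 := by
        intro t
        rw [sum_filter]
        refine sum_le_sum fun v _ => ?_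
        split_ifs with k
        · obtain ⟨i, hi, k⟩ := k
          refine le_trans ?_ (single_le_sum (f := fun i =>
            if W i v (t + c v) ∧ ¬ W i v t then c v else 0) (fun _ _ => Nat.zero_le _) hi)
          simp [k]
        · exact Nat.zero_le _
      refine (sum_le_sum fun t _ => e1 t).trans ?_
      rw [sum_comm, mul_sum]
      refine sum_le_sum fun v _ => ?_
      rw [sum_comm]
      refine (sum_le_card_nsmul I _ (c v ^ 2) fun i _ => ?_).trans (by simp)
      rw [← sum_filter, sum_const, smul_eq_mul, sq]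
      exact Nat.mul_le_mul_right _ (by convert cnt (W i v) (Wm i v) (c v) r)
    obtain ⟨t, ht, e⟩ := exists_le_of_sum_le (nonempty_range_iff.2 hr.ne') e
    refine ⟨Z t, filter_subset _ _, e, fun x hx => ?_⟩
    by_contra k
    push Not at k
    have nz : ∀ v ∈ B \ Z t, ∀ i ∈ I, W i v (t + c v) → W i v t := by
      intro v hv i hi k
      by_contra k'
      exact (mem_sdiff.1 hv).2 (mem_filter.2 ⟨(mem_sdiff.1 hv).1, i, hi, k, k'⟩)
    refine h ⟨x, (mem_sdiff.1 hx).1, fun i hi => Wm _ _ t _ (mem_range.1 ht).le ?_⟩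
    obtain ⟨a, ha, ha'⟩ := k i hi
    refine ((mem_comp.1 ha).2.symm hs).ind (fun v => W i v t) ?_ ?_
    · have hB := (mem_comp.1 ha).1
      refine nz a hB i hi ⟨{a}, by simpa using (mem_sdiff.1 hB).1, by simp, ?_, by simp,
        a, by simp, ha'⟩
      intro y hy
      rw [mem_singleton.1 hy]
      exact Relation.ReflTransGen.refl
    · rintro u v ⟨T, h1, h2, h3, h4, b, h5, h6⟩ huv _ hv
      refine nz v hv i hi ⟨insert v T, insert_subset (mem_sdiff.1 hv).1 h1, by simp, ?_, ?_,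
        b, mem_insert_of_mem h5, h6⟩
      · intro y hy
        rcases mem_insert.1 hy with rfl | hy
        · exact Relation.ReflTransGen.refl
        · exact Relation.ReflTransGen.head ⟨hs _ _ huv, by simp, mem_insert_of_mem h2⟩
            ((h3 y hy).mono (subset_insert _ _))
      · by_cases k : v ∈ T
        · rw [insert_eq_of_mem k]; omega
        · rw [sum_insert k]; omega

end Pool.Agent.H89.CR
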