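import Mathlib
import Pool.Agent.H89.CR1

set_option autoImplicit false

namespace Pool.Agent.H89.CR

open Finset
open scoped Classical

variable {V : Type} {adj : V → V → Prop}

/-- outer neighbourhood -/
noncomputable def nb (adj : V → V → Prop) (U B : Finset V) : Finset V :=
  U.filter fun v => v ∉ B ∧ ∃ b ∈ B, adj v b

theorem fin (hs : ∀ a b, adj a b → adj b a) (w : V → ℕ) (U B Z : Finset V) (hB : B ⊆ U)
    (hw : ∑ v ∈ U, w v < 2 * ∑ v ∈ B, w v)
    (h : ∀ x ∈ B \ Z, 2 * ∑ v ∈ comp adj (B \ Z) x, w v ≤ ∑ v ∈ U, w v) :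
    ∀ x ∈ U \ (nb adj U B ∪ Z),
      2 * ∑ v ∈ comp adj (U \ (nb adj U B ∪ Z)) x, w v ≤ ∑ v ∈ U, w v := by
  intro x hx
  by_cases hxB : x ∈ B
  · have hx' : x ∈ B \ Z := mem_sdiff.2 ⟨hxB, fun k => (mem_sdiff.1 hx).2 (mem_union_right _ k)⟩
    refine le_trans (Nat.mul_le_mul_left 2 (sum_le_sum_of_subset fun y hy => ?_)) (h x hx')
    refine mem_comp.2 ((mem_comp.1 hy).2.restrict hx' fun a b _ ha hab _ hb => ?_)
    rw [mem_sdiff, mem_union, not_or] at hb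
    refine mem_sdiff.2 ⟨?_, hb.2.2⟩
    by_contra k
    exact hb.2.1 (mem_filter.2 ⟨hb.1, k, a, (mem_sdiff.1 ha).1, hs _ _ hab⟩)
  · have : comp adj (U \ (nb adj U B ∪ Z)) x ⊆ U \ B := by
      intro y hy
      refine mem_sdiff.2 ⟨(mem_sdiff.1 (mem_comp.1 hy).1).1, ?_⟩
      refine (mem_comp.1 hy).2.ind (fun y => y ∉ B) hxB fun a b ha hab ha' _ k => ?_
      rw [mem_sdiff, mem_union, not_or] at ha'
      exact ha'.2.1 (mem_filter.2 ⟨ha'.1, ha, b, k, hab⟩)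
    have e1 := sum_le_sum_of_subset (f := w) this
    have e2 := sum_sdiff (f := w) hB
    omega

theorem ast (hs : ∀ a b, adj a b → adj b a) (h5 : ∀ K, Cov adj K → K.card ≤ 4) (c w : V → ℕ)
    (U : Finset V) (r : ℕ) (hr : 0 < r) (M : ℕ) (hM : M = 5 * r ^ 2 + 4 * ∑ v ∈ U, c v ^ 2) :
    ∀ (n : ℕ) (B : Finset V) (K : Finset (Finset V)), 2 * B.card + K.card = n → B ⊆ U →
      Cov adj K → (∀ C ∈ K, Disjoint C B) → (∀ v ∈ nb adj U B, ∃ C ∈ K, v ∈ C) →
      (∀ C ∈ K, r * ∑ v ∈ nb adj U B ∩ C, c v ≤ M) → ∑ v ∈ U, w v < 2 * ∑ v ∈ B, w v →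
      ∃ Z ⊆ U, r * ∑ v ∈ Z, c v ≤ 5 * M ∧
        ∀ x ∈ U \ Z, 2 * ∑ v ∈ comp adj (U \ Z) x, w v ≤ ∑ v ∈ U, w v := by
  intro n
  induction n using Nat.strong_induction_on with
  | _ n ih =>
  intro B K hn hB hK hd hN hc hw
  have hK4 := h5 K hK
  have done : ∀ Z ⊆ B, r * ∑ v ∈ Z, c v ≤ M →
      (∀ x ∈ B \ Z, 2 * ∑ v ∈ comp adj (B \ Z) x, w v ≤ ∑ v ∈ U, w v) →
      ∃ Z ⊆ U, r * ∑ v ∈ Z, c v ≤ 5 * M ∧
        ∀ x ∈ U \ Z, 2 * ∑ v ∈ comp adj (U \ Z) x, w v ≤ ∑ v ∈ U, w v := by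
    intro Z hZ h1 h2
    refine ⟨nb adj U B ∪ Z, union_subset (filter_subset _ _) (hZ.trans hB), ?_,
      fin hs w U B Z hB hw h2⟩
    have e1 : nb adj U B ⊆ K.biUnion fun C => nb adj U B ∩ C := fun v hv => by
      obtain ⟨C, h1, h2⟩ := hN v hv
      exact mem_biUnion.2 ⟨C, h1, mem_inter.2 ⟨hv, h2⟩⟩
    have e2 := Nat.mul_le_mul_left r ((sum_le_sum_of_subset (f := c) e1).trans (sum_bu c _ _))
    rw [mul_sum K] at e2
    have e3 := sum_le_card_nsmul K _ M hc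
    have e4 := Nat.mul_le_mul_left r (sum_un c (nb adj U B) Z)
    have e5 := Nat.mul_le_mul_right M hK4
    rw [smul_eq_mul] at e3
    rw [mul_add] at e4
    omega
  by_cases h0 : ∃ C ∈ K, ∀ a ∈ C, ∀ b ∈ B, ¬ adj a b
  · obtain ⟨C, hC, h0⟩ := h0
    refine ih _ ?_ B (K.erase C) rfl hB ⟨fun D hD => hK.1 D (mem_of_mem_erase hD),
      fun D hD E hE => hK.2 D (mem_of_mem_erase hD) E (mem_of_mem_erase hE)⟩
      (fun D hD => hd D (mem_of_mem_erase hD)) (fun v hv => ?_)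
      (fun D hD => hc D (mem_of_mem_erase hD)) hw
    · have := card_erase_lt_of_mem hC
      omega
    · obtain ⟨D, h1, h2⟩ := hN v hv
      refine ⟨D, mem_erase.2 ⟨?_, h1⟩, h2⟩
      rintro rfl
      obtain ⟨-, -, b, h3, h4⟩ := mem_filter.1 hv
      exact h0 v h2 b h3 h4
  push Not at h0
  have hQ : ∑ v ∈ B, c v ^ 2 ≤ ∑ v ∈ U, c v ^ 2 := sum_le_sum_of_subset hB
  have nbs : ∀ D : Finset V, ∀ v ∈ nb adj U (B \ D), v ∈ nb adj U B ∨ (v ∈ D ∧ v ∈ B) := by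
    intro D v hv
    obtain ⟨h1, h2, b, h3, h4⟩ := mem_filter.1 hv
    by_cases k : v ∈ B
    · right
      by_contra k'
      exact h2 (mem_sdiff.2 ⟨k, fun e => k' ⟨e, k⟩⟩)
    · exact Or.inl (mem_filter.2 ⟨h1, k, b, (mem_sdiff.1 h3).1, h4⟩)
  have cst : ∀ D : Finset V, ∀ C ∈ K, r * ∑ v ∈ nb adj U (B \ D) ∩ C, c v ≤ M := by
    intro D C hC
    refine le_trans (Nat.mul_le_mul_left r (sum_le_sum_of_subset fun v hv => ?_)) (hc C hC)
    rw [mem_inter] at hv ⊢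
    rcases nbs D v hv.1 with k | k
    · exact ⟨k, hv.2⟩
    · exact absurd k.2 (disjoint_left.1 (hd C hC) hv.2)
  rcases key hs c B K (fun C => B.filter fun b => ∃ a ∈ C, adj a b) r hr with
    ⟨T, hT, hTc, hTm, hTa⟩ | ⟨Z, hZ, hZm, hZa⟩
  · have hTm' : r * ∑ v ∈ T, c v ≤ M := by
      have := Nat.mul_le_mul_right (r ^ 2) (Nat.add_le_add_right hK4 1)
      omega
    by_cases hb : ∑ v ∈ U, w v < 2 * ∑ v ∈ B \ T, w v
    swap
    · refine done T hT hTm' fun x _ => ?_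
      have := sum_le_sum_of_subset (f := w) (comp_sub (adj := adj) (B \ T) x)
      omega
    have hTK : ∀ C ∈ K, Disjoint C T ∧ ∃ a ∈ C, ∃ b ∈ T, adj a b := by
      intro C hC
      obtain ⟨b, h1, h2⟩ := hTa C hC
      obtain ⟨-, a, h3, h4⟩ := mem_filter.1 h2
      exact ⟨(hd C hC).mono_right hT, a, h3, b, h1, h4⟩
    refine ih _ ?_ (B \ T) (insert T K) rfl (sdiff_subset.trans hB) ⟨?_, ?_⟩ ?_ ?_ ?_ hb
    · have e1 := card_insert_le T K
      have e2 := card_sdiff_add_card_eq_card hT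
      have e3 := hTc.1.card_pos
      omega
    · intro C hC
      rcases mem_insert.1 hC with rfl | hC
      · exact hTc
      · exact hK.1 C hC
    · intro C hC D hD hCD
      rcases mem_insert.1 hC with rfl | hC1 <;> rcases mem_insert.1 hD with rfl | hD1
      · exact absurd rfl hCD
      · obtain ⟨h1, a, h2, b, h3, h4⟩ := hTK D hD1
        exact ⟨h1.symm, b, h3, a, h2, hs _ _ h4⟩
      · exact hTK C hC1
      · exact hK.2 C hC1 D hD1 hCD
    · intro C hC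
      rcases mem_insert.1 hC with rfl | hC
      · exact disjoint_sdiff
      · exact (hd C hC).mono_right sdiff_subset
    · intro v hv
      rcases nbs T v hv with k | k
      · obtain ⟨C, h1, h2⟩ := hN v k
        exact ⟨C, mem_insert_of_mem h1, h2⟩
      · exact ⟨T, mem_insert_self _ _, k.1⟩
    · intro C hC
      rcases mem_insert.1 hC with rfl | hC
      · exact le_trans (Nat.mul_le_mul_left r (sum_le_sum_of_subset inter_subset_right)) hTm'
      · exact cst T C hC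
  · have hZm' : r * ∑ v ∈ Z, c v ≤ M := by
      have := Nat.mul_le_mul hK4 hQ
      omega
    by_cases hb : ∀ x ∈ B \ Z, 2 * ∑ v ∈ comp adj (B \ Z) x, w v ≤ ∑ v ∈ U, w v
    · exact done Z hZ hZm' hb
    push Not at hb
    obtain ⟨x, hx, hb⟩ := hb
    obtain ⟨C, hC, hCa⟩ := hZa x hx
    set B' := comp adj (B \ Z) x with hB'
    have hB'B : B' ⊆ B := (comp_sub _ _).trans sdiff_subset
    obtain ⟨a0, ha0, b0, hb0, hab0⟩ := h0 C hC
    set C' := comp adj (C ∪ (B \ B')) a0 with hC'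
    have nadj : ∀ a ∈ C, ∀ b ∈ B', ¬ adj a b := fun a ha b hb k =>
      hCa b hb (mem_filter.2 ⟨hB'B hb, a, ha, k⟩)
    have hCC' : C ⊆ C' := fun y hy => mem_comp.2 ⟨mem_union_left _ hy,
      ((hK.1 C hC).2 a0 ha0 y hy).mono subset_union_left⟩
    have hb0' : b0 ∈ C' := comp_step (hCC' ha0) hab0
      (mem_union_right _ (mem_sdiff.2 ⟨hb0, fun k => nadj a0 ha0 b0 k hab0⟩))
    have hsub : ∀ y ∈ C', y ∈ C ∨ (y ∈ B ∧ y ∉ B') := fun y hy => by
      simpa using comp_sub _ _ hy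
    have hC'K : ∀ D ∈ K, D ≠ C → Disjoint D C' ∧ ∃ a ∈ D, ∃ b ∈ C', adj a b := by
      intro D hD hDC
      obtain ⟨h1, a, h2, b, h3, h4⟩ := hK.2 D hD C hC hDC
      refine ⟨disjoint_left.2 fun y hy hy' => ?_, a, h2, b, hCC' h3, h4⟩
      rcases hsub y hy' with k | k
      · exact disjoint_left.1 h1 hy k
      · exact disjoint_left.1 (hd D hD) hy k.1
    refine ih _ ?_ (B \ C') (insert C' (K.erase C)) rfl (sdiff_subset.trans hB) ⟨?_, ?_⟩ ?_ ?_ ?_ ?_
    · have e1 := card_insert_le C' (K.erase C)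
      have e2 := card_erase_lt_of_mem hC
      have e3 : (B \ C').card < B.card :=
        card_lt_card ⟨sdiff_subset, fun k => (mem_sdiff.1 (k hb0)).2 hb0'⟩
      omega
    · intro D hD
      rcases mem_insert.1 hD with rfl | hD
      · exact conn_comp hs (mem_union_left _ ha0)
      · exact hK.1 D (mem_of_mem_erase hD)
    · intro E hE D hD hCD
      rcases mem_insert.1 hE with e1 | hE1 <;> rcases mem_insert.1 hD with e2 | hD1
      · exact absurd (e1.trans e2.symm) hCD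
      · obtain ⟨h1, a, h2, b, h3, h4⟩ := hC'K D (mem_erase.1 hD1).2 (mem_erase.1 hD1).1
        rw [e1]
        exact ⟨h1.symm, b, h3, a, h2, hs _ _ h4⟩
      · rw [e2]
        exact hC'K E (mem_erase.1 hE1).2 (mem_erase.1 hE1).1
      · exact hK.2 E (mem_erase.1 hE1).2 D (mem_erase.1 hD1).2 hCD
    · intro D hD
      rcases mem_insert.1 hD with rfl | hD
      · exact disjoint_sdiff
      · exact (hd D (mem_erase.1 hD).2).mono_right sdiff_subset
    · intro v hv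
      rcases nbs C' v hv with k | k
      · obtain ⟨D, h1, h2⟩ := hN v k
        by_cases e : D = C
        · exact ⟨C', mem_insert_self _ _, hCC' (e ▸ h2)⟩
        · exact ⟨D, mem_insert_of_mem (mem_erase.2 ⟨e, h1⟩), h2⟩
      · exact ⟨C', mem_insert_self _ _, k.1⟩
    · intro D hD
      rcases mem_insert.1 hD with rfl | hD
      · refine le_trans (Nat.mul_le_mul_left r (sum_le_sum_of_subset fun v hv => ?_)) hZm'
        obtain ⟨hv1, hv2⟩ := mem_inter.1 hv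
        obtain ⟨-, -, u, h3, h4⟩ := mem_filter.1 hv1
        obtain ⟨h6, h7⟩ := mem_sdiff.1 h3
        have hu : u ∈ B' := by
          by_contra k
          exact h7 (comp_step hv2 h4 (mem_union_right _ (mem_sdiff.2 ⟨h6, k⟩)))
        rcases hsub v hv2 with k | k
        · exact absurd h4 (nadj v k u hu)
        · by_contra k'
          exact k.2 (comp_step hu (hs _ _ h4) (mem_sdiff.2 ⟨k.1, k'⟩))
      · exact cst C' D (mem_erase.1 hD).2
    · refine lt_of_lt_of_le hb (Nat.mul_le_mul_left 2 (sum_le_sum_of_subset fun y hy => ?_))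
      refine mem_sdiff.2 ⟨hB'B hy, fun k => ?_⟩
      rcases hsub y k with k | k
      · exact disjoint_left.1 (hd C hC) k (hB'B hy)
      · exact k.2 hy

theorem sepR (hs : ∀ a b, adj a b → adj b a) (h5 : ∀ K, Cov adj K → K.card ≤ 4) (c w : V → ℕ)
    (U : Finset V) (ρ : ℝ) (hρ : 1 ≤ ρ) :
    ∃ Z ⊆ U, ((∑ v ∈ Z, c v : ℕ) : ℝ) ≤ 50 * ρ + 20 * ((∑ v ∈ U, c v ^ 2 : ℕ) : ℝ) / ρ ∧
      ∀ x ∈ U \ Z, 2 * ∑ v ∈ comp adj (U \ Z) x, w v ≤ ∑ v ∈ U, w v := by
  by_cases h : ∑ v ∈ U, w v = 0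
  · refine ⟨∅, empty_subset _, by simp only [sum_empty, Nat.cast_zero]; positivity,
      fun x _ => ?_⟩
    have := sum_le_sum_of_subset (f := w) ((comp_sub (adj := adj) (U \ ∅) x).trans sdiff_subset)
    omega
  have r1 : ρ ≤ ⌈ρ⌉₊ := Nat.le_ceil ρ
  have r2 : (⌈ρ⌉₊ : ℝ) ≤ 2 * ρ := by linarith [Nat.ceil_lt_add_one (by linarith : 0 ≤ ρ)]
  have r3 : 0 < ⌈ρ⌉₊ := Nat.ceil_pos.2 (by linarith)
  obtain ⟨Z, h1, h2, h3⟩ := ast hs h5 c w U _ r3 _ rfl _ U ∅ rfl Subset.rfl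
    ⟨by simp, by simp⟩ (by simp) (fun v hv => absurd (mem_filter.1 hv).1 (mem_filter.1 hv).2.1)
    (by simp) (by omega)
  refine ⟨Z, h1, ?_, h3⟩
  generalize ∑ v ∈ Z, c v = a at h2
  generalize ∑ v ∈ U, c v ^ 2 = q at h2
  generalize ⌈ρ⌉₊ = r at *
  have h4 : (r : ℝ) * a ≤ 5 * (5 * r ^ 2 + 4 * q) := by exact_mod_cast h2
  have r4 : (0 : ℝ) < r := by linarith
  have h5 : (a : ℝ) ≤ 25 * r + 20 * q / r := by
    rw [← sub_nonneg, show 25 * (r : ℝ) + 20 * q / r - a = (25 * r ^ 2 + 20 * q - r * a) / r by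
      field_simp]
    exact div_nonneg (by linarith) r4.le
  have h6 : 20 * (q : ℝ) / r ≤ 20 * q / ρ :=
    div_le_div_of_nonneg_left (by positivity) (by linarith) r1
  linarith

theorem decomp (hs : ∀ a b, adj a b → adj b a) (h5 : ∀ K, Cov adj K → K.card ≤ 4)
    (c w : V → ℕ) (U : Finset V) (L : ℕ) : ∀ ρ : ℝ, 1 ≤ ρ →
    ∃ Z ⊆ U, ((∑ v ∈ Z, c v : ℕ) : ℝ) ≤
        200 * 2 ^ L * ρ + 60 * ((∑ v ∈ U, c v ^ 2 : ℕ) : ℝ) / ρ ∧
      ∀ x ∈ U \ Z, 2 ^ L * ∑ v ∈ comp adj (U \ Z) x, w v ≤ ∑ v ∈ U, w v := by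
  induction L with
  | zero =>
    intro ρ hρ
    refine ⟨∅, empty_subset _, by simp only [sum_empty, Nat.cast_zero]; positivity,
      fun x _ => ?_⟩
    have := sum_le_sum_of_subset (f := w) ((comp_sub (adj := adj) (U \ ∅) x).trans sdiff_subset)
    omega
  | succ L ih =>
    intro ρ hρ
    obtain ⟨Z, h1, h2, h3⟩ := ih (3 / 2 * ρ) (by linarith)
    choose Y y1 y2 y3 using fun S => sepR hs h5 c w S ρ hρ
    set K := ((U \ Z).image (comp adj (U \ Z))).filter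
      fun S => ∑ v ∈ U, w v < 2 ^ (L + 1) * ∑ v ∈ S, w v with hK
    have hKd : (K : Set (Finset V)).PairwiseDisjoint id := by
      intro S hS T hT hST
      obtain ⟨x, -, rfl⟩ := mem_image.1 (mem_filter.1 hS).1
      obtain ⟨y, -, rfl⟩ := mem_image.1 (mem_filter.1 hT).1
      refine disjoint_left.2 fun z hz hz' => hST ?_
      exact (comp_eq hs (mem_comp.1 hz).2).trans (comp_eq hs (mem_comp.1 hz').2).symm
    have hKU : ∀ S ∈ K, S ⊆ U := by
      intro S hS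
      obtain ⟨x, -, rfl⟩ := mem_image.1 (mem_filter.1 hS).1
      exact (comp_sub _ _).trans sdiff_subset
    have hsum : ∀ f : V → ℕ, ∑ S ∈ K, ∑ v ∈ S, f v ≤ ∑ v ∈ U, f v := by
      intro f
      have := sum_biUnion (f := f) hKd
      simp only [id] at this
      rw [← this]
      exact sum_le_sum_of_subset (biUnion_subset.2 hKU)
    have hcard : K.card ≤ 2 ^ (L + 1) := by
      have e1 : K.card • (∑ v ∈ U, w v + 1) ≤ ∑ S ∈ K, 2 ^ (L + 1) * ∑ v ∈ S, w v :=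
        card_nsmul_le_sum _ _ _ fun S hS => (mem_filter.1 hS).2
      rw [← mul_sum, smul_eq_mul] at e1
      have e2 := Nat.mul_le_mul_left (2 ^ (L + 1)) ((hsum w).trans (Nat.le_succ _))
      exact Nat.le_of_mul_le_mul_right (e1.trans e2) (Nat.succ_pos _)
    refine ⟨Z ∪ K.biUnion Y, union_subset h1
      (biUnion_subset.2 fun S hS => (y1 S).trans (hKU S hS)), ?_, fun x hx => ?_⟩
    · have e1 : ((∑ v ∈ Z ∪ K.biUnion Y, c v : ℕ) : ℝ) ≤
          ((∑ v ∈ Z, c v : ℕ) : ℝ) + ∑ S ∈ K, ((∑ v ∈ Y S, c v : ℕ) : ℝ) := by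
        exact_mod_cast (sum_un c _ _).trans (Nat.add_le_add_left (sum_bu c K Y) _)
      have e2 := sum_le_sum fun S (_ : S ∈ K) => y2 S
      rw [sum_add_distrib, sum_const, nsmul_eq_mul, ← sum_div, ← mul_sum] at e2
      have e3 : ∑ S ∈ K, ((∑ v ∈ S, c v ^ 2 : ℕ) : ℝ) ≤ ((∑ v ∈ U, c v ^ 2 : ℕ) : ℝ) := by
        exact_mod_cast hsum fun v => c v ^ 2
      have e4 : (K.card : ℝ) ≤ 2 ^ (L + 1) := by exact_mod_cast hcard
      generalize ((∑ v ∈ U, c v ^ 2 : ℕ) : ℝ) = q at *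
      generalize ∑ S ∈ K, ((∑ v ∈ S, c v ^ 2 : ℕ) : ℝ) = q' at *
      have e5 : 20 * q' / ρ ≤ 20 * q / ρ := div_le_div_of_nonneg_right (by linarith) (by linarith)
      have e6 : 60 * q / (3 / 2 * ρ) = 40 * q / ρ := by field_simp; ring
      have e7 : 60 * q / ρ = 40 * q / ρ + 20 * q / ρ := by ring
      have e8 : (K.card : ℝ) * (50 * ρ) ≤ 2 ^ (L + 1) * (50 * ρ) :=
        mul_le_mul_of_nonneg_right e4 (by linarith)
      rw [pow_succ] at e8 ⊢
      nlinarith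
    · rw [mem_sdiff, mem_union, not_or] at hx
      have hx' : x ∈ U \ Z := mem_sdiff.2 ⟨hx.1, hx.2.1⟩
      have sub : U \ (Z ∪ K.biUnion Y) ⊆ U \ Z := sdiff_subset_sdiff Subset.rfl subset_union_left
      by_cases k : comp adj (U \ Z) x ∈ K
      · set S := comp adj (U \ Z) x with hS
        have hxS : x ∈ S \ Y S := mem_sdiff.2 ⟨self_mem hx',
          fun e => hx.2.2 (mem_biUnion.2 ⟨S, k, e⟩)⟩
        have e1 : comp adj (U \ (Z ∪ K.biUnion Y)) x ⊆ comp adj (S \ Y S) x := by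
          intro y hy
          refine mem_comp.2 ((mem_comp.1 hy).2.restrict hxS fun a b _ ha hab _ hb => ?_)
          refine mem_sdiff.2 ⟨comp_step (mem_sdiff.1 ha).1 hab (sub hb), fun e => ?_⟩
          exact (mem_sdiff.1 hb).2 (mem_union_right _ (mem_biUnion.2 ⟨S, k, e⟩))
        have e2 := sum_le_sum_of_subset (f := w) e1
        have e3 := y3 S x hxS
        have e4 : 2 ^ L * ∑ v ∈ S, w v ≤ _ := h3 x hx'
        rw [pow_succ, mul_assoc]
        exact (Nat.mul_le_mul_left _ (by omega)).trans e4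
      · have e1 : comp adj (U \ (Z ∪ K.biUnion Y)) x ⊆ comp adj (U \ Z) x := fun y hy =>
          mem_comp.2 ⟨sub (mem_comp.1 hy).1, (mem_comp.1 hy).2.mono sub⟩
        have e2 := sum_le_sum_of_subset (f := w) e1
        refine (Nat.mul_le_mul_left _ e2).trans (not_lt.1 fun e => k ?_)
        exact mem_filter.2 ⟨mem_image_of_mem _ hx', e⟩

end Pool.Agent.H89.CR
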