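import Mathlib
import Pool.Agent.H89.CR2
import Pool.Agent.H89.BP2

set_option autoImplicit false

namespace Pool.Agent.H89.CR

open Finset
open scoped Classical

theorem k5 (p : ℕ → ℂ) (S : ℕ → ℕ → Set ℂ) (hj : ∀ a b, a < b → b < 5 → JoinedIn (S a b) (p a) (p b))
    (hd : ∀ a b c d, a < b → b < 5 → c < d → d < 5 → a ≠ c → a ≠ d → b ≠ c → b ≠ d →
      Disjoint (S a b) (S c d)) : False := by
  have : ∀ a b, ∃ g : ℝ → ℂ, a < b → b < 5 → Continuous g ∧ g 0 = p a ∧ g 1 = p b ∧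
      ∀ t, g t ∈ S a b := by
    intro a b
    by_cases h : a < b ∧ b < 5
    · obtain ⟨g, hg⟩ := hj a b h.1 h.2
      refine ⟨g.extend, fun _ _ => ⟨g.continuous_extend, by simp, by simp, fun t => ?_⟩⟩
      have : g.extend t ∈ Set.range g := by rw [← g.extend_range]; exact ⟨t, rfl⟩
      obtain ⟨s, hs⟩ := this
      rw [← hs]; exact hg s
    · exact ⟨fun _ => 0, fun a b => absurd ⟨a, b⟩ h⟩
  choose g hg using this
  obtain ⟨n, hn⟩ := BP.ht (fun a b => a < b ∧ b < 5) p g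
    (fun a b h => ⟨(hg a b h.1 h.2).1.continuousOn, (hg a b h.1 h.2).2.1, (hg a b h.1 h.2).2.2.1⟩)
    (fun a b c d h h' x1 x2 x3 x4 s _ t _ e =>
      Set.disjoint_left.1 (hd a b c d h.1 h.2 h'.1 h'.2 x1 x2 x3 x4) ((hg a b h.1 h.2).2.2.2 s)
        (e ▸ (hg c d h'.1 h'.2).2.2.2 t))
  refine BP.chk_sound (fun _ b => decide (b < 5)) [12816, 16912, 17168, 12576, 16672, 17184, 8496, 16688, 16944, 8512, 12608, 12864, 17185, 16945, 12865] (by decide +kernel)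
    ⟨n, fun a b c d x1 _ x3 _ x5 x6 => hn a b c d ⟨x1, by simpa using x5⟩ ⟨x3, by simpa using x6⟩⟩

/-- A drawing. -/
structure Dr {V : Type} (G : SimpleGraph V) where
  pos : V → ℂ
  arc : V → V → ℝ → ℂ
  pos_inj : Function.Injective pos
  cont : ∀ u v, G.Adj u v → ContinuousOn (arc u v) (Set.Icc 0 1)
  inj : ∀ u v, G.Adj u v → Set.InjOn (arc u v) (Set.Icc 0 1)
  src : ∀ u v, G.Adj u v → arc u v 0 = pos u
  tgt : ∀ u v, G.Adj u v → arc u v 1 = pos v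
  rev : ∀ u v, G.Adj u v → ∀ t ∈ Set.Icc (0 : ℝ) 1, arc v u t = arc u v (1 - t)
  avoid : ∀ u v, G.Adj u v → ∀ t ∈ Set.Ioo (0 : ℝ) 1, ∀ w, arc u v t ≠ pos w

variable {V : Type} {G : SimpleGraph V}

/-- crossings -/
def Dr.cross (D : Dr G) : Set (Sym2 (Sym2 V) × ℂ) :=
  {x | ∃ u v u' v', G.Adj u v ∧ G.Adj u' v' ∧ s(u, v) ≠ s(u', v') ∧
    x.1 = s(s(u, v), s(u', v')) ∧ (∃ t ∈ Set.Ioo (0 : ℝ) 1, D.arc u v t = x.2) ∧
    ∃ t ∈ Set.Ioo (0 : ℝ) 1, D.arc u' v' t = x.2}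

/-- elementary piece -/
def Dr.seg (D : Dr G) (U : Finset ℂ) (u v : V) (a b : ℝ) : Prop :=
  G.Adj u v ∧ 0 ≤ a ∧ a < b ∧ b ≤ 1 ∧ D.arc u v a ∈ U ∧ D.arc u v b ∈ U ∧
    ∀ t ∈ Set.Ioo a b, D.arc u v t ∉ U

/-- planarized adjacency -/
def Dr.adj (D : Dr G) (U : Finset ℂ) (x y : ℂ) : Prop :=
  ∃ u v a b, D.seg U u v a b ∧ D.arc u v a = x ∧ D.arc u v b = y

theorem Dr.seg_rev (D : Dr G) {U : Finset ℂ} {u v : V} {a b : ℝ} (h : D.seg U u v a b) :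
    D.seg U v u (1 - b) (1 - a) ∧ D.arc v u (1 - b) = D.arc u v b ∧
      D.arc v u (1 - a) = D.arc u v a ∧ ∀ t ∈ Set.Ioo a b, D.arc v u (1 - t) = D.arc u v t := by
  obtain ⟨h1, h2, h3, h4, h5, h6, h7⟩ := h
  have e : ∀ t, a ≤ t → t ≤ b → D.arc v u (1 - t) = D.arc u v t := fun t k1 k2 => by
    rw [D.rev u v h1 _ ⟨by linarith, by linarith⟩, sub_sub_cancel]
  refine ⟨⟨h1.symm, by linarith, by linarith, by linarith, by rw [e b h3.le le_rfl]; exact h6,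
    by rw [e a le_rfl h3.le]; exact h5, fun t ht => ?_⟩, e b h3.le le_rfl, e a le_rfl h3.le,
    fun t ht => e t ht.1.le ht.2.le⟩
  have := e (1 - t) (by linarith [ht.2]) (by linarith [ht.1])
  rw [sub_sub_cancel] at this
  rw [this]
  exact h7 _ ⟨by linarith [ht.2], by linarith [ht.1]⟩

theorem Dr.adj_symm (D : Dr G) (U : Finset ℂ) (x y : ℂ) (h : D.adj U x y) : D.adj U y x := by
  obtain ⟨u, v, a, b, h1, h2, h3⟩ := h
  obtain ⟨k1, k2, k3, -⟩ := D.seg_rev h1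
  exact ⟨v, u, _, _, k1, k2.trans h3, k3.trans h2⟩

/-- region spanned by a set of special points -/
def Dr.reg (D : Dr G) (U W : Finset ℂ) : Set ℂ :=
  {z | z ∈ W ∨ ∃ u v a b, D.seg U u v a b ∧ D.arc u v a ∈ W ∧ D.arc u v b ∈ W ∧
    ∃ t ∈ Set.Ioo a b, D.arc u v t = z}

theorem Dr.reg_disj (D : Dr G) (U : Finset ℂ) (hU : ∀ x ∈ D.cross, x.2 ∈ U) (W W' : Finset ℂ)
    (h1 : W ⊆ U) (h2 : W' ⊆ U) (h : Disjoint W W') : Disjoint (D.reg U W) (D.reg U W') := by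
  rw [Set.disjoint_left]
  have same : ∀ u v a b a' b' t t', D.seg U u v a b → D.seg U u v a' b' → t ∈ Set.Ioo a b →
      t' ∈ Set.Ioo a' b' → D.arc u v t = D.arc u v t' → a = a' := by
    rintro u v a b a' b' t t' ⟨s1, s2, s3, s4, s5, s6, s7⟩ ⟨-, r2, r3, r4, r5, r6, r7⟩ ht ht' e
    have : t = t' := D.inj u v s1 ⟨by linarith [ht.1], by linarith [ht.2]⟩
      ⟨by linarith [ht'.1], by linarith [ht'.2]⟩ e
    subst this
    rcases lt_trichotomy a a' with k | k | k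
    · exact absurd r5 (s7 _ ⟨k, by linarith [ht.2, ht'.1]⟩)
    · exact k
    · exact absurd s5 (r7 _ ⟨k, by linarith [ht.1, ht'.2]⟩)
  rintro z (k | ⟨u, v, a, b, s, s1, s2, t, ht, e⟩) (k' | ⟨u', v', a', b', r, r1, r2, t', ht', e'⟩)
  · exact disjoint_left.1 h k k'
  · exact r.2.2.2.2.2.2 t' ht' (e' ▸ h1 k)
  · exact s.2.2.2.2.2.2 t ht (e ▸ h2 k')
  · by_cases q : s(u, v) = s(u', v')
    · rcases Sym2.eq_iff.1 q with ⟨rfl, rfl⟩ | ⟨rfl, rfl⟩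
      · have := same _ _ _ _ _ _ _ _ s r ht ht' (e.trans e'.symm)
        subst this
        exact disjoint_left.1 h s1 r1
      · obtain ⟨k1, k2, -, k4⟩ := D.seg_rev r
        have := same _ _ _ _ _ _ t (1 - t') s k1 ht ⟨by linarith [ht'.2], by linarith [ht'.1]⟩
          (by rw [k4 t' ht', e, e'])
        rw [← k2, ← this] at r2
        exact disjoint_left.1 h s1 r2
    · refine s.2.2.2.2.2.2 t ht (e ▸ hU (_, z) ⟨u, v, u', v', s.1, r.1, q, rfl, ⟨t, ?_, e⟩,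
        ⟨t', ?_, e'⟩⟩)
      · exact ⟨by linarith [s.2.1, ht.1], by linarith [s.2.2.2.1, ht.2]⟩
      · exact ⟨by linarith [r.2.1, ht'.1], by linarith [r.2.2.2.1, ht'.2]⟩

theorem Dr.join1 (D : Dr G) (U W : Finset ℂ) {x y : ℂ} (h : D.adj U x y) (hx : x ∈ W)
    (hy : y ∈ W) : JoinedIn (D.reg U W) x y := by
  obtain ⟨u, v, a, b, s, rfl, rfl⟩ := h
  obtain ⟨s1, s2, s3, s4, -⟩ := id s
  refine JoinedIn.ofLine (f := fun t => D.arc u v (a + t * (b - a))) ?_ (by simp) (by simp) ?_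
  · refine (D.cont u v s1).comp (by fun_prop) fun t ht => ⟨?_, ?_⟩
    · nlinarith [ht.1]
    · nlinarith [ht.2]
  · rintro _ ⟨t, ht, rfl⟩
    rcases ht.1.eq_or_lt with rfl | t0
    · left; simpa using hx
    rcases ht.2.eq_or_lt with rfl | t1
    · left; simpa using hy
    exact Or.inr ⟨u, v, a, b, s, hx, hy, _, ⟨by nlinarith, by nlinarith⟩, rfl⟩

theorem Dr.join (D : Dr G) (U W : Finset ℂ) {x y : ℂ} (h : Rch (D.adj U) W x y) (hx : x ∈ W) :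
    JoinedIn (D.reg U W) x y :=
  h.ind (fun y => JoinedIn (D.reg U W) x y) (JoinedIn.refl (Or.inl hx))
    fun _ _ k hab ha hb => k.trans (D.join1 U W hab ha hb)

theorem Dr.nok5 (D : Dr G) (U : Finset ℂ) (hU : ∀ x ∈ D.cross, x.2 ∈ U)
    (K : Finset (Finset ℂ)) (hK : Cov (D.adj U) K) : K.card ≤ 4 := by
  by_contra h
  obtain ⟨f, hf⟩ : ∃ f : Fin 5 ↪ Finset ℂ, ∀ i, f i ∈ K := by
    obtain ⟨f, hf⟩ := Function.Embedding.exists_of_card_le_finset (α := Fin 5) (s := K)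
      (by simp; omega)
    exact ⟨f, fun i => hf ⟨i, rfl⟩⟩
  let C : ℕ → Finset ℂ := fun a => f (Fin.ofNat 5 a)
  have CK : ∀ a, C a ∈ K := fun a => hf _
  have Cne : ∀ a b, a < 5 → b < 5 → a ≠ b → C a ≠ C b := by
    intro a b ha hb hab e
    have := congrArg Fin.val (f.injective e)
    simp only [Fin.val_ofNat] at this
    omega
  have CU : ∀ a b, a < 5 → b < 5 → a ≠ b → C a ⊆ U := by
    intro a b ha hb hab y hy
    obtain ⟨-, x, hx, z, -, u, v, s, t, k, rfl, -⟩ := hK.2 _ (CK a) _ (CK b) (Cne a b ha hb hab)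
    refine ((hK.1 _ (CK a)).2 _ hx y hy).ind (fun y => y ∈ U) k.2.2.2.2.1 ?_
    rintro _ _ - ⟨u, v, s, t, k, -, rfl⟩ - -
    exact k.2.2.2.2.2.1
  choose p hp using fun a => (hK.1 _ (CK a)).1
  refine k5 p (fun a b => D.reg U (C a ∪ C b)) (fun a b h1 h2 => ?_)
    fun a b c d h1 h2 h3 h4 n1 n2 n3 n4 => D.reg_disj U hU _ _ ?_ ?_ ?_
  · obtain ⟨-, x, hx, y, hy, k⟩ := hK.2 _ (CK a) _ (CK b) (Cne a b (by omega) h2 h1.ne)
    refine D.join U _ ?_ (mem_union_left _ (hp a))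
    exact ((((hK.1 _ (CK a)).2 _ (hp a) x hx).mono subset_union_left).tail
      ⟨k, mem_union_left _ hx, mem_union_right _ hy⟩).trans
      (((hK.1 _ (CK b)).2 _ hy _ (hp b)).mono subset_union_right)
  · exact union_subset (CU a b (by omega) h2 h1.ne) (CU b a h2 (by omega) h1.ne')
  · exact union_subset (CU c d (by omega) h4 h3.ne) (CU d c h4 (by omega) h3.ne')
  · simp only [disjoint_union_left, disjoint_union_right]
    exact ⟨⟨(hK.2 _ (CK a) _ (CK c) (Cne _ _ (by omega) (by omega) n1)).1,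
      (hK.2 _ (CK b) _ (CK c) (Cne _ _ (by omega) (by omega) n3)).1⟩,
      (hK.2 _ (CK a) _ (CK d) (Cne _ _ (by omega) (by omega) n2)).1,
      (hK.2 _ (CK b) _ (CK d) (Cne _ _ (by omega) (by omega) n4)).1⟩

theorem Dr.survive (D : Dr G) (U Z : Finset ℂ) (hU : ∀ v, D.pos v ∈ U) {u v : V}
    (h : G.Adj u v) (hZ : ∀ t ∈ Set.Icc (0 : ℝ) 1, D.arc u v t ∉ Z) :
    Rch (D.adj U) (U \ Z) (D.pos u) (D.pos v) := by
  have hfin : {t ∈ Set.Icc (0 : ℝ) 1 | D.arc u v t ∈ U}.Finite :=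
    Set.Finite.of_finite_image (f := D.arc u v)
      (U.finite_toSet.subset (by rintro _ ⟨t, ht, rfl⟩; exact ht.2))
      ((D.inj u v h).mono fun t ht => ht.1)
  set T := hfin.toFinset
  have hT : ∀ t, t ∈ T ↔ t ∈ Set.Icc (0 : ℝ) 1 ∧ D.arc u v t ∈ U := fun t => by
    simp only [T, Set.Finite.mem_toFinset, Set.mem_setOf_eq]
  have T0 : (0 : ℝ) ∈ T := (hT 0).2 ⟨⟨le_rfl, zero_le_one⟩, by rw [D.src u v h]; exact hU u⟩
  suffices k : ∀ t ∈ T, Rch (D.adj U) (U \ Z) (D.pos u) (D.arc u v t) by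
    rw [← D.tgt u v h]
    exact k 1 ((hT 1).2 ⟨⟨zero_le_one, le_rfl⟩, by rw [D.tgt u v h]; exact hU v⟩)
  by_contra k
  push Not at k
  obtain ⟨t, ht, hmin⟩ := exists_min_image
    (T.filter fun t => ¬ Rch (D.adj U) (U \ Z) (D.pos u) (D.arc u v t)) id
    (by obtain ⟨t, h1, h2⟩ := k; exact ⟨t, mem_filter.2 ⟨h1, h2⟩⟩)
  obtain ⟨ht1, ht2⟩ := mem_filter.1 ht
  obtain ⟨⟨t0, t1⟩, tU⟩ := (hT t).1 ht1
  have tp : 0 < t := by
    refine lt_of_le_of_ne t0 ?_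
    rintro rfl
    exact ht2 (by rw [D.src u v h]; exact Relation.ReflTransGen.refl)
  obtain ⟨a, ha, hmax⟩ := exists_max_image (T.filter fun s => s < t) id
    ⟨0, mem_filter.2 ⟨T0, tp⟩⟩
  obtain ⟨ha1, ha2⟩ := mem_filter.1 ha
  obtain ⟨⟨a0, a1⟩, aU⟩ := (hT a).1 ha1
  have ra : Rch (D.adj U) (U \ Z) (D.pos u) (D.arc u v a) := by
    by_contra k
    exact absurd (hmin a (mem_filter.2 ⟨ha1, k⟩)) (not_le.2 ha2)
  refine ht2 (ra.tail ⟨⟨u, v, a, t, ⟨h, a0, ha2, t1, aU, tU, fun s hs k => ?_⟩, rfl, rfl⟩,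
    mem_sdiff.2 ⟨aU, hZ a ⟨a0, a1⟩⟩, mem_sdiff.2 ⟨tU, hZ t ⟨t0, t1⟩⟩⟩)
  exact absurd (hmax s (mem_filter.2 ⟨(hT s).2 ⟨⟨by linarith [hs.1], by linarith [hs.2]⟩, k⟩,
    hs.2⟩)) (not_le.2 hs.1)

end Pool.Agent.H89.CR
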