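import Mathlib

set_option autoImplicit false

namespace Pool.Agent.H89.TG

open Finset
open scoped Classical

/-- reachability inside a set. -/
def RS {V : Type} (adj : V → V → Prop) (S : Set V) : V → V → Prop :=
  Relation.ReflTransGen fun a b => adj a b ∧ a ∈ S ∧ b ∈ S

section
variable {V : Type} {adj : V → V → Prop}

theorem RS.rfl {S : Set V} {x : V} : RS adj S x x := Relation.ReflTransGen.refl

theorem RS.one {S : Set V} {x y : V} (h : adj x y) (hx : x ∈ S) (hy : y ∈ S) : RS adj S x y :=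
  Relation.ReflTransGen.single ⟨h, hx, hy⟩

theorem RS.tr {S : Set V} {x y z : V} (h : RS adj S x y) (k : RS adj S y z) : RS adj S x z :=
  Relation.ReflTransGen.trans h k

theorem RS.symm (hs : ∀ a b, adj a b → adj b a) {S : Set V} {x y : V} (r : RS adj S x y) :
    RS adj S y x := by
  induction r with
  | refl => exact RS.rfl
  | tail _ k ih => exact Relation.ReflTransGen.head ⟨hs _ _ k.1, k.2.2, k.2.1⟩ ih

theorem RS.ind {S : Set V} {x : V} (P : V → Prop) (h0 : P x)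
    (h1 : ∀ a b, P a → adj a b → a ∈ S → b ∈ S → P b) {y : V} (r : RS adj S x y) : P y := by
  induction r with
  | refl => exact h0
  | tail _ k ih => exact h1 _ _ ih k.1 k.2.1 k.2.2

theorem RS.mono {S T : Set V} (h : S ⊆ T) {x y : V} (r : RS adj S x y) : RS adj T x y :=
  r.ind (fun y => RS adj T x y) RS.rfl fun _ _ p k ha hb => p.tr (RS.one k (h ha) (h hb))

end

theorem union {ι J : Type} [Fintype ι] [DecidableEq ι] [Fintype J] (n : ℕ) (hn : 0 < n)
    (E : J → (ι → Fin n) → Prop)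
    (h : ∀ j, ∃ σ, ∀ ω, ∃ F : Finset (Fin n), Fintype.card J * F.card < n ∧
      ∀ t, E j (Function.update ω σ t) → t ∈ F) :
    ∃ ω, ∀ j, ¬ E j ω := by
  by_contra k
  push Not at k
  haveI : Nonempty (Fin n) := ⟨⟨0, hn⟩⟩
  have e1 : Fintype.card (ι → Fin n) ≤ ∑ j, (univ.filter (E j)).card := by
    refine le_trans (card_le_card (t := univ.biUnion fun j => univ.filter (E j))
      fun ω _ => ?_) card_biUnion_le
    obtain ⟨j, hj⟩ := k ω
    exact mem_biUnion.2 ⟨j, mem_univ _, mem_filter.2 ⟨mem_univ _, hj⟩⟩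
  have e2 : ∀ j, Fintype.card J * ((univ.filter (E j)).card * n) ≤
      Fintype.card (ι → Fin n) * (n - 1) := by
    intro j
    obtain ⟨σ, hσ⟩ := h j
    have a1 : (univ.filter (E j)).card * n ≤
        ∑ ω, (univ.filter fun t => E j (Function.update ω σ t)).card := by
      have : ∑ ω, (univ.filter fun t => E j (Function.update ω σ t)).card =
          (univ.filter fun q : (ι → Fin n) × Fin n =>
            E j (Function.update q.1 σ q.2)).card := by
        rw [card_filter, ← univ_product_univ, sum_product]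
        exact sum_congr rfl fun x _ => card_filter _ _
      rw [this]
      have c : (univ.filter (E j)).card * n = ((univ.filter (E j)) ×ˢ (univ : Finset (Fin n))).card := by
        simp
      rw [c]
      refine card_le_card_of_injOn (fun q => (Function.update q.1 σ q.2, q.1 σ)) ?_ ?_
      · intro q hq
        have := (mem_filter.1 (mem_product.1 (mem_coe.1 hq)).1).2
        simpa using this
      · rintro ⟨a, s⟩ - ⟨b, t⟩ - e
        simp only [Prod.mk.injEq] at e ⊢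
        have e3 := congrFun e.1 σ
        simp only [Function.update_self] at e3
        refine ⟨funext fun i => ?_, e3⟩
        by_cases q : i = σ
        · rw [q]; exact e.2
        · have := congrFun e.1 i
          simpa [Function.update_of_ne q] using this
    refine (Nat.mul_le_mul_left _ a1).trans ?_
    rw [mul_sum]
    refine (sum_le_card_nsmul _ _ (n - 1) fun ω _ => ?_).trans (by simp)
    obtain ⟨F, h1, h2⟩ := hσ ω
    have := Nat.mul_le_mul_left (Fintype.card J) (card_le_card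
      (s := univ.filter fun t => E j (Function.update ω σ t)) fun t ht => h2 t (mem_filter.1 ht).2)
    omega
  have e3 := sum_le_card_nsmul univ _ _ fun j _ => e2 j
  rw [← mul_sum, ← sum_mul, smul_eq_mul, card_univ] at e3
  obtain ⟨j0, -⟩ := k (Classical.arbitrary _)
  have p1 : 0 < Fintype.card J := Fintype.card_pos_iff.2 ⟨j0⟩
  have p2 : 0 < Fintype.card (ι → Fin n) := Fintype.card_pos
  have e4 := Nat.le_of_mul_le_mul_left e3 p1
  have e5 := Nat.le_of_mul_le_mul_left ((Nat.mul_le_mul_right n e1).trans e4) p2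
  omega

/-- block size -/
def D (M r : ℕ) : ℕ := M ^ (r + 1)
/-- spacing -/
def sp (M r : ℕ) : ℕ := M ^ (8 - r)
/-- width -/
def W (N M r : ℕ) : ℕ := N * D M r
/-- right neighbour -/
def rt (r : ℕ) : ℕ := (r + 3) % 9
/-- upper neighbour -/
def up (r : ℕ) : ℕ := 3 * (r / 3) + (r + 1) % 3

/-- vertices -/
@[ext] structure Vx (N M : ℕ) where
  r : ℕ
  a : ℕ
  b : ℕ
  hr : r < 9
  ha : a < W N M r
  hb : b < W N M r

variable {N M : ℕ}

theorem D_sp {r : ℕ} (h : r < 9) : sp M r * D M r = M ^ 9 := by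
  rw [sp, D, ← pow_add]; congr 1; omega

theorem W_sp {r : ℕ} (h : r < 9) : W N M r * sp M r = N * M ^ 9 := by
  rw [W, ← D_sp h]; ring

theorem card_box (r : ℕ) (A B : Finset ℕ) (S : Finset (Vx N M))
    (h : ∀ z ∈ S, z.r = r ∧ z.a ∈ A ∧ z.b ∈ B) : S.card ≤ A.card * B.card := by
  rw [← card_product]
  refine card_le_card_of_injOn (fun z => (z.a, z.b)) (fun z hz => ?_) fun x hx y hy e => ?_
  · exact mem_coe.2 (mem_product.2 (h z hz).2)
  · simp only [Prod.mk.injEq] at e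
    exact Vx.ext ((h x hx).1.trans (h y hy).1.symm) e.1 e.2

instance : Finite (Vx N M) := by
  let B := (range 9).sup (W N M)
  refine Finite.of_injective (β := Fin 9 × Fin B × Fin B) (fun z => (⟨z.r, z.hr⟩,
    ⟨z.a, z.ha.trans_le (le_sup (f := W N M) (mem_range.2 z.hr))⟩,
    ⟨z.b, z.hb.trans_le (le_sup (f := W N M) (mem_range.2 z.hr))⟩)) fun x y e => ?_
  simp only [Prod.mk.injEq, Fin.mk.injEq] at e
  exact Vx.ext e.1 e.2.1 e.2.2

noncomputable instance : Fintype (Vx N M) := Fintype.ofFinite _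

/-- horizontal edges -/
def HR (v w : Vx N M) : Prop :=
  (w.r = v.r ∧ w.a = v.a + 1 ∧ w.b = v.b) ∨
  (w.r = rt v.r ∧ v.a + 1 = W N M v.r ∧ w.a = 0 ∧ ∃ β, v.b = β * D M v.r ∧ w.b = β * D M w.r)

/-- vertical edges -/
def VU (v w : Vx N M) : Prop := (v.a + v.b) % 2 = 1 ∧
  ((w.r = v.r ∧ w.b = v.b + 1 ∧ w.a = v.a) ∨
  (w.r = up v.r ∧ v.b + 1 = W N M v.r ∧ w.b = 0 ∧ ∃ β, v.a = β * D M v.r ∧ w.a = β * D M w.r))

/-- the graph -/
def H (N M : ℕ) : SimpleGraph (Vx N M) := SimpleGraph.fromRel fun v w => HR v w ∨ VU v w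

theorem HR.ne {v w : Vx N M} (h : HR v w) : v ≠ w := by
  rintro rfl
  have := v.hr
  rcases h with h | h
  · omega
  · have := h.1; unfold rt at this; omega

theorem VU.ne {v w : Vx N M} (h : VU v w) : v ≠ w := by
  rintro rfl
  have := v.hr
  rcases h.2 with h | h
  · omega
  · have := h.1; unfold up at this; omega

theorem HR.adj {v w : Vx N M} (h : HR v w) : (H N M).Adj v w :=
  (SimpleGraph.fromRel_adj _ _ _).2 ⟨h.ne, Or.inl (Or.inl h)⟩

theorem VU.adj {v w : Vx N M} (h : VU v w) : (H N M).Adj v w :=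
  (SimpleGraph.fromRel_adj _ _ _).2 ⟨h.ne, Or.inl (Or.inr h)⟩

theorem hsym : ∀ a b : Vx N M, (H N M).Adj a b → (H N M).Adj b a := fun _ _ h => h.symm

theorem row1 (S : Set (Vx N M)) (x : Vx N M) (d : ℕ) : ∀ y : Vx N M, y.r = x.r → y.b = x.b →
    y.a = x.a + d → (∀ z : Vx N M, z.r = x.r → z.b = x.b → x.a ≤ z.a → z.a ≤ y.a → z ∈ S) →
    RS (H N M).Adj S x y := by
  induction d with
  | zero => intro y a b c _; rw [Vx.ext a c b]; exact RS.rfl
  | succ d ih =>
    intro y h1 h2 h3 h4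
    let z : Vx N M := ⟨y.r, x.a + d, y.b, y.hr, by have := y.ha; omega, y.hb⟩
    refine (ih z h1 h2 rfl fun w a b c e => h4 w a b c (by simp only [z] at e; omega)).tr
      (RS.one (HR.adj (Or.inl ⟨rfl, h3, rfl⟩)) (h4 z h1 h2 ?_ ?_) (h4 y h1 h2 (by omega) le_rfl))
    · simp [z]
    · simp only [z]; omega

theorem row (S : Set (Vx N M)) (x y : Vx N M) (h1 : y.r = x.r) (h2 : y.b = x.b)
    (h : ∀ z : Vx N M, z.r = x.r → z.b = x.b → min x.a y.a ≤ z.a → z.a ≤ max x.a y.a → z ∈ S) :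
    RS (H N M).Adj S x y := by
  rcases le_total x.a y.a with k | k
  · exact row1 S x (y.a - x.a) y h1 h2 (by omega) fun z a b c d => h z a b (by omega) (by omega)
  · exact (row1 S y (x.a - y.a) x h1.symm h2.symm (by omega)
      fun z a b c d => h z (by omega) (by omega) (by omega) (by omega)).symm hsym

theorem W_even (hM : 2 ∣ M) (r : ℕ) : W N M r % 2 = 0 :=
  Nat.mod_eq_zero_of_dvd (Dvd.dvd.mul_left (hM.trans (dvd_pow_self M (by omega))) N)

theorem col1 (hM : 2 ∣ M) (S : Set (Vx N M)) (x : Vx N M) (hx : x.a % 2 = 0) (d : ℕ) :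
    ∀ y : Vx N M, y.r = x.r → y.a = x.a → y.b = x.b + d →
    (∀ z : Vx N M, z.r = x.r → z.a / 2 = x.a / 2 → x.b ≤ z.b → z.b ≤ y.b → z ∈ S) →
    RS (H N M).Adj S x y := by
  induction d with
  | zero => intro y a b c _; rw [Vx.ext a b c]; exact RS.rfl
  | succ d ih =>
    intro y h1 h2 h3 h4
    have hb : x.b + d < W N M y.r := by have := y.hb; omega
    have ha : y.a + 1 < W N M y.r := by have := y.ha; have := W_even (N := N) hM y.r; omega
    let z : Vx N M := ⟨y.r, y.a, x.b + d, y.hr, y.ha, hb⟩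
    let z1 : Vx N M := ⟨y.r, y.a + 1, x.b + d, y.hr, ha, hb⟩
    let z2 : Vx N M := ⟨y.r, y.a + 1, y.b, y.hr, ha, y.hb⟩
    have mz : z ∈ S := h4 z h1 (by simp only [z]; omega) (by simp [z]) (by simp only [z]; omega)
    have m1 : z1 ∈ S := h4 z1 h1 (by simp only [z1]; omega) (by simp [z1])
      (by simp only [z1]; omega)
    have m2 : z2 ∈ S := h4 z2 h1 (by simp only [z2]; omega) (by simp only [z2]; omega) le_rfl
    have my : y ∈ S := h4 y h1 (by omega) (by omega) le_rfl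
    refine (ih z h1 h2 rfl fun w a b c e => h4 w a b c (by simp only [z] at e; omega)).tr ?_
    by_cases p : (x.b + d) % 2 = 1
    · exact RS.one (VU.adj ⟨by simp only [z]; omega, Or.inl ⟨rfl, h3, rfl⟩⟩) mz my
    · exact ((RS.one (HR.adj (v := z) (w := z1) (Or.inl ⟨rfl, rfl, rfl⟩)) mz m1).tr
        (RS.one (VU.adj (v := z1) (w := z2)
          ⟨by simp only [z1]; omega, Or.inl ⟨rfl, h3, rfl⟩⟩) m1 m2)).tr
        (RS.one (HR.adj (v := y) (w := z2) (Or.inl ⟨rfl, rfl, rfl⟩)).symm m2 my)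

theorem col (hM : 2 ∣ M) (S : Set (Vx N M)) (x y : Vx N M) (hx : x.a % 2 = 0) (h1 : y.r = x.r)
    (h2 : y.a = x.a) (h : ∀ z : Vx N M, z.r = x.r → z.a / 2 = x.a / 2 → min x.b y.b ≤ z.b →
      z.b ≤ max x.b y.b → z ∈ S) : RS (H N M).Adj S x y := by
  rcases le_total x.b y.b with k | k
  · exact col1 hM S x hx (y.b - x.b) y h1 h2 (by omega)
      fun z a b c d => h z a b (by omega) (by omega)
  · exact (col1 hM S y (by omega) (x.b - y.b) x h1.symm h2.symm (by omega)
      fun z a b c d => h z (by omega) (by omega) (by omega) (by omega)).symm hsym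

/-- pieces -/
def Pc (κ : Bool) (t : ℕ) (z : Vx N M) : Prop :=
  if κ then z.b = t / sp M z.r ∨ z.a / 2 = t / sp M z.r / 2 else
    ((z.a < 2 ∨ W N M z.r ≤ z.a + 2) ∧ z.b / D M z.r = t / M ^ 9) ∨
    ((z.b = 0 ∨ z.b + 1 = W N M z.r) ∧ z.a / D M z.r = t / M ^ 9)

theorem exits (hM : 2 ∣ M) (h0 : 0 < M) (S : Set (Vx N M)) (c : Vx N M) (t : ℕ)
    (ht : t < N * M ^ 9) (hc : ∀ z : Vx N M, z.r = c.r → z.b = c.b → z ∈ S)
    (hS : ∀ κ, ∀ z : Vx N M, z.r = c.r → Pc κ t z → z ∈ S) (y : Vx N M) (hy : y.r = c.r)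
    (h : (y.b = t / M ^ 9 * D M c.r ∧ (y.a = 0 ∨ y.a + 1 = W N M c.r)) ∨
      (y.a = t / M ^ 9 * D M c.r ∧ (y.b = 0 ∨ y.b + 1 = W N M c.r))) :
    RS (H N M).Adj S c y ∧ y ∈ S := by
  have sp0 : 0 < sp M c.r := pow_pos h0 _
  have D0 : 0 < D M c.r := pow_pos h0 _
  have hρ : t / sp M c.r < W N M c.r := by
    rw [Nat.div_lt_iff_lt_mul sp0, W_sp c.hr]; exact ht
  have hβ : t / sp M c.r / D M c.r = t / M ^ 9 := by rw [Nat.div_div_eq_div_mul, D_sp c.hr]
  have b1 : t / M ^ 9 * D M c.r ≤ t / sp M c.r := by rw [← hβ]; exact Nat.div_mul_le_self _ _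
  have b2 : t / M ^ 9 * D M c.r % 2 = 0 :=
    Nat.mod_eq_zero_of_dvd (Dvd.dvd.mul_left (hM.trans (dvd_pow_self M (by omega))) _)
  have b3 : ∀ u, t / M ^ 9 * D M c.r ≤ u → u ≤ t / sp M c.r → u / D M c.r = t / M ^ 9 := by
    intro u a b
    refine le_antisymm (hβ ▸ Nat.div_le_div_right b) ((Nat.le_div_iff_mul_le D0).2 a)
  have We := W_even (N := N) hM c.r
  have L1 : ∀ z : Vx N M, z.r = c.r → z.b = t / sp M c.r → z ∈ S := fun z a b =>
    hS true z a (by simp only [Pc, if_true]; left; rw [a]; exact b)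
  have L2 : ∀ z : Vx N M, z.r = c.r → z.a / 2 = t / sp M c.r / 2 → z ∈ S := fun z a b =>
    hS true z a (by simp only [Pc, if_true]; right; rw [a]; exact b)
  have L3 : ∀ z : Vx N M, z.r = c.r → (z.a < 2 ∨ W N M c.r ≤ z.a + 2) →
      t / M ^ 9 * D M c.r ≤ z.b → z.b ≤ t / sp M c.r → z ∈ S := fun z a b d e =>
    hS false z a (by simp only [Pc, Bool.false_eq_true, if_false]; left; rw [a]; exact ⟨b, b3 _ d e⟩)
  have L4 : ∀ z : Vx N M, z.r = c.r → (z.b = 0 ∨ z.b + 1 = W N M c.r) →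
      t / M ^ 9 * D M c.r ≤ z.a → z.a ≤ t / sp M c.r → z ∈ S := fun z a b d e =>
    hS false z a (by simp only [Pc, Bool.false_eq_true, if_false]; right; rw [a]; exact ⟨b, b3 _ d e⟩)
  generalize t / sp M c.r = ρ at *
  generalize t / M ^ 9 * D M c.r = B at *
  have g : ρ / 2 * 2 < W N M c.r := by omega
  have yb : y.b < W N M c.r := hy ▸ y.hb
  have ya : y.a < W N M c.r := hy ▸ y.ha
  let p1 : Vx N M := ⟨c.r, ρ / 2 * 2, c.b, c.hr, g, c.hb⟩
  have s1 : RS (H N M).Adj S c p1 := row S c p1 rfl rfl fun z a b _ _ => hc z a b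
  rcases h with ⟨h1, h2⟩ | ⟨h1, h2⟩
  · let p2 : Vx N M := ⟨c.r, ρ / 2 * 2, ρ, c.hr, g, hρ⟩
    have g2 : y.a / 2 * 2 < W N M c.r := by omega
    let p3 : Vx N M := ⟨c.r, y.a / 2 * 2, ρ, c.hr, g2, hρ⟩
    let p4 : Vx N M := ⟨c.r, y.a / 2 * 2, y.b, c.hr, g2, yb⟩
    have s2 : RS (H N M).Adj S p1 p2 := col hM S p1 p2 (by simp [p1]) rfl rfl
      fun z a b _ _ => L2 z a (by simp only [p1] at b; omega)
    have s3 : RS (H N M).Adj S p2 p3 := row S p2 p3 rfl rfl fun z a b _ _ => L1 z a b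
    have s4 : RS (H N M).Adj S p3 p4 := col hM S p3 p4 (by simp [p3]) rfl rfl
      fun z a b d e => L3 z a (by simp only [p3] at b; omega)
        (by simp only [p3, p4] at d; omega) (by simp only [p3, p4] at e; omega)
    have s5 : RS (H N M).Adj S p4 y := row S p4 y hy rfl
      fun z a b d e => L3 z a (by simp only [p4] at d e; omega)
        (by simp only [p4] at b; omega) (by simp only [p4] at b; omega)
    exact ⟨(((s1.tr s2).tr s3).tr s4).tr s5, L3 y hy (by omega) (by omega) (by omega)⟩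
  · let p2 : Vx N M := ⟨c.r, ρ / 2 * 2, y.b, c.hr, g, yb⟩
    have s2 : RS (H N M).Adj S p1 p2 := col hM S p1 p2 (by simp [p1]) rfl rfl
      fun z a b _ _ => L2 z a (by simp only [p1] at b; omega)
    have s3 : RS (H N M).Adj S p2 y := row S p2 y hy rfl
      fun z a b d e => L4 z a (by simp only [p2] at b; omega)
        (by simp only [p2] at d; omega) (by simp only [p2] at e; omega)
    exact ⟨(s1.tr s2).tr s3, L4 y hy h2 (by omega) (by omega)⟩

theorem link (hM : 2 ∣ M) (h0 : 0 < M) (S : Set (Vx N M)) (c c' : Vx N M) (t : ℕ)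
    (ht : t < N * M ^ 9) (hc : ∀ z : Vx N M, z.r = c.r → z.b = c.b → z ∈ S)
    (hc' : ∀ z : Vx N M, z.r = c'.r → z.b = c'.b → z ∈ S)
    (hS : ∀ κ, ∀ z : Vx N M, z.r = c.r ∨ z.r = c'.r → Pc κ t z → z ∈ S)
    (h : c'.r = rt c.r ∨ c'.r = up c.r) : RS (H N M).Adj S c c' := by
  have hβ : ∀ r, t / M ^ 9 * D M r < W N M r := fun r =>
    Nat.mul_lt_mul_of_pos_right ((Nat.div_lt_iff_lt_mul (pow_pos h0 _)).2 ht) (pow_pos h0 _)
  have W0 : ∀ r, 0 < W N M r := fun r => (Nat.zero_le _).trans_lt (hβ r)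
  have W1 := W0 c.r
  have E := exits hM h0 S c t ht hc fun κ z a => hS κ z (Or.inl a)
  have E' := exits hM h0 S c' t ht hc' fun κ z a => hS κ z (Or.inr a)
  rcases h with h | h
  · let y : Vx N M := ⟨c.r, W N M c.r - 1, _, c.hr, by omega, hβ c.r⟩
    let y' : Vx N M := ⟨c'.r, 0, _, c'.hr, W0 _, hβ c'.r⟩
    have e : y.a + 1 = W N M c.r := by simp only [y]; omega
    have a := E y rfl (Or.inl ⟨rfl, Or.inr e⟩)
    have b := E' y' rfl (Or.inl ⟨rfl, Or.inl rfl⟩)
    exact (a.1.tr (RS.one (HR.adj (v := y) (w := y') (Or.inr ⟨h, e, rfl, _, rfl, rfl⟩))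
      a.2 b.2)).tr (b.1.symm hsym)
  · let y : Vx N M := ⟨c.r, _, W N M c.r - 1, c.hr, hβ c.r, by omega⟩
    let y' : Vx N M := ⟨c'.r, _, 0, c'.hr, hβ c'.r, W0 _⟩
    have e : y.b + 1 = W N M c.r := by simp only [y]; omega
    have a := E y rfl (Or.inr ⟨rfl, Or.inr e⟩)
    have b := E' y' rfl (Or.inr ⟨rfl, Or.inl rfl⟩)
    have We := W_even (N := N) hM c.r
    have b2 : y.a % 2 = 0 :=
      Nat.mod_eq_zero_of_dvd (Dvd.dvd.mul_left (hM.trans (dvd_pow_self M (by omega))) _)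
    exact (a.1.tr (RS.one (VU.adj (v := y) (w := y')
      ⟨by omega, Or.inr ⟨h, e, rfl, _, rfl, rfl⟩⟩) a.2 b.2)).tr
      (b.1.symm hsym)

end Pool.Agent.H89.TG
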