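import Mathlib
import Pool.Agent.H89.TG1

set_option autoImplicit false

namespace Pool.Agent.H89.TG

open Finset
open scoped Classical

variable {N M : ℕ}

/-- block of numbers with given quotient -/
def dv (q c : ℕ) : Finset ℕ := Ico (c * q) (c * q + q)

theorem mem_dv {q c t : ℕ} (hq : 0 < q) (h : t / q = c) : t ∈ dv q c := by
  subst h
  exact mem_Ico.2 ⟨Nat.div_mul_le_self _ _, Nat.lt_div_mul_add hq⟩

theorem card_dv (q c : ℕ) : (dv q c).card = q := by simp [dv]

theorem size (h0 : 0 < M) (κ : Bool) (t r : ℕ) (hr : r < 9) :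
    (univ.filter fun z : Vx N M => z.r = r ∧ Pc κ t z).card ≤
      if κ then 3 * W N M r else 6 * M ^ 9 := by
  have D0 : 0 < D M r := pow_pos h0 _
  cases κ
  · have e1 := card_box (N := N) r {0, 1, W N M r - 2, W N M r - 1} (dv (D M r) (t / M ^ 9))
      (univ.filter fun z : Vx N M => z.r = r ∧ (z.a < 2 ∨ W N M z.r ≤ z.a + 2) ∧
        z.b / D M z.r = t / M ^ 9) (fun z hz => by
          obtain ⟨-, rfl, h1, h2⟩ := mem_filter.1 hz
          have := z.ha
          exact ⟨rfl, by simp only [mem_insert, mem_singleton]; omega, mem_dv D0 h2⟩)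
    have e2 := card_box (N := N) r (dv (D M r) (t / M ^ 9)) {0, W N M r - 1}
      (univ.filter fun z : Vx N M => z.r = r ∧ (z.b = 0 ∨ z.b + 1 = W N M z.r) ∧
        z.a / D M z.r = t / M ^ 9) (fun z hz => by
          obtain ⟨-, rfl, h1, h2⟩ := mem_filter.1 hz
          exact ⟨rfl, mem_dv D0 h2, by simp only [mem_insert, mem_singleton]; omega⟩)
    rw [card_dv] at e1 e2
    have e3 := Nat.mul_le_mul_right (D M r)
      (card_le_four (a := 0) (b := 1) (c := W N M r - 2) (d := W N M r - 1))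
    have e4 := Nat.mul_le_mul_left (D M r) (card_le_two (a := 0) (b := W N M r - 1))
    have e5 : D M r ≤ M ^ 9 := Nat.pow_le_pow_right h0 (by omega)
    refine le_trans (card_le_card fun z hz => ?_) ((card_union_le _ _).trans
      ((Nat.add_le_add e1 e2).trans (by simp only [Bool.false_eq_true, if_false]; omega)))
    obtain ⟨-, h1, h2⟩ := mem_filter.1 hz
    simp only [Pc, Bool.false_eq_true, if_false] at h2
    rcases h2 with h2 | h2
    · exact mem_union_left _ (mem_filter.2 ⟨mem_univ _, h1, h2⟩)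
    · exact mem_union_right _ (mem_filter.2 ⟨mem_univ _, h1, h2⟩)
  · have e1 := card_box (N := N) r (range (W N M r)) {t / sp M r}
      (univ.filter fun z : Vx N M => z.r = r ∧ z.b = t / sp M z.r) (fun z hz => by
          obtain ⟨-, rfl, h1⟩ := mem_filter.1 hz
          exact ⟨rfl, mem_range.2 z.ha, mem_singleton.2 h1⟩)
    have e2 := card_box (N := N) r (dv 2 (t / sp M r / 2)) (range (W N M r))
      (univ.filter fun z : Vx N M => z.r = r ∧ z.a / 2 = t / sp M z.r / 2) (fun z hz => by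
          obtain ⟨-, rfl, h1⟩ := mem_filter.1 hz
          exact ⟨rfl, mem_dv two_pos h1, mem_range.2 z.hb⟩)
    rw [card_range, card_singleton] at e1
    rw [card_range, card_dv] at e2
    refine le_trans (card_le_card fun z hz => ?_) ((card_union_le _ _).trans
      ((Nat.add_le_add e1 e2).trans (by simp only [if_true]; omega)))
    obtain ⟨-, h1, h2⟩ := mem_filter.1 hz
    simp only [Pc, if_true] at h2
    rcases h2 with h2 | h2
    · exact mem_union_left _ (mem_filter.2 ⟨mem_univ _, h1, h2⟩)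
    · exact mem_union_right _ (mem_filter.2 ⟨mem_univ _, h1, h2⟩)

theorem marg (h0 : 0 < M) (κ : Bool) (n : ℕ) (z : Vx N M) :
    (univ.filter fun t : Fin n => Pc κ t z).card ≤ if κ then 3 * sp M z.r else 2 * M ^ 9 := by
  have s0 : 0 < sp M z.r := pow_pos h0 _
  have key : ∀ A B : Finset ℕ, (∀ t, Pc κ t z → t ∈ A ∪ B) →
      (univ.filter fun t : Fin n => Pc κ t z).card ≤ A.card + B.card := fun A B h =>
    le_trans (card_le_card_of_injOn Fin.val (fun t ht => mem_coe.2 (h _ (mem_filter.1 ht).2))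
      Fin.val_injective.injOn) (card_union_le _ _)
  cases κ
  · refine (key (dv (M ^ 9) (z.b / D M z.r)) (dv (M ^ 9) (z.a / D M z.r)) fun t h => ?_).trans
      (by simp only [card_dv, Bool.false_eq_true, if_false]; omega)
    simp only [Pc, Bool.false_eq_true, if_false] at h
    rcases h with h | h
    · exact mem_union_left _ (mem_dv (pow_pos h0 _) h.2.symm)
    · exact mem_union_right _ (mem_dv (pow_pos h0 _) h.2.symm)
  · refine (key (dv (sp M z.r) z.b) (dv (sp M z.r * 2) (z.a / 2)) fun t h => ?_).trans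
      (by simp only [card_dv, if_true]; omega)
    simp only [Pc, if_true] at h
    rcases h with h | h
    · exact mem_union_left _ (mem_dv s0 h.symm)
    · exact mem_union_right _ (mem_dv (by omega) (by rw [← Nat.div_div_eq_div_mul, h]))

theorem fiber (h0 : 0 < M) (κ : Bool) (n r : ℕ) (hr : r < 9) (Y : Finset (Vx N M)) :
    (univ.filter fun t : Fin n => ∃ y ∈ Y, y.r = r ∧ Pc κ t y).card ≤
      Y.card * if κ then 3 * sp M r else 2 * M ^ 9 := by
  refine le_trans (card_le_card (t := (Y.filter fun y => y.r = r).biUnion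
    fun y => univ.filter fun t : Fin n => Pc κ t y) fun t ht => ?_) ?_
  · obtain ⟨-, y, h1, h2, h3⟩ := mem_filter.1 ht
    exact mem_biUnion.2 ⟨y, mem_filter.2 ⟨h1, h2⟩, mem_filter.2 ⟨mem_univ _, h3⟩⟩
  · refine (card_biUnion_le_card_mul _ _ _ fun y hy => ?_).trans
      (Nat.mul_le_mul_right _ (card_filter_le _ _))
    rw [← (mem_filter.1 hy).2]
    exact marg h0 κ n y

/-- adjacency in the 3 by 3 toroidal grid -/
def g9 (a b : ℕ) : Prop := a < b ∧ b < 9 ∧ (a / 3 = b / 3 ∨ a % 3 = b % 3)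

/-- piece indices -/
abbrev Pi' := (Fin 9 × Fin 9) × Fin 9 × Bool

theorem paths (K : ℕ) : ∃ N M : ℕ, 0 < N ∧ 0 < M ∧ 2 ∣ M ∧
    ∀ (C : Vx N M → Vx N M → Prop) (Bd : Finset (Vx N M)), (∀ x y, C x y → C y x) →
      (∀ x, (univ.filter (C x)).card ≤ K) → Bd.card ≤ K →
      ∃ (c : ℕ → Vx N M) (P : ℕ → ℕ → Set (Vx N M)),
        (∀ a b, g9 a b → c a ∈ P a b ∧ RS (H N M).Adj (P a b) (c a) (c b) ∧
          ∀ x ∈ P a b, x ∉ Bd) ∧
        ∀ a b a' b', g9 a b → g9 a' b' → a ≠ a' → a ≠ b' → b ≠ a' → b ≠ b' →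
          ∀ x ∈ P a b, ∀ y ∈ P a' b', x ≠ y ∧ ¬ C x y := by
  obtain ⟨J, hJ⟩ : ∃ J, J = Fintype.card (Pi' × Option Pi') := ⟨_, rfl⟩
  obtain ⟨M, hM⟩ : ∃ M, M = 2 * (9 * K * J + 1) := ⟨_, rfl⟩
  obtain ⟨N, hN⟩ : ∃ N, N = 18 * M ^ 9 * K * J + 1 := ⟨_, rfl⟩
  have h0 : 0 < M := by omega
  have N0 : 0 < N := by omega
  have M9 : 0 < M ^ 9 := pow_pos h0 _
  have hM2 : 2 ∣ M := ⟨_, hM⟩
  refine ⟨N, M, N0, h0, hM2, fun C Bd hC hK hB => ?_⟩
  have mb : ∀ (κ : Bool) (r : ℕ), (if κ then 3 * sp M r else 2 * M ^ 9) ≤ 3 * M ^ 9 := by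
    intro κ r
    have : sp M r ≤ M ^ 9 := Nat.pow_le_pow_right h0 (by omega)
    split_ifs <;> omega
  have big : ∀ f, f ≤ 18 * M ^ 9 * K * M ^ 9 → J * f < N * M ^ 9 := by
    intro f hf
    have := Nat.mul_le_mul_left J hf
    rw [hN]; nlinarith
  let E : Pi' × Option Pi' → (Fin 9 × Fin 9 → Fin (N * M ^ 9)) → Prop := fun j ω =>
    ∃ y : Vx N M, y.r = j.1.2.1 ∧ Pc j.1.2.2 (ω j.1.1) y ∧
      match j.2 with
      | none => y ∈ Bd
      | some p => p.1 ≠ j.1.1 ∧ (p.2.2 = false ∨ (j.1.2.2 = true ∧ p.2.1 < j.1.2.1)) ∧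
          ∃ x : Vx N M, x.r = p.2.1 ∧ Pc p.2.2 (ω p.1) x ∧ C x y
  obtain ⟨ω, hω⟩ := union (N * M ^ 9) (Nat.mul_pos N0 M9) E (by
    rintro ⟨⟨σ, r, κ⟩, q⟩
    refine ⟨σ, fun ω => ?_⟩
    rw [← hJ]
    cases q with
    | none =>
      refine ⟨_, big _ ((fiber h0 κ (N * M ^ 9) r r.2 Bd).trans ?_), fun t ht => ?_⟩
      · refine (Nat.mul_le_mul hB (mb κ r)).trans ?_
        nlinarith [Nat.mul_le_mul_left (K * M ^ 9) M9]
      · obtain ⟨y, h1, h2, h3⟩ := ht
        simp only [Function.update_self] at h2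
        exact mem_filter.2 ⟨mem_univ _, y, h3, h1, h2⟩
    | some p =>
      obtain ⟨σ', r', κ'⟩ := p
      by_cases g : σ' ≠ σ ∧ (κ' = false ∨ (κ = true ∧ r' < r))
      swap
      · refine ⟨∅, big _ (Nat.zero_le _), ?_⟩
        rintro t ⟨y, -, -, h1, h2, -⟩
        exact absurd ⟨h1, h2⟩ g
      let X := univ.filter fun z : Vx N M => z.r = r' ∧ Pc κ' (ω σ') z
      let Y := X.biUnion fun x => univ.filter (C x)
      have hY : Y.card ≤ (if κ' then 3 * W N M r' else 6 * M ^ 9) * K :=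
        (card_biUnion_le_card_mul _ _ _ fun x _ => hK x).trans
          (Nat.mul_le_mul_right _ (size h0 κ' _ r' r'.2))
      have hF := fiber h0 κ (N * M ^ 9) r r.2 Y
      refine ⟨univ.filter fun t : Fin (N * M ^ 9) => ∃ y ∈ Y, y.r = r ∧ Pc κ t y, ?_, ?_⟩
      swap
      · rintro t ⟨y, h1, h2, h3, -, x, h4, h5, h6⟩
        simp only [Function.update_self] at h2
        simp only [Function.update_of_ne g.1] at h5
        exact mem_filter.2 ⟨mem_univ _, y, mem_biUnion.2 ⟨x, mem_filter.2 ⟨mem_univ _, h4, h5⟩,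
          mem_filter.2 ⟨mem_univ _, h6⟩⟩, h1, h2⟩
      rcases Bool.eq_false_or_eq_true κ' with k | k
      · obtain ⟨k1, k2⟩ := g.2.resolve_left (by simp [k])
        subst k k1
        simp only [if_true] at hY hF
        have e1 : D M r' * sp M r ≤ M ^ 8 := by
          rw [D, sp, ← pow_add]
          have : (r' : ℕ) < r := k2
          exact Nat.pow_le_pow_right h0 (by omega)
        refine lt_of_le_of_lt (Nat.mul_le_mul_left J (hF.trans (Nat.mul_le_mul_right _ hY))) ?_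
        have e2 : J * (3 * W N M r' * K * (3 * sp M r)) = 9 * K * J * (N * (D M r' * sp M r)) := by
          rw [W]; ring
        rw [e2, show N * M ^ 9 = M * (N * M ^ 8) by ring]
        exact Nat.mul_lt_mul_of_lt_of_le (by omega) (Nat.mul_le_mul_left _ e1)
          (Nat.mul_pos N0 (pow_pos h0 _))
      · subst k
        simp only [Bool.false_eq_true, if_false] at hY
        exact big _ (hF.trans ((Nat.mul_le_mul hY (mb κ r)).trans (le_of_eq (by ring)))))
  let f : ℕ → Fin 9 := Fin.ofNat 9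
  have fv : ∀ a, a < 9 → (f a : ℕ) = a := fun a h => Nat.mod_eq_of_lt h
  have cb : ∀ a, (ω (f a, f a) : ℕ) / sp M (f a) < W N M (f a) := fun a => by
    rw [Nat.div_lt_iff_lt_mul (show 0 < sp M (f a) from pow_pos h0 _), W_sp (f a).2]
    exact (ω _).2
  let c : ℕ → Vx N M := fun a => ⟨f a, 0, _, (f a).2, (Nat.zero_le _).trans_lt (cb a), cb a⟩
  let P : ℕ → ℕ → Set (Vx N M) := fun a b => {z | (z.r = a ∨ z.r = b) ∧
    ∃ κ, Pc κ (ω (f a, f b)) z ∨ Pc κ (ω (f z.r, f z.r)) z}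
  have cP : ∀ a b e, e < 9 → e = a ∨ e = b → ∀ z : Vx N M, z.r = (c e).r → z.b = (c e).b →
      z ∈ P a b := by
    intro a b e he h z h1 h2
    have h3 : z.r = e := h1.trans (fv e he)
    refine ⟨by omega, true, Or.inr ?_⟩
    simp only [Pc, if_true]
    left
    rw [h2, h3]
    simp only [c, fv e he]
  have pc : ∀ a b, ∀ z ∈ P a b, ∃ σ : Fin 9 × Fin 9, ∃ κ, (σ.1 = f a ∨ σ.1 = f b) ∧
      (z.r = a ∨ z.r = b) ∧ Pc κ (ω σ) z := by
    rintro a b z ⟨h1, κ, h2 | h2⟩
    · exact ⟨_, κ, Or.inl rfl, h1, h2⟩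
    · exact ⟨_, κ, h1.imp (fun e => by rw [e]) fun e => by rw [e], h1, h2⟩
  refine ⟨c, P, fun a b h => ⟨cP a b a (by unfold g9 at h; omega) (Or.inl rfl) _ rfl rfl, ?_,
    fun x hx hb => ?_⟩, fun a b a' b' h h' n1 n2 n3 n4 x hx y hy => ?_⟩
  · have ha : a < 9 := by unfold g9 at h; omega
    have hb : b < 9 := h.2.1
    have hS : ∀ κ, ∀ z : Vx N M, z.r = (c a).r ∨ z.r = (c b).r → Pc κ (ω (f a, f b)) z →
        z ∈ P a b := fun κ z h1 h2 =>
      ⟨by simp only [c, fv a ha, fv b hb] at h1; exact h1, κ, Or.inl h2⟩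
    have : (b = rt a ∨ b = up a) ∨ (a = rt b ∨ a = up b) := by
      unfold g9 at h; unfold rt up; omega
    rcases this with k | k
    · exact link hM2 h0 _ _ _ _ (ω _).2 (cP a b a ha (Or.inl rfl)) (cP a b b hb (Or.inr rfl)) hS
        (by simp only [c, fv a ha, fv b hb]; exact k)
    · exact (link hM2 h0 _ _ _ _ (ω _).2 (cP a b b hb (Or.inr rfl)) (cP a b a ha (Or.inl rfl))
        (fun κ z h => hS κ z h.symm) (by simp only [c, fv a ha, fv b hb]; exact k)).symm hsym
  · obtain ⟨σ, κ, -, -, h3⟩ := pc a b x hx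
    exact hω (⟨σ, ⟨x.r, x.hr⟩, κ⟩, none) ⟨x, rfl, h3, hb⟩
  · obtain ⟨σ, κ, h1, h2, h3⟩ := pc a b x hx
    obtain ⟨σ', κ', k1, k2, k3⟩ := pc a' b' y hy
    have ha : a < 9 := by unfold g9 at h; omega
    have ha' : a' < 9 := by unfold g9 at h'; omega
    have hr : x.r ≠ y.r := by omega
    have hσ : σ ≠ σ' := by
      intro e
      have e1 := fv a ha
      have e2 := fv b h.2.1
      have e3 := fv a' ha'
      have e4 := fv b' h'.2.1
      rw [e] at h1
      rcases h1 with h1 | h1 <;> rcases k1 with k1 | k1 <;> rw [h1] at k1 <;>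
        have := congrArg Fin.val k1 <;> omega
    refine ⟨fun e => hr (by rw [e]), fun hxy => ?_⟩
    by_cases g : κ = false ∨ (κ' = true ∧ x.r < y.r)
    · exact hω (⟨σ', ⟨y.r, y.hr⟩, κ'⟩, some ⟨σ, ⟨x.r, x.hr⟩, κ⟩)
        ⟨y, rfl, k3, hσ, g, x, rfl, h3, hxy⟩
    · refine hω (⟨σ, ⟨x.r, x.hr⟩, κ⟩, some ⟨σ', ⟨y.r, y.hr⟩, κ'⟩)
        ⟨x, rfl, h3, hσ.symm, ?_, y, rfl, k3, hC _ _ hxy⟩
      change κ' = false ∨ (κ = true ∧ y.r < x.r)
      cases κ <;> cases κ' <;> simp at g ⊢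
      omega

theorem deg3 (h0 : 0 < M) (hM : 2 ∣ M) (v : Vx N M) :
    (univ.filter ((H N M).Adj v)).card ≤ 3 := by
  have D0 : ∀ r, 0 < D M r := fun r => pow_pos h0 _
  have ev : ∀ β r, β * D M r % 2 = 0 := fun β r =>
    Nat.mod_eq_zero_of_dvd (Dvd.dvd.mul_left (hM.trans (dvd_pow_self M (by omega))) _)
  have s1 : (univ.filter fun w => HR v w).card ≤ 1 := by
    refine card_le_one.2 fun x hx y hy => ?_
    have xa := x.ha
    have ya := y.ha
    rcases (mem_filter.1 hx).2 with ⟨a1, a2, a3⟩ | ⟨a1, a2, a3, β, a4, a5⟩ <;>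
      rcases (mem_filter.1 hy).2 with ⟨b1, b2, b3⟩ | ⟨b1, b2, b3, γ, b4, b5⟩
    · exact Vx.ext (by omega) (by omega) (by omega)
    · rw [a1] at xa; omega
    · rw [b1] at ya; omega
    · obtain rfl := Nat.eq_of_mul_eq_mul_right (D0 _) (a4.symm.trans b4)
      exact Vx.ext (by omega) (by omega) (by rw [a5, b5, a1, b1])
  have s2 : (univ.filter fun w => HR w v).card ≤ 1 := by
    refine card_le_one.2 fun x hx y hy => ?_
    have xr := x.hr
    have yr := y.hr
    rcases (mem_filter.1 hx).2 with ⟨a1, a2, a3⟩ | ⟨a1, a2, a3, β, a4, a5⟩ <;>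
      rcases (mem_filter.1 hy).2 with ⟨b1, b2, b3⟩ | ⟨b1, b2, b3, γ, b4, b5⟩
    · exact Vx.ext (by omega) (by omega) (by omega)
    · omega
    · omega
    · obtain rfl := Nat.eq_of_mul_eq_mul_right (D0 _) (a5.symm.trans b5)
      have e : x.r = y.r := by unfold rt at a1 b1; omega
      exact Vx.ext e (by rw [e] at a2; omega) (by rw [a4, b4, e])
  have s3 : (univ.filter fun w => VU v w ∨ VU w v).card ≤ 1 := by
    refine card_le_one.2 fun x hx y hy => ?_
    have xr := x.hr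
    have yr := y.hr
    have xb := x.hb
    have yb := y.hb
    have par : ∀ w : Vx N M, VU w v → (v.a + v.b) % 2 = 0 := by
      rintro w ⟨p, ⟨a1, a2, a3⟩ | ⟨a1, a2, a3, β, a4, a5⟩⟩
      · omega
      · have := ev β v.r; omega
    rcases (mem_filter.1 hx).2 with hx | hx <;> rcases (mem_filter.1 hy).2 with hy | hy
    · rcases hx.2 with ⟨a1, a2, a3⟩ | ⟨a1, a2, a3, β, a4, a5⟩ <;>
        rcases hy.2 with ⟨b1, b2, b3⟩ | ⟨b1, b2, b3, γ, b4, b5⟩
      · exact Vx.ext (by omega) (by omega) (by omega)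
      · rw [a1] at xb; omega
      · rw [b1] at yb; omega
      · obtain rfl := Nat.eq_of_mul_eq_mul_right (D0 _) (a4.symm.trans b4)
        exact Vx.ext (by omega) (by rw [a5, b5, a1, b1]) (by omega)
    · have := par y hy; have := hx.1; omega
    · have := par x hx; have := hy.1; omega
    · rcases hx.2 with ⟨a1, a2, a3⟩ | ⟨a1, a2, a3, β, a4, a5⟩ <;>
        rcases hy.2 with ⟨b1, b2, b3⟩ | ⟨b1, b2, b3, γ, b4, b5⟩
      · exact Vx.ext (by omega) (by omega) (by omega)
      · omega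
      · omega
      · obtain rfl := Nat.eq_of_mul_eq_mul_right (D0 _) (a5.symm.trans b5)
        have e : x.r = y.r := by unfold up at a1 b1; omega
        exact Vx.ext e (by rw [a4, b4, e]) (by rw [e] at a2; omega)
  refine le_trans (card_le_card (t := ((univ.filter fun w => HR v w) ∪ univ.filter fun w => HR w v)
    ∪ univ.filter fun w => VU v w ∨ VU w v) fun w hw => ?_) ?_
  · have := ((SimpleGraph.fromRel_adj _ _ _).1 (mem_filter.1 hw).2).2
    simp only [mem_union, mem_filter, mem_univ, true_and]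
    tauto
  · have := card_union_le (univ.filter fun w => HR v w) (univ.filter fun w => HR w v)
    exact (card_union_le _ _).trans (by omega)

end Pool.Agent.H89.TG
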