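import Mathlib
import Pool.Agent.H89.TG2

set_option autoImplicit false

namespace Pool.Agent.H89.TG

open scoped Classical

/-- A drawing in a space. -/
structure Drw (X : Type) [TopologicalSpace X] {V : Type} (G : SimpleGraph V) where
  pos : V → X
  arc : V → V → ℝ → X
  pos_inj : Function.Injective pos
  cont : ∀ u v, G.Adj u v → ContinuousOn (arc u v) (Set.Icc 0 1)
  inj : ∀ u v, G.Adj u v → Set.InjOn (arc u v) (Set.Icc 0 1)
  src : ∀ u v, G.Adj u v → arc u v 0 = pos u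
  tgt : ∀ u v, G.Adj u v → arc u v 1 = pos v
  rev : ∀ u v, G.Adj u v → ∀ t ∈ Set.Icc (0 : ℝ) 1, arc v u t = arc u v (1 - t)
  avoid : ∀ u v, G.Adj u v → ∀ t ∈ Set.Ioo (0 : ℝ) 1, ∀ w, arc u v t ≠ pos w

/-- no crossings -/
def Drw.Free {X : Type} [TopologicalSpace X] {V : Type} {G : SimpleGraph V} (D : Drw X G) : Prop :=
  ∀ u v u' v', G.Adj u v → G.Adj u' v' → s(u, v) ≠ s(u', v') →
    ∀ s ∈ Set.Ioo (0 : ℝ) 1, ∀ t ∈ Set.Ioo (0 : ℝ) 1, D.arc u v s ≠ D.arc u' v' t

theorem build {X : Type} [TopologicalSpace X] {V : Type} (r : V → V → Prop) (p : V → X)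
    (g : V → V → ℝ → X) (hr : ∀ u v, r u v → ¬ r v u) (hp : Function.Injective p)
    (h1 : ∀ u v, r u v → Continuous (g u v) ∧ Set.InjOn (g u v) (Set.Icc 0 1) ∧ g u v 0 = p u ∧
      g u v 1 = p v ∧ ∀ t ∈ Set.Ioo (0 : ℝ) 1, ∀ w, g u v t ≠ p w)
    (h2 : ∀ u v u' v', r u v → r u' v' → ∀ s ∈ Set.Ioo (0 : ℝ) 1, ∀ t ∈ Set.Ioo (0 : ℝ) 1,
      g u v s = g u' v' t → u = u' ∧ v = v') :
    ∃ D : Drw X (SimpleGraph.fromRel r), D.Free := by
  have ad : ∀ u v, (SimpleGraph.fromRel r).Adj u v → ¬ r u v → r v u := fun u v h k =>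
    ((SimpleGraph.fromRel_adj _ _ _).1 h).2.resolve_left k
  have io : ∀ t ∈ Set.Ioo (0 : ℝ) 1, 1 - t ∈ Set.Ioo (0 : ℝ) 1 := fun t ht =>
    ⟨by linarith [ht.2], by linarith [ht.1]⟩
  have ic : ∀ t ∈ Set.Icc (0 : ℝ) 1, 1 - t ∈ Set.Icc (0 : ℝ) 1 := fun t ht =>
    ⟨by linarith [ht.2], by linarith [ht.1]⟩
  refine ⟨⟨p, fun u v t => if r u v then g u v t else g v u (1 - t), hp, fun u v h => ?_,
    fun u v h => ?_, fun u v h => ?_, fun u v h => ?_, fun u v h t _ => ?_,
    fun u v h t ht w => ?_⟩, fun u v u' v' h h' ne s hs t ht => ?_⟩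
  · by_cases k : r u v <;> simp only [k, if_true, if_false]
    · exact (h1 u v k).1.continuousOn
    · exact ((h1 v u (ad u v h k)).1.comp (by fun_prop)).continuousOn
  · by_cases k : r u v <;> simp only [k, if_true, if_false]
    · exact (h1 u v k).2.1
    · intro s hs t ht e
      have := (h1 v u (ad u v h k)).2.1 (ic s hs) (ic t ht) e
      linarith
  · by_cases k : r u v <;> simp only [k, if_true, if_false]
    · exact (h1 u v k).2.2.1
    · rw [sub_zero]; exact (h1 v u (ad u v h k)).2.2.2.1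
  · by_cases k : r u v <;> simp only [k, if_true, if_false]
    · exact (h1 u v k).2.2.2.1
    · rw [sub_self]; exact (h1 v u (ad u v h k)).2.2.1
  · by_cases k : r u v
    · simp only [k, hr u v k, if_true, if_false]
    · simp only [k, ad u v h k, if_true, if_false, sub_sub_cancel]
  · by_cases k : r u v <;> simp only [k, if_true, if_false]
    · exact (h1 u v k).2.2.2.2 t ht w
    · exact (h1 v u (ad u v h k)).2.2.2.2 _ (io t ht) w
  · intro e
    apply ne
    by_cases k : r u v <;> by_cases k' : r u' v' <;> simp only [k, k', if_true, if_false] at e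
    · obtain ⟨rfl, rfl⟩ := h2 _ _ _ _ k k' _ hs _ ht e; rfl
    · obtain ⟨rfl, rfl⟩ := h2 _ _ _ _ k (ad _ _ h' k') _ hs _ (io t ht) e; exact Sym2.eq_swap
    · obtain ⟨rfl, rfl⟩ := h2 _ _ _ _ (ad _ _ h k) k' _ (io s hs) _ ht e; exact Sym2.eq_swap
    · obtain ⟨rfl, rfl⟩ := h2 _ _ _ _ (ad _ _ h k) (ad _ _ h' k') _ (io s hs) _ (io t ht) e; rfl

variable {N M : ℕ}

/-- coordinate -/
def co (N M i a r : ℕ) : ℕ := 2 * (N * M ^ 9) * i + a * sp M r
/-- length -/
def ln (N M a r : ℕ) : ℕ := if a + 1 < W N M r then sp M r else N * M ^ 9 + sp M r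

theorem fa {a r : ℕ} (hr : r < 9) (ha : a < W N M r) : a * sp M r + sp M r ≤ N * M ^ 9 := by
  rw [← W_sp hr]
  nlinarith [Nat.mul_le_mul_right (sp M r) (Nat.succ_le_of_lt ha)]

theorem fA (i : ℕ) {a r : ℕ} (hr : r < 9) (ha : a < W N M r) :
    co N M i a r + ln N M a r ≤ 2 * (N * M ^ 9) * (i + 1) := by
  have := fa hr ha
  unfold co ln
  split_ifs <;> rw [mul_add] <;> omega

theorem fB (h0 : 0 < M) {i i' a a' r r' : ℕ} (hr : r < 9) (ha : a < W N M r) (hr' : r' < 9)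
    (ha' : a' < W N M r') (h1 : co N M i a r ≤ co N M i' a' r')
    (h2 : co N M i' a' r' < co N M i a r + ln N M a r) : i = i' := by
  have e1 := fA i hr ha
  have e2 := fa hr' ha'
  have s0 : 0 < sp M r' := pow_pos h0 _
  unfold co at *
  generalize N * M ^ 9 = n at *
  rcases lt_trichotomy i i' with h | h | h
  · have := Nat.mul_le_mul_left (2 * n) (Nat.succ_le_of_lt h)
    rw [Nat.succ_eq_add_one] at this
    omega
  · exact h
  · have := Nat.mul_le_mul_left (2 * n) (Nat.succ_le_of_lt h)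
    rw [Nat.succ_eq_add_one, mul_add] at this
    omega

theorem ln_pos (h0 : 0 < M) (a r : ℕ) : 0 < ln N M a r := by
  have s0 : 0 < sp M r := pow_pos h0 _
  unfold ln; split_ifs <;> omega

theorem fC {i a a' r : ℕ} (ha' : a' < W N M r) (h1 : co N M i a r < co N M i a' r)
    (h2 : co N M i a' r < co N M i a r + ln N M a r) : False := by
  unfold co at *
  have e1 : a < a' := Nat.lt_of_mul_lt_mul_right (a := sp M r) (by omega)
  unfold ln at h2
  rw [if_pos (by omega)] at h2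
  have := Nat.mul_le_mul_right (sp M r) (Nat.succ_le_of_lt e1)
  rw [Nat.succ_eq_add_one, add_mul] at this
  omega

/-- x coordinate -/
def cx (v : Vx N M) : ℕ := co N M (v.r / 3) v.a v.r
/-- y coordinate -/
def cy (v : Vx N M) : ℕ := co N M (v.r % 3) v.b v.r

theorem gX (h0 : 0 < M) (u w : Vx N M) (h1 : cx u < cx w) (h2 : cx w < cx u + ln N M u.a u.r)
    (h3 : (cy u ≤ cy w ∧ cy w < cy u + ln N M u.b u.r) ∨
      (cy w ≤ cy u ∧ cy u < cy w + ln N M w.b w.r)) : False := by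
  have e1 := fB h0 u.hr u.ha w.hr w.ha h1.le h2
  have e2 : u.r % 3 = w.r % 3 := h3.elim (fun h => fB h0 u.hr u.hb w.hr w.hb h.1 h.2)
    fun h => (fB h0 w.hr w.hb u.hr u.hb h.1 h.2).symm
  have e : w.r = u.r := by omega
  unfold cx at h1 h2
  rw [e] at h1 h2
  exact fC (e ▸ w.ha) h1 h2

theorem gY (h0 : 0 < M) (u w : Vx N M) (h1 : cy u < cy w) (h2 : cy w < cy u + ln N M u.b u.r)
    (h3 : cx w = cx u) : False := by
  have e1 := fB h0 u.hr u.hb w.hr w.hb h1.le h2
  have e2 := fB h0 u.hr u.ha w.hr w.ha h3.ge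
    (lt_of_eq_of_lt h3 (Nat.lt_add_of_pos_right (ln_pos h0 _ _)))
  have e : w.r = u.r := by omega
  unfold cy at h1 h2
  rw [e] at h1 h2
  exact fC (e ▸ w.hb) h1 h2

theorem cinj (h0 : 0 < M) (u w : Vx N M) (h1 : cx w = cx u) (h2 : cy w = cy u) : u = w := by
  have e1 := fB h0 u.hr u.ha w.hr w.ha h1.ge
    (lt_of_eq_of_lt h1 (Nat.lt_add_of_pos_right (ln_pos h0 _ _)))
  have e2 := fB h0 u.hr u.hb w.hr w.hb h2.ge
    (lt_of_eq_of_lt h2 (Nat.lt_add_of_pos_right (ln_pos h0 _ _)))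
  have e : w.r = u.r := by omega
  have s0 : 0 < sp M u.r := pow_pos h0 _
  unfold cx co at h1
  unfold cy co at h2
  rw [e] at h1 h2
  exact Vx.ext e.symm (Nat.eq_of_mul_eq_mul_right s0 (by omega))
    (Nat.eq_of_mul_eq_mul_right s0 (by omega))

theorem step {i i' a a' r r' : ℕ} (hr : r < 9) (hi : i < 3)
    (h : (i' = i ∧ r' = r ∧ a' = a + 1 ∧ a' < W N M r) ∨
      (i' = (i + 1) % 3 ∧ a + 1 = W N M r ∧ a' = 0)) :
    co N M i a r + ln N M a r = co N M i' a' r' ∨
      co N M i a r + ln N M a r = co N M i' a' r' + 6 * (N * M ^ 9) := by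
  rcases h with ⟨rfl, rfl, rfl, h⟩ | ⟨rfl, h, rfl⟩
  · left; unfold co ln; rw [if_pos h]; ring
  · have e := W_sp (N := N) (M := M) hr
    rw [← h, add_mul] at e
    unfold co ln
    rw [if_neg (by omega)]
    generalize N * M ^ 9 = n at *
    interval_cases i <;> simp <;> omega

theorem same {i β r r' : ℕ} (hr : r < 9) (hr' : r' < 9) :
    co N M i (β * D M r) r = co N M i (β * D M r') r' := by
  unfold co
  rw [mul_assoc β, mul_assoc β, mul_comm (D M r), mul_comm (D M r'), D_sp hr, D_sp hr']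

theorem HR.co {u w : Vx N M} (h : HR u w) : cy w = cy u ∧ (cx u + ln N M u.a u.r = cx w ∨
    cx u + ln N M u.a u.r = cx w + 6 * (N * M ^ 9)) := by
  have := u.hr
  rcases h with ⟨h1, h2, h3⟩ | ⟨h1, h2, h3, β, h4, h5⟩
  · exact ⟨by unfold cy; rw [h1, h3], step u.hr (by omega)
      (Or.inl ⟨by rw [h1], h1, h2, h1 ▸ w.ha⟩)⟩
  · refine ⟨?_, step u.hr (by omega) (Or.inr ⟨by rw [h1]; unfold rt; omega, h2, h3⟩)⟩
    unfold cy
    rw [h4, h5, show w.r % 3 = u.r % 3 by rw [h1]; unfold rt; omega]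
    exact same w.hr u.hr

theorem VU.co {u w : Vx N M} (h : VU u w) : cx w = cx u ∧ (cy u + ln N M u.b u.r = cy w ∨
    cy u + ln N M u.b u.r = cy w + 6 * (N * M ^ 9)) := by
  have := u.hr
  rcases h.2 with ⟨h1, h2, h3⟩ | ⟨h1, h2, h3, β, h4, h5⟩
  · exact ⟨by unfold cx; rw [h1, h3], step u.hr (by omega)
      (Or.inl ⟨by rw [h1], h1, h2, h1 ▸ w.hb⟩)⟩
  · refine ⟨?_, step u.hr (by omega) (Or.inr ⟨by rw [h1]; unfold up; omega, h2, h3⟩)⟩
    unfold cx
    rw [h4, h5, show w.r / 3 = u.r / 3 by rw [h1]; unfold up; omega]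
    exact same w.hr u.hr

theorem toroidal (hN : 0 < N) (h0 : 0 < M) :
    ∃ D : Drw (UnitAddCircle × UnitAddCircle) (H N M), D.Free := by
  set T : ℝ := ((6 * (N * M ^ 9) : ℕ) : ℝ) with hT
  have n0 : 0 < N * M ^ 9 := Nat.mul_pos hN (pow_pos h0 _)
  have T0 : 0 < T := by rw [hT]; exact_mod_cast (by omega)
  let q : ℝ → UnitAddCircle := fun x => ((x / T : ℝ) : UnitAddCircle)
  have qc : Continuous q := (AddCircle.continuous_mk' 1).comp (by fun_prop)
  have qi : ∀ c x y : ℝ, c ≤ x → x < c + T → c ≤ y → y < c + T → q x = q y → x = y := by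
    intro c x y a1 a2 b1 b2 e
    have m : ∀ z : ℝ, c ≤ z → z < c + T → z / T ∈ Set.Ico (c / T) (c / T + 1) := fun z k1 k2 =>
      ⟨div_le_div_of_nonneg_right k1 T0.le, by
        rw [div_add_one T0.ne']; exact div_lt_div_of_pos_right k2 T0⟩
    have := (AddCircle.coe_eq_coe_iff_of_mem_Ico (m x a1 a2) (m y b1 b2)).1 e
    field_simp at this
    exact this
  have qp : ∀ a b : ℕ, (a = b ∨ a = b + 6 * (N * M ^ 9)) → q a = q b := by
    rintro a b (rfl | rfl)
    · rfl
    · simp only [q]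
      rw [Nat.cast_add, ← hT, add_div, div_self T0.ne', AddCircle.coe_add_period]
  have bd : ∀ i a r, i < 3 → r < 9 → a < W N M r →
      (co N M i a r : ℝ) + ln N M a r ≤ T ∧ (0 : ℝ) < ln N M a r ∧ (ln N M a r : ℝ) < T := by
    intro i a r hi hr ha
    have e1 := fA (N := N) (M := M) i hr ha
    have e2 := fA (N := N) (M := M) 0 hr ha
    have e3 := Nat.mul_le_mul_left (2 * (N * M ^ 9)) (show i + 1 ≤ 3 by omega)
    rw [hT]
    exact ⟨by exact_mod_cast (by omega), by exact_mod_cast ln_pos h0 a r,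
      by exact_mod_cast (by omega)⟩
  have bx : ∀ u : Vx N M, (cx u : ℝ) + ln N M u.a u.r ≤ T ∧ (0 : ℝ) < ln N M u.a u.r ∧
      (ln N M u.a u.r : ℝ) < T := fun u => bd _ _ _ (by have := u.hr; omega) u.hr u.ha
  have bY : ∀ u : Vx N M, (cy u : ℝ) + ln N M u.b u.r ≤ T ∧ (0 : ℝ) < ln N M u.b u.r ∧
      (ln N M u.b u.r : ℝ) < T := fun u => bd _ _ _ (by omega) u.hr u.hb
  have vx : ∀ u w : Vx N M, q (cx u) = q (cx w) → cx u = cx w := fun u w e => by
    exact_mod_cast qi 0 _ _ (Nat.cast_nonneg _) (by linarith [bx u]) (Nat.cast_nonneg _)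
      (by linarith [bx w]) e
  have vy : ∀ u w : Vx N M, q (cy u) = q (cy w) → cy u = cy w := fun u w e => by
    exact_mod_cast qi 0 _ _ (Nat.cast_nonneg _) (by linarith [bY u]) (Nat.cast_nonneg _)
      (by linarith [bY w]) e
  have ii : ∀ (c l : ℕ) (s : ℝ), s ∈ Set.Ioo (0 : ℝ) 1 → (0 : ℝ) < l →
      (c : ℝ) < c + s * l ∧ (c : ℝ) + s * l < c + l := fun c l s hs hl =>
    ⟨by nlinarith [hs.1], by nlinarith [hs.2]⟩
  have mid : ∀ (c l m : ℕ) (s : ℝ), s ∈ Set.Ioo (0 : ℝ) 1 → (0 : ℝ) < l → (c : ℝ) + l ≤ T →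
      (m : ℝ) < T → q (c + s * l) = q m → c < m ∧ m < c + l := by
    intro c l m s hs hl h1 h2 e
    have k := ii c l s hs hl
    have := qi 0 _ _ (by linarith [(Nat.cast_nonneg c : (0 : ℝ) ≤ c)]) (by linarith)
      (Nat.cast_nonneg _) (by linarith) e
    rw [this] at k
    exact ⟨by exact_mod_cast k.1, by exact_mod_cast k.2⟩
  have two : ∀ (c l c' l' : ℕ) (s t : ℝ), s ∈ Set.Ioo (0 : ℝ) 1 → t ∈ Set.Ioo (0 : ℝ) 1 →
      (0 : ℝ) < l → (0 : ℝ) < l' → (c : ℝ) + l ≤ T → (c' : ℝ) + l' ≤ T →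
      q (c + s * l) = q (c' + t * l') → c < c' + l' ∧ c' < c + l := by
    intro c l c' l' s t hs ht hl hl' h1 h2 e
    have k := ii c l s hs hl
    have k' := ii c' l' t ht hl'
    have := qi 0 _ _ (by linarith [(Nat.cast_nonneg c : (0 : ℝ) ≤ c)]) (by linarith)
      (by linarith [(Nat.cast_nonneg c' : (0 : ℝ) ≤ c')]) (by linarith) e
    exact ⟨by exact_mod_cast (by linarith : (c : ℝ) < c' + l'),
      by exact_mod_cast (by linarith : (c' : ℝ) < c + l)⟩
  have ij : ∀ (c l : ℝ), 0 < l → l < T → ∀ s ∈ Set.Icc (0 : ℝ) 1, ∀ t ∈ Set.Icc (0 : ℝ) 1,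
      q (c + s * l) = q (c + t * l) → s = t := by
    intro c l h1 h2 s hs t ht e
    have := qi c _ _ (by nlinarith [hs.1]) (by nlinarith [hs.2]) (by nlinarith [ht.1])
      (by nlinarith [ht.2]) e
    exact mul_right_cancel₀ h1.ne' (add_left_cancel this)
  have D0 : ∀ r, 0 < D M r := fun r => pow_pos h0 _
  refine build (fun v w => HR v w ∨ VU v w) (fun v => (q (cx v), q (cy v)))
    (fun u v t => if HR u v then (q (cx u + t * ln N M u.a u.r), q (cy u))
      else (q (cx u), q (cy u + t * ln N M u.b u.r))) ?_ ?_ ?_ ?_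
  · intro u v h k
    have := u.hr
    have := v.hr
    rcases h with (h | h) | ⟨-, h | h⟩ <;> rcases k with (k | k) | ⟨-, k | k⟩ <;>
      obtain ⟨a1, a2, a3⟩ := h <;> obtain ⟨b1, b2, b3⟩ := k <;>
      (try unfold rt at *) <;> (try unfold up at *) <;> omega
  · intro u w e
    simp only [Prod.mk.injEq] at e
    exact cinj h0 u w (vx _ _ e.1).symm (vy _ _ e.2).symm
  · intro u v h
    by_cases k : HR u v <;> simp only [k, if_true, if_false]
    · refine ⟨(qc.comp (by fun_prop)).prodMk continuous_const, fun s hs t ht e =>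
        ij _ _ (bx u).2.1 (bx u).2.2 s hs t ht (Prod.ext_iff.1 e).1, by simp, ?_,
        fun t ht w e => ?_⟩
      · rw [one_mul, ← Nat.cast_add, qp _ _ k.co.2, k.co.1]
      · simp only [Prod.mk.injEq] at e
        have a := mid _ _ _ t ht (bx u).2.1 (bx u).1 (by linarith [bx w]) e.1
        have b := vy _ _ e.2
        exact gX h0 u w a.1 a.2 (Or.inl ⟨b.le, b ▸ Nat.lt_add_of_pos_right (ln_pos h0 _ _)⟩)
    · have k' := h.resolve_left k
      refine ⟨continuous_const.prodMk (qc.comp (by fun_prop)), fun s hs t ht e =>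
        ij _ _ (bY u).2.1 (bY u).2.2 s hs t ht (Prod.ext_iff.1 e).2, by simp, ?_,
        fun t ht w e => ?_⟩
      · rw [one_mul, ← Nat.cast_add, qp _ _ k'.co.2, k'.co.1]
      · simp only [Prod.mk.injEq] at e
        have a := mid _ _ _ t ht (bY u).2.1 (bY u).1 (by linarith [bY w]) e.2
        exact gY h0 u w a.1 a.2 (vx _ _ e.1).symm
  · intro u v u' v' h h' s hs t ht e
    by_cases k : HR u v <;> by_cases k' : HR u' v' <;>
      simp only [k, k', if_true, if_false, Prod.mk.injEq] at e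
    · have a := two _ _ _ _ s t hs ht (bx u).2.1 (bx u').2.1 (bx u).1 (bx u').1 e.1
      have b := vy _ _ e.2
      have l1 := ln_pos (N := N) h0 u.b u.r
      have l2 := ln_pos (N := N) h0 u'.b u'.r
      rcases lt_trichotomy (cx u) (cx u') with c | c | c
      · exact (gX h0 u u' c a.2 (Or.inl (by omega))).elim
      · obtain rfl := cinj h0 u u' c.symm b.symm
        refine ⟨rfl, ?_⟩
        have xa := v.ha
        have ya := v'.ha
        rcases k with ⟨a1, a2, a3⟩ | ⟨a1, a2, a3, β, a4, a5⟩ <;>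
          rcases k' with ⟨b1, b2, b3⟩ | ⟨b1, b2, b3, γ, b4, b5⟩
        · exact Vx.ext (by omega) (by omega) (by omega)
        · rw [a1] at xa; omega
        · rw [b1] at ya; omega
        · obtain rfl := Nat.eq_of_mul_eq_mul_right (D0 _) (a4.symm.trans b4)
          exact Vx.ext (by omega) (by omega) (by rw [a5, b5, a1, b1])
      · exact (gX h0 u' u c a.1 (Or.inl (by omega))).elim
    · have a := mid _ _ _ s hs (bx u).2.1 (bx u).1 (by linarith [bx u']) e.1
      have b := mid _ _ _ t ht (bY u').2.1 (bY u').1 (by linarith [bY u]) e.2.symm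
      exact (gX h0 u u' a.1 a.2 (Or.inr ⟨b.1.le, b.2⟩)).elim
    · have a := mid _ _ _ t ht (bx u').2.1 (bx u').1 (by linarith [bx u]) e.1.symm
      have b := mid _ _ _ s hs (bY u).2.1 (bY u).1 (by linarith [bY u']) e.2
      exact (gX h0 u' u a.1 a.2 (Or.inr ⟨b.1.le, b.2⟩)).elim
    · have a := two _ _ _ _ s t hs ht (bY u).2.1 (bY u').2.1 (bY u).1 (bY u').1 e.2
      have b := vx _ _ e.1
      rcases lt_trichotomy (cy u) (cy u') with c | c | c
      · exact (gY h0 u u' c a.2 b.symm).elim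
      · obtain rfl := cinj h0 u u' b.symm c.symm
        refine ⟨rfl, ?_⟩
        have xa := v.hb
        have ya := v'.hb
        rcases (h.resolve_left k).2 with ⟨a1, a2, a3⟩ | ⟨a1, a2, a3, β, a4, a5⟩ <;>
          rcases (h'.resolve_left k').2 with ⟨b1, b2, b3⟩ | ⟨b1, b2, b3, γ, b4, b5⟩
        · exact Vx.ext (by omega) (by omega) (by omega)
        · rw [a1] at xa; omega
        · rw [b1] at ya; omega
        · obtain rfl := Nat.eq_of_mul_eq_mul_right (D0 _) (a4.symm.trans b4)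
          exact Vx.ext (by omega) (by rw [a5, b5, a1, b1]) (by omega)
      · exact (gY h0 u' u c a.1 b).elim

end Pool.Agent.H89.TG
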