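import Mathlib
import Pool.Agent.H89.TG3
import Pool.Agent.H89.BP2

set_option autoImplicit false

namespace Pool.Agent.H89.TG

open Finset
open scoped Classical

theorem paths' (K : ℕ) : ∃ N M : ℕ, 0 < N ∧ 0 < M ∧ 2 ∣ M ∧
    ∀ (C : Vx N M → Vx N M → Prop) (Bd : Finset (Vx N M)), (∀ x y, C x y → C y x) →
      (∀ x, ∃ F : Finset (Vx N M), F.card ≤ K ∧ ∀ y, C x y → y ∈ F) → Bd.card ≤ K →
      ∃ (c : ℕ → Vx N M) (P : ℕ → ℕ → Set (Vx N M)),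
        (∀ a b, g9 a b → c a ∈ P a b ∧ RS (H N M).Adj (P a b) (c a) (c b) ∧
          ∀ x ∈ P a b, x ∉ Bd) ∧
        ∀ a b a' b', g9 a b → g9 a' b' → a ≠ a' → a ≠ b' → b ≠ a' → b ≠ b' →
          ∀ x ∈ P a b, ∀ y ∈ P a' b', x ≠ y ∧ ¬ C x y := by
  obtain ⟨N, M, hN, h0, hM, h⟩ := paths K
  refine ⟨N, M, hN, h0, hM, fun C Bd h1 h2 h3 => h C Bd h1 (fun x => ?_) h3⟩
  obtain ⟨F, a, b⟩ := h2 x
  exact (card_le_card fun y hy => b y (mem_filter.1 hy).2).trans a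

theorem k9 (p : ℕ → ℂ) (S : ℕ → ℕ → Set ℂ) (hj : ∀ a b, g9 a b → JoinedIn (S a b) (p a) (p b))
    (hd : ∀ a b c d, g9 a b → g9 c d → a ≠ c → a ≠ d → b ≠ c → b ≠ d →
      Disjoint (S a b) (S c d)) : False := by
  have : ∀ a b, ∃ g : ℝ → ℂ, g9 a b → Continuous g ∧ g 0 = p a ∧ g 1 = p b ∧
      ∀ t, g t ∈ S a b := by
    intro a b
    by_cases h : g9 a b
    · obtain ⟨g, hg⟩ := hj a b h
      refine ⟨g.extend, fun _ => ⟨g.continuous_extend, by simp, by simp, fun t => ?_⟩⟩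
      have : g.extend t ∈ Set.range g := by rw [← g.extend_range]; exact ⟨t, rfl⟩
      obtain ⟨s, hs⟩ := this
      rw [← hs]; exact hg s
    · exact ⟨fun _ => 0, fun a => absurd a h⟩
  choose g hg using this
  obtain ⟨n, hn⟩ := BP.ht g9 p g
    (fun a b h => ⟨(hg a b h).1.continuousOn, (hg a b h).2.1, (hg a b h).2.2.1⟩)
    (fun a b c d h h' x1 x2 x3 x4 s _ t _ e =>
      Set.disjoint_left.1 (hd a b c d h h' x1 x2 x3 x4) ((hg a b h).2.2.2 s)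
        (e ▸ (hg c d h').2.2.2 t))
  refine BP.chk_sound (fun a b => (a / 3 == b / 3) || (a % 3 == b % 3))
    [21008, 33296, 21264, 25360, 34320, 16672, 28960, 17184, 25376, 30240, 8496, 28976, 33328, 30256, 34352, 8544, 16736, 21088, 17248, 21344, 25377, 33345, 34369, 21105, 21361, 30290, 17282, 34371, 30291] (by decide +kernel)
    ⟨n, fun a b c d x1 x2 x3 x4 x5 x6 =>
      hn a b c d ⟨x1, x2, by simpa using x5⟩ ⟨x3, x4, by simpa using x6⟩⟩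

theorem noplane {V : Type} {G : SimpleGraph V} (D : Drw ℂ G) (z : ℕ → V) (S : ℕ → ℕ → Set V)
    (h1 : ∀ a b, g9 a b → z a ∈ S a b ∧ RS G.Adj (S a b) (z a) (z b))
    (h2 : ∀ a b c d, g9 a b → g9 c d → a ≠ c → a ≠ d → b ≠ c → b ≠ d →
      (∀ x ∈ S a b, ∀ y ∈ S c d, x ≠ y) ∧ ∀ u ∈ S a b, ∀ v ∈ S a b, ∀ u' ∈ S c d, ∀ v' ∈ S c d,
        G.Adj u v → G.Adj u' v' → ∀ s ∈ Set.Ioo (0 : ℝ) 1, ∀ t ∈ Set.Ioo (0 : ℝ) 1,
          D.arc u v s ≠ D.arc u' v' t) : False := by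
  let R : Set V → Set ℂ := fun T => {w | (∃ x ∈ T, D.pos x = w) ∨
    ∃ u ∈ T, ∃ v ∈ T, G.Adj u v ∧ ∃ s ∈ Set.Ioo (0 : ℝ) 1, D.arc u v s = w}
  refine k9 (fun a => D.pos (z a)) (fun a b => R (S a b)) (fun a b h => ?_)
    fun a b c d h h' n1 n2 n3 n4 => ?_
  · refine (h1 a b h).2.ind (fun y => JoinedIn (R (S a b)) (D.pos (z a)) (D.pos y))
      (JoinedIn.refl (Or.inl ⟨_, (h1 a b h).1, rfl⟩)) fun u v k huv hu hv => k.trans ?_
    refine JoinedIn.ofLine (D.cont u v huv) (D.src u v huv) (D.tgt u v huv) ?_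
    rintro _ ⟨t, ht, rfl⟩
    rcases ht.1.eq_or_lt with rfl | t0
    · exact Or.inl ⟨u, hu, (D.src u v huv).symm⟩
    rcases ht.2.eq_or_lt with rfl | t1
    · exact Or.inl ⟨v, hv, (D.tgt u v huv).symm⟩
    exact Or.inr ⟨u, hu, v, hv, huv, t, ⟨t0, t1⟩, rfl⟩
  · obtain ⟨k1, k2⟩ := h2 a b c d h h' n1 n2 n3 n4
    rw [Set.disjoint_left]
    rintro w (⟨x, hx, e⟩ | ⟨u, hu, v, hv, huv, s, hs, e⟩)
      (⟨y, hy, e'⟩ | ⟨u', hu', v', hv', huv', t, ht, e'⟩)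
    · exact k1 x hx y hy (D.pos_inj (e.trans e'.symm))
    · exact D.avoid _ _ huv' t ht x (e'.trans e.symm)
    · exact D.avoid _ _ huv s hs y (e.trans e'.symm)
    · exact k2 u hu v hv u' hu' v' hv' huv huv' s hs t ht (e.trans e'.symm)

theorem nomodel (K : ℕ) : ∃ N M : ℕ, 0 < N ∧ 0 < M ∧ 2 ∣ M ∧
    ∀ {V : Type} (G : SimpleGraph V) (D : Drw ℂ G), D.Free →
      ∀ (Q : Vx N M → Finset V) (z : Vx N M → V) (Bd : Finset (Vx N M)) (q g : ℕ),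
      q * g ≤ K → Bd.card ≤ K → (∀ u, z u ∈ Q u) → (∀ u, (Q u).card ≤ q) →
      (∀ w, (univ.filter fun u => w ∈ Q u).card ≤ g) →
      (∀ u v, (H N M).Adj u v → u ∉ Bd → v ∉ Bd →
        RS G.Adj (↑(Q u) ∪ ↑(Q v)) (z u) (z v)) → False := by
  obtain ⟨N, M, hN, h0, hM, h⟩ := paths' K
  refine ⟨N, M, hN, h0, hM, fun G D hD Q z Bd q g k1 k2 k3 k4 k5 k6 => ?_⟩
  obtain ⟨c, P, p1, p2⟩ := h (fun x y => ∃ w, w ∈ Q x ∧ w ∈ Q y) Bd
    (fun _ _ ⟨w, a, b⟩ => ⟨w, b, a⟩) (fun x => by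
      refine ⟨(Q x).biUnion fun w => univ.filter fun u => w ∈ Q u,
        (card_biUnion_le_card_mul _ _ _ fun w _ => k5 w).trans
          ((Nat.mul_le_mul_right _ (k4 x)).trans k1), ?_⟩
      rintro y ⟨w, a, b⟩
      exact mem_biUnion.2 ⟨w, a, mem_filter.2 ⟨mem_univ _, b⟩⟩) k2
  refine noplane D (fun a => z (c a)) (fun a b => {w | ∃ u ∈ P a b, w ∈ Q u})
    (fun a b g => ⟨⟨_, (p1 a b g).1, k3 _⟩, ?_⟩) fun a b c d g g' n1 n2 n3 n4 => ?_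
  · refine (p1 a b g).2.1.ind (fun y => RS G.Adj _ (z (c a)) (z y)) RS.rfl
      fun u v k huv hu hv => k.tr ((k6 u v huv ((p1 a b g).2.2 u hu) ((p1 a b g).2.2 v hv)).mono ?_)
    rintro w (hw | hw)
    · exact ⟨u, hu, hw⟩
    · exact ⟨v, hv, hw⟩
  · have e : ∀ x ∈ {w | ∃ u ∈ P a b, w ∈ Q u}, ∀ y ∈ {w | ∃ u ∈ P c d, w ∈ Q u}, x ≠ y := by
      rintro x ⟨u, hu, hx⟩ y ⟨v, hv, hy⟩ rfl
      exact (p2 a b c d g g' n1 n2 n3 n4 u hu v hv).2 ⟨x, hx, hy⟩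
    refine ⟨e, fun u hu v hv u' hu' v' hv' a1 a2 => hD u v u' v' a1 a2 fun k => ?_⟩
    rcases Sym2.eq_iff.1 k with k | k
    · exact e u hu u' hu' k.1
    · exact e u hu v' hv' k.1

theorem walkset {V : Type} {G : SimpleGraph V} (η : G.Subgraph) {x y : η.verts}
    (p : η.coe.Walk x y) : ∃ T : Finset V, T.card ≤ p.length + 1 ∧ (∀ w ∈ T, w ∈ η.verts) ∧
      x.1 ∈ T ∧ y.1 ∈ T ∧ RS G.Adj ↑T x.1 y.1 := by
  induction p with
  | @nil u => exact ⟨{u.1}, by simp, by simp, by simp, by simp, RS.rfl⟩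
  | @cons u v w h p ih =>
    obtain ⟨T, h1, h2, h3, h4, h5⟩ := ih
    refine ⟨insert u.1 T, (card_insert_le _ _).trans (by simp; omega), fun a ha => ?_,
      mem_insert_self _ _, mem_insert_of_mem h4, ?_⟩
    · rcases mem_insert.1 ha with rfl | ha
      · exact u.2
      · exact h2 a ha
    · exact (RS.one (η.adj_sub h) (by simp) (by simp [h3])).tr (h5.mono (by simp))

theorem shallow (k : ℕ) : ∃ N M : ℕ, 0 < N ∧ 0 < M ∧ 2 ∣ M ∧
    ∀ {V : Type} (G : SimpleGraph V) (D : Drw ℂ G), D.Free →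
      ∀ η : Vx N M → G.Subgraph, (∀ u, (η u).Connected ∧ (η u).coe.radius ≤ k) →
      (∀ u v, (H N M).Adj u v → (∃ w, w ∈ (η u).verts ∧ w ∈ (η v).verts) ∨
        ∃ x ∈ (η u).verts, ∃ y ∈ (η v).verts, G.Adj x y) →
      (∀ w, {u | w ∈ (η u).verts}.ncard ≤ k) → False := by
  obtain ⟨N, M, hN, h0, hM, h⟩ := nomodel ((6 * k + 7) * k)
  refine ⟨N, M, hN, h0, hM, fun {V} G D hD η h1 h2 h3 => ?_⟩
  have c1 : ∀ u, ∃ z ∈ (η u).verts, ∀ y, ∃ T : Finset V, T.card ≤ k + 1 ∧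
      (∀ w ∈ T, w ∈ (η u).verts) ∧ (y ∈ (η u).verts → z ∈ T ∧ y ∈ T ∧ RS G.Adj ↑T z y) := by
    intro u
    haveI : Nonempty (η u).verts := (h1 u).1.nonempty.to_subtype
    obtain ⟨z, hz⟩ := (η u).coe.exists_eccent_eq_radius
    refine ⟨z.1, z.2, fun y => ?_⟩
    by_cases hy : y ∈ (η u).verts
    · have e : (η u).coe.edist z ⟨y, hy⟩ ≤ k :=
        SimpleGraph.edist_le_eccent.trans (hz.trans_le (h1 u).2)
      obtain ⟨p, hp⟩ := SimpleGraph.exists_walk_of_edist_ne_top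
        (ne_top_of_le_ne_top (ENat.coe_ne_top k) e)
      obtain ⟨T, t1, t2, t3⟩ := walkset (η u) p
      rw [← hp] at e
      exact ⟨T, t1.trans (by have : p.length ≤ k := by exact_mod_cast e
                             omega), t2, fun _ => t3⟩
    · exact ⟨∅, by simp, by simp, fun k => absurd k hy⟩
  choose z z1 T t1 t2 t3 using c1
  have c2 : ∀ u v, ∃ x y, (H N M).Adj u v → x ∈ (η u).verts ∧ y ∈ (η v).verts ∧
      (x = y ∨ G.Adj x y) := by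
    intro u v
    by_cases a : (H N M).Adj u v
    · rcases h2 u v a with ⟨w, a1, a2⟩ | ⟨x, a1, y, a2, a3⟩
      · exact ⟨w, w, fun _ => ⟨a1, a2, Or.inl rfl⟩⟩
      · exact ⟨x, y, fun _ => ⟨a1, a2, Or.inr a3⟩⟩
    · exact ⟨z u, z u, fun k => absurd k a⟩
  choose cx' cy' hc using c2
  let Q : Vx N M → Finset V := fun u => insert (z u)
    ((univ.filter ((H N M).Adj u)).biUnion fun v => T u (cx' u v) ∪ T u (cy' v u))
  refine h G D hD Q z ∅ (6 * k + 7) k le_rfl (by simp) (fun u => mem_insert_self _ _)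
    (fun u => ?_) (fun w => ?_) fun u v a _ _ => ?_
  · refine (card_insert_le _ _).trans ?_
    have := (card_biUnion_le_card_mul (univ.filter ((H N M).Adj u))
      (fun v => T u (cx' u v) ∪ T u (cy' v u)) (2 * k + 2) fun v _ =>
        (card_union_le _ _).trans (by have := t1 u (cx' u v); have := t1 u (cy' v u); omega)).trans
      (Nat.mul_le_mul_right _ (deg3 h0 hM u))
    omega
  · refine le_trans ?_ (h3 w)
    rw [← Set.ncard_coe_finset]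
    refine Set.ncard_le_ncard fun u hu => ?_
    rcases mem_insert.1 (mem_filter.1 (mem_coe.1 hu)).2 with rfl | k
    · exact z1 u
    · obtain ⟨v, -, k⟩ := mem_biUnion.1 k
      rcases mem_union.1 k with k | k <;> exact t2 _ _ _ k
  · obtain ⟨a1, a2, a3⟩ := hc u v a
    have s1 : (↑(T u (cx' u v)) : Set V) ⊆ ↑(Q u) ∪ ↑(Q v) := fun w hw => Or.inl
      (mem_insert_of_mem (mem_biUnion.2 ⟨v, by simpa using a, mem_union_left _ hw⟩))
    have s2 : (↑(T v (cy' u v)) : Set V) ⊆ ↑(Q u) ∪ ↑(Q v) := fun w hw => Or.inr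
      (mem_insert_of_mem (mem_biUnion.2 ⟨u, by simpa using a.symm, mem_union_right _ hw⟩))
    obtain ⟨-, b1, b2⟩ := t3 u _ a1
    obtain ⟨-, b3, b4⟩ := t3 v _ a2
    refine ((b2.mono s1).tr ?_).tr ((b4.mono s2).symm fun _ _ h => h.symm)
    rcases a3 with e | e
    · rw [e]; exact RS.rfl
    · exact RS.one e (s1 b1) (s2 b3)

theorem kplanar (k : ℕ) : ∃ N M : ℕ, 0 < N ∧ 0 < M ∧ 2 ∣ M ∧
    ∀ F : Set (Sym2 (Vx N M)), F.ncard ≤ k → ∀ D : Drw ℂ ((H N M).deleteEdges F),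
      (∀ u v, ((H N M).deleteEdges F).Adj u v →
        {x : Sym2 (Vx N M) × ℂ | ∃ u' v', ((H N M).deleteEdges F).Adj u' v' ∧ x.1 = s(u', v') ∧
          s(u', v') ≠ s(u, v) ∧ (∃ s ∈ Set.Ioo (0 : ℝ) 1, D.arc u v s = x.2) ∧
          ∃ t ∈ Set.Ioo (0 : ℝ) 1, D.arc u' v' t = x.2}.encard ≤ k) → False := by
  obtain ⟨N, M, hN, h0, hM, h⟩ := paths' (6 * k)
  refine ⟨N, M, hN, h0, hM, fun F hF D hD => ?_⟩
  have two : ∀ S : Set (Sym2 (Vx N M)), S.ncard ≤ k →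
      (univ.filter fun y => ∃ e ∈ S, y ∈ e).card ≤ 2 * k := by
    intro S hS
    refine le_trans (card_le_card (t := S.toFinset.biUnion Sym2.toFinset) fun y hy => ?_) ?_
    · obtain ⟨-, e, a, b⟩ := mem_filter.1 hy
      exact mem_biUnion.2 ⟨e, Set.mem_toFinset.2 a, Sym2.mem_toFinset.2 b⟩
    · refine (card_biUnion_le_card_mul _ _ 2 fun e _ => ?_).trans ?_
      · rw [Sym2.card_toFinset]; split_ifs <;> omega
      · rw [← Set.ncard_eq_toFinset_card']; omega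
  let G := (H N M).deleteEdges F
  obtain ⟨c, P, p1, p2⟩ := h (fun x y => ∃ u v, G.Adj x u ∧ G.Adj y v ∧ s(y, v) ≠ s(x, u) ∧
      ∃ s ∈ Set.Ioo (0 : ℝ) 1, ∃ t ∈ Set.Ioo (0 : ℝ) 1, D.arc x u s = D.arc y v t)
    (univ.filter fun y => ∃ e ∈ F, y ∈ e)
    (fun _ _ ⟨u, v, a, b, c, s, hs, t, ht, e⟩ => ⟨v, u, b, a, c.symm, t, ht, s, hs, e.symm⟩)
    (fun x => by
      let S : Vx N M → Set (Sym2 (Vx N M)) := fun u => Prod.fst ''
        {z : Sym2 (Vx N M) × ℂ | ∃ u' v', G.Adj u' v' ∧ z.1 = s(u', v') ∧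
          s(u', v') ≠ s(x, u) ∧ (∃ s ∈ Set.Ioo (0 : ℝ) 1, D.arc x u s = z.2) ∧
          ∃ t ∈ Set.Ioo (0 : ℝ) 1, D.arc u' v' t = z.2}
      refine ⟨(univ.filter (G.Adj x)).biUnion
        fun u => univ.filter fun y => ∃ e ∈ S u, y ∈ e, ?_, ?_⟩
      swap
      · rintro y ⟨u, v, a, b, c, s, hs, t, ht, e⟩
        exact mem_biUnion.2 ⟨u, by simpa using a, mem_filter.2 ⟨mem_univ _, s(y, v),
          ⟨(s(y, v), D.arc y v t), ⟨y, v, b, rfl, c, ⟨s, hs, e⟩, t, ht, rfl⟩, rfl⟩, by simp⟩⟩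
      · refine (card_biUnion_le_card_mul _ _ (2 * k) fun u hu => two _ ?_).trans ?_
        · have := (Set.encard_image_le Prod.fst _).trans (hD x u (mem_filter.1 hu).2)
          rw [← (Set.toFinite _).cast_ncard_eq] at this
          exact_mod_cast this
        · have := (card_le_card (s := univ.filter (G.Adj x)) fun u hu => mem_filter.2
            ⟨mem_univ _, (SimpleGraph.deleteEdges_adj.1 (mem_filter.1 hu).2).1⟩).trans
            (deg3 h0 hM x)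
          nlinarith) ((two F hF).trans (by omega))
  refine noplane D c P (fun a b g => ⟨(p1 a b g).1, ?_⟩) fun a b c d g g' n1 n2 n3 n4 =>
    ⟨fun x hx y hy => (p2 a b c d g g' n1 n2 n3 n4 x hx y hy).1,
      fun u hu v hv u' hu' v' hv' a1 a2 s hs t ht e => ?_⟩
  · refine (p1 a b g).2.1.ind (fun y => RS G.Adj _ (c a) y) RS.rfl
      fun u v k huv hu hv => k.tr (RS.one (SimpleGraph.deleteEdges_adj.2 ⟨huv, fun f => ?_⟩) hu hv)
    exact (p1 a b g).2.2 u hu (mem_filter.2 ⟨mem_univ _, _, f, by simp⟩)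
  · refine (p2 a b c d g g' n1 n2 n3 n4 u hu u' hu').2 ⟨v, v', a1, a2, fun k => ?_, s, hs, t, ht, e⟩
    rcases Sym2.eq_iff.1 k with k | k
    · exact (p2 a b c d g g' n1 n2 n3 n4 u hu u' hu').1 k.1.symm
    · exact (p2 a b c d g g' n1 n2 n3 n4 v hv u' hu').1 k.1.symm

end Pool.Agent.H89.TG
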