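import Mathlib

set_option autoImplicit false

namespace Pool.Agent.H89.TG

open Finset
open scoped Classical

/-- walks of bounded length inside a set -/
inductive Nr {V : Type} (adj : V → V → Prop) (S : Set V) (x : V) : ℕ → V → Prop
  | refl (d : ℕ) : Nr adj S x d x
  | step {d : ℕ} {y z : V} : Nr adj S x d y → adj y z → y ∈ S → z ∈ S → Nr adj S x (d + 1) z

section
variable {V : Type} {adj : V → V → Prop} {S T : Set V} {x y z : V} {d e : ℕ}

theorem Nr.mono (h : Nr adj S x d y) : ∀ {e}, d ≤ e → Nr adj S x e y := by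
  induction h with
  | refl => exact fun _ => Nr.refl _
  | step _ a b c ih =>
    intro e he
    obtain ⟨e, rfl⟩ : ∃ f, e = f + 1 := ⟨e - 1, by omega⟩
    exact (ih (by omega)).step a b c

theorem Nr.sub (h : Nr adj S x d y) (hS : S ⊆ T) : Nr adj T x d y := by
  induction h with
  | refl => exact Nr.refl _
  | step _ a b c ih => exact ih.step a (hS b) (hS c)

theorem Nr.tr (h : Nr adj S x d y) (k : Nr adj S y e z) : Nr adj S x (d + e) z := by
  induction k with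
  | refl => exact h.mono (by omega)
  | step _ a b c ih => exact ih.step a b c

theorem Nr.symm (hs : ∀ a b, adj a b → adj b a) (h : Nr adj S x d y) : Nr adj S y d x := by
  induction h with
  | refl => exact Nr.refl _
  | step _ a b c ih =>
    exact (((Nr.refl 0).step (hs _ _ a) c b).tr ih).mono (by omega)

theorem Nr.mem (h : Nr adj S x d y) : x = y ∨ (x ∈ S ∧ y ∈ S) := by
  induction h with
  | refl => exact Or.inl rfl
  | step _ a b c ih => exact Or.inr ⟨ih.elim (fun e => e ▸ b) And.left, c⟩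

theorem Nr.ext (h : Nr adj S x d y) (hx : x ∈ S) : ∃ T : Finset V, T.card ≤ d + 1 ∧ x ∈ T ∧
    y ∈ T ∧ Nr adj ↑T x d y ∧ ∀ t ∈ T, t ∈ S ∧ Nr adj S x d t := by
  induction h with
  | refl d => exact ⟨{x}, by simp, by simp, by simp, Nr.refl _,
      fun t ht => by rw [mem_singleton.1 ht]; exact ⟨hx, Nr.refl _⟩⟩
  | @step d y z h a b c ih =>
    obtain ⟨T, h1, h2, h3, h4, h5⟩ := ih
    refine ⟨insert z T, (card_insert_le _ _).trans (by omega), mem_insert_of_mem h2,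
      mem_insert_self _ _, (h4.sub (by simp)).step a (by simp [h3]) (by simp), fun t ht => ?_⟩
    rcases mem_insert.1 ht with rfl | ht
    · exact ⟨c, h.step a b c⟩
    · exact ⟨(h5 t ht).1, (h5 t ht).2.mono (by omega)⟩

end

/-- families of relations on coloured graphs -/
abbrev Fam (c n : ℕ) := ∀ V : Type, SimpleGraph V → (Fin c → V → Prop) → (Fin n → V) → Prop

/-- parts are far apart -/
def Far {V : Type} {n : ℕ} (G : SimpleGraph V) (Z : Finset V) (r : ℕ) (π : Fin n → ℕ)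
    (x : Fin n → V) : Prop := ∀ i j, π i ≠ π j → ¬ Nr G.Adj (↑Z)ᶜ (x i) r (x j)

/-- locality -/
def Loc {c n : ℕ} (P : Fam c n) : Prop :=
  ∃ r : ℕ, ∀ m : ℕ, ∃ (L : Type) (_ : Finite L), ∀ (V : Type) (G : SimpleGraph V)
    (C : Fin c → V → Prop) (Z : Finset V), Z.card ≤ m →
    ∃ lab : Set (Fin n) → (Fin n → V) → L, (∀ I x y, (∀ i ∈ I, x i = y i) → lab I x = lab I y) ∧
      ∀ (π : Fin n → ℕ) x y, Far G Z r π x → Far G Z r π y →
        (∀ k, lab {i | π i = k} x = lab {i | π i = k} y) → P V G C x → P V G C y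

variable {c n : ℕ}

theorem loc_eq (i j : Fin n) : Loc (c := c) fun _ _ _ x => x i = x j := by
  refine ⟨0, fun m => ⟨Prop, inferInstance, fun V G C Z _ =>
    ⟨fun I x => i ∈ I ∧ j ∈ I ∧ x i = x j, fun I x y h => propext ?_, fun π x y h1 _ h p => ?_⟩⟩⟩
  · exact ⟨fun k => ⟨k.1, k.2.1, by rw [← h i k.1, ← h j k.2.1, k.2.2]⟩,
      fun k => ⟨k.1, k.2.1, by rw [h i k.1, h j k.2.1, k.2.2]⟩⟩
  · by_cases e : π i = π j
    · exact ((h (π i)).mp ⟨rfl, e.symm, p⟩).2.2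
    · exact absurd (p ▸ Nr.refl 0) (h1 i j e)

theorem loc_col (k : Fin c) (i : Fin n) : Loc fun _ _ C x => C k (x i) := by
  refine ⟨0, fun m => ⟨Prop, inferInstance, fun V G C Z _ =>
    ⟨fun I x => i ∈ I ∧ C k (x i), fun I x y h => propext ?_, fun π x y _ _ h p => ?_⟩⟩⟩
  · exact ⟨fun k => ⟨k.1, h i k.1 ▸ k.2⟩, fun k => ⟨k.1, (h i k.1).symm ▸ k.2⟩⟩
  · exact ((h (π i)).mp ⟨rfl, p⟩).2

theorem loc_adj (i j : Fin n) : Loc (c := c) fun _ G _ x => G.Adj (x i) (x j) := by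
  refine ⟨1, fun m => ⟨Prop × (Fin n → Set (Set (Fin m) × Set (Fin m))), inferInstance,
    fun V G C Z hZ => ?_⟩⟩
  obtain ⟨f⟩ : Nonempty (Z ↪ Fin m) := Function.Embedding.nonempty_of_card_le (by simpa using hZ)
  let info : V → Set (Fin m) × Set (Fin m) := fun v =>
    ({k | ∃ z : Z, f z = k ∧ v = z}, {k | ∃ z : Z, f z = k ∧ G.Adj v z})
  have key : ∀ u v u' v', info u = info u' → info v = info v' → v ∈ Z → G.Adj u v →
      G.Adj u' v' := by
    intro u v u' v' h1 h2 hv a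
    obtain ⟨z, e1, e2⟩ : f ⟨v, hv⟩ ∈ (info v').1 := h2 ▸ ⟨_, rfl, rfl⟩
    obtain ⟨z', e3, e4⟩ : f ⟨v, hv⟩ ∈ (info u').2 := h1 ▸ ⟨_, rfl, a⟩
    rw [e2, f.injective (e1.trans e3.symm)]
    exact e4
  refine ⟨fun I x => (i ∈ I ∧ j ∈ I ∧ G.Adj (x i) (x j), fun l => {t | l ∈ I ∧ t = info (x l)}),
    fun I x y h => Prod.ext (propext ?_) (funext fun l => Set.ext fun t => ?_),
    fun π x y h1 _ h p => ?_⟩
  · exact ⟨fun k => ⟨k.1, k.2.1, by rw [← h i k.1, ← h j k.2.1]; exact k.2.2⟩,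
      fun k => ⟨k.1, k.2.1, by rw [h i k.1, h j k.2.1]; exact k.2.2⟩⟩
  · exact ⟨fun k => ⟨k.1, h l k.1 ▸ k.2⟩, fun k => ⟨k.1, (h l k.1).symm ▸ k.2⟩⟩
  · by_cases e : π i = π j
    · exact ((congrArg Prod.fst (h (π i))).mp ⟨rfl, e.symm, p⟩).2.2
    have e1 : ∀ l, info (x l) = info (y l) := fun l =>
      ((Set.ext_iff.1 (congrFun (congrArg Prod.snd (h (π l))) l) (info (x l))).1 ⟨rfl, rfl⟩).2
    by_cases a : x j ∈ Z
    · exact key _ _ _ _ (e1 i) (e1 j) a p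
    by_cases b : x i ∈ Z
    · exact (key _ _ _ _ (e1 j) (e1 i) b p.symm).symm
    exact absurd ((Nr.refl 0).step p b a) (h1 i j e)

theorem loc_not {P : Fam c n} (h : Loc P) : Loc fun V G C x => ¬ P V G C x := by
  obtain ⟨r, h⟩ := h
  refine ⟨r, fun m => ?_⟩
  obtain ⟨L, hL, h⟩ := h m
  refine ⟨L, hL, fun V G C Z hZ => ?_⟩
  obtain ⟨lab, h1, h2⟩ := h V G C Z hZ
  exact ⟨lab, h1, fun π x y a b e p q => p (h2 π y x b a (fun k => (e k).symm) q)⟩

theorem Far.mono {V : Type} {G : SimpleGraph V} {Z : Finset V} {r s : ℕ} {π : Fin n → ℕ}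
    {x : Fin n → V} (h : Far G Z r π x) (hs : s ≤ r) : Far G Z s π x :=
  fun i j e k => h i j e (k.mono hs)

theorem loc_and {P Q : Fam c n} (h : Loc P) (k : Loc Q) :
    Loc fun V G C x => P V G C x ∧ Q V G C x := by
  obtain ⟨r, h⟩ := h
  obtain ⟨s, k⟩ := k
  refine ⟨r + s, fun m => ?_⟩
  obtain ⟨L, hL, h⟩ := h m
  obtain ⟨L', hL', k⟩ := k m
  refine ⟨L × L', inferInstance, fun V G C Z hZ => ?_⟩
  obtain ⟨lab, h1, h2⟩ := h V G C Z hZ
  obtain ⟨lab', k1, k2⟩ := k V G C Z hZ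
  exact ⟨fun I x => (lab I x, lab' I x), fun I x y e => Prod.ext (h1 I x y e) (k1 I x y e),
    fun π x y a b e p => ⟨h2 π x y (a.mono (by omega)) (b.mono (by omega))
      (fun k => congrArg Prod.fst (e k)) p.1, k2 π x y (a.mono (by omega)) (b.mono (by omega))
      (fun k => congrArg Prod.snd (e k)) p.2⟩⟩

/-- extension of an index set -/
def ext' (b : Prop) (I : Set (Fin n)) : Set (Fin (n + 1)) := {i | Fin.cases b (· ∈ I) i}

theorem loc_ex {P : Fam c (n + 1)} (h : Loc P) :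
    Loc fun V G C (x : Fin n → V) => ∃ z, P V G C (Fin.cons z x) := by
  obtain ⟨r, h⟩ := h
  refine ⟨4 * r, fun m => ?_⟩
  obtain ⟨L, hL, h⟩ := h m
  refine ⟨Set L × Set L × Set (L × Fin n), inferInstance, fun V G C Z hZ => ?_⟩
  obtain ⟨lab, h1, h2⟩ := h V G C Z hZ
  have sy : ∀ {x y d}, Nr G.Adj (↑Z)ᶜ x d y → Nr G.Adj (↑Z)ᶜ y d x :=
    fun h => h.symm fun _ _ => SimpleGraph.Adj.symm
  let σ : V → L := fun z => lab (ext' True ∅) fun _ => z
  have cl : ∀ s : L, ∃ cl : Fin n → Set V, (∀ i, ∀ a ∈ cl i, σ a = s ∧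
      ∀ b ∈ cl i, Nr G.Adj (↑Z)ᶜ a (2 * r) b) ∧
      ((∀ x : Fin n → V, ∃ z, σ z = s ∧ ∀ i, ¬ Nr G.Adj (↑Z)ᶜ (x i) r z) ∨
        ∀ z, σ z = s → ∃ i, z ∈ cl i) := by
    intro s
    by_cases k : ∀ x : Fin n → V, ∃ z, σ z = s ∧ ∀ i, ¬ Nr G.Adj (↑Z)ᶜ (x i) r z
    · exact ⟨fun _ => ∅, by simp, Or.inl k⟩
    · push Not at k
      obtain ⟨x, hx⟩ := k
      refine ⟨fun i => {a | σ a = s ∧ Nr G.Adj (↑Z)ᶜ (x i) r a}, fun i a ha => ⟨ha.1, fun b hb =>
        ((sy ha.2).tr hb.2).mono (by omega)⟩, Or.inr fun z hz => ?_⟩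
      obtain ⟨i, hi⟩ := hx z hz
      exact ⟨i, hz, hi⟩
  choose cl c1 c2 using cl
  have dep : ∀ (b : Prop) (I : Set (Fin n)) (x y : Fin n → V) z z', (∀ i ∈ I, x i = y i) →
      (b → z = z') → lab (ext' b I) (Fin.cons z x) = lab (ext' b I) (Fin.cons z' y) := by
    intro b I x y z z' e e'
    refine h1 _ _ _ fun i => ?_
    refine Fin.cases (fun k => ?_) (fun i k => ?_) i
    · simpa using e' k
    · simpa using e i k
  refine ⟨fun I x => ({l | ∃ z, lab (ext' False I) (Fin.cons z x) = l},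
    {l | ∃ z, (∃ i ∈ I, Nr G.Adj (↑Z)ᶜ (x i) r z) ∧ lab (ext' True I) (Fin.cons z x) = l},
    {p | ∀ a ∈ cl p.1 p.2, ∃ i ∈ I, Nr G.Adj (↑Z)ᶜ (x i) r a}), fun I x y e => ?_,
    fun π x y fx fy e => ?_⟩
  · have e1 : ∀ a, (∃ i ∈ I, Nr G.Adj (↑Z)ᶜ (x i) r a) ↔ ∃ i ∈ I, Nr G.Adj (↑Z)ᶜ (y i) r a :=
      fun a => exists_congr fun i => and_congr_right fun hi => by rw [e i hi]
    simp only [e1, fun b z => dep b I x y z z e fun _ => rfl]
  rintro ⟨z, p⟩
  have eF : ∀ k z z', lab (ext' False {i | π i = k}) (Fin.cons z x) =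
      lab (ext' False {i | π i = k}) (Fin.cons z' y) := by
    intro k z z'
    obtain ⟨w, hw⟩ := (Set.ext_iff.1 (congrArg Prod.fst (e k)) _).1 ⟨z, rfl⟩
    exact hw.symm.trans (dep _ _ _ _ _ _ (fun _ _ => rfl) False.elim)
  by_cases near : ∃ i, Nr G.Adj (↑Z)ᶜ (x i) r z
  · obtain ⟨i, hi⟩ := near
    have k0 : lab (ext' True {l | π l = π i}) (Fin.cons z x) ∈
        {l | ∃ z, (∃ j ∈ {l | π l = π i}, Nr G.Adj (↑Z)ᶜ (x j) r z) ∧
          lab (ext' True {l | π l = π i}) (Fin.cons z x) = l} := ⟨z, ⟨i, rfl, hi⟩, rfl⟩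
    obtain ⟨z', ⟨i', k1, k2⟩, k3⟩ :=
      (Set.ext_iff.1 (congrArg (fun q => q.2.1) (e (π i))) _).1 k0
    have far : ∀ (x : Fin n → V) z j, π j = π i → Far G Z (4 * r) π x →
        Nr G.Adj (↑Z)ᶜ (x j) r z → Far G Z r (Fin.cons (π i) π) (Fin.cons z x) := by
      intro x z j hj fx hz a b
      refine Fin.cases (Fin.cases (fun k => absurd rfl k) (fun b k q => ?_) b)
        (fun a => Fin.cases (fun k q => ?_) (fun b k q => ?_) b) a
      · exact fx j b (hj ▸ k) ((hz.tr q).mono (by omega))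
      · exact fx a j (hj ▸ k) ((Nr.tr q (sy hz)).mono (by omega))
      · exact fx a b k (Nr.mono q (by omega))
    refine ⟨z', h2 (Fin.cons (π i) π) _ _ (far x z i rfl fx hi) (far y z' i' k1 fy k2)
      (fun k => ?_) p⟩
    by_cases q : π i = k
    · subst q
      have : {a : Fin (n + 1) | (Fin.cons (π i) π : Fin (n + 1) → ℕ) a = π i} =
          ext' True {a | π a = π i} := by
        ext a; refine Fin.cases ?_ (fun a => ?_) a <;> simp [ext']
      rw [this]; exact k3.symm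
    · have : {a : Fin (n + 1) | (Fin.cons (π i) π : Fin (n + 1) → ℕ) a = k} =
          ext' False {a | π a = k} := by
        ext a; refine Fin.cases ?_ (fun a => ?_) a <;> simp [ext', q]
      rw [this]; exact eF k z z'
  · obtain ⟨z', k1, k2⟩ : ∃ z', σ z' = σ z ∧ ∀ i, ¬ Nr G.Adj (↑Z)ᶜ (y i) r z' := by
      rcases c2 (σ z) with k | k
      · exact k y
      by_contra q
      push Not at q
      obtain ⟨i, hi⟩ := k z rfl
      obtain ⟨j, hj⟩ := q z rfl
      have : (σ z, i) ∈ {p : L × Fin n | ∀ a ∈ cl p.1 p.2, ∃ l ∈ {l | π l = π j},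
          Nr G.Adj (↑Z)ᶜ (y l) r a} := by
        intro a ha
        obtain ⟨l, hl⟩ := q a (c1 _ _ a ha).1
        refine ⟨l, ?_, hl⟩
        by_contra ne
        exact fy l j ne (((hl.tr ((c1 _ _ a ha).2 z hi)).tr (sy hj)).mono (by omega))
      obtain ⟨l, -, hl⟩ :=
        (Set.ext_iff.1 (congrArg (fun q => q.2.2) (e (π j))) (σ z, i)).2 this z hi
      exact near ⟨l, hl⟩
    have far : ∀ (x : Fin n → V) z, Far G Z (4 * r) π x → (∀ i, ¬ Nr G.Adj (↑Z)ᶜ (x i) r z) →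
        Far G Z r (Fin.cons 0 fun i => π i + 1) (Fin.cons z x) := by
      intro x z fx hz a b
      refine Fin.cases (Fin.cases (fun k => absurd rfl k) (fun b _ q => ?_) b)
        (fun a => Fin.cases (fun _ q => ?_) (fun b k q => ?_) b) a
      · exact hz b (sy q)
      · exact hz a q
      · exact fx a b (fun e => k (by simp [e])) (Nr.mono q (by omega))
    refine ⟨z', h2 (Fin.cons 0 fun i => π i + 1) _ _ (far x z fx fun i k => near ⟨i, k⟩)
      (far y z' fy k2) (fun k => ?_) p⟩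
    cases k with
    | zero =>
      have : {a : Fin (n + 1) | (Fin.cons 0 fun i => π i + 1 : Fin (n + 1) → ℕ) a = 0} =
          ext' True ∅ := by
        ext a; refine Fin.cases ?_ (fun a => ?_) a <;> simp [ext']
      rw [this]
      have s : ∀ (x : Fin n → V) z, lab (ext' True ∅) (Fin.cons z x) = σ z := fun x z =>
        h1 _ _ _ fun i => Fin.cases (fun _ => rfl) (fun _ k => k.elim) i
      rw [s, s, k1]
    | succ k =>
      have : {a : Fin (n + 1) | (Fin.cons 0 fun i => π i + 1 : Fin (n + 1) → ℕ) a = k + 1} =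
          ext' False {a | π a = k} := by
        ext a; refine Fin.cases ?_ (fun a => ?_) a <;> simp [ext']
      rw [this]; exact eF k z z'

theorem few {P : Fam c 2} (h : Loc P) : ∃ R : ℕ, ∀ m : ℕ, ∃ b : ℕ, ∀ (V : Type)
    (G : SimpleGraph V) (C : Fin c → V → Prop) (Z : Finset V), Z.card ≤ m →
    ∀ (U : Type) [Fintype U] (H : SimpleGraph U) (f : U → V),
      (∀ u, (univ.filter (H.Adj u)).card ≤ 3) →
      (∀ u v, H.Adj u v ↔ f u ≠ f v ∧ (P V G C ![f u, f v] ∨ P V G C ![f v, f u])) →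
      (univ.filter fun u => ∃ v, H.Adj u v ∧ ¬ Nr G.Adj (↑Z)ᶜ (f u) R (f v)).card ≤ b := by
  obtain ⟨r, h⟩ := h
  refine ⟨3 * r, fun m => ?_⟩
  obtain ⟨L, hL, h⟩ := h m
  have := Fintype.ofFinite L
  refine ⟨Fintype.card ((Fin 2 → L) × (Fin 2 → L)) * 18, fun V G C Z hZ U _ H f hd hf => ?_⟩
  obtain ⟨lab, h1, h2⟩ := h V G C Z hZ
  have sy : ∀ {x y d}, Nr G.Adj (↑Z)ᶜ x d y → Nr G.Adj (↑Z)ᶜ y d x :=
    fun h => h.symm fun _ _ => SimpleGraph.Adj.symm
  let τ : V → Fin 2 → L := fun w k => lab {i | (i : ℕ) = k} fun _ => w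
  have t1 : ∀ u v u' v', ¬ Nr G.Adj (↑Z)ᶜ u r v → ¬ Nr G.Adj (↑Z)ᶜ u' r v' → τ u = τ u' →
      τ v = τ v' → P V G C ![u, v] → P V G C ![u', v'] := by
    intro u v u' v' a b e e'
    have far : ∀ u v, ¬ Nr G.Adj (↑Z)ᶜ u r v → Far G Z r Fin.val ![u, v] := by
      intro u v a i j
      fin_cases i <;> fin_cases j <;> simp
      · exact a
      · exact fun k => a (sy k)
    refine h2 Fin.val _ _ (far u v a) (far u' v' b) fun k => ?_
    rcases k with _ | _ | k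
    · have s : ∀ u v : V, lab {i | (i : ℕ) = 0} ![u, v] = τ u 0 := fun u v =>
        h1 _ _ _ fun i hi => by obtain rfl : i = 0 := Fin.ext hi; rfl
      exact (s u v).trans ((congrFun e 0).trans (s u' v').symm)
    · have s : ∀ u v : V, lab {i | (i : ℕ) = 1} ![u, v] = τ v 1 := fun u v =>
        h1 _ _ _ fun i hi => by obtain rfl : i = 1 := Fin.ext hi; rfl
      exact (s u v).trans ((congrFun e' 1).trans (s u' v').symm)
    · refine h1 _ _ _ fun i hi => ?_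
      have := i.2
      have : (i : ℕ) = k + 1 + 1 := hi
      omega
  have t2 : ∀ u v u' v', H.Adj u v → ¬ Nr G.Adj (↑Z)ᶜ (f u) r (f v) → τ (f u) = τ (f u') →
      τ (f v) = τ (f v') → ¬ H.Adj u' v' → Nr G.Adj (↑Z)ᶜ (f u') r (f v') := by
    intro u v u' v' a b e e' k
    by_contra q
    refine k ((hf _ _).2 ⟨fun e => q (e ▸ Nr.refl _), ((hf _ _).1 a).2.imp (t1 _ _ _ _ b q e e')
      (t1 _ _ _ _ (fun k => b (sy k)) (fun k => q (sy k)) e' e)⟩)
  let A : (Fin 2 → L) × (Fin 2 → L) → Finset U := fun p => univ.filter fun u => ∃ v,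
    H.Adj u v ∧ ¬ Nr G.Adj (↑Z)ᶜ (f u) (3 * r) (f v) ∧ τ (f u) = p.1 ∧ τ (f v) = p.2
  refine le_trans (card_le_card (t := univ.biUnion A) fun u hu => ?_)
    (card_biUnion_le_card_mul _ _ _ fun p _ => ?_)
  · obtain ⟨-, v, a, b⟩ := mem_filter.1 hu
    exact mem_biUnion.2 ⟨(τ (f u), τ (f v)), mem_univ _,
      mem_filter.2 ⟨mem_univ _, v, a, b, rfl, rfl⟩⟩
  by_contra big
  obtain ⟨u, hu⟩ : (A p).Nonempty := card_pos.1 (by omega)
  obtain ⟨-, v, a1, a2, a3, a4⟩ := mem_filter.1 hu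
  have a5 : ¬ Nr G.Adj (↑Z)ᶜ (f u) r (f v) := fun k => a2 (k.mono (by omega))
  obtain ⟨u', hu', n1⟩ := exists_mem_notMem_of_card_lt_card
    (s := univ.filter (H.Adj v)) (t := A p) (by have := hd v; omega)
  obtain ⟨u'', hu'', n2⟩ := exists_mem_notMem_of_card_lt_card
    (s := (univ.filter (H.Adj u) ∪ univ.filter (H.Adj u')).biUnion fun w => univ.filter (H.Adj w))
    (t := A p) (by
      have e1 := card_biUnion_le_card_mul (univ.filter (H.Adj u) ∪ univ.filter (H.Adj u'))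
        (fun w => univ.filter (H.Adj w)) 3 fun w _ => hd w
      have e2 := card_union_le (univ.filter (H.Adj u)) (univ.filter (H.Adj u'))
      have := hd u
      have := hd u'
      omega)
  obtain ⟨-, -, -, -, b3, -⟩ := mem_filter.1 hu'
  obtain ⟨-, v', d1, -, -, d4⟩ := mem_filter.1 hu''
  have n3 : ∀ w, w = u ∨ w = u' → ¬ H.Adj w v' := by
    intro w hw k
    refine n2 (mem_biUnion.2 ⟨v', ?_, mem_filter.2 ⟨mem_univ _, d1.symm⟩⟩)
    rcases hw with rfl | rfl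
    · exact mem_union_left _ (mem_filter.2 ⟨mem_univ _, k⟩)
    · exact mem_union_right _ (mem_filter.2 ⟨mem_univ _, k⟩)
  have s1 := t2 u v u v' a1 a5 rfl (a4.trans d4.symm) (n3 u (Or.inl rfl))
  have s2 := t2 u v u' v' a1 a5 (a3.trans b3.symm) (a4.trans d4.symm) (n3 u' (Or.inr rfl))
  have s3 := t2 u v u' v a1 a5 (a3.trans b3.symm) rfl
    fun k => n1 (mem_filter.2 ⟨mem_univ _, k.symm⟩)
  exact a2 (((s1.tr (sy s2)).tr s3).mono (by omega))

end Pool.Agent.H89.TG
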