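import Mathlib
import Pool.Agent.H89.TG4
import Pool.Agent.H89.TG5
import Pool.Agent.H89.CR3

set_option autoImplicit false

namespace Pool.Agent.H89.TG

open Finset CR
open scoped Classical

theorem nok5 {V : Type} {G : SimpleGraph V} (D : Drw ℂ G) (hD : D.Free)
    (K : Finset (Finset V)) (hK : Cov G.Adj K) : K.card ≤ 4 := by
  by_contra h
  obtain ⟨f, hf⟩ : ∃ f : Fin 5 ↪ Finset V, ∀ i, f i ∈ K := by
    obtain ⟨f, hf⟩ := Function.Embedding.exists_of_card_le_finset (α := Fin 5) (s := K)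
      (by simp; omega)
    exact ⟨f, fun i => hf ⟨i, rfl⟩⟩
  let C : ℕ → Finset V := fun a => f (Fin.ofNat 5 a)
  have CK : ∀ a, C a ∈ K := fun a => hf _
  have Cne : ∀ a b, a < 5 → b < 5 → a ≠ b → C a ≠ C b := by
    intro a b ha hb hab e
    have := congrArg Fin.val (f.injective e)
    simp only [Fin.val_ofNat] at this
    omega
  choose p hp using fun a => (hK.1 _ (CK a)).1
  let R : Finset V → Set ℂ := fun T => {w | (∃ x ∈ T, D.pos x = w) ∨
    ∃ u ∈ T, ∃ v ∈ T, G.Adj u v ∧ ∃ s ∈ Set.Ioo (0 : ℝ) 1, D.arc u v s = w}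
  refine k5 (fun a => D.pos (p a)) (fun a b => R (C a ∪ C b)) (fun a b h1 h2 => ?_)
    fun a b c d h1 h2 h3 h4 n1 n2 n3 n4 => ?_
  · obtain ⟨-, x, hx, y, hy, k⟩ := hK.2 _ (CK a) _ (CK b) (Cne a b (by omega) h2 h1.ne)
    have r : Rch G.Adj (C a ∪ C b) (p a) (p b) :=
      ((((hK.1 _ (CK a)).2 _ (hp a) x hx).mono subset_union_left).tail
        ⟨k, mem_union_left _ hx, mem_union_right _ hy⟩).trans
        (((hK.1 _ (CK b)).2 _ hy _ (hp b)).mono subset_union_right)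
    refine r.ind (fun y => JoinedIn (R (C a ∪ C b)) (D.pos (p a)) (D.pos y))
      (JoinedIn.refl (Or.inl ⟨_, mem_union_left _ (hp a), rfl⟩)) fun u v k huv hu hv => k.trans ?_
    refine JoinedIn.ofLine (D.cont u v huv) (D.src u v huv) (D.tgt u v huv) ?_
    rintro _ ⟨t, ht, rfl⟩
    rcases ht.1.eq_or_lt with rfl | t0
    · exact Or.inl ⟨u, hu, (D.src u v huv).symm⟩
    rcases ht.2.eq_or_lt with rfl | t1
    · exact Or.inl ⟨v, hv, (D.tgt u v huv).symm⟩
    exact Or.inr ⟨u, hu, v, hv, huv, t, ⟨t0, t1⟩, rfl⟩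
  · have k0 : Disjoint (C a ∪ C b) (C c ∪ C d) := by
      simp only [disjoint_union_left, disjoint_union_right]
      exact ⟨⟨(hK.2 _ (CK a) _ (CK c) (Cne _ _ (by omega) (by omega) n1)).1,
        (hK.2 _ (CK b) _ (CK c) (Cne _ _ (by omega) (by omega) n3)).1⟩,
        (hK.2 _ (CK a) _ (CK d) (Cne _ _ (by omega) (by omega) n2)).1,
        (hK.2 _ (CK b) _ (CK d) (Cne _ _ (by omega) (by omega) n4)).1⟩
    have k1 : ∀ x ∈ C a ∪ C b, ∀ y ∈ C c ∪ C d, x ≠ y := fun x hx y hy e =>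
      disjoint_left.1 k0 hx (e ▸ hy)
    rw [Set.disjoint_left]
    rintro w (⟨x, hx, e⟩ | ⟨u, hu, v, hv, huv, s, hs, e⟩)
      (⟨y, hy, e'⟩ | ⟨u', hu', v', hv', huv', t, ht, e'⟩)
    · exact k1 x hx y hy (D.pos_inj (e.trans e'.symm))
    · exact D.avoid _ _ huv' t ht x (e'.trans e.symm)
    · exact D.avoid _ _ huv s hs y (e.trans e'.symm)
    · refine hD u v u' v' huv huv' (fun k => ?_) s hs t ht (e.trans e'.symm)
      rcases Sym2.eq_iff.1 k with k | k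
      · exact k1 u hu u' hu' k.1
      · exact k1 u hu v' hv' k.1

variable {V : Type} {adj : V → V → Prop}

theorem geo (hs : ∀ a b, adj a b → adj b a) (S : Finset V) (x : V) (hx : x ∈ S) (y : V)
    (hy : Rch adj S x y) : ∃ T : Finset V, y ∈ T ∧ (∀ t ∈ T, t ∈ S ∧ Rch adj T x t) ∧
      ∀ v d, ∃ F : Finset V, F.card ≤ 2 * d + 1 ∧ ∀ t ∈ T, Nr adj ↑S v d t → t ∈ F := by
  let δ : V → ℕ := fun y => sInf {d | Nr adj ↑S x d y}
  have d1 : ∀ y d, Nr adj ↑S x d y → δ y ≤ d := fun y d h => Nat.sInf_le h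
  have d2 : ∀ y d, Nr adj ↑S x d y → Nr adj ↑S x (δ y) y := fun y d h =>
    Nat.sInf_mem (s := {d | Nr adj ↑S x d y}) ⟨d, h⟩
  have key : ∀ n y, Nr adj ↑S x n y → ∃ T : Finset V, x ∈ T ∧ y ∈ T ∧ Set.InjOn δ T ∧
      ∀ t ∈ T, t ∈ S ∧ Rch adj T x t ∧ δ t ≤ δ y ∧ Nr adj ↑S x (δ t) t := by
    intro n
    induction n using Nat.strong_induction_on with
    | _ n ih =>
      intro y h
      by_cases e : δ y < n
      · exact ih _ e y (d2 y n h)
      cases h with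
      | refl => exact ⟨{x}, by simp, by simp, by simp, fun t ht => by
          rw [mem_singleton.1 ht]
          exact ⟨hx, Relation.ReflTransGen.refl, le_rfl, d2 x 0 (Nr.refl _)⟩⟩
      | @step d w _ h a b c =>
        obtain ⟨T, t1, t2, t3, t4⟩ := ih d (by omega) w h
        have lt : ∀ t ∈ T, δ t < δ y := fun t ht => by
          have := (t4 t ht).2.2.1
          have := d1 w d h
          omega
        refine ⟨insert y T, mem_insert_of_mem t1, mem_insert_self _ _, ?_, fun t ht => ?_⟩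
        · intro s hs t ht e
          rcases mem_insert.1 hs with h1 | h1 <;> rcases mem_insert.1 ht with h2 | h2
          · rw [h1, h2]
          · have := lt t h2; rw [← e, h1] at this; omega
          · have := lt s h1; rw [e, h2] at this; omega
          · exact t3 h1 h2 e
        · rcases mem_insert.1 ht with h1 | h1
          · rw [h1]
            exact ⟨c, ((t4 w t2).2.1.mono (subset_insert _ _)).tail
              ⟨a, mem_insert_of_mem t2, mem_insert_self _ _⟩, le_rfl, d2 y _ (h.step a b c)⟩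
          · exact ⟨(t4 t h1).1, (t4 t h1).2.1.mono (subset_insert _ _), (lt t h1).le,
              (t4 t h1).2.2.2⟩
  obtain ⟨n, hn⟩ : ∃ n, Nr adj ↑S x n y :=
    hy.ind (fun y => ∃ n, Nr adj ↑S x n y) ⟨0, Nr.refl _⟩
      fun _ _ ⟨n, h⟩ a b c => ⟨n + 1, h.step a b c⟩
  obtain ⟨T, -, t2, t3, t4⟩ := key n y hn
  refine ⟨T, t2, fun t ht => ⟨(t4 t ht).1, (t4 t ht).2.1⟩, fun v d =>
    ⟨T.filter fun t => δ t ∈ Icc (δ v - d) (δ v + d), ?_, fun t ht h => mem_filter.2 ⟨ht, ?_⟩⟩⟩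
  · refine (card_le_card_of_injOn δ (t := Icc (δ v - d) (δ v + d))
      (fun t ht => (mem_filter.1 ht).2) (t3.mono (by simp [Set.subset_def]; tauto))).trans ?_
    rw [Nat.card_Icc]; omega
  · have e1 := (t4 t ht).2.2.2.tr (h.symm hs)
    have e2 := d1 _ _ e1
    have e3 := d1 _ _ ((d2 _ _ e1).tr h)
    rw [mem_Icc]; omega

variable [Fintype V]

/-- upper sets -/
noncomputable def upS (ρ : V → ℕ) (j : ℕ) : Finset V := univ.filter fun y => j ≤ ρ y

theorem mem_upS {ρ : V → ℕ} {j : ℕ} {y : V} : y ∈ upS ρ j ↔ j ≤ ρ y := by simp [upS]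

/-- touching -/
def Tch (adj : V → V → Prop) (ρ : V → ℕ) (j : ℕ) (x : V) (k : ℕ) : Prop :=
  ∃ a ∈ comp adj (upS ρ j) x, ∃ b, adj a b ∧ ρ b = k

/-- invariant -/
structure Inv (adj : V → V → Prop) (ρ : V → ℕ) (i : ℕ) : Prop where
  le : ∀ y, ρ y ≤ i
  conn : ∀ j < i, Conn adj (univ.filter fun y => ρ y = j)
  clq : ∀ x, ρ x = i → ∀ j < i, ∀ k < i, j ≠ k → Tch adj ρ i x j → Tch adj ρ i x k →
    ∃ a b, ρ a = j ∧ ρ b = k ∧ adj a b
  ball : ∀ j < i, ∀ v d, ∃ F : Finset V, F.card ≤ 8 * d + 5 ∧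
    ∀ y, ρ y = j → Nr adj ↑(upS ρ j) v d y → y ∈ F
  par : ∀ j < i, ∃ F : Finset ℕ, F.card ≤ 4 ∧ ∀ x, ρ x = j → ∀ k < j, Tch adj ρ j x k → k ∈ F

theorem Inv.step (hs : ∀ a b, adj a b → adj b a) (hK : ∀ K, Cov adj K → K.card ≤ 4)
    {ρ : V → ℕ} {i : ℕ} (h : Inv adj ρ i) (x : V) (hx : ρ x = i) :
    ∃ ρ', Inv adj ρ' (i + 1) ∧ (upS ρ' (i + 1)).card < (upS ρ i).card := by
  have xU : x ∈ upS ρ i := mem_upS.2 hx.ge
  let K := (range i).filter (Tch adj ρ i x)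
  have K4 : K.card ≤ 4 := by
    let f : ℕ → Finset V := fun j => univ.filter fun y => ρ y = j
    have inj : Set.InjOn f K := by
      intro j hj k _ e
      obtain ⟨-, -, -, b, -, hb⟩ := mem_filter.1 hj
      have : b ∈ f k := e ▸ mem_filter.2 ⟨mem_univ _, hb⟩
      exact hb.symm.trans (mem_filter.1 this).2
    rw [← card_image_of_injOn inj]
    refine hK _ ⟨fun C hC => ?_, fun C hC D hD ne => ?_⟩
    · obtain ⟨j, hj, rfl⟩ := mem_image.1 hC
      exact h.conn j (mem_range.1 (mem_filter.1 hj).1)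
    · obtain ⟨j, hj, rfl⟩ := mem_image.1 hC
      obtain ⟨k, hk, rfl⟩ := mem_image.1 hD
      have n : j ≠ k := fun e => ne (by rw [e])
      obtain ⟨a, b, h1, h2, h3⟩ := h.clq x hx j (mem_range.1 (mem_filter.1 hj).1) k
        (mem_range.1 (mem_filter.1 hk).1) n (mem_filter.1 hj).2 (mem_filter.1 hk).2
      exact ⟨disjoint_left.2 fun y a b => n ((mem_filter.1 a).2.symm.trans (mem_filter.1 b).2),
        a, mem_filter.2 ⟨mem_univ _, h1⟩, b, mem_filter.2 ⟨mem_univ _, h2⟩, h3⟩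
  have : ∀ k, ∃ T : Finset V, (Tch adj ρ i x k → ∃ a ∈ T, ∃ b, adj a b ∧ ρ b = k) ∧
      (∀ t ∈ T, t ∈ upS ρ i ∧ Rch adj T x t) ∧
      ∀ v d, ∃ F : Finset V, F.card ≤ 2 * d + 1 ∧ ∀ t ∈ T, Nr adj ↑(upS ρ i) v d t → t ∈ F := by
    intro k
    by_cases e : Tch adj ρ i x k
    · obtain ⟨a, ha, b⟩ := e
      obtain ⟨T, t1, t2⟩ := geo hs _ x xU a (mem_comp.1 ha).2
      exact ⟨T, fun _ => ⟨a, t1, b⟩, t2⟩
    · exact ⟨∅, fun k => absurd k e, by simp, fun _ _ => ⟨∅, by simp, by simp⟩⟩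
  choose T t1 t2 t3 using this
  let P := insert x (K.biUnion T)
  have PU : ∀ y ∈ P, y ∈ upS ρ i := by
    intro y hy
    rcases mem_insert.1 hy with rfl | hy
    · exact xU
    · obtain ⟨k, -, hy⟩ := mem_biUnion.1 hy
      exact (t2 k y hy).1
  have PR : ∀ y ∈ P, Rch adj P x y := by
    intro y hy
    rcases mem_insert.1 hy with rfl | hy
    · exact Relation.ReflTransGen.refl
    · obtain ⟨k, hk, hy⟩ := mem_biUnion.1 hy
      exact (t2 k y hy).2.mono ((subset_biUnion_of_mem T hk).trans (subset_insert _ _))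
  have PC : ∀ y ∈ P, comp adj (upS ρ i) x = comp adj (upS ρ i) y := fun y hy =>
    comp_eq hs ((PR y hy).mono PU)
  let ρ' : V → ℕ := fun y => if ρ y = i ∧ y ∉ P then i + 1 else ρ y
  have r1 : ∀ j ≤ i, upS ρ' j = upS ρ j := by
    intro j hj; ext y; simp only [mem_upS, ρ']; split_ifs with k <;> omega
  have r2 : ∀ j < i, ∀ y, ρ' y = j ↔ ρ y = j := by
    intro j hj y; simp only [ρ']; split_ifs with k <;> omega
  have r3 : ∀ y, ρ' y = i ↔ y ∈ P := by
    intro y; simp only [ρ']; split_ifs with k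
    · simp [k.2]
    · refine ⟨fun e => by_contra fun n => k ⟨e, n⟩, fun e => ?_⟩
      have := mem_upS.1 (PU y e); have := h.le y; omega
  have r4 : ∀ y ∈ upS ρ' (i + 1), ρ y = i ∧ y ∉ P := by
    intro y hy; rw [mem_upS] at hy; simp only [ρ'] at hy; split_ifs at hy with k
    · exact k
    · have := h.le y; omega
  have r5 : upS ρ' (i + 1) ⊆ upS ρ i := fun y hy => mem_upS.2 (r4 y hy).1.ge
  have r6 : ∀ y a, a ∈ comp adj (upS ρ' (i + 1)) y → a ∈ comp adj (upS ρ i) y := fun y a ha =>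
    mem_comp.2 ⟨r5 (mem_comp.1 ha).1, (mem_comp.1 ha).2.mono r5⟩
  have r7 : ∀ y, ∀ k < i, Tch adj ρ' (i + 1) y k → Tch adj ρ i y k :=
    fun y k hk ⟨a, ha, b, h1, h2⟩ => ⟨a, r6 y a ha, b, h1, (r2 k hk b).1 h2⟩
  have r8 : ∀ y, ∀ k < i, Tch adj ρ' (i + 1) y i → Tch adj ρ' (i + 1) y k →
      ∃ a b, ρ' a = i ∧ ρ' b = k ∧ adj a b := by
    rintro y k hk ⟨a, ha, b, h1, h2⟩ h3
    have bP := (r3 b).1 h2
    have e := (PC b bP).trans
      (comp_eq hs (mem_comp.1 (comp_step (r6 y a ha) h1 (PU b bP))).2).symm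
    have q : Tch adj ρ i x k := by
      obtain ⟨a, ha, b⟩ := r7 y k hk h3
      exact ⟨a, e ▸ ha, b⟩
    obtain ⟨a, ha, b, h4, h5⟩ := t1 k q
    exact ⟨a, b, (r3 a).2 (mem_insert_of_mem (mem_biUnion.2
      ⟨k, mem_filter.2 ⟨mem_range.2 hk, q⟩, ha⟩)), (r2 k hk b).2 h5, h4⟩
  refine ⟨ρ', ⟨fun y => ?_, fun j hj => ?_, fun y hy j hj k hk n a b => ?_, fun j hj v d => ?_,
    fun j hj => ?_⟩, card_lt_card ⟨r5, fun k => (r4 x (k xU)).2 (mem_insert_self _ _)⟩⟩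
  · simp only [ρ']; have := h.le y; split_ifs <;> omega
  · rcases (Nat.lt_succ_iff.1 hj).lt_or_eq with hj | rfl
    · simp only [r2 j hj]; exact h.conn j hj
    · have : (univ.filter fun y => ρ' y = j) = P := by ext y; simp only [mem_filter, r3]; simp
      rw [this]; exact conn_of hs (mem_insert_self _ _) PR
  · rcases (Nat.lt_succ_iff.1 hj).lt_or_eq with hj | rfl <;>
      rcases (Nat.lt_succ_iff.1 hk).lt_or_eq with hk | rfl
    · obtain ⟨a, b, h1, h2, h3⟩ := h.clq y (r4 y (mem_upS.2 hy.ge)).1 j hj k hk n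
        (r7 y j hj a) (r7 y k hk b)
      exact ⟨a, b, (r2 j hj a).2 h1, (r2 k hk b).2 h2, h3⟩
    · obtain ⟨a, b, h1, h2, h3⟩ := r8 y j hj b a
      exact ⟨b, a, h2, h1, hs _ _ h3⟩
    · exact r8 y k hk a b
    · exact absurd rfl n
  · rw [r1 j (by omega)]
    rcases (Nat.lt_succ_iff.1 hj).lt_or_eq with hj | rfl
    · simp only [r2 j hj]; exact h.ball j hj v d
    · choose F f1 f2 using fun k => t3 k v d
      refine ⟨insert x (K.biUnion F), (card_insert_le _ _).trans ?_, fun y hy q => ?_⟩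
      · have := (card_biUnion_le_card_mul K F _ fun k _ => f1 k).trans
          (Nat.mul_le_mul_right _ K4)
        omega
      · rcases mem_insert.1 ((r3 y).1 hy) with rfl | hy
        · exact mem_insert_self _ _
        · obtain ⟨k, hk, hy⟩ := mem_biUnion.1 hy
          exact mem_insert_of_mem (mem_biUnion.2 ⟨k, hk, f2 k y hy q⟩)
  · have r9 : ∀ y, ∀ k < j, Tch adj ρ' j y k → Tch adj ρ j y k := fun y k hk ⟨a, ha, b, h1, h2⟩ =>
      ⟨a, r1 j (by omega) ▸ ha, b, h1, (r2 k (by omega) b).1 h2⟩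
    rcases (Nat.lt_succ_iff.1 hj).lt_or_eq with hj | rfl
    · obtain ⟨F, f1, f2⟩ := h.par j hj
      exact ⟨F, f1, fun y hy k hk q => f2 y ((r2 j hj y).1 hy) k hk (r9 y k hk q)⟩
    · refine ⟨K, K4, fun y hy k hk q => mem_filter.2 ⟨mem_range.2 hk, ?_⟩⟩
      obtain ⟨a, ha, b⟩ := r9 y k hk q
      exact ⟨a, PC y ((r3 y).1 hy) ▸ ha, b⟩

theorem wcol (hs : ∀ a b, adj a b → adj b a) (hK : ∀ K, Cov adj K → K.card ≤ 4) :
    ∃ ρ : V → ℕ, ∀ d v, ∃ F : Finset V, F.card ≤ 5 ^ d * (8 * d + 5) ∧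
      ∀ z, Nr adj ↑(upS ρ (ρ z)) v d z → z ∈ F := by
  have fin : ∀ n ρ i, Inv adj ρ i → (upS ρ i).card = n → ∃ ρ i, Inv adj ρ i ∧ ∀ y, ρ y < i := by
    intro n
    induction n using Nat.strong_induction_on with
    | _ n ih =>
      intro ρ i h e
      by_cases k : ∃ x, ρ x = i
      · obtain ⟨x, hx⟩ := k
        obtain ⟨ρ', h1, h2⟩ := h.step hs hK x hx
        exact ih _ (e ▸ h2) ρ' _ h1 rfl
      · exact ⟨ρ, i, h, fun y => (h.le y).lt_of_ne fun e => k ⟨y, e⟩⟩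
  obtain ⟨ρ, i, h, hi⟩ := fin _ (fun _ => 0) 0 ⟨fun _ => le_rfl, by simp, by simp, by simp,
    by simp⟩ rfl
  have : ∀ j, ∃ F : Finset ℕ, F.card ≤ 4 ∧ ∀ x, ρ x = j → ∀ k < j, Tch adj ρ j x k → k ∈ F := by
    intro j
    by_cases e : j < i
    · exact h.par j e
    · exact ⟨∅, by simp, fun x hx => absurd (hx ▸ hi x) e⟩
  choose K k1 k2 using this
  refine ⟨ρ, fun d v => ?_⟩
  have key : ∀ d, ∃ A : Finset ℕ, A.card ≤ 5 ^ d ∧ ρ v ∈ A ∧ ∀ (S : Set V) y, Nr adj S v d y →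
      ∃ w, ρ w ∈ A ∧ y ∈ comp adj (upS ρ (ρ w)) w ∧ (w = v ∨ w ∈ S) := by
    intro d
    induction d with
    | zero =>
      refine ⟨{ρ v}, by simp, by simp, fun S y h => ?_⟩
      cases h
      exact ⟨v, by simp, self_mem (mem_upS.2 le_rfl), Or.inl rfl⟩
    | succ d ih =>
      obtain ⟨A, a1, a0, a2⟩ := ih
      refine ⟨A ∪ A.biUnion K, (card_union_le _ _).trans ?_, mem_union_left _ a0,
        fun S y h => ?_⟩
      · have := card_biUnion_le_card_mul A K _ fun k _ => k1 k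
        rw [pow_succ]; omega
      cases h with
      | refl => exact ⟨v, mem_union_left _ a0, self_mem (mem_upS.2 le_rfl), Or.inl rfl⟩
      | @step _ u _ h a b c =>
        obtain ⟨w, w1, w2, w3⟩ := a2 S u h
        by_cases e : ρ w ≤ ρ y
        · exact ⟨w, mem_union_left _ w1, comp_step w2 a (mem_upS.2 e), w3⟩
        · exact ⟨y, mem_union_right _ (mem_biUnion.2 ⟨_, w1, k2 _ w rfl _ (by omega)
            ⟨u, w2, y, a, rfl⟩⟩), self_mem (mem_upS.2 le_rfl), Or.inr c⟩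
  obtain ⟨A, a1, -, a2⟩ := key d
  have : ∀ j, ∃ F : Finset V, F.card ≤ 8 * d + 5 ∧
      ∀ y, ρ y = j → Nr adj ↑(upS ρ j) v d y → y ∈ F := by
    intro j
    by_cases e : j < i
    · exact h.ball j e v d
    · exact ⟨∅, by simp, fun x hx => absurd (hx ▸ hi x) e⟩
  choose F f1 f2 using this
  refine ⟨A.biUnion F, (card_biUnion_le_card_mul A F _ fun k _ => f1 k).trans
    (Nat.mul_le_mul_right _ a1), fun z hz => mem_biUnion.2 ⟨ρ z, ?_, f2 _ z rfl hz⟩⟩
  obtain ⟨w, w1, w2, w3⟩ := a2 _ z hz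
  have e1 := mem_upS.1 (mem_comp.1 w2).1
  have e2 : w ∈ upS ρ (ρ z) := by
    rcases w3 with rfl | w3
    · rcases hz.mem with rfl | k
      · exact mem_upS.2 le_rfl
      · exact k.1
    · exact w3
  rwa [← le_antisymm e1 (mem_upS.1 e2)]

end Pool.Agent.H89.TG
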