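import Mathlib
import Pool.Agent.H89.TG6

set_option autoImplicit false

namespace Pool.Agent.H89.TG

open Finset CR
open scoped Classical

theorem Nr.ext2 {V : Type} {adj : V → V → Prop} {S : Set V} {x y : V} {d : ℕ}
    (h : Nr adj S x d y) (hx : x ∈ S) : ∃ T : Finset V, T.card ≤ d + 1 ∧ x ∈ T ∧
    y ∈ T ∧ ∀ t ∈ T, t ∈ S ∧ Nr adj ↑T x d t := by
  induction h with
  | refl d => exact ⟨{x}, by simp, by simp, by simp,
      fun t ht => by rw [mem_singleton.1 ht]; exact ⟨hx, Nr.refl _⟩⟩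
  | @step d y z h a b c ih =>
    obtain ⟨T, h1, h2, h3, h5⟩ := ih
    refine ⟨insert z T, (card_insert_le _ _).trans (by omega), mem_insert_of_mem h2,
      mem_insert_self _ _, fun t ht => ?_⟩
    rcases mem_insert.1 ht with rfl | ht
    · exact ⟨c, ((h5 y h3).2.sub (by simp)).step a (by simp [h3]) (by simp)⟩
    · exact ⟨(h5 t ht).1, ((h5 t ht).2.mono (by omega)).sub (by simp)⟩

theorem Nr.rs {V : Type} {adj : V → V → Prop} {S : Set V} {x y : V} {d : ℕ}
    (h : Nr adj S x d y) : RS adj S x y := by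
  induction h with
  | refl => exact RS.rfl
  | step _ a b c ih => exact ih.tr (RS.one a b c)

theorem notrans {c : ℕ} {P : Fam c 2} (h : Loc P) : ∃ N M : ℕ, 0 < N ∧ 0 < M ∧ 2 ∣ M ∧
    ∀ (V : Type) [Finite V] (G : SimpleGraph V) (D : Drw ℂ G), D.Free →
      ∀ (C : Fin c → V → Prop) (f : Vx N M → V),
      (∀ u v, (H N M).Adj u v ↔ f u ≠ f v ∧ (P V G C ![f u, f v] ∨ P V G C ![f v, f u])) →
      Function.Injective f → False := by
  obtain ⟨R, hR⟩ := few h
  obtain ⟨b0, h0⟩ := hR 0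
  obtain ⟨b1, h1⟩ := hR (5 ^ (R + R) * (8 * (R + R) + 5))
  obtain ⟨N, M, hN, hM, h2, k⟩ :=
    nomodel ((3 * (R + 1) + 1) * (5 ^ (R + R) * (8 * (R + R) + 5) * b1 + 1) + b0)
  refine ⟨N, M, hN, hM, h2, fun V _ G D hD C f hf fi => ?_⟩
  have := Fintype.ofFinite V
  have hs : ∀ a b, G.Adj a b → G.Adj b a := fun _ _ => SimpleGraph.Adj.symm
  obtain ⟨ρ, hρ⟩ := wcol hs (nok5 D hD)
  choose F f1 f2 using hρ (R + R)
  let X : Finset V → Finset (Vx N M) := fun Z => univ.filter fun u => ∃ v, (H N M).Adj u v ∧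
    ¬ Nr G.Adj (↑Z)ᶜ (f u) R (f v)
  have um : ∀ {i j}, i ≤ j → (↑(upS ρ j) : Set V) ⊆ ↑(upS ρ i) := fun h y hy =>
    mem_upS.2 (h.trans (mem_upS.1 hy))
  have : ∀ u v, ∃ T : Finset V, T.card ≤ R + 1 ∧ (∀ w ∈ T, ∃ z ∈ F w, u ∈ X (F z)) ∧
      ((H N M).Adj u v → u ∉ X ∅ → RS G.Adj ↑T (f u) (f v)) := by
    intro u v
    by_cases e : (H N M).Adj u v ∧ u ∉ X ∅
    swap
    · exact ⟨∅, by simp, by simp, fun a b => absurd ⟨a, b⟩ e⟩
    have ne := ((hf u v).1 e.1).1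
    have n0 : Nr G.Adj ↑(upS ρ 0) (f u) R (f v) := by
      by_contra q
      exact e.2 (mem_filter.2 ⟨mem_univ _, v, e.1, fun k => q (k.sub fun y _ =>
        mem_upS.2 (Nat.zero_le _))⟩)
    have ex : ∃ j, ¬ Nr G.Adj ↑(upS ρ (j + 1)) (f u) R (f v) := ⟨ρ (f u), fun q => by
      have := mem_upS.1 (q.mem.resolve_left ne).1
      omega⟩
    obtain ⟨j, j1, j2⟩ : ∃ j, Nr G.Adj ↑(upS ρ j) (f u) R (f v) ∧
        ¬ Nr G.Adj ↑(upS ρ (j + 1)) (f u) R (f v) := by
      refine ⟨Nat.find ex, ?_, Nat.find_spec ex⟩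
      rcases e' : Nat.find ex with _ | j
      · exact n0
      · exact not_not.1 (Nat.find_min ex (m := j) (by omega))
    obtain ⟨T, t1, t2, t3, t4⟩ := j1.ext2 (j1.mem.resolve_left ne).1
    have tu : (↑T : Set V) ⊆ ↑(upS ρ j) := fun t ht => (t4 t ht).1
    obtain ⟨z, z1, z2⟩ : ∃ z ∈ T, ρ z = j := by
      by_contra q
      push Not at q
      refine j2 ((t4 _ t3).2.sub fun t ht => mem_upS.2 ?_)
      have := mem_upS.1 (t4 t ht).1
      have := q t ht
      omega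
    refine ⟨T, t1, fun w hw => ⟨z, f2 w z ?_, mem_filter.2 ⟨mem_univ _, v, e.1, fun q => ?_⟩⟩,
      fun _ _ => (t4 _ t3).2.rs⟩
    · rw [z2]
      exact (((t4 w hw).2.symm hs).tr (t4 z z1).2).sub tu
    · obtain ⟨T', -, s2, s3, s4⟩ := q.ext2 (q.mem.resolve_left ne).1
      obtain ⟨y, y1, y2⟩ := exists_min_image T' ρ ⟨_, s2⟩
      have yu : (↑T' : Set V) ⊆ ↑(upS ρ (ρ y)) := fun t ht => mem_upS.2 (y2 t ht)
      have yj : ρ y ≤ j := by
        by_contra n
        exact j2 ((s4 _ s3).2.sub (yu.trans (um (by omega))))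
      exact (s4 y y1).1 (f2 z y ((((t4 z z1).2.symm hs).sub (tu.trans (um yj))).tr
        ((s4 y y1).2.sub yu)))
  choose T t1 t2 t3 using this
  refine k G D hD (fun u => insert (f u) ((univ.filter ((H N M).Adj u)).biUnion (T u))) f (X ∅)
    _ _ (Nat.le_add_right _ _) ((h0 V G C ∅ (by simp) _ _ f (deg3 hM h2) hf).trans
      (Nat.le_add_left _ _)) (fun u => mem_insert_self _ _) (fun u => ?_) (fun w => ?_)
    fun u v a b _ => (t3 u v a b).mono fun w hw => Or.inl (mem_insert_of_mem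
      (mem_biUnion.2 ⟨v, mem_filter.2 ⟨mem_univ _, a⟩, hw⟩))
  · exact (card_insert_le _ _).trans (Nat.succ_le_succ
      ((card_biUnion_le_card_mul _ _ _ fun v _ => t1 u v).trans
        (Nat.mul_le_mul_right _ (deg3 hM h2 u))))
  · refine le_trans (card_le_card (t := ((F w).biUnion fun z => X (F z)) ∪
      univ.filter fun u => f u = w) fun u hu => ?_) ((card_union_le _ _).trans
        (Nat.add_le_add ((card_biUnion_le_card_mul _ _ _ fun z _ =>
          h1 V G C (F z) (f1 z) _ _ f (deg3 hM h2) hf).trans (Nat.mul_le_mul_right _ (f1 w)))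
          (card_le_one.2 fun a ha b hb =>
            fi ((mem_filter.1 ha).2.trans (mem_filter.1 hb).2.symm))))
    rcases mem_insert.1 (mem_filter.1 hu).2 with e | e
    · exact mem_union_right _ (mem_filter.2 ⟨mem_univ _, e.symm⟩)
    · obtain ⟨v, -, e⟩ := mem_biUnion.1 e
      exact mem_union_left _ (mem_biUnion.2 (t2 u v w e))

end Pool.Agent.H89.TG
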