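import Mathlib
import Pool.Agent.H89.SP1

set_option autoImplicit false

namespace Pool.Agent.H89.SP

open Finset TG
open scoped Classical

section
variable {V L : Type} {G : SimpleGraph V} {χ : V → L}

theorem sy {S : Set V} {x y : V} {d : ℕ} (h : Nr G.Adj S x d y) : Nr G.Adj S y d x :=
  h.symm fun _ _ => SimpleGraph.Adj.symm

theorem one {adj : V → V → Prop} {S : Set V} {x y : V} (h : adj x y) (hx : x ∈ S) (hy : y ∈ S) :
    Nr adj S x 1 y := (Nr.refl 0).step h hx hy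

theorem last {adj : V → V → Prop} {S : Set V} {z y : V} {d : ℕ} (h : Nr adj S z d y) :
    z = y ∨ ∃ a e, e + 1 ≤ d ∧ adj z a ∧ z ∈ S ∧ a ∈ S \ {z} ∧ Nr adj (S \ {z}) a e y := by
  induction h with
  | refl => exact Or.inl rfl
  | @step d y w _ a b c ih =>
    by_cases e : z = w
    · exact Or.inl e
    rcases ih with rfl | ⟨u, f, h1, h2, h3, h4, h5⟩
    · exact Or.inr ⟨w, 0, by omega, a, b, ⟨c, fun k => e k.symm⟩, Nr.refl _⟩
    · exact Or.inr ⟨u, f + 1, by omega, h2, h3, h4, h5.step a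
        (h5.mem.elim (fun k => k ▸ h4) And.right) ⟨c, fun k => e k.symm⟩⟩

theorem short {adj : V → V → Prop} : ∀ (n : ℕ) (W : Finset V) (a b : V) (d : ℕ), W.card ≤ n →
    Nr adj ↑W a d b → Nr adj ↑W a n b := by
  intro n
  induction n with
  | zero =>
    intro W a b d hW h
    rcases h.mem with rfl | k
    · exact Nr.refl _
    · exact absurd (card_pos.2 ⟨a, k.1⟩) (by omega)
  | succ n ih =>
    intro W a b d hW h
    rcases last h with rfl | ⟨c, e, -, h2, h3, h4, h5⟩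
    · exact Nr.refl _
    rw [← coe_erase] at h5
    have := ih _ _ _ _ (by rw [card_erase_of_mem h3]; omega) h5
    exact ((one h2 h3 h4.1).tr (this.sub (by simp))).mono (by omega)

/-- no short cycles -/
def Acyc (G : SimpleGraph V) (g : ℕ) : Prop :=
  ∀ z a b, G.Adj z a → G.Adj z b → Nr G.Adj {z}ᶜ a g b → a = b

theorem Acyc.mono {g e : ℕ} (h : Acyc G g) (k : e ≤ g) : Acyc G e :=
  fun z a b h1 h2 h3 => h z a b h1 h2 (h3.mono k)

/-- closed sets -/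
def Cl (G : SimpleGraph V) (ρ : ℕ) (S : Finset V) : Prop :=
  ∀ a ∈ S, ∀ b ∈ S, Nr G.Adj Set.univ a ρ b → ∃ d, Nr G.Adj ↑S a d b

/-- back and forth positions -/
structure BF (G : SimpleGraph V) (χ : V → L) (ρ : ℕ) (Λ : Finset (V × V)) : Prop where
  eq : ∀ p ∈ Λ, ∀ q ∈ Λ, p.1 = q.1 ↔ p.2 = q.2
  adj : ∀ p ∈ Λ, ∀ q ∈ Λ, G.Adj p.1 q.1 ↔ G.Adj p.2 q.2
  lab : ∀ p ∈ Λ, χ p.1 = χ p.2
  c1 : Cl G ρ (Λ.image Prod.fst)
  c2 : Cl G ρ (Λ.image Prod.snd)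

theorem BF.mono {L' : Type} {χ' : V → L'} {ρ ρ' : ℕ} {Λ : Finset (V × V)} (h : BF G χ' ρ' Λ)
    (h1 : ∀ a b, χ' a = χ' b → χ a = χ b) (h2 : ρ ≤ ρ') : BF G χ ρ Λ :=
  ⟨h.eq, h.adj, fun p hp => h1 _ _ (h.lab p hp), fun a ha b hb k => h.c1 a ha b hb (k.mono h2),
    fun a ha b hb k => h.c2 a ha b hb (k.mono h2)⟩

theorem BF.swap {ρ : ℕ} {Λ : Finset (V × V)} (h : BF G χ ρ Λ) : BF G χ ρ (Λ.image Prod.swap) := by
  refine ⟨?_, ?_, ?_, ?_, ?_⟩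
  · simp only [forall_mem_image]; exact fun p hp q hq => (h.eq p hp q hq).symm
  · simp only [forall_mem_image]; exact fun p hp q hq => (h.adj p hp q hq).symm
  · simp only [forall_mem_image]; exact fun p hp => (h.lab p hp).symm
  · rw [image_image]; exact h.c2
  · rw [image_image]; exact h.c1

theorem BF.single (ρ : ℕ) {a b : V} (h : χ a = χ b) : BF G χ ρ {(a, b)} :=
  ⟨by simp, by simp, by simpa using h, fun x hx y hy _ => ⟨0, by
    simp only [image_singleton, mem_singleton] at hx hy; rw [hx, hy]; exact Nr.refl _⟩,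
    fun x hx y hy _ => ⟨0, by
    simp only [image_singleton, mem_singleton] at hx hy; rw [hx, hy]; exact Nr.refl _⟩⟩

theorem Cl.ins {ρ ρ' : ℕ} {S : Finset V} (h : Cl G ρ' S) (k : ρ ≤ ρ') {c : V}
    (hc : ∀ b ∈ S, Nr G.Adj Set.univ c ρ b → ∃ d, Nr G.Adj ↑(insert c S) c d b) :
    Cl G ρ (insert c S) := by
  intro x hx y hy e
  rcases mem_insert.1 hx with h1 | h1 <;> rcases mem_insert.1 hy with h2 | h2
  · exact ⟨0, by rw [h1, h2]; exact Nr.refl _⟩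
  · rw [h1] at e ⊢; exact hc y h2 e
  · rw [h2] at e ⊢; exact (hc x h1 (sy e)).imp fun _ => sy
  · exact (h x h1 y h2 (e.mono k)).imp fun _ q => q.sub (by simp)

theorem Cl.add {g ρ : ℕ} (hg : Acyc G g) {S : Finset V} (hS : S.card ≤ g) (h : Cl G (ρ + 1) S)
    (h1 : 1 ≤ ρ) {a c : V} (ha : a ∈ S) (hc : c ∉ S) (e : G.Adj a c) :
    (∀ b ∈ S, G.Adj c b → b = a) ∧ Cl G ρ (insert c S) := by
  refine ⟨fun b hb k => ?_, h.ins (by omega) fun b hb k => ?_⟩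
  · obtain ⟨d, q⟩ := h a ha b hb (((one e (Set.mem_univ _) (Set.mem_univ _)).tr (one k (Set.mem_univ _) (Set.mem_univ _))).mono
      (by omega))
    exact (hg c a b e.symm k ((short g S a b d hS q).sub fun t ht k => hc (k ▸ ht))).symm
  · obtain ⟨d, q⟩ := h a ha b hb (((one e (Set.mem_univ _) (Set.mem_univ _)).tr k).mono (by omega))
    exact ⟨_, (one e.symm (by simp) (by simp [ha])).tr (q.sub (by simp))⟩

theorem BF.ins {ρ ρ' : ℕ} {Λ : Finset (V × V)} (h : BF G χ ρ' Λ) {c c' : V}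
    (h1 : ∀ q ∈ Λ, q.1 ≠ c) (h2 : ∀ q ∈ Λ, q.2 ≠ c') (h3 : ∀ q ∈ Λ, G.Adj c q.1 ↔ G.Adj c' q.2)
    (h4 : χ c = χ c') (h5 : Cl G ρ (insert c (Λ.image Prod.fst)))
    (h6 : Cl G ρ (insert c' (Λ.image Prod.snd))) : BF G χ ρ (insert (c, c') Λ) := by
  refine ⟨?_, ?_, ?_, by rwa [image_insert], by rwa [image_insert]⟩
  · simp only [forall_mem_insert]
    exact ⟨⟨by simp, fun q hq => iff_of_false (h1 q hq).symm (h2 q hq).symm⟩,
      fun q hq => ⟨iff_of_false (h1 q hq) (h2 q hq), h.eq q hq⟩⟩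
  · simp only [forall_mem_insert]
    exact ⟨⟨by simp, h3⟩, fun q hq => ⟨by rw [G.adj_comm, h3 q hq, G.adj_comm], h.adj q hq⟩⟩
  · simp only [forall_mem_insert]; exact ⟨h4, h.lab⟩

theorem BF.add {g ρ : ℕ} (hg : Acyc G g) {Λ : Finset (V × V)} (hS : Λ.card ≤ g)
    (h : BF G χ (ρ + 1) Λ) (h0 : 1 ≤ ρ) {a a' c c' : V} (ha : (a, a') ∈ Λ)
    (h1 : ∀ q ∈ Λ, q.1 ≠ c) (h2 : ∀ q ∈ Λ, q.2 ≠ c') (e : G.Adj a c) (e' : G.Adj a' c')
    (h4 : χ c = χ c') : BF G χ ρ (insert (c, c') Λ) ∧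
      ∀ q ∈ Λ, (G.Adj c q.1 → q.1 = a) ∧ (G.Adj c' q.2 → q.2 = a') := by
  obtain ⟨k1, k2⟩ := h.c1.add hg (card_image_le.trans hS) h0 (mem_image_of_mem _ ha)
    (fun k => by obtain ⟨q, hq, e⟩ := mem_image.1 k; exact h1 q hq e) e
  obtain ⟨k3, k4⟩ := h.c2.add hg (card_image_le.trans hS) h0 (mem_image_of_mem _ ha)
    (fun k => by obtain ⟨q, hq, e⟩ := mem_image.1 k; exact h2 q hq e) e'
  refine ⟨h.ins h1 h2 (fun q hq => ⟨fun k => ?_, fun k => ?_⟩) h4 k2 k4, fun q hq =>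
    ⟨k1 _ (mem_image_of_mem _ hq), k3 _ (mem_image_of_mem _ hq)⟩⟩
  · rw [(h.eq q hq _ ha).1 (k1 _ (mem_image_of_mem _ hq) k)]; exact e'.symm
  · rw [(h.eq q hq _ ha).2 (k3 _ (mem_image_of_mem _ hq) k)]; exact e.symm

theorem BF.far {ρ : ℕ} {Λ : Finset (V × V)} (h : BF G χ ρ Λ) {c c' : V}
    (h1 : ∀ q ∈ Λ, ¬ Nr G.Adj Set.univ q.1 (ρ + 1) c)
    (h2 : ∀ q ∈ Λ, ¬ Nr G.Adj Set.univ q.2 (ρ + 1) c') (h4 : χ c = χ c') :
    BF G χ ρ (insert (c, c') Λ) := by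
  refine h.ins (fun q hq e => h1 q hq (e ▸ Nr.refl _)) (fun q hq e => h2 q hq (e ▸ Nr.refl _))
    (fun q hq => iff_of_false (fun k => h1 q hq ((one k.symm (Set.mem_univ _) (Set.mem_univ _)).mono (by omega)))
      fun k => h2 q hq ((one k.symm (Set.mem_univ _) (Set.mem_univ _)).mono (by omega))) h4
    (h.c1.ins le_rfl fun b hb k => ?_) (h.c2.ins le_rfl fun b hb k => ?_)
  · obtain ⟨q, hq, rfl⟩ := mem_image.1 hb
    exact absurd ((sy k).mono (by omega)) (h1 q hq)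
  · obtain ⟨q, hq, rfl⟩ := mem_image.1 hb
    exact absurd ((sy k).mono (by omega)) (h2 q hq)

/-- non-backtracking labelled walks -/
def Wz (G : SimpleGraph V) (χ : V → L) : V → V → List L → V → Prop
  | _, a, [], z => a = z
  | b, a, l :: σ, z => ∃ c, G.Adj a c ∧ c ≠ b ∧ χ c = l ∧ Wz G χ a c σ z

theorem Wz.nr : ∀ (σ : List L) {b a z : V}, Wz G χ b a σ z → Nr G.Adj Set.univ a σ.length z
  | [], _, _, _, h => h ▸ Nr.refl _
  | _ :: σ, _, _, _, ⟨_, h1, _, _, h⟩ =>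
    ((one h1 (Set.mem_univ _) (Set.mem_univ _)).tr (Wz.nr σ h)).mono (by simp [add_comm])

theorem nb (χ : V → L) {S : Set V} {z a : V} {d : ℕ} (h : Nr G.Adj S z d a) :
    a = z ∨ ∃ c σ, σ.length + 1 ≤ d ∧ G.Adj a c ∧ Wz G χ a c σ z := by
  induction h with
  | refl => exact Or.inl rfl
  | @step d y a _ e _ _ ih =>
    rcases ih with rfl | ⟨c, σ, h1, h2, h3⟩
    · exact Or.inr ⟨y, [], by simp, e.symm, rfl⟩
    by_cases k : c = a
    · subst k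
      rcases σ with _ | ⟨l, σ⟩
      · exact Or.inl h3
      · obtain ⟨c', k1, -, -, k2⟩ := h3
        exact Or.inr ⟨c', σ, by simp at h1; omega, k1, k2⟩
    · exact Or.inr ⟨y, χ c :: σ, by simp; omega, e.symm, c, h2, k, rfl, h3⟩

theorem leave (S : Set V) {z : V} : ∀ (σ : List L) {a c : V}, a ∈ S → G.Adj a c → Wz G χ a c σ z →
    z ∈ S ∨ ∃ a c, ∃ σ' : List L, σ'.length ≤ σ.length ∧ a ∈ S ∧ c ∉ S ∧ G.Adj a c ∧
      Wz G χ a c σ' z := by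
  intro σ
  induction σ with
  | nil =>
    intro a c ha e h
    by_cases k : c ∈ S
    · exact Or.inl (h ▸ k)
    · exact Or.inr ⟨a, c, [], le_rfl, ha, k, e, h⟩
  | cons l σ ih =>
    intro a c ha e h
    by_cases k : c ∈ S
    · obtain ⟨c', k1, -, -, k2⟩ := h
      exact (ih k k1 k2).imp_right fun ⟨a, c, σ', h1, h2⟩ => ⟨a, c, σ', by simp; omega, h2⟩
    · exact Or.inr ⟨a, c, l :: σ, le_rfl, ha, k, e, h⟩

theorem grow {g ρ : ℕ} (hg : Acyc G g) (h0 : 1 ≤ ρ) {z z' : V} : ∀ (σ : List L)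
    (Λ : Finset (V × V)) (b a b' a' : V), BF G χ (ρ + σ.length) Λ → Λ.card + σ.length ≤ g →
    (a, a') ∈ Λ → (∀ q ∈ Λ, (G.Adj a q.1 → q.1 = b) ∧ (G.Adj a' q.2 → q.2 = b')) →
    Wz G χ b a σ z → Wz G χ b' a' σ z' → ∃ Λ', Λ ⊆ Λ' ∧ Λ'.card ≤ Λ.card + σ.length ∧
      BF G χ ρ Λ' ∧ (z, z') ∈ Λ' ∧ (z = a ∨ ∀ q ∈ Λ, q.1 ≠ z) ∧
      ∀ q ∈ Λ', q ∈ Λ ∨ ∀ p ∈ Λ, (G.Adj p.1 q.1 → p.1 = a) ∧ (G.Adj p.2 q.2 → p.2 = a') := by
  intro σ
  induction σ with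
  | nil =>
    intro Λ b a b' a' h _ ha _ w w'
    exact ⟨Λ, Subset.rfl, le_rfl, h, w ▸ w' ▸ ha, Or.inl w.symm, fun q hq => Or.inl hq⟩
  | cons l σ ih =>
    rintro Λ b a b' a' h hc ha ht ⟨c, e1, e2, e3, w⟩ ⟨c', f1, f2, f3, w'⟩
    have n1 : ∀ q ∈ Λ, q.1 ≠ c := fun q hq k => e2 (k ▸ (ht q hq).1 (k ▸ e1))
    have n2 : ∀ q ∈ Λ, q.2 ≠ c' := fun q hq k => f2 (k ▸ (ht q hq).2 (k ▸ f1))
    simp only [List.length_cons] at h hc ⊢
    obtain ⟨k1, k2⟩ := BF.add (ρ := ρ + σ.length) hg (by omega) h (by omega) ha n1 n2 e1 f1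
      (e3.trans f3.symm)
    have := card_insert_le (c, c') Λ
    obtain ⟨Λ', s1, s2, s3, s4, s5, s6⟩ := ih (insert (c, c') Λ) a c a' c' k1 (by omega)
      (mem_insert_self _ _) (by simp only [forall_mem_insert]; exact ⟨by simp, k2⟩) w w'
    refine ⟨Λ', (subset_insert _ _).trans s1, by omega, s3, s4, Or.inr fun q hq => ?_,
      fun q hq => ?_⟩
    · rcases s5 with rfl | s5
      · exact n1 q hq
      · exact s5 q (mem_insert_of_mem hq)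
    · rcases s6 q hq with k | k
      · rcases mem_insert.1 k with rfl | k
        · exact Or.inr fun p hp => ⟨fun e => (k2 p hp).1 e.symm, fun e => (k2 p hp).2 e.symm⟩
        · exact Or.inl k
      · exact Or.inr fun p hp => ⟨fun e => absurd ((k p (mem_insert_of_mem hp)).1 e) (n1 p hp),
          fun e => absurd ((k p (mem_insert_of_mem hp)).2 e) (n2 p hp)⟩

theorem cross {g ρ r : ℕ} (hg : Acyc G g) (h0 : 2 * ρ + 3 ≤ g) {z a b u v z' a' b' u' v' : V}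
    {σ τ : List L} (h1 : σ.length ≤ ρ) (h2 : τ.length ≤ ρ) (e1 : G.Adj z a) (e2 : G.Adj z b)
    (e3 : a ≠ b) (f1 : G.Adj z' a') (f2 : G.Adj z' b') (f3 : a' ≠ b') (l1 : χ z = χ z')
    (l2 : χ a = χ a') (l3 : χ b = χ b') (w1 : Wz G χ z a σ u) (w2 : Wz G χ z b τ v)
    (w3 : Wz G χ z' a' σ u') (w4 : Wz G χ z' b' τ v') :
    u ≠ v ∧ ∃ Λ : Finset (V × V), Λ.card ≤ 2 * ρ + 3 ∧ BF G χ r Λ ∧ (u, u') ∈ Λ ∧ (v, v') ∈ Λ := by
  obtain ⟨k1, -⟩ := BF.add (ρ := r + 1 + τ.length + σ.length + 1) hg (by simp; omega)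
    (BF.single _ l1) (by omega) (mem_singleton_self _) (by simpa using e1.ne)
    (by simpa using f1.ne) e1 f1 l2
  have c1 : (insert (a, a') {(z, z')} : Finset (V × V)).card ≤ 2 := card_le_two
  obtain ⟨k2, k3⟩ := BF.add hg (by omega) k1 (by omega) (a := z) (a' := z') (by simp)
    (by simpa using ⟨e3, e2.ne⟩) (by simpa using ⟨f3, f2.ne⟩) e2 f2 l3
  have c2 := card_insert_le (b, b') (insert (a, a') {(z, z')} : Finset (V × V))
  have n1 := (k3 (a, a') (by simp)).1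
  have n2 := (k3 (a, a') (by simp)).2
  obtain ⟨Λ, s1, s2, s3, s4, s5, s6⟩ := grow hg (by omega) σ _ z a z' a' k2 (by omega) (by simp)
    (by
      simp only [forall_mem_insert, mem_singleton, forall_eq]
      exact ⟨⟨fun k => absurd (n1 k.symm) e1.ne', fun k => absurd (n2 k.symm) f1.ne'⟩,
        by simp, by simp⟩) w1 w3
  obtain ⟨Λ', t1, t2, t3, t4, t5, -⟩ := grow hg (ρ := r + 1) (by omega) τ Λ z b z' b' s3
    (by omega) (s1 (by simp)) (fun q hq => by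
      rcases s6 q hq with k | k
      · rcases mem_insert.1 k with rfl | k
        · simp
        · exact k3 q k
      · exact ⟨fun e => absurd ((k (b, b') (by simp)).1 e) e3.symm,
          fun e => absurd ((k (b, b') (by simp)).2 e) f3.symm⟩) w2 w4
  refine ⟨?_, Λ', by omega, t3.mono (fun _ _ h => h) (by omega), t1 s4, t4⟩
  rcases t5 with rfl | t5
  · rcases s5 with rfl | s5
    · exact e3
    · exact (s5 (v, b') (by simp)).symm
  · exact t5 _ s4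

theorem split {adj : V → V → Prop} {S : Set V} (B : Set V) {x y : V} {d : ℕ} (hx : x ∉ B)
    (h : Nr adj S x d y) : (y ∉ B ∧ Nr adj Bᶜ x d y) ∨ ∃ b ∈ B, ∃ d1 d2, d1 + d2 ≤ d ∧
      Nr adj S x d1 b ∧ Nr adj S b d2 y := by
  induction h with
  | refl => exact Or.inl ⟨hx, Nr.refl _⟩
  | @step d y w h a b c ih =>
    by_cases e : w ∈ B
    · exact Or.inr ⟨w, e, d + 1, 0, le_rfl, h.step a b c, Nr.refl _⟩
    rcases ih with k | ⟨t, h1, d1, d2, h2, h3, h4⟩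
    · exact Or.inl ⟨e, k.2.step a k.1 e⟩
    · exact Or.inr ⟨t, h1, d1, d2 + 1, by omega, h3, h4.step a b c⟩

theorem thru (χ : V → L) (B : Set V) {x y : V} (hx : x ∉ B) (hy : y ∉ B) : ∀ d,
    Nr G.Adj Set.univ x d y → Nr G.Adj Bᶜ x d y ∨ ∃ z ∈ B, ∃ a b, ∃ σ τ : List L, σ.length ≤ d ∧
      τ.length ≤ d ∧ G.Adj z a ∧ G.Adj z b ∧ a ≠ b ∧ Wz G χ z a σ x ∧ Wz G χ z b τ y := by
  intro d
  induction d using Nat.strong_induction_on with
  | _ d ih =>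
    intro h
    rcases split B hx h with k | ⟨z, h1, d1, d2, h2, h3, h4⟩
    · exact Or.inl k.2
    obtain ⟨a, σ, a1, a2, a3⟩ := (nb χ h3).resolve_left fun e => hx (e ▸ h1)
    obtain ⟨b, τ, b1, b2, b3⟩ := (nb χ (sy h4)).resolve_left fun e => hy (e ▸ h1)
    by_cases e : a = b
    · subst e
      rcases ih _ (by omega) ((sy (Wz.nr σ a3)).tr (Wz.nr τ b3)) with k |
        ⟨z, h1, a, b, σ', τ', k1, k2, k3⟩
      · exact Or.inl (k.mono (by omega))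
      · exact Or.inr ⟨z, h1, a, b, σ', τ', by omega, by omega, k3⟩
    · exact Or.inr ⟨z, h1, a, b, σ, τ, by omega, by omega, a2, b2, e, a3, b3⟩

theorem transfer (Gd Gd' : V → Prop) (Λ : Finset (V × V))
    (h : ∀ j ≤ Λ.card + 1, (∃ F : Finset V, F.card = j ∧ ∀ c ∈ F, Gd c) →
      ∃ F : Finset V, F.card = j ∧ ∀ c ∈ F, Gd' c)
    (he : ∀ p ∈ Λ, ∀ q ∈ Λ, p.1 = q.1 → p.2 = q.2) (hG : ∀ q ∈ Λ, Gd' q.2 → Gd q.1)
    {c : V} (hc : Gd c) (hn : ∀ q ∈ Λ, q.1 ≠ c) : ∃ c', Gd' c' ∧ ∀ q ∈ Λ, q.2 ≠ c' := by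
  let A := Λ.filter fun q => Gd' q.2
  have n : c ∉ A.image Prod.fst := fun k => by
    obtain ⟨q, hq, e⟩ := mem_image.1 k; exact hn q (mem_filter.1 hq).1 e
  obtain ⟨F, f1, f2⟩ := h _ (by
      have := (card_image_le (s := A) (f := Prod.fst)).trans (card_filter_le _ _); omega)
    ⟨insert c (A.image Prod.fst), card_insert_of_notMem n, by
      simp only [forall_mem_insert, forall_mem_image]
      exact ⟨hc, fun q hq => hG q (mem_filter.1 hq).1 (mem_filter.1 hq).2⟩⟩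
  let φ : V → V := fun a => if k : ∃ q ∈ Λ, q.1 = a then k.choose.2 else a
  obtain ⟨c', k1, k2⟩ := exists_mem_notMem_of_card_lt_card
    (s := (A.image Prod.fst).image φ) (t := F) (by have := card_image_le (s := A.image Prod.fst) (f := φ); omega)
  refine ⟨c', f2 _ k1, fun q hq e => k2 (mem_image.2 ⟨q.1, mem_image_of_mem _
    (mem_filter.2 ⟨hq, e ▸ f2 _ k1⟩), ?_⟩)⟩
  have k : ∃ p ∈ Λ, p.1 = q.1 := ⟨q, hq, rfl⟩
  simp only [φ, dif_pos k]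
  exact (he _ k.choose_spec.1 q hq k.choose_spec.2).trans e

/-- refined label type -/
abbrev RL (L : Type) (ρ N : ℕ) := L × Set (L × {σ : List L // σ.length ≤ ρ} × Fin (N + 2))

instance [Finite L] (ρ : ℕ) : Finite {σ : List L // σ.length ≤ ρ} :=
  (List.finite_length_le L ρ).to_subtype

/-- refined labels -/
def Rf (G : SimpleGraph V) (χ : V → L) (ρ N : ℕ) (a : V) : RL L ρ N :=
  (χ a, {t | ∃ F : Finset V, F.card = t.2.2 ∧
    ∀ c ∈ F, G.Adj a c ∧ χ c = t.1 ∧ ∃ z, Wz G χ a c t.2.1 z})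

theorem Rf.cnt {ρ N : ℕ} {a a' : V} (h : Rf G χ ρ N a = Rf G χ ρ N a') (l : L) (σ : List L)
    (hσ : σ.length ≤ ρ) (j : ℕ) (hj : j ≤ N + 1) :
    (∃ F : Finset V, F.card = j ∧ ∀ c ∈ F, G.Adj a c ∧ χ c = l ∧ ∃ z, Wz G χ a c σ z) →
    ∃ F : Finset V, F.card = j ∧ ∀ c ∈ F, G.Adj a' c ∧ χ c = l ∧ ∃ z, Wz G χ a' c σ z :=
  (Set.ext_iff.1 (congrArg Prod.snd h) (l, ⟨σ, hσ⟩, ⟨j, by omega⟩)).1

theorem rel {ρ N : ℕ} (hN : 1 ≤ N) : ∀ (σ : List L), σ.length ≤ ρ → ∀ a b a' b', G.Adj a b →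
    G.Adj a' b' → Rf G χ ρ N a = Rf G χ ρ N a' → Rf G χ ρ N b = Rf G χ ρ N b' →
    (∃ z, Wz G χ b a σ z) → ∃ z, Wz G χ b' a' σ z := by
  intro σ
  induction σ with
  | nil => exact fun _ _ _ a' _ _ _ _ _ _ => ⟨a', rfl⟩
  | cons l σ ih =>
    rintro hσ a b a' b' e e' h1 h2 ⟨z, c, k1, k2, k3, k4⟩
    simp only [List.length_cons] at hσ
    obtain ⟨c', ⟨m1, m2, z', m3⟩, m4⟩ := transfer _ _ {(b, b')}
      (fun j hj => Rf.cnt h1 l σ (by omega) j (by simp at hj; omega)) (by simp)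
      (by
        simp only [mem_singleton, forall_eq]
        exact fun k => ⟨e, (congrArg Prod.fst h2).trans k.2.1,
          ih (by omega) b' a' b a e'.symm e.symm h2.symm h1.symm k.2.2⟩)
      ⟨k1, k3, z, k4⟩ (by simpa using k2.symm)
    exact ⟨z', c', m1, by simpa using (m4 (b, b') (by simp)).symm, m2, m3⟩

end

universe w

variable {J : Type w} {V : J → Type} {n : ℕ} {G : ∀ j, SimpleGraph (V j)}

/-- tree locality -/
def TL (G : ∀ j, SimpleGraph (V j)) {n : ℕ} (P : ∀ j, (Fin n → V j) → Prop) : Prop :=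
  ∃ r : ℕ, ∀ N : ℕ, ∃ (g : ℕ) (L : Type) (_ : Finite L), ∀ j, Acyc (G j) g → ∃ χ : V j → L,
    ∀ Λ : Finset (V j × V j), Λ.card ≤ N → BF (G j) χ r Λ →
      ∀ x y, (∀ i, (x i, y i) ∈ Λ) → P j x → P j y

theorem tl_eq (a b : Fin n) : TL G fun _ x => x a = x b :=
  ⟨0, fun _ => ⟨0, Unit, inferInstance, fun _ _ => ⟨fun _ => (), fun _ _ h _ _ k =>
    (h.eq _ (k a) _ (k b)).1⟩⟩⟩

theorem tl_adj (a b : Fin n) : TL G fun j x => (G j).Adj (x a) (x b) :=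
  ⟨0, fun _ => ⟨0, Unit, inferInstance, fun _ _ => ⟨fun _ => (), fun _ _ h _ _ k =>
    (h.adj _ (k a) _ (k b)).1⟩⟩⟩

theorem tl_col (C : ∀ j, V j → Prop) (a : Fin n) : TL G fun j x => C j (x a) :=
  ⟨0, fun _ => ⟨0, Prop, inferInstance, fun j _ => ⟨C j, fun _ _ h _ _ k =>
    (h.lab _ (k a)).mp⟩⟩⟩

theorem tl_not {P : ∀ j, (Fin n → V j) → Prop} (h : TL G P) : TL G fun j x => ¬ P j x := by
  obtain ⟨r, h⟩ := h
  refine ⟨r, fun N => ?_⟩
  obtain ⟨g, L, hL, h⟩ := h N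
  refine ⟨g, L, hL, fun j hj => (h j hj).imp fun χ h Λ h1 h2 x y k p q => p ?_⟩
  exact h _ (card_image_le.trans h1) h2.swap y x (fun i => mem_image.2 ⟨_, k i, rfl⟩) q

theorem tl_all {ι : Type} [Finite ι] {P : ι → ∀ j, (Fin n → V j) → Prop} (h : ∀ i, TL G (P i)) :
    TL G fun j x => ∀ i, P i j x := by
  have := Fintype.ofFinite ι
  choose r h using h
  refine ⟨univ.sup r, fun N => ?_⟩
  choose g L hL h using fun i => h i N
  refine ⟨univ.sup g, ∀ i, L i, inferInstance, fun j hj => ?_⟩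
  choose χ h using fun i => h i j (hj.mono (le_sup (mem_univ i)))
  exact ⟨fun v i => χ i v, fun Λ h1 h2 x y k p i => h i Λ h1
    (h2.mono (fun _ _ e => congrFun e i) (le_sup (mem_univ i))) x y k (p i)⟩

theorem TL.iff {P Q : ∀ j, (Fin n → V j) → Prop} (h : TL G P) (e : ∀ j x, P j x ↔ Q j x) :
    TL G Q := by
  rwa [← show P = Q from funext fun j => funext fun x => propext (e j x)]

theorem tl_and {P Q : ∀ j, (Fin n → V j) → Prop} (h : TL G P) (k : TL G Q) :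
    TL G fun j x => P j x ∧ Q j x :=
  (tl_all (P := fun b : Bool => bif b then P else Q) (by rintro (_ | _) <;> simpa)).iff
    fun _ _ => by simp [and_comm]

theorem tl_any {ι : Type} [Finite ι] {P : ι → ∀ j, (Fin n → V j) → Prop} (h : ∀ i, TL G (P i)) :
    TL G fun j x => ∃ i, P i j x :=
  (tl_not (tl_all fun i => tl_not (h i))).iff fun _ _ => by simp

theorem TL.re {m : ℕ} {P : ∀ j, (Fin n → V j) → Prop} (h : TL G P) (σ : Fin n → Fin m) :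
    TL G fun j (x : Fin m → V j) => P j fun i => x (σ i) := by
  obtain ⟨r, h⟩ := h
  refine ⟨r, fun N => ?_⟩
  obtain ⟨g, L, hL, h⟩ := h N
  exact ⟨g, L, hL, fun j hj => (h j hj).imp fun χ h Λ h1 h2 x y k =>
    h Λ h1 h2 _ _ fun i => k (σ i)⟩

theorem TL.pull {J' : Type w} {P : ∀ j, (Fin n → V j) → Prop} (h : TL G P) (ι : J' → J) :
    TL (fun j => G (ι j)) fun j => P (ι j) := by
  obtain ⟨r, h⟩ := h
  refine ⟨r, fun N => ?_⟩
  obtain ⟨g, L, hL, h⟩ := h N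
  exact ⟨g, L, hL, fun j => h (ι j)⟩

theorem tl_ex {P : ∀ j, (Fin (n + 1) → V j) → Prop} (h : TL G P) :
    TL G fun j (x : Fin n → V j) => ∃ z, P j (Fin.cons z x) := by
  obtain ⟨r, h⟩ := h
  refine ⟨4 * r + 5, fun N => ?_⟩
  obtain ⟨g, L, hL, h⟩ := h (N + 3 * r + 4)
  refine ⟨g + (N + 3 * r + 4), RL L (3 * r + 3) (N + 1) × Set (L × Fin N), inferInstance,
    fun j hj => ?_⟩
  obtain ⟨χ, h⟩ := h j (hj.mono (by omega))
  have cl : ∀ s : L, ∃ Y : Fin N → Set (V j), (∀ k, (Y k).Subsingleton) ∧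
      ((∀ x : Fin N → V j, ∃ z, χ z = s ∧ ∀ k, ¬ Nr (G j).Adj Set.univ (x k) (r + 1) z) ∨
        ∀ z, χ z = s → ∃ k, ∃ y ∈ Y k, Nr (G j).Adj Set.univ y (r + 1) z) := by
    intro s
    by_cases k : ∀ x : Fin N → V j, ∃ z, χ z = s ∧ ∀ k, ¬ Nr (G j).Adj Set.univ (x k) (r + 1) z
    · exact ⟨fun _ => ∅, by simp, Or.inl k⟩
    · push Not at k
      obtain ⟨x, hx⟩ := k
      exact ⟨fun k => {x k}, by simp, Or.inr fun z hz => (hx z hz).imp fun k q => ⟨_, rfl, q⟩⟩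
  choose Y c1 c2 using cl
  refine ⟨fun v => (Rf (G j) χ _ _ v,
    {p | ∃ y ∈ Y p.1 p.2, Nr (G j).Adj Set.univ y (2 * r + 2) v}), fun Λ h1 h2 x y k => ?_⟩
  rintro ⟨z, p⟩
  have lab : ∀ q ∈ Λ, Rf (G j) χ (3 * r + 3) (N + 1) q.1 = Rf (G j) χ _ _ q.2 :=
    fun q hq => congrArg Prod.fst (h2.lab q hq)
  have h3 : BF (G j) χ (4 * r + 5) Λ :=
    h2.mono (fun _ _ e => congrArg (fun t => t.1.1) e) le_rfl
  suffices ∃ z' Λ', Λ ⊆ Λ' ∧ Λ'.card ≤ N + 3 * r + 4 ∧ BF (G j) χ r Λ' ∧ (z, z') ∈ Λ' by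
    obtain ⟨z', Λ', s1, s2, s3, s4⟩ := this
    exact ⟨z', h Λ' s2 s3 _ _ (fun i => Fin.cases s4 (fun i => s1 (k i)) i) p⟩
  by_cases near : ∃ q ∈ Λ, Nr (G j).Adj Set.univ q.1 (3 * r + 3) z
  · obtain ⟨q, hq, near⟩ := near
    have : z ∈ {v | ∃ q ∈ Λ, q.1 = v} ∨ ∃ a c, ∃ σ : List L, σ.length ≤ 3 * r + 2 ∧
        a ∈ {v | ∃ q ∈ Λ, q.1 = v} ∧ c ∉ {v | ∃ q ∈ Λ, q.1 = v} ∧ (G j).Adj a c ∧
        Wz (G j) χ a c σ z := by
      rcases nb χ (sy near) with e | ⟨c, σ, a1, a2, a3⟩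
      · exact Or.inl ⟨q, hq, e⟩
      · exact (leave {v | ∃ q ∈ Λ, q.1 = v} σ ⟨q, hq, rfl⟩ a2 a3).imp_right fun ⟨a, c, σ', h1, h2⟩ =>
          ⟨a, c, σ', by omega, h2⟩
    rcases this with ⟨q, hq, rfl⟩ | ⟨_, c, σ, a1, ⟨q, hq, rfl⟩, a3, a4, a5⟩
    · exact ⟨q.2, Λ, Subset.rfl, by omega, h3.mono (fun _ _ e => e) (by omega), hq⟩
    have a6 : ∀ q ∈ Λ, q.1 ≠ c := fun q hq e => a3 ⟨q, hq, e⟩
    obtain ⟨c', ⟨m1, m2, z', m3⟩, m4⟩ := transfer _ _ Λ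
      (fun i hi => Rf.cnt (lab q hq) (χ c) σ (by omega) i (by omega))
      (fun p hp q hq => (h2.eq p hp q hq).1)
      (fun t ht e => ⟨(h2.adj q hq t ht).2 e.1, (h3.lab t ht).trans e.2.1,
        rel (by omega) σ (by omega) _ _ _ _ e.1.symm ((h2.adj q hq t ht).2 e.1).symm
          (lab t ht).symm (lab q hq).symm e.2.2⟩) ⟨a4, rfl, z, a5⟩ a6
    obtain ⟨k1, k2⟩ := BF.add (ρ := r + 1 + σ.length) hj (by omega)
      (h3.mono (fun _ _ e => e) (by omega)) (by omega) (a := q.1) (a' := q.2) hq a6 m4 a4 m1 m2.symm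
    have := card_insert_le (c, c') Λ
    obtain ⟨Λ', s1, s2, s3, s4, -⟩ := grow hj (by omega) σ _ q.1 c q.2 c' k1 (by omega)
      (mem_insert_self _ _) (by simp only [forall_mem_insert]; exact ⟨by simp, k2⟩) a5 m3
    exact ⟨z', Λ', (subset_insert _ _).trans s1, by omega, s3.mono (fun _ _ e => e) (by omega), s4⟩
  · obtain ⟨z', k1, k2⟩ : ∃ z', χ z' = χ z ∧
        ∀ q ∈ Λ, ¬ Nr (G j).Adj Set.univ q.2 (r + 1) z' := by
      rcases c2 (χ z) with e | e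
      · obtain ⟨f⟩ : Nonempty (Λ ↪ Fin N) :=
          Function.Embedding.nonempty_of_card_le (by simpa using h1)
        obtain ⟨z', k1, k2⟩ := e (Function.extend f (fun q => q.1.2) fun _ => z)
        refine ⟨z', k1, fun q hq => ?_⟩
        have := k2 (f ⟨q, hq⟩)
        rwa [f.injective.extend_apply] at this
      · obtain ⟨i, y, y1, y2⟩ := e z rfl
        refine ⟨z, rfl, fun q hq e => near ⟨q, hq, ?_⟩⟩
        have : (χ z, i) ∈ {p : L × Fin N | ∃ y ∈ Y p.1 p.2,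
            Nr (G j).Adj Set.univ y (2 * r + 2) q.2} := ⟨y, y1, (y2.tr (sy e)).mono (by omega)⟩
        obtain ⟨y', y3, y4⟩ := (Set.ext_iff.1 (congrArg Prod.snd (h2.lab q hq)) _).2 this
        rw [c1 _ _ y3 y1] at y4
        exact ((sy y4).tr y2).mono (by omega)
    have := card_insert_le (z, z') Λ
    exact ⟨z', _, subset_insert _ _, by omega, BF.far (h3.mono (fun _ _ e => e) (by omega))
      (fun q hq e => near ⟨q, hq, e.mono (by omega)⟩) k2 k1.symm, mem_insert_self _ _⟩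

/-- push-forward of a family -/
def Push {U : J → Type} {K : Type} (f : ∀ j, U j → V j) (κ : ∀ j, U j → K) {n : ℕ}
    (P : ∀ j, (Fin n → U j) → Prop) (k : Fin n → K) (j : J) (x : Fin n → V j) : Prop :=
  ∃ u : Fin n → U j, (∀ i, f j (u i) = x i ∧ κ j (u i) = k i) ∧ P j u

theorem FO.push {U : J → Type} {K : Type} [Finite K] (f : ∀ j, U j → V j) (κ : ∀ j, U j → K)
    (hf : ∀ j u v, f j u = f j v → κ j u = κ j v → u = v) {S : (∀ j, U j → U j → Prop) → Prop}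
    (hS : ∀ R, S R → ∀ k, TL G (Push f κ (fun j (x : Fin 2 → U j) => R j (x 0) (x 1)) k))
    {P : ∀ j, (Fin n → U j) → Prop} (h : FO S n P) : ∀ k, TL G (Push f κ P k) := by
  have dom : ∀ {n} (k : Fin n → K), TL G fun j x => ∀ i, ∃ u, f j u = x i ∧ κ j u = k i :=
    fun k => tl_all fun i => tl_col (fun j v => ∃ u, f j u = v ∧ κ j u = k i) i
  have un : ∀ {n j} {k : Fin n → K} {x : Fin n → V j} {u v : Fin n → U j},
      (∀ i, f j (u i) = x i ∧ κ j (u i) = k i) → (∀ i, f j (v i) = x i ∧ κ j (v i) = k i) →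
      u = v := fun a b => funext fun i =>
    hf _ _ _ ((a i).1.trans (b i).1.symm) ((a i).2.trans (b i).2.symm)
  induction h with
  | rel R h a b =>
    refine fun k => (tl_and (dom k) ((hS R h ![k a, k b]).re ![a, b])).iff fun j x =>
      ⟨fun ⟨p, v, q1, q2⟩ => ?_, fun ⟨u, q1, q2⟩ => ⟨fun i => ⟨_, q1 i⟩, ![u a, u b],
        fun i => by fin_cases i <;> exact q1 _, q2⟩⟩
    choose u hu using p
    refine ⟨u, hu, ?_⟩
    show R j (u a) (u b)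
    rwa [hf _ _ _ ((hu a).1.trans (q1 0).1.symm) ((hu a).2.trans (q1 0).2.symm),
      hf _ _ _ ((hu b).1.trans (q1 1).1.symm) ((hu b).2.trans (q1 1).2.symm)]
  | eq a b =>
    refine fun k => (tl_and (dom k) (tl_and (tl_eq a b) (tl_col (fun _ _ => k a = k b) a))).iff
      fun j x => ⟨fun ⟨p, q1, q2⟩ => ?_, fun ⟨u, q1, q2⟩ => ⟨fun i => ⟨_, q1 i⟩,
        by rw [← (q1 a).1, q2, (q1 b).1], by rw [← (q1 a).2, q2, (q1 b).2]⟩⟩
    choose u hu using p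
    exact ⟨u, hu, hf _ _ _ (by rw [(hu a).1, q1, (hu b).1]) (by rw [(hu a).2, q2, (hu b).2])⟩
  | un C a =>
    refine fun k => (tl_and (dom k)
      (tl_col (fun j v => ∃ u, f j u = v ∧ κ j u = k a ∧ C j u) a)).iff
      fun j x => ⟨fun ⟨p, v, q1, q2, q3⟩ => ?_, fun ⟨u, q1, q2⟩ => ⟨fun i => ⟨_, q1 i⟩,
        _, (q1 a).1, (q1 a).2, q2⟩⟩
    choose u hu using p
    exact ⟨u, hu, show C j (u a) by
      rwa [hf _ _ _ ((hu a).1.trans q1.symm) ((hu a).2.trans q2.symm)]⟩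
  | not _ ih =>
    refine fun k => (tl_and (dom k) (tl_not (ih k))).iff fun j x =>
      ⟨fun ⟨p, q⟩ => ?_, fun ⟨u, q1, q2⟩ => ⟨fun i => ⟨_, q1 i⟩,
        fun ⟨v, q3, q4⟩ => q2 (un q3 q1 ▸ q4)⟩⟩
    choose u hu using p
    exact ⟨u, hu, fun e => q ⟨u, hu, e⟩⟩
  | and _ _ ih ih' =>
    exact fun k => (tl_and (ih k) (ih' k)).iff fun j x =>
      ⟨fun ⟨⟨u, q1, q2⟩, v, q3, q4⟩ => ⟨u, q1, q2, un q3 q1 ▸ q4⟩,
        fun ⟨u, q1, q2, q3⟩ => ⟨⟨u, q1, q2⟩, u, q1, q3⟩⟩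
  | ex _ ih =>
    refine fun k => (tl_any fun l => tl_ex (ih (Fin.cons l k))).iff fun j x =>
      ⟨fun ⟨l, z, u, q1, q2⟩ => ⟨Fin.tail u, fun i => q1 i.succ, u 0, by rwa [Fin.cons_self_tail]⟩,
        fun ⟨u, q1, z, q2⟩ => ⟨κ j z, f j z, Fin.cons z u,
          fun i => Fin.cases ⟨rfl, rfl⟩ (fun i => q1 i) i, q2⟩⟩

end Pool.Agent.H89.SP
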