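import Mathlib
import Pool.Agent.H89.SP2

set_option autoImplicit false

namespace Pool.Agent.H89.SP

open Finset TG
open scoped Classical

section
variable {ι X : Type} [Fintype ι] [DecidableEq ι] [Fintype X]

theorem idt (A : Finset (ι → X)) (j : ι) : A.card * Fintype.card X =
    ∑ ω : ι → X, (univ.filter fun x => Function.update ω j x ∈ A).card := by
  have : ∑ ω : ι → X, (univ.filter fun x => Function.update ω j x ∈ A).card =
      (univ.filter fun p : (ι → X) × X => Function.update p.1 j p.2 ∈ A).card := by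
    simp only [card_filter, Fintype.sum_prod_type]
  rw [this, ← card_univ, ← card_product]
  refine card_bij' (fun p _ => (Function.update p.1 j p.2, p.1 j))
    (fun p _ => (Function.update p.1 j p.2, p.1 j)) (fun p hp => ?_) (fun p hp => ?_)
    (fun p _ => by simp) fun p _ => by simp
  · simpa using (mem_product.1 hp).1
  · simpa using (mem_filter.1 hp).2

theorem lo (A A' : Finset (ι → X)) (j : ι) (a : ℕ)
    (h : ∀ ω ∈ A, ∃ F : Finset X, a ≤ F.card ∧ ∀ x ∈ F, Function.update ω j x ∈ A') :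
    A.card * a ≤ A'.card * Fintype.card X := by
  rw [idt A' j]
  refine (card_nsmul_le_sum A _ a fun ω hω => ?_).trans (sum_le_sum_of_subset (subset_univ _))
  obtain ⟨F, f1, f2⟩ := h ω hω
  exact f1.trans (card_le_card fun x hx => mem_filter.2 ⟨mem_univ _, f2 x hx⟩)

theorem multi (T : Finset ι) (S : (ι → X) → Finset X) (a : ℕ) (h1 : ∀ ω, (S ω).card ≤ a)
    (h2 : ∀ ω, ∀ j ∈ T, ∀ x, S (Function.update ω j x) = S ω) (T' : Finset ι) (hT : T' ⊆ T) :
    (univ.filter fun ω : ι → X => ∀ i ∈ T', ω i ∈ S ω).card * Fintype.card X ^ T'.card ≤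
      a ^ T'.card * Fintype.card X ^ Fintype.card ι := by
  induction T' using Finset.induction_on with
  | empty => simp
  | insert j T' hj ih =>
    have e := ih ((subset_insert _ _).trans hT)
    have jT := hT (mem_insert_self _ _)
    have : (univ.filter fun ω : ι → X => ∀ i ∈ insert j T', ω i ∈ S ω).card * Fintype.card X ≤
        a * (univ.filter fun ω : ι → X => ∀ i ∈ T', ω i ∈ S ω).card := by
      rw [idt _ j, card_filter, mul_sum]
      refine sum_le_sum fun ω _ => ?_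
      split_ifs with k
      · refine le_trans (card_le_card fun x hx => ?_) ((h1 ω).trans (by omega))
        simpa [h2 ω j jT] using (mem_filter.1 (mem_filter.1 hx).2).2 j (mem_insert_self _ _)
      · rw [mul_zero, Nat.le_zero, card_eq_zero, filter_eq_empty_iff]
        refine fun x _ q => k fun i hi => ?_
        have := (mem_filter.1 q).2 i (mem_insert_of_mem hi)
        rwa [h2 ω j jT, Function.update_of_ne (fun e : i = j => hj (e ▸ hi))] at this
    rw [card_insert_of_notMem hj, pow_succ', pow_succ', ← mul_assoc, mul_assoc a]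
    exact (Nat.mul_le_mul_right _ this).trans (by rw [mul_assoc]; exact Nat.mul_le_mul_left _ e)

theorem multi' (T : Finset ι) (S : (ι → X) → Finset X) (a : ℕ) (h1 : ∀ ω, (S ω).card ≤ a)
    (h2 : ∀ ω, ∀ j ∈ T, ∀ x, S (Function.update ω j x) = S ω) (A : Finset (ι → X))
    (hA : ∀ ω ∈ A, ∀ i ∈ T, ω i ∈ S ω) :
    A.card * Fintype.card X ^ T.card ≤ a ^ T.card * Fintype.card X ^ Fintype.card ι :=
  le_trans (Nat.mul_le_mul_right _ (card_le_card fun ω h => mem_filter.2 ⟨mem_univ _, hA ω h⟩))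
    (multi T S a h1 h2 T Subset.rfl)

theorem uni (j : ι) (S : (ι → X) → Finset X) (a : ℕ) (h1 : ∀ ω, (S ω).card ≤ a)
    (h2 : ∀ ω x, S (Function.update ω j x) = S ω) (A : Finset (ι → X))
    (hA : ∀ ω ∈ A, ω j ∈ S ω) :
    A.card * Fintype.card X ≤ a * Fintype.card X ^ Fintype.card ι := by
  simpa using multi' {j} S a h1 (by simpa using h2) A (by simpa using hA)

end

/-- degree bound -/
def Dg {V : Type} (G : SimpleGraph V) (D : ℕ) : Prop :=
  ∀ x, ∃ F : Finset V, F.card ≤ D ∧ ∀ y, G.Adj x y → y ∈ F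

theorem Dg.ball {V : Type} {G : SimpleGraph V} {D : ℕ} (h : Dg G D) (x : V) (ρ : ℕ) :
    ∃ F : Finset V, F.card ≤ (D + 1) ^ ρ ∧ ∀ y, Nr G.Adj Set.univ x ρ y → y ∈ F := by
  choose N n1 n2 using h
  induction ρ with
  | zero => exact ⟨{x}, by simp, fun y k => by cases k; simp⟩
  | succ ρ ih =>
    obtain ⟨F, f1, f2⟩ := ih
    refine ⟨F ∪ F.biUnion N, (card_union_le _ _).trans ?_, fun y k => ?_⟩
    · have := card_biUnion_le_card_mul F N _ fun k _ => n1 k
      rw [pow_succ]; nlinarith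
    · cases k with
      | refl => exact mem_union_left _ (f2 _ (Nr.refl _))
      | step k a _ _ => exact mem_union_right _ (mem_biUnion.2 ⟨_, f2 _ k, n2 _ _ a⟩)

theorem star {V : Type} {G G' : SimpleGraph V} {β : V} {E : Set V} {g : ℕ}
    (h : ∀ p q, G'.Adj p q ↔ G.Adj p q ∨ (p = β ∧ q ∈ E) ∨ (q = β ∧ p ∈ E))
    (h0 : ∀ q, ¬ G.Adj β q) (h1 : ∀ e ∈ E, ∀ e' ∈ E, Nr G.Adj Set.univ e (g + 2) e' → e = e')
    (hg : Acyc G g) : Acyc G' g := by
  have old : ∀ p q, G'.Adj p q → p ≠ β → q ≠ β → G.Adj p q := fun p q k a b => by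
    rcases (h p q).1 k with k | k | k
    exacts [k, absurd k.1 a, absurd k.1 b]
  have ent : ∀ p, G'.Adj p β → p ∈ E := fun p k => by
    rcases (h p β).1 k with e | e | e
    exacts [absurd e.symm (h0 p), absurd e.1 k.ne, e.2]
  have W : ∀ (S : Set V) a d b, a ≠ β → Nr G'.Adj S a d b → (b ≠ β ∧ Nr G.Adj S a d b) ∨
      ∃ e ∈ E, ∃ d1 d2, d1 + d2 ≤ d ∧ Nr G.Adj S a d1 e ∧ Nr G'.Adj S β d2 b := by
    intro S a d b ha k
    induction k with
    | refl => exact Or.inl ⟨ha, Nr.refl _⟩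
    | @step d y w _ p q r ih =>
      rcases ih with k | ⟨e, k1, d1, d2, k2, k3, k4⟩
      · by_cases e : w = β
        · exact Or.inr ⟨y, ent y (e ▸ p), d, 0, by omega, k.2, e ▸ Nr.refl _⟩
        · exact Or.inl ⟨e, k.2.step (old _ _ p k.1 e) q r⟩
      · exact Or.inr ⟨e, k1, d1, d2 + 1, by omega, k3, k4.step p q r⟩
  have u : ∀ {S : Set V} {a d b}, Nr G.Adj S a d b → Nr G.Adj Set.univ a d b :=
    fun k => k.sub (Set.subset_univ _)
  have o : ∀ {a b}, G.Adj a b → Nr G.Adj Set.univ a 1 b :=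
    fun k => one k (Set.mem_univ _) (Set.mem_univ _)
  have mix : ∀ z b, z ≠ β → b ≠ β → G'.Adj z β → G'.Adj z b → ¬ Nr G'.Adj {z}ᶜ b g β := by
    intro z b hz hb p q k
    obtain ⟨e, k1, d1, d2, k2, k3, -⟩ := (W _ _ _ _ hb k).resolve_left fun k => k.1 rfl
    have := h1 z (ent z p) e k1 (((o (old _ _ q hz hb)).tr (u k3)).mono (by omega))
    subst this
    rcases k3.mem with k | k
    · exact q.ne k.symm
    · exact k.2 rfl
  intro z a b p q k
  by_cases hz : z = β
  · subst hz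
    rcases W _ _ _ _ p.ne' k with k | ⟨e, k1, d1, d2, k2, k3, k4⟩
    · exact h1 a (ent a p.symm) b (ent b q.symm) ((u k.2).mono (by omega))
    · rcases k4.mem with k | k
      · exact absurd k q.ne
      · exact absurd rfl k.1
  by_cases ha : a = β <;> by_cases hb : b = β
  · rw [ha, hb]
  · exact absurd (ha ▸ sy k) (mix z b hz hb (ha ▸ p) q)
  · exact absurd (hb ▸ k) (mix z a hz ha (hb ▸ q) p)
  have p' := old _ _ p hz ha
  have q' := old _ _ q hz hb
  rcases W _ _ _ _ ha k with k | ⟨e, k1, d1, d2, k2, k3, k4⟩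
  · exact hg z a b p' q' k.2
  obtain ⟨e', m1, d3, d4, m2, m3, -⟩ := (W _ _ _ _ hb (sy k4)).resolve_left fun k => k.1 rfl
  have := h1 e k1 e' m1 (((((sy (u k3)).tr (o p'.symm)).tr (o q')).tr (u m3)).mono (by omega))
  subst this
  exact hg z a b p' q' ((k3.tr (sy m3)).mono (by omega))

variable {n M D : ℕ}

/-- incidence graph -/
def inc (ω : Fin M → Fin D → Fin n) (I : Set (Fin M)) : SimpleGraph (Fin n ⊕ Fin M) where
  Adj x y := ∃ i ∈ I, ∃ j, (x = .inl (ω i j) ∧ y = .inr i) ∨ (y = .inl (ω i j) ∧ x = .inr i)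
  symm := ⟨fun _ _ ⟨i, h, j, k⟩ => ⟨i, h, j, k.symm⟩⟩
  loopless := ⟨fun _ ⟨_, _, _, k⟩ => by rcases k with ⟨rfl, k⟩ | ⟨rfl, k⟩ <;> cases k⟩

theorem inc_congr {ω ω' : Fin M → Fin D → Fin n} {I : Set (Fin M)} (h : ∀ i ∈ I, ω i = ω' i) :
    inc ω I = inc ω' I := by
  ext x y
  exact exists_congr fun i => and_congr_right fun hi => by rw [h i hi]

/-- edges at a vertex -/
noncomputable def dS (ω : Fin M → Fin D → Fin n) (I : Set (Fin M)) (v : Fin n) : Finset (Fin M) :=
  univ.filter fun i => i ∈ I ∧ ∃ j, ω i j = v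

theorem mem_dS {ω : Fin M → Fin D → Fin n} {I : Set (Fin M)} {v : Fin n} {i : Fin M} :
    i ∈ dS ω I v ↔ i ∈ I ∧ ∃ j, ω i j = v := by simp [dS]

/-- degree of a vertex -/
noncomputable def dg (ω : Fin M → Fin D → Fin n) (I : Set (Fin M)) (v : Fin n) : ℕ :=
  (dS ω I v).card

theorem inc_dg {ω : Fin M → Fin D → Fin n} {I I' : Set (Fin M)} {Δ : ℕ} (h : ∀ v, dg ω I v ≤ Δ)
    (hI : I' ⊆ I) : Dg (inc ω I') (Δ + D) := by
  rintro (v | i)
  · refine ⟨(dS ω I v).image .inr,
      card_image_le.trans ((h v).trans (by omega)), ?_⟩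
    rintro _ ⟨i, hi, j, ⟨e, rfl⟩ | ⟨-, e⟩⟩
    · exact mem_image_of_mem _ (mem_dS.2 ⟨hI hi, j, (Sum.inl.inj e).symm⟩)
    · cases e
  · refine ⟨univ.image fun j => .inl (ω i j), card_image_le.trans (by simp), ?_⟩
    rintro _ ⟨i', hi, j, ⟨e, -⟩ | ⟨rfl, e⟩⟩
    · cases e
    · cases e; exact mem_image_of_mem _ (mem_univ j)

/-- good configurations -/
def Good (g Δ : ℕ) (ω : Fin M → Fin D → Fin n) (I : Set (Fin M)) : Prop :=
  Acyc (inc ω I) g ∧ (∀ i ∈ I, Function.Injective (ω i)) ∧ ∀ v, dg ω I v ≤ Δ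

theorem Good.step {g Δ : ℕ} {ω : Fin M → Fin D → Fin n} {I : Set (Fin M)} (h : Good g Δ ω I)
    {i : Fin M} (hi : i ∉ I) (x : Fin D → Fin n) (h1 : ∀ j, dg ω I (x j) < Δ)
    (h2 : ∀ j j', Nr (inc ω I).Adj Set.univ (.inl (x j)) (g + 2) (.inl (x j')) → j = j') :
    Good g Δ (Function.update ω i x) (insert i I) := by
  have ne : ∀ t ∈ I, Function.update ω i x t = ω t := fun t ht =>
    Function.update_of_ne (fun e : t = i => hi (e ▸ ht)) _ _
  refine ⟨star (β := .inr i) (E := Set.range fun j => .inl (x j)) (fun p q => ?_) ?_ ?_ h.1,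
    ?_, fun v => ?_⟩
  · constructor
    · rintro ⟨t, rfl | ht, j, k⟩
      · rw [Function.update_self] at k
        exact Or.inr (k.symm.imp (fun k => ⟨k.2, j, k.1.symm⟩) fun k => ⟨k.2, j, k.1.symm⟩)
      · exact Or.inl ⟨t, ht, j, by rwa [ne t ht] at k⟩
    · rintro (⟨t, ht, j, k⟩ | ⟨rfl, j, rfl⟩ | ⟨rfl, j, rfl⟩)
      · exact ⟨t, Or.inr ht, j, by rwa [ne t ht]⟩
      · exact ⟨i, Or.inl rfl, j, Or.inr (by simp)⟩
      · exact ⟨i, Or.inl rfl, j, Or.inl (by simp)⟩
  · rintro q ⟨t, ht, j, ⟨e, -⟩ | ⟨-, e⟩⟩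
    · cases e
    · cases e; exact hi ht
  · rintro _ ⟨j, rfl⟩ _ ⟨j', rfl⟩ k
    rw [h2 j j' k]
  · rintro t (rfl | ht)
    · rw [Function.update_self]
      exact fun j j' e => h2 j j' (e ▸ Nr.refl _)
    · rw [ne t ht]; exact h.2.1 t ht
  · by_cases e : ∃ j, x j = v
    · obtain ⟨j, rfl⟩ := e
      refine le_trans (card_le_card (t := insert i (dS ω I (x j)))
        fun t ht => ?_) ((card_insert_le _ _).trans (h1 j))
      rcases mem_dS.1 ht with ⟨rfl | k, k'⟩
      · exact mem_insert_self _ _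
      · exact mem_insert_of_mem (mem_dS.2 ⟨k, by rwa [ne t k] at k'⟩)
    · refine le_trans (card_le_card fun t ht => ?_) (h.2.2 v)
      rcases mem_dS.1 ht with ⟨rfl | k, k'⟩
      · exact absurd (by rwa [Function.update_self] at k') e
      · exact mem_dS.2 ⟨k, by rwa [ne t k] at k'⟩

theorem inl_ball {G : SimpleGraph (Fin n ⊕ Fin M)} {E : ℕ} (h : Dg G E) (ρ : ℕ) (v : Fin n) :
    (univ.filter fun u => Nr G.Adj Set.univ (.inl v) ρ (.inl u)).card ≤ (E + 1) ^ ρ := by
  obtain ⟨F, f1, f2⟩ := h.ball (.inl v) ρ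
  exact (card_le_card_of_injOn Sum.inl (fun u hu => f2 _ (mem_filter.1 hu).2)
    Sum.inl_injective.injOn).trans f1

theorem Good.many {g Δ q K : ℕ} {ω : Fin M → Fin D → Fin n} {I : Set (Fin M)} (h : Good g Δ ω I)
    {i : Fin M} (hi : i ∉ I) (hM : M = K * n) (hΔ : Δ = 8 * q * K * D * D + 1) (hq : 0 < q)
    (hn : 8 * q * (D * D * (Δ + D + 1) ^ (g + 2)) < n) :
    n ^ D - n ^ D / (4 * q) ≤
      (univ.filter fun x => Good g Δ (Function.update ω i x) (insert i I)).card := by
  let Hi := univ.filter fun v => Δ ≤ dg ω I v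
  have e1 : Hi.card * Δ ≤ M * D := by
    have : ∑ v, dg ω I v ≤ M * D := by
      simp only [dg, dS, card_filter]
      rw [sum_comm]
      refine (sum_le_card_nsmul _ _ D fun t _ => ?_).trans (by simp)
      rw [← card_filter]
      refine (card_le_card (t := univ.image (ω t)) fun v hv => ?_).trans
        (card_image_le.trans (by simp))
      obtain ⟨j, e⟩ := (mem_filter.1 hv).2.2
      exact mem_image.2 ⟨j, mem_univ _, e⟩
    refine le_trans ?_ ((sum_le_sum_of_subset (subset_univ Hi)).trans this)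
    simpa using card_nsmul_le_sum Hi _ Δ fun v hv => (mem_filter.1 hv).2
  have e2 : 8 * q * (D * Hi.card) ≤ n := by
    by_contra k
    have : (n + 1) * Δ ≤ 8 * q * (D * Hi.card) * Δ := Nat.mul_le_mul_right _ (by omega)
    have : 8 * q * D * (Hi.card * Δ) ≤ 8 * q * D * (M * D) := Nat.mul_le_mul_left _ e1
    have e : (n + 1) * Δ = 8 * q * D * (M * D) + (8 * q * K * D * D + n + 1) := by
      rw [hM, hΔ]; ring
    have e' : 8 * q * (D * Hi.card) * Δ = 8 * q * D * (Hi.card * Δ) := by ring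
    omega
  let B1 : Fin D → Finset (Fin D → Fin n) := fun j => univ.filter fun x => x j ∈ Hi
  let B2 : Fin D × Fin D → Finset (Fin D → Fin n) := fun p => univ.filter fun x => x p.2 ∈
    univ.filter fun u => p.1 ≠ p.2 ∧ Nr (inc ω I).Adj Set.univ (.inl (x p.1)) (g + 2) (.inl u)
  have e3 : ∀ j, (B1 j).card * n ≤ Hi.card * n ^ D := fun j => by
    simpa using uni j (fun _ => Hi) _ (fun _ => le_rfl) (fun _ _ => rfl) (B1 j)
      fun _ h => (mem_filter.1 h).2
  have e4 : ∀ p, (B2 p).card * n ≤ (Δ + D + 1) ^ (g + 2) * n ^ D := fun p => by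
    have := uni p.2 (fun x : Fin D → Fin n => univ.filter fun u => p.1 ≠ p.2 ∧
      Nr (inc ω I).Adj Set.univ (.inl (x p.1)) (g + 2) (.inl u)) ((Δ + D + 1) ^ (g + 2))
      (fun x => le_trans (card_le_card fun u hu => mem_filter.2 ⟨mem_univ _, (mem_filter.1 hu).2.2⟩)
        (inl_ball (inc_dg h.2.2 subset_rfl) _ _)) (fun x y =>
      filter_congr fun u _ => and_congr_right fun k => by rw [Function.update_of_ne k]) (B2 p)
      fun _ h => (mem_filter.1 h).2
    simpa using this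
  let B := univ.biUnion B1 ∪ univ.biUnion B2
  have e5 : B.card * n ≤ (D * Hi.card + D * D * (Δ + D + 1) ^ (g + 2)) * n ^ D := by
    have a1 : (univ.biUnion B1).card * n ≤ D * Hi.card * n ^ D := by
      refine (Nat.mul_le_mul_right _ card_biUnion_le).trans ?_
      rw [sum_mul]
      exact (sum_le_card_nsmul _ _ _ fun j _ => e3 j).trans (by simp [mul_assoc])
    have a2 : (univ.biUnion B2).card * n ≤ D * D * (Δ + D + 1) ^ (g + 2) * n ^ D := by
      refine (Nat.mul_le_mul_right _ card_biUnion_le).trans ?_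
      rw [sum_mul]
      exact (sum_le_card_nsmul _ _ _ fun j _ => e4 j).trans (by simp [mul_assoc])
    have := Nat.mul_le_mul_right n (card_union_le (univ.biUnion B1) (univ.biUnion B2))
    nlinarith
  have e6 : B.card ≤ n ^ D / (4 * q) := by
    rw [Nat.le_div_iff_mul_le (by omega)]
    refine Nat.le_of_mul_le_mul_right (c := n) ?_ (by omega)
    have : 4 * q * (D * Hi.card + D * D * (Δ + D + 1) ^ (g + 2)) ≤ n := by nlinarith
    have := Nat.mul_le_mul_right (n ^ D) this
    nlinarith [Nat.mul_le_mul_left (4 * q) e5]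
  have e7 : Bᶜ ⊆ univ.filter fun x => Good g Δ (Function.update ω i x) (insert i I) := by
    intro x hx
    rw [mem_compl, mem_union, not_or] at hx
    refine mem_filter.2 ⟨mem_univ _, h.step hi x (fun j => lt_of_not_ge fun k => hx.1 ?_)
      fun j j' k => by_contra fun e => hx.2 ?_⟩
    · exact mem_biUnion.2 ⟨j, mem_univ _, by simpa [B1, Hi] using k⟩
    · exact mem_biUnion.2 ⟨(j, j'), mem_univ _, by simpa [B2] using ⟨e, k⟩⟩
  have := card_le_card e7
  rw [card_compl] at this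
  simp only [Fintype.card_fun, Fintype.card_fin] at this
  omega

theorem good_count {g Δ q K : ℕ} (hM : M = K * n) (hΔ : Δ = 8 * q * K * D * D + 1) (hq : 0 < q)
    (hn : 8 * q * (D * D * (Δ + D + 1) ^ (g + 2)) < n) :
    (n ^ D - n ^ D / (4 * q)) ^ M ≤
      (univ.filter fun ω : Fin M → Fin D → Fin n => Good g Δ ω Set.univ).card := by
  have : ∀ j ≤ M, (n ^ D - n ^ D / (4 * q)) ^ j * (n ^ D) ^ M ≤ (univ.filter
      fun ω : Fin M → Fin D → Fin n => Good g Δ ω {i | i.1 < j}).card * (n ^ D) ^ j := by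
    intro j hj
    induction j with
    | zero =>
      rw [filter_true_of_mem fun ω _ => ?_]
      · simp
      · refine ⟨fun z a b k => ?_, by simp, by simp [dg, dS]⟩
        obtain ⟨i, hi, -⟩ := k
        simp at hi
    | succ j ih =>
      have e : ({i | i.1 < j + 1} : Set (Fin M)) = insert ⟨j, hj⟩ {i | i.1 < j} := by
        ext i; simp [Fin.ext_iff]; omega
      have e3 := lo (univ.filter fun ω : Fin M → Fin D → Fin n => Good g Δ ω {i | i.1 < j})
        (univ.filter fun ω : Fin M → Fin D → Fin n => Good g Δ ω {i | i.1 < j + 1}) ⟨j, hj⟩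
        (n ^ D - n ^ D / (4 * q)) fun ω hω => by
        have := (mem_filter.1 hω).2.many (i := ⟨j, hj⟩) (by simp) hM hΔ hq hn
        rw [← e] at this
        exact ⟨_, this, fun x hx => mem_filter.2 ⟨mem_univ _, (mem_filter.1 hx).2⟩⟩
      simp only [Fintype.card_fun, Fintype.card_fin] at e3
      rw [pow_succ', mul_assoc, pow_succ', ← mul_assoc _ (n ^ D)]
      refine (Nat.mul_le_mul_left _ (ih (by omega))).trans ?_
      rw [← mul_assoc, mul_comm (_ - _)]
      exact Nat.mul_le_mul_right _ e3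
  have := this M le_rfl
  rw [show ({i | i.1 < M} : Set (Fin M)) = Set.univ by ext i; simp] at this
  exact Nat.le_of_mul_le_mul_right this (by have : 0 < n := by omega
                                            positivity)

end Pool.Agent.H89.SP
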