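import Mathlib
import Pool.Agent.H89.SP3

set_option autoImplicit false

namespace Pool.Agent.H89.SP

open Finset TG
open scoped Classical

theorem failC {X : Type} [Fintype X] {M : ℕ} (S : Finset X) (t : ℕ) (A : Finset (Fin M → X))
    (hA : ∀ ω ∈ A, ∀ T : Finset (Fin M), (∀ i ∈ T, ω i ∈ S) → T.card < t) :
    (A.card : ℝ) * (1 / 2) ^ t ≤ (Fintype.card X - S.card / 2) ^ M := by
  let w : X → ℝ := fun x => if x ∈ S then 1 / 2 else 1
  have e : ∑ x, w x = Fintype.card X - S.card / 2 := by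
    have : ∀ x, w x = 1 - if x ∈ S then 1 / 2 else 0 := fun x => by
      simp only [w]; split_ifs <;> norm_num
    simp only [this, sum_sub_distrib, sum_const, card_univ, nsmul_eq_mul, mul_one]
    rw [← sum_filter, sum_const, filter_mem_eq_inter, univ_inter, nsmul_eq_mul]
    ring
  rw [← e, Fintype.sum_pow]
  refine le_trans ?_ (sum_le_sum_of_subset_of_nonneg (subset_univ A) fun ω _ _ =>
    prod_nonneg fun i _ => by simp only [w]; split_ifs <;> norm_num)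
  rw [← nsmul_eq_mul]
  refine card_nsmul_le_sum _ _ _ fun ω hω => ?_
  simp only [w]
  rw [prod_ite, prod_const, prod_const, one_pow, mul_one]
  exact pow_le_pow_of_le_one (by norm_num) (by norm_num)
    (hA ω hω _ fun i hi => (mem_filter.1 hi).2).le

theorem failD {n M d g Δ k ρ : ℕ} (T : Finset (Fin M)) (π : Fin n → Fin n)
    (hπ : ∀ v, ∃ F : Finset (Fin n), F.card ≤ k ∧ ∀ u, π u = v → u ∈ F)
    (A : Finset (Fin M → Fin (d + 1) → Fin n))
    (hA : ∀ ω ∈ A, Good g Δ ω Set.univ ∧ ∀ i ∈ T, ∀ j,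
      Nr (inc ω (↑T)ᶜ).Adj Set.univ (.inl (π (ω i 0))) ρ (.inl (π (ω i j)))) :
    A.card * (n ^ (d + 1)) ^ T.card ≤
      (n * ((Δ + (d + 1) + 1) ^ ρ * k) ^ d) ^ T.card * (n ^ (d + 1)) ^ M := by
  choose F f1 f2 using hπ
  let S : SimpleGraph (Fin n ⊕ Fin M) → Finset (Fin (d + 1) → Fin n) := fun G =>
    univ.filter fun x => Dg G (Δ + (d + 1)) ∧
      ∀ j, Nr G.Adj Set.univ (.inl (π (x 0))) ρ (.inl (π (x j)))
  have := multi' T (fun ω => S (inc ω (↑T)ᶜ)) (n * ((Δ + (d + 1) + 1) ^ ρ * k) ^ d)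
    (fun ω => ?_) (fun ω j hj x => congrArg S (inc_congr fun i hi =>
      Function.update_of_ne (fun e : i = j => hi (e ▸ hj)) _ _)) A fun ω hω i hi =>
    mem_filter.2 ⟨mem_univ _, inc_dg (hA ω hω).1.2.2 (Set.subset_univ _), (hA ω hω).2 i hi⟩
  · simpa using this
  generalize inc ω (↑T)ᶜ = G
  by_cases h : Dg G (Δ + (d + 1))
  swap
  · rw [show S G = ∅ from filter_eq_empty_iff.2 fun _ _ k => h k.1]; simp
  let W : Fin n → Finset (Fin n) := fun v =>
    (univ.filter fun u => Nr G.Adj Set.univ (.inl (π v)) ρ (.inl u)).biUnion F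
  refine le_trans (card_le_card (t := univ.biUnion fun v =>
    (Fintype.piFinset fun _ : Fin d => W v).image (Fin.cons v)) fun x hx => ?_)
    ((card_biUnion_le_card_mul _ _ (((Δ + (d + 1) + 1) ^ ρ * k) ^ d) fun v _ =>
      card_image_le.trans ?_).trans (by simp))
  · refine mem_biUnion.2 ⟨x 0, mem_univ _, mem_image.2 ⟨Fin.tail x, Fintype.mem_piFinset.2
      fun j => mem_biUnion.2 ⟨_, mem_filter.2 ⟨mem_univ _, (mem_filter.1 hx).2.2 j.succ⟩,
        f2 _ _ rfl⟩, Fin.cons_self_tail x⟩⟩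
  · rw [Fintype.card_piFinset, prod_const, card_univ, Fintype.card_fin]
    exact Nat.pow_le_pow_left ((card_biUnion_le_card_mul _ _ _ fun v _ => f1 v).trans
      (Nat.mul_le_mul_right _ (inl_ball h _ _))) _

theorem HG (c d : ℕ) (hc : 0 < c) (hd : 2 ≤ d) : ∃ Δ : ℕ, ∀ k ρ g N0 : ℕ, ∃ n M : ℕ,
    ∃ ω : Fin M → Fin (d + 1) → Fin n, N0 ≤ n ∧ M ≤ Δ * n ∧ Good g Δ ω Set.univ ∧
      (∀ A B : Finset (Fin n), n ≤ c * A.card → n ≤ c * B.card → ∃ T : Finset (Fin M),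
        2 * n ≤ T.card ∧ ∀ i ∈ T, ω i 0 ∈ A ∧ ∀ j : Fin d, ω i j.succ ∈ B) ∧
      ∀ (T : Finset (Fin M)) (π : Fin n → Fin n), T.card = n →
        (∀ v, ∃ F : Finset (Fin n), F.card ≤ k ∧ ∀ u, π u = v → u ∈ F) → ¬ ∀ i ∈ T, ∀ j,
          Nr (inc ω (↑T)ᶜ).Adj Set.univ (.inl (π (ω i 0))) ρ (.inl (π (ω i j))) := by
  obtain ⟨q, hq⟩ : ∃ q, q = c ^ (d + 1) := ⟨_, rfl⟩
  have q0 : 0 < q := by rw [hq]; positivity
  have q1 : (1 : ℝ) ≤ q := by exact_mod_cast q0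
  obtain ⟨θ, hθ⟩ : ∃ θ : ℝ, θ = 1 - 1 / (4 * q) := ⟨_, rfl⟩
  have t0 : 1 / (4 * q : ℝ) ≤ 1 / 4 := by gcongr; linarith
  have t1 : 0 < 1 / (4 * q : ℝ) := by positivity
  obtain ⟨K, hK⟩ := exists_pow_lt_of_lt_one (show (0 : ℝ) < 1 / 32 by norm_num)
    (show θ < 1 by linarith)
  obtain ⟨Δ, hΔ⟩ : ∃ Δ, Δ = 8 * q * K * (d + 1) * (d + 1) + 1 := ⟨_, rfl⟩
  refine ⟨Δ, fun k ρ g N0 => ?_⟩
  obtain ⟨β, hβ⟩ : ∃ β, β = ((Δ + (d + 1) + 1) ^ ρ * k) ^ d := ⟨_, rfl⟩
  obtain ⟨n, n1, n2, n3⟩ : ∃ n, N0 ≤ n ∧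
      8 * q * ((d + 1) * (d + 1) * (Δ + (d + 1) + 1) ^ (g + 2)) < n ∧ 4 * 4 ^ K * β ≤ n :=
    ⟨N0 + 8 * q * ((d + 1) * (d + 1) * (Δ + (d + 1) + 1) ^ (g + 2)) + 4 * 4 ^ K * β + 1,
      by omega, by omega, by omega⟩
  have n0 : 0 < n := by omega
  refine ⟨n, K * n, ?_⟩
  by_contra h
  push Not at h
  have KΔ : K * n ≤ Δ * n := Nat.mul_le_mul_right _ (by
    rw [hΔ]
    have : K * 1 ≤ K * (8 * q * (d + 1) * (d + 1)) :=
      Nat.mul_le_mul_left _ (Nat.succ_le_of_lt (by positivity))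
    nlinarith)
  obtain ⟨x, hx⟩ : ∃ x : ℝ, x = (n : ℝ) ^ (d + 1) := ⟨_, rfl⟩
  have x0 : 0 < x := by rw [hx]; positivity
  let Gd := univ.filter fun ω : Fin (K * n) → Fin (d + 1) → Fin n => Good g Δ ω Set.univ
  have e1 : (θ * x) ^ (K * n) ≤ Gd.card := by
    refine le_trans (pow_le_pow_left₀ (by rw [hθ]; nlinarith) ?_ _)
      (show ((n ^ (d + 1) - n ^ (d + 1) / (4 * q) : ℕ) : ℝ) ^ (K * n) ≤ _ by
        exact_mod_cast good_count rfl hΔ q0 n2)
    rw [Nat.cast_sub (Nat.div_le_self _ _)]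
    have := Nat.cast_div_le (α := ℝ) (m := n ^ (d + 1)) (n := 4 * q)
    push_cast at this ⊢
    rw [← hx] at this ⊢
    rw [hθ, sub_mul, one_mul, one_div_mul_eq_div]
    linarith
  let FC : Finset (Fin n) × Finset (Fin n) → Finset (Fin (K * n) → Fin (d + 1) → Fin n) :=
    fun p => univ.filter fun ω => n ≤ c * p.1.card ∧ n ≤ c * p.2.card ∧ ∀ T : Finset (Fin (K * n)),
      (∀ i ∈ T, ω i 0 ∈ p.1 ∧ ∀ j : Fin d, ω i j.succ ∈ p.2) → T.card < 2 * n
  let FD : Finset (Fin (K * n)) × (Fin n → Fin n) → Finset (Fin (K * n) → Fin (d + 1) → Fin n) :=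
    fun p => univ.filter fun ω => p.1.card = n ∧
      (∀ v, ∃ F : Finset (Fin n), F.card ≤ k ∧ ∀ u, p.2 u = v → u ∈ F) ∧ Good g Δ ω Set.univ ∧
      ∀ i ∈ p.1, ∀ j, Nr (inc ω (↑p.1)ᶜ).Adj Set.univ (.inl (p.2 (ω i 0))) ρ (.inl (p.2 (ω i j)))
  have e2 : Gd ⊆ univ.biUnion FC ∪ univ.biUnion FD := by
    intro ω hω
    have g1 := (mem_filter.1 hω).2
    by_cases k : ∀ A B : Finset (Fin n), n ≤ c * A.card → n ≤ c * B.card →
        ∃ T : Finset (Fin (K * n)), 2 * n ≤ T.card ∧ ∀ i ∈ T, ω i 0 ∈ A ∧ ∀ j : Fin d, ω i j.succ ∈ B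
    · obtain ⟨T, π, k1, k2, k3⟩ := h ω n1 KΔ g1 k
      exact mem_union_right _ (mem_biUnion.2 ⟨(T, π), mem_univ _,
        mem_filter.2 ⟨mem_univ _, k1, k2, g1, k3⟩⟩)
    · simp only [not_forall, not_exists, not_and] at k
      obtain ⟨A, B, k1, k2, k3⟩ := k
      exact mem_union_left _ (mem_biUnion.2 ⟨(A, B), mem_univ _, mem_filter.2 ⟨mem_univ _, k1, k2,
        fun T hT => lt_of_not_ge fun e => by
          obtain ⟨i, hi, q⟩ := k3 T e
          obtain ⟨j, q⟩ := q (hT i hi).1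
          exact q ((hT i hi).2 j)⟩⟩)
  have θ0 : 1 / 2 ≤ θ := by linarith
  have e3 : ∀ p, ((FC p).card : ℝ) * (1 / 2) ^ (2 * n) ≤ (θ * θ * x) ^ (K * n) := by
    intro p
    rcases (FC p).eq_empty_or_nonempty with e | ⟨ω, hω⟩
    · rw [e]; simp only [card_empty, Nat.cast_zero, zero_mul]; positivity
    obtain ⟨-, k1, k2, -⟩ := mem_filter.1 hω
    let S := Fintype.piFinset (Fin.cons p.1 fun _ : Fin d => p.2 : Fin (d + 1) → Finset (Fin n))
    have s1 : x ≤ q * S.card := by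
      rw [hx, hq, Fintype.card_piFinset, Fin.prod_univ_succ]
      simp only [Fin.cons_zero, Fin.cons_succ, prod_const, card_univ, Fintype.card_fin]
      have := Nat.mul_le_mul k1 (Nat.pow_le_pow_left k2 d)
      rw [mul_pow, ← pow_succ'] at this
      have e : c * p.1.card * (c ^ d * p.2.card ^ d) = c ^ (d + 1) * (p.1.card * p.2.card ^ d) := by
        ring
      rw [e] at this
      exact_mod_cast this
    have s2 : (S.card : ℝ) ≤ x := by
      have := card_le_univ S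
      rw [hx]
      simp only [Fintype.card_fun, Fintype.card_fin] at this
      exact_mod_cast this
    refine (failC S (2 * n) (FC p) fun ω hω T hT => (mem_filter.1 hω).2.2.2 T fun i hi =>
      ⟨Fintype.mem_piFinset.1 (hT i hi) 0, fun j => Fintype.mem_piFinset.1 (hT i hi) j.succ⟩).trans
      ?_
    simp only [Fintype.card_fun, Fintype.card_fin]
    push_cast
    rw [← hx]
    refine pow_le_pow_left₀ (by linarith) ?_ _
    have : 2 * (1 / (4 * q)) * x ≤ S.card / 2 := by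
      rw [show 2 * (1 / (4 * q : ℝ)) * x = x / q / 2 by field_simp; ring]
      gcongr
      rw [div_le_iff₀ (by linarith)]; linarith
    rw [hθ]; nlinarith [mul_pos (mul_pos t1 t1) x0]
  have e4 : ∀ p, ((FD p).card : ℝ) * x ^ n ≤ (n * β) ^ n * x ^ (K * n) := by
    intro p
    rcases (FD p).eq_empty_or_nonempty with e | ⟨ω, hω⟩
    · rw [e]; simp only [card_empty, Nat.cast_zero, zero_mul]; positivity
    obtain ⟨-, k1, k2, -⟩ := mem_filter.1 hω
    have := failD p.1 p.2 k2 (FD p) fun ω hω => (mem_filter.1 hω).2.2.2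
    rw [k1, ← hβ] at this
    rw [hx]
    exact_mod_cast this
  have y0 : 0 < (θ * x) ^ (K * n) := by positivity
  have e5 : ((univ.biUnion FC).card : ℝ) ≤ (θ * x) ^ (K * n) / 2 := by
    have a1 : ((univ.biUnion FC).card : ℝ) ≤ ∑ p, ((FC p).card : ℝ) := by
      exact_mod_cast card_biUnion_le
    have a2 := sum_le_card_nsmul univ (fun p => ((FC p).card : ℝ))
      ((θ * θ * x) ^ (K * n) / (1 / 2) ^ (2 * n)) fun p _ => by
        rw [le_div_iff₀ (by positivity)]; exact e3 p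
    refine a1.trans (a2.trans ?_)
    simp only [card_univ, Fintype.card_prod, Fintype.card_finset, Fintype.card_fin, nsmul_eq_mul]
    push_cast
    have a3 : (2 : ℝ) ^ n * 2 ^ n * ((θ * θ * x) ^ (K * n) / (1 / 2) ^ (2 * n)) =
        (16 * θ ^ K) ^ n * (θ * x) ^ (K * n) := by
      rw [mul_assoc θ, mul_pow θ, pow_mul θ, pow_mul (1 / 2 : ℝ), mul_pow 16,
        show (16 : ℝ) = 2 * 2 / (1 / 2) ^ 2 by norm_num, div_pow (2 * 2), mul_pow 2 2]
      field_simp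
    have a4 : (16 * θ ^ K) ^ n ≤ 1 / 2 :=
      (pow_le_of_le_one (by positivity) (by linarith) n0.ne').trans (by linarith)
    rw [a3]; nlinarith
  have e6 : ((univ.biUnion FD).card : ℝ) ≤ (θ * x) ^ (K * n) / 4 := by
    have a1 : ((univ.biUnion FD).card : ℝ) ≤ ∑ p, ((FD p).card : ℝ) := by
      exact_mod_cast card_biUnion_le
    have a2 := sum_le_card_nsmul univ (fun p => ((FD p).card : ℝ))
      ((n * β) ^ n * x ^ (K * n) / x ^ n) fun p _ => by
        rw [le_div_iff₀ (by positivity)]; exact e4 p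
    refine a1.trans (a2.trans ?_)
    simp only [card_univ, Fintype.card_prod, Fintype.card_finset, Fintype.card_fin, nsmul_eq_mul,
      Fintype.card_fun]
    push_cast
    have a3 : (2 : ℝ) ^ (K * n) * n ^ n * ((n * β) ^ n * x ^ (K * n) / x ^ n) =
        (4 ^ K * n * n * β / x) ^ n * (1 / 2 * x) ^ (K * n) := by
      rw [div_pow, mul_pow, mul_pow, mul_pow, mul_pow, mul_pow, ← pow_mul,
        show (4 : ℝ) = 2 / (1 / 2) by norm_num, div_pow]
      field_simp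
    have a4 : (4 : ℝ) ^ K * n * n * β / x ≤ 1 / 4 := by
      have b1 : (4 : ℝ) * 4 ^ K * β ≤ n := by exact_mod_cast n3
      have b2 : (n : ℝ) ^ 3 ≤ x := by
        rw [hx]; exact pow_le_pow_right₀ (by exact_mod_cast n0) (by omega)
      rw [div_le_iff₀ x0]
      nlinarith [mul_le_mul_of_nonneg_right b1 (mul_self_nonneg (n : ℝ))]
    have a5 : ((4 : ℝ) ^ K * n * n * β / x) ^ n ≤ 1 / 4 :=
      (pow_le_of_le_one (by positivity) (by linarith) n0.ne').trans a4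
    have a6 : (1 / 2 * x) ^ (K * n) ≤ (θ * x) ^ (K * n) := by gcongr
    rw [a3]
    nlinarith [mul_le_mul a5 a6 (by positivity) (by norm_num)]
  have e7 : (Gd.card : ℝ) ≤ (univ.biUnion FC).card + (univ.biUnion FD).card := by
    exact_mod_cast (card_le_card e2).trans (card_union_le _ _)
  linarith

end Pool.Agent.H89.SP
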