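import Mathlib
import Pool.Agent.H89.SP4

set_option autoImplicit false

namespace Pool.Agent.H89.SP

open Finset TG CR
open scoped Classical

section
variable {V L U K : Type} {G : SimpleGraph V} {χ : V → L} {adj : U → U → Prop} {f : U → V}
  {κ : U → K} {r N g : ℕ}

/-- transfer property -/
def Tp (G : SimpleGraph V) (χ : V → L) (r N : ℕ) (adj : U → U → Prop) (f : U → V) (κ : U → K) :
    Prop := ∀ Λ : Finset (V × V), Λ.card ≤ N → BF G χ r Λ → ∀ u v y y', adj u v → (f u, y) ∈ Λ →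
  (f v, y') ∈ Λ → ∃ u' v', f u' = y ∧ f v' = y' ∧ κ u' = κ u ∧ κ v' = κ v ∧ adj u' v'

/-- weak transfer property -/
def Tq (G : SimpleGraph V) (χ : V → L) (r N : ℕ) (adj : U → U → Prop) (f : U → V) (κ : U → K) :
    Prop := (∀ u v, f u = f v → κ u = κ v → u = v) ∧ ∀ Λ : Finset (V × V), Λ.card ≤ N →
  BF G χ r Λ → ∀ u v u' v', adj u v → (f u, f u') ∈ Λ → (f v, f v') ∈ Λ → κ u = κ u' →
    κ v = κ v' → adj u' v'

theorem Tp.tq (h : Tp G χ r N adj f κ) (hi : ∀ u v, f u = f v → κ u = κ v → u = v) :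
    Tq G χ r N adj f κ := by
  refine ⟨hi, fun Λ h1 h2 u v u' v' a b c d e => ?_⟩
  obtain ⟨x, y, k1, k2, k3, k4, k5⟩ := h Λ h1 h2 u v _ _ a b c
  rwa [← hi _ _ k1 (k3.trans d), ← hi _ _ k2 (k4.trans e)]

theorem Tq.res (h : Tq G χ r N adj f κ) {U' : Type} (p : U' → U) (hp : Function.Injective p) :
    Tq G χ r N (fun a b => adj (p a) (p b)) (fun a => f (p a)) fun a => κ (p a) :=
  ⟨fun _ _ a b => hp (h.1 _ _ a b), fun Λ h1 h2 _ _ _ _ => h.2 Λ h1 h2 _ _ _ _⟩

theorem Tq.far (h : Tq G χ r N adj f κ) (hN : 2 ≤ N) {u v u' v' : U} (a : adj u v)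
    (h1 : ¬ Nr G.Adj Set.univ (f u) (r + 1) (f v)) (e1 : (χ (f u), κ u) = (χ (f u'), κ u'))
    (e2 : (χ (f v), κ v) = (χ (f v'), κ v')) (h2 : ¬ Nr G.Adj Set.univ (f u') (r + 1) (f v')) :
    adj u' v' :=
  h.2 (insert (f v, f v') {(f u, f u')}) (card_le_two.trans hN)
    ((BF.single (G := G) (χ := χ) r (Prod.ext_iff.1 e1).1).far (by simpa using h1)
      (by simpa using h2) (Prod.ext_iff.1 e2).1) u v u' v' a (by simp) (by simp) (congrArg Prod.snd e1)
    (congrArg Prod.snd e2)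

theorem Tq.fib [Fintype U] [Fintype K] (h : Tq G χ r N adj f κ) (z : V) :
    (univ.filter fun u => f u = z).card ≤ Fintype.card K :=
  card_le_card_of_injOn κ (fun _ _ => mem_univ _) fun u hu v hv e =>
    h.1 u v ((mem_filter.1 hu).2.trans (mem_filter.1 hv).2.symm) e

end

theorem zlem (K L : Type) [Finite K] [Finite L] (ρ : ℕ) : ∃ c : ℕ, ∀ (V U : Type) [Fintype U]
    (G : SimpleGraph V) (χ : V → L) (adj : U → U → Prop) (f : U → V) (κ : U → K) (r N g Δ : ℕ),
    Acyc G g → 2 * ρ + 3 ≤ g → 2 * ρ + 3 ≤ N → Tq G χ r N adj f κ → (∀ u v, adj u v → adj v u) →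
    (∀ u, (univ.filter (adj u)).card ≤ Δ) → ∀ z, ∃ X : Finset U, X.card ≤ c * (Δ + 1) ∧
      ∀ u ∉ X, f u ≠ z ∧ ∀ v, adj u v → Nr G.Adj Set.univ (f u) ρ (f v) →
        f v ≠ z ∧ Nr G.Adj {z}ᶜ (f u) ρ (f v) := by
  have := Fintype.ofFinite K
  let T := (K × K) × (L × L) × {σ : List L // σ.length ≤ ρ} × {σ : List L // σ.length ≤ ρ}
  have := Fintype.ofFinite T
  refine ⟨Fintype.card K + 2 * Fintype.card T,
    fun V U _ G χ adj f κ r N g Δ hg g1 g2 h hs hd z => ?_⟩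
  let A : T → Finset U := fun t => univ.filter fun u => ∃ v a b, adj u v ∧ G.Adj z a ∧
    G.Adj z b ∧ a ≠ b ∧ Wz G χ z a t.2.2.1 (f u) ∧ Wz G χ z b t.2.2.2 (f v) ∧ κ u = t.1.1 ∧
    κ v = t.1.2 ∧ χ a = t.2.1.1 ∧ χ b = t.2.1.2
  have hA : ∀ t, (A t).card ≤ 2 * Δ := by
    intro t
    by_contra big
    have : ∀ u, ∃ v a b, u ∈ A t → adj u v ∧ G.Adj z a ∧
        G.Adj z b ∧ a ≠ b ∧ Wz G χ z a t.2.2.1 (f u) ∧ Wz G χ z b t.2.2.2 (f v) ∧ κ u = t.1.1 ∧
        κ v = t.1.2 ∧ χ a = t.2.1.1 ∧ χ b = t.2.1.2 := by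
      intro u
      by_cases e : u ∈ A t
      · obtain ⟨v, a, b, k⟩ := (mem_filter.1 e).2
        exact ⟨v, a, b, fun _ => k⟩
      · exact ⟨u, z, z, fun k => absurd k e⟩
    choose v a b k using this
    have key : ∀ u ∈ A t, ∀ u' ∈ A t, a u' ≠ b u → u' ∈ univ.filter (adj (v u)) := by
      intro u hu u' hu' n
      obtain ⟨k1, k2, k3, k4, k5, k6, k7, -, k9, -⟩ := k u hu
      obtain ⟨-, m2, -, -, m5, -, m7, -, m9, -⟩ := k u' hu'
      obtain ⟨-, Λ, s1, s2, s3, s4⟩ := cross (r := r) hg g1 t.2.2.1.2 t.2.2.2.2 k2 k3 k4 m2 k3 n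
        rfl (k9.trans m9.symm) rfl k5 k6 m5 k6
      exact mem_filter.2 ⟨mem_univ _,
        hs _ _ (h.2 Λ (by omega) s2 u _ u' _ k1 s3 s4 (k7.trans m7.symm) rfl)⟩
    obtain ⟨u, hu⟩ : (A t).Nonempty := card_pos.1 (by omega)
    obtain ⟨w, hw, n1⟩ := exists_mem_notMem_of_card_lt_card
      (s := univ.filter (adj (v u))) (t := A t) (by have := hd (v u); omega)
    obtain ⟨w', hw', n2⟩ := exists_mem_notMem_of_card_lt_card
      (s := univ.filter (adj (v u)) ∪ univ.filter (adj (v w))) (t := A t) (by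
        have := card_union_le (univ.filter (adj (v u))) (univ.filter (adj (v w)))
        have := hd (v u); have := hd (v w); omega)
    rw [mem_union, not_or] at n2
    exact (k w hw).2.2.2.1 (((not_not.1 (mt (key u hu w hw) n1)).trans
      (not_not.1 (mt (key u hu w' hw') n2.1)).symm).trans (not_not.1 (mt (key w hw w' hw') n2.2)))
  let Z := univ.filter fun u => f u = z
  refine ⟨Z ∪ Z.biUnion (fun v => univ.filter (adj v)) ∪ univ.biUnion A, ?_, fun u hu => ?_⟩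
  · have e1 : Z.card ≤ Fintype.card K := h.fib z
    have e2 := (card_biUnion_le_card_mul Z _ _ fun v _ => hd v).trans (Nat.mul_le_mul_right _ e1)
    have e3 := card_biUnion_le_card_mul univ A _ fun t _ => hA t
    have e4 := card_union_le Z (Z.biUnion fun v => univ.filter (adj v))
    have e5 := card_union_le (Z ∪ Z.biUnion fun v => univ.filter (adj v)) (univ.biUnion A)
    rw [card_univ] at e3
    nlinarith
  rw [mem_union, mem_union, not_or, not_or] at hu
  have n1 : f u ≠ z := fun e => hu.1.1 (mem_filter.2 ⟨mem_univ _, e⟩)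
  refine ⟨n1, fun v a q => ?_⟩
  have n2 : f v ≠ z := fun e => hu.1.2 (mem_biUnion.2 ⟨v, mem_filter.2 ⟨mem_univ _, e⟩,
    mem_filter.2 ⟨mem_univ _, hs _ _ a⟩⟩)
  refine ⟨n2, (thru χ {z} n1 n2 ρ q).resolve_right ?_⟩
  rintro ⟨_, rfl, x, y, σ, τ, k1, k2, k3, k4, k5, k6, k7⟩
  exact hu.2 (mem_biUnion.2 ⟨((κ u, κ v), (χ x, χ y), ⟨σ, k1⟩, ⟨τ, k2⟩), mem_univ _,
    mem_filter.2 ⟨mem_univ _, v, x, y, a, k3, k4, k5, k6, k7, rfl, rfl, rfl, rfl⟩⟩)

theorem fans (K L : Type) [Finite K] [Finite L] (r : ℕ) : ∃ t l : ℕ, 0 < t ∧ ∀ (V U : Type)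
    (G : SimpleGraph V) (χ : V → L) (adj : U → U → Prop) (f : U → V) (κ : U → K) (N g : ℕ),
    Acyc G g → 12 * r + 15 ≤ g → 12 * r + 15 ≤ N → Tq G χ r N adj f κ →
    ∀ l', l ≤ l' → ∀ (c : Fin t → U) (p : Fin t → Fin l' → U), (∀ i, Function.Injective (p i)) →
      (∀ i j a, adj (c i) (p j a) ↔ i = j) →
      (∀ i a b, adj (p i a) (p i b) ↔ a.1 + 1 = b.1 ∨ b.1 + 1 = a.1) → False := by
  have := Fintype.ofFinite K
  have := Fintype.ofFinite L
  obtain ⟨c0, hz⟩ := zlem K L (6 * r + 6)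
  refine ⟨Fintype.card ((L × K) × (L × K)) * 2 + 1, (c0 * 3 + 1) ^ (3 * r + 3) * (Fintype.card K + 1),
    by omega, fun V U G χ adj f κ N g hg g1 g2 h l hl c p p1 p2 p3 => ?_⟩
  obtain ⟨i, hi⟩ : ∃ i, ∀ a, Nr G.Adj Set.univ (f (c i)) (3 * r + 3) (f (p i a)) := by
    by_contra k
    push Not at k
    choose a ha using k
    obtain ⟨y, hy⟩ := Fintype.exists_lt_card_fiber_of_mul_lt_card
      (fun i => ((χ (f (c i)), κ (c i)), (χ (f (p i (a i))), κ (p i (a i))))) (n := 2) (by simp)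
    obtain ⟨i, j, k, h1, h2, h3, n1, n2, n3⟩ := two_lt_card_iff.1 hy
    have e1 := (mem_filter.1 h1).2.trans (mem_filter.1 h2).2.symm
    have e2 := (mem_filter.1 h1).2.trans (mem_filter.1 h3).2.symm
    have key : ∀ u v, _ → _ → ¬ adj u v → Nr G.Adj Set.univ (f u) (r + 1) (f v) :=
      fun u v a1 a2 n => by_contra fun q => n (h.far (by omega) ((p2 i i (a i)).2 rfl)
        (fun k => ha i (k.mono (by omega))) a1 a2 q)
    exact ha i ((((key _ _ rfl (congrArg Prod.snd e1) (mt (p2 _ _ _).1 n1)).tr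
      (sy (key _ _ (congrArg Prod.fst e2) (congrArg Prod.snd e1) (mt (p2 _ _ _).1 n3.symm)))).tr
      (key _ _ (congrArg Prod.fst e2) rfl (mt (p2 _ _ _).1 n2.symm))).mono (by omega))
  have hq := h.res (p i) (p1 i)
  have hz' := hz V (Fin l) G χ _ _ _ r N g 2 hg (by omega) (by omega) hq
    (fun a b k => (p3 i b a).2 ((p3 i a b).1 k).symm) fun a => by
      refine (card_le_card_of_injOn Fin.val (t := {a.1 + 1, a.1 - 1}) (fun b hb => ?_)
        Fin.val_injective.injOn).trans card_le_two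
      have := (p3 i a b).1 (mem_filter.1 hb).2
      simp; omega
  have main : ∀ e ≤ 3 * r + 3, ∀ z α, α + (c0 * 3 + 1) ^ e * (Fintype.card K + 1) ≤ l →
      ¬ ∀ a : Fin l, α ≤ a.1 → a.1 < α + (c0 * 3 + 1) ^ e * (Fintype.card K + 1) →
        Nr G.Adj Set.univ z e (f (p i a)) := by
    intro e
    induction e with
    | zero =>
      intro _ z α h1 h2
      rw [pow_zero, one_mul] at h1 h2
      have := (card_le_card_of_injOn (s := (univ : Finset (Fin (Fintype.card K + 1))))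
        (fun a => (⟨α + a.1, by omega⟩ : Fin l)) (fun a _ => mem_filter.2 ⟨mem_univ _, by
          have := h2 ⟨α + a.1, by omega⟩ (by simp) (by simpa using a.2)
          generalize f (p i _) = y at this
          cases this; rfl⟩) fun a _ b _ e => Fin.ext (by simpa using e)).trans (hq.fib z)
      simp at this
    | succ e ih =>
      intro he z α h1 h2
      obtain ⟨s, hs⟩ : ∃ s, s = (c0 * 3 + 1) ^ e * (Fintype.card K + 1) := ⟨_, rfl⟩
      have s0 : 0 < s := by rw [hs]; positivity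
      rw [pow_succ', mul_assoc, ← hs] at h1 h2
      obtain ⟨X, x1, x2⟩ := hz' z
      obtain ⟨b, b1, b2⟩ := exists_mem_notMem_of_card_lt_card (t := range (c0 * 3 + 1))
        (s := X.image fun a => (a.1 - α) / s) (by
          have := card_image_le (s := X) (f := fun a => (a.1 - α) / s)
          rw [card_range]; omega)
      have b3 : b * s + s ≤ (c0 * 3 + 1) * s := by
        have := Nat.mul_le_mul_right s (Nat.succ_le_of_lt (mem_range.1 b1))
        rw [Nat.succ_mul] at this; exact this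
      have nx : ∀ a : Fin l, α + b * s ≤ a.1 → a.1 < α + b * s + s → a ∉ X := fun a k1 k2 k =>
        b2 (mem_image.2 ⟨a, k, Nat.div_eq_of_lt_le (by omega) (by rw [Nat.succ_mul]; omega)⟩)
      have nb : ∀ a : Fin l, α + b * s ≤ a.1 → a.1 < α + b * s + s →
          ∃ w, G.Adj z w ∧ Nr G.Adj {z}ᶜ w e (f (p i a)) := fun a k1 k2 => by
        obtain ⟨w, d, m1, m2, -, -, m3⟩ := (last (h2 a (by omega) (by omega))).resolve_left
          (x2 a (nx a k1 k2)).1.symm
        exact ⟨w, m2, (m3.mono (by omega)).sub fun _ k => k.2⟩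
      obtain ⟨w, w1, w2⟩ := nb ⟨α + b * s, by omega⟩ le_rfl (by simpa using s0)
      have all : ∀ j (hj : j < s), Nr G.Adj {z}ᶜ w e (f (p i ⟨α + b * s + j, by omega⟩)) := by
        intro j
        induction j with
        | zero => exact fun _ => w2
        | succ j ihj =>
          intro hj
          obtain ⟨w', m1, m2⟩ := nb ⟨α + b * s + (j + 1), by omega⟩ (by simp) (by simpa using hj)
          have := ((x2 ⟨α + b * s + j, by omega⟩ (nx _ (by simp) (by simp; omega))).2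
            ⟨α + b * s + (j + 1), by omega⟩ ((p3 _ _ _).2 (Or.inl rfl))
            (((sy (hi _)).tr (hi _)).mono (by omega))).2
          rwa [hg z w w' w1 m1 ((((ihj (by omega)).tr this).tr (sy m2)).mono (by omega))]
      refine ih (by omega) w (α + b * s) (by omega) fun a k1 k2 => ?_
      have := all (a.1 - (α + b * s)) (by omega)
      rw [show (⟨α + b * s + (a.1 - (α + b * s)), by omega⟩ : Fin l) = a from
        Fin.ext (by simp; omega)] at this
      exact this.sub (Set.subset_univ _)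
  exact main _ le_rfl (f (c i)) 0 (by omega) fun a _ _ => hi a

theorem avoid {V : Type} {G : SimpleGraph V} {g d e : ℕ} (hg : Acyc G g) {S : Set V} {x y z : V}
    (h : Nr G.Adj S x d y) (k : Nr G.Adj {z}ᶜ x e y) (hx : x ≠ z) (hy : y ≠ z) (hd : d + e ≤ g) :
    Nr G.Adj (S \ {z}) x d y := by
  have : (y ≠ z ∧ Nr G.Adj (S \ {z}) x d y) ∨ ∃ d1 d2, d1 + d2 ≤ d ∧
      Nr G.Adj S x d1 z ∧ Nr G.Adj S z d2 y := by
    clear k hy hd
    induction h with
    | refl => exact Or.inl ⟨hx, Nr.refl _⟩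
    | @step d y w h a b c ih =>
      by_cases e : w = z
      · exact Or.inr ⟨d + 1, 0, le_rfl, e ▸ h.step a b c, e ▸ Nr.refl _⟩
      rcases ih with k | ⟨d1, d2, h2, h3, h4⟩
      · exact Or.inl ⟨e, k.2.step a ⟨b, k.1⟩ ⟨c, e⟩⟩
      · exact Or.inr ⟨d1, d2 + 1, by omega, h3, h4.step a b c⟩
  rcases this with q | ⟨d1, d2, h2, h3, h4⟩
  · exact q.2
  obtain ⟨a, e1, a1, a2, -, -, a3⟩ := (last (sy h3)).resolve_left hx.symm
  obtain ⟨b, e2, b1, b2, -, -, b3⟩ := (last h4).resolve_left hy.symm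
  have := hg z a b a2 b2 ((((a3.sub fun _ k => k.2).tr k).tr (sy (b3.sub fun _ k => k.2))).mono
    (by omega))
  subst this
  exact ((sy a3).tr b3).mono (by omega)

theorem centroid {V U : Type} [Fintype U] {G : SimpleGraph V} {g : ℕ} (hg : Acyc G g)
    (W : Finset V) (hW : W.card ≤ g) (f : U → V) (z0 : V) :
    ∃ z, ∀ x, 2 * (univ.filter fun u => f u ∈ comp G.Adj (W.erase z) x).card ≤ Fintype.card U := by
  by_contra h
  push Not at h
  choose x hx using h
  have hs : ∀ a b, G.Adj a b → G.Adj b a := fun _ _ => SimpleGraph.Adj.symm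
  obtain ⟨z, hz⟩ := (measure fun z => (comp G.Adj (W.erase z) (x z)).card).wf.has_min Set.univ
    ⟨z0, trivial⟩
  set C := comp G.Adj (W.erase z) (x z) with hC
  obtain ⟨z', z1, z2⟩ : ∃ z' ∈ C, ∀ a ∈ C, G.Adj z a → a = z' := by
    by_cases k : ∃ a ∈ C, G.Adj z a
    · obtain ⟨a, a1, a2⟩ := k
      refine ⟨a, a1, fun b b1 b2 => hg z b a b2 a2 ?_⟩
      have r := ((mem_comp.1 b1).2.symm hs).trans (mem_comp.1 a1).2
      obtain ⟨d, q⟩ : ∃ d, Nr G.Adj ↑(W.erase z) b d a := Rch.ind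
        (fun y => ∃ d, Nr G.Adj ↑(W.erase z) b d y) ⟨0, Nr.refl _⟩
        (fun _ _ ⟨d, h⟩ a b c => ⟨d + 1, h.step a b c⟩) r
      exact (short g _ _ _ _ (card_erase_le.trans hW) q).sub fun t ht => (mem_erase.1 ht).1
    · obtain ⟨u, hu⟩ : (univ.filter fun u => f u ∈ C).Nonempty := card_pos.1 (by
        have := hx z; rw [← hC] at this; omega)
      exact ⟨f u, (mem_filter.1 hu).2, fun a a1 a2 => absurd ⟨a, a1, a2⟩ k⟩
  obtain ⟨u, u1, u2⟩ : ∃ u, f u ∈ C ∧ f u ∈ comp G.Adj (W.erase z') (x z') := by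
    by_contra k
    have := card_le_univ ((univ.filter fun u => f u ∈ C) ∪
      univ.filter fun u => f u ∈ comp G.Adj (W.erase z') (x z'))
    rw [card_union_of_disjoint (disjoint_left.2 fun u a b =>
      k ⟨u, (mem_filter.1 a).2, (mem_filter.1 b).2⟩)] at this
    have e1 := hx z
    have e2 := hx z'
    rw [← hC] at e1
    omega
  refine hz.2 z' trivial (card_lt_card ⟨fun y hy => ?_, fun k => ?_⟩)
  · rw [comp_eq hs (mem_comp.1 u2).2] at hy
    refine (mem_comp.1 hy).2.ind (· ∈ C) u1 fun a b ha e k1 k2 => comp_step ha e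
      (mem_erase.2 ⟨fun q => (mem_erase.1 k1).1 (z2 a ha (q ▸ e.symm)), (mem_erase.1 k2).2⟩)
  · exact (mem_erase.1 (mem_comp.1 (k z1)).1).1 rfl

theorem group {U β : Type} [Fintype U] (γ : U → β)
    (h : ∀ u, ∀ F : Finset U, (∀ v ∈ F, γ v = γ u) → 2 * F.card ≤ Fintype.card U) :
    ∃ A : Finset U, (∀ u v, γ u = γ v → u ∈ A → v ∈ A) ∧ Fintype.card U ≤ 4 * A.card ∧
      4 * A.card ≤ 3 * Fintype.card U := by
  obtain ⟨A, ⟨a1, a2⟩, a3⟩ := (measure fun A : Finset U => A.card).wf.has_min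
    {A | (∀ u v, γ u = γ v → u ∈ A → v ∈ A) ∧ Fintype.card U ≤ 4 * A.card}
    ⟨univ, by simp, by rw [card_univ]; omega⟩
  refine ⟨A, a1, a2, ?_⟩
  rcases A.eq_empty_or_nonempty with rfl | ⟨u, hu⟩
  · simp
  have e1 := card_filter_add_card_filter_not (s := A) fun v => γ v = γ u
  have e3 := h u (A.filter fun v => γ v = γ u) fun v hv => (mem_filter.1 hv).2
  have e4 : 0 < (A.filter fun v => γ v = γ u).card := card_pos.2 ⟨u, mem_filter.2 ⟨hu, rfl⟩⟩
  by_contra k
  refine a3 (A.filter fun v => ¬ γ v = γ u) ⟨fun v w e q => mem_filter.2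
    ⟨a1 v w e (mem_filter.1 q).1, e ▸ (mem_filter.1 q).2⟩, by omega⟩ ?_
  show (A.filter fun v => ¬ γ v = γ u).card < A.card
  omega

theorem sep (K L : Type) [Finite K] [Finite L] (r : ℕ) : ∃ c : ℕ, ∀ (V U : Type) [Fintype U]
    (G : SimpleGraph V) (χ : V → L) (adj : U → U → Prop) (f : U → V) (κ : U → K) (N g Δ : ℕ),
    Acyc G g → 6 * r + 9 ≤ g → 6 * r + 9 ≤ N → Tq G χ r N adj f κ → (∀ u v, adj u v → adj v u) →
    (∀ u, (univ.filter (adj u)).card ≤ Δ) → 2 ≤ Fintype.card U →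
    Fintype.card U * (Fintype.card U * (3 * r + 4) + 1) ≤ g →
    ∃ X A : Finset U, X.card ≤ c * (2 * Δ * Δ + 2 * Δ + 1) ∧ Fintype.card U ≤ 4 * A.card ∧
      4 * A.card ≤ 3 * Fintype.card U ∧ ∀ u v, adj u v → u ∉ X → u ∈ A → v ∈ A := by
  have := Fintype.ofFinite K
  have := Fintype.ofFinite L
  obtain ⟨c0, hz⟩ := zlem K L (3 * r + 3)
  refine ⟨c0 + Fintype.card ((L × K) × (L × K)),
    fun V U _ G χ adj f κ N g Δ hg g1 g2 h hs hd hU g3 => ?_⟩
  have hs' : ∀ a b, G.Adj a b → G.Adj b a := fun _ _ => SimpleGraph.Adj.symm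
  have x0 := fewA adj hs (fun u => (χ (f u), κ u))
    (fun u v => Nr G.Adj Set.univ (f u) (r + 1) (f v))
    (fun u v => Nr G.Adj Set.univ (f u) (3 * r + 3) (f v)) Δ hd (fun u v k => k.mono (by omega))
    (fun u v u' v' s1 s2 s3 => ((s1.tr (sy s2)).tr s3).mono (by omega))
    fun u v u' v' a b e e' k => by_contra fun q => k (h.far (by omega) a b e e' q)
  have : ∀ u v, ∃ T : Finset V, T.card ≤ 3 * r + 4 ∧ (Nr G.Adj Set.univ (f u) (3 * r + 3) (f v) →
      Nr G.Adj ↑T (f u) (3 * r + 3) (f v)) := by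
    intro u v
    by_cases e : Nr G.Adj Set.univ (f u) (3 * r + 3) (f v)
    · obtain ⟨T, t1, -, t3, t4⟩ := e.ext2 trivial
      exact ⟨T, t1, fun _ => (t4 _ t3).2⟩
    · exact ⟨∅, by simp, fun k => absurd k e⟩
  choose T t1 t2 using this
  let W := univ.biUnion fun u => insert (f u) (univ.biUnion (T u))
  obtain ⟨u0⟩ : Nonempty U := Fintype.card_pos_iff.1 (by omega)
  obtain ⟨z, cz⟩ := centroid hg W ((card_biUnion_le_card_mul _ _ _ fun u _ =>
    (card_insert_le _ _).trans (Nat.succ_le_succ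
      (card_biUnion_le_card_mul _ _ _ fun v _ => t1 u v))).trans g3) f (f u0)
  obtain ⟨X, x1, x2⟩ := hz V U G χ adj f κ r N g Δ hg (by omega) (by omega) h hs hd z
  obtain ⟨A, a1, a2, a3⟩ := group (fun u => if f u = z then Sum.inr u else
    Sum.inl (comp G.Adj (W.erase z) (f u))) (by
      intro u F hF
      by_cases k : f u = z
      · refine le_trans (Nat.mul_le_mul_left _ (card_le_one.2 fun a ha b hb => ?_)) hU
        have e1 := hF a ha
        have e2 := hF b hb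
        rw [if_pos k] at e1 e2
        split_ifs at e1 e2
        exact (Sum.inr.inj e1).trans (Sum.inr.inj e2).symm
      · refine le_trans (Nat.mul_le_mul_left _ (card_le_card fun v hv =>
          mem_filter.2 ⟨mem_univ _, ?_⟩)) (cz (f u))
        have e2 := hF v hv
        rw [if_neg k] at e2
        split_ifs at e2 with k2
        rw [← Sum.inl.inj e2]
        exact self_mem (mem_erase.2 ⟨k2, mem_biUnion.2 ⟨v, mem_univ _, mem_insert_self _ _⟩⟩))
  refine ⟨X ∪ _, A, (card_union_le _ _).trans ((Nat.add_le_add x1 x0).trans (by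
      rw [add_mul]
      exact Nat.add_le_add (Nat.mul_le_mul_left _ (by omega)) (Nat.mul_le_mul_left _ (by omega)))),
    a2, a3,
    fun u v a b => a1 u v ?_⟩
  rw [mem_union, not_or] at b
  have n : Nr G.Adj Set.univ (f u) (3 * r + 3) (f v) :=
    by_contra fun q => b.2 (mem_filter.2 ⟨mem_univ _, v, a, q⟩)
  obtain ⟨k1, k2⟩ := x2 u b.1
  obtain ⟨k3, k4⟩ := k2 v a n
  rw [if_neg k1, if_neg k3]
  refine congrArg _ (comp_eq hs' ?_)
  have := (avoid hg (t2 u v n) k4 k1 k3 (by omega)).sub (T := ↑(W.erase z)) fun t ht =>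
    mem_erase.2 ⟨ht.2, mem_biUnion.2 ⟨u, mem_univ _, mem_insert_of_mem
      (mem_biUnion.2 ⟨v, mem_univ _, ht.1⟩)⟩⟩
  exact this.rs

end Pool.Agent.H89.SP
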