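import Mathlib

set_option autoImplicit false

namespace Pool.Agent.H89.AutTop

open MeasureTheory Filter Topology Set

noncomputable abbrev μ : Measure ℝ := volume.restrict (Icc (0 : ℝ) 1)

instance : IsProbabilityMeasure μ := ⟨by simp [μ]⟩

noncomputable abbrev H := Lp ℝ 2 μ

def G : Type := {e : ℝ ≃ᵐ ℝ // MeasurePreserving (⇑e) μ μ}

noncomputable def U (f : ℝ → ℝ) (hf : MeasurePreserving f μ μ) : H →ₗᵢ[ℝ] H :=
  Lp.compMeasurePreservingₗᵢ ℝ f hf

lemma U_ae (f : ℝ → ℝ) (hf : MeasurePreserving f μ μ) (φ : H) : U f hf φ =ᵐ[μ] fun x => φ (f x) :=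
  Lp.coeFn_compMeasurePreserving φ hf

lemma mem_id : MemLp (fun x : ℝ => x) 2 μ :=
  MemLp.of_bound measurable_id.aestronglyMeasurable 1 (by
    filter_upwards [ae_restrict_mem measurableSet_Icc] with x hx
    exact abs_le.mpr ⟨by linarith [hx.1], hx.2⟩)

noncomputable def ι : H := mem_id.toLp _

lemma ι_ae : ι =ᵐ[μ] fun x => x := mem_id.coeFn_toLp

lemma Uι (f : ℝ → ℝ) (hf : MeasurePreserving f μ μ) : U f hf ι =ᵐ[μ] f :=
  (U_ae f hf ι).trans (hf.quasiMeasurePreserving.ae_eq_comp ι_ae)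

lemma mkIso (f g : ℝ → ℝ) (hf : MeasurePreserving f μ μ) (hg : Measurable g)
    (h : ∀ᵐ x ∂μ, g (f x) = x) : ∃ e : G, e.1 =ᵐ[μ] f ∧ e.1.symm =ᵐ[μ] g := by
  classical
  have hg' : MeasurePreserving g μ μ := ⟨hg, by
    conv_lhs => rw [← hf.map_eq, Measure.map_map hg hf.measurable]
    rw [Measure.map_congr (show g ∘ f =ᵐ[μ] id from h), Measure.map_id]⟩
  have mf := hf.measurable
  have m1 : MeasurableSet {x | g (f x) = x} := measurableSet_eq_fun (by fun_prop) (by fun_prop)
  have m2 : MeasurableSet {x | f (g x) = x} := measurableSet_eq_fun (by fun_prop) (by fun_prop)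
  have h2 : ∀ᵐ x ∂μ, f (g x) = x := by
    rw [← hf.map_eq, ae_map_iff mf.aemeasurable m2]
    filter_upwards [h] with x hx using by rw [hx]
  set N := {x | g (f x) = x} ∩ {x | f (g x) = x} with hN
  set X := ⋂ n : ℕ, (f^[n] ⁻¹' N ∩ g^[n] ⁻¹' N) with hX
  have mX : MeasurableSet X := MeasurableSet.iInter fun n =>
    ((mf.iterate n) (m1.inter m2)).inter ((hg.iterate n) (m1.inter m2))
  have aX : ∀ᵐ x ∂μ, x ∈ X := by
    simp only [hX, mem_iInter]
    exact ae_all_iff.mpr fun n => ((hf.iterate n).quasiMeasurePreserving.ae (h.and h2)).and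
      ((hg'.iterate n).quasiMeasurePreserving.ae (h.and h2))
  have x0 : ∀ x ∈ X, g (f x) = x ∧ f (g x) = x := fun x hx => (mem_iInter.mp hx 0).1
  have fX : ∀ x ∈ X, f x ∈ X := fun x hx => mem_iInter.mpr fun n =>
    ⟨(mem_iInter.mp hx (n + 1)).1, by
      cases n with
      | zero => exact (mem_iInter.mp hx 1).1
      | succ n =>
        show g^[n] (g (f x)) ∈ N
        rw [(x0 x hx).1]; exact (mem_iInter.mp hx n).2⟩
  have gX : ∀ x ∈ X, g x ∈ X := fun x hx => mem_iInter.mpr fun n =>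
    ⟨by
      cases n with
      | zero => exact (mem_iInter.mp hx 1).2
      | succ n =>
        show f^[n] (f (g x)) ∈ N
        rw [(x0 x hx).2]; exact (mem_iInter.mp hx n).1, (mem_iInter.mp hx (n + 1)).2⟩
  let e : ℝ ≃ᵐ ℝ :=
    { toFun := X.piecewise f id
      invFun := X.piecewise g id
      left_inv := fun x => by
        by_cases hx : x ∈ X
        · simp [hx, fX x hx, (x0 x hx).1]
        · simp [hx]
      right_inv := fun x => by
        by_cases hx : x ∈ X
        · simp [hx, gX x hx, (x0 x hx).2]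
        · simp [hx]
      measurable_toFun := mf.piecewise mX measurable_id
      measurable_invFun := hg.piecewise mX measurable_id }
  have e1 : (e : ℝ → ℝ) =ᵐ[μ] f := aX.mono fun x hx => piecewise_eq_of_mem _ _ _ hx
  exact ⟨⟨e, hf.congr e.measurable e1.symm⟩, e1, aX.mono fun x hx => piecewise_eq_of_mem _ _ _ hx⟩

lemma closedW {κ : Type*} (l : Filter κ) (F : κ → H → ℝ) (f : H → ℝ) (K : NNReal)
    (hF : ∀ i, LipschitzWith K (F i)) (hf : Continuous f) :
    IsClosed {φ | Tendsto (F · φ) l (𝓝 (f φ))} :=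
  (LipschitzWith.uniformEquicontinuous F K hF).equicontinuous.isClosed_setOfPred_tendsto hf

lemma lipL (V : H →ₗᵢ[ℝ] H) (h : H) : LipschitzWith ‖h‖₊ fun φ => inner ℝ h (V φ) := by
  have := (innerSL ℝ h).lipschitz.comp V.lipschitz
  rw [show ‖innerSL ℝ h‖₊ = ‖h‖₊ from NNReal.eq (innerSL_apply_norm ℝ h)] at this
  simpa [Function.comp_def] using this

lemma lipR (k : H) : LipschitzWith ‖k‖₊ fun h => inner ℝ h k := by
  have := (innerSL ℝ k).lipschitz
  rw [show ‖innerSL ℝ k‖₊ = ‖k‖₊ from NNReal.eq (innerSL_apply_norm ℝ k)] at this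
  simpa [Function.comp_def, real_inner_comm] using this

lemma inner_U (f : ℝ → ℝ) (hf : MeasurePreserving f μ μ) (h φ : H) (ψ : ℝ → ℝ) (e : φ =ᵐ[μ] ψ) :
    inner ℝ h (U f hf φ) = ∫ x, ψ (f x) * h x ∂μ := by
  rw [L2.inner_def]
  refine integral_congr_ae ?_
  filter_upwards [U_ae f hf φ, hf.quasiMeasurePreserving.ae_eq_comp e] with x h1 h2
  simp only [Function.comp] at h2
  simp [h1, h2]

lemma seqW (f : ℕ → ℝ → ℝ) (hf : ∀ n, MeasurePreserving (f n) μ μ) (z : H)
    (hz : Tendsto (fun n => U (f n) (hf n) ι) atTop (𝓝 z)) (g : ℝ → ℝ) (hg : Measurable g)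
    (e : z =ᵐ[μ] g) : ∃ hg' : MeasurePreserving g μ μ, ∀ φ h : H,
      Tendsto (fun n => inner ℝ h (U (f n) (hf n) φ)) atTop (𝓝 (inner ℝ h (U g hg' φ))) := by
  have key : ∀ (ψ : BoundedContinuousFunction ℝ ℝ) (h : ℝ → ℝ), Integrable h μ →
      Tendsto (fun n => ∫ x, ψ (f n x) * h x ∂μ) atTop (𝓝 (∫ x, ψ (g x) * h x ∂μ)) := by
    intro ψ h hh
    refine tendsto_of_subseq_tendsto fun ns hns => ?_
    obtain ⟨ms, -, hms⟩ := (tendstoInMeasure_of_tendsto_Lp (hz.comp hns)).exists_seq_tendsto_ae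
    refine ⟨ms, tendsto_integral_of_dominated_convergence (fun x => ‖ψ‖ * ‖h x‖)
      (fun n => ((ψ.continuous.measurable.comp (hf _).measurable).aestronglyMeasurable).mul hh.1)
      (hh.norm.const_mul _) (fun n => Eventually.of_forall fun x => ?_) ?_⟩
    · rw [norm_mul]; gcongr; exact ψ.norm_coe_le_norm _
    · filter_upwards [hms, e, ae_all_iff.mpr fun n => Uι (f n) (hf n)] with x h1 h2 h3
      simp only [Function.comp, h3, h2] at h1
      exact ((ψ.continuous.tendsto _).comp h1).mul_const _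
  have hg' : MeasurePreserving g μ μ := ⟨hg, ext_of_forall_integral_eq_of_IsFiniteMeasure fun ψ => by
    have := key ψ (fun _ => 1) (integrable_const _)
    simp only [mul_one] at this
    have h2 : ∀ n, ∫ x, ψ (f n x) ∂μ = ∫ x, ψ x ∂μ := fun n => by
      rw [← integral_map (hf n).measurable.aemeasurable ψ.continuous.aestronglyMeasurable,
        (hf n).map_eq]
    simp only [h2] at this
    rw [integral_map hg.aemeasurable ψ.continuous.aestronglyMeasurable]
    exact tendsto_nhds_unique this tendsto_const_nhds |>.symm ▸ rfl⟩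
  refine ⟨hg', fun φ h => ?_⟩
  refine (BoundedContinuousFunction.toLp_denseRange ℝ μ ℝ (p := 2) (by simp)).induction_on φ
    (closedW atTop (fun n φ => inner ℝ h (U (f n) (hf n) φ)) _ _ (fun n => lipL _ h)
      (lipL _ h).continuous) fun ψ => ?_
  simp only [fun f hf => inner_U f hf h _ _ (BoundedContinuousFunction.coeFn_toLp 2 μ ℝ ψ)]
  exact key ψ h ((Lp.memLp h).integrable (by norm_num))

noncomputable def Φ (T : G) : H × H := (U T.1 T.2 ι, U T.1.symm T.2.symm ι)

noncomputable instance : PseudoMetricSpace G := PseudoMetricSpace.induced Φ inferInstance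

lemma indΦ : IsUniformInducing Φ := ⟨rfl⟩

lemma closedΦ : IsClosed (range Φ) := by
  refine IsSeqClosed.isClosed fun x z hx hz => ?_
  choose T hT using hx
  have h1 : Tendsto (fun n => U (T n).1 (T n).2 ι) atTop (𝓝 z.1) := by
    have := (continuous_fst.tendsto _).comp hz
    simpa only [Function.comp_def, ← hT, Φ] using this
  have h2 : Tendsto (fun n => U (T n).1.symm (T n).2.symm ι) atTop (𝓝 z.2) := by
    have := (continuous_snd.tendsto _).comp hz
    simpa only [Function.comp_def, ← hT, Φ] using this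
  have m1 := (Lp.aestronglyMeasurable z.1).aemeasurable
  have m2 := (Lp.aestronglyMeasurable z.2).aemeasurable
  obtain ⟨hf, h3⟩ := seqW _ _ _ h1 _ m1.measurable_mk m1.ae_eq_mk
  have n2 : ‖z.2‖ = ‖ι‖ := tendsto_nhds_unique h2.norm (by simp)
  have h4 : U _ hf z.2 = ι := by
    refine eq_of_norm_le_re_inner_eq_norm_sq (𝕜 := ℝ) (by simp [n2]) ?_
    have a1 := h3 z.2 ι
    have a2 : Tendsto (fun n => inner ℝ ι (U (T n).1 (T n).2
        (U (T n).1.symm (T n).2.symm ι - z.2))) atTop (𝓝 0) := by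
      refine squeeze_zero_norm (fun n => (norm_inner_le_norm _ _).trans_eq
        (by rw [LinearIsometry.norm_map])) ?_
      simpa using (tendsto_iff_norm_sub_tendsto_zero.mp h2).const_mul ‖ι‖
    have a3 : ∀ n, U (T n).1 (T n).2 (U (T n).1.symm (T n).2.symm ι) = ι := fun n => by
      refine Lp.ext ?_
      filter_upwards [U_ae _ (T n).2 (U (T n).1.symm (T n).2.symm ι), ι_ae,
        (T n).2.quasiMeasurePreserving.ae_eq_comp (Uι _ (T n).2.symm)] with x e1 e2 e3
      simp only [Function.comp] at e3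
      simp [e1, e2, e3]
    have a4 := a1.add a2
    simp only [map_sub, a3, inner_sub_right, add_sub_cancel, add_zero] at a4
    rw [RCLike.re_to_real, real_inner_comm, tendsto_nhds_unique a4 tendsto_const_nhds,
      real_inner_self_eq_norm_sq]
  obtain ⟨e, e1, e2⟩ := mkIso _ _ hf m2.measurable_mk (by
    filter_upwards [U_ae _ hf z.2, ι_ae, hf.quasiMeasurePreserving.ae_eq_comp m2.ae_eq_mk]
      with x e1 e2 e3
    simp only [Function.comp] at e3
    rw [← e3, ← e1, h4, e2])
  exact ⟨e, Prod.ext (Lp.ext ((Uι _ _).trans (e1.trans m1.ae_eq_mk.symm)))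
    (Lp.ext ((Uι _ _).trans (e2.trans m2.ae_eq_mk.symm)))⟩

instance : CompleteSpace G := indΦ.completeSpace closedΦ.isComplete

lemma inner_ind (f : ℝ → ℝ) (hf : MeasurePreserving f μ μ) (A B : Set ℝ) (hA : MeasurableSet A)
    (hB : MeasurableSet B) (c d : ℝ) :
    inner ℝ (indicatorConstLp 2 hB (measure_ne_top μ B) d)
      (U f hf (indicatorConstLp 2 hA (measure_ne_top μ A) c)) = c * d * (μ (f ⁻¹' A ∩ B)).toReal := by
  rw [inner_U f hf _ _ _ indicatorConstLp_coeFn, integral_congr_ae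
    (g := (f ⁻¹' A ∩ B).indicator fun _ => c * d), integral_indicator_const _
    ((hf.measurable hA).inter hB), smul_eq_mul, mul_comm]
  · rfl
  · filter_upwards [indicatorConstLp_coeFn (p := 2) (hs := hB) (hμs := measure_ne_top μ B) (c := d)]
      with x hx
    rw [hx]
    by_cases h1 : f x ∈ A <;> by_cases h2 : x ∈ B <;> simp [h1, h2]

lemma weak_of_sets {κ : Type*} (l : Filter κ) (f : κ → ℝ → ℝ)
    (hf : ∀ n, MeasurePreserving (f n) μ μ) (g : ℝ → ℝ) (hg : MeasurePreserving g μ μ)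
    (h : ∀ A B, MeasurableSet A → MeasurableSet B →
      Tendsto (fun n => (μ (f n ⁻¹' A ∩ B)).toReal) l (𝓝 (μ (g ⁻¹' A ∩ B)).toReal)) (φ k : H) :
    Tendsto (fun n => inner ℝ k (U (f n) (hf n) φ)) l (𝓝 (inner ℝ k (U g hg φ))) := by
  refine Lp.induction (p := 2) (by simp) (fun φ => Tendsto (fun n => inner ℝ k (U (f n) (hf n) φ)) l
    (𝓝 (inner ℝ k (U g hg φ)))) (fun c A hA hμ => ?_) (fun _ _ _ _ _ h1 h2 => ?_) ?_ φ
  · refine Lp.induction (p := 2) (by simp) (fun k => Tendsto (fun n => inner ℝ k (U (f n) (hf n) _)) l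
      (𝓝 (inner ℝ k (U g hg _)))) (fun d B hB hν => ?_) (fun _ _ _ _ _ h1 h2 => ?_) ?_ k
    · simp only [Lp.simpleFunc.coe_indicatorConst, inner_ind]
      exact (h _ _ hA hB).const_mul _
    · simpa only [inner_add_left] using h1.add h2
    · refine closedW l (fun n k => inner ℝ k (U (f n) (hf n) _)) _
        ‖(Lp.simpleFunc.indicatorConst 2 hA hμ.ne c : H)‖₊ (fun n => ?_) (lipR _).continuous
      simpa only [LinearIsometry.nnnorm_map] using
        lipR (U (f n) (hf n) (Lp.simpleFunc.indicatorConst 2 hA hμ.ne c : H))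
  · simpa only [map_add, inner_add_right] using h1.add h2
  · exact closedW l (fun n φ => inner ℝ k (U (f n) (hf n) φ)) _ _ (fun n => lipL _ k)
      (lipL _ k).continuous

lemma strong {κ : Type*} (l : Filter κ) (x : κ → H) (y : H) (hn : ∀ i, ‖x i‖ = ‖y‖)
    (h : Tendsto (fun i => inner ℝ y (x i)) l (𝓝 (inner ℝ y y))) : Tendsto x l (𝓝 y) := by
  rw [tendsto_iff_norm_sub_tendsto_zero]
  have h1 : Tendsto (fun i => √(2 * ‖y‖ ^ 2 - 2 * inner ℝ y (x i))) l
      (𝓝 (√(2 * ‖y‖ ^ 2 - 2 * inner ℝ y y))) := ((h.const_mul 2).const_sub _).sqrt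
  rw [real_inner_self_eq_norm_sq, sub_self, Real.sqrt_zero] at h1
  refine h1.congr fun i => ?_
  rw [← Real.sqrt_sq (norm_nonneg (x i - y)), norm_sub_sq_real, hn, real_inner_comm]
  congr 1; ring

lemma adj (T : G) (a b : H) : inner ℝ a (U T.1.symm T.2.symm b) = inner ℝ b (U T.1 T.2 a) := by
  rw [← (U T.1 T.2).inner_map_map, real_inner_comm]
  congr 1
  refine Lp.ext ?_
  filter_upwards [U_ae _ T.2 (U T.1.symm T.2.symm b),
    T.2.quasiMeasurePreserving.ae_eq_comp (U_ae _ T.2.symm b)] with x e1 e3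
  simp only [Function.comp] at e3
  simp [e1, e3]

lemma top_eq : (⨅ (A : Set ℝ) (_ : MeasurableSet A) (B : Set ℝ) (_ : MeasurableSet B),
    TopologicalSpace.induced (fun T : G => (μ ((⇑T.1) ⁻¹' A ∩ B)).toReal)
      (inferInstance : TopologicalSpace ℝ)) = (inferInstance : TopologicalSpace G) := by
  apply le_antisymm
  · refine le_of_nhds_le_nhds fun T => ?_
    rw [indΦ.isInducing.nhds_eq_comap, ← tendsto_iff_comap]
    have hw := weak_of_sets (@nhds G (⨅ (A : Set ℝ) (_ : MeasurableSet A) (B : Set ℝ)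
      (_ : MeasurableSet B), TopologicalSpace.induced (fun T : G => (μ ((⇑T.1) ⁻¹' A ∩ B)).toReal)
      (inferInstance : TopologicalSpace ℝ)) T) (fun S : G => S.1) (fun S => S.2) T.1 T.2
      fun A B hA hB => by
        rw [tendsto_iff_comap, ← nhds_induced]
        exact nhds_mono (iInf₂_le_of_le A hA (iInf₂_le B hB))
    refine Tendsto.prodMk_nhds (strong _ _ _ (by simp) (hw _ _)) (strong _ _ _ (by simp) ?_)
    simp only [adj]
    exact hw _ _
  · refine le_iInf₂ fun A hA => le_iInf₂ fun B hB => continuous_iff_le_induced.mp ?_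
    refine SeqContinuous.continuous fun T S hT => ?_
    have h1 := (continuous_fst.comp indΦ.isInducing.continuous).tendsto S |>.comp hT
    obtain ⟨_, h2⟩ := seqW (fun n => (T n).1) (fun n => (T n).2) _ h1 S.1 S.1.measurable (Uι _ _)
    simpa only [inner_ind, one_mul, Function.comp_def] using
      h2 (indicatorConstLp 2 hA (measure_ne_top μ A) 1) (indicatorConstLp 2 hB (measure_ne_top μ B) 1)

end Pool.Agent.H89.AutTop
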