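import Mathlib
import Pool.Agent.H89.AutTop

set_option autoImplicit false

namespace Pool.Agent.H89.AutTop

open MeasureTheory Filter Topology Set ProbabilityTheory Cardinal

lemma pit (ν : Measure ℝ) [IsProbabilityMeasure ν] (h0 : ∀ q, ν {q} = 0) :
    MeasurePreserving (cdf ν) ν μ := by
  have hm := monotone_cdf ν
  have hc : Continuous (cdf ν) := continuous_iff_continuousAt.mpr fun a => by
    rw [hm.continuousAt_iff_leftLim_eq_rightLim, StieltjesFunction.rightLim_eq]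
    have := (cdf ν).measure_singleton a
    rw [measure_cdf, h0, eq_comm, ENNReal.ofReal_eq_zero] at this
    exact le_antisymm (hm.leftLim_le le_rfl) (by linarith)
  refine ⟨hc.measurable, Measure.ext_of_Iic _ _ fun t => ?_⟩
  rw [Measure.map_apply hc.measurable measurableSet_Iic, Measure.restrict_apply measurableSet_Iic]
  rcases lt_or_ge t 0 with h | h
  · rw [show cdf ν ⁻¹' Iic t = ∅ from eq_empty_of_forall_notMem fun q hq =>
      (h.trans_le (cdf_nonneg ν q)).not_ge hq, show Iic t ∩ Icc 0 1 = ∅ from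
      eq_empty_of_forall_notMem fun q hq => (h.trans_le hq.2.1).not_ge hq.1]
    simp
  rcases le_or_gt 1 t with h1 | h1
  · rw [show cdf ν ⁻¹' Iic t = Set.univ from eq_univ_of_forall fun q => (cdf_le_one ν q).trans h1,
      inter_eq_right.mpr fun q hq => hq.2.trans h1]
    simp
  rw [show Iic t ∩ Icc 0 1 = Icc 0 t from
    Set.ext fun q => ⟨fun hq => ⟨hq.2.1, hq.1⟩, fun hq => ⟨hq.2, hq.1, hq.2.trans h1.le⟩⟩,
    Real.volume_Icc, sub_zero]
  rcases (cdf ν ⁻¹' Iic t).eq_empty_or_nonempty with he | he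
  · have : t ≤ 0 := ge_of_tendsto' (tendsto_cdf_atBot ν) fun q =>
      le_of_not_ge fun hq => (he ▸ hq : q ∈ (∅ : Set ℝ))
    rw [he, le_antisymm this h]; simp
  · obtain ⟨M, hM⟩ := ((tendsto_cdf_atTop ν).eventually (lt_mem_nhds h1)).exists
    have hb : BddAbove (cdf ν ⁻¹' Iic t) := ⟨M, fun q hq => le_of_not_ge fun k =>
      (hM.trans_le (hm k)).not_ge hq⟩
    have h2 := (isClosed_Iic.preimage hc).csSup_mem he hb
    set s := sSup (cdf ν ⁻¹' Iic t)
    have h3 : t ≤ cdf ν s := ge_of_tendsto (x := 𝓝[>] s) (hc.tendsto s |>.mono_left nhdsWithin_le_nhds)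
      (eventually_nhdsWithin_of_forall fun q hq => le_of_not_ge fun k =>
        (show s < q from hq).not_ge (le_csSup hb k))
    rw [show cdf ν ⁻¹' Iic t = Iic s from
      Set.ext fun q => ⟨fun hq => le_csSup hb hq, fun hq => (hm hq).trans h2⟩, ← ofReal_cdf,
      le_antisymm h2 h3]

lemma cdfR (φ : ℝ → ℝ) (hφ : Measurable φ) (hi : Function.Injective φ) :
    ∃ (F : ℝ → ℝ) (e : G), Monotone F ∧ (∀ q, F q ∈ Icc (0 : ℝ) 1) ∧
      (∀ p q, p ≤ q → F q - F p = μ.real {x | p < φ x ∧ φ x ≤ q}) ∧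
      ∀ᵐ x ∂μ, e.1 x = F (φ x) ∧ ∀ q, (F (φ x) ≤ F q ↔ φ x ≤ q) := by
  have : IsProbabilityMeasure (μ.map φ) := Measure.isProbabilityMeasure_map hφ.aemeasurable
  have hm := monotone_cdf (μ.map φ)
  have hR : MeasurePreserving (cdf (μ.map φ) ∘ φ) μ μ := (pit _ fun q => by
    rw [Measure.map_apply hφ (measurableSet_singleton q)]
    exact (subsingleton_singleton.preimage hi).measure_zero _).comp ⟨hφ, rfl⟩
  set F := cdf (μ.map φ) with hF
  set X := ⋂ r : ℚ, (F ∘ φ) ⁻¹' {F r}ᶜ with hX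
  have mX : MeasurableSet X :=
    MeasurableSet.iInter fun r => hR.measurable (measurableSet_singleton _).compl
  have aX : ∀ᵐ x ∂μ, x ∈ X := by
    simp only [hX, mem_iInter]
    exact ae_all_iff.mpr fun r => hR.quasiMeasurePreserving.ae (Measure.ae_ne μ (F r))
  have hX2 : ∀ x ∈ X, ∀ q, (F (φ x) ≤ F q ↔ φ x ≤ q) := fun x hx q =>
    ⟨fun h => le_of_not_gt fun k => by
      obtain ⟨r, r1, r2⟩ := exists_rat_btwn k
      exact mem_iInter.mp hx r (le_antisymm (h.trans (hm r1.le)) (hm r2.le)), fun h => hm h⟩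
  have := mX.standardBorel
  have hE : MeasurableEmbedding (X.domRestrict (F ∘ φ)) :=
    (hR.measurable.comp measurable_subtype_coe).measurableEmbedding fun x y h =>
      Subtype.ext (hi (le_antisymm ((hX2 _ x.2 _).mp (le_of_eq h)) ((hX2 _ y.2 _).mp (ge_of_eq h))))
  obtain ⟨g, hg, hg2⟩ := hE.exists_measurable_extend measurable_subtype_coe fun _ => inferInstance
  obtain ⟨e, e1, -⟩ := mkIso _ g hR hg (aX.mono fun x hx => congrFun hg2 ⟨x, hx⟩)
  refine ⟨F, e, hm, fun q => ⟨cdf_nonneg _ _, cdf_le_one _ _⟩, fun p q hpq => ?_,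
    (e1.and aX).mono fun x hx => ⟨hx.1, hX2 x hx.2⟩⟩
  rw [hF, cdf_eq_real, cdf_eq_real, ← measureReal_sdiff (Iic_subset_Iic.mpr hpq) measurableSet_Iic,
    Iic_sdiff_Iic, map_measureReal_apply hφ measurableSet_Ioc]
  rfl

noncomputable abbrev cF : (ℕ → Bool) → ℝ := cantorFunction (1 / 3)

lemma conv (n : ℕ) (f g h : ℕ → Bool) (hfg : ∀ k < n, f k = g k) (h1 : cF f ≤ cF h)
    (h2 : cF h ≤ cF g) : ∀ k < n, h k = f k := by
  intro k
  induction k using Nat.strong_induction_on with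
  | _ k ih =>
    intro hk
    by_contra hne
    cases hf : f k with
    | true =>
      exact (increasing_cantorFunction (by norm_num) (by norm_num)
        (fun i hi => ih i hi (hi.trans hk)) (by simpa [hf] using hne) hf).not_ge h1
    | false =>
      exact (increasing_cantorFunction (by norm_num) (by norm_num)
        (fun i hi => ((ih i hi (hi.trans hk)).trans (hfg i (hi.trans hk))).symm)
        (hfg k hk ▸ hf) (by simpa [hf] using hne)).not_ge h2

def ext' {N : ℕ} (w : Fin N → Bool) (c : Bool) (k : ℕ) : Bool := if h : k < N then w ⟨k, h⟩ else c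

lemma cyl {N : ℕ} (w : Fin N → Bool) (f : ℕ → Bool) :
    (cF (ext' w false) ≤ cF f ∧ cF f ≤ cF (ext' w true)) ↔ (fun k : Fin N => f k) = w := by
  refine ⟨fun h => funext fun k => ?_, fun h => ⟨?_, ?_⟩⟩
  · rw [conv N _ _ f (fun k hk => by simp [ext', hk]) h.1 h.2 k k.2]; simp [ext']
  · refine cantorFunction_le (by norm_num) (by norm_num) fun k => ?_
    unfold ext'; split_ifs <;> simp [← h]
  · refine cantorFunction_le (by norm_num) (by norm_num) fun k => ?_
    unfold ext'; split_ifs <;> simp [← h]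

noncomputable def J (a : ℝ) : H :=
  indicatorConstLp 2 (measurableSet_Iic (a := a)) (measure_ne_top μ _) (1 : ℝ)

lemma contJ : Continuous J := by
  refine continuous_indicatorConstLp_set (by simp) fun x => ?_
  have h : Tendsto (fun y => ENNReal.ofReal |y - x|) (𝓝 x) (𝓝 0) := by
    have : Continuous fun y => ENNReal.ofReal |y - x| := ENNReal.continuous_ofReal.comp (by fun_prop)
    simpa using this.tendsto x
  refine tendsto_of_tendsto_of_tendsto_of_le_of_le tendsto_const_nhds h (fun _ => zero_le)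
    fun y => (Measure.restrict_apply_le _ _).trans ?_
  rw [← Real.volume_uIoc]
  refine measure_mono fun z hz => ?_
  simp only [mem_symmDiff, mem_Iic, not_le] at hz
  rw [mem_uIoc]
  tauto

noncomputable def Ψ (N : ℕ) (θ : (Fin N → Bool) → ℝ × ℝ × ℝ) : H :=
  ∑ w, (θ w).1 • (J (θ w).2.2 - J (θ w).2.1)

lemma Ψ_ae (N : ℕ) (θ : (Fin N → Bool) → ℝ × ℝ × ℝ) : ∀ᵐ x ∂μ, Ψ N θ x =
    ∑ w, (θ w).1 * ((if x ≤ (θ w).2.2 then 1 else 0) - if x ≤ (θ w).2.1 then 1 else 0) := by
  have hJ : ∀ a, ∀ᵐ x ∂μ, J a x = if x ≤ a then 1 else 0 := fun a =>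
    (indicatorConstLp_coeFn (p := 2) (hs := measurableSet_Iic (a := a)) (hμs := measure_ne_top μ _)
      (c := (1 : ℝ))).mono fun x hx => by rw [J, hx, indicator_apply]; rfl
  filter_upwards [Lp.coeFn_fun_finsetSum Finset.univ
    fun w => (θ w).1 • (J (θ w).2.2 - J (θ w).2.1),
    ae_all_iff.mpr fun w => Lp.coeFn_smul (θ w).1 (J (θ w).2.2 - J (θ w).2.1),
    ae_all_iff.mpr fun w => Lp.coeFn_sub (J (θ w).2.2) (J (θ w).2.1),
    ae_all_iff.mpr fun w => hJ (θ w).2.2, ae_all_iff.mpr fun w => hJ (θ w).2.1] with x h1 h2 h3 h4 h5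
  rw [Ψ, h1]
  refine Finset.sum_congr rfl fun w _ => ?_
  rw [h2, Pi.smul_apply, h3, Pi.sub_apply, h4, h5, smul_eq_mul]

def C (N : ℕ → ℕ) : Set H := {z | ∀ m : ℕ, ∃ s ∈ Ψ (N m) '' Icc 0 1, dist z s ≤ 1 / (m + 1)}

lemma compC (N : ℕ → ℕ) : IsCompact (closure (C N)) := by
  refine (TotallyBounded.closure ?_).isCompact_of_isClosed isClosed_closure
  refine Metric.totallyBounded_iff.mpr fun ε hε => ?_
  obtain ⟨m, hm⟩ := exists_nat_one_div_lt (half_pos hε)
  have hc : Continuous (Ψ (N m)) := by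
    have := contJ
    unfold Ψ; fun_prop
  obtain ⟨t, ht, hs⟩ := Metric.totallyBounded_iff.mp (isCompact_Icc (a := 0) (b := 1) |>.image hc
    |>.totallyBounded) _ (half_pos hε)
  refine ⟨t, ht, fun z hz => ?_⟩
  obtain ⟨s, h1, h2⟩ := hz m
  obtain ⟨y, hy, h3⟩ := mem_iUnion₂.mp (hs h1)
  refine mem_iUnion₂.mpr ⟨y, hy, ?_⟩
  rw [Metric.mem_ball] at h3 ⊢
  linarith [dist_triangle z s y]

noncomputable def en : ℤ × ℚ ≃ ℕ := Denumerable.eqv _

noncomputable def bit (T : G) (x : ℝ) (k : ℕ) : Bool :=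
  decide ((T.1.toEquiv ^ (en.symm k).1 : Equiv.Perm ℝ) x ≤ (en.symm k).2)

noncomputable def sg (j : ℤ) (k : ℕ) : ℕ := en ((en.symm k).1 + j, (en.symm k).2)

lemma bit_sg (T : G) (j : ℤ) (x : ℝ) (k : ℕ) :
    bit T ((T.1.toEquiv ^ j : Equiv.Perm ℝ) x) k = bit T x (sg j k) := by
  simp [bit, sg, zpow_add]

lemma bit0 (T : G) (x : ℝ) (r : ℚ) : bit T x (en (0, r)) = decide (x ≤ r) := by simp [bit]

lemma mpow (T : G) (j : ℤ) : Measurable (T.1.toEquiv ^ j : Equiv.Perm ℝ) := by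
  induction j using Int.induction_on with
  | zero => exact measurable_id
  | succ n ih => rw [zpow_add_one]; exact ih.comp T.1.measurable
  | pred n ih => rw [zpow_sub_one]; exact ih.comp T.1.symm.measurable

lemma mφ (T : G) : Measurable fun x => cF (bit T x) := by
  refine Measurable.tsum fun k => ?_
  have : (fun x => cantorFunctionAux (1 / 3) (bit T x) k) = fun x =>
      if (T.1.toEquiv ^ (en.symm k).1 : Equiv.Perm ℝ) x ≤ (en.symm k).2 then (1 / 3) ^ k else 0 := by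
    funext x; simp [cantorFunctionAux, bit]
  rw [this]
  exact Measurable.ite (measurableSet_le (mpow T _) measurable_const) measurable_const
    measurable_const

lemma iφ (T : G) : Function.Injective fun x => cF (bit T x) := fun x y h => by
  have h1 : bit T x = bit T y := cantorFunction_injective (by norm_num) (by norm_num) h
  refine eq_of_forall_rat_lt_iff_lt fun r => ?_
  have := congrFun h1 (en (0, r))
  simpa [bit0, ← not_le, not_iff_not] using this

noncomputable def nn (m : ℕ) : ℕ :=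
  (Finset.range (m + 2)).sup (fun l : ℕ => en (0, (l : ℚ) / (m + 1))) + 1

noncomputable def NN (m : ℕ) : ℕ :=
  (Finset.range (nn m)).sup (fun k => max (sg 1 k) (sg (-1) k)) + 1

lemma small (T : G) (m : ℕ) (u : ℝ) :
    μ.real {x | ∀ k < nn m, bit T x k = bit T u k} ≤ 1 / (m + 1) := by
  refine ENNReal.toReal_le_of_le_ofReal (by positivity) ?_
  rw [Measure.restrict_apply' measurableSet_Icc]
  refine (Real.volume_le_diam _).trans (Metric.ediam_le_of_forall_dist_le ?_)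
  have key : ∀ x ∈ {x | ∀ k < nn m, bit T x k = bit T u k} ∩ Icc (0 : ℝ) 1,
      ∀ y ∈ {x | ∀ k < nn m, bit T x k = bit T u k} ∩ Icc (0 : ℝ) 1, y - x ≤ 1 / (m + 1) := by
    intro x hx y hy
    have hM : (0 : ℝ) < m + 1 := by positivity
    have h1 : ⌈x * (m + 1)⌉₊ ≤ m + 1 := Nat.ceil_le.mpr (by push_cast; nlinarith [hx.2.2])
    have h2 : en (0, (⌈x * (m + 1)⌉₊ : ℚ) / (m + 1)) < nn m := Nat.lt_succ_of_le
      (Finset.le_sup (f := fun l : ℕ => en (0, (l : ℚ) / (m + 1))) (Finset.mem_range.mpr (by omega)))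
    have h3 := (hx.1 _ h2).trans (hy.1 _ h2).symm
    simp only [bit0, decide_eq_decide] at h3
    push_cast at h3
    have h4 := h3.mp (by rw [le_div_iff₀ hM]; exact Nat.le_ceil _)
    have h5 := Nat.ceil_lt_add_one (show 0 ≤ x * (m + 1) from mul_nonneg hx.2.1 hM.le)
    rw [le_div_iff₀ hM] at h4 ⊢
    nlinarith
  intro x hx y hy
  rw [Real.dist_eq, abs_le]
  constructor <;> linarith [key x hx y hy, key y hy x hx]

lemma approx (T : G) (F : ℝ → ℝ) (e : G) (hm : Monotone F) (hF : ∀ q, F q ∈ Icc (0 : ℝ) 1)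
    (hd : ∀ p q, p ≤ q → F q - F p = μ.real {x | p < cF (bit T x) ∧ cF (bit T x) ≤ q})
    (he : ∀ᵐ x ∂μ, e.1 x = F (cF (bit T x)) ∧ ∀ q, (F (cF (bit T x)) ≤ F q ↔ cF (bit T x) ≤ q))
    (V S : ℝ → ℝ) (hV : MeasurePreserving V μ μ) (hS : MeasurePreserving S μ μ)
    (hSV : ∀ x, S (e.1 x) = e.1 (V x)) (σ : ℕ → ℕ) (hσ : ∀ x k, bit T (V x) k = bit T x (σ k))
    (hN : ∀ m, ∀ k < nn m, σ k < NN m) : U S hS ι ∈ C NN := by
  classical
  intro m
  have osc : ∀ u v, (∀ k < nn m, bit T u k = bit T v k) → cF (bit T u) ≤ cF (bit T v) →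
      |F (cF (bit T v)) - F (cF (bit T u))| ≤ 1 / (m + 1) := fun u v h1 h2 => by
    rw [abs_of_nonneg (sub_nonneg.mpr (hm h2)), hd _ _ h2]
    exact (measureReal_mono fun x hx => conv _ _ _ _ h1 hx.1.le hx.2).trans (small T m u)
  let c : (Fin (NN m) → Bool) → ℝ := fun w =>
    if h : ∃ y, (fun k : Fin (NN m) => bit T y k) = w then F (cF (bit T (V h.choose))) else 0
  let θ : (Fin (NN m) → Bool) → ℝ × ℝ × ℝ := fun w =>
    (c w, F (cF (ext' w false)), F (cF (ext' w true)))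
  have hc : ∀ w, c w ∈ Icc (0 : ℝ) 1 := fun w => by
    simp only [c]; split_ifs
    · exact hF _
    · simp
  refine ⟨Ψ _ θ, ⟨θ, ⟨fun w => ⟨(hc w).1, (hF _).1, (hF _).1⟩,
    fun w => ⟨(hc w).2, (hF _).2, (hF _).2⟩⟩, rfl⟩, ?_⟩
  rw [dist_eq_norm, ← (U e.1 e.2).norm_map]
  refine (Lp.norm_le_of_ae_bound (C := 1 / (m + 1)) (by positivity) ?_).trans (by simp [measureUnivNNReal])
  have hne : ∀ q, ∀ᵐ x ∂μ, cF (bit T x) ≠ q := fun q =>
    compl_mem_ae_iff.mpr ((subsingleton_singleton (a := q).preimage (iφ T)).measure_zero μ)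
  filter_upwards [U_ae e.1 e.2 (U S hS ι - Ψ _ θ), e.2.quasiMeasurePreserving.ae
    (Lp.coeFn_sub (U S hS ι) (Ψ _ θ)), e.2.quasiMeasurePreserving.ae (Uι S hS),
    e.2.quasiMeasurePreserving.ae (Ψ_ae _ θ), he, hV.quasiMeasurePreserving.ae he,
    ae_all_iff.mpr fun w : Fin (NN m) → Bool => hne (cF (ext' w false))] with x h1 h2 h3 h4 h5 h6 h7
  rw [h1, h2, Pi.sub_apply, h3, h4, hSV, h6.1, Finset.sum_eq_single fun k : Fin (NN m) => bit T x k]
  · have h8 := (cyl (fun k : Fin (NN m) => bit T x k) (bit T x)).mpr rfl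
    have h9 : ∃ y, (fun k : Fin (NN m) => bit T y k) = fun k : Fin (NN m) => bit T x k := ⟨x, rfl⟩
    simp only [θ, h5.1, h5.2, if_pos h8.2, if_neg (h8.1.lt_of_ne' (h7 _)).not_ge, c, dif_pos h9,
      sub_zero, mul_one, Real.norm_eq_abs]
    have h10 : ∀ k < nn m, bit T (V h9.choose) k = bit T (V x) k := fun k hk => by
      rw [hσ, hσ]; exact congrFun h9.choose_spec ⟨_, hN m k hk⟩
    rcases le_total (cF (bit T (V h9.choose))) (cF (bit T (V x))) with h | h
    · exact osc _ _ h10 h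
    · rw [abs_sub_comm]; exact osc _ _ (fun k hk => (h10 k hk).symm) h
  · intro w _ hw
    have h8 := mt (cyl w (bit T x)).mp hw.symm
    have h9 : cF (ext' w false) ≤ cF (ext' w true) :=
      cantorFunction_le (by norm_num) (by norm_num) fun k => by unfold ext'; split_ifs <;> simp
    simp only [θ, h5.1, h5.2]
    rcases not_and_or.mp h8 with h | h
    · rw [if_pos ((not_le.mp h).le.trans h9), if_pos (not_le.mp h).le]; simp
    · rw [if_neg h, if_neg fun k => h (k.trans h9)]; simp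
  · simp

theorem main : ∃ K : Set G, IsCompact K ∧ ∀ T : G, ∃ R S : G, S ∈ K ∧
    ∀ x, T.1 x = R.1.symm (S.1 (R.1 x)) := by
  refine ⟨Φ ⁻¹' (closure (C NN) ×ˢ closure (C NN)),
    indΦ.isInducing.isCompact_preimage closedΦ ((compC NN).prod (compC NN)), fun T => ?_⟩
  obtain ⟨F, e, hm, hF, hd, he⟩ := cdfR _ (mφ T) (iφ T)
  have hN : ∀ m, ∀ k < nn m, max (sg 1 k) (sg (-1) k) < NN m := fun m k hk => Nat.lt_succ_of_le
    (Finset.le_sup (f := fun k => max (sg 1 k) (sg (-1) k)) (Finset.mem_range.mpr hk))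
  refine ⟨e, ⟨e.1.symm.trans (T.1.trans e.1), e.2.symm.trans (T.2.trans e.2)⟩,
    ⟨subset_closure ?_, subset_closure ?_⟩, fun x => by simp⟩
  · exact approx T F e hm hF hd he T.1 _ T.2 _ (fun x => by simp) (sg 1)
      (fun x k => by simpa using bit_sg T 1 x k) fun m k hk => (le_max_left _ _).trans_lt (hN m k hk)
  · exact approx T F e hm hF hd he T.1.symm _ T.2.symm _ (fun x => by simp) (sg (-1))
      (fun x k => by have := bit_sg T (-1) x k; rwa [zpow_neg_one] at this) fun m k hk => (le_max_right _ _).trans_lt (hN m k hk)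

end Pool.Agent.H89.AutTop
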