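import Pool.Agent.H89.BA1

set_option autoImplicit false
open Set Topology Filter MeasureTheory ProbabilityTheory

namespace Pool.Agent.H89.BA

/-- Cantor space. -/
abbrev CS : Type := ℕ → Bool

lemma cont_real {C : Set CS} (hC : IsClopen C) :
    Continuous fun μ : ProbabilityMeasure CS => (μ : Measure CS).real C := by
  rw [continuous_iff_continuousAt]
  intro μ
  have := ProbabilityMeasure.tendsto_measure_of_isClopen_of_tendsto
    (μs := fun ν : ProbabilityMeasure CS => ν) (L := 𝓝 μ) (μ := μ) tendsto_id hC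
  have h2 := (NNReal.continuous_coe.tendsto _).comp this
  exact h2

lemma ext_clopen (μ ν : Measure CS) [IsProbabilityMeasure μ] [IsProbabilityMeasure ν]
    (h : ∀ C, IsClopen C → μ.real C = ν.real C) : μ = ν := by
  have hb : (inferInstance : MeasurableSpace CS) =
      MeasurableSpace.generateFrom {C : Set CS | IsClopen C} := by
    rw [BorelSpace.measurable_eq (α := CS)]
    exact isTopologicalBasis_isClopen.borel_eq_generateFrom
  refine ext_of_generate_finite _ hb (fun s hs t ht _ => IsClopen.inter hs ht) ?_ (by simp)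
  intro C hC
  exact (ENNReal.toReal_eq_toReal_iff' (measure_ne_top _ _) (measure_ne_top _ _)).1 (h C hC)

variable {Γ : Type} [Group Γ] (a : Γ → C(CS, CS))

/-- Invariant measures carried by `A`. -/
def Q (A : Set CS) : Set (ProbabilityMeasure CS) :=
  {μ | (∀ C, IsClopen C → A ⊆ C → (μ : Measure CS).real C = 1) ∧
    ∀ g C, IsClopen C → (μ : Measure CS).real (a g ⁻¹' C) = (μ : Measure CS).real C}

lemma Q_closed (A : Set CS) : IsClosed (Q a A) := by
  have : Q a A = (⋂ C, ⋂ (_ : IsClopen C), ⋂ (_ : A ⊆ C),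
      {μ : ProbabilityMeasure CS | (μ : Measure CS).real C = 1}) ∩
      ⋂ g, ⋂ C, ⋂ (_ : IsClopen C), {μ : ProbabilityMeasure CS |
        (μ : Measure CS).real (a g ⁻¹' C) = (μ : Measure CS).real C} := by
    ext μ; simp [Q]
  rw [this]
  refine IsClosed.inter (isClosed_iInter fun C => isClosed_iInter fun hC =>
    isClosed_iInter fun _ => isClosed_eq (cont_real hC) continuous_const)
    (isClosed_iInter fun g => isClosed_iInter fun C => isClosed_iInter fun hC =>
      isClosed_eq (cont_real (hC.preimage (a g).continuous)) (cont_real hC))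

lemma Q_map {A : Set CS} {μ : ProbabilityMeasure CS} (h : μ ∈ Q a A) (g : Γ) :
    (μ : Measure CS).map (a g) = μ := by
  haveI := Measure.isProbabilityMeasure_map (μ := (μ : Measure CS))
    (a g).continuous.measurable.aemeasurable
  refine ext_clopen _ _ fun C hC => ?_
  rw [Measure.real, Measure.map_apply (a g).continuous.measurable hC.isOpen.measurableSet]
  exact h.2 g C hC

lemma avg_real (S : Finset Γ) (x : CS) {C : Set CS} (hC : MeasurableSet C) :
    ((S.card : ENNReal)⁻¹ • ∑ g ∈ S, Measure.dirac (a g x)).real C =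
      (({g | a g x ∈ C} ∩ (S : Set Γ)).ncard : ℝ) / S.card := by
  classical
  have h1 : (∑ g ∈ S, Measure.dirac (a g x)) C = ((S.filter fun g => a g x ∈ C).card : ENNReal) := by
    rw [Measure.finset_sum_apply, Finset.card_filter]
    push_cast
    refine Finset.sum_congr rfl fun g _ => ?_
    rw [Measure.dirac_apply' _ hC]
    by_cases h : a g x ∈ C <;> simp [h]
  have h2 : {g | a g x ∈ C} ∩ (S : Set Γ) = ((S.filter fun g => a g x ∈ C : Finset Γ) : Set Γ) := by
    ext g; simp [and_comm]
  rw [Measure.real, Measure.smul_apply, h1, h2, Set.ncard_coe_finset, smul_eq_mul,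
    ENNReal.toReal_mul, ENNReal.toReal_inv]
  simp only [ENNReal.toReal_natCast]
  ring

lemma Q_nonempty (hF : Fol Γ) (hmul : ∀ g h, a (g * h) = (a g).comp (a h))
    {A : Set CS} (hne : A.Nonempty) (hA : ∀ g, ∀ x ∈ A, a g x ∈ A) : (Q a A).Nonempty := by
  classical
  obtain ⟨x, hx⟩ := hne
  let K : Finset Γ × ℕ → Set (ProbabilityMeasure CS) := fun i =>
    {μ | (∀ C, IsClopen C → A ⊆ C → (μ : Measure CS).real C = 1) ∧
      ∀ g ∈ i.1, ∀ C, IsClopen C →
        (μ : Measure CS).real (a g ⁻¹' C) ≤ (μ : Measure CS).real C + 1 / ((i.2 : ℝ) + 1)}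
  have hcl : ∀ i, IsClosed (K i) := by
    intro i
    have : K i = (⋂ C, ⋂ (_ : IsClopen C), ⋂ (_ : A ⊆ C),
        {μ : ProbabilityMeasure CS | (μ : Measure CS).real C = 1}) ∩
        ⋂ g, ⋂ (_ : g ∈ i.1), ⋂ C, ⋂ (_ : IsClopen C), {μ : ProbabilityMeasure CS |
          (μ : Measure CS).real (a g ⁻¹' C) ≤
            (μ : Measure CS).real C + 1 / ((i.2 : ℝ) + 1)} := by
      ext μ; simp [K]
    rw [this]
    refine IsClosed.inter (isClosed_iInter fun C => isClosed_iInter fun hC =>
      isClosed_iInter fun _ => isClosed_eq (cont_real hC) continuous_const)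
      (isClosed_iInter fun g => isClosed_iInter fun _ => isClosed_iInter fun C =>
        isClosed_iInter fun hC =>
        isClosed_le (cont_real (hC.preimage (a g).continuous)) ((cont_real hC).add continuous_const))
  have hdir : Directed (· ⊇ ·) K := by
    rintro ⟨F, n⟩ ⟨F', n'⟩
    refine ⟨(F ∪ F', n + n'), fun μ h => ⟨h.1, fun g hg C hC => ?_⟩,
      fun μ h => ⟨h.1, fun g hg C hC => ?_⟩⟩
    · refine (h.2 g (Finset.mem_union_left _ hg) C hC).trans ?_
      simp only
      gcongr
      omega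
    · refine (h.2 g (Finset.mem_union_right _ hg) C hC).trans ?_
      simp only
      gcongr
      omega
  have hne : ∀ i, (K i).Nonempty := by
    rintro ⟨F, n⟩
    obtain ⟨S, hS, hS'⟩ := hF F (1 / ((n : ℝ) + 1)) (by positivity)
    have hc : (0 : ℝ) < S.card := by exact_mod_cast hS.card_pos
    have hone : ∀ C, MeasurableSet C → A ⊆ C →
        ((S.card : ENNReal)⁻¹ • ∑ g ∈ S, Measure.dirac (a g x)).real C = 1 := by
      intro C hC hAC
      rw [avg_real a S x hC]
      have : {g | a g x ∈ C} ∩ (S : Set Γ) = S := by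
        ext g; simp only [mem_inter_iff, mem_setOf_eq, and_iff_right_iff_imp]
        exact fun _ => hAC (hA g x hx)
      rw [this, Set.ncard_coe_finset, div_self hc.ne']
    have hp : IsProbabilityMeasure ((S.card : ENNReal)⁻¹ • ∑ g ∈ S, Measure.dirac (a g x)) := by
      constructor
      have := hone univ MeasurableSet.univ (subset_univ _)
      exact (ENNReal.toReal_eq_one_iff _).1 this
    refine ⟨⟨_, hp⟩, fun C hC hAC => hone C hC.isOpen.measurableSet hAC, fun g hg C hC => ?_⟩
    simp only [ProbabilityMeasure.coe_mk]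
    rw [avg_real a S x hC.isOpen.measurableSet,
      avg_real a S x (hC.preimage (a g).continuous).isOpen.measurableSet]
    have h1 : ({h | a h x ∈ a g ⁻¹' C} ∩ (S : Set Γ)).ncard ≤
        ({h | a h x ∈ C} ∩ (S : Set Γ)).ncard +
          (((fun x => g * x) '' (S : Set Γ)) \ (S : Set Γ)).ncard := by
      rw [← Set.ncard_image_of_injective _ (mul_right_injective g)]
      refine (Set.ncard_le_ncard ?_ ?_).trans (Set.ncard_union_le _ _)
      · rintro _ ⟨h, ⟨h1, h2⟩, rfl⟩
        by_cases h3 : g * h ∈ (S : Set Γ)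
        · left
          refine ⟨?_, h3⟩
          simpa [hmul] using h1
        · right
          exact ⟨⟨h, h2, rfl⟩, h3⟩
      · exact ((S.finite_toSet).inter_of_right _).union ((S.finite_toSet.image _).diff)
    have h2 := hS' g hg
    have h3 : (({h | a h x ∈ a g ⁻¹' C} ∩ (S : Set Γ)).ncard : ℝ) ≤
        ({h | a h x ∈ C} ∩ (S : Set Γ)).ncard + 1 / ((n : ℝ) + 1) * S.card := by
      have : (({h | a h x ∈ a g ⁻¹' C} ∩ (S : Set Γ)).ncard : ℝ) ≤
        ({h | a h x ∈ C} ∩ (S : Set Γ)).ncard +
          (((fun x => g * x) '' (S : Set Γ)) \ (S : Set Γ)).ncard := by exact_mod_cast h1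
      linarith
    rw [div_le_iff₀ hc, add_mul, div_mul_cancel₀ _ hc.ne']
    exact h3
  obtain ⟨μ, hμ⟩ := IsCompact.nonempty_iInter_of_directed_nonempty_isCompact_isClosed K hdir hne
    (fun i => (hcl i).isCompact) hcl
  have hμ' := mem_iInter.1 hμ
  have hle : ∀ g C, IsClopen C →
      (μ : Measure CS).real (a g ⁻¹' C) ≤ (μ : Measure CS).real C := by
    intro g C hC
    refine le_of_forall_pos_le_add fun δ hδ => ?_
    obtain ⟨n, hn⟩ := exists_nat_one_div_lt hδ
    exact ((hμ' ({g}, n)).2 g (Finset.mem_singleton_self g) C hC).trans (by simp only; linarith)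
  refine ⟨μ, (hμ' (∅, 0)).1, fun g C hC => le_antisymm (hle g C hC) ?_⟩
  have h1 := hle g Cᶜ hC.compl
  rw [preimage_compl, probReal_compl_eq_one_sub hC.isOpen.measurableSet,
    probReal_compl_eq_one_sub (hC.preimage (a g).continuous).isOpen.measurableSet] at h1
  linarith

lemma cond_mem_Q {A : Set CS} {μ : ProbabilityMeasure CS} (h : μ ∈ Q a A) {s : Set CS}
    (hs : MeasurableSet s) (hinv : ∀ g, a g ⁻¹' s = s) (h0 : (μ : Measure CS) s ≠ 0) :
    (⟨(μ : Measure CS)[|s], cond_isProbabilityMeasure h0⟩ : ProbabilityMeasure CS) ∈ Q a A := by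
  haveI := cond_isProbabilityMeasure (μ := (μ : Measure CS)) h0
  refine ⟨fun C hC hAC => ?_, fun g C hC => ?_⟩
  · simp only [ProbabilityMeasure.coe_mk]
    have h1 : (μ : Measure CS) Cᶜ = 0 := by
      rw [prob_compl_eq_zero_iff hC.isOpen.measurableSet]
      exact (ENNReal.toReal_eq_one_iff _).1 (h.1 C hC hAC)
    have h2 : ((μ : Measure CS)[|s]) Cᶜ = 0 := cond_absolutelyContinuous h1
    rw [prob_compl_eq_zero_iff hC.isOpen.measurableSet] at h2
    simp [Measure.real, h2]
  · simp only [ProbabilityMeasure.coe_mk, Measure.real]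
    rw [cond_apply hs, cond_apply hs]
    have h1 : s ∩ a g ⁻¹' C = a g ⁻¹' (s ∩ C) := by rw [preimage_inter, hinv]
    rw [h1, ← Measure.map_apply (a g).continuous.measurable (hs.inter hC.isOpen.measurableSet),
      Q_map a h]

/-- Ergodicity for the action. -/
def Erg (μ : ProbabilityMeasure CS) : Prop :=
  ∀ s : Set CS, MeasurableSet s → (∀ g, a g ⁻¹' s = s) →
    (μ : Measure CS) s = 0 ∨ (μ : Measure CS) s = 1

lemma exists_erg {A : Set CS} (hne : (Q a A).Nonempty) : ∃ μ ∈ Q a A, Erg a μ := by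
  let ι : ProbabilityMeasure CS → ({C : Set CS // IsClopen C} → ℝ) :=
    fun μ C => (μ : Measure CS).real C
  have hι : Continuous ι := continuous_pi fun C => cont_real C.2
  have hinj : Function.Injective ι := by
    intro μ ν h
    exact ProbabilityMeasure.toMeasure_injective
      (ext_clopen _ _ fun C hC => congrFun h ⟨C, hC⟩)
  obtain ⟨_, hx⟩ := ((Q_closed a A).isCompact.image hι).extremePoints_nonempty (hne.image ι)
  obtain ⟨⟨μ, hμ, rfl⟩, hext⟩ := mem_extremePoints.1 hx
  refine ⟨μ, hμ, fun s hs hinv => ?_⟩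
  by_contra hc
  push Not at hc
  have hc' : (μ : Measure CS) sᶜ ≠ 0 := by
    rw [Ne, prob_compl_eq_zero_iff hs]; exact hc.2
  have h1 := cond_mem_Q a hμ hs hinv hc.1
  have h2 := cond_mem_Q a hμ hs.compl (fun g => by rw [preimage_compl, hinv]) hc'
  have h3 := (hext _ ⟨_, h1, rfl⟩ _ ⟨_, h2, rfl⟩ ?_).1
  · have h4 := congrArg (fun ν : ProbabilityMeasure CS => (ν : Measure CS) s) (hinj h3)
    simp only [ProbabilityMeasure.coe_mk] at h4
    rw [cond_apply_self hc.1 (measure_ne_top _ _)] at h4
    exact hc.2 h4.symm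
  · refine ⟨(μ : Measure CS).real s, (μ : Measure CS).real sᶜ,
      ENNReal.toReal_pos hc.1 (measure_ne_top _ _), ENNReal.toReal_pos hc' (measure_ne_top _ _),
      probReal_add_probReal_compl hs, ?_⟩
    funext C
    simp only [ι, Pi.add_apply, Pi.smul_apply, smul_eq_mul, ProbabilityMeasure.coe_mk,
      Measure.real]
    have h5 := cond_add_cond_compl_eq (μ := (μ : Measure CS)) (t := C.1) hs
    rw [← h5, ENNReal.toReal_add (by finiteness) (by finiteness), ENNReal.toReal_mul,
      ENNReal.toReal_mul]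
    ring

end Pool.Agent.H89.BA
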