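import Pool.Agent.H89.BA2

set_option autoImplicit false
open Set Topology Filter MeasureTheory ProbabilityTheory

namespace Pool.Agent.H89.BA

lemma clop4 {X : Type} [TopologicalSpace X] {f1 f2 f3 f4 : X → Bool} (h1 : Continuous f1)
    (h2 : Continuous f2) (h3 : Continuous f3) (h4 : Continuous f4)
    (P : Bool → Bool → Bool → Bool → Prop) :
    IsClopen {x | P (f1 x) (f2 x) (f3 x) (f4 x)} :=
  (isClopen_discrete {q : Bool × Bool × Bool × Bool | P q.1 q.2.1 q.2.2.1 q.2.2.2}).preimage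
    (h1.prodMk (h2.prodMk (h3.prodMk h4)))

/-- The periodic sequence with blocks of length `n`. -/
def per (n : ℕ) (m : ℤ) : Bool := decide ((m / n) % 2 = 0)

lemma per_add {n : ℕ} (hn : 0 < n) (m : ℤ) : per n (m + n) = !per n m := by
  have : (m + n) / n = m / n + 1 := by
    have := Int.add_mul_ediv_right m 1 (c := (n : ℤ)) (by omega)
    simpa using this
  unfold per
  rw [this]
  by_cases h : (m / n) % 2 = 0
  · have : ¬ (m / n + 1) % 2 = 0 := by omega
    simp [h, this]
  · have : (m / n + 1) % 2 = 0 := by omega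
    simp [h, this]

lemma per_dvd {n : ℕ} (hn : 0 < n) {m : ℤ} (h : per n m ≠ per n (m + 1)) : (n : ℤ) ∣ m + 1 := by
  by_contra hd
  apply h
  have hn' : (0 : ℤ) < n := by omega
  have h1 := Int.emod_nonneg (m + 1) hn'.ne'
  have h2 := Int.emod_lt_of_pos (m + 1) hn'
  have h3 : (m + 1) % n ≠ 0 := fun e => hd (Int.dvd_of_emod_eq_zero e)
  have h4 := Int.emod_add_mul_ediv (m + 1) n
  have := ((Int.ediv_emod_unique (a := m) (r := (m + 1) % n - 1) (q := (m + 1) / n) hn').2
    ⟨by linarith, by omega, by omega⟩).1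
  unfold per
  rw [this]

/-- A sequence containing arbitrarily long windows of every `per (n + 1)`. -/
def yy (m : ℤ) : Bool := per ((Nat.log 2 m.toNat).unpair.1 + 1) m

lemma yy_win (n L : ℕ) : ∃ c : ℤ, ∀ k : ℤ, |k| ≤ L → yy (c + k) = per (n + 1) (c + k) := by
  let j := Nat.pair n (2 * L)
  have h1 : 2 * L ≤ j := Nat.right_le_pair _ _
  have h2 : j < 2 ^ j := Nat.lt_two_pow_self
  refine ⟨(2 ^ j + L : ℕ), fun k hk => ?_⟩
  have hk' := abs_le.1 hk
  have : Nat.log 2 (((2 ^ j + L : ℕ) : ℤ) + k).toNat = j := by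
    apply Nat.log_eq_of_pow_le_of_lt_pow
    · generalize 2 ^ j = P at *
      omega
    · rw [pow_succ]
      generalize 2 ^ j = P at *
      omega
  unfold yy
  rw [this, Nat.unpair_pair]

variable {Γ : Type} [Group Γ] (a : Γ → C(CS, CS))

theorem not_closed (hF : Fol Γ) (hmul : ∀ g h, a (g * h) = (a g).comp (a h))
    (e : ℤ → CS → Bool) (he : ∀ k, Continuous (e k))
    (hs1 : ∀ g, ∃ j : ℤ, ∀ x k, e k (a g x) = e (k + j) x)
    (hs2 : ∀ j : ℤ, ∃ g, ∀ x k, e k (a g x) = e (k + j) x)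
    (x0 : CS) (hx0 : ∀ k, e k x0 = yy k) :
    ¬ IsClosed {ν : {μ : ProbabilityMeasure CS //
        ∀ g : Γ, (μ : Measure CS).map (⇑(a g)) = (μ : Measure CS)} |
      ∀ s : Set CS, MeasurableSet s → (∀ g : Γ, ⇑(a g) ⁻¹' s = s) →
        (ν.1 : Measure CS) s = 0 ∨ (ν.1 : Measure CS) s = 1} := by
  intro hcl
  let B0 : Set CS := {x | e 0 x = false}
  let D : ℤ → Set CS := fun i => {x | e i x ≠ e (i + 1) x}
  have hB0 : IsClopen B0 := clop4 (he 0) (he 0) (he 0) (he 0) fun u _ _ _ => u = false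
  have hD : ∀ i, IsClopen (D i) := fun i =>
    clop4 (he i) (he (i + 1)) (he 0) (he 0) fun u v _ _ => u ≠ v
  have hDi : ∀ i, ∃ g, a g ⁻¹' D 0 = D i := by
    intro i
    obtain ⟨g, hg⟩ := hs2 i
    refine ⟨g, ?_⟩
    ext x
    simp only [D, mem_preimage, mem_ofPred_eq, hg, zero_add, add_comm 1 i]
  let A : ℕ → ℕ → Set CS := fun n L =>
    {x | (∀ k : ℤ, |k| ≤ L → e (k + (n + 1 : ℕ)) x = !e k x) ∧
      ∀ i j : ℤ, |i| ≤ L → i < j → j < i + (n + 1 : ℕ) → ¬ (x ∈ D i ∧ x ∈ D j)}
  have hAcl : ∀ n L, IsClosed (A n L) := by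
    intro n L
    have : A n L = (⋂ k : ℤ, ⋂ (_ : |k| ≤ L), {x | e (k + (n + 1 : ℕ)) x = !e k x}) ∩
        ⋂ i : ℤ, ⋂ j : ℤ, ⋂ (_ : |i| ≤ L), ⋂ (_ : i < j), ⋂ (_ : j < i + (n + 1 : ℕ)),
          (D i ∩ D j)ᶜ := by
      ext x
      simp only [A, mem_ofPred_eq, mem_inter_iff, mem_iInter, mem_compl_iff]
    rw [this]
    exact IsClosed.inter (isClosed_iInter fun k => isClosed_iInter fun _ =>
      (clop4 (he (k + (n + 1 : ℕ))) (he k) (he 0) (he 0) fun u v _ _ => u = !v).isClosed)
      (isClosed_iInter fun i => isClosed_iInter fun j => isClosed_iInter fun _ =>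
        isClosed_iInter fun _ => isClosed_iInter fun _ => ((hD i).inter (hD j)).compl.isClosed)
  have hAne : ∀ n L, (A n L).Nonempty := by
    intro n L
    obtain ⟨c, hc⟩ := yy_win n (L + n + 2)
    obtain ⟨g, hg⟩ := hs2 c
    have h1 : ∀ k : ℤ, |k| ≤ (L + n + 2 : ℕ) → e k (a g x0) = per (n + 1) (c + k) := by
      intro k hk
      rw [hg, hx0, add_comm, hc k hk]
    refine ⟨a g x0, fun k hk => ?_, fun i j hi hij hji hh => ?_⟩
    · have hk' := abs_le.1 hk
      rw [h1 k (abs_le.2 ⟨by omega, by omega⟩), h1 _ (abs_le.2 ⟨by omega, by omega⟩),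
        ← add_assoc, per_add (Nat.succ_pos n)]
    · have hi' := abs_le.1 hi
      obtain ⟨h2, h3⟩ := hh
      simp only [D, mem_ofPred_eq] at h2 h3
      rw [h1 _ (abs_le.2 ⟨by omega, by omega⟩), h1 _ (abs_le.2 ⟨by omega, by omega⟩),
        ← add_assoc] at h2 h3
      have h4 := dvd_sub (per_dvd (Nat.succ_pos n) h3) (per_dvd (Nat.succ_pos n) h2)
      have h5 := Int.le_of_dvd (by omega) h4
      omega
  have hAne' : ∀ n, (⋂ L, A n L).Nonempty := fun n =>
    IsCompact.nonempty_iInter_of_sequence_nonempty_isCompact_isClosed (A n)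
      (fun L x hx => ⟨fun k hk => hx.1 k (by push_cast; omega),
        fun i j hi => hx.2 i j (by push_cast; omega)⟩) (hAne n) (hAcl n 0).isCompact (hAcl n)
  have hmem : ∀ n x, x ∈ (⋂ L, A n L) ↔ (∀ k : ℤ, e (k + (n + 1 : ℕ)) x = !e k x) ∧
      ∀ i j : ℤ, i < j → j < i + (n + 1 : ℕ) → ¬ (x ∈ D i ∧ x ∈ D j) := by
    intro n x
    rw [mem_iInter]
    exact ⟨fun h => ⟨fun k => (h k.natAbs).1 k (by simp), fun i j => (h i.natAbs).2 i j (by simp)⟩,
      fun h L => ⟨fun k _ => h.1 k, fun i j _ => h.2 i j⟩⟩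
  have hinv : ∀ n g, ∀ x ∈ (⋂ L, A n L), a g x ∈ ⋂ L, A n L := by
    intro n g x hx
    rw [hmem] at hx ⊢
    obtain ⟨c, hc⟩ := hs1 g
    refine ⟨fun k => ?_, fun i j hij hji hh => hx.2 (i + c) (j + c) (by omega) (by omega) ?_⟩
    · rw [hc, hc, ← hx.1, add_right_comm]
    · simp only [D, mem_ofPred_eq, hc] at hh ⊢
      rw [add_right_comm i c, add_right_comm j c]
      exact hh
  have hQ : ∀ μ : ProbabilityMeasure CS,
      (∀ g : Γ, (μ : Measure CS).map (⇑(a g)) = (μ : Measure CS)) ↔ μ ∈ Q a univ := by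
    intro μ
    refine ⟨fun h => ⟨fun C _ hC => ?_, fun g C hC => ?_⟩, fun h => Q_map a h⟩
    · rw [univ_subset_iff.1 hC]; simp
    · rw [Measure.real, ← Measure.map_apply (a g).continuous.measurable hC.isOpen.measurableSet,
        h g]
      rfl
  have hcI : IsClosed {μ : ProbabilityMeasure CS |
      ∀ g : Γ, (μ : Measure CS).map (⇑(a g)) = (μ : Measure CS)} := by
    have : {μ : ProbabilityMeasure CS |
      ∀ g : Γ, (μ : Measure CS).map (⇑(a g)) = (μ : Measure CS)} = Q a univ := Set.ext hQ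
    rw [this]; exact Q_closed a univ
  have hE := hcI.isClosedEmbedding_subtypeVal.isClosedMap _ hcl
  let Z : ℕ → Set (ProbabilityMeasure CS) := fun n =>
    (Subtype.val '' {ν : {μ : ProbabilityMeasure CS //
        ∀ g : Γ, (μ : Measure CS).map (⇑(a g)) = (μ : Measure CS)} |
      ∀ s : Set CS, MeasurableSet s → (∀ g : Γ, ⇑(a g) ⁻¹' s = s) →
        (ν.1 : Measure CS) s = 0 ∨ (ν.1 : Measure CS) s = 1}) ∩
      ({μ | (μ : Measure CS).real B0 = 1 / 2} ∩
        {μ | (μ : Measure CS).real (D 0) ≤ 1 / ((n : ℝ) + 1)})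
  have hZc : ∀ n, IsClosed (Z n) := fun n => hE.inter
    ((isClosed_eq (cont_real hB0) continuous_const).inter
      (isClosed_le (cont_real (hD 0)) continuous_const))
  have hZne : ∀ n, (Z n).Nonempty := by
    intro n
    obtain ⟨μ, hμ, herg⟩ := exists_erg a (Q_nonempty a hF hmul (hAne' n) (hinv n))
    have hae : ∀ C, IsClopen C → (⋂ L, A n L) ⊆ C → ∀ᵐ x ∂(μ : Measure CS), x ∈ C := by
      intro C hC hAC
      exact (mem_ae_iff_prob_eq_one hC.isOpen.measurableSet).2
        ((ENNReal.toReal_eq_one_iff _).1 (hμ.1 C hC hAC))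
    refine ⟨μ, ⟨⟨μ, Q_map a hμ⟩, herg, rfl⟩, ?_, ?_⟩
    · obtain ⟨g, hg⟩ := hs2 (n + 1 : ℕ)
      have h1 := hμ.2 g B0 hB0
      have h2 : (μ : Measure CS).real (a g ⁻¹' B0) = (μ : Measure CS).real B0ᶜ := by
        apply measureReal_congr
        have := hae _ (clop4 (he (0 + (n + 1 : ℕ))) (he 0) (he 0) (he 0) fun u v _ _ => u = !v)
          (fun x hx => ((hmem n x).1 hx).1 0)
        filter_upwards [this] with x hx
        have hx' : e (0 + (n + 1 : ℕ)) x = !e 0 x := hx
        apply propext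
        change e 0 (a g x) = false ↔ ¬ e 0 x = false
        rw [hg, hx']
        cases e 0 x <;> simp
      rw [h2, probReal_compl_eq_one_sub hB0.isOpen.measurableSet] at h1
      simp only [mem_ofPred_eq]
      linarith
    · have h1 : ∑ i ∈ Finset.range (n + 1), (μ : Measure CS) (D i) ≤ (μ : Measure CS) univ := by
        refine sum_measure_le_measure_univ
          (fun i _ => (hD i).isOpen.measurableSet.nullMeasurableSet) ?_
        have key : ∀ i j : ℕ, i < j → j < n + 1 → (μ : Measure CS) (D i ∩ D j) = 0 := by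
          intro i j hij hj
          have := hae _ ((hD i).inter (hD j)).compl
            (fun x hx => ((hmem n x).1 hx).2 i j (by omega) (by omega))
          exact measure_eq_zero_iff_ae_notMem.2 this
        intro i hi j hj hij
        simp only [Finset.coe_range, mem_Iio] at hi hj
        rcases lt_or_gt_of_ne hij with h | h
        · exact key i j h hj
        · exact (inter_comm _ _ ▸ key j i h hi : (μ : Measure CS) (D i ∩ D j) = 0)
      have h2 : ∀ i : ℤ, (μ : Measure CS) (D i) = (μ : Measure CS) (D 0) := by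
        intro i
        obtain ⟨g, hg⟩ := hDi i
        rw [← hg, ← Measure.map_apply (a g).continuous.measurable (hD 0).isOpen.measurableSet,
          Q_map a hμ]
      simp only [h2, Finset.sum_const, Finset.card_range, measure_univ, nsmul_eq_mul] at h1
      have h3 := ENNReal.toReal_mono (by simp) h1
      rw [ENNReal.toReal_mul] at h3
      simp only [ENNReal.toReal_natCast, ENNReal.toReal_one] at h3
      simp only [mem_ofPred_eq]
      rw [le_div_iff₀ (by positivity), mul_comm]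
      push_cast at h3
      exact h3
  obtain ⟨μ, hμ⟩ := IsCompact.nonempty_iInter_of_sequence_nonempty_isCompact_isClosed Z
    (fun n μ h => ⟨h.1, h.2.1, le_trans (α := ℝ) h.2.2 (by push_cast; gcongr; linarith)⟩) hZne
    (hZc 0).isCompact hZc
  have hμ' := mem_iInter.1 hμ
  obtain ⟨⟨ν, herg, rfl⟩, hhalf, -⟩ := hμ' 0
  have hD0 : (ν.1 : Measure CS) (D 0) = 0 := by
    have : (ν.1 : Measure CS).real (D 0) ≤ 0 := by
      refine le_of_forall_pos_le_add fun δ hδ => ?_
      obtain ⟨n, hn⟩ := exists_nat_one_div_lt hδ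
      have : (ν.1 : Measure CS).real (D 0) ≤ 1 / ((n : ℝ) + 1) := (hμ' n).2.2
      linarith
    exact (measureReal_eq_zero_iff (measure_ne_top _ _)).1 (le_antisymm this measureReal_nonneg)
  have hDi0 : ∀ i : ℤ, (ν.1 : Measure CS) (D i) = 0 := by
    intro i
    obtain ⟨g, hg⟩ := hDi i
    rw [← hg, ← Measure.map_apply (a g).continuous.measurable (hD 0).isOpen.measurableSet,
      ν.2 g, hD0]
  let s : Set CS := ⋂ k, {x | e k x = false}
  have hsm : MeasurableSet s := MeasurableSet.iInter fun k =>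
    (clop4 (he k) (he 0) (he 0) (he 0) fun u _ _ _ => u = false).isOpen.measurableSet
  have hsi : ∀ g, a g ⁻¹' s = s := by
    intro g
    obtain ⟨c, hc⟩ := hs1 g
    ext x
    simp only [s, mem_preimage, mem_iInter, mem_ofPred_eq, hc]
    exact ⟨fun h k => by simpa using h (k - c), fun h k => h _⟩
  have hsB : (ν.1 : Measure CS).real s = (ν.1 : Measure CS).real B0 := by
    apply measureReal_congr
    have : ∀ᵐ x ∂(ν.1 : Measure CS), ∀ i, x ∉ D i :=
      ae_all_iff.2 fun i => measure_eq_zero_iff_ae_notMem.1 (hDi0 i)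
    filter_upwards [this] with x hx
    simp only [D, mem_ofPred_eq, not_not] at hx
    have h1 : ∀ k : ℤ, e k x = e 0 x := by
      intro k
      induction k using Int.induction_on with
      | zero => rfl
      | succ k ih => rw [← hx, ih]
      | pred k ih => rw [hx, sub_add_cancel, ih]
    apply propext
    change x ∈ s ↔ e 0 x = false
    simp only [s, mem_iInter, mem_ofPred_eq, h1, forall_const]
  have hhalf' : (ν.1 : Measure CS).real B0 = 1 / 2 := hhalf
  rw [hhalf', Measure.real] at hsB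
  rcases herg s hsm hsi with h | h <;> rw [h] at hsB <;> norm_num at hsB

end Pool.Agent.H89.BA
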