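import Pool.Agent.H89.BA3

set_option autoImplicit false
open Set Topology Filter

namespace Pool.Agent.H89.BA

/-- The dihedral group of order eight. -/
abbrev GG : Type := DihedralGroup 4

instance : TopologicalSpace GG := ⊥
instance : DiscreteTopology GG := ⟨rfl⟩

/-- rotation -/
def gr : GG := DihedralGroup.r 1
/-- central element -/
def gz : GG := DihedralGroup.r 2
/-- reflection -/
def gs : GG := DihedralGroup.sr 0

lemma indep_s : ∀ b1 b2 b3 b4 : Bool,
    cond b1 gz 1 * cond b2 gs 1 = cond b3 gs 1 * cond b4 gz 1 → b1 = b4 ∧ b3 = b2 := by decide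
lemma indep_r : ∀ b1 b2 b3 b4 : Bool,
    cond b1 gz 1 * cond b2 gr 1 = cond b3 gr 1 * cond b4 gz 1 → b1 = b4 ∧ b3 = b2 := by decide
lemma z_comm : ∀ (b : Bool) (g : GG), cond b gz 1 * g = g * cond b gz 1 := by decide
lemma rs0 : ∀ b : Bool, gr * cond b gs 1 = cond b gs 1 * gr → b = false := by decide
lemma rs1 : ∀ b : Bool, gr * (cond b gs 1 * gr) = cond b gs 1 → b = true := by decide

lemma comm_inv {X : Type} (φ : X → GG) (f1 f2 : X → X) (b1 b2 : X → Bool) (h : GG)
    (hh : h = gs ∨ h = gr) (hc : ∀ x, f1 (f2 x) = f2 (f1 x))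
    (h1 : ∀ x, φ (f1 x) = cond (b1 x) gz 1 * φ x) (h2 : ∀ x, φ (f2 x) = cond (b2 x) h 1 * φ x)
    (x : X) : b1 (f2 x) = b1 x ∧ b2 (f1 x) = b2 x := by
  have e := congrArg φ (hc x)
  rw [h1, h2, h2, h1, ← mul_assoc, ← mul_assoc, mul_left_inj] at e
  rcases hh with rfl | rfl
  · exact indep_s _ _ _ _ e
  · exact indep_r _ _ _ _ e

/-- The marked subshift. -/
def KK : Type := {κ : ℤ → Bool × Bool // ∀ i, (κ i).2 = true → ∀ k, (κ (k + i)).1 = yy k}

instance : TopologicalSpace KK := instTopologicalSpaceSubtype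

instance : CompactSpace KK := by
  refine isCompact_iff_compactSpace.1 (IsClosed.isCompact ?_)
  have : {κ : ℤ → Bool × Bool | ∀ i, (κ i).2 = true → ∀ k, (κ (k + i)).1 = yy k} =
      ⋂ i, ⋂ k, {κ | (κ i).2 = true → (κ (k + i)).1 = yy k} := by
    ext κ
    simp only [mem_ofPred_eq, mem_iInter]
    exact ⟨fun h i k h' => h i h' k, fun h i h' k => h i k h'⟩
  change IsClosed {κ : ℤ → Bool × Bool | ∀ i, (κ i).2 = true → ∀ k, (κ (k + i)).1 = yy k}
  rw [this]
  refine isClosed_iInter fun i => isClosed_iInter fun k => ?_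
  exact (clop4 (f1 := fun κ : ℤ → Bool × Bool => (κ i).2) (f2 := fun κ => (κ (k + i)).1)
    (f3 := fun _ => true) (f4 := fun _ => true) (by fun_prop) (by fun_prop) continuous_const
    continuous_const fun u v _ _ => u = true → v = yy k).isClosed

/-- The shift. -/
def sh (n : ℤ) (κ : KK) : KK := ⟨fun i => κ.1 (i + n), fun i hi k => by
  have := κ.2 (i + n) hi k
  rwa [← add_assoc] at this⟩

lemma sh_sh (n m : ℤ) (κ : KK) : sh n (sh m κ) = sh (n + m) κ :=
  Subtype.ext (funext fun i => by simp only [sh, add_assoc])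
lemma sh_zero (κ : KK) : sh 0 κ = κ := Subtype.ext (funext fun i => by simp only [sh, add_zero])
lemma sh_cont (n : ℤ) : Continuous (sh n) :=
  Continuous.subtype_mk (f := fun (κ : KK) i => κ.1 (i + n)) (continuous_pi fun i =>
    (continuous_apply (i + n)).comp continuous_subtype_val) _

/-- The marked point. -/
def k0 : KK := ⟨fun i => (yy i, decide (i = 0)), fun i hi k => by
  have : i = 0 := by simpa using hi
  simp [this]⟩

/-- Skew products over the shift. -/
@[ext] structure W where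
  /-- the cocycle -/
  c : KK → GG
  /-- the shift amount -/
  n : ℤ

instance : Mul W := ⟨fun u v => ⟨fun κ => u.c (sh v.n κ) * v.c κ, u.n + v.n⟩⟩
instance : One W := ⟨⟨fun _ => 1, 0⟩⟩
instance : Inv W := ⟨fun u => ⟨fun κ => (u.c (sh (-u.n) κ))⁻¹, -u.n⟩⟩

lemma mul_c (u v : W) (κ : KK) : (u * v).c κ = u.c (sh v.n κ) * v.c κ := rfl
lemma mul_n (u v : W) : (u * v).n = u.n + v.n := rfl
lemma one_c (κ : KK) : (1 : W).c κ = 1 := rfl
lemma one_n : (1 : W).n = 0 := rfl
lemma inv_c (u : W) (κ : KK) : (u⁻¹).c κ = (u.c (sh (-u.n) κ))⁻¹ := rfl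
lemma inv_n (u : W) : (u⁻¹).n = -u.n := rfl

instance : Group W := Group.ofLeftAxioms
  (fun u v w => by
    ext κ
    · simp only [mul_c, mul_n, sh_sh, mul_assoc]
    · simp only [mul_n, add_assoc])
  (fun u => by
    ext κ
    · simp only [mul_c, one_c, one_mul]
    · simp only [mul_n, one_n, zero_add])
  (fun u => by
    ext κ
    · simp only [mul_c, inv_c, one_c, sh_sh, neg_add_cancel, sh_zero, inv_mul_cancel]
    · simp only [mul_n, inv_n, one_n, neg_add_cancel])

/-- Pure shifts. -/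
def tt : Multiplicative ℤ →* W where
  toFun n := ⟨fun _ => 1, Multiplicative.toAdd n⟩
  map_one' := rfl
  map_mul' n m := by
    ext κ
    · simp only [mul_c, mul_one]
    · simp only [mul_n, toAdd_mul]

/-- Shift amount as a homomorphism. -/
def pW : W →* Multiplicative ℤ where
  toFun w := Multiplicative.ofAdd w.n
  map_one' := rfl
  map_mul' _ _ := rfl

/-- Generators acting in the fibres. -/
def fb (g : GG) (b : KK → Bool) : W := ⟨fun κ => cond (b κ) g 1, 0⟩

/-- The shift generator. -/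
def wt : W := tt (Multiplicative.ofAdd 1)

lemma wt_zpow (n : ℤ) : wt ^ n = ⟨fun _ => 1, n⟩ := by
  rw [wt, ← map_zpow, ← ofAdd_zsmul]
  simp [tt]

lemma conj_fb (g : GG) (b : KK → Bool) (n : ℤ) :
    wt ^ (-n) * fb g b * wt ^ n = fb g fun κ => b (sh n κ) := by
  rw [wt_zpow, wt_zpow]
  ext κ
  · simp only [mul_c, fb, one_mul, mul_one]
  · simp only [mul_n, fb, add_zero, neg_add_cancel]

lemma fb_comm (g : GG) (b b' : KK → Bool) : fb gz b * fb g b' = fb g b' * fb gz b := by
  ext κ
  · simp only [mul_c, fb, sh_zero, z_comm]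
  · rfl

/-- first coordinate at the origin -/
def e0 (κ : KK) : Bool := (κ.1 0).1
/-- marker at the origin -/
def m0 (κ : KK) : Bool := (κ.1 0).2

lemma rel0 (n : ℤ) (h : yy n = false) :
    fb gr m0 * fb gs (fun κ => e0 (sh n κ)) = fb gs (fun κ => e0 (sh n κ)) * fb gr m0 := by
  ext κ
  · simp only [mul_c, fb, sh_zero]
    cases hm : m0 κ
    · simp
    · have := κ.2 0 hm n
      have h2 : e0 (sh n κ) = false := by
        rw [← h, ← this]; simp only [e0, sh, add_comm]
      simp [h2]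
  · rfl

lemma rel1 (n : ℤ) (h : yy n = true) :
    fb gr m0 * (fb gs (fun κ => e0 (sh n κ)) * fb gr m0) = fb gs (fun κ => e0 (sh n κ)) := by
  ext κ
  · simp only [mul_c, mul_n, fb, add_zero, sh_zero]
    cases hm : m0 κ
    · simp
    · have := κ.2 0 hm n
      have h2 : e0 (sh n κ) = true := by
        rw [← h, ← this]; simp only [e0, sh, add_comm]
      simp only [h2, cond_true]
      decide
  · rfl

/-- The five generators. -/
def gens : Set W := {wt, fb gs e0, fb gz e0, fb gr m0, fb gz m0}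

/-- The group. -/
abbrev Gam : Type := Subgroup.closure gens

lemma gam_fg : Group.FG Gam := by
  have : Finite gens := by unfold gens; infer_instance
  exact Group.closure_finite_fg gens

/-- the shift -/
def T : Gam := ⟨wt, Subgroup.subset_closure (by simp [gens])⟩
/-- generator -/
def U : Gam := ⟨fb gs e0, Subgroup.subset_closure (by simp [gens])⟩
/-- generator -/
def U' : Gam := ⟨fb gz e0, Subgroup.subset_closure (by simp [gens])⟩
/-- generator -/
def V : Gam := ⟨fb gr m0, Subgroup.subset_closure (by simp [gens])⟩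
/-- generator -/
def V' : Gam := ⟨fb gz m0, Subgroup.subset_closure (by simp [gens])⟩

lemma gam_fol : Fol Gam := by
  classical
  refine fol_of (pW.comp (Subgroup.subtype _)) T rfl fun s hs => ?_
  let H : Subgroup Gam :=
    { carrier := {γ | γ.1.n = 0 ∧ ∀ κ κ', (∀ g ∈ s, g.1.c κ = g.1.c κ') → γ.1.c κ = γ.1.c κ'}
      one_mem' := ⟨rfl, fun _ _ _ => rfl⟩
      mul_mem' := by
        rintro u v ⟨h1, h2⟩ ⟨h3, h4⟩
        refine ⟨by simp only [Subgroup.coe_mul, mul_n, h1, h3, add_zero], fun κ κ' h => ?_⟩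
        simp only [Subgroup.coe_mul, mul_c, h3, sh_zero, h2 κ κ' h, h4 κ κ' h]
      inv_mem' := by
        rintro u ⟨h1, h2⟩
        refine ⟨by simp only [Subgroup.coe_inv, inv_n, h1, neg_zero], fun κ κ' h => ?_⟩
        simp only [Subgroup.coe_inv, inv_c, h1, neg_zero, sh_zero, h2 κ κ' h] }
  have hle : Subgroup.closure (s : Set Gam) ≤ H := by
    rw [Subgroup.closure_le]
    intro g hg
    exact ⟨hs g hg, fun κ κ' h => h g hg⟩
  refine Set.Finite.subset ?_ hle
  let f : Gam → (s → GG) → GG := fun γ v =>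
    if h : ∃ κ : KK, (fun g : s => g.1.1.c κ) = v then γ.1.c h.choose else 1
  refine Set.Finite.of_injOn (f := f) (t := univ) (mapsTo_univ _ _) ?_ finite_univ
  rintro u ⟨h1, h2⟩ v ⟨h3, h4⟩ huv
  apply Subtype.ext
  ext κ
  · have hex : ∃ κ' : KK, (fun g : s => g.1.1.c κ') = fun g : s => g.1.1.c κ := ⟨κ, rfl⟩
    have e := congrFun huv fun g : s => g.1.1.c κ
    simp only [f, hex, dif_pos] at e
    have hh : ∀ g ∈ s, g.1.c hex.choose = g.1.c κ := fun g hg => congrFun hex.choose_spec ⟨g, hg⟩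
    rw [← h2 _ _ hh, ← h4 _ _ hh, e]
  · rw [h1, h3]

lemma gam_cont (γ : Gam) : Continuous γ.1.c := by
  obtain ⟨w, hw⟩ := γ
  have he : Continuous e0 :=
    continuous_fst.comp ((continuous_apply (0 : ℤ)).comp continuous_subtype_val)
  have hm : Continuous m0 :=
    continuous_snd.comp ((continuous_apply (0 : ℤ)).comp continuous_subtype_val)
  have hf : ∀ (g : GG) (b : KK → Bool), Continuous b → Continuous (fb g b).c := fun g b hb =>
    (continuous_of_discreteTopology (f := fun u : Bool => cond u g 1)).comp hb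
  induction hw using Subgroup.closure_induction with
  | mem w hw =>
    simp only [gens, mem_insert_iff, mem_singleton_iff] at hw
    rcases hw with rfl | rfl | rfl | rfl | rfl
    · exact continuous_const
    · exact hf _ _ he
    · exact hf _ _ he
    · exact hf _ _ hm
    · exact hf _ _ hm
  | one => exact continuous_const
  | mul u v _ _ hu hv =>
    exact (continuous_of_discreteTopology (f := fun q : GG × GG => q.1 * q.2)).comp
      ((hu.comp (sh_cont v.n)).prodMk hv)
  | inv u _ hu =>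
    exact (continuous_of_discreteTopology (f := fun q : GG => q⁻¹)).comp (hu.comp (sh_cont _))

/-- The open condition on an action. -/
def Cond (φ : CS → GG) (ε m : CS → Bool) (a : Gam → C(CS, CS)) : Prop :=
  (∀ x, φ (a T x) = φ x) ∧ (∀ x, φ (a U x) = cond (ε x) gs 1 * φ x) ∧
    (∀ x, φ (a U' x) = cond (ε x) gz 1 * φ x) ∧ (∀ x, φ (a V x) = cond (m x) gr 1 * φ x) ∧
    ∀ x, φ (a V' x) = cond (m x) gz 1 * φ x

theorem force (φ : CS → GG) (ε m : CS → Bool) (a : Gam → C(CS, CS))
    (h1 : a 1 = ContinuousMap.id _) (hmul : ∀ g h, a (g * h) = (a g).comp (a h))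
    (hc : Cond φ ε m a) (x0 : CS) (hx0 : m x0 = true) :
    (∀ g, ∃ j : ℤ, ∀ x (k : ℤ), ε (a (T ^ k) (a g x)) = ε (a (T ^ (k + j)) x)) ∧
      ∀ k : ℤ, ε (a (T ^ k) x0) = yy k := by
  obtain ⟨cT, cU, cU', cV, cV'⟩ := hc
  have am : ∀ g h x, a (g * h) x = a g (a h x) := fun g h x => by rw [hmul]; rfl
  have a1 : ∀ x, a 1 x = x := fun x => by rw [h1]; rfl
  have cTn : ∀ (n : ℤ) x, φ (a (T ^ n) x) = φ x := by
    intro n
    induction n using Int.induction_on with
    | zero => intro x; rw [zpow_zero, a1]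
    | succ n ih => intro x; rw [zpow_add_one, am, ih, cT]
    | pred n ih =>
      intro x
      rw [zpow_sub_one, am, ih, ← cT, ← am, mul_inv_cancel, a1]
  have cUn : ∀ (n : ℤ) x, φ (a (T ^ (-n) * U * T ^ n) x) = cond (ε (a (T ^ n) x)) gs 1 * φ x := by
    intro n x; rw [am, am, cTn, cU, cTn]
  have cUn' : ∀ (n : ℤ) x, φ (a (T ^ (-n) * U' * T ^ n) x) = cond (ε (a (T ^ n) x)) gz 1 * φ x := by
    intro n x; rw [am, am, cTn, cU', cTn]
  have vU : ∀ n : ℤ, (T ^ (-n) * U * T ^ n).1 = fb gs fun κ => e0 (sh n κ) := fun n => by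
    simp only [Subgroup.coe_mul, SubgroupClass.coe_zpow]; exact conj_fb _ _ n
  have vU' : ∀ n : ℤ, (T ^ (-n) * U' * T ^ n).1 = fb gz fun κ => e0 (sh n κ) := fun n => by
    simp only [Subgroup.coe_mul, SubgroupClass.coe_zpow]; exact conj_fb _ _ n
  have cm : ∀ g h : Gam, g.1 * h.1 = h.1 * g.1 → ∀ x, a g (a h x) = a h (a g x) := by
    intro g h e x
    have : g * h = h * g := Subtype.ext e
    rw [← am, this, am]
  have i1 : ∀ (n : ℤ) x, _ := fun n x => comm_inv φ (a (T ^ (-n) * U' * T ^ n)) (a U)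
    (fun x => ε (a (T ^ n) x)) ε gs (Or.inl rfl)
    (cm _ _ (by rw [vU']; exact fb_comm _ _ _)) (cUn' n) cU x
  have i2 : ∀ (n : ℤ) x, _ := fun n x => comm_inv φ (a (T ^ (-n) * U' * T ^ n)) (a V)
    (fun x => ε (a (T ^ n) x)) m gr (Or.inr rfl)
    (cm _ _ (by rw [vU']; exact fb_comm _ _ _)) (cUn' n) cV x
  have i3 : ∀ (n : ℤ) x, _ := fun n x => comm_inv φ (a V') (a (T ^ (-n) * U * T ^ n))
    m (fun x => ε (a (T ^ n) x)) gs (Or.inl rfl)
    (cm _ _ (by rw [vU]; exact fb_comm _ _ _)) cV' (cUn n) x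
  have i4 : ∀ x, _ := fun x => comm_inv φ (a V') (a V) m m gr (Or.inr rfl)
    (cm _ _ (fb_comm _ _ _)) cV' cV x
  constructor
  · rintro ⟨w, hw⟩
    induction hw using Subgroup.closure_induction with
    | mem w hw =>
      simp only [gens, mem_insert_iff, mem_singleton_iff] at hw
      rcases hw with rfl | rfl | rfl | rfl | rfl
      · refine ⟨1, fun x k => ?_⟩
        rw [zpow_add_one, am]; rfl
      · exact ⟨0, fun x k => by rw [add_zero]; exact (i1 k x).1⟩
      · refine ⟨0, fun x k => ?_⟩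
        have := (i1 (-k) (a (T ^ k) x)).2
        rw [← am, neg_neg, mul_assoc, mul_assoc, ← zpow_add, neg_add_cancel, zpow_zero, mul_one,
          am] at this
        rw [add_zero]; exact this
      · exact ⟨0, fun x k => by rw [add_zero]; exact (i2 k x).1⟩
      · exact ⟨0, fun x k => by rw [add_zero]; exact (i3 k x).2⟩
    | one => exact ⟨0, fun x k => by rw [add_zero]; exact congrArg _ (congrArg _ (a1 x))⟩
    | mul u v hu hv ihu ihv =>
      obtain ⟨j, hj⟩ := ihu
      obtain ⟨l, hl⟩ := ihv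
      refine ⟨j + l, fun x k => ?_⟩
      have : a ⟨u * v, mul_mem hu hv⟩ x = a ⟨u, hu⟩ (a ⟨v, hv⟩ x) := am ⟨u, hu⟩ ⟨v, hv⟩ x
      rw [this, hj, hl, add_assoc]
    | inv u hu ih =>
      obtain ⟨j, hj⟩ := ih
      refine ⟨-j, fun x k => ?_⟩
      have h2 : a ⟨u, hu⟩ (a ⟨u⁻¹, inv_mem hu⟩ x) = x := by
        rw [← am]
        have : (⟨u, hu⟩ * ⟨u⁻¹, inv_mem hu⟩ : Gam) = 1 := Subtype.ext (mul_inv_cancel u)
        rw [this, a1]
      have := hj (a ⟨u⁻¹, inv_mem hu⟩ x) (k + -j)
      rw [h2, neg_add_cancel_right] at this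
      exact this.symm
  · intro k
    cases hy : yy k
    · have e := congrArg φ (cm V (T ^ (-k) * U * T ^ k) (by rw [vU]; exact rel0 k hy) x0)
      rw [cV, cUn, cUn, cV, (i3 k x0).1, (i2 k x0).1, hx0, ← mul_assoc, ← mul_assoc,
        mul_left_inj] at e
      exact rs0 _ e
    · have e0' : V * ((T ^ (-k) * U * T ^ k) * V) = T ^ (-k) * U * T ^ k :=
        Subtype.ext (by
          rw [Subgroup.coe_mul, Subgroup.coe_mul, vU]; exact rel1 k hy)
      have e := congrArg (fun g => φ (a g x0)) e0'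
      rw [am V, am _ V, cV, cUn, cUn, cV, (i3 k _).1, (i4 x0).1, (i2 k x0).1, hx0, ← mul_assoc,
        ← mul_assoc, mul_left_inj, mul_assoc] at e
      exact rs1 _ e

theorem model : ∃ (φ : CS → GG) (ε m : CS → Bool) (a : Gam → C(CS, CS)) (x0 : CS),
    Continuous φ ∧ Continuous ε ∧ Continuous m ∧ a 1 = ContinuousMap.id _ ∧
    (∀ g h, a (g * h) = (a g).comp (a h)) ∧ Cond φ ε m a ∧ m x0 = true := by
  classical
  obtain ⟨f, hf⟩ := exists_surjective_nat ((ℤ × Bool) ⊕ GG)
  let b' : (ℤ × Bool) ⊕ GG → KK × GG → Bool := fun i q =>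
    match i with
    | Sum.inl (i, false) => (q.1.1 i).1
    | Sum.inl (i, true) => (q.1.1 i).2
    | Sum.inr g => decide (q.2 = g)
  have hb' : ∀ i, Continuous (b' i) := by
    rintro (⟨i, _ | _⟩ | g)
    · exact continuous_fst.comp ((continuous_apply i).comp
        (continuous_subtype_val.comp continuous_fst))
    · exact continuous_snd.comp ((continuous_apply i).comp
        (continuous_subtype_val.comp continuous_fst))
    · exact (continuous_of_discreteTopology (f := fun u : GG => decide (u = g))).comp continuous_snd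
  have : Nonempty (KK × GG) := ⟨(k0, 1)⟩
  obtain ⟨h⟩ := cantor_prod (fun n => b' (f n)) (fun n => hb' _) (by
    rintro ⟨κ, g⟩ ⟨κ', g'⟩ hh
    have h2 : ∀ i, b' i (κ, g) = b' i (κ', g') := fun i => by
      obtain ⟨n, rfl⟩ := hf i; exact hh n
    have h3 : κ = κ' := Subtype.ext (funext fun i =>
      Prod.ext (h2 (Sum.inl (i, false))) (h2 (Sum.inl (i, true))))
    have h4 := h2 (Sum.inr g')
    simp only [b', decide_true, decide_eq_true_eq] at h4
    rw [h3, h4])
  let act : Gam → C((KK × GG) × (ℕ → ℕ → Bool), (KK × GG) × (ℕ → ℕ → Bool)) := fun γ =>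
    ⟨fun q => ((sh γ.1.n q.1.1, γ.1.c q.1.1 * q.1.2), q.2),
      (((sh_cont _).comp (continuous_fst.comp continuous_fst)).prodMk
        ((continuous_of_discreteTopology (f := fun q : GG × GG => q.1 * q.2)).comp
          (((gam_cont γ).comp (continuous_fst.comp continuous_fst)).prodMk
            (continuous_snd.comp continuous_fst)))).prodMk continuous_snd⟩
  have he : Continuous e0 :=
    continuous_fst.comp ((continuous_apply (0 : ℤ)).comp continuous_subtype_val)
  have hm : Continuous m0 :=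
    continuous_snd.comp ((continuous_apply (0 : ℤ)).comp continuous_subtype_val)
  refine ⟨fun x => (h.symm x).1.2, fun x => e0 (h.symm x).1.1, fun x => m0 (h.symm x).1.1,
    fun γ => ⟨fun x => h (act γ (h.symm x)), by fun_prop⟩, h ((k0, 1), fun _ _ => true),
    by fun_prop, he.comp (by fun_prop), hm.comp (by fun_prop), ?_, ?_, ?_, ?_⟩
  · ext1 x
    simp [act, one_n, one_c, sh_zero]
  · intro g g'
    ext1 x
    simp [act, mul_n, mul_c, sh_sh, mul_assoc]
  · refine ⟨fun x => ?_, fun x => ?_, fun x => ?_, fun x => ?_, fun x => ?_⟩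
    · simp [act, T, wt, tt]
    · simp [act, U, fb]
    · simp [act, U', fb]
    · simp [act, V, fb]
    · simp [act, V', fb]
  · simp [m0, k0]

lemma open_cond (φ ψ : CS → GG) (hφ : Continuous φ) (hψ : Continuous ψ) :
    IsOpen {f : C(CS, CS) | ∀ x, φ (f x) = ψ x} := by
  have : {f : C(CS, CS) | ∀ x, φ (f x) = ψ x} =
      ⋂ g : GG, {f : C(CS, CS) | MapsTo f (ψ ⁻¹' {g}) (φ ⁻¹' {g})} := by
    ext f
    simp only [mem_ofPred_eq, mem_iInter, MapsTo, mem_preimage, mem_singleton_iff]
    exact ⟨fun h g x hx => (h x).trans hx, fun h x => h _ rfl⟩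
  rw [this]
  exact isOpen_iInter_of_finite fun g => ContinuousMap.isOpen_setOfPred_mapsTo
    ((isClosed_discrete _).preimage hψ).isCompact ((isOpen_discrete _).preimage hφ)

lemma cm_aux (X : Type) [MetricSpace X] [CompleteSpace X] [CompactSpace X] :
    TopologicalSpace.IsCompletelyMetrizableSpace C(X, X) :=
  MetricSpace.toIsCompletelyMetrizableSpace

lemma cm_cs : TopologicalSpace.IsCompletelyMetrizableSpace C(CS, CS) :=
  @cm_aux CS (TopologicalSpace.completelyMetrizableMetric CS)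
    (TopologicalSpace.complete_completelyMetrizableMetric CS)
    (inferInstanceAs (CompactSpace (ℕ → Bool)))

lemma gam_count : Countable Gam := by
  obtain ⟨α, _, f, hf⟩ := Group.fg_iff_exists_freeGroup_hom_surjective_finite.1 gam_fg
  have : Countable (FreeGroup α) := inferInstance
  exact hf.countable

end Pool.Agent.H89.BA
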