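import Mathlib

set_option autoImplicit false

namespace Pool.Agent.H89.BP

open Set Complex

theorem lift {A : Type} [TopologicalSpace A] [SimplyConnectedSpace A]
    [LocallyPathConnectedSpace A] [Nonempty A] (f : A → ℂ) (hf : Continuous f)
    (h0 : ∀ a, f a ≠ 0) : ∃ L : A → ℂ, Continuous L ∧ ∀ a, exp (L a) = f a := by
  obtain ⟨a⟩ := ‹Nonempty A›
  obtain ⟨F, ⟨-, h⟩, -⟩ := isCoveringMapOn_exp.existsUnique_continuousMap_lifts ⟨f, hf⟩
    (a₀ := a) (e₀ := log (f a)) (exp_log (h0 a)) (fun a => h0 a)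
  exact ⟨F, F.continuous, fun a => congrFun h a⟩

theorem uniq (l l' : ℝ → ℂ) (h : Continuous l) (h' : Continuous l')
    (e : ∀ t, exp (l t) = exp (l' t)) : l 1 - l 0 = l' 1 - l' 0 := by
  have h1 : ∀ t, exp (l t - l' t) = 1 := fun t => by
    rw [exp_sub, e, div_self (exp_ne_zero _)]
  obtain ⟨F, -, hu⟩ := isCoveringMapOn_exp.existsUnique_continuousMap_lifts
    (ContinuousMap.const ℝ (1 : ℂ)) (a₀ := (0 : ℝ)) (e₀ := l 0 - l' 0) (h1 0) (fun a => by simp)
  have e1 := hu ⟨fun t => l t - l' t, h.sub h'⟩ ⟨rfl, funext fun t => h1 t⟩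
  have e2 := hu (ContinuousMap.const ℝ (l 0 - l' 0)) ⟨rfl, funext fun t => h1 0⟩
  have e3 := congrArg (fun G : C(ℝ, ℂ) => G 1) (e1.trans e2.symm)
  simp only [ContinuousMap.coe_mk, ContinuousMap.const_apply] at e3
  linear_combination e3

/-- sign -/
def eps (u v : ℕ) : ℤ := if u < v then 1 else -1

/-- chosen logarithm of `p v - p u`. -/
noncomputable def lam (p : ℕ → ℂ) (u v : ℕ) : ℂ :=
  if u < v then log (p v - p u) else log (p u - p v) - Real.pi * I

theorem exp_lam (p : ℕ → ℂ) (u v : ℕ) (h : p u ≠ p v) : exp (lam p u v) = p v - p u := by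
  unfold lam
  split_ifs
  · exact exp_log (sub_ne_zero.2 h.symm)
  · rw [exp_sub, exp_log (sub_ne_zero.2 h), exp_pi_mul_I]; ring

theorem lam_sub (p : ℕ → ℂ) (u v : ℕ) (h : u ≠ v) :
    lam p u v - lam p v u = Real.pi * I * (eps u v : ℤ) := by
  unfold lam eps
  rcases lt_or_gt_of_ne h with h | h
  · simp [h, h.not_gt]
  · simp [h, h.not_gt]

theorem stepA (p : ℕ → ℂ) (g : ℝ → ℂ) (u a b : ℕ) : ∃ n : ℤ, Continuous g → g 0 = p a →
    g 1 = p b → (∀ t, g t ≠ p u) → ∀ l : ℝ → ℂ, Continuous l → (∀ t, exp (l t) = g t - p u) →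
    l 1 - l 0 = lam p u b - lam p u a + n * (2 * Real.pi * I) := by
  by_cases h : Continuous g ∧ g 0 = p a ∧ g 1 = p b ∧ ∀ t, g t ≠ p u
  · obtain ⟨hc, h0, h1, hn⟩ := h
    obtain ⟨L, hL, e⟩ := lift (fun t => g t - p u) (hc.sub continuous_const)
      (fun t => sub_ne_zero.2 (hn t))
    have ha : p u ≠ p a := by rw [← h0]; exact (hn 0).symm
    have hb : p u ≠ p b := by rw [← h1]; exact (hn 1).symm
    have : exp (L 1 - L 0) = exp (lam p u b - lam p u a) := by
      rw [exp_sub, exp_sub, e, e, exp_lam p _ _ ha, exp_lam p _ _ hb, h0, h1]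
    obtain ⟨n, hn'⟩ := exp_eq_exp_iff_exists_int.1 this
    refine ⟨n, fun _ _ _ _ l hl el => ?_⟩
    rw [uniq l L hl hL (fun t => by rw [el, e]), hn']
  · exact ⟨0, fun a b c d => absurd ⟨a, b, c, d⟩ h⟩

theorem ht (adj : ℕ → ℕ → Prop) (p : ℕ → ℂ) (γ : ℕ → ℕ → ℝ → ℂ)
    (hc : ∀ a b, adj a b → ContinuousOn (γ a b) (Icc 0 1) ∧ γ a b 0 = p a ∧ γ a b 1 = p b)
    (hd : ∀ a b c d, adj a b → adj c d → a ≠ c → a ≠ d → b ≠ c → b ≠ d →
      ∀ s ∈ Icc (0 : ℝ) 1, ∀ t ∈ Icc (0 : ℝ) 1, γ a b s ≠ γ c d t) :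
    ∃ n : ℕ → ℕ → ℕ → ℤ, ∀ a b c d, adj a b → adj c d → a ≠ c → a ≠ d → b ≠ c → b ≠ d →
      eps c b + eps b d + eps d a + eps a c
        + 2 * (n c a b + n b c d - n d a b - n a c d) = 0 := by
  let G : ℕ → ℕ → ℝ → ℂ := fun a b t => γ a b (projIcc (0 : ℝ) 1 zero_le_one t)
  have Gc : ∀ a b, adj a b → Continuous (G a b) := fun a b h =>
    (hc a b h).1.comp_continuous (continuous_subtype_val.comp continuous_projIcc)
      (fun t => (projIcc (0 : ℝ) 1 zero_le_one t).2)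
  have G0 : ∀ a b, adj a b → G a b 0 = p a := fun a b h => by
    simp only [G, projIcc_left]; exact (hc a b h).2.1
  have G1 : ∀ a b, adj a b → G a b 1 = p b := fun a b h => by
    simp only [G, projIcc_right]; exact (hc a b h).2.2
  choose n hn using fun u a b => stepA p (G a b) u a b
  refine ⟨n, fun a b c d h1 h2 ac ad bc bd => ?_⟩
  have hG : ∀ s t, G a b s ≠ G c d t := fun s t =>
    hd a b c d h1 h2 ac ad bc bd _ (projIcc (0 : ℝ) 1 zero_le_one s).2 _
      (projIcc (0 : ℝ) 1 zero_le_one t).2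
  obtain ⟨L, hL, e⟩ := lift (fun x : ℝ × ℝ => G a b x.1 - G c d x.2)
    (((Gc a b h1).comp continuous_fst).sub ((Gc c d h2).comp continuous_snd))
    (fun x => sub_ne_zero.2 (hG _ _))
  have e1 := hn c a b (Gc a b h1) (G0 a b h1) (G1 a b h1)
    (fun t => by rw [← G0 c d h2]; exact hG _ _) (fun s => L (s, 0))
    (hL.comp (by fun_prop)) (fun s => by rw [e, G0 c d h2])
  have e2 := hn d a b (Gc a b h1) (G0 a b h1) (G1 a b h1)
    (fun t => by rw [← G1 c d h2]; exact hG _ _) (fun s => L (s, 1))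
    (hL.comp (by fun_prop)) (fun s => by rw [e, G1 c d h2])
  have e3 := hn a c d (Gc c d h2) (G0 c d h2) (G1 c d h2)
    (fun t => by rw [← G0 a b h1]; exact (hG _ _).symm) (fun t => L (0, t) + Real.pi * I)
    ((hL.comp (by fun_prop)).add continuous_const)
    (fun s => by rw [exp_add, e, G0 a b h1, exp_pi_mul_I]; ring)
  have e4 := hn b c d (Gc c d h2) (G0 c d h2) (G1 c d h2)
    (fun t => by rw [← G1 a b h1]; exact (hG _ _).symm) (fun t => L (1, t) + Real.pi * I)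
    ((hL.comp (by fun_prop)).add continuous_const)
    (fun s => by rw [exp_add, e, G1 a b h1, exp_pi_mul_I]; ring)
  have f1 := lam_sub p c b bc.symm
  have f2 := lam_sub p b d bd
  have f3 := lam_sub p d a ad.symm
  have f4 := lam_sub p a c ac
  have hp : (Real.pi : ℂ) * I ≠ 0 := mul_ne_zero (by exact_mod_cast Real.pi_ne_zero) I_ne_zero
  have : (Real.pi : ℂ) * I * ((eps c b + eps b d + eps d a + eps a c
        + 2 * (n c a b + n b c d - n d a b - n a c d) : ℤ) : ℂ) = 0 := by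
    push_cast
    linear_combination -e1 + e2 + e3 - e4 - f1 - f2 - f3 - f4
  exact_mod_cast (mul_eq_zero.1 this).resolve_left hp

end Pool.Agent.H89.BP
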