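import Mathlib
import Pool.Agent.H89.BP2

set_option autoImplicit false

namespace Pool.Agent.H89.BP

open Equiv Equiv.Perm

/-- canonical permutations -/
def sA : Perm (Fin 9) := c[0, 1, 2, 3, 4, 5, 6, 7]
/-- canonical permutations -/
def sB : Perm (Fin 9) := c[0, 1, 2, 3] * c[4, 5, 6, 7]

theorem sA_type : sA.cycleType = {8} := by decide +kernel
theorem sB_type : sB.cycleType = {4, 4} := by decide +kernel
theorem sA_val : ∀ a : Fin 9, (sA a : ℕ) = dg datA.sT a := by decide +kernel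
theorem sB_val : ∀ a : Fin 9, (sB a : ℕ) = dg datB.sT a := by decide +kernel

theorem ctype (σ : Perm (Fin 9)) (g : Fin 9 → Fin 9 → Bool)
    (hs : ∀ a b, a ≠ b → g a b = g b a) (hg : ∀ a b, a ≠ b → g (σ a) (σ b) = !g a b) :
    σ.cycleType = {8} ∨ σ.cycleType = {4, 4} := by
  have it : ∀ (k : ℕ) x y, x ≠ y → g ((σ ^ (2 * k + 1)) x) ((σ ^ (2 * k + 1)) y) = !g x y := by
    intro k x y hxy
    induction k with
    | zero => simpa using hg x y hxy
    | succ k ih =>
      have e : ∀ z, (σ ^ (2 * (k + 1) + 1)) z = σ (σ ((σ ^ (2 * k + 1)) z)) := fun z => by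
        rw [show 2 * (k + 1) + 1 = (2 * k + 1) + 1 + 1 by ring, pow_succ', pow_succ']; rfl
      have n1 : (σ ^ (2 * k + 1)) x ≠ (σ ^ (2 * k + 1)) y := fun h => hxy (Equiv.injective _ h)
      rw [e, e, hg _ _ (fun h => n1 (σ.injective h)), hg _ _ n1, ih]; simp
  have f1 : ∀ (k : ℕ) x y, x ≠ y → (σ ^ (2 * k + 1)) x = x → (σ ^ (2 * k + 1)) y = y → False := by
    intro k x y h a b
    have := it k x y h
    rw [a, b] at this
    simp at this
  have f2 : ∀ (k : ℕ) x y, x ≠ y → (σ ^ (2 * k + 1)) x = y → (σ ^ (2 * k + 1)) y = x → False := by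
    intro k x y h a b
    have := it k x y h
    rw [a, b, hs y x h.symm] at this
    simp at this
  have h4 : ∀ n ∈ σ.cycleType, 4 ∣ n := by
    intro n hn
    obtain ⟨c, τ, hσ, hd, hc, hcard⟩ := mem_cycleType_iff.1 hn
    obtain ⟨x, hx, -⟩ := id hc
    have hpow : ∀ (k : ℕ) y, c y ≠ y → (σ ^ k) y = (c ^ k) y := by
      intro k y hy
      have hτ : τ y = y := (hd y).resolve_left hy
      rw [hσ, hd.commute.mul_pow, Perm.mul_apply, pow_apply_eq_self_of_apply_eq_self hτ]
    have hord : orderOf c = n := by rw [hc.orderOf, hcard]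
    have hn1 : c ^ n = 1 := by rw [← hord]; exact pow_orderOf_eq_one c
    have hcx : c (c x) ≠ c x := fun h => hx (c.injective h)
    by_contra h
    rcases Nat.even_or_odd' n with ⟨k, hk | hk⟩
    · rcases Nat.even_or_odd' k with ⟨j, hj | hj⟩
      · exact h ⟨j, by omega⟩
      · have hne : (c ^ k) x ≠ x := by
          intro e
          have := (hc.pow_eq_one_iff' hx).2 e
          have := orderOf_dvd_of_pow_eq_one this
          rw [hord] at this
          have := Nat.le_of_dvd (by omega) this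
          omega
        have hy : c ((c ^ k) x) ≠ (c ^ k) x := by
          intro e
          rw [← Perm.mul_apply, ← pow_succ', pow_succ, Perm.mul_apply] at e
          exact hx (Equiv.injective _ e)
        refine f2 j x ((c ^ k) x) hne.symm ?_ ?_
        · rw [← hj, hpow _ _ hx]
        · rw [← hj, hpow _ _ hy, ← Perm.mul_apply, ← pow_add, ← two_mul, ← hk, hn1]; rfl
    · refine f1 k x (c x) hx.symm ?_ ?_
      · rw [← hk, hpow _ _ hx, hn1]; rfl
      · rw [← hk, hpow _ _ hcx, hn1]; rfl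
  have hsum : σ.cycleType.sum = σ.support.card := sum_cycleType σ
  have hle : σ.support.card ≤ 9 := by simpa using Finset.card_le_univ σ.support
  have hge : 8 ≤ σ.support.card := by
    have : σ.supportᶜ.card ≤ 1 := by
      rw [Finset.card_le_one]
      intro a ha b hb
      by_contra hab
      simp only [Finset.mem_compl, mem_support, not_not] at ha hb
      exact f1 0 a b hab (by simpa using ha) (by simpa using hb)
    rw [Finset.card_compl] at this
    simp only [Fintype.card_fin] at this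
    omega
  have hdv : 4 ∣ σ.cycleType.sum := Multiset.dvd_sum h4
  have h8 : σ.cycleType.sum = 8 := by omega
  have hmin : ∀ n ∈ σ.cycleType, 4 ≤ n := fun n hn =>
    Nat.le_of_dvd (by have := two_le_of_mem_cycleType hn; omega) (h4 n hn)
  have hc := Multiset.card_nsmul_le_sum hmin
  rw [h8, smul_eq_mul] at hc
  have : σ.cycleType.card = 0 ∨ σ.cycleType.card = 1 ∨ σ.cycleType.card = 2 := by omega
  rcases this with h | h | h
  · rw [Multiset.card_eq_zero.1 h] at h8; simp at h8
  · obtain ⟨a, ha⟩ := Multiset.card_eq_one.1 h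
    rw [ha] at h8 ⊢
    left
    simpa using h8
  · obtain ⟨a, b, ha⟩ := Multiset.card_eq_two.1 h
    have a4 := hmin a (by rw [ha]; simp)
    have b4 := hmin b (by rw [ha]; simp)
    rw [ha] at h8 ⊢
    right
    simp at h8
    rw [show a = 4 by omega, show b = 4 by omega]

theorem nonplanar (σ : Perm (Fin 9)) (g : Fin 9 → Fin 9 → Bool)
    (hs : ∀ a b, a ≠ b → g a b = g b a) (hg : ∀ a b, a ≠ b → g (σ a) (σ b) = !g a b)
    (p : Fin 9 → ℂ) (γ : Fin 9 → Fin 9 → ℝ → ℂ)
    (hc : ∀ a b, a ≠ b → g a b = true →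
      ContinuousOn (γ a b) (Set.Icc 0 1) ∧ γ a b 0 = p a ∧ γ a b 1 = p b)
    (hd : ∀ a b c d, a ≠ b → c ≠ d → g a b = true → g c d = true → a ≠ c → a ≠ d → b ≠ c →
      b ≠ d → ∀ s ∈ Set.Icc (0 : ℝ) 1, ∀ t ∈ Set.Icc (0 : ℝ) 1, γ a b s ≠ γ c d t) : False := by
  have main : ∀ (D : Dat) (s : Perm (Fin 9)), D.c1 → D.c2 = true →
      (∀ a : Fin 9, (s a : ℕ) = dg D.sT a) → s.cycleType = σ.cycleType → False := by
    intro D s h1 h2 h3 h4
    obtain ⟨τ, hτ⟩ := isConj_iff.1 (isConj_iff_cycleType_eq.2 h4)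
    let ρ : ℕ → Fin 9 := fun n => τ (Fin.ofNat 9 n)
    have ρi : ∀ a < 9, ∀ b < 9, a ≠ b → ρ a ≠ ρ b := by
      intro a ha b hb hab h
      have := congrArg Fin.val (τ.injective h)
      simp only [Fin.val_ofNat] at this
      omega
    have ρs : ∀ a < 9, ρ (dg D.sT a) = σ (ρ a) := by
      intro a ha
      have e := h3 ⟨a, ha⟩
      have e1 : Fin.ofNat 9 a = ⟨a, ha⟩ := Fin.ext (Nat.mod_eq_of_lt ha)
      simp only [ρ]
      rw [← hτ, e1]
      simp only [Perm.mul_apply, Perm.inv_def, Equiv.symm_apply_apply]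
      congr 1
      apply Fin.ext
      simp only at e
      rw [Fin.val_ofNat, ← e]
      exact Nat.mod_eq_of_lt (s _).2
    refine D.main h1 h2 (fun a b => g (ρ a) (ρ b)) (fun a ha b hb h => hs _ _ (ρi a ha b hb h))
      (fun a ha b hb h => by rw [ρs a ha, ρs b hb]; exact hg _ _ (ρi a ha b hb h)) ?_
    obtain ⟨n, hn⟩ := ht (fun a b => a < b ∧ b < 9 ∧ g (ρ a) (ρ b) = true) (fun a => p (ρ a))
      (fun a b => γ (ρ a) (ρ b))
      (fun a b h => hc _ _ (ρi a (by omega) b h.2.1 h.1.ne) h.2.2)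
      (fun a b c d h h' x1 x2 x3 x4 => hd _ _ _ _ (ρi a (by omega) b h.2.1 h.1.ne)
        (ρi c (by omega) d h'.2.1 h'.1.ne) h.2.2 h'.2.2 (ρi a (by omega) c (by omega) x1)
        (ρi a (by omega) d (by omega) x2) (ρi b (by omega) c (by omega) x3)
        (ρi b (by omega) d (by omega) x4))
    exact ⟨n, fun a b c d x1 x2 x3 x4 x5 x6 => hn a b c d ⟨x1, x2, x5⟩ ⟨x3, x4, x6⟩⟩
  rcases ctype σ g hs hg with h | h
  · exact main datA sA A1 A2 sA_val (sA_type.trans h.symm)
  · exact main datB sB B1 B2 sB_val (sB_type.trans h.symm)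

end Pool.Agent.H89.BP
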