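import Mathlib

set_option autoImplicit false

namespace Pool.Agent.H89.BP

/-- colouring -/
def col (u v : Fin 9) : Fin 2 := if Nat.testBit 240933908722737161146656 (9 * u + v) then 1 else 0
/-- x coordinates -/
def X : Fin 2 → Fin 9 → ℤ := ![![9, -8, 8, 5, -1, 2, 6, 3, 4], ![-4, -9, -6, 12, -7, 6, -9, 5, 3]]
/-- y coordinates -/
def Y : Fin 2 → Fin 9 → ℤ := ![![11, 7, -12, 0, 3, 1, 3, 4, 1], ![6, -12, 6, -6, -2, 12, 10, -11, 5]]
/-- orientation -/
def ori (i : Fin 2) (a b c : Fin 9) : ℤ :=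
  (X i b - X i a) * (Y i c - Y i a) - (Y i b - Y i a) * (X i c - X i a)
/-- separation -/
def sep (i : Fin 2) (a b c d : Fin 9) : Prop :=
  (0 ≤ ori i a b c ∧ 0 ≤ ori i a b d ∧ 0 < ori i a b c + ori i a b d) ∨
  (ori i a b c ≤ 0 ∧ ori i a b d ≤ 0 ∧ ori i a b c + ori i a b d < 0)

instance (i : Fin 2) (a b c d : Fin 9) : Decidable (sep i a b c d) := by
  unfold sep; infer_instance

/-- crossing tuples -/
def cr8 : Finset (Fin 9 × Fin 9 × Fin 9 × Fin 9) :=
  {(1, 8, 3, 4), (8, 1, 3, 4), (1, 8, 4, 3), (8, 1, 4, 3),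
    (3, 4, 1, 8), (3, 4, 8, 1), (4, 3, 1, 8), (4, 3, 8, 1)}

theorem d0 : ∀ u v, col u v = col v u := by decide +kernel
theorem d1 : ∀ i u v, X i u = X i v → Y i u = Y i v → u = v := by decide +kernel
theorem d2 : ∀ i u v w, u ≠ v → col u v = i → w ≠ u → w ≠ v → ori i u v w ≠ 0 := by
  decide +kernel
theorem d3 : ∀ a b c d, a ≠ b → c ≠ d → col a b = col c d → ¬ (a = c ∧ b = d) →
    ¬ (a = d ∧ b = c) → sep (col a b) a b c d ∨ sep (col a b) c d a b ∨
      (col a b = 1 ∧ (a, b, c, d) ∈ cr8) := by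
  decide +kernel

/-- points -/
def pt (i : Fin 2) (u : Fin 9) : ℂ := ⟨X i u, Y i u⟩
/-- segments -/
def sg (i : Fin 2) (u v : Fin 9) (t : ℝ) : ℂ := pt i u + (t : ℂ) * (pt i v - pt i u)
/-- real orientation -/
def O (i : Fin 2) (a b : Fin 9) (z : ℂ) : ℝ :=
  ((X i b : ℝ) - X i a) * (z.im - Y i a) - ((Y i b : ℝ) - Y i a) * (z.re - X i a)

theorem O_sg (i : Fin 2) (a b c d : Fin 9) (t : ℝ) :
    O i a b (sg i c d t) = (1 - t) * ori i a b c + t * ori i a b d := by
  simp [O, sg, pt, ori]; ring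

theorem O_self (i : Fin 2) (a b : Fin 9) (t : ℝ) : O i a b (sg i a b t) = 0 := by
  simp [O, sg, pt]; ring

theorem O_pt (i : Fin 2) (a b c : Fin 9) : O i a b (pt i c) = ori i a b c := by
  simp [O, pt, ori]

theorem pt_inj (i : Fin 2) : Function.Injective (pt i) := by
  intro u v h
  have h1 := congrArg Complex.re h
  have h2 := congrArg Complex.im h
  simp only [pt] at h1 h2
  exact d1 i u v (by exact_mod_cast h1) (by exact_mod_cast h2)

theorem sg_inj (i : Fin 2) (u v : Fin 9) (h : u ≠ v) : Function.Injective (sg i u v) := by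
  intro s t e
  have : pt i v - pt i u ≠ 0 := sub_ne_zero.2 fun e => h (pt_inj i e).symm
  have e2 := mul_right_cancel₀ this (add_left_cancel e)
  exact_mod_cast e2

theorem sg0 (i : Fin 2) (u v : Fin 9) : sg i u v 0 = pt i u := by simp [sg]
theorem sg1 (i : Fin 2) (u v : Fin 9) : sg i u v 1 = pt i v := by simp [sg]

theorem sg_ne (i : Fin 2) (u v : Fin 9) (h : u ≠ v) (hc : col u v = i) (t : ℝ) (h0 : 0 < t)
    (h1 : t < 1) (w : Fin 9) : sg i u v t ≠ pt i w := by
  intro e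
  by_cases a : w = u
  · rw [a, ← sg0 i u v] at e
    exact h0.ne' (sg_inj i u v h e)
  by_cases b : w = v
  · rw [b, ← sg1 i u v] at e
    exact h1.ne (sg_inj i u v h e)
  have := O_self i u v t
  rw [e, O_pt] at this
  exact d2 i u v w h hc a b (by exact_mod_cast this)

theorem not_sep (i : Fin 2) (a b c d : Fin 9) (s t : ℝ) (h0 : 0 < t) (h1 : t < 1)
    (e : sg i a b s = sg i c d t) : ¬ sep i a b c d := by
  have e1 := O_self i a b s
  rw [e, O_sg] at e1
  rintro (⟨x, y, z⟩ | ⟨x, y, z⟩)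
  · have x' : (0 : ℝ) ≤ ori i a b c := by exact_mod_cast x
    have y' : (0 : ℝ) ≤ ori i a b d := by exact_mod_cast y
    have z' : (0 : ℝ) < ori i a b c + ori i a b d := by exact_mod_cast z
    have := mul_nonneg (sub_nonneg.2 h1.le) x'
    have := mul_nonneg h0.le y'
    rcases x'.eq_or_lt with k | k
    · have := mul_pos h0 (show (0 : ℝ) < ori i a b d by linarith)
      linarith
    · have := mul_pos (sub_pos.2 h1) k
      linarith
  · have x' : (0 : ℝ) ≤ -ori i a b c := by exact_mod_cast neg_nonneg.2 x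
    have y' : (0 : ℝ) ≤ -ori i a b d := by exact_mod_cast neg_nonneg.2 y
    have z' : (ori i a b c : ℝ) + ori i a b d < 0 := by exact_mod_cast z
    have := mul_nonneg (sub_nonneg.2 h1.le) x'
    have := mul_nonneg h0.le y'
    rcases x'.eq_or_lt with k | k
    · have := mul_pos h0 (show (0 : ℝ) < -ori i a b d by linarith)
      linarith
    · have := mul_pos (sub_pos.2 h1) k
      linarith

/-- the crossing point -/
noncomputable def z0 : ℂ := ⟨-963 / 371, -1086 / 371⟩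

theorem cross (a b c d : Fin 9) (z : ℂ) (hab : a ≠ b) (hcd : c ≠ d) (hc : col a b = col c d)
    (n1 : ¬ (a = c ∧ b = d)) (n2 : ¬ (a = d ∧ b = c))
    (h1 : ∃ t : ℝ, 0 < t ∧ t < 1 ∧ sg (col a b) a b t = z)
    (h2 : ∃ t : ℝ, 0 < t ∧ t < 1 ∧ sg (col a b) c d t = z) :
    col a b = 1 ∧ (a, b, c, d) ∈ cr8 ∧ z = z0 := by
  obtain ⟨s, s0, s1, es⟩ := h1
  obtain ⟨t, t0, t1, et⟩ := h2
  rcases d3 a b c d hab hcd hc n1 n2 with h | h | ⟨h, h'⟩
  · exact absurd h (not_sep _ _ _ _ _ s t t0 t1 (es.trans et.symm))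
  · exact absurd h (not_sep _ _ _ _ _ t s s0 s1 (et.trans es.symm))
  refine ⟨h, h', ?_⟩
  have e1 := O_self (col a b) a b s
  have e2 := O_self (col a b) c d t
  rw [es, h] at e1
  rw [et, h] at e2
  clear es et h hc n1 n2 hab hcd
  have x1 : X 1 1 = -9 := rfl
  have x8 : X 1 8 = 3 := rfl
  have x3 : X 1 3 = 12 := rfl
  have x4 : X 1 4 = -7 := rfl
  have y1 : Y 1 1 = -12 := rfl
  have y8 : Y 1 8 = 5 := rfl
  have y3 : Y 1 3 = -6 := rfl
  have y4 : Y 1 4 = -2 := rfl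
  simp only [cr8, Finset.mem_insert, Finset.mem_singleton, Prod.mk.injEq] at h'
  rcases h' with h | h | h | h | h | h | h | h <;> obtain ⟨rfl, rfl, rfl, rfl⟩ := h <;>
    simp only [O, x1, x8, x3, x4, y1, y8, y3, y4] at e1 e2 <;> push_cast at e1 e2 <;>
    apply Complex.ext <;> simp only [z0] <;> linarith

theorem cr8_card : cr8.card = 8 := by decide

end Pool.Agent.H89.BP
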