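import Mathlib

set_option autoImplicit false

namespace Pool.Agent.H89.CN

open Filter Topology Set Metric
open scoped ComplexConjugate

abbrev E2 := EuclideanSpace ℂ (Fin 2)

noncomputable def psi (δ : ℝ) (z : E2) : ℝ := (z 0).re + δ * ‖z‖ ^ 2

lemma nsq (z : E2) : ‖z‖ ^ 2 = (z 0).re ^ 2 + (z 0).im ^ 2 + ((z 1).re ^ 2 + (z 1).im ^ 2) := by
  rw [EuclideanSpace.norm_sq_eq, Fin.sum_univ_two, Complex.sq_norm, Complex.sq_norm,
    Complex.normSq_apply, Complex.normSq_apply]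
  ring

lemma key {f : E2 → ℂ} {p : E2} {V : Set E2} (hV : V ∈ 𝓝 p) (hf : ∀ z ∈ V, DifferentiableAt ℂ f z)
    (h0 : f p = 0) {δ : ℝ} (hδ : 0 < δ) (hp : 0 < (p 0).re) :
    ∃ z ∈ V, f z = 0 ∧ psi δ p < psi δ z := by
  by_contra hcon
  push Not at hcon
  set a : E2 := !₂[1 + 2 * δ * p 0, 2 * δ * p 1] with ha
  set v : E2 := !₂[-conj (2 * δ * p 1), conj (1 + 2 * δ * p 0)] with hv
  set L : ℝ × ℂ → E2 := fun q => p + (q.1 : ℂ) • a + q.2 • v with hL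
  have hLc : Continuous L := by
    simp only [hL]
    fun_prop
  have hL0 : L (0, 0) = p := by simp [hL]
  have hgt : ∀ q : ℝ × ℂ, 0 ≤ q.1 → q ≠ (0, 0) → psi δ p < psi δ (L q) := by
    rintro ⟨t, s⟩ ht hq
    have e1 : psi δ (L (t, s)) = psi δ p + t * ‖a‖ ^ 2 + δ * ((t ^ 2 + ‖s‖ ^ 2) * ‖a‖ ^ 2) := by
      simp only [psi, nsq, hL, ha, hv, Complex.sq_norm, Complex.normSq_apply]
      simp
      ring
    have e2 : 0 < ‖a‖ ^ 2 := by
      rw [nsq]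
      have : 0 < (a 0).re := by
        simp only [ha]
        simp
        positivity
      positivity
    have e3 : 0 < t ^ 2 + ‖s‖ ^ 2 := by
      by_contra h
      have h1 : t = 0 := by nlinarith [sq_nonneg t, sq_nonneg ‖s‖]
      have h2 : ‖s‖ = 0 := by nlinarith [sq_nonneg t, sq_nonneg ‖s‖]
      exact hq (by rw [h1, norm_eq_zero.1 h2])
    rw [e1]
    have : 0 ≤ t * ‖a‖ ^ 2 := by positivity
    have : 0 < δ * ((t ^ 2 + ‖s‖ ^ 2) * ‖a‖ ^ 2) := by positivity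
    linarith
  have hpre : L ⁻¹' V ∈ 𝓝 ((0, 0) : ℝ × ℂ) := hLc.continuousAt.preimage_mem_nhds (by rwa [hL0])
  obtain ⟨ρ, hρ, hball⟩ := Metric.nhds_basis_closedBall.mem_iff.1 hpre
  have hin : ∀ t ∈ Icc (0 : ℝ) ρ, ∀ s ∈ closedBall (0 : ℂ) ρ, L (t, s) ∈ V := by
    intro t ht s hs
    apply hball
    rw [← closedBall_prod_same]
    exact ⟨by simpa [abs_of_nonneg ht.1] using ht.2, hs⟩
  have hne : ∀ t ∈ Icc (0 : ℝ) ρ, ∀ s ∈ closedBall (0 : ℂ) ρ, (t, s) ≠ (0, 0) →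
      f (L (t, s)) ≠ 0 := fun t ht s hs hq h =>
    absurd (hgt (t, s) ht.1 hq) (not_lt.2 (hcon _ (hin t ht s hs) h))
  have hcomp : IsCompact (Icc (0 : ℝ) ρ ×ˢ sphere (0 : ℂ) ρ) :=
    isCompact_Icc.prod (isCompact_sphere _ _)
  have hcont : ContinuousOn (fun q => ‖(f (L q))⁻¹‖) (Icc (0 : ℝ) ρ ×ˢ sphere (0 : ℂ) ρ) := by
    rintro ⟨t, s⟩ ⟨ht, hs⟩
    apply ContinuousAt.continuousWithinAt
    refine (ContinuousAt.inv₀ ?_ ?_).norm
    · exact ContinuousAt.comp (hf _ (hin t ht s (sphere_subset_closedBall hs))).continuousAt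
        hLc.continuousAt
    · refine hne t ht s (sphere_subset_closedBall hs) fun h => ?_
      have : s = 0 := congrArg Prod.snd h
      rw [this] at hs
      simp at hs
      linarith
  obtain ⟨B, hB⟩ := hcomp.bddAbove_image hcont
  have hbd : ∀ t ∈ Ioc (0 : ℝ) ρ, 1 ≤ B * ‖f (L (t, 0))‖ := by
    intro t ht
    have ht' : t ∈ Icc (0 : ℝ) ρ := ⟨ht.1.le, ht.2⟩
    have hn : ∀ s ∈ closedBall (0 : ℂ) ρ, f (L (t, s)) ≠ 0 := fun s hs =>
      hne t ht' s hs fun h => ht.1.ne' (congrArg Prod.fst h)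
    have hd : DiffContOnCl ℂ (fun s => (f (L (t, s)))⁻¹) (ball (0 : ℂ) ρ) := by
      apply DifferentiableOn.diffContOnCl
      rw [closure_ball _ hρ.ne']
      intro s hs
      apply DifferentiableAt.differentiableWithinAt
      refine DifferentiableAt.inv ?_ (hn s hs)
      refine DifferentiableAt.comp s (hf _ (hin t ht' s hs)) ?_
      simp only [hL]
      fun_prop
    have := Complex.norm_le_of_forall_mem_frontier_norm_le isBounded_ball hd (C := B) (by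
      intro s hs
      rw [frontier_ball _ hρ.ne'] at hs
      exact hB ⟨(t, s), ⟨ht', hs⟩, rfl⟩) (subset_closure (mem_ball_self hρ))
    rw [norm_inv, inv_le_iff_one_le_mul₀ (norm_pos_iff.2 (hn 0 (mem_closedBall_self hρ.le)))]
      at this
    exact this
  have hlim : Tendsto (fun t : ℝ => B * ‖f (L (t, 0))‖) (𝓝[>] 0) (𝓝 (B * ‖f (L (0, 0))‖)) := by
    apply tendsto_nhdsWithin_of_tendsto_nhds
    have : ContinuousAt f (L (0, 0)) := by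
      rw [hL0]; exact (hf p (mem_of_mem_nhds hV)).continuousAt
    have h2 : ContinuousAt (fun t : ℝ => f (L (t, 0))) 0 :=
      ContinuousAt.comp (f := fun t : ℝ => L (t, 0)) this (by fun_prop)
    exact (h2.norm.const_mul B)
  have := ge_of_tendsto hlim (by
    filter_upwards [Ioc_mem_nhdsGT hρ] with t ht using hbd t ht)
  rw [hL0, h0] at this
  simp at this
  linarith

noncomputable def th (x : ℝ) : ℝ := expNegInvGlue x

lemma th1 (x : ℝ) : HasDerivAt th (x⁻¹ ^ 2 * th x) x := by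
  have := expNegInvGlue.hasDerivAt_polynomial_eval_inv_mul 1 x
  simp only [Polynomial.eval_one, one_mul, Polynomial.derivative_one, sub_zero, mul_one,
    Polynomial.eval_pow, Polynomial.eval_X] at this
  exact this

lemma th2 (x : ℝ) : HasDerivAt (fun x => x⁻¹ ^ 2 * th x) ((x⁻¹ ^ 4 - 2 * x⁻¹ ^ 3) * th x) x := by
  have := expNegInvGlue.hasDerivAt_polynomial_eval_inv_mul (Polynomial.X ^ 2) x
  simp only [Polynomial.eval_pow, Polynomial.eval_X, Polynomial.eval_mul, Polynomial.eval_sub,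
    Polynomial.derivative_X_pow, Polynomial.eval_C] at this
  refine this.congr_deriv ?_
  simp only [th]
  push_cast
  ring

lemma th_le (x : ℝ) : x⁻¹ ^ 2 * th x ≤ 2 := by
  rcases le_or_gt x 0 with h | h
  · simp [th, expNegInvGlue.zero_of_nonpos h]
  · have : th x = Real.exp (-x⁻¹) := by simp [th, expNegInvGlue, not_le.2 h]
    rw [this, Real.exp_neg, mul_inv_le_iff₀ (Real.exp_pos _)]
    have h1 := Real.quadratic_le_exp_of_nonneg (inv_pos.2 h).le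
    have h2 := inv_pos.2 h
    linarith

lemma th2_nonneg {x : ℝ} (hx : x ≤ 1 / 2) : 0 ≤ (x⁻¹ ^ 4 - 2 * x⁻¹ ^ 3) * th x := by
  rcases le_or_gt x 0 with h | h
  · simp [th, expNegInvGlue.zero_of_nonpos h]
  · apply mul_nonneg _ (expNegInvGlue.nonneg x)
    have h1 : 2 ≤ x⁻¹ := by
      rw [le_inv_comm₀ (by norm_num) h]
      linarith
    have : 0 ≤ x⁻¹ ^ 3 * (x⁻¹ - 2) := mul_nonneg (by positivity) (by linarith)
    linarith

noncomputable def d2 (v : E2 → ℝ) (p ξ : E2) : ℝ := deriv (deriv fun t : ℝ => v (p + t • ξ)) 0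

lemma d2_congr {v v' : E2 → ℝ} {p : E2} (h : v =ᶠ[𝓝 p] v') (ξ : E2) : d2 v p ξ = d2 v' p ξ := by
  have hc : Tendsto (fun t : ℝ => p + t • ξ) (𝓝 0) (𝓝 p) := by
    have : Continuous fun t : ℝ => p + t • ξ := by fun_prop
    simpa using this.tendsto 0
  have : (fun t : ℝ => v (p + t • ξ)) =ᶠ[𝓝 0] fun t : ℝ => v' (p + t • ξ) := hc.eventually h
  exact this.deriv.deriv_eq

lemma line (p ξ : E2) (i : Fin 2) (t : ℝ) : ‖(p + t • ξ) i‖ ^ 2 =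
    ‖p i‖ ^ 2 + 2 * ((p i).re * (ξ i).re + (p i).im * (ξ i).im) * t + ‖ξ i‖ ^ 2 * t ^ 2 := by
  simp only [Complex.sq_norm, Complex.normSq_apply]
  simp
  ring

noncomputable def v1 (y : E2) : ℝ := 3 * ‖y 1‖ ^ 2

noncomputable def v0 (y : E2) : ℝ := 3 * ‖y 1‖ ^ 2 + th (‖y 0‖ ^ 2 - ‖y 1‖ ^ 2 + 1 / 4)

lemma cd (i : Fin 2) : ContDiff ℝ (⊤ : ℕ∞) fun y : E2 => ‖y i‖ ^ 2 := by
  have : ContDiff ℝ (⊤ : ℕ∞) fun y : E2 => y i :=
    ((EuclideanSpace.proj i : E2 →L[ℂ] ℂ).restrictScalars ℝ).contDiff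
  exact this.norm_sq ℝ

lemma cd1 : ContDiff ℝ (⊤ : ℕ∞) v1 := contDiff_const.mul (cd 1)

lemma cd0 : ContDiff ℝ (⊤ : ℕ∞) v0 :=
  (contDiff_const.mul (cd 1)).add
    (expNegInvGlue.contDiff.comp (((cd 0).sub (cd 1)).add contDiff_const))

lemma quad (a b c t : ℝ) : HasDerivAt (fun t : ℝ => a + b * t + c * t ^ 2) (b + 2 * c * t) t := by
  have := (((hasDerivAt_id t).const_mul b).const_add a).add ((hasDerivAt_pow 2 t).const_mul c)
  refine this.congr_deriv ?_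
  simp
  ring

lemma lin (b c t : ℝ) : HasDerivAt (fun t : ℝ => b + 2 * c * t) (2 * c) t := by
  simpa using ((hasDerivAt_id t).const_mul (2 * c)).const_add b

lemma d2v1 (p ξ : E2) : d2 v1 p ξ = 6 * ‖ξ 1‖ ^ 2 := by
  unfold d2 v1
  simp only [line]
  generalize 2 * ((p 1).re * (ξ 1).re + (p 1).im * (ξ 1).im) = b1
  have h : deriv (fun t : ℝ => 3 * (‖p 1‖ ^ 2 + b1 * t + ‖ξ 1‖ ^ 2 * t ^ 2))
      = fun t => 3 * (b1 + 2 * ‖ξ 1‖ ^ 2 * t) :=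
    funext fun t => ((quad _ _ _ t).const_mul 3).deriv
  rw [h, ((lin _ _ 0).const_mul 3).deriv]
  ring

lemma d2v0 (p ξ : E2) (hp : ‖p 0‖ ^ 2 ≤ 1 / 4) :
    2 * ‖ξ 1‖ ^ 2 + 2 * ((‖p 0‖ ^ 2 - ‖p 1‖ ^ 2 + 1 / 4)⁻¹ ^ 2 *
      th (‖p 0‖ ^ 2 - ‖p 1‖ ^ 2 + 1 / 4)) * ‖ξ 0‖ ^ 2 ≤ d2 v0 p ξ := by
  unfold d2 v0
  simp only [line]
  generalize 2 * ((p 0).re * (ξ 0).re + (p 0).im * (ξ 0).im) = b0
  generalize 2 * ((p 1).re * (ξ 1).re + (p 1).im * (ξ 1).im) = b1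
  have hq : ∀ t : ℝ, HasDerivAt (fun t : ℝ => ‖p 0‖ ^ 2 + b0 * t + ‖ξ 0‖ ^ 2 * t ^ 2 -
      (‖p 1‖ ^ 2 + b1 * t + ‖ξ 1‖ ^ 2 * t ^ 2) + 1 / 4)
      (b0 + 2 * ‖ξ 0‖ ^ 2 * t - (b1 + 2 * ‖ξ 1‖ ^ 2 * t)) t :=
    fun t => ((quad _ _ _ t).sub (quad _ _ _ t)).add_const _
  have h1 := fun t : ℝ => (((quad (‖p 1‖ ^ 2) b1 (‖ξ 1‖ ^ 2) t).const_mul 3).fun_add
    ((th1 _).comp t (hq t))).deriv
  simp only [Function.comp_apply] at h1
  erw [funext h1]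
  have h2 := (((lin b1 (‖ξ 1‖ ^ 2) 0).const_mul 3).fun_add
    (((th2 _).comp 0 (hq 0)).fun_mul ((lin b0 (‖ξ 0‖ ^ 2) 0).fun_sub (lin b1 (‖ξ 1‖ ^ 2) 0)))).deriv
  simp only [Function.comp_apply] at h2
  rw [h2]
  simp only [mul_zero, add_zero, ne_eq, OfNat.ofNat_ne_zero, not_false_eq_true, zero_pow]
  have e1 := th_le (‖p 0‖ ^ 2 - ‖p 1‖ ^ 2 + 1 / 4)
  have e2 := th2_nonneg (x := ‖p 0‖ ^ 2 - ‖p 1‖ ^ 2 + 1 / 4) (by nlinarith [sq_nonneg ‖p 1‖])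
  have e3 := mul_nonneg e2 (sq_nonneg (b0 - b1))
  have e4 := mul_le_mul_of_nonneg_right e1 (sq_nonneg ‖ξ 1‖)
  nlinarith

end Pool.Agent.H89.CN
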