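import Mathlib
import Pool.Agent.H89.CN1

set_option autoImplicit false

namespace Pool.Agent.H89.CN

open Filter Topology Set Metric
open scoped ComplexConjugate Manifold ContDiff

abbrev S2 := {q : ℂ × ℝ // ‖q.1‖ ^ 2 + q.2 ^ 2 = 1}

def MM : Type := S2 × ℂ

noncomputable instance : TopologicalSpace MM := inferInstanceAs (TopologicalSpace (S2 × ℂ))
instance : T2Space MM := inferInstanceAs (T2Space (S2 × ℂ))
instance : SecondCountableTopology MM := inferInstanceAs (SecondCountableTopology (S2 × ℂ))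

instance : CompactSpace S2 := by
  apply isCompact_iff_compactSpace.1
  apply Metric.isCompact_of_isClosed_isBounded
  · exact isClosed_eq (by fun_prop) continuous_const
  · refine (Metric.isBounded_closedBall (x := (0 : ℂ × ℝ)) (r := 1)).subset ?_
    rintro ⟨z, t⟩ h
    have h' : ‖z‖ ^ 2 + t ^ 2 = 1 := h
    rw [mem_closedBall_zero_iff, Prod.norm_def, max_le_iff]
    constructor
    · show ‖z‖ ≤ 1
      nlinarith [sq_nonneg t, norm_nonneg z]
    · show ‖t‖ ≤ 1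
      rw [Real.norm_eq_abs, abs_le]
      constructor <;> nlinarith [sq_nonneg ‖z‖]

noncomputable def sinv (z : ℂ) : S2 :=
  ⟨(2 * z / ((1 + ‖z‖ ^ 2 : ℝ) : ℂ), (‖z‖ ^ 2 - 1) / (1 + ‖z‖ ^ 2)), by
    have h : 0 < 1 + ‖z‖ ^ 2 := by positivity
    simp only [norm_div, norm_mul, Complex.norm_real, Real.norm_of_nonneg h.le, Complex.norm_ofNat]
    field_simp
    ring⟩

noncomputable def sto (q : S2) : ℂ := q.1.1 / ((1 - q.1.2 : ℝ) : ℂ)

lemma sinv_ne (z : ℂ) : (sinv z).1.2 ≠ 1 := by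
  have h : 0 < 1 + ‖z‖ ^ 2 := by positivity
  show (‖z‖ ^ 2 - 1) / (1 + ‖z‖ ^ 2) ≠ 1
  rw [Ne, div_eq_one_iff_eq h.ne']
  linarith

lemma sto_sinv (z : ℂ) : sto (sinv z) = z := by
  have h : 0 < 1 + ‖z‖ ^ 2 := by positivity
  show 2 * z / ((1 + ‖z‖ ^ 2 : ℝ) : ℂ) / ((1 - (‖z‖ ^ 2 - 1) / (1 + ‖z‖ ^ 2) : ℝ) : ℂ) = z
  have e : 1 - (‖z‖ ^ 2 - 1) / (1 + ‖z‖ ^ 2) = 2 / (1 + ‖z‖ ^ 2) := by
    field_simp
    ring
  rw [e, Complex.ofReal_div]
  have : ((1 + ‖z‖ ^ 2 : ℝ) : ℂ) ≠ 0 := by exact_mod_cast h.ne'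
  generalize ((1 + ‖z‖ ^ 2 : ℝ) : ℂ) = c at this
  push_cast
  field_simp

lemma sinv_sto (q : S2) (hq : q.1.2 ≠ 1) : sinv (sto q) = q := by
  obtain ⟨⟨z, t⟩, h⟩ := q
  have h' : ‖z‖ ^ 2 + t ^ 2 = 1 := h
  have ht : 1 - t ≠ 0 := sub_ne_zero.2 (Ne.symm hq)
  have e : ‖sto ⟨(z, t), h⟩‖ ^ 2 = (1 + t) / (1 - t) := by
    show ‖z / ((1 - t : ℝ) : ℂ)‖ ^ 2 = _
    rw [norm_div, div_pow, Complex.norm_real, Real.norm_eq_abs, sq_abs]
    field_simp
    nlinarith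
  have e2 : 1 + (1 + t) / (1 - t) = 2 / (1 - t) := by
    field_simp
    ring
  apply Subtype.ext
  apply Prod.ext
  · show 2 * sto ⟨(z, t), h⟩ / ((1 + ‖sto ⟨(z, t), h⟩‖ ^ 2 : ℝ) : ℂ) = z
    rw [e, e2, Complex.ofReal_div]
    show 2 * (z / ((1 - t : ℝ) : ℂ)) / _ = z
    have : ((1 - t : ℝ) : ℂ) ≠ 0 := by exact_mod_cast ht
    generalize ((1 - t : ℝ) : ℂ) = c at this
    push_cast
    field_simp
  · show (‖sto ⟨(z, t), h⟩‖ ^ 2 - 1) / (1 + ‖sto ⟨(z, t), h⟩‖ ^ 2) = t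
    rw [e, e2]
    field_simp
    ring

lemma cont_sinv : Continuous sinv := by
  apply Continuous.subtype_mk
  apply Continuous.prodMk
  · refine Continuous.div (by fun_prop) (by fun_prop) fun z => ?_
    have h : 0 < 1 + ‖z‖ ^ 2 := by positivity
    exact_mod_cast h.ne'
  · refine Continuous.div (by fun_prop) (by fun_prop) fun z => ?_
    positivity

lemma cont_sto : ContinuousOn sto {q | q.1.2 ≠ 1} := by
  refine ContinuousOn.div (by fun_prop) (by fun_prop) fun q hq => ?_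
  have : 1 - q.1.2 ≠ 0 := sub_ne_zero.2 (Ne.symm hq)
  exact_mod_cast this

def rf (q : S2) : S2 := ⟨(conj q.1.1, -q.1.2), by simpa using q.2⟩

lemma rf_rf (q : S2) : rf (rf q) = q := by
  apply Subtype.ext
  simp [rf]

lemma cont_rf : Continuous rf := Continuous.subtype_mk (by fun_prop) _

lemma sto_rf (z : ℂ) (hz : (rf (sinv z)).1.2 ≠ 1) : z ≠ 0 ∧ sto (rf (sinv z)) = z⁻¹ := by
  have h : 0 < 1 + ‖z‖ ^ 2 := by positivity
  have h0 : z ≠ 0 := by
    rintro rfl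
    apply hz
    simp [rf, sinv]
  refine ⟨h0, ?_⟩
  show conj (2 * z / ((1 + ‖z‖ ^ 2 : ℝ) : ℂ)) /
    ((1 - -((‖z‖ ^ 2 - 1) / (1 + ‖z‖ ^ 2)) : ℝ) : ℂ) = z⁻¹
  have e : 1 - -((‖z‖ ^ 2 - 1) / (1 + ‖z‖ ^ 2)) = 2 * ‖z‖ ^ 2 / (1 + ‖z‖ ^ 2) := by
    field_simp
    ring
  rw [e, Complex.ofReal_div, map_div₀, Complex.conj_ofReal, map_mul]
  have : ((1 + ‖z‖ ^ 2 : ℝ) : ℂ) ≠ 0 := by exact_mod_cast h.ne'
  generalize ((1 + ‖z‖ ^ 2 : ℝ) : ℂ) = c at this
  have h2 : conj z ≠ 0 := by simpa using h0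
  push_cast
  rw [← Complex.mul_conj', map_ofNat]
  field_simp

noncomputable def ch (ρ : S2 → S2) (h1 : ∀ q, ρ (ρ q) = q) (h2 : Continuous ρ) :
    OpenPartialHomeomorph MM E2 where
  toFun m := !₂[sto (ρ m.1), m.2]
  invFun y := (ρ (sinv (y 0)), y 1)
  source := {m | (ρ m.1).1.2 ≠ 1}
  target := univ
  map_source' _ _ := trivial
  map_target' y _ := by
    show (ρ (ρ (sinv (y 0)))).1.2 ≠ 1
    rw [h1]
    exact sinv_ne _
  left_inv' m hm := by
    show (ρ (sinv (sto (ρ m.1))), m.2) = m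
    rw [sinv_sto _ hm, h1]
    rfl
  right_inv' y _ := by
    show !₂[sto (ρ (ρ (sinv (y 0)))), y 1] = y
    rw [h1, sto_sinv]
    ext i
    fin_cases i <;> rfl
  open_source := by
    have : Continuous fun m : S2 × ℂ => (ρ m.1).1.2 := by fun_prop
    exact isOpen_ne_fun this continuous_const
  open_target := isOpen_univ
  continuousOn_toFun := by
    refine (PiLp.continuous_toLp 2 _).comp_continuousOn (continuousOn_pi.2 fun i => ?_)
    fin_cases i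
    · exact cont_sto.comp (h2.comp continuous_fst).continuousOn fun m hm => hm
    · exact continuous_snd.continuousOn
  continuousOn_invFun := by
    apply Continuous.continuousOn
    exact (h2.comp (cont_sinv.comp (by fun_prop))).prodMk (by fun_prop)

noncomputable def c0 : OpenPartialHomeomorph MM E2 := ch id (fun _ => rfl) continuous_id
noncomputable def c1 : OpenPartialHomeomorph MM E2 := ch rf rf_rf cont_rf

open Classical in
noncomputable instance : ChartedSpace E2 MM where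
  atlas := {c0, c1}
  chartAt m := if m.1.1.2 = 1 then c1 else c0
  mem_chart_source m := by
    split_ifs with h
    · show -m.1.1.2 ≠ 1
      rw [h]
      norm_num
    · exact h
  chart_mem_atlas m := by
    split_ifs <;> simp

lemma chart_eq (m : MM) (h : m.1.1.2 ≠ 1) : chartAt E2 m = c0 := if_neg h

lemma chart_cases (m : MM) : chartAt E2 m = c0 ∨ chartAt E2 m = c1 := chart_mem_atlas E2 m

lemma cdinv : ContDiffOn ℂ ω (fun y : E2 => (!₂[(y 0)⁻¹, y 1] : E2)) {y | y 0 ≠ 0} := by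
  rw [contDiffOn_euclidean]
  intro i
  fin_cases i
  · exact ContDiffOn.inv (EuclideanSpace.proj (0 : Fin 2) : E2 →L[ℂ] ℂ).contDiff.contDiffOn
      fun y hy => hy
  · exact (EuclideanSpace.proj (1 : Fin 2) : E2 →L[ℂ] ℂ).contDiff.contDiffOn

instance : IsManifold 𝓘(ℂ, E2) ω MM := by
  apply isManifold_of_contDiffOn
  intro e e' he he'
  simp only [modelWithCornersSelf_coe, modelWithCornersSelf_coe_symm, Function.comp_id,
    Function.id_comp, preimage_id_eq, id_eq, range_id, inter_univ]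
  have same : ∀ c : OpenPartialHomeomorph MM E2,
      ContDiffOn ℂ ω (c.symm ≫ₕ c) (c.symm ≫ₕ c).source := fun c =>
    contDiffOn_id.congr fun y hy => c.right_inv hy.1
  rcases he with rfl | rfl <;> rcases he' with rfl | rfl
  · exact same _
  · refine (cdinv.mono fun y hy => (sto_rf (y 0) hy.2).1).congr fun y hy => ?_
    show (!₂[sto (rf (sinv (y 0))), y 1] : E2) = _
    rw [(sto_rf (y 0) hy.2).2]
  · refine (cdinv.mono fun y hy => (sto_rf (y 0) hy.2).1).congr fun y hy => ?_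
    show (!₂[sto (rf (sinv (y 0))), y 1] : E2) = _
    rw [(sto_rf (y 0) hy.2).2]
  · exact same _

def KK : Set MM := {m | ‖m.2‖ = 1 ∨ (m.1 = sinv 0 ∧ ‖m.2‖ ≤ 1)}

lemma KK_compact : IsCompact KK := by
  have : KK = (univ ×ˢ sphere (0 : ℂ) 1 ∪ {sinv 0} ×ˢ closedBall (0 : ℂ) 1 : Set (S2 × ℂ)) := by
    ext ⟨q, w⟩
    show _ ↔ (q, w) ∈ (univ ×ˢ sphere (0 : ℂ) 1 ∪ {sinv 0} ×ˢ closedBall (0 : ℂ) 1 : Set (S2 × ℂ))
    simp only [mem_union, mem_prod, mem_univ, true_and, mem_sphere_zero_iff_norm,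
      mem_singleton_iff, mem_closedBall_zero_iff]
    rfl
  rw [this]
  exact (isCompact_univ.prod (isCompact_sphere _ _)).union
    (isCompact_singleton.prod (isCompact_closedBall _ _))

lemma chart_diff {Φ : E2 → MM} {U : Set E2} (hU : IsOpen U)
    (hΦ : MDifferentiableOn 𝓘(ℂ, E2) 𝓘(ℂ, E2) Φ U) {p : E2} (hp : p ∈ U) :
    ∀ᶠ y in 𝓝 p, Φ y ∈ (chartAt E2 (Φ p)).source ∧
      DifferentiableAt ℂ (chartAt E2 (Φ p) ∘ Φ) y := by
  have h1 : ContinuousAt Φ p := (hΦ.mdifferentiableAt (hU.mem_nhds hp)).continuousAt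
  filter_upwards [h1.preimage_mem_nhds (chart_source_mem_nhds E2 (Φ p)), hU.mem_nhds hp]
    with y hy hyU
  refine ⟨hy, mdifferentiableAt_iff_differentiableAt.1 ?_⟩
  exact (mdifferentiableAt_atlas (I := 𝓘(ℂ, E2)) (chart_mem_atlas E2 (Φ p)) hy).comp y
    (hΦ.mdifferentiableAt (hU.mem_nhds hyU))

lemma chart_snd (m m' : MM) : chartAt E2 m m' 1 = m'.2 := by
  rcases chart_cases m with h | h <;> rw [h] <;> rfl

lemma chart_symm_snd (m : MM) (y : E2) : ((chartAt E2 m).symm y).2 = y 1 := by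
  rcases chart_cases m with h | h <;> rw [h] <;> rfl

lemma loc {Φ : E2 → MM} {U : Set E2} (hU : IsOpen U)
    (hΦ : MDifferentiableOn 𝓘(ℂ, E2) 𝓘(ℂ, E2) Φ U) {p : E2} (hp : p ∈ U) (hK : Φ p ∈ KK)
    {V : Set E2} (hV : V ∈ 𝓝 p) {δ : ℝ} (hδ : 0 < δ) (hre : 0 < (p 0).re) :
    ∃ z ∈ V, Φ z ∈ KK ∧ psi δ p < psi δ z := by
  have hd := chart_diff hU hΦ hp
  have pr : ∀ (i : Fin 2) (y : E2), DifferentiableAt ℂ (fun y : E2 => y i) y := fun i y =>
    (EuclideanSpace.proj i : E2 →L[ℂ] ℂ).differentiableAt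
  by_cases h1 : ‖(Φ p).2‖ = 1
  · obtain ⟨z, hz, h2, h3⟩ := key (f := fun y => chartAt E2 (Φ p) (Φ y) 1 - (Φ p).2)
      (inter_mem hV hd) (fun z hz => ((pr 1 _).comp z hz.2.2).sub_const _)
      (by rw [chart_snd, sub_self]) hδ hre
    refine ⟨z, hz.1, Or.inl ?_, h3⟩
    rw [chart_snd, sub_eq_zero] at h2
    rw [h2, h1]
  · obtain ⟨h2, h3⟩ := hK.resolve_left h1
    have h4 : ‖(Φ p).2‖ < 1 := lt_of_le_of_ne h3 h1
    have h5 : chartAt E2 (Φ p) = c0 := chart_eq _ (by rw [h2]; exact sinv_ne 0)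
    have h6 : ContinuousAt (fun y => ‖(Φ y).2‖) p :=
      (continuous_snd.continuousAt.comp
        (hΦ.mdifferentiableAt (hU.mem_nhds hp)).continuousAt).norm
    have h7 : ∀ᶠ y in 𝓝 p, ‖(Φ y).2‖ < 1 := h6.eventually (gt_mem_nhds h4)
    rw [h5] at hd
    obtain ⟨z, hz, h8, h9⟩ := key (f := fun y => c0 (Φ y) 0)
      (inter_mem hV (inter_mem hd h7)) (fun z hz => (pr 0 _).comp z hz.2.1.2)
      (by
        show sto (Φ p).1 = 0
        rw [h2, sto_sinv]) hδ hre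
    refine ⟨z, hz.1, Or.inr ⟨?_, le_of_lt hz.2.2⟩, h9⟩
    have : sto (Φ z).1 = 0 := h8
    rw [← this]
    exact (sinv_sto _ hz.2.1.1).symm

lemma nocut {r : ℝ} (hr : 0 < r) {Φ : E2 → MM} {U : Set E2} (hU : IsOpen U)
    (hs : {z : E2 | ‖z‖ ≤ 1 ∧ r ≤ (z 0).re} ⊆ U)
    (hΦ : MDifferentiableOn 𝓘(ℂ, E2) 𝓘(ℂ, E2) Φ U)
    (hd : Disjoint (Φ '' {z : E2 | ‖z‖ = 1 ∧ r ≤ (z 0).re}) KK) :
    Disjoint KK (Φ '' interior {z : E2 | ‖z‖ ≤ 1 ∧ r ≤ (z 0).re}) := by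
  rw [Set.disjoint_right]
  rintro _ ⟨p0, hp0, rfl⟩ hK
  set D := {z : E2 | ‖z‖ ≤ 1 ∧ r ≤ (z 0).re} with hD
  have hre : Continuous fun z : E2 => (z 0).re := by fun_prop
  have hDc : IsCompact D := by
    refine (isCompact_closedBall (0 : E2) 1).of_isClosed_subset ?_ fun z hz => by simpa using hz.1
    exact (isClosed_le continuous_norm continuous_const).inter (isClosed_le continuous_const hre)
  have h0 : r < (p0 0).re := by
    have hc : Tendsto (fun t : ℝ => p0 - (t : ℂ) • (!₂[1, 0] : E2)) (𝓝[>] 0) (𝓝 p0) := by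
      apply tendsto_nhdsWithin_of_tendsto_nhds
      have : Continuous fun t : ℝ => p0 - (t : ℂ) • (!₂[1, 0] : E2) := by fun_prop
      simpa using this.tendsto 0
    obtain ⟨t, h1, h2⟩ := ((hc.eventually (mem_interior_iff_mem_nhds.1 hp0)).and
      self_mem_nhdsWithin).exists
    have h3 := h1.2
    have h4 : 0 < t := h2
    simp at h3
    linarith
  have hA : IsCompact (D ∩ Φ ⁻¹' KK) := hDc.of_isClosed_subset
    ((hΦ.continuousOn.mono hs).preimage_isClosed_of_isClosed hDc.isClosed KK_compact.isClosed)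
    inter_subset_left
  set δ := ((p0 0).re - r) / 2 with hδ
  have hδ0 : 0 < δ := by rw [hδ]; linarith
  obtain ⟨p, hp, hmax⟩ := hA.exists_isMaxOn ⟨p0, interior_subset hp0, hK⟩
    (f := psi δ) (by unfold psi; fun_prop)
  have h1 : r < (p 0).re := by
    have e1 : psi δ p0 ≤ psi δ p := hmax ⟨interior_subset hp0, hK⟩
    unfold psi at e1
    have e2 : ‖p‖ ^ 2 ≤ 1 := pow_le_one₀ (norm_nonneg _) hp.1.1
    have e3 : 0 ≤ δ * ‖p0‖ ^ 2 := by positivity
    nlinarith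
  have h2 : ‖p‖ < 1 := lt_of_le_of_ne hp.1.1 fun h =>
    Set.disjoint_left.1 hd ⟨p, ⟨h, h1.le⟩, rfl⟩ hp.2
  have hV : D ∈ 𝓝 p := by
    filter_upwards [continuous_norm.continuousAt.eventually (gt_mem_nhds h2),
      hre.continuousAt.eventually (lt_mem_nhds h1)] with z a b using ⟨le_of_lt a, le_of_lt b⟩
  obtain ⟨z, hz, h3, h4⟩ := loc hU hΦ (hs hp.1) hp.2 hV hδ0 (hr.trans h1)
  exact absurd (hmax ⟨hz, h3⟩) (not_le.2 h4)

def W0 : Set MM := c0.source ∩ c0 ⁻¹' {y | ‖y 0‖ ^ 2 < 1 / 8}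
def W1 : Set MM := {m | 1 / 2 < ‖m.2‖ ^ 2}

lemma W0_open : IsOpen W0 := c0.isOpen_inter_preimage (isOpen_lt (by fun_prop) continuous_const)

lemma W1_open : IsOpen W1 := by
  have : Continuous fun m : S2 × ℂ => ‖m.2‖ ^ 2 := by fun_prop
  exact isOpen_lt continuous_const this

open Classical in
noncomputable def uu (m : MM) : ℝ := if m ∈ W0 then v0 (c0 m) else 3 * ‖m.2‖ ^ 2

lemma uu1 {m : MM} (h : m ∈ W1) : uu m = 3 * ‖m.2‖ ^ 2 := by
  unfold uu
  split_ifs with h0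
  · have e1 : ‖c0 m 0‖ ^ 2 < 1 / 8 := h0.2
    have e2 : 1 / 2 < ‖c0 m 1‖ ^ 2 := h
    unfold v0 th
    rw [expNegInvGlue.zero_of_nonpos (by linarith), add_zero]
    rfl
  · rfl

lemma ev1 {m : MM} (h : m ∈ W1) : uu ∘ (chartAt E2 m).symm =ᶠ[𝓝 (chartAt E2 m m)] v1 := by
  have := (chartAt E2 m).continuousAt_symm (mem_chart_target E2 m)
  have h2 : W1 ∈ 𝓝 ((chartAt E2 m).symm (chartAt E2 m m)) := by
    rw [(chartAt E2 m).left_inv (mem_chart_source E2 m)]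
    exact W1_open.mem_nhds h
  filter_upwards [this.preimage_mem_nhds h2] with y hy
  rw [Function.comp_apply, uu1 hy, chart_symm_snd]
  rfl

lemma ev0 {m : MM} (h : m ∈ W0) : uu ∘ (chartAt E2 m).symm =ᶠ[𝓝 (chartAt E2 m m)] v0 := by
  rw [chart_eq m h.1]
  have := c0.continuousAt_symm (c0.map_source h.1)
  have h2 : W0 ∈ 𝓝 (c0.symm (c0 m)) := by
    rw [c0.left_inv h.1]
    exact W0_open.mem_nhds h
  filter_upwards [this.preimage_mem_nhds h2] with y hy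
  have hy' : c0.symm y ∈ W0 := hy
  rw [Function.comp_apply, uu, if_pos hy', c0.right_inv trivial]

lemma KK_sub : KK ⊆ W0 ∪ W1 := by
  rintro m (h | ⟨h, -⟩)
  · right
    show 1 / 2 < ‖m.2‖ ^ 2
    rw [h]; norm_num
  · left
    refine ⟨show m.1.1.2 ≠ 1 by rw [h]; exact sinv_ne 0, ?_⟩
    show ‖sto m.1‖ ^ 2 < 1 / 8
    rw [h, sto_sinv]
    norm_num

end Pool.Agent.H89.CN
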