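import Mathlib
import Pool.Agent.H89.CR3

set_option autoImplicit false

namespace Pool.Agent.H89.CR

open Finset
open scoped Classical

variable {V : Type} [Fintype V] {G : SimpleGraph V}

/-- edges through a point -/
noncomputable def Dr.thru (D : Dr G) (x : ℂ) : Finset (Sym2 V) :=
  univ.filter fun e => ∃ u v, G.Adj u v ∧ e = s(u, v) ∧ ∃ t ∈ Set.Icc (0 : ℝ) 1, D.arc u v t = x

theorem Dr.thru_pos (D : Dr G) (w : V) (Δ : ℕ) (hΔ : (univ.filter (G.Adj w)).card ≤ Δ) :
    (D.thru (D.pos w)).card ≤ Δ := by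
  refine le_trans ?_ (card_image_le.trans hΔ : ((univ.filter (G.Adj w)).image fun v => s(w, v)).card ≤ Δ)
  refine card_le_card fun e he => ?_
  obtain ⟨-, u, v, h, rfl, t, ht, e⟩ := mem_filter.1 he
  rcases ht.1.eq_or_lt with rfl | t0
  · rw [D.src u v h] at e
    obtain rfl := D.pos_inj e
    exact mem_image.2 ⟨v, by simpa using h, rfl⟩
  rcases ht.2.eq_or_lt with rfl | t1
  · rw [D.tgt u v h] at e
    obtain rfl := D.pos_inj e
    exact mem_image.2 ⟨u, by simpa using h.symm, Sym2.eq_swap⟩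
  exact absurd e (D.avoid u v h t ⟨t0, t1⟩ w)

theorem Dr.thru_cross (D : Dr G) (hfin : D.cross.Finite) (x : ℂ)
    (hx : x ∈ hfin.toFinset.image Prod.snd) :
    (D.thru x).card ^ 2 ≤ 4 * (hfin.toFinset.filter fun y => y.2 = x).card := by
  obtain ⟨y, hy, rfl⟩ := mem_image.1 hx
  obtain ⟨u, v, u', v', h, h', hne, -, ⟨t, ht, e⟩, ⟨t', ht', e'⟩⟩ := hfin.mem_toFinset.1 hy
  have np : ∀ w, y.2 ≠ D.pos w := fun w k => D.avoid u v h t ht w (e.trans k)
  have two : 2 ≤ (D.thru y.2).card := by
    rw [← card_pair hne]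
    refine card_le_card fun f hf => ?_
    rcases mem_insert.1 hf with rfl | hf
    · exact mem_filter.2 ⟨mem_univ _, u, v, h, rfl, t, ⟨ht.1.le, ht.2.le⟩, e⟩
    · rw [mem_singleton.1 hf]
      exact mem_filter.2 ⟨mem_univ _, u', v', h', rfl, t', ⟨ht'.1.le, ht'.2.le⟩, e'⟩
  have io : ∀ a b s, G.Adj a b → s ∈ Set.Icc (0 : ℝ) 1 → D.arc a b s = y.2 →
      s ∈ Set.Ioo (0 : ℝ) 1 := by
    intro a b s k hs e
    refine ⟨lt_of_le_of_ne hs.1 ?_, lt_of_le_of_ne hs.2 ?_⟩
    · rintro rfl; exact np a (by rw [← e, D.src a b k])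
    · rintro rfl; exact np b (by rw [← e, D.tgt a b k])
  have e1 : ((D.thru y.2).offDiag.image Sym2.mk.uncurry).card ≤
      (hfin.toFinset.filter fun z => z.2 = y.2).card := by
    refine card_le_card_of_injOn (fun q => (q, y.2)) ?_ fun a _ b _ k => (Prod.ext_iff.1 k).1
    intro q hq
    obtain ⟨⟨f, g⟩, hfg, rfl⟩ := mem_image.1 (mem_coe.1 hq)
    obtain ⟨hf, hg, hne⟩ := mem_offDiag.1 hfg
    obtain ⟨-, a, b, k, rfl, s, hs, es⟩ := mem_filter.1 hf
    obtain ⟨-, a', b', k', rfl, s', hs', es'⟩ := mem_filter.1 hg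
    exact mem_coe.2 (mem_filter.2 ⟨hfin.mem_toFinset.2 ⟨a, b, a', b', k, k', hne, rfl,
      ⟨s, io a b s k hs es, es⟩, ⟨s', io a' b' s' k' hs' es', es'⟩⟩, rfl⟩)
  have e2 := Sym2.two_mul_card_image_offDiag (D.thru y.2)
  rw [offDiag_card] at e2
  generalize (D.thru y.2).card = n at *
  have : n + n ≤ n * n := by nlinarith
  rw [sq]
  omega

theorem Dr.split (D : Dr G) (hfin : D.cross.Finite) (Δ : ℕ)
    (hΔ : ∀ w, (univ.filter (G.Adj w)).card ≤ Δ) (L : ℕ) (ρ : ℝ) (hρ : 1 ≤ ρ) :
    ∃ (R : Finset (Sym2 V)) (S : Finset V) (κ : V → Finset ℂ),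
      (R.card : ℝ) ≤ 200 * 2 ^ L * ρ +
        60 * (Fintype.card V * Δ ^ 2 + 4 * D.cross.ncard) / ρ ∧
      (∀ y, 2 ^ L * (S.filter fun v => κ v = y).card ≤ Fintype.card V) ∧
      ∀ u v, G.Adj u v → s(u, v) ∉ R → u ∈ S ∧ v ∈ S ∧ κ u = κ v := by
  set P : Finset ℂ := univ.image D.pos
  set X : Finset ℂ := hfin.toFinset.image Prod.snd
  set U := P ∪ X
  have hU : ∀ x ∈ D.cross, x.2 ∈ U := fun x hx =>
    mem_union_right _ (mem_image_of_mem _ (hfin.mem_toFinset.2 hx))
  have hP : ∀ v, D.pos v ∈ P := fun v => mem_image_of_mem _ (mem_univ v)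
  have hPU : ∀ v, D.pos v ∈ U := fun v => mem_union_left _ (hP v)
  obtain ⟨Z, -, h2, h3⟩ := decomp (D.adj_symm U) (D.nok5 U hU) (fun x => (D.thru x).card)
    (fun x => if x ∈ P then 1 else 0) U L ρ hρ
  have hw : ∑ x ∈ U, (if x ∈ P then 1 else 0) = Fintype.card V := by
    rw [← card_filter, filter_mem_eq_inter, inter_eq_right.2 subset_union_left,
      card_image_of_injective _ D.pos_inj, card_univ]
  have hQ : ∑ x ∈ U, (D.thru x).card ^ 2 ≤ Fintype.card V * Δ ^ 2 + 4 * D.cross.ncard := by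
    refine (sum_un _ P X).trans (Nat.add_le_add ?_ ?_)
    · refine (sum_le_card_nsmul P _ (Δ ^ 2) fun x hx => ?_).trans ?_
      · obtain ⟨w, -, rfl⟩ := mem_image.1 hx
        exact Nat.pow_le_pow_left (D.thru_pos w Δ (hΔ w)) 2
      · rw [smul_eq_mul, card_image_of_injective _ D.pos_inj, card_univ]
    · refine (sum_le_sum (D.thru_cross hfin)).trans ?_
      rw [← mul_sum, Set.ncard_eq_toFinset_card _ hfin, card_eq_sum_card_image Prod.snd]
  refine ⟨Z.biUnion D.thru, univ.filter fun v => D.pos v ∉ Z,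
    fun v => comp (D.adj U) (U \ Z) (D.pos v), ?_, fun y => ?_, fun u v h hR => ?_⟩
  · have e1 : ((Z.biUnion D.thru).card : ℝ) ≤ ((∑ x ∈ Z, (D.thru x).card : ℕ) : ℝ) := by
      exact_mod_cast card_biUnion_le
    have e2 : ((∑ x ∈ U, (D.thru x).card ^ 2 : ℕ) : ℝ) ≤
        Fintype.card V * Δ ^ 2 + 4 * D.cross.ncard := by exact_mod_cast hQ
    refine e1.trans (h2.trans ?_)
    gcongr
  · set F := (univ.filter fun v => D.pos v ∉ Z).filter
      fun v => comp (D.adj U) (U \ Z) (D.pos v) = y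
    rcases F.eq_empty_or_nonempty with h | ⟨v, hv⟩
    · simp [h]
    have hv1 := (mem_filter.1 (mem_filter.1 hv).1).2
    have := h3 (D.pos v) (mem_sdiff.2 ⟨hPU v, hv1⟩)
    rw [hw] at this
    refine (Nat.mul_le_mul_left _ ?_).trans this
    rw [← card_filter]
    refine card_le_card_of_injOn D.pos (fun u hu => ?_) D.pos_inj.injOn
    have hu' := mem_filter.1 (mem_coe.1 hu)
    refine mem_coe.2 (mem_filter.2 ⟨?_, hP u⟩)
    rw [(mem_filter.1 hv).2, ← hu'.2]
    exact self_mem (mem_sdiff.2 ⟨hPU u, (mem_filter.1 hu'.1).2⟩)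
  · have hZ : ∀ t ∈ Set.Icc (0 : ℝ) 1, D.arc u v t ∉ Z := fun t ht k =>
      hR (mem_biUnion.2 ⟨_, k, mem_filter.2 ⟨mem_univ _, u, v, h, rfl, t, ht, rfl⟩⟩)
    refine ⟨mem_filter.2 ⟨mem_univ _, ?_⟩, mem_filter.2 ⟨mem_univ _, ?_⟩,
      comp_eq (D.adj_symm U) (D.survive U Z hPU h hZ)⟩
    · rw [← D.src u v h]; exact hZ 0 ⟨le_rfl, zero_le_one⟩
    · rw [← D.tgt u v h]; exact hZ 1 ⟨zero_le_one, le_rfl⟩

theorem ent (a b : ℝ) (ha : 0 ≤ a) (hab : a ≤ b) :
    a * Real.log a + b * Real.log b + 2 * a * Real.log 2 ≤ (a + b) * Real.log (a + b) := by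
  rcases ha.eq_or_lt with rfl | ha
  · simp
  have hb : 0 < b := by linarith
  have hs : 0 < a + b := by linarith
  have h := Real.strictConcave_binEntropy.concaveOn.2
    (show (0 : ℝ) ∈ Set.Icc (0 : ℝ) 1 by simp) (show (2⁻¹ : ℝ) ∈ Set.Icc (0 : ℝ) 1 by norm_num)
    (show 0 ≤ 1 - 2 * a / (a + b) by rw [sub_nonneg, div_le_one hs]; linarith)
    (show 0 ≤ 2 * a / (a + b) by positivity) (by ring)
  simp only [smul_eq_mul, Real.binEntropy_zero, Real.binEntropy_two_inv, mul_zero, zero_add] at h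
  have e1 : 2 * a / (a + b) * 2⁻¹ = a / (a + b) := by ring
  have e2 : 1 - a / (a + b) = b / (a + b) := by field_simp; ring
  rw [e1, Real.binEntropy, e2, Real.log_inv, Real.log_inv, Real.log_div ha.ne' hs.ne',
    Real.log_div hb.ne' hs.ne'] at h
  have h' := mul_le_mul_of_nonneg_left h hs.le
  field_simp at h'
  linarith

/-- flip a coordinate -/
def flp {k : ℕ} (x : Fin k → Bool) (i : Fin k) : Fin k → Bool := Function.update x i (!x i)

theorem flp_flp {k : ℕ} (x : Fin k → Bool) (i : Fin k) : flp (flp x i) i = x := by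
  simp [flp]

theorem iso {k : ℕ} (I : Finset (Fin k)) : ∀ S : Finset (Fin k → Bool),
    ((∑ x ∈ S, (I.filter fun i => flp x i ∈ S).card : ℕ) : ℝ) * Real.log 2 ≤
      S.card * Real.log S.card := by
  induction I using Finset.induction_on with
  | empty =>
    intro S
    simpa using mul_nonneg (Nat.cast_nonneg _) (Real.log_natCast_nonneg _)
  | insert j I hj ih =>
    intro S
    let T : Bool → Finset (Fin k → Bool) := fun b => S.filter fun x => x j = b
    have e1 : ∀ b, ∑ x ∈ T b, ((insert j I).filter fun i => flp x i ∈ S).card ≤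
        ∑ x ∈ T b, (I.filter fun i => flp x i ∈ T b).card +
          ((T b).filter fun x => flp x j ∈ S).card := by
      intro b
      rw [card_filter _ (T b), ← sum_add_distrib]
      refine sum_le_sum fun x hx => ?_
      have : (I.filter fun i => flp x i ∈ S) = I.filter fun i => flp x i ∈ T b := by
        refine filter_congr fun i hi => ⟨fun h => mem_filter.2 ⟨h, ?_⟩, fun h => (mem_filter.1 h).1⟩
        have : j ≠ i := fun e => hj (e ▸ hi)
        simp only [flp, Function.update_of_ne this]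
        exact (mem_filter.1 hx).2
      rw [filter_insert, this]
      split_ifs
      · exact card_insert_le _ _
      · simp
    have e2 : ∀ b, ((T b).filter fun x => flp x j ∈ S).card ≤ (T b).card :=
      fun b => card_filter_le _ _
    have e3 : ∀ b, ((T b).filter fun x => flp x j ∈ S).card ≤ (T !b).card := by
      intro b
      refine card_le_card_of_injOn (fun x => flp x j) (fun x hx => ?_) fun x _ y _ e => ?_
      · have := mem_filter.1 (mem_coe.1 hx)
        refine mem_coe.2 (mem_filter.2 ⟨this.2, ?_⟩)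
        simp [flp, (mem_filter.1 this.1).2]
      · rw [← flp_flp x j, ← flp_flp y j]; exact congrArg (fun z => flp z j) e
    have e4 : ∀ f : (Fin k → Bool) → ℕ,
        ∑ x ∈ S, f x = ∑ x ∈ T true, f x + ∑ x ∈ T false, f x := by
      intro f
      rw [← sum_filter_add_sum_filter_not S (fun x => x j = true)]
      simp [T]
    have e5 : S.card = (T true).card + (T false).card := by simpa using e4 fun _ => 1
    have i1 := ih (T true)
    have i2 := ih (T false)
    have l2 : 0 < Real.log 2 := Real.log_pos (by norm_num)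
    have a1 := e1 true
    have a2 := e1 false
    have b1 := e2 true
    have b2 := e2 false
    have c1 : _ ≤ (T false).card := e3 true
    have c2 : _ ≤ (T true).card := e3 false
    rw [e4, e5]
    generalize ∑ x ∈ T true, ((insert j I).filter fun i => flp x i ∈ S).card = A1 at *
    generalize ∑ x ∈ T false, ((insert j I).filter fun i => flp x i ∈ S).card = A2 at *
    generalize ∑ x ∈ T true, (I.filter fun i => flp x i ∈ T true).card = B1 at *
    generalize ∑ x ∈ T false, (I.filter fun i => flp x i ∈ T false).card = B2 at *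
    generalize (T true).card = a at *
    generalize (T false).card = b at *
    push_cast
    rcases le_total a b with h | h
    · have := ent a b (Nat.cast_nonneg _) (by exact_mod_cast h)
      have k : (A1 : ℝ) + A2 ≤ B1 + B2 + 2 * a := by exact_mod_cast (by omega)
      nlinarith
    · have := ent b a (Nat.cast_nonneg _) (by exact_mod_cast h)
      have k : (A1 : ℝ) + A2 ≤ B1 + B2 + 2 * b := by exact_mod_cast (by omega)
      rw [add_comm (b : ℝ) a] at this
      nlinarith

theorem iso' {k : ℕ} (S : Finset (Fin k → Bool)) (m : ℕ) (h : S.card ≤ 2 ^ m) :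
    ∑ x ∈ S, (univ.filter fun i => flp x i ∈ S).card ≤ m * S.card := by
  have e := iso univ S
  have l2 : 0 < Real.log 2 := Real.log_pos (by norm_num)
  have e2 : (S.card : ℝ) * Real.log S.card ≤ (m * S.card : ℕ) * Real.log 2 := by
    rcases Nat.eq_zero_or_pos S.card with h0 | h0
    · simp [h0]
    · have : Real.log S.card ≤ m * Real.log 2 := by
        rw [← Real.log_pow]
        exact Real.log_le_log (by exact_mod_cast h0) (by exact_mod_cast h)
      push_cast
      nlinarith [(Nat.cast_nonneg S.card : (0 : ℝ) ≤ _)]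
  exact_mod_cast le_of_mul_le_mul_right (e.trans e2) l2

theorem flp_inj {k : ℕ} (x : Fin k → Bool) (i j : Fin k) (h : flp x i = flp x j) : i = j := by
  by_contra n
  have := congrFun h i
  simp [flp, Function.update_of_ne n] at this

theorem count {k : ℕ} (G : SimpleGraph (Fin k → Bool)) (R : Finset (Sym2 (Fin k → Bool)))
    (S : Finset (Fin k → Bool)) {ι : Type} (κ : (Fin k → Bool) → ι) (m : ℕ)
    (h1 : ∀ y, (S.filter fun v => κ v = y).card ≤ 2 ^ m)
    (h2 : ∀ u v, G.Adj u v → s(u, v) ∉ R → u ∈ S ∧ v ∈ S ∧ κ u = κ v) :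
    ∑ x, (univ.filter fun i => G.Adj x (flp x i)).card ≤ 2 * R.card + m * 2 ^ k := by
  have e1 : ∑ x, (univ.filter fun i => s(x, flp x i) ∈ R).card ≤ 2 * R.card := by
    have : ∑ x, (univ.filter fun i => s(x, flp x i) ∈ R).card =
        (univ.filter fun q : (Fin k → Bool) × Fin k => s(q.1, flp q.1 q.2) ∈ R).card := by
      rw [card_filter, ← univ_product_univ, sum_product]
      exact sum_congr rfl fun x _ => card_filter _ _
    rw [this]
    refine card_le_mul_card_image_of_maps_to
      (f := fun q : (Fin k → Bool) × Fin k => s(q.1, flp q.1 q.2))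
      (fun q hq => (mem_filter.1 hq).2) 2 fun e _ => ?_
    induction e using Sym2.ind with
    | _ a b =>
    refine le_trans (card_le_card_of_injOn (t := {a, b}) Prod.fst (fun q hq => ?_)
      fun q hq q' hq' e => ?_) card_le_two
    · have := (mem_filter.1 (mem_coe.1 hq)).2
      rcases Sym2.eq_iff.1 this with h | h <;> simp [h.1]
    · have h := (mem_filter.1 (mem_coe.1 hq)).2
      have h' := (mem_filter.1 (mem_coe.1 hq')).2
      obtain ⟨x, i⟩ := q
      obtain ⟨y, j⟩ := q'
      simp only at e h h'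
      subst e
      rw [flp_inj x i j (Sym2.congr_right.1 (h.trans h'.symm))]
  have e2 : ∑ x ∈ S, (univ.filter fun i => flp x i ∈ S.filter fun v => κ v = κ x).card ≤
      m * 2 ^ k := by
    rw [← sum_fiberwise_of_maps_to (g := κ) (t := S.image κ) fun x hx => mem_image_of_mem _ hx]
    have : ∀ y ∈ S.image κ, ∑ x ∈ S.filter (fun v => κ v = y),
        (univ.filter fun i => flp x i ∈ S.filter fun v => κ v = κ x).card ≤
        m * (S.filter fun v => κ v = y).card := by
      intro y _
      refine le_trans (le_of_eq (sum_congr rfl fun x hx => ?_)) (iso' _ m (h1 y))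
      rw [(mem_filter.1 hx).2]
    refine (sum_le_sum this).trans ?_
    rw [← mul_sum, ← card_eq_sum_card_image]
    exact Nat.mul_le_mul_left _ (by simpa using card_le_univ S)
  refine le_trans ?_ (Nat.add_le_add e1 e2)
  rw [← sum_filter_add_sum_filter_not univ (fun x => x ∈ S),
    ← sum_filter_add_sum_filter_not univ (fun x => x ∈ S)
      fun x => (univ.filter fun i => s(x, flp x i) ∈ R).card, filter_mem_eq_inter, univ_inter,
    add_right_comm, ← sum_add_distrib]
  refine Nat.add_le_add (sum_le_sum fun x _ => ?_) (sum_le_sum fun x hx => ?_)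
  · refine le_trans (card_le_card fun i hi => ?_) (card_union_le _ _)
    by_cases r : s(x, flp x i) ∈ R
    · exact mem_union_left _ (mem_filter.2 ⟨mem_univ _, r⟩)
    · obtain ⟨-, a, b⟩ := h2 _ _ (mem_filter.1 hi).2 r
      exact mem_union_right _ (mem_filter.2 ⟨mem_univ _, mem_filter.2 ⟨a, b.symm⟩⟩)
  · refine card_le_card fun i hi => mem_filter.2 ⟨mem_univ _, ?_⟩
    by_contra r
    exact (mem_filter.1 hx).2 (h2 _ _ (mem_filter.1 hi).2 r).1

end Pool.Agent.H89.CR
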