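import Mathlib
import Pool.Agent.H89.CR4

set_option autoImplicit false

namespace Pool.Agent.H89.CR

open Finset Filter
open scoped Classical

theorem adj_flp {k : ℕ} (x y : Fin k → Bool) (h : hammingDist x y = 1) : ∃ i, y = flp x i := by
  obtain ⟨i, hi⟩ := card_eq_one.1 h
  refine ⟨i, funext fun j => ?_⟩
  have hj : x j ≠ y j ↔ j = i := by
    rw [← mem_singleton, ← hi]; simp
  by_cases e : j = i
  · subst e
    have := hj.2 rfl
    simp only [flp, Function.update_self]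
    revert this
    cases x j <;> cases y j <;> simp
  · simp only [flp, Function.update_of_ne e]
    by_contra k
    exact e (hj.1 fun q => k q.symm)

theorem dist_flp {k : ℕ} (x : Fin k → Bool) (i : Fin k) : hammingDist x (flp x i) = 1 := by
  refine card_eq_one.2 ⟨i, ?_⟩
  ext j
  by_cases e : j = i
  · subst e; simp [flp]
  · simp [flp, e]

theorem one {k : ℕ} (G : SimpleGraph (Fin k → Bool)) (hG : ∀ x y, G.Adj x y → hammingDist x y = 1)
    (D : Dr G) (hfin : D.cross.Finite) (L : ℕ) (hL : L ≤ k) (ρ : ℝ) (hρ : 1 ≤ ρ) :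
    ((∑ x, (univ.filter fun i => G.Adj x (flp x i)).card : ℕ) : ℝ) ≤
      2 * (200 * 2 ^ L * ρ + 60 * (2 ^ k * k ^ 2 + 4 * D.cross.ncard) / ρ) + (k - L) * 2 ^ k := by
  obtain ⟨R, S, κ, h1, h2, h3⟩ := D.split hfin k (fun w => by
    refine le_trans (card_le_card (t := univ.image (flp w)) fun y hy => ?_)
      (card_image_le.trans (by simp))
    obtain ⟨i, rfl⟩ := adj_flp w y (hG _ _ (mem_filter.1 hy).2)
    exact mem_image_of_mem _ (mem_univ i)) L ρ hρ
  have hc : Fintype.card (Fin k → Bool) = 2 ^ k := by simp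
  rw [hc] at h1 h2
  have := count G R S κ (k - L) (fun y => by
    have := h2 y
    rw [show 2 ^ k = 2 ^ L * 2 ^ (k - L) by rw [← pow_add]; congr 1; omega] at this
    have t := Nat.le_of_mul_le_mul_left this (Nat.two_pow_pos L)
    refine le_trans (le_of_eq ?_) t
    congr) h3
  have e : ((∑ x, (univ.filter fun i => G.Adj x (flp x i)).card : ℕ) : ℝ) ≤
      ((2 * R.card + (k - L) * 2 ^ k : ℕ) : ℝ) := by exact_mod_cast this
  push_cast [Nat.cast_sub hL] at e h1 ⊢
  linarith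

theorem main : ∀ᶠ k : ℕ in atTop, ∀ (G₁ G₂ : SimpleGraph (Fin k → Bool)),
    (∀ x y, hammingDist x y = 1 ↔ G₁.Adj x y ∨ G₂.Adj x y) → ∀ (D₁ : Dr G₁) (D₂ : Dr G₂),
    D₁.cross.Finite → D₂.cross.Finite →
    1 / 10 ^ 7 * (2 : ℝ) ^ ((3 * k : ℝ) / 2) ≤ D₁.cross.ncard + D₂.cross.ncard := by
  have hs : (1 : ℝ) < √2 := Real.one_lt_sqrt_two
  have t1 := (tendsto_pow_const_div_const_pow_of_one_lt 2 hs).eventually
    (gt_mem_nhds (show (0 : ℝ) < 1 / 10 ^ 7 by norm_num))
  filter_upwards [t1, eventually_ge_atTop 2] with k hk k2 G₁ G₂ hG D₁ D₂ f₁ f₂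
  set s : ℝ := √2 ^ k with hs'
  have s0 : 0 < s := by positivity
  have ss : s * s = 2 ^ k := by rw [hs', ← mul_pow, Real.mul_self_sqrt (by norm_num)]
  have e0 : (2 : ℝ) ^ ((3 * k : ℝ) / 2) = s * s * s := by
    rw [hs', Real.sqrt_eq_rpow, ← Real.rpow_natCast, ← Real.rpow_mul (by norm_num),
      ← Real.rpow_add (by norm_num), ← Real.rpow_add (by norm_num)]
    congr 1; ring
  rw [div_lt_iff₀ s0] at hk
  have k2' : (2 : ℝ) ≤ k := by exact_mod_cast k2
  have s1 : 10 ^ 7 ≤ s := by nlinarith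
  have hL : (2 : ℝ) ^ (k / 2 + 1) ≤ 2 * s := by
    rw [pow_succ, mul_comm]
    refine mul_le_mul_of_nonneg_left ?_ (by norm_num)
    calc (2 : ℝ) ^ (k / 2) = √2 ^ (2 * (k / 2)) := by
          rw [pow_mul, Real.sq_sqrt (by norm_num)]
      _ ≤ s := pow_le_pow_right₀ hs.le (by omega)
  have hρ : 1 ≤ s / 3200 := by rw [le_div_iff₀ (by norm_num)]; linarith
  have a1 := one G₁ (fun x y h => (hG x y).2 (Or.inl h)) D₁ f₁ (k / 2 + 1) (by omega) _ hρ
  have a2 := one G₂ (fun x y h => (hG x y).2 (Or.inr h)) D₂ f₂ (k / 2 + 1) (by omega) _ hρ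
  have a3 : 2 ^ k * k ≤ ∑ x, (univ.filter fun i => G₁.Adj x (flp x i)).card +
      ∑ x, (univ.filter fun i => G₂.Adj x (flp x i)).card := by
    rw [← sum_add_distrib]
    refine le_trans (by simp) (card_nsmul_le_sum univ _ k fun x _ => ?_)
    refine le_trans ?_ (card_union_le _ _)
    refine le_trans (by simp) (card_le_card (s := univ) fun i _ => ?_)
    simpa using (hG _ _).1 (dist_flp x i)
  have a4 : ((2 ^ k * k : ℕ) : ℝ) ≤
      ((∑ x, (univ.filter fun i => G₁.Adj x (flp x i)).card : ℕ) : ℝ) +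
      ((∑ x, (univ.filter fun i => G₂.Adj x (flp x i)).card : ℕ) : ℝ) := by exact_mod_cast a3
  have a5 : (k : ℝ) + 1 ≤ 2 * ((k / 2 + 1 : ℕ) : ℝ) := by exact_mod_cast (by omega)
  generalize ((∑ x, (univ.filter fun i => G₁.Adj x (flp x i)).card : ℕ) : ℝ) = A₁ at *
  generalize ((∑ x, (univ.filter fun i => G₂.Adj x (flp x i)).card : ℕ) : ℝ) = A₂ at *
  generalize (D₁.cross.ncard : ℝ) = X₁ at *
  generalize (D₂.cross.ncard : ℝ) = X₂ at *
  generalize (2 : ℝ) ^ (k / 2 + 1) = P at *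
  generalize ((k / 2 + 1 : ℕ) : ℝ) = L at *
  push_cast at a4
  rw [← ss] at a1 a2 a4
  rw [e0]
  have b1 : ∀ q : ℝ, 60 * q / (s / 3200) = 192000 * q / s := fun q => by field_simp; ring
  rw [b1] at a1 a2
  have b2 : P * s ≤ 2 * s * s := mul_le_mul_of_nonneg_right hL s0.le
  have b3 : (k + 1) * (s * s) ≤ 2 * L * (s * s) := mul_le_mul_of_nonneg_right a5 (by positivity)
  have b4 : s * s / 2 ≤ 384000 * (2 * (s * s * k ^ 2) + 4 * (X₁ + X₂)) / s := by
    have : 384000 * (2 * (s * s * k ^ 2) + 4 * (X₁ + X₂)) / s =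
      2 * (192000 * (s * s * k ^ 2 + 4 * X₁) / s) + 2 * (192000 * (s * s * k ^ 2 + 4 * X₂) / s) := by
      ring
    rw [this]
    nlinarith
  rw [le_div_iff₀ s0] at b4
  have b5 : s * s * k ^ 2 ≤ s * s * (1 / 10 ^ 7 * s) :=
    mul_le_mul_of_nonneg_left hk.le (by positivity)
  nlinarith [mul_pos (mul_pos s0 s0) s0]

section ex

variable {V : Type} (f : V → ℝ)

/-- points on a parabola -/
def pp (v : V) : ℂ := ⟨f v, f v ^ 2⟩
/-- segments -/
def ps (u v : V) (t : ℝ) : ℂ := pp f u + (t : ℂ) * (pp f v - pp f u)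
/-- line equation -/
def po (u v : V) (z : ℂ) : ℝ := z.im - (f u + f v) * z.re + f u * f v

theorem po_ps (a b c d : V) (t : ℝ) : po f a b (ps f c d t) =
    (1 - t) * ((f c - f a) * (f c - f b)) + t * ((f d - f a) * (f d - f b)) := by
  simp [po, ps, pp]; ring

theorem po_pp (a b c : V) : po f a b (pp f c) = (f c - f a) * (f c - f b) := by
  simp [po, pp]; ring

theorem ps_inj (hf : Function.Injective f) (u v : V) (h : u ≠ v) :
    Function.Injective (ps f u v) := by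
  intro s t e
  have : pp f v - pp f u ≠ 0 := sub_ne_zero.2 fun e => h (hf (congrArg Complex.re e)).symm
  exact_mod_cast mul_right_cancel₀ this (add_left_cancel e)

theorem root (hf : Function.Injective f) (a b c : V) (h : (f c - f a) * (f c - f b) = 0) :
    c = a ∨ c = b :=
  (mul_eq_zero.1 h).imp (fun k => hf (sub_eq_zero.1 k)) fun k => hf (sub_eq_zero.1 k)

/-- straight-line drawing -/
def pd (hf : Function.Injective f) (G : SimpleGraph V) : Dr G where
  pos := pp f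
  arc := ps f
  pos_inj := fun _ _ e => hf (congrArg Complex.re e)
  cont := fun u v _ => by unfold ps; fun_prop
  inj := fun u v h => (ps_inj f hf u v h.ne).injOn
  src := fun u v _ => by simp [ps]
  tgt := fun u v _ => by simp [ps]
  rev := fun u v _ t _ => by unfold ps; push_cast; ring
  avoid := fun u v h t ht w e => by
    have e1 := po_ps f u v u v t
    rw [e, po_pp] at e1
    rcases root f hf u v w (by rw [e1]; ring) with rfl | rfl
    · exact ht.1.ne' (ps_inj f hf w v h.ne (by rw [e]; simp [ps]))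
    · exact ht.2.ne (ps_inj f hf u w h.ne (by rw [e]; simp [ps]))

theorem pd_fin [Finite V] (hf : Function.Injective f) (G : SimpleGraph V) :
    (pd f hf G).cross.Finite := by
  have : ∀ q : V × V × V × V, {x : Sym2 (Sym2 V) × ℂ | q.2.2.1 ≠ q.2.2.2 ∧
      s(q.1, q.2.1) ≠ s(q.2.2.1, q.2.2.2) ∧ x.1 = s(s(q.1, q.2.1), s(q.2.2.1, q.2.2.2)) ∧
      (∃ t, ps f q.1 q.2.1 t = x.2) ∧ ∃ t, ps f q.2.2.1 q.2.2.2 t = x.2}.Finite := by
    rintro ⟨a, b, c, d⟩
    refine Set.Subsingleton.finite ?_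
    rintro x ⟨h1, h2, h3, ⟨s, h4⟩, ⟨t, h5⟩⟩ y ⟨-, -, k3, ⟨s', k4⟩, ⟨t', k5⟩⟩
    simp only at h1 h2 h3 h4 h5 k3 k4 k5
    refine Prod.ext (h3.trans k3.symm) ?_
    by_contra n
    have tt : t - t' ≠ 0 := sub_ne_zero.2 fun e => n (by rw [← h5, ← k5, e])
    have e1 := po_ps f a b a b s
    have e2 := po_ps f a b a b s'
    rw [h4, ← h5, po_ps] at e1
    rw [k4, ← k5, po_ps] at e2
    have c0 : (f c - f a) * (f c - f b) = 0 :=
      (mul_eq_zero.1 (by linear_combination t * e2 - t' * e1)).resolve_left tt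
    have d0 : (f d - f a) * (f d - f b) = 0 :=
      (mul_eq_zero.1 (by linear_combination (1 - t') * e1 - (1 - t) * e2)).resolve_left tt
    rcases root f hf a b c c0 with rfl | rfl <;> rcases root f hf _ _ d d0 with rfl | rfl
    · exact h1 rfl
    · exact h2 rfl
    · exact h2 Sym2.eq_swap
    · exact h1 rfl
  refine (Set.finite_iUnion this).subset ?_
  rintro x ⟨u, v, u', v', -, h, h1, h2, ⟨t, -, h3⟩, ⟨t', -, h4⟩⟩
  exact Set.mem_iUnion.2 ⟨(u, v, u', v'), h.ne, h1, h2, ⟨t, h3⟩, ⟨t', h4⟩⟩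

theorem exists_dr {V : Type} [Finite V] (G : SimpleGraph V) : ∃ D : Dr G, D.cross.Finite := by
  obtain ⟨g, hg⟩ := Countable.exists_injective_nat V
  exact ⟨_, pd_fin (fun v => (g v : ℝ)) (fun a b h => hg (Nat.cast_injective (R := ℝ) h)) G⟩

end ex

end Pool.Agent.H89.CR
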