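import Mathlib

set_option autoImplicit false

namespace Pool.Agent.H89.CV

open Finset

section field
variable {K : Type*} [Field K]

def P (x : K) (k : ℕ) : K := ∏ i ∈ range k, (x + i)

theorem P_succ (x : K) (k : ℕ) : P x (k + 1) = P x k * (x + k) := prod_range_succ _ _

theorem P_succ' (x : K) (k : ℕ) : P x (k + 1) = x * P (x + 1) k := by
  unfold P
  rw [prod_range_succ', mul_comm]
  simp only [Nat.cast_zero, add_zero, Nat.cast_add, Nat.cast_one]
  congr 1
  exact prod_congr rfl fun i _ => by ring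

@[simp] theorem P_zero (x : K) : P x 0 = 1 := by simp [P]

theorem P_ne (x : K) (k : ℕ) (h : ∀ i < k, x + i ≠ 0) : P x k ≠ 0 :=
  prod_ne_zero_iff.2 fun i hi => h i (mem_range.1 hi)

def g (a b c : K) (k : ℕ) : K := P a k * P b k / (P c k * P 1 k)

theorem g_zero (a b c : K) : g a b c 0 = 1 := by simp [g]

theorem g_symm (a b c : K) (k : ℕ) : g a b c k = g b a c k := by unfold g; ring

theorem g_succ (a b c : K) (k : ℕ) :
    g a b c (k + 1) = g a b c k * ((a + k) * (b + k) / ((c + k) * (1 + k))) := by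
  unfold g
  rw [P_succ, P_succ, P_succ, P_succ, div_mul_div_comm]
  congr 1 <;> ring

theorem g_contig (a b c : K) (k : ℕ) (h1 : (1 : K) + k ≠ 0) :
    g (a - 1) b c (k + 1) = g a b c (k + 1) - b / c * g a (b + 1) (c + 1) k := by
  unfold g
  rw [P_succ' (a - 1), sub_add_cancel, P_succ a, P_succ' b, P_succ' c, P_succ 1]
  by_cases h2 : c = 0
  · simp [h2]
  by_cases h3 : P (c + 1) k = 0
  · simp [h3]
  by_cases h4 : P (1 : K) k = 0
  · simp [h4]
  field_simp
  ring

/-- Chu-Vandermonde in any field -/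
theorem chu (n : ℕ) : ∀ (N : ℕ) (b c : K), n < N → (∀ i, i + 1 < N → c + i ≠ 0) →
    (∀ i : ℕ, i + 1 < N → (1 : K) + i ≠ 0) →
    ∑ k ∈ range N, g (-(n : K)) b c k = P (c - b) n / P c n := by
  induction n with
  | zero =>
    intro N b c hN _ _
    obtain ⟨N, rfl⟩ : ∃ M, N = M + 1 := ⟨N - 1, by omega⟩
    rw [sum_range_succ', g_zero, sum_eq_zero]
    · simp
    · intro k _
      unfold g; rw [P_succ']; simp
  | succ n ih =>
    intro N b c hN hc h1
    obtain ⟨N, rfl⟩ : ∃ M, N = M + 1 := ⟨N - 1, by omega⟩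
    have e : (-((n + 1 : ℕ) : K)) = -(n : K) - 1 := by push_cast; ring
    have a1 := ih (N + 1) b c (by omega) hc h1
    have a2 := ih N (b + 1) (c + 1) (by omega)
      (fun i hi => by have := hc (i + 1) (by omega); push_cast at this; convert this using 1; ring)
      (fun i hi => h1 i (by omega))
    rw [sum_range_succ', g_zero] at a1
    rw [sum_range_succ', g_zero, e,
      sum_congr rfl fun k hk => g_contig _ b c k (h1 k (by have := mem_range.1 hk; omega)),
      sum_sub_distrib, ← mul_sum, a2, sub_add_eq_add_sub, a1, add_sub_add_right_eq_sub]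
    have b1 : P c (n + 1) ≠ 0 := P_ne _ _ fun i hi => hc i (by omega)
    have b2 := P_succ c n
    have b3 := P_succ' c n
    have b4 : P c n ≠ 0 := fun h => b1 (by rw [b2, h, zero_mul])
    have b5 : c ≠ 0 := fun h => b1 (by rw [b3, h, zero_mul])
    have b6 : P (c + 1) n ≠ 0 := fun h => b1 (by rw [b3, h, mul_zero])
    rw [P_succ (c - b), div_mul_div_comm, ← b3, sub_eq_iff_eq_add, ← add_div, div_eq_div_iff b4 b1,
      b2]
    ring

theorem P_refl (x : K) (n : ℕ) : P (1 - x - n) n = (-1) ^ n * P x n := by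
  induction n with
  | zero => simp
  | succ n ih =>
    rw [P_succ', P_succ x, show 1 - x - ((n + 1 : ℕ) : K) + 1 = 1 - x - n by push_cast; ring, ih]
    push_cast; ring

theorem sum1 (n N : ℕ) (h2 : (2 : K) ≠ 0) (hN : n < N) (hc : ∀ i : ℕ, i < N → (2 : K) * i + 1 ≠ 0)
    (h1 : ∀ i : ℕ, i + 1 < N → (1 : K) + i ≠ 0) :
    ∑ k ∈ range N, g (-(n : K)) (n + 1) (3 / 2) k = (-1) ^ n / (2 * n + 1) := by
  have hh : ∀ i : ℕ, i < N → (1 / 2 : K) + i ≠ 0 := fun i hi h =>
    hc i hi (by field_simp at h; linear_combination h)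
  rw [chu n N _ _ hN (fun i hi => by
    have := hh (i + 1) hi; push_cast at this; convert this using 1; field_simp; ring) h1,
    show (3 / 2 : K) - (n + 1) = 1 - 1 / 2 - n by field_simp; ring, P_refl]
  have b2 := P_succ (1 / 2 : K) n
  have b3 := P_succ' (1 / 2 : K) n
  rw [show (1 / 2 : K) + 1 = 3 / 2 by field_simp; norm_num] at b3
  have b4 : P (1 / 2 : K) n ≠ 0 := P_ne _ _ fun i hi => hh i (by omega)
  have b5 : P (3 / 2 : K) n = P (1 / 2) n * (2 * n + 1) := by
    have : (1 / 2 : K) * P (3 / 2) n = P (1 / 2) n * (1 / 2 + n) := b3.symm.trans b2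
    field_simp at this; linear_combination this
  have b6 := hc n hN
  rw [b5]; field_simp

theorem sum2 (n N : ℕ) (h2 : (2 : K) ≠ 0) (hN : n < N)
    (hc : ∀ i : ℕ, i + 1 < N → (2 : K) * i + 1 ≠ 0)
    (h1 : ∀ i : ℕ, i + 1 < N → (1 : K) + i ≠ 0) :
    ∑ k ∈ range N, g (-(n : K)) n (1 / 2) k = (-1) ^ n := by
  have hh : ∀ i : ℕ, i + 1 < N → (1 / 2 : K) + i ≠ 0 := fun i hi h =>
    hc i hi (by field_simp at h; linear_combination h)
  rw [chu n N _ _ hN hh h1, show (1 / 2 : K) - n = 1 - 1 / 2 - n by field_simp; ring, P_refl]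
  have b4 : P (1 / 2 : K) n ≠ 0 := P_ne _ _ fun i hi => hh i (by omega)
  field_simp

end field

/-- reduction of a rational number modulo `p` -/
def Red (p : ℕ) (x : ℚ) (a : ZMod p) : Prop :=
  ∃ n d : ℤ, (d : ZMod p) ≠ 0 ∧ x * d = n ∧ (n : ZMod p) = a * d

variable {p : ℕ} [Fact p.Prime]

theorem Red.add {x y : ℚ} {a b : ZMod p} (h : Red p x a) (h' : Red p y b) : Red p (x + y) (a + b) := by
  obtain ⟨n, d, h1, h2, h3⟩ := h
  obtain ⟨n', d', h1', h2', h3'⟩ := h'
  refine ⟨n * d' + n' * d, d * d', by push_cast; exact mul_ne_zero h1 h1', ?_, ?_⟩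
  · push_cast; rw [← h2, ← h2']; ring
  · push_cast; rw [h3, h3']; ring

theorem Red.mul {x y : ℚ} {a b : ZMod p} (h : Red p x a) (h' : Red p y b) : Red p (x * y) (a * b) := by
  obtain ⟨n, d, h1, h2, h3⟩ := h
  obtain ⟨n', d', h1', h2', h3'⟩ := h'
  refine ⟨n * n', d * d', by push_cast; exact mul_ne_zero h1 h1', ?_, ?_⟩
  · push_cast; rw [← h2, ← h2']; ring
  · push_cast; rw [h3, h3']; ring

theorem Red.frac (n d : ℤ) (h : (d : ZMod p) ≠ 0) : Red p ((n : ℚ) / d) ((n : ZMod p) / d) := by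
  have hd : (d : ℚ) ≠ 0 := by
    intro h0; apply h; have : d = 0 := by exact_mod_cast h0
    simp [this]
  exact ⟨n, d, h, by field_simp, by field_simp⟩

theorem Red.congr {x y : ℚ} {a b : ZMod p} (h : Red p x a) (h1 : x = y) (h2 : a = b) : Red p y b :=
  h1 ▸ h2 ▸ h

theorem Red.sum (f : ℕ → ℚ) (F : ℕ → ZMod p) (N : ℕ) (h : ∀ k < N, Red p (f k) (F k)) :
    Red p (∑ k ∈ range N, f k) (∑ k ∈ range N, F k) := by
  induction N with
  | zero => exact ⟨0, 1, by simp, by simp, by simp⟩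
  | succ N ih =>
    rw [sum_range_succ, sum_range_succ]
    exact (ih fun k hk => h k (by omega)).add (h N (by omega))

theorem Red.dvd_num {x : ℚ} (h : Red p x 0) : (p : ℤ) ∣ x.num := by
  obtain ⟨n, d, h1, h2, h3⟩ := h
  have e : x.num * d = n * x.den := by
    have : (x.num : ℚ) * d = n * x.den := by rw [← h2, ← Rat.mul_den_eq_num x]; ring
    exact_mod_cast this
  have e2 := congrArg (Int.cast : ℤ → ZMod p) e
  push_cast at e2
  rw [h3, zero_mul, zero_mul] at e2
  exact (ZMod.intCast_zmod_eq_zero_iff_dvd _ _).1 ((mul_eq_zero.1 e2).resolve_right h1)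

theorem nat_ne {m : ℕ} (h0 : 0 < m) (h : m < p) : (m : ZMod p) ≠ 0 := by
  rw [Ne, ZMod.natCast_eq_zero_iff]
  exact Nat.not_dvd_of_pos_of_lt h0 h

end Pool.Agent.H89.CV
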