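import Mathlib

set_option autoImplicit false

namespace Pool.Agent.H89.CW

open Finset

theorem sum_range_mul' {E : Type*} [AddCommMonoid E] (F : ℕ → E) (X Y : ℕ) :
    ∑ i ∈ range (X * Y), F i = ∑ a ∈ range X, ∑ c ∈ range Y, F (a * Y + c) := by
  induction X with
  | zero => simp
  | succ X ih => rw [Nat.succ_mul, sum_range_add, ih, sum_range_succ]

theorem sum_shift {E : Type*} [AddCommGroup E] (H : ℕ → E) (Y d : ℕ) :
    ∑ c ∈ range Y, H ((c + d) % Y) = ∑ y ∈ range Y, H y := by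
  induction d with
  | zero =>
    refine sum_congr rfl fun c hc => ?_
    rw [add_zero, Nat.mod_eq_of_lt (mem_range.1 hc)]
  | succ d ih =>
    rw [← ih]
    have h1 := sum_range_succ (fun c => H ((c + d) % Y)) Y
    have h2 := sum_range_succ' (fun c => H ((c + d) % Y)) Y
    have h3 : H ((Y + d) % Y) = H ((0 + d) % Y) := by simp
    rw [h1, h3] at h2
    have h4 := add_right_cancel h2
    rw [h4]
    refine sum_congr rfl fun c _ => ?_
    congr 2; ring

theorem sum_mod {E : Type*} [AddCommGroup E] (H : ℕ → E) (X Y d : ℕ) :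
    ∑ c ∈ range (X * Y), H ((c + d) % Y) = X • ∑ y ∈ range Y, H y := by
  rw [sum_range_mul']
  have : ∀ a ∈ range X, ∑ c ∈ range Y, H ((a * Y + c + d) % Y) = ∑ y ∈ range Y, H y := by
    intro a _
    rw [← sum_shift H Y d]
    refine sum_congr rfl fun c _ => ?_
    congr 1
    rw [add_assoc, add_comm, Nat.add_mul_mod_self_right]
  rw [sum_congr rfl this]; simp

/-- uniformity of an inside window -/
theorem unif1 {E : Type*} [AddCommGroup E] (F : ℕ → E) (q j k : ℕ) (h : j + k ≤ q) :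
    ∑ n ∈ range (2 ^ q), F (n / 2 ^ j % 2 ^ k) = 2 ^ (q - k) • ∑ w ∈ range (2 ^ k), F w := by
  obtain ⟨r, rfl⟩ := Nat.exists_eq_add_of_le h
  have e1 : 2 ^ (j + k + r) = (2 ^ r * 2 ^ k) * 2 ^ j := by ring
  rw [e1, sum_range_mul']
  have : ∀ a ∈ range (2 ^ r * 2 ^ k), ∑ c ∈ range (2 ^ j), F ((a * 2 ^ j + c) / 2 ^ j % 2 ^ k)
      = 2 ^ j • F ((a + 0) % 2 ^ k) := by
    intro a _
    have : ∀ c ∈ range (2 ^ j), F ((a * 2 ^ j + c) / 2 ^ j % 2 ^ k) = F ((a + 0) % 2 ^ k) := by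
      intro c hc
      have hc := mem_range.1 hc
      rw [add_comm, Nat.add_mul_div_right _ _ (by positivity), Nat.div_eq_of_lt hc]; simp
    rw [sum_congr rfl this]; simp
  rw [sum_congr rfl this, ← smul_sum, sum_mod, smul_smul]
  congr 1
  rw [show j + k + r - k = j + r by omega]; ring

/-- idealised window -/
def W (σ n p : ℕ) : ℕ := (n + (2 ^ σ - 1)) * 2 ^ p + n / 2 ^ (σ - p)

theorem W_mod_inside (σ n p k : ℕ) (h : k ≤ p) : W σ n p % 2 ^ k = n / 2 ^ (σ - p) % 2 ^ k := by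
  obtain ⟨r, rfl⟩ := Nat.exists_eq_add_of_le h
  unfold W
  rw [pow_add, add_comm, show (n + (2 ^ σ - 1)) * (2 ^ k * 2 ^ r)
    = ((n + (2 ^ σ - 1)) * 2 ^ r) * 2 ^ k by ring, Nat.add_mul_mod_self_right]

theorem mod_split (x a p r : ℕ) (ha : a < 2 ^ p) :
    (x * 2 ^ p + a) % 2 ^ (p + r) = (x % 2 ^ r) * 2 ^ p + a := by
  have h1 : x * 2 ^ p + a = ((x % 2 ^ r) * 2 ^ p + a) + (x / 2 ^ r) * 2 ^ (p + r) := by
    conv_lhs => rw [← Nat.mod_add_div x (2 ^ r)]
    ring
  rw [h1, Nat.add_mul_mod_self_right, Nat.mod_eq_of_lt]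
  have : x % 2 ^ r + 1 ≤ 2 ^ r := Nat.mod_lt _ (by positivity)
  calc _ < (x % 2 ^ r + 1) * 2 ^ p := by rw [add_mul, one_mul]; omega
    _ ≤ 2 ^ r * 2 ^ p := Nat.mul_le_mul_right _ this
    _ = _ := by ring

theorem unif {E : Type*} [AddCommGroup E] (F : ℕ → E) (σ p k : ℕ) (hp : p ≤ σ) (hk : k ≤ σ) :
    ∑ n ∈ range (2 ^ σ), F (W σ n p % 2 ^ k) = 2 ^ (σ - k) • ∑ w ∈ range (2 ^ k), F w := by
  rcases le_total k p with h | h
  · simp_rw [W_mod_inside σ _ p k h]
    exact unif1 F σ (σ - p) k (by omega)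
  · obtain ⟨r, rfl⟩ := Nat.exists_eq_add_of_le h
    obtain ⟨s, rfl⟩ := Nat.exists_eq_add_of_le hk
    have e1 : 2 ^ (p + r + s) = 2 ^ p * (2 ^ s * 2 ^ r) := by ring
    conv_lhs => rw [e1, sum_range_mul']
    have : ∀ a ∈ range (2 ^ p), ∑ c ∈ range (2 ^ s * 2 ^ r),
        F (W (p + r + s) (a * (2 ^ s * 2 ^ r) + c) p % 2 ^ (p + r))
        = 2 ^ s • ∑ y ∈ range (2 ^ r), F (y * 2 ^ p + a) := by
      intro a ha
      have ha := mem_range.1 ha
      rw [← sum_mod (fun y => F (y * 2 ^ p + a)) (2 ^ s) (2 ^ r) (2 ^ (p + r + s) - 1)]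
      refine sum_congr rfl fun c hc => ?_
      have hc := mem_range.1 hc
      unfold W
      have e2 : 2 ^ (p + r + s - p) = 2 ^ s * 2 ^ r := by
        rw [show p + r + s - p = s + r by omega, pow_add]
      rw [e2, add_comm (a * (2 ^ s * 2 ^ r)) c, Nat.add_mul_div_right _ _ (by positivity),
        Nat.div_eq_of_lt hc, zero_add, mod_split _ _ _ _ ha]
      congr 3
      rw [show c + a * (2 ^ s * 2 ^ r) + (2 ^ (p + r + s) - 1)
        = c + (2 ^ (p + r + s) - 1) + (a * 2 ^ s) * 2 ^ r by ring, Nat.add_mul_mod_self_right]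
    rw [sum_congr rfl this, ← smul_sum, sum_comm, show p + r + s - (p + r) = s by omega,
      show 2 ^ (p + r) = 2 ^ r * 2 ^ p by ring, sum_range_mul']

theorem prod_split (f g : ℕ → ℝ) (X Y : ℕ) (hY : 0 < Y) :
    ∑ w ∈ range (X * Y), f (w % Y) * g (w / Y) = (∑ c ∈ range Y, f c) * ∑ a ∈ range X, g a := by
  rw [sum_range_mul', sum_mul_sum, sum_comm]
  refine sum_congr rfl fun c hc => sum_congr rfl fun a _ => ?_
  have hc := mem_range.1 hc
  rw [add_comm, Nat.add_mul_mod_self_right, Nat.add_mul_div_right _ _ hY, Nat.mod_eq_of_lt hc,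
    Nat.div_eq_of_lt hc, zero_add]

/-- centred indicator vector -/
noncomputable def u (K a : ℕ) : EuclideanSpace ℝ (Fin K) :=
  WithLp.toLp 2 fun w => (if a % K = w.1 then (1 : ℝ) else 0) - 1 / K

theorem u_mod (K a : ℕ) : u K (a % K) = u K a := by unfold u; simp

theorem u_congr {K a b : ℕ} (h : a % K = b % K) : u K a = u K b := by unfold u; rw [h]

theorem sum_ind (K a : ℕ) (hK : 0 < K) :
    ∑ w : Fin K, (if a % K = w.1 then (1 : ℝ) else 0) = 1 := by
  rw [Finset.sum_eq_single ⟨a % K, Nat.mod_lt _ hK⟩]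
  · simp
  · intro b _ hb
    rw [if_neg]; intro h; exact hb (Fin.ext h.symm)
  · simp

theorem inner_u (K a b : ℕ) (hK : 0 < K) :
    inner ℝ (u K a) (u K b) = (if a % K = b % K then (1 : ℝ) else 0) - 1 / K := by
  have hK' : (K : ℝ) ≠ 0 := by positivity
  have h1 : ∑ w : Fin K, (if a % K = w.1 then (1 : ℝ) else 0) * (if b % K = w.1 then 1 else 0)
      = if a % K = b % K then (1 : ℝ) else 0 := by
    rw [Finset.sum_eq_single ⟨a % K, Nat.mod_lt _ hK⟩]
    · simp [eq_comm]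
    · intro c _ hc
      rw [if_neg, zero_mul]; intro h; exact hc (Fin.ext h.symm)
    · simp
  unfold u
  rw [PiLp.inner_apply]
  simp only [RCLike.inner_apply, conj_trivial]
  have : ∀ w : Fin K, ((if b % K = w.1 then (1 : ℝ) else 0) - 1 / K) *
      ((if a % K = w.1 then (1 : ℝ) else 0) - 1 / K) =
      (if a % K = w.1 then (1 : ℝ) else 0) * (if b % K = w.1 then 1 else 0)
      - (1 / K) * (if a % K = w.1 then (1 : ℝ) else 0)
      - (1 / K) * (if b % K = w.1 then (1 : ℝ) else 0) + (1 / K) ^ 2 := by intro w; ring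
  simp_rw [this]
  rw [sum_add_distrib, sum_sub_distrib, sum_sub_distrib, ← mul_sum, ← mul_sum, h1,
    sum_ind K a hK, sum_ind K b hK]
  simp; field_simp; ring

theorem norm_u_le (K a : ℕ) (hK : 0 < K) : ‖u K a‖ ≤ 1 := by
  have h := inner_u K a a hK
  rw [real_inner_self_eq_norm_sq, if_pos rfl] at h
  have : (0 : ℝ) ≤ 1 / K := by positivity
  nlinarith [norm_nonneg (u K a)]

theorem norm_sum_u_le {ι : Type*} (K : ℕ) (hK : 0 < K) (S : Finset ι) (a : ι → ℕ) :
    ‖∑ i ∈ S, u K (a i)‖ ≤ S.card := by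
  refine (norm_sum_le _ _).trans ?_
  refine (sum_le_sum fun i _ => norm_u_le K (a i) hK).trans ?_
  simp

theorem inner_weighted (K : ℕ) (hK : 0 < K) (f g : ℕ → ℝ) :
    inner ℝ (∑ w ∈ range K, f w • u K w) (∑ w ∈ range K, g w • u K w) =
      ∑ w ∈ range K, f w * g w - (∑ w ∈ range K, f w) * (∑ w ∈ range K, g w) / K := by
  rw [sum_inner]
  simp_rw [inner_sum, real_inner_smul_left, real_inner_smul_right, inner_u K _ _ hK]
  rw [sum_mul_sum, sum_div, ← sum_sub_distrib]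
  refine sum_congr rfl fun w hw => ?_
  have hw := mem_range.1 hw
  have : ∀ v ∈ range K, f w * (g v * ((if w % K = v % K then (1 : ℝ) else 0) - 1 / K))
      = (if w = v then f w * g v else 0) - f w * g v / K := by
    intro v hv
    rw [Nat.mod_eq_of_lt hw, Nat.mod_eq_of_lt (mem_range.1 hv)]
    split_ifs <;> ring
  rw [sum_congr rfl this, sum_sub_distrib, sum_ite_eq, if_pos (mem_range.2 hw), sum_div]

theorem sum_u_zero (K : ℕ) (hK : 0 < K) : ∑ w ∈ range K, u K w = 0 := by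
  have h := inner_weighted K hK (fun _ => 1) (fun _ => 1)
  simp only [one_smul, mul_one, sum_const, card_range, nsmul_eq_mul] at h
  have hK' : (K : ℝ) ≠ 0 := by positivity
  rw [mul_div_assoc, div_self hK', mul_one, sub_self] at h
  exact inner_self_eq_zero.1 h

end Pool.Agent.H89.CW
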