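import Pool.Agent.H89.CW1

set_option autoImplicit false

namespace Pool.Agent.H89.CW

open Finset

/-- density bound -/
theorem dens (σ p k : ℕ) (hp : p ≤ σ) (hk : k ≤ σ) (S : Finset ℕ) (hS : S ⊆ range (2 ^ σ)) :
    ‖∑ n ∈ S, u (2 ^ k) (W σ n p)‖ ^ 2 ≤ S.card * 2 ^ (σ - k) := by
  have hK : 0 < 2 ^ k := by positivity
  rw [← real_inner_self_eq_norm_sq, sum_inner]
  have : ∀ n ∈ S, inner ℝ (u (2 ^ k) (W σ n p)) (∑ m ∈ S, u (2 ^ k) (W σ m p))
      ≤ (2 : ℝ) ^ (σ - k) := by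
    intro n _
    rw [inner_sum]
    have h1 := unif (fun w => if W σ n p % 2 ^ k = w then (1 : ℝ) else 0) σ p k hp hk
    rw [sum_ite_eq, if_pos (mem_range.2 (Nat.mod_lt _ hK))] at h1
    simp only [nsmul_eq_mul, mul_one, Nat.cast_pow, Nat.cast_ofNat] at h1
    rw [← h1]
    refine le_trans (sum_le_sum fun m _ => ?_) (sum_le_sum_of_subset_of_nonneg hS
      (f := fun m => if W σ n p % 2 ^ k = W σ m p % 2 ^ k then (1 : ℝ) else 0)
      fun m _ _ => by split_ifs <;> norm_num)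
    rw [inner_u _ _ _ hK]
    have : (0 : ℝ) ≤ 1 / ((2 ^ k : ℕ) : ℝ) := by positivity
    linarith
  refine (sum_le_sum this).trans ?_
  simp

/-- block of numbers with top digits `b` -/
def blk (q b r : ℕ) : Finset ℕ := Ico (b * 2 ^ q) (b * 2 ^ q + r)

theorem blk_sub (q T b r : ℕ) (hb : b < 2 ^ T) (hr : r ≤ 2 ^ q) :
    blk q b r ⊆ range (2 ^ (q + T)) := by
  intro n hn
  rw [blk, mem_Ico] at hn
  rw [mem_range, pow_add]
  have : (b + 1) * 2 ^ q ≤ 2 ^ T * 2 ^ q := Nat.mul_le_mul_right _ hb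
  nlinarith [hn.2]

theorem blk_zero (q T b p k : ℕ) (hp : k + T ≤ p) (hp2 : p ≤ q + T) :
    ∑ n ∈ blk q b (2 ^ q), u (2 ^ k) (W (q + T) n p) = 0 := by
  rw [blk, sum_Ico_eq_sum_range, Nat.add_sub_cancel_left]
  have h1 := unif1 (u (2 ^ k)) q (q + T - p) k (by omega)
  rw [sum_u_zero _ (by positivity), smul_zero] at h1
  rw [← h1]
  refine sum_congr rfl fun i _ => ?_
  apply u_congr
  rw [W_mod_inside _ _ _ _ (by omega), Nat.mod_mod]
  obtain ⟨r, hr⟩ : ∃ r, q = (q + T - p) + k + r := ⟨q - (q + T - p) - k, by omega⟩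
  generalize q + T - p = j at *
  subst hr
  rw [show b * 2 ^ (j + k + r) + i = i + (b * 2 ^ r * 2 ^ k) * 2 ^ j by ring,
    Nat.add_mul_div_right _ _ (by positivity), Nat.add_mul_mod_self_right]

/-- match indicator -/
noncomputable def mt (T b p w : ℕ) : ℝ := if w % 2 ^ p / 2 ^ (p - T) = b then 1 else 0

theorem blk_straddle (q T b p k : ℕ) (hb : b < 2 ^ T) (hp : T ≤ p) (hpk : p ≤ k) (hk : k ≤ q + T) :
    ∑ n ∈ blk q b (2 ^ q), u (2 ^ k) (W (q + T) n p) =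
      (2 : ℝ) ^ (q + T - k) • ∑ w ∈ range (2 ^ k), mt T b p w • u (2 ^ k) w := by
  have h1 := unif (fun w => mt T b p w • u (2 ^ k) w) (q + T) p k (by omega) hk
  rw [← Nat.cast_smul_eq_nsmul ℝ] at h1
  push_cast at h1
  rw [← h1]
  have key : ∀ n ∈ range (2 ^ (q + T)), mt T b p (W (q + T) n p % 2 ^ k) =
      if n / 2 ^ q = b then 1 else 0 := by
    intro n hn
    have hn := mem_range.1 hn
    unfold mt
    rw [Nat.mod_mod_of_dvd _ (pow_dvd_pow 2 hpk)]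
    have h2 : n / 2 ^ (q + T - p) < 2 ^ p := by
      rw [Nat.div_lt_iff_lt_mul (by positivity), ← pow_add]
      rwa [show p + (q + T - p) = q + T by omega]
    have h3 : W (q + T) n p % 2 ^ p = n / 2 ^ (q + T - p) := by
      unfold W
      rw [add_comm, Nat.add_mul_mod_self_right, Nat.mod_eq_of_lt h2]
    rw [h3, Nat.div_div_eq_div_mul, ← pow_add, show q + T - p + (p - T) = q by omega]
  have key2 : ∀ n ∈ range (2 ^ (q + T)), mt T b p (W (q + T) n p % 2 ^ k) •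
      u (2 ^ k) (W (q + T) n p % 2 ^ k) =
      if n / 2 ^ q = b then u (2 ^ k) (W (q + T) n p) else 0 := by
    intro n hn
    rw [key n hn, u_mod, ite_smul, one_smul, zero_smul]
  rw [sum_congr rfl key2]
  rw [← sum_filter]
  refine sum_congr ?_ fun _ _ => rfl
  ext n
  rw [mem_filter]
  have hq : 0 < 2 ^ q := by positivity
  constructor
  · intro hn
    refine ⟨blk_sub q T b _ hb le_rfl hn, ?_⟩
    rw [blk, mem_Ico] at hn
    rw [Nat.div_eq_iff hq]; omega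
  · rintro ⟨_, h⟩
    rw [blk, mem_Ico]
    rw [Nat.div_eq_iff hq] at h; omega

theorem mt_orth (T b p p' k : ℕ) (h1 : p + T ≤ p') (h2 : p' ≤ k) :
    inner ℝ (∑ w ∈ range (2 ^ k), mt T b p w • u (2 ^ k) w)
      (∑ w ∈ range (2 ^ k), mt T b p' w • u (2 ^ k) w) = 0 := by
  rw [inner_weighted _ (by positivity)]
  set f : ℕ → ℝ := fun c => if c / 2 ^ (p - T) = b then 1 else 0
  set g : ℕ → ℝ := fun a => if a % 2 ^ (p' - p) / 2 ^ (p' - T - p) = b then 1 else 0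
  have e1 : ∀ w, mt T b p w = f (w % 2 ^ p) := fun w => rfl
  have e2 : ∀ w, mt T b p' w = g (w / 2 ^ p) := by
    intro w
    unfold mt
    simp only [g]
    have a1 : 2 ^ p' = 2 ^ p * 2 ^ (p' - p) := by rw [← pow_add]; congr 1; omega
    have a2 : 2 ^ (p' - T) = 2 ^ p * 2 ^ (p' - T - p) := by rw [← pow_add]; congr 1; omega
    rw [a1, a2, ← Nat.div_div_eq_div_mul, Nat.mod_mul_right_div_self]
  have a3 : 2 ^ k = 2 ^ (k - p) * 2 ^ p := by rw [← pow_add]; congr 1; omega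
  simp_rw [e1, e2]
  have hY : 0 < 2 ^ p := by positivity
  have b1 := prod_split f g (2 ^ (k - p)) (2 ^ p) hY
  have b2 := prod_split f (fun _ => 1) (2 ^ (k - p)) (2 ^ p) hY
  have b3 := prod_split (fun _ => 1) g (2 ^ (k - p)) (2 ^ p) hY
  simp only [mul_one, one_mul, sum_const, card_range, nsmul_eq_mul] at b2 b3
  rw [← a3] at b1 b2 b3
  rw [b1, b2, b3, a3]
  push_cast
  field_simp
  ring

theorem near_orth {E : Type*} [NormedAddCommGroup E] [InnerProductSpace ℝ E] (v : ℕ → E)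
    (S : Finset ℕ) (T : ℕ) (D : ℝ) (hD : ∀ p ∈ S, ‖v p‖ ≤ D)
    (ho : ∀ p ∈ S, ∀ p' ∈ S, p + T ≤ p' → inner ℝ (v p) (v p') = 0) :
    ‖∑ p ∈ S, v p‖ ^ 2 ≤ S.card * (2 * T) * D ^ 2 := by
  rw [← real_inner_self_eq_norm_sq, sum_inner]
  have : ∀ p ∈ S, inner ℝ (v p) (∑ p' ∈ S, v p') ≤ (2 * T) * D ^ 2 := by
    intro p hp
    rw [inner_sum]
    have h1 : ∀ p' ∈ S, inner ℝ (v p) (v p') ≤
        if p' ∈ Ico (p + 1 - T) (p + T) then D ^ 2 else 0 := by
      intro p' hp'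
      split_ifs with h
      · refine (real_inner_le_norm _ _).trans ?_
        rw [sq]
        exact mul_le_mul (hD p hp) (hD p' hp') (norm_nonneg _) ((norm_nonneg _).trans (hD p hp))
      · rw [mem_Ico] at h
        by_cases h' : p + T ≤ p'
        · exact (ho p hp p' hp' h').le
        · rw [real_inner_comm]; exact (ho p' hp' p hp (by omega)).le
    refine (sum_le_sum h1).trans ?_
    rw [← sum_filter, sum_const, nsmul_eq_mul]
    refine mul_le_mul_of_nonneg_right ?_ (sq_nonneg _)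
    have : #{p' ∈ S | p' ∈ Ico (p + 1 - T) (p + T)} ≤ 2 * T := by
      refine (card_le_card (t := Ico (p + 1 - T) (p + T)) fun x hx => (mem_filter.1 hx).2).trans ?_
      rw [Nat.card_Ico]; omega
    exact_mod_cast this
  refine (sum_le_sum this).trans ?_
  rw [sum_const, nsmul_eq_mul]; apply le_of_eq; ring

theorem blk_norm (q T b r p k : ℕ) (hb : b < 2 ^ T) (hr : r ≤ 2 ^ q) (hp : p ≤ q + T)
    (hk : k ≤ q + T) (D : ℝ) (hD0 : 0 ≤ D) (hD : (2 : ℝ) ^ q * 2 ^ (q + T - k) ≤ D ^ 2) :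
    ‖∑ n ∈ blk q b r, u (2 ^ k) (W (q + T) n p)‖ ≤ D := by
  have h := dens (q + T) p k hp hk _ (blk_sub q T b r hb hr)
  have hc : ((blk q b r).card : ℝ) ≤ 2 ^ q := by
    rw [blk, Nat.card_Ico, Nat.add_sub_cancel_left]; exact_mod_cast hr
  have : ‖∑ n ∈ blk q b r, u (2 ^ k) (W (q + T) n p)‖ ^ 2 ≤ D ^ 2 :=
    h.trans ((mul_le_mul_of_nonneg_right hc (by positivity)).trans hD)
  exact (abs_le_of_sq_le_sq' this hD0).2

/-- all windows ending inside the number `n` -/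
noncomputable def G (σ k n : ℕ) : EuclideanSpace ℝ (Fin (2 ^ k)) :=
  ∑ p ∈ Ioc 0 σ, u (2 ^ k) (W σ n p)

theorem blk_piece (q T b r k : ℕ) (hb : b < 2 ^ T) (hr : r ≤ 2 ^ q)
    (hk : k ≤ q + T) (D : ℝ) (hD0 : 0 ≤ D) (hD : (2 : ℝ) ^ q * 2 ^ (q + T - k) ≤ D ^ 2) :
    ‖∑ n ∈ blk q b r, G (q + T) k n‖ ≤ (q + T : ℕ) * D := by
  unfold G
  rw [sum_comm]
  refine (norm_sum_le _ _).trans ?_
  refine (sum_le_sum fun p hp => blk_norm q T b r p k hb hr (mem_Ioc.1 hp).2 hk D hD0 hD).trans ?_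
  simp

theorem blk_full (q T b k : ℕ) (hb : b < 2 ^ T) (hT : T ≤ k)
    (hk : k ≤ q) (D γ : ℝ) (hD0 : 0 ≤ D) (hD : (2 : ℝ) ^ q * 2 ^ (q + T - k) ≤ D ^ 2)
    (hγ0 : 0 ≤ γ) (hγ : (k : ℝ) * (2 * T) ≤ γ ^ 2) :
    ‖∑ n ∈ blk q b (2 ^ q), G (q + T) k n‖ ≤ (2 * T + γ) * D := by
  unfold G
  rw [sum_comm]
  set v : ℕ → EuclideanSpace ℝ (Fin (2 ^ k)) :=
    fun p => ∑ n ∈ blk q b (2 ^ q), u (2 ^ k) (W (q + T) n p) with hv
  have hn : ∀ p, p ≤ q + T → ‖v p‖ ≤ D :=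
    fun p hp => blk_norm q T b _ p k hb le_rfl hp (by omega) D hD0 hD
  have hseg : ∀ a, a + T ≤ q + T → ‖∑ p ∈ Ioc a (a + T), v p‖ ≤ T * D := by
    intro a ha
    refine (norm_sum_le _ _).trans ?_
    refine (sum_le_sum fun p hp => hn p (by have := (mem_Ioc.1 hp).2; omega)).trans ?_
    simp
  change ‖∑ p ∈ Ioc 0 (q + T), v p‖ ≤ _
  rw [← sum_Ioc_consecutive v (Nat.zero_le (k + T)) (by omega : k + T ≤ q + T),
    ← sum_Ioc_consecutive v (Nat.zero_le k) (by omega : k ≤ k + T),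
    ← sum_Ioc_consecutive v (Nat.zero_le T) hT]
  have z : ∑ p ∈ Ioc (k + T) (q + T), v p = 0 :=
    sum_eq_zero fun p hp => blk_zero q T b p k (mem_Ioc.1 hp).1.le (mem_Ioc.1 hp).2
  have m : ‖∑ p ∈ Ioc T k, v p‖ ≤ γ * D := by
    have h := near_orth v (Ioc T k) T D (fun p hp => hn p (by have := (mem_Ioc.1 hp).2; omega))
      (by
        intro p hp p' hp' h
        rw [mem_Ioc] at hp hp'
        simp only [hv]
        rw [blk_straddle q T b p k hb hp.1.le hp.2 (by omega),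
          blk_straddle q T b p' k hb hp'.1.le hp'.2 (by omega), real_inner_smul_left,
          real_inner_smul_right, mt_orth T b p p' k h hp'.2]; simp)
    have hc : ((Ioc T k).card : ℝ) ≤ k := by
      rw [Nat.card_Ioc]; exact_mod_cast Nat.sub_le _ _
    have : ‖∑ p ∈ Ioc T k, v p‖ ^ 2 ≤ (γ * D) ^ 2 := by
      refine h.trans ?_
      rw [mul_pow]
      refine mul_le_mul_of_nonneg_right (le_trans ?_ hγ) (sq_nonneg _)
      exact mul_le_mul_of_nonneg_right hc (by positivity)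
    exact (abs_le_of_sq_le_sq' this (by positivity)).2
  have s1 := hseg 0 (by omega)
  have s2 := hseg k (by omega)
  rw [zero_add] at s1
  rw [z, add_zero]
  refine (norm_add_le _ _).trans ?_
  have := norm_add_le (∑ p ∈ Ioc 0 T, v p) (∑ p ∈ Ioc T k, v p)
  linarith

theorem blocks_sum {E : Type*} [NormedAddCommGroup E] (F : ℕ → E) (q a : ℕ) (C : ℝ) (c : ℕ)
    (h : ∀ b, a ≤ b → b < a + c → ‖∑ n ∈ blk q b (2 ^ q), F n‖ ≤ C) :
    ‖∑ n ∈ Ico (a * 2 ^ q) ((a + c) * 2 ^ q), F n‖ ≤ c * C := by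
  induction c with
  | zero => simp
  | succ c ih =>
    rw [← sum_Ico_consecutive F (Nat.mul_le_mul_right _ (Nat.le_add_right a c))
      (Nat.mul_le_mul_right _ (by omega : a + c ≤ a + (c + 1)))]
    refine (norm_add_le _ _).trans ?_
    have h1 := ih fun b h1 h2 => h b h1 (by omega)
    have h2 := h (a + c) (by omega) (by omega)
    rw [blk, show (a + c) * 2 ^ q + 2 ^ q = (a + (c + 1)) * 2 ^ q by ring] at h2
    push_cast; linarith

/-- one size class -/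
theorem class_bound (q T k M : ℕ) (hT1 : 1 ≤ T) (hT : T ≤ k) (hk : k ≤ q) (D γ : ℝ) (hD0 : 0 ≤ D)
    (hD : (2 : ℝ) ^ q * 2 ^ (q + T - k) ≤ D ^ 2)
    (hγ0 : 0 ≤ γ) (hγ : (k : ℝ) * (2 * T) ≤ γ ^ 2)
    (hM1 : 2 ^ (q + T - 1) ≤ M) (hM2 : M ≤ 2 ^ (q + T)) :
    ‖∑ n ∈ Ico (2 ^ (q + T - 1)) M, G (q + T) k n‖ ≤
      (2 ^ T * (2 * T + γ) + (q + T : ℕ)) * D := by
  have hq : 0 < 2 ^ q := by positivity
  have e1 : 2 ^ (q + T - 1) = 2 ^ (T - 1) * 2 ^ q := by rw [← pow_add]; congr 1; omega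
  have e2 : 2 ^ (q + T) = 2 ^ T * 2 ^ q := by ring
  have hb1 : 2 ^ (T - 1) ≤ M / 2 ^ q := by rw [Nat.le_div_iff_mul_le hq, ← e1]; exact hM1
  have hb2 : M / 2 ^ q ≤ 2 ^ T := by
    apply Nat.div_le_of_le_mul; rw [mul_comm, ← e2]; exact hM2
  obtain ⟨c, hc⟩ := Nat.exists_eq_add_of_le hb1
  have hM : M = (2 ^ (T - 1) + c) * 2 ^ q + M % 2 ^ q := by
    rw [← hc, mul_comm]; exact (Nat.div_add_mod M _).symm
  have hr : M % 2 ^ q < 2 ^ q := Nat.mod_lt _ hq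
  generalize M % 2 ^ q = r at hM hr
  rw [e1, hM, ← sum_Ico_consecutive _ (Nat.mul_le_mul_right _ (Nat.le_add_right _ c))
    (Nat.le_add_right _ r)]
  refine (norm_add_le _ _).trans ?_
  have h1 := blocks_sum (G (q + T) k) q (2 ^ (T - 1)) ((2 * T + γ) * D) c
    fun b _ h2 => blk_full q T b k (by omega) hT hk D γ hD0 hD hγ0 hγ
  have h2 : ‖∑ n ∈ Ico ((2 ^ (T - 1) + c) * 2 ^ q) ((2 ^ (T - 1) + c) * 2 ^ q + r), G (q + T) k n‖
      ≤ (q + T : ℕ) * D := by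
    rcases Nat.eq_zero_or_pos r with h0 | h0
    · subst h0; simp; positivity
    · refine blk_piece q T _ r k ?_ hr.le (by omega) D hD0 hD
      by_contra hcon
      have : 2 ^ T * 2 ^ q ≤ (2 ^ (T - 1) + c) * 2 ^ q := Nat.mul_le_mul_right _ (by omega)
      omega
  have h3 : (c : ℝ) ≤ 2 ^ T := by
    have : c ≤ 2 ^ T := le_trans (Nat.le_add_left _ _) (hc ▸ hb2)
    exact_mod_cast this
  have h4 : (c : ℝ) * ((2 * T + γ) * D) ≤ 2 ^ T * ((2 * T + γ) * D) :=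
    mul_le_mul_of_nonneg_right h3 (by positivity)
  linarith

end Pool.Agent.H89.CW
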