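import Pool.Agent.H89.CW2

set_option autoImplicit false

namespace Pool.Agent.H89.CW

open Finset

def Q (n : ℕ) : ℕ := ∑ m ∈ range n, Nat.size m

noncomputable def al : ℝ := ∑' m : ℕ, (m : ℝ) / 2 ^ Q (m + 1)

def B : ℕ → ℕ
  | 0 => 0
  | n + 1 => B n * 2 ^ Nat.size n + n

theorem Q_succ (n : ℕ) : Q (n + 1) = Q n + Nat.size n := sum_range_succ _ _

theorem Q_mono : Monotone Q := monotone_nat_of_le_succ fun n => by rw [Q_succ]; omega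

theorem part (n : ℕ) : ∑ m ∈ range n, (m : ℝ) / 2 ^ Q (m + 1) = B n / 2 ^ Q n := by
  induction n with
  | zero => simp [B]
  | succ n ih =>
    rw [sum_range_succ, ih, B, Q_succ, pow_add]; push_cast; field_simp

noncomputable def U (n : ℕ) : ℝ := (B n + 1) / 2 ^ Q n

theorem U_succ (n : ℕ) : U (n + 1) = U n - (2 ^ Nat.size n - (n + 1)) / 2 ^ Q (n + 1) := by
  unfold U
  rw [B, Q_succ, pow_add]; push_cast; field_simp; ring

theorem U_anti : Antitone U := antitone_nat_of_succ_le fun n => by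
  rw [U_succ]
  have h : n + 1 ≤ 2 ^ Nat.size n := Nat.lt_size_self n
  have h' : (n : ℝ) + 1 ≤ 2 ^ Nat.size n := by exact_mod_cast h
  have : 0 ≤ ((2 : ℝ) ^ Nat.size n - (n + 1)) / 2 ^ Q (n + 1) :=
    div_nonneg (by linarith) (by positivity)
  linarith

theorem U_strict (n : ℕ) : U (2 * n + 2 + 1) < U n := by
  refine lt_of_lt_of_le ?_ (U_anti (by omega : n ≤ 2 * n + 2))
  rw [U_succ]
  have h : 2 * n + 2 < 2 ^ Nat.size (2 * n + 2) := Nat.lt_size_self _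
  have hs : 0 < Nat.size (2 * n + 2) := Nat.size_pos.2 (by omega)
  obtain ⟨s, hs'⟩ := Nat.exists_eq_add_of_lt hs
  have h2 : 2 * n + 2 + 1 < 2 ^ Nat.size (2 * n + 2) := by
    rw [hs', pow_succ] at h ⊢; omega
  have h' : ((2 * n + 2 : ℕ) : ℝ) + 1 < 2 ^ Nat.size (2 * n + 2) := by exact_mod_cast h2
  have : 0 < ((2 : ℝ) ^ Nat.size (2 * n + 2) - ((2 * n + 2 : ℕ) + 1)) / 2 ^ Q (2 * n + 2 + 1) :=
    div_pos (by linarith) (by positivity)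
  linarith

theorem part_le (n m : ℕ) : ∑ i ∈ range n, (i : ℝ) / 2 ^ Q (i + 1) ≤ U m := by
  have h1 : ∑ i ∈ range n, (i : ℝ) / 2 ^ Q (i + 1) ≤
      ∑ i ∈ range (n + m), (i : ℝ) / 2 ^ Q (i + 1) :=
    sum_le_sum_of_subset_of_nonneg (range_mono (by omega)) fun i _ _ => by positivity
  refine h1.trans (le_trans ?_ (U_anti (by omega : m ≤ n + m)))
  rw [part, U]
  gcongr; linarith

theorem summ : Summable fun m : ℕ => (m : ℝ) / 2 ^ Q (m + 1) :=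
  summable_of_sum_range_le (fun _ => by positivity) fun n => part_le n 0

theorem al_lt (n : ℕ) : al < U n :=
  lt_of_le_of_lt (Real.tsum_le_of_sum_range_le (fun _ => by positivity) fun m => part_le m _)
    (U_strict n)

theorem le_al (n : ℕ) : (B n : ℝ) / 2 ^ Q n ≤ al := by
  rw [← part]; exact summ.sum_le_tsum _ fun _ _ => by positivity

theorem al_nonneg : 0 ≤ al := le_trans (by positivity) (le_al 0)

noncomputable def A (t : ℕ) : ℕ := ⌊(2 : ℝ) ^ t * al⌋₊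

theorem A_Q (n : ℕ) : A (Q n) = B n := by
  unfold A
  rw [Nat.floor_eq_iff (mul_nonneg (by positivity) al_nonneg)]
  have h1 := le_al n
  have h2 := al_lt n
  rw [div_le_iff₀ (by positivity)] at h1
  rw [U, lt_div_iff₀ (by positivity)] at h2
  constructor <;> linarith

theorem A_div (t j : ℕ) : A t = A (t + j) / 2 ^ j := by
  unfold A
  rw [← Nat.floor_div_natCast]
  congr 1
  push_cast; rw [pow_add]; field_simp

theorem A_W (σ k n p : ℕ) (hk : k + 2 ≤ σ) (h1 : 2 ^ (σ - 1) ≤ n) (h2 : n < 2 ^ σ) (hp : p ≤ σ) :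
    Nat.size n = σ ∧ A (Q n + p) % 2 ^ k = W σ n p % 2 ^ k := by
  have hs : Nat.size n = σ := by
    have a := Nat.size_le.2 h2
    have b := Nat.lt_size.2 h1
    omega
  refine ⟨hs, ?_⟩
  rw [A_div _ (σ - p), show Q n + p + (σ - p) = Q (n + 1) by rw [Q_succ]; omega, A_Q, B, hs]
  have e : 2 ^ σ = 2 ^ p * 2 ^ (σ - p) := by rw [← pow_add]; congr 1; omega
  have e2 : (B n * 2 ^ σ + n) / 2 ^ (σ - p) = B n * 2 ^ p + n / 2 ^ (σ - p) := by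
    rw [e, ← mul_assoc, add_comm, Nat.add_mul_div_right _ _ (by positivity), add_comm]
  rw [e2]
  unfold W
  refine Nat.ModEq.add_right _ (Nat.ModEq.mul_right _ ?_)
  have e3 : 2 ^ (σ - 1) = 2 * 2 ^ (σ - 2) := by rw [← pow_succ']; congr 1; omega
  have hp2 : 0 < 2 ^ (σ - 2) := by positivity
  obtain ⟨m, rfl⟩ : ∃ m, n = m + 1 := ⟨n - 1, by omega⟩
  have hm : σ - 2 < Nat.size m := Nat.lt_size.2 (by omega)
  have hσ : 0 < 2 ^ σ := by positivity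
  rw [B, show m + 1 + (2 ^ σ - 1) = 2 ^ σ + m by omega]
  refine Nat.ModEq.add_right _ ?_
  have d1 : 2 ^ k ∣ B m * 2 ^ Nat.size m := Dvd.dvd.mul_left (pow_dvd_pow 2 (by omega)) _
  have d2 : 2 ^ k ∣ 2 ^ σ := pow_dvd_pow 2 (by omega)
  exact ((Nat.modEq_zero_iff_dvd).2 d1).trans ((Nat.modEq_zero_iff_dvd).2 d2).symm

theorem sum_Ioc_shift {E : Type*} [AddCommMonoid E] (f : ℕ → E) (n c : ℕ) :
    ∑ t ∈ Ioc 0 n, f (t + c) = ∑ t ∈ Ioc c (n + c), f t := by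
  induction n with
  | zero => simp
  | succ n ih =>
    rw [sum_Ioc_succ_top (Nat.zero_le n), ih, show n + 1 + c = (n + c) + 1 by ring,
      sum_Ioc_succ_top (by omega)]

theorem sum_Q {E : Type*} [AddCommMonoid E] (f : ℕ → E) (M : ℕ) :
    ∑ t ∈ Ioc 0 (Q M), f t = ∑ n ∈ range M, ∑ p ∈ Ioc 0 (Nat.size n), f (Q n + p) := by
  induction M with
  | zero => simp [Q]
  | succ M ih =>
    rw [sum_range_succ, ← ih, Q_succ,
      ← sum_Ioc_consecutive f (Nat.zero_le (Q M)) (Nat.le_add_right _ _)]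
    congr 1
    have := sum_Ioc_shift f (Nat.size M) (Q M)
    rw [add_comm (Nat.size M)] at this
    rw [← this]
    exact sum_congr rfl fun p _ => by rw [add_comm]

noncomputable def H (k M : ℕ) : EuclideanSpace ℝ (Fin (2 ^ k)) :=
  ∑ t ∈ Ioc 0 (Q M), u (2 ^ k) (A t)

theorem H_step (κ τ σ M L : ℕ) (hτ : 1 ≤ τ) (hτκ : τ ≤ κ) (hσ : 4 * κ + 2 ≤ σ) (hL : σ ≤ L)
    (γ : ℝ) (hγ0 : 0 ≤ γ) (hγ : ((2 * κ : ℕ) : ℝ) * (2 * (2 * τ : ℕ)) ≤ γ ^ 2)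
    (h1 : 2 ^ (σ - 1) ≤ M) (h2 : M ≤ 2 ^ σ) :
    ‖H (2 * κ) M‖ ≤ ‖H (2 * κ) (2 ^ (σ - 1))‖ +
      2 ^ σ * ((2 ^ (2 * τ) * (2 * (2 * τ : ℕ) + γ) + L) / (2 ^ τ * 2 ^ κ)) := by
  unfold H
  rw [sum_Q, sum_Q, ← sum_range_add_sum_Ico _ h1]
  refine (norm_add_le _ _).trans (add_le_add le_rfl ?_)
  obtain ⟨q, rfl⟩ : ∃ q, σ = q + 2 * τ := ⟨σ - 2 * τ, by omega⟩
  have hc := class_bound q (2 * τ) (2 * κ) M (by omega) (by omega) (by omega)
    (2 ^ (q + 2 * τ) / (2 ^ τ * 2 ^ κ)) γ (by positivity) (by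
      obtain ⟨r, hr⟩ : ∃ r, q + 2 * τ = 2 * κ + r := ⟨q + 2 * τ - 2 * κ, by omega⟩
      rw [show q + 2 * τ - 2 * κ = r by omega, div_pow, le_div_iff₀ (by positivity), sq (2 ^ _ : ℝ)]
      nth_rewrite 2 [hr]
      apply le_of_eq; ring) hγ0 hγ h1 h2
  have e : ∑ n ∈ Ico (2 ^ (q + 2 * τ - 1)) M, ∑ p ∈ Ioc 0 (Nat.size n), u (2 ^ (2 * κ)) (A (Q n + p))
      = ∑ n ∈ Ico (2 ^ (q + 2 * τ - 1)) M, G (q + 2 * τ) (2 * κ) n := by
    refine sum_congr rfl fun n hn => ?_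
    rw [mem_Ico] at hn
    have hs := (A_W (q + 2 * τ) (2 * κ) n 0 (by omega) hn.1 (by omega) (by omega)).1
    rw [hs, G]
    exact sum_congr rfl fun p hp => u_congr
      (A_W (q + 2 * τ) (2 * κ) n p (by omega) hn.1 (by omega) (mem_Ioc.1 hp).2).2
  rw [e]
  refine hc.trans ?_
  have : ((q + 2 * τ : ℕ) : ℝ) ≤ L := by exact_mod_cast hL
  rw [mul_div_assoc', mul_div_assoc', mul_comm]
  gcongr

theorem Q_pow_le (σ : ℕ) : Q (2 ^ σ) ≤ 2 ^ σ * σ := by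
  unfold Q
  refine (sum_le_sum fun m hm => Nat.size_le.2 (mem_range.1 hm)).trans ?_
  simp

theorem le_Q_pow (σ : ℕ) : 2 ^ σ * (σ + 1) ≤ Q (2 ^ (σ + 1)) := by
  unfold Q
  have h : 2 ^ σ ≤ 2 ^ (σ + 1) := Nat.pow_le_pow_right (by norm_num) (by omega)
  rw [← sum_range_add_sum_Ico _ h]
  refine le_trans ?_ (Nat.le_add_left _ _)
  refine le_trans ?_ (sum_le_sum fun m hm => (Nat.lt_size.2 (mem_Ico.1 hm).1 : σ + 1 ≤ _))
  simp [pow_succ]; omega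

theorem H_bound (κ τ M L : ℕ) (hτ : 1 ≤ τ) (hτκ : τ ≤ κ) (hσ : 4 * κ + 3 ≤ L)
    (γ : ℝ) (hγ0 : 0 ≤ γ) (hγ : ((2 * κ : ℕ) : ℝ) * (2 * (2 * τ : ℕ)) ≤ γ ^ 2)
    (h1 : 2 ^ (L - 1) ≤ M) (h2 : M ≤ 2 ^ L) :
    ‖H (2 * κ) M‖ ≤ 2 ^ (4 * κ + 2) * (4 * κ + 2) +
      2 ^ (L + 1) * ((2 ^ (2 * τ) * (2 * (2 * τ : ℕ) + γ) + L) / (2 ^ τ * 2 ^ κ)) := by
  set C : ℝ := (2 ^ (2 * τ) * (2 * (2 * τ : ℕ) + γ) + L) / (2 ^ τ * 2 ^ κ) with hC
  have hC0 : 0 ≤ C := by positivity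
  have key : ∀ σ, 4 * κ + 2 ≤ σ → σ ≤ L →
      ‖H (2 * κ) (2 ^ σ)‖ ≤ 2 ^ (4 * κ + 2) * (4 * κ + 2) + 2 ^ (σ + 1) * C := by
    intro σ hσ
    induction σ, hσ using Nat.le_induction with
    | base =>
      intro _
      refine (norm_sum_u_le _ (by positivity) _ _).trans ?_
      have := Q_pow_le (4 * κ + 2)
      have h' : ((Q (2 ^ (4 * κ + 2)) : ℕ) : ℝ) ≤ 2 ^ (4 * κ + 2) * (4 * κ + 2) := by
        exact_mod_cast this
      rw [Nat.card_Ioc, Nat.sub_zero]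
      have : 0 ≤ 2 ^ (4 * κ + 2 + 1) * C := by positivity
      linarith
    | succ σ hσ ih =>
      intro hL
      have h := H_step κ τ (σ + 1) (2 ^ (σ + 1)) L hτ hτκ (by omega) hL γ hγ0 hγ
        (Nat.pow_le_pow_right (by norm_num) (by omega)) le_rfl
      rw [Nat.add_sub_cancel] at h
      have := ih (by omega)
      rw [pow_succ _ (σ + 1)]
      linarith
  have h := H_step κ τ L M L hτ hτκ (by omega) le_rfl γ hγ0 hγ h1 h2
  have := key (L - 1) (by omega) (by omega)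
  rw [show L - 1 + 1 = L by omega] at this
  rw [pow_succ _ L]
  linarith

theorem le_Q (n : ℕ) : n ≤ Q (n + 1) := by
  induction n with
  | zero => simp
  | succ n ih =>
    rw [Q_succ]
    have : 0 < Nat.size (n + 1) := Nat.size_pos.2 (by omega)
    omega

theorem aux1 (κ X N : ℝ) (hκ1 : 1 ≤ κ) (hκX : κ ≤ X) (hN : X ^ 16 ≤ N) :
    (4 * X ^ 4 * (4 * κ + 2) + (18 * κ + 18) + 2 * κ) * X ≤ N * (62 / κ) := by
  have hX1 : 1 ≤ X := hκ1.trans hκX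
  rw [mul_div_assoc', le_div_iff₀ (by positivity)]
  have p4 : 1 ≤ X ^ 4 := one_le_pow₀ hX1
  have p5 : X ≤ X ^ 4 * X := le_mul_of_one_le_left (by positivity) p4
  have p6 : X ^ 4 * κ ≤ X ^ 4 * X := by gcongr
  have p7 : X ^ 4 ≤ X ^ 4 * X := le_mul_of_one_le_right (by positivity) hX1
  have a : (4 * X ^ 4 * (4 * κ + 2) + (18 * κ + 18) + 2 * κ : ℝ) ≤ 62 * (X ^ 4 * X) := by
    linarith
  calc _ ≤ 62 * (X ^ 4 * X) * X * X := by gcongr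
    _ = 62 * X ^ 7 := by ring
    _ ≤ 62 * X ^ 16 := by gcongr; norm_num
    _ ≤ N * 62 := by linarith

theorem aux2 (κ X N c Y Z l : ℝ) (hκ1 : 1 ≤ κ) (hX : 0 < X) (hc : 0 ≤ c) (hY : 1 ≤ Y) (hZ : 0 ≤ Z)
    (hl : 0 ≤ l) (hQ : Z * (l + 1) ≤ N) (hl8 : 8 * κ ≤ l + 1) :
    8 * Z * ((c + (l + 2)) / (Y * X)) * X ≤ N * (c / κ + 16 / Y) := by
  have e1 : 8 * Z * ((c + (l + 2)) / (Y * X)) * X = Z * (8 * c / Y + 8 * (l + 2) / Y) := by
    field_simp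
  rw [e1]
  refine le_trans ?_ (mul_le_mul_of_nonneg_right hQ (by positivity))
  rw [mul_assoc]
  refine mul_le_mul_of_nonneg_left ?_ hZ
  rw [mul_add (l + 1)]
  refine add_le_add (a := 8 * c / Y) (c := 8 * (l + 2) / Y) ?_ ?_
  · refine (div_le_self (by positivity : (0 : ℝ) ≤ 8 * c) hY).trans ?_
    rw [mul_div_assoc', le_div_iff₀ (by positivity)]
    nlinarith
  · rw [mul_div_assoc']
    gcongr ?_ / _
    linarith

/-- the discrepancy vector -/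
noncomputable def ev (k N : ℕ) : EuclideanSpace ℝ (Fin (2 ^ k)) :=
  ∑ l ∈ Icc 1 N, u (2 ^ k) (A (l + k))

theorem ev_bound (κ τ N : ℕ) (hτ : 1 ≤ τ) (hτκ : τ ≤ κ)
    (γ : ℝ) (hγ0 : 0 ≤ γ) (hγ : ((2 * κ : ℕ) : ℝ) * (2 * (2 * τ : ℕ)) ≤ γ ^ 2)
    (h1 : 2 ^ (16 * κ) ≤ N) (h2 : N < 2 ^ (16 * κ + 16)) :
    ‖ev (2 * κ) N‖ * 2 ^ κ ≤
      N * (62 / κ + 2 ^ (2 * τ) * (2 * (2 * τ : ℕ) + γ) / κ + 16 / 2 ^ τ) := by
  classical
  have hex : ∃ M, N < Q (M + 1) := ⟨N + 1, lt_of_lt_of_le (by omega) (le_Q (N + 1))⟩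
  set M := Nat.find hex with hMdef
  have hM1 : N < Q (M + 1) := Nat.find_spec hex
  have hM0 : Q M ≤ N := by
    rcases Nat.eq_zero_or_pos M with h | h
    · rw [h]; simp [Q]
    · have := Nat.find_min hex (m := M - 1) (by omega)
      rw [show M - 1 + 1 = M by omega] at this; omega
  set L := Nat.size M with hLdef
  have hML : M < 2 ^ L := Nat.lt_size_self M
  have hNL : N < 2 ^ L * L := lt_of_lt_of_le hM1 ((Q_mono hML).trans (Q_pow_le L))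
  have hL8 : 8 * κ < L := by
    have a : L < 2 ^ L := Nat.lt_two_pow_self
    have b : 2 ^ L * L ≤ 2 ^ (L + L) := by rw [pow_add]; exact Nat.mul_le_mul_left _ a.le
    have c : 2 ^ (16 * κ) < 2 ^ (L + L) := by omega
    have := (Nat.pow_lt_pow_iff_right (by norm_num)).1 c
    omega
  have hML1 : 2 ^ (L - 1) ≤ M := Nat.lt_size.1 (by omega)
  obtain ⟨l, hl⟩ : ∃ l, L = l + 2 := ⟨L - 2, by omega⟩
  have hQ : 2 ^ l * (l + 1) ≤ N := by
    refine (le_Q_pow l).trans (le_trans (Q_mono ?_) hM0)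
    rwa [show l + 1 = L - 1 by omega]
  have hl16 : l < 16 * κ + 16 := by
    have : 2 ^ l < 2 ^ (16 * κ + 16) := by nlinarith [Nat.zero_le (2 ^ l * l)]
    exact (Nat.pow_lt_pow_iff_right (by norm_num)).1 this
  have hK : 0 < 2 ^ (2 * κ) := by positivity
  have hH := H_bound κ τ M L hτ hτκ (by omega) γ hγ0 hγ hML1 hML.le
  set f : ℕ → EuclideanSpace ℝ (Fin (2 ^ (2 * κ))) := fun t => u (2 ^ (2 * κ)) (A t) with hf
  have e : ev (2 * κ) N = H (2 * κ) M + ∑ t ∈ Ioc (Q M) (N + 2 * κ), f t - ∑ t ∈ Ioc 0 (2 * κ), f t := by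
    have a1 := sum_Ioc_consecutive f (Nat.zero_le (Q M)) (by omega : Q M ≤ N + 2 * κ)
    have a2 := sum_Ioc_consecutive f (Nat.zero_le (2 * κ)) (by omega : 2 * κ ≤ N + 2 * κ)
    have a3 := sum_Ioc_shift f N (2 * κ)
    have a4 : Icc 1 N = Ioc 0 N := by ext; simp; omega
    unfold ev H
    rw [a4, eq_sub_iff_add_eq, add_comm]
    change _ + ∑ t ∈ Ioc 0 N, f (t + 2 * κ) = _
    rw [a3, a2, ← a1]
  have n1 : ‖∑ t ∈ Ioc (Q M) (N + 2 * κ), f t‖ ≤ 18 * κ + 18 := by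
    refine (norm_sum_u_le _ hK _ _).trans ?_
    rw [Nat.card_Ioc]
    have : N + 2 * κ - Q M ≤ 18 * κ + 18 := by rw [Q_succ] at hM1; omega
    exact_mod_cast this
  have n2 : ‖∑ t ∈ Ioc 0 (2 * κ), f t‖ ≤ 2 * κ := by
    refine (norm_sum_u_le _ hK _ _).trans ?_
    simp
  have n3 : ‖ev (2 * κ) N‖ ≤ ‖H (2 * κ) M‖ + (18 * κ + 18) + 2 * κ := by
    rw [e]
    refine (norm_sub_le _ _).trans ?_
    have := norm_add_le (H (2 * κ) M) (∑ t ∈ Ioc (Q M) (N + 2 * κ), f t)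
    linarith
  have hκ1 : (1 : ℝ) ≤ κ := by exact_mod_cast hτ.trans hτκ
  have hκX : (κ : ℝ) ≤ 2 ^ κ := by
    have : κ < 2 ^ κ := Nat.lt_two_pow_self
    exact_mod_cast this.le
  have hN : ((2 : ℝ) ^ κ) ^ 16 ≤ N := by rw [← pow_mul, mul_comm]; exact_mod_cast h1
  have t1 := aux1 κ (2 ^ κ) N hκ1 hκX hN
  have hQ' : (2 : ℝ) ^ l * (l + 1) ≤ N := by exact_mod_cast hQ
  have hl8 : (8 * κ : ℝ) ≤ l + 1 := by
    have : 8 * κ ≤ l + 1 := by omega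
    exact_mod_cast this
  have t2 := aux2 κ (2 ^ κ) N (2 ^ (2 * τ) * (2 * (2 * τ : ℕ) + γ)) (2 ^ τ) (2 ^ l) l hκ1
    (by positivity) (by positivity) (one_le_pow₀ (by norm_num)) (by positivity) (by positivity)
    hQ' hl8
  have e1 : (2 : ℝ) ^ (4 * κ + 2) = 4 * (2 ^ κ) ^ 4 := by ring
  have e2 : (2 : ℝ) ^ (L + 1) = 8 * 2 ^ l := by rw [hl]; ring
  have e3 : (L : ℝ) = l + 2 := by rw [hl]; push_cast; ring
  rw [e1, e2, e3] at hH
  have := mul_le_mul_of_nonneg_right (n3.trans (add_le_add (add_le_add hH le_rfl) le_rfl))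
    (by positivity : (0 : ℝ) ≤ 2 ^ κ)
  refine this.trans ?_
  rw [add_assoc (62 / (κ : ℝ)), mul_add (N : ℝ)]
  refine le_trans (le_of_eq ?_) (add_le_add t1 t2)
  ring

end Pool.Agent.H89.CW
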