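import Pool.Agent.H89.CW3

set_option autoImplicit false

namespace Pool.Agent.H89.CW

open Finset Filter Topology

theorem norm_shift {ι : Type*} (K : ℕ) (hK : 0 < K) (S : Finset ι) (a : ι → ℕ) (c : ℕ) :
    ‖∑ i ∈ S, u K (a i + c)‖ = ‖∑ i ∈ S, u K (a i)‖ := by
  have : ‖∑ i ∈ S, u K (a i + c)‖ ^ 2 = ‖∑ i ∈ S, u K (a i)‖ ^ 2 := by
    rw [← real_inner_self_eq_norm_sq, ← real_inner_self_eq_norm_sq, sum_inner, sum_inner]
    refine sum_congr rfl fun i _ => ?_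
    rw [inner_sum, inner_sum]
    refine sum_congr rfl fun j _ => ?_
    rw [inner_u _ _ _ hK, inner_u _ _ _ hK]
    congr 1
    refine if_congr ⟨fun h => Nat.ModEq.add_right_cancel' c h, fun h => Nat.ModEq.add_right c h⟩
      rfl rfl
  exact (pow_left_inj₀ (norm_nonneg _) (norm_nonneg _) two_ne_zero).1 this

theorem count_shift {ι : Type*} (K : ℕ) (hK : 0 < K) (S : Finset ι) (a : ι → ℕ) (r t : ℕ) :
    |∑ i ∈ S, ∑ j ∈ S, (if (a i + r) % K = (a j + t) % K then (1 : ℝ) else 0)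
      - (S.card : ℝ) ^ 2 / K| ≤ ‖∑ i ∈ S, u K (a i)‖ ^ 2 := by
  have h := abs_real_inner_le_norm (∑ i ∈ S, u K (a i + r)) (∑ i ∈ S, u K (a i + t))
  rw [norm_shift K hK, norm_shift K hK, ← sq, sum_inner] at h
  simp_rw [inner_sum, inner_u _ _ _ hK, sum_sub_distrib] at h
  convert h using 3
  simp; ring

noncomputable def x (n : ℕ) : ℝ := Int.fract ((2 : ℝ) ^ n * al)

open Classical in
noncomputable def R (N : ℕ) (δ : ℝ) : ℕ :=
  ((Icc 1 N ×ˢ Icc 1 N).filter fun p : ℕ × ℕ =>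
    p.1 ≠ p.2 ∧ |(x p.1 - x p.2) - round (x p.1 - x p.2)| ≤ δ).card

theorem A_theta (l k : ℕ) : ∃ θ : ℝ, 0 ≤ θ ∧ θ < 1 ∧ ∃ z : ℤ,
    ((2 ^ k : ℕ) : ℝ) * x l = A (l + k) + θ - ((2 ^ k : ℕ) : ℝ) * z := by
  have h0 : 0 ≤ (2 : ℝ) ^ (l + k) * al := mul_nonneg (by positivity) al_nonneg
  refine ⟨2 ^ (l + k) * al - A (l + k), sub_nonneg.2 (Nat.floor_le h0), ?_, ⌊(2 : ℝ) ^ l * al⌋, ?_⟩
  · have := Nat.lt_floor_add_one ((2 : ℝ) ^ (l + k) * al)
    unfold A; linarith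
  · unfold x Int.fract; push_cast; ring

theorem close_to_cong (l m k r : ℕ) (δ : ℝ) (hr : ((2 ^ k : ℕ) : ℝ) * δ ≤ r)
    (h : |(x l - x m) - round (x l - x m)| ≤ δ) :
    ∃ t ∈ range (2 * r + 1), (A (l + k) + r) % 2 ^ k = (A (m + k) + t) % 2 ^ k := by
  obtain ⟨θ, a0, a1, z, hz⟩ := A_theta l k
  obtain ⟨θ', b0, b1, z', hz'⟩ := A_theta m k
  set K : ℕ := 2 ^ k with hK
  have hK0 : (0 : ℝ) < K := by rw [hK]; positivity
  set w := round (x l - x m)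
  set d : ℤ := A (l + k) - A (m + k) - K * (z - z' + w) with hd
  have e : (d : ℝ) = K * ((x l - x m) - w) - θ + θ' := by
    rw [hd]; push_cast; linarith
  rw [abs_le] at h
  have u1 : (K : ℝ) * ((x l - x m) - w) ≤ K * δ := mul_le_mul_of_nonneg_left h.2 hK0.le
  have u2 : (K : ℝ) * (-δ) ≤ K * ((x l - x m) - w) := mul_le_mul_of_nonneg_left h.1 hK0.le
  have d1 : d < r + 1 := by
    have : (d : ℝ) < r + 1 := by linarith
    exact_mod_cast this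
  have d2 : -(r : ℤ) - 1 < d := by
    have : -(r : ℝ) - 1 < d := by linarith
    exact_mod_cast this
  refine ⟨(r + d).toNat, mem_range.2 (by omega), ?_⟩
  apply (Nat.modEq_iff_dvd).2
  refine ⟨-(z - z' + w), ?_⟩
  push_cast
  rw [Int.toNat_of_nonneg (by omega), hd]; ring

theorem cong_to_close (l m k r t : ℕ) (δ : ℝ) (hr : (r : ℝ) + 1 ≤ ((2 ^ k : ℕ) : ℝ) * δ)
    (ht : t < 2 * r + 1) (h : (A (l + k) + r) % 2 ^ k = (A (m + k) + t) % 2 ^ k) :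
    |(x l - x m) - round (x l - x m)| ≤ δ := by
  obtain ⟨θ, a0, a1, z, hz⟩ := A_theta l k
  obtain ⟨θ', b0, b1, z', hz'⟩ := A_theta m k
  obtain ⟨c, hc⟩ := (Nat.modEq_iff_dvd).1 h
  set K : ℕ := 2 ^ k with hK
  have hK0 : (0 : ℝ) < K := by rw [hK]; positivity
  refine (round_le _ (z' - z - c)).trans ?_
  have hc' : (A (m + k) : ℝ) + t - (A (l + k) + r) = K * c := by exact_mod_cast hc
  have ht' : (t : ℝ) ≤ 2 * r := by
    have : t ≤ 2 * r := by omega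
    exact_mod_cast this
  have ht0 : (0 : ℝ) ≤ t := by positivity
  have e : K * (x l - x m - ((z' - z - c : ℤ) : ℝ)) = t - r + θ - θ' := by push_cast; linarith
  rw [abs_le]
  constructor
  · refine le_of_mul_le_mul_left ?_ hK0; linarith
  · refine le_of_mul_le_mul_left ?_ hK0; linarith

theorem R_eq (N : ℕ) (δ : ℝ) : (R N δ : ℝ) = ∑ l ∈ Icc 1 N, ∑ m ∈ Icc 1 N,
    if l ≠ m ∧ |(x l - x m) - round (x l - x m)| ≤ δ then (1 : ℝ) else 0 := by
  classical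
  unfold R
  rw [card_filter, ← sum_product']
  push_cast
  rfl

theorem R_upper (N k : ℕ) (δ : ℝ) (hδ : 0 ≤ δ) :
    (R N δ : ℝ) ≤ (2 * (((2 ^ k : ℕ) : ℝ) * δ) + 3) * ((N : ℝ) ^ 2 / (2 ^ k : ℕ) + ‖ev k N‖ ^ 2) := by
  have hK : 0 < 2 ^ k := by positivity
  set r := ⌊((2 ^ k : ℕ) : ℝ) * δ⌋₊ + 1 with hr
  have r1 : ((2 ^ k : ℕ) : ℝ) * δ ≤ r := by
    rw [hr]; push_cast; exact (Nat.lt_floor_add_one _).le
  have r2 : (r : ℝ) ≤ ((2 ^ k : ℕ) : ℝ) * δ + 1 := by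
    rw [hr, Nat.cast_add, Nat.cast_one]
    exact add_le_add (Nat.floor_le (by positivity)) le_rfl
  have h1 : (R N δ : ℝ) ≤ ∑ t ∈ range (2 * r + 1), ∑ l ∈ Icc 1 N, ∑ m ∈ Icc 1 N,
      if (A (l + k) + r) % 2 ^ k = (A (m + k) + t) % 2 ^ k then (1 : ℝ) else 0 := by
    rw [R_eq, sum_comm (s := range (2 * r + 1))]
    refine sum_le_sum fun l _ => ?_
    rw [sum_comm (s := range (2 * r + 1))]
    refine sum_le_sum fun m _ => ?_
    split_ifs with h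
    · obtain ⟨t, ht, h'⟩ := close_to_cong l m k r δ r1 h.2
      refine le_trans ?_ (single_le_sum (f := fun t => if (A (l + k) + r) % 2 ^ k =
        (A (m + k) + t) % 2 ^ k then (1 : ℝ) else 0) (fun _ _ => by positivity) ht)
      simp only [h', if_true, le_refl]
    · exact sum_nonneg fun _ _ => by positivity
  have h2 : ∀ t ∈ range (2 * r + 1), ∑ l ∈ Icc 1 N, ∑ m ∈ Icc 1 N,
      (if (A (l + k) + r) % 2 ^ k = (A (m + k) + t) % 2 ^ k then (1 : ℝ) else 0) ≤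
      (N : ℝ) ^ 2 / (2 ^ k : ℕ) + ‖ev k N‖ ^ 2 := by
    intro t _
    have := (abs_le.1 (count_shift (2 ^ k) hK (Icc 1 N) (fun l => A (l + k)) r t)).2
    rw [Nat.card_Icc, Nat.add_sub_cancel] at this
    unfold ev; linarith
  refine h1.trans ((sum_le_sum h2).trans ?_)
  rw [sum_const, card_range, nsmul_eq_mul]
  refine mul_le_mul_of_nonneg_right ?_ (by positivity)
  rw [Nat.cast_add, Nat.cast_mul]; norm_num at r2 ⊢; linarith

theorem R_lower (N k : ℕ) (δ : ℝ) (hδ : δ ≤ 1 / 2)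
    (hE : ‖ev k N‖ ^ 2 ≤ (N : ℝ) ^ 2 / (2 ^ k : ℕ)) :
    (2 * (((2 ^ k : ℕ) : ℝ) * δ) - 3) * ((N : ℝ) ^ 2 / (2 ^ k : ℕ) - ‖ev k N‖ ^ 2) - N ≤ R N δ := by
  have hK : 0 < 2 ^ k := by positivity
  have hK' : (0 : ℝ) < (2 ^ k : ℕ) := by exact_mod_cast hK
  by_cases hs : ((2 ^ k : ℕ) : ℝ) * δ < 1
  · have : (2 * (((2 ^ k : ℕ) : ℝ) * δ) - 3) * ((N : ℝ) ^ 2 / (2 ^ k : ℕ) - ‖ev k N‖ ^ 2) ≤ 0 :=
      mul_nonpos_of_nonpos_of_nonneg (by linarith) (by linarith)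
    have h1 : (0 : ℝ) ≤ N := by positivity
    have h2 : (0 : ℝ) ≤ R N δ := by positivity
    linarith
  push_neg at hs
  obtain ⟨r, hr⟩ : ∃ r, ⌊((2 ^ k : ℕ) : ℝ) * δ⌋₊ = r + 1 :=
    ⟨⌊((2 ^ k : ℕ) : ℝ) * δ⌋₊ - 1, by have := Nat.floor_pos.2 hs; omega⟩
  have r1 : (r : ℝ) + 1 ≤ ((2 ^ k : ℕ) : ℝ) * δ := by
    have := Nat.floor_le (le_trans zero_le_one hs)
    rw [hr] at this; exact_mod_cast this
  have r2 : ((2 ^ k : ℕ) : ℝ) * δ < r + 2 := by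
    have := Nat.lt_floor_add_one (((2 ^ k : ℕ) : ℝ) * δ)
    rw [hr, Nat.cast_add, Nat.cast_one] at this; linarith
  have r3 : 2 * r + 1 < 2 ^ k := by
    have : ((2 ^ k : ℕ) : ℝ) * δ ≤ ((2 ^ k : ℕ) : ℝ) * (1 / 2) := mul_le_mul_of_nonneg_left hδ hK'.le
    have : (2 * r + 1 : ℝ) < ((2 ^ k : ℕ) : ℝ) := by linarith
    exact_mod_cast this
  have h1 : ∑ t ∈ range (2 * r + 1), ∑ l ∈ Icc 1 N, ∑ m ∈ Icc 1 N,
      (if (A (l + k) + r) % 2 ^ k = (A (m + k) + t) % 2 ^ k then (1 : ℝ) else 0) ≤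
      R N δ + ∑ l ∈ Icc 1 N, ∑ m ∈ Icc 1 N, if l = m then (1 : ℝ) else 0 := by
    rw [R_eq, sum_comm (s := range (2 * r + 1)), ← sum_add_distrib]
    refine sum_le_sum fun l _ => ?_
    rw [sum_comm (s := range (2 * r + 1)), ← sum_add_distrib]
    refine sum_le_sum fun m _ => ?_
    by_cases hex : ∃ t ∈ range (2 * r + 1), (A (l + k) + r) % 2 ^ k = (A (m + k) + t) % 2 ^ k
    · obtain ⟨t, ht, h⟩ := hex
      have hc := cong_to_close l m k r t δ r1 (mem_range.1 ht) h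
      rw [sum_eq_single_of_mem t ht, if_pos h]
      · by_cases hlm : l = m
        · simp [hlm]
        · rw [if_pos ⟨hlm, hc⟩, if_neg hlm]; simp
      · intro t' ht' hne
        rw [if_neg]
        intro h'
        have h3 : t' ≡ t [MOD 2 ^ k] := Nat.ModEq.add_left_cancel' _ (h'.symm.trans h)
        exact hne (Nat.ModEq.eq_of_lt_of_lt h3 ((mem_range.1 ht').trans r3)
          ((mem_range.1 ht).trans r3))
    · push_neg at hex
      rw [sum_eq_zero fun t ht => if_neg (hex t ht)]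
      positivity
  have h3 : ∑ l ∈ Icc 1 N, ∑ m ∈ Icc 1 N, (if l = m then (1 : ℝ) else 0) = N := by
    rw [sum_congr rfl fun l hl => by rw [sum_ite_eq, if_pos hl]]; simp
  have h2 : ∀ t ∈ range (2 * r + 1), (N : ℝ) ^ 2 / (2 ^ k : ℕ) - ‖ev k N‖ ^ 2 ≤
      ∑ l ∈ Icc 1 N, ∑ m ∈ Icc 1 N,
      (if (A (l + k) + r) % 2 ^ k = (A (m + k) + t) % 2 ^ k then (1 : ℝ) else 0) := by
    intro t _
    have := (abs_le.1 (count_shift (2 ^ k) hK (Icc 1 N) (fun l => A (l + k)) r t)).1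
    rw [Nat.card_Icc, Nat.add_sub_cancel] at this
    unfold ev; linarith
  have h4 := (sum_le_sum h2).trans h1
  rw [sum_const, card_range, nsmul_eq_mul, h3] at h4
  have h5 : (2 * (((2 ^ k : ℕ) : ℝ) * δ) - 3) * ((N : ℝ) ^ 2 / (2 ^ k : ℕ) - ‖ev k N‖ ^ 2) ≤
      ((2 * r + 1 : ℕ) : ℝ) * ((N : ℝ) ^ 2 / (2 ^ k : ℕ) - ‖ev k N‖ ^ 2) := by
    refine mul_le_mul_of_nonneg_right ?_ (by linarith)
    rw [Nat.cast_add, Nat.cast_mul, Nat.cast_ofNat, Nat.cast_one]; linarith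
  linarith

def kap (N : ℕ) : ℕ := Nat.log 2 N / 16

theorem kap_spec (N : ℕ) (hN : N ≠ 0) : 2 ^ (16 * kap N) ≤ N ∧ N < 2 ^ (16 * kap N + 16) := by
  unfold kap
  constructor
  · exact (Nat.pow_le_pow_right (by norm_num) (Nat.mul_div_le _ _)).trans (Nat.pow_log_le_self 2 hN)
  · exact (Nat.lt_pow_succ_log_self (by norm_num) N).trans_le
      (Nat.pow_le_pow_right (by norm_num) (by omega))

theorem kap_tendsto : Tendsto kap atTop atTop := by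
  rw [tendsto_atTop]
  intro b
  filter_upwards [eventually_ge_atTop (2 ^ (16 * b + 16))] with N hN
  have h := (kap_spec N (by have : 0 < 2 ^ (16 * b + 16) := by positivity
                            omega)).2
  have := (Nat.pow_lt_pow_iff_right (by norm_num)).1 (lt_of_le_of_lt hN h)
  omega

noncomputable def eta (N : ℕ) : ℝ := ‖ev (2 * kap N) N‖ * 2 ^ kap N / N

theorem aux3 (κ τ e : ℝ) (hκ : 0 < κ) (he : 0 < e) (h : 8 * τ / e ^ 2 ≤ κ) :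
    (2 * κ) * (2 * (2 * τ)) ≤ (e * κ) ^ 2 := by
  rw [div_le_iff₀ (by positivity)] at h
  have := mul_le_mul_of_nonneg_left h hκ.le
  linarith [this]

theorem aux4 (κ τ ε P Y : ℝ) (hκ : 0 < κ) (hε : 0 < ε) (hP : 0 < P) (hY : 16 / Y < ε / 4)
    (h : (62 + P * (4 * τ)) / (ε / 4) ≤ κ) :
    62 / κ + P * (2 * (2 * τ) + ε / 4 / P * κ) / κ + 16 / Y < ε := by
  have a1 : (62 + P * (4 * τ)) / κ ≤ ε / 4 := by
    rw [div_le_iff₀ (by positivity)] at h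
    rw [div_le_iff₀ hκ]; linarith
  have a2 : 62 / κ + P * (2 * (2 * τ) + ε / 4 / P * κ) / κ = (62 + P * (4 * τ)) / κ + ε / 4 := by
    field_simp; ring
  linarith

theorem eta_tendsto : Tendsto eta atTop (𝓝 0) := by
  rw [Metric.tendsto_atTop]
  intro ε hε
  obtain ⟨τ, hτ, hτ1⟩ : ∃ τ : ℕ, 1 ≤ τ ∧ 16 / (2 : ℝ) ^ τ < ε / 4 := by
    obtain ⟨τ0, hτ0⟩ := pow_unbounded_of_one_lt (64 / ε) (by norm_num : (1 : ℝ) < 2)
    refine ⟨τ0 + 1, by omega, ?_⟩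
    rw [div_lt_iff₀ hε] at hτ0
    rw [div_lt_iff₀ (by positivity), pow_succ]
    have := mul_pos (pow_pos (two_pos : (0 : ℝ) < 2) τ0) hε
    linarith
  have he0 : 0 < ε / 4 / (2 : ℝ) ^ (2 * τ) := by positivity
  have hk : Tendsto (fun N => (kap N : ℝ)) atTop atTop := tendsto_natCast_atTop_atTop.comp kap_tendsto
  have ev1 := kap_tendsto.eventually_ge_atTop τ
  have ev2 := hk.eventually_ge_atTop (8 * τ / (ε / 4 / (2 : ℝ) ^ (2 * τ)) ^ 2)
  have ev3 := hk.eventually_ge_atTop ((62 + 2 ^ (2 * τ) * (4 * τ)) / (ε / 4))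
  obtain ⟨N0, hN0⟩ := eventually_atTop.1 (ev1.and (ev2.and (ev3.and (eventually_ge_atTop 1))))
  refine ⟨N0, fun N hN => ?_⟩
  obtain ⟨h1, h2, h3, h4⟩ := hN0 N hN
  have hs := kap_spec N (by omega)
  have hκ : (0 : ℝ) < kap N := by
    have : 0 < kap N := by omega
    exact_mod_cast this
  have hg := aux3 _ _ _ hκ he0 h2
  have hb := ev_bound (kap N) τ N hτ h1 (ε / 4 / (2 : ℝ) ^ (2 * τ) * kap N)
    (mul_pos he0 hκ).le (by rw [Nat.cast_mul, Nat.cast_mul, Nat.cast_ofNat]; exact hg) hs.1 hs.2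
  have hN' : (0 : ℝ) < N := by exact_mod_cast h4
  have hp : 0 ≤ eta N := div_nonneg (mul_nonneg (norm_nonneg _) (by positivity)) hN'.le
  rw [Real.dist_eq, sub_zero, abs_of_nonneg hp, eta, div_lt_iff₀ hN', mul_comm ε]
  refine hb.trans_lt (mul_lt_mul_of_pos_left ?_ hN')
  rw [Nat.cast_mul, Nat.cast_ofNat]
  exact aux4 _ _ _ _ _ hκ hε (by positivity) hτ1 h3

noncomputable def rho (N : ℕ) : ℝ := (N : ℝ) ^ (1 / 16 : ℝ) / (2 ^ (2 * kap N) : ℕ)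

theorem rho_tendsto : Tendsto rho atTop (𝓝 0) := by
  have h0 : Tendsto (fun N => 2 * (1 / 2 : ℝ) ^ kap N) atTop (𝓝 0) := by
    simpa using ((tendsto_pow_atTop_nhds_zero_of_lt_one (r := (1 / 2 : ℝ)) (by norm_num)
      (by norm_num)).comp kap_tendsto).const_mul 2
  refine squeeze_zero' (Eventually.of_forall fun N => by unfold rho; positivity) ?_ h0
  filter_upwards [eventually_ge_atTop 1] with N hN
  have hs := (kap_spec N (by omega)).2
  have h1 : (N : ℝ) ≤ ((2 : ℝ) ^ (kap N + 1)) ^ (16 : ℕ) := by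
    rw [← pow_mul, show (kap N + 1) * 16 = 16 * kap N + 16 by ring]; exact_mod_cast hs.le
  have h2 : (N : ℝ) ^ (1 / 16 : ℝ) ≤ 2 ^ (kap N + 1) := by
    refine (Real.rpow_le_rpow (by positivity) h1 (by norm_num)).trans (le_of_eq ?_)
    rw [← Real.rpow_natCast _ 16, ← Real.rpow_mul (by positivity)]; norm_num
  unfold rho
  rw [div_le_iff₀ (by positivity)]
  refine h2.trans (le_of_eq ?_)
  push_cast
  rw [one_div, inv_pow]; field_simp; ring

theorem main (s : ℝ) (hs : 0 ≤ s) :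
    Tendsto (fun N : ℕ => (N : ℝ) ^ ((1 / 16 : ℝ) - 2) * R N (s * (N : ℝ) ^ (-(1 / 16) : ℝ)))
      atTop (𝓝 (2 * s)) := by
  have t1 : Tendsto (fun N : ℕ => (N : ℝ) ^ (-(15 / 16) : ℝ)) atTop (𝓝 0) :=
    (tendsto_rpow_neg_atTop (by norm_num)).comp tendsto_natCast_atTop_atTop
  have t2 : Tendsto (fun N : ℕ => s * (N : ℝ) ^ (-(1 / 16) : ℝ)) atTop (𝓝 0) := by
    simpa using ((tendsto_rpow_neg_atTop (y := 1 / 16) (by norm_num)).comp
      tendsto_natCast_atTop_atTop).const_mul s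
  have up : Tendsto (fun N => (2 * s + 3 * rho N) * (1 + eta N ^ 2)) atTop (𝓝 (2 * s)) := by
    simpa using ((rho_tendsto.const_mul 3).const_add (2 * s)).mul ((eta_tendsto.pow 2).const_add 1)
  have lo : Tendsto (fun N => (2 * s - 3 * rho N) * (1 - eta N ^ 2) - (N : ℝ) ^ (-(15 / 16) : ℝ))
      atTop (𝓝 (2 * s)) := by
    simpa using (((rho_tendsto.const_mul 3).const_sub (2 * s)).mul
      ((eta_tendsto.pow 2).const_sub 1)).sub t1
  have key : ∀ N : ℕ, 1 ≤ N → ∃ y : ℝ, 0 < y ∧ (N : ℝ) ^ (1 / 16 : ℝ) = y ∧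
      (N : ℝ) ^ ((1 / 16 : ℝ) - 2) = y / (N : ℝ) ^ 2 ∧ (N : ℝ) ^ (-(1 / 16) : ℝ) = y⁻¹ ∧
      (N : ℝ) ^ (-(15 / 16) : ℝ) = y / N ∧
      ‖ev (2 * kap N) N‖ ^ 2 = eta N ^ 2 * ((N : ℝ) ^ 2 / (2 ^ (2 * kap N) : ℕ)) := by
    intro N hN
    have hN' : (0 : ℝ) < N := by exact_mod_cast hN
    refine ⟨_, Real.rpow_pos_of_pos hN' _, rfl, ?_, Real.rpow_neg hN'.le _, ?_, ?_⟩
    · rw [Real.rpow_sub hN']; norm_num
    · rw [← Real.rpow_sub_one hN'.ne']; norm_num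
    · unfold eta; push_cast; field_simp; ring
  refine tendsto_of_tendsto_of_tendsto_of_le_of_le' lo up ?_ ?_
  · filter_upwards [eventually_ge_atTop 1, t2.eventually (ge_mem_nhds (by norm_num : (0 : ℝ) < 1 / 2)),
      (eta_tendsto.pow 2).eventually (ge_mem_nhds (by norm_num : (0 : ℝ) ^ 2 < 1))] with N h1 h2 h3
    obtain ⟨y, y0, y1, y2, y3, y4, y5⟩ := key N h1
    have hN' : (0 : ℝ) < N := by exact_mod_cast h1
    have h := R_lower N (2 * kap N) _ h2 (by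
      rw [y5]; exact mul_le_of_le_one_left (by positivity) h3)
    rw [y2]
    refine le_trans (le_of_eq ?_) (mul_le_mul_of_nonneg_left h (by positivity))
    rw [y5, y3, y4, rho, y1]
    have : ((2 ^ (2 * kap N) : ℕ) : ℝ) ≠ 0 := by positivity
    field_simp
  · filter_upwards [eventually_ge_atTop 1] with N h1
    obtain ⟨y, y0, y1, y2, y3, y4, y5⟩ := key N h1
    have hN' : (0 : ℝ) < N := by exact_mod_cast h1
    have h := R_upper N (2 * kap N) (s * (N : ℝ) ^ (-(1 / 16) : ℝ)) (by positivity)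
    rw [y2]
    refine le_trans (mul_le_mul_of_nonneg_left h (by positivity)) (le_of_eq ?_)
    rw [y5, y3, rho, y1]
    have : ((2 ^ (2 * kap N) : ℕ) : ℝ) ≠ 0 := by positivity
    field_simp

end Pool.Agent.H89.CW
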