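import Pool.Agent.H89.DJ1

set_option autoImplicit false
open Set Topology Filter

namespace Pool.Agent.H89.DJ

/-- Staggered index patterns. -/
abbrev Stag : Type := {p : (ℕ → ℕ) × (ℕ → ℕ) // ∀ i, p.1 i ≤ p.2 i ∧ p.2 i < p.1 (i + 1)}

instance : Nonempty Stag := ⟨⟨(id, id), fun i => ⟨le_rfl, Nat.lt_succ_self i⟩⟩⟩

lemma sum_err {r : ℕ} (f g : ℕ → ℕ → ℝ) {e : ℝ}
    (h : ∀ i < r, ∀ j < r, |f i j - g i j| ≤ e) :
    |∑ i ∈ Finset.range r, ∑ j ∈ Finset.range r, f i j -
      ∑ i ∈ Finset.range r, ∑ j ∈ Finset.range r, g i j| ≤ r ^ 2 * e := by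
  rw [← Finset.sum_sub_distrib]
  refine (Finset.abs_sum_le_sum_abs _ _).trans ?_
  have : ∀ i ∈ Finset.range r, |∑ j ∈ Finset.range r, f i j - ∑ j ∈ Finset.range r, g i j| ≤
      r * e := by
    intro i hi
    rw [← Finset.sum_sub_distrib]
    refine (Finset.abs_sum_le_sum_abs _ _).trans ?_
    have := Finset.sum_le_card_nsmul (Finset.range r) (fun j => |f i j - g i j|) e
      fun j hj => h i (Finset.mem_range.1 hi) j (Finset.mem_range.1 hj)
    simpa using this
  have := Finset.sum_le_card_nsmul _ _ _ this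
  simp only [Finset.card_range, nsmul_eq_mul] at this
  linarith

lemma count (p : Stag) (r : ℕ) (k : ℕ → ℕ) (hk : Function.Injective k) (T T' : ℕ)
    (hT : ∀ j < r, k j ≤ T) :
    (0 : ℝ) ≤ ∑ i ∈ Finset.range r, ∑ j ∈ Finset.range r,
      (if p.1.1 i = k j ∧ T < p.1.2 i ∧ p.1.2 i ≤ T' then (1 : ℝ) else 0) ∧
    ∑ i ∈ Finset.range r, ∑ j ∈ Finset.range r,
      (if p.1.1 i = k j ∧ T < p.1.2 i ∧ p.1.2 i ≤ T' then (1 : ℝ) else 0) ≤ 1 := by
  classical
  refine ⟨Finset.sum_nonneg fun i _ => Finset.sum_nonneg fun j _ => by positivity, ?_⟩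
  rw [← Finset.sum_product', Finset.sum_boole]
  have hm : StrictMono p.1.1 := strictMono_nat_of_lt_succ fun i => (p.2 i).1.trans_lt (p.2 i).2
  have key : ∀ i i', p.1.1 i' ≤ T → T < p.1.2 i → i' ≤ i := by
    intro i i' h1 h2
    by_contra hc
    have := hm.monotone (show i + 1 ≤ i' by omega)
    have := (p.2 i).2
    omega
  norm_cast
  rw [Finset.card_le_one]
  rintro ⟨i, j⟩ h1 ⟨i', j'⟩ h2
  simp only [Finset.mem_filter, Finset.mem_product, Finset.mem_range] at h1 h2
  have a1 := hT j h1.1.2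
  have a2 := hT j' h2.1.2
  have : i = i' := le_antisymm (key _ _ (h1.2.1 ▸ a1) h2.2.2.1) (key _ _ (h2.2.1 ▸ a2) h1.2.2.1)
  subst this
  rw [hk (h1.2.1.symm.trans h2.2.1)]

variable {X : Type} [NormedAddCommGroup X] [NormedSpace ℝ X] [CompleteSpace X]

theorem main
    (hX : ∀ n : ℕ, ∃ φ : Fin n → ((X →L[ℝ] ℝ) →L[ℝ] ℝ),
      ∀ (c : Fin n → ℝ) (x : X), (∀ f : X →L[ℝ] ℝ, ∑ i, c i * φ i f = f x) → c = 0) (l : ℝ) :
    ∃ N : Seminorm ℝ X,
      (∃ a b : ℝ, 0 < a ∧ 0 < b ∧ ∀ x : X, a * ‖x‖ ≤ N x ∧ N x ≤ b * ‖x‖) ∧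
      ∀ (Z : Type) [NormedAddCommGroup Z] [NormedSpace ℝ Z]
        (T : X ≃ₗ[ℝ] (Z →L[ℝ] ℝ)) (a b : ℝ),
        (∀ x : X, ‖T x‖ ≤ a * N x) → (∀ x : X, N x ≤ b * ‖T x‖) → l ≤ a * b := by
  classical
  obtain ⟨r, hr⟩ := exists_nat_ge (max 1 (3 * l + 1))
  have hr1 : (1 : ℝ) ≤ r := (le_max_left _ _).trans hr
  have hr2 : 3 * l + 1 ≤ r := (le_max_right _ _).trans hr
  obtain ⟨η, hη, hηr⟩ : ∃ η : ℝ, 0 < η ∧ r ^ 2 * (20 * η) = 1 :=
    ⟨1 / (20 * r ^ 2), by positivity, by field_simp⟩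
  obtain ⟨v, φ, A, hv, hφ, hA, hA', hφv, hlim⟩ := system hX hη
  let Φ : Stag → X →L[ℝ] ℝ := fun p => ∑ i ∈ Finset.range r, φ (p.1.1 i) (p.1.2 i)
  have hΦ : ∀ p x, |Φ p x| ≤ 2 * r * ‖x‖ := by
    intro p x
    refine ((Φ p).le_opNorm x).trans ?_
    gcongr
    refine (norm_sum_le _ _).trans ?_
    have := Finset.sum_le_card_nsmul (Finset.range r) (fun i => ‖φ (p.1.1 i) (p.1.2 i)‖) 2
      fun i _ => hφ _ _
    simp only [Finset.card_range, nsmul_eq_mul] at this
    linarith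
  have hbd : ∀ x, BddAbove (range fun p => |Φ p x|) := fun x =>
    ⟨_, by rintro _ ⟨p, rfl⟩; exact hΦ p x⟩
  let c : ℝ := 1 / (16 * r)
  have hc : 0 < c := by positivity
  let N : Seminorm ℝ X := Seminorm.ofSMulLE (fun x => c * ‖x‖ + ⨆ p, |Φ p x|) (by simp)
    (fun x y => by
      have h1 : (⨆ p, |Φ p (x + y)|) ≤ (⨆ p, |Φ p x|) + ⨆ p, |Φ p y| := ciSup_le fun p => by
        rw [map_add]
        exact (abs_add_le _ _).trans (add_le_add (le_ciSup (hbd x) p) (le_ciSup (hbd y) p))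
      have h2 := mul_le_mul_of_nonneg_left (norm_add_le x y) hc.le
      linarith)
    (fun t x => by
      have h1 : (⨆ p, |Φ p (t • x)|) ≤ ‖t‖ * ⨆ p, |Φ p x| := ciSup_le fun p => by
        rw [map_smul, smul_eq_mul, abs_mul]
        exact mul_le_mul_of_nonneg_left (le_ciSup (hbd x) p) (abs_nonneg _)
      rw [norm_smul]
      linarith)
  have hN : ∀ x, N x = c * ‖x‖ + ⨆ p, |Φ p x| := fun x => rfl
  have hN0 : ∀ x, 0 ≤ ⨆ p, |Φ p x| := fun x => Real.iSup_nonneg fun p => abs_nonneg _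
  have hN1 : ∀ x, c * ‖x‖ ≤ N x := fun x => by rw [hN]; linarith [hN0 x]
  have hN2 : ∀ x, N x ≤ (c + 2 * r) * ‖x‖ := fun x => by
    rw [hN]; linarith [ciSup_le fun p => hΦ p x]
  have hN3 : ∀ p x, |Φ p x| ≤ N x := fun p x => by
    rw [hN]; linarith [le_ciSup (hbd x) p, mul_nonneg hc.le (norm_nonneg x)]
  have hgen : ∀ (k k' : ℕ → ℕ), Function.Injective k → Function.Injective k' → ∀ S S' : ℕ,
      (∀ j < r, k j ≤ S) → (∀ j < r, k' j ≤ S) → S ≤ S' →
      N (∑ j ∈ Finset.range r, ((v (k j) S' - v (k j) S) - (v (k' j) S' - v (k' j) S))) ≤ 3 := by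
    intro k k' hk hk' S S' h1 h2 h3
    have a1 : ‖∑ j ∈ Finset.range r, ((v (k j) S' - v (k j) S) - (v (k' j) S' - v (k' j) S))‖ ≤
        16 * r := by
      refine (norm_sum_le _ _).trans ?_
      have := Finset.sum_le_card_nsmul (Finset.range r)
        (fun j => ‖(v (k j) S' - v (k j) S) - (v (k' j) S' - v (k' j) S)‖) 16 fun j _ => by
          have b1 := norm_sub_le (v (k j) S' - v (k j) S) (v (k' j) S' - v (k' j) S)
          have b2 := norm_sub_le (v (k j) S') (v (k j) S)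
          have b3 := norm_sub_le (v (k' j) S') (v (k' j) S)
          linarith [hv (k j) S', hv (k j) S, hv (k' j) S', hv (k' j) S]
      simp only [Finset.card_range, nsmul_eq_mul] at this
      linarith
    have a2 : ∀ m t q, m ≤ t → q ≤ S → |φ m t (v q S' - v q S) -
        if m = q ∧ S < t ∧ t ≤ S' then 1 else 0| ≤ 6 * η := by
      intro m t q hm hq
      have b1 := abs_le.1 (hφv m t q S' hm (hq.trans h3))
      have b2 := abs_le.1 (hφv m t q S hm hq)
      rw [map_sub, abs_le]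
      by_cases c1 : t ≤ S
      · rw [if_pos (c1.trans h3)] at b1
        rw [if_pos c1] at b2
        rw [if_neg (by omega)]
        constructor <;> linarith [b1.1, b1.2, b2.1, b2.2]
      · rw [if_neg c1] at b2
        by_cases c2 : t ≤ S'
        · have b3 := abs_le.1 (hA' m t q hm (by omega))
          rw [if_pos c2] at b1
          have : (if m = q ∧ S < t ∧ t ≤ S' then (1 : ℝ) else 0) = if m = q then 1 else 0 := by
            simp [c2, not_le.1 c1]
          rw [this]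
          constructor <;> linarith [b1.1, b1.2, b2.1, b2.2, b3.1, b3.2]
        · rw [if_neg c2] at b1
          rw [if_neg (by omega)]
          constructor <;> linarith [b1.1, b1.2, b2.1, b2.2]
    have a3 : ∀ p, |Φ p (∑ j ∈ Finset.range r,
        ((v (k j) S' - v (k j) S) - (v (k' j) S' - v (k' j) S)))| ≤ 2 := by
      intro p
      have b1 := sum_err (r := r) (e := 12 * η)
        (fun i j => φ (p.1.1 i) (p.1.2 i) ((v (k j) S' - v (k j) S) - (v (k' j) S' - v (k' j) S)))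
        (fun i j => (if p.1.1 i = k j ∧ S < p.1.2 i ∧ p.1.2 i ≤ S' then (1 : ℝ) else 0) -
          (if p.1.1 i = k' j ∧ S < p.1.2 i ∧ p.1.2 i ≤ S' then (1 : ℝ) else 0))
        (fun i _ j hj => by
          have c1 := abs_le.1 (a2 _ _ _ (p.2 i).1 (h1 j hj))
          have c2 := abs_le.1 (a2 _ _ _ (p.2 i).1 (h2 j hj))
          rw [map_sub, abs_le]
          constructor <;> linarith [c1.1, c1.2, c2.1, c2.2])
      have b2 := count p r k hk S S' h1
      have b3 := count p r k' hk' S S' h2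
      simp only [Finset.sum_sub_distrib (f := fun j => if _ then (1 : ℝ) else 0)] at b1
      have b4 : Φ p (∑ j ∈ Finset.range r,
          ((v (k j) S' - v (k j) S) - (v (k' j) S' - v (k' j) S))) =
          ∑ i ∈ Finset.range r, ∑ j ∈ Finset.range r, φ (p.1.1 i) (p.1.2 i)
            ((v (k j) S' - v (k j) S) - (v (k' j) S' - v (k' j) S)) := by
        simp only [Φ, ContinuousLinearMap.sum_apply, map_sum]
        exact Finset.sum_comm
      rw [b4]
      have b5 := abs_le.1 b1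
      rw [abs_le]
      constructor <;> linarith [b5.1, b5.2, b2.1, b2.2, b3.1, b3.2]
    rw [hN]
    have a4 := mul_le_mul_of_nonneg_left a1 hc.le
    have a5 : c * (16 * r) = 1 := by simp only [c]; field_simp
    linarith [ciSup_le a3]
  refine ⟨N, ⟨c, c + 2 * r, hc, by positivity, fun x => ⟨hN1 x, hN2 x⟩⟩, ?_⟩
  intro Z _ _ T a b ha hb
  have hx : 0 < N (v 0 0) := by
    refine lt_of_lt_of_le (mul_pos hc (norm_pos_iff.2 fun h0 => ?_)) (hN1 _)
    have b1 := abs_le.1 (hφv 0 0 0 0 le_rfl le_rfl)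
    have b2 := abs_le.1 (hA' 0 0 0 le_rfl le_rfl)
    rw [h0, map_zero, if_pos le_rfl] at b1
    rw [if_pos rfl] at b2
    have : 1 * (20 * η) ≤ r ^ 2 * (20 * η) := by gcongr; nlinarith
    linarith [b1.1, b2.1]
  have ha0 : 0 ≤ a := by
    by_contra h0
    have := mul_neg_of_neg_of_pos (not_le.1 h0) hx
    linarith [ha (v 0 0), norm_nonneg (T (v 0 0))]
  have hb0 : 0 ≤ b := by
    by_contra h0
    have := mul_nonpos_of_nonpos_of_nonneg (not_le.1 h0).le (norm_nonneg (T (v 0 0)))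
    linarith [hb (v 0 0)]
  choose g hg1 hg2 using fun m => ulim (fun s => T (v m s)) (C := a * ((c + 2 * r) * 4))
    (fun s => (ha _).trans (mul_le_mul_of_nonneg_left ((hN2 _).trans
      (mul_le_mul_of_nonneg_left (hv m s) (by positivity))) ha0))
  let y : ℕ → X := fun m => T.symm (g m)
  have hy : ∀ m, T (y m) = g m := fun m => T.apply_symm_apply _
  have hyb : ∀ m, ‖y m‖ ≤ b * (a * ((c + 2 * r) * 4)) / c := by
    intro m
    rw [le_div_iff₀ hc, mul_comm]
    refine (hN1 _).trans ((hb _).trans ?_)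
    rw [hy]
    exact mul_le_mul_of_nonneg_left (hg1 m) hb0
  have key : ∀ n : ℕ, ∃ k k' t, n < k ∧ k < k' ∧ k' ≤ t ∧
      (∀ m' ≤ n, ∀ t' ≤ n, |(φ m' t' (y k) - A m' t' k) - (φ m' t' (y k') - A m' t' k')| ≤ η) ∧
      ∀ m ≤ k', |φ k t (y m)| ≤ η := by
    intro n
    obtain ⟨k, k', h1, h2, h3⟩ := pigeon (ι := Fin (n + 1) × Fin (n + 1))
      (fun m q => φ q.1 q.2 (y m) - A q.1 q.2 m)
      (C := 2 * (b * (a * ((c + 2 * r) * 4)) / c) + 4) (fun m q => by
        refine (abs_sub _ _).trans (add_le_add ?_ (hA _ _ _))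
        exact ((φ q.1 q.2).le_opNorm _).trans
          (mul_le_mul (hφ _ _) (hyb m) (norm_nonneg _) zero_le_two)) hη n
    have e1 : ∀ᶠ t in hyperfilter ℕ, ∀ m ∈ Iic k', |φ k t (y m)| ≤ η := by
      rw [eventually_all_finite (finite_Iic k')]
      intro m _
      have := (hlim k (y m)).abs
      rw [abs_zero] at this
      exact (this.eventually (gt_mem_nhds hη)).mono fun t ht => ht.le
    have e2 : ∀ᶠ t in hyperfilter ℕ, k' ≤ t := Nat.hyperfilter_le_atTop (eventually_ge_atTop k')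
    obtain ⟨t, e3, e4⟩ := (e1.and e2).exists
    exact ⟨k, k', t, h1, h2, e4, fun m' hm t' ht => h3 (⟨m', by omega⟩, ⟨t', by omega⟩), e3⟩
  choose K K' Tt k1 k2 k3 k4 k5 using key
  let n : ℕ → ℕ := fun j => Tt^[j] 0
  have hn : ∀ j, n (j + 1) = Tt (n j) := fun j => Function.iterate_succ_apply' _ _ _
  have hmono : StrictMono n := strictMono_nat_of_lt_succ fun j => by
    rw [hn]; exact ((k1 _).trans (k2 _)).trans_le (k3 _)
  let k : ℕ → ℕ := fun j => K (n j)
  let k' : ℕ → ℕ := fun j => K' (n j)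
  have q1 : ∀ j, n j < k j := fun j => k1 _
  have q2 : ∀ j, k j < k' j := fun j => k2 _
  have q3 : ∀ j, k' j ≤ n (j + 1) := fun j => by rw [hn]; exact k3 _
  have hk : StrictMono k := strictMono_nat_of_lt_succ fun j =>
    ((q2 j).trans_le (q3 j)).trans (q1 _)
  have hk' : StrictMono k' := strictMono_nat_of_lt_succ fun j =>
    ((q3 j).trans_lt (q1 _)).trans (q2 _)
  have q4 : ∀ j < r, k' j ≤ n r := fun j hj => (q3 j).trans (hmono.monotone hj)
  have q5 : ∀ j < r, k j ≤ n r := fun j hj => (q2 j).le.trans (q4 j hj)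
  let p : Stag := ⟨(k, fun i => n (i + 1)), fun i => ⟨(q2 i).le.trans (q3 i), q1 _⟩⟩
  let w : X := ∑ j ∈ Finset.range r, ((y (k j) - v (k j) (n r)) - (y (k' j) - v (k' j) (n r)))
  have hw1 : ‖T w‖ ≤ a * 3 := by
    refine ContinuousLinearMap.opNorm_le_bound _ (by positivity) fun z => ?_
    have t1 : Tendsto (fun S' => T (∑ j ∈ Finset.range r,
        ((v (k j) S' - v (k j) (n r)) - (v (k' j) S' - v (k' j) (n r)))) z) (hyperfilter ℕ)
        (𝓝 (T w z)) := by
      simp only [w, map_sum, map_sub, ContinuousLinearMap.sum_apply, ContinuousLinearMap.sub_apply,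
        hy]
      exact tendsto_finset_sum _ fun j _ =>
        ((hg2 _ z).sub_const _).sub ((hg2 _ z).sub_const _)
    refine le_of_tendsto t1.norm ?_
    have e2 : ∀ᶠ t in hyperfilter ℕ, n r ≤ t :=
      Nat.hyperfilter_le_atTop (eventually_ge_atTop _)
    filter_upwards [e2] with S' hS
    refine (ContinuousLinearMap.le_opNorm _ _).trans (mul_le_mul_of_nonneg_right ?_ (norm_nonneg _))
    exact (ha _).trans (mul_le_mul_of_nonneg_left
      (hgen k k' hk.injective hk'.injective _ _ q5 q4 hS) ha0)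
  have hw2 : N w ≤ b * (a * 3) := (hb w).trans (mul_le_mul_of_nonneg_left hw1 hb0)
  have hw3 : Φ p w = ∑ i ∈ Finset.range r, ∑ j ∈ Finset.range r, φ (k i) (n (i + 1))
      ((y (k j) - v (k j) (n r)) - (y (k' j) - v (k' j) (n r))) := by
    simp only [Φ, w, ContinuousLinearMap.sum_apply, map_sum]
    exact Finset.sum_comm
  have hw4 := sum_err (r := r) (e := 10 * η)
    (fun i j => φ (k i) (n (i + 1)) ((y (k j) - v (k j) (n r)) - (y (k' j) - v (k' j) (n r))))
    (fun i j => if i = j then -1 else 0) (fun i hi j hj => by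
      have d0 : k i ≤ n (i + 1) := (q2 i).le.trans (q3 i)
      have d1 := abs_le.1 (hφv _ _ _ _ d0 (q5 j hj))
      have d2 := abs_le.1 (hφv _ _ _ _ d0 (q4 j hj))
      have d3 : n (i + 1) ≤ n r := hmono.monotone hi
      rw [if_pos d3] at d1 d2
      simp only [map_sub]
      rw [abs_le]
      rcases le_or_gt j i with h | h
      · have d4 : k' j ≤ k' i := hk'.monotone h
        have d5 := abs_le.1 (k5 (n i) _ d4)
        have d6 := abs_le.1 (k5 (n i) _ ((q2 j).le.trans d4))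
        rw [← hn] at d5 d6
        have d7 := abs_le.1 (hA' _ _ _ d0 (d4.trans (q3 i)))
        have d8 := abs_le.1 (hA' _ _ _ d0 (((q2 j).le.trans d4).trans (q3 i)))
        have d9 : k i ≠ k' j := by
          rcases h.eq_or_lt with rfl | h
          · exact (q2 _).ne
          · exact (((q3 j).trans (hmono.monotone h)).trans_lt (q1 i)).ne'
        rw [if_neg d9] at d7
        change _ ≤ φ (k i) _ _ ∧ φ (k i) _ _ ≤ _ at d5 d6
        by_cases hij : i = j
        · rw [if_pos (congrArg k hij)] at d8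
          rw [if_pos hij]
          constructor <;> linarith [d1.1, d1.2, d2.1, d2.2, d5.1, d5.2, d6.1, d6.2, d7.1, d7.2,
            d8.1, d8.2]
        · rw [if_neg (hk.injective.ne hij)] at d8
          rw [if_neg hij]
          constructor <;> linarith [d1.1, d1.2, d2.1, d2.2, d5.1, d5.2, d6.1, d6.2, d7.1, d7.2,
            d8.1, d8.2]
      · have d4 : n (i + 1) ≤ n j := hmono.monotone h
        have d5 := abs_le.1 (k4 (n j) _ (d0.trans d4) _ d4)
        change _ ≤ φ _ _ (y (k j)) - A _ _ (k j) - (φ _ _ (y (k' j)) - A _ _ (k' j)) ∧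
          φ _ _ (y (k j)) - A _ _ (k j) - (φ _ _ (y (k' j)) - A _ _ (k' j)) ≤ _ at d5
        rw [if_neg h.ne]
        constructor <;> linarith [d1.1, d1.2, d2.1, d2.2, d5.1, d5.2])
  have hw5 : ∑ i ∈ Finset.range r, ∑ j ∈ Finset.range r, (if i = j then (-1 : ℝ) else 0) = -r := by
    rw [Finset.sum_congr rfl (g := fun _ => (-1 : ℝ)) fun i hi => by simp [Finset.mem_range.1 hi]]
    simp
  rw [← hw3, hw5] at hw4
  have hw6 := abs_le.1 hw4
  have hw7 := neg_le_abs (Φ p w)
  linarith [hN3 p w, hw6.2]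

end Pool.Agent.H89.DJ
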