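import Mathlib

set_option autoImplicit false

namespace Pool.Agent.H89.DL

open Complex Metric Filter Topology

theorem diff_bound (m : ℕ) : ∃ K ρ0 : ℝ, 0 ≤ K ∧ 0 < ρ0 ∧ ∀ (φ : ℂ → ℂ) (ρ M : ℝ), ρ0 ≤ ρ →
    DifferentiableOn ℂ φ (ball 0 ρ) → (∀ t ∈ ball (0:ℂ) ρ, ‖φ t‖ ≤ M) →
    ‖(fwdDiff (1:ℂ))^[m] φ 0‖ ≤ K * M / ρ ^ m := by
  induction m with
  | zero =>
    refine ⟨1, 1, by norm_num, by norm_num, fun φ ρ M hρ _ hM => ?_⟩
    simpa using hM 0 (mem_ball_self (by linarith))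
  | succ m ih =>
    obtain ⟨K, ρ0, hK, hρ0, h⟩ := ih
    refine ⟨K * 4 * 2 ^ m, 2 * ρ0 + 4, by positivity, by positivity, fun φ ρ M hρ hd hM => ?_⟩
    have hρp : 0 < ρ := by linarith
    rw [Function.iterate_succ_apply]
    have hsub : ∀ t ∈ ball (0:ℂ) (ρ / 2), ball t (ρ / 2) ⊆ ball (0:ℂ) ρ := by
      intro t ht z hz
      rw [mem_ball] at *
      have := dist_triangle z t 0
      linarith
    have h1 : ∀ t : ℂ, t + 1 ∈ ball t (ρ / 2) := by
      intro t; rw [mem_ball]; simp; linarith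
    have hd2 : DifferentiableOn ℂ (fwdDiff (1:ℂ) φ) (ball 0 (ρ / 2)) := by
      have e : fwdDiff (1:ℂ) φ = fun t => φ (t + 1) - φ t := rfl
      rw [e]
      refine DifferentiableOn.sub ?_ (hd.mono (ball_subset_ball (by linarith)))
      exact hd.comp (f := fun t : ℂ => t + 1) (by fun_prop) (fun t ht => hsub t ht (h1 t))
    have hb : ∀ t ∈ ball (0:ℂ) (ρ / 2), ‖fwdDiff (1:ℂ) φ t‖ ≤ 4 * M / ρ := by
      intro t ht
      have htb : t ∈ ball (0:ℂ) ρ := ball_subset_ball (by linarith) ht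
      have := Complex.dist_le_div_mul_dist_of_mapsTo_ball (f := φ) (c := t) (z := t + 1)
        (R₁ := ρ / 2) (R₂ := 2 * M) (hd.mono (hsub t ht)) (fun z hz => by
          rw [mem_closedBall, dist_eq_norm]
          have := norm_sub_le (φ z) (φ t)
          linarith [hM z (hsub t ht hz), hM t htb]) (h1 t)
      rw [dist_eq_norm] at this
      have e : dist (t + 1) t = 1 := by simp
      rw [e] at this
      calc ‖fwdDiff (1:ℂ) φ t‖ = ‖φ (t + 1) - φ t‖ := rfl
        _ ≤ _ := this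
        _ = 4 * M / ρ := by field_simp; ring
    refine (h _ (ρ / 2) _ (by linarith) hd2 hb).trans (le_of_eq ?_)
    rw [div_pow]
    field_simp
    ring

theorem glue (g : ℂ → ℂ) (c : ℝ)
    (h : ∀ R : ℕ, ∃ H : ℂ → ℂ, DifferentiableOn ℂ H (ball 0 R) ∧ ∀ s : ℂ, c < s.re → H s = g s) :
    ∃ G : ℂ → ℂ, Differentiable ℂ G ∧ ∀ s : ℂ, c < s.re → G s = g s := by
  choose H hH hg using h
  have key : ∀ R R' : ℕ, |c| + 1 < R → R ≤ R' → ∀ s ∈ ball (0:ℂ) R, H R s = H R' s := by
    intro R R' hR hRR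
    have a1 : AnalyticOnNhd ℂ (H R) (ball 0 R) := (hH R).analyticOnNhd isOpen_ball
    have a2 : AnalyticOnNhd ℂ (H R') (ball 0 R) :=
      ((hH R').mono (ball_subset_ball (by exact_mod_cast hRR))).analyticOnNhd isOpen_ball
    have hz : (((|c| + 1 : ℝ)) : ℂ) ∈ ball (0:ℂ) R := by
      rw [mem_ball_zero_iff, Complex.norm_real, Real.norm_eq_abs, abs_of_pos (by positivity)]
      exact hR
    refine a1.eqOn_of_preconnected_of_eventuallyEq a2 (convex_ball _ _).isPreconnected hz ?_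
    have ho : IsOpen {s : ℂ | c < s.re} := isOpen_lt continuous_const Complex.continuous_re
    filter_upwards [ho.mem_nhds (show (((|c| + 1 : ℝ)) : ℂ) ∈ {s : ℂ | c < s.re} by
      simp only [Set.mem_setOf_eq, Complex.ofReal_re]; linarith [le_abs_self c])] with s hs
    rw [hg R s hs, hg R' s hs]
  refine ⟨fun s => H (⌈‖s‖ + |c| + 2⌉₊) s, fun s0 => ?_, fun s hs => hg _ s hs⟩
  set R' : ℕ := ⌈‖s0‖ + |c| + 3⌉₊ with hR'
  have hR'1 : ‖s0‖ + |c| + 3 ≤ R' := Nat.le_ceil _
  have hev : (fun s => H (⌈‖s‖ + |c| + 2⌉₊) s) =ᶠ[𝓝 s0] H R' := by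
    filter_upwards [ball_mem_nhds s0 one_pos] with s hs
    have h1 : ‖s‖ + |c| + 2 ≤ (⌈‖s‖ + |c| + 2⌉₊ : ℝ) := Nat.le_ceil _
    have h2 : ‖s‖ ≤ ‖s0‖ + 1 := by
      rw [mem_ball, dist_eq_norm] at hs
      have := norm_le_norm_add_norm_sub' s s0
      linarith
    refine key _ _ (by linarith [norm_nonneg s]) (Nat.ceil_mono (by linarith)) s ?_
    rw [mem_ball_zero_iff]; linarith [abs_nonneg c]
  refine DifferentiableAt.congr_of_eventuallyEq ?_ hev
  refine (hH R').differentiableAt (isOpen_ball.mem_nhds ?_)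
  rw [mem_ball_zero_iff]; linarith [abs_nonneg c]

/-- Abel summation against a character. -/
theorem abel {A : Type} [AddCommGroup A] (E : A → ℂ) (hE : ∀ x, ‖E x‖ = 1) (e : A) (lam : ℂ)
    (hl : ∀ x, E (x - e) = lam * E x) (m : ℕ) :
    ∀ F : A → ℂ, Summable F →
      ∑' x, (fwdDiff e)^[m] F x * E x = (lam - 1) ^ m * ∑' x, F x * E x := by
  induction m with
  | zero => intro F _; simp
  | succ m ih =>
    intro F hF
    have hF1 : Summable fun x => F (x + e) := (Equiv.addRight e).summable_iff.mpr hF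
    have hFd : Summable (fwdDiff e F) := hF1.sub hF
    rw [Function.iterate_succ_apply, ih _ hFd, pow_succ, mul_assoc]
    congr 1
    have s1 : Summable fun x => F x * E x := by
      refine Summable.of_norm ?_
      simpa [hE] using hF.norm
    have s2 : Summable fun x => F (x + e) * E x := by
      refine Summable.of_norm ?_
      simpa [hE] using hF1.norm
    have e1 : ∑' x, F (x + e) * E x = lam * ∑' x, F x * E x := by
      rw [← tsum_mul_left, ← (Equiv.addRight e).tsum_eq (fun x => lam * (F x * E x))]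
      refine tsum_congr fun x => ?_
      have := hl (x + e)
      simp only [add_sub_cancel_right] at this
      simp only [Equiv.coe_addRight]
      rw [this]; ring
    have e2 : ∀ x, fwdDiff e F x * E x = F (x + e) * E x - F x * E x := by
      intro x; simp [fwdDiff, sub_mul]
    simp_rw [e2]
    rw [s2.tsum_sub s1, e1]; ring

theorem summable_pi {ι α : Type} [Fintype ι] (g : α → ℝ) (hg : ∀ x, 0 ≤ g x) (hs : Summable g) :
    Summable fun l : ι → α => ∏ i, g (l i) := by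
  classical
  refine summable_of_sum_le (c := ∏ _i : ι, ∑' x, g x)
    (fun l => Finset.prod_nonneg fun i _ => hg _) fun u => ?_
  calc ∑ l ∈ u, ∏ i, g (l i)
      ≤ ∑ l ∈ Fintype.piFinset (fun i => u.image fun l => l i), ∏ i, g (l i) := by
        refine Finset.sum_le_sum_of_subset_of_nonneg (fun l hl => ?_)
          (fun l _ _ => Finset.prod_nonneg fun i _ => hg _)
        rw [Fintype.mem_piFinset]
        exact fun i => Finset.mem_image_of_mem _ hl
    _ = ∏ i, ∑ x ∈ u.image (fun l => l i), g x := (Finset.prod_univ_sum _ (fun _ x => g x)).symm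
    _ ≤ _ := Finset.prod_le_prod (fun i _ => Finset.sum_nonneg fun x _ => hg x)
        (fun i _ => hs.sum_le_tsum _ fun x _ => hg x)

theorem dioph (u : ℤ) (hu : u ≠ 0) :
    1 / |(u:ℝ)| ≤ ‖exp (-(2 * Real.pi * I * ((Real.sqrt 2 * u : ℝ) : ℂ))) - 1‖ := by
  set x : ℝ := Real.sqrt 2 * u with hx
  set r : ℤ := round x with hr
  have hy : |x - r| ≤ 1 / 2 := abs_sub_round x
  have e1 : exp (-(2 * Real.pi * I * (x : ℂ))) = exp (I * ((-(2 * Real.pi * (x - r)) : ℝ) : ℂ)) := by
    have := Complex.exp_int_mul_two_pi_mul_I r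
    rw [← mul_one (exp (-(2 * Real.pi * I * (x : ℂ)))), ← this, ← Complex.exp_add]
    congr 1; push_cast; ring
  rw [e1, Complex.norm_exp_I_mul_ofReal_sub_one]
  have hs := Real.mul_abs_le_abs_sin (x := -(2 * Real.pi * (x - r)) / 2) (by
    rw [show -(2 * Real.pi * (x - r)) / 2 = -(Real.pi * (x - r)) by ring, abs_neg, abs_mul,
      abs_of_pos Real.pi_pos]
    nlinarith [Real.pi_pos])
  have e2 : 2 / Real.pi * |-(2 * Real.pi * (x - r)) / 2| = 2 * |x - r| := by
    rw [show -(2 * Real.pi * (x - r)) / 2 = -(Real.pi * (x - r)) by ring, abs_neg, abs_mul,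
      abs_of_pos Real.pi_pos]
    field_simp
  rw [e2] at hs
  rw [Real.norm_eq_abs, abs_mul, abs_two]
  have hu1 : (1:ℝ) ≤ |(u:ℝ)| := by exact_mod_cast Int.one_le_abs hu
  have s2 : Real.sqrt 2 ^ 2 = 2 := Real.sq_sqrt (by norm_num)
  have s3 : Real.sqrt 2 ≤ 3 / 2 := by
    rw [Real.sqrt_le_left (by norm_num)]; norm_num
  have hne : 2 * u ^ 2 - r ^ 2 ≠ 0 := by
    intro h0
    have hirr : Irrational (Real.sqrt 2) := irrational_sqrt_two
    have h1 : x ^ 2 = (r:ℝ) ^ 2 := by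
      have : ((2 * u ^ 2 - r ^ 2 : ℤ) : ℝ) = 0 := by exact_mod_cast h0
      push_cast at this
      rw [hx, mul_pow, s2]; linarith
    have hxi : Irrational x := hirr.mul_intCast hu
    rcases sq_eq_sq_iff_eq_or_eq_neg.mp h1 with h2 | h2
    · exact hxi.ne_int r h2
    · exact hxi.ne_int (-r) (by simpa using h2)
  have h1 : (1:ℝ) ≤ |x - r| * |x + r| := by
    rw [← abs_mul]
    have : (x - r) * (x + r) = ((2 * u ^ 2 - r ^ 2 : ℤ) : ℝ) := by
      push_cast
      have : x ^ 2 = 2 * (u:ℝ) ^ 2 := by rw [hx, mul_pow, s2]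
      nlinarith
    rw [this]
    exact_mod_cast Int.one_le_abs hne
  have h2 : |x + r| ≤ 4 * |(u:ℝ)| := by
    have a : |x + r| ≤ 2 * |x| + |x - r| := by
      have : x + r = 2 * x - (x - r) := by ring
      rw [this]
      refine (abs_sub _ _).trans ?_
      rw [abs_mul, abs_two]
    have b : |x| ≤ 3 / 2 * |(u:ℝ)| := by
      rw [hx, abs_mul, abs_of_nonneg (Real.sqrt_nonneg 2)]
      gcongr
    linarith
  rw [div_le_iff₀ (by linarith)]
  have := mul_le_mul_of_nonneg_left h2 (abs_nonneg (x - r))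
  nlinarith [abs_nonneg (x - r)]

end Pool.Agent.H89.DL
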