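import Mathlib
import Pool.Agent.H89.DL1

set_option autoImplicit false

namespace Pool.Agent.H89.DL

open Complex Metric Filter Topology

/-- Euclidean norm of a lattice point. -/
noncomputable def nrm (k : Fin 2 → ℤ) : ℝ := Real.sqrt (∑ i, (k i : ℝ) ^ 2)

noncomputable def Fs (P : MvPolynomial (Fin 2) ℂ) (s : ℂ) (k : Fin 2 → ℤ) : ℂ :=
  if k = 0 then 0 else MvPolynomial.eval (fun i => (k i : ℂ)) P * (nrm k : ℂ) ^ (-s)

theorem abs_le_nrm (k : Fin 2 → ℤ) (i : Fin 2) : |(k i : ℝ)| ≤ nrm k := by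
  unfold nrm
  refine Real.abs_le_sqrt ?_
  exact Finset.single_le_sum (f := fun i => (k i : ℝ) ^ 2) (fun i _ => sq_nonneg _)
    (Finset.mem_univ i)

theorem norm_le_nrm (k : Fin 2 → ℤ) : ‖k‖ ≤ nrm k := by
  refine (pi_norm_le_iff_of_nonneg (Real.sqrt_nonneg _)).mpr fun i => ?_
  rw [Int.norm_eq_abs]; exact abs_le_nrm k i

theorem nrm_pos {k : Fin 2 → ℤ} (hk : k ≠ 0) : 0 < nrm k :=
  (norm_pos_iff.mpr hk).trans_le (norm_le_nrm k)

theorem nrm_sq (k : Fin 2 → ℤ) : nrm k ^ 2 = ∑ i, (k i : ℝ) ^ 2 :=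
  Real.sq_sqrt (Finset.sum_nonneg fun _ _ => sq_nonneg _)

theorem poly_bound (P : MvPolynomial (Fin 2) ℂ) (d : ℕ) (hP : P.IsHomogeneous d) :
    ∃ C : ℝ, 0 ≤ C ∧ ∀ (z : Fin 2 → ℂ) (ρ : ℝ), (∀ i, ‖z i‖ ≤ ρ) →
      ‖MvPolynomial.eval z P‖ ≤ C * ρ ^ d := by
  refine ⟨∑ α ∈ P.support, ‖P.coeff α‖, by positivity, fun z ρ hz => ?_⟩
  rw [MvPolynomial.eval_eq', Finset.sum_mul]
  refine (norm_sum_le _ _).trans (Finset.sum_le_sum fun α hα => ?_)
  rw [norm_mul]
  refine mul_le_mul_of_nonneg_left ?_ (norm_nonneg _)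
  have hd : ∑ i, α i = d := by
    have := hP (MvPolynomial.mem_support_iff.mp hα)
    rw [← this, Finsupp.weight_apply, Finsupp.sum_fintype _ _ (by simp)]
    simp
  rw [norm_prod, ← hd, ← Finset.prod_pow_eq_pow_sum]
  refine Finset.prod_le_prod (fun i _ => norm_nonneg _) fun i _ => ?_
  rw [norm_pow]
  exact pow_le_pow_left₀ (norm_nonneg _) (hz i) _

theorem summable_nrm {r : ℝ} (hr : 2 < r) : Summable fun k : Fin 2 → ℤ => nrm k ^ (-r) := by
  refine Summable.of_nonneg_of_le (fun k => Real.rpow_nonneg (Real.sqrt_nonneg _) _) (fun k => ?_)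
    (EisensteinSeries.summable_one_div_norm_rpow hr)
  by_cases hk : k = 0
  · subst hk; simp [nrm]
  · exact Real.rpow_le_rpow_of_nonpos (norm_pos_iff.mpr hk) (norm_le_nrm k) (by linarith)

theorem summable_Fs (P : MvPolynomial (Fin 2) ℂ) (d : ℕ) (hP : P.IsHomogeneous d) (s : ℂ)
    (hs : 2 + (d:ℝ) < s.re) : Summable (Fs P s) := by
  obtain ⟨C, hC, h⟩ := poly_bound P d hP
  refine Summable.of_norm_bounded ((summable_nrm (r := s.re - d) (by linarith)).mul_left C)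
    fun k => ?_
  unfold Fs
  split_ifs with hk
  · rw [norm_zero]; exact mul_nonneg hC (Real.rpow_nonneg (Real.sqrt_nonneg _) _)
  · have hp := nrm_pos hk
    rw [norm_mul, Complex.norm_cpow_eq_rpow_re_of_pos hp]
    have := h (fun i => (k i : ℂ)) (nrm k) (fun i => by
      simpa using abs_le_nrm k i)
    refine (mul_le_mul_of_nonneg_right this (Real.rpow_nonneg hp.le _)).trans (le_of_eq ?_)
    rw [mul_assoc, ← Real.rpow_natCast, ← Real.rpow_add hp]
    congr 2; simp; ring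

theorem diff_Fs (P : MvPolynomial (Fin 2) ℂ) (k : Fin 2 → ℤ) :
    Differentiable ℂ fun s => Fs P s k := by
  unfold Fs
  by_cases hk : k = 0
  · simp [hk]
  · simp only [hk, if_false]
    refine Differentiable.const_mul (fun s => ?_) _
    exact DifferentiableAt.const_cpow (by fun_prop)
      (Or.inl (by exact_mod_cast (nrm_pos hk).ne'))

theorem diff_G (P : MvPolynomial (Fin 2) ℂ) (e k : Fin 2 → ℤ) (m : ℕ) :
    Differentiable ℂ fun s => (fwdDiff e)^[m] (Fs P s) k := by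
  simp only [fwdDiff_iter_eq_sum_shift]
  refine Differentiable.fun_sum fun i _ => ?_
  exact (diff_Fs P _).const_smul _

/-- complex line through `k` in direction `e_j`. -/
def zl (k : Fin 2 → ℤ) (j : Fin 2) (t : ℂ) : Fin 2 → ℂ := fun i => k i + if i = j then t else 0

noncomputable def phi (P : MvPolynomial (Fin 2) ℂ) (s : ℂ) (k : Fin 2 → ℤ) (j : Fin 2) (t : ℂ) : ℂ :=
  MvPolynomial.eval (zl k j t) P * (∑ i, zl k j t i ^ 2) ^ (-s / 2)

theorem sum_zl (k : Fin 2 → ℤ) (j : Fin 2) (t : ℂ) :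
    ∑ i, zl k j t i ^ 2 = ((nrm k ^ 2 : ℝ) : ℂ) + (2 * k j * t + t ^ 2) := by
  rw [nrm_sq]
  fin_cases j <;> simp [zl, Fin.sum_univ_two] <;> ring

theorem phi_nat (P : MvPolynomial (Fin 2) ℂ) (s : ℂ) (k : Fin 2 → ℤ) (j : Fin 2) (n : ℕ)
    (h : k + n • Pi.single j 1 ≠ 0) :
    phi P s k j (0 + n • (1:ℂ)) = Fs P s (k + n • Pi.single j 1) := by
  have hz : zl k j (0 + n • (1:ℂ)) = fun i => (((k + n • (Pi.single j 1 : Fin 2 → ℤ)) i : ℤ) : ℂ) := by
    funext i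
    by_cases hi : i = j
    · subst hi; simp [zl]
    · simp [zl, hi]
  unfold phi Fs
  rw [if_neg h, hz]
  congr 1
  have hp := nrm_pos h
  set x := nrm (k + n • Pi.single j 1) with hx
  have e : ∑ i, ((((k + n • (Pi.single j 1 : Fin 2 → ℤ)) i : ℤ) : ℂ)) ^ 2 = ((x ^ 2 : ℝ) : ℂ) := by
    rw [hx, nrm_sq]; push_cast; rfl
  rw [e, Complex.cpow_def_of_ne_zero (by exact_mod_cast (pow_pos hp 2).ne'),
    Complex.cpow_def_of_ne_zero (by exact_mod_cast hp.ne'),
    ← Complex.ofReal_log (pow_pos hp 2).le, ← Complex.ofReal_log hp.le, Real.log_pow]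
  congr 1; push_cast; ring

theorem pert (k : Fin 2 → ℤ) (j : Fin 2) (t : ℂ) (ht : ‖t‖ < nrm k / 4) :
    ‖2 * (k j : ℂ) * t + t ^ 2‖ ≤ 2 / 3 * nrm k ^ 2 := by
  have h1 : ‖(k j : ℂ)‖ ≤ nrm k := by simpa using abs_le_nrm k j
  have h0 := norm_nonneg t
  refine (norm_add_le _ _).trans ?_
  rw [norm_mul, norm_mul, norm_pow, Complex.norm_two]
  have : ‖(k j : ℂ)‖ * ‖t‖ ≤ nrm k * (nrm k / 4) :=
    mul_le_mul h1 ht.le h0 (by linarith)
  nlinarith

theorem phi_diff (P : MvPolynomial (Fin 2) ℂ) (s : ℂ) (k : Fin 2 → ℤ) (j : Fin 2) :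
    DifferentiableOn ℂ (phi P s k j) (ball 0 (nrm k / 4)) := by
  intro t ht
  rw [mem_ball_zero_iff] at ht
  have hz : ∀ i, Differentiable ℂ fun t => zl k j t i := by
    intro i
    by_cases hi : i = j <;> simp only [zl, hi, if_true, if_false] <;> fun_prop
  refine DifferentiableAt.differentiableWithinAt (DifferentiableAt.mul ?_ ?_)
  · simp only [MvPolynomial.eval_eq']
    refine DifferentiableAt.fun_sum fun α _ => DifferentiableAt.const_mul ?_ _
    simp only [Fin.prod_univ_two]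
    exact ((hz 0 t).pow _).mul ((hz 1 t).pow _)
  · refine DifferentiableAt.cpow_const (DifferentiableAt.fun_sum fun i _ => (hz i t).pow 2) ?_
    left
    rw [sum_zl]
    have := pert k j t ht
    have h2 := Complex.abs_re_le_norm (2 * (k j : ℂ) * t + t ^ 2)
    have h3 := neg_abs_le (2 * (k j : ℂ) * t + t ^ 2).re
    have hp : 0 < nrm k := by linarith [norm_nonneg t]
    rw [Complex.add_re, Complex.ofReal_re]
    nlinarith [pow_pos hp 2]

theorem phi_bound (P : MvPolynomial (Fin 2) ℂ) (d : ℕ) (hP : P.IsHomogeneous d) (R : ℕ) :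
    ∃ C : ℝ, 0 ≤ C ∧ ∀ s ∈ ball (0:ℂ) R, ∀ (k : Fin 2 → ℤ) (j : Fin 2), 2 ≤ nrm k →
      ∀ t ∈ ball (0:ℂ) (nrm k / 4), ‖phi P s k j t‖ ≤ C * nrm k ^ (d + 2 * R) := by
  obtain ⟨C, hC, h⟩ := poly_bound P d hP
  refine ⟨C * 2 ^ d * (2 ^ R * Real.exp (Real.pi * R)), by positivity,
    fun s hs k j hk t ht => ?_⟩
  rw [mem_ball_zero_iff] at hs ht
  have h1 := h (zl k j t) (2 * nrm k) (fun i => by
    have h1 : ‖(k i : ℂ)‖ ≤ nrm k := by simpa using abs_le_nrm k i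
    refine (norm_add_le _ _).trans ?_
    split_ifs
    · linarith
    · simp only [norm_zero]; linarith)
  set w := ∑ i, zl k j t i ^ 2 with hw
  have hp := pert k j t ht
  have hn : ‖((nrm k ^ 2 : ℝ) : ℂ)‖ = nrm k ^ 2 := by
    rw [Complex.norm_real, Real.norm_eq_abs, abs_of_nonneg (sq_nonneg _)]
  have hw1 : ‖w‖ ≤ 2 * nrm k ^ 2 := by
    rw [hw, sum_zl]
    refine (norm_add_le _ _).trans ?_
    rw [hn]; nlinarith [sq_nonneg (nrm k)]
  have hw2 : 1 ≤ ‖w‖ := by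
    have := norm_sub_le w (2 * (k j : ℂ) * t + t ^ 2)
    rw [show w - (2 * (k j : ℂ) * t + t ^ 2) = ((nrm k ^ 2 : ℝ) : ℂ) by rw [hw, sum_zl]; ring,
      hn] at this
    nlinarith
  have h2 : ‖w ^ (-s / 2)‖ ≤ (2 * nrm k ^ 2) ^ R * Real.exp (Real.pi * R) := by
    refine (Complex.norm_cpow_le _ _).trans ?_
    rw [div_eq_mul_inv, ← Real.exp_neg]
    have hs2 : ‖-s / 2‖ ≤ R := by
      rw [norm_div, norm_neg, Complex.norm_two]; linarith [norm_nonneg s]
    refine mul_le_mul ?_ ?_ (Real.exp_pos _).le (by positivity)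
    · calc ‖w‖ ^ (-s / 2).re ≤ ‖w‖ ^ (R:ℝ) :=
            Real.rpow_le_rpow_of_exponent_le hw2 ((Complex.re_le_norm _).trans hs2)
        _ = ‖w‖ ^ R := Real.rpow_natCast _ _
        _ ≤ _ := pow_le_pow_left₀ (norm_nonneg _) hw1 _
    · refine Real.exp_le_exp.mpr ((neg_le_abs _).trans ?_)
      rw [abs_mul]
      exact mul_le_mul (Complex.abs_arg_le_pi _) ((Complex.abs_im_le_norm _).trans hs2)
        (abs_nonneg _) Real.pi_pos.le
  unfold phi
  rw [norm_mul]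
  refine (mul_le_mul h1 h2 (norm_nonneg _) (by positivity)).trans (le_of_eq ?_)
  rw [mul_pow, mul_pow, ← pow_mul, pow_add]; ring

theorem finite_nrm (c : ℝ) : {k : Fin 2 → ℤ | nrm k < c}.Finite := by
  refine (Set.Finite.pi' (fun _ : Fin 2 => Set.finite_Icc (-⌈c⌉) ⌈c⌉)).subset fun k hk i => ?_
  have h1 := (abs_le_nrm k i).trans (hk.le.trans (Int.le_ceil c))
  have : |k i| ≤ ⌈c⌉ := by exact_mod_cast h1
  exact abs_le.mp this

theorem G_bound (P : MvPolynomial (Fin 2) ℂ) (d : ℕ) (hP : P.IsHomogeneous d) (R : ℕ) :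
    ∃ (m : ℕ) (u : (Fin 2 → ℤ) → ℝ), Summable u ∧ ∀ s ∈ ball (0:ℂ) R, ∀ (k : Fin 2 → ℤ)
      (j : Fin 2), ‖(fwdDiff (Pi.single j 1 : Fin 2 → ℤ))^[m] (Fs P s) k‖ ≤ u k := by
  classical
  obtain ⟨C, hC, h⟩ := phi_bound P d hP R
  set m := d + 2 * R + 3 with hm
  obtain ⟨K, ρ0, hK, hρ0, hD⟩ := diff_bound m
  have hB : ∀ k : Fin 2 → ℤ, ∃ B : ℝ, ∀ s ∈ ball (0:ℂ) R, ∀ j : Fin 2,
      ‖(fwdDiff (Pi.single j 1 : Fin 2 → ℤ))^[m] (Fs P s) k‖ ≤ B := by
    intro k
    have : ∀ j : Fin 2, ∃ B : ℝ, ∀ s ∈ closedBall (0:ℂ) R,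
        ‖(fwdDiff (Pi.single j 1 : Fin 2 → ℤ))^[m] (Fs P s) k‖ ≤ B := fun j =>
      (isCompact_closedBall (0:ℂ) R).exists_bound_of_continuousOn
        (diff_G P _ k m).continuous.continuousOn
    choose B hB using this
    refine ⟨max (B 0) (B 1), fun s hs j => (hB j s (ball_subset_closedBall hs)).trans ?_⟩
    fin_cases j
    · exact le_max_left _ _
    · exact le_max_right _ _
  choose B hB using hB
  set c : ℝ := 4 * ρ0 + m + 2 with hc
  refine ⟨m, fun k => if nrm k < c then B k else K * C * 4 ^ m * nrm k ^ (-(3:ℝ)), ?_,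
    fun s hs k j => ?_⟩
  · refine ((summable_nrm (r := 3) (by norm_num)).mul_left (K * C * 4 ^ m)).congr_cofinite ?_
    filter_upwards [(finite_nrm c).compl_mem_cofinite] with k hk
    rw [if_neg (show ¬ nrm k < c from hk)]
  · beta_reduce
    split_ifs with hk
    · exact hB k s hs j
    · push Not at hk
      have hm0 : (0:ℝ) ≤ m := Nat.cast_nonneg m
      have hp : 0 < nrm k := by linarith
      have e : (fwdDiff (Pi.single j 1 : Fin 2 → ℤ))^[m] (Fs P s) k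
          = (fwdDiff (1:ℂ))^[m] (phi P s k j) 0 := by
        rw [fwdDiff_iter_eq_sum_shift, fwdDiff_iter_eq_sum_shift]
        refine Finset.sum_congr rfl fun n hn => ?_
        rw [phi_nat]
        intro h0
        have hn' : (n:ℝ) ≤ m := by exact_mod_cast Nat.lt_succ_iff.mp (Finset.mem_range.mp hn)
        have hk' : k = -(n • Pi.single j 1) := eq_neg_of_add_eq_zero_left h0
        have : nrm k ^ 2 = (n:ℝ) ^ 2 := by
          rw [nrm_sq, hk']; fin_cases j <;> simp [Fin.sum_univ_two]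
        have hn0 : (0:ℝ) ≤ n := Nat.cast_nonneg n
        nlinarith
      rw [e]
      refine (hD _ (nrm k / 4) _ (by linarith) (phi_diff P s k j)
        (h s hs k j (by linarith))).trans (le_of_eq ?_)
      rw [Real.rpow_neg hp.le, show (3:ℝ) = ((3:ℕ):ℝ) by norm_num, Real.rpow_natCast, div_pow, hm]
      field_simp
      ring

end Pool.Agent.H89.DL
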