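import Mathlib

set_option autoImplicit false

namespace Pool.Agent.H89.FG

open Polynomial Finset Filter Topology

theorem factor (R : ℂ[X]) (h : R.eval 0 ≠ 0) (t : ℂ) :
    R.eval t = R.eval 0 * (R.roots.map fun r => 1 - t / r).prod := by
  have e := fun t => (IsAlgClosed.splits R).eval_eq_prod_roots t
  rw [e t, e 0, mul_assoc, ← Multiset.prod_map_mul]
  congr 2
  refine Multiset.map_congr rfl fun r hr => ?_
  have : r ≠ 0 := by rintro rfl; exact h (isRoot_of_mem_roots hr)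
  field_simp; ring

theorem coeff_one (R : ℂ[X]) (h : R.eval 0 ≠ 0) :
    R.coeff 1 = R.eval 0 * (R.roots.map fun r => -r⁻¹).sum := by
  have := (IsAlgClosed.splits R).eval_derivative_eq_eval_mul_sum h
  rw [← coeff_zero_eq_eval_zero, coeff_derivative] at this
  simpa using this

theorem one_le_norm_prod (s : Multiset ℂ) (g : ℂ → ℂ) (h : ∀ r ∈ s, 1 ≤ ‖g r‖) :
    1 ≤ ‖(s.map g).prod‖ := by
  induction s using Multiset.induction with
  | empty => simp
  | cons a s ih =>
    rw [Multiset.map_cons, Multiset.prod_cons, norm_mul]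
    exact one_le_mul_of_one_le_of_one_le (h a (by simp)) (ih fun r hr => h r (by simp [hr]))

theorem polyA (R : ℂ[X]) {κ : ℝ} (h : ∀ t : ℝ, 0 < t → κ * t ≤ ‖R.eval (t : ℂ)‖)
    (h0 : R.eval 0 = 0) : κ ≤ ‖R.coeff 1‖ := by
  have e : ∀ t : ℂ, R.eval t = t * R.divX.eval t := fun t => by
    conv_lhs => rw [← X_mul_divX_add R, coeff_zero_eq_eval_zero, h0]
    simp
  have c : Continuous fun t : ℝ => ‖R.divX.eval (t : ℂ)‖ := by fun_prop
  have := (c.tendsto 0).mono_left (nhdsWithin_le_nhds (s := Set.Ioi 0))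
  rw [Complex.ofReal_zero, ← coeff_zero_eq_eval_zero, coeff_divX] at this
  refine ge_of_tendsto this (eventually_nhdsWithin_of_forall fun t (ht : 0 < t) => ?_)
  have := h t ht
  rw [e, norm_mul, Complex.norm_real, Real.norm_of_nonneg ht.le, mul_comm] at this
  exact le_of_mul_le_mul_left this ht

theorem not_bdd {κ ρ : ℝ} (hκ : 0 < κ) (h : ∀ t : ℝ, 0 < t → κ * t ≤ ρ) : False := by
  have := h ((|ρ| + 1) / κ) (by positivity)
  rw [mul_div_cancel₀ _ hκ.ne'] at this
  linarith [le_abs_self ρ]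

theorem polyB (R : ℂ[X]) {κ : ℝ} (hκ : 0 < κ) (h : ∀ t : ℝ, 0 < t → κ * t ≤ ‖R.eval (t : ℂ)‖)
    (h0 : R.eval 0 ≠ 0) (hr : ∀ r ∈ R.roots, r.re < 0) : R.coeff 1 ≠ 0 := by
  have p : ∀ s : Multiset ℂ, (∀ r ∈ s, r.re < 0) → s = 0 ∨ 0 < (s.map fun r => -r⁻¹).sum.re := by
    intro s hs
    induction s using Multiset.induction with
    | empty => simp
    | cons a s ih =>
      have ha := hs a (by simp)
      have : 0 < (-a⁻¹).re := by
        rw [Complex.neg_re, Complex.inv_re, neg_pos]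
        exact div_neg_of_neg_of_pos ha (Complex.normSq_pos.2 (by rintro rfl; simp at ha))
      rw [Multiset.map_cons, Multiset.sum_cons, Complex.add_re]
      rcases ih fun r hr => hs r (by simp [hr]) with rfl | k
      · exact .inr (by simpa using this)
      · exact .inr (add_pos this k)
  rcases p _ hr with k | k
  · exact (not_bdd hκ (ρ := ‖R.eval 0‖) fun t ht => by
      simpa [factor R h0 t, k] using h t ht).elim
  · rw [coeff_one R h0]
    exact mul_ne_zero h0 fun e => by simp [e] at k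

noncomputable def g (k : ℕ) : ℝ := (((k - 1 : ℕ) : ℝ) / k) ^ (k - 1)

theorem g_le (k : ℕ) : g k ≤ 1 := pow_le_one₀ (by positivity)
  (div_le_one_of_le₀ (by exact_mod_cast Nat.sub_le k 1) (by positivity))

theorem amgm (s : Multiset ℂ) (hs : ∀ r ∈ s, r.im = 0 ∧ r.re < 0) : ∃ σ : ℝ, 0 ≤ σ ∧
    (s.map fun r => -r⁻¹).sum = σ ∧ ∀ t x : ℝ, 0 ≤ t → 0 ≤ x → ‖(s.map fun r : ℂ => 1 - t / r).prod‖ ≤
      (1 + x) ^ s.card * Real.exp ((t * σ - s.card * x) / (1 + x)) := by
  induction s using Multiset.induction with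
  | empty => exact ⟨0, le_rfl, by simp, by simp⟩
  | cons a s ih =>
    obtain ⟨σ, h1, h2, h3⟩ := ih fun r hr => hs r (by simp [hr])
    obtain ⟨a1, a2⟩ := hs a (by simp)
    obtain ⟨a, rfl⟩ : ∃ x : ℝ, a = x := ⟨a.re, Complex.ext rfl (by simpa using a1)⟩
    have a3 : 0 < -a⁻¹ := by simpa using a2
    refine ⟨-a⁻¹ + σ, by positivity, by simp [h2], fun t x ht hx => ?_⟩
    rw [Multiset.map_cons, Multiset.prod_cons, norm_mul, Multiset.card_cons]
    have : ‖1 - (t : ℂ) / a‖ ≤ (1 + x) * Real.exp ((t * -a⁻¹ - x) / (1 + x)) := by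
      rw [show 1 - (t : ℂ) / a = ((1 + t * -a⁻¹ : ℝ) : ℂ) by push_cast; ring, Complex.norm_real,
        Real.norm_of_nonneg (by positivity)]
      refine le_trans (le_of_eq ?_) (mul_le_mul_of_nonneg_left (Real.add_one_le_exp _)
        (by positivity))
      field_simp; ring
    refine (mul_le_mul this (h3 t x ht hx) (norm_nonneg _) (by positivity)).trans (le_of_eq ?_)
    rw [mul_mul_mul_comm, ← Real.exp_add, ← pow_succ']
    congr 2; push_cast; ring

theorem polyC (R : ℂ[X]) {κ : ℝ} (hκ : 0 < κ) (h : ∀ t : ℝ, 0 < t → κ * t ≤ ‖R.eval (t : ℂ)‖)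
    (h0 : R.eval 0 ≠ 0) (hr : ∀ r ∈ R.roots, r.im = 0 ∧ r.re < 0) {k : ℕ} (hk : 1 ≤ k)
    (hd : R.natDegree ≤ k) : κ * g k ≤ ‖R.coeff 1‖ := by
  obtain ⟨σ, h1, h2, h3⟩ := amgm _ hr
  have ρ0 : 0 < ‖R.eval 0‖ := norm_pos_iff.2 h0
  rw [coeff_one R h0, h2, norm_mul, Complex.norm_real, Real.norm_of_nonneg h1]
  have k0 : (0 : ℝ) < k := by exact_mod_cast hk
  have key : ∀ t : ℝ, 0 < t → κ * t ≤ ‖R.eval 0‖ * (1 + t * σ / k) ^ k := fun t ht => by
    refine (h t ht).trans ?_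
    rw [factor R h0, norm_mul]
    refine mul_le_mul_of_nonneg_left ((h3 t (t * σ / k) ht.le (by positivity)).trans ?_) ρ0.le
    obtain ⟨j, hj⟩ := Nat.exists_eq_add_of_le ((card_roots' R).trans hd)
    generalize R.roots.card = d at hj
    have e : t * σ = k * (t * σ / k) := by field_simp
    have x0 : 0 ≤ t * σ / k := by positivity
    generalize t * σ / k = x at e x0
    rw [e, hj, pow_add, show ((d + j : ℕ) * x - d * x) / (1 + x) = j * (x / (1 + x)) by
      push_cast; ring, Real.exp_nat_mul]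
    refine mul_le_mul_of_nonneg_left (pow_le_pow_left₀ (by positivity) ?_ _) (by positivity)
    have := Real.add_one_le_exp (-(x / (1 + x)))
    rw [Real.exp_neg, show -(x / (1 + x)) + 1 = (1 + x)⁻¹ by field_simp; ring] at this
    exact (inv_le_inv₀ (by positivity) (by positivity)).1 this
  generalize ‖R.eval 0‖ = ρ at *
  rcases h1.eq_or_lt with rfl | h1
  · exact (not_bdd hκ (ρ := ρ) fun t ht => by simpa using key t ht).elim
  obtain ⟨k, rfl⟩ := Nat.exists_eq_add_of_le' hk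
  rcases k.eq_zero_or_pos with rfl | kp
  · by_contra! c
    simp only [g, zero_add, Nat.sub_self, pow_zero, mul_one] at c
    exact not_bdd (sub_pos.2 c) (ρ := ρ) fun t ht => by
      have := key t ht
      simp at this; linarith
  · have k1 : (0 : ℝ) < k := by exact_mod_cast kp
    have := key ((k + 1) / (k * σ)) (by positivity)
    rw [show 1 + (k + 1) / (k * σ) * σ / (k + 1 : ℕ) = (k + 1) / k by push_cast; field_simp,
      pow_succ] at this
    rw [g, Nat.add_sub_cancel, Nat.cast_succ, ← inv_div, inv_pow, ← div_eq_mul_inv,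
      div_le_iff₀ (by positivity)]
    generalize ((k + 1 : ℝ) / k) ^ k = u at this
    have e : κ = κ * ((k + 1) / (k * σ)) * (k * σ / (k + 1)) := by field_simp
    rw [e]
    refine (mul_le_mul_of_nonneg_right this (by positivity)).trans (le_of_eq ?_)
    field_simp

theorem jensen {ι : Type*} (s : Finset ι) (c y : ι → ℝ) (hc : ∀ k ∈ s, 0 ≤ c k)
    (hy : ∀ k ∈ s, 0 < y k) : (∑ k ∈ s, c k) * Real.log (∑ k ∈ s, c k) +
      ∑ k ∈ s, c k * Real.log (y k) ≤ (∑ k ∈ s, c k) * Real.log (∑ k ∈ s, c k * y k) := by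
  rcases (sum_nonneg hc).eq_or_lt with x0 | x0
  · have := (sum_eq_zero_iff_of_nonneg hc).1 x0.symm
    rw [← x0, sum_eq_zero fun k hk => by rw [this k hk, zero_mul]]; simp
  have w0 : 0 < ∑ k ∈ s, c k * y k := by
    obtain ⟨k, hk, e⟩ := exists_ne_zero_of_sum_ne_zero x0.ne'
    exact sum_pos' (fun k hk => mul_nonneg (hc k hk) (hy k hk).le)
      ⟨k, hk, mul_pos ((hc k hk).lt_of_ne' e) (hy k hk)⟩
  generalize hx : ∑ k ∈ s, c k = x at *
  generalize hw : ∑ k ∈ s, c k * y k = w at *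
  have : ∑ k ∈ s, c k * Real.log (y k) ≤
      ∑ k ∈ s, (c k * y k * (x / w) + c k * (Real.log w - Real.log x - 1)) :=
    sum_le_sum fun k hk => by
      have := Real.log_le_sub_one_of_pos (show 0 < y k * (x / w) by have := hy k hk; positivity)
      rw [Real.log_mul (hy k hk).ne' (by positivity), Real.log_div x0.ne' w0.ne'] at this
      nlinarith [hc k hk]
  rw [sum_add_distrib, ← sum_mul, ← sum_mul, hx, hw, mul_div_cancel₀ _ w0.ne'] at this
  linarith

theorem xlog {x y : ℝ} (x0 : 0 ≤ x) (x1 : x ≤ 1) (y0 : 0 < y) (y1 : y ≤ 1) :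
    x * Real.log y + (x - y) + (x - y) ^ 2 / 4 ≤ x * Real.log x := by
  obtain ⟨u, u0, rfl⟩ : ∃ u, 0 ≤ u ∧ x = u ^ 2 := ⟨√x, by positivity, (Real.sq_sqrt x0).symm⟩
  obtain ⟨v, v0, rfl⟩ : ∃ v, 0 < v ∧ y = v ^ 2 := ⟨√y, by positivity, (Real.sq_sqrt y0.le).symm⟩
  have u1 : u ≤ 1 := by nlinarith
  have v1 : v ≤ 1 := by nlinarith
  have k : (u ^ 2 - v ^ 2) ^ 2 / 4 ≤ (u - v) ^ 2 := by
    have : (u + v) ^ 2 ≤ 4 := by nlinarith
    nlinarith [sq_nonneg (u - v)]
  rcases u0.eq_or_lt with rfl | u0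
  · simp at k ⊢; linarith
  have := Real.log_le_sub_one_of_pos (div_pos v0 u0)
  rw [Real.log_div v0.ne' u0.ne'] at this
  have := mul_le_mul_of_nonneg_left this (sq_nonneg u)
  rw [show u ^ 2 * (v / u - 1) = u * v - u ^ 2 by field_simp] at this
  rw [Real.log_pow, Real.log_pow]
  push_cast
  nlinarith

end Pool.Agent.H89.FG
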