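import Pool.Agent.H89.FG1

set_option autoImplicit false

namespace Pool.Agent.H89.FG

open Polynomial Finset Filter Topology Function

variable {ι : Type} [Fintype ι] [DecidableEq ι]

def cnt (f : ι → ι) (b : ι) : ℕ := (univ.filter fun a => f a = b).card

def good (S : Finset ι) : Finset (ι → ι) := univ.filter fun f => ∀ s ∈ S, cnt f s = 1

noncomputable def mono (S : Finset ι) (f : ι → ι) (y : ι → ℂ) : ℂ :=
  ∏ a, if f a ∈ S then 1 else y (f a)

noncomputable def wt (A : Matrix ι ι ℝ) (f : ι → ι) : ℂ := ∏ a, (A a (f a) : ℂ)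

noncomputable def q (A : Matrix ι ι ℝ) (S : Finset ι) (y : ι → ℂ) : ℂ :=
  ∑ f ∈ good S, wt A f * mono S f y

noncomputable def Rb (A : Matrix ι ι ℝ) (S : Finset ι) (b : ι) (y : ι → ℂ) : ℂ[X] :=
  ∑ f ∈ good S, monomial (cnt f b) (wt A f * mono (insert b S) f y)

variable {A : Matrix ι ι ℝ} {S : Finset ι} {b : ι}

theorem Rb_eval (hb : b ∉ S) (y : ι → ℂ) (t : ℂ) : (Rb A S b y).eval t = q A S (update y b t) := by
  rw [Rb, eval_finset_sum]
  refine sum_congr rfl fun f _ => ?_
  rw [eval_monomial, mul_assoc, cnt, ← prod_const, prod_filter, mono, mono, ← prod_mul_distrib]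
  congr 1
  refine prod_congr rfl fun a _ => ?_
  by_cases h : f a = b
  · simp [h, hb]
  · simp [h]

theorem Rb_coeff (y : ι → ℂ) : (Rb A S b y).coeff 1 = q A (insert b S) y := by
  rw [Rb, finset_sum_coeff, q, show good (insert b S) = (good S).filter fun f => cnt f b = 1 by
    ext; simp [good, and_comm], sum_filter]
  simp only [coeff_monomial]

theorem cnt_sum (f : ι → ι) (U : Finset ι) :
    (univ.filter fun a => f a ∈ U).card = ∑ s ∈ U, cnt f s := by
  rw [card_eq_sum_card_fiberwise (f := f) (t := U) fun a ha => by simpa using ha]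
  refine sum_congr rfl fun s hs => congrArg card ?_
  ext a; simp only [mem_filter, mem_univ, true_and]
  exact ⟨fun h => h.2, fun h => ⟨h ▸ hs, h⟩⟩

theorem homog (c : ℂ) (y : ι → ℂ) :
    q A S (fun b => c * y b) = c ^ (Fintype.card ι - S.card) * q A S y := by
  rw [q, q, mul_sum]
  refine sum_congr rfl fun f hf => ?_
  have h1 : (univ.filter fun a => f a ∈ S).card = S.card := by
    rw [cnt_sum, sum_congr rfl (mem_filter.1 hf).2]; simp
  have h2 := card_filter_add_card_filter_not (s := univ) fun a => f a ∈ S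
  rw [card_univ] at h2
  rw [show Fintype.card ι - S.card = (univ.filter fun a => f a ∉ S).card by omega, ← prod_const,
    prod_filter, mul_left_comm, mono, mono, ← prod_mul_distrib]
  congr 1
  refine prod_congr rfl fun a _ => ?_
  split_ifs <;> simp

def Stable (A : Matrix ι ι ℝ) (S : Finset ι) : Prop := ∀ z, (∀ b, 0 < (z b).re) → q A S z ≠ 0

def Cap (A : Matrix ι ι ℝ) (S : Finset ι) (c : ℝ) : Prop :=
  ∀ y : ι → ℝ, (∀ b, 0 < y b) → c * ∏ b ∈ Sᶜ, y b ≤ ‖q A S fun b => y b‖

theorem Stable.rot (h : Stable A S) (c : ℂ) (z : ι → ℂ) (hz : ∀ b, 0 < (c * z b).re) :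
    q A S z ≠ 0 := fun e => h _ hz (by rw [homog, e, mul_zero])

theorem Stable.re_le (h : Stable A S) (z : ι → ℂ) (hz : ∀ b, 0 < (z b).re) :
    ‖q A S fun b => (z b).re‖ ≤ ‖q A S z‖ := by
  let W : ℂ[X] := ∑ f ∈ good S, C (wt A f) *
    ∏ a, if f a ∈ S then 1 else C ((z (f a)).re : ℂ) + C ((z (f a)).im : ℂ) * X
  have e : ∀ s, W.eval s = q A S fun b => (z b).re + (z b).im * s := fun s => by
    simp [W, eval_finset_sum, q, mono, eval_prod, apply_ite (Polynomial.eval s)]
  have e0 : W.eval 0 = q A S fun b => (z b).re := by simp [e]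
  have w0 : W.eval 0 ≠ 0 := e0 ▸ h _ (by simpa using hz)
  have := factor W w0 Complex.I
  simp only [e Complex.I, Complex.re_add_im] at this
  rw [this, norm_mul, e0]
  refine le_mul_of_one_le_right (norm_nonneg _) (one_le_norm_prod _ _ fun r hr => ?_)
  have r0 : r.im = 0 := by
    by_contra k
    refine h.rot (r.im * (Complex.I * (starRingEnd ℂ) r)) _ (fun b => ?_)
      ((e r).symm.trans (isRoot_of_mem_roots hr))
    have := mul_pos (sq_pos_of_ne_zero k) (hz b)
    simp; nlinarith
  refine le_trans (le_of_eq ?_) (Complex.re_le_norm _)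
  simp [Complex.div_re, r0]

theorem step (hb : b ∉ S) (h : Stable A S) {c : ℝ} (c0 : 0 < c) (hc : Cap A S c) {k : ℕ}
    (hk : 1 ≤ k) (hd : ∀ f ∈ good S, wt A f ≠ 0 → cnt f b ≤ k) :
    Stable A (insert b S) ∧ Cap A (insert b S) (c * g k) := by
  have low : ∀ z : ι → ℂ, (∀ b, 0 < (z b).re) → ∀ t : ℝ, 0 < t →
      c * (∏ b ∈ (insert b S)ᶜ, (z b).re) * t ≤ ‖(Rb A S b z).eval (t : ℂ)‖ := fun z hz t ht => by
    have p : ∀ j, 0 < (update z b t j).re := fun j => by
      rw [update_apply]; split_ifs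
      exacts [ht, hz j]
    rw [Rb_eval hb]
    refine le_trans (le_of_eq ?_) ((hc _ p).trans (h.re_le _ p))
    rw [mul_assoc, compl_insert, ← prod_erase_mul _ _ (mem_compl.2 hb), update_self]
    congr 2
    exact prod_congr rfl fun j hj => by rw [update_of_ne (ne_of_mem_erase hj)]
  have root : ∀ (z : ι → ℂ) (s : ℝ), (∀ j, 0 < (z j).re + s * (z j).im) →
      ∀ r ∈ (Rb A S b z).roots, r.re + s * r.im ≤ 0 := fun z s hz r hr => by
    by_contra! k
    refine h.rot (1 - s * Complex.I) _ (fun j => ?_)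
      ((Rb_eval hb z r).symm.trans (isRoot_of_mem_roots hr))
    rw [update_apply]; split_ifs
    · simpa using k
    · simpa using hz j
  have neg : ∀ z : ι → ℂ, (∀ j, 0 < (z j).re) → (Rb A S b z).eval 0 ≠ 0 →
      ∀ r ∈ (Rb A S b z).roots, r.re < 0 := fun z hz h0 r hr => by
    have : ∀ᶠ ε : ℝ in 𝓝 0, ∀ j, 0 < (z j).re + ε * r.im * (z j).im :=
      eventually_all.2 fun j => (show Continuous fun ε : ℝ => (z j).re + ε * r.im * (z j).im by
        fun_prop).continuousAt.eventually (lt_mem_nhds (by simpa using hz j))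
    obtain ⟨ε, h1, (h2 : 0 < ε)⟩ := ((this.filter_mono nhdsWithin_le_nhds).and
      (self_mem_nhdsWithin (s := Set.Ioi 0))).exists
    have := root z _ h1 r hr
    by_contra! k
    have i : r.im = 0 := by
      by_contra i
      nlinarith [mul_pos h2 (sq_pos_of_ne_zero i)]
    have : r = 0 := Complex.ext (by simp [i] at this; simpa using this.antisymm k) i
    subst this
    exact h0 (isRoot_of_mem_roots hr)
  refine ⟨fun z hz => ?_, fun y hy => ?_⟩
  · have κ0 : 0 < c * ∏ b ∈ (insert b S)ᶜ, (z b).re := mul_pos c0 (prod_pos fun j _ => hz j)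
    rw [← Rb_coeff]
    by_cases h0 : (Rb A S b z).eval 0 = 0
    · exact norm_pos_iff.1 (κ0.trans_le (polyA _ (low z hz) h0))
    · exact polyB _ κ0 (low z hz) h0 (neg z hz h0)
  · have κ0 : 0 < c * ∏ b ∈ (insert b S)ᶜ, y b := mul_pos c0 (prod_pos fun j _ => hy j)
    rw [← Rb_coeff, mul_right_comm]
    have l := low (fun b => y b) hy
    by_cases h0 : (Rb A S b fun b => y b).eval 0 = 0
    · exact (mul_le_of_le_one_right κ0.le (g_le k)).trans (polyA _ l h0)
    refine polyC _ κ0 l h0 (fun r hr => ⟨?_, neg _ hy h0 r hr⟩) hk ?_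
    · by_contra i
      have := root _ ((|r.re| + 1) / r.im) (by simpa using hy) r hr
      rw [div_mul_cancel₀ _ i] at this
      linarith [neg_abs_le r.re]
    · refine natDegree_sum_le_of_forall_le _ _ fun f hf => ?_
      by_cases w : wt A f = 0
      · simp [w]
      · exact (natDegree_monomial_le _).trans (hd f hf w)

theorem q_empty (y : ι → ℂ) : q A ∅ y = ∏ a, ∑ k, A a k * y k := by
  rw [prod_univ_sum]
  simp [q, good, wt, mono, prod_mul_distrib]

theorem q_univ (y : ι → ℂ) : q A univ y = A.permanent := by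
  rw [← Matrix.permanent_transpose, Matrix.permanent, q]
  push_cast
  refine (sum_nbij (fun σ : Equiv.Perm ι => (σ : ι → ι)) (fun σ _ => ?_)
    (fun _ _ _ _ e => DFunLike.coe_injective e) (fun f hf => ?_) fun σ _ => ?_).symm
  · simp only [good, mem_filter, mem_univ, true_and, cnt, true_imp_iff, card_eq_one]
    exact fun s => ⟨σ.symm s, by ext; simp [Equiv.apply_eq_iff_eq_symm_apply]⟩
  · have : Surjective f := fun s => by
      obtain ⟨a, ha⟩ := card_pos.1 (((mem_filter.1 (mem_coe.1 hf)).2 s (mem_univ _)).symm ▸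
        Nat.one_pos : 0 < cnt f s)
      exact ⟨a, (mem_filter.1 ha).2⟩
    exact ⟨Equiv.ofBijective f (Finite.surjective_iff_bijective.1 this), by simp, rfl⟩
  · simp [wt, mono]

noncomputable def hh (m : ℕ) : ℝ := m.factorial / m ^ m

theorem hh_succ (m : ℕ) : hh (m + 1) = g (m + 1) * hh m := by
  have : (m : ℝ) ^ m ≠ 0 := by
    rcases m.eq_zero_or_pos with rfl | h
    · simp
    · positivity
  simp only [hh, g, Nat.add_sub_cancel, Nat.factorial_succ, div_pow, pow_succ]
  push_cast; field_simp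

theorem g_pos (k : ℕ) : 0 < g k := by
  rcases Nat.lt_or_ge k 2 with h | h
  · rw [g, show k - 1 = 0 by omega, pow_zero]; exact one_pos
  · exact pow_pos (div_pos (by exact_mod_cast (by omega : 0 < k - 1))
      (by exact_mod_cast (by omega : 0 < k))) _

variable {T : Type} [Fintype T] [DecidableEq T]

def fib (β : ι → T) (S : Finset ι) (t : T) : ℕ := (univ.filter fun b => β b = t ∧ b ∉ S).card

theorem fib_insert (β : ι → T) (hb : b ∉ S) : fib β S (β b) = fib β (insert b S) (β b) + 1 ∧
    ∏ t, hh (fib β S t) = g (fib β S (β b)) * ∏ t, hh (fib β (insert b S) t) := by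
  have e : fib β S (β b) = fib β (insert b S) (β b) + 1 := by
    rw [fib, fib, ← card_insert_of_notMem (a := b) (by simp)]
    congr 1; ext j; by_cases h : j = b <;> simp [h, hb]
  refine ⟨e, ?_⟩
  rw [← mul_prod_erase _ _ (mem_univ (β b)), ← mul_prod_erase _ (fun t => hh (fib β (insert b S) t))
    (mem_univ (β b)), e, hh_succ, mul_assoc]
  congr 2
  refine prod_congr rfl fun t ht => congrArg hh (congrArg card ?_)
  ext j; by_cases h : j = b
  · simp [h, (ne_of_mem_erase ht).symm]
  · simp [h]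

theorem chain (hA : 0 ≤ A.permanent) (α β : ι → T) (hs : ∀ a b, A a b ≠ 0 → α a = β b)
    (hm : ∀ t, fib α ∅ t = fib β ∅ t) (n : ℕ) : ∀ (S : Finset ι) (c : ℝ), Sᶜ.card = n →
    Stable A S → 0 < c → Cap A S c → c * ∏ t, hh (fib β S t) ≤ A.permanent := by
  induction n with
  | zero =>
    intro S c h _ _ hc
    obtain rfl : S = univ := by simpa using h
    simpa [q_univ, abs_of_nonneg hA, fib, hh] using hc 1 fun _ => one_pos
  | succ n ih =>
    intro S c h h1 c0 hc
    obtain ⟨b, hb⟩ := card_pos.1 (h ▸ n.succ_pos : 0 < Sᶜ.card)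
    have hb' := mem_compl.1 hb
    obtain ⟨e1, e2⟩ := fib_insert β hb'
    obtain ⟨s1, s2⟩ := step hb' h1 c0 hc (k := fib β S (β b)) (by omega) fun f hf w => by
      have f1 : ∀ a, α a = β (f a) := fun a => hs _ _ fun e =>
        w (prod_eq_zero (mem_univ a) (by simp [e]))
      obtain ⟨U, hU⟩ : ∃ U, U = S.filter fun s => β s = β b := ⟨_, rfl⟩
      have a1 := cnt_sum f (insert b U)
      rw [sum_insert (by simp [hU, hb']), sum_congr rfl fun s hs =>
        (mem_filter.1 hf).2 s (mem_filter.1 (hU ▸ hs)).1, sum_const, smul_eq_mul, mul_one] at a1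
      have a2 : (univ.filter fun a => f a ∈ insert b U).card ≤ fib α ∅ (β b) :=
        card_le_card fun a ha => by
          simp only [hU, mem_filter, mem_univ, true_and, mem_insert, f1] at ha ⊢
          exact ⟨ha.elim (congrArg β) And.right, notMem_empty _⟩
      have a3 : fib β ∅ (β b) ≤ U.card + fib β S (β b) :=
        (card_le_card fun j hj => by
          simp only [hU, mem_filter, mem_univ, true_and, mem_union] at hj ⊢
          tauto).trans (card_union_le _ _)
      have := hm (β b)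
      omega
    rw [e2, ← mul_assoc]
    exact ih _ _ (by rw [compl_insert, card_erase_of_mem hb, h]; rfl) s1 (mul_pos c0 (g_pos _)) s2

end Pool.Agent.H89.FG
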