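import Pool.Agent.H89.FG2

set_option autoImplicit false

namespace Pool.Agent.H89.FG

open Polynomial Finset Filter Topology Function

variable {ι T : Type} [Fintype ι] [DecidableEq ι] [Fintype T] [DecidableEq T]
  {A : Matrix ι ι ℝ}

structure DS (A : Matrix ι ι ℝ) : Prop where
  nn : ∀ a b, 0 ≤ A a b
  row : ∀ a, ∑ b, A a b = 1
  col : ∀ b, ∑ a, A a b = 1

omit [DecidableEq ι] in
theorem DS.le_one (h : DS A) (a b : ι) : A a b ≤ 1 :=
  h.row a ▸ single_le_sum (fun b _ => h.nn a b) (mem_univ b)

theorem DS.base (h : DS A) : Stable A ∅ ∧ Cap A ∅ 1 := by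
  have pos : ∀ (y : ι → ℝ), (∀ b, 0 < y b) → ∀ a, 0 < ∑ k, A a k * y k := fun y hy a => by
    obtain ⟨k, hk, e⟩ := exists_ne_zero_of_sum_ne_zero ((h.row a).trans_ne one_ne_zero)
    exact sum_pos' (fun k _ => mul_nonneg (h.nn a k) (hy k).le)
      ⟨k, hk, mul_pos ((h.nn a k).lt_of_ne' e) (hy k)⟩
  refine ⟨fun z hz => ?_, fun y hy => ?_⟩
  · rw [q_empty]
    refine prod_ne_zero_iff.2 fun a _ e => (pos _ hz a).ne' ?_
    simpa using congrArg Complex.re e
  · rw [q_empty, one_mul, compl_empty]
    norm_cast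
    refine le_trans ?_ (le_abs_self _)
    rw [← Real.log_le_log_iff (prod_pos fun b _ => hy b) (prod_pos fun a _ => pos y hy a),
      Real.log_prod fun b _ => (hy b).ne', Real.log_prod fun a _ => (pos y hy a).ne']
    calc ∑ k, Real.log (y k) = ∑ a, ∑ k, A a k * Real.log (y k) := by
          rw [sum_comm]; simp [← sum_mul, h.col]
      _ ≤ _ := sum_le_sum fun a _ => by
          simpa [h.row] using jensen univ (A a) y (fun k _ => h.nn a k) fun k _ => hy k

theorem DS.first (h : DS A) (b : ι) :
    Cap A {b} (Real.exp (∑ a, (1 - A a b) * Real.log (1 - A a b))) := fun y hy => by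
  let w : ι → ℝ := fun a => ∑ k ∈ univ.erase b, A a k * y k
  have x : ∀ a, ∑ k ∈ univ.erase b, A a k = 1 - A a b := fun a => by
    rw [← h.row a, ← add_sum_erase _ _ (mem_univ b)]; ring
  have e : Rb A ∅ b (fun k => y k) = ∏ a, (C (A a b : ℂ) * X + C (w a : ℂ)) :=
    Polynomial.funext fun t => by
      rw [Rb_eval (notMem_empty b), q_empty, eval_prod]
      refine prod_congr rfl fun a _ => ?_
      rw [← add_sum_erase _ _ (mem_univ b), sum_congr rfl fun k hk => by
        rw [update_of_ne (ne_of_mem_erase hk)], eval_add, eval_C]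
      simp only [w, eval_mul, eval_C, eval_X, update_self]
      push_cast; rfl
  have e1 : q A {b} (fun k => y k) = (∑ i, (∏ j ∈ univ.erase i, w j) * A i b : ℝ) := by
    have := congrArg (fun p => p.derivative.eval 0) e
    rw [← coeff_zero_eq_eval_zero, coeff_derivative, zero_add, Rb_coeff,
      derivative_prod_finset] at this
    simpa [eval_finset_sum, eval_prod] using this
  rw [e1, Complex.norm_real]
  refine le_trans ?_ (le_abs_self _)
  let L : ι → ℝ := fun i => ∑ j ∈ univ.erase i, Real.log (w j)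
  have e2 : ∀ i, (∏ j ∈ univ.erase i, w j) * A i b = Real.exp (L i) * A i b := fun i => by
    by_cases c : A i b = 0
    · simp [c]
    rw [Real.exp_sum, prod_congr rfl fun j hj => Real.exp_log ?_]
    have : A i b ≤ ∑ k ∈ univ.erase b, A j k := by
      have := h.col b
      rw [← add_sum_erase _ _ (mem_univ j)] at this
      have := single_le_sum (f := fun a => A a b) (fun a _ => h.nn a b)
        (mem_erase.2 ⟨(ne_of_mem_erase hj).symm, mem_univ i⟩)
      rw [x]; linarith
    obtain ⟨k, hk, e⟩ := exists_ne_zero_of_sum_ne_zero (((h.nn i b).lt_of_ne' c).trans_le this).ne'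
    exact sum_pos' (fun k _ => mul_nonneg (h.nn j k) (hy k).le)
      ⟨k, hk, mul_pos ((h.nn j k).lt_of_ne' e) (hy k)⟩
  have e3 : ∑ i, L i * A i b = ∑ j, (1 - A j b) * Real.log (w j) := by
    simp only [L, sum_erase_eq_sub (mem_univ _), sub_mul, sum_sub_distrib, ← mul_sum, h.col,
      one_mul, mul_one]
    simp only [mul_comm]
  have e4 : Real.exp (∑ i, L i * A i b) ≤ ∑ i, Real.exp (L i) * A i b := by
    generalize hM : ∑ i, L i * A i b = M
    calc Real.exp M = ∑ i, Real.exp M * (L i * A i b + (1 - M) * A i b) := by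
          rw [← mul_sum, sum_add_distrib, ← mul_sum, hM, h.col]; ring
      _ ≤ _ := sum_le_sum fun i _ => by
          have := mul_le_mul_of_nonneg_left (Real.add_one_le_exp (L i - M)) (Real.exp_pos M).le
          rw [← Real.exp_add, add_sub_cancel] at this
          nlinarith [h.nn i b]
  rw [sum_congr rfl fun i _ => e2 i]
  refine le_trans ?_ e4
  rw [compl_singleton, ← Real.exp_log (prod_pos fun k _ => hy k), ← Real.exp_add, e3,
    Real.log_prod fun k _ => (hy k).ne', Real.exp_le_exp]
  calc _ = ∑ a, ((1 - A a b) * Real.log (1 - A a b) + ∑ k ∈ univ.erase b, A a k * Real.log (y k)) := by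
        rw [sum_add_distrib, sum_comm]; simp [← sum_mul, h.col]
    _ ≤ _ := sum_le_sum fun a _ => by
        simpa only [x] using jensen (univ.erase b) (A a) y (fun k _ => h.nn a k) fun k _ => hy k

noncomputable def GG (β : ι → T) : ℝ := ∏ t, hh (fib β ∅ t)

noncomputable def J (α β : ι → T) : Matrix ι ι ℝ :=
  fun a b => if α a = β b then (fib β ∅ (β b) : ℝ)⁻¹ else 0

omit [Fintype T] in
theorem fib_sum (β : ι → T) (t : T) (c : ℝ) : ∑ b, (if β b = t then c else 0) = fib β ∅ t * c := by
  simp [fib, ← sum_filter]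

omit [Fintype T] in
theorem fib_pos (β : ι → T) (b : ι) : 1 ≤ fib β ∅ (β b) := card_pos.2 ⟨b, by simp⟩

omit [Fintype T] in
theorem DS.fib_eq (h : DS A) {α β : ι → T} (hs : ∀ a b, A a b ≠ 0 → α a = β b) (t : T) :
    fib α ∅ t = fib β ∅ t := by
  have : ∑ a, ∑ b, (if α a = t then A a b else 0) = ∑ b, ∑ a, if β b = t then A a b else 0 := by
    rw [sum_comm]
    refine sum_congr rfl fun b _ => sum_congr rfl fun a _ => ?_
    by_cases k : A a b = 0
    · simp [k]
    · rw [hs a b k]
  simpa [h.row, h.col, fib] using this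

theorem DS.per_nn (h : DS A) : 0 ≤ A.permanent :=
  sum_nonneg fun _ _ => prod_nonneg fun _ _ => h.nn _ _

theorem hh_pos (m : ℕ) : 0 < hh m := by
  induction m with
  | zero => simp [hh]
  | succ m ih => rw [hh_succ]; exact mul_pos (g_pos _) ih

theorem GG_pos (β : ι → T) : 0 < GG β := prod_pos fun _ _ => hh_pos _

theorem DS.lower (h : DS A) {α β : ι → T} (hs : ∀ a b, A a b ≠ 0 → α a = β b) (b : ι) :
    GG β * (1 + (∑ a, (A a b - J α β a b) ^ 2) / 4) ≤ A.permanent := by
  have s1 := (step (notMem_empty b) h.base.1 one_pos h.base.2 (k := Fintype.card ι)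
    (Fintype.card_pos_iff.2 ⟨b⟩) fun f _ _ => card_le_univ _).1
  refine le_trans ?_ (chain h.per_nn α β hs (h.fib_eq hs) _ {b} _ rfl s1 (Real.exp_pos _)
    (h.first b))
  rw [GG, (fib_insert β (notMem_empty b)).2, mul_right_comm]
  refine mul_le_mul_of_nonneg_right ?_ (prod_nonneg fun _ _ => (hh_pos _).le)
  have m1 := fib_pos β b
  have ms := fun c => fib_sum α (β b) c
  rw [h.fib_eq hs] at ms
  have z : ∀ a, α a ≠ β b → A a b = 0 := fun a k => by_contra fun e => k (hs a b e)
  simp only [J]
  generalize fib β ∅ (β b) = m at *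
  rcases m1.eq_or_lt with rfl | m2
  · have : ∀ a, α a = β b → A a b = 1 := by
      have := (sum_eq_zero_iff_of_nonneg (s := univ)
        (f := fun a => (if α a = β b then 1 else 0) - A a b) fun a _ => by
          split_ifs with k
          · linarith [h.le_one a b]
          · simp [z a k]).1 (by simp [ms, h.col])
      intro a k
      have := this a (mem_univ a)
      rw [if_pos k] at this; linarith
    rw [sum_eq_zero, sum_eq_zero] <;> try (simp [g]; done)
    all_goals intro a _; by_cases k : α a = β b <;> simp [k, this, z]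
  have m0 : (1 : ℝ) < m := by exact_mod_cast m2
  have y0 : 0 < 1 - (m : ℝ)⁻¹ := sub_pos.2 (inv_lt_one_of_one_lt₀ m0)
  have : ∑ a, (((if α a = β b then 1 else 0) - A a b) * Real.log (1 - (m : ℝ)⁻¹) +
      ((if α a = β b then (m : ℝ)⁻¹ else 0) - A a b) +
      (A a b - if α a = β b then (m : ℝ)⁻¹ else 0) ^ 2 / 4) ≤
      ∑ a, (1 - A a b) * Real.log (1 - A a b) := sum_le_sum fun a _ => by
    split_ifs with k
    · have := xlog (sub_nonneg.2 (h.le_one a b)) (sub_le_self _ (h.nn a b)) y0
        (sub_le_self _ (by positivity))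
      nlinarith
    · simp [z a k]
  rw [sum_add_distrib, sum_add_distrib, ← sum_mul, sum_sub_distrib, sum_sub_distrib, ms, ms, h.col,
    mul_inv_cancel₀ (by positivity), sub_self, add_zero, ← sum_div] at this
  refine le_trans ?_ (Real.exp_le_exp.2 this)
  rw [Real.exp_add]
  refine mul_le_mul (le_of_eq ?_) ((add_comm _ _).trans_le (Real.add_one_le_exp _)) (by positivity) (by positivity)
  rw [show (m : ℝ) * 1 - 1 = (m - 1 : ℕ) by rw [Nat.cast_pred (by omega), mul_one],
    Real.exp_nat_mul, Real.exp_log y0, g, Nat.cast_pred (by omega)]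
  congr 1; field_simp

omit [Fintype T] in
theorem mul_J (D : Matrix ι ι ℝ) (β : ι → T) (a b : ι) : (D * J β β) a b =
    (∑ k, if β k = β b then D a k else 0) * (fib β ∅ (β b) : ℝ)⁻¹ := by
  simp [Matrix.mul_apply, J, sum_mul]

theorem DS.upper (h : DS A) (β : ι → T) (a0 : ι) {p : ℝ}
    (hp : ∀ t, (∑ k, if β k = t then A a0 k else 0) ≤ p) : (A * J β β).permanent ≤ GG β * p := by
  let d : ι → T → ℝ := fun a t => ∑ k, if β k = t then A a k else 0
  have d0 : ∀ a t, 0 ≤ d a t := fun a t => sum_nonneg fun k _ => by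
    split_ifs; exacts [h.nn a k, le_rfl]
  have p0 : 0 ≤ p := (d0 _ (β a0)).trans (hp _)
  let F : (ι → T) → ℝ := fun u => ∏ a, d a (u a)
  have e1 : ∏ b, (fib β ∅ (β b) : ℝ)⁻¹ = ∏ t, ((fib β ∅ t : ℝ) ^ fib β ∅ t)⁻¹ := by
    rw [← prod_fiberwise' univ β fun t => (fib β ∅ t : ℝ)⁻¹]
    simp [fib]
  have e2 : (A * J β β).permanent = (∑ σ : Equiv.Perm ι, F (β ∘ σ)) *
      ∏ t, ((fib β ∅ t : ℝ) ^ fib β ∅ t)⁻¹ := by
    rw [← Matrix.permanent_transpose, Matrix.permanent, sum_mul, ← e1]
    refine sum_congr rfl fun σ _ => ?_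
    simp only [Matrix.transpose_apply, mul_J, prod_mul_distrib]
    rw [← Equiv.prod_comp σ fun b => (fib β ∅ (β b) : ℝ)⁻¹]; rfl
  have e3 : GG β = (∏ t, (fib β ∅ t).factorial : ℕ) * ∏ t, ((fib β ∅ t : ℝ) ^ fib β ∅ t)⁻¹ := by
    simp only [GG, hh, div_eq_mul_inv, prod_mul_distrib, Nat.cast_prod]
  rw [e2, e3, mul_right_comm, sum_comp F fun σ : Equiv.Perm ι => β ∘ σ]
  refine mul_le_mul_of_nonneg_right ?_ (by positivity)
  let d' := update d a0 fun t => if t = β a0 then 1 else 0
  have d1 : ∀ a t, 0 ≤ d' a t := fun a t => by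
    simp only [d', update_apply]; split_ifs
    · dsimp only; split_ifs <;> norm_num
    · exact d0 a t
  have tot : ∑ u : ι → T, ∏ a, d' a (u a) = 1 := by
    rw [← Fintype.piFinset_univ, ← prod_univ_sum]
    refine prod_eq_one fun a _ => ?_
    simp only [d', update_apply]; split_ifs
    · simp
    · rw [sum_comm]; simp [h.row]
  calc _ ≤ ∑ u ∈ univ.image fun σ : Equiv.Perm ι => β ∘ σ, ((∏ t, (fib β ∅ t).factorial : ℕ) : ℝ) *
        (p * ∏ a, d' a (update u a0 (β a0) a)) := sum_le_sum fun u hu => by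
        obtain ⟨σ, -, rfl⟩ := mem_image.1 hu
        rw [nsmul_eq_mul]
        refine mul_le_mul (Nat.cast_le.2 ?_) ?_ (prod_nonneg fun _ _ => d0 _ _) (by positivity)
        · have := DomMulAct.stabilizer_card β
          simp only [Fintype.card_subtype] at this
          simp only [fib, notMem_empty, not_false_eq_true, and_true, ← this]
          refine card_le_card_of_injOn (· * σ⁻¹) (fun τ hτ => ?_) (mul_left_injective _).injOn
          simp only [coe_filter, mem_univ, true_and, Set.mem_setOf_eq] at hτ ⊢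
          ext a; simpa using congrFun hτ (σ⁻¹ a)
        · simp only [F]
          rw [← mul_prod_erase _ _ (mem_univ a0), ← mul_prod_erase _ _ (mem_univ a0)]
          simp only [d', update_self, if_true, one_mul]
          refine mul_le_mul (hp _) (le_of_eq (prod_congr rfl fun a ha => ?_))
            (prod_nonneg fun _ _ => d0 _ _) p0
          rw [update_of_ne (ne_of_mem_erase ha), update_of_ne (ne_of_mem_erase ha)]
    _ ≤ _ := by
        rw [← mul_sum, ← mul_sum]
        refine mul_le_mul_of_nonneg_left (mul_le_of_le_one_right p0 ?_) (by positivity)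
        rw [← tot, ← sum_image (f := fun u => ∏ a, d' a (u a)) (g := fun u => update u a0 (β a0))
          fun u hu v hv e => ?_]
        · exact sum_le_sum_of_subset_of_nonneg (subset_univ _) fun _ _ _ =>
            prod_nonneg fun _ _ => d1 _ _
        obtain ⟨σ, -, rfl⟩ := mem_image.1 hu
        obtain ⟨τ, -, rfl⟩ := mem_image.1 hv
        have o : ∀ a, a ≠ a0 → β (σ a) = β (τ a) := fun a ha => by simpa [ha] using congrFun e a
        have c := (Equiv.sum_comp σ fun k => if β k = β (σ a0) then 1 else 0).trans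
          (Equiv.sum_comp τ fun k => if β k = β (σ a0) then 1 else 0).symm
        rw [← add_sum_erase _ _ (mem_univ a0), ← add_sum_erase _ _ (mem_univ a0),
          sum_congr rfl fun a ha => by rw [o a (ne_of_mem_erase ha)]] at c
        ext a
        by_cases k : a = a0
        · subst k
          by_contra n
          simp [Ne.symm n] at c
          exact n c.symm
        · exact o a k

def N1 (M : Matrix ι ι ℝ) : ℝ := ∑ a, ∑ b, |M a b|

theorem prod_lip {κ : Type*} (s : Finset κ) (x y : κ → ℝ) (hx : ∀ i, |x i| ≤ 1) (hy : ∀ i, |y i| ≤ 1) :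
    ∏ i ∈ s, x i - ∏ i ∈ s, y i ≤ ∑ i ∈ s, |x i - y i| := by
  classical
  refine le_trans (le_abs_self _) ?_
  induction s using Finset.induction_on with
  | empty => simp
  | insert a s ha ih =>
    rw [prod_insert ha, prod_insert ha, sum_insert ha, show x a * ∏ i ∈ s, x i - y a * ∏ i ∈ s, y i
      = (x a - y a) * ∏ i ∈ s, y i + x a * (∏ i ∈ s, x i - ∏ i ∈ s, y i) by ring]
    refine (abs_add_le _ _).trans (add_le_add ?_ ?_) <;> rw [abs_mul]
    · exact mul_le_of_le_one_right (abs_nonneg _) (abs_prod s y ▸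
        prod_le_one (fun _ _ => abs_nonneg _) fun i _ => hy i)
    · exact (mul_le_of_le_one_left (abs_nonneg _) (hx a)).trans ih

theorem DS.lip {B : Matrix ι ι ℝ} (h : DS A) (k : DS B) :
    A.permanent ≤ B.permanent + (Fintype.card ι).factorial * N1 (A - B) := by
  rw [← sub_le_iff_le_add', Matrix.permanent, Matrix.permanent, ← sum_sub_distrib,
    ← Fintype.card_perm, ← nsmul_eq_mul, N1, sum_comm, ← card_univ, ← sum_const]
  refine sum_le_sum fun σ _ => (prod_lip _ _ _ (fun i => ?_) fun i => ?_).trans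
    (sum_le_sum fun i _ => single_le_sum (f := fun a => |(A - B) a i|)
      (fun _ _ => abs_nonneg _) (mem_univ _))
  · rw [abs_of_nonneg (h.nn _ _)]; exact h.le_one _ _
  · rw [abs_of_nonneg (k.nn _ _)]; exact k.le_one _ _

end Pool.Agent.H89.FG
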