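import Pool.Agent.H89.FG3

set_option autoImplicit false

namespace Pool.Agent.H89.FG

open Finset Filter Topology Function

variable {ι T : Type} [Fintype ι] [DecidableEq ι] [Fintype T] [DecidableEq T]
  {A B M : Matrix ι ι ℝ} {α β : ι → T}

theorem ds_iff : DS A ↔ A ∈ doublyStochastic ℝ ι :=
  ⟨fun h => mem_doublyStochastic_iff_sum.2 ⟨h.1, h.2, h.3⟩, fun h =>
    have := mem_doublyStochastic_iff_sum.1 h; ⟨this.1, this.2.1, this.2.2⟩⟩

theorem DS.mul (h : DS A) (k : DS B) : DS (A * B) := ds_iff.2 (mul_mem (ds_iff.1 h) (ds_iff.1 k))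

theorem DS.pow (h : DS A) (k : ℕ) : DS (A ^ k) := ds_iff.2 (pow_mem (ds_iff.1 h) k)

omit [Fintype T] in
theorem ds_J (β : ι → T) : DS (J β β) := by
  have p : ∀ b, (fib β ∅ (β b) : ℝ) ≠ 0 := fun b => by have := fib_pos β b; positivity
  refine ⟨fun a b => by simp only [J]; split_ifs <;> positivity, fun a => ?_, fun b => ?_⟩
  · rw [← mul_inv_cancel₀ (p a), ← fib_sum]
    refine sum_congr rfl fun b _ => ?_
    by_cases h : β a = β b
    · simp [J, h]
    · simp [J, h, Ne.symm h]
  · simp only [J, fib_sum, mul_inv_cancel₀ (p b)]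

omit [DecidableEq ι]

theorem N1_nn (M : Matrix ι ι ℝ) : 0 ≤ N1 M := by unfold N1; positivity

theorem N1_add (M M' : Matrix ι ι ℝ) : N1 (M + M') ≤ N1 M + N1 M' := by
  simp only [N1, ← sum_add_distrib]
  exact sum_le_sum fun a _ => sum_le_sum fun b _ => abs_add_le _ _

theorem N1_comm (M M' : Matrix ι ι ℝ) : N1 (M - M') = N1 (M' - M) := by
  simp only [N1, Matrix.sub_apply, abs_sub_comm]

theorem N1_mul_aux (M M' : Matrix ι ι ℝ) : N1 (M * M') ≤ ∑ c, (∑ a, |M a c|) * ∑ b, |M' c b| := by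
  simp only [sum_mul_sum]
  rw [sum_comm]
  refine sum_le_sum fun a _ => ?_
  rw [sum_comm]
  exact sum_le_sum fun b _ => (abs_sum_le_sum_abs _ _).trans (by simp [abs_mul])

theorem DS.N1_left (h : DS A) (M : Matrix ι ι ℝ) : N1 (A * M) ≤ N1 M := by
  simpa [abs_of_nonneg (h.nn _ _), h.col] using! N1_mul_aux A M

theorem DS.N1_right (h : DS A) (M : Matrix ι ι ℝ) : N1 (M * A) ≤ N1 M := by
  rw [N1, N1, sum_comm (f := fun a b => |M a b|)]
  simpa [abs_of_nonneg (h.nn _ _), h.row] using! N1_mul_aux M A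

theorem N1_mul (M M' : Matrix ι ι ℝ) : N1 (M * M') ≤ N1 M * N1 M' := by
  refine (N1_mul_aux M M').trans ?_
  rw [N1, sum_comm, sum_mul]
  exact sum_le_sum fun c _ => mul_le_mul_of_nonneg_left (single_le_sum
    (f := fun c => ∑ b, |M' c b|) (fun _ _ => by positivity) (mem_univ c)) (by positivity)

def F2 (M : Matrix ι ι ℝ) : ℝ := ∑ a, ∑ b, M a b ^ 2

def dst (M : Matrix ι ι ℝ) (b b' : ι) : ℝ := ∑ c, (M b c - M b' c) ^ 2

theorem dst_nn (M : Matrix ι ι ℝ) (b b' : ι) : 0 ≤ dst M b b' := by unfold dst; positivity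

theorem DS.var (h : DS A) (x : ι → ℝ) : ∑ b, x b ^ 2 - ∑ a, (∑ b, A a b * x b) ^ 2 =
    (∑ a, ∑ b, ∑ b', A a b * A a b' * (x b - x b') ^ 2) / 2 := by
  have : ∀ a, ∑ b, ∑ b', A a b * A a b' * (x b - x b') ^ 2 =
      2 * (∑ b, A a b * x b ^ 2 - (∑ b, A a b * x b) ^ 2) := fun a => by
    have e : ∀ b b', A a b * A a b' * (x b - x b') ^ 2 = A a b * x b ^ 2 * A a b' +
      A a b * (A a b' * x b' ^ 2) - 2 * (A a b * x b * (A a b' * x b')) := fun _ _ => by ring
    simp only [e, sum_sub_distrib, sum_add_distrib, ← mul_sum, ← sum_mul, h.row]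
    ring
  simp only [this, ← mul_sum, sum_sub_distrib]
  rw [sum_comm (f := fun a b => A a b * x b ^ 2)]
  simp only [← sum_mul, h.col]
  ring

theorem DS.drop (h : DS A) (X : Matrix ι ι ℝ) : F2 X - F2 (A * X) =
    (∑ a, ∑ b, ∑ b', A a b * A a b' * dst X b b') / 2 := by
  rw [F2, F2, sum_comm, sum_comm (f := fun a c => (A * X) a c ^ 2), ← sum_sub_distrib]
  simp only [Matrix.mul_apply, h.var, dst, mul_sum]
  rw [← sum_div, sum_comm]
  congr 1
  refine sum_congr rfl fun a _ => ?_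
  rw [sum_comm]
  exact sum_congr rfl fun b _ => sum_comm

theorem DS.F2_le (h : DS A) (X : Matrix ι ι ℝ) : F2 (A * X) ≤ F2 X := by
  rw [← sub_nonneg, h.drop]
  exact div_nonneg (sum_nonneg fun a _ => sum_nonneg fun b _ => sum_nonneg fun b' _ =>
    mul_nonneg (mul_nonneg (h.nn _ _) (h.nn _ _)) (dst_nn _ _ _)) zero_le_two

theorem DS.drop_zero (h : DS A) {X : Matrix ι ι ℝ} (e : F2 X ≤ F2 (A * X)) {a b b' : ι}
    (h1 : A a b ≠ 0) (h2 : A a b' ≠ 0) : X b = X b' := by
  have p : ∀ a b b', 0 ≤ A a b * A a b' * dst X b b' := fun a b b' =>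
    mul_nonneg (mul_nonneg (h.nn _ _) (h.nn _ _)) (dst_nn _ _ _)
  have := h.drop X
  rw [e.antisymm (h.F2_le X), sub_self, eq_comm, div_eq_zero_iff, or_iff_left two_ne_zero,
    sum_eq_zero_iff_of_nonneg fun a _ => sum_nonneg fun b _ => sum_nonneg fun b' _ => p _ _ _]
    at this
  have := (sum_eq_zero_iff_of_nonneg fun b' _ => p _ _ _).1 ((sum_eq_zero_iff_of_nonneg
    fun b _ => sum_nonneg fun b' _ => p _ _ _).1 (this a (mem_univ a)) b (mem_univ b)) b'
    (mem_univ b')
  have := (sum_eq_zero_iff_of_nonneg fun c _ => sq_nonneg _).1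
    ((mul_eq_zero.1 this).resolve_left (mul_ne_zero h1 h2))
  exact funext fun c => sub_eq_zero.1 (pow_eq_zero_iff two_ne_zero |>.1 (this c (mem_univ c)))

theorem DS.dst_le (h : DS A) (X : Matrix ι ι ℝ) (b b' : ι) : dst (X * A) b b' ≤ dst X b b' := by
  have := DS.var (A := A.transpose) ⟨fun a b => h.nn b a, h.col, h.row⟩ fun c => X b c - X b' c
  have p : 0 ≤ ∑ a, ∑ c, ∑ c', A.transpose a c * A.transpose a c' *
      (X b c - X b' c - (X b c' - X b' c')) ^ 2 := sum_nonneg fun a _ => sum_nonneg fun b _ =>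
    sum_nonneg fun b' _ => mul_nonneg (mul_nonneg (h.nn _ _) (h.nn _ _)) (sq_nonneg _)
  have e : dst (X * A) b b' = ∑ a, (∑ c, A.transpose a c * (X b c - X b' c)) ^ 2 := by
    simp [dst, Matrix.mul_apply, mul_sub, mul_comm]
  rw [e, dst]; linarith

variable [DecidableEq ι]

omit [Fintype T] in
theorem dst_J {b b' : ι} (h : β b ≠ β b') :
    ((Fintype.card ι : ℝ) ^ 2)⁻¹ ≤ dst (J β β) b b' := by
  refine le_trans ?_ (single_le_sum (f := fun c => (J β β b c - J β β b' c) ^ 2)
    (fun _ _ => sq_nonneg _) (mem_univ b))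
  have := fib_pos β b
  simp only [J, if_true, if_neg h.symm, sub_zero, inv_pow]
  exact inv_anti₀ (by positivity) (pow_le_pow_left₀ (by positivity)
    (by exact_mod_cast card_le_univ _) 2)

theorem DS.idem (h : DS A) (e : A * A = A) : ∃ β : ι → Finset ι, A = J β β := by
  classical
  let β : ι → Finset ι := fun a => univ.filter fun b => A b = A a
  have β1 : ∀ a b, β a = β b ↔ A a = A b := fun a b =>
    ⟨fun k => by simpa [β] using Finset.ext_iff.1 k a, fun k => by simp only [β, k]⟩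
  have k : ∀ a b, A a b ≠ 0 → A a = A b := fun a b hb => funext fun c => by
    conv_lhs => rw [← e, Matrix.mul_apply]
    rw [← one_mul (A b c), ← h.row a, sum_mul]
    refine sum_congr rfl fun b' _ => ?_
    by_cases z : A a b' = 0
    · simp [z]
    · rw [h.drop_zero (X := A) (by rw [e]) hb z]
  refine ⟨β, Matrix.ext fun a b => ?_⟩
  simp only [J]
  split_ifs with c
  · refine eq_inv_of_mul_eq_one_right ?_
    rw [← fib_sum, ← h.col b]
    refine sum_congr rfl fun a' _ => ?_
    split_ifs with c'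
    · rw [(β1 _ _).1 c, (β1 _ _).1 c']
    · exact (by_contra fun z => c' ((β1 _ _).2 (k _ _ z)) : A a' b = 0).symm
  · exact by_contra fun z => c ((β1 _ _).2 (k _ _ z))

theorem ds_compact : IsCompact {A : Matrix ι ι ℝ | DS A} := by
  refine (isCompact_univ_pi fun _ : ι => isCompact_univ_pi fun _ : ι =>
    isCompact_Icc (a := (0 : ℝ)) (b := 1)).of_isClosed_subset ?_
    fun A (h : DS A) a _ b _ => ⟨h.nn a b, h.le_one a b⟩
  rw [show {A : Matrix ι ι ℝ | DS A} = (⋂ a, ⋂ b, {A | 0 ≤ A a b}) ∩ ((⋂ a, {A | ∑ b, A a b = 1}) ∩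
    ⋂ b, {A | ∑ a, A a b = 1}) from Set.ext fun A => by
      simpa using ⟨fun h => ⟨h.1, h.2, h.3⟩, fun h => ⟨h.1, h.2.1, h.2.2⟩⟩]
  exact (isClosed_iInter fun a => isClosed_iInter fun b => isClosed_le (by fun_prop)
    (by fun_prop)).inter ((isClosed_iInter fun a => isClosed_eq (by fun_prop) (by fun_prop)).inter
    (isClosed_iInter fun a => isClosed_eq (by fun_prop) (by fun_prop)))

omit [DecidableEq ι] in
theorem cont_N1 : Continuous (N1 : Matrix ι ι ℝ → ℝ) := by unfold N1; fun_prop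

theorem DS.struct (h : DS A) : ∃ (α β : ι → Finset ι) (R : Matrix ι ι ℝ), DS R ∧ Commute A R ∧
    A * R = J β β ∧ (∀ a b, A a b ≠ 0 → α a = β b) ∧
    ∀ ε > 0, ∃ j, N1 (A ^ j - J β β) < ε := by
  let s := Set.range fun j => A ^ (j + 1)
  have K : IsCompact ((A * ·) '' ({M | DS M} ∩ {M | A * M = M * A})) :=
    (ds_compact.inter_right (isClosed_eq (by fun_prop) (by fun_prop))).image (by fun_prop)
  have sub := closure_minimal (s := s) (by
    rintro _ ⟨j, rfl⟩
    exact ⟨A ^ j, ⟨h.pow j, (Commute.self_pow A j).eq⟩, (pow_succ' A j).symm⟩) K.isClosed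
  obtain ⟨P, P1, P2⟩ := exists_idempotent_in_compact_subsemigroup (fun r => by fun_prop) (closure s)
    ⟨_, subset_closure ⟨0, rfl⟩⟩ (K.of_isClosed_subset isClosed_closure sub) fun x hx y hy =>
    map_mem_closure₂ continuous_mul hx hy (by
      rintro _ ⟨i, rfl⟩ _ ⟨j, rfl⟩
      exact ⟨i + j + 1, by simp only [← pow_add]; congr 1; omega⟩)
  obtain ⟨R, ⟨R1, R2⟩, (e : A * R = P)⟩ := sub P1
  obtain ⟨β, rfl⟩ := (e ▸ h.mul R1).idem P2
  have : ∀ a, ∃ b, A a b ≠ 0 := fun a =>
    (exists_ne_zero_of_sum_ne_zero ((h.row a).trans_ne one_ne_zero)).imp fun _ => And.right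
  choose f hf using this
  refine ⟨β ∘ f, β, R, R1, R2, e, fun a b hb => by_contra fun k => ?_, fun ε ε0 => ?_⟩
  · have := dst_J (β := β) (b := f a) k
    rw [dst, h.drop_zero (X := J β β) (le_of_eq_of_le (by
      rw [← Matrix.mul_assoc, ← R2, e, P2]) (DS.F2_le R1 (A * J β β))) (hf a) hb] at this
    have : (0 : ℝ) < Fintype.card ι := by exact_mod_cast Fintype.card_pos_iff.2 ⟨a⟩
    simp at *
    omega
  · obtain ⟨_, h1, j, rfl⟩ := mem_closure_iff.1 P1 {M | N1 (M - J β β) < ε}
      (isOpen_lt (cont_N1.comp (by fun_prop)) continuous_const) (by simpa [N1] using ε0)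
    exact ⟨_, h1⟩

omit [Fintype T] in
theorem DS.approx (h : DS A) (hm : ∀ t, fib α ∅ t = fib β ∅ t) : ∃ A', DS A' ∧
    (∀ a b, A' a b ≠ 0 → α a = β b) ∧
    N1 (A - A') = 2 * ∑ a, ∑ b, if α a = β b then 0 else A a b := by
  let o : ι → ι → ℝ := fun a b => if α a = β b then 0 else A a b
  have o0 : ∀ a b, 0 ≤ o a b := fun a b => by
    simp only [o]; split_ifs; exacts [le_rfl, h.nn a b]
  let r : ι → ℝ := fun a => ∑ b, o a b
  let c : ι → ℝ := fun b => ∑ a, o a b
  have r0 : ∀ a, 0 ≤ r a := fun a => sum_nonneg fun b _ => o0 a b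
  have c0 : ∀ b, 0 ≤ c b := fun b => sum_nonneg fun a _ => o0 a b
  have r1 : ∀ a, r a = 1 - ∑ b, if α a = β b then A a b else 0 := fun a => by
    rw [← h.row a, ← sum_sub_distrib]
    exact sum_congr rfl fun b _ => by simp only [o]; split_ifs <;> simp
  have c1 : ∀ b, c b = 1 - ∑ a, if α a = β b then A a b else 0 := fun b => by
    rw [← h.col b, ← sum_sub_distrib]
    exact sum_congr rfl fun a _ => by simp only [o]; split_ifs <;> simp
  let s : T → ℝ := fun t => ∑ a, if α a = t then r a else 0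
  have s0 : ∀ t, 0 ≤ s t := fun t => sum_nonneg fun a _ => by split_ifs; exacts [r0 a, le_rfl]
  have s1 : ∀ t, (∑ b, if β b = t then c b else 0) = s t := fun t => by
    have e1 := fib_sum α t 1
    rw [hm, ← fib_sum β t 1] at e1
    have : ∀ (p : Prop) [Decidable p] (x : ι → ℝ), (if p then 1 - ∑ i, x i else 0) =
        (if p then 1 else 0) - ∑ i, if p then x i else 0 := fun p _ x => by split_ifs <;> simp
    simp only [s, r1, c1, this, sum_sub_distrib, e1]
    rw [sum_comm]
    congr 1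
    refine sum_congr rfl fun a _ => sum_congr rfl fun b _ => ?_
    by_cases k : α a = β b <;> simp [k]
  have fin : ∀ (x y : ℝ), 0 ≤ x → x ≤ y → x / y * y = x := fun x y h1 h2 => by
    rcases eq_or_ne y 0 with rfl | k
    · simp [h1.antisymm h2]
    · exact div_mul_cancel₀ x k
  let A' : Matrix ι ι ℝ := fun a b => if α a = β b then A a b + r a * c b / s (α a) else 0
  have row : ∀ a, ∑ b, A' a b = 1 := fun a => by
    have : ∀ b, A' a b = (if α a = β b then A a b else 0) +
        r a / s (α a) * if β b = α a then c b else 0 := fun b => by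
      by_cases k : α a = β b
      · simp only [A', if_pos k, if_pos k.symm]; ring
      · simp [A', k, Ne.symm k]
    simp only [this, sum_add_distrib, ← mul_sum, s1]
    rw [fin _ _ (r0 a) (le_of_eq_of_le (by simp) (single_le_sum (f := fun a' =>
      if α a' = α a then r a' else 0) (fun a _ => by split_ifs; exacts [r0 a, le_rfl])
      (mem_univ a))), r1]; ring
  refine ⟨A', ⟨fun a b => ?_, row, fun b => ?_⟩, fun a b k => by_contra fun n => k (if_neg n), ?_⟩
  · simp only [A']; split_ifs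
    exacts [add_nonneg (h.nn a b) (div_nonneg (mul_nonneg (r0 a) (c0 b)) (s0 _)), le_rfl]
  · have : ∀ a, A' a b = (if α a = β b then A a b else 0) +
        c b / s (β b) * if α a = β b then r a else 0 := fun a => by
      by_cases k : α a = β b
      · simp only [A', k, if_true]; ring
      · simp [A', k]
    simp only [this, sum_add_distrib, ← mul_sum]
    rw [fin _ (s (β b)) (c0 b) (s1 _ ▸ le_of_eq_of_le (by simp) (single_le_sum (f := fun a' =>
      if β a' = β b then c a' else 0) (fun a _ => by split_ifs; exacts [c0 a, le_rfl])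
      (mem_univ b))), c1]; ring
  · have : ∀ a b, |(A - A') a b| = A' a b - A a b + 2 * o a b := fun a b => by
      simp only [A', o, Matrix.sub_apply]; split_ifs
      · rw [abs_of_nonpos (by linarith [div_nonneg (mul_nonneg (r0 a) (c0 b)) (s0 (α a))])]; ring
      · rw [sub_zero, abs_of_nonneg (h.nn a b)]; ring
    simp only [N1, this, sum_add_distrib, sum_sub_distrib, row, h.row, ← mul_sum]
    simp [o]

theorem DS.upper2 (h : DS M) (β : ι → T) : GG β * (F2 (J β β) - F2 (M * J β β)) ≤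
    2 * Fintype.card ι * (GG β - (M * J β β).permanent) := by
  let d : ι → T → ℝ := fun a t => ∑ k, if β k = t then M a k else 0
  have X := h.mul (ds_J β)
  have e : F2 (J β β) = ∑ a, ∑ b, (M * J β β) a b * (fib β ∅ (β b) : ℝ)⁻¹ := by
    rw [F2, sum_comm, sum_comm (f := fun a b => (M * J β β) a b * _)]
    refine sum_congr rfl fun b _ => ?_
    rw [← sum_mul, X.col, ← (ds_J β).col b, sum_mul]
    exact sum_congr rfl fun a _ => by simp only [J]; split_ifs <;> ring
  rw [e, F2, ← sum_sub_distrib, mul_sum, mul_assoc, mul_left_comm, ← nsmul_eq_mul, ← card_univ,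
    ← sum_const]
  refine sum_le_sum fun a _ => ?_
  obtain ⟨t, -, ht⟩ := exists_max_image univ (d a) ⟨β a, mem_univ _⟩
  have u := h.upper β a fun t' => ht t' (mem_univ _)
  have d0 : ∀ t, 0 ≤ d a t := fun t => sum_nonneg fun k _ => by
    split_ifs; exacts [h.nn a k, le_rfl]
  have d1 : ∀ t, d a t ≤ 1 := fun t => h.row a ▸ sum_le_sum fun k _ => by
    split_ifs; exacts [le_rfl, h.nn a k]
  have e2 : (∑ b, if β b = t then (M * J β β) a b else 0) = d a t := by
    rw [sum_congr rfl fun b _ => show _ = if β b = t then d a t * (fib β ∅ t : ℝ)⁻¹ else 0 by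
      split_ifs with k; exacts [by rw [mul_J, k], rfl], fib_sum]
    by_cases z : fib β ∅ t = 0
    · have : ∀ k, β k ≠ t := fun k e => by have := fib_pos β k; rw [e] at this; omega
      simp [z, d, this]
    · field_simp
  have : ∑ b, (M * J β β) a b * (fib β ∅ (β b) : ℝ)⁻¹ - ∑ b, (M * J β β) a b ^ 2 ≤
      ∑ b, ((M * J β β) a b * (2 - d a t) - if β b = t then (M * J β β) a b else 0) := by
    rw [← sum_sub_distrib]
    refine sum_le_sum fun b _ => ?_
    have x0 := X.nn a b
    have x1 : (M * J β β) a b = d a (β b) * _ := mul_J M β a b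
    have m1 : (fib β ∅ (β b) : ℝ)⁻¹ ≤ 1 := inv_le_one_of_one_le₀ (by exact_mod_cast fib_pos β b)
    have m0 : 0 ≤ (fib β ∅ (β b) : ℝ)⁻¹ := by positivity
    generalize (M * J β β) a b = x at *
    generalize (fib β ∅ (β b) : ℝ)⁻¹ = μ at *
    have : x * μ - x ^ 2 ≤ x * (1 - d a (β b)) := by
      have := mul_nonneg (mul_nonneg x0 (sub_nonneg.2 m1)) (sub_nonneg.2 (d1 (β b)))
      nlinarith
    split_ifs with k
    · rw [k] at this; linarith
    · nlinarith [d0 (β b), d1 t]
  rw [sum_sub_distrib, ← sum_mul, X.row, e2] at this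
  nlinarith [GG_pos β]

end Pool.Agent.H89.FG
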