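import Pool.Agent.H89.FG4

set_option autoImplicit false

namespace Pool.Agent.H89.FG

open Finset Filter Topology Function

variable {ι T : Type} [Fintype ι] [DecidableEq ι] [Fintype T] [DecidableEq T]
  {A B M R : Matrix ι ι ℝ} {α β : ι → T}

omit [Fintype T] in
theorem DS.mulJ (h : DS A) (hs : ∀ a b, A a b ≠ 0 → α a = β b) : A * J β β = J α β := by
  ext a b
  rw [mul_J, J]
  split_ifs with k
  · rw [sum_congr rfl fun c _ => show _ = A a c from ite_eq_left_iff.2 fun n =>
      (by_contra fun z => n ((hs a c z).symm.trans k) : A a c = 0).symm, h.row, one_mul]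
  · rw [sum_eq_zero fun c _ => ite_eq_right_iff.2 fun n =>
      by_contra fun z => k ((hs a c z).trans n), zero_mul]

theorem cont_per : Continuous (Matrix.permanent : Matrix ι ι ℝ → ℝ) := by
  unfold Matrix.permanent; fun_prop

theorem loc_lt (h : GG β < A.permanent) (hj : ∀ ε > 0, ∃ j, N1 (A ^ j - J β β) < ε) :
    ∃ k1, ∀ᶠ B in 𝓝 A, DS B → ∀ k ≥ k1, (B ^ k).permanent ≤ B.permanent := by
  have L0 : (0 : ℝ) < (Fintype.card ι).factorial := by positivity
  obtain ⟨j, hj⟩ := hj _ (div_pos (sub_pos.2 h) (mul_pos two_pos L0))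
  have c : Continuous fun B : Matrix ι ι ℝ => B.permanent - GG β -
      2 * (Fintype.card ι).factorial * N1 (B ^ j - J β β) :=
    (cont_per.sub continuous_const).sub (continuous_const.mul (cont_N1.comp (by fun_prop)))
  refine ⟨j, (c.continuousAt.eventually (lt_mem_nhds (show 0 < _ by
    rw [lt_div_iff₀ (by positivity)] at hj; linarith))).mono fun B hB d k hk => ?_⟩
  obtain ⟨i, rfl⟩ := Nat.exists_eq_add_of_le' hk
  have h1 := (d.pow (i + j)).lip ((d.pow i).mul (ds_J β))
  rw [pow_add, ← Matrix.mul_sub] at h1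
  have h2 := (d.pow i).upper2 β
  have h3 := mul_le_mul_of_nonneg_left ((d.pow i).N1_left (B ^ j - J β β)) L0.le
  have h4 := mul_nonneg L0.le (N1_nn (B ^ j - J β β))
  rcases isEmpty_or_nonempty ι with _ | _
  · simp [Matrix.permanent_isEmpty]
  have h5 : (B ^ i * J β β).permanent ≤ GG β := by
    have n0 : (0 : ℝ) < Fintype.card ι := by exact_mod_cast Fintype.card_pos
    have := (mul_nonneg (GG_pos β).le (sub_nonneg.2 ((d.pow i).F2_le _))).trans h2
    nlinarith
  rw [pow_add]
  linarith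

theorem loc_eq [Nonempty ι] (h : DS (J α β)) (hR : DS R) (e : J α β * R = J β β) :
    ∃ k1, ∀ᶠ B in 𝓝 (J α β), DS B → ∀ k ≥ k1, (B ^ k).permanent ≤ B.permanent := by
  have hs : ∀ a b, J α β a b ≠ 0 → α a = β b := fun a b k => by_contra fun n => k (if_neg n)
  have n0 : (0 : ℝ) < Fintype.card ι := by exact_mod_cast Fintype.card_pos
  have L0 : (0 : ℝ) < (Fintype.card ι).factorial := by positivity
  have G0 := GG_pos β
  have ab : ∀ a a', α a = α a' → β a = β a' := fun a a' k => by_contra fun n => by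
    have := dst_J n
    rw [← e] at this
    have := this.trans (hR.dst_le _ _ _)
    simp only [dst, J, k, sub_self] at this
    simp at this
  have sq : ∀ W, DS W → (∀ a b, W a b ≠ 0 → α a = β b) → J α β * (W - J α β) = 0 := by
    intro W hW hw
    ext c b
    obtain ⟨k0, -, hk⟩ := exists_ne_zero_of_sum_ne_zero ((h.col b).trans_ne one_ne_zero)
    have : ∀ W, DS W → (∀ a b, W a b ≠ 0 → α a = β b) → (J α β * W) c b = J α β c k0 := by
      intro W hW hw
      rw [Matrix.mul_apply, ← mul_one (J α β c k0), ← hW.col b, mul_sum]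
      refine sum_congr rfl fun k _ => ?_
      by_cases z : W k b = 0
      · simp [z]
      · simp only [J, ab _ _ ((hw k b z).trans (hs _ _ hk).symm)]
    rw [Matrix.mul_sub, Matrix.sub_apply, this W hW hw, this _ h hs, sub_self, Matrix.zero_apply]
  have pw : ∀ j, J α β ^ j * J β β * R ^ j = J β β := fun j => by
    induction j with
    | zero => simp
    | succ j ih =>
      rw [pow_succ', pow_succ, ← Matrix.mul_assoc, Matrix.mul_assoc (J α β),
        Matrix.mul_assoc (J α β), ih, h.mulJ hs, e]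
  generalize hn : (Fintype.card ι : ℝ) = n at n0
  generalize hL : ((Fintype.card ι).factorial : ℝ) = L at L0
  obtain ⟨k1, hk1⟩ := exists_nat_ge (14 * L * (16 * n ^ 4) / GG β)
  have c1 : ∀ᶠ B in 𝓝 (J α β), ∀ j : Fin k1, ∀ b b', β b ≠ β b' →
      (2 * n ^ 2)⁻¹ < dst (B ^ (j : ℕ) * J β β) b b' :=
    eventually_all.2 fun j => eventually_all.2 fun b => eventually_all.2 fun b' =>
      eventually_all.2 fun k => by
        have c : Continuous fun M : Matrix ι ι ℝ => dst M b b' := by unfold dst; fun_prop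
        refine (c.comp (by fun_prop : Continuous fun B : Matrix ι ι ℝ =>
          B ^ (j : ℕ) * J β β)).continuousAt.eventually (lt_mem_nhds ?_)
        have := (hR.pow j).dst_le (J α β ^ (j : ℕ) * J β β) b b'
        rw [pw] at this
        refine lt_of_lt_of_le ?_ ((dst_J k).trans this)
        rw [hn]
        exact inv_strictAnti₀ (by positivity) (by nlinarith [pow_pos n0 2])
  have c2 : ∀ᶠ B in 𝓝 (J α β), ∀ a b, α a = β b → (2 * n)⁻¹ < B a b :=
    eventually_all.2 fun a => eventually_all.2 fun b => eventually_all.2 fun k => by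
      refine (by fun_prop : Continuous fun B : Matrix ι ι ℝ => B a b).continuousAt.eventually
        (lt_mem_nhds ?_)
      have := fib_pos β b
      have m : (fib β ∅ (β b) : ℝ) ≤ n := hn ▸ by exact_mod_cast card_le_univ _
      simp only [J, if_pos k]
      exact inv_strictAnti₀ (by positivity) (by linarith)
  have c3 : ∀ᶠ B in 𝓝 (J α β), N1 (B - J α β) < GG β / (12 * n ^ 3 * L) :=
    (cont_N1.comp (by fun_prop : Continuous fun B : Matrix ι ι ℝ =>
      B - J α β)).continuousAt.eventually (gt_mem_nhds (by simp [N1]; positivity))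
  refine ⟨k1 + 3, (c1.and (c2.and c3)).mono fun B ⟨c1, c2, c3⟩ d k hk => ?_⟩
  obtain ⟨W, w1, w2, w3⟩ := d.approx (h.fib_eq hs)
  have δ1 : (∑ a, ∑ b, if α a = β b then 0 else B a b) ≤ N1 (B - J α β) :=
    sum_le_sum fun a _ => sum_le_sum fun b _ => by
      split_ifs with k
      · exact abs_nonneg _
      · simpa [J, k] using le_abs_self _
  have drop : ∀ j < k1, (∑ a, ∑ b, if α a = β b then 0 else B a b) / (8 * n ^ 3) ≤
      F2 (B ^ j * J β β) - F2 (B ^ (j + 1) * J β β) := fun j hj => by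
    rw [pow_succ' B, Matrix.mul_assoc, d.drop, le_div_iff₀ two_pos, sum_div, sum_mul]
    refine sum_le_sum fun a _ => ?_
    obtain ⟨b', -, hb⟩ := exists_ne_zero_of_sum_ne_zero ((h.row a).trans_ne one_ne_zero)
    rw [sum_div, sum_mul]
    have p : ∀ b b', 0 ≤ B a b * B a b' * dst (B ^ j * J β β) b b' := fun b b' =>
      mul_nonneg (mul_nonneg (d.nn _ _) (d.nn _ _)) (dst_nn _ _ _)
    refine sum_le_sum fun b _ => le_trans ?_ (single_le_sum (fun c _ => p b c) (mem_univ b'))
    split_ifs with k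
    · simpa using p b b'
    · refine le_trans (le_of_eq (by field_simp; ring)) (mul_le_mul (mul_le_mul_of_nonneg_left
        (c2 a b' (hs a b' hb)).le (d.nn a b)) (c1 ⟨j, hj⟩ b b' fun x => k
          ((hs a b' hb).trans x.symm)).le (by positivity) (mul_nonneg (d.nn _ _) (d.nn _ _)))
  have δ0 : 0 ≤ ∑ a, ∑ b, if α a = β b then 0 else B a b :=
    sum_nonneg fun a _ => sum_nonneg fun b _ => by split_ifs; exacts [le_rfl, d.nn a b]
  generalize (∑ a, ∑ b, if α a = β b then 0 else B a b) = δ at *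
  have tot : ∀ j ≤ k1, j * (δ / (8 * n ^ 3)) ≤ F2 (J β β) - F2 (B ^ j * J β β) := fun j hj => by
    induction j with
    | zero => simp
    | succ j ih =>
      have := ih (by omega)
      have := drop j hj
      push_cast; linarith
  have t1 : k1 * (δ / (8 * n ^ 3)) ≤ F2 (J β β) - F2 (B ^ k * J β β) := by
    obtain ⟨i, rfl⟩ := Nat.exists_eq_add_of_le' (show k1 ≤ k by omega)
    have := (d.pow i).F2_le (B ^ k1 * J β β)
    rw [pow_add, Matrix.mul_assoc]
    linarith [tot k1 le_rfl]
  have t2 : (B ^ k * J β β).permanent ≤ GG β - 14 * L * δ := by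
    have := (mul_le_mul_of_nonneg_left t1 G0.le).trans ((d.pow k).upper2 β)
    rw [hn] at this
    rw [div_le_iff₀ G0] at hk1
    have e : 2 * n * (14 * L * δ) = 14 * L * (16 * n ^ 4) * (δ / (8 * n ^ 3)) := by
      field_simp; ring
    have := mul_le_mul_of_nonneg_right hk1 (show 0 ≤ δ / (8 * n ^ 3) by positivity)
    have : 2 * n * (14 * L * δ) ≤ 2 * n * (GG β - (B ^ k * J β β).permanent) := by linarith
    have := le_of_mul_le_mul_left this (by positivity)
    linarith
  have η1 : N1 (W - J α β) ≤ 3 * N1 (B - J α β) := by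
    have := N1_add (W - B) (B - J α β)
    rw [sub_add_sub_cancel, N1_comm W B] at this
    linarith
  have t3 : N1 (B ^ 3 - W ^ 3) ≤ 6 * δ := by
    rw [show B ^ 3 - W ^ 3 = (B - W) * B ^ 2 + (W * ((B - W) * B) + W ^ 2 * (B - W)) by
      noncomm_ring]
    linarith [N1_add ((B - W) * B ^ 2) (W * ((B - W) * B) + W ^ 2 * (B - W)),
      N1_add (W * ((B - W) * B)) (W ^ 2 * (B - W)), (d.pow 2).N1_right (B - W),
      w1.N1_left ((B - W) * B), d.N1_right (B - W), (w1.pow 2).N1_left (B - W)]
  have t4 : N1 (B ^ k - B ^ k * J β β) ≤ 12 * δ + N1 (W - J α β) ^ 3 := by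
    obtain ⟨i, rfl⟩ := Nat.exists_eq_add_of_le' (show 3 ≤ k by omega)
    rw [pow_add, Matrix.mul_assoc, ← Matrix.mul_sub]
    refine ((d.pow i).N1_left _).trans ?_
    have e1 : W * (W - J α β) = (W - J α β) * (W - J α β) := by
      rw [Matrix.sub_mul, sq W w1 w2, sub_zero]
    have e2 : W ^ 3 - W ^ 3 * J β β = (W - J α β) * (W - J α β) * (W - J α β) := by
      rw [← e1, Matrix.mul_assoc, ← e1, pow_succ, Matrix.mul_assoc _ W, w1.mulJ w2]
      noncomm_ring
    rw [show B ^ 3 - B ^ 3 * J β β = (B ^ 3 - W ^ 3) + ((W ^ 3 - B ^ 3) * J β β +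
      (W ^ 3 - W ^ 3 * J β β)) by noncomm_ring, e2]
    have := (N1_mul _ _).trans (mul_le_mul_of_nonneg_right (N1_mul (W - J α β) (W - J α β))
      (N1_nn (W - J α β)))
    have := (ds_J β).N1_right (W ^ 3 - B ^ 3)
    rw [N1_comm (W ^ 3)] at this
    refine ((N1_add _ _).trans (add_le_add le_rfl (N1_add _ _))).trans ?_
    nlinarith
  have t5 : GG β * N1 (W - J α β) ^ 2 ≤ 4 * n ^ 3 * (W.permanent - GG β) := by
    have a1 : GG β * F2 (W - J α β) ≤ n * (4 * (W.permanent - GG β)) := by
      rw [F2, sum_comm, mul_sum, ← hn, ← nsmul_eq_mul, ← card_univ, ← sum_const]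
      exact sum_le_sum fun b _ => by
        have := w1.lower w2 b
        simp only [Matrix.sub_apply]; linarith
    have a2 : N1 (W - J α β) ^ 2 ≤ n ^ 2 * F2 (W - J α β) := by
      have := sq_sum_le_card_mul_sum_sq (s := univ ×ˢ univ)
        (f := fun p : ι × ι => |(W - J α β) p.1 p.2|)
      rw [card_product, card_univ, Nat.cast_mul, hn, ← pow_two n] at this
      simpa only [sum_product, sq_abs] using! this
    nlinarith [mul_le_mul_of_nonneg_left a2 G0.le, mul_le_mul_of_nonneg_left a1 (sq_nonneg n)]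
  have t6 : L * N1 (W - J α β) ^ 3 ≤ W.permanent - GG β := by
    rw [lt_div_iff₀ (by positivity)] at c3
    have η0 := N1_nn (W - J α β)
    generalize N1 (W - J α β) = η at *
    have : 4 * n ^ 3 * L * η ≤ GG β := by
      nlinarith [mul_le_mul_of_nonneg_left η1 (show 0 ≤ 4 * n ^ 3 * L by positivity)]
    have := mul_le_mul_of_nonneg_right this (sq_nonneg η)
    exact le_of_mul_le_mul_left (a := 4 * n ^ 3) (by nlinarith) (by positivity)
  have h1 := (d.pow k).lip ((d.pow k).mul (ds_J β))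
  have h2 := w1.lip d
  rw [N1_comm, w3] at h2
  rw [hL] at h1 h2
  nlinarith [mul_le_mul_of_nonneg_left t4 L0.le]

theorem foregger [Nonempty ι] : ∃ k1, ∀ A : Matrix ι ι ℝ, DS A → ∀ k ≥ k1,
    (A ^ k).permanent ≤ A.permanent := by
  have loc : ∀ A : Matrix ι ι ℝ, DS A →
      ∃ k1, ∀ᶠ B in 𝓝 A, DS B → ∀ k ≥ k1, (B ^ k).permanent ≤ B.permanent := fun A h => by
    obtain ⟨α, β, R, r1, -, r2, hs, hj⟩ := h.struct
    by_cases c : GG β < A.permanent
    · exact loc_lt c hj
    obtain rfl : A = J α β := Matrix.ext fun a b => by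
      have := (h.lower hs b).trans (not_lt.1 c)
      have p : 0 ≤ ∑ a, (A a b - J α β a b) ^ 2 := by positivity
      have := (sum_eq_zero_iff_of_nonneg fun _ _ => sq_nonneg _).1 (p.antisymm' (by
        nlinarith [GG_pos β])) a (mem_univ a)
      exact sub_eq_zero.1 (pow_eq_zero_iff two_ne_zero |>.1 this)
    exact loc_eq h r1 r2
  refine ds_compact.induction_on (p := fun s => ∃ k1, ∀ A ∈ s, DS A → ∀ k ≥ k1,
    (A ^ k).permanent ≤ A.permanent) ⟨0, by simp⟩ (fun s t h ⟨k, hk⟩ => ⟨k, fun A a => hk A (h a)⟩)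
    (fun s t ⟨k, hk⟩ ⟨l, hl⟩ => ⟨max k l, fun A a d j hj => a.elim
      (fun a => hk A a d j (le_of_max_le_left hj)) fun a => hl A a d j (le_of_max_le_right hj)⟩)
    (fun A h => (loc A h).elim fun k hk => ⟨_, mem_nhdsWithin_of_mem_nhds hk, k, fun _ a => a⟩)
    |>.imp fun k hk A h => hk A h h

end Pool.Agent.H89.FG
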