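import Mathlib

set_option autoImplicit false
open Set Topology Filter

namespace Pool.Agent.H89.FP

theorem rec_seq {α : Type} (P : ℕ → α → Prop) (r : ℕ → α → ℕ → α → Prop)
    (h : ∀ (j : ℕ) (g : Fin j → α), ∃ y, P j y ∧ ∀ i : Fin j, r i (g i) j y) :
    ∃ s : ℕ → α, (∀ j, P j (s j)) ∧ ∀ i j, i < j → r i (s i) j (s j) := by
  choose c h1 h2 using h
  let s : ℕ → α := fun j => Nat.strongRec (motive := fun _ => α)
    (fun j ih => c j fun i => ih i i.2) j
  have hs : ∀ j, s j = c j fun i => s i := fun j => by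
    simp only [s]
    rw [Nat.strongRec_eq]
  refine ⟨s, fun j => by rw [hs]; exact h1 _ _, fun i j hij => ?_⟩
  have := h2 j (fun i => s i) ⟨i, hij⟩
  rwa [← hs] at this

theorem floor_close {x y η : ℝ} (hη : 0 < η) (h : ⌊x / η⌋ = ⌊y / η⌋) : |x - y| ≤ η := by
  have a1 := Int.abs_sub_lt_one_of_floor_eq_floor h
  rw [← sub_div, abs_div, abs_of_pos hη, div_lt_one hη] at a1
  exact a1.le

open Classical in
/-- Selection of pairs of indices making a matrix almost diagonal. -/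
theorem sel (u : ℕ → ℕ → ℝ) (B : ℕ → Finset ℕ) (η : ℕ → ℝ) (p σ : ℕ → ℕ) (hη : ∀ j, 0 < η j)
    (hu : ∀ j i k, |u i k| ≤ p j * η j)
    (hσ : ∀ j k, ((B j).filter fun i => η j < |u i k|).card ≤ σ j)
    (hB : ∀ j, (2 * p j + 1) ^ j * (σ j + 1) + 2 * j * (σ j + 1) < (B j).card) :
    ∃ a b : ℕ → ℕ, (∀ j, a j ∈ B j ∧ b j ∈ B j ∧ |u (a j) (b j)| ≤ η j) ∧
      Function.Injective a ∧ Function.Injective b ∧
      ∀ i j, i < j → |u (a i) (a j) - u (a i) (b j)| ≤ η j ∧ |u (a j) (a i)| ≤ η j ∧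
        |u (a j) (b i)| ≤ η j := by
  obtain ⟨s, h1, h2⟩ := rec_seq (α := ℕ × ℕ)
    (fun j q => q.1 ∈ B j ∧ q.2 ∈ B j ∧ |u q.1 q.2| ≤ η j)
    (fun _ q j q' => q.1 ≠ q'.1 ∧ q.2 ≠ q'.2 ∧ |u q.1 q'.1 - u q.1 q'.2| ≤ η j ∧
      |u q'.1 q.1| ≤ η j ∧ |u q'.1 q.2| ≤ η j) (fun j g => by
      let bad : ℕ → Finset ℕ := fun k => insert k ((B j).filter fun i => η j < |u i k|)
      have hbad : ∀ k, (bad k).card ≤ σ j + 1 := fun k =>
        (Finset.card_insert_le _ _).trans (Nat.succ_le_succ (hσ j k))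
      let D : Finset ℕ := Finset.univ.biUnion fun i : Fin j => bad (g i).1 ∪ bad (g i).2
      have hD : D.card ≤ 2 * j * (σ j + 1) := by
        refine (Finset.card_biUnion_le_card_mul _ _ (2 * (σ j + 1)) fun i _ => ?_).trans ?_
        · refine (Finset.card_union_le _ _).trans ?_
          have := hbad (g i).1
          have := hbad (g i).2
          omega
        · simp only [Finset.card_univ, Fintype.card_fin]
          exact le_of_eq (by ring)
      have hC : (2 * p j + 1) ^ j * (σ j + 1) < (B j \ D).card := by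
        have := Finset.le_card_sdiff D (B j)
        have := hB j
        omega
      obtain ⟨y, -, hy⟩ := Finset.exists_lt_card_fiber_of_mul_lt_card_of_maps_to
        (s := B j \ D) (t := Fintype.piFinset fun _ : Fin j => Finset.Icc (-(p j : ℤ)) (p j))
        (f := fun k i => ⌊u (g i).1 k / η j⌋) (n := σ j + 1) (fun k _ => by
          rw [Fintype.mem_piFinset]
          intro i
          have a1 := abs_le.1 (hu j (g i).1 k)
          rw [Finset.mem_Icc, Int.le_floor]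
          refine ⟨?_, ?_⟩
          · rw [le_div_iff₀ (hη j)]
            push_cast
            linarith [a1.1]
          · have : u (g i).1 k / η j ≤ (p j : ℤ) := by
              rw [div_le_iff₀ (hη j)]
              push_cast
              exact a1.2
            exact (Int.floor_le_floor this).trans (by simp)) (by
          rw [Fintype.card_piFinset]
          simp only [Int.card_Icc, Finset.prod_const, Finset.card_univ, Fintype.card_fin]
          have : ((p j : ℤ) + 1 - -(p j : ℤ)).toNat = 2 * p j + 1 := by omega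
          rwa [this])
      obtain ⟨b, hb⟩ := Finset.card_pos.1 (lt_of_le_of_lt (Nat.zero_le _) hy)
      obtain ⟨a, ha, hab⟩ := Finset.exists_mem_notMem_of_card_lt_card ((hbad b).trans_lt hy)
      simp only [Finset.mem_filter, Finset.mem_sdiff, D, bad, Finset.mem_biUnion, Finset.mem_univ,
        true_and, Finset.mem_union, Finset.mem_insert, not_exists, not_or, not_and, not_lt]
        at ha hb hab
      refine ⟨(a, b), ⟨ha.1.1, hb.1.1, hab.2 ha.1.1⟩, fun i =>
        ⟨fun h => (ha.1.2 i).1.1 h.symm, fun h => (hb.1.2 i).2.1 h.symm, ?_,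
          (ha.1.2 i).1.2 ha.1.1, (ha.1.2 i).2.2 ha.1.1⟩⟩
      exact floor_close (hη j) (congrFun (ha.2.trans hb.2.symm) i))
  refine ⟨fun j => (s j).1, fun j => (s j).2, h1, ?_, ?_, fun i j hij => (h2 i j hij).2.2⟩
  · exact Function.Injective.of_lt_imp_ne fun i j hij => (h2 i j hij).1
  · exact Function.Injective.of_lt_imp_ne fun i j hij => (h2 i j hij).2.1

variable {X : Type} [NormedAddCommGroup X] [NormedSpace ℝ X]

theorem norm_le_of_coord {e : ℕ → X} {f : ℕ → X →L[ℝ] ℝ}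
    (hS : ∀ x, Tendsto (fun n => ∑ i ∈ Finset.range n, f i x • e i) atTop (𝓝 x))
    (G : X →L[ℝ] X) {x : X} {c : ℝ} (h : ∀ i, |f i x| * ‖G (e i)‖ ≤ c * (1 / 2) ^ i) :
    ‖G x‖ ≤ 2 * c := by
  have hc : 0 ≤ c := by
    have := h 0
    simp only [pow_zero, mul_one] at this
    exact le_trans (by positivity) this
  refine le_of_tendsto' ((G.continuous.tendsto x).comp (hS x)).norm fun n => ?_
  simp only [Function.comp, map_sum, map_smul]
  refine (norm_sum_le _ _).trans ?_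
  calc ∑ i ∈ Finset.range n, ‖f i x • G (e i)‖ ≤ ∑ i ∈ Finset.range n, c * (1 / 2) ^ i :=
        Finset.sum_le_sum fun i _ => by rw [norm_smul]; exact h i
    _ = c * ∑ i ∈ Finset.range n, (1 / 2 : ℝ) ^ i := by rw [Finset.mul_sum]
    _ ≤ c * 2 := mul_le_mul_of_nonneg_left (sum_geometric_two_le n) hc
    _ = 2 * c := mul_comm _ _

open Classical in
/-- Abstract factorization theorem. -/
theorem factor [CompleteSpace X] {e : ℕ → X} {f : ℕ → X →L[ℝ] ℝ}
    (hS : ∀ x, Tendsto (fun n => ∑ i ∈ Finset.range n, f i x • e i) atTop (𝓝 x))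
    (he : ∀ i, ‖e i‖ ≤ 1) (hf : ∀ i x, |f i x| ≤ ‖x‖)
    (hbi : ∀ i j, f i (e j) = if i = j then 1 else 0)
    (U : X →L[ℝ] X) {δ : ℝ} (hδ : 0 < δ) (hU : ∀ n, δ ≤ |f n (U (e n))|) (c : ℕ)
    (hc : 16 * ‖U‖ ≤ c * δ) (B : ℕ → Finset ℕ) (σ : ℕ → ℕ)
    (hσ : ∀ j (y : X) (η : ℝ), 0 < η → ‖y‖ ≤ (c * 4 ^ j : ℕ) * η →
      ((B j).filter fun i => η < |f i y|).card ≤ σ j)
    (hB : ∀ j, (2 * (c * 4 ^ j) + 1) ^ j * (σ j + 1) + 2 * j * (σ j + 1) < (B j).card)
    (hR : ∀ a : ℕ → ℕ, (∀ j, a j ∈ B j) → Function.Injective a →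
      ∃ R : X →L[ℝ] X, ∀ j, R (e j) = e (a j))
    (hS' : ∀ (a : ℕ → ℕ) (d : ℕ → ℝ), (∀ j, a j ∈ B j) → Function.Injective a →
      (∀ j, |d j| ≤ δ⁻¹) → ∃ S : X →L[ℝ] X, ∀ j y, f j (S y) = d j * f (a j) y) :
    ∃ R S : X →L[ℝ] X, S ∘L U ∘L R = ContinuousLinearMap.id ℝ X := by
  let η : ℕ → ℝ := fun j => δ / 16 / 4 ^ j
  have hη : ∀ j, 0 < η j := fun j => by positivity
  have hM : ∀ j k, ‖U (e k)‖ ≤ (c * 4 ^ j : ℕ) * η j := by
    intro j k
    have : ((c * 4 ^ j : ℕ) : ℝ) * η j = c * δ / 16 := by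
      simp only [η]; push_cast; field_simp
    rw [this]
    have := (U.le_opNorm (e k)).trans (mul_le_of_le_one_right (norm_nonneg _) (he k))
    linarith
  obtain ⟨a, b, h1, ha, hb, h2⟩ := sel (fun i k => f i (U (e k))) B η (fun j => c * 4 ^ j) σ hη
    (fun j i k => (hf _ _).trans (hM j k)) (fun j k => hσ j _ _ (hη j) (hM j k)) hB
  obtain ⟨Ra, hRa⟩ := hR a (fun j => (h1 j).1) ha
  obtain ⟨Rb, hRb⟩ := hR b (fun j => (h1 j).2.1) hb
  have hd : ∀ j, |(f (a j) (U (e (a j))))⁻¹| ≤ δ⁻¹ := fun j => by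
    rw [abs_inv]; exact inv_anti₀ hδ (hU _)
  obtain ⟨S, hS2⟩ := hS' a (fun j => (f (a j) (U (e (a j))))⁻¹) (fun j => (h1 j).1) ha hd
  let G : X →L[ℝ] X := 1 - S ∘L U ∘L (Ra - Rb)
  have hG1 : ∀ i j, |f i (G (e j))| ≤ (1 / 8 * (1 / 2) ^ j) * (1 / 2) ^ i := by
    intro i j
    have e1 : f i (G (e j)) = (if i = j then 1 else 0) - (f (a i) (U (e (a i))))⁻¹ *
        (f (a i) (U (e (a j))) - f (a i) (U (e (b j)))) := by
      simp [G, hS2, hRa, hRb, hbi, mul_sub]
    have e2 : ∀ (m : ℕ) (t : ℝ), i ≤ m → j ≤ m → |t| ≤ 2 * η m →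
        |(f (a i) (U (e (a i))))⁻¹ * t| ≤ (1 / 8 * (1 / 2) ^ j) * (1 / 2) ^ i := by
      intro m t hi hj ht
      rw [abs_mul]
      calc _ ≤ δ⁻¹ * (2 * η m) := mul_le_mul (hd i) ht (abs_nonneg _) (by positivity)
        _ = (1 / 8 * (1 / 2) ^ m) * (1 / 2) ^ m := by
          simp only [η]
          rw [show (4 : ℝ) = 2 * 2 by norm_num, mul_pow, one_div_pow]
          field_simp
          norm_num
        _ ≤ _ := by
          gcongr (1 / 8 * ?_) * ?_
          · exact pow_le_pow_of_le_one (by norm_num) (by norm_num) hj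
          · exact pow_le_pow_of_le_one (by norm_num) (by norm_num) hi
    rw [e1]
    rcases lt_trichotomy i j with h | rfl | h
    · rw [if_neg h.ne, zero_sub, abs_neg]
      exact e2 j _ h.le le_rfl ((h2 i j h).1.trans (by linarith [hη j]))
    · have h0 : f (a i) (U (e (a i))) ≠ 0 := abs_pos.1 (hδ.trans_le (hU _))
      rw [if_pos rfl, mul_sub, inv_mul_cancel₀ h0, sub_sub_cancel]
      exact e2 i _ le_rfl le_rfl ((h1 i).2.2.trans (by linarith [hη i]))
    · rw [if_neg h.ne', zero_sub, abs_neg]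
      exact e2 i _ le_rfl h.le ((abs_sub _ _).trans (by linarith [(h2 j i h).2.1, (h2 j i h).2.2]))
  have hG2 : ∀ j, ‖G (e j)‖ ≤ 2 * (1 / 8 * (1 / 2) ^ j) := fun j =>
    norm_le_of_coord hS (ContinuousLinearMap.id ℝ X) (x := G (e j)) fun i =>
      (mul_le_of_le_one_right (abs_nonneg _) (he i)).trans (hG1 i j)
  have hG3 : ‖G‖ < 1 := by
    refine lt_of_le_of_lt (G.opNorm_le_bound (M := 1 / 2) (by norm_num) fun x => ?_) (by norm_num)
    refine (norm_le_of_coord hS G (c := ‖x‖ / 4) fun i => ?_).trans (le_of_eq (by ring))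
    exact (mul_le_mul (hf i x) (hG2 i) (norm_nonneg _) (norm_nonneg _)).trans (le_of_eq (by ring))
  refine ⟨Ra - Rb, (↑(Units.oneSub G hG3)⁻¹ : X →L[ℝ] X) ∘L S, ?_⟩
  have := (Units.oneSub G hG3).inv_mul
  rw [Units.val_oneSub] at this
  simp only [G, sub_sub_cancel] at this
  exact this

/-- Extension from finitely supported vectors. -/
theorem ext_op [CompleteSpace X] {e : ℕ → X}
    (hd : DenseRange (Finsupp.linearCombination ℝ e)) (T : (ℕ →₀ ℝ) →ₗ[ℝ] X) {C : ℝ} (hC : 0 ≤ C)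
    (h : ∀ x, ‖T x‖ ≤ C * ‖Finsupp.linearCombination ℝ e x‖) :
    ∃ S : X →L[ℝ] X, ‖S‖ ≤ C ∧ ∀ x, S (Finsupp.linearCombination ℝ e x) = T x :=
  ⟨T.extendOfNorm _, LinearMap.opNorm_extendOfNorm_le hd hC h,
    LinearMap.extendOfNorm_eq hd ⟨C, h⟩⟩

theorem coord_lc {e : ℕ → X} {f : ℕ → X →L[ℝ] ℝ}
    (hbi : ∀ i j, f i (e j) = if i = j then 1 else 0) (x : ℕ →₀ ℝ) (i : ℕ) :
    f i (Finsupp.linearCombination ℝ e x) = x i := by
  induction x using Finsupp.induction_linear with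
  | zero => simp
  | add x y hx hy => simp [hx, hy]
  | single a b => simp [hbi, Finsupp.single_apply, eq_comm]

/-- Expansion from uniformly bounded partial sums. -/
theorem schauder {e : ℕ → X} {f : ℕ → X →L[ℝ] ℝ}
    (hd : DenseRange (Finsupp.linearCombination ℝ e))
    (hbi : ∀ i j, f i (e j) = if i = j then 1 else 0)
    (hP : ∀ n x, ‖∑ i ∈ Finset.range n, f i x • e i‖ ≤ ‖x‖) (x : X) :
    Tendsto (fun n => ∑ i ∈ Finset.range n, f i x • e i) atTop (𝓝 x) := by
  rw [Metric.tendsto_atTop]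
  intro ε hε
  obtain ⟨y, hy⟩ := hd.exists_dist_lt x (show 0 < ε / 2 by positivity)
  refine ⟨y.support.sup id + 1, fun n hn => ?_⟩
  have e1 : ∑ i ∈ Finset.range n, f i (Finsupp.linearCombination ℝ e y) • e i =
      Finsupp.linearCombination ℝ e y := by
    simp only [coord_lc hbi]
    rw [Finsupp.linearCombination_apply, Finsupp.sum_of_support_subset (s := Finset.range n)]
    · intro i hi
      have := Finset.le_sup (f := id) hi
      simp only [id] at this
      rw [Finset.mem_range]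
      omega
    · simp
  have e2 := hP n (x - Finsupp.linearCombination ℝ e y)
  simp only [map_sub, sub_smul, Finset.sum_sub_distrib, e1] at e2
  rw [← dist_eq_norm, ← dist_eq_norm] at e2
  have := dist_triangle (∑ i ∈ Finset.range n, f i x • e i) (Finsupp.linearCombination ℝ e y) x
  rw [dist_comm (Finsupp.linearCombination ℝ e y) x] at this
  linarith

end Pool.Agent.H89.FP
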