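import Pool.Agent.H89.FP1

set_option autoImplicit false
open Set Topology Filter
open scoped ENNReal

namespace Pool.Agent.H89.FP

/-- The sequence space normed by a set of finitely supported functionals. -/
theorem space (Λ : Set (ℕ →₀ ℝ)) (h1 : ∀ l ∈ Λ, ∀ i, |l i| ≤ 1)
    (h2 : ∀ i, Finsupp.single i (1 : ℝ) ∈ Λ) :
    ∃ (X : Type) (_ : NormedAddCommGroup X) (_ : NormedSpace ℝ X) (_ : CompleteSpace X)
      (e : ℕ → X) (f : ℕ → X →L[ℝ] ℝ), DenseRange (Finsupp.linearCombination ℝ e) ∧
      (∀ i j, f i (e j) = if i = j then 1 else 0) ∧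
      (∀ l ∈ Λ, ∀ y, |l.sum fun i c => c * f i y| ≤ ‖y‖) ∧
      ∀ y C, 0 ≤ C → (∀ l ∈ Λ, |l.sum fun i c => c * f i y| ≤ C) → ‖y‖ ≤ C := by
  let e0 : ℕ → lp (fun _ : Λ => ℝ) ∞ := fun i => ⟨fun l => l.1 i,
    memℓp_infty ⟨1, by rintro _ ⟨l, rfl⟩; exact h1 l.1 l.2 i⟩⟩
  let V := (LinearMap.range (Finsupp.linearCombination ℝ e0)).topologicalClosure
  let e : ℕ → V := fun i => ⟨e0 i, Submodule.le_topologicalClosure _
    ⟨Finsupp.single i 1, by simp⟩⟩
  let ev : Λ → V →L[ℝ] ℝ := fun l => (lp.evalCLM ℝ (fun _ : Λ => ℝ) ∞ l).comp V.subtypeL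
  have hev : ∀ l i, ev l (e i) = l.1 i := fun l i => rfl
  have hev' : ∀ l (y : V), ev l y = y.1 l := fun l y => rfl
  have hlc : ∀ x, ((Finsupp.linearCombination ℝ e x : V) : lp (fun _ : Λ => ℝ) ∞) =
      Finsupp.linearCombination ℝ e0 x := by
    intro x
    induction x using Finsupp.induction_linear with
    | zero => simp
    | add x y hx hy => simp [hx, hy]
    | single a b => simp [e]
  have hd : DenseRange (Finsupp.linearCombination ℝ e) := by
    intro y
    rw [Metric.mem_closure_iff]
    intro ε hε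
    obtain ⟨_, ⟨x, rfl⟩, hx⟩ := Metric.mem_closure_iff.1 y.2 ε hε
    refine ⟨_, ⟨x, rfl⟩, ?_⟩
    rw [Subtype.dist_eq, hlc]
    exact hx
  let f : ℕ → V →L[ℝ] ℝ := fun i => ev ⟨_, h2 i⟩
  have hbi : ∀ i j, f i (e j) = if i = j then 1 else 0 := fun i j => by
    simp only [f, hev, Finsupp.single_apply]
  have key : ∀ (l : Λ) (y : V), (l.1.sum fun i c => c * f i y) = y.1 l := by
    intro l y
    rw [← hev']
    refine hd.induction_on y (isClosed_eq ?_ (ev l).continuous) fun x => ?_
    · exact continuous_finset_sum _ fun i _ => continuous_const.mul (f i).continuous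
    · simp only [coord_lc hbi]
      induction x using Finsupp.induction_linear with
      | zero => simp
      | add x y hx hy => simp [mul_add, ← hx, ← hy]
      | single a b =>
        simp only [Finsupp.linearCombination_single, map_smul, hev, smul_eq_mul]
        rw [Finsupp.sum, Finset.sum_eq_single a]
        · simp [mul_comm]
        · intro i _ hi
          simp [hi]
        · intro ha
          simp [Finsupp.notMem_support_iff.1 ha]
  refine ⟨V, inferInstance, inferInstance,
    (Submodule.isClosed_topologicalClosure _).completeSpace_coe, e, f, hd, hbi, fun l hl y => ?_,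
    fun y C hC h => ?_⟩
  · rw [key ⟨l, hl⟩]
    exact lp.norm_apply_le_norm ENNReal.top_ne_zero y.1 ⟨l, hl⟩
  · refine lp.norm_le_of_forall_le hC fun l => ?_
    have := h l.1 l.2
    rw [key] at this
    exact this

end Pool.Agent.H89.FP
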