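import Pool.Agent.H89.FP2

set_option autoImplicit false
open Set Topology Filter

namespace Pool.Agent.H89.FP

/-- The norm is the supremum of weighted Euclidean seminorms. -/
structure WS (W : Set (ℕ → ℝ)) {X : Type} [NormedAddCommGroup X] [NormedSpace ℝ X]
    (e : ℕ → X) (f : ℕ → X →L[ℝ] ℝ) : Prop where
  hd : DenseRange (Finsupp.linearCombination ℝ e)
  hbi : ∀ i j, f i (e j) = if i = j then 1 else 0
  hL : ∀ w ∈ W, ∀ (F : Finset ℕ) y, ∑ i ∈ F, (w i * f i y) ^ 2 ≤ ‖y‖ ^ 2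
  hU : ∀ y C, 0 ≤ C → (∀ w ∈ W, ∀ F : Finset ℕ, ∑ i ∈ F, (w i * f i y) ^ 2 ≤ C ^ 2) → ‖y‖ ≤ C

theorem space2 (W : Set (ℕ → ℝ)) (h1 : ∀ w ∈ W, ∀ i, 0 ≤ w i ∧ w i ≤ 1)
    (h2 : ∀ i, (fun k => if k = i then (1 : ℝ) else 0) ∈ W) :
    ∃ (X : Type) (_ : NormedAddCommGroup X) (_ : NormedSpace ℝ X) (_ : CompleteSpace X)
      (e : ℕ → X) (f : ℕ → X →L[ℝ] ℝ), WS W e f := by
  classical
  obtain ⟨X, i1, i2, i3, e, f, hd, hbi, hL, hU⟩ := space
    {l | ∃ w ∈ W, ∃ g : ℕ → ℝ, (∀ i, l i = w i * g i) ∧ ∑ i ∈ l.support, g i ^ 2 ≤ 1}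
    (by
      rintro l ⟨w, hw, g, e1, e2⟩ i
      by_cases hi : i ∈ l.support
      · have := (Finset.single_le_sum (f := fun i => g i ^ 2) (fun _ _ => sq_nonneg _) hi).trans e2
        rw [e1, abs_mul, abs_of_nonneg (h1 w hw i).1]
        exact mul_le_one₀ (h1 w hw i).2 (abs_nonneg _) ((sq_le_one_iff_abs_le_one _).1 this)
      · simp [Finsupp.notMem_support_iff.1 hi])
    (fun i => ⟨_, h2 i, fun k => if k = i then 1 else 0, fun k => by
      by_cases h : k = i <;> simp [h, Finsupp.single_apply, eq_comm], by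
      simp [Finsupp.support_single_ne_zero]⟩)
  refine ⟨X, i1, i2, i3, e, f, hd, hbi, fun w hw F y => ?_, fun y C hC h => ?_⟩
  · set Q := ∑ i ∈ F, (w i * f i y) ^ 2 with hQ
    rcases (show 0 ≤ Q from Finset.sum_nonneg fun _ _ => sq_nonneg _).eq_or_lt with h0 | h0
    · rw [← h0]; positivity
    have hq : 0 < √Q := Real.sqrt_pos.2 h0
    let g : ℕ → ℝ := fun i => if i ∈ F then w i * f i y / √Q else 0
    let l : ℕ →₀ ℝ := Finsupp.onFinset F (fun i => w i * g i) fun i hi => by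
      by_contra hn
      simp [g, hn] at hi
    have a1 : ∑ i ∈ F, g i ^ 2 = 1 := by
      rw [Finset.sum_congr rfl (g := fun i => (w i * f i y) ^ 2 / Q) fun i hi => by
        simp only [g, if_pos hi, div_pow, Real.sq_sqrt h0.le]]
      rw [← Finset.sum_div, div_self h0.ne']
    have a2 := hL l ⟨w, hw, g, fun i => rfl, by
      rw [← a1]
      exact Finset.sum_le_sum_of_subset_of_nonneg Finsupp.support_onFinset_subset
        fun _ _ _ => sq_nonneg _⟩ y
    rw [Finsupp.onFinset_sum _ (by simp),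
      Finset.sum_congr rfl (g := fun i => (w i * f i y) ^ 2 / √Q) fun i hi => by
        simp only [g, if_pos hi]; ring, ← Finset.sum_div, ← hQ, Real.div_sqrt,
      abs_of_pos hq] at a2
    exact (Real.sqrt_le_left (norm_nonneg _)).1 a2
  · refine hU y C hC ?_
    rintro l ⟨w, hw, g, e1, e2⟩
    refine abs_le_of_sq_le_sq' ?_ hC |> abs_le.2
    have a1 := Finset.sum_mul_sq_le_sq_mul_sq l.support g fun i => w i * f i y
    have a2 := h w hw l.support
    rw [Finsupp.sum, Finset.sum_congr rfl (g := fun i => g i * (w i * f i y)) fun i _ => by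
      rw [e1]; ring]
    refine a1.trans ?_
    calc _ ≤ 1 * C ^ 2 := mul_le_mul e2 a2 (Finset.sum_nonneg fun _ _ => sq_nonneg _) zero_le_one
      _ = _ := one_mul _

variable {W : Set (ℕ → ℝ)} {X : Type} [NormedAddCommGroup X] [NormedSpace ℝ X]
  {e : ℕ → X} {f : ℕ → X →L[ℝ] ℝ}

theorem WS.ext (H : WS W e f) {x y : X} (h : ∀ i, f i x = f i y) : x = y := by
  rw [← sub_eq_zero, ← norm_le_zero_iff]
  exact H.hU _ 0 le_rfl fun w _ F => by simp [h]

theorem WS.op [CompleteSpace X] (H : WS W e f) (π : ℕ → ℕ) (c : ℕ → ℝ)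
    (hinj : InjOn π {i | c i ≠ 0}) {C : ℝ} (hC : 0 ≤ C)
    (h : ∀ w ∈ W, ∃ w' ∈ W, ∀ i, |w i * c i| ≤ C * |w' (π i)|) :
    ∃ T : X →L[ℝ] X, ‖T‖ ≤ C ∧ ∀ i y, f i (T y) = c i * f (π i) y := by
  classical
  have hfin : ∀ x : ℕ →₀ ℝ, (Function.support fun i => c i * x (π i)).Finite := fun x =>
    Set.Finite.of_injOn (f := π) (t := x.support)
      (fun i hi => by simpa using right_ne_zero_of_mul hi)
      (hinj.mono fun i hi => left_ne_zero_of_mul hi) x.support.finite_toSet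
  let T0 : (ℕ →₀ ℝ) →ₗ[ℝ] (ℕ →₀ ℝ) :=
    { toFun := fun x => Finsupp.ofSupportFinite _ (hfin x)
      map_add' := fun x y => by
        ext i; simp [Finsupp.ofSupportFinite_coe, mul_add]
      map_smul' := fun t x => by
        ext i; simp [Finsupp.ofSupportFinite_coe, mul_left_comm] }
  have hT0 : ∀ x i, T0 x i = c i * x (π i) := fun x i => rfl
  obtain ⟨T, h1, h2⟩ := ext_op H.hd (Finsupp.linearCombination ℝ e ∘ₗ T0) hC fun x => by
    refine H.hU _ _ (by positivity) fun w hw F => ?_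
    obtain ⟨w', hw', h3⟩ := h w hw
    have a1 := H.hL w' hw' ((F.filter fun i => c i ≠ 0).image π) (Finsupp.linearCombination ℝ e x)
    rw [Finset.sum_image (s := F.filter fun i => c i ≠ 0) fun i hi j hj hij =>
      hinj (Finset.mem_filter.1 hi).2 (Finset.mem_filter.1 hj).2 hij] at a1
    simp only [LinearMap.comp_apply, coord_lc H.hbi, hT0] at a1 ⊢
    rw [← Finset.sum_filter_of_ne (p := fun i => c i ≠ 0) fun i _ hi hc => by simp [hc] at hi,
      mul_pow]
    refine le_trans ?_ (mul_le_mul_of_nonneg_left a1 (sq_nonneg C))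
    rw [Finset.mul_sum]
    refine Finset.sum_le_sum fun i _ => ?_
    rw [← mul_pow, sq_le_sq, ← mul_assoc, ← mul_assoc, abs_mul (w i * c i),
      abs_mul (C * w' (π i)), abs_mul C, abs_of_nonneg hC]
    exact mul_le_mul_of_nonneg_right (h3 i) (abs_nonneg _)
  refine ⟨T, h1, fun i y => H.hd.induction_on y (isClosed_eq (by fun_prop) (by fun_prop))
    fun x => ?_⟩
  rw [h2, LinearMap.comp_apply, coord_lc H.hbi, coord_lc H.hbi, hT0]

theorem WS.proj [CompleteSpace X] (H : WS W e f) (p : ℕ → Prop) [DecidablePred p] :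
    ∃ T : X →L[ℝ] X, ‖T‖ ≤ 1 ∧ ∀ i y, f i (T y) = if p i then f i y else 0 := by
  obtain ⟨T, h1, h2⟩ := H.op id (fun i => if p i then 1 else 0) (injOn_id _) zero_le_one
    fun w hw => ⟨w, hw, fun i => by by_cases h : p i <;> simp [h]⟩
  exact ⟨T, h1, fun i y => by rw [h2]; by_cases h : p i <;> simp [h]⟩

theorem WS.schauder [CompleteSpace X] (H : WS W e f) (x : X) :
    Tendsto (fun n => ∑ i ∈ Finset.range n, f i x • e i) atTop (𝓝 x) := by
  refine FP.schauder H.hd H.hbi (fun n x => ?_) x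
  obtain ⟨T, h1, h2⟩ := H.proj (· < n)
  have : ∑ i ∈ Finset.range n, f i x • e i = T x := H.ext fun i => by
    simp [h2, H.hbi]
  rw [this]
  exact (T.le_opNorm x).trans (mul_le_of_le_one_left (norm_nonneg _) h1)

theorem WS.coord_le (H : WS W e f) (h2 : ∀ i, (fun k => if k = i then (1 : ℝ) else 0) ∈ W)
    (i : ℕ) (x : X) : |f i x| ≤ ‖x‖ := by
  have := H.hL _ (h2 i) {i} x
  simp only [Finset.sum_singleton, if_true, one_mul] at this
  exact abs_le.2 (abs_le_of_sq_le_sq' this (norm_nonneg _))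

theorem WS.norm_e (H : WS W e f) (h1 : ∀ w ∈ W, ∀ i, 0 ≤ w i ∧ w i ≤ 1)
    (h2 : ∀ i, (fun k => if k = i then (1 : ℝ) else 0) ∈ W) (i : ℕ) : ‖e i‖ = 1 := by
  refine le_antisymm (H.hU _ _ zero_le_one fun w hw F => ?_) ?_
  · simp only [H.hbi, mul_ite, mul_one, mul_zero, ite_pow, ne_eq, OfNat.ofNat_ne_zero,
      not_false_eq_true, zero_pow, Finset.sum_ite_eq', one_pow]
    split_ifs
    · nlinarith [h1 w hw i]
    · exact zero_le_one
  · simpa [H.hbi] using H.coord_le h2 i (e i)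

end Pool.Agent.H89.FP
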