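import Pool.Agent.H89.FP3

set_option autoImplicit false
open Set Topology Filter

namespace Pool.Agent.H89.FP

def gr (x : ℕ) : ℕ :=
  (2 * (x * 4 ^ x) + 1) ^ x * (x + 1) + 2 * x * (x + 1) + 4 ^ x * (x * 4 ^ x) ^ 2

def sq : ℕ → ℕ
  | 0 => 0
  | m + 1 => sq m + gr (sq m + m) + 1

lemma sq_succ (m : ℕ) : sq (m + 1) = sq m + gr (sq m + m) + 1 := rfl

lemma sq_mono : StrictMono sq := strictMono_nat_of_lt_succ fun m => by rw [sq_succ]; omega

def Bl (n : ℕ) : Finset ℕ := Finset.Ico (sq (2 * n)) (sq (2 * n + 2))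

lemma ex_bl (i : ℕ) : ∃ n, i < sq (2 * n + 2) :=
  ⟨i, lt_of_lt_of_le (by omega) (sq_mono.le_apply (x := 2 * i + 2))⟩

def bl (i : ℕ) : ℕ := Nat.find (ex_bl i)

lemma mem_bl (i : ℕ) : i ∈ Bl (bl i) := by
  rw [Bl, Finset.mem_Ico]
  refine ⟨?_, Nat.find_spec (ex_bl i)⟩
  rcases h : bl i with _ | k
  · exact Nat.zero_le _
  · exact not_lt.1 (Nat.find_min (ex_bl i) (m := k) (by rw [bl] at h; omega))

lemma bl_eq {i n m : ℕ} (h : i ∈ Bl n) (h' : i ∈ Bl m) : n = m := by
  simp only [Bl, Finset.mem_Ico] at h h'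
  have a1 := sq_mono.lt_iff_lt.1 (h.1.trans_lt h'.2)
  have a2 := sq_mono.lt_iff_lt.1 (h'.1.trans_lt h.2)
  omega

open Classical in
/-- The admissible weights. -/
def Wt : Set (ℕ → ℝ) := {w | (∀ i, 0 ≤ w i ∧ w i ≤ 1) ∧
  ∀ n t, ((Bl n).filter fun i => (1 / 2 : ℝ) ^ (t + 1) < w i).card ≤ sq (n + t + 1)}

lemma Wt1 : ∀ w ∈ Wt, ∀ i, 0 ≤ w i ∧ w i ≤ 1 := fun _ h => h.1

lemma half_lt {a b : ℕ} (h : (1 / 2 : ℝ) ^ a < (1 / 2) ^ b) : b < a := by
  by_contra hc
  exact absurd h (not_lt.2 (pow_le_pow_of_le_one (by norm_num) (by norm_num) (not_lt.1 hc)))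

lemma flat_mem {n t : ℕ} {A : Finset ℕ} (hA : A ⊆ Bl n) (hc : A.card ≤ sq (n + t + 1)) :
    (fun i => if i ∈ A then (1 / 2 : ℝ) ^ t else 0) ∈ Wt := by
  classical
  refine ⟨fun i => ?_, fun n' t' => ?_⟩
  · dsimp only
    split_ifs
    · exact ⟨by positivity, pow_le_one₀ (by norm_num) (by norm_num)⟩
    · norm_num
  · rcases Finset.eq_empty_or_nonempty ((Bl n').filter fun i =>
      (1 / 2 : ℝ) ^ (t' + 1) < if i ∈ A then (1 / 2 : ℝ) ^ t else 0) with h | ⟨i, hi⟩
    · exact (congrArg Finset.card h).trans_le (Nat.zero_le _)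
    have key : ∀ i, (1 / 2 : ℝ) ^ (t' + 1) < (if i ∈ A then (1 / 2 : ℝ) ^ t else 0) →
        i ∈ A ∧ t ≤ t' := by
      intro i hi
      split_ifs at hi with h
      · exact ⟨h, Nat.lt_succ_iff.1 (half_lt hi)⟩
      · exact absurd hi (not_lt.2 (by positivity))
    rw [Finset.mem_filter] at hi
    obtain rfl := bl_eq hi.1 (hA (key i hi.2).1)
    refine (Finset.card_le_card fun k hk => (key k (Finset.mem_filter.1 hk).2).1).trans
      (hc.trans (sq_mono.monotone ?_))
    have := (key i hi.2).2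
    omega

lemma Wt2 (i : ℕ) : (fun k => if k = i then (1 : ℝ) else 0) ∈ Wt := by
  have := flat_mem (t := 0) (A := {i}) (Finset.singleton_subset_iff.2 (mem_bl i))
    (by rw [Finset.card_singleton]; exact le_trans (by omega) sq_mono.le_apply)
  simpa using this

variable {X : Type} [NormedAddCommGroup X] [NormedSpace ℝ X] [CompleteSpace X]
  {e : ℕ → X} {f : ℕ → X →L[ℝ] ℝ}

theorem fp (H : WS Wt e f) (U : X →L[ℝ] X) {δ : ℝ} (hδ : 0 < δ)
    (hU : ∀ n, δ ≤ |f n (U (e n))|) :
    ∃ R S : X →L[ℝ] X, S ∘L U ∘L R = ContinuousLinearMap.id ℝ X := by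
  classical
  obtain ⟨c, hc⟩ := exists_nat_ge (max 2 (16 * ‖U‖ / δ))
  have hc2 : 2 ≤ c := by exact_mod_cast (le_max_left _ _).trans hc
  have hc3 : 16 * ‖U‖ ≤ c * δ := (div_le_iff₀ hδ).1 ((le_max_right _ _).trans hc)
  have hj : ∀ j, j < sq (2 * bl j + 2) := fun j => Nat.find_spec (ex_bl j)
  refine factor H.schauder (fun i => (H.norm_e Wt1 Wt2 i).le) (H.coord_le Wt2) H.hbi U hδ hU c hc3
    (fun j => Bl (bl j + c)) (fun j => sq (2 * bl j + c + 2)) (fun j y η hη hy => ?_)
    (fun j => ?_) (fun a ha hi => ?_) (fun a d ha hi hd => ?_)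
  · by_contra hn
    obtain ⟨A, hA, hA'⟩ := Finset.exists_subset_card_eq (not_le.1 hn).le
    have a1 := H.hL _ (flat_mem (t := bl j + 1) (hA.trans (Finset.filter_subset _ _))
      (hA'.trans_le (le_of_eq (congrArg sq (by omega))))) A y
    have a2 : (A.card : ℝ) * ((1 / 2) ^ (bl j + 1) * η) ^ 2 ≤ ((c * 4 ^ j : ℕ) * η) ^ 2 := by
      refine le_trans ?_ (a1.trans (pow_le_pow_left₀ (norm_nonneg _) hy 2))
      rw [← nsmul_eq_mul]
      refine Finset.card_nsmul_le_sum _ _ _ fun i hi => ?_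
      rw [if_pos hi, mul_pow, mul_pow]
      refine mul_le_mul_of_nonneg_left ?_ (sq_nonneg _)
      rw [← sq_abs (f i y)]
      exact pow_le_pow_left₀ hη.le (Finset.mem_filter.1 (hA hi)).2.le 2
    have a3 : (A.card : ℝ) ≤ 4 ^ (bl j + 1) * ((c * 4 ^ j : ℕ) : ℝ) ^ 2 := by
      have b1 : ((1 / 2 : ℝ) ^ (bl j + 1)) ^ 2 * 4 ^ (bl j + 1) = 1 := by
        rw [← pow_mul, mul_comm _ 2, pow_mul, ← mul_pow]; norm_num
      rw [mul_pow, mul_pow, ← mul_assoc] at a2
      have b2 := le_of_mul_le_mul_right a2 (by positivity)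
      calc (A.card : ℝ) = A.card * ((1 / 2 : ℝ) ^ (bl j + 1)) ^ 2 * 4 ^ (bl j + 1) := by
            rw [mul_assoc, b1, mul_one]
        _ ≤ _ := by rw [mul_comm (4 ^ _ : ℝ)]; gcongr
    have a4 : A.card ≤ 4 ^ (bl j + 1) * (c * 4 ^ j) ^ 2 := by exact_mod_cast a3
    rw [hA', sq_succ (2 * bl j + c + 1), gr] at a4
    set x := sq (2 * bl j + c + 1) + (2 * bl j + c + 1) with hx
    have b1 : j ≤ x := by
      have := hj j
      have := sq_mono.monotone (show 2 * bl j + 2 ≤ 2 * bl j + c + 1 by omega)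
      omega
    have b2 : 4 ^ (bl j + 1) * (c * 4 ^ j) ^ 2 ≤ 4 ^ x * (x * 4 ^ x) ^ 2 := by
      gcongr <;> omega
    omega
  · have a1 := sq_mono.monotone (show 2 * (bl j + c) + 1 ≤ 2 * (bl j + c) + 2 by omega)
    rw [sq_succ, gr] at a1
    set x := sq (2 * (bl j + c)) + 2 * (bl j + c) with hx
    have b0 := sq_mono.monotone (show 2 * bl j + c + 2 ≤ 2 * (bl j + c) by omega)
    have b1 : j ≤ x := by
      have := hj j
      have := sq_mono.monotone (show 2 * bl j + 2 ≤ 2 * (bl j + c) by omega)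
      omega
    have b2 : (2 * (c * 4 ^ j) + 1) ^ j * (sq (2 * bl j + c + 2) + 1) ≤
        (2 * (x * 4 ^ x) + 1) ^ x * (x + 1) := by
      refine Nat.mul_le_mul ((Nat.pow_le_pow_left ?_ _).trans
        (Nat.pow_le_pow_right (by omega) b1)) (by omega)
      gcongr <;> omega
    have b3 : 2 * j * (sq (2 * bl j + c + 2) + 1) ≤ 2 * x * (x + 1) := by
      gcongr; omega
    rw [Bl, Nat.card_Ico]
    omega
  · obtain ⟨R, -, hR⟩ := H.op (Function.invFun a) (fun i => if i ∈ range a then 1 else 0)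
      (by
        intro i hi' k hk hik
        simp only [mem_setOf, ne_eq, ite_eq_right_iff, one_ne_zero, imp_false, not_not] at hi' hk
        obtain ⟨i, rfl⟩ := hi'
        obtain ⟨k, rfl⟩ := hk
        rw [Function.leftInverse_invFun hi, Function.leftInverse_invFun hi] at hik
        rw [hik]) (C := 2 ^ c) (by positivity) fun w hw => by
        have hp : (1 : ℝ) ≤ 2 ^ c := one_le_pow₀ one_le_two
        refine ⟨fun j => w (a j) / 2 ^ c, ⟨fun j => ⟨div_nonneg (hw.1 _).1 (by positivity),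
          div_le_one_of_le₀ ((hw.1 _).2.trans hp) (by positivity)⟩, fun n t => ?_⟩, fun i => ?_⟩
        · have key : ∀ j, (1 / 2 : ℝ) ^ (t + 1) < w (a j) / 2 ^ c →
              c ≤ t ∧ (1 / 2 : ℝ) ^ (t - c + 1) < w (a j) := by
            intro j h
            have h1 : c ≤ t := Nat.lt_succ_iff.1 (half_lt (h.trans_le (by
              rw [one_div_pow]; gcongr; exact (hw.1 _).2)))
            refine ⟨h1, ?_⟩
            rw [lt_div_iff₀ (by positivity), show t + 1 = t - c + 1 + c by omega, pow_add,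
              mul_assoc, ← mul_pow] at h
            simpa using h
          by_cases h1 : c ≤ t
          · refine le_trans (Finset.card_le_card_of_injOn a (fun j hj' => ?_) hi.injOn)
              ((hw.2 (n + c) (t - c)).trans (le_of_eq (congrArg sq (by omega))))
            simp only [Finset.coe_filter, mem_setOf] at hj' ⊢
            exact ⟨bl_eq (mem_bl j) hj'.1 ▸ ha j, (key j hj'.2).2⟩
          · rw [Finset.filter_false_of_mem fun j _ h => h1 (key j h).1]
            exact Nat.zero_le _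
        · split_ifs with h
          · obtain ⟨i, rfl⟩ := h
            simp only [Function.leftInverse_invFun hi i, mul_one, abs_div]
            rw [abs_of_pos (a := (2 : ℝ) ^ c) (by positivity)]
            exact le_of_eq (by field_simp)
          · simp only [mul_zero, abs_zero]
            positivity
    refine ⟨R, fun j => H.ext fun i => ?_⟩
    rw [hR, H.hbi, H.hbi]
    by_cases h : i ∈ range a
    · obtain ⟨i, rfl⟩ := h
      simp [Function.leftInverse_invFun hi i, hi.eq_iff]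
    · rw [if_neg h, zero_mul, if_neg fun h' => h ⟨j, h'.symm⟩]
  · obtain ⟨S, -, hS⟩ := H.op a d hi.injOn (C := δ⁻¹) (by positivity) fun w hw => by
      refine ⟨Function.extend a w 0, ⟨fun i => ?_, fun n t => ?_⟩, fun i => ?_⟩
      · by_cases h : ∃ j, a j = i
        · obtain ⟨j, rfl⟩ := h
          rw [hi.extend_apply]
          exact hw.1 j
        · rw [Function.extend_apply' _ _ _ h]
          simp
      · refine le_trans (Finset.card_le_card (t := ((Bl (n - c)).filter fun i =>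
          (1 / 2 : ℝ) ^ (t + 1) < w i).image a) fun i hi' => ?_)
          (Finset.card_image_le.trans ((hw.2 (n - c) t).trans (sq_mono.monotone (by omega))))
        rw [Finset.mem_filter] at hi'
        by_cases h : ∃ j, a j = i
        · obtain ⟨j, rfl⟩ := h
          rw [hi.extend_apply] at hi'
          refine Finset.mem_image_of_mem _ (Finset.mem_filter.2 ⟨?_, hi'.2⟩)
          rw [← bl_eq (ha j) hi'.1, Nat.add_sub_cancel]
          exact mem_bl j
        · rw [Function.extend_apply' _ _ _ h] at hi'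
          exact absurd hi'.2 (not_lt.2 (by simp))
      · rw [hi.extend_apply, abs_mul, mul_comm]
        exact mul_le_mul_of_nonneg_right (hd i) (abs_nonneg _)
    exact ⟨S, hS⟩

end Pool.Agent.H89.FP
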