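import Pool.Agent.H89.FP4

set_option autoImplicit false
open Set Topology Filter

namespace Pool.Agent.H89.FP

lemma pair_ex (u v : ℝ) :
    ∃ a b : ℝ, |a| ≤ 1 ∧ |b| ≤ 1 ∧ (a = 1 ∨ b = 1) ∧ a * u + b * v = 0 := by
  have key : ∀ u v : ℝ, |u| ≤ |v| → ∃ b : ℝ, |b| ≤ 1 ∧ u + b * v = 0 := by
    intro u v h
    by_cases hv : v = 0
    · subst hv
      exact ⟨0, by simp, by simpa using h⟩
    · exact ⟨-u / v, by rw [abs_div, abs_neg]; exact div_le_one_of_le₀ h (abs_nonneg _),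
        by field_simp; ring⟩
  rcases le_total |u| |v| with h | h
  · obtain ⟨b, h1, h2⟩ := key u v h
    exact ⟨1, b, by simp, h1, Or.inl rfl, by linarith⟩
  · obtain ⟨b, h1, h2⟩ := key v u h
    exact ⟨b, 1, h1, by simp, Or.inr rfl, by linarith⟩

lemma head_sum {w : ℕ → ℝ} (hw : w ∈ Wt) (t : ℕ) {A : Finset ℕ} (hA : A ⊆ Bl (t + 1)) :
    ∑ i ∈ A, w i ^ 2 ≤ sq (2 * (t + 1)) + A.card * (1 / 4) ^ (t + 1) := by
  classical
  rw [← Finset.sum_filter_add_sum_filter_not A fun i => (1 / 2 : ℝ) ^ (t + 1) < w i]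
  refine add_le_add ?_ ?_
  · refine (Finset.sum_le_card_nsmul _ _ 1 fun i _ => ?_).trans ?_
    · nlinarith [hw.1 i]
    · rw [nsmul_eq_mul, mul_one, Nat.cast_le]
      exact (Finset.card_le_card (Finset.filter_subset_filter _ hA)).trans
        ((hw.2 (t + 1) t).trans (le_of_eq (congrArg sq (by omega))))
  · refine (Finset.sum_le_card_nsmul _ _ ((1 / 4) ^ (t + 1)) fun i hi => ?_).trans ?_
    · have := not_lt.1 (Finset.mem_filter.1 hi).2
      calc w i ^ 2 ≤ ((1 / 2 : ℝ) ^ (t + 1)) ^ 2 := pow_le_pow_left₀ (hw.1 i).1 this 2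
        _ = _ := by rw [← pow_mul, mul_comm, pow_mul]; norm_num
    · rw [nsmul_eq_mul]
      gcongr
      exact Finset.filter_subset _ _

lemma tail_mem {m : ℕ} [NeZero m] (w : Fin m → ℕ → ℝ) (hw : ∀ k, w k ∈ Wt) :
    (fun i => if sq (2 * m) ≤ i then (⨆ k, w k i) / 2 else 0) ∈ Wt := by
  classical
  have a1 : ∀ i, 0 ≤ ⨆ k, w k i := fun i => Real.iSup_nonneg fun k => ((hw k).1 i).1
  have a2 : ∀ i, ⨆ k, w k i ≤ 1 := fun i => Real.iSup_le (fun k => ((hw k).1 i).2) zero_le_one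
  refine ⟨fun i => ?_, fun n t => ?_⟩
  · dsimp only
    split_ifs
    · constructor <;> linarith [a1 i, a2 i]
    · norm_num
  have key : ∀ i, (1 / 2 : ℝ) ^ (t + 1) < (if sq (2 * m) ≤ i then (⨆ k, w k i) / 2 else 0) →
      sq (2 * m) ≤ i ∧ (1 / 2 : ℝ) ^ t < ⨆ k, w k i := by
    intro i hi
    split_ifs at hi with h
    · exact ⟨h, by rw [pow_succ] at hi; linarith⟩
    · exact absurd hi (not_lt.2 (by positivity))
  rcases t with _ | t
  · rw [Finset.filter_false_of_mem fun i _ h => absurd (key i h).2 (not_lt.2 (by simpa using a2 i))]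
    exact Nat.zero_le _
  by_cases hn : m ≤ n
  · refine le_trans (Finset.card_le_card (t := Finset.univ.biUnion fun k : Fin m =>
      (Bl n).filter fun i => (1 / 2 : ℝ) ^ (t + 1) < w k i) fun i hi => ?_) ?_
    · rw [Finset.mem_filter] at hi
      obtain ⟨k, hk⟩ := exists_lt_of_lt_ciSup (key i hi.2).2
      exact Finset.mem_biUnion.2 ⟨k, Finset.mem_univ _, Finset.mem_filter.2 ⟨hi.1, hk⟩⟩
    · refine (Finset.card_biUnion_le_card_mul _ _ _ fun k _ => (hw k).2 n t).trans ?_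
      rw [Finset.card_univ, Fintype.card_fin, show n + (t + 1) + 1 = n + t + 1 + 1 by omega,
        sq_succ (n + t + 1), gr]
      set x := sq (n + t + 1) + (n + t + 1) with hx
      have : m * sq (n + t + 1) ≤ 2 * x * (x + 1) := Nat.mul_le_mul (by omega) (by omega)
      omega
  · rw [Finset.filter_false_of_mem fun i hi h => ?_]
    · exact Nat.zero_le _
    · have := (key i h).1
      have := sq_mono.monotone (show 2 * n + 2 ≤ 2 * m by omega)
      have := (Finset.mem_Ico.1 hi).2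
      omega

variable {X : Type} [NormedAddCommGroup X] [NormedSpace ℝ X] [CompleteSpace X]
  {e : ℕ → X} {f : ℕ → X →L[ℝ] ℝ}

theorem nu (H : WS Wt e f) (K : ℝ) : ∃ U : X →L[ℝ] X, (∀ n, f n (U (e n)) = 1) ∧
    ∀ R S : X →L[ℝ] X, S ∘L U ∘L R = ContinuousLinearMap.id ℝ X → K < ‖R‖ * ‖S‖ := by
  classical
  obtain ⟨t, ht⟩ := pow_unbounded_of_one_lt (48 * K ^ 2) (show (1 : ℝ) < 4 by norm_num)
  obtain ⟨p, hp⟩ : ∃ p, p = sq (2 * (t + 1)) := ⟨_, rfl⟩
  have hp0 : 0 < p := hp ▸ lt_of_lt_of_le (by omega) sq_mono.le_apply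
  obtain ⟨m, hm⟩ : ∃ m, m = 4 ^ (t + 1) * p := ⟨_, rfl⟩
  have : NeZero m := ⟨by rw [hm]; positivity⟩
  have hA : Finset.Ico p (p + 2 * m) ⊆ Bl (t + 1) := by
    refine Finset.Ico_subset_Ico hp.ge ?_
    have a1 := sq_mono.monotone (show 2 * (t + 1) + 1 ≤ 2 * (t + 1) + 2 by omega)
    rw [sq_succ, gr, ← hp] at a1
    set x := p + 2 * (t + 1) with hx
    have : 2 * m ≤ 4 ^ x * (x * 4 ^ x) ^ 2 := by
      rw [hm, mul_left_comm, pow_two]
      refine Nat.mul_le_mul (Nat.pow_le_pow_right (by omega) (by omega)) (Nat.mul_le_mul ?_ ?_)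
      · exact le_trans (by omega) (Nat.le_mul_of_pos_right _ (by positivity))
      · exact le_trans (by omega) (Nat.le_mul_of_pos_right _ (by positivity))
    omega
  obtain ⟨P, hP1, hP⟩ := H.proj (sq (2 * m) ≤ ·)
  let ψ : X →L[ℝ] ℝ := ∑ i ∈ Finset.range (sq (2 * m)), f i
  refine ⟨P + ψ.smulRight (∑ i ∈ Finset.range (sq (2 * m)), e i), fun n => ?_,
    fun R S hRS => ?_⟩
  · by_cases h : n < sq (2 * m)
    · simp [ψ, hP, H.hbi, h, not_le.2 h]
    · simp [ψ, hP, H.hbi, h, not_lt.1 h]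
  by_contra hK
  rw [not_lt] at hK
  have h1 : ∀ y, ψ (R y) = 0 → S (P (R y)) = y := by
    intro y hy
    have := congrArg (fun T : X →L[ℝ] X => T y) hRS
    simpa [hy] using this
  choose a b ha hb hab h0 using fun k : ℕ =>
    pair_ex (ψ (R (e (p + 2 * k)))) (ψ (R (e (p + 2 * k + 1))))
  let y : ℕ → X := fun k => a k • e (p + 2 * k) + b k • e (p + 2 * k + 1)
  have hy0 : ∀ k, ψ (R (y k)) = 0 := fun k => by simp [y, h0 k]
  have hy1 : ∀ k i, f i (y k) =
      if i = p + 2 * k then a k else if i = p + 2 * k + 1 then b k else 0 := by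
    intro k i
    simp only [y, map_add, map_smul, H.hbi, smul_eq_mul]
    split_ifs <;> first | omega | simp
  have hy2 : ∀ k, 1 ≤ ‖S‖ * ‖P (R (y k))‖ := by
    intro k
    refine le_trans ?_ (S.le_opNorm _)
    rw [h1 _ (hy0 k)]
    rcases hab k with h | h
    · simpa [hy1, h] using H.coord_le Wt2 (p + 2 * k) (y k)
    · simpa [hy1, h] using H.coord_le Wt2 (p + 2 * k + 1) (y k)
  have hS : 0 < ‖S‖ := (norm_nonneg S).lt_of_ne fun h => by
    have := hy2 0
    rw [← h] at this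
    linarith
  have h2 : ∀ k, ∃ w ∈ Wt, ∃ F : Finset ℕ,
      (1 / (2 * ‖S‖)) ^ 2 < ∑ i ∈ F, (w i * f i (P (R (y k)))) ^ 2 := by
    intro k
    by_contra hc
    push Not at hc
    have := mul_le_mul_of_nonneg_left (H.hU _ _ (by positivity) hc) hS.le
    have e1 : ‖S‖ * (1 / (2 * ‖S‖)) = 1 / 2 := by field_simp
    linarith [hy2 k]
  choose w hw F hF using h2
  have hw' := tail_mem (fun k : Fin m => w k) fun k => hw k
  set v : ℕ → ℝ := fun i => if sq (2 * m) ≤ i then (⨆ k : Fin m, w k i) / 2 else 0 with hv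
  let Q : X → ℝ := fun z => ∑ i ∈ (Finset.range m).biUnion F, (v i * f i (P (R z))) ^ 2
  have hQ1 : ∀ k < m, (1 / (2 * ‖S‖)) ^ 2 / 4 ≤ Q (y k) := by
    intro k hk
    refine le_trans ?_ (Finset.sum_le_sum_of_subset_of_nonneg
      (Finset.subset_biUnion_of_mem F (Finset.mem_range.2 hk)) fun _ _ _ => sq_nonneg _)
    refine (div_le_div_of_nonneg_right (hF k).le (by norm_num)).trans ?_
    rw [Finset.sum_div]
    refine Finset.sum_le_sum fun i _ => ?_
    rw [hP, hv]
    dsimp only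
    split_ifs
    · have a1 : w k i ≤ ⨆ k : Fin m, w k i :=
        le_ciSup (f := fun k : Fin m => w k i) (Set.finite_range _).bddAbove ⟨k, hk⟩
      have a2 := pow_le_pow_left₀ ((hw k).1 i).1 a1 2
      rw [mul_pow, mul_pow]
      nlinarith [sq_nonneg (f i (R (y k)))]
    · simp
  have hQ2 : ∀ z z', Q (z + z') + Q (z - z') = 2 * Q z + 2 * Q z' := by
    intro z z'
    simp only [Q, map_add, map_sub, Finset.mul_sum, ← Finset.sum_add_distrib]
    exact Finset.sum_congr rfl fun i _ => by ring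
  have h3 : ∀ n ≤ m, ∃ Y : X, (∀ i, |f i Y| ≤ if i ∈ Finset.Ico p (p + 2 * n) then 1 else 0) ∧
      n * ((1 / (2 * ‖S‖)) ^ 2 / 4) ≤ Q Y := by
    intro n hn
    induction n with
    | zero => exact ⟨0, by simp, by simp [Q]⟩
    | succ n ih =>
      obtain ⟨Y, hY1, hY2⟩ := ih (by omega)
      have b1 : ∀ i, |f i Y| + |f i (y n)| ≤
          if i ∈ Finset.Ico p (p + 2 * (n + 1)) then 1 else 0 := by
        intro i
        have c1 := hY1 i
        have c2 := ha n
        have c3 := hb n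
        rw [hy1]
        simp only [Finset.mem_Ico] at c1 ⊢
        split_ifs at c1 ⊢ <;> first | omega | linarith | (rw [abs_zero]; linarith)
      have b2 := hQ2 Y (y n)
      have b3 := hQ1 n (by omega)
      push_cast
      rcases le_total (Q (Y + y n)) (Q (Y - y n)) with h | h
      · exact ⟨Y - y n, fun i => by rw [map_sub]; exact (abs_sub _ _).trans (b1 i), by linarith⟩
      · exact ⟨Y + y n, fun i => by rw [map_add]; exact (abs_add_le _ _).trans (b1 i), by linarith⟩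
  obtain ⟨Y, hY1, hY2⟩ := h3 m le_rfl
  have h4 : ‖Y‖ ≤ √(3 * p) := by
    refine H.hU _ _ (Real.sqrt_nonneg _) fun u hu G => ?_
    have a1 := head_sum hu t hA
    have a2 : ((Finset.Ico p (p + 2 * m)).card : ℝ) * (1 / 4) ^ (t + 1) = 2 * p := by
      rw [Nat.card_Ico, Nat.add_sub_cancel_left, hm, one_div_pow]
      push_cast
      field_simp
    rw [Real.sq_sqrt (by positivity)]
    rw [a2, ← hp] at a1
    calc _ ≤ ∑ i ∈ G, if i ∈ Finset.Ico p (p + 2 * m) then u i ^ 2 else 0 := by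
          refine Finset.sum_le_sum fun i _ => ?_
          have c1 := hY1 i
          split_ifs at c1 ⊢
          · rw [mul_pow]
            exact mul_le_of_le_one_right (sq_nonneg _) ((sq_le_one_iff_abs_le_one _).2 c1)
          · simp [abs_nonpos_iff.1 c1]
      _ ≤ ∑ i ∈ Finset.Ico p (p + 2 * m), u i ^ 2 := by
          rw [Finset.sum_ite_mem]
          exact Finset.sum_le_sum_of_subset_of_nonneg Finset.inter_subset_right
            fun _ _ _ => sq_nonneg _
      _ ≤ _ := by linarith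
  have h5 : Q Y ≤ ‖R‖ ^ 2 * (3 * p) := by
    refine (H.hL v hw' _ _).trans ?_
    rw [← Real.sq_sqrt (show (0 : ℝ) ≤ 3 * p by positivity), ← mul_pow]
    refine pow_le_pow_left₀ (norm_nonneg _) ?_ 2
    exact ((P.le_opNorm _).trans (mul_le_of_le_one_left (norm_nonneg _) hP1)).trans
      ((R.le_opNorm _).trans (mul_le_mul_of_nonneg_left h4 (norm_nonneg _)))
  have h6 := hY2.trans h5
  have hp1 : (0 : ℝ) < p := by exact_mod_cast hp0
  have h7 : (4 : ℝ) ^ (t + 1) ≤ 48 * (‖R‖ * ‖S‖) ^ 2 := by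
    rw [hm] at h6
    push_cast at h6
    field_simp at h6
    nlinarith
  have h8 := pow_le_pow_left₀ (by positivity) hK 2
  have h9 : (4 : ℝ) ^ t ≤ 4 ^ (t + 1) := pow_le_pow_right₀ (by norm_num) (by omega)
  linarith

end Pool.Agent.H89.FP
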