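import Mathlib

set_option autoImplicit false
open ExteriorAlgebra

namespace Pool.Agent.H89.GR

variable {F : Type*} [Field F]

abbrev L (F : Type*) [Field F] := ℕ →₀ F
abbrev E (F : Type*) [Field F] := ExteriorAlgebra F (ℕ →₀ F)

noncomputable def om : E F ≃ₐ[F] E F := CliffordAlgebra.involuteEquiv
noncomputable def eps : E F →ₐ[F] F := algebraMapInv
noncomputable def ct (d : Module.Dual F (L F)) : E F →ₗ[F] E F := CliffordAlgebra.contractLeft d
noncomputable def e (i : ℕ) : E F := ι F (Finsupp.single i 1)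

@[simp] theorem om_ι (v : L F) : om (ι F v) = -ι F v := CliffordAlgebra.involute_ι v
@[simp] theorem om_om (x : E F) : om (om x) = x := CliffordAlgebra.involute_involute x
theorem om_mul_om : (om : E F ≃ₐ[F] E F) * om = 1 := by ext x; simp
@[simp] theorem eps_ι (v : L F) : eps (ι F v) = 0 := by simp [eps, algebraMapInv]
theorem ct_ι_mul (d : Module.Dual F (L F)) (v : L F) (x : E F) :
    ct d (ι F v * x) = d v • x - ι F v * ct d x := CliffordAlgebra.contractLeft_ι_mul d v x
@[simp] theorem ct_algebraMap (d : Module.Dual F (L F)) (r : F) :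
    ct d (algebraMap F (E F) r) = 0 := CliffordAlgebra.contractLeft_algebraMap _ d r
@[simp] theorem ct_ι (d : Module.Dual F (L F)) (v : L F) :
    ct d (ι F v) = algebraMap F (E F) (d v) := CliffordAlgebra.contractLeft_ι _ d v

theorem left_ind {P : E F → Prop} (h0 : ∀ r : F, P (algebraMap _ _ r))
    (add : ∀ x y, P x → P y → P (x + y)) (ι_mul : ∀ x m, P x → P (ι F m * x)) : ∀ x, P x :=
  fun x => CliffordAlgebra.left_induction (P := P) _ h0 add ι_mul x

theorem ι_mul_comm (v : L F) (x : E F) : ι F v * x = om x * ι F v := by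
  induction x using left_ind with
  | h0 r => rw [AlgEquiv.commutes, Algebra.commutes]
  | add x y hx hy => rw [mul_add, map_add, add_mul, hx, hy]
  | ι_mul x m hx =>
    have h := ι_add_mul_swap (R := F) v m
    rw [map_mul, om_ι, mul_assoc, ← hx, ← mul_assoc, ← mul_assoc, eq_neg_of_add_eq_zero_left h]
    simp

theorem super (y : E F) : ∀ x : E F,
    (y + om y) * x = x * (y + om y) ∧ (y - om y) * x = om x * (y - om y) := by
  induction y using left_ind with
  | h0 r =>
    intro x
    rw [AlgEquiv.commutes, ← map_add, Algebra.commutes]; simp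
  | add y z hy hz =>
    intro x
    have h1 := hy x
    have h2 := hz x
    rw [map_add]
    constructor
    · have : y + z + (om y + om z) = (y + om y) + (z + om z) := by abel
      rw [this, add_mul, mul_add, h1.1, h2.1]
    · have : y + z - (om y + om z) = (y - om y) + (z - om z) := by abel
      rw [this, add_mul, mul_add, h1.2, h2.2]
  | ι_mul y m hy =>
    intro x
    rw [map_mul, om_ι]
    constructor
    · have : ι F m * y + -ι F m * om y = ι F m * (y - om y) := by noncomm_ring
      rw [this, mul_assoc, (hy x).2, ← mul_assoc, ι_mul_comm, om_om, mul_assoc]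
    · have : ι F m * y - -ι F m * om y = ι F m * (y + om y) := by noncomm_ring
      rw [this, mul_assoc, (hy x).1, ← mul_assoc, ι_mul_comm, mul_assoc]

theorem two_cancel (h2 : (2 : F) ≠ 0) {V : Type*} [AddCommGroup V] [Module F V] {x y : V}
    (h : x + x = y + y) : x = y := by
  rw [← two_smul F, ← two_smul F] at h
  exact smul_right_injective V h2 h

theorem even_comm (h2 : (2 : F) ≠ 0) {y : E F} (hy : om y = y) (x : E F) : y * x = x * y := by
  have := (super y x).1
  rw [hy, add_mul, mul_add] at this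
  exact two_cancel h2 this

theorem odd_comm (h2 : (2 : F) ≠ 0) {y : E F} (hy : om y = -y) (x : E F) : y * x = om x * y := by
  have := (super y x).2
  rw [hy, sub_neg_eq_add, add_mul, mul_add] at this
  exact two_cancel h2 this

theorem odd_sq (h2 : (2 : F) ≠ 0) {y : E F} (hy : om y = -y) : y * y = 0 := by
  have := odd_comm h2 hy y
  rw [hy, neg_mul] at this
  refine two_cancel h2 ?_
  rw [add_zero]; exact add_eq_zero_iff_eq_neg.2 this

theorem ct_om (d : Module.Dual F (L F)) (x : E F) : ct d (om x) = -om (ct d x) := by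
  induction x using left_ind with
  | h0 r => rw [AlgEquiv.commutes]; simp
  | add x y hx hy => simp only [map_add, hx, hy]; abel
  | ι_mul x m hx =>
    rw [map_mul, om_ι, neg_mul, map_neg, ct_ι_mul, ct_ι_mul, hx]; simp

theorem ct_mul (d : Module.Dual F (L F)) (x y : E F) :
    ct d (x * y) = ct d x * y + om x * ct d y := by
  induction x using left_ind with
  | h0 r => rw [AlgEquiv.commutes, ← Algebra.smul_def, ← Algebra.smul_def]; simp
  | add x z hx hz => simp only [map_add, add_mul, hx, hz]; abel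
  | ι_mul x m hx =>
    rw [mul_assoc, ct_ι_mul, ct_ι_mul, hx, map_mul, om_ι]
    simp only [mul_add, sub_mul, smul_mul_assoc, mul_assoc, neg_mul]; abel

theorem eps_hom (h : E F →ₐ[F] E F) (x : E F) : eps (h x) = eps x := by
  have : (eps : E F →ₐ[F] F).comp h = eps := by
    refine ExteriorAlgebra.hom_ext (LinearMap.ext fun v => ?_)
    have h1 := comp_ι_sq_zero ((eps : E F →ₐ[F] F).comp h) v
    simpa using h1
  exact DFunLike.congr_fun this x

/-- augmentation ideal -/
noncomputable def m (F : Type*) [Field F] : Submodule F (E F) :=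
  LinearMap.ker (eps : E F →ₐ[F] F).toLinearMap

theorem mem_m {x : E F} : x ∈ m F ↔ eps x = 0 := Iff.rfl
theorem ι_mem_m (v : L F) : ι F v ∈ m F := eps_ι v
theorem m_left (y : E F) {x : E F} (hx : x ∈ m F) : y * x ∈ m F := by
  rw [mem_m] at *; rw [map_mul, hx, mul_zero]
theorem m_right (y : E F) {x : E F} (hx : x ∈ m F) : x * y ∈ m F := by
  rw [mem_m] at *; rw [map_mul, hx, zero_mul]
theorem sub_eps_mem (x : E F) : x - algebraMap F _ (eps x) ∈ m F := by
  rw [mem_m]; simp
theorem hom_m (h : E F →ₐ[F] E F) {x : E F} (hx : x ∈ m F) : h x ∈ m F := by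
  rw [mem_m] at *; rw [eps_hom, hx]
theorem hom_mm (h : E F →ₐ[F] E F) {x : E F} (hx : x ∈ m F * m F) : h x ∈ m F * m F := by
  refine Submodule.mul_induction_on hx (fun a ha b hb => ?_) (fun a b ha hb => ?_)
  · rw [map_mul]; exact Submodule.mul_mem_mul (hom_m h ha) (hom_m h hb)
  · rw [map_add]; exact add_mem ha hb

theorem eps_ct_mm (d : Module.Dual F (L F)) {x : E F} (hx : x ∈ m F * m F) :
    eps (ct d x) = 0 := by
  refine Submodule.mul_induction_on hx (fun a ha b hb => ?_) (fun a b ha hb => ?_)
  · have h1 : eps (om a) = 0 := (eps_hom (om : E F ≃ₐ[F] E F).toAlgHom a).trans ha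
    rw [ct_mul, map_add, map_mul, map_mul, mem_m.1 hb, h1]; simp
  · rw [map_add, map_add, ha, hb, add_zero]

theorem exists_lin (x : E F) : ∃ v : L F, x - algebraMap F _ (eps x) - ι F v ∈ m F * m F := by
  induction x using left_ind with
  | h0 r => exact ⟨0, by simp⟩
  | add x y hx hy =>
    obtain ⟨v, hv⟩ := hx
    obtain ⟨w, hw⟩ := hy
    refine ⟨v + w, ?_⟩
    convert add_mem hv hw using 1
    simp only [map_add]; abel
  | ι_mul x v _ =>
    refine ⟨eps x • v, ?_⟩
    convert Submodule.mul_mem_mul (ι_mem_m v) (sub_eps_mem x) using 1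
    rw [mul_sub, ← Algebra.commutes, ← Algebra.smul_def]; simp

theorem ι_mm {v : L F} (hv : ι F v ∈ m F * m F) : v = 0 := by
  rw [← Module.forall_dual_apply_eq_zero_iff F]
  intro d
  have := eps_ct_mm d hv
  simpa using this

/-- the ideal generated by the first `n` generators -/
noncomputable def J (F : Type*) [Field F] (n : ℕ) : Submodule F (E F) :=
  Submodule.span F {z | ∃ x i, i < n ∧ z = x * e i}

theorem J_ind {n : ℕ} {P : E F → Prop} {z : E F} (hz : z ∈ J F n)
    (h1 : ∀ x i, i < n → P (x * e i)) (h0 : P 0) (ha : ∀ x y, P x → P y → P (x + y)) : P z := by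
  have : ∀ c : F, P (c • z) := by
    induction hz using Submodule.span_induction with
    | mem z hz =>
      obtain ⟨x, i, hi, rfl⟩ := hz
      intro c; rw [← smul_mul_assoc]; exact h1 _ _ hi
    | zero => intro c; simpa using h0
    | add x y _ _ hx hy => intro c; rw [smul_add]; exact ha _ _ (hx c) (hy c)
    | smul a x _ hx => intro c; rw [smul_smul]; exact hx _
  simpa using this 1

theorem mul_e_mem {n i : ℕ} (hi : i < n) (x : E F) : x * e i ∈ J F n :=
  Submodule.subset_span ⟨x, i, hi, rfl⟩
theorem e_mem {n i : ℕ} (hi : i < n) : (e i : E F) ∈ J F n := by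
  simpa using mul_e_mem hi (1 : E F)
theorem J_left {n : ℕ} (y : E F) {z : E F} (hz : z ∈ J F n) : y * z ∈ J F n :=
  J_ind (P := fun z => y * z ∈ J F n) hz
    (fun x i hi => by rw [← mul_assoc]; exact mul_e_mem hi _) (by simp)
    (fun a b ha hb => by rw [mul_add]; exact add_mem ha hb)
theorem J_right {n : ℕ} (y : E F) {z : E F} (hz : z ∈ J F n) : z * y ∈ J F n :=
  J_ind (P := fun z => z * y ∈ J F n) hz
    (fun x i hi => by
      rw [mul_assoc, e, ι_mul_comm, ← mul_assoc]; exact mul_e_mem hi _) (by simp)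
    (fun a b ha hb => by rw [add_mul]; exact add_mem ha hb)
theorem J_mono {a b : ℕ} (h : a ≤ b) : J F a ≤ J F b :=
  Submodule.span_mono (fun _ ⟨x, i, hi, hz⟩ => ⟨x, i, hi.trans_le h, hz⟩)
theorem J_om {n : ℕ} {z : E F} (hz : z ∈ J F n) : om z ∈ J F n :=
  J_ind (P := fun z => om z ∈ J F n) hz
    (fun x i hi => by
      rw [map_mul, e, om_ι, mul_neg]; exact neg_mem (mul_e_mem hi _)) (by simp)
    (fun a b ha hb => by rw [map_add]; exact add_mem ha hb)
theorem J_le_m (n : ℕ) : J F n ≤ m F := fun z hz =>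
  J_ind (P := fun z => z ∈ m F) hz (fun x i _ => m_left _ (ι_mem_m _)) (zero_mem _)
    (fun _ _ => add_mem)

theorem ι_mem_J (v : L F) : ∃ n, ι F v ∈ J F n := by
  induction v using Finsupp.induction_linear with
  | zero => exact ⟨0, by simp⟩
  | add v w hv hw =>
    obtain ⟨a, ha⟩ := hv
    obtain ⟨b, hb⟩ := hw
    exact ⟨a + b, by
      rw [map_add]; exact add_mem (J_mono (by omega) ha) (J_mono (by omega) hb)⟩
  | single i c =>
    refine ⟨i + 1, ?_⟩
    have : Finsupp.single i c = c • Finsupp.single i (1 : F) := by simp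
    rw [this, map_smul]
    exact Submodule.smul_mem _ _ (e_mem (by omega))

theorem exists_J {x : E F} (hx : x ∈ m F) : ∃ n, x ∈ J F n := by
  have : ∀ x : E F, ∃ n, x - algebraMap F _ (eps x) ∈ J F n := by
    intro x
    induction x using left_ind with
    | h0 r => exact ⟨0, by simp⟩
    | add x y hx hy =>
      obtain ⟨a, ha⟩ := hx
      obtain ⟨b, hb⟩ := hy
      refine ⟨a + b, ?_⟩
      convert add_mem (J_mono (show a ≤ a + b by omega) ha) (J_mono (show b ≤ a + b by omega) hb)
        using 1
      simp only [map_add]; abel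
    | ι_mul x v _ =>
      obtain ⟨a, ha⟩ := ι_mem_J v
      exact ⟨a, by simpa using J_right x ha⟩
  simpa [mem_m.1 hx] using this x

theorem exists_J_mul {Q : Submodule F (E F)} {x : E F} (hx : x ∈ m F * Q) :
    ∃ n, x ∈ J F n * Q := by
  refine Submodule.mul_induction_on hx (fun a ha b hb => ?_) (fun a b ha hb => ?_)
  · obtain ⟨n, hn⟩ := exists_J ha
    exact ⟨n, Submodule.mul_mem_mul hn hb⟩
  · obtain ⟨n, hn⟩ := ha
    obtain ⟨k, hk⟩ := hb
    exact ⟨n + k, add_mem (mul_le_mul_left (J_mono (by omega)) _ hn)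
      (mul_le_mul_left (J_mono (by omega)) _ hk)⟩

theorem exists_mul_J {Q : Submodule F (E F)} {x : E F} (hx : x ∈ Q * m F) :
    ∃ n, x ∈ Q * J F n := by
  refine Submodule.mul_induction_on hx (fun a ha b hb => ?_) (fun a b ha hb => ?_)
  · obtain ⟨n, hn⟩ := exists_J hb
    exact ⟨n, Submodule.mul_mem_mul ha hn⟩
  · obtain ⟨n, hn⟩ := ha
    obtain ⟨k, hk⟩ := hb
    exact ⟨n + k, add_mem (mul_le_mul_right (J_mono (by omega)) _ hn)
      (mul_le_mul_right (J_mono (by omega)) _ hk)⟩

theorem J_pow (n : ℕ) : J F n ^ (n + 1) = ⊥ := by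
  induction n with
  | zero =>
    rw [zero_add, pow_one, eq_bot_iff]
    intro z hz
    exact J_ind (P := fun z => z ∈ (⊥ : Submodule F (E F))) hz (fun _ _ h => by omega)
      (zero_mem _) (fun _ _ => add_mem)
  | succ n ih =>
    set A := J F n with hA
    set B : Submodule F (E F) := LinearMap.range (LinearMap.mulRight F (e n : E F)) with hB
    have h1 : J F (n + 1) ≤ A + B := by
      intro z hz
      refine J_ind (P := fun z => z ∈ A + B) hz (fun x i hi => ?_) (zero_mem _) (fun _ _ => add_mem)
      rcases Nat.lt_succ_iff_lt_or_eq.1 hi with h | rfl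
      · exact Submodule.mem_sup_left (mul_e_mem h x)
      · exact Submodule.mem_sup_right ⟨x, rfl⟩
    have h2 : B * A ≤ A * B := by
      rw [Submodule.mul_le]
      rintro _ ⟨x, rfl⟩ a ha
      rw [LinearMap.mulRight_apply, mul_assoc, e, ι_mul_comm, ← mul_assoc]
      exact Submodule.mul_mem_mul (J_left x (J_om ha)) ⟨1, by simp [e]⟩
    have h3 : B * B ≤ ⊥ := by
      rw [Submodule.mul_le]
      rintro _ ⟨x, rfl⟩ _ ⟨y, rfl⟩
      rw [LinearMap.mulRight_apply, LinearMap.mulRight_apply, mul_assoc, ← mul_assoc (e n), e,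
        ι_mul_comm, mul_assoc, ι_sq_zero]; simp
    have h4 : ∀ k, (A + B) ^ (k + 1) ≤ A ^ (k + 1) + A ^ k * B := by
      intro k
      induction k with
      | zero => simp
      | succ k ihk =>
        calc (A + B) ^ (k + 1 + 1) = (A + B) ^ (k + 1) * (A + B) := pow_succ _ _
          _ ≤ (A ^ (k + 1) + A ^ k * B) * (A + B) := mul_le_mul_left ihk _
          _ = A ^ (k + 1 + 1) + A ^ (k + 1) * B + A ^ k * (B * A) + A ^ k * (B * B) := by
            noncomm_ring
          _ ≤ _ := by
            simp only [Submodule.add_eq_sup, sup_le_iff]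
            refine ⟨⟨⟨le_sup_left, le_sup_right⟩, ?_⟩, ?_⟩
            · refine le_sup_of_le_right ?_
              rw [pow_succ, mul_assoc]; exact mul_le_mul_right h2 _
            · exact (mul_le_mul_right h3 _).trans (by simp)
    rw [eq_bot_iff]
    refine (pow_le_pow_left' h1 _).trans ((h4 _).trans ?_)
    rw [pow_succ A (n + 1), ih]; simp

theorem nilp_of_m {x : E F} (hx : x ∈ m F) : IsNilpotent x := by
  obtain ⟨n, hn⟩ := exists_J hx
  refine ⟨n + 1, ?_⟩
  have := Submodule.pow_mem_pow _ hn (n + 1)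
  rwa [J_pow, Submodule.mem_bot] at this

end Pool.Agent.H89.GR
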