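import Pool.Agent.H89.GR1

set_option autoImplicit false
open ExteriorAlgebra Polynomial

namespace Pool.Agent.H89.GR

variable {F : Type*} [Field F]

inductive Fil (I P : Submodule F (E F)) : ℕ → E F → Prop
  | top (x : E F) : Fil I P 0 x
  | one (x : E F) : x ∈ I → Fil I P 1 x
  | two (x : E F) : x ∈ P → Fil I P 2 x
  | mul (a b : ℕ) (x y : E F) : Fil I P a x → Fil I P b y → Fil I P (a + b) (x * y)
  | add (a : ℕ) (x y : E F) : Fil I P a x → Fil I P a y → Fil I P a (x + y)
  | zero (a : ℕ) : Fil I P a 0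
  | mono (a : ℕ) (x : E F) : Fil I P (a + 1) x → Fil I P a x

theorem pow_top_mono (I : Submodule F (E F)) {a b : ℕ} (h : a ≤ b) : I ^ b * ⊤ ≤ I ^ a * ⊤ := by
  obtain ⟨c, rfl⟩ := Nat.exists_eq_add_of_le h
  rw [pow_add, mul_assoc]
  exact mul_le_mul_right le_top _

theorem Fil_pow {n k : ℕ} (hnk : n ≤ k) {a : ℕ} {x : E F} (h : Fil (J F k) (J F n) a x) :
    x ∈ J F k ^ ((a + 1) / 2) * ⊤ := by
  induction h with
  | top x => simp
  | one x hx => simpa using Submodule.mul_mem_mul hx (Submodule.mem_top (x := (1 : E F)))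
  | two x hx =>
    simpa using Submodule.mul_mem_mul (J_mono hnk hx) (Submodule.mem_top (x := (1 : E F)))
  | mul a b x y _ _ hx hy =>
    refine pow_top_mono _ (show (a + b + 1) / 2 ≤ (a + 1) / 2 + (b + 1) / 2 by omega) ?_
    have h1 : ∀ j, ⊤ * (J F k ^ j * ⊤) ≤ J F k ^ j * ⊤ := by
      intro j
      rcases j with _ | j
      · simp
      · rw [pow_succ', ← mul_assoc, ← mul_assoc]
        refine mul_le_mul_left (mul_le_mul_left ?_ _) _
        rw [Submodule.mul_le]
        exact fun y _ z hz => J_left y hz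
    have h2 := Submodule.mul_mem_mul hx hy
    rw [mul_assoc] at h2
    rw [pow_add, mul_assoc]
    exact mul_le_mul_right (h1 _) _ h2
  | add a x y _ _ hx hy => exact add_mem hx hy
  | zero a => exact zero_mem _
  | mono a x _ hx => exact pow_top_mono _ (by omega) hx

theorem mJ_le (n : ℕ) : m F * J F n ≤ J F n := by
  rw [Submodule.mul_le]; exact fun y _ z hz => J_left y hz

theorem mul_left_mem {I Q : Submodule F (E F)} (hI : ∀ y z, z ∈ I → y * z ∈ I) (y : E F) {x : E F}
    (hx : x ∈ I * Q) : y * x ∈ I * Q := by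
  refine Submodule.mul_induction_on hx (fun a ha b hb => ?_) (fun a b ha hb => ?_)
  · rw [← mul_assoc]; exact Submodule.mul_mem_mul (hI _ _ ha) hb
  · rw [mul_add]; exact add_mem ha hb

theorem mul_right_mem {I Q : Submodule F (E F)} (hI : ∀ y z, z ∈ I → z * y ∈ I) (y : E F) {x : E F}
    (hx : x ∈ Q * I) : x * y ∈ Q * I := by
  refine Submodule.mul_induction_on hx (fun a ha b hb => ?_) (fun a b ha hb => ?_)
  · rw [mul_assoc]; exact Submodule.mul_mem_mul ha (hI _ _ hb)
  · rw [add_mul]; exact add_mem ha hb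

theorem unip (h : E F →ₐ[F] E F) (n : ℕ) (hn : ∀ x, h x - x ∈ m F * J F n) :
    IsNilpotent (h.toLinearMap - 1 : Module.End F (E F)) := by
  choose k0 hk0 using fun i : ℕ => exists_J_mul (hn (e i))
  set k := n + ∑ i ∈ Finset.range n, k0 i with hk
  have hnk : n ≤ k := by omega
  have hk1 : ∀ i < n, h (e i) - e i ∈ J F k * J F n := by
    intro i hi
    refine mul_le_mul_left (J_mono ?_) _ (hk0 i)
    have := Finset.single_le_sum (f := k0) (fun _ _ => Nat.zero_le _) (Finset.mem_range.2 hi)
    omega
  have hP : ∀ x, h x - x ∈ J F n := fun x => mJ_le n (hn x)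
  have hIP : ∀ x ∈ J F n, h x - x ∈ J F k * J F n := by
    intro x hx
    refine J_ind (P := fun x => h x - x ∈ J F k * J F n) hx (fun y i hi => ?_) (by simp)
      (fun a b ha hb => ?_)
    · have h1 : h (y * e i) - y * e i = (h y - y) * h (e i) + y * (h (e i) - e i) := by
        rw [map_mul]; noncomm_ring
      rw [h1]
      refine add_mem (Submodule.mul_mem_mul (J_mono hnk (hP y)) ?_)
        (mul_left_mem (fun y z hz => J_left y hz) y (hk1 i hi))
      simpa using add_mem (hP (e i)) (e_mem hi)
    · convert add_mem ha hb using 1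
      rw [map_add]; abel
  have key : ∀ a x, Fil (J F k) (J F n) a x → Fil (J F k) (J F n) (a + 1) (h x - x) := by
    intro a x hx
    induction hx with
    | top x => exact Fil.mono _ _ (Fil.two _ (hP x))
    | one x _ => exact Fil.two _ (hP x)
    | two x hx =>
      exact Submodule.mul_induction_on (hIP x hx)
        (fun a ha b hb => Fil.mul 1 2 a b (Fil.one _ ha) (Fil.two _ hb))
        (fun a b ha hb => Fil.add _ _ _ ha hb)
    | mul a b x y hx hy ihx ihy =>
      have h1 : h (x * y) - x * y = (h x - x) * ((h y - y) + y) + x * (h y - y) := by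
        rw [map_mul]; noncomm_ring
      rw [h1]
      refine Fil.add _ _ _ ?_ (Fil.mul a (b + 1) _ _ hx ihy)
      have := Fil.mul (a + 1) b _ _ ihx (Fil.add _ _ _ (Fil.mono _ _ ihy) hy)
      rwa [show a + 1 + b = a + b + 1 by omega] at this
    | add a x y _ _ ihx ihy =>
      convert Fil.add _ _ _ ihx ihy using 1
      rw [map_add]; abel
    | zero a => simpa using Fil.zero _
    | mono a x _ ih => exact Fil.mono _ _ ih
  have h2 : ∀ a x, Fil (J F k) (J F n) a (((h.toLinearMap - 1 : Module.End F (E F)) ^ a) x) := by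
    intro a x
    induction a with
    | zero => exact Fil.top _
    | succ a ih =>
      rw [pow_succ', Module.End.mul_apply]
      exact key _ _ ih
  refine ⟨2 * k + 1, LinearMap.ext fun x => ?_⟩
  have := Fil_pow hnk (h2 (2 * k + 1) x)
  rw [show (2 * k + 1 + 1) / 2 = k + 1 by omega, J_pow] at this
  simpa using this

theorem unip_surj {V : Type*} [AddCommGroup V] [Module F V] (u : Module.End F V)
    (hu : IsNilpotent (u - 1)) (A : Submodule F V) (hA : ∀ x ∈ A, u x ∈ A) (x : V) (hx : x ∈ A) :
    ∃ y ∈ A, u y = x := by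
  obtain ⟨n, hn⟩ := hu.neg
  rw [neg_sub] at hn
  refine ⟨(∑ i ∈ Finset.range n, (1 - u) ^ i) x, ?_, ?_⟩
  · rw [LinearMap.sum_apply]
    have : ∀ i : ℕ, ((1 - u : Module.End F V) ^ i) x ∈ A := by
      intro i
      induction i with
      | zero => simpa using hx
      | succ i ih =>
        rw [pow_succ', Module.End.mul_apply]
        simpa using sub_mem ih (hA _ ih)
    exact Submodule.sum_mem _ (fun i _ => this i)
  · have := mul_neg_geom_sum (1 - u) n
    rw [hn, sub_sub_cancel, sub_zero] at this
    exact (LinearMap.congr_fun this x)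

theorem unip_isUnit {R : Type*} [Ring R] {u : R} (hu : IsNilpotent (u - 1)) : IsUnit u := by
  simpa using hu.isUnit_add_one

theorem unip_mul {R : Type*} [Ring R] {a b : R} (hab : Commute a b) (ha : IsNilpotent (a - 1))
    (hb : IsNilpotent (b - 1)) : IsNilpotent (a * b - 1) := by
  have : a * b - 1 = a * (b - 1) + (a - 1) := by noncomm_ring
  rw [this]
  refine Commute.isNilpotent_add ?_ (Commute.isNilpotent_mul_left ?_ hb) ha
  · exact ((Commute.refl a).sub_right (Commute.one_right a)).mul_left
      (((hab.symm.sub_left (Commute.one_left a))).sub_right (Commute.one_right _))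
  · exact hab.sub_right (Commute.one_right a)

theorem unip_add_isUnit (h2 : (2 : F) ≠ 0) {R : Type*} [Ring R] [Algebra F R] {a b : R}
    (hab : Commute a b) (ha : IsNilpotent (a - 1)) (hb : IsNilpotent (b - 1)) :
    IsUnit (a + b) := by
  have h1 : IsNilpotent ((a - 1) + (b - 1)) := Commute.isNilpotent_add
    ((hab.sub_left (Commute.one_left b)).sub_right (Commute.one_right _)) ha hb
  have h3 : IsUnit (algebraMap F R 2) := (IsUnit.mk0 _ h2).map _
  have h4 : a + b = algebraMap F R 2 + ((a - 1) + (b - 1)) := by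
    rw [map_ofNat, ← one_add_one_eq_two]; abel
  rw [h4]
  exact h1.isUnit_add_left_of_commute h3 (Algebra.commutes _ _).symm

theorem poly_sqrt (h2 : (2 : F) ≠ 0) (k : ℕ) :
    ∃ q r : F[X], (1 + X * q) * (1 + X * q) = 1 + X + X ^ (k + 1) * r := by
  induction k with
  | zero => exact ⟨0, -1, by ring⟩
  | succ k ih =>
    obtain ⟨q, r, h⟩ := ih
    have hc : (C (2⁻¹ : F)) * 2 = 1 := by
      rw [show (2 : F[X]) = C 2 from rfl, ← C_mul, inv_mul_cancel₀ h2, C_1]
    refine ⟨q - X ^ k * r * C 2⁻¹, -(r * q) + X ^ k * r ^ 2 * C 2⁻¹ ^ 2, ?_⟩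
    linear_combination h - (X ^ (k + 1) * r * (1 + X * q)) * hc

theorem aeval_mem {V : Type*} [AddCommGroup V] [Module F V] (N : Module.End F V)
    (A : Submodule F V) (hA : ∀ x ∈ A, N x ∈ A) (q : F[X]) : ∀ x ∈ A, aeval N q x ∈ A := by
  induction q using Polynomial.induction_on with
  | C a => intro x hx; simpa using A.smul_mem a hx
  | add p q hp hq => intro x hx; simpa using add_mem (hp x hx) (hq x hx)
  | monomial n a ih =>
    intro x hx
    rw [pow_succ, ← mul_assoc, map_mul, aeval_X]
    exact ih _ (hA x hx)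

theorem aeval_commute {R : Type*} [Ring R] [Algebra F R] {N z : R} (h : Commute z N) (q : F[X]) :
    Commute z (aeval N q) := by
  induction q using Polynomial.induction_on with
  | C a => rw [aeval_C]; exact (Algebra.commutes _ _).symm
  | add p q hp hq => rw [map_add]; exact hp.add_right hq
  | monomial n a ih => rw [pow_succ, ← mul_assoc, map_mul, aeval_X]; exact ih.mul_right h

section sqrt
variable {A : Type*} [Ring A] [Algebra F A]

theorem sqrt_mul (h2 : (2 : F) ≠ 0) (s : Module.End F A) (hs : IsNilpotent (s - 1))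
    (hm : ∀ x y, s (s (x * y)) = s (s x) * s (s y)) (x y : A) : s (x * y) = s x * s y := by
  obtain ⟨K, hK⟩ := hs
  set N : Module.End F A := s - 1 with hN
  have hsN : ∀ x, s x = x + N x := fun x => by simp [hN]
  have hz : ∀ i, K ≤ i → ∀ x, (N ^ i) x = 0 := by
    intro i hi x
    rw [pow_eq_zero_of_le hi hK]; rfl
  set B : A → A → A := fun x y => s (x * y) - s x * s y with hB
  have hrel : ∀ x y, B x y + B x y = -(N (B x y) + B (N x) y + B x (N y) + B (N x) (N y)) := by
    intro x y
    have h1 : s (B x y) + B (s x) (s y) = 0 := by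
      simp only [hB, map_sub, hm]; abel
    have h3 : B (s x) (s y) = B x y + B (N x) y + B x (N y) + B (N x) (N y) := by
      rw [hsN x, hsN y]
      simp only [hB, map_add, add_mul, mul_add]; abel
    rw [h3, hsN] at h1
    rw [eq_neg_iff_add_eq_zero, ← h1]; abel
  have key : ∀ d i j k, 3 * K ≤ i + j + k + d → (N ^ i) (B ((N ^ j) x) ((N ^ k) y)) = 0 := by
    intro d
    induction d with
    | zero =>
      intro i j k h
      by_cases hi : K ≤ i
      · exact hz i hi _
      by_cases hj : K ≤ j
      · rw [hz j hj]; simp [hB]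
      · rw [hz k (by omega)]; simp [hB]
    | succ d ih =>
      intro i j k h
      refine two_cancel h2 ?_
      have h1 := ih (i + 1) j k (by omega)
      have h3 := ih i (j + 1) k (by omega)
      have h4 := ih i j (k + 1) (by omega)
      have h5 := ih i (j + 1) (k + 1) (by omega)
      rw [pow_succ, Module.End.mul_apply] at h1
      simp only [pow_succ', Module.End.mul_apply] at h3 h4 h5
      rw [← map_add, hrel, map_neg, map_add, map_add, map_add, h1, h3, h4, h5]; simp
  have := key (3 * K) 0 0 0 (by omega)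
  simpa [hB, sub_eq_zero] using this

theorem exists_sqrt (h2 : (2 : F) ≠ 0) (u : A ≃ₐ[F] A)
    (hu : IsNilpotent (u.toLinearMap - 1 : Module.End F A)) :
    ∃ s : A ≃ₐ[F] A, s * s = u ∧ IsNilpotent (s.toLinearMap - 1 : Module.End F A) ∧
      (∀ z : A ≃ₐ[F] A, Commute z u → Commute z s) ∧ (∀ x, u x = x → s x = x) ∧
      (∀ B : Submodule F A, (∀ x ∈ B, u x ∈ B) → ∀ x ∈ B, s x ∈ B) ∧
      ∀ x, ∃ y, s x - x = u y - y := by
  obtain ⟨k, hk⟩ := hu
  set N : Module.End F A := u.toLinearMap - 1 with hN
  obtain ⟨q, r, h⟩ := poly_sqrt h2 k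
  have h1 := congrArg (aeval N) h
  simp only [map_mul, map_add, map_one, aeval_X, map_pow] at h1
  rw [pow_succ, hk, zero_mul, zero_mul, add_zero] at h1
  set t := aeval N q with ht
  have hNt : Commute N t := aeval_commute (Commute.refl N) q
  set s : Module.End F A := 1 + N * t with hs
  have hss : ∀ x, s (s x) = u x := by
    intro x
    have := LinearMap.congr_fun h1 x
    simpa [hN] using this
  have hsn : IsNilpotent (s - 1) := by
    rw [hs, add_sub_cancel_left]; exact hNt.isNilpotent_mul_right ⟨k, hk⟩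
  have hfix : ∀ x, u x = x → s x = x := by
    intro x hx
    rw [hs, hNt.eq]; simp [hN, hx]
  have hmul := sqrt_mul h2 s hsn (fun x y => by rw [hss, hss, hss, map_mul])
  have hbij : Function.Bijective s := (Module.End.isUnit_iff _).1 (unip_isUnit hsn)
  refine ⟨AlgEquiv.ofBijective (AlgHom.ofLinearMap s (hfix 1 (map_one u)) hmul) hbij, ?_, hsn,
    ?_, hfix, ?_, ?_⟩
  · ext x; exact hss x
  · intro z hz
    have h3 : Commute (z.toLinearMap : Module.End F A) N := by
      refine Commute.sub_right ?_ (Commute.one_right _)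
      change _ = _
      ext x
      exact DFunLike.congr_fun hz.eq x
    have h4 : Commute (z.toLinearMap : Module.End F A) s :=
      (Commute.one_right _).add_right (h3.mul_right (aeval_commute h3 q))
    change _ = _
    ext x
    exact LinearMap.congr_fun h4.eq x
  · intro B hB x hx
    have h3 : ∀ x ∈ B, N x ∈ B := fun x hx => by simpa [hN] using sub_mem (hB x hx) hx
    change s x ∈ B
    simpa [hs] using add_mem hx (h3 _ (aeval_mem N B h3 q x hx))
  · intro x
    refine ⟨t x, ?_⟩
    change s x - x = _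
    simp [hs, hN]

theorem unip_sq_one (h2 : (2 : F) ≠ 0) (t : A ≃ₐ[F] A)
    (ht : IsNilpotent (t.toLinearMap - 1 : Module.End F A)) (h : t * t = 1) : t = 1 := by
  obtain ⟨U, hU⟩ := unip_add_isUnit h2 (Commute.one_right (t.toLinearMap : Module.End F A)) ht
    (by simp)
  have h1 : ((t.toLinearMap : Module.End F A) + 1) * (t.toLinearMap - 1) = 0 := by
    ext x
    have := DFunLike.congr_fun h x
    simp at this
    simp [this]
  rw [← hU, Units.mul_right_eq_zero, sub_eq_zero] at h1
  ext x
  exact LinearMap.congr_fun h1 x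

/-- dihedral trick -/
theorem dihedral (h2 : (2 : F) ≠ 0) (u s σ : A ≃ₐ[F] A) (hσ : σ * σ = 1) (hss : s * s = u)
    (hs : IsNilpotent (s.toLinearMap - 1 : Module.End F A))
    (hc : ∀ z : A ≃ₐ[F] A, Commute z u → Commute z s) (hu : σ * u * σ = u⁻¹) :
    σ * s * σ = s⁻¹ := by
  have hσ' : σ⁻¹ = σ := inv_eq_of_mul_eq_one_right hσ
  have hsu : Commute s u := by rw [← hss]; exact (Commute.refl s).mul_right (Commute.refl s)
  have h1 : Commute (σ * s * σ) u := by
    have h3 : u = σ * u⁻¹ * σ := by
      rw [← hu]; calc u = (σ * σ) * u * (σ * σ) := by rw [hσ]; simp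
        _ = _ := by group
    have h4 := hsu.inv_right.eq
    change σ * s * σ * u = u * (σ * s * σ)
    calc σ * s * σ * u = σ * s * σ * (σ * u⁻¹ * σ) := by rw [← h3]
      _ = σ * (s * (σ * σ) * u⁻¹) * σ := by group
      _ = σ * (u⁻¹ * (σ * σ) * s) * σ := by rw [hσ, mul_one, mul_one, h4]
      _ = (σ * u⁻¹ * σ) * (σ * s * σ) := by group
      _ = _ := by rw [← h3]
  have h5 := hc _ h1
  have h6 : IsNilpotent ((σ * s * σ).toLinearMap - 1 : Module.End F A) := by
    obtain ⟨k, hk⟩ := hs
    have h7 : ∀ x, σ (σ x) = x := fun x => DFunLike.congr_fun hσ x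
    have h8 : ∀ j, ((σ * s * σ).toLinearMap - 1 : Module.End F A) ^ j
        = σ.toLinearMap * (s.toLinearMap - 1) ^ j * σ.toLinearMap := by
      intro j
      induction j with
      | zero => ext x; simp [h7]
      | succ j ih => rw [pow_succ, ih, pow_succ]; ext x; simp [h7]
    exact ⟨k, by rw [h8, hk]; simp⟩
  have h9 : IsNilpotent ((σ * s * σ * s).toLinearMap - 1 : Module.End F A) := by
    refine unip_mul (a := (σ * s * σ).toLinearMap) (b := s.toLinearMap) ?_ h6 hs
    change _ = _
    ext x
    exact DFunLike.congr_fun h5.eq x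
  refine eq_inv_of_mul_eq_one_left (unip_sq_one h2 _ h9 ?_)
  calc σ * s * σ * s * (σ * s * σ * s) = σ * s * σ * (s * (σ * s * σ)) * s := by group
    _ = σ * s * σ * ((σ * s * σ) * s) * s := by rw [h5.eq]
    _ = σ * (s * (σ * σ) * s) * σ * (s * s) := by group
    _ = 1 := by rw [hσ, mul_one, hss, hu]; simp

end sqrt

end Pool.Agent.H89.GR
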