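import Pool.Agent.H89.GR2

set_option autoImplicit false
open ExteriorAlgebra

namespace Pool.Agent.H89.GR

variable {F : Type*} [Field F]

theorem hom_J (φ : E F →ₐ[F] E F) (n : ℕ) : ∃ k, ∀ x ∈ J F n, φ x ∈ J F k := by
  choose k0 hk0 using fun i : ℕ => exists_J (hom_m φ (ι_mem_m (Finsupp.single i (1 : F))))
  refine ⟨∑ i ∈ Finset.range n, k0 i, fun x hx => ?_⟩
  refine J_ind (P := fun x => φ x ∈ J F _) hx (fun y i hi => ?_) (by simp) (fun a b ha hb => ?_)
  · rw [map_mul]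
    exact J_left _ (J_mono (Finset.single_le_sum (f := k0) (fun _ _ => Nat.zero_le _)
      (Finset.mem_range.2 hi)) (hk0 i))
  · rw [map_add]; exact add_mem ha hb

theorem hom_mJ (φ : E F →ₐ[F] E F) (n : ℕ) : ∃ k, ∀ x ∈ m F * J F n, φ x ∈ m F * J F k := by
  obtain ⟨k, hk⟩ := hom_J φ n
  refine ⟨k, fun x hx => ?_⟩
  refine Submodule.mul_induction_on hx (fun a ha b hb => ?_) (fun a b ha hb => ?_)
  · rw [map_mul]; exact Submodule.mul_mem_mul (hom_m φ ha) (hk b hb)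
  · rw [map_add]; exact add_mem ha hb

/-- finitary unipotent parity-preserving automorphisms -/
noncomputable def G (F : Type*) [Field F] : Subgroup (E F ≃ₐ[F] E F) where
  carrier := {h | Commute om h ∧ ∃ n, ∀ x, h x - x ∈ m F * J F n}
  one_mem' := ⟨Commute.one_right _, 0, fun x => by simp⟩
  mul_mem' := by
    rintro a b ⟨ha, n, hn⟩ ⟨hb, k, hk⟩
    refine ⟨ha.mul_right hb, n + k, fun x => ?_⟩
    convert add_mem (mul_le_mul_right (J_mono (show n ≤ n + k by omega)) _ (hn (b x)))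
      (mul_le_mul_right (J_mono (show k ≤ n + k by omega)) _ (hk x)) using 1
    simp
  inv_mem' := by
    rintro a ⟨ha, n, hn⟩
    refine ⟨ha.inv_right, n, fun x => ?_⟩
    convert neg_mem (hn (a⁻¹ x)) using 1
    simp [AlgEquiv.aut_inv]

theorem G_conj {φ h : E F ≃ₐ[F] E F} (hφ : Commute om φ) (hh : h ∈ G F) : φ * h * φ⁻¹ ∈ G F := by
  obtain ⟨h1, n, hn⟩ := hh
  obtain ⟨k, hk⟩ := hom_mJ φ.toAlgHom n
  refine ⟨(hφ.mul_right h1).mul_right hφ.inv_right, k, fun x => ?_⟩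
  convert hk _ (hn (φ⁻¹ x)) using 1
  simp [AlgEquiv.aut_inv]

theorem G_nil {h : E F ≃ₐ[F] E F} (hh : h ∈ G F) :
    IsNilpotent (h.toLinearMap - 1 : Module.End F (E F)) := by
  obtain ⟨_, n, hn⟩ := hh
  exact unip h.toAlgHom n hn

theorem G_mm {h : E F ≃ₐ[F] E F} (hh : h ∈ G F) (x : E F) : h x - x ∈ m F * m F := by
  obtain ⟨_, n, hn⟩ := hh
  exact mul_le_mul_right (J_le_m n) _ (hn x)

theorem G_inv_pres {h : E F ≃ₐ[F] E F} (hh : h ∈ G F) (B : Submodule F (E F))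
    (hB : ∀ x ∈ B, h x ∈ B) : ∀ x ∈ B, h⁻¹ x ∈ B := by
  intro x hx
  obtain ⟨y, hy, rfl⟩ := unip_surj h.toLinearMap (G_nil hh) B hB x hx
  simpa [AlgEquiv.aut_inv] using hy

theorem G_sqrt (h2 : (2 : F) ≠ 0) {u : E F ≃ₐ[F] E F} (hu : u ∈ G F) :
    ∃ s ∈ G F, s * s = u ∧ (∀ z : E F ≃ₐ[F] E F, Commute z u → Commute z s) ∧
      (∀ x, u x = x → s x = x) ∧
      (∀ B : Submodule F (E F), (∀ x ∈ B, u x ∈ B) → ∀ x ∈ B, s x ∈ B) := by
  obtain ⟨s, h1, -, h3, h4, h5, h6⟩ := exists_sqrt h2 u (G_nil hu)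
  obtain ⟨hc, n, hn⟩ := hu
  refine ⟨s, ⟨h3 _ hc, n, fun x => ?_⟩, h1, h3, h4, h5⟩
  obtain ⟨y, hy⟩ := h6 x
  rw [hy]; exact hn y

theorem comm_om {φ : E F ≃ₐ[F] E F} (hφ : Commute om φ) (x : E F) : om (φ x) = φ (om x) :=
  DFunLike.congr_fun hφ.eq x

theorem odd_ι {φ : E F ≃ₐ[F] E F} (hφ : Commute om φ) (v : L F) : om (φ (ι F v)) = -φ (ι F v) := by
  rw [comm_om hφ, om_ι, map_neg]

/-- linear part -/
def Lin (φ : E F ≃ₐ[F] E F) (a : L F →ₗ[F] L F) : Prop :=
  ∀ v, φ (ι F v) - ι F (a v) ∈ m F * m F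

theorem exists_Lin (φ : E F ≃ₐ[F] E F) : ∃ a, Lin φ a := by
  choose w hw using fun i : ℕ => exists_lin (φ (e i))
  refine ⟨Finsupp.linearCombination F w, fun v => ?_⟩
  induction v using Finsupp.induction_linear with
  | zero => simp
  | add v w hv hw =>
    convert add_mem hv hw using 1
    simp only [map_add]; abel
  | single i c =>
    have h1 : Finsupp.single i c = c • Finsupp.single i (1 : F) := by simp
    have h2 := hw i
    have h3 : eps (φ (e i)) = 0 := hom_m φ.toAlgHom (ι_mem_m _)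
    rw [h3, map_zero, sub_zero] at h2
    rw [Finsupp.linearCombination_single, h1, map_smul, map_smul, map_smul, ← smul_sub]
    exact Submodule.smul_mem _ _ h2

theorem Lin_mul {φ ψ : E F ≃ₐ[F] E F} {a b : L F →ₗ[F] L F} (ha : Lin φ a) (hb : Lin ψ b) :
    Lin (φ * ψ) (a * b) := by
  intro v
  convert add_mem (hom_mm φ.toAlgHom (hb v)) (ha (b v)) using 1
  simp

theorem Lin_G {h : E F ≃ₐ[F] E F} (hh : h ∈ G F) : Lin h 1 := fun v => G_mm hh _

theorem Lin_invol {φ : E F ≃ₐ[F] E F} {a : L F →ₗ[F] L F} (ha : Lin φ a) (h : φ * φ = 1)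
    (v : L F) : a (a v) = v := by
  have := Lin_mul ha ha v
  rw [h] at this
  have h1 : ι F (v - a (a v)) ∈ m F * m F := by simpa using this
  exact (sub_eq_zero.1 (ι_mm h1)).symm

theorem Lin_conj {φ Θ : E F ≃ₐ[F] E F} {a : L F →ₗ[F] L F} (ha : Lin φ a) (h : Θ ∈ G F) :
    Lin (Θ⁻¹ * φ * Θ) a := by
  simpa using Lin_mul (Lin_mul (Lin_G (inv_mem h)) ha) (Lin_G h)

/-- Grassmann subalgebra of a subspace -/
noncomputable def Λ (V : Submodule F (L F)) : Subalgebra F (E F) :=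
  Algebra.adjoin F (ι F '' (V : Set (L F)))

theorem ι_mem_Λ {V : Submodule F (L F)} {v : L F} (hv : v ∈ V) : ι F v ∈ Λ V :=
  Algebra.subset_adjoin ⟨v, hv, rfl⟩

theorem Λ_map {V : Submodule F (L F)} (h : E F →ₐ[F] E F) (B : Subalgebra F (E F))
    (hB : ∀ v ∈ V, h (ι F v) ∈ B) : ∀ x ∈ Λ V, h x ∈ B := by
  have : Λ V ≤ B.comap h := Algebra.adjoin_le (by rintro _ ⟨v, hv, rfl⟩; exact hB v hv)
  exact fun x hx => this hx

theorem Λ_eq {V : Submodule F (L F)} (h k : E F →ₐ[F] E F)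
    (hB : ∀ v ∈ V, h (ι F v) = k (ι F v)) : ∀ x ∈ Λ V, h x = k x := by
  have : Λ V ≤ AlgHom.equalizer h k := Algebra.adjoin_le (by rintro _ ⟨v, hv, rfl⟩; exact hB v hv)
  exact fun x hx => this hx

theorem Λ_mono {V W : Submodule F (L F)} (h : V ≤ W) : Λ V ≤ Λ W :=
  Algebra.adjoin_mono (Set.image_mono h)

theorem exists_Λ (x : E F) : ∃ V : Submodule F (L F), FiniteDimensional F V ∧ x ∈ Λ V := by
  induction x using left_ind with
  | h0 r => exact ⟨⊥, inferInstance, Subalgebra.algebraMap_mem _ _⟩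
  | add x y hx hy =>
    obtain ⟨V, _, hV⟩ := hx
    obtain ⟨W, _, hW⟩ := hy
    exact ⟨V ⊔ W, inferInstance, add_mem (Λ_mono le_sup_left hV) (Λ_mono le_sup_right hW)⟩
  | ι_mul x v hx =>
    obtain ⟨V, _, hV⟩ := hx
    exact ⟨V ⊔ F ∙ v, inferInstance, mul_mem
      (ι_mem_Λ (Submodule.mem_sup_right (Submodule.mem_span_singleton_self v)))
      (Λ_mono le_sup_left hV)⟩

theorem ct_Λ {V : Submodule F (L F)} (d : Module.Dual F (L F)) (hd : ∀ v ∈ V, d v = 0) :
    ∀ x ∈ Λ V, ct d x = 0 := by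
  intro x hx
  induction hx using Algebra.adjoin_induction with
  | mem x hx => obtain ⟨v, hv, rfl⟩ := hx; simp [hd v hv]
  | algebraMap r => simp
  | add x y _ _ hx hy => rw [map_add, hx, hy, add_zero]
  | mul x y _ _ hx hy => rw [ct_mul, hx, hy]; simp

theorem exists_dual {V : Submodule F (L F)} {w : L F} (hw : w ∉ V) :
    ∃ d : Module.Dual F (L F), d w = 1 ∧ ∀ v ∈ V, d v = 0 := by
  obtain ⟨f, hf, hV⟩ := Submodule.exists_dual_map_eq_bot_of_notMem hw inferInstance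
  refine ⟨(f w)⁻¹ • f, by simp [hf], fun v hv => ?_⟩
  have : f v ∈ V.map f := ⟨v, hv, rfl⟩
  rw [hV, Submodule.mem_bot] at this
  simp [this]

theorem eps_ct_of {x : E F} {v : L F} (h : x - ι F v ∈ m F * m F) (d : Module.Dual F (L F)) :
    eps (ct d x) = d v := by
  have := eps_ct_mm d h
  rw [map_sub, map_sub, sub_eq_zero] at this
  simpa using this

theorem mem_of_Λ {V : Submodule F (L F)} {x : E F} {v : L F} (h : x - ι F v ∈ m F * m F)
    (hx : x ∈ Λ V) : v ∈ V := by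
  by_contra hv
  obtain ⟨d, h1, h2⟩ := exists_dual hv
  have := eps_ct_of h d
  rw [ct_Λ d h2 x hx, h1, map_zero] at this
  exact zero_ne_one this

theorem exists_proj (V : Submodule F (L F)) :
    ∃ π : L F →ₗ[F] L F, (∀ v, π v ∈ V) ∧ ∀ v ∈ V, π v = v := by
  obtain ⟨W, hW⟩ := V.exists_isCompl
  exact ⟨V.subtype ∘ₗ Submodule.projectionOnto V W hW, fun v => by simp, fun v hv => by
    simp [Submodule.projectionOnto_apply_left hW ⟨v, hv⟩]⟩

theorem fin_bound (V : Submodule F (L F)) [FiniteDimensional F V] (f : L F →ₗ[F] E F)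
    (hf : ∀ v ∈ V, f v ∈ m F * m F) : ∃ n, ∀ v ∈ V, f v ∈ m F * J F n := by
  obtain ⟨s, hs⟩ : V.FG := Module.Finite.iff_fg.1 inferInstance
  have h1 : ∀ v : L F, ∃ n, v ∈ V → f v ∈ m F * J F n := by
    intro v
    by_cases hv : v ∈ V
    · obtain ⟨n, hn⟩ := exists_mul_J (hf v hv)
      exact ⟨n, fun _ => hn⟩
    · exact ⟨0, fun h => absurd h hv⟩
  choose k hk using h1
  refine ⟨∑ v ∈ s, k v, ?_⟩
  have : V ≤ (m F * J F (∑ v ∈ s, k v)).comap f := by
    rw [← hs, Submodule.span_le]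
    intro v hv
    exact mul_le_mul_right (J_mono (Finset.single_le_sum (f := k) (fun _ _ => Nat.zero_le _) hv)) _
      (hk v (hs ▸ Submodule.subset_span hv))
  exact fun v hv => this hv

/-- finitary extension -/
theorem FE (h2 : (2 : F) ≠ 0) (V : Submodule F (L F)) [FiniteDimensional F V] (j : L F →ₗ[F] E F)
    (hj : ∀ v ∈ V, om (j v) = -j v) (hm : ∀ v ∈ V, j v - ι F v ∈ m F * m F) :
    ∃ h ∈ G F, ∀ v ∈ V, h (ι F v) = j v := by
  obtain ⟨π, hπ1, hπ2⟩ := exists_proj V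
  set j' : L F →ₗ[F] E F := ι F + (j - ι F) ∘ₗ π with hj'
  have hodd : ∀ v, om (j' v) = -j' v := by
    intro v
    simp only [hj', LinearMap.add_apply, LinearMap.comp_apply, LinearMap.sub_apply, map_add, map_sub,
      om_ι, hj _ (hπ1 v)]
    abel
  set h : E F →ₐ[F] E F := ExteriorAlgebra.lift F ⟨j', fun v => odd_sq h2 (hodd v)⟩ with hh
  have hι : ∀ v, h (ι F v) = j' v := fun v => by simp [hh]
  obtain ⟨n, hn⟩ := fin_bound V (j - ι F) hm
  have hG : ∀ x, h x - x ∈ m F * J F n := by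
    intro x
    induction x using left_ind with
    | h0 r => simp
    | add x y hx hy =>
      convert add_mem hx hy using 1
      rw [map_add]; abel
    | ι_mul x v hx =>
      have h1 : h (ι F v * x) - ι F v * x = (h (ι F v) - ι F v) * h x + ι F v * (h x - x) := by
        rw [map_mul]; noncomm_ring
      rw [h1]
      refine add_mem (mul_right_mem (fun y z hz => J_right y hz) _ ?_)
        (mul_left_mem (fun y z hz => m_left y hz) _ hx)
      rw [hι]; simpa [hj'] using hn _ (hπ1 v)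
  have hbij : Function.Bijective h :=
    (Module.End.isUnit_iff h.toLinearMap).1 (unip_isUnit (unip h n hG))
  refine ⟨AlgEquiv.ofBijective h hbij, ⟨?_, n, hG⟩, fun v hv => ?_⟩
  · have : (om : E F ≃ₐ[F] E F).toAlgHom.comp h = h.comp (om : E F ≃ₐ[F] E F).toAlgHom := by
      refine ExteriorAlgebra.hom_ext (LinearMap.ext fun v => ?_)
      simp [hι, hodd]
    change _ = _
    ext x
    exact DFunLike.congr_fun this x
  · rw [AlgEquiv.coe_ofBijective, hι]; simp [hj', hπ2 v hv]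

end Pool.Agent.H89.GR
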