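import Pool.Agent.H89.GR3

set_option autoImplicit false
open ExteriorAlgebra

namespace Pool.Agent.H89.GR

variable {F : Type*} [Field F]

theorem sq_apply {φ : E F ≃ₐ[F] E F} (h : φ * φ = 1) (x : E F) : φ (φ x) = x :=
  DFunLike.congr_fun h x

/-- if the linear part does not preserve `V`, the frame can be shrunk -/
theorem shrink (h2 : (2 : F) ≠ 0) (φ : E F ≃ₐ[F] E F) (hφ : φ * φ = 1) (hc : Commute om φ)
    (a : L F →ₗ[F] L F) (ha : Lin φ a) (S : Set (E F)) (hS : ∀ x ∈ S, φ x ∈ S)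
    (V : Submodule F (L F)) [FiniteDimensional F V] (hV : ∀ x ∈ S, x ∈ Λ V) (w : L F) (hw : w ∈ V)
    (hw' : a w ∉ V) : ∃ h ∈ G F, ∃ V' : Submodule F (L F), V' < V ∧ ∀ x ∈ S, h⁻¹ x ∈ Λ V' := by
  obtain ⟨d, hd1, hd2⟩ := exists_dual hw'
  set D : E F →ₗ[F] E F := φ.toLinearMap ∘ₗ ct d ∘ₗ φ.toLinearMap with hD
  have hDa : ∀ x, D x = φ (ct d (φ x)) := fun x => rfl
  have hDmul : ∀ x y, D (x * y) = D x * y + om x * D y := by
    intro x y
    rw [hDa, hDa, hDa, map_mul, ct_mul, map_add, map_mul, map_mul, sq_apply hφ, comm_om hc,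
      sq_apply hφ]
  have hDom : ∀ x, D (om x) = -om (D x) := by
    intro x
    rw [hDa, hDa, ← comm_om hc, ct_om, map_neg, comm_om hc]
  have hDev : ∀ v, om (D (ι F v)) = D (ι F v) := by
    intro v
    have := hDom (ι F v)
    rw [om_ι, map_neg, neg_inj] at this
    exact this.symm
  have hDeps : ∀ v, eps (D (ι F v)) = d (a v) := by
    intro v
    rw [hDa]
    exact (eps_hom φ.toAlgHom _).trans (eps_ct_of (ha v) d)
  have hcu : IsUnit (D (ι F w)) := by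
    refine unip_isUnit (nilp_of_m ?_)
    rw [mem_m, map_sub, hDeps, hd1]; simp
  obtain ⟨b, hb1, hb2⟩ := isUnit_iff_exists.1 hcu
  have hbev : om b = b := by
    have h1 := congrArg om hb1
    rw [map_mul, hDev, map_one] at h1
    calc om b = (b * D (ι F w)) * om b := by rw [hb2, one_mul]
      _ = b := by rw [mul_assoc, h1, mul_one]
  set c := ι F w * b with hcdef
  have hcodd : om c = -c := by rw [hcdef, map_mul, om_ι, hbev, neg_mul]
  have hD1 : D 1 = 0 := by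
    rw [hDa, map_one, ← map_one (algebraMap F (E F)), ct_algebraMap, map_zero]
  set p : E F →ₐ[F] E F := AlgHom.ofLinearMap (LinearMap.id - LinearMap.mulLeft F c ∘ₗ D)
    (by simp [hD1]) (by
      intro x y
      simp only [LinearMap.sub_apply, LinearMap.id_apply, LinearMap.comp_apply,
        LinearMap.mulLeft_apply, hDmul]
      have h1 : x * c = c * om x := by rw [odd_comm h2 hcodd, om_om]
      have h3 : c * D x * c = 0 := by
        rw [odd_comm h2 hcodd, mul_assoc, odd_sq h2 hcodd, mul_zero]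
      have h4 : (x - c * D x) * (y - c * D y)
          = x * y - (x * c) * D y - c * D x * y + (c * D x * c) * D y := by noncomm_ring
      rw [h4, h1, h3]; noncomm_ring) with hp
  have hpa : ∀ x, p x = x - c * D x := fun x => rfl
  set V' : Submodule F (L F) := V ⊓ LinearMap.ker (d ∘ₗ a) with hV'
  have : FiniteDimensional F V' := Submodule.finiteDimensional_of_le inf_le_left
  obtain ⟨h, hG, hh⟩ := FE h2 V' (p.toLinearMap ∘ₗ ι F) (by
      intro v _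
      change om (p (ι F v)) = -p (ι F v)
      rw [hpa, map_sub, map_mul, om_ι, hcodd, hDev]; noncomm_ring) (by
      intro v hv
      change p (ι F v) - ι F v ∈ _
      rw [hpa, sub_sub_cancel_left]
      refine neg_mem (Submodule.mul_mem_mul (m_right _ (ι_mem_m _)) ?_)
      rw [mem_m, hDeps]; exact hv.2)
  refine ⟨h, hG, V', lt_of_le_of_ne inf_le_left (fun heq => ?_), fun x hx => ?_⟩
  · have h1 : w ∈ V' := heq ▸ hw
    have h3 : d (a w) = 0 := h1.2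
    rw [hd1] at h3; exact one_ne_zero h3
  · have h1 : p x = x := by
      rw [hpa, hDa, ct_Λ d hd2 _ (hV _ (hS x hx))]; simp
    have h3 := Λ_map ((h⁻¹ : E F ≃ₐ[F] E F).toAlgHom.comp p) (Λ V') (V := V) (by
      intro v hv
      have h4 : v - d (a v) • w ∈ V' := ⟨sub_mem hv (V.smul_mem _ hw), by simp [hd1]⟩
      have h5 : p (ι F w) = 0 := by rw [hpa, hcdef, mul_assoc, hb2, mul_one, sub_self]
      have h6 : p (ι F v) = h (ι F (v - d (a v) • w)) := by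
        rw [hh _ h4]; simp [h5]
      change h⁻¹ (p (ι F v)) ∈ _
      rw [h6]
      simpa [AlgEquiv.aut_inv] using ι_mem_Λ h4) x (hV x hx)
    change h⁻¹ (p x) ∈ _ at h3
    rwa [h1] at h3

/-- invariant frame when the linear part preserves `V` -/
theorem invariant (h2 : (2 : F) ≠ 0) (φ : E F ≃ₐ[F] E F) (hφ : φ * φ = 1) (hc : Commute om φ)
    (a : L F →ₗ[F] L F) (ha : Lin φ a) (S : Set (E F)) (hS : ∀ x ∈ S, φ x ∈ S)
    (V : Submodule F (L F)) [FiniteDimensional F V] (hV : ∀ x ∈ S, x ∈ Λ V)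
    (haV : ∀ w ∈ V, a w ∈ V) :
    ∃ s ∈ G F, (∀ x ∈ S, s⁻¹ x ∈ Λ V) ∧ ∀ x ∈ Λ V, (s⁻¹ * φ * s) x ∈ Λ V := by
  have hφ' : φ⁻¹ = φ := inv_eq_of_mul_eq_one_right hφ
  obtain ⟨π, hπ1, hπ2⟩ := exists_proj V
  set p : E F →ₐ[F] E F := ExteriorAlgebra.map π with hp
  have hpΛ : ∀ x, p x ∈ Λ V := by
    intro x
    induction x using left_ind with
    | h0 r => rw [AlgHom.commutes]; exact Subalgebra.algebraMap_mem _ _
    | add x y hx hy => rw [map_add]; exact add_mem hx hy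
    | ι_mul x v hx => rw [map_mul, hp, map_apply_ι]; exact mul_mem (ι_mem_Λ (hπ1 v)) hx
  have hpfix : ∀ x ∈ Λ V, p x = x :=
    Λ_eq p (AlgHom.id F _) (fun v hv => by simp [hp, hπ2 v hv])
  have hpom : ∀ x, om (p x) = p (om x) := by
    have : (om : E F ≃ₐ[F] E F).toAlgHom.comp p = p.comp (om : E F ≃ₐ[F] E F).toAlgHom := by
      refine ExteriorAlgebra.hom_ext (LinearMap.ext fun v => ?_)
      simp [hp]
    exact fun x => DFunLike.congr_fun this x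
  set q : E F →ₐ[F] E F := φ.toAlgHom.comp (p.comp φ.toAlgHom) with hq
  have hqa : ∀ x, q x = φ (p (φ x)) := fun x => rfl
  obtain ⟨k, hkG, hk⟩ := FE h2 V (q.toLinearMap ∘ₗ ι F) (by
      intro v _
      change om (q (ι F v)) = -q (ι F v)
      rw [hqa, comm_om hc, hpom, comm_om hc, om_ι]; simp) (by
      intro v hv
      change q (ι F v) - ι F v ∈ _
      have h1 := hom_mm φ.toAlgHom (hom_mm p (ha v))
      have h3 := ha (a v)
      rw [Lin_invol ha hφ] at h3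
      rw [map_sub, hpfix _ (ι_mem_Λ (haV v hv)), map_sub] at h1
      convert add_mem h1 h3 using 1
      simp [hqa])
  have hkq : ∀ x ∈ Λ V, k x = q x := Λ_eq k.toAlgHom q hk
  set ψ := φ * k with hψ
  have hψa : ∀ x ∈ Λ V, ψ x = p (φ x) := by
    intro x hx
    rw [hψ, AlgEquiv.mul_apply, hkq x hx, hqa, sq_apply hφ]
  have hψΛ : ∀ x ∈ (Λ V).toSubmodule, ψ x ∈ (Λ V).toSubmodule := fun x hx => by
    rw [hψa x hx]; exact hpΛ _
  have hkS : ∀ x ∈ S, k x = x := fun x hx => by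
    rw [hkq x (hV x hx), hqa, hpfix _ (hV _ (hS x hx)), sq_apply hφ]
  have hhG : ψ * ψ ∈ G F := by
    have := mul_mem (G_conj hc hkG) hkG
    rwa [hφ', mul_assoc (φ * k)] at this
  obtain ⟨t, htG, ht1, ht2, ht3, ht4⟩ := G_sqrt h2 hhG
  have htψ : Commute ψ t := ht2 ψ ((Commute.refl ψ).mul_right (Commute.refl ψ))
  have htS : ∀ x ∈ S, t⁻¹ x = x := by
    intro x hx
    have : t x = x := ht3 x (by
      simp only [hψ, AlgEquiv.mul_apply]
      rw [hkS x hx, hkS _ (hS x hx), sq_apply hφ])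
    conv_lhs => rw [← this]
    simp [AlgEquiv.aut_inv]
  set σ := ψ * t⁻¹ with hσ
  have hσσ : σ * σ = 1 := by
    calc σ * σ = ψ * (t⁻¹ * ψ) * t⁻¹ := by rw [hσ]; group
      _ = (ψ * ψ) * (t * t)⁻¹ := by rw [← htψ.inv_right.eq]; group
      _ = 1 := by rw [ht1]; simp
  have hσΛ : ∀ x ∈ Λ V, σ x ∈ Λ V := fun x hx =>
    hψΛ _ (G_inv_pres htG _ (ht4 _ (fun y hy => hψΛ _ (hψΛ y hy))) x hx)
  set u := k * t⁻¹ with hu
  have huG : u ∈ G F := mul_mem hkG (inv_mem htG)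
  have hφu : φ = u * σ := by
    have h1 : φ * σ = u := by rw [hσ, hψ, ← mul_assoc, ← mul_assoc, hφ, one_mul]
    rw [← h1, mul_assoc, hσσ, mul_one]
  obtain ⟨s, hsG, hs1, hs2, hs3, -⟩ := G_sqrt h2 huG
  have hd := dihedral h2 u s σ hσσ hs1 (G_nil hsG) hs2 (by
    refine eq_inv_of_mul_eq_one_right ?_
    calc u * (σ * u * σ) = (u * σ) * (u * σ) := by group
      _ = 1 := by rw [← hφu, hφ])
  refine ⟨s, hsG, fun x hx => ?_, fun x hx => ?_⟩
  · have h1 : s x = x := hs3 x (by rw [hu, AlgEquiv.mul_apply, htS x hx, hkS x hx])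
    have h3 : s⁻¹ x = x := by
      conv_lhs => rw [← h1]
      simp [AlgEquiv.aut_inv]
    rw [h3]; exact hV x hx
  · have h1 : s⁻¹ * φ * s = σ := by
      rw [hφu, ← hs1]
      calc s⁻¹ * (s * s * σ) * s = s * (σ * s * (σ * σ)) := by rw [hσσ]; group
        _ = s * (σ * s * σ) * σ := by group
        _ = σ := by rw [hd]; group
    rw [h1]; exact hσΛ x hx

theorem conj_sq {φ : E F ≃ₐ[F] E F} (hφ : φ * φ = 1) (Θ : E F ≃ₐ[F] E F) :
    (Θ⁻¹ * φ * Θ) * (Θ⁻¹ * φ * Θ) = 1 := by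
  calc _ = Θ⁻¹ * (φ * φ) * Θ := by group
    _ = 1 := by rw [hφ]; simp

theorem conj_comm {φ Θ : E F ≃ₐ[F] E F} (hc : Commute om φ) (h : Θ ∈ G F) :
    Commute om (Θ⁻¹ * φ * Θ) := (h.1.inv_right.mul_right hc).mul_right h.1

theorem EL (h2 : (2 : F) ≠ 0) (φ : E F ≃ₐ[F] E F) (hφ : φ * φ = 1) (hc : Commute om φ)
    (a : L F →ₗ[F] L F) (ha : Lin φ a) (S : Set (E F)) (hS : ∀ x ∈ S, φ x ∈ S)
    (V0 : Submodule F (L F)) [FiniteDimensional F V0] (hV0 : ∀ x ∈ S, x ∈ Λ V0) :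
    ∃ Θ ∈ G F, ∃ V : Submodule F (L F), FiniteDimensional F V ∧ (∀ w ∈ V, a w ∈ V) ∧
      (∀ x ∈ S, Θ⁻¹ x ∈ Λ V) ∧ ∀ x ∈ Λ V, (Θ⁻¹ * φ * Θ) x ∈ Λ V := by
  classical
  have hex : ∃ n, ∃ Θ ∈ G F, ∃ V : Submodule F (L F), FiniteDimensional F V ∧
      Module.finrank F V = n ∧ ∀ x ∈ S, Θ⁻¹ x ∈ Λ V :=
    ⟨_, 1, one_mem _, V0, inferInstance, rfl, by simpa using hV0⟩
  obtain ⟨Θ, hΘ, V, hfin, hn, hV⟩ := Nat.find_spec hex
  set S1 : Set (E F) := (Θ⁻¹ : E F ≃ₐ[F] E F) '' S with hS1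
  have hS1φ : ∀ x ∈ S1, (Θ⁻¹ * φ * Θ) x ∈ S1 := by
    rintro _ ⟨x, hx, rfl⟩
    exact ⟨φ x, hS x hx, by simp [AlgEquiv.aut_inv]⟩
  have hS1V : ∀ x ∈ S1, x ∈ Λ V := by rintro _ ⟨x, hx, rfl⟩; exact hV x hx
  have haV : ∀ w ∈ V, a w ∈ V := by
    intro w hw
    by_contra hw'
    obtain ⟨h, hG, V', hlt, hV'⟩ := shrink h2 _ (conj_sq hφ Θ) (conj_comm hc hΘ) a (Lin_conj ha hΘ)
      S1 hS1φ V hS1V w hw hw'
    have h1 := Submodule.finrank_lt_finrank_of_lt hlt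
    rw [hn] at h1
    refine Nat.find_min hex h1 ⟨Θ * h, mul_mem hΘ hG, V',
      Submodule.finiteDimensional_of_le hlt.le, rfl, fun x hx => ?_⟩
    rw [mul_inv_rev]; exact hV' _ ⟨x, hx, rfl⟩
  obtain ⟨s, hsG, hs1, hs2⟩ := invariant h2 _ (conj_sq hφ Θ) (conj_comm hc hΘ) a (Lin_conj ha hΘ)
    S1 hS1φ V hS1V haV
  refine ⟨Θ * s, mul_mem hΘ hsG, V, hfin, haV, fun x hx => ?_, fun x hx => ?_⟩
  · rw [mul_inv_rev]; exact hs1 _ ⟨x, hx, rfl⟩
  · have : (Θ * s)⁻¹ * φ * (Θ * s) = s⁻¹ * (Θ⁻¹ * φ * Θ) * s := by group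
    rw [this]; exact hs2 x hx

theorem SL (h2 : (2 : F) ≠ 0) (φ : E F ≃ₐ[F] E F) (hφ : φ * φ = 1) (hc : Commute om φ)
    (a : L F →ₗ[F] L F) (ha : Lin φ a) (W : Submodule F (L F)) [FiniteDimensional F W]
    (haW : ∀ w ∈ W, a w ∈ W) (hW : ∀ w ∈ W, φ (ι F w) = ι F (a w)) (x : E F) :
    ∃ Θ ∈ G F, ∃ V : Submodule F (L F), FiniteDimensional F V ∧ W ≤ V ∧ (∀ w ∈ V, a w ∈ V) ∧
      (∀ w ∈ W, Θ (ι F w) = ι F w) ∧ (∀ v ∈ V, φ (Θ (ι F v)) = Θ (ι F (a v))) ∧ Θ⁻¹ x ∈ Λ V := by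
  obtain ⟨V1, _, hV1⟩ := exists_Λ x
  obtain ⟨V2, _, hV2⟩ := exists_Λ (φ x)
  obtain ⟨Θ, hΘ, V, hfin, haV, hS, hinv⟩ := EL h2 φ hφ hc a ha (ι F '' W ∪ {x, φ x}) (by
      rintro _ (⟨w, hw, rfl⟩ | rfl | rfl)
      · exact Or.inl ⟨a w, haW w hw, (hW w hw).symm⟩
      · simp
      · simp [sq_apply hφ]) (W ⊔ V1 ⊔ V2) (by
      rintro _ (⟨w, hw, rfl⟩ | rfl | rfl)
      · exact ι_mem_Λ (Submodule.mem_sup_left (Submodule.mem_sup_left hw))
      · exact Λ_mono (le_sup_right.trans le_sup_left) hV1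
      · exact Λ_mono le_sup_right hV2)
  have hWΛ : ∀ w ∈ W, Θ⁻¹ (ι F w) ∈ Λ V := fun w hw => hS _ (Or.inl ⟨w, hw, rfl⟩)
  have hWV : W ≤ V := fun w hw => mem_of_Λ (G_mm (inv_mem hΘ) _) (hWΛ w hw)
  obtain ⟨π, hπ1, hπ2⟩ := exists_proj W
  set j0 : L F →ₗ[F] E F := ι F ∘ₗ π + Θ.toLinearMap ∘ₗ ι F ∘ₗ (LinearMap.id - π) with hj0
  have hj0a : ∀ v, j0 v = ι F (π v) + Θ (ι F (v - π v)) := fun v => rfl
  have hj0odd : ∀ v, om (j0 v) = -j0 v := fun v => by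
    rw [hj0a, map_add, om_ι, odd_ι hΘ.1]; abel
  have hj0m : ∀ v, j0 v - ι F v ∈ m F * m F := fun v => by
    convert G_mm hΘ (ι F (v - π v)) using 1
    rw [hj0a, map_sub (ι F)]; abel
  have hj0Λ : ∀ v ∈ V, Θ⁻¹ (j0 v) ∈ Λ V := fun v hv => by
    rw [hj0a, map_add]
    refine add_mem (hWΛ _ (hπ1 v)) ?_
    simpa [AlgEquiv.aut_inv] using ι_mem_Λ (sub_mem hv (hWV (hπ1 v)))
  set j : L F →ₗ[F] E F := (2⁻¹ : F) • (j0 + φ.toLinearMap ∘ₗ j0 ∘ₗ a) with hj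
  have hja : ∀ v, j v = (2⁻¹ : F) • (j0 v + φ (j0 (a v))) := fun v => rfl
  have hhalf : ∀ y : E F, (2⁻¹ : F) • (y + y) = y := fun y => by
    rw [← two_smul F, smul_smul, inv_mul_cancel₀ h2, one_smul]
  obtain ⟨Θ', hΘ', hΘj⟩ := FE h2 V j (by
      intro v _
      rw [hja, map_smul, map_add, comm_om hc, hj0odd, hj0odd, map_neg, ← smul_neg, neg_add]) (by
      intro v _
      have h1 : φ (j0 (a v) - ι F (a v)) ∈ m F * m F := hom_mm φ.toAlgHom (hj0m (a v))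
      have h3 := ha (a v)
      rw [Lin_invol ha hφ] at h3
      convert Submodule.smul_mem _ (2⁻¹ : F) (add_mem (hj0m v) (add_mem h1 h3)) using 1
      rw [hja, ← hhalf (ι F v), ← smul_sub, hhalf]
      congr 1
      rw [map_sub]; abel)
  refine ⟨Θ', hΘ', V, hfin, hWV, haV, fun w hw => ?_, fun v hv => ?_, ?_⟩
  · rw [hΘj w (hWV hw), hja, hj0a, hj0a, hπ2 w hw, hπ2 _ (haW w hw), sub_self, sub_self]
    simp only [map_zero, add_zero]
    rw [hW _ (haW w hw), Lin_invol ha hφ, hhalf]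
  · rw [hΘj v hv, hΘj _ (haV v hv), hja, hja, map_smul, map_add, sq_apply hφ, Lin_invol ha hφ,
      add_comm]
  · have hk : Θ⁻¹ * Θ' ∈ G F := mul_mem (inv_mem hΘ) hΘ'
    have h1 := Λ_map (Θ⁻¹ * Θ' : E F ≃ₐ[F] E F).toAlgHom (Λ V) (V := V) (by
      intro v hv
      change Θ⁻¹ (Θ' (ι F v)) ∈ _
      rw [hΘj v hv, hja, map_smul, map_add]
      refine Subalgebra.smul_mem _ (add_mem (hj0Λ v hv) ?_) _
      have := hinv _ (hj0Λ _ (haV v hv))
      simpa [AlgEquiv.aut_inv] using this)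
    have h3 := G_inv_pres hk (Λ V).toSubmodule h1 _ (hS x (by simp))
    simpa [AlgEquiv.aut_inv] using h3

end Pool.Agent.H89.GR
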