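import Pool.Agent.H89.GR4

set_option autoImplicit false
open ExteriorAlgebra

namespace Pool.Agent.H89.GR

variable {F : Type*} [Field F]

structure St (φ : E F ≃ₐ[F] E F) (a : L F →ₗ[F] L F) where
  Θ : E F ≃ₐ[F] E F
  V : Submodule F (L F)
  hΘ : Θ ∈ G F
  fin : FiniteDimensional F V
  haV : ∀ w ∈ V, a w ∈ V
  hφ : ∀ v ∈ V, φ (Θ (ι F v)) = Θ (ι F (a v))

theorem step (h2 : (2 : F) ≠ 0) (φ : E F ≃ₐ[F] E F) (hφ : φ * φ = 1) (hc : Commute om φ)
    (a : L F →ₗ[F] L F) (ha : Lin φ a) (s : St φ a) (n : ℕ) :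
    ∃ t : St φ a, s.V ≤ t.V ∧ (∀ v ∈ s.V, t.Θ (ι F v) = s.Θ (ι F v)) ∧ t.Θ⁻¹ (e n) ∈ Λ t.V := by
  have := s.fin
  obtain ⟨Θ, hΘ, V, hfin, hWV, haV, h1, h3, h4⟩ := SL h2 _ (conj_sq hφ s.Θ) (conj_comm hc s.hΘ) a
    (Lin_conj ha s.hΘ) s.V s.haV (fun w hw => by
      simp [s.hφ w hw, AlgEquiv.aut_inv]) (s.Θ⁻¹ (e n))
  refine ⟨⟨s.Θ * Θ, V, mul_mem s.hΘ hΘ, hfin, haV, fun v hv => ?_⟩, hWV, fun v hv => ?_, ?_⟩
  · have := congrArg s.Θ (h3 v hv)
    simpa [AlgEquiv.aut_inv] using this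
  · simp [h1 v hv]
  · simpa [mul_inv_rev] using h4

theorem linearize (h2 : (2 : F) ≠ 0) (φ : E F ≃ₐ[F] E F) (hφ : φ * φ = 1) (hc : Commute om φ)
    (a : L F →ₗ[F] L F) (ha : Lin φ a) :
    ∃ Θ : E F ≃ₐ[F] E F, ∀ v, φ (Θ (ι F v)) = Θ (ι F (a v)) := by
  choose nx hnx using step h2 φ hφ hc a ha
  let s0 : St φ a := ⟨1, ⊥, one_mem _, inferInstance, by simp, by simp⟩
  obtain ⟨s, hs⟩ : ∃ s : ℕ → St φ a, ∀ n, s (n + 1) = nx (s n) n :=
    ⟨fun n => Nat.rec s0 (fun n t => nx t n) n, fun n => rfl⟩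
  have hmono : ∀ n k, n ≤ k → (s n).V ≤ (s k).V ∧
      ∀ v ∈ (s n).V, (s k).Θ (ι F v) = (s n).Θ (ι F v) := by
    intro n k hnk
    induction k, hnk using Nat.le_induction with
    | base => exact ⟨le_rfl, fun _ _ => rfl⟩
    | succ k _ ih =>
      rw [hs]
      exact ⟨ih.1.trans (hnx _ _).1, fun v hv => by rw [(hnx _ _).2.1 v (ih.1 hv), ih.2 v hv]⟩
  have he : ∀ n, (s (n + 1)).Θ⁻¹ (e n) ∈ Λ (s (n + 1)).V := fun n => by
    rw [hs]; exact (hnx _ _).2.2
  have heV : ∀ n, Finsupp.single n (1 : F) ∈ (s (n + 1)).V := fun n =>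
    mem_of_Λ (G_mm (inv_mem (s (n + 1)).hΘ) _) (he n)
  set j : L F →ₗ[F] E F := Finsupp.linearCombination F (fun n => (s (n + 1)).Θ (e n)) with hj
  have hjv : ∀ v, ∃ n, ∀ k, n ≤ k → v ∈ (s k).V ∧ j v = (s k).Θ (ι F v) := by
    intro v
    induction v using Finsupp.induction_linear with
    | zero => exact ⟨0, fun k _ => by simp⟩
    | add v w hv hw =>
      obtain ⟨n, hn⟩ := hv
      obtain ⟨n', hn'⟩ := hw
      refine ⟨n + n', fun k hk => ⟨add_mem (hn k (by omega)).1 (hn' k (by omega)).1, ?_⟩⟩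
      rw [map_add, map_add, map_add, (hn k (by omega)).2, (hn' k (by omega)).2]
    | single i c =>
      have h1 : Finsupp.single i c = c • Finsupp.single i (1 : F) := by simp
      refine ⟨i + 1, fun k hk => ⟨?_, ?_⟩⟩
      · rw [h1]; exact Submodule.smul_mem _ _ ((hmono _ _ hk).1 (heV i))
      · rw [hj, Finsupp.linearCombination_single, h1, map_smul, map_smul,
          (hmono _ _ hk).2 _ (heV i), e]
  have hodd : ∀ v, om (j v) = -j v := by
    intro v
    obtain ⟨n, hn⟩ := hjv v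
    rw [(hn n le_rfl).2]; exact odd_ι (s n).hΘ.1 v
  set T : E F →ₐ[F] E F := ExteriorAlgebra.lift F ⟨j, fun v => odd_sq h2 (hodd v)⟩ with hT
  have hι : ∀ v, T (ι F v) = j v := fun v => by simp [hT]
  have hTx : ∀ x, ∃ n, ∀ k, n ≤ k → T x = (s k).Θ x := by
    intro x
    induction x using left_ind with
    | h0 r => exact ⟨0, fun k _ => by simp⟩
    | add x y hx hy =>
      obtain ⟨n, hn⟩ := hx
      obtain ⟨n', hn'⟩ := hy
      exact ⟨n + n', fun k hk => by rw [map_add, map_add, hn k (by omega), hn' k (by omega)]⟩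
    | ι_mul x v hx =>
      obtain ⟨n, hn⟩ := hx
      obtain ⟨n', hn'⟩ := hjv v
      exact ⟨n + n', fun k hk => by
        rw [map_mul, map_mul, hn k (by omega), hι, (hn' k (by omega)).2]⟩
  have hTΛ : ∀ n, ∀ x ∈ Λ (s n).V, T x = (s n).Θ x := fun n =>
    Λ_eq T (s n).Θ.toAlgHom (fun v hv => by
      obtain ⟨k, hk⟩ := hjv v
      rw [hι, (hk (k + n) (by omega)).2, (hmono n _ (by omega)).2 v hv]; rfl)
  have hinj : Function.Injective T := by
    rw [injective_iff_map_eq_zero]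
    intro x hx
    obtain ⟨n, hn⟩ := hTx x
    rw [hn n le_rfl] at hx
    simpa using hx
  have hsurj : Function.Surjective T := by
    have h1 : ∀ v, ι F v ∈ T.range := by
      intro v
      induction v using Finsupp.induction_linear with
      | zero => simp
      | add v w hv hw => rw [map_add]; exact add_mem hv hw
      | single i c =>
        have h1 : Finsupp.single i c = c • Finsupp.single i (1 : F) := by simp
        rw [h1, map_smul]
        refine Subalgebra.smul_mem _ ((AlgHom.mem_range T).2 ⟨(s (i + 1)).Θ⁻¹ (e i), ?_⟩) _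
        rw [hTΛ _ _ (he i), AlgEquiv.aut_inv, AlgEquiv.apply_symm_apply, e]
    intro x
    change x ∈ T.range
    induction x using left_ind with
    | h0 r => exact Subalgebra.algebraMap_mem _ _
    | add x y hx hy => exact add_mem hx hy
    | ι_mul x v hx => exact mul_mem (h1 v) hx
  refine ⟨AlgEquiv.ofBijective T ⟨hinj, hsurj⟩, fun v => ?_⟩
  rw [AlgEquiv.coe_ofBijective, hι, hι]
  obtain ⟨n, hn⟩ := hjv v
  obtain ⟨k, hk⟩ := hjv (a v)
  rw [(hn (n + k) (by omega)).2, (hk (n + k) (by omega)).2]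
  exact (s (n + k)).hφ v (hn (n + k) (by omega)).1

theorem central_even (h2 : (2 : F) ≠ 0) {x : E F} (hx : ∀ y, x * y = y * x) : om x = x := by
  have h1 : ∀ v, ι F v * (x - om x) = 0 := by
    intro v
    have h3 := (super x (ι F v)).1
    have h4 := (super x (ι F v)).2
    have h5 := hx (ι F v)
    rw [om_ι] at h4
    refine two_cancel h2 ?_
    have h6 : om x * ι F v = ι F v * om x := by
      rw [add_mul, mul_add, h5] at h3
      exact add_left_cancel h3
    rw [add_zero]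
    nth_rewrite 1 [show ι F v * (x - om x) = (x - om x) * ι F v by rw [mul_sub, sub_mul, h5, h6]]
    rw [h4]; simp
  obtain ⟨V, _, hV⟩ := exists_Λ (x - om x)
  have hVt : V ≠ ⊤ := by
    rintro rfl
    have : Module.Finite F (L F) := Module.Finite.equiv Submodule.topEquiv
    exact Module.not_finite_of_infinite_basis (Finsupp.basisSingleOne (R := F) (ι := ℕ)) this
  obtain ⟨w, hw⟩ : ∃ w, w ∉ V := by
    by_contra h
    push Not at h
    exact hVt (eq_top_iff.2 fun w _ => h w)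
  obtain ⟨d, hd1, hd2⟩ := exists_dual hw
  have h3 := congrArg (ct d) (h1 w)
  rw [ct_ι_mul, ct_Λ d hd2 _ hV, hd1] at h3
  simp only [one_smul, mul_zero, sub_zero, map_zero] at h3
  exact (sub_eq_zero.1 h3).symm

theorem parity (h2 : (2 : F) ≠ 0) (φ : E F ≃ₐ[F] E F) (hφ : φ * φ = 1) :
    ∃ r : E F ≃ₐ[F] E F, Commute om (r⁻¹ * φ * r) := by
  have hev : ∀ x, om x = x → om (φ x) = φ x := by
    intro x hx
    refine central_even h2 (fun y => ?_)
    rw [← sq_apply hφ y, ← map_mul, ← map_mul, even_comm h2 hx]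
  set u := φ * om * φ * om with hu
  have hua : ∀ x, u x = φ (om (φ (om x))) := fun x => rfl
  have h1 : ∀ x, om x = x → u x = x := fun x hx => by rw [hua, hx, hev x hx, sq_apply hφ]
  have h3 : ∀ x, om (u x - x) = u x - x := by
    intro x
    refine two_cancel h2 ?_
    have h4 := h1 (x + om x) (by rw [map_add, om_om, add_comm])
    set y := x - om x with hy
    have h5 : om y = -y := by rw [hy, map_sub, om_om, neg_sub]
    have h6 : u y - y = -φ (φ y + om (φ y)) := by
      rw [hua, h5, map_add, sq_apply hφ]; simp only [map_neg]; abel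
    have h7 : om (u y - y) = u y - y := by
      rw [h6, map_neg, hev _ (by rw [map_add, om_om, add_comm])]
    have h8 : u x - x + (u x - x) = u y - y := by
      rw [map_add] at h4
      rw [hy, map_sub]
      have : u (om x) = x + om x - u x := by rw [← h4]; abel
      rw [this]; abel
    rw [← map_add, h8, h7]
  have hnil : IsNilpotent (u.toLinearMap - 1 : Module.End F (E F)) := by
    refine ⟨2, LinearMap.ext fun x => ?_⟩
    have := h1 _ (h3 x)
    rw [pow_two, Module.End.mul_apply]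
    exact sub_eq_zero.2 this
  obtain ⟨s, hs1, hs2, hs3, -⟩ := exists_sqrt h2 u hnil
  obtain ⟨r, hr1, hr2, hr3, -⟩ := exists_sqrt h2 s hs2
  have hω := om_mul_om (F := F)
  have hφ' : ∀ z : E F ≃ₐ[F] E F, φ * (φ * z) = z := fun z => by rw [← mul_assoc, hφ, one_mul]
  have hω' : ∀ z : E F ≃ₐ[F] E F, om * (om * z) = z := fun z => by rw [← mul_assoc, hω, one_mul]
  have hd1 := dihedral h2 u s φ hφ hs1 hs2 hs3 (by
    refine eq_inv_of_mul_eq_one_right ?_
    simp only [hu, mul_assoc, hφ', hω', hφ])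
  have hd2 := dihedral h2 u s om hω hs1 hs2 hs3 (by
    refine eq_inv_of_mul_eq_one_right ?_
    simp only [hu, mul_assoc, hφ', hω', hφ, hω, mul_one])
  have hd3 := dihedral h2 s r om hω hr1 hr2 hr3 hd2
  have h4 : r * om * r⁻¹ = s * om := by
    rw [← hd3, ← hr1]
    calc r * om * (om * r * om) = r * (om * om) * r * om := by group
      _ = _ := by rw [hω, mul_one]
  have h5 : φ * (s * om) = (s * om) * φ := by
    have h6 : φ * om * φ = s * s * om := by
      rw [hs1, hu, mul_assoc _ om om, hω, mul_one]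
    calc φ * (s * om) = φ * s * (φ * φ) * om * (φ * φ) := by rw [hφ]; group
      _ = (φ * s * φ) * (φ * om * φ) * φ := by group
      _ = _ := by rw [hd1, h6]; group
  refine ⟨r, ?_⟩
  change _ = _
  calc om * (r⁻¹ * φ * r) = r⁻¹ * ((r * om * r⁻¹) * φ) * r := by group
    _ = r⁻¹ * (φ * (r * om * r⁻¹)) * r := by rw [h4, h5]
    _ = _ := by group

theorem diag (h2 : (2 : F) ≠ 0) (a : L F →ₗ[F] L F) (ha : ∀ v, a (a v) = v) :
    ∃ T : L F ≃ₗ[F] L F, ∀ n, a (T (Finsupp.single n 1)) = T (Finsupp.single n 1) ∨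
      a (T (Finsupp.single n 1)) = -T (Finsupp.single n 1) := by
  set P := LinearMap.ker (a - LinearMap.id) with hP
  set Q := LinearMap.ker (a + LinearMap.id) with hQ
  have hPm : ∀ v, v ∈ P ↔ a v = v := fun v => by simp [hP, sub_eq_zero]
  have hQm : ∀ v, v ∈ Q ↔ a v = -v := fun v => by simp [hQ, add_eq_zero_iff_eq_neg]
  have hPQ : IsCompl P Q := by
    constructor
    · rw [Submodule.disjoint_def]
      intro v h1 h3
      rw [hPm] at h1
      rw [hQm, h1] at h3
      refine two_cancel h2 ?_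
      rw [add_zero]; exact add_eq_zero_iff_eq_neg.2 h3
    · rw [codisjoint_iff, eq_top_iff]
      intro v _
      have : v = (2⁻¹ : F) • (v + a v) + (2⁻¹ : F) • (v - a v) := by
        rw [← smul_add, show v + a v + (v - a v) = v + v by abel, ← two_smul F, smul_smul,
          inv_mul_cancel₀ h2, one_smul]
      rw [this]
      refine Submodule.add_mem_sup (P.smul_mem _ ?_) (Q.smul_mem _ ?_)
      · rw [hPm, map_add, ha, add_comm]
      · rw [hQm, map_sub, ha, neg_sub]
  set b := ((Module.Basis.ofVectorSpace F P).prod (Module.Basis.ofVectorSpace F Q)).map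
    (Submodule.prodEquivOfIsCompl P Q hPQ) with hb
  refine ⟨Finsupp.basisSingleOne.equiv b (Finsupp.basisSingleOne.indexEquiv b), fun n => ?_⟩
  have h1 : Finsupp.single n (1 : F) = Finsupp.basisSingleOne n := by simp
  rw [h1, Module.Basis.equiv_apply]
  generalize (Finsupp.basisSingleOne.indexEquiv b) n = i
  rcases i with i | i
  · left
    rw [← hPm]; simp [hb]
  · right
    rw [← hQm]; simp [hb]

theorem main (h2 : (2 : F) ≠ 0) (φ : E F ≃ₐ[F] E F) (hφ : φ * φ = 1) :
    ∃ Θ : E F ≃ₐ[F] E F, ∀ n, φ (Θ (e n)) = Θ (e n) ∨ φ (Θ (e n)) = -Θ (e n) := by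
  obtain ⟨r, hr⟩ := parity h2 φ hφ
  obtain ⟨a, ha⟩ := exists_Lin (r⁻¹ * φ * r)
  obtain ⟨Θ, hΘ⟩ := linearize h2 _ (conj_sq hφ r) hr a ha
  obtain ⟨T, hT⟩ := diag h2 a (Lin_invol ha (conj_sq hφ r))
  let M : E F ≃ₐ[F] E F := AlgEquiv.ofAlgHom (ExteriorAlgebra.map T.toLinearMap)
    (ExteriorAlgebra.map T.symm.toLinearMap) (by rw [map_comp_map]; simp)
    (by rw [map_comp_map]; simp)
  have hM : ∀ v, M (ι F v) = ι F (T v) := fun v => map_apply_ι _ _
  refine ⟨r * Θ * M, fun n => ?_⟩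
  have h1 := congrArg r (hΘ (T (Finsupp.single n 1)))
  simp only [AlgEquiv.mul_apply, AlgEquiv.aut_inv, AlgEquiv.apply_symm_apply] at h1
  simp only [AlgEquiv.mul_apply, e, hM, h1]
  rcases hT n with h | h
  · left; rw [h]
  · right; rw [h]; simp

end Pool.Agent.H89.GR
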