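import Mathlib

set_option autoImplicit false

namespace Pool.Agent.H89.HS

open scoped InnerProductSpace ComplexConjugate
open Filter Topology

structure Sys (G H : Type*) [Group G] [NormedAddCommGroup H] [InnerProductSpace ℂ H]
    [CompleteSpace H] where
  b : HilbertBasis G ℂ H
  U : G → H →L[ℂ] H
  σ : G → G → ℂ
  nσ : ∀ g h, ‖σ g h‖ = 1
  σ1 : ∀ g, σ g 1 = 1
  σ1' : ∀ g, σ 1 g = 1
  coc : ∀ g h k, σ g h * σ (g * h) k = σ h k * σ g (h * k)
  Ub : ∀ g h, U g (b h) = σ g h • b (g * h)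

variable {G H : Type*} [Group G] [NormedAddCommGroup H] [InnerProductSpace ℂ H] [CompleteSpace H]

namespace Sys

variable (S : Sys G H)

lemma ext' {T T' : H →L[ℂ] H} (h : ∀ g, T (S.b g) = T' (S.b g)) : T = T' := by
  refine ContinuousLinearMap.ext_on (s := Set.range S.b) ?_ ?_
  · rw [Submodule.dense_iff_topologicalClosure_eq_top]
    exact S.b.dense_span
  · rintro _ ⟨g, rfl⟩
    exact h g

lemma vext {x y : H} (h : ∀ g, ⟪S.b g, x⟫_ℂ = ⟪S.b g, y⟫_ℂ) : x = y := by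
  apply S.b.repr.injective
  ext g
  rw [S.b.repr_apply_apply, S.b.repr_apply_apply, h]

lemma U_mul (g h : G) : S.U g * S.U h = S.σ g h • S.U (g * h) := by
  apply S.ext'
  intro k
  simp only [ContinuousLinearMap.mul_apply, S.Ub, map_smul, ContinuousLinearMap.smul_apply,
    smul_smul, mul_assoc, S.coc]

lemma U_one : S.U 1 = 1 := by
  apply S.ext'
  intro k
  simp [S.Ub, S.σ1']

lemma U_d (g : G) : S.U g (S.b 1) = S.b g := by simp [S.Ub, S.σ1]

noncomputable def ω (g : G) : ℂ := conj (S.σ g⁻¹ g)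

lemma nω (g : G) : ‖S.ω g‖ = 1 := by simp [ω, S.nσ]

lemma cσ (g h : G) : conj (S.σ g h) * S.σ g h = 1 := by
  rw [Complex.conj_mul', S.nσ]; simp

lemma cω (g : G) : conj (S.ω g) * S.ω g = 1 := by
  rw [Complex.conj_mul', S.nω]; simp

lemma star_U (g : G) : star (S.U g) = S.ω g • S.U g⁻¹ := by
  classical
  apply S.ext'
  intro k
  apply S.vext
  intro h
  rw [ContinuousLinearMap.star_eq_adjoint, ContinuousLinearMap.adjoint_inner_right]
  simp only [S.Ub, ContinuousLinearMap.smul_apply, inner_smul_left, inner_smul_right,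
    orthonormal_iff_ite.1 S.b.orthonormal]
  by_cases hk : g * h = k
  · subst hk
    have h1 := S.coc g⁻¹ g h
    rw [inv_mul_cancel, S.σ1', mul_one] at h1
    simp only [if_true, inv_mul_cancel_left, mul_one, ω]
    rw [h1, map_mul, mul_assoc, S.cσ, mul_one]
  · have : ¬ h = g⁻¹ * k := by
      rintro rfl
      exact hk (by simp)
    simp [hk, this]

lemma star_mul_U (g : G) : star (S.U g) * S.U g = 1 := by
  rw [S.star_U, smul_mul_assoc, S.U_mul, smul_smul, inv_mul_cancel, S.U_one, ω, S.cσ, one_smul]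

lemma inner_U (g : G) (x y : H) : ⟪S.U g x, S.U g y⟫_ℂ = ⟪x, y⟫_ℂ := by
  rw [← ContinuousLinearMap.adjoint_inner_right, ← ContinuousLinearMap.star_eq_adjoint,
    ← ContinuousLinearMap.mul_apply, S.star_mul_U, ContinuousLinearMap.one_apply]

lemma norm_U (g : G) (x : H) : ‖S.U g x‖ = ‖x‖ := by
  have := S.inner_U g x x
  rw [inner_self_eq_norm_sq_to_K, inner_self_eq_norm_sq_to_K] at this
  have h2 : ‖S.U g x‖ ^ 2 = ‖x‖ ^ 2 := by exact_mod_cast this
  exact (pow_left_inj₀ (norm_nonneg _) (norm_nonneg _) two_ne_zero).1 h2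

lemma norm_sU (g : G) (x : H) : ‖star (S.U g) x‖ = ‖x‖ := by
  rw [S.star_U, ContinuousLinearMap.smul_apply, norm_smul, S.nω, S.norm_U, one_mul]

lemma nb (g : G) : ‖S.b g‖ = 1 := S.b.orthonormal.1 g

lemma opn_U (g : G) : ‖S.U g‖ = 1 := by
  apply le_antisymm
  · exact ContinuousLinearMap.opNorm_le_bound _ zero_le_one fun x => by rw [S.norm_U, one_mul]
  · have := (S.U g).le_opNorm (S.b 1)
    rwa [S.norm_U, S.nb, mul_one] at this

lemma norm_U_mul (g : G) (T : H →L[ℂ] H) : ‖S.U g * T‖ = ‖T‖ := by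
  apply le_antisymm
  · exact (norm_mul_le _ _).trans (by rw [S.opn_U, one_mul])
  · refine ContinuousLinearMap.opNorm_le_bound _ (norm_nonneg _) fun x => ?_
    rw [← S.norm_U g (T x)]
    exact (S.U g * T).le_opNorm x

def Comm (T : H →L[ℂ] H) : Prop := ∀ g, T * S.U g = S.U g * T

variable {S}

lemma Comm.adj {T : H →L[ℂ] H} (h : S.Comm T) : S.Comm (star T) := by
  intro g
  have h1 : star (S.U g) * T = T * star (S.U g) := by
    rw [S.star_U, smul_mul_assoc, mul_smul_comm, h]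
  have := congrArg Star.star h1
  simpa [star_mul] using this

lemma Comm.mul {T T' : H →L[ℂ] H} (h : S.Comm T) (h' : S.Comm T') : S.Comm (T * T') := by
  intro g
  rw [mul_assoc, h', ← mul_assoc, h, mul_assoc]

lemma Comm.add {T T' : H →L[ℂ] H} (h : S.Comm T) (h' : S.Comm T') : S.Comm (T + T') := by
  intro g
  rw [add_mul, mul_add, h, h']

lemma Comm.sub {T T' : H →L[ℂ] H} (h : S.Comm T) (h' : S.Comm T') : S.Comm (T - T') := by
  intro g
  rw [sub_mul, mul_sub, h, h']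

lemma Comm.smul {T : H →L[ℂ] H} (h : S.Comm T) (c : ℂ) : S.Comm (c • T) := by
  intro g
  rw [smul_mul_assoc, mul_smul_comm, h]

lemma Comm.pow {T : H →L[ℂ] H} (h : S.Comm T) (n : ℕ) : S.Comm (T ^ n) := by
  induction n with
  | zero => intro g; simp
  | succ n ih => rw [pow_succ]; exact ih.mul h

lemma Comm.app {T : H →L[ℂ] H} (h : S.Comm T) (g : G) (x : H) : T (S.U g x) = S.U g (T x) := by
  rw [← ContinuousLinearMap.mul_apply, h, ContinuousLinearMap.mul_apply]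

lemma Comm.b {T : H →L[ℂ] H} (h : S.Comm T) (g : G) : T (S.b g) = S.U g (T (S.b 1)) := by
  rw [← h.app, S.U_d]

lemma trace {T T' : H →L[ℂ] H} (h : S.Comm T) (h' : S.Comm T') :
    ⟪star T (S.b 1), star T' (S.b 1)⟫_ℂ = ⟪T' (S.b 1), T (S.b 1)⟫_ℂ := by
  have h1 := S.b.hasSum_inner_mul_inner (star T (S.b 1)) (star T' (S.b 1))
  have h2 := (Equiv.inv G).hasSum_iff.2 (S.b.hasSum_inner_mul_inner (T' (S.b 1)) (T (S.b 1)))
  refine h1.unique (h2.congr_fun fun g => ?_)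
  have e1 : star (S.U g) (S.b 1) = S.ω g • S.b g⁻¹ := by
    rw [S.star_U, ContinuousLinearMap.smul_apply, S.U_d]
  have e2 : ⟪star T (S.b 1), S.b g⟫_ℂ = conj (S.ω g) * ⟪S.b g⁻¹, T (S.b 1)⟫_ℂ := by
    rw [ContinuousLinearMap.star_eq_adjoint, ContinuousLinearMap.adjoint_inner_left, h.b,
      ← ContinuousLinearMap.adjoint_inner_left, ← ContinuousLinearMap.star_eq_adjoint, e1,
      inner_smul_left]
  have e3 : ⟪S.b g, star T' (S.b 1)⟫_ℂ = S.ω g * ⟪T' (S.b 1), S.b g⁻¹⟫_ℂ := by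
    rw [ContinuousLinearMap.star_eq_adjoint, ContinuousLinearMap.adjoint_inner_right, h'.b,
      ← ContinuousLinearMap.adjoint_inner_right, ← ContinuousLinearMap.star_eq_adjoint, e1,
      inner_smul_right]
  simp only [Function.comp_apply, Equiv.inv_apply]
  rw [e2, e3]
  linear_combination (⟪S.b g⁻¹, T (S.b 1)⟫_ℂ * ⟪T' (S.b 1), S.b g⁻¹⟫_ℂ) * S.cω g

def Bes (S : Sys G H) (K : ℝ) : Prop :=
  ∀ (F : Finset G) (ξ η : H), ∑ g ∈ F, ‖⟪η, S.U g ξ⟫_ℂ‖ ^ 2 ≤ K * ‖ξ‖ ^ 2 * ‖η‖ ^ 2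

lemma exists_R {K : ℝ} (hK0 : 0 ≤ K) (hK : S.Bes K) (ξ : H) :
    ∃ R : H →L[ℂ] H, (∀ g, R (S.b g) = S.U g ξ) ∧ ‖R‖ ≤ √K * ‖ξ‖ := by
  have hb : ∀ (η : H) (F : Finset G), ∑ g ∈ F, ‖⟪S.U g ξ, η⟫_ℂ‖ ^ (2 : ENNReal).toReal
      ≤ (√K * ‖ξ‖ * ‖η‖) ^ (2 : ENNReal).toReal := by
    intro η F
    simp only [ENNReal.toReal_ofNat, Real.rpow_ofNat, mul_pow, Real.sq_sqrt hK0]
    simpa only [norm_inner_symm] using hK F ξ η
  have hm : ∀ η : H, Memℓp (fun g => ⟪S.U g ξ, η⟫_ℂ) 2 := fun η => memℓp_gen' (hb η)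
  let W0 : H →ₗ[ℂ] lp (fun _ : G => ℂ) 2 :=
    { toFun := fun η => ⟨fun g => ⟪S.U g ξ, η⟫_ℂ, hm η⟩
      map_add' := fun x y => by
        ext g
        simp [inner_add_right]
      map_smul' := fun c x => by
        ext g
        simp [inner_smul_right] }
  have hW0 : ∀ η, ‖W0 η‖ ≤ √K * ‖ξ‖ * ‖η‖ := fun η =>
    lp.norm_le_of_forall_sum_le (by norm_num) (by positivity) (hb η)
  let W : H →L[ℂ] H := (S.b.repr.symm.toLinearIsometry.toContinuousLinearMap).comp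
    (W0.mkContinuous _ hW0)
  have hW : ∀ g η, ⟪S.b g, W η⟫_ℂ = ⟪S.U g ξ, η⟫_ℂ := by
    intro g η
    rw [← S.b.repr_apply_apply]
    show S.b.repr (S.b.repr.symm (W0 η)) g = _
    rw [LinearIsometryEquiv.apply_symm_apply]
    rfl
  refine ⟨star W, fun g => ?_, ?_⟩
  · apply ext_inner_right ℂ
    intro η
    rw [ContinuousLinearMap.star_eq_adjoint, ContinuousLinearMap.adjoint_inner_left, hW]
  · rw [norm_star]
    refine ContinuousLinearMap.opNorm_le_bound _ (by positivity) fun η => ?_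
    show ‖S.b.repr.symm (W0 η)‖ ≤ _
    rw [LinearIsometryEquiv.norm_map]
    exact hW0 η

lemma comm_R {R : H →L[ℂ] H} {ξ : H} (h : ∀ g, R (S.b g) = S.U g ξ) : S.Comm R := by
  intro g
  apply S.ext'
  intro k
  simp only [ContinuousLinearMap.mul_apply, S.Ub, map_smul, h]
  rw [← ContinuousLinearMap.mul_apply, S.U_mul, ContinuousLinearMap.smul_apply]

lemma Comm.norm_le {K : ℝ} (hK0 : 0 ≤ K) (hK : S.Bes K) {T : H →L[ℂ] H} (h : S.Comm T) :
    ‖T‖ ≤ √K * ‖T (S.b 1)‖ := by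
  obtain ⟨R, h1, h2⟩ := exists_R hK0 hK (T (S.b 1))
  have : T = R := S.ext' fun g => by rw [h1, h.b]
  rw [this] at h2 ⊢
  rw [this] at h1
  exact h2

end Sys

end Pool.Agent.H89.HS
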