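import Mathlib
import Pool.Agent.H89.HS1

set_option autoImplicit false

namespace Pool.Agent.H89.HS

open scoped InnerProductSpace ComplexConjugate
open Filter Topology

variable {G H : Type*} [Group G] [NormedAddCommGroup H] [InnerProductSpace ℂ H] [CompleteSpace H]

lemma sa_inner {T : H →L[ℂ] H} (h : star T = T) (x y : H) : ⟪T x, y⟫_ℂ = ⟪x, T y⟫_ℂ := by
  rw [← ContinuousLinearMap.adjoint_inner_right, ← ContinuousLinearMap.star_eq_adjoint, h]

lemma fixed_vec {T : H →L[ℂ] H} (h : star T = T) (h1 : ‖T‖ ≤ 1) (v : H) {c : ℝ} (hc : 0 < c)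
    (hv : ∀ j : ℕ, c ≤ ‖(T ^ 2 ^ j) v‖) : ∃ u : H, u ≠ 0 ∧ (T ^ 2) u = u := by
  set a : ℕ → ℝ := fun k => ‖(T ^ k) v‖ ^ 2 with ha
  have hn : Antitone fun k => ‖(T ^ k) v‖ := by
    apply antitone_nat_of_succ_le
    intro k
    rw [pow_succ', ContinuousLinearMap.mul_apply]
    exact (T.le_opNorm _).trans (mul_le_of_le_one_left (norm_nonneg _) h1)
  have hanti : Antitone a := fun m n hmn => pow_le_pow_left₀ (norm_nonneg _) (hn hmn) 2
  have hlow : ∀ k, c ≤ ‖(T ^ k) v‖ := fun k => (hv k).trans (hn (Nat.lt_two_pow_self).le)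
  have hbdd : BddBelow (Set.range a) := ⟨0, by rintro _ ⟨k, rfl⟩; positivity⟩
  have hlim := tendsto_atTop_ciInf hanti hbdd
  set L := ⨅ k, a k with hL
  have hLle : ∀ k, L ≤ a k := fun k => ciInf_le hbdd k
  have hp : ∀ k, star (T ^ k) = T ^ k := fun k => by rw [star_pow, h]
  have hin : ∀ m n, RCLike.re ⟪(T ^ (2 * m)) v, (T ^ (2 * n)) v⟫_ℂ = a (m + n) := by
    intro m n
    have : ⟪(T ^ (2 * m)) v, (T ^ (2 * n)) v⟫_ℂ = ⟪(T ^ (m + n)) v, (T ^ (m + n)) v⟫_ℂ := by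
      rw [sa_inner (hp _), sa_inner (hp _), ← ContinuousLinearMap.mul_apply,
        ← ContinuousLinearMap.mul_apply, ← pow_add, ← pow_add]
      congr 3
      ring
    rw [this, inner_self_eq_norm_sq]
  have hcau : CauchySeq fun n => (T ^ (2 * n)) v := by
    apply cauchySeq_of_le_tendsto_0' (fun n => √(2 * (a n - L)))
    · intro n m hnm
      rw [dist_eq_norm]
      apply Real.le_sqrt_of_sq_le
      rw [@norm_sub_sq ℂ, hin]
      have e1 := hanti (show n ≤ 2 * n by omega)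
      have e2 := hanti (show n ≤ 2 * m by omega)
      have e3 := hLle (n + m)
      simp only [ha] at e1 e2 e3 ⊢
      linarith
    · have : Tendsto (fun n => √(2 * (a n - L))) atTop (𝓝 (√(2 * (L - L)))) :=
        ((hlim.sub_const L).const_mul 2).sqrt
      simpa using this
  obtain ⟨u, hu⟩ := cauchySeq_tendsto_of_complete hcau
  refine ⟨u, ?_, ?_⟩
  · have := ge_of_tendsto' hu.norm fun n => hlow (2 * n)
    intro h0
    rw [h0, norm_zero] at this
    linarith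
  · have e1 := ((T ^ 2).continuous.tendsto u).comp hu
    have e2 := hu.comp (tendsto_add_atTop_nat 1)
    refine tendsto_nhds_unique e1 (e2.congr fun n => ?_)
    simp only [Function.comp_apply]
    rw [← ContinuousLinearMap.mul_apply, ← pow_add]
    congr 2
    ring

namespace Sys

variable {S : Sys G H}

lemma comm_proj {A : H →L[ℂ] H} (hA : S.Comm A) : S.Comm (A.ker.starProjection) := by
  intro g
  ext x
  simp only [ContinuousLinearMap.mul_apply]
  apply Submodule.eq_starProjection_of_mem_of_inner_eq_zero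
  · have := A.ker.starProjection_apply_mem x
    rw [LinearMap.mem_ker] at this ⊢
    simp only [ContinuousLinearMap.coe_coe] at this ⊢
    rw [hA.app, this, map_zero]
  · intro w hw
    rw [← map_sub, ← ContinuousLinearMap.adjoint_inner_right, ← ContinuousLinearMap.star_eq_adjoint]
    apply Submodule.starProjection_inner_eq_zero
    rw [LinearMap.mem_ker] at hw ⊢
    simp only [ContinuousLinearMap.coe_coe] at hw ⊢
    rw [S.star_U, ContinuousLinearMap.smul_apply, map_smul, hA.app, hw, map_zero, smul_zero]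

def Proj (S : Sys G H) (P : H →L[ℂ] H) : Prop := S.Comm P ∧ star P = P ∧ P * P = P ∧ P ≠ 0

lemma Proj.low {K : ℝ} (hK0 : 0 ≤ K) (hK : S.Bes K) {P : H →L[ℂ] H} (h : S.Proj P) :
    1 ≤ K * ‖P (S.b 1)‖ ^ 2 := by
  have h1 := h.1.norm_le hK0 hK
  have h2 : 1 ≤ ‖P‖ := by
    have := norm_mul_le P P
    rw [h.2.2.1] at this
    have h0 : 0 < ‖P‖ := norm_pos_iff.2 h.2.2.2
    nlinarith
  have h3 : 1 ≤ (√K * ‖P (S.b 1)‖) ^ 2 := one_le_pow₀ (h2.trans h1)
  rwa [mul_pow, Real.sq_sqrt hK0] at h3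

lemma exists_min {K : ℝ} (hK0 : 0 ≤ K) (hK : S.Bes K) :
    ∃ P, S.Proj P ∧ ∀ Q, S.Proj Q → P * Q = Q → Q = P := by
  have h1 : S.Proj 1 := ⟨fun g => by simp, star_one _, one_mul _, by
    intro h
    have := congrArg (fun T : H →L[ℂ] H => ‖T (S.b 1)‖) h
    simp [S.nb] at this⟩
  set D : Set ℝ := {r | ∃ P, S.Proj P ∧ r = K * ‖P (S.b 1)‖ ^ 2} with hD
  have hne : D.Nonempty := ⟨_, 1, h1, rfl⟩
  have hbd : ∀ r ∈ D, 1 ≤ r := by
    rintro _ ⟨P, hP, rfl⟩
    exact hP.low hK0 hK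
  have hm : 1 ≤ sInf D := le_csInf hne hbd
  obtain ⟨_, ⟨P, hP, rfl⟩, hlt⟩ := exists_lt_of_csInf_lt hne (show sInf D < 2 * sInf D by linarith)
  refine ⟨P, hP, fun Q hQ hPQ => ?_⟩
  by_contra hne'
  have hQP : Q * P = Q := by
    have := congrArg star hPQ
    rwa [star_mul, hP.2.1, hQ.2.1] at this
  have h3 : S.Proj (P - Q) := ⟨hP.1.sub hQ.1, by rw [star_sub, hP.2.1, hQ.2.1], by
    rw [sub_mul, mul_sub, mul_sub, hP.2.2.1, hPQ, hQP, hQ.2.2.1, sub_self, sub_zero],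
    fun h => hne' (sub_eq_zero.1 h).symm⟩
  have e1 := csInf_le ⟨1, hbd⟩ (show _ ∈ D from ⟨Q, hQ, rfl⟩)
  have e2 := csInf_le ⟨1, hbd⟩ (show _ ∈ D from ⟨P - Q, h3, rfl⟩)
  have e3 : ‖P (S.b 1)‖ ^ 2 = ‖Q (S.b 1)‖ ^ 2 + ‖(P - Q) (S.b 1)‖ ^ 2 := by
    have : P (S.b 1) = Q (S.b 1) + (P - Q) (S.b 1) := by simp
    rw [this, @norm_add_sq ℂ, sa_inner hQ.2.1, ← ContinuousLinearMap.mul_apply, mul_sub, hQP,
      hQ.2.2.1]
    simp
  rw [e3] at hlt
  linarith

section
variable {K : ℝ} (hK0 : 0 ≤ K) (hK : S.Bes K) {P : H →L[ℂ] H} (hP : S.Proj P)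
  (hmin : ∀ Q, S.Proj Q → P * Q = Q → Q = P)
include hK0 hK hP hmin

lemma schur_sq {T : H →L[ℂ] H} (hT : S.Comm T) (hs : star T = T) (hPT : P * T = T) :
    T ^ 2 = ((‖T‖ ^ 2 : ℝ) : ℂ) • P := by
  by_cases h0 : T = 0
  · simp [h0]
  have hn : 0 < ‖T‖ := norm_pos_iff.2 h0
  have hKp : 0 < K := by
    have := hP.low hK0 hK
    by_contra hh
    have : K = 0 := le_antisymm (not_lt.1 hh) hK0
    simp_all
    linarith
  set T' : H →L[ℂ] H := ((‖T‖⁻¹ : ℝ) : ℂ) • T with hT'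
  have a1 : star T' = T' := by rw [hT', star_smul, hs]; simp
  have a2 : ‖T'‖ = 1 := by
    rw [hT', norm_smul]; simp [hn.ne']
  have a3 : S.Comm T' := hT.smul _
  obtain ⟨u, hu0, hu⟩ := fixed_vec a1 a2.le (S.b 1) (c := (√K)⁻¹) (by positivity) (by
    intro j
    have e1 := (a3.pow (2 ^ j)).norm_le hK0 hK
    rw [IsSelfAdjoint.norm_pow_two_pow a1, a2, one_pow] at e1
    rw [inv_le_iff_one_le_mul₀' (by positivity)]
    exact e1)
  set A : H →L[ℂ] H := T' ^ 2 - 1 with hA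
  have a4 : S.Comm A := (a3.pow 2).sub (fun g => by simp)
  have a5 : P * T' = T' := by rw [hT', mul_smul_comm, hPT]
  have a6 : P * T' ^ 2 = T' ^ 2 := by rw [sq, ← mul_assoc, a5]
  have hQ : S.Proj A.ker.starProjection := by
    refine ⟨comm_proj a4, A.ker.starProjection_isSymmetric.isSelfAdjoint,
      A.ker.isIdempotentElem_starProjection, fun h => hu0 ?_⟩
    have : u ∈ A.ker := by
      rw [LinearMap.mem_ker]
      show (T' ^ 2) u - u = 0
      rw [hu, sub_self]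
    rw [← Submodule.starProjection_eq_self_iff.2 this, h]
    rfl
  have hfix : ∀ x, (T' ^ 2) (A.ker.starProjection x) = A.ker.starProjection x := by
    intro x
    have := A.ker.starProjection_apply_mem x
    rw [LinearMap.mem_ker] at this
    exact sub_eq_zero.1 this
  have hQP := hmin _ hQ (by
    ext x
    rw [ContinuousLinearMap.mul_apply, ← hfix x, ← ContinuousLinearMap.mul_apply, a6])
  have a7 : T' ^ 2 * P = T' ^ 2 := by
    have := congrArg star a6
    rwa [star_mul, star_pow, a1, hP.2.1] at this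
  have a8 : T' ^ 2 = P := by
    rw [← a7]
    ext x
    rw [ContinuousLinearMap.mul_apply, ← hQP, hfix]
  rw [← a8, hT', smul_pow, smul_smul]
  have : ((‖T‖ ^ 2 : ℝ) : ℂ) * ((‖T‖⁻¹ : ℝ) : ℂ) ^ 2 = 1 := by
    have : (‖T‖ : ℂ) ≠ 0 := by exact_mod_cast hn.ne'
    push_cast
    field_simp
  rw [this, one_smul]

lemma schur_sa {T : H →L[ℂ] H} (hT : S.Comm T) (hs : star T = T) (hPT : P * T = T) :
    ∃ c : ℂ, T = c • P := by
  have hTP : T * P = T := by
    have := congrArg star hPT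
    rwa [star_mul, hs, hP.2.1] at this
  have e1 := schur_sq hK0 hK hP hmin hT hs hPT
  have e2 := schur_sq hK0 hK hP hmin (hT.add hP.1) (by rw [star_add, hs, hP.2.1])
    (by rw [mul_add, hPT, hP.2.2.1])
  rw [sq, add_mul, mul_add, mul_add, ← sq, e1, hTP, hPT, hP.2.2.1] at e2
  refine ⟨(((‖T + P‖ ^ 2 : ℝ) : ℂ) - ((‖T‖ ^ 2 : ℝ) : ℂ) - 1) / 2, ?_⟩
  have : (2 : ℂ) • T = (((‖T + P‖ ^ 2 : ℝ) : ℂ) - ((‖T‖ ^ 2 : ℝ) : ℂ) - 1) • P := by
    rw [sub_smul, sub_smul, ← e2, one_smul, two_smul]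
    abel
  rw [div_eq_inv_mul, mul_smul, ← this, smul_smul]
  simp

lemma schur {X : H →L[ℂ] H} (hX : S.Comm X) (h1 : P * X = X) (h2 : X * P = X) :
    ∃ c : ℂ, X = c • P := by
  have h3 : P * star X = star X := by
    have := congrArg star h2
    rwa [star_mul, hP.2.1] at this
  obtain ⟨a, ha⟩ := schur_sa hK0 hK hP hmin (hX.add hX.adj) (by rw [star_add, star_star, add_comm])
    (by rw [mul_add, h1, h3])
  obtain ⟨c, hc⟩ := schur_sa hK0 hK hP hmin ((hX.sub hX.adj).smul Complex.I)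
    (by rw [star_smul, star_sub, star_star, Complex.star_def, Complex.conj_I, neg_smul,
      ← smul_neg, neg_sub])
    (by rw [mul_smul_comm, mul_sub, h1, h3])
  refine ⟨(a - Complex.I * c) / 2, ?_⟩
  have : (2 : ℂ) • X = (a - Complex.I * c) • P := by
    rw [sub_smul, mul_smul, ← ha, ← hc, smul_smul, Complex.I_mul_I, two_smul, neg_smul,
      one_smul]
    abel
  rw [div_eq_inv_mul, mul_smul, ← this, smul_smul]
  simp

end

lemma not_bes [Infinite G] (S : Sys G H) {K : ℝ} (hK0 : 0 ≤ K) : ¬ S.Bes K := by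
  intro hK
  obtain ⟨P, hP, hmin⟩ := exists_min hK0 hK
  have hlow := hP.low hK0 hK
  set d := ‖P (S.b 1)‖ ^ 2 with hd
  have hd0 : 0 < d := by
    rcases (show 0 ≤ d by positivity).eq_or_lt with h | h
    · rw [← h] at hlow; linarith
    · exact h
  set ξ : G → H := fun g => P (S.b g) with hξ
  have nξ : ∀ g, ‖ξ g‖ ^ 2 = d := fun g => by
    simp only [hξ]
    rw [hP.1.b, S.norm_U]
  have Pξ : ∀ g, P (ξ g) = ξ g := fun g => by
    simp only [hξ]
    rw [← ContinuousLinearMap.mul_apply, hP.2.2.1]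
  choose R hR _ using fun g => exists_R hK0 hK (ξ g)
  have cR : ∀ g, S.Comm (R g) := fun g => comm_R (hR g)
  have PR : ∀ g, P * R g = R g := fun g => S.ext' fun k => by
    rw [ContinuousLinearMap.mul_apply, hR, hP.1.app, Pξ]
  have R1 : ∀ g, R g (S.b 1) = ξ g := fun g => by rw [hR, S.U_one]; rfl
  have key : ∀ g h, ‖⟪ξ g, R g (star (R h) (ξ h))⟫_ℂ‖ = ‖⟪S.b h, ξ g⟫_ℂ‖ ^ 2 / d := by
    intro g h
    obtain ⟨c, hc⟩ := schur hK0 hK hP hmin ((cR g).mul (cR h).adj) (by rw [← mul_assoc, PR])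
      (by
        have := congrArg star (PR h)
        rw [star_mul, hP.2.1] at this
        rw [mul_assoc, this])
    have e0 : ⟪ξ h, ξ g⟫_ℂ = ⟪S.b h, ξ g⟫_ℂ := by
      show ⟪P (S.b h), ξ g⟫_ℂ = _
      rw [sa_inner hP.2.1, Pξ]
    have e1 := trace (cR g) (cR h)
    rw [R1, R1, ContinuousLinearMap.star_eq_adjoint (R g), ContinuousLinearMap.adjoint_inner_left,
      ← ContinuousLinearMap.mul_apply, hc, ContinuousLinearMap.smul_apply, inner_smul_right,
      e0] at e1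
    have e2 : ⟪S.b 1, P (S.b 1)⟫_ℂ = (d : ℂ) := by
      have : P (S.b 1) = P (P (S.b 1)) := (Pξ 1).symm
      rw [this, ← sa_inner hP.2.1, inner_self_eq_norm_sq_to_K, hd]
      simp
    rw [e2] at e1
    have e3 := congrArg norm e1
    rw [norm_mul, Complex.norm_real, Real.norm_of_nonneg hd0.le] at e3
    rw [← ContinuousLinearMap.mul_apply, hc, ContinuousLinearMap.smul_apply, inner_smul_right, Pξ,
      norm_mul, norm_inner_symm, e0, ← e3]
    field_simp
  obtain ⟨n, hn⟩ := exists_nat_gt (K ^ 2)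
  obtain ⟨F, hF⟩ := Infinite.exists_subset_card_eq G n
  set w := ∑ g ∈ F, star (R g) (ξ g) with hw
  have w1 : ⟪S.b 1, w⟫_ℂ = ((n * d : ℝ) : ℂ) := by
    rw [hw, inner_sum]
    have : ∀ g ∈ F, ⟪S.b 1, star (R g) (ξ g)⟫_ℂ = (d : ℂ) := fun g _ => by
      rw [ContinuousLinearMap.star_eq_adjoint, ContinuousLinearMap.adjoint_inner_right, R1,
        inner_self_eq_norm_sq_to_K, ← nξ g]
      simp
    rw [Finset.sum_congr rfl this, Finset.sum_const, hF]
    simp
  have w2 : ‖w‖ ^ 2 ≤ n := by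
    have e1 : ‖w‖ ^ 2 = ‖⟪w, w⟫_ℂ‖ := by rw [inner_self_eq_norm_sq_to_K]; simp
    rw [e1, hw, sum_inner]
    refine (norm_sum_le _ _).trans ?_
    have : ∀ g ∈ F, ‖⟪star (R g) (ξ g), ∑ h ∈ F, star (R h) (ξ h)⟫_ℂ‖ ≤ 1 := by
      intro g _
      rw [inner_sum]
      refine (norm_sum_le _ _).trans ?_
      have e2 : ∀ h ∈ F, ‖⟪star (R g) (ξ g), star (R h) (ξ h)⟫_ℂ‖ = ‖⟪S.b h, ξ g⟫_ℂ‖ ^ 2 / d := by
        intro h _
        rw [ContinuousLinearMap.star_eq_adjoint (R g), ContinuousLinearMap.adjoint_inner_left, key]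
      rw [Finset.sum_congr rfl e2, ← Finset.sum_div, div_le_one hd0, ← nξ g]
      exact S.b.orthonormal.sum_inner_products_le _
    refine (Finset.sum_le_sum this).trans ?_
    simp [hF]
  have w3 := norm_inner_le_norm (𝕜 := ℂ) (S.b 1) w
  rw [w1, S.nb, one_mul, Complex.norm_real, Real.norm_of_nonneg (by positivity)] at w3
  have w4 : (n * d) ^ 2 ≤ n := (pow_le_pow_left₀ (by positivity) w3 2).trans w2
  have hn0 : (0 : ℝ) < n := lt_of_le_of_lt (by positivity) hn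
  have w5 : n * d ^ 2 ≤ 1 := by
    rw [mul_pow, sq, mul_assoc] at w4
    exact le_of_mul_le_mul_left (by linarith) hn0
  have w6 : 1 ≤ (K * d) ^ 2 := one_le_pow₀ hlow
  have w7 : K ^ 2 * d ^ 2 < n * d ^ 2 := mul_lt_mul_of_pos_right hn (by positivity)
  rw [mul_pow] at w6
  linarith

end Sys

end Pool.Agent.H89.HS
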