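import Mathlib
import Pool.Agent.H89.HS2

set_option autoImplicit false

namespace Pool.Agent.H89.HS

open scoped InnerProductSpace ComplexConjugate
open Filter Topology

variable {G H : Type*} [Group G] [NormedAddCommGroup H] [InnerProductSpace ℂ H] [CompleteSpace H]

namespace Sys

variable (S : Sys G H)

lemma nsq_sum (v : G → G) (hv : Function.Injective v) (k : G → ℂ) (F : Finset G) :
    ‖∑ g ∈ F, k g • S.b (v g)‖ ^ 2 = ∑ g ∈ F, ‖k g‖ ^ 2 := by
  have := (S.b.orthonormal.comp v hv).inner_sum k k F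
  simp only [Function.comp_apply] at this
  rw [inner_self_eq_norm_sq_to_K] at this
  simp only [Complex.conj_mul'] at this
  apply Complex.ofReal_injective
  push_cast
  exact this

noncomputable def pol (F : Finset G) (c : G → ℂ) : H →L[ℂ] H := ∑ g ∈ F, c g • S.U g

lemma pol_d (F : Finset G) (c : G → ℂ) : S.pol F c (S.b 1) = ∑ g ∈ F, c g • S.b g := by
  simp [pol, ContinuousLinearMap.sum_apply, S.U_d]

lemma pol_n1 (F : Finset G) (c : G → ℂ) : ‖S.pol F c (S.b 1)‖ ^ 2 = ∑ g ∈ F, ‖c g‖ ^ 2 := by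
  rw [pol_d]
  exact S.nsq_sum id Function.injective_id c F

lemma pol_n2 (F : Finset G) (c : G → ℂ) (a : G) :
    ‖star (S.pol F c) (S.b a)‖ ^ 2 = ∑ g ∈ F, ‖c g‖ ^ 2 := by
  have : star (S.pol F c) (S.b a) =
      ∑ g ∈ F, (conj (c g) * S.ω g * S.σ g⁻¹ a) • S.b (g⁻¹ * a) := by
    simp [pol, star_sum, star_smul, S.star_U, ContinuousLinearMap.sum_apply, S.Ub, smul_smul,
      mul_assoc]
  rw [this, S.nsq_sum (fun g => g⁻¹ * a) (fun x y h => by simpa using h)]
  simp [S.nω, S.nσ]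

lemma signs (F : Finset G) (c : G → ℂ) : ∃ ε : G → ℂ, (∀ g, ε g = 1 ∨ ε g = -1) ∧
    ‖star (S.pol F fun g => ε g * c g) (S.pol F (fun g => ε g * c g) (S.b 1))‖ ^ 2
      ≤ 3 * (∑ g ∈ F, ‖c g‖ ^ 2) ^ 2 := by
  classical
  induction F using Finset.induction_on with
  | empty => exact ⟨fun _ => 1, fun _ => Or.inl rfl, by simp [pol]⟩
  | insert a F ha ih =>
    obtain ⟨ε, hε, h⟩ := ih
    set z := S.pol F fun g => ε g * c g with hz
    set s := ∑ g ∈ F, ‖c g‖ ^ 2 with hs
    have hs0 : 0 ≤ s := Finset.sum_nonneg fun _ _ => by positivity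
    have hn : ∑ g ∈ F, ‖ε g * c g‖ ^ 2 = s := Finset.sum_congr rfl fun g _ => by
      rcases hε g with h | h <;> simp [h]
    have z1 : ‖z (S.b 1)‖ ^ 2 = s := by rw [hz, S.pol_n1, hn]
    have z2 : ‖star z (S.b a)‖ ^ 2 = s := by rw [hz, S.pol_n2, hn]
    set u := c a • S.U a with hu
    have hpol : ∀ e : ℂ, S.pol (insert a F) (fun g => Function.update ε a e g * c g)
        = e • u + z := by
      intro e
      rw [pol, Finset.sum_insert ha, Function.update_self, hu, smul_smul, hz, pol]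
      congr 1
      refine Finset.sum_congr rfl fun g hg => ?_
      rw [Function.update_of_ne (by rintro rfl; exact ha hg)]
    set X := star z (z (S.b 1)) + ((‖c a‖ ^ 2 : ℝ) : ℂ) • S.b 1 with hX
    set Y := star z (u (S.b 1)) + star u (z (S.b 1)) with hY
    have huu : star u (u (S.b 1)) = ((‖c a‖ ^ 2 : ℝ) : ℂ) • S.b 1 := by
      rw [← ContinuousLinearMap.mul_apply, hu, star_smul, smul_mul_smul_comm, S.star_mul_U]
      simp [Complex.conj_mul']
    have p1 : star ((1 : ℂ) • u + z) (((1 : ℂ) • u + z) (S.b 1)) = X + Y := by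
      simp only [one_smul, star_add, ContinuousLinearMap.add_apply, map_add, huu, hX, hY]
      abel
    have p2 : star ((-1 : ℂ) • u + z) (((-1 : ℂ) • u + z) (S.b 1)) = X - Y := by
      simp only [neg_smul, one_smul, star_add, star_neg, ContinuousLinearMap.add_apply, map_add,
        ContinuousLinearMap.neg_apply, map_neg, huu, hX, hY]
      abel
    have nX : ‖X‖ ^ 2 ≤ 3 * s ^ 2 + 2 * ‖c a‖ ^ 2 * s + (‖c a‖ ^ 2) ^ 2 := by
      rw [hX, @norm_add_sq ℂ, inner_smul_right, ContinuousLinearMap.star_eq_adjoint,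
        ContinuousLinearMap.adjoint_inner_left, inner_self_eq_norm_sq_to_K, norm_smul, S.nb,
        ← ContinuousLinearMap.star_eq_adjoint]
      have e : RCLike.re (((‖c a‖ ^ 2 : ℝ) : ℂ) * ((‖z (S.b 1)‖ : ℝ) : ℂ) ^ 2)
          = ‖c a‖ ^ 2 * s := by
        rw [← z1]
        norm_cast
      erw [e]
      rw [Complex.norm_real, Real.norm_of_nonneg (by positivity)]
      linarith
    have nY : ‖Y‖ ^ 2 ≤ 4 * ‖c a‖ ^ 2 * s := by
      have e1 : ‖star z (u (S.b 1))‖ ^ 2 = ‖c a‖ ^ 2 * s := by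
        rw [hu, ContinuousLinearMap.smul_apply, map_smul, S.U_d, norm_smul, mul_pow, z2]
      have e2 : ‖star u (z (S.b 1))‖ ^ 2 = ‖c a‖ ^ 2 * s := by
        rw [hu, star_smul, ContinuousLinearMap.smul_apply, norm_smul, S.norm_sU, mul_pow, z1,
          norm_star]
      have e3 := norm_add_le (star z (u (S.b 1))) (star u (z (S.b 1)))
      have e4 := pow_le_pow_left₀ (norm_nonneg _) e3 2
      nlinarith [sq_nonneg (‖star z (u (S.b 1))‖ - ‖star u (z (S.b 1))‖)]
    have par := parallelogram_law_with_norm ℂ X Y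
    have hεe : ∀ e : ℂ, (e = 1 ∨ e = -1) → ∀ g, Function.update ε a e g = 1 ∨
        Function.update ε a e g = -1 := by
      intro e he g
      by_cases hg : g = a
      · subst hg; simpa using he
      · rw [Function.update_of_ne hg]; exact hε g
    have hca : 0 ≤ ‖c a‖ ^ 2 := by positivity
    rcases le_total ‖X + Y‖ ‖X - Y‖ with hle | hle
    · refine ⟨Function.update ε a 1, hεe 1 (Or.inl rfl), ?_⟩
      rw [hpol, p1, Finset.sum_insert ha]
      nlinarith [pow_le_pow_left₀ (norm_nonneg _) hle 2]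
    · refine ⟨Function.update ε a (-1), hεe (-1) (Or.inr rfl), ?_⟩
      rw [hpol, p2, Finset.sum_insert ha]
      nlinarith [pow_le_pow_left₀ (norm_nonneg _) hle 2]

def alg : StarSubalgebra ℂ (H →L[ℂ] H) where
  carrier := Submodule.span ℂ (Set.range S.U)
  add_mem' := fun h h' => Submodule.add_mem _ h h'
  mul_mem' := by
    intro x y hx hy
    induction hx using Submodule.span_induction with
    | mem x hx =>
      obtain ⟨g, rfl⟩ := hx
      induction hy using Submodule.span_induction with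
      | mem y hy =>
        obtain ⟨h, rfl⟩ := hy
        rw [S.U_mul]
        exact Submodule.smul_mem _ _ (Submodule.subset_span ⟨_, rfl⟩)
      | zero => simp
      | add y y' _ _ h1 h2 => rw [mul_add]; exact Submodule.add_mem _ h1 h2
      | smul c y _ h1 => rw [mul_smul_comm]; exact Submodule.smul_mem _ _ h1
    | zero => simp
    | add x x' _ _ h1 h2 => rw [add_mul]; exact Submodule.add_mem _ h1 h2
    | smul c x _ h1 => rw [smul_mul_assoc]; exact Submodule.smul_mem _ _ h1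
  algebraMap_mem' := by
    intro c
    rw [Algebra.algebraMap_eq_smul_one, ← S.U_one]
    exact Submodule.smul_mem _ _ (Submodule.subset_span ⟨_, rfl⟩)
  star_mem' := by
    intro x hx
    induction hx using Submodule.span_induction with
    | mem x hx =>
      obtain ⟨g, rfl⟩ := hx
      rw [S.star_U]
      exact Submodule.smul_mem _ _ (Submodule.subset_span ⟨_, rfl⟩)
    | zero => simp
    | add x x' _ _ h1 h2 => rw [star_add]; exact Submodule.add_mem _ h1 h2
    | smul c x _ h1 => rw [star_smul]; exact Submodule.smul_mem _ _ h1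

lemma pol_mem (F : Finset G) (c : G → ℂ) : S.pol F c ∈ S.alg :=
  Submodule.sum_mem (Submodule.span ℂ (Set.range S.U)) fun g _ =>
    Submodule.smul_mem _ _ (Submodule.subset_span ⟨g, rfl⟩)

noncomputable def co (y : H →L[ℂ] H) (g : G) : ℂ := ⟪S.b g, y (S.b 1)⟫_ℂ

lemma co_pol [DecidableEq G] (F : Finset G) (c : G → ℂ) (g : G) :
    S.co (S.pol F c) g = if g ∈ F then c g else 0 := by
  rw [co, pol_d, inner_sum]
  simp [inner_smul_right, orthonormal_iff_ite.1 S.b.orthonormal]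

def Unc (C : ℝ) : Prop :=
  ∀ (F A : Finset G) (c : G → ℂ), A ⊆ F → ‖S.pol A c‖ ≤ C * ‖S.pol F c‖

variable {S}

lemma Unc.clos {C : ℝ} (h : S.Unc C) (A : Finset G) {y : H →L[ℂ] H}
    (hy : y ∈ S.alg.topologicalClosure) : ‖S.pol A (S.co y)‖ ≤ C * ‖y‖ := by
  classical
  have hcl : IsClosed {y : H →L[ℂ] H | ‖S.pol A (S.co y)‖ ≤ C * ‖y‖} := by
    apply isClosed_le
    · unfold pol co
      fun_prop
    · fun_prop
  refine closure_minimal ?_ hcl hy
  intro x hx
  obtain ⟨c, rfl⟩ := Finsupp.mem_span_range_iff_exists_finsupp.1 hx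
  have e1 : (c.sum fun i a => a • S.U i) = S.pol (c.support ∪ A) c :=
    Finsupp.sum_of_support_subset _ Finset.subset_union_left _ (by simp)
  show ‖S.pol A (S.co _)‖ ≤ _
  rw [e1]
  have e2 : S.pol A (S.co (S.pol (c.support ∪ A) c)) = S.pol A c :=
    Finset.sum_congr rfl fun g hg => by
      rw [co_pol, if_pos (Finset.mem_union_right _ hg)]
  rw [e2]
  exact h _ _ _ Finset.subset_union_right

lemma resolv (z : H →L[ℂ] H) (hz : z ∈ S.alg) {l : ℝ} (hl : 0 < l) :
    ∃ R ∈ S.alg.topologicalClosure, (((l ^ 2 : ℝ) : ℂ) • 1 + z * star z) * R = 1 := by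
  set f : H →L[ℂ] H := ((l ^ 2 : ℝ) : ℂ) • 1 + z * star z with hf
  have hu : IsUnit f := by
    apply ContinuousLinearMap.isUnit_of_forall_le_norm_inner_map f (c := ⟨l ^ 2, by positivity⟩)
      (by show (0 : ℝ) < l ^ 2; positivity)
    intro x
    have e : ⟪f x, x⟫_ℂ = ((l ^ 2 * ‖x‖ ^ 2 + ‖star z x‖ ^ 2 : ℝ) : ℂ) := by
      rw [hf, ContinuousLinearMap.add_apply, inner_add_left, ContinuousLinearMap.smul_apply,
        inner_smul_left, ContinuousLinearMap.mul_apply,
        ← ContinuousLinearMap.adjoint_inner_right z,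
        ← ContinuousLinearMap.star_eq_adjoint, ContinuousLinearMap.one_apply,
        inner_self_eq_norm_sq_to_K, inner_self_eq_norm_sq_to_K]
      simp
    rw [e, Complex.norm_real, Real.norm_of_nonneg (by positivity)]
    show ‖x‖ ^ 2 * l ^ 2 ≤ _
    nlinarith [sq_nonneg ‖star z x‖]
  have hm : f ∈ S.alg.topologicalClosure := S.alg.le_topologicalClosure
    (add_mem (S.alg.smul_mem (one_mem _) _) (mul_mem hz (star_mem hz)))
  have := S.alg.isClosed_topologicalClosure
  obtain ⟨R, hR⟩ := ((StarSubalgebra.coe_isUnit S.alg.topologicalClosure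
    (a := ⟨f, hm⟩)).1 hu).exists_right_inv
  exact ⟨R.1, R.2, congrArg Subtype.val hR⟩

lemma Unc.bes {C : ℝ} (hC : 0 ≤ C) (h : S.Unc C) : S.Bes (16 * C ^ 2) := by
  classical
  intro F ξ η
  set φ : G → ℂ := fun g => ⟪η, S.U g ξ⟫_ℂ with hφ
  set s := ∑ g ∈ F, ‖φ g‖ ^ 2 with hs
  have hs0 : 0 ≤ s := Finset.sum_nonneg fun _ _ => by positivity
  rcases hs0.eq_or_lt with h0 | h0
  · show s ≤ _
    rw [← h0]; positivity
  obtain ⟨ε, hε, h4⟩ := S.signs F fun g => conj (φ g)
  simp only [RCLike.norm_conj] at h4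
  set z := S.pol F fun g => ε g * conj (φ g) with hz
  have z1 : ‖z (S.b 1)‖ ^ 2 = s := by
    rw [hz, S.pol_n1]
    exact Finset.sum_congr rfl fun g _ => by rcases hε g with h | h <;> simp [h]
  set l := √s with hl
  have hl0 : 0 < l := Real.sqrt_pos.2 h0
  have hl2 : l ^ 2 = s := Real.sq_sqrt hs0
  obtain ⟨R, hR, hR1⟩ := resolv z (S.pol_mem _ _) hl0
  have key : ∀ v w : H, ⟪v, w⟫_ℂ = ((l ^ 2 : ℝ) : ℂ) * ⟪R v, w⟫_ℂ
      + ⟪star z (R v), star z w⟫_ℂ := by
    intro v w
    have : v = ((l ^ 2 : ℝ) : ℂ) • R v + z (star z (R v)) := by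
      have := congrArg (fun T : H →L[ℂ] H => T v) hR1
      simpa using this.symm
    conv_lhs => rw [this]
    rw [inner_add_left, inner_smul_left, ← ContinuousLinearMap.adjoint_inner_right z,
      ← ContinuousLinearMap.star_eq_adjoint, Complex.conj_ofReal]
  have key2 : ∀ v : H, ⟪v, R v⟫_ℂ = ((l ^ 2 * ‖R v‖ ^ 2 + ‖star z (R v)‖ ^ 2 : ℝ) : ℂ) := by
    intro v
    rw [key, inner_self_eq_norm_sq_to_K, inner_self_eq_norm_sq_to_K]
    simp
  set y : H →L[ℂ] H := (l : ℂ) • (R * z) with hy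
  have ym : y ∈ S.alg.topologicalClosure :=
    S.alg.topologicalClosure.smul_mem (mul_mem hR (S.alg.le_topologicalClosure (S.pol_mem _ _))) _
  have yn : ‖y‖ ≤ 1 / 2 := by
    refine ContinuousLinearMap.opNorm_le_bound _ (by norm_num) fun v => ?_
    have e1 := key2 (z v)
    rw [← ContinuousLinearMap.adjoint_inner_right, ← ContinuousLinearMap.star_eq_adjoint] at e1
    have e2 := norm_inner_le_norm (𝕜 := ℂ) v (star z (R (z v)))
    rw [e1, Complex.norm_real, Real.norm_of_nonneg (by positivity)] at e2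
    rw [hy, ContinuousLinearMap.smul_apply, norm_smul, ContinuousLinearMap.mul_apply,
      Complex.norm_real, Real.norm_of_nonneg hl0.le]
    apply le_of_sq_le_sq _ (by positivity)
    nlinarith [sq_nonneg (‖v‖ / 2 - ‖star z (R (z v))‖)]
  set ζ := z (S.b 1) with hζ
  set q := l ^ 2 * ‖R ζ‖ ^ 2 + ‖star z (R ζ)‖ ^ 2 with hq
  have hq4 : 1 / 4 ≤ q := by
    have e1 := key ζ ζ
    have e2 : ‖⟪ζ, ζ⟫_ℂ‖ = s := by rw [inner_self_eq_norm_sq_to_K, ← z1]; simp
    have e3 : s ≤ l ^ 2 * (‖R ζ‖ * ‖ζ‖) + ‖star z (R ζ)‖ * ‖star z ζ‖ := by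
      rw [← e2, e1]
      refine (norm_add_le _ _).trans (add_le_add ?_ (norm_inner_le_norm _ _))
      rw [norm_mul, Complex.norm_real, Real.norm_of_nonneg (by positivity)]
      exact mul_le_mul_of_nonneg_left (norm_inner_le_norm _ _) (by positivity)
    have e4 : (l ^ 2 * (‖R ζ‖ * ‖ζ‖) + ‖star z (R ζ)‖ * ‖star z ζ‖) ^ 2
        ≤ q * (l ^ 2 * ‖ζ‖ ^ 2 + ‖star z ζ‖ ^ 2) := by
      rw [hq]
      nlinarith [sq_nonneg (l * (‖R ζ‖ * ‖star z ζ‖ - ‖star z (R ζ)‖ * ‖ζ‖))]
    have e5 : s ^ 2 ≤ q * (4 * s ^ 2) := by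
      refine (pow_le_pow_left₀ hs0 e3 2).trans (e4.trans ?_)
      apply mul_le_mul_of_nonneg_left _ (by positivity)
      rw [hl2, z1]
      linarith
    have : 0 < s ^ 2 := by positivity
    nlinarith
  have e6 : ⟪ζ, y (S.b 1)⟫_ℂ = ((l * q : ℝ) : ℂ) := by
    rw [hy, ContinuousLinearMap.smul_apply, inner_smul_right, ContinuousLinearMap.mul_apply,
      ← hζ, key2]
    simp [hq]
  have e7 : ⟪ζ, y (S.b 1)⟫_ℂ = ⟪η, (S.pol (F.filter fun g => ε g = 1) (S.co y)
      - S.pol (F.filter fun g => ¬ ε g = 1) (S.co y)) ξ⟫_ℂ := by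
    rw [hζ, hz, S.pol_d, sum_inner, ← Finset.sum_filter_add_sum_filter_not F (fun g => ε g = 1),
      ContinuousLinearMap.sub_apply, inner_sub_right, sub_eq_add_neg]
    simp only [pol, ContinuousLinearMap.sum_apply, inner_sum, ContinuousLinearMap.smul_apply,
      inner_smul_right, inner_smul_left, ← Finset.sum_neg_distrib]
    congr 1
    · refine Finset.sum_congr rfl fun g hg => ?_
      rw [(Finset.mem_filter.1 hg).2]
      simp [co, hφ, mul_comm]
    · refine Finset.sum_congr rfl fun g hg => ?_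
      rw [(hε g).resolve_left (Finset.mem_filter.1 hg).2]
      simp [co, hφ, mul_comm]
  have e8 : l * q ≤ ‖η‖ * (C * ‖ξ‖) := by
    have := norm_inner_le_norm (𝕜 := ℂ) η ((S.pol (F.filter fun g => ε g = 1) (S.co y)
      - S.pol (F.filter fun g => ¬ ε g = 1) (S.co y)) ξ)
    rw [← e7, e6, Complex.norm_real, Real.norm_of_nonneg (by positivity)] at this
    refine this.trans (mul_le_mul_of_nonneg_left ((ContinuousLinearMap.le_opNorm _ _).trans
      (mul_le_mul_of_nonneg_right ?_ (norm_nonneg _))) (norm_nonneg _))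
    refine (norm_sub_le _ _).trans ?_
    have a1 := h.clos (F.filter fun g => ε g = 1) ym
    have a2 := h.clos (F.filter fun g => ¬ ε g = 1) ym
    nlinarith [mul_le_mul_of_nonneg_left yn hC]
  have e9 : l ≤ 4 * (‖η‖ * (C * ‖ξ‖)) := by nlinarith
  show s ≤ _
  rw [← hl2]
  nlinarith [pow_le_pow_left₀ hl0.le e9 2]

lemma not_unc [Infinite G] (S : Sys G H) (δ : ℝ) (hδ : 0 < δ) :
    ∃ (F A : Finset G) (c : G → ℂ), A ⊆ F ∧ ‖S.pol F c‖ ≤ δ ∧ 1 ≤ ‖S.pol A c‖ := by
  have h : ¬ S.Unc δ⁻¹ := fun h => S.not_bes (by positivity) (h.bes (by positivity))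
  unfold Unc at h
  push Not at h
  obtain ⟨F, A, c, hA, hlt⟩ := h
  have h0 : 0 < ‖S.pol A c‖ := lt_of_le_of_lt (by positivity) hlt
  have e : ∀ (B : Finset G) (r : ℝ), S.pol B (fun g => (r : ℂ) * c g) = (r : ℂ) • S.pol B c := by
    intro B r
    simp [pol, Finset.smul_sum, smul_smul]
  refine ⟨F, A, fun g => ((‖S.pol A c‖⁻¹ : ℝ) : ℂ) * c g, hA, ?_, ?_⟩
  · rw [e, norm_smul, Complex.norm_real, Real.norm_of_nonneg (by positivity),
      inv_mul_le_iff₀ h0]
    rw [inv_mul_lt_iff₀ hδ] at hlt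
    linarith
  · rw [e, norm_smul, Complex.norm_real, Real.norm_of_nonneg (by positivity),
      inv_mul_cancel₀ h0.ne']

end Sys

end Pool.Agent.H89.HS
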