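import Mathlib
import Pool.Agent.H89.HS3

set_option autoImplicit false

namespace Pool.Agent.H89.HS

open scoped InnerProductSpace ComplexConjugate
open Filter Topology

variable {G H : Type*} [Group G] [NormedAddCommGroup H] [InnerProductSpace ℂ H] [CompleteSpace H]

namespace Sys

variable (S : Sys G H)

lemma pol_shift [DecidableEq G] (h : G) (A : Finset G) (c : G → ℂ) :
    S.pol (A.image (h * ·)) (fun g => c (h⁻¹ * g) * S.σ h (h⁻¹ * g)) = S.U h * S.pol A c := by
  rw [pol, Finset.sum_image (fun x _ y _ hxy => mul_left_cancel hxy), pol, Finset.mul_sum]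
  refine Finset.sum_congr rfl fun g _ => ?_
  rw [mul_smul_comm, S.U_mul, smul_smul, inv_mul_cancel_left]

lemma blocks [Infinite G] (d : G → ℝ) (d0 : ∀ g, 0 ≤ d g) (du : ∀ r, ∃ g, r < d g)
    (dt : ∀ h f, d h ≤ 2 * d (h * f) + 2 * d f) :
    ∃ (E B : ℕ → Finset G) (k : ℕ → G → ℂ), (∀ n, B n ⊆ E n) ∧
      (∀ n, ‖S.pol (E n) (k n)‖ ≤ (1 / 2) ^ n) ∧ (∀ n, 1 ≤ ‖S.pol (B n) (k n)‖) ∧
      (∀ n, ∀ g ∈ E n, (n : ℝ) + (E n).card ≤ d g) ∧
      ∀ m n g, g ∈ E m → g ∈ E n → m = n := by
  classical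
  choose F A c h1 h2 h3 using fun n : ℕ => S.not_unc ((1 / 2) ^ n) (by positivity)
  have step : ∀ (n : ℕ) (r : ℝ), ∃ h, ∀ f ∈ F n, r < d (h * f) := by
    intro n r
    obtain ⟨h, hh⟩ := du (2 * r + 2 * ∑ f ∈ F n, d f)
    refine ⟨h, fun f hf => ?_⟩
    have := Finset.single_le_sum (f := d) (fun g _ => d0 g) hf
    linarith [dt h f]
  choose hh hhh using step
  let r : ℕ → ℝ := fun n => Nat.rec ((F 0).card : ℝ)
    (fun n x => x + ∑ f ∈ F n, d (hh n x * f) + 1 + (F (n + 1)).card) n
  have r0 : r 0 = (F 0).card := rfl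
  have r1 : ∀ n, r (n + 1) = r n + ∑ f ∈ F n, d (hh n (r n) * f) + 1 + (F (n + 1)).card :=
    fun n => rfl
  have hs : ∀ n, 0 ≤ ∑ f ∈ F n, d (hh n (r n) * f) := fun n => Finset.sum_nonneg fun _ _ => d0 _
  have r2 : ∀ n : ℕ, (n : ℝ) + (F n).card ≤ r n := by
    intro n
    induction n with
    | zero => simp [r0]
    | succ n ih =>
      rw [r1]
      push_cast
      have : (0 : ℝ) ≤ (F n).card := by positivity
      linarith [hs n]
  have r3 : Monotone r := monotone_nat_of_le_succ fun n => by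
    rw [r1]
    have : (0 : ℝ) ≤ (F (n + 1)).card := by positivity
    linarith [hs n]
  have r4 : ∀ n, ∀ g ∈ (F n).image (hh n (r n) * ·), r n < d g ∧ d g ≤ r (n + 1) := by
    intro n g hg
    obtain ⟨f, hf, rfl⟩ := Finset.mem_image.1 hg
    refine ⟨hhh n _ f hf, ?_⟩
    have e1 := Finset.single_le_sum (f := fun f => d (hh n (r n) * f)) (fun g _ => d0 _) hf
    have e2 : (0 : ℝ) ≤ (F (n + 1)).card := by positivity
    have e3 : (0 : ℝ) ≤ (n : ℝ) + (F n).card := by positivity
    rw [r1]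
    linarith [r2 n]
  refine ⟨fun n => (F n).image (hh n (r n) * ·), fun n => (A n).image (hh n (r n) * ·),
    fun n g => c n ((hh n (r n))⁻¹ * g) * S.σ (hh n (r n)) ((hh n (r n))⁻¹ * g),
    fun n => Finset.image_subset_image (h1 n), fun n => ?_, fun n => ?_, fun n g hg => ?_, ?_⟩
  · rw [pol_shift, S.norm_U_mul]; exact h2 n
  · rw [pol_shift, S.norm_U_mul]; exact h3 n
  · have e1 : (((F n).image (hh n (r n) * ·)).card : ℝ) ≤ (F n).card := by
      exact_mod_cast Finset.card_image_le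
    linarith [r2 n, (r4 n g hg).1]
  · intro m n g hm hn
    by_contra hne
    rcases lt_or_gt_of_ne hne with h | h
    · linarith [(r4 m g hm).2, (r4 n g hn).1, r3 (show m + 1 ≤ n from h)]
    · linarith [(r4 m g hm).1, (r4 n g hn).2, r3 (show n + 1 ≤ m from h)]

noncomputable def coL (g : G) : (H →L[ℂ] H) →L[ℂ] ℂ :=
  (innerSL ℂ (S.b g)).comp (ContinuousLinearMap.apply ℂ H (S.b 1))

lemma coL_apply (g : G) (y : H →L[ℂ] H) : S.coL g y = S.co y g := rfl

lemma mem_clos {ι : Type*} {f : ι → H →L[ℂ] H} {y : H →L[ℂ] H} (h : HasSum f y)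
    (hf : ∀ i, f i ∈ Submodule.span ℂ (Set.range S.U)) :
    y ∈ closure (Submodule.span ℂ (Set.range S.U) : Set (H →L[ℂ] H)) :=
  mem_closure_of_tendsto h (Eventually.of_forall fun _ => Submodule.sum_mem _ fun i _ => hf i)

theorem main [Infinite G] (d : G → ℝ) (d0 : ∀ g, 0 ≤ d g) (du : ∀ r, ∃ g, r < d g)
    (dt : ∀ h f, d h ≤ 2 * d (h * f) + 2 * d f) :
    ∃ (x y : H →L[ℂ] H) (E : ℕ → Finset G) (k : ℕ → G → ℂ),
      HasSum (fun n => S.pol (E n) (k n)) x ∧
      HasSum (fun n => S.pol (E n) fun g => (Real.exp (-d g) : ℂ) * k n g) y ∧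
      (¬ Summable fun g => S.co x g • S.U g) ∧ (Summable fun g => S.co y g • S.U g) ∧
      ∀ g, S.co y g = (Real.exp (-d g) : ℂ) * S.co x g := by
  classical
  obtain ⟨E, B, k, h1, h2, h3, h4, h5⟩ := S.blocks d d0 du dt
  have hsum : Summable fun n => S.pol (E n) (k n) :=
    Summable.of_norm_bounded summable_geometric_two h2
  set x := ∑' n, S.pol (E n) (k n) with hx
  have hxs : HasSum (fun n => S.pol (E n) (k n)) x := hsum.hasSum
  have hco : ∀ g, HasSum (fun n => if g ∈ E n then k n g else 0) (S.co x g) := by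
    intro g
    have := (S.coL g).hasSum hxs
    simpa only [coL_apply, co_pol] using this
  have c1 : ∀ n, ∀ g ∈ E n, S.co x g = k n g := by
    intro n g hg
    refine (hco g).unique ?_
    have := hasSum_single (f := fun n => if g ∈ E n then k n g else 0) n
      (fun m hm => if_neg fun h => hm (h5 m n g h hg))
    simpa only [if_pos hg] using this
  have c2 : ∀ g, (∀ n, g ∉ E n) → S.co x g = 0 := by
    intro g hg
    refine (hco g).unique ?_
    simp only [hg, if_false]
    exact hasSum_zero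
  have c3 : ∀ g, ‖S.co x g‖ ≤ ‖x‖ := by
    intro g
    refine (norm_inner_le_norm _ _).trans ?_
    rw [S.nb, one_mul]
    simpa [S.nb] using x.le_opNorm (S.b 1)
  set a : G → H →L[ℂ] H := fun g => ((Real.exp (-d g) : ℂ) * S.co x g) • S.U g with ha
  let ι : (Σ n, E n) → G := fun p => p.2.1
  have hι : Function.Injective ι := by
    rintro ⟨m, g, hg⟩ ⟨n, g', hg'⟩ h
    obtain rfl : g = g' := h
    obtain rfl := h5 m n g hg hg'
    rfl
  have hz : ∀ g ∉ Set.range ι, a g = 0 := by
    intro g hg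
    simp only [ha]
    rw [c2 g (fun n hn => hg ⟨⟨n, g, hn⟩, rfl⟩), mul_zero, zero_smul]
  have hsa : Summable (a ∘ ι) := by
    refine Summable.of_norm_bounded
      (g := fun p : Σ n, E n => ‖x‖ * (Real.exp (-(p.1 : ℝ)) * Real.exp (-((E p.1).card : ℝ))))
      ?_ ?_
    · rw [summable_sigma_of_nonneg (fun _ => by positivity)]
      refine ⟨fun n => (hasSum_fintype _).summable, ?_⟩
      refine Summable.of_nonneg_of_le (fun n => tsum_nonneg fun _ => by positivity) (fun n => ?_)
        (Real.summable_exp_neg_nat.mul_left ‖x‖)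
      rw [tsum_fintype]
      simp only [Finset.sum_const, Finset.card_univ, Fintype.card_coe, nsmul_eq_mul]
      have e1 : ((E n).card : ℝ) * Real.exp (-((E n).card : ℝ)) ≤ 1 := by
        rw [Real.exp_neg, mul_inv_le_iff₀ (Real.exp_pos _), one_mul]
        linarith [Real.add_one_le_exp ((E n).card : ℝ)]
      have e2 : 0 ≤ ‖x‖ * Real.exp (-(n : ℝ)) := by positivity
      nlinarith
    · rintro ⟨n, g, hg⟩
      simp only [Function.comp_apply, ha, ι, norm_smul, norm_mul, S.opn_U, mul_one,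
        Complex.norm_real, Real.norm_of_nonneg (Real.exp_pos _).le]
      rw [mul_comm, ← Real.exp_add]
      exact mul_le_mul (c3 g) (Real.exp_le_exp.2 (by linarith [h4 n g hg])) (Real.exp_pos _).le
        (norm_nonneg _)
  have hya : HasSum a (∑' p, (a ∘ ι) p) := (hι.hasSum_iff hz).1 hsa.hasSum
  set y := ∑' p, (a ∘ ι) p with hy
  have cy : ∀ g, S.co y g = (Real.exp (-d g) : ℂ) * S.co x g := by
    intro g
    have e1 := (S.coL g).hasSum hya
    refine e1.unique ?_
    have e2 : ∀ g', S.coL g (a g') =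
        if g' = g then (Real.exp (-d g) : ℂ) * S.co x g else 0 := by
      intro g'
      rw [coL_apply, co]
      simp only [ha, ContinuousLinearMap.smul_apply, S.U_d, inner_smul_right,
        orthonormal_iff_ite.1 S.b.orthonormal]
      by_cases hg : g' = g
      · subst hg; simp
      · simp [hg, Ne.symm hg]
    simp only [e2]
    exact hasSum_ite_eq _ _
  refine ⟨x, y, E, k, hxs, ?_, ?_, ?_, cy⟩
  · refine hsa.hasSum.sigma fun n => ?_
    have := hasSum_fintype fun g : E n => (a ∘ ι) ⟨n, g⟩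
    have e : ∑ g : E n, (a ∘ ι) ⟨n, g⟩ = S.pol (E n) fun g => (Real.exp (-d g) : ℂ) * k n g := by
      rw [pol, ← Finset.sum_coe_sort (E n)]
      refine Finset.sum_congr rfl fun g _ => ?_
      simp only [Function.comp_apply, ha, ι]
      rw [c1 n g.1 g.2]
    rwa [e] at this
  · intro hs
    obtain ⟨s, hs⟩ := summable_iff_vanishing_norm.1 hs 1 one_pos
    obtain ⟨n, hn⟩ := exists_nat_gt (∑ g ∈ s, d g)
    have hd : Disjoint (B n) s := by
      rw [Finset.disjoint_left]
      intro g hg hg'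
      have e1 := Finset.single_le_sum (f := d) (fun g _ => d0 g) hg'
      have e2 := h4 n g (h1 n hg)
      have e3 : (0 : ℝ) ≤ (E n).card := by positivity
      linarith
    have e4 := hs _ hd
    have e5 : ∑ g ∈ B n, S.co x g • S.U g = S.pol (B n) (k n) :=
      Finset.sum_congr rfl fun g hg => by rw [c1 n g (h1 n hg)]
    rw [e5] at e4
    linarith [h3 n]
  · simp only [cy]
    exact hya.summable

end Sys

end Pool.Agent.H89.HS
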