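import Mathlib

set_option autoImplicit false

namespace Pool.Agent.H89.Interp

open MeasureTheory Set Filter ENNReal
open scoped NNReal

variable {Ω : Type*} [MeasurableSpace Ω] {μ : Measure Ω}

lemma cheb {p : ℝ≥0∞} (p0 : p ≠ 0) (p1 : p ≠ ∞) {g h : Ω → ℂ} (hg : AEStronglyMeasurable g μ)
    {M : ℝ≥0} (hM : 0 < M) {t : ℝ} (ht : 0 < t) (H : eLpNorm g p μ ≤ M * eLpNorm h p μ) :
    μ {ω | M * t ≤ ‖g ω‖} ≤ ((ENNReal.ofReal t)⁻¹ * eLpNorm h p μ) ^ p.toReal := by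
  have hM' : (0 : ℝ) < M := hM
  have e : {ω | M * t ≤ ‖g ω‖} = {ω | ENNReal.ofReal (M * t) ≤ ‖g ω‖ₑ} := by
    ext ω; simp only [mem_ofPred_eq, ← ofReal_norm, ofReal_le_ofReal_iff (norm_nonneg _)]
  rw [e]
  refine (meas_ge_le_mul_pow_eLpNorm_enorm μ p0 p1 hg (by simp [hM.ne', ht])
    (by simp)).trans ?_
  rw [← mul_rpow_of_nonneg _ _ toReal_nonneg]
  refine ENNReal.rpow_le_rpow ((mul_le_mul_right H _).trans (le_of_eq ?_)) toReal_nonneg
  rw [ofReal_mul hM'.le, ofReal_coe_nnreal, ENNReal.mul_inv (by simp [hM.ne']) (by simp),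
    mul_comm (M : ℝ≥0∞)⁻¹, mul_assoc, ← mul_assoc _ (M : ℝ≥0∞),
    ENNReal.inv_mul_cancel (by simp [hM.ne']) (by simp), one_mul]

lemma pw {p : ℝ≥0∞} (p0 : p ≠ 0) (p1 : p ≠ ∞) (h : Ω → ℂ) {t : ℝ} (ht : 0 < t) :
    ((ENNReal.ofReal t)⁻¹ * eLpNorm h p μ) ^ p.toReal =
      ∫⁻ ω, ENNReal.ofReal ((‖h ω‖ / t) ^ p.toReal) ∂μ := by
  rw [mul_rpow_of_nonneg _ _ toReal_nonneg, eLpNorm_eq_lintegral_rpow_enorm_toReal p0 p1, ← rpow_mul,
    one_div_mul_cancel (toReal_pos p0 p1).ne', rpow_one, ← lintegral_const_mul' _ _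
      (rpow_ne_top_of_nonneg toReal_nonneg (by simpa using ht))]
  refine lintegral_congr fun ω => ?_
  rw [← mul_rpow_of_nonneg _ _ toReal_nonneg, ← ofReal_rpow_of_nonneg (by positivity) toReal_nonneg,
    ofReal_div_of_pos ht, ofReal_norm, ENNReal.div_eq_inv_mul]

noncomputable def k (b a t s : ℝ) : ℝ := if t < s then (s / t) ^ b else (s / t) ^ a

lemma weak [IsFiniteMeasure μ] {β α : ℝ≥0∞} (b0 : β ≠ 0) (b1 : β ≠ ∞) (a0 : α ≠ 0) (a1 : α ≠ ∞)
    (U : Lp ℂ β μ → Lp ℂ β μ) {M : ℝ≥0} (hM : 0 < M)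
    (h0 : ∀ x y, eLpNorm (⇑(U x) - ⇑(U y)) β μ ≤ M * eLpNorm (⇑x - ⇑y) β μ)
    (h1 : ∀ x y : Lp ℂ β μ, MemLp x α μ → MemLp y α μ →
      eLpNorm (⇑(U x) - ⇑(U y)) α μ ≤ M * eLpNorm (⇑x - ⇑y) α μ)
    (x y : Lp ℂ β μ) {t : ℝ} (ht : 0 < t) :
    μ {ω | t < ‖U x ω - U y ω‖ / (4 * M)} ≤
      ∫⁻ ω, ENNReal.ofReal (k β.toReal α.toReal t ‖x ω - y ω‖) ∂μ := by
  have hM' : (0 : ℝ) < M := hM
  have bp := toReal_pos b0 b1
  have ap := toReal_pos a0 a1
  have ms : ∀ x y : Lp ℂ β μ, AEStronglyMeasurable (⇑x - ⇑y) μ := fun x y =>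
    (Lp.memLp x).1.sub (Lp.memLp y).1
  have md : Measurable fun ω => ‖x ω - y ω‖ :=
    ((Lp.stronglyMeasurable x).sub (Lp.stronglyMeasurable y)).norm.measurable
  have mS : MeasurableSet {ω | t < ‖x ω - y ω‖} := measurableSet_lt measurable_const md
  set lo : Ω → ℂ := {ω | t < ‖x ω - y ω‖}ᶜ.indicator (⇑x - ⇑y) with hlo
  have ml : ∀ p, MemLp lo p μ := fun p => MemLp.of_bound ((ms x y).indicator mS.compl) t
    (Eventually.of_forall fun ω => by
      by_cases c : t < ‖x ω - y ω‖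
      · simp [hlo, c, ht.le]
      · simpa [hlo, c] using not_lt.mp c)
  refine ENNReal.le_of_forall_pos_le_add fun ε hε _ => ?_
  obtain ⟨z, hz, mz⟩ := (Lp.memLp y).exists_simpleFunc_eLpNorm_sub_lt b1
    (ε := ENNReal.ofReal t * (ε / 2) ^ (1 / β.toReal)) (by simp [ht, hε.ne', bp, bp.le])
  have hz2 : ((ENNReal.ofReal t)⁻¹ * eLpNorm (⇑y - ⇑z) β μ) ^ β.toReal ≤ ε / 2 := by
    refine (ENNReal.rpow_le_rpow (mul_le_mul_right hz.le _) bp.le).trans (le_of_eq ?_)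
    rw [← mul_assoc, ENNReal.inv_mul_cancel (by simpa using ht) (by simp), one_mul, ← rpow_mul,
      one_div_mul_cancel bp.ne', rpow_one]
  have ez := mz.coeFn_toLp
  have e1 := ((Lp.memLp y).add (ml β)).coeFn_toLp
  have e2 := (mz.add (ml β)).coeFn_toLp
  set w := mz.toLp
  set v1 := ((Lp.memLp y).add (ml β)).toLp
  set v2 := (mz.add (ml β)).toLp
  have mw : MemLp z α μ := z.memLp_of_isFiniteMeasure _ _
  have c1 := cheb b0 b1 (ms _ _) hM ht (h0 x v1)
  have c2 := cheb b0 b1 (ms _ _) hM ht (h0 v1 v2)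
  have c3 := cheb a0 a1 (ms _ _) hM ht (h1 v2 w ((mw.add (ml α)).ae_eq e2.symm) (mw.ae_eq ez.symm))
  have c4 := cheb b0 b1 (ms _ _) hM ht (h0 w y)
  rw [eLpNorm_congr_ae (g := ⇑y - ⇑z) (by filter_upwards [e1, e2] with ω k1 k2; simp [k1, k2])] at c2
  rw [eLpNorm_sub_comm (⇑w), eLpNorm_congr_ae (g := ⇑y - ⇑z)
    (by filter_upwards [ez] with ω k1; simp [k1])] at c4
  rw [pw b0 b1 _ ht] at c1
  rw [pw a0 a1 _ ht] at c3
  calc _ ≤ μ (({ω | M * t ≤ ‖(⇑(U x) - ⇑(U v1)) ω‖} ∪ {ω | M * t ≤ ‖(⇑(U v2) - ⇑(U w)) ω‖}) ∪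
        ({ω | M * t ≤ ‖(⇑(U v1) - ⇑(U v2)) ω‖} ∪ {ω | M * t ≤ ‖(⇑(U w) - ⇑(U y)) ω‖})) := by
        refine measure_mono fun ω hω => ?_
        by_contra c
        simp only [mem_union, mem_ofPred_eq, not_or, not_le, Pi.sub_apply] at c hω
        rw [lt_div_iff₀ (by positivity)] at hω
        have := norm_sub_le_norm_sub_add_norm_sub (U x ω) (U v1 ω) (U y ω)
        have := norm_sub_le_norm_sub_add_norm_sub (U v1 ω) (U v2 ω) (U y ω)
        have := norm_sub_le_norm_sub_add_norm_sub (U v2 ω) (U w ω) (U y ω)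
        linarith [c.1.1, c.1.2, c.2.1, c.2.2]
    _ ≤ _ := (measure_union_le _ _).trans (add_le_add ((measure_union_le _ _).trans
        ((add_le_add c1 c3).trans (le_of_eq ?_))) ((measure_union_le _ _).trans
        ((add_le_add (c2.trans hz2) (c4.trans hz2)).trans (le_of_eq (ENNReal.add_halves _)))))
  rw [← lintegral_add_left' (by have := (ms x v1).norm.aemeasurable; fun_prop)]
  refine lintegral_congr_ae ?_
  filter_upwards [ez, e1, e2] with ω k0 k1 k2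
  by_cases c : t < ‖x ω - y ω‖
  · simp [k0, k1, k2, hlo, c, k, ap.ne']
  · simp [k0, k1, k2, hlo, c, k, bp.ne']

lemma kern {b g a : ℝ} (hb : 0 < b) (h1 : b < g) (h2 : g < a) {s : ℝ} (hs : 0 ≤ s) :
    ∫⁻ t in Ioi 0, ENNReal.ofReal (k b a t s) * ENNReal.ofReal (t ^ (g - 1)) ≤
      ENNReal.ofReal (1 / (g - b) + 1 / (a - g)) * ENNReal.ofReal (s ^ g) := by
  rcases hs.eq_or_lt with rfl | hs
  · refine le_of_eq_of_le (setLIntegral_eq_zero measurableSet_Ioi fun t ht => ?_) (zero_le)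
    simp [k, not_lt.mpr (mem_Ioi.mp ht).le, (show a ≠ 0 by linarith)]
  have := sub_pos.mpr h1
  have := sub_pos.mpr h2
  rw [← Ioc_union_Ioi_eq_Ioi hs.le, ← ofReal_mul (by positivity), add_mul,
    ofReal_add (by positivity) (by positivity)]
  refine (lintegral_union_le _ _ _).trans (add_le_add (le_of_eq ?_) (le_of_eq ?_))
  · have i := ((intervalIntegral.intervalIntegrable_rpow' (r := g - b - 1) (a := 0) (b := s)
      (by linarith)).const_mul (s ^ b)).1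
    have e := integral_rpow (r := g - b - 1) (a := 0) (b := s) (Or.inl (by linarith))
    rw [intervalIntegral.integral_of_le hs.le] at e
    rw [show 1 / (g - b) * s ^ g = ∫ t in Ioc 0 s, s ^ b * t ^ (g - b - 1) by
      rw [integral_const_mul, e, sub_add_cancel, Real.zero_rpow (by linarith), Real.rpow_sub hs]
      field_simp; simp, ofReal_integral_eq_lintegral_ofReal i ((ae_restrict_iff' measurableSet_Ioc).mpr
        (Eventually.of_forall fun t ht => by have := ht.1; positivity)),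
      ← Measure.restrict_congr_set Ioo_ae_eq_Ioc]
    refine setLIntegral_congr_fun measurableSet_Ioo fun t ht => ?_
    have := ht.1
    simp only [k, if_pos ht.2]
    rw [← ofReal_mul (by positivity), Real.div_rpow hs.le this.le, sub_right_comm,
      Real.rpow_sub this (g - 1)]
    congr 1; ring
  · have i := (integrableOn_Ioi_rpow_of_lt (a := g - a - 1) (by linarith) hs).const_mul (s ^ a)
    have e := integral_Ioi_rpow_of_lt (a := g - a - 1) (by linarith) hs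
    rw [show 1 / (a - g) * s ^ g = ∫ t in Ioi s, s ^ a * t ^ (g - a - 1) by
      rw [integral_const_mul, e, sub_add_cancel, Real.rpow_sub hs, ← neg_sub a g]
      field_simp, ofReal_integral_eq_lintegral_ofReal i ((ae_restrict_iff' measurableSet_Ioi).mpr
        (Eventually.of_forall fun t ht => by have := hs.trans ht; positivity))]
    refine setLIntegral_congr_fun measurableSet_Ioi fun t ht => ?_
    have := hs.trans ht
    simp only [k, if_neg (not_lt.mpr (mem_Ioi.mp ht).le)]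
    rw [← ofReal_mul (by positivity), Real.div_rpow hs.le this.le, sub_right_comm,
      Real.rpow_sub this (g - 1)]
    congr 1; ring

theorem strong [IsFiniteMeasure μ] {β γ α : ℝ≥0∞} (b0 : β ≠ 0) (bg : β < γ) (ga : γ < α)
    (a1 : α ≠ ∞) : ∃ C : ℝ≥0, 0 < C ∧ ∀ (U : Lp ℂ β μ → Lp ℂ β μ) (M : ℝ≥0),
    (∀ x y, eLpNorm (⇑(U x) - ⇑(U y)) β μ ≤ M * eLpNorm (⇑x - ⇑y) β μ) →
    (∀ x y : Lp ℂ β μ, MemLp x α μ → MemLp y α μ →
      eLpNorm (⇑(U x) - ⇑(U y)) α μ ≤ M * eLpNorm (⇑x - ⇑y) α μ) →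
    ∀ x y, eLpNorm (⇑(U x) - ⇑(U y)) γ μ ≤ C * M * eLpNorm (⇑x - ⇑y) γ μ := by
  have g1 := (ga.trans a1.lt_top).ne
  have b1 := (bg.trans g1.lt_top).ne
  have g0 := (pos_of_gt bg).ne'
  have bp := toReal_pos b0 b1
  have gp := toReal_pos g0 g1
  have h1 := (toReal_lt_toReal b1 g1).mpr bg
  have h2 := (toReal_lt_toReal g1 a1).mpr ga
  have := sub_pos.mpr h1
  have := sub_pos.mpr h2
  set c := γ.toReal * (1 / (γ.toReal - β.toReal) + 1 / (α.toReal - γ.toReal)) with hc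
  have c0 : 0 < c := by positivity
  refine ⟨⟨4 * c ^ (1 / γ.toReal), by positivity⟩, (by positivity : (0 : ℝ) < 4 * c ^ (1 / γ.toReal)),
    fun U M h0 h3 x y => ?_⟩
  have ms : ∀ x y : Lp ℂ β μ, Measurable fun ω => ‖x ω - y ω‖ := fun x y =>
    ((Lp.stronglyMeasurable x).sub (Lp.stronglyMeasurable y)).norm.measurable
  rcases (zero_le (a := M)).eq_or_lt with rfl | hM
  · have := h0 x y
    rw [ENNReal.coe_zero, zero_mul, nonpos_iff_eq_zero, eLpNorm_eq_zero_iff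
      ((Lp.memLp _).1.sub (Lp.memLp _).1) b0] at this
    rw [eLpNorm_congr_ae this]; simp
  have hM' : (0 : ℝ) < M := hM
  have m1 := ms x y
  have key : ∫⁻ ω, ENNReal.ofReal ((‖U x ω - U y ω‖ / (4 * M)) ^ γ.toReal) ∂μ ≤
      ENNReal.ofReal c * ∫⁻ ω, ENNReal.ofReal ((‖x ω - y ω‖ / 1) ^ γ.toReal) ∂μ := by
    rw [lintegral_rpow_eq_lintegral_meas_lt_mul μ (Eventually.of_forall fun ω => by positivity)
      ((ms _ _).div_const _).aemeasurable gp, hc, ofReal_mul gp.le, mul_assoc]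
    refine mul_le_mul_right ?_ _
    calc _ ≤ ∫⁻ t in Ioi 0, ∫⁻ ω, ENNReal.ofReal (k β.toReal α.toReal t ‖x ω - y ω‖) *
          ENNReal.ofReal (t ^ (γ.toReal - 1)) ∂μ := by
          refine setLIntegral_mono' measurableSet_Ioi fun t ht => ?_
          rw [lintegral_mul_const' _ _ ofReal_ne_top]
          exact mul_le_mul_left (weak b0 b1 (pos_of_gt ga).ne' a1 U hM h0 h3 x y ht) _
      _ ≤ _ := by
          rw [lintegral_lintegral_swap, ← lintegral_const_mul' _ _ ofReal_ne_top]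
          · exact lintegral_mono fun ω => by simpa using kern bp h1 h2 (norm_nonneg (x ω - y ω))
          · refine Measurable.aemeasurable (Measurable.mul (Measurable.ennreal_ofReal
              (Measurable.ite (measurableSet_lt measurable_fst (m1.comp measurable_snd)) ?_ ?_)) ?_)
            all_goals fun_prop
  have e1 := pw (μ := μ) g0 g1 (⇑(U x) - ⇑(U y)) (t := 4 * M) (by positivity)
  have e2 := pw (μ := μ) g0 g1 (⇑x - ⇑y) one_pos
  simp only [Pi.sub_apply] at e1 e2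
  rw [← e1, ← e2, show ENNReal.ofReal c = ENNReal.ofReal (c ^ (1 / γ.toReal)) ^ γ.toReal by
    rw [ofReal_rpow_of_nonneg (by positivity) gp.le, ← Real.rpow_mul c0.le,
      one_div_mul_cancel gp.ne', Real.rpow_one], ← mul_rpow_of_nonneg _ _ gp.le,
    ENNReal.rpow_le_rpow_iff gp, ENNReal.inv_mul_le_iff (by simp [hM.ne']) ofReal_ne_top] at key
  refine key.trans (le_of_eq ?_)
  rw [← mul_assoc, ← ofReal_mul (by positivity), ← ENNReal.coe_mul, ← ofReal_coe_nnreal]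
  rw [ofReal_one, inv_one, one_mul]
  congr 2
  show _ = 4 * c ^ (1 / γ.toReal) * M
  ring

end Pool.Agent.H89.Interp
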