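import Mathlib

set_option autoImplicit false

namespace Pool.Agent.H89.Join

open Filter Topology Finset

noncomputable abbrev l2 := lp (fun _ : ℕ => ℝ) 2

noncomputable def e (n : ℕ) : l2 := lp.single 2 n 1

lemma inner_e (n : ℕ) (x : l2) : inner ℝ (e n) x = x n := by
  simp [e, lp.inner_single_left]

lemma on_e : Orthonormal ℝ fun n => e (n + 1) := by
  rw [orthonormal_iff_ite]
  intro i j
  rw [inner_e]
  simp [e, lp.single_apply, Pi.single_apply]

noncomputable def S : l2 →ₗᵢ[ℝ] l2 := on_e.orthogonalFamily.linearIsometry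

lemma S_e (n : ℕ) : S (e n) = e (n + 1) := by
  simp [S, e, OrthogonalFamily.linearIsometry_apply_single]

lemma S_succ (x : l2) (n : ℕ) : S x (n + 1) = x n := by
  rw [← inner_e, ← S_e, S.inner_map_map, inner_e]

lemma S_zero (x : l2) : S x 0 = 0 := by
  have h := (on_e.orthogonalFamily.hasSum_linearIsometry x).mapL (innerSL ℝ (e 0))
  simp only [innerSL_apply_apply, inner_e] at h
  refine h.unique ?_
  convert hasSum_zero with n
  simp [e, lp.single_apply]

lemma Sp_add (x : l2) (l k : ℕ) : (S^[l] x) (k + l) = x k := by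
  induction l with
  | zero => rfl
  | succ l ih => rw [Function.iterate_succ_apply', ← add_assoc, S_succ, ih]

lemma Sp_lt (x : l2) (l k : ℕ) (h : k < l) : (S^[l] x) k = 0 := by
  induction l generalizing k with
  | zero => omega
  | succ l ih =>
    rw [Function.iterate_succ_apply']
    cases k with
    | zero => exact S_zero _
    | succ k => rw [S_succ, ih k (by omega)]

lemma hasSum_Sp (x y : l2) (l : ℕ) : HasSum (fun k => x k * y (k + l)) (inner ℝ (S^[l] x) y) := by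
  have h := (hasSum_nat_add_iff' l).mpr (lp.hasSum_inner (𝕜 := ℝ) (S^[l] x) y)
  rw [Finset.sum_eq_zero fun i hi => by simp [Sp_lt x l i (mem_range.mp hi)], sub_zero] at h
  simpa [Sp_add, mul_comm] using h

lemma inner_Sp (x y : l2) (l : ℕ) : inner ℝ (S^[l] x) (S^[l] y) = inner ℝ x y := by
  induction l with
  | zero => rfl
  | succ l ih => simp only [Function.iterate_succ_apply', S.inner_map_map, ih]

noncomputable def N (x : l2) (a : ℕ) : Submodule ℝ l2 :=
  (Submodule.span ℝ (Set.range fun j => S^[j + a] x)).topologicalClosure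

lemma N_le (x : l2) (a : ℕ) (T : Submodule ℝ l2) (hT : IsClosed (T : Set l2))
    (h : ∀ j, S^[j + a] x ∈ T) : N x a ≤ T :=
  Submodule.topologicalClosure_minimal _ (Submodule.span_le.mpr (Set.range_subset_iff.mpr h)) hT

lemma mem_N (x : l2) (a j : ℕ) : S^[j + a] x ∈ N x a :=
  Submodule.le_topologicalClosure _ (Submodule.subset_span ⟨j, rfl⟩)

lemma N_closed (x : l2) (a : ℕ) : IsClosed (N x a : Set l2) :=
  Submodule.isClosed_topologicalClosure _

lemma N10 (x : l2) : N x 1 ≤ N x 0 := N_le x 1 _ (N_closed x 0) fun j => mem_N x 0 (j + 1)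

lemma N01 (x y : l2) (h : y ∈ N x 0) : S y ∈ N x 1 :=
  N_le x 0 ((N x 1).comap S.toLinearMap) ((N_closed x 1).preimage S.continuous) (fun j => by
    have := mem_N x 1 j
    rwa [Function.iterate_succ_apply'] at this) h

lemma N0p (x y : l2) (h : y ∈ N x 0) (j : ℕ) : S^[j] y ∈ N x 0 := by
  induction j with
  | zero => exact h
  | succ j ih => rw [Function.iterate_succ_apply']; exact N10 x (N01 x _ ih)

lemma wander (x : l2) (h : x 0 ≠ 0) : ∃ ψ ∈ N x 0, ‖ψ‖ = 1 ∧
    ∀ i j, i ≠ j → inner ℝ (S^[i] ψ) (S^[j] ψ) = 0 := by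
  have : CompleteSpace (N x 1) := (N_closed x 1).completeSpace_coe
  set φ := x - (N x 1).starProjection x with hφ
  have h1 : φ ∈ N x 0 := sub_mem (mem_N x 0 0) (N10 x ((N x 1).starProjection_apply_mem x))
  have h2 : φ ∈ (N x 1)ᗮ := (N x 1).sub_starProjection_mem_orthogonal x
  have h3 : ∀ y ∈ N x 1, y 0 = 0 := fun y hy => by
    have := N_le x 1 (LinearMap.ker (innerSL ℝ (e 0)).toLinearMap) (innerSL ℝ (e 0)).isClosed_ker
      (fun j => by simpa [inner_e] using Sp_lt x (j + 1) 0 (by omega)) hy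
    simpa [inner_e] using this
  have h4 : φ ≠ 0 := fun k => h (by
    have := h3 _ ((N x 1).starProjection_apply_mem x)
    have h5 : x = (N x 1).starProjection x := sub_eq_zero.mp k
    rwa [← h5] at this)
  have h5 := (N x 0).smul_mem ‖φ‖⁻¹ h1
  have h6 := (N x 1)ᗮ.smul_mem ‖φ‖⁻¹ h2
  have key : ∀ i d, inner ℝ (S^[i + (d + 1)] (‖φ‖⁻¹ • φ)) (S^[i] (‖φ‖⁻¹ • φ)) = 0 := fun i d => by
    rw [Function.iterate_add_apply, inner_Sp, Function.iterate_succ_apply']
    exact h6 _ (N01 x _ (N0p x _ h5 d))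
  refine ⟨_, h5, norm_smul_inv_norm h4, fun i j hij => ?_⟩
  rcases hij.lt_or_gt with k | k
  · obtain ⟨d, rfl⟩ := Nat.exists_eq_add_of_lt k
    rw [real_inner_comm]; exact key i d
  · obtain ⟨d, rfl⟩ := Nat.exists_eq_add_of_lt k
    exact key j d

lemma cross (x y : l2) (hx : x 0 ≠ 0) (hy : y 0 ≠ 0) :
    ∃ l, inner ℝ (S^[l] x) y ≠ 0 ∨ inner ℝ (S^[l] y) x ≠ 0 := by
  by_contra hc
  push Not at hc
  have h1 : ∀ i j, inner ℝ (S^[i] x) (S^[j] y) = 0 := fun i j => by
    rcases le_total i j with k | k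
    · obtain ⟨d, rfl⟩ := Nat.exists_eq_add_of_le k
      rw [Function.iterate_add_apply, inner_Sp, real_inner_comm, (hc d).2]
    · obtain ⟨d, rfl⟩ := Nat.exists_eq_add_of_le k
      rw [Function.iterate_add_apply, inner_Sp, (hc d).1]
  have h2 : ∀ a ∈ N x 0, ∀ b ∈ N y 0, inner ℝ a b = 0 := fun a ha b hb => by
    rw [real_inner_comm]
    refine N_le x 0 (N y 0)ᗮ (Submodule.isClosed_orthogonal _) (fun i b hb => ?_) ha b hb
    have := N_le y 0 (LinearMap.ker (innerSL ℝ (S^[i] x)).toLinearMap)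
      (innerSL ℝ (S^[i] x)).isClosed_ker (fun j => by simpa using h1 i j) hb
    rw [real_inner_comm]
    simpa using this
  obtain ⟨ψ, m1, n1, o1⟩ := wander x hx
  obtain ⟨φ, m2, n2, o2⟩ := wander y hy
  have on : Orthonormal ℝ (Sum.elim (fun j => S^[j] ψ) fun j => S^[j] φ) := by
    rw [orthonormal_iff_ite]
    rintro (i | i) (j | j)
    · by_cases h : i = j
      · simp only [h, Sum.elim_inl, inner_Sp]; simp [n1]
      · simp [h, o1 i j h]
    · simpa using h2 _ (N0p x _ m1 i) _ (N0p y _ m2 j)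
    · simpa [real_inner_comm] using h2 _ (N0p x _ m1 j) _ (N0p y _ m2 i)
    · by_cases h : i = j
      · simp only [h, Sum.elim_inr, inner_Sp]; simp [n2]
      · simp [h, o2 i j h]
  have lim : ∀ z : l2, ‖z‖ = 1 → Tendsto (fun n => ∑ j ∈ range (n + 1),
      ‖inner ℝ (S^[j] z) (e n)‖ ^ 2) atTop (𝓝 1) := fun z hz => by
    have h := (lp.hasSum_inner (𝕜 := ℝ) z z).tendsto_sum_nat.comp (tendsto_add_atTop_nat 1)
    rw [real_inner_self_eq_norm_sq, hz, one_pow] at h
    refine h.congr fun n => ?_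
    rw [Function.comp, ← Finset.sum_flip]
    refine Finset.sum_congr rfl fun j hj => ?_
    have := Sp_add z j (n - j)
    rw [Nat.sub_add_cancel (by simpa [Nat.lt_succ_iff] using hj)] at this
    rw [real_inner_comm (e n), inner_e, this]
    simp
  have := le_of_tendsto' ((lim ψ n1).add (lim φ n2)) (b := 1) fun n => by
    have h := on.sum_inner_products_le (e n) (s := (range (n + 1)).disjSum (range (n + 1)))
    rw [Finset.sum_disjSum] at h
    simpa [e, lp.norm_single] using h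
  norm_num at this

structure Side (H : Type*) [NormedAddCommGroup H] [InnerProductSpace ℝ H] where
  U : H →L[ℝ] H
  L : H →L[ℝ] H
  M : H →L[ℝ] H
  o : H
  adj : ∀ a b, inner ℝ a (L b) = inner ℝ (U a) b
  iso : ∀ a b, inner ℝ (U a) (U b) = inner ℝ a b
  hM : ∀ a, ‖M a‖ ≤ ‖a‖
  hMU : ∀ a, L (M (U a)) = 0
  ho : U o = o
  no : ‖o‖ = 1

variable {H K : Type*} [NormedAddCommGroup H] [InnerProductSpace ℝ H]
  [NormedAddCommGroup K] [InnerProductSpace ℝ K]

lemma Side.LU (s : Side H) (a : H) : s.L (s.U a) = a :=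
  ext_inner_left ℝ fun b => by rw [s.adj, s.iso]

lemma Side.oL (s : Side H) (a : H) : inner ℝ s.o (s.L a) = inner ℝ s.o a := by rw [s.adj, s.ho]

lemma Side.oLp (s : Side H) (a : H) (k : ℕ) : inner ℝ s.o (s.L^[k] a) = inner ℝ s.o a := by
  induction k with
  | zero => rfl
  | succ k ih => rw [Function.iterate_succ_apply', s.oL, ih]

lemma Side.LUp (s : Side H) (a : H) (t : ℕ) : s.L^[t] (s.U^[t] a) = a :=
  Function.LeftInverse.iterate s.LU t a

lemma Side.key (s : Side H) (u : H) : ‖s.L u‖ ^ 2 + ‖s.L (s.M u)‖ ^ 2 ≤ ‖u‖ ^ 2 := by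
  have nU : ∀ a, ‖s.U a‖ = ‖a‖ := fun a => by
    rw [← sq_eq_sq₀ (norm_nonneg _) (norm_nonneg _), ← real_inner_self_eq_norm_sq, s.iso,
      real_inner_self_eq_norm_sq]
  have h1 : ‖u - s.U (s.L u)‖ ^ 2 = ‖u‖ ^ 2 - ‖s.L u‖ ^ 2 := by
    rw [norm_sub_sq_real, nU, real_inner_comm, ← s.adj, real_inner_self_eq_norm_sq]; ring
  have h2 : s.L (s.M u) = s.L (s.M (u - s.U (s.L u))) := by simp [s.hMU]
  have h3 : ∀ a, ‖s.L a‖ ≤ ‖a‖ := fun a => by
    have := real_inner_le_norm (s.U (s.L a)) a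
    rw [← s.adj, real_inner_self_eq_norm_sq, nU] at this
    by_contra k
    push Not at k
    nlinarith [norm_nonneg a]
  have h4 := (h3 _).trans (s.hM (u - s.U (s.L u)))
  rw [h2]
  nlinarith [norm_nonneg (s.L (s.M (u - s.U (s.L u))))]

lemma key2 (s : Side H) (r : Side K) (u : H) (v : K) :
    ‖s.L u‖ * ‖r.L v‖ + ‖s.L (s.M u)‖ * ‖r.L (r.M v)‖ ≤ ‖u‖ * ‖v‖ := by
  have h1 := s.key u
  have h2 := r.key v
  refine abs_le_of_sq_le_sq' ?_ (by positivity) |>.2
  calc _ ≤ (‖s.L u‖ ^ 2 + ‖s.L (s.M u)‖ ^ 2) * (‖r.L v‖ ^ 2 + ‖r.L (r.M v)‖ ^ 2) := by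
        nlinarith [sq_nonneg (‖s.L u‖ * ‖r.L (r.M v)‖ - ‖s.L (s.M u)‖ * ‖r.L v‖)]
    _ ≤ ‖u‖ ^ 2 * ‖v‖ ^ 2 := by gcongr
    _ = _ := by ring

noncomputable def C (s : Side H) (r : Side K) (ε : ℝ) : ℕ → H → K → ℝ
  | 0, u, v => inner ℝ s.o u * inner ℝ r.o v
  | n + 1, u, v => C s r ε n (s.L u) (r.L v) + ε * C s r ε n (s.L (s.M u)) (r.L (r.M v))

noncomputable def Side.al (s : Side H) (u : H) (k : ℕ) : ℝ := inner ℝ s.o (s.M (s.L^[k] u))

lemma C0 (s : Side H) (r : Side K) (ε : ℝ) (hε : |ε| ≤ 1) (n : ℕ) (u : H) (v : K) :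
    |C s r ε n u v| ≤ ‖u‖ * ‖v‖ := by
  induction n generalizing u v with
  | zero =>
    rw [C, abs_mul]
    gcongr
    · simpa [s.no] using abs_real_inner_le_norm s.o u
    · simpa [r.no] using abs_real_inner_le_norm r.o v
  | succ n ih =>
    rw [C]
    refine (abs_add_le _ _).trans (le_trans ?_ (key2 s r u v))
    rw [abs_mul]
    exact add_le_add (ih _ _) ((mul_le_of_le_one_left (abs_nonneg _) hε).trans (ih _ _))

lemma C1 (s : Side H) (r : Side K) (ε : ℝ) (hε : |ε| ≤ 1) (n : ℕ) (u : H) (v : K) :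
    |C s r ε n u v - inner ℝ s.o u * inner ℝ r.o v| ≤ |ε| * (‖u‖ * ‖v‖) := by
  induction n generalizing u v with
  | zero => simp [C]; positivity
  | succ n ih =>
    rw [C, add_sub_right_comm, ← s.oL u, ← r.oL v]
    refine (abs_add_le _ _).trans (le_trans ?_ (mul_le_mul_of_nonneg_left (key2 s r u v) (abs_nonneg ε)))
    rw [abs_mul, mul_add]
    exact add_le_add (ih _ _) (by gcongr; exact C0 s r ε hε n _ _)

lemma C2 (s : Side H) (r : Side K) (ε : ℝ) (hε : |ε| ≤ 1) (n : ℕ) (u : H) (v : K) :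
    |C s r ε n u v - inner ℝ s.o u * inner ℝ r.o v - ε * ∑ k ∈ range n, s.al u k * r.al v k| ≤
      ε ^ 2 * (‖u‖ * ‖v‖) := by
  induction n generalizing u v with
  | zero => simp [C]; positivity
  | succ n ih =>
    have h : C s r ε (n + 1) u v - inner ℝ s.o u * inner ℝ r.o v -
        ε * ∑ k ∈ range (n + 1), s.al u k * r.al v k =
        (C s r ε n (s.L u) (r.L v) - inner ℝ s.o (s.L u) * inner ℝ r.o (r.L v) -
          ε * ∑ k ∈ range n, s.al (s.L u) k * r.al (r.L v) k) +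
        ε * (C s r ε n (s.L (s.M u)) (r.L (r.M v)) -
          inner ℝ s.o (s.L (s.M u)) * inner ℝ r.o (r.L (r.M v))) := by
      rw [C, Finset.sum_range_succ']
      simp only [Side.oL, Side.al, Function.iterate_succ_apply, Function.iterate_zero, id]
      ring
    rw [h]
    refine (abs_add_le _ _).trans (le_trans ?_ (mul_le_mul_of_nonneg_left (key2 s r u v) (sq_nonneg ε)))
    rw [abs_mul, mul_add, ← sq_abs ε, sq, mul_assoc |ε| |ε| (_ * ‖r.L (r.M v)‖)]
    exact add_le_add (by simpa [sq] using ih _ _) (by gcongr; exact C1 s r ε hε n _ _)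

lemma C_zeroL (s : Side H) (r : Side K) (ε : ℝ) (n : ℕ) (v : K) : C s r ε n 0 v = 0 := by
  induction n generalizing v with
  | zero => simp [C]
  | succ n ih => simp [C, ih]

lemma C_zeroR (s : Side H) (r : Side K) (ε : ℝ) (n : ℕ) (u : H) : C s r ε n u 0 = 0 := by
  induction n generalizing u with
  | zero => simp [C]
  | succ n ih => simp [C, ih]

lemma peelL (s : Side H) (r : Side K) (ε : ℝ) (n t : ℕ) (u : H) (v : K) :
    C s r ε (n + t) (s.U^[t] u) v = C s r ε n u (r.L^[t] v) := by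
  induction t generalizing v with
  | zero => rfl
  | succ t ih =>
    rw [← add_assoc, C, Function.iterate_succ_apply', s.LU, s.hMU, C_zeroL, ih]; simp

lemma peelR (s : Side H) (r : Side K) (ε : ℝ) (n t : ℕ) (u : H) (v : K) :
    C s r ε (n + t) u (r.U^[t] v) = C s r ε n (s.L^[t] u) v := by
  induction t generalizing u with
  | zero => rfl
  | succ t ih =>
    rw [← add_assoc, C, Function.iterate_succ_apply', r.LU, r.hMU, C_zeroR, ih]; simp

lemma Side.al_sq (s : Side H) (n : ℕ) (u : H) : ∑ k ∈ range n, s.al u k ^ 2 ≤ ‖u‖ ^ 2 := by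
  induction n generalizing u with
  | zero => simp
  | succ n ih =>
    rw [Finset.sum_range_succ']
    have h1 : s.al u 0 ^ 2 ≤ ‖s.L (s.M u)‖ ^ 2 := by
      rw [← sq_abs]
      gcongr
      simpa [s.no, s.oL, Side.al] using abs_real_inner_le_norm s.o (s.L (s.M u))
    exact (add_le_add (ih (s.L u)) h1).trans (s.key u)

lemma Side.norm_Lp (s : Side H) (n : ℕ) (u : H) : ‖s.L^[n] u‖ ≤ ‖u‖ := by
  induction n with
  | zero => rfl
  | succ n ih =>
    rw [Function.iterate_succ_apply']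
    refine le_trans (abs_le_of_sq_le_sq' ?_ (norm_nonneg _)).2 ih
    nlinarith [s.key (s.L^[n] u), sq_nonneg ‖s.L (s.M (s.L^[n] u))‖]

theorem gain (s : Side H) (r : Side K) (u : H) (v : K) (hu : ‖u‖ ≤ 1) (hv : ‖v‖ ≤ 1)
    (a0 : s.al u 0 ≠ 0) (b0 : r.al v 0 ≠ 0) : ∃ (l1 l2 : ℕ) (ε δ : ℝ), |ε| ≤ 1 ∧ 0 < δ ∧
      ∀ᶠ N : ℕ in atTop, inner ℝ s.o u * inner ℝ r.o v + δ ≤ (N : ℝ)⁻¹ *
        ∑ t ∈ range N, C s r ε N (s.L^[l1] (s.U^[t] u)) (r.L^[l2] (r.U^[t] v)) := by
  have mem : ∀ f : ℕ → ℝ, ∀ c : ℝ, (∀ n, ∑ k ∈ range n, f k ^ 2 ≤ c) → Memℓp f 2 := fun f c h =>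
    memℓp_gen (by simpa using summable_of_sum_range_le (fun k => sq_nonneg _) h)
  obtain ⟨l1, l2, σ, h0, hs, hp⟩ : ∃ (l1 l2 : ℕ) (σ : ℝ), σ ≠ 0 ∧
      HasSum (fun k => s.al (s.L^[l1] u) k * r.al (r.L^[l2] v) k) σ ∧
      ∀ ε n t, C s r ε (n + t) (s.L^[l1] (s.U^[t] u)) (r.L^[l2] (r.U^[t] v)) =
        C s r ε n (s.L^[l1] u) (r.L^[l2] v) := by
    let A : l2 := ⟨_, mem _ _ (s.al_sq · u)⟩
    let B : l2 := ⟨_, mem _ _ (r.al_sq · v)⟩
    obtain ⟨l, h | h⟩ := cross A B a0 b0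
    · refine ⟨0, l, _, h, ?_, fun ε n t => ?_⟩
      · simpa [A, B, Side.al, Function.iterate_add_apply] using hasSum_Sp A B l
      rw [Function.iterate_zero, id, id, peelL, ← Function.iterate_add_apply, add_comm t l,
        Function.iterate_add_apply, r.LUp]
    · refine ⟨l, 0, _, h, ?_, fun ε n t => ?_⟩
      · simpa [A, B, Side.al, Function.iterate_add_apply, mul_comm] using hasSum_Sp B A l
      rw [Function.iterate_zero, id, id, peelR, ← Function.iterate_add_apply, add_comm t l,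
        Function.iterate_add_apply, s.LUp]
  set c := 1 / (2 + |σ|) with hc
  have c0 : 0 < c := by positivity
  have c1 : c ≤ 1 / 2 := one_div_le_one_div_of_le (by norm_num) (by linarith [abs_nonneg σ])
  have hε : |c * σ| ≤ 1 := by
    rw [abs_mul, abs_of_pos c0, hc, one_div_mul_eq_div, div_le_one (by positivity)]; linarith
  have hσ : 0 < c * σ ^ 2 := by positivity
  refine ⟨l1, l2, c * σ, c * σ ^ 2 / 4, hε, by positivity, ?_⟩
  have ht := ((hs.tendsto_sum_nat.comp (tendsto_add_atTop_nat 1)).const_mul (c * σ)).cesaro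
  filter_upwards [ht.eventually (lt_mem_nhds (show 3 / 4 * (c * σ ^ 2) < c * σ * σ by nlinarith)),
    eventually_gt_atTop 0] with N h1 h2
  have h3 : ∀ t ∈ range N, inner ℝ s.o u * inner ℝ r.o v - c * σ ^ 2 / 2 + c * σ *
      ∑ k ∈ range (N - 1 - t + 1), s.al (s.L^[l1] u) k * r.al (r.L^[l2] v) k ≤
      C s r (c * σ) N (s.L^[l1] (s.U^[t] u)) (r.L^[l2] (r.U^[t] v)) := fun t ht => by
    have h4 := hp (c * σ) (N - 1 - t + 1) t
    rw [show N - 1 - t + 1 + t = N by have := mem_range.mp ht; omega] at h4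
    have h5 := (abs_le.mp (C2 s r _ hε (N - 1 - t + 1) (s.L^[l1] u) (r.L^[l2] v))).1
    rw [s.oLp, r.oLp] at h5
    have h6 : ‖s.L^[l1] u‖ * ‖r.L^[l2] v‖ ≤ 1 :=
      mul_le_one₀ ((s.norm_Lp _ _).trans hu) (norm_nonneg _) ((r.norm_Lp _ _).trans hv)
    have h7 : (c * σ) ^ 2 ≤ c * σ ^ 2 / 2 := by nlinarith
    rw [h4]
    nlinarith [sq_nonneg (c * σ)]
  have h4 := Finset.sum_le_sum h3
  rw [Finset.sum_add_distrib, Finset.sum_range_reflect (fun j => c * σ *
    ∑ k ∈ range (j + 1), s.al (s.L^[l1] u) k * r.al (r.L^[l2] v) k) N] at h4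
  simp only [sum_const, card_range, nsmul_eq_mul, Function.comp] at h4 h1
  have h5 : (0 : ℝ) < N := by exact_mod_cast h2
  rw [lt_inv_mul_iff₀ h5] at h1
  rw [le_inv_mul_iff₀ h5]
  nlinarith

end Pool.Agent.H89.Join
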