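import Mathlib
import Pool.Agent.H89.JoinA

set_option autoImplicit false
set_option linter.unusedSectionVars false

namespace Pool.Agent.H89.Join

open Filter Topology Finset MeasureTheory

structure Dat {Z : Type*} [MeasurableSpace Z] (μ : Measure Z) where
  s : Z → Z
  hs : MeasurePreserving s μ μ
  f : Z → ℝ
  mf : Measurable f
  bf : ∀ z, |f z| ≤ 1
  hf : ∀ k : Z → ℝ, Integrable k μ → ∫ z, f z * k (s z) ∂μ = 0

variable {Z W : Type*} [MeasurableSpace Z] [MeasurableSpace W] {μ : Measure Z} {ν : Measure W}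
  [IsProbabilityMeasure μ] [IsProbabilityMeasure ν]

lemma inner_eq (a b : Lp ℝ 2 μ) : inner ℝ a b = ∫ z, a z * b z ∂μ := by
  rw [L2.inner_def]; simp [mul_comm]

lemma int2 (a : Lp ℝ 2 μ) : Integrable a μ := (Lp.memLp a).integrable (by norm_num)

noncomputable def Dat.U (d : Dat μ) : Lp ℝ 2 μ →ₗᵢ[ℝ] Lp ℝ 2 μ :=
  Lp.compMeasurePreservingₗᵢ ℝ d.s d.hs

lemma Dat.U_ae (d : Dat μ) (a : Lp ℝ 2 μ) : d.U a =ᵐ[μ] fun z => a (d.s z) :=
  Lp.coeFn_compMeasurePreserving a d.hs

lemma Dat.mem (d : Dat μ) : MemLp d.f ⊤ μ :=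
  memLp_top_of_bound d.mf.aestronglyMeasurable 1 (Eventually.of_forall d.bf)

noncomputable def Dat.M (d : Dat μ) : Lp ℝ 2 μ →L[ℝ] Lp ℝ 2 μ :=
  (ContinuousLinearMap.mul ℝ ℝ).holderL μ ⊤ 2 2 (d.mem.toLp _)

lemma Dat.M_ae (d : Dat μ) (a : Lp ℝ 2 μ) : d.M a =ᵐ[μ] fun z => d.f z * a z := by
  filter_upwards [(ContinuousLinearMap.mul ℝ ℝ).coeFn_holder (r := 2) (d.mem.toLp _) a,
    d.mem.coeFn_toLp] with z h1 h2
  simp only [Dat.M, ContinuousLinearMap.holderL_apply_apply, h1, h2, ContinuousLinearMap.mul_apply']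

noncomputable def one (μ : Measure Z) [IsProbabilityMeasure μ] : Lp ℝ 2 μ :=
  (memLp_const (1 : ℝ)).toLp _

lemma one_ae : one μ =ᵐ[μ] fun _ => 1 := (memLp_const (1 : ℝ)).coeFn_toLp

lemma inner_one (a : Lp ℝ 2 μ) : inner ℝ (one μ) a = ∫ z, a z ∂μ := by
  rw [inner_eq]
  exact integral_congr_ae (one_ae.mono fun z hz => by simp [hz])

noncomputable def Dat.side (d : Dat μ) : Side (Lp ℝ 2 μ) where
  U := d.U.toContinuousLinearMap
  L := ContinuousLinearMap.adjoint d.U.toContinuousLinearMap
  M := d.M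
  o := one μ
  adj a b := ContinuousLinearMap.adjoint_inner_right _ a b
  iso a b := d.U.inner_map_map a b
  hM a := Lp.norm_le_norm_of_ae_le ((d.M_ae a).mono fun z hz => by
    rw [hz, norm_mul]; exact mul_le_of_le_one_left (norm_nonneg _) (d.bf z))
  hMU a := ext_inner_left ℝ fun b => by
    rw [ContinuousLinearMap.adjoint_inner_right, inner_zero_right, inner_eq,
      ← d.hf _ ((Lp.memLp b).integrable_mul (Lp.memLp a))]
    refine integral_congr_ae ?_
    filter_upwards [d.U_ae a, d.U_ae b, d.M_ae (d.U a)] with z h1 h2 h3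
    simp [h1, h2, h3, mul_left_comm]
  ho := Lp.ext ((d.U_ae _).trans ((d.hs.quasiMeasurePreserving.ae_eq_comp one_ae).trans one_ae.symm))
  no := by
    rw [← sq_eq_sq₀ (norm_nonneg _) zero_le_one, ← real_inner_self_eq_norm_sq, inner_one,
      integral_congr_ae one_ae]
    simp

def BM {A : Type*} [MeasurableSpace A] (Φ : A → ℝ) : Prop := Measurable Φ ∧ ∃ C, ∀ p, |Φ p| ≤ C

lemma BM.comp {A B : Type*} [MeasurableSpace A] [MeasurableSpace B] {Φ : A → ℝ} (h : BM Φ)
    {g : B → A} (hg : Measurable g) : BM fun b => Φ (g b) :=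
  ⟨h.1.comp hg, h.2.imp fun _ k _ => k _⟩

lemma BM.mem {Φ : Z → ℝ} (h : BM Φ) : MemLp Φ 2 μ :=
  let ⟨C, k⟩ := h.2
  MemLp.of_bound h.1.aestronglyMeasurable C (Eventually.of_forall k)

lemma BM.int {A : Type*} [MeasurableSpace A] {ρ : Measure A} {Φ g : A → ℝ} (h : BM Φ)
    (hg : Integrable g ρ) : Integrable (fun p => g p * Φ p) ρ :=
  let ⟨_, k⟩ := h.2
  hg.mul_bdd h.1.aestronglyMeasurable (Eventually.of_forall k)

lemma Dat.T1 (d : Dat μ) (u : Lp ℝ 2 μ) (h : Z → ℝ) (hh : BM h) :
    ∫ z, u z * h (d.s z) ∂μ = ∫ z, d.side.L u z * h z ∂μ := by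
  have := d.side.adj ((hh.mem (μ := μ)).toLp _) u
  rw [inner_eq, inner_eq] at this
  refine (integral_congr_ae ?_).trans (this.symm.trans (integral_congr_ae ?_))
  · filter_upwards [d.U_ae ((hh.mem (μ := μ)).toLp _),
      d.hs.quasiMeasurePreserving.ae_eq_comp (hh.mem (μ := μ)).coeFn_toLp] with z h1 h2
    rw [mul_comm]; congr 1; exact (h1.trans h2).symm
  · filter_upwards [(hh.mem (μ := μ)).coeFn_toLp] with z h1
    rw [h1, mul_comm]

noncomputable def I (u : Lp ℝ 2 μ) (v : Lp ℝ 2 ν) (Φ : Z × W → ℝ) : ℝ :=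
  ∫ p, u p.1 * v p.2 * Φ p ∂(μ.prod ν)

lemma TL (d : Dat μ) (u : Lp ℝ 2 μ) (v : Lp ℝ 2 ν) (Φ : Z × W → ℝ) (h : BM Φ) :
    I u v (fun p => Φ (d.s p.1, p.2)) = I (d.side.L u) v Φ := by
  have ms := d.hs.measurable
  unfold I
  rw [integral_prod_symm _ ((h.comp (by fun_prop)).int ((int2 u).mul_prod (int2 v))),
    integral_prod_symm _ (h.int ((int2 _).mul_prod (int2 v)))]
  refine integral_congr_ae (Eventually.of_forall fun w => ?_)
  simp only [mul_right_comm _ (v w), integral_mul_const]
  rw [d.T1 u (fun z => Φ (z, w)) (h.comp (by fun_prop))]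

lemma TR (d : Dat ν) (u : Lp ℝ 2 μ) (v : Lp ℝ 2 ν) (Φ : Z × W → ℝ) (h : BM Φ) :
    I u v (fun p => Φ (p.1, d.s p.2)) = I u (d.side.L v) Φ := by
  have ms := d.hs.measurable
  unfold I
  rw [integral_prod _ ((h.comp (by fun_prop)).int ((int2 u).mul_prod (int2 v))),
    integral_prod _ (h.int ((int2 _).mul_prod (int2 _)))]
  refine integral_congr_ae (Eventually.of_forall fun w => ?_)
  simp only [mul_assoc, integral_const_mul]
  rw [d.T1 v (fun z => Φ (w, z)) (h.comp (by fun_prop))]

lemma TLp (d : Dat μ) (l : ℕ) (u : Lp ℝ 2 μ) (v : Lp ℝ 2 ν) (Φ : Z × W → ℝ) (h : BM Φ) :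
    I u v (fun p => Φ (d.s^[l] p.1, p.2)) = I (d.side.L^[l] u) v Φ := by
  have ms := d.hs.measurable.iterate
  induction l generalizing u with
  | zero => rfl
  | succ l ih =>
    rw [Function.iterate_succ_apply, ← ih, ← TL d u v _ (h.comp (by have := ms l; fun_prop))]
    rfl

lemma TRp (d : Dat ν) (l : ℕ) (u : Lp ℝ 2 μ) (v : Lp ℝ 2 ν) (Φ : Z × W → ℝ) (h : BM Φ) :
    I u v (fun p => Φ (p.1, d.s^[l] p.2)) = I u (d.side.L^[l] v) Φ := by
  have ms := d.hs.measurable.iterate
  induction l generalizing v with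
  | zero => rfl
  | succ l ih =>
    rw [Function.iterate_succ_apply, ← ih, ← TR d u v _ (h.comp (by have := ms l; fun_prop))]
    rfl

noncomputable def P (d : Dat μ) (b : Dat ν) (ε : ℝ) : ℕ → Z × W → ℝ
  | 0, _ => 1
  | n + 1, p => (1 + ε * (d.f p.1 * b.f p.2)) * P d b ε n (d.s p.1, b.s p.2)

lemma P_prop (d : Dat μ) (b : Dat ν) (ε : ℝ) (hε : |ε| ≤ 1) (n : ℕ) :
    BM (P d b ε n) ∧ ∀ p, 0 ≤ P d b ε n p := by
  have h1 := d.hs.measurable
  have h2 := b.hs.measurable
  have h3 := d.mf
  have h4 := b.mf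
  have h5 : ∀ p : Z × W, |ε * (d.f p.1 * b.f p.2)| ≤ 1 := fun p => by
    rw [abs_mul, abs_mul]
    exact mul_le_one₀ hε (by positivity) (mul_le_one₀ (d.bf _) (abs_nonneg _) (b.bf _))
  induction n with
  | zero => exact ⟨⟨measurable_const, 1, fun p => by simp [P]⟩, fun p => zero_le_one⟩
  | succ n ih =>
    obtain ⟨⟨m, C, hC⟩, h0⟩ := ih
    refine ⟨⟨by
      show Measurable fun p : Z × W => (1 + ε * (d.f p.1 * b.f p.2)) * P d b ε n (d.s p.1, b.s p.2)
      fun_prop, 2 * C, fun p => ?_⟩, fun p =>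
      mul_nonneg (by linarith [(abs_le.mp (h5 p)).1]) (h0 _)⟩
    rw [P, abs_mul]
    exact mul_le_mul ((abs_add_le _ _).trans (by rw [abs_one]; linarith [h5 p])) (hC _)
      (abs_nonneg _) (by norm_num)

lemma I_P (d : Dat μ) (b : Dat ν) (ε : ℝ) (hε : |ε| ≤ 1) (n : ℕ) (u : Lp ℝ 2 μ) (v : Lp ℝ 2 ν) :
    I u v (P d b ε n) = C d.side b.side ε n u v := by
  have h1 := d.hs.measurable
  have h2 := b.hs.measurable
  induction n generalizing u v with
  | zero =>
    simp only [I, P, C, mul_one, Dat.side, inner_one]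
    exact integral_prod_mul _ _
  | succ n ih =>
    have hB := (P_prop d b ε hε n).1
    have hB2 : BM fun p : Z × W => P d b ε n (d.s p.1, b.s p.2) := hB.comp (by fun_prop)
    have key : ∀ (u : Lp ℝ 2 μ) (v : Lp ℝ 2 ν), I u v (fun p => P d b ε n (d.s p.1, b.s p.2)) =
        C d.side b.side ε n (d.side.L u) (b.side.L v) := fun u v => by
      rw [← ih, ← TR b _ _ _ hB, ← TL d _ _ _ (hB.comp (by fun_prop))]
    rw [C, ← key, ← key]
    unfold I
    rw [← integral_const_mul, ← integral_add (hB2.int ((int2 _).mul_prod (int2 _)))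
      ((hB2.int ((int2 _).mul_prod (int2 _))).const_mul _)]
    refine integral_congr_ae ?_
    filter_upwards [Measure.quasiMeasurePreserving_fst.ae (d.M_ae u),
      Measure.quasiMeasurePreserving_snd.ae (b.M_ae v)] with p e1 e2
    simp only [Dat.side, P]
    rw [e1, e2]; ring

lemma P_fst (d : Dat μ) (b : Dat ν) (ε : ℝ) (hε : |ε| ≤ 1) (n : ℕ) (z : Z) :
    ∫ w, P d b ε n (z, w) ∂ν = 1 := by
  induction n generalizing z with
  | zero => simp [P]
  | succ n ih =>
    have hB : BM fun w => P d b ε n (d.s z, w) := (P_prop d b ε hε n).1.comp (by fun_prop)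
    have i1 : Integrable (fun w => P d b ε n (d.s z, w)) ν := hB.mem.integrable (by norm_num)
    have e : (fun w => P d b ε (n + 1) (z, w)) = fun w => P d b ε n (d.s z, b.s w) +
        ε * d.f z * (b.f w * P d b ε n (d.s z, b.s w)) := by funext w; simp only [P]; ring
    have i2 : Integrable (fun w => P d b ε n (d.s z, b.s w)) ν := b.hs.integrable_comp_of_integrable i1
    rw [e, integral_add i2 ((i2.bdd_mul b.mf.aestronglyMeasurable (Eventually.of_forall b.bf)).const_mul _),
      integral_const_mul, b.hf _ i1, mul_zero, add_zero, ← ih (d.s z),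
      ← integral_map b.hs.measurable.aemeasurable hB.1.aestronglyMeasurable, b.hs.map_eq]

lemma P_snd (d : Dat μ) (b : Dat ν) (ε : ℝ) (hε : |ε| ≤ 1) (n : ℕ) (w : W) :
    ∫ z, P d b ε n (z, w) ∂μ = 1 := by
  induction n generalizing w with
  | zero => simp [P]
  | succ n ih =>
    have hB : BM fun z => P d b ε n (z, b.s w) := (P_prop d b ε hε n).1.comp (by fun_prop)
    have i1 : Integrable (fun z => P d b ε n (z, b.s w)) μ := hB.mem.integrable (by norm_num)
    have e : (fun z => P d b ε (n + 1) (z, w)) = fun z => P d b ε n (d.s z, b.s w) +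
        ε * b.f w * (d.f z * P d b ε n (d.s z, b.s w)) := by funext w; simp only [P]; ring
    have i2 : Integrable (fun z => P d b ε n (d.s z, b.s w)) μ := d.hs.integrable_comp_of_integrable i1
    rw [e, integral_add i2 ((i2.bdd_mul d.mf.aestronglyMeasurable (Eventually.of_forall d.bf)).const_mul _),
      integral_const_mul, d.hf _ i1, mul_zero, add_zero, ← ih (b.s w),
      ← integral_map d.hs.measurable.aemeasurable hB.1.aestronglyMeasurable, d.hs.map_eq]

lemma exDat (s : Z → Z) (hs : MeasurePreserving s μ μ) (A : Set Z) (hA : MeasurableSet A) :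
    ∃ (d : Dat μ) (r : Z → ℝ), d.s = s ∧ Measurable r ∧
      ∀ z, d.f z = A.indicator 1 z - r (s z) := by
  have hle : (μ.restrict A).map s ≤ μ := by
    conv_rhs => rw [← hs.map_eq]
    exact Measure.map_mono Measure.restrict_le_self hs.measurable
  set r : Z → ℝ := fun z => min 1 (((μ.restrict A).map s).rnDeriv μ z).toReal with hr
  have mr : Measurable r := measurable_const.min (Measure.measurable_rnDeriv _ _).ennreal_toReal
  have r0 : ∀ z, 0 ≤ r z := fun z => le_min zero_le_one ENNReal.toReal_nonneg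
  have r1 : ∀ z, r z ≤ 1 := fun z => min_le_left _ _
  refine ⟨⟨s, hs, fun z => A.indicator 1 z - r (s z),
    (measurable_const.indicator hA).sub (mr.comp hs.measurable), fun z => ?_, fun k hk => ?_⟩,
    r, rfl, mr, fun z => rfl⟩
  · by_cases h : z ∈ A <;> simp [h, abs_le] <;> constructor <;> linarith [r0 (s z), r1 (s z)]
  · have i1 := hs.integrable_comp_of_integrable hk
    have i2 : Integrable (fun z => r z * k z) μ := hk.bdd_mul mr.aestronglyMeasurable
      (c := 1) (Eventually.of_forall fun z => abs_le.mpr ⟨by linarith [r0 z], r1 z⟩)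
    have e : (fun z => (A.indicator 1 z - r (s z)) * k (s z)) =
        fun z => A.indicator (k ∘ s) z - r (s z) * k (s z) := by
      funext z; by_cases h : z ∈ A <;> simp [h, sub_mul]
    have i3 : Integrable (fun z => r (s z) * k (s z)) μ := hs.integrable_comp_of_integrable i2
    rw [e, integral_sub (i1.indicator hA) i3,
      integral_indicator hA, sub_eq_zero, ← integral_map (f := fun z => r z * k z)
      hs.measurable.aemeasurable (hs.map_eq.symm ▸ i2.1), hs.map_eq]
    have := integral_rnDeriv_smul (f := k) (Measure.absolutelyContinuous_of_le hle)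
    rw [integral_map hs.measurable.aemeasurable (hk.mono_measure hle).1] at this
    refine this.symm.trans (integral_congr_ae ?_)
    filter_upwards [Measure.rnDeriv_le_one_of_le hle] with z hz
    rw [hr, smul_eq_mul]
    simp only
    rw [min_eq_right (ENNReal.toReal_le_of_le_ofReal zero_le_one (by simpa using hz))]

theorem joining {X Y : Type*} [TopologicalSpace X] [PolishSpace X] [MeasurableSpace X] [BorelSpace X]
    [TopologicalSpace Y] [PolishSpace Y] [MeasurableSpace Y] [BorelSpace Y]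
    (α : Measure X) (β : Measure Y) [IsProbabilityMeasure α] [IsProbabilityMeasure β]
    (s : X → X) (t : Y → Y) (cs : Continuous s) (ct : Continuous t) (hs : MeasurePreserving s α α)
    (ht : MeasurePreserving t β β) (D : ℕ → X × Y → ℝ) (hD : ∀ N, BM (D N)) (h0 : ∀ N p, 0 ≤ D N p)
    (h1 : ∀ N x, ∫ y, D N (x, y) ∂β = 1) (h2 : ∀ N y, ∫ x, D N (x, y) ∂α = 1)
    (φ : BoundedContinuousFunction (X × Y) ℝ) (c : ℝ)
    (hc : ∀ᶠ N : ℕ in atTop, c ≤ (N : ℝ)⁻¹ * ∑ k ∈ range N,
      ∫ p, φ (s^[k] p.1, t^[k] p.2) * D N p ∂(α.prod β)) :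
    ∃ ξ : Measure (X × Y), IsProbabilityMeasure ξ ∧ MeasurePreserving (Prod.map s t) ξ ξ ∧
      ξ.map Prod.fst = α ∧ ξ.map Prod.snd = β ∧ c ≤ ∫ p, φ p ∂ξ := by
  have cT : Continuous (Prod.map s t) := cs.prodMap ct
  have mT := fun k => (cT.iterate k).measurable
  let η : ℕ → Measure (X × Y) := fun N => (α.prod β).withDensity fun p => ENNReal.ofReal (D N p)
  have iη : ∀ N (g : X × Y → ℝ), ∫ p, g p ∂η N = ∫ p, g p * D N p ∂(α.prod β) := fun N g => by
    rw [integral_withDensity_eq_integral_toReal_smul (hD N).1.ennreal_ofReal (by simp)]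
    simp [ENNReal.toReal_ofReal (h0 N _), mul_comm]
  have iD : ∀ N, Integrable (D N) (α.prod β) := fun N => (hD N).mem.integrable (by norm_num)
  have pη : ∀ N, IsProbabilityMeasure (η N) := fun N => ⟨by
    rw [withDensity_apply _ MeasurableSet.univ, Measure.restrict_univ,
      ← ofReal_integral_eq_lintegral_ofReal (iD N) (Eventually.of_forall (h0 N)),
      integral_prod _ (iD N)]
    simp [h1]⟩
  let ξ : ℕ → ProbabilityMeasure (X × Y) := fun N =>
    ⟨((N + 1 : ℕ) : ENNReal)⁻¹ • ∑ k ∈ range (N + 1), (η (N + 1)).map (Prod.map s t)^[k], ⟨by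
      simp only [Measure.smul_apply, Measure.finsetSum_apply, Measure.map_apply (mT _)
        MeasurableSet.univ, Set.preimage_univ, measure_univ, sum_const, card_range, nsmul_eq_mul,
        mul_one, smul_eq_mul]
      exact ENNReal.inv_mul_cancel (by simp) (by simp)⟩⟩
  have iξ : ∀ N (g : BoundedContinuousFunction (X × Y) ℝ), ∫ p, g p ∂(ξ N : Measure (X × Y)) =
      ((N + 1 : ℕ) : ℝ)⁻¹ * ∑ k ∈ range (N + 1), ∫ p, g ((Prod.map s t)^[k] p) ∂η (N + 1) :=
    fun N g => by
      simp only [ξ, ProbabilityMeasure.coe_mk, integral_smul_measure, smul_eq_mul,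
        ENNReal.toReal_inv, ENNReal.toReal_natCast]
      rw [integral_finsetSum_measure fun k _ => g.integrable _]
      simp only [fun k => integral_map (μ := η (N + 1)) (mT k).aemeasurable
        g.continuous.aestronglyMeasurable]
  have avg : ∀ (N : ℕ) (a : ℝ), ((N + 1 : ℕ) : ℝ)⁻¹ * ∑ _k ∈ range (N + 1), a = a := fun N a => by
    simp only [sum_const, card_range, nsmul_eq_mul]; field_simp
  have m1 : ∀ N, (ξ N : Measure (X × Y)).map Prod.fst = α := fun N =>
    ext_of_forall_integral_eq_of_IsFiniteMeasure fun g => by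
      rw [integral_map measurable_fst.aemeasurable g.continuous.aestronglyMeasurable,
        ← avg N (∫ x, g x ∂α)]
      refine (iξ N (g.compContinuous ⟨_, continuous_fst⟩)).trans ?_
      congr 1
      refine Finset.sum_congr rfl fun k _ => ?_
      have ig : Integrable (fun p : X × Y => g (s^[k] p.1)) (α.prod β) :=
        (g.compContinuous ⟨_, (cs.iterate k).comp continuous_fst⟩).integrable _
      rw [iη, Prod.map_iterate]
      simp only [BoundedContinuousFunction.compContinuous_apply, ContinuousMap.coe_mk, Prod.map]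
      rw [integral_prod _ ((hD _).int ig)]
      simp only [integral_const_mul, h1, mul_one]
      rw [← integral_map (hs.iterate k).measurable.aemeasurable g.continuous.aestronglyMeasurable,
        (hs.iterate k).map_eq]
  have m2 : ∀ N, (ξ N : Measure (X × Y)).map Prod.snd = β := fun N =>
    ext_of_forall_integral_eq_of_IsFiniteMeasure fun g => by
      rw [integral_map measurable_snd.aemeasurable g.continuous.aestronglyMeasurable,
        ← avg N (∫ x, g x ∂β)]
      refine (iξ N (g.compContinuous ⟨_, continuous_snd⟩)).trans ?_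
      congr 1
      refine Finset.sum_congr rfl fun k _ => ?_
      have ig : Integrable (fun p : X × Y => g (t^[k] p.2)) (α.prod β) :=
        (g.compContinuous ⟨_, (ct.iterate k).comp continuous_snd⟩).integrable _
      rw [iη, Prod.map_iterate]
      simp only [BoundedContinuousFunction.compContinuous_apply, ContinuousMap.coe_mk, Prod.map]
      rw [integral_prod_symm _ ((hD _).int ig)]
      simp only [integral_const_mul, h2, mul_one]
      rw [← integral_map (ht.iterate k).measurable.aemeasurable g.continuous.aestronglyMeasurable,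
        (ht.iterate k).map_eq]
  have hK : IsCompact (closure (Set.range ξ)) := isCompact_closure_of_isTightMeasureSet
    (IsTightMeasureSet.prodMk ((isTightMeasureSet_singleton (μ := α)).subset (by
      rintro _ ⟨_, ⟨_, ⟨N, rfl⟩, rfl⟩, rfl⟩; exact m1 N))
      ((isTightMeasureSet_singleton (μ := β)).subset (by
      rintro _ ⟨_, ⟨_, ⟨N, rfl⟩, rfl⟩, rfl⟩; exact m2 N)))
  obtain ⟨ζ, -, hζ⟩ := hK.ultrafilter_le_nhds ((Ultrafilter.of atTop).map ξ)
    (le_principal_iff.mpr (mem_map.mpr (univ_mem' fun N => subset_closure ⟨N, rfl⟩)))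
  have hl := ProbabilityMeasure.tendsto_iff_forall_integral_tendsto.mp
    (show Tendsto ξ (↑(Ultrafilter.of (atTop : Filter ℕ))) (𝓝 ζ) from hζ)
  have hU := Ultrafilter.of_le (atTop : Filter ℕ)
  refine ⟨ζ, ζ.2, ⟨cT.measurable, ext_of_forall_integral_eq_of_IsFiniteMeasure fun g => ?_⟩,
    ext_of_forall_integral_eq_of_IsFiniteMeasure fun g => ?_,
    ext_of_forall_integral_eq_of_IsFiniteMeasure fun g => ?_, ge_of_tendsto (hl φ) (hU ?_)⟩
  · rw [integral_map cT.measurable.aemeasurable g.continuous.aestronglyMeasurable, ← sub_eq_zero]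
    refine tendsto_nhds_unique ((hl (g.compContinuous ⟨_, cT⟩)).sub (hl g)) (Tendsto.mono_left ?_ hU)
    refine squeeze_zero_norm (a := fun N : ℕ => 2 * ‖g‖ * (1 / ((N : ℝ) + 1))) (fun N => ?_)
      (by simpa using tendsto_one_div_add_atTop_nhds_zero_nat.const_mul (2 * ‖g‖))
    have := pη (N + 1)
    have e := Finset.sum_range_sub (fun k => ∫ p, g ((Prod.map s t)^[k] p) ∂η (N + 1)) (N + 1)
    have b : ∀ k, ‖∫ p, g ((Prod.map s t)^[k] p) ∂η (N + 1)‖ ≤ ‖g‖ := fun k => by
      simpa using norm_integral_le_of_norm_le_const (μ := η (N + 1))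
        (Eventually.of_forall fun p => g.norm_coe_le_norm ((Prod.map s t)^[k] p))
    rw [iξ, iξ, ← mul_sub, ← Finset.sum_sub_distrib]
    simp only [Function.iterate_succ_apply'] at e
    simp only [BoundedContinuousFunction.compContinuous_apply, ContinuousMap.coe_mk]
    rw [e, norm_mul, mul_comm]
    have b1 := b (N + 1)
    simp only [Function.iterate_succ_apply'] at b1
    gcongr
    · linarith [norm_sub_le (∫ p, g (Prod.map s t ((Prod.map s t)^[N] p)) ∂η (N + 1))
        (∫ p, g ((Prod.map s t)^[0] p) ∂η (N + 1)), b 0]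
    · simp [abs_of_pos (show (0 : ℝ) < N + 1 by positivity)]
  · rw [integral_map measurable_fst.aemeasurable g.continuous.aestronglyMeasurable]
    refine tendsto_nhds_unique (hl (g.compContinuous ⟨_, continuous_fst⟩))
      (tendsto_const_nhds.congr fun N => ?_)
    rw [← m1 N, integral_map measurable_fst.aemeasurable g.continuous.aestronglyMeasurable]; rfl
  · rw [integral_map measurable_snd.aemeasurable g.continuous.aestronglyMeasurable]
    refine tendsto_nhds_unique (hl (g.compContinuous ⟨_, continuous_snd⟩))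
      (tendsto_const_nhds.congr fun N => ?_)
    rw [← m2 N, integral_map measurable_snd.aemeasurable g.continuous.aestronglyMeasurable]; rfl
  · filter_upwards [(tendsto_add_atTop_nat 1).eventually hc] with N hN
    rw [iξ]
    simpa only [iη, Prod.map_iterate, Prod.map] using hN

end Pool.Agent.H89.Join
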