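import Mathlib
import Pool.Agent.H89.JoinB

set_option autoImplicit false

namespace Pool.Agent.H89.Join

open Filter Topology Finset MeasureTheory

def sh {A : Type*} (z : ℕ → A) (n : ℕ) : A := z (n + 1)

section Ent

variable {m : ℕ} (φ : (ℕ → Fin m) → Fin m) (L : ℕ) (δ : ℝ)

noncomputable def qq (k : ℕ) (z : ℕ → Fin m) : ℝ :=
  if L + 1 ≤ k then (if z 0 = φ (sh z) then 1 - δ else δ / m) else 1 / m

noncomputable def Q : ℕ → (ℕ → Fin m) → ℝ
  | 0, _ => 1
  | n + 1, z => qq φ L δ (n + 1) z * Q n (sh z)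

def ex (a : Fin m) {n : ℕ} (w : Fin n → Fin m) (i : ℕ) : Fin m := if h : i < n then w ⟨i, h⟩ else a

variable {φ L δ}

lemma qq_pos (a : Fin m) (h0 : 0 < δ) (h1 : δ < 1) (k : ℕ) (z : ℕ → Fin m) : 0 < qq φ L δ k z := by
  have : (0 : ℝ) < m := by exact_mod_cast a.pos
  unfold qq; split_ifs
  · linarith
  · positivity
  · positivity

lemma Q_pos (a : Fin m) (h0 : 0 < δ) (h1 : δ < 1) (n : ℕ) (z : ℕ → Fin m) : 0 < Q φ L δ n z := by
  induction n generalizing z with
  | zero => exact one_pos
  | succ n ih => exact mul_pos (qq_pos a h0 h1 _ _) (ih _)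

lemma Q_dep (hφ : ∀ z z', (∀ i < L, z i = z' i) → φ z = φ z') (n : ℕ) (z z' : ℕ → Fin m)
    (h : ∀ i < n, z i = z' i) : Q φ L δ n z = Q φ L δ n z' := by
  induction n generalizing z z' with
  | zero => rfl
  | succ n ih =>
    rw [Q, Q, ih (sh z) (sh z') fun i hi => h _ (by omega)]
    congr 1
    unfold qq
    split_ifs with h1 h2 h3 h3 <;> try rfl
    all_goals
      rw [h 0 (by omega), hφ (sh z) (sh z') fun i hi => h _ (by omega)] at h2
      contradiction

lemma Q_sum (a : Fin m) (h0 : 0 < δ) (h1 : δ < 1) (n : ℕ) :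
    ∑ w : Fin n → Fin m, Q φ L δ n (ex a w) ≤ 1 := by
  have hm : (0 : ℝ) < m := by exact_mod_cast a.pos
  induction n with
  | zero => simp [Q]
  | succ n ih =>
    rw [← (Fin.consEquiv fun _ => Fin m).sum_comp, Fintype.sum_prod_type_right]
    refine le_trans (Finset.sum_le_sum fun w _ => ?_) ih
    have e : ∀ b, sh (ex a ((Fin.consEquiv fun _ => Fin m) (b, w))) = ex a w := fun b => by
      funext i
      simp only [sh, ex, Nat.add_lt_add_iff_right]
      split_ifs <;> rfl
    have e0 : ∀ b, ex a ((Fin.consEquiv fun _ => Fin m) (b, w)) 0 = b := fun b => rfl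
    simp only [Q, e, qq, e0, ← Finset.sum_mul]
    refine mul_le_of_le_one_left (Q_pos a h0 h1 _ _).le ?_
    split_ifs
    · calc _ ≤ ∑ b : Fin m, ((if b = φ (ex a w) then 1 - δ else 0) + δ / m) :=
            Finset.sum_le_sum fun b _ => by
              have : 0 < δ / m := by positivity
              split_ifs <;> linarith
        _ = 1 := by simp [Finset.sum_add_distrib]; field_simp; ring
    · simp; field_simp; rfl

end Ent

lemma ent {m : ℕ} (μ : Measure (ℕ → Fin m)) [IsProbabilityMeasure μ]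
    (hs : MeasurePreserving sh μ μ) (c : ℝ) (hc : 0 < c) (h : ∀ n : ℕ, c * (n : ℝ) ≤
      ∑ w : Fin n → Fin m, Real.negMulLog (μ {x | ∀ i : Fin n, x i.val = w i}).toReal)
    (r : Fin m → (ℕ → Fin m) → ℝ) (mr : ∀ a, Measurable (r a))
    (hr : ∀ a, ∀ᵐ z ∂μ, {z : ℕ → Fin m | z 0 = a}.indicator 1 z = r a (sh z)) : False := by
  classical
  obtain ⟨z0⟩ := nonempty_of_isProbabilityMeasure μ
  set a0 := z0 0
  have hm : (1 : ℝ) ≤ m := by exact_mod_cast a0.pos
  set δ := 1 - Real.exp (-(c / 4)) with hδ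
  have h0 : 0 < δ := sub_pos.mpr (by rw [← Real.exp_zero]; exact Real.exp_lt_exp.mpr (by linarith))
  have h1 : δ < 1 := by linarith [Real.exp_pos (-(c / 4))]
  have hl : 0 ≤ Real.log (m / δ) := Real.log_nonneg (by rw [le_div_iff₀ h0]; linarith)
  set ε := c / 4 / (Real.log (m / δ) + 1) with hε
  have ε0 : 0 < ε := by positivity
  have hB : ∀ a, MeasurableSet {z | r a z = 1} := fun a => mr a (measurableSet_singleton 1)
  choose T hT hT2 using fun a => (Measure.MeasureDense.of_generateFrom_isSetAlgebra_finite μ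
    isSetAlgebra_measurableCylinders generateFrom_measurableCylinders.symm).approx _ (hB a)
    (measure_ne_top _ _) (ε / m) (by positivity)
  choose J S mS hJ using fun a => (mem_measurableCylinders _).mp (hT a)
  set L := (Finset.univ.biUnion J).sup id + 1
  let φ : (ℕ → Fin m) → Fin m := fun z => if h : ∃ a, z ∈ T a then h.choose else a0
  have hφ : ∀ z z', (∀ i < L, z i = z' i) → φ z = φ z' := fun z z' hz => by
    have : ∀ a, z ∈ T a ↔ z' ∈ T a := fun a => by
      rw [hJ, mem_cylinder, mem_cylinder, show (J a).restrict z = (J a).restrict z' from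
        funext fun i => hz _ (Nat.lt_succ_of_le (Finset.le_sup (f := id)
          (Finset.mem_biUnion.mpr ⟨a, mem_univ _, i.2⟩)))]
    simp only [φ, this]
  have fin : ∀ (n : ℕ) (g : (ℕ → Fin m) → ℝ), (∀ z z', (∀ i < n, z i = z' i) → g z = g z') →
      Integrable g μ ∧ ∫ z, g z ∂μ = ∑ w : Fin n → Fin m,
        (μ {x | ∀ i : Fin n, x i.val = w i}).toReal * g (ex a0 w) := fun n g hg => by
    have mρ : Measurable fun (z : ℕ → Fin m) (i : Fin n) => z i := by fun_prop
    have e : g = (fun w => g (ex a0 w)) ∘ fun (z : ℕ → Fin m) (i : Fin n) => z i :=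
      funext fun z => hg _ _ fun i hi => by simp [ex, hi]
    have i1 : Integrable (fun w => g (ex a0 w)) (μ.map fun (z : ℕ → Fin m) (i : Fin n) => z i) :=
      Integrable.of_finite
    refine ⟨e ▸ i1.comp_measurable mρ, ?_⟩
    have := integral_map mρ.aemeasurable i1.1
    rw [integral_fintype i1] at this
    conv_lhs => rw [e]
    refine this.symm.trans (Finset.sum_congr rfl fun w _ => ?_)
    rw [map_measureReal_apply mρ (measurableSet_singleton w), smul_eq_mul]
    congr 3
    ext z; simp [funext_iff]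
  have err : μ.real {z | z 0 ≠ φ (sh z)} ≤ ε := by
    have e1 : {z | z 0 ≠ φ (sh z)} ≤ᵐ[μ] ⋃ a, sh ⁻¹' symmDiff {z | r a z = 1} (T a) := by
      filter_upwards [ae_all_iff.mpr hr] with z hz hne
      by_contra k
      have k1 : ∀ a, sh z ∈ T a ↔ z 0 = a := fun a => by
        have k2 : sh z ∉ symmDiff {z | r a z = 1} (T a) := fun k3 => k (Set.mem_iUnion.mpr ⟨a, k3⟩)
        have k4 := hz a
        by_cases k5 : z 0 = a <;> simp [k5, Set.mem_symmDiff, ← k4] at k2 ⊢ <;> exact k2
      have k6 : ∃ a, sh z ∈ T a := ⟨_, (k1 _).mpr rfl⟩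
      exact hne (by simp only [φ, dif_pos k6]; exact (k1 _).mp k6.choose_spec)
    refine ENNReal.toReal_le_of_le_ofReal ε0.le ((measure_mono_ae e1).trans
      ((measure_iUnion_fintype_le _ _).trans ((Finset.sum_le_sum (g := fun _ => ENNReal.ofReal (ε / m))
        fun a _ => ((hs.measure_preimage_le _).trans (hT2 a).le)).trans (le_of_eq ?_))))
    rw [← ENNReal.ofReal_sum_of_nonneg fun _ _ => by positivity]
    congr 1; simp; field_simp
  have iq : ∀ k, Integrable (fun z => -Real.log (qq φ L δ k z)) μ ∧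
      ∫ z, -Real.log (qq φ L δ k z) ∂μ ≤ c / 2 + if L + 1 ≤ k then 0 else Real.log m := fun k => by
    have dep : ∀ z z' : ℕ → Fin m, (∀ i < L + 1, z i = z' i) →
        (z 0 = φ (sh z) ↔ z' 0 = φ (sh z')) := fun z z' hz => by
      rw [hz 0 (by omega), hφ (sh z) (sh z') fun i hi => hz _ (by omega)]
    have i1 := (fin (L + 1) (fun z => -Real.log (qq φ L δ k z)) fun z z' hz => by
      simp only [qq, dep z z' hz]).1
    refine ⟨i1, ?_⟩
    unfold qq at i1 ⊢
    split_ifs at i1 ⊢ with hk
    · have mE : MeasurableSet {z : ℕ → Fin m | z 0 ≠ φ (sh z)} := by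
        have : {z : ℕ → Fin m | z 0 ≠ φ (sh z)} = (fun (z : ℕ → Fin m) (i : Fin (L + 1)) => z i) ⁻¹'
            {w | ex a0 w 0 ≠ φ (sh (ex a0 w))} := by
          ext z; exact (dep _ _ fun i hi => by simp [ex, hi]).not
        rw [this]
        exact (by fun_prop : Measurable _) (Set.toFinite _).measurableSet
      refine (integral_mono i1 ((integrable_const (c / 4)).add
        ((integrable_const (Real.log (m / δ))).indicator mE)) fun z => ?_).trans ?_
      · by_cases k : z 0 = φ (sh z)
        · simp [k, hδ]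
        · simp only [k, if_false, Pi.add_apply, Set.indicator_of_mem (show z ∈ {z | z 0 ≠ φ (sh z)} from k)]
          rw [← Real.log_inv, inv_div]; linarith
      · simp only [Pi.add_apply]
        rw [integral_add (integrable_const _) ((integrable_const _).indicator mE),
          integral_indicator_const _ mE, smul_eq_mul]
        have : ε * (Real.log (m / δ) + 1) = c / 4 := by rw [hε]; field_simp
        simp only [integral_const, probReal_univ, smul_eq_mul, one_mul]
        nlinarith [mul_le_mul_of_nonneg_right err hl]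
    · simp; linarith
  have iQ : ∀ n, Integrable (fun z => -Real.log (Q φ L δ n z)) μ := fun n =>
    (fin n _ fun z z' hz => by rw [Q_dep hφ n z z' hz]).1
  have lm : 0 ≤ Real.log m := Real.log_nonneg hm
  have bQ : ∀ n : ℕ, ∫ z, -Real.log (Q φ L δ n z) ∂μ ≤ n * (c / 2) + min n L * Real.log m := by
    intro n
    induction n with
    | zero => simp [Q]
    | succ n ih =>
      have e : (fun z => -Real.log (Q φ L δ (n + 1) z)) = fun z => -Real.log (qq φ L δ (n + 1) z) +
          -Real.log (Q φ L δ n (sh z)) := funext fun z => by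
        rw [Q, Real.log_mul (qq_pos a0 h0 h1 _ _).ne' (Q_pos a0 h0 h1 _ _).ne']; ring
      have i2 : Integrable (fun z => -Real.log (Q φ L δ n (sh z))) μ :=
        hs.integrable_comp_of_integrable (iQ n)
      rw [e, integral_add (iq _).1 i2, ← integral_map (f := fun z => -Real.log (Q φ L δ n z))
        hs.measurable.aemeasurable (hs.map_eq.symm ▸ (iQ n).1), hs.map_eq]
      have := (iq (n + 1)).2
      split_ifs at this with hk
      · rw [min_eq_right (by omega)] at ih ⊢
        push_cast; linarith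
      · rw [min_eq_left (by omega)] at ih ⊢
        push_cast; linarith
  obtain ⟨n, hn⟩ := exists_nat_gt (L * Real.log m / (c / 2))
  rw [div_lt_iff₀ (by positivity)] at hn
  have b1 := bQ n
  rw [(fin n _ fun z z' hz => by rw [Q_dep hφ n z z' hz]).2] at b1
  have b2 := (fin n (fun _ => 1) fun _ _ _ => rfl).2
  have b3 := Q_sum (φ := φ) (L := L) a0 h0 h1 n
  have b4 : ∀ p q : ℝ, 0 ≤ p → 0 < q → Real.negMulLog p ≤ p * -Real.log q + (q - p * 1) := by
    intro p q hp hq
    rcases hp.eq_or_lt with k | k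
    · simp [← k, hq.le]
    · have := Real.log_le_sub_one_of_pos (div_pos hq k)
      rw [Real.log_div hq.ne' k.ne'] at this
      have := mul_le_mul_of_nonneg_left this hp
      rw [mul_sub p (q / p), mul_div_cancel₀ _ k.ne'] at this
      unfold Real.negMulLog; linarith
  have b5 := (h n).trans (Finset.sum_le_sum fun w _ =>
    b4 _ _ ENNReal.toReal_nonneg (Q_pos (φ := φ) (L := L) a0 h0 h1 n (ex a0 w)))
  rw [Finset.sum_add_distrib, Finset.sum_sub_distrib, ← b2] at b5
  have b6 : ((min n L : ℕ) : ℝ) ≤ L := by exact_mod_cast min_le_right _ _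
  simp only [integral_const, probReal_univ, smul_eq_mul, one_mul] at b5
  nlinarith [mul_le_mul_of_nonneg_right b6 lm]

noncomputable def ind {m : ℕ} (μ : Measure (ℕ → Fin m)) [IsProbabilityMeasure μ] (a : Fin m) :
    Lp ℝ 2 μ :=
  indicatorConstLp 2 (s := {z : ℕ → Fin m | z 0 = a})
    (measurableSet_eq_fun (measurable_pi_apply 0) measurable_const) (measure_ne_top _ _) 1

lemma ind_ae {m : ℕ} (μ : Measure (ℕ → Fin m)) [IsProbabilityMeasure μ] (a : Fin m) :
    ind μ a =ᵐ[μ] {z : ℕ → Fin m | z 0 = a}.indicator 1 := indicatorConstLp_coeFn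

lemma innov {m : ℕ} (μ : Measure (ℕ → Fin m)) [IsProbabilityMeasure μ]
    (hs : MeasurePreserving sh μ μ) (c : ℝ) (hc : 0 < c) (h : ∀ n : ℕ, c * (n : ℝ) ≤
      ∑ w : Fin n → Fin m, Real.negMulLog (μ {x | ∀ i : Fin n, x i.val = w i}).toReal) :
    ∃ (a : Fin m) (d : Dat μ), d.s = sh ∧ d.side.al (ind μ a) 0 ≠ 0 ∧ ‖ind μ a‖ ≤ 1 ∧
      (inner ℝ d.side.o (ind μ a) = μ.real {z | z 0 = a}) ∧
      ∀ t, d.side.U^[t] (ind μ a) =ᵐ[μ] fun z => {z : ℕ → Fin m | z 0 = a}.indicator 1 (sh^[t] z) := by
  have mA : ∀ a : Fin m, MeasurableSet {z : ℕ → Fin m | z 0 = a} := fun a =>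
    measurableSet_eq_fun (measurable_pi_apply 0) measurable_const
  choose d r h1 h2 h3 using fun a => exDat sh hs _ (mA a)
  obtain ⟨a, ha⟩ : ∃ a, (d a).side.al (ind μ a) 0 ≠ 0 := by
    by_contra k
    push Not at k
    refine ent μ hs c hc h r h2 fun a => ?_
    have k1 : ∫ z, (d a).f z * {z : ℕ → Fin m | z 0 = a}.indicator 1 z ∂μ = 0 := by
      rw [← k a, Side.al, Dat.side, inner_one]
      refine integral_congr_ae ?_
      filter_upwards [(d a).M_ae (ind μ a), ind_ae μ a] with z e1 e2
      simp [e1, e2]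
    have bf : BM (d a).f := ⟨(d a).mf, 1, (d a).bf⟩
    have i0 : Integrable (d a).f μ := bf.mem.integrable (by norm_num)
    have i1 : Integrable ({z : ℕ → Fin m | z 0 = a}.indicator (1 : (ℕ → Fin m) → ℝ)) μ :=
      (integrable_const (1 : ℝ)).indicator (mA a)
    have i2 : Integrable (fun z => r a (sh z)) μ := (i1.sub i0).congr
      (Eventually.of_forall fun z => by simp [h3])
    have k2 := (d a).hf (r a) ((hs.integrable_comp (h2 a).aestronglyMeasurable).mp i2)
    rw [h1] at k2
    have k3 : ∫ z, (d a).f z * (d a).f z ∂μ = 0 := by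
      have := integral_sub (bf.int i1) (bf.int i2)
      simp only [mul_comm _ ((d a).f _), k1, k2] at this
      simp only [← mul_sub, ← h3] at this
      simpa using this
    filter_upwards [(integral_eq_zero_iff_of_nonneg (fun z => mul_self_nonneg _) (bf.int i0)).mp k3]
      with z hz
    have := h3 a z
    rw [mul_self_eq_zero.mp hz] at this
    linarith
  refine ⟨a, d a, h1 a, ha, ?_, ?_, fun t => ?_⟩
  · refine (Lp.norm_le_norm_of_ae_le ?_).trans (d a).side.no.le
    filter_upwards [ind_ae μ a, one_ae (μ := μ)] with z e1 e2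
    rw [e1, Dat.side, e2]
    by_cases k : z 0 = a <;> simp [k]
  · rw [Dat.side, inner_one, integral_congr_ae (ind_ae μ a), integral_indicator_one (mA a)]
  · induction t with
    | zero => exact ind_ae μ a
    | succ t ih =>
      rw [Function.iterate_succ_apply']
      refine ((d a).U_ae _).trans ?_
      rw [h1]
      exact hs.quasiMeasurePreserving.ae_eq_comp ih

end Pool.Agent.H89.Join
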