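import Mathlib
import Pool.Agent.H89.JoinC

set_option autoImplicit false

namespace Pool.Agent.H89.Join

open Filter Topology Finset MeasureTheory

lemma icomp {A B : Type*} [MeasurableSpace A] [MeasurableSpace B] {α : Measure A} {β : Measure B}
    {g : A → B} (h : MeasurePreserving g α β) (F : B → ℝ) (hF : AEStronglyMeasurable F β) :
    ∫ b, F b ∂β = ∫ a, F (g a) ∂α := by
  have := h.map_eq
  subst this
  exact integral_map h.measurable.aemeasurable hF

lemma rcomp {A B : Type*} [MeasurableSpace A] [MeasurableSpace B] {α : Measure A} {β : Measure B}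
    {g : A → B} (h : MeasurePreserving g α β) (F : Set B) (hF : MeasurableSet F) :
    β.real F = α.real (g ⁻¹' F) := by
  rw [← h.map_eq, map_measureReal_apply h.measurable hF]

lemma fac (μ : Measure (ℕ → ℕ)) [IsProbabilityMeasure μ] (hs : MeasurePreserving sh μ μ) {m : ℕ}
    (f : ℕ → Fin m) (c : ℝ) (hc : 0 < c) (h : ∀ n : ℕ, c * (n : ℝ) ≤ ∑ w : Fin n → Fin m,
      Real.negMulLog (μ {x | ∀ i : Fin n, f (x i.val) = w i}).toReal) :
    ∃ (ρ : Measure (ℕ → Fin m)) (_ : IsProbabilityMeasure ρ) (a : Fin m) (d : Dat ρ),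
      MeasurePreserving (fun (x : ℕ → ℕ) n => f (x n)) μ ρ ∧ d.s = sh ∧
      d.side.al (ind ρ a) 0 ≠ 0 ∧ ‖ind ρ a‖ ≤ 1 ∧
      (inner ℝ d.side.o (ind ρ a) = ρ.real {z | z 0 = a}) ∧
      ∀ t, d.side.U^[t] (ind ρ a) =ᵐ[ρ] fun z =>
        {z : ℕ → Fin m | z 0 = a}.indicator 1 (sh^[t] z) := by
  have mπ : Measurable fun (x : ℕ → ℕ) n => f (x n) :=
    measurable_pi_lambda _ fun n => (measurable_of_countable f).comp (measurable_pi_apply n)
  have ms : Measurable (sh : (ℕ → Fin m) → _) := measurable_pi_lambda _ fun n => measurable_pi_apply _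
  have := Measure.isProbabilityMeasure_map (μ := μ) mπ.aemeasurable
  obtain ⟨a, d, hd⟩ := innov (μ.map fun (x : ℕ → ℕ) n => f (x n)) ⟨ms, by
    rw [Measure.map_map ms mπ]
    conv_rhs => rw [← hs.map_eq, Measure.map_map mπ hs.measurable]
    rfl⟩ c hc fun n => by
      refine (h n).trans (le_of_eq (Finset.sum_congr rfl fun w _ => ?_))
      rw [Measure.map_apply mπ (by measurability)]
      rfl
  exact ⟨_, this, a, d, ⟨mπ, rfl⟩, hd⟩

lemma fin (μ ν : Measure (ℕ → ℕ)) [IsProbabilityMeasure μ] [IsProbabilityMeasure ν]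
    (sμ : MeasurePreserving sh μ μ) (sν : MeasurePreserving sh ν ν) {m m' : ℕ}
    (f : ℕ → Fin m) (f' : ℕ → Fin m') (ρ : Measure (ℕ → Fin m)) (ρ' : Measure (ℕ → Fin m'))
    [IsProbabilityMeasure ρ] [IsProbabilityMeasure ρ'] (a : Fin m) (b : Fin m') (d : Dat ρ)
    (d' : Dat ρ') (hπ : MeasurePreserving (fun (x : ℕ → ℕ) n => f (x n)) μ ρ)
    (hπ' : MeasurePreserving (fun (x : ℕ → ℕ) n => f' (x n)) ν ρ') (ds : d.s = sh) (ds' : d'.s = sh)
    (a0 : d.side.al (ind ρ a) 0 ≠ 0) (b0 : d'.side.al (ind ρ' b) 0 ≠ 0) (n1 : ‖ind ρ a‖ ≤ 1)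
    (n2 : ‖ind ρ' b‖ ≤ 1) (i1 : inner ℝ d.side.o (ind ρ a) = ρ.real {z | z 0 = a})
    (i2 : inner ℝ d'.side.o (ind ρ' b) = ρ'.real {z | z 0 = b})
    (u1 : ∀ t, d.side.U^[t] (ind ρ a) =ᵐ[ρ] fun z =>
      {z : ℕ → Fin m | z 0 = a}.indicator 1 (sh^[t] z))
    (u2 : ∀ t, d'.side.U^[t] (ind ρ' b) =ᵐ[ρ'] fun z =>
      {z : ℕ → Fin m' | z 0 = b}.indicator 1 (sh^[t] z)) :
    ∃ ξ : Measure ((ℕ → ℕ) × (ℕ → ℕ)), IsProbabilityMeasure ξ ∧
      MeasurePreserving (Prod.map sh sh) ξ ξ ∧ ξ.map Prod.fst = μ ∧ ξ.map Prod.snd = ν ∧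
      ∃ a b : ℕ, ξ ({p : (ℕ → ℕ) × (ℕ → ℕ) | p.1 0 = a} ∩ {p | p.2 0 = b}) ≠
        μ {x : ℕ → ℕ | x 0 = a} * ν {y : ℕ → ℕ | y 0 = b} := by
  obtain ⟨l1, l2, ε, δ, hε, hδ, hN⟩ := gain d.side d'.side _ _ n1 n2 a0 b0
  have cs : Continuous (sh : (ℕ → ℕ) → _) := continuous_pi fun n => continuous_apply _
  have m1 := (d.hs.iterate l1).comp hπ
  have m2 := (d'.hs.iterate l2).comp hπ'
  have hP := P_prop d d' ε hε
  let E : Set ((ℕ → ℕ) × (ℕ → ℕ)) :=
    (fun p => (p.1 0, p.2 0)) ⁻¹' ({i | f i = a} ×ˢ {j | f' j = b})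
  have hE : IsClopen E := (isClopen_discrete _).preimage (by fun_prop)
  obtain ⟨ξ, pξ, mξ, e1, e2, hξ⟩ := joining μ ν sh sh cs cs sμ sν
    (fun N p => P d d' ε N (d.s^[l1] fun n => f (p.1 n), d'.s^[l2] fun n => f' (p.2 n)))
    (fun N => (hP N).1.comp (m1.measurable.prodMap m2.measurable)) (fun N p => (hP N).2 _)
    (fun N x => (icomp m2 _ ((hP N).1.1.comp measurable_prodMk_left).aestronglyMeasurable).symm.trans
      (P_fst d d' ε hε N (d.s^[l1] fun n => f (x n))))
    (fun N y => (icomp m1 _ ((hP N).1.1.comp measurable_prodMk_right).aestronglyMeasurable).symm.trans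
      (P_snd d d' ε hε N (d'.s^[l2] fun n => f' (y n))))
    (BoundedContinuousFunction.indicator E hE) _ (hN.mono fun N hN => hN.trans (le_of_eq (by
      congr 1
      refine Finset.sum_congr rfl fun k _ => ?_
      have q1 := (d.hs.iterate l1).measurable
      have q2 := (d'.hs.iterate l2).measurable
      rw [← I_P d d' ε hε, ← TRp d' _ _ _ _ (hP N).1, ← TLp d _ _ _ _ ((hP N).1.comp (by fun_prop)), I]
      have hm := hπ.prod hπ'
      have q3 := (hP N).1.1
      rw [icomp hm _ (((hP N).1.comp (by fun_prop)).int ((int2 _).mul_prod (int2 _))).1]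
      refine integral_congr_ae ?_
      filter_upwards [Measure.quasiMeasurePreserving_fst.ae (hπ.quasiMeasurePreserving.ae (u1 k)),
        Measure.quasiMeasurePreserving_snd.ae (hπ'.quasiMeasurePreserving.ae (u2 k))] with p k1 k2
      simp only [Prod.map]
      rw [k1, k2]
      congr 1
      have it : ∀ {A : Type} (z : ℕ → A) (k n : ℕ), sh^[k] z n = z (n + k) := fun z k => by
        induction k with
        | zero => exact fun n => rfl
        | succ k ih => exact fun n => by rw [Function.iterate_succ_apply', sh, ih]; congr 1; omega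
      simp [BoundedContinuousFunction.indicator, E, Set.indicator, it, ite_and]
      split_ifs <;> rfl)))
  refine ⟨ξ, pξ, mξ, e1, e2, ?_⟩
  by_contra k
  push Not at k
  have q0 : Measurable fun x : ℕ → ℕ => x 0 := measurable_pi_apply 0
  have q : ξ.map (fun p => (p.1 0, p.2 0)) = (μ.map (· 0)).prod (ν.map (· 0)) :=
    Measure.ext_of_singleton fun ⟨i, j⟩ => by
      rw [Measure.map_apply (by fun_prop) (measurableSet_singleton _), ← Set.singleton_prod_singleton,
        Measure.prod_prod, Measure.map_apply q0 (measurableSet_singleton _),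
        Measure.map_apply q0 (measurableSet_singleton _)]
      exact k i j
  have q4 := congrArg (fun η : Measure (ℕ × ℕ) => η.real ({i | f i = a} ×ˢ {j | f' j = b})) q
  simp only [measureReal_prod_prod] at q4
  rw [map_measureReal_apply (by fun_prop) MeasurableSet.of_discrete, map_measureReal_apply q0
    MeasurableSet.of_discrete, map_measureReal_apply q0 MeasurableSet.of_discrete] at q4
  have q5 : ∫ p, BoundedContinuousFunction.indicator E hE p ∂ξ = ξ.real E :=
    integral_indicator_one hE.2.measurableSet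
  rw [q5, i1, i2, rcomp hπ _ (by measurability), rcomp hπ' _ (by measurability)] at hξ
  exact absurd (hξ.trans_eq q4) (not_le.mpr (lt_add_of_pos_right _ hδ))

end Pool.Agent.H89.Join
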