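import Mathlib

set_option autoImplicit false
open Set Topology Filter
open scoped RealInnerProductSpace ContDiff

namespace Pool.Agent.H89.KAn

variable {H : Type} [NormedAddCommGroup H] [InnerProductSpace ℝ H] [CompleteSpace H]

/-- The resolvent. -/
noncomputable def R (T : H →L[ℝ] H) : H →L[ℝ] H := Ring.inverse (1 - star T * T)

lemma nstar (T : H →L[ℝ] H) : ‖star T‖ = ‖T‖ := by
  rw [ContinuousLinearMap.star_eq_adjoint]
  exact LinearIsometryEquiv.norm_map _ _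

lemma unit {T : H →L[ℝ] H} (h : ‖T‖ < 1) : IsUnit (1 - star T * T) := by
  refine (Units.oneSub _ ?_).isUnit
  have := norm_mul_le (star T) T
  rw [nstar] at this
  nlinarith [norm_nonneg T]

lemma R_an {T : H →L[ℝ] H} (h : ‖T‖ < 1) : AnalyticAt ℝ (R (H := H)) T := by
  have h1 : AnalyticAt ℝ (fun S : H →L[ℝ] H => 1 - star S * S) T :=
    analyticAt_const.sub (((starL' ℝ : (H →L[ℝ] H) ≃L[ℝ] (H →L[ℝ] H)).analyticAt T).mul
      analyticAt_id)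
  exact AnalyticAt.comp (g := Ring.inverse) (analyticOnNhd_inverse (𝕜 := ℝ) _ (unit h)) h1

lemma R_eq {T : H →L[ℝ] H} (h : ‖T‖ < 1) (e z : H) :
    ⟪e, z⟫ = ⟪R T e, z⟫ - ⟪T (R T e), T z⟫ := by
  have h1 := congrArg (fun A : H →L[ℝ] H => ⟪A e, z⟫) (Ring.mul_inverse_cancel _ (unit h))
  simp only [ContinuousLinearMap.mul_apply, ContinuousLinearMap.sub_apply,
    ContinuousLinearMap.one_apply, inner_sub_left, ContinuousLinearMap.star_eq_adjoint,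
    ContinuousLinearMap.adjoint_inner_left] at h1
  exact h1.symm

lemma q_eq {T : H →L[ℝ] H} (h : ‖T‖ < 1) (e : H) :
    ⟪e, R T e⟫ = 2 * ⟪e, R T e⟫ - ‖R T e‖ ^ 2 + ‖T (R T e)‖ ^ 2 := by
  have := R_eq h e (R T e)
  rw [real_inner_self_eq_norm_sq, real_inner_self_eq_norm_sq] at this
  linarith

lemma q_ge {T : H →L[ℝ] H} (h : ‖T‖ < 1) (e x : H) :
    2 * ⟪e, x⟫ - ‖x‖ ^ 2 + ‖T x‖ ^ 2 ≤ ⟪e, R T e⟫ := by
  have h1 := R_eq h e (R T e)
  have h2 := R_eq h e x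
  rw [real_inner_self_eq_norm_sq, real_inner_self_eq_norm_sq] at h1
  have h3 : ‖T (R T e - x)‖ ≤ ‖R T e - x‖ :=
    (T.le_opNorm _).trans (mul_le_of_le_one_left (norm_nonneg _) h.le)
  have h4 : ‖T (R T e - x)‖ ^ 2 ≤ ‖R T e - x‖ ^ 2 := by gcongr
  rw [map_sub, norm_sub_sq_real, norm_sub_sq_real] at h4
  linarith

lemma q_nonneg {T : H →L[ℝ] H} (h : ‖T‖ < 1) (e : H) : 0 ≤ ⟪e, R T e⟫ := by
  simpa using q_ge h e 0

lemma norm_comb {S T : H →L[ℝ] H} (hS : ‖S‖ < 1) (hT : ‖T‖ < 1) {a b : ℝ} (ha : 0 ≤ a)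
    (hb : 0 ≤ b) (hab : a + b = 1) : ‖a • S + b • T‖ < 1 := by
  have := convex_ball (0 : H →L[ℝ] H) 1 (mem_ball_zero_iff.2 hS) (mem_ball_zero_iff.2 hT) ha hb hab
  exact mem_ball_zero_iff.1 this

lemma q_conv {S T : H →L[ℝ] H} (hS : ‖S‖ < 1) (hT : ‖T‖ < 1) {a b : ℝ} (ha : 0 ≤ a)
    (hb : 0 ≤ b) (hab : a + b = 1) (e : H) :
    ⟪e, R (a • S + b • T) e⟫ ≤ a * ⟪e, R S e⟫ + b * ⟪e, R T e⟫ := by
  rw [q_eq (norm_comb hS hT ha hb hab)]
  generalize R (a • S + b • T) e = y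
  have h1 := q_ge hS e y
  have h2 := q_ge hT e y
  have h3 : ‖(a • S + b • T) y‖ ≤ a * ‖S y‖ + b * ‖T y‖ := by
    simp only [ContinuousLinearMap.add_apply, ContinuousLinearMap.smul_apply]
    refine (norm_add_le _ _).trans ?_
    rw [norm_smul, norm_smul, Real.norm_eq_abs, Real.norm_eq_abs, abs_of_nonneg ha,
      abs_of_nonneg hb]
  have h4 : ‖(a • S + b • T) y‖ ^ 2 ≤ (a * ‖S y‖ + b * ‖T y‖) ^ 2 := by gcongr
  have h5 : (a * ‖S y‖ + b * ‖T y‖) ^ 2 ≤ a * ‖S y‖ ^ 2 + b * ‖T y‖ ^ 2 := by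
    have : b = 1 - a := by linarith
    subst this
    nlinarith [mul_nonneg (mul_nonneg ha hb) (sq_nonneg (‖S y‖ - ‖T y‖))]
  have h6 := mul_le_mul_of_nonneg_left h1 ha
  have h7 := mul_le_mul_of_nonneg_left h2 hb
  have : b = 1 - a := by linarith
  subst this
  nlinarith

lemma q_small {T : H →L[ℝ] H} (h : ‖T‖ ≤ 1 / 2) (e : H) (he : ‖e‖ ≤ 1) :
    ⟪e, R T e⟫ ≤ 4 / 3 := by
  rw [q_eq (by linarith)]
  generalize R T e = y
  have h1 : ‖T y‖ ≤ 1 / 2 * ‖y‖ := (T.le_opNorm _).trans (by gcongr)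
  have h2 : ‖T y‖ ^ 2 ≤ (1 / 2 * ‖y‖) ^ 2 := by gcongr
  have h3 : ⟪e, y⟫ ≤ ‖y‖ :=
    (real_inner_le_norm e y).trans (mul_le_of_le_one_left (norm_nonneg _) he)
  nlinarith [sq_nonneg (‖y‖ - 4 / 3)]

omit [CompleteSpace H] in
lemma summ (e : ℕ → H) (he : ∀ j, ‖e j‖ ≤ 1) (A : H →L[ℝ] H) (j : ℕ) :
    ‖(1 / 2 : ℝ) / 2 ^ j * ⟪e j, A (e j)⟫‖ ≤ ‖A‖ / 2 / 2 ^ j := by
  have h1 : ‖A (e j)‖ ≤ ‖A‖ :=
    (A.le_opNorm _).trans (mul_le_of_le_one_right (norm_nonneg _) (he j))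
  have h2 : |⟪e j, A (e j)⟫| ≤ ‖A‖ :=
    (abs_real_inner_le_norm _ _).trans ((mul_le_of_le_one_left (norm_nonneg _) (he j)).trans h1)
  rw [norm_mul, Real.norm_eq_abs, Real.norm_eq_abs, abs_of_pos (by positivity)]
  calc (1 / 2 : ℝ) / 2 ^ j * |⟪e j, A (e j)⟫| ≤ 1 / 2 / 2 ^ j * ‖A‖ := by gcongr
    _ = _ := by ring

omit [CompleteSpace H] in
lemma summ' (e : ℕ → H) (he : ∀ j, ‖e j‖ ≤ 1) (A : H →L[ℝ] H) :
    Summable fun j => (1 / 2 : ℝ) / 2 ^ j * ⟪e j, A (e j)⟫ :=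
  Summable.of_norm_bounded (summable_geometric_two' ‖A‖) (summ e he A)

/-- A faithful positive functional. -/
noncomputable def L (e : ℕ → H) (he : ∀ j, ‖e j‖ ≤ 1) : (H →L[ℝ] H) →L[ℝ] ℝ :=
  LinearMap.mkContinuous
    { toFun := fun A => ∑' j, (1 / 2 : ℝ) / 2 ^ j * ⟪e j, A (e j)⟫
      map_add' := fun A B => by
        rw [← (summ' e he A).tsum_add (summ' e he B)]
        simp only [ContinuousLinearMap.add_apply, inner_add_right, mul_add]
      map_smul' := fun c A => by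
        simp only [ContinuousLinearMap.smul_apply, inner_smul_right, RingHom.id_apply, smul_eq_mul]
        rw [← tsum_mul_left]
        exact tsum_congr fun j => by ring } 1
    (fun A => by
      rw [one_mul]
      exact tsum_of_norm_bounded (hasSum_geometric_two' ‖A‖) (summ e he A))

variable (e : ℕ → H) (he : ∀ j, ‖e j‖ ≤ 1)

/-- The convex analytic barrier. -/
noncomputable def P (T : H →L[ℝ] H) : ℝ := L e he (R T)

lemma P_def (T : H →L[ℝ] H) : P e he T = ∑' j, (1 / 2 : ℝ) / 2 ^ j * ⟪e j, R T (e j)⟫ := rfl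

lemma P_an {T : H →L[ℝ] H} (h : ‖T‖ < 1) : AnalyticAt ℝ (P e he) T :=
  ((L e he).analyticAt _).comp (R_an h)

lemma P_conv {S T : H →L[ℝ] H} (hS : ‖S‖ < 1) (hT : ‖T‖ < 1) {a b : ℝ} (ha : 0 ≤ a)
    (hb : 0 ≤ b) (hab : a + b = 1) :
    P e he (a • S + b • T) ≤ a * P e he S + b * P e he T := by
  rw [P_def, P_def, P_def, ← tsum_mul_left, ← tsum_mul_left,
    ← ((summ' e he _).mul_left a).tsum_add ((summ' e he _).mul_left b)]
  refine (summ' e he _).tsum_le_tsum (fun j => ?_)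
    (((summ' e he _).mul_left a).add ((summ' e he _).mul_left b))
  have := mul_le_mul_of_nonneg_left (q_conv hS hT ha hb hab (e j))
    (show (0 : ℝ) ≤ 1 / 2 / 2 ^ j by positivity)
  linarith

lemma P_small {T : H →L[ℝ] H} (h : ‖T‖ ≤ 1 / 2) : P e he T ≤ 4 / 3 := by
  rw [P_def, ← (hasSum_geometric_two' (4 / 3 : ℝ)).tsum_eq]
  refine (summ' e he _).tsum_le_tsum (fun j => ?_) (summable_geometric_two' _)
  calc (1 / 2 : ℝ) / 2 ^ j * ⟪e j, R T (e j)⟫ ≤ 1 / 2 / 2 ^ j * (4 / 3) := by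
        gcongr; exact q_small h _ (he j)
    _ = _ := by ring

lemma P_neg (T : H →L[ℝ] H) : P e he (-T) = P e he T := by
  simp [P, R]

lemma P_ge {T : H →L[ℝ] H} (h : ‖T‖ < 1) (j : ℕ) :
    (1 / 2 : ℝ) / 2 ^ j * ⟪e j, R T (e j)⟫ ≤ P e he T :=
  (summ' e he _).le_tsum j fun i _ => mul_nonneg (by positivity) (q_nonneg h _)

lemma attain {T : H →L[ℝ] H} (hc : IsCompactOperator T) (h : ‖T‖ = 1) :
    ∃ x : H, ‖x‖ = 1 ∧ ‖T x‖ = 1 := by
  have h1 : ∀ n : ℕ, ∃ x : H, ‖x‖ < 1 ∧ 1 - 1 / ((n : ℝ) + 1) < ‖T x‖ := fun n =>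
    T.exists_lt_apply_of_lt_opNorm (by
      have : (0 : ℝ) < 1 / ((n : ℝ) + 1) := by positivity
      linarith)
  choose x hx1 hx2 using h1
  obtain ⟨K, hK, hK'⟩ := hc.image_closedBall_subset_compact (𝕜₁ := ℝ)
    (f := (T : H →ₗ[ℝ] H)) 1
  obtain ⟨y, -, φ, hφ, hy⟩ := hK.tendsto_subseq (x := fun n => T (x n))
    (fun n => hK' ⟨x n, by simpa using (hx1 n).le, rfl⟩)
  have hle : ∀ z, ‖T z‖ ≤ ‖z‖ := fun z => by simpa [h] using T.le_opNorm z
  have hle' : ∀ z, ‖(star T) z‖ ≤ ‖z‖ := fun z => by simpa [nstar, h] using (star T).le_opNorm z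
  have h2 : Tendsto (fun n => ‖T (x (φ n))‖) atTop (𝓝 ‖y‖) := hy.norm
  have h3 : ‖y‖ ≤ 1 := le_of_tendsto' h2 fun n => (hle _).trans (hx1 _).le
  have h4 : 1 ≤ ‖y‖ := by
    have : Tendsto (fun n => 1 - 1 / ((φ n : ℝ) + 1)) atTop (𝓝 (1 - 0)) :=
      (tendsto_one_div_add_atTop_nhds_zero_nat.comp hφ.tendsto_atTop).const_sub 1
    rw [sub_zero] at this
    exact le_of_tendsto_of_tendsto' this h2 fun n => (hx2 _).le
  have h5 : ‖y‖ = 1 := le_antisymm h3 h4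
  have h6 : 1 ≤ ‖(star T) y‖ := by
    have a1 : Tendsto (fun n => ⟪y, T (x (φ n))⟫) atTop (𝓝 ⟪y, y⟫) := tendsto_const_nhds.inner hy
    rw [real_inner_self_eq_norm_sq, h5, one_pow] at a1
    refine le_of_tendsto' a1 fun n => ?_
    rw [ContinuousLinearMap.star_eq_adjoint, ← ContinuousLinearMap.adjoint_inner_left]
    exact (real_inner_le_norm _ _).trans (mul_le_of_le_one_right (norm_nonneg _) (hx1 _).le)
  have h7 : ‖(star T) y‖ = 1 := le_antisymm (h5 ▸ hle' y) h6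
  refine ⟨(star T) y, h7, le_antisymm (h7 ▸ hle _) ?_⟩
  have a2 : ⟪y, T ((star T) y)⟫ = 1 := by
    rw [← ContinuousLinearMap.adjoint_inner_left, ← ContinuousLinearMap.star_eq_adjoint,
      real_inner_self_eq_norm_sq, h7, one_pow]
  have := real_inner_le_norm y (T ((star T) y))
  rwa [a2, h5, one_mul] at this

lemma exists_level (htot : ∀ x : H, (∀ j, ⟪e j, x⟫ = 0) → x = 0) {T : H →L[ℝ] H}
    (hc : IsCompactOperator T) (h0 : T ≠ 0) :
    ∃ t : ℝ, 0 < t ∧ ‖t • T‖ < 1 ∧ P e he (t • T) = 2 := by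
  have hn : 0 < ‖T‖ := norm_pos_iff.2 h0
  have h1 : ‖‖T‖⁻¹ • T‖ = 1 := by rw [norm_smul, norm_inv, norm_norm, inv_mul_cancel₀ hn.ne']
  obtain ⟨x, hx1, hx2⟩ := attain (T := ‖T‖⁻¹ • T) (hc.smul _) h1
  obtain ⟨j, hj⟩ : ∃ j, ⟪e j, x⟫ ≠ 0 := by
    by_contra hh
    push Not at hh
    rw [htot x hh] at hx1
    simp at hx1
  generalize hS : ‖T‖⁻¹ • T = S at h1 hx2
  have hns : ∀ s : ℝ, 0 ≤ s → ‖s • S‖ = s := fun s hs => by
    rw [norm_smul, h1, mul_one, Real.norm_eq_abs, abs_of_nonneg hs]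
  set α := ⟪e j, x⟫
  have hα : 0 < (1 / 2 : ℝ) / 2 ^ j * α ^ 2 := by positivity
  obtain ⟨δ, hδ0, hδ1, hδ2⟩ : ∃ δ : ℝ, 0 < δ ∧ δ ≤ 1 ∧ 4 * δ ≤ (1 / 2 : ℝ) / 2 ^ j * α ^ 2 :=
    ⟨min 1 ((1 / 2 : ℝ) / 2 ^ j * α ^ 2 / 4), by positivity, min_le_left _ _,
      by linarith [min_le_right 1 ((1 / 2 : ℝ) / 2 ^ j * α ^ 2 / 4)]⟩
  have h2 : 2 ≤ P e he ((1 - δ) • S) := by
    have a0 : ‖(1 - δ) • S‖ < 1 := by rw [hns _ (by linarith)]; linarith
    refine le_trans ?_ (P_ge e he a0 j)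
    have a1 := q_ge a0 (e j) ((α / (2 * δ)) • x)
    simp only [inner_smul_right, map_smul, ContinuousLinearMap.smul_apply, norm_smul, hx1, hx2,
      mul_one, mul_pow, Real.norm_eq_abs, sq_abs] at a1
    have a2 : α ^ 2 / (2 * δ) ≤ ⟪e j, R ((1 - δ) • S) (e j)⟫ := by
      refine le_trans ?_ a1
      have : 2 * (α / (2 * δ) * α) - (α / (2 * δ)) ^ 2 + (α / (2 * δ)) ^ 2 * (1 - δ) ^ 2 =
          α ^ 2 / (2 * δ) + α ^ 2 / 4 := by field_simp; ring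
      rw [this]
      nlinarith [sq_nonneg α]
    calc (2 : ℝ) = 4 * δ / (2 * δ) := by field_simp; norm_num
      _ ≤ (1 / 2 : ℝ) / 2 ^ j * α ^ 2 / (2 * δ) := by gcongr
      _ = (1 / 2 : ℝ) / 2 ^ j * (α ^ 2 / (2 * δ)) := by ring
      _ ≤ _ := by gcongr
  have h3 : ContinuousOn (fun s : ℝ => P e he (s • S)) (Icc 0 (1 - δ)) := by
    intro s hs
    have a0 : ‖s • S‖ < 1 := by rw [hns _ hs.1]; linarith [hs.2]
    exact (ContinuousAt.comp (f := fun s : ℝ => s • S) (P_an e he a0).continuousAt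
      (by fun_prop)).continuousWithinAt
  have h4 : P e he ((0 : ℝ) • S) ≤ 4 / 3 := P_small e he (by simp)
  obtain ⟨s, hs, hs'⟩ := intermediate_value_Icc (by linarith) h3
    (show (2 : ℝ) ∈ _ from ⟨h4.trans (by norm_num), h2⟩)
  simp only at hs'
  have h5 : s ≠ 0 := by rintro rfl; linarith
  refine ⟨s * ‖T‖⁻¹, mul_pos (lt_of_le_of_ne hs.1 h5.symm) (inv_pos.2 hn), ?_, ?_⟩
  · rw [mul_smul, hS, hns _ hs.1]; linarith [hs.2]
  · rw [mul_smul, hS, hs']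

lemma slope {T : H →L[ℝ] H} {t s : ℝ} (ht : 0 < t) (hts : t < s) (hs : ‖s • T‖ < 1)
    (h2 : P e he (t • T) = 2) : 2 / 3 * (s - t) / t ≤ P e he (s • T) - 2 := by
  have hs0 : 0 < s := ht.trans hts
  have h1 := P_conv e he (S := 0) (T := s • T) (by simp) hs (a := 1 - t / s) (b := t / s)
    (by rw [sub_nonneg, div_le_one hs0]; exact hts.le) (by positivity) (by ring)
  have h3 : (1 - t / s) • (0 : H →L[ℝ] H) + (t / s) • s • T = t • T := by
    rw [smul_zero, zero_add, smul_smul, div_mul_cancel₀ _ hs0.ne']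
  have h4 : P e he 0 ≤ 4 / 3 := P_small e he (by simp)
  rw [h3, h2] at h1
  have h5 : 0 ≤ 1 - t / s := by rw [sub_nonneg, div_le_one hs0]; exact hts.le
  have h6 : 2 ≤ (1 - t / s) * (4 / 3) + t / s * P e he (s • T) :=
    h1.trans (by gcongr)
  have h7 := mul_le_mul_of_nonneg_left h6 hs0.le
  have h8 : s * ((1 - t / s) * (4 / 3) + t / s * P e he (s • T)) =
      (s - t) * (4 / 3) + t * P e he (s • T) := by field_simp
  rw [div_le_iff₀ ht]
  linarith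

lemma implicit {T : H →L[ℝ] H} {t : ℝ} (ht : 0 < t) (h1 : ‖t • T‖ < 1) (h2 : P e he (t • T) = 2) :
    ∃ τ : (H →L[ℝ] H) → ℝ, AnalyticAt ℝ τ T ∧
      ∀ᶠ S in 𝓝 T, 0 < τ S ∧ ‖τ S • S‖ < 1 ∧ P e he (τ S • S) = 2 := by
  let F : (H →L[ℝ] H) × ℝ → ℝ := fun u => P e he (u.2 • u.1)
  have hF : AnalyticAt ℝ F (T, t) :=
    AnalyticAt.comp (g := P e he) (f := fun u : (H →L[ℝ] H) × ℝ => u.2 • u.1) (P_an e he h1)
      (analyticAt_snd.smul analyticAt_fst)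
  have hF' : ContDiffAt ℝ ω F (T, t) := hF.contDiffAt
  have hd : HasDerivAt (fun s : ℝ => F (T, s)) (fderiv ℝ F (T, t) (0, 1)) t := by
    have a1 : HasDerivAt (fun s : ℝ => (T, s)) (0, 1) t :=
      (hasDerivAt_const t T).prodMk (hasDerivAt_id t)
    exact hF.differentiableAt.hasFDerivAt.comp_hasDerivAt t a1
  have hpos : 2 / 3 / t ≤ fderiv ℝ F (T, t) (0, 1) := by
    have a1 := hd.tendsto_slope.mono_left (nhdsGT_le_nhdsNE t)
    refine ge_of_tendsto a1 ?_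
    have a2 : ∀ᶠ s in 𝓝 t, ‖s • T‖ < 1 :=
      (show ContinuousAt (fun s : ℝ => ‖s • T‖) t by fun_prop).eventually_lt continuousAt_const h1
    filter_upwards [self_mem_nhdsWithin, mem_nhdsWithin_of_mem_nhds a2] with s hs hs'
    have a3 := slope e he ht hs hs' h2
    have hs2 : 0 < s - t := sub_pos.2 hs
    rw [slope_def_field, le_div_iff₀ hs2]
    simp only [F, h2]
    calc 2 / 3 / t * (s - t) = 2 / 3 * (s - t) / t := by ring
      _ ≤ _ := a3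
  have hne : fderiv ℝ F (T, t) (0, 1) ≠ 0 := (lt_of_lt_of_le (by positivity) hpos).ne'
  have hinv : (fderiv ℝ F (T, t) ∘L ContinuousLinearMap.inr ℝ (H →L[ℝ] H) ℝ).IsInvertible := by
    refine ⟨ContinuousLinearEquiv.unitsEquivAut ℝ (Units.mk0 _ hne), ?_⟩
    ext
    simp
  have a1 := hF'.contDiffAt_implicitFunction (by simp) hinv
  have a2 := hF'.implicitFunction_apply_self (by simp) hinv
  have a3 := hF'.eventually_apply_implicitFunction (by simp) hinv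
  generalize hF'.implicitFunction (by simp) hinv = τ at a1 a2 a3
  have a4 : AnalyticAt ℝ τ T := a1.analyticAt
  simp only at a2
  refine ⟨τ, a4, ?_⟩
  have b1 : ∀ᶠ S in 𝓝 T, 0 < τ S :=
    continuousAt_const.eventually_lt a4.continuousAt (by rw [a2]; exact ht)
  have b2 : ∀ᶠ S in 𝓝 T, ‖τ S • S‖ < 1 :=
    (a4.continuousAt.smul continuousAt_id).norm.eventually_lt continuousAt_const
      (show ‖τ T • T‖ < 1 by rw [a2]; exact h1)
  filter_upwards [a3, b1, b2] with S c1 c2 c3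
  exact ⟨c2, c3, c1.trans h2⟩

/-- The convex body. -/
def B (K : Submodule ℝ (H →L[ℝ] H)) : Set K := {T | ‖T.1‖ < 1 ∧ P e he T.1 ≤ 2}

lemma B_conv (K : Submodule ℝ (H →L[ℝ] H)) : Convex ℝ (B e he K) := by
  intro S hS T hT a b ha hb hab
  refine ⟨norm_comb hS.1 hT.1 ha hb hab, (P_conv e he hS.1 hT.1 ha hb hab).trans ?_⟩
  have := mul_le_mul_of_nonneg_left hS.2 ha
  have := mul_le_mul_of_nonneg_left hT.2 hb
  linarith

lemma B_bal (K : Submodule ℝ (H →L[ℝ] H)) : Balanced ℝ (B e he K) := by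
  rw [balanced_iff_neg_mem (B_conv e he K)]
  intro T hT
  exact ⟨by simpa using hT.1, by rw [Submodule.coe_neg, P_neg]; exact hT.2⟩

lemma B_nhds (K : Submodule ℝ (H →L[ℝ] H)) : B e he K ∈ 𝓝 (0 : K) := by
  refine mem_of_superset (Metric.closedBall_mem_nhds 0 (show (0 : ℝ) < 1 / 2 by norm_num)) ?_
  intro T hT
  have : ‖T.1‖ ≤ 1 / 2 := by simpa using hT
  exact ⟨by linarith, by linarith [P_small e he this]⟩

lemma gauge_eq (K : Submodule ℝ (H →L[ℝ] H)) (T : K) {t : ℝ} (ht : 0 < t) (h1 : ‖t • T.1‖ < 1)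
    (h2 : P e he (t • T.1) = 2) : gauge (B e he K) T = t⁻¹ := by
  rw [gauge_def']
  have : {r ∈ Set.Ioi (0 : ℝ) | r⁻¹ • T ∈ B e he K} = Ici t⁻¹ := by
    ext r
    simp only [mem_ofPred_eq, mem_Ioi, mem_Ici]
    constructor
    · rintro ⟨hr, h3, h4⟩
      by_contra hc
      have h5 : t < r⁻¹ := by rw [lt_inv_comm₀ ht hr]; exact not_le.1 hc
      have h6 := slope e he ht h5 h3 h2
      have h7 : 0 < 2 / 3 * (r⁻¹ - t) / t := div_pos (by linarith) ht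
      have h8 : P e he (r⁻¹ • T.1) ≤ 2 := h4
      linarith
    · intro hr
      have hr0 : 0 < r := (inv_pos.2 ht).trans_le hr
      refine ⟨hr0, ?_⟩
      have h3 : t • T ∈ B e he K := ⟨h1, h2.le⟩
      have h4 : r⁻¹ • T = (r⁻¹ * t⁻¹) • t • T := by
        rw [smul_smul, mul_assoc, inv_mul_cancel₀ ht.ne', mul_one]
      rw [h4]
      refine (B_conv e he K).smul_mem_of_zero_mem (mem_of_mem_nhds (B_nhds e he K)) h3
        ⟨by positivity, ?_⟩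
      rw [inv_mul_le_iff₀ hr0, mul_one]
      exact hr
  rw [this, csInf_Ici]

include he in
theorem main (htot : ∀ x : H, (∀ j, ⟪e j, x⟫ = 0) → x = 0) :
    ∃ N : Seminorm ℝ ↥(compactOperator (RingHom.id ℝ) H H), ∃ a b : ℝ, 0 < a ∧ 0 < b ∧
      (∀ T : ↥(compactOperator (RingHom.id ℝ) H H), a * ‖T‖ ≤ N T ∧ N T ≤ b * ‖T‖) ∧
      AnalyticOnNhd ℝ (fun T => N T) {T : ↥(compactOperator (RingHom.id ℝ) H H) | T ≠ 0} := by
  refine ⟨gaugeSeminorm (B_bal e he _) (B_conv e he _) (absorbent_nhds_zero (B_nhds e he _)),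
    1, 2, one_pos, two_pos, fun T => ?_, fun T hT => ?_⟩
  · by_cases h0 : T = 0
    · subst h0; simp
    obtain ⟨t, ht, h1, h2⟩ := exists_level e he htot T.2 (fun h => h0 (Subtype.ext h))
    change 1 * ‖T.1‖ ≤ gauge _ T ∧ gauge _ T ≤ 2 * ‖T.1‖
    rw [gauge_eq e he _ T ht h1 h2]
    have h3 : ¬ ‖t • T.1‖ ≤ 1 / 2 := fun h => by linarith [P_small e he h]
    rw [norm_smul, Real.norm_eq_abs, abs_of_pos ht] at h1 h3
    constructor
    · rw [one_mul, inv_eq_one_div, le_div_iff₀ ht]; linarith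
    · rw [inv_eq_one_div, div_le_iff₀ ht]; linarith
  · obtain ⟨t, ht, h1, h2⟩ := exists_level e he htot T.2 (fun h => hT (Subtype.ext h))
    obtain ⟨τ, a1, a2⟩ := implicit e he ht h1 h2
    have a3 : AnalyticAt ℝ (fun S : ↥(compactOperator (RingHom.id ℝ) H H) => S.1) T :=
      ContinuousLinearMap.analyticAt (𝕜 := ℝ) (E := ↥(compactOperator (RingHom.id ℝ) H H))
        (F := H →L[ℝ] H) (compactOperator (RingHom.id ℝ) H H).subtypeL T
    have a4 : AnalyticAt ℝ (fun S : ↥(compactOperator (RingHom.id ℝ) H H) => (τ S.1)⁻¹) T :=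
      (AnalyticAt.comp (g := τ) a1 a3).inv a2.self_of_nhds.1.ne'
    refine a4.congr ?_
    filter_upwards [a3.continuousAt.eventually a2] with S hS
    exact (gauge_eq e he _ S hS.1 hS.2.1 hS.2.2).symm

end Pool.Agent.H89.KAn
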