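import Mathlib

set_option autoImplicit false
open Filter Topology

namespace Pool.Agent.H89.LAS

/-- Linearised stability: if some power of the derivative at a fixed point is a contraction,
orbits starting near the fixed point converge to it geometrically. -/
theorem las {E : Type*} [NormedAddCommGroup E] [NormedSpace ℝ E] (F : E → E) (p : E)
    (L : E →L[ℝ] E) (hF : HasFDerivAt F L p) (hp : F p = p) (m : ℕ) (hm : 0 < m) (c : ℝ)
    (hc0 : 0 ≤ c) (hc : c < 1) (hL : ∀ v, ‖(L ^ m) v‖ ≤ c * ‖v‖) :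
    ∃ γ > 0, ∃ C > 0, ∃ ρ : ℝ, 0 ≤ ρ ∧ ρ < 1 ∧
      ∀ x, ‖x - p‖ < γ → ∀ n, ‖F^[n] x - p‖ ≤ C * ρ ^ (n / m) * ‖x - p‖ := by
  have hit : ∀ n, HasFDerivAt F^[n] (L ^ n) p := fun n => hF.iterate hp n
  have hfix : ∀ n, F^[n] p = p := fun n => Function.iterate_fixed hp n
  have h1 : ∀ᶠ x in 𝓝 p, ‖F^[m] x - p‖ ≤ (1 + c) / 2 * ‖x - p‖ := by
    have := (hit m).isLittleO.def (show 0 < (1 - c) / 2 by linarith)
    filter_upwards [this] with x hx
    rw [hfix] at hx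
    have h2 := hL (x - p)
    have h3 : ‖F^[m] x - p‖ ≤ ‖F^[m] x - p - (L ^ m) (x - p)‖ + ‖(L ^ m) (x - p)‖ := by
      have := norm_add_le (F^[m] x - p - (L ^ m) (x - p)) ((L ^ m) (x - p))
      simpa using this
    linarith
  have h2 : ∀ r, ∃ C > 0, ∀ᶠ x in 𝓝 p, ‖F^[r] x - p‖ ≤ C * ‖x - p‖ := by
    intro r
    obtain ⟨C, hC, h⟩ := (hit r).isBigO_sub.exists_pos
    refine ⟨C, hC, ?_⟩
    have := h.bound
    simpa [hfix] using this
  choose C hC0 hC using h2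
  have h3 : ∀ᶠ x in 𝓝 p, ∀ r ∈ Finset.range m, ‖F^[r] x - p‖ ≤ C r * ‖x - p‖ :=
    (Filter.eventually_all_finset _).mpr fun r _ => hC r
  obtain ⟨γ, hγ, h4⟩ := Metric.eventually_nhds_iff.mp (h1.and h3)
  have hS : 0 < ∑ r ∈ Finset.range m, C r :=
    Finset.sum_pos (fun r _ => hC0 r) ⟨0, Finset.mem_range.mpr hm⟩
  refine ⟨γ, hγ, ∑ r ∈ Finset.range m, C r, hS, (1 + c) / 2, by linarith, by linarith, ?_⟩
  intro x hx n
  have hρ0 : 0 ≤ (1 + c) / 2 := by linarith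
  have hρ1 : (1 + c) / 2 ≤ 1 := by linarith
  have h5 : ∀ q, ‖(F^[m])^[q] x - p‖ ≤ ((1 + c) / 2) ^ q * ‖x - p‖ := by
    intro q
    induction q with
    | zero => simp
    | succ q ih =>
      rw [Function.iterate_succ_apply']
      have h6 : ‖(F^[m])^[q] x - p‖ < γ := by
        have : ((1 + c) / 2) ^ q ≤ 1 := pow_le_one₀ hρ0 hρ1
        nlinarith [norm_nonneg (x - p)]
      have h7 := (h4 (y := (F^[m])^[q] x) (by rwa [dist_eq_norm])).1
      calc _ ≤ (1 + c) / 2 * ‖(F^[m])^[q] x - p‖ := h7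
        _ ≤ (1 + c) / 2 * (((1 + c) / 2) ^ q * ‖x - p‖) := by gcongr
        _ = _ := by ring
  have e : F^[n] x = F^[n % m] ((F^[m])^[n / m] x) := by
    rw [← Function.iterate_mul, ← Function.iterate_add_apply, Nat.mod_add_div]
  have h6 : ‖(F^[m])^[n / m] x - p‖ < γ := by
    have : ((1 + c) / 2) ^ (n / m) ≤ 1 := pow_le_one₀ hρ0 hρ1
    nlinarith [norm_nonneg (x - p), h5 (n / m)]
  have h7 := (h4 (y := (F^[m])^[n / m] x) (by rwa [dist_eq_norm])).2 (n % m)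
    (Finset.mem_range.mpr (Nat.mod_lt _ hm))
  have h8 : C (n % m) ≤ ∑ r ∈ Finset.range m, C r :=
    Finset.single_le_sum (fun r _ => (hC0 r).le) (Finset.mem_range.mpr (Nat.mod_lt _ hm))
  rw [e]
  calc _ ≤ C (n % m) * ‖(F^[m])^[n / m] x - p‖ := h7
    _ ≤ (∑ r ∈ Finset.range m, C r) * (((1 + c) / 2) ^ (n / m) * ‖x - p‖) := by
      gcongr
      exact h5 _
    _ = _ := by ring

/-- Lyapunov stability and local attraction. -/
theorem las' {E : Type*} [NormedAddCommGroup E] [NormedSpace ℝ E] (F : E → E) (p : E)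
    (L : E →L[ℝ] E) (hF : HasFDerivAt F L p) (hp : F p = p) (m : ℕ) (hm : 0 < m) (c : ℝ)
    (hc0 : 0 ≤ c) (hc : c < 1) (hL : ∀ v, ‖(L ^ m) v‖ ≤ c * ‖v‖) :
    (∀ ε > 0, ∃ δ > 0, ∀ x, ‖x - p‖ < δ → ∀ n, ‖F^[n] x - p‖ < ε) ∧
    (∃ γ > 0, ∀ x, ‖x - p‖ < γ → Tendsto (fun n => F^[n] x) atTop (𝓝 p)) := by
  obtain ⟨γ, hγ, C, hC, ρ, hρ0, hρ1, h⟩ := las F p L hF hp m hm c hc0 hc hL
  constructor
  · intro ε hε
    refine ⟨min γ (ε / C), by positivity, fun x hx n => ?_⟩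
    have h1 := h x (hx.trans_le (min_le_left _ _)) n
    have h2 := hx.trans_le (min_le_right _ _)
    rw [lt_div_iff₀ hC] at h2
    have h3 : ρ ^ (n / m) ≤ 1 := pow_le_one₀ hρ0 hρ1.le
    have h4 : C * ρ ^ (n / m) * ‖x - p‖ ≤ C * 1 * ‖x - p‖ := by gcongr
    linarith
  · refine ⟨γ, hγ, fun x hx => ?_⟩
    rw [tendsto_iff_norm_sub_tendsto_zero]
    refine squeeze_zero (fun n => norm_nonneg _) (h x hx) ?_
    have h1 : Tendsto (fun n : ℕ => n / m) atTop atTop := Nat.tendsto_div_const_atTop hm.ne'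
    have h2 := ((tendsto_pow_atTop_nhds_zero_of_lt_one hρ0 hρ1).comp h1).const_mul C
    have h3 := h2.mul_const ‖x - p‖
    simpa using h3

end Pool.Agent.H89.LAS
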