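import Mathlib

set_option autoImplicit false

namespace Pool.Agent.H89.LE

open Relation

abbrev Gr := ℕ → ℕ → Prop

def IsLFTree (G : Gr) : Prop :=
  ∃ T : SimpleGraph ℕ, T.Adj = G ∧ T.IsTree ∧ ∀ v, {w | G v w}.Finite

def cut (G : Gr) (v w a b : ℕ) : Prop := G a b ∧ ¬ (a = v ∧ b = w) ∧ ¬ (a = w ∧ b = v)

def side (G : Gr) (v w : ℕ) : Set ℕ := {x | ReflTransGen (cut G v w) v x}

def out (G : Gr) (v w : ℕ) : Prop := G v w ∧ (side G v w).Finite

def core (G : Gr) (v w : ℕ) : Prop := G v w ∧ (side G v w).Infinite ∧ (side G w v).Infinite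

variable {G : Gr}

theorem IsLFTree.symm (h : IsLFTree G) {v w : ℕ} (hvw : G v w) : G w v := by
  obtain ⟨T, rfl, -, -⟩ := h
  exact hvw.symm

theorem IsLFTree.ne (h : IsLFTree G) {v w : ℕ} (hvw : G v w) : v ≠ w := by
  obtain ⟨T, rfl, -, -⟩ := h
  exact hvw.ne

theorem IsLFTree.fin (h : IsLFTree G) (v : ℕ) : {w | G v w}.Finite := by
  obtain ⟨T, rfl, -, h⟩ := h
  exact h v

theorem IsLFTree.conn (h : IsLFTree G) (v w : ℕ) : ReflTransGen G v w := by
  obtain ⟨T, rfl, hT, -⟩ := h
  exact (SimpleGraph.reachable_iff_reflTransGen v w).1 (hT.connected v w)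

theorem IsLFTree.bridge (h : IsLFTree G) {v w : ℕ} (hvw : G v w) : w ∉ side G v w := by
  obtain ⟨T, rfl, hT, -⟩ := h
  intro hw
  have hb := SimpleGraph.isAcyclic_iff_forall_adj_isBridge.1 hT.isAcyclic hvw
  rw [SimpleGraph.isBridge_iff] at hb
  apply hb
  rw [SimpleGraph.reachable_iff_reflTransGen]
  refine ReflTransGen.mono ?_ _ _ hw
  rintro a b ⟨h1, h2, h3⟩
  rw [SimpleGraph.deleteEdges_adj]
  refine ⟨h1, ?_⟩
  simp only [Set.mem_singleton_iff, Sym2.eq_iff]
  tauto

theorem self_mem_side (v w : ℕ) : v ∈ side G v w := ReflTransGen.refl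

theorem cut_comm {v w a b : ℕ} (h : cut G v w a b) : cut G w v a b := ⟨h.1, h.2.2, h.2.1⟩

theorem IsLFTree.cover (h : IsLFTree G) (v w x : ℕ) : x ∈ side G v w ∨ x ∈ side G w v := by
  induction h.conn v x with
  | refl => exact Or.inl (self_mem_side v w)
  | @tail a b _ hab ih =>
    by_cases h1 : a = v ∧ b = w
    · rw [h1.2]; exact Or.inr (self_mem_side w v)
    by_cases h2 : a = w ∧ b = v
    · rw [h2.2]; exact Or.inl (self_mem_side v w)
    rcases ih with ih | ih
    · exact Or.inl (ReflTransGen.tail ih ⟨hab, h1, h2⟩)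
    · exact Or.inr (ReflTransGen.tail ih ⟨hab, h2, h1⟩)

theorem IsLFTree.side_sub (h : IsLFTree G) {v w x : ℕ} (hx : G v x) (hxw : x ≠ w) :
    side G x v ⊆ side G v w := by
  intro y hy
  have hv : v ∉ side G x v := h.bridge (h.symm hx)
  induction hy with
  | refl =>
    refine ReflTransGen.single ⟨hx, fun e => hxw e.2, fun e => h.ne hx e.2.symm⟩
  | @tail a b ha hab ih =>
    refine ReflTransGen.tail ih ⟨hab.1, fun e => hv ?_, fun e => hv ?_⟩
    · rw [e.1] at ha; exact ha
    · have := ReflTransGen.tail ha hab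
      rw [e.2] at this; exact this

theorem IsLFTree.side_dec (h : IsLFTree G) (v w : ℕ) :
    side G v w ⊆ {v} ∪ ⋃ x ∈ {x | G v x ∧ x ≠ w}, side G x v := by
  intro y hy
  induction hy with
  | refl => exact Or.inl rfl
  | @tail a b ha hab ih =>
    by_cases hb : b = v
    · exact Or.inl hb
    right
    rcases ih with ih | ih
    · have hav : a = v := ih
      subst hav
      exact Set.mem_biUnion (x := b) ⟨hab.1, fun e => hab.2.1 ⟨rfl, e⟩⟩ (self_mem_side b a)
    · simp only [Set.mem_iUnion] at ih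
      obtain ⟨x, hx, hax⟩ := ih
      refine Set.mem_biUnion (x := x) hx (ReflTransGen.tail hax ⟨hab.1, fun e => hb e.2, ?_⟩)
      intro e
      have hv : v ∉ side G x v := h.bridge (h.symm hx.1)
      rw [e.1] at hax
      exact hv hax

theorem IsLFTree.fin_of (h : IsLFTree G) {v w : ℕ}
    (hx : ∀ x, G v x → x ≠ w → (side G x v).Finite) : (side G v w).Finite := by
  refine Set.Finite.subset ?_ (h.side_dec v w)
  refine (Set.finite_singleton v).union (Set.Finite.biUnion ((h.fin v).subset fun x hx => hx.1) ?_)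
  exact fun x hx' => hx x hx'.1 hx'.2

theorem IsLFTree.not_both (h : IsLFTree G) (v w : ℕ) (h1 : (side G v w).Finite)
    (h2 : (side G w v).Finite) : False :=
  Set.infinite_univ ((h1.union h2).subset fun x _ => h.cover v w x)

theorem IsLFTree.out_unique (h : IsLFTree G) {v w x : ℕ} (h1 : out G v w) (h2 : out G v x) :
    w = x := by
  by_contra hne
  exact h.not_both v w h1.2 (h2.2.subset (h.side_sub h1.1 hne))

theorem IsLFTree.in_of_out (h : IsLFTree G) {v w x : ℕ} (h1 : out G v w) (hx : G v x)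
    (hne : x ≠ w) : out G x v :=
  ⟨h.symm hx, h1.2.subset (h.side_sub hx hne)⟩

theorem IsLFTree.tri (h : IsLFTree G) {v w : ℕ} (hvw : G v w) :
    core G v w ∨ out G v w ∨ out G w v := by
  by_cases h1 : (side G v w).Finite
  · exact Or.inr (Or.inl ⟨hvw, h1⟩)
  by_cases h2 : (side G w v).Finite
  · exact Or.inr (Or.inr ⟨h.symm hvw, h2⟩)
  exact Or.inl ⟨hvw, h1, h2⟩

theorem IsLFTree.core_symm (h : IsLFTree G) {v w : ℕ} (hc : core G v w) : core G w v :=
  ⟨h.symm hc.1, hc.2.2, hc.2.1⟩

theorem IsLFTree.core_two (h : IsLFTree G) {v w : ℕ} (hc : core G v w) :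
    ∃ x, x ≠ w ∧ core G v x := by
  by_contra hno
  push Not at hno
  apply hc.2.1
  refine h.fin_of fun x hx hxw => ?_
  by_contra hinf
  refine hno x hxw ⟨hx, ?_, hinf⟩
  exact hc.2.2.mono (h.side_sub hc.1 hxw.symm)

def leaf (G : Gr) (v : ℕ) : Prop := (∃ w, out G v w) ∧ ¬ ∃ x, out G x v

theorem IsLFTree.exists_leaf (h : IsLFTree G) {v w : ℕ} (ho : out G v w) : ∃ u, leaf G u := by
  induction hn : (side G v w).ncard using Nat.strong_induction_on generalizing v w with
  | _ n ih =>
    by_cases hx : ∃ x, out G x v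
    · obtain ⟨x, hx⟩ := hx
      have hxw : x ≠ w := by
        rintro rfl
        exact h.not_both v x ho.2 hx.2
      refine ih _ ?_ hx rfl
      rw [← hn]
      refine Set.ncard_lt_ncard ⟨h.side_sub (h.symm hx.1) hxw, fun hs => ?_⟩ ho.2
      exact h.bridge hx.1 (hs (self_mem_side v w))
    · exact ⟨v, ⟨w, ho⟩, hx⟩

theorem IsLFTree.out_le_one (h : IsLFTree G) (v : ℕ) : {w | out G v w}.encard ≤ 1 :=
  Set.encard_le_one_iff.2 fun _ _ ha hb => h.out_unique ha hb

theorem IsLFTree.ineq1 (h : IsLFTree G) (v : ℕ) :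
    {w | G v w}.encard ≤ {w | core G v w}.encard + {w | out G v w}.encard
      + {w | out G w v}.encard := by
  refine le_trans (Set.encard_le_encard (t := ({w | core G v w} ∪ {w | out G v w})
    ∪ {w | out G w v}) ?_) ?_
  · intro w hw
    rcases h.tri hw with h1 | h1 | h1
    · exact Or.inl (Or.inl h1)
    · exact Or.inl (Or.inr h1)
    · exact Or.inr h1
  · exact (Set.encard_union_le _ _).trans (by gcongr; exact Set.encard_union_le _ _)

theorem IsLFTree.ineq2 (h : IsLFTree G) (v : ℕ) (d : ℕ) (hd : {w | G v w}.encard ≤ d) :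
    {w | G v w}.encard + d * {w | out G v w}.encard
      ≤ d + {w | out G v w}.encard + {w | out G w v}.encard := by
  by_cases ho : ∃ w, out G v w
  · obtain ⟨w, hw⟩ := ho
    have e : {x | out G v x} = {w} := by
      ext x; exact ⟨fun hx => h.out_unique hx hw, fun hx => by rw [hx]; exact hw⟩
    rw [e, Set.encard_singleton, mul_one]
    have : {x | G v x}.encard ≤ 1 + {x | out G x v}.encard := by
      refine le_trans (Set.encard_le_encard (t := {w} ∪ {x | out G x v}) ?_) ?_
      · intro x hx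
        by_cases hxw : x = w
        · exact Or.inl hxw
        · exact Or.inr (h.in_of_out hw hx hxw)
      · simpa using Set.encard_union_le {w} {x | out G x v}
    calc _ ≤ (1 + {x | out G x v}.encard) + d := by gcongr
      _ = _ := by ring
  · have e : {x | out G v x} = ∅ := by
      ext x; exact ⟨fun hx => ho ⟨x, hx⟩, fun hx => hx.elim⟩
    rw [e]
    simp only [Set.encard_empty, mul_zero, add_zero]
    exact hd.trans le_self_add

theorem IsLFTree.ineq3 (h : IsLFTree G) (v : ℕ) (hd : {w | G v w}.encard ≤ 2) :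
    {w | out G w v}.encard + {w | w = v ∧ leaf G v}.encard ≤ {w | out G v w}.encard := by
  have three : ∀ a b c, G v a → G v b → G v c → a ≠ b → a ≠ c → b ≠ c → False := by
    intro a b c ha hb hc hab hac hbc
    have h3 : ({a, b, c} : Set ℕ).encard = 3 := Set.encard_eq_three.2 ⟨a, b, c, hab, hac, hbc, rfl⟩
    have : ({a, b, c} : Set ℕ).encard ≤ 2 := by
      refine le_trans (Set.encard_le_encard ?_) hd
      rintro x (rfl | rfl | rfl) <;> assumption
    rw [h3] at this
    exact absurd this (by decide)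
  by_cases hi : ∃ x, out G x v
  · obtain ⟨x, hx⟩ := hi
    have e : {w | w = v ∧ leaf G v} = ∅ := by
      ext w; exact ⟨fun hw => hw.2.2 ⟨x, hx⟩, fun hw => hw.elim⟩
    rw [e, Set.encard_empty, add_zero]
    obtain ⟨y, hy, hyx⟩ : ∃ y, G v y ∧ y ≠ x := by
      by_contra hno
      push Not at hno
      exact h.not_both v x (h.fin_of fun y hy hyx => (hyx (hno y hy)).elim) hx.2
    have hoy : out G v y := by
      refine ⟨hy, h.fin_of fun z hz hzy => ?_⟩
      by_cases hzx : z = x
      · rw [hzx]; exact hx.2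
      · exact (three x y z (h.symm hx.1) hy hz hyx.symm (Ne.symm hzx) (Ne.symm hzy)).elim
    have h1 : {w | out G w v}.encard ≤ 1 := by
      refine Set.encard_le_one_iff.2 fun a b ha hb => ?_
      by_contra hab
      have hay : a ≠ y := by rintro rfl; exact h.not_both v a hoy.2 ha.2
      have hby : b ≠ y := by rintro rfl; exact h.not_both v b hoy.2 hb.2
      exact three a b y (h.symm ha.1) (h.symm hb.1) hy hab hay hby
    exact h1.trans (Set.one_le_encard_iff_nonempty.2 ⟨y, hoy⟩)
  · have e : {w | out G w v} = ∅ := by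
      ext x; exact ⟨fun hx => hi ⟨x, hx⟩, fun hx => hx.elim⟩
    rw [e, Set.encard_empty, zero_add]
    by_cases hl : leaf G v
    · refine le_trans (Set.encard_le_one_iff.2 fun a b ha hb => ha.1.trans hb.1.symm) ?_
      exact Set.one_le_encard_iff_nonempty.2 hl.1
    · have e : {w | w = v ∧ leaf G v} = ∅ := by
        ext w; exact ⟨fun hw => hl hw.2, fun hw => hw.elim⟩
      rw [e]; simp

theorem IsLFTree.potential (h : IsLFTree G) {M : Type} [Group M] (p : ℕ → ℕ → M) :
    ∃ g : ℕ → M, ∀ v w, G v w → p v w * g v = p w v * g w := by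
  obtain ⟨T, rfl, hT, -⟩ := h
  let tr : ∀ {u v : ℕ}, T.Walk u v → M := fun q =>
    ((q.darts.map fun e => (p e.snd e.fst)⁻¹ * p e.fst e.snd).reverse).prod
  have htr : ∀ {u v w : ℕ} (q : T.Walk u v) (a : T.Adj v w),
      tr (q.concat a) = (p w v)⁻¹ * p v w * tr q := by
    intro u v w q a
    simp [tr, SimpleGraph.Walk.darts_concat]
  choose P hP _ using fun v => hT.existsUnique_path 0 v
  refine ⟨fun v => tr (P v), fun v w a => ?_⟩
  by_cases hv : v ∈ (P w).support
  · have := hT.isAcyclic.path_concat (hP v) (hP w) a hv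
    simp only []
    rw [this, htr]; group
  · have hw := hT.isAcyclic.mem_support_of_ne_mem_support_of_adj_of_isPath (hP v) (hP w) a hv
    have := hT.isAcyclic.path_concat (hP w) (hP v) a.symm hw
    simp only []
    rw [this, htr]; group

end Pool.Agent.H89.LE
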