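import Mathlib
import Pool.Agent.H89.LE1

set_option autoImplicit false

namespace Pool.Agent.H89.LE

open Relation

theorem exists_perm (n : ℕ) (a b : Fin (n + 2)) (hab : a ≠ b) :
    ∃ s : Equiv.Perm (Fin (n + 2)), ∀ c, (s c : ℕ) < 2 ↔ c = a ∨ c = b := by
  let s1 := Equiv.swap a (0 : Fin (n + 2))
  let s := Equiv.swap (s1 b) (1 : Fin (n + 2)) * s1
  have h1 : s1 a = 0 := Equiv.swap_apply_left _ _
  have hb0 : s1 b ≠ 0 := fun e => hab (s1.injective (h1.trans e.symm))
  have ha : s a = 0 := by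
    simp only [s, Equiv.Perm.mul_apply, h1]
    exact Equiv.swap_apply_of_ne_of_ne hb0.symm Fin.zero_ne_one
  have hb : s b = 1 := by
    simp only [s, Equiv.Perm.mul_apply]
    exact Equiv.swap_apply_left _ _
  refine ⟨s, fun c => ⟨fun hc => ?_, ?_⟩⟩
  · have : s c = 0 ∨ s c = 1 := by
      rcases Nat.lt_succ_iff_lt_or_eq.1 hc with h | h
      · left; exact Fin.ext (by rw [Fin.val_zero]; omega)
      · right; exact Fin.ext (by rw [Fin.val_one]; exact h)
    rcases this with h | h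
    · exact Or.inl (s.injective (h.trans ha.symm))
    · exact Or.inr (s.injective (h.trans hb.symm))
  · rintro (rfl | rfl)
    · rw [ha]; simp
    · rw [hb]; simp

def sel (k i c : ℕ) : Prop := c = i ∨ c + 1 = i ∨ (i = 0 ∧ c + 1 = k)

theorem exists_pp (n k i : ℕ) : ∃ s : Equiv.Perm (Fin (n + 2)),
    2 ≤ k → k ≤ n + 2 → i < k → ∀ c, ((s c : ℕ) < 2 ↔ sel k i c) := by
  by_cases h : 2 ≤ k ∧ k ≤ n + 2 ∧ i < k
  · obtain ⟨h1, h2, h3⟩ := h
    by_cases hi : i = 0
    · obtain ⟨s, hs⟩ := exists_perm n ⟨i, by omega⟩ ⟨k - 1, by omega⟩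
        (by simp only [ne_eq, Fin.mk.injEq]; omega)
      refine ⟨s, fun _ _ _ c => (hs c).trans ?_⟩
      simp only [sel, Fin.ext_iff]; omega
    · obtain ⟨s, hs⟩ := exists_perm n ⟨i, by omega⟩ ⟨i - 1, by omega⟩
        (by simp only [ne_eq, Fin.mk.injEq]; omega)
      refine ⟨s, fun _ _ _ c => (hs c).trans ?_⟩
      simp only [sel, Fin.ext_iff]; omega
  · exact ⟨1, fun h1 h2 h3 => (h ⟨h1, h2, h3⟩).elim⟩

noncomputable def pp (n k i : ℕ) : Equiv.Perm (Fin (n + 2)) := (exists_pp n k i).choose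

theorem pp_spec {n k i : ℕ} (h1 : 2 ≤ k) (h2 : k ≤ n + 2) (h3 : i < k) (c : Fin (n + 2)) :
    (pp n k i c : ℕ) < 2 ↔ sel k i c := (exists_pp n k i).choose_spec h1 h2 h3 c

abbrev Lab := ℕ → unitInterval

noncomputable def cd (G : Gr) (v : ℕ) : ℕ := {x | core G v x}.ncard

noncomputable def rk (G : Gr) (U : Lab) (v w : ℕ) : ℕ := {x | core G v x ∧ U x < U w}.ncard

noncomputable def pm (n : ℕ) (G : Gr) (U : Lab) (v w : ℕ) : Equiv.Perm (Fin (n + 2)) :=
  pp n (cd G v) (rk G U v w)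

def lift (n : ℕ) (G : Gr) (U : Lab) (x y : ℕ × Fin (n + 2)) : Prop :=
  G x.1 y.1 ∧ pm n G U x.1 y.1 x.2 = pm n G U y.1 x.1 y.2

def St (n : ℕ) (G : Gr) (U : Lab) (r : ℕ) (a : Fin (n + 2)) (v : ℕ) (b : Fin (n + 2)) : Prop :=
  ReflTransGen (lift n G U) (r, a) (v, b)

def LL (n : ℕ) (G : Gr) (U : Lab) (r : ℕ) (a : Fin (n + 2)) (v w : ℕ) : Prop :=
  core G v w ∧ ∃ b, St n G U r a v b ∧ (pm n G U v w b : ℕ) < 2

variable {G : Gr}

theorem IsLFTree.st (h : IsLFTree G) (n : ℕ) (U : Lab) :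
    ∃ g : ℕ → Equiv.Perm (Fin (n + 2)),
      (∀ v w, G v w → pm n G U v w * g v = pm n G U w v * g w) ∧
      ∀ r a v b, St n G U r a v b ↔ b = g v ((g r)⁻¹ a) := by
  obtain ⟨g, hg⟩ := h.potential (pm n G U)
  refine ⟨g, hg, fun r a v b => ⟨fun hs => ?_, ?_⟩⟩
  · have : ∀ y : ℕ × Fin (n + 2), ReflTransGen (lift n G U) (r, a) y →
        y.2 = g y.1 ((g r)⁻¹ a) := by
      intro y hy
      induction hy with
      | refl => simp
      | @tail x y _ hxy ih =>
        apply (pm n G U y.1 x.1).injective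
        rw [← hxy.2, ih, ← Equiv.Perm.mul_apply, hg _ _ hxy.1, Equiv.Perm.mul_apply]
    exact this (v, b) hs
  · rintro rfl
    induction h.conn r v with
    | refl =>
      have e : g r ((g r)⁻¹ a) = a := by simp
      rw [e]; exact ReflTransGen.refl
    | @tail x y _ hxy ih =>
      refine ReflTransGen.tail ih ⟨hxy, ?_⟩
      simp only []
      rw [← Equiv.Perm.mul_apply, hg _ _ hxy, Equiv.Perm.mul_apply]

theorem IsLFTree.reroot (h : IsLFTree G) (n : ℕ) (U : Lab) (r r' : ℕ) :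
    ∃ s : Equiv.Perm (Fin (n + 2)), ∀ a, LL n G U r a = LL n G U r' (s a) := by
  obtain ⟨g, -, hs⟩ := h.st n U
  refine ⟨g r' * (g r)⁻¹, fun a => ?_⟩
  funext v w
  simp [LL, hs]

theorem IsLFTree.LL_symm (h : IsLFTree G) {n : ℕ} {U : Lab} {r : ℕ} {a : Fin (n + 2)} {v w : ℕ}
    (hL : LL n G U r a v w) : LL n G U r a w v := by
  obtain ⟨hc, b, hb, hlt⟩ := hL
  refine ⟨h.core_symm hc, (pm n G U w v)⁻¹ (pm n G U v w b), ?_, by simpa using hlt⟩
  exact ReflTransGen.tail hb ⟨hc.1, by simp⟩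

theorem rank_bij (C : Set ℕ) (hC : C.Finite) (U : Lab) (hU : Function.Injective U) :
    Set.BijOn (fun w => {x | x ∈ C ∧ U x < U w}.ncard) C (Set.Iio C.ncard) := by
  have hlt : ∀ w ∈ C, ∀ w' ∈ C, U w < U w' →
      {x | x ∈ C ∧ U x < U w}.ncard < {x | x ∈ C ∧ U x < U w'}.ncard := by
    intro w hw w' _ hww
    refine Set.ncard_lt_ncard ⟨fun x hx => ⟨hx.1, hx.2.trans hww⟩, fun hs => ?_⟩
      (hC.subset fun x hx => hx.1)
    exact lt_irrefl _ (hs (show w ∈ {x | x ∈ C ∧ U x < U w'} from ⟨hw, hww⟩)).2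
  have hm : Set.MapsTo (fun w => {x | x ∈ C ∧ U x < U w}.ncard) C (Set.Iio C.ncard) := by
    intro w hw
    refine Set.ncard_lt_ncard ⟨fun x hx => hx.1, fun hs => ?_⟩ hC
    exact lt_irrefl _ (hs hw).2
  have hi : Set.InjOn (fun w => {x | x ∈ C ∧ U x < U w}.ncard) C := by
    intro w hw w' hw' e
    rcases lt_trichotomy (U w) (U w') with h | h | h
    · exact absurd e (hlt w hw w' hw' h).ne
    · exact hU h
    · exact absurd e (hlt w' hw' w hw h).ne'
  refine ⟨hm, hi, ?_⟩
  have := Set.eq_of_subset_of_ncard_le hm.image_subset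
    (by rw [hi.ncard_image]; simp) (Set.finite_Iio _)
  exact this.ge

theorem IsLFTree.count (h : IsLFTree G) {n : ℕ} {U : Lab} (hU : Function.Injective U) (v : ℕ)
    (hd : {w | G v w}.encard ≤ (n + 2 : ℕ)) (b : Fin (n + 2)) :
    {w | core G v w ∧ (pm n G U v w b : ℕ) < 2}.encard = if (b : ℕ) < cd G v then 2 else 0 := by
  have hC : {x | core G v x}.Finite := (h.fin v).subset fun x hx => hx.1
  have hB := rank_bij _ hC U hU
  have hk : cd G v ≤ n + 2 := by
    have : {x | core G v x}.encard ≤ (n + 2 : ℕ) :=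
      le_trans (Set.encard_le_encard fun x hx => hx.1) hd
    rw [← hC.cast_ncard_eq] at this
    exact_mod_cast this
  by_cases h0 : ∃ w, core G v w
  · obtain ⟨w, hw⟩ := h0
    obtain ⟨x, hx, hx'⟩ := h.core_two hw
    have h2 : 2 ≤ cd G v := by
      have := (Set.one_lt_ncard hC).2 ⟨x, hx', w, hw, hx⟩
      exact this
    have e : {w | core G v w ∧ (pm n G U v w b : ℕ) < 2}
        = {w | core G v w ∧ sel (cd G v) (rk G U v w) b} := by
      ext y
      exact and_congr_right fun hy => pp_spec h2 hk (hB.1 hy) b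
    rw [e]
    have e2 : (fun w => rk G U v w) '' {w | core G v w ∧ sel (cd G v) (rk G U v w) b}
        = {i | i < cd G v ∧ sel (cd G v) i b} := by
      ext i
      constructor
      · rintro ⟨y, hy, rfl⟩
        exact ⟨hB.1 hy.1, hy.2⟩
      · rintro ⟨hi, hs⟩
        obtain ⟨y, hy, rfl⟩ := hB.2.2 hi
        exact ⟨y, ⟨hy, hs⟩, rfl⟩
    have hinj : Set.InjOn (fun w => rk G U v w)
        {w | core G v w ∧ sel (cd G v) (rk G U v w) b} := hB.2.1.mono fun y hy => hy.1
    rw [← hinj.encard_image, e2]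
    split_ifs with hb
    · by_cases hb1 : (b : ℕ) + 1 = cd G v
      · refine Set.encard_eq_two.2 ⟨b, 0, by omega, ?_⟩
        ext i; simp only [sel, Set.mem_setOf_eq, Set.mem_insert_iff, Set.mem_singleton_iff]; omega
      · refine Set.encard_eq_two.2 ⟨b, b + 1, by omega, ?_⟩
        ext i; simp only [sel, Set.mem_setOf_eq, Set.mem_insert_iff, Set.mem_singleton_iff]; omega
    · rw [Set.encard_eq_zero]
      ext i; simp only [sel, Set.mem_setOf_eq, Set.mem_empty_iff_false, iff_false]; omega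
  · have e : {x | core G v x} = ∅ := by
      ext x; exact ⟨fun hx => h0 ⟨x, hx⟩, fun hx => hx.elim⟩
    have : cd G v = 0 := by rw [cd, e]; simp
    rw [this, if_neg (by omega), Set.encard_eq_zero]
    ext x; exact ⟨fun hx => h0 ⟨x, hx.1⟩, fun hx => hx.elim⟩

theorem IsLFTree.LL_deg (h : IsLFTree G) {n : ℕ} {U : Lab} (hU : Function.Injective U)
    (r : ℕ) (a : Fin (n + 2)) (v : ℕ) (hd : {w | G v w}.encard ≤ (n + 2 : ℕ)) :
    {w | LL n G U r a v w}.encard = 0 ∨ {w | LL n G U r a v w}.encard = 2 := by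
  obtain ⟨g, -, hs⟩ := h.st n U
  have e : {w | LL n G U r a v w}
      = {w | core G v w ∧ (pm n G U v w (g v ((g r)⁻¹ a)) : ℕ) < 2} := by
    ext w; simp [LL, hs]
  rw [e, h.count hU v hd]
  split_ifs <;> simp

theorem IsLFTree.LL_root (h : IsLFTree G) {n : ℕ} {U : Lab} (hU : Function.Injective U)
    (r : ℕ) (a : Fin (n + 2)) (hd : {w | G r w}.encard ≤ (n + 2 : ℕ)) :
    (∃ w, LL n G U r a r w) ↔ (a : ℕ) < cd G r := by
  obtain ⟨g, -, hs⟩ := h.st n U
  have e : {w | LL n G U r a r w} = {w | core G r w ∧ (pm n G U r w a : ℕ) < 2} := by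
    ext w; simp [LL, hs]
  have := h.count hU r hd a
  rw [← e] at this
  split_ifs at this with hb
  · refine iff_of_true ?_ hb
    exact Set.nonempty_of_encard_ne_zero (s := {w | LL n G U r a r w}) (by rw [this]; simp)
  · refine iff_of_false ?_ hb
    rw [Set.encard_eq_zero] at this
    rintro ⟨w, hw⟩
    exact (this ▸ (show w ∈ {w | LL n G U r a r w} from hw) : w ∈ (∅ : Set ℕ))

/-! equivariance -/

def rl {K : Type} (s : Equiv.Perm ℕ) (G : ℕ → ℕ → K) : ℕ → ℕ → K := fun a b => G (s a) (s b)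

theorem rtg_equiv {α : Type} (e : α ≃ α) (r : α → α → Prop) (a b : α) :
    ReflTransGen (fun x y => r (e x) (e y)) a b ↔ ReflTransGen r (e a) (e b) := by
  constructor
  · intro h
    induction h with
    | refl => exact ReflTransGen.refl
    | tail _ h2 ih => exact ih.tail h2
  · intro h
    have : ∀ c, ReflTransGen r (e a) c → ReflTransGen (fun x y => r (e x) (e y)) a (e.symm c) := by
      intro c hc
      induction hc with
      | refl => rw [e.symm_apply_apply]
      | tail _ h2 ih => exact ih.tail (by simpa using h2)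
    simpa using this _ h

variable (s : Equiv.Perm ℕ) (G)

theorem side_rl (v w : ℕ) : side (rl s G) v w = s ⁻¹' side G (s v) (s w) := by
  ext x
  simp only [side, Set.mem_setOf_eq, Set.mem_preimage]
  rw [← rtg_equiv s]
  have : cut (rl s G) v w = fun x y => cut G (s v) (s w) (s x) (s y) := by
    funext x y; simp [cut, rl]
  rw [this]

theorem fin_pre (A : Set ℕ) : (s ⁻¹' A).Finite ↔ A.Finite :=
  ⟨fun h => h.of_preimage s.surjective, fun h => h.preimage s.injective.injOn⟩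

theorem out_rl (v w : ℕ) : out (rl s G) v w ↔ out G (s v) (s w) := by
  simp only [out, side_rl, fin_pre]; rfl

theorem core_rl (v w : ℕ) : core (rl s G) v w ↔ core G (s v) (s w) := by
  simp only [core, side_rl, Set.Infinite, fin_pre]; rfl

theorem leaf_rl (v : ℕ) : leaf (rl s G) v ↔ leaf G (s v) := by
  simp only [leaf, out_rl]
  rw [s.exists_congr_left, s.exists_congr_left (p := fun x => out G (s x) (s v))]
  simp

theorem ncard_pre (A : Set ℕ) : (s ⁻¹' A).ncard = A.ncard := by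
  rw [← s.image_symm_eq_preimage, Set.ncard_image_of_injective _ s.symm.injective]

theorem encard_pre (A : Set ℕ) : (s ⁻¹' A).encard = A.encard := by
  rw [← s.image_symm_eq_preimage, s.symm.injective.encard_image]

theorem pm_rl (n : ℕ) (U : Lab) (v w : ℕ) :
    pm n (rl s G) (fun i => U (s i)) v w = pm n G U (s v) (s w) := by
  have e1 : cd (rl s G) v = cd G (s v) := by
    rw [cd, cd, ← ncard_pre s {x | core G (s v) x}]; simp only [core_rl]; rfl
  have e2 : rk (rl s G) (fun i => U (s i)) v w = rk G U (s v) (s w) := by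
    rw [rk, rk, ← ncard_pre s {x | core G (s v) x ∧ U x < U (s w)}]; simp only [core_rl]; rfl
  rw [pm, pm, e1, e2]

theorem LL_rl (n : ℕ) (U : Lab) (r : ℕ) (a : Fin (n + 2)) :
    LL n (rl s G) (fun i => U (s i)) r a = rl s (LL n G U (s r) a) := by
  funext v w
  have : ∀ b, St n (rl s G) (fun i => U (s i)) r a v b ↔ St n G U (s r) a (s v) b := by
    intro b
    have e : lift n (rl s G) (fun i => U (s i)) = fun x y =>
        lift n G U ((s.prodCongr (Equiv.refl _)) x) ((s.prodCongr (Equiv.refl _)) y) := by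
      funext x y; simp only [lift, pm_rl]; rfl
    rw [St, e, rtg_equiv]; rfl
  simp only [LL, rl, core_rl, pm_rl, this]

end Pool.Agent.H89.LE
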