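import Mathlib
import Pool.Agent.H89.LE2

set_option autoImplicit false

namespace Pool.Agent.H89.LE

open Relation MeasureTheory ProbabilityTheory
open scoped ENNReal

section meas
variable {X : Type} [MeasurableSpace X]

def itr {α : Type} (r : α → α → Prop) (a : α) : ℕ → α → Prop
  | 0, b => a = b
  | n + 1, b => ∃ c, itr r a n c ∧ r c b

theorem rtg_iff {α : Type} (r : α → α → Prop) (a b : α) :
    ReflTransGen r a b ↔ ∃ n, itr r a n b := by
  constructor
  · intro h
    induction h with
    | refl => exact ⟨0, rfl⟩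
    | tail _ h2 ih => obtain ⟨n, hn⟩ := ih; exact ⟨n + 1, _, hn, h2⟩
  · rintro ⟨n, hn⟩
    induction n generalizing b with
    | zero => cases hn; exact ReflTransGen.refl
    | succ n ih => obtain ⟨c, h1, h2⟩ := hn; exact (ih c h1).tail h2

theorem meas_rtg {α : Type} [Countable α] (r : X → α → α → Prop)
    (hr : ∀ a b, Measurable fun x => r x a b) (a b : α) :
    Measurable fun x => ReflTransGen (r x) a b := by
  simp only [rtg_iff]
  refine Measurable.exists fun n => ?_
  induction n generalizing b with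
  | zero => exact measurable_const
  | succ n ih => exact Measurable.exists fun c => (ih c).and (hr c b)

theorem meas_enc (p : X → ℕ → Prop) (hp : ∀ y, Measurable fun x => p x y) :
    Measurable fun x => {y | p x y}.encard :=
  measurable_encard.comp (measurable_set_iff.2 hp)

theorem meas_nc (p : X → ℕ → Prop) (hp : ∀ y, Measurable fun x => p x y) :
    Measurable fun x => {y | p x y}.ncard :=
  measurable_ncard.comp (measurable_set_iff.2 hp)

theorem meas_fin (p : X → ℕ → Prop) (hp : ∀ y, Measurable fun x => p x y) :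
    Measurable fun x => {y | p x y}.Finite := by
  simp only [← Set.encard_lt_top_iff]
  exact (Measurable.of_discrete (f := fun e : ℕ∞ => e < ⊤)).comp (meas_enc p hp)

end meas

theorem meas_adj (v w : ℕ) : Measurable fun G : Gr => G v w :=
  (measurable_pi_apply w).comp (measurable_pi_apply v)

theorem meas_sidefin (v w : ℕ) : Measurable fun G : Gr => (side G v w).Finite :=
  meas_fin _ fun y => meas_rtg (fun G => cut G v w)
    (fun a b => (meas_adj a b).and measurable_const) v y

theorem meas_out (v w : ℕ) : Measurable fun G : Gr => out G v w :=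
  (meas_adj v w).and (meas_sidefin v w)

theorem meas_core (v w : ℕ) : Measurable fun G : Gr => core G v w :=
  (meas_adj v w).and ((meas_sidefin v w).not.and (meas_sidefin w v).not)

theorem meas_leaf (v : ℕ) : Measurable fun G : Gr => leaf G v :=
  (Measurable.exists fun w => meas_out v w).and (Measurable.exists fun w => meas_out w v).not

theorem meas_pm (n v w : ℕ) (b : Fin (n + 2)) :
    Measurable fun y : Gr × Lab => pm n y.1 y.2 v w b := by
  have h1 : Measurable fun y : Gr × Lab => cd y.1 v :=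
    meas_nc _ fun x => (meas_core v x).comp measurable_fst
  have h2 : Measurable fun y : Gr × Lab => rk y.1 y.2 v w := by
    refine meas_nc _ fun x => ((meas_core v x).comp measurable_fst).and ?_
    exact measurableSet_setOfPred.1 (measurableSet_lt (by fun_prop) (by fun_prop))
  exact (Measurable.of_discrete (f := fun p : ℕ × ℕ => pp n p.1 p.2 b)).comp (h1.prodMk h2)

theorem meas_LL (n r : ℕ) (a : Fin (n + 2)) (v w : ℕ) :
    Measurable fun y : Gr × Lab => LL n y.1 y.2 r a v w := by
  refine ((meas_core v w).comp measurable_fst).and (Measurable.exists fun b => ?_)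
  refine Measurable.and ?_ ?_
  · refine meas_rtg (fun y : Gr × Lab => lift n y.1 y.2) (fun p q => ?_) _ _
    refine ((meas_adj _ _).comp measurable_fst).and ?_
    exact (Measurable.of_discrete (f := fun p : Fin (n + 2) × Fin (n + 2) => p.1 = p.2)).comp
      ((meas_pm n _ _ _).prodMk (meas_pm n _ _ _))
  · exact (Measurable.of_discrete (f := fun p : Fin (n + 2) => (p : ℕ) < 2)).comp
      (meas_pm n _ _ _)

abbrev Cf := ℕ → ℕ → Prop × Prop

def MM (n : ℕ) (G : Gr) (U : Lab) (r : ℕ) (a : Fin (n + 2)) : Cf :=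
  fun v w => (G v w, LL n G U r a v w)

theorem meas_MM (n r : ℕ) (a : Fin (n + 2)) :
    Measurable fun y : Gr × Lab => MM n y.1 y.2 r a :=
  measurable_pi_lambda _ fun v => measurable_pi_lambda _ fun w =>
    ((meas_adj v w).comp measurable_fst).prodMk (meas_LL n r a v w)

theorem MM_rl (s : Equiv.Perm ℕ) (n : ℕ) (G : Gr) (U : Lab) (r : ℕ) (a : Fin (n + 2)) :
    MM n (rl s G) (fun i => U (s i)) r a = rl s (MM n G U (s r) a) := by
  funext v w
  simp only [MM, LL_rl]; rfl

noncomputable def PP : Measure Lab := Measure.infinitePi fun _ => volume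

instance : IsProbabilityMeasure PP := by unfold PP; infer_instance

theorem PP_map (s : Equiv.Perm ℕ) : PP.map (fun U i => U (s i)) = PP := by
  have h0 : iIndepFun (fun i (U : Lab) => U i) PP :=
    iIndepFun_infinitePi (X := fun _ x => x) (by fun_prop)
  have h1 : iIndepFun (fun i (U : Lab) => U (s i)) PP := h0.precomp s.injective
  rw [iIndepFun_iff_map_fun_eq_infinitePi_map (by fun_prop)] at h1
  rw [h1, PP]
  congr 1
  funext i
  exact Measure.infinitePi_map_eval _ _

theorem PP_inj : ∀ᵐ U ∂PP, Function.Injective U := by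
  have : ∀ᵐ U ∂PP, ∀ i j, i ≠ j → U i ≠ U j := by
    refine ae_all_iff.2 fun i => ae_all_iff.2 fun j => ?_
    by_cases hij : i = j
    · exact Filter.Eventually.of_forall fun U h => (h hij).elim
    have h1 := Measure.infinitePi_map_eval_prod
      (P := fun _ : ℕ => (volume : Measure unitInterval)) hij
    have hm : MeasurableSet {p : unitInterval × unitInterval | p.1 ≠ p.2} :=
      (measurableSet_eq_fun measurable_fst measurable_snd).compl
    have h2 : ∀ᵐ p ∂((volume : Measure unitInterval).prod (volume : Measure unitInterval)),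
        p.1 ≠ p.2 := by
      rw [Measure.ae_prod_iff_ae_ae hm]
      refine Filter.Eventually.of_forall fun x => ?_
      rw [ae_iff]
      simp
    rw [← h1] at h2
    exact (ae_of_ae_map (by fun_prop) h2).mono fun U h _ => h
  filter_upwards [this] with U hU i j e
  by_contra hne
  exact hU i j hne e

noncomputable def TT (n : ℕ) (G : Gr) (r : ℕ) (f : Cf → ℝ≥0∞) : ℝ≥0∞ :=
  ((n + 2 : ℕ) : ℝ≥0∞)⁻¹ * ∫⁻ U, ∑ a, f (MM n G U r a) ∂PP

theorem TT_reroot {G : Gr} (h : IsLFTree G) (n r r' : ℕ) (f : Cf → ℝ≥0∞) :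
    TT n G r f = TT n G r' f := by
  unfold TT
  congr 2
  funext U
  obtain ⟨s, hs⟩ := h.reroot n U r r'
  rw [← Equiv.sum_comp s fun a => f (MM n G U r' a)]
  refine Finset.sum_congr rfl fun a _ => ?_
  unfold MM
  rw [hs]

theorem meas_sec (n : ℕ) (G : Gr) (r : ℕ) (a : Fin (n + 2)) :
    Measurable fun U : Lab => MM n G U r a :=
  (meas_MM n r a).comp (measurable_const.prodMk measurable_id)

theorem TT_rl (s : Equiv.Perm ℕ) (n : ℕ) (G : Gr) (r : ℕ) {f : Cf → ℝ≥0∞} (hf : Measurable f) :
    TT n (rl s G) r f = TT n G (s r) fun H => f (rl s H) := by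
  unfold TT
  congr 1
  conv_lhs => rw [← PP_map s]
  have hm : Measurable fun U : Lab => ∑ a, f (MM n (rl s G) U r a) :=
    Finset.measurable_sum _ fun a _ => hf.comp (meas_sec n _ r a)
  rw [lintegral_map hm (by fun_prop)]
  simp only [MM_rl]

theorem TT_tsum (n : ℕ) (G : Gr) (r : ℕ) {f : ℕ → Cf → ℝ≥0∞} (hf : ∀ v, Measurable (f v)) :
    TT n G r (fun H => ∑' v, f v H) = ∑' v, TT n G r (f v) := by
  unfold TT
  have hm : ∀ v, Measurable fun U : Lab => ∑ a, f v (MM n G U r a) := fun v =>
    Finset.measurable_sum _ fun a _ => (hf v).comp (meas_sec n _ r a)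
  rw [ENNReal.tsum_mul_left, ← lintegral_tsum fun v => (hm v).aemeasurable]
  congr 2
  funext U
  exact (Summable.tsum_finsetSum fun _ _ => ENNReal.summable).symm

theorem meas_TT (n r : ℕ) {f : Cf → ℝ≥0∞} (hf : Measurable f) :
    Measurable fun G => TT n G r f := by
  unfold TT
  refine Measurable.const_mul ?_ _
  exact Measurable.lintegral_prod_right' (f := fun y : Gr × Lab => ∑ a, f (MM n y.1 y.2 r a))
    (Finset.measurable_sum _ fun a _ => hf.comp (meas_MM n r a))

def Phi (n : ℕ) (a : Fin (n + 2)) (z : (Gr × ℕ) × Lab) : Cf × ℕ :=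
  (MM n z.1.1 z.2 z.1.2 a, z.1.2)

theorem meas_Phi (n : ℕ) (a : Fin (n + 2)) : Measurable (Phi n a) := by
  refine Measurable.prodMk ?_ (by fun_prop)
  have : Measurable fun y : (Gr × Lab) × ℕ => MM n y.1.1 y.1.2 y.2 a :=
    measurable_from_prod_countable_left fun r => meas_MM n r a
  exact this.comp (f := fun z : (Gr × ℕ) × Lab => ((z.1.1, z.2), z.1.2)) (by fun_prop)

noncomputable def nu (n : ℕ) (μ : Measure (Gr × ℕ)) : Measure (Cf × ℕ) :=
  ((n + 2 : ℕ) : ℝ≥0∞)⁻¹ • ∑ a, (μ.prod PP).map (Phi n a)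

theorem lint (n : ℕ) (μ : Measure (Gr × ℕ)) [SFinite μ] {f : Cf × ℕ → ℝ≥0∞} (hf : Measurable f) :
    ∫⁻ y, f y ∂(nu n μ) = ∫⁻ x, TT n x.1 x.2 (fun H => f (H, x.2)) ∂μ := by
  unfold nu TT
  rw [lintegral_smul_measure, lintegral_finsetSum_measure, lintegral_const_mul' _ _ (by simp),
    smul_eq_mul]
  congr 1
  simp only [fun a => lintegral_map (μ := μ.prod PP) hf (meas_Phi n a)]
  have hm : ∀ a, Measurable fun z => f (Phi n a z) := fun a => hf.comp (meas_Phi n a)
  rw [← lintegral_finsetSum _ fun a _ => hm a, lintegral_prod _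
    (Finset.measurable_sum _ fun a _ => hm a).aemeasurable]
  rfl

theorem TT_const (n : ℕ) (G : Gr) (r : ℕ) (g : Gr → ℝ≥0∞) :
    TT n G r (fun H => g fun v w => (H v w).1) = g G := by
  unfold TT MM
  simp only [Finset.sum_const, Finset.card_univ, Fintype.card_fin, lintegral_const, measure_univ,
    mul_one, nsmul_eq_mul]
  rw [← mul_assoc, ENNReal.inv_mul_cancel (by simp) (by simp), one_mul]

def fg (y : Cf × ℕ) : Gr × ℕ := (fun v w => (y.1 v w).1, y.2)

theorem meas_fg : Measurable fg := by unfold fg; fun_prop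

theorem nu_map (n : ℕ) (μ : Measure (Gr × ℕ)) [SFinite μ] : (nu n μ).map fg = μ := by
  refine Measure.ext_of_lintegral _ fun f hf => ?_
  rw [lintegral_map hf meas_fg, lint n μ (f := fun a => f (fg a)) (hf.comp meas_fg)]
  congr 1
  funext x
  exact TT_const n x.1 x.2 fun G => f (G, x.2)

def Unim {K : Type} [MeasurableSpace K] (μ : Measure ((ℕ → ℕ → K) × ℕ)) : Prop :=
  ∀ F : (ℕ → ℕ → K) × ℕ × ℕ → ℝ≥0∞, Measurable F →
    (∀ (s : Equiv.Perm ℕ) G u v, F (rl s G, u, v) = F (G, s u, s v)) →
    ∫⁻ x, ∑' v, F (x.1, x.2, v) ∂μ = ∫⁻ x, ∑' v, F (x.1, v, x.2) ∂μ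

theorem nu_unim (n : ℕ) (μ : Measure (Gr × ℕ)) [SFinite μ] (ht : ∀ᵐ x ∂μ, IsLFTree x.1)
    (hμ : Unim μ) : Unim (nu n μ) := by
  intro F hF hinv
  have hs : ∀ u v : ℕ, Measurable fun H : Cf => F (H, u, v) := fun u v => by fun_prop
  rw [lint n μ (Measurable.ennreal_tsum fun v => by fun_prop),
    lint n μ (Measurable.ennreal_tsum fun v => by fun_prop)]
  have := hμ (fun z => TT n z.1 z.2.1 fun H => F (H, z.2.1, z.2.2))
    (measurable_from_prod_countable_left fun p => meas_TT n p.1 (hs p.1 p.2))
    (fun s G u v => by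
      simp only []
      rw [TT_rl s n G u (hs u v)]
      simp only [hinv])
  simp only [] at this ⊢
  calc _ = ∫⁻ x, ∑' v, TT n x.1 x.2 (fun H => F (H, x.2, v)) ∂μ := by
        congr 1; funext x; exact TT_tsum n x.1 x.2 fun v => hs x.2 v
    _ = _ := this
    _ = _ := by
        refine lintegral_congr_ae ?_
        filter_upwards [ht] with x hx
        rw [TT_tsum n x.1 x.2 fun v => hs v x.2]
        exact tsum_congr fun v => TT_reroot hx n v x.2 _

end Pool.Agent.H89.LE
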