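import Mathlib
import Pool.Agent.H89.LE3

set_option autoImplicit false

namespace Pool.Agent.H89.LE

open Relation MeasureTheory ProbabilityTheory
open scoped ENNReal

theorem tsum_ind (p : ℕ → Prop) :
    ∑' v, Set.indicator {v | p v} (fun _ => (1 : ℝ≥0∞)) v = ({v | p v}.encard : ℝ≥0∞) := by
  rw [← tsum_subtype, ENNReal.tsum_set_one]

theorem meas_cnt (Q : Gr → ℕ → ℕ → Prop) (hQ : ∀ u v, Measurable fun G => Q G u v) :
    Measurable fun x : Gr × ℕ => ({v | Q x.1 x.2 v}.encard : ℝ≥0∞) :=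
  (Measurable.of_discrete (f := fun e : ℕ∞ => (e : ℝ≥0∞))).comp
    (measurable_from_prod_countable_left fun u => meas_enc _ fun v => hQ u v)

theorem mtp {μ : Measure (Gr × ℕ)} (hμ : Unim μ) (Q : Gr → ℕ → ℕ → Prop)
    (hQ : ∀ u v, Measurable fun G => Q G u v)
    (hinv : ∀ (s : Equiv.Perm ℕ) G u v, Q (rl s G) u v ↔ Q G (s u) (s v)) :
    ∫⁻ x, ({v | Q x.1 x.2 v}.encard : ℝ≥0∞) ∂μ = ∫⁻ x, ({v | Q x.1 v x.2}.encard : ℝ≥0∞) ∂μ := by
  have := hμ (Set.indicator {z | Q z.1 z.2.1 z.2.2} fun _ => 1)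
    (measurable_const.indicator (measurableSet_setOfPred.2
      (measurable_from_prod_countable_left fun p => hQ p.1 p.2)))
    (fun s G u v => by
      classical
      simp only [Set.indicator_apply, Set.mem_setOf_eq, hinv])
  simp only [← tsum_ind]
  exact this

theorem ae_all {μ : Measure (Gr × ℕ)} (hμ : Unim μ) (Q : Gr → ℕ → Prop)
    (hQ : ∀ v, Measurable fun G => Q G v)
    (hinv : ∀ (s : Equiv.Perm ℕ) G v, Q (rl s G) v ↔ Q G (s v))
    (h0 : ∀ᵐ x ∂μ, ¬ Q x.1 x.2) : ∀ᵐ x ∂μ, ∀ v, ¬ Q x.1 v := by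
  have h1 := mtp hμ (fun G _ v => Q G v) (fun _ v => hQ v) (fun s G _ v => hinv s G v)
  have h2 : ∫⁻ x, ({_v : ℕ | Q x.1 x.2}.encard : ℝ≥0∞) ∂μ = 0 := by
    rw [← lintegral_zero (μ := μ)]
    refine lintegral_congr_ae ?_
    filter_upwards [h0] with x hx
    simp [hx]
  rw [h2, lintegral_eq_zero_iff (meas_cnt (fun G _ v => Q G v) fun _ v => hQ v)] at h1
  filter_upwards [h1] with x hx v hv
  simp only [Pi.zero_apply, ENat.toENNReal_eq_zero, Set.encard_eq_zero] at hx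
  exact (hx ▸ (show v ∈ {v | Q x.1 v} from hv) : v ∈ (∅ : Set ℕ))

def IsLE (H : Cf) : Prop :=
  (∀ v w, (H v w).2 → (H v w).1) ∧ (∀ v w, (H v w).2 → (H w v).2) ∧
    ∀ v, {w | (H v w).2}.encard = 0 ∨ {w | (H v w).2}.encard = 2

theorem meas_IsLE : Measurable IsLE := by
  have h1 : ∀ v w, Measurable fun H : Cf => (H v w).1 := fun v w => by fun_prop
  have h2 : ∀ v w, Measurable fun H : Cf => (H v w).2 := fun v w => by fun_prop
  refine (Measurable.forall fun v => Measurable.forall fun w => (h2 v w).imp (h1 v w)).and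
    ((Measurable.forall fun v => Measurable.forall fun w => (h2 v w).imp (h2 w v)).and
      (Measurable.forall fun v => ?_))
  exact (Measurable.of_discrete (f := fun e : ℕ∞ => e = 0 ∨ e = 2)).comp (meas_enc _ (h2 v))

theorem nu_LE (n : ℕ) (μ : Measure (Gr × ℕ)) [SFinite μ] (ht : ∀ᵐ x ∂μ, IsLFTree x.1)
    (hd : ∀ᵐ x ∂μ, ∀ v, {w | x.1 v w}.encard ≤ (n + 2 : ℕ)) : ∀ᵐ y ∂(nu n μ), IsLE y.1 := by
  have hm : MeasurableSet {y : Cf × ℕ | ¬ IsLE y.1} :=
    measurableSet_setOfPred.2 (meas_IsLE.comp measurable_fst).not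
  rw [ae_iff, ← lintegral_indicator_one hm, lint n μ (measurable_one.indicator hm),
    ← lintegral_zero (μ := μ)]
  refine lintegral_congr_ae ?_
  filter_upwards [ht, hd] with x hx hdx
  unfold TT
  rw [mul_eq_zero]; right
  rw [← lintegral_zero (μ := PP)]
  refine lintegral_congr_ae ?_
  filter_upwards [PP_inj] with U hU
  refine Finset.sum_eq_zero fun a _ => Set.indicator_of_notMem ?_ _
  simp only [Set.mem_setOf_eq, not_not]
  exact ⟨fun v w h => h.1.1, fun v w h => hx.LL_symm h, fun v => hx.LL_deg hU x.2 a v (hdx v)⟩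

theorem nu_dens (n : ℕ) (μ : Measure (Gr × ℕ)) [SFinite μ] (ht : ∀ᵐ x ∂μ, IsLFTree x.1)
    (hd : ∀ᵐ x ∂μ, ∀ v, {w | x.1 v w}.encard ≤ (n + 2 : ℕ)) :
    nu n μ {y | ∃ w, (y.1 y.2 w).2}
      = ((n + 2 : ℕ) : ℝ≥0∞)⁻¹ * ∫⁻ x, ({w | core x.1 x.2 w}.encard : ℝ≥0∞) ∂μ := by
  have hm : MeasurableSet {y : Cf × ℕ | ∃ w, (y.1 y.2 w).2} :=
    measurableSet_setOfPred.2 (measurable_from_prod_countable_left fun v =>
      Measurable.exists fun w => by fun_prop)
  rw [← lintegral_indicator_one hm, lint n μ (measurable_one.indicator hm),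
    ← lintegral_const_mul' _ _ (by simp)]
  refine lintegral_congr_ae ?_
  filter_upwards [ht, hd] with x hx hdx
  unfold TT
  congr 1
  have hC : {w | core x.1 x.2 w}.Finite := (hx.fin x.2).subset fun w hw => hw.1
  have hk : cd x.1 x.2 ≤ n + 2 := by
    have : {w | core x.1 x.2 w}.encard ≤ (n + 2 : ℕ) :=
      le_trans (Set.encard_le_encard fun w hw => hw.1) (hdx x.2)
    rw [← hC.cast_ncard_eq] at this
    exact_mod_cast this
  calc _ = ∫⁻ _U, ((cd x.1 x.2 : ℕ) : ℝ≥0∞) ∂PP := by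
        refine lintegral_congr_ae ?_
        filter_upwards [PP_inj] with U hU
        have e : ∀ a : Fin (n + 2), Set.indicator {y : Cf × ℕ | ∃ w, (y.1 y.2 w).2}
            (1 : Cf × ℕ → ℝ≥0∞) (MM n x.1 U x.2 a, x.2)
            = if (a : ℕ) < cd x.1 x.2 then 1 else 0 := by
          intro a
          have := hx.LL_root hU x.2 a (hdx x.2)
          split_ifs with ha
          · rw [Set.indicator_of_mem (show (MM n x.1 U x.2 a, x.2) ∈
              {y : Cf × ℕ | ∃ w, (y.1 y.2 w).2} from this.2 ha)]; rfl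
          · rw [Set.indicator_of_notMem (show (MM n x.1 U x.2 a, x.2) ∉
              {y : Cf × ℕ | ∃ w, (y.1 y.2 w).2} from fun h => ha (this.1 h))]
        simp only [e]
        rw [Finset.sum_boole, Fin.card_filter_val_lt, min_eq_right hk]
    _ = _ := by
        rw [lintegral_const, measure_univ, mul_one, ← hC.cast_ncard_eq]; rfl

theorem core_bound (n : ℕ) (μ : Measure (Gr × ℕ)) [IsProbabilityMeasure μ]
    (ht : ∀ᵐ x ∂μ, IsLFTree x.1) (hμ : Unim μ)
    (hd : ∀ᵐ x ∂μ, ∀ v, {w | x.1 v w}.encard ≤ (n + 2 : ℕ)) :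
    3 * (∫⁻ x, ({w | x.1 x.2 w}.encard : ℝ≥0∞) ∂μ).toReal - 2 * (n + 2 : ℕ)
      ≤ (∫⁻ x, ({w | core x.1 x.2 w}.encard : ℝ≥0∞) ∂μ).toReal := by
  have mD := meas_cnt (fun G u v => G u v) meas_adj
  have mK := meas_cnt core meas_core
  have mO := meas_cnt out meas_out
  have mI := meas_cnt (fun G u v => out G v u) fun u v => meas_out v u
  have hIO := mtp hμ out meas_out fun s G u v => out_rl G s u v
  set D := ∫⁻ x, ({w | x.1 x.2 w}.encard : ℝ≥0∞) ∂μ with hD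
  set K := ∫⁻ x, ({w | core x.1 x.2 w}.encard : ℝ≥0∞) ∂μ with hK
  set O := ∫⁻ x, ({w | out x.1 x.2 w}.encard : ℝ≥0∞) ∂μ with hO
  have hO1 : O ≤ 1 := by
    calc O ≤ ∫⁻ _x, 1 ∂μ := lintegral_mono_ae (by
          filter_upwards [ht] with x hx
          exact_mod_cast hx.out_le_one x.2)
      _ = 1 := by simp
  have hD1 : D ≤ (n + 2 : ℕ) := by
    calc D ≤ ∫⁻ _x, ((n + 2 : ℕ) : ℝ≥0∞) ∂μ := lintegral_mono_ae (by
          filter_upwards [hd] with x hx
          exact_mod_cast hx x.2)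
      _ = _ := by simp
  have hK1 : K ≤ D := lintegral_mono fun x =>
    ENat.toENNReal_le.2 (Set.encard_le_encard fun w hw => hw.1)
  have h1 : D ≤ K + O + O := by
    conv_rhs => enter [2]; rw [hIO]
    rw [hK, hO, ← lintegral_add_left mK, ← lintegral_add_right _ mI]
    refine lintegral_mono_ae ?_
    filter_upwards [ht] with x hx
    exact_mod_cast hx.ineq1 x.2
  have h2 : D + (n + 2 : ℕ) * O ≤ (n + 2 : ℕ) + O + O := by
    conv_rhs => enter [2]; rw [hIO]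
    have e : ((n + 2 : ℕ) : ℝ≥0∞) = ∫⁻ _x, ((n + 2 : ℕ) : ℝ≥0∞) ∂μ := by simp
    conv_rhs => enter [1, 1]; rw [e]
    rw [hD, hO, ← lintegral_const_mul _ mO, ← lintegral_add_left mD,
      ← lintegral_add_right _ mO, ← lintegral_add_right _ mI]
    refine lintegral_mono_ae ?_
    filter_upwards [ht, hd] with x hx hdx
    exact_mod_cast hx.ineq2 x.2 (n + 2) (hdx x.2)
  have h3 : n = 0 → O = 0 := by
    rintro rfl
    have mL := meas_cnt (fun G u v => v = u ∧ leaf G u) fun u v => measurable_const.and (meas_leaf u)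
    have h4 : O + ∫⁻ x, ({w | w = x.2 ∧ leaf x.1 x.2}.encard : ℝ≥0∞) ∂μ ≤ O + 0 := by
      conv_lhs => enter [1]; rw [hIO]
      rw [add_zero, hO, ← lintegral_add_left mI]
      refine lintegral_mono_ae ?_
      filter_upwards [ht, hd] with x hx hdx
      exact_mod_cast hx.ineq3 x.2 (hdx x.2)
    have h5 := (ENNReal.add_le_add_iff_left (ne_top_of_le_ne_top ENNReal.one_ne_top hO1)).1 h4
    rw [nonpos_iff_eq_zero, lintegral_eq_zero_iff mL] at h5
    have h6 := ae_all hμ leaf meas_leaf (fun s G v => leaf_rl G s v) (by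
      filter_upwards [h5] with x hx hl
      simp only [Pi.zero_apply, ENat.toENNReal_eq_zero, Set.encard_eq_zero] at hx
      exact (hx ▸ (show x.2 ∈ {w | w = x.2 ∧ leaf x.1 x.2} from ⟨rfl, hl⟩) : x.2 ∈ (∅ : Set ℕ)))
    rw [hO, lintegral_eq_zero_iff mO]
    filter_upwards [ht, h6] with x hx hl
    simp only [Pi.zero_apply, ENat.toENNReal_eq_zero, Set.encard_eq_zero]
    ext w
    refine ⟨fun hw => ?_, fun hw => hw.elim⟩
    obtain ⟨u, hu⟩ := hx.exists_leaf hw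
    exact (hl u hu).elim
  have fD : D ≠ ⊤ := ne_top_of_le_ne_top (by simp) hD1
  have fK : K ≠ ⊤ := ne_top_of_le_ne_top fD hK1
  have fO : O ≠ ⊤ := ne_top_of_le_ne_top ENNReal.one_ne_top hO1
  clear_value D K O
  clear hD hK hO hIO
  lift D to NNReal using fD
  lift K to NNReal using fK
  lift O to NNReal using fO
  have r1 : (D : ℝ) ≤ K + O + O := by exact_mod_cast h1
  have r2 : (D : ℝ) + (n + 2 : ℕ) * O ≤ (n + 2 : ℕ) + O + O := by exact_mod_cast h2
  have r0 : (D : ℝ) ≤ (n + 2 : ℕ) := by exact_mod_cast hD1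
  simp only [ENNReal.coe_toReal]
  rcases Nat.eq_zero_or_pos n with h | h
  · have r3 : (O : ℝ) = 0 := by exact_mod_cast h3 h
    linarith
  · have : (1 : ℝ) ≤ n := by exact_mod_cast h
    have h0 : (0 : ℝ) ≤ O := O.2
    push_cast at r2 r0 ⊢
    nlinarith

theorem main (d : ℕ) (hd2 : 2 ≤ d) (μ : Measure (Gr × ℕ)) [IsProbabilityMeasure μ]
    (ht : ∀ᵐ x ∂μ, IsLFTree x.1) (hμ : Unim μ) (hd : ∀ᵐ x ∂μ, {w | x.1 x.2 w}.encard ≤ d) :
    ∃ ν : Measure (Cf × ℕ), IsProbabilityMeasure ν ∧ ν.map fg = μ ∧ Unim ν ∧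
      (∀ᵐ y ∂ν, IsLE y.1) ∧
      3 * ((∫⁻ x, ({w | x.1 x.2 w}.encard : ℝ≥0∞) ∂μ).toReal / d) - 2
        ≤ (ν {y | ∃ w, (y.1 y.2 w).2}).toReal := by
  obtain ⟨n, rfl⟩ : ∃ n, d = n + 2 := ⟨d - 2, by omega⟩
  have hall : ∀ᵐ x ∂μ, ∀ v, {w | x.1 v w}.encard ≤ (n + 2 : ℕ) := by
    have := ae_all hμ (fun G v => ¬ {w | G v w}.encard ≤ (n + 2 : ℕ))
      (fun v => (Measurable.of_discrete (f := fun e : ℕ∞ => ¬ e ≤ (n + 2 : ℕ))).comp
        (meas_enc _ (meas_adj v)))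
      (fun s G v => by rw [← encard_pre s {w | G (s v) w}]; rfl)
      (by simpa using hd)
    simpa using this
  refine ⟨nu n μ, ⟨?_⟩, nu_map n μ, nu_unim n μ ht hμ, nu_LE n μ ht hall, ?_⟩
  · have := congrArg (fun m : Measure (Gr × ℕ) => m Set.univ) (nu_map n μ)
    simpa [Measure.map_apply meas_fg] using this
  · rw [nu_dens n μ ht hall, ENNReal.toReal_mul, ENNReal.toReal_inv, ENNReal.toReal_natCast]
    have h := core_bound n μ ht hμ hall
    have hp : (0 : ℝ) < (n + 2 : ℕ) := by positivity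
    rw [inv_mul_eq_div, le_div_iff₀ hp, sub_mul, mul_assoc, div_mul_cancel₀ _ hp.ne']
    exact h

end Pool.Agent.H89.LE
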