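import Mathlib

set_option autoImplicit false

namespace Pool.Agent.H89.MG

open Set Filter Topology MeasureTheory

universe u

def PP (E : Type u) [NormedAddCommGroup E] : Prop :=
  ∀ y : E, ∃ γ : ℝ → E, Continuous γ ∧ γ 0 = 0 ∧ γ 1 = y ∧
    ∀ s, s < 1 → ‖γ s‖ < ‖y‖ ∨ γ s = 0

def Nice (G : Type u) [AddCommGroup G] : Prop :=
  ∃ (E : Type u) (_ : NormedAddCommGroup E) (_ : G ≃+ E), PP E

theorem path_abs {E : Type u} [NormedAddCommGroup E] (P : AddSubgroup E) (R : ℝ → E →+ E)
    (ha : ∀ u x, ‖x‖ = ‖R u x‖ + ‖x - R u x‖) (hm : ∀ u v x, u ≤ v → ‖R u x‖ ≤ ‖R v x‖)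
    (hP : ∀ u, ∀ p ∈ P, R u p ∈ P) (hc : ∀ p, Continuous fun u => R u p)
    (h0 : ∀ u ≤ 0, ∀ x, R u x = 0) (y : E) (hy : y ∈ closure (P : Set E)) (b : ℝ) (hb0 : 0 < b)
    (hb : R b y = y) (hb' : ∀ u < b, R u y ≠ y) :
    ∃ γ : ℝ → E, Continuous γ ∧ γ 0 = 0 ∧ γ b = y ∧ (∀ u, γ u ∈ P ∨ γ u = y) ∧
      ∀ u < b, ‖γ u‖ < ‖y‖ := by
  have hle : ∀ u x, ‖R u x‖ ≤ ‖x‖ := fun u x => by rw [ha u x]; linarith [norm_nonneg (x - R u x)]
  let U : ℕ → ℝ := fun n => b * n / (n + 1)
  have Ub : ∀ n, U n < b := fun n => by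
    simp only [U]; rw [div_lt_iff₀ (by positivity)]; nlinarith
  have Um : Monotone U := monotone_nat_of_le_succ fun n => by
    simp only [U]; push_cast
    rw [div_le_div_iff₀ (by positivity) (by positivity)]; nlinarith
  let g : ℝ → ℝ := fun u => ‖y - R u y‖
  have gp : ∀ u < b, 0 < g u := fun u hu => norm_pos_iff.2 (sub_ne_zero.2 (hb' u hu).symm)
  have gm : ∀ u v, u ≤ v → g v ≤ g u := fun u v h => by
    simp only [g]; linarith [ha u y, ha v y, hm u v y h]
  let ε : ℕ → ℝ := fun n => min ((1 / 2) ^ n) (g (U (n + 2)) / 3)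
  have εp : ∀ n, 0 < ε n := fun n => lt_min (by positivity) (by linarith [gp _ (Ub (n + 2))])
  choose p hp1 hp2 using fun n => Metric.mem_closure_iff.1 hy (ε n) (εp n)
  simp only [dist_eq_norm] at hp2
  let q : ℕ → E := fun n => Nat.casesOn n 0 p
  have qP : ∀ n, q n ∈ P := fun n => by cases n; exacts [P.zero_mem, hp1 _]
  let r : ℕ → E := fun n => q (n + 1) - q n
  let c : ℕ → ℝ → ℝ := fun n u => min u ((n + 1) * ((n + 1) * u - b * n))
  have c0 : ∀ n u, u ≤ U n → c n u ≤ 0 := fun n u h => by
    simp only [U] at h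
    rw [le_div_iff₀ (by positivity)] at h
    exact (min_le_right _ _).trans (mul_nonpos_of_nonneg_of_nonpos (by positivity) (by linarith))
  have c1 : ∀ n u, U (n + 1) ≤ u → c n u = u := fun n u h => by
    simp only [U] at h; push_cast at h
    rw [div_le_iff₀ (by positivity)] at h
    have : (0 : ℝ) ≤ n := by positivity
    exact min_eq_left (by nlinarith)
  have rn : ∀ n, ‖r (n + 1)‖ < ε n + ε (n + 1) := fun n => by
    have : r (n + 1) = (y - p n) - (y - p (n + 1)) := by simp only [r, q]; abel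
    rw [this]; exact (norm_sub_le _ _).trans_lt (add_lt_add (hp2 _) (hp2 _))
  have rs : Summable fun n => ‖r n‖ := by
    rw [← summable_nat_add_iff 1]
    refine Summable.of_nonneg_of_le (fun _ => norm_nonneg _) (fun n => ?_)
      ((summable_geometric_two).mul_left 2)
    have a := rn n
    have b1 : ε n ≤ (1 / 2) ^ n := min_le_left _ _
    have b2 : ε (n + 1) ≤ (1 / 2) ^ (n + 1) := min_le_left _ _
    rw [pow_succ] at b2
    have : (0 : ℝ) < (1 / 2) ^ n := by positivity
    linarith
  let ι : E →+ UniformSpace.Completion E := UniformSpace.Completion.toCompl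
  have ιn : ∀ x, ‖ι x‖ = ‖x‖ := fun x => UniformSpace.Completion.norm_coe x
  have ιi : Isometry ι := AddMonoidHomClass.isometry_of_norm ι ιn
  let Γ : ℝ → UniformSpace.Completion E := fun u => ∑' n, ι (R (c n u) (r n))
  have Γc : Continuous Γ := continuous_tsum (fun n => ιi.continuous.comp ((hc (r n)).comp
    (by simp only [c]; fun_prop))) rs fun n u => by rw [ιn]; exact hle _ _
  have key : ∀ u, u ≤ b → ∃ z, ι z = Γ u ∧ (z ∈ P ∨ z = y) ∧ (u < b → ‖z‖ < ‖y‖) ∧ (u = b → z = y)
      ∧ (u = 0 → z = 0) := by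
    intro u hu
    rcases hu.eq_or_lt with rfl | hu
    · refine ⟨y, ?_, Or.inr rfl, fun h => absurd h (lt_irrefl _), fun _ => rfl,
        fun h => absurd h hb0.ne'⟩
      have hs : Summable fun n => ι (R (c n u) (r n)) :=
        Summable.of_norm_bounded rs fun n => by rw [ιn]; exact hle _ _
      refine tendsto_nhds_unique ?_ hs.hasSum.tendsto_sum_nat
      have e : ∀ N, ∑ n ∈ Finset.range N, ι (R (c n u) (r n)) = ι (R u (q N)) := fun N => by
        simp only [fun n => c1 n u (Ub _).le]
        rw [← map_sum, ← map_sum, Finset.sum_range_sub q]; simp [q]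
      simp only [e]
      refine (ιi.continuous.tendsto y).comp ?_
      rw [← tendsto_add_atTop_iff_nat 1, tendsto_iff_norm_sub_tendsto_zero]
      refine squeeze_zero (fun _ => norm_nonneg _) (fun n => ?_)
        (tendsto_pow_atTop_nhds_zero_of_lt_one (r := 1 / 2) (by norm_num) (by norm_num))
      have : R u (q (n + 1)) - y = -R u (y - p n) := by rw [map_sub, hb]; simp [q]
      rw [this, norm_neg]
      exact (hle _ _).trans ((hp2 n).le.trans (min_le_left _ _))
    rcases le_or_gt u 0 with hu0 | hu0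
    · have U0 : ∀ n, u ≤ U n := fun n => hu0.trans (by simp only [U]; positivity)
      refine ⟨0, ?_, Or.inl P.zero_mem, fun _ => ?_, fun h => absurd h hu.ne, fun _ => rfl⟩
      · simp only [Γ, fun n => h0 _ (c0 n u (U0 n)), map_zero, tsum_zero]
      · have := hb' 0 hb0
        rw [h0 0 le_rfl] at this
        rw [norm_zero]; exact norm_pos_iff.2 this.symm
    have ex : ∃ n, u < U (n + 1) := by
      obtain ⟨n, hn⟩ := exists_nat_gt (b / (b - u))
      refine ⟨n, ?_⟩
      rw [div_lt_iff₀ (by linarith)] at hn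
      simp only [U]; push_cast
      rw [lt_div_iff₀ (by positivity)]; nlinarith
    classical
    let n := Nat.find ex
    have n1 : u < U (n + 1) := Nat.find_spec ex
    have n2 : ∀ k < n, U (k + 1) ≤ u := fun k hk => not_lt.1 (Nat.find_min ex hk)
    refine ⟨R u (q n) + R (c n u) (r n), ?_,
      Or.inl (P.add_mem (hP _ _ (qP _)) (hP _ _ (P.sub_mem (qP (n + 1)) (qP n)))), fun _ => ?_,
      fun h => absurd h hu.ne, fun h => absurd h hu0.ne'⟩
    · simp only [Γ]
      rw [tsum_eq_sum (s := Finset.range (n + 1)), Finset.sum_range_succ, map_add]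
      · congr 1
        rw [Finset.sum_congr rfl fun k hk => by rw [c1 k u (n2 k (Finset.mem_range.1 hk))],
          ← map_sum, ← map_sum, Finset.sum_range_sub q]; simp [q]
      · intro k hk
        rw [h0 _ (c0 k u (n1.le.trans (Um (by simpa using hk)))), map_zero]
    · have a1 := ha u y
      have a2 : g (U (n + 1)) ≤ ‖y - R u y‖ := gm _ _ n1.le
      have a3 : g (U (n + 2)) ≤ g (U (n + 1)) := gm _ _ (Um (by omega))
      have a4 : ε n ≤ g (U (n + 2)) / 3 := min_le_right _ _
      have a5 : ∀ k, ‖R u (p k)‖ < ‖R u y‖ + ε k := fun k => by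
        have : R u (p k) = R u y - R u (y - p k) := by rw [map_sub]; abel
        rw [this]
        linarith [norm_sub_le (R u y) (R u (y - p k)), hle u (y - p k), hp2 k]
      clear_value n
      cases n with
      | zero =>
        have : c 0 u = u := by simp [c]
        rw [this]
        have e : R u (q 0) + R u (r 0) = R u (p 0) := by simp [r, q]
        rw [e]
        linarith [a5 0, εp 0]
      | succ k =>
        have a6 : ε k ≤ g (U (k + 2)) / 3 := min_le_right _ _
        have := norm_add_le (R u (q (k + 1))) (R (c (k + 1) u) (r (k + 1)))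
        have a7 : ‖R u (q (k + 1))‖ < ‖R u y‖ + ε k := a5 k
        linarith [hle (c (k + 1) u) (r (k + 1)), rn k]
  choose z hz using fun u => key (min u b) (min_le_right _ _)
  refine ⟨z, ?_, (hz 0).2.2.2.2 (min_eq_left hb0.le), (hz b).2.2.2.1 (min_self b),
    fun u => (hz u).2.1, fun u hu => (hz u).2.2.1 (min_lt_of_left_lt hu)⟩
  rw [ιi.isEmbedding.isInducing.continuous_iff]
  have : ι ∘ z = fun u => Γ (min u b) := funext fun u => (hz u).1
  rw [this]
  exact Γc.comp (by fun_prop)


abbrev J : Type := {t : ℝ // 0 < t}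

def HM (T : Type u) [NormedAddCommGroup T] : Type u := J →₀ T

variable {T : Type u} [NormedAddCommGroup T]

noncomputable def F (s : ℝ) : (J →₀ T) →+ T :=
  Finsupp.liftAddHom fun t => if s < t.1 then AddMonoidHom.id T else 0

theorem F_single (s : ℝ) (t : J) (v : T) : F s (Finsupp.single t v) = if s < t.1 then v else 0 := by
  simp only [F, Finsupp.liftAddHom_apply_single]; split_ifs <;> rfl

theorem F_int (x : J →₀ T) : Integrable (fun s => F s x) (volume.restrict (Ioi 0)) := by
  induction x using Finsupp.induction_linear with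
  | zero => simp
  | add a b ha hb => simp only [map_add]; exact ha.add hb
  | single t v =>
    have : (fun s => F s (Finsupp.single t v)) = (Iio t.1).indicator fun _ => v := by
      ext s; rw [F_single, indicator_apply]; rfl
    rw [this, integrable_indicator_iff measurableSet_Iio]
    refine integrableOn_const ?_
    rw [Measure.restrict_apply measurableSet_Iio, inter_comm, Ioi_inter_Iio]
    simp

theorem F_bd (x : J →₀ T) : ∃ C, 0 ≤ C ∧ ∀ s, ‖F s x‖ ≤ C := by
  induction x using Finsupp.induction_linear with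
  | zero => exact ⟨0, le_rfl, by simp⟩
  | add a b ha hb =>
    obtain ⟨C, h0, h⟩ := ha
    obtain ⟨D, h1, h'⟩ := hb
    exact ⟨C + D, by linarith, fun s => by
      rw [map_add]; exact (norm_add_le _ _).trans (add_le_add (h s) (h' s))⟩
  | single t v => exact ⟨‖v‖, norm_nonneg _, fun s => by rw [F_single]; split_ifs <;> simp⟩

theorem F_def (x : J →₀ T) (h : ∫ s in Ioi 0, ‖F s x‖ = 0) : x = 0 := by
  by_contra hx
  rw [integral_eq_zero_iff_of_nonneg (fun _ => norm_nonneg _) (F_int x).norm,
    EventuallyEq, ae_restrict_iff' measurableSet_Ioi] at h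
  obtain ⟨t, ht, hm⟩ := x.support.exists_max_image id (Finsupp.support_nonempty_iff.2 hx)
  have e : ∀ᶠ s in 𝓝 t.1, 0 < s ∧ ∀ w ∈ x.support.erase t, w.1 < s := by
    refine (lt_mem_nhds t.2).and ((eventually_all_finset _).2 fun w hw => lt_mem_nhds ?_)
    rw [Finset.mem_erase] at hw
    exact lt_of_le_of_ne (hm w hw.2) fun h => hw.1 (Subtype.ext h)
  obtain ⟨a, ha, hs⟩ := exists_Ioc_subset_of_mem_nhds e ⟨0, t.2⟩
  obtain ⟨s, hs1, hs2⟩ := (Measure.dense_of_ae h).exists_mem_open isOpen_Ioo (nonempty_Ioo.2 ha)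
  obtain ⟨s0, s1⟩ := hs (Ioo_subset_Ioc_self hs2)
  have := hs1 s0
  simp only [Pi.zero_apply, norm_eq_zero] at this
  refine Finsupp.mem_support_iff.1 ht ?_
  rw [← this]
  conv_rhs => rw [← x.sum_single, Finsupp.sum, map_sum, ← Finset.add_sum_erase _ _ ht]
  rw [F_single, if_pos hs2.2, Finset.sum_eq_zero, add_zero]
  intro w hw
  rw [F_single, if_neg (s1 w hw).not_gt]

noncomputable instance : AddCommGroup (HM T) := inferInstanceAs (AddCommGroup (J →₀ T))

noncomputable instance : NormedAddCommGroup (HM T) :=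
  AddGroupNorm.toNormedAddCommGroup
    { toFun := fun x => ∫ s in Ioi 0, ‖F s x‖
      map_zero' := by
        change ∫ s in Ioi 0, ‖F s (0 : J →₀ T)‖ = 0
        simp
      add_le' := fun (x y : J →₀ T) => by
        rw [← integral_add (F_int x).norm (F_int y).norm]
        exact integral_mono (F_int (x + y)).norm ((F_int x).norm.add (F_int y).norm) fun s => by
          change ‖F s (x + y)‖ ≤ _
          rw [map_add]; exact norm_add_le _ _
      neg' := fun (x : J →₀ T) => by
        change ∫ s in Ioi 0, ‖F s (-x)‖ = _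
        simp
      eq_zero_of_map_eq_zero' := F_def }

theorem nm (x : HM T) : ‖x‖ = ∫ s in Ioi 0, ‖F s x‖ := rfl

theorem nm_le (x : HM T) (a b C : ℝ) (hab : a ≤ b) (hC : 0 ≤ C) (h : ∀ s, 0 < s → ‖F s x‖ ≤ C)
    (h' : ∀ s, 0 < s → s ∉ Ico a b → F s x = 0) : ‖x‖ ≤ C * (b - a) := by
  rw [nm]
  have i : Integrable ((Ico a b).indicator fun _ => C) volume :=
    (integrable_indicator_iff measurableSet_Ico).2 (integrableOn_const (by simp))
  calc _ ≤ ∫ s in Ioi 0, (Ico a b).indicator (fun _ => C) s :=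
        setIntegral_mono_on (F_int x).norm i.integrableOn measurableSet_Ioi fun s hs => by
          by_cases hm : s ∈ Ico a b
          · rw [indicator_of_mem hm]; exact h s hs
          · rw [indicator_of_notMem hm, h' s hs hm, norm_zero]
    _ ≤ ∫ s, (Ico a b).indicator (fun _ => C) s :=
        setIntegral_le_integral i (Eventually.of_forall fun s => indicator_nonneg (fun _ _ => hC) _)
    _ = _ := by
        rw [integral_indicator measurableSet_Ico]
        simp [hab, mul_comm]

noncomputable def R (u : ℝ) : HM T →+ HM T :=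
  if h : 0 < u then Finsupp.mapDomain.addMonoidHom fun t : J => min t ⟨u, h⟩ else 0

theorem F_R (u s : ℝ) (hs : 0 < s) (x : J →₀ T) :
    F s (R u x : HM T) = if s < u then F s x else 0 := by
  unfold R
  by_cases h : 0 < u
  · rw [dif_pos h]
    change F s (Finsupp.mapDomain (fun t : J => min t ⟨u, h⟩) x) = _
    induction x using Finsupp.induction_linear with
    | zero => simp
    | add a b ha hb => rw [Finsupp.mapDomain_add, map_add, map_add, ha, hb]; split_ifs <;> simp
    | single t v =>
      rw [Finsupp.mapDomain_single, F_single, F_single]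
      have : ((min t ⟨u, h⟩ : J) : ℝ) = min t.1 u := Monotone.map_min (f := Subtype.val) fun _ _ h => h
      rw [this]
      by_cases h1 : s < u <;> simp [h1]
  · rw [dif_neg h, if_neg (by linarith)]
    exact map_zero _

theorem R_cont (x : HM T) : Continuous fun u => R u x := by
  obtain ⟨C, hC, h⟩ := F_bd x
  have k : ∀ u v, u ≤ v → ‖R v x - R u x‖ ≤ C * (v - u) := fun u v huv =>
    nm_le _ _ _ _ huv hC (fun s hs => by
      erw [map_sub, F_R _ _ hs, F_R _ _ hs]
      split_ifs <;> simp [h, hC]) fun s hs hm => by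
      erw [map_sub, F_R _ _ hs, F_R _ _ hs]
      simp only [mem_Ico, not_and, not_lt] at hm
      split_ifs with a b b
      · simp
      · linarith [hm (not_lt.1 b)]
      · linarith
      · simp
  refine (LipschitzWith.of_dist_le_mul (K := ⟨C, hC⟩) fun u v => ?_).continuous
  rw [dist_eq_norm, Real.dist_eq]
  rcases le_total u v with h | h
  · rw [norm_sub_rev, abs_sub_comm, abs_of_nonneg (by linarith)]; exact k _ _ h
  · rw [abs_of_nonneg (by linarith)]; exact k _ _ h

theorem hm_nice (Q : AddSubgroup T) {M : Type u} [AddCommGroup M] (j : M →+ (J →₀ T))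
    (hj : Function.Injective j) (h1 : ∀ x : J →₀ T, (∀ t, x t ∈ Q) → x ∈ j.range)
    (h2 : ∀ m t, j m t ∈ closure (Q : Set T)) : Nice M := by
  let j' : M →+ HM T := j
  let P : AddSubgroup (HM T) :=
    { carrier := {x : J →₀ T | ∀ t, x t ∈ Q}
      add_mem' := fun ha hb t => Q.add_mem (ha t) (hb t)
      zero_mem' := fun _ => Q.zero_mem
      neg_mem' := fun ha t => Q.neg_mem (ha t) }
  have sP : ∀ t, ∀ v ∈ Q, (Finsupp.single t v : HM T) ∈ P := fun t v hv w => by
    classical
    rw [Finsupp.single_apply]; split_ifs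
    exacts [hv, Q.zero_mem]
  refine ⟨j'.range, inferInstance, AddMonoidHom.ofInjective (f := j') hj, fun ⟨y, hy⟩ => ?_⟩
  by_cases y0 : y = 0
  · exact ⟨fun _ => 0, continuous_const, rfl, Subtype.ext y0.symm, fun _ _ => Or.inr rfl⟩
  have h0 : ∀ u ≤ 0, ∀ x : HM T, R u x = 0 := fun u hu x => by simp [R, hu.not_gt]
  have cl : IsClosed {u | R u y = y} := isClosed_eq (R_cont y) continuous_const
  have bd : BddBelow {u | R u y = y} := ⟨0, fun u hu => le_of_not_gt fun h =>
    y0 (hu.symm.trans (h0 u h.le y))⟩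
  have ne : {u | R u y = y}.Nonempty := by
    obtain ⟨t, ht, hm⟩ := (y : J →₀ T).support.exists_max_image id
      (Finsupp.support_nonempty_iff.2 y0)
    refine ⟨t.1, ?_⟩
    simp only [mem_setOf_eq, R, dif_pos (show 0 < t.1 from t.2)]
    exact (Finsupp.mapDomain_congr (g := id) fun w hw => min_eq_left (hm w hw)).trans
      Finsupp.mapDomain_id
  have hb := cl.csInf_mem ne bd
  set b := sInf {u | R u y = y}
  have hb0 : 0 < b := lt_of_not_ge fun h => y0 (hb.symm.trans (h0 b h y))
  obtain ⟨γ, g1, g2, g3, g4, g5⟩ := path_abs P R (fun u x => by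
      rw [nm, nm, nm, ← integral_add (F_int _).norm (F_int _).norm]
      refine setIntegral_congr_fun measurableSet_Ioi fun s hs => ?_
      erw [map_sub]
      simp only [F_R u s hs]
      split_ifs <;> simp)
    (fun u v x huv => by
      rw [nm, nm]
      refine setIntegral_mono_on (F_int _).norm (F_int _).norm measurableSet_Ioi fun s hs => ?_
      simp only [F_R _ s hs]
      split_ifs with a b b
      · rfl
      · linarith
      · simp
      · rfl)
    (fun u p hp => by
      unfold R
      split_ifs with h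
      · erw [Finsupp.mapDomain.addMonoidHom_apply, Finsupp.mapDomain]
        exact P.sum_mem fun t _ => sP _ _ (hp t)
      · exact P.zero_mem)
    R_cont h0 y (by
      obtain ⟨m, rfl⟩ := hy
      change _ ∈ P.topologicalClosure
      have : j' m = ∑ t ∈ (j m).support, (Finsupp.single t (j m t) : HM T) := (j m).sum_single.symm
      rw [this]
      refine AddSubgroup.sum_mem _ fun t _ => ?_
      let f : T →+ HM T := Finsupp.singleAddHom t
      have fc : Continuous f := AddMonoidHomClass.continuous_of_bound f t.1 fun v => by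
        have := nm_le (f v) 0 t.1 ‖v‖ (le_of_lt t.2) (norm_nonneg _) (fun s _ => by
          erw [F_single]; split_ifs <;> simp) fun s hs hm => by
          erw [F_single]; exact if_neg fun h => hm ⟨hs.le, h⟩
        linarith
      exact map_mem_closure fc (h2 m t) fun v hv => sP t v hv)
    b hb0 hb fun u hu h => (csInf_le bd h).not_gt hu
  refine ⟨fun s => ⟨γ (s * b), ?_⟩, ?_, ?_, ?_, fun s hs => Or.inl ?_⟩
  · rcases g4 (s * b) with h | h
    · exact h1 _ h
    · rw [h]; exact hy
  · exact (g1.comp (by fun_prop)).subtype_mk _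
  · exact Subtype.ext (by simpa using g2)
  · exact Subtype.ext (by simpa using g3)
  · exact g5 _ (by nlinarith)

theorem Nice.of_equiv {A B : Type u} [AddCommGroup A] [AddCommGroup B] (h : Nice A) (e : B ≃+ A) :
    Nice B := by
  obtain ⟨E, i, j, h⟩ := h
  exact ⟨E, i, e.trans j, h⟩

theorem nice_compl {G : Type u} [AddCommGroup G] (A B : AddSubgroup G) (hA : Nice A) (hB : Nice B)
    (h1 : ∀ x ∈ A, x ∈ B → x = 0) (h2 : ∀ x, ∃ a ∈ A, x - a ∈ B) : Nice G := by
  have : Nice (A × B) := by
    obtain ⟨E, i, j, h⟩ := hA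
    obtain ⟨E', i', j', h'⟩ := hB
    refine ⟨E × E', inferInstance, j.prodCongr j', fun y => ?_⟩
    obtain ⟨γ, a1, a2, a3, a4⟩ := h y.1
    obtain ⟨δ, b1, b2, b3, b4⟩ := h' y.2
    refine ⟨fun s => (γ s, δ s), a1.prodMk b1, by simp [a2, b2], by simp [a3, b3], fun s hs => ?_⟩
    simp only [Prod.norm_def, Prod.mk_eq_zero]
    rcases a4 s hs with a | a <;> rcases b4 s hs with b | b
    · exact Or.inl (max_lt_max a b)
    · left; rw [b, norm_zero, max_eq_left (norm_nonneg _)]; exact lt_max_of_lt_left a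
    · left; rw [a, norm_zero, max_eq_right (norm_nonneg _)]; exact lt_max_of_lt_right b
    · exact Or.inr ⟨a, b⟩
  refine this.of_equiv (AddEquiv.ofBijective (A.subtype.coprod B.subtype) ⟨?_, fun x => ?_⟩).symm
  · rw [injective_iff_map_eq_zero]
    rintro ⟨a, b⟩ h
    have e : (a : G) = -b := eq_neg_of_add_eq_zero_left h
    have a0 := h1 a a.2 (e ▸ B.neg_mem b.2)
    rw [a0] at e
    exact Prod.ext (Subtype.ext a0) (Subtype.ext (neg_eq_zero.1 e.symm))
  · obtain ⟨a, ha, hb⟩ := h2 x
    exact ⟨(⟨a, ha⟩, ⟨_, hb⟩), by simp⟩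

end Pool.Agent.H89.MG
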