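import Mathlib

set_option autoImplicit false

namespace Pool.Agent.H89.MG

open Set Cardinal Finsupp

universe u v

abbrev Ci : Type := AddCircle (1 : ℝ)

noncomputable def th (a k : ℕ) : Ci :=
  if a = 0 then ((√2 / (2 * (k + 1)) : ℝ) : Ci) else ((1 / a : ℝ) : Ci)

theorem th_ord (a k : ℕ) : addOrderOf (th a k) = a := by
  unfold th
  split_ifs with h
  · rw [h, addOrderOf_eq_zero_iff, AddCircle.not_isOfFinAddOrder_iff_forall_rat_ne_div]
    intro q hq
    refine irrational_sqrt_two ⟨q * (2 * (k + 1)), ?_⟩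
    push_cast
    rw [hq]; field_simp
  · exact AddCircle.addOrderOf_period_div (Nat.pos_of_ne_zero h)

theorem th_approx (a k : ℕ) (h : a = 0 ∨ k < a) (τ : Ci) :
    ∃ n : ℤ, ‖τ - n • th a k‖ ≤ 1 / (k + 1) := by
  obtain ⟨r, h0, h1, e⟩ : ∃ r : ℝ, 0 < r ∧ r ≤ 1 / (k + 1) ∧ th a k = r := by
    by_cases ha : a = 0
    · refine ⟨_, by positivity, ?_, if_pos ha⟩
      rw [div_le_div_iff₀ (by positivity) (by positivity)]
      have : √2 ≤ 2 := Real.sqrt_le_iff.2 ⟨by norm_num, by norm_num⟩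
      have : (0 : ℝ) ≤ k := by positivity
      nlinarith
    · have hk : k + 1 ≤ a := h.resolve_left ha
      refine ⟨_, by have := Nat.pos_of_ne_zero ha; positivity, ?_, if_neg ha⟩
      exact one_div_le_one_div_of_le (by positivity) (by exact_mod_cast hk)
  induction τ using QuotientAddGroup.induction_on with
  | H x =>
    refine ⟨⌊x / r⌋, ?_⟩
    rw [e, ← AddCircle.coe_zsmul, ← AddCircle.coe_sub]
    refine QuotientAddGroup.norm_mk_le_norm.trans (le_trans ?_ h1)
    have a1 := Int.floor_le (x / r)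
    have a2 := Int.lt_floor_add_one (x / r)
    rw [le_div_iff₀ h0] at a1
    rw [div_lt_iff₀ h0] at a2
    rw [zsmul_eq_mul, Real.norm_eq_abs, abs_le]
    constructor <;> nlinarith

theorem th_exact (a k : ℕ) (h : a ≠ 0) (τ : Ci) (hτ : a • τ = 0) : ∃ n : ℤ, τ = n • th a k := by
  obtain ⟨m, -, rfl⟩ := (AddCircle.nsmul_eq_zero_iff (Nat.pos_of_ne_zero h)).1 hτ
  refine ⟨m, ?_⟩
  rw [th, if_neg h, ← AddCircle.coe_zsmul]
  congr 1
  simp [div_eq_mul_inv]

theorem ord_iff {A B : Type*} [AddCommGroup A] [AddCommGroup B] {a : A} {b : B}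
    (h : addOrderOf a = addOrderOf b) (n : ℤ) : n • a = 0 ↔ n • b = 0 := by
  rw [← addOrderOf_dvd_iff_zsmul_eq_zero, ← addOrderOf_dvd_iff_zsmul_eq_zero, h]

variable {M : Type u} [AddCommGroup M]

def Ind {ι : Type v} (g : ι → M) : Prop :=
  ∀ c : ι →₀ ℤ, linearCombination ℤ g c = 0 → ∀ i, c i • g i = 0

theorem ind_ext {ι : Type v} (g : ι → M) (hg : Ind g) (θ : ι → Ci)
    (hθ : ∀ i, addOrderOf (θ i) = addOrderOf (g i)) :
    ∃ φ : M →+ (ι →₀ Ci), ∀ c i, φ (linearCombination ℤ g c) i = c i • θ i := by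
  classical
  letI : DivisibleBy (ι →₀ Ci) ℤ := divisibleByOfSMulRightSurj _ _ fun {n} hn x => by
    induction x using Finsupp.induction_linear with
    | zero => exact ⟨0, smul_zero _⟩
    | add a b ha hb =>
      obtain ⟨a, rfl⟩ := ha
      obtain ⟨b, rfl⟩ := hb
      exact ⟨a + b, smul_add _ _ _⟩
    | single i τ => exact ⟨single i (DivisibleBy.div τ n), by
        simp only [smul_single, DivisibleBy.div_cancel τ hn]⟩
  let α := linearCombination ℤ g
  let β := linearCombination ℤ fun i => single i (θ i)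
  have hβ : ∀ c i, β c i = c i • θ i := fun c i => by
    simp only [β, linearCombination_apply, Finsupp.sum_apply, smul_single, single_apply]
    rw [Finsupp.sum_ite_eq']; split_ifs with h
    · rfl
    · rw [notMem_support_iff.1 h, zero_smul]
  have hk : LinearMap.ker α ≤ LinearMap.ker β := fun c hc =>
    Finsupp.ext fun i => (hβ c i).trans ((ord_iff (hθ i) _).2 (hg c hc i))
  obtain ⟨φ, hφ⟩ := (Module.Baer.of_divisible (ι →₀ Ci)).extension_property
    ((LinearMap.ker α).liftQ α le_rfl)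
    (LinearMap.ker_eq_bot.1 (Submodule.ker_liftQ_eq_bot _ _ _ le_rfl)) ((LinearMap.ker α).liftQ β hk)
  refine ⟨φ.toAddMonoidHom, fun c i => ?_⟩
  rw [← hβ]
  exact congrArg (· i) (LinearMap.congr_fun hφ (Submodule.Quotient.mk c))

theorem rec_ind {ι : Type v} [LinearOrder ι] [WellFoundedLT ι] (ch : ι → Submodule ℤ M → M)
    (h : ∀ i K (n : ℤ), n • ch i K ∈ K → n • ch i K = 0) :
    ∃ g : ι → M, (∀ i, g i = ch i (Submodule.span ℤ (g '' Iio i))) ∧ Ind g := by
  let g : ι → M := WellFoundedLT.fix fun i f =>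
    ch i (Submodule.span ℤ (range fun j : Iio i => f j.1 j.2))
  have hg : ∀ i, g i = ch i (Submodule.span ℤ (g '' Iio i)) := fun i => by
    rw [image_eq_range]; exact WellFoundedLT.fix_eq _ i
  refine ⟨g, hg, fun c hc => ?_⟩
  have : ∀ s : Finset ι, ∑ i ∈ s, c i • g i = 0 → ∀ i ∈ s, c i • g i = 0 := by
    intro s
    induction s using Finset.induction_on_max with
    | empty => simp
    | insert a s hs ih =>
      intro e
      rw [Finset.sum_insert fun h => lt_irrefl _ (hs a h)] at e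
      have a0 : c a • g a = 0 := by
        rw [hg a]
        refine h _ _ _ ?_
        rw [← hg a, eq_neg_of_add_eq_zero_left e]
        exact Submodule.neg_mem _ (Submodule.sum_mem _ fun i hi =>
          Submodule.smul_mem _ _ (Submodule.subset_span ⟨i, hs i hi, rfl⟩))
      rw [a0, zero_add] at e
      simpa [a0] using ih e
  intro i
  by_cases hi : i ∈ c.support
  · exact this _ hc i hi
  · rw [notMem_support_iff.1 hi, zero_smul]

theorem span_le_lc {ι : Type v} (g : ι → M) (s : Set ι) (x : M)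
    (hx : x ∈ Submodule.span ℤ (g '' s)) : ∃ c, linearCombination ℤ g c = x := by
  obtain ⟨c, -, h⟩ := (Finsupp.mem_span_image_iff_linearCombination ℤ).1 hx
  exact ⟨c, h⟩

theorem emb (N : Type u) [AddCommGroup N] : ∃ ψ : N →+ (N →₀ Ci), Function.Injective ψ := by
  classical
  obtain ⟨_, _⟩ := exists_wellFoundedLT N
  obtain ⟨g, hg, hi⟩ := rec_ind (ι := N) (M := N)
    (fun i K => if ∀ n : ℤ, n • i ∈ K → n • i = 0 then i else 0) fun i K n => by
      split_ifs with h
      exacts [h n, fun _ => smul_zero _]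
  obtain ⟨φ, hφ⟩ := ind_ext g hi (fun i => th (addOrderOf (g i)) 0) fun i => th_ord _ _
  have k : ∀ c, φ (linearCombination ℤ g c) = 0 → linearCombination ℤ g c = 0 := fun c hc =>
    Finset.sum_eq_zero fun i _ => (ord_iff (th_ord _ 0) (c i)).1 (by rw [← hφ, hc]; rfl)
  refine ⟨φ, (injective_iff_map_eq_zero _).2 fun y hy => ?_⟩
  by_cases h : ∀ n : ℤ, n • y ∈ Submodule.span ℤ (g '' Iio y) → n • y = 0
  · have e : linearCombination ℤ g (single y 1) = y := by
      rw [linearCombination_single, one_smul, hg y, if_pos h]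
    rw [← e] at hy ⊢
    exact k _ hy
  · push Not at h
    obtain ⟨n, h1, h2⟩ := h
    obtain ⟨c, hc⟩ := span_le_lc g _ _ h1
    exact absurd (hc ▸ k c (by rw [hc, map_zsmul, hy, smul_zero])) h2

theorem card_span (s : Set M) : #(Submodule.span ℤ s) ≤ max ℵ₀ #s := by
  rcases s.eq_empty_or_nonempty with rfl | h
  · rw [Submodule.span_empty]
    exact le_max_of_le_left (by simp)
  haveI := h.to_subtype
  have : #(Submodule.span ℤ s) ≤ #(s →₀ ℤ) := by
    rw [Finsupp.span_eq_range_linearCombination]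
    exact mk_range_le
  rw [mk_finsupp_lift_of_infinite'] at this
  simpa [max_comm] using this

theorem rk (X : Type u) : ∃ f : X → Ordinal.{u}, (∀ x, (f x).card < #X) ∧
    ∀ ρ, #{x | f x ≤ ρ} ≤ ρ.card + 1 := by
  obtain ⟨r, wo, h⟩ := exists_ord_eq X
  refine ⟨Ordinal.typein r, fun x => card_typein_lt x h, fun ρ => ?_⟩
  rw [← Ordinal.card_add_one]
  rcases lt_or_ge (ρ + 1) (Ordinal.type r) with h | h
  · obtain ⟨z, hz⟩ := Ordinal.typein_surj r h
    rw [← hz, Ordinal.card_typein]
    refine mk_le_mk_of_subset (t := {y | r y z}) fun x hx => ?_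
    rw [mem_setOf_eq, ← Ordinal.typein_lt_typein r, hz]
    exact Order.lt_add_one_iff.2 hx
  · exact (mk_set_le _).trans (Ordinal.card_le_card h)

def Big (M : Type u) [AddCommGroup M] (a : ℕ) (ν : Cardinal.{u}) : Prop :=
  ∀ K : Submodule ℤ M, #K ≤ ν → ∃ g : M, addOrderOf g = a ∧ ∀ n : ℤ, n • g ∈ K → n • g = 0

theorem select {ι : Type u} (r : ι → Ordinal.{u}) (a : ι → ℕ)
    (h : ∀ i, Big M (a i) (max ℵ₀ #{j | r j ≤ r i})) :
    ∃ g : ι → M, Ind g ∧ ∀ i, addOrderOf (g i) = a i := by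
  classical
  let e : ι → Ordinal.{u} ×ₗ Cardinal.{u} := fun i => toLex (r i, embeddingToCardinal i)
  have ei : Function.Injective e := fun i j h =>
    embeddingToCardinal.injective (congrArg (fun x => (ofLex x).2) h)
  letI : LinearOrder ι := LinearOrder.lift' e ei
  haveI : WellFoundedLT ι := ⟨InvImage.wf e wellFounded_lt⟩
  obtain ⟨g, hg, hi⟩ := rec_ind (ι := ι) (M := M) (fun i K =>
    if h : ∃ g : M, addOrderOf g = a i ∧ ∀ n : ℤ, n • g ∈ K → n • g = 0 then h.choose else 0)
    fun i K n => by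
      split_ifs with h
      exacts [h.choose_spec.2 n, fun _ => smul_zero _]
  refine ⟨g, hi, fun i => ?_⟩
  have := h i (Submodule.span ℤ (g '' Iio i)) ((card_span _).trans (max_le_max le_rfl
    (mk_image_le.trans (mk_le_mk_of_subset fun j hj => ?_))))
  · rw [hg i, dif_pos this]; exact this.choose_spec.1
  · have : e j < e i := hj
    rcases (Prod.Lex.toLex_lt_toLex).1 this with h | h
    exacts [h.le, h.1.le]

end Pool.Agent.H89.MG
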