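import Pool.Agent.H89.MG1
import Pool.Agent.H89.MG2

set_option autoImplicit false

namespace Pool.Agent.H89.MG

open Set Cardinal Finsupp

universe u

def WT (M : Type u) : Type u := M × List ℕ →₀ Ci

noncomputable def w {M : Type u} : M × List ℕ → ℝ
  | (_, []) => 1
  | (_, k :: _) => 1 / (k + 1)

variable {M : Type u}

theorem w_pos (γ : M × List ℕ) : 0 < w γ ∧ w γ ≤ 1 := by
  rcases γ with ⟨m, _ | ⟨k, l⟩⟩
  · simp [w]
  · exact ⟨by simp only [w]; positivity, by
      simp only [w]; rw [div_le_one (by positivity)]; simp⟩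

theorem ws_eq (x : M × List ℕ →₀ Ci) (s : Finset (M × List ℕ)) (h : x.support ⊆ s) :
    ∑ γ ∈ x.support, w γ * ‖x γ‖ = ∑ γ ∈ s, w γ * ‖x γ‖ :=
  Finset.sum_subset h fun γ _ hγ => by rw [notMem_support_iff.1 hγ]; simp

noncomputable instance : AddCommGroup (WT M) := inferInstanceAs (AddCommGroup (M × List ℕ →₀ Ci))

noncomputable instance : NormedAddCommGroup (WT M) :=
  AddGroupNorm.toNormedAddCommGroup
    { toFun := fun (x : M × List ℕ →₀ Ci) => ∑ γ ∈ x.support, w γ * ‖x γ‖
      map_zero' := by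
        change ∑ γ ∈ (0 : M × List ℕ →₀ Ci).support, _ = 0
        simp
      add_le' := fun (x y : M × List ℕ →₀ Ci) => by
        classical
        change ∑ γ ∈ (x + y).support, w γ * ‖(x + y) γ‖ ≤ _
        rw [ws_eq _ _ support_add, ws_eq x _ Finset.subset_union_left,
          ws_eq y _ Finset.subset_union_right, ← Finset.sum_add_distrib]
        exact Finset.sum_le_sum fun γ _ => by
          rw [← mul_add]; exact mul_le_mul_of_nonneg_left (norm_add_le _ _) (w_pos γ).1.le
      neg' := fun (x : M × List ℕ →₀ Ci) => by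
        change ∑ γ ∈ (-x).support, w γ * ‖(-x) γ‖ = _
        simp
      eq_zero_of_map_eq_zero' := fun (x : M × List ℕ →₀ Ci) h => by
        rw [Finset.sum_eq_zero_iff_of_nonneg fun γ _ => mul_nonneg (w_pos γ).1.le (norm_nonneg _)]
          at h
        refine Finsupp.ext fun γ => ?_
        by_contra hγ
        exact mul_ne_zero (w_pos γ).1.ne' (norm_ne_zero_iff.2 hγ) (h γ (mem_support_iff.2 hγ)) }

noncomputable def sg (γ : M × List ℕ) : Ci →+ WT M := singleAddHom γ

theorem nm_sg (γ : M × List ℕ) (τ : Ci) : ‖sg γ τ‖ = w γ * ‖τ‖ := by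
  change ∑ δ ∈ (single γ τ).support, w δ * ‖(single γ τ) δ‖ = _
  rw [ws_eq _ _ support_single_subset]; simp

def cons (δ : (M × List ℕ) × ℕ) : M × List ℕ := (δ.1.1, δ.2 :: δ.1.2)

noncomputable def L1 : ((M × List ℕ) × ℕ →₀ Ci) →+ WT M :=
  mapDomain.addMonoidHom Prod.fst + mapDomain.addMonoidHom cons

noncomputable def L2 : (M →₀ Ci) →+ WT M := mapDomain.addMonoidHom fun m => (m, [])

theorem L1_single (δ : (M × List ℕ) × ℕ) (τ : Ci) : L1 (single δ τ) = sg δ.1 τ + sg (cons δ) τ := by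
  change mapDomain _ _ + mapDomain _ _ = _
  rw [mapDomain_single, mapDomain_single]; rfl

theorem L_inj (x : (M × List ℕ) × ℕ →₀ Ci) (y : M →₀ Ci) (h : L1 x + L2 y = 0) : x = 0 ∧ y = 0 := by
  classical
  replace h : mapDomain Prod.fst x + mapDomain cons x + mapDomain (fun m => (m, [])) y =
    (0 : M × List ℕ →₀ Ci) := h
  have : x = 0 := by
    by_contra hx
    obtain ⟨δ, h1, h2⟩ := x.support.exists_max_image (fun δ => δ.1.2.length)
      (support_nonempty_iff.2 hx)
    have e := congrArg (· (cons δ)) h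
    simp only [Finsupp.add_apply, Finsupp.zero_apply] at e
    rw [mapDomain_apply (fun a b h => by
        simp only [cons, Prod.mk.injEq, List.cons.injEq] at h
        exact Prod.ext (Prod.ext h.1 h.2.2) h.2.1),
      mapDomain_notin_range (f := fun m : M => (m, ([] : List ℕ))) _ _ (by simp [cons]),
      notMem_support_iff.1 fun h => ?_] at e
    · exact mem_support_iff.1 h1 (by simpa using e)
    · obtain ⟨ε, h3, h4⟩ := Finset.mem_image.1 (mapDomain_support h)
      have := h2 ε h3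
      rw [h4] at this
      simp [cons] at this
  subst this
  refine ⟨rfl, mapDomain_injective (f := fun m : M => (m, ([] : List ℕ)))
    (fun a b h => congrArg Prod.fst h) ?_⟩
  simpa using h

theorem core (M : Type u) [AddCommGroup M] (e : ℕ) (he : ∀ x : M, e • x = 0)
    (H : ∀ μ < #M, ∀ k : ℕ, ∃ a, (∀ τ : Ci, e • τ = 0 → ∃ n : ℤ, ‖τ - n • th a k‖ ≤ 1 / (k + 1)) ∧
      ∀ ν, ν ≤ μ ∨ ν < 𝔠 → Big M a ν) : Nice M := by
  classical
  obtain ⟨r1, a1, b1⟩ := rk M
  obtain ⟨r2, a2, b2⟩ := rk (ULift.{u} J)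
  choose a ha hb using fun δ : (M × List ℕ) × ℕ => H _ (a1 δ.1.1) δ.2
  obtain ⟨g, gi, go⟩ := select (M := M) (ι := J × (M × List ℕ) × ℕ)
    (fun i => max (r1 i.2.1.1) (r2 ⟨i.1⟩)) (fun i => a i.2) fun i K hK => by
      set ρ := max (r1 i.2.1.1) (r2 ⟨i.1⟩) with hρ
      refine hb i.2 (max ℵ₀ ρ.card) ?_ K (hK.trans (max_le (le_max_left _ _) ?_))
      · have J1 : #(ULift.{u} J) = 𝔠 := by
          rw [mk_uLift]
          have : #J = 𝔠 := mk_Ioi_real 0
          rw [this, lift_continuum]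
        rcases max_choice ℵ₀ ρ.card with h | h <;> rw [h]
        · exact Or.inr aleph0_lt_continuum
        · rcases max_choice (r1 i.2.1.1) (r2 ⟨i.1⟩) with h | h <;> rw [hρ, h]
          exacts [Or.inl le_rfl, Or.inr (J1 ▸ a2 _)]
      · let f : {j : J × (M × List ℕ) × ℕ | max (r1 j.2.1.1) (r2 ⟨j.1⟩) ≤ ρ} →
            {x | r1 x ≤ ρ} × {x | r2 x ≤ ρ} × ULift.{u} (List ℕ × ℕ) := fun j =>
          (⟨j.1.2.1.1, (le_max_left _ (r2 ⟨j.1.1⟩)).trans j.2⟩,
            ⟨⟨j.1.1⟩, (le_max_right (r1 j.1.2.1.1) _).trans j.2⟩,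
            ⟨j.1.2.1.2, j.1.2.2⟩)
        have fi : Function.Injective f := fun x y h => by
          simp only [f, Prod.mk.injEq, Subtype.mk.injEq, ULift.up.injEq] at h
          exact Subtype.ext (Prod.ext h.2.1 (Prod.ext (Prod.ext h.1 h.2.2.1) h.2.2.2))
        refine (mk_le_of_injective fi).trans ?_
        have c : ρ.card + 1 ≤ max ℵ₀ ρ.card := add_le_of_le (le_max_left _ _) (le_max_right _ _)
          (one_le_aleph0.trans (le_max_left _ _))
        rw [mk_prod, mk_prod, lift_id, lift_id, lift_id, lift_id]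
        exact mul_le_of_le (le_max_left _ _) ((b1 ρ).trans c) (mul_le_of_le (le_max_left _ _)
          ((b2 ρ).trans c) (mk_le_aleph0.trans (le_max_left _ _)))
  let θ : (M × List ℕ) × ℕ → Ci := fun δ => th (a δ) δ.2
  have θo : ∀ i : J × (M × List ℕ) × ℕ, addOrderOf (θ i.2) = addOrderOf (g i) := fun i => by
    rw [go, th_ord]
  obtain ⟨φ, hφ⟩ := ind_ext g gi (fun i => θ i.2) θo
  let P := LinearMap.range (linearCombination ℤ g)
  obtain ⟨ψ0, hψ0⟩ := emb (M ⧸ P)
  let ψ : M →+ (M →₀ Ci) := (mapDomain.addMonoidHom Quotient.out).comp (ψ0.comp P.mkQ.toAddMonoidHom)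
  have hψ : ∀ m, ψ m = 0 ↔ m ∈ P := fun m => by
    rw [← Submodule.Quotient.mk_eq_zero, ← map_eq_zero_iff ψ0 hψ0,
      ← (mapDomain_injective Quotient.out_injective).eq_iff, mapDomain_zero]
    rfl
  let t0 : J := ⟨1, one_pos⟩
  let j : M →+ (J →₀ WT M) := (mapRange.addMonoidHom L1).comp (curryAddEquiv.toAddMonoidHom.comp φ) +
    (singleAddHom t0).comp (L2.comp ψ)
  have hj : ∀ m t, j m t = L1 ((φ m).curry t) + L2 (if t0 = t then ψ m else 0) := fun m t => by
    change L1 ((φ m).curry t) + single t0 (L2 (ψ m)) t = _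
    rw [single_apply]; split_ifs <;> simp
  let Q : AddSubgroup (WT M) := AddSubgroup.closure (range fun δ => L1 (single δ (θ δ)))
  refine hm_nice Q j ((injective_iff_map_eq_zero _).2 fun m hm => ?_) (fun x hx => ?_) fun m t => ?_
  · have k := fun t => L_inj _ _ ((hj m t).symm.trans (congrArg (· t) hm))
    obtain ⟨c, rfl⟩ := (hψ m).1 (by simpa using (k t0).2)
    refine Finset.sum_eq_zero fun i _ => (ord_iff (θo i) (c i)).1 ?_
    rw [← hφ]
    simpa using congrArg (· i.2) (k i.1).1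
  · rw [← x.sum_single]
    refine AddSubgroup.sum_mem _ fun t _ => ?_
    have : Q ≤ j.range.comap (singleAddHom t) := by
      refine (AddSubgroup.closure_le _).2 ?_
      rintro _ ⟨δ, rfl⟩
      refine ⟨g (t, δ), Finsupp.ext fun s => ?_⟩
      have e1 : linearCombination ℤ g (single (t, δ) 1) = g (t, δ) := by simp
      have e2 : φ (g (t, δ)) = single (t, δ) (θ δ) := Finsupp.ext fun i => by
        rw [← e1, hφ, single_apply, single_apply]; split_ifs with h
        · rw [← h, one_smul]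
        · rw [zero_smul]
      rw [hj, (hψ _).2 ⟨_, e1⟩, e2, curry_single]
      simp only [singleAddHom_apply, single_apply]
      split_ifs <;> simp
    exact this (hx t)
  · have e0 : e • j m t = 0 := by rw [← Finsupp.nsmul_apply, ← map_nsmul, he, map_zero]; rfl
    generalize j m t = x at e0
    change x ∈ Q.topologicalClosure
    have : x = ∑ γ ∈ Finsupp.support x, sg γ (x.toFun γ) := (Finsupp.sum_single x).symm
    rw [this]
    refine AddSubgroup.sum_mem _ fun γ _ => Metric.mem_closure_iff.2 fun ε hε => ?_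
    obtain ⟨k, hk⟩ := exists_nat_one_div_lt (half_pos hε)
    obtain ⟨n, hn⟩ := ha (γ, k) (x.toFun γ) (congrArg (fun z : M × List ℕ →₀ Ci => z γ) e0)
    refine ⟨n • L1 (single (γ, k) (θ (γ, k))),
      Q.zsmul_mem (AddSubgroup.subset_closure ⟨_, rfl⟩) n, ?_⟩
    rw [L1_single, smul_add, ← map_zsmul, ← map_zsmul, dist_eq_norm, ← sub_sub, ← map_sub]
    refine (norm_sub_le _ _).trans_lt ?_
    rw [nm_sg, nm_sg]
    have b1 := mul_le_mul (w_pos γ).2 hn (norm_nonneg _) zero_le_one
    have b2 : ‖n • θ (γ, k)‖ ≤ 1 := (AddCircle.norm_le_half_period 1 one_ne_zero).trans (by norm_num)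
    have b3 : w (cons (γ, k)) = 1 / (k + 1) := rfl
    have b4 := mul_le_mul_of_nonneg_left b2 (w_pos (cons (γ, k))).1.le
    simp only [θ] at *
    linarith

end Pool.Agent.H89.MG
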