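import Pool.Agent.H89.MG3

set_option autoImplicit false

namespace Pool.Agent.H89.MG

open Set Cardinal Finsupp

universe u

variable {M : Type u} [AddCommGroup M]

def Sz (G : Type u) [AddCommGroup G] (m : ℕ) : Cardinal.{u} := #(range fun x : G => m • x)

theorem sz_sub (A : AddSubgroup M) (m : ℕ) : Sz A m = #((fun x => m • x) '' (A : Set M)) := by
  rw [Sz, ← mk_image_eq Subtype.val_injective, ← range_comp, image_eq_range]; rfl

theorem gcd_mul (y : M) (n : ℤ) (e : ℕ) (h : e • y = 0) : ∃ s : ℤ, s • n • y = (n.gcd e) • y := by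
  refine ⟨n.gcdA e, ?_⟩
  rw [← natCast_zsmul, Int.gcd_eq_gcd_ab, add_smul, mul_comm (e : ℤ), mul_smul _ (e : ℤ),
    natCast_zsmul, h, smul_zero, add_zero, mul_comm, mul_smul]

theorem soc {p v : ℕ} (hp : p.Prime) (y : M) (h : p ^ (v + 1) • y = 0) (n : ℤ) (hn : n • y ≠ 0) :
    ∃ s : ℤ, s • n • y = p ^ v • y := by
  obtain ⟨s, hs⟩ := gcd_mul y n _ h
  obtain ⟨j, hj, e⟩ := (Nat.dvd_prime_pow hp).1 (Int.natCast_dvd_natCast.1
    (Int.gcd_dvd_right n (p ^ (v + 1) : ℕ)))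
  rcases hj.eq_or_lt with rfl | hj
  · obtain ⟨c, hc⟩ := Int.gcd_dvd_left n (p ^ (v + 1) : ℕ)
    exact absurd (by rw [hc, e, mul_comm, mul_smul, natCast_zsmul, h, smul_zero]) hn
  · refine ⟨(p ^ (v - j) : ℕ) * s, ?_⟩
    rw [mul_smul, hs, e, natCast_zsmul, ← mul_smul, ← pow_add, Nat.sub_add_cancel (by omega)]

theorem cunion {X : Type u} (f : ℕ → Set X) (l : Cardinal.{u}) (h0 : ℵ₀ ≤ l) (h : ∀ n, #(f n) ≤ l) :
    #(⋃ n, f n) ≤ l := by
  have := mk_iUnion_le_lift f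
  simp only [lift_id', mk_nat, lift_aleph0] at this
  exact this.trans (mul_le_of_le h0 h0 (ciSup_le' h))

theorem fib (A : AddSubgroup M) (n : ℕ) (B : Set M) :
    #{x | x ∈ A ∧ n • x ∈ B} ≤ #B * #{x | x ∈ A ∧ n • x = 0} := by
  refine mk_le_mk_mul_of_mk_preimage_le (fun x => (⟨n • x.1, x.2.2⟩ : B)) fun b => ?_
  rcases isEmpty_or_nonempty ((fun x : {x | x ∈ A ∧ n • x ∈ B} => (⟨n • x.1, x.2.2⟩ : B)) ⁻¹' {b})
    with h | ⟨⟨x0⟩⟩
  · simp
  refine mk_le_of_injective (f := fun x => ⟨x.1.1 - x0.1.1, A.sub_mem x.1.2.1 x0.1.2.1, ?_⟩)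
    fun x y h => Subtype.ext (Subtype.ext (sub_left_injective (congrArg Subtype.val h)))
  have a : n • x.1.1 = b := congrArg Subtype.val x.2
  have b : n • x0.1.1 = b := congrArg Subtype.val x0.2
  rw [smul_sub, a, b, sub_self]

theorem ess (A : AddSubgroup M) (K : Submodule ℤ M) (l : Cardinal.{u}) (h0 : ℵ₀ ≤ l) (hK : #K ≤ l)
    (h : ∀ x ∈ A, x ≠ 0 → ∃ n : ℤ, n • x ∈ K ∧ n • x ≠ 0) : #A ≤ l := by
  have t : ∀ N : ℕ, N ≠ 0 → #{x | x ∈ A ∧ N • x = 0} ≤ l := by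
    intro N
    induction N using induction_on_primes with
    | zero => simp
    | one =>
      exact fun _ => (mk_le_mk_of_subset (t := K) fun x hx => by
        rw [← one_smul ℕ x, hx.2]; exact K.zero_mem).trans hK
    | prime_mul p N hp ih =>
      intro hN
      refine le_trans (mk_le_mk_of_subset fun x hx => ?_) ((fib A p {x | x ∈ A ∧ N • x = 0}).trans
        (mul_le_of_le h0 (ih (right_ne_zero_of_mul hN))
          ((mk_le_mk_of_subset (t := K) fun x hx => ?_).trans hK)))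
      · exact ⟨hx.1, A.nsmul_mem hx.1 p, by rw [← mul_smul, mul_comm]; exact hx.2⟩
      · by_cases x0 : x = 0
        · rw [x0]; exact K.zero_mem
        obtain ⟨n, h1, h2⟩ := h x hx.1 x0
        obtain ⟨s, hs⟩ := soc (v := 0) hp x (by simpa using hx.2) n h2
        rw [pow_zero, one_smul] at hs
        rw [← hs]; exact K.smul_mem s h1
  change #(A : Set M) ≤ l
  refine le_trans (mk_le_mk_of_subset (s := (A : Set M)) fun x hx => ?_)
    (cunion (fun N => {x | x ∈ A ∧ (N + 1) • x ∈ (K : Set M)}) l h0 fun N =>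
      (fib A _ K).trans (mul_le_of_le h0 hK (t _ N.succ_ne_zero)))
  by_cases x0 : x = 0
  · exact mem_iUnion.2 ⟨0, hx, by simp [x0]⟩
  obtain ⟨n, h1, h2⟩ := h x hx x0
  have n0 : n.natAbs ≠ 0 := fun h => h2 (by rw [Int.natAbs_eq_zero.1 h, zero_smul])
  refine mem_iUnion.2 ⟨n.natAbs - 1, hx, ?_⟩
  rw [Nat.sub_add_cancel (by omega), ← natCast_zsmul]
  rcases Int.natAbs_eq_iff.1 (rfl : n.natAbs = n.natAbs) with e | e
  · rw [← e]; exact h1
  · rw [e, neg_smul] at h1; exact K.neg_mem_iff.1 h1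

theorem core0 (h : ∀ m ≠ 0, #M ≤ Sz M m) (hc : 𝔠 ≤ #M) : Nice M := by
  refine core M 0 (fun x => zero_smul _ _) fun μ hμ k => ?_
  by_contra hn
  have : ∀ a : ℕ, ∃ K : Submodule ℤ M, (#K ≤ μ ∨ #K < 𝔠) ∧ ((a = 0 ∨ k < a) →
      ∀ g : M, addOrderOf g = a → ∃ n : ℤ, n • g ∈ K ∧ n • g ≠ 0) := fun a => by
    by_cases ha : a = 0 ∨ k < a
    · by_contra h'
      refine hn ⟨a, fun τ _ => th_approx a k ha τ, fun ν hν K hK => ?_⟩
      by_contra h2
      push Not at h2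
      exact h' ⟨K, hν.imp hK.trans hK.trans_lt, fun _ => h2⟩
    · exact ⟨⊥, Or.inr (lt_of_le_of_lt (by simp) aleph0_lt_continuum), fun h => absurd h ha⟩
  choose K k1 k2 using this
  classical
  let f : ULift.{u} ℕ → Cardinal.{u} := fun a => if #(K a.1) < 𝔠 then #(K a.1) else 0
  have f1 : ⨆ a, f a < 𝔠 := iSup_lt_of_lt_cof_ord
    (by rw [← two_power_aleph0]; exact mk_le_aleph0.trans_lt (lt_cof_ord_power le_rfl one_lt_two))
    fun a => by
      simp only [f]; split_ifs with h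
      exacts [h, continuum_pos]
  let l := max (max ℵ₀ μ) (⨆ a, f a)
  have l0 : ℵ₀ ≤ l := le_max_of_le_left (le_max_left _ _)
  have lK : #(Submodule.span ℤ (⋃ a, (K a : Set M))) ≤ l := by
    refine (card_span _).trans (max_le l0 (cunion _ l l0 fun a => ?_))
    by_cases h : #(K a) < 𝔠
    · exact le_max_of_le_right (le_ciSup_of_le bddAbove_of_small ⟨a⟩ (if_pos h).ge)
    · exact le_max_of_le_left (le_max_of_le_right ((k1 a).resolve_right h))
  have sub : ∀ a, ∀ x ∈ K a, x ∈ Submodule.span ℤ (⋃ a, (K a : Set M)) := fun a x hx =>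
    Submodule.subset_span (mem_iUnion.2 ⟨a, hx⟩)
  have := ess (nsmulAddMonoidHom (α := M) k.factorial).range _ l l0 lK (by
    rintro _ ⟨y, rfl⟩ hy
    simp only [nsmulAddMonoidHom_apply] at hy ⊢
    by_cases a0 : addOrderOf y = 0
    · obtain ⟨n, h1, h2⟩ := k2 0 (Or.inl rfl) y a0
      refine ⟨n, by rw [smul_comm]; exact Submodule.smul_of_tower_mem _ _ (sub _ _ h1), fun h => ?_⟩
      rw [← natCast_zsmul, ← mul_smul, ← addOrderOf_dvd_iff_zsmul_eq_zero, a0] at h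
      rcases mul_eq_zero.1 (zero_dvd_iff.1 h) with h | h
      · exact h2 (by rw [h, zero_smul])
      · exact k.factorial_ne_zero (by exact_mod_cast h)
    rw [Ne, ← addOrderOf_dvd_iff_nsmul_eq_zero, Nat.dvd_iff_prime_pow_dvd_dvd] at hy
    push Not at hy
    obtain ⟨p, v, hp, h1, h2⟩ := hy
    cases v with
    | zero => simp at h2
    | succ v =>
    have o := addOrderOf_nsmul_addOrderOf_sub a0 h1
    set z := (addOrderOf y / p ^ (v + 1)) • y with hz
    have z0 : p ^ (v + 1) • z = 0 := by rw [← o, addOrderOf_nsmul_eq_zero]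
    obtain ⟨n, h3, h4⟩ := k2 _ (Or.inr (lt_of_not_ge fun h =>
      h2 (Nat.dvd_factorial (pow_pos hp.pos _) h))) z o
    obtain ⟨s, hs⟩ := soc hp z z0 n h4
    obtain ⟨t, ht⟩ := soc hp z z0 k.factorial (by
      rw [natCast_zsmul, Ne, ← addOrderOf_dvd_iff_nsmul_eq_zero, o]; exact h2)
    have e : (t * (addOrderOf y / p ^ (v + 1) : ℕ)) • k.factorial • y = p ^ v • z := by
      rw [← ht, mul_smul, natCast_zsmul, natCast_zsmul, smul_comm _ k.factorial]
    refine ⟨_, e ▸ hs ▸ Submodule.smul_mem _ _ (sub _ _ h3), ?_⟩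
    rw [e, Ne, ← addOrderOf_dvd_iff_nsmul_eq_zero, o, Nat.pow_dvd_pow_iff_le_right hp.one_lt]
    omega)
  exact absurd ((h _ k.factorial_ne_zero).trans this) (not_le.2 (max_lt
    (max_lt (aleph0_lt_continuum.trans_le hc) hμ) (f1.trans_le hc)))

theorem coreq {p v : ℕ} (hp : p.Prime) (he : ∀ x : M, p ^ (v + 1) • x = 0)
    (h : #M ≤ Sz M (p ^ v)) (hc : 𝔠 ≤ #M) : Nice M := by
  refine core M _ he fun μ hμ k => ⟨p ^ (v + 1), fun τ hτ => ?_, fun ν hν K hK => ?_⟩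
  · obtain ⟨n, hn⟩ := th_exact _ k (pow_pos hp.pos _).ne' τ hτ
    exact ⟨n, by rw [← hn, sub_self, norm_zero]; positivity⟩
  · have : ¬ (range fun x : M => p ^ v • x) ⊆ K := fun hs => absurd
      (h.trans ((mk_le_mk_of_subset hs).trans hK))
      (not_le.2 (hν.elim (fun h => h.trans_lt hμ) fun h => h.trans_le hc))
    obtain ⟨_, ⟨g, rfl⟩, hg⟩ := not_subset.1 this
    haveI := Fact.mk hp
    refine ⟨g, addOrderOf_eq_prime_pow (fun h => hg (by simp only [h]; exact K.zero_mem)) (he g),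
      fun n hn => by_contra fun h => ?_⟩
    obtain ⟨s, hs⟩ := soc hp g (he g) n h
    exact hg (by simp only [← hs]; exact K.smul_mem s hn)

end Pool.Agent.H89.MG
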