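import Pool.Agent.H89.MG4

set_option autoImplicit false

namespace Pool.Agent.H89.MG

open Set Cardinal Finsupp

universe u

theorem split (G : Type u) [AddCommGroup G] {p : ℕ} (hp : p.Prime) (v : ℕ) :
    ∃ U H : AddSubgroup G, (∀ x ∈ U, x ∈ H → x = 0) ∧ (∀ x, ∃ a ∈ U, x - a ∈ H) ∧
      (∀ x ∈ U, p ^ (v + 1) • x = 0) ∧ #U ≤ max ℵ₀ (Sz U (p ^ v)) ∧
      ∀ y ∈ H, p ^ (v + 1) • y = 0 → ∃ z ∈ H, p ^ v • y = p ^ (v + 1) • z := by
  classical
  haveI := Fact.mk hp
  obtain ⟨_, _⟩ := exists_wellFoundedLT G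
  let N : Submodule ℤ G := LinearMap.range (p ^ (v + 1) • LinearMap.id)
  have Nq : ∀ x, N.mkQ (p ^ (v + 1) • x) = 0 := fun x =>
    (Submodule.Quotient.mk_eq_zero N).2 ⟨x, rfl⟩
  have Nq' : ∀ x, p ^ (v + 1) • N.mkQ x = 0 := fun x => by rw [← map_nsmul, Nq]
  obtain ⟨g, hg, hi⟩ := rec_ind (ι := G) (M := G ⧸ N)
    (fun i K => if p ^ (v + 1) • i = 0 ∧ p ^ v • N.mkQ i ≠ 0 ∧
      ∀ n : ℤ, n • N.mkQ i ∈ K → n • N.mkQ i = 0 then N.mkQ i else 0) fun i K n => by
      split_ifs with h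
      exacts [h.2.2 n, fun _ => smul_zero _]
  set good : G → Prop := fun i => p ^ (v + 1) • i = 0 ∧ p ^ v • N.mkQ i ≠ 0 ∧
      ∀ n : ℤ, n • N.mkQ i ∈ Submodule.span ℤ (g '' Iio i) → n • N.mkQ i = 0 with hgood
  replace hg : ∀ i, g i = if good i then N.mkQ i else 0 := hg
  let g' : G → G := fun i => if good i then i else 0
  have gg : N.mkQ ∘ g' = g := funext fun i => by
    simp only [Function.comp, g', hg i]; split_ifs <;> simp
  have go : ∀ i, good i → addOrderOf (g i) = p ^ (v + 1) := fun i h => by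
    rw [hg, if_pos h]; exact addOrderOf_eq_prime_pow h.2.1 (Nq' i)
  have go' : ∀ i, addOrderOf (g i) = addOrderOf (g' i) := fun i => by
    by_cases h : good i
    · rw [go i h]; simp only [g', if_pos h]
      exact (addOrderOf_eq_prime_pow (fun e => h.2.1 (by rw [← map_nsmul, e, map_zero])) h.1).symm
    · simp only [g', hg i, if_neg h, addOrderOf_zero]
  obtain ⟨φ0, hφ0⟩ := ind_ext g hi (fun i => th (addOrderOf (g i)) 0) fun i => th_ord _ _
  let φ : G →+ (G →₀ Ci) := (filterAddHom good).comp (φ0.comp N.mkQ.toAddMonoidHom)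
  have φa : ∀ x i, φ x i = if good i then φ0 (N.mkQ x) i else 0 := fun x i => filter_apply _ _ _
  have hφ : ∀ c i, φ (linearCombination ℤ g' c) i = c i • th (addOrderOf (g i)) 0 := fun c i => by
    rw [φa, apply_linearCombination, gg, hφ0]
    split_ifs with h
    · rfl
    · exact ((ord_iff (th_ord _ 0) _).2 (by rw [hg, if_neg h, smul_zero])).symm
  let U := Submodule.span ℤ {i | good i}
  have lU : ∀ c, linearCombination ℤ g' c ∈ U := fun c =>
    Submodule.sum_mem _ fun i _ => Submodule.smul_mem _ _ (by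
      simp only [g']; split_ifs with h
      exacts [Submodule.subset_span h, U.zero_mem])
  have Ul : ∀ x ∈ U, ∃ c, linearCombination ℤ g' c = x := fun x hx =>
    span_le_lc g' {i | good i} x (Submodule.span_mono (t := g' '' {i | good i})
      (fun i h => (mem_image _ _ _).2 ⟨i, h, if_pos h⟩) hx)
  have h1 : ∀ x ∈ U, x ∈ φ.ker → x = 0 := fun x hx h => by
    obtain ⟨c, rfl⟩ := Ul x hx
    exact Finset.sum_eq_zero fun i _ => (ord_iff ((th_ord _ 0).trans (go' i)) (c i)).1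
      (by rw [← hφ, h]; rfl)
  have h2 : ∀ x, ∃ a ∈ U, x - a ∈ φ.ker := fun x => by
    have : ∀ i, ∃ n : ℤ, φ x i = n • th (addOrderOf (g i)) 0 ∧ (n ≠ 0 → i ∈ (φ x).support) := fun i => by
      by_cases h0 : φ x i = 0
      · exact ⟨0, by rw [h0, zero_smul], fun h => absurd rfl h⟩
      have h : good i := by_contra fun h => h0 (by rw [φa, if_neg h])
      obtain ⟨n, hn⟩ := th_exact _ 0 (pow_pos hp.pos (v + 1)).ne' (φ x i) (by
        rw [φa, if_pos h, ← Finsupp.nsmul_apply, ← map_nsmul, Nq', map_zero]; rfl)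
      exact ⟨n, by rw [go i h]; exact hn, fun _ => mem_support_iff.2 h0⟩
    choose n n1 n2 using this
    refine ⟨_, lU (onFinset _ n n2), ?_⟩
    rw [AddMonoidHom.mem_ker, map_sub, sub_eq_zero]
    exact Finsupp.ext fun i => by rw [hφ, n1]; rfl
  have h3 : ∀ x ∈ U, p ^ (v + 1) • x = 0 := fun x hx =>
    (Submodule.span_le (p := LinearMap.ker (p ^ (v + 1) • LinearMap.id : G →ₗ[ℤ] G))).2
      (fun i h => h.1) hx
  refine ⟨U.toAddSubgroup, φ.ker, h1, h2, h3, (card_span _).trans (max_le_max le_rfl ?_),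
    fun y hy y0 => ?_⟩
  · rw [sz_sub]
    refine mk_le_of_injective (f := fun i => ⟨p ^ v • i.1, i.1, Submodule.subset_span i.2, rfl⟩)
      fun i j h => Subtype.ext (by_contra fun hne => i.2.2.1 ?_)
    replace h : p ^ v • i.1 = p ^ v • j.1 := congrArg Subtype.val h
    have := hi (single i.1 ((p ^ v : ℕ) : ℤ) - single j.1 ((p ^ v : ℕ) : ℤ)) (by
      rw [map_sub, linearCombination_single, linearCombination_single, hg, hg,
        if_pos (show good i from i.2), if_pos (show good j from j.2),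
        natCast_zsmul, natCast_zsmul, ← map_nsmul, ← map_nsmul, h, sub_self]) i.1
    rwa [Finsupp.sub_apply, single_eq_same, single_eq_of_ne hne, sub_zero, natCast_zsmul, hg,
      if_pos (show good i from i.2)] at this
  · have : ∃ c, linearCombination ℤ g c = p ^ v • N.mkQ y := by
      by_cases h : good y
      · exact ⟨single y (p ^ v : ℕ), by rw [linearCombination_single, hg, if_pos h, natCast_zsmul]⟩
      by_cases h0 : p ^ v • N.mkQ y = 0
      · exact ⟨0, by rw [h0, map_zero]⟩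
      simp only [hgood, not_and, not_forall] at h
      obtain ⟨n, h1, h2⟩ := h y0 h0
      obtain ⟨s, hs⟩ := soc hp _ (Nq' y) n h2
      exact span_le_lc g _ _ (hs ▸ Submodule.smul_mem _ s h1)
    obtain ⟨c, hc⟩ := this
    rw [← gg, ← apply_linearCombination, ← map_nsmul, eq_comm, ← sub_eq_zero, ← map_sub,
      Submodule.mkQ_apply, Submodule.Quotient.mk_eq_zero] at hc
    obtain ⟨z, hz⟩ := hc
    replace hz : p ^ (v + 1) • z = p ^ v • y - linearCombination ℤ g' c := hz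
    have q0 : φ (p ^ (v + 1) • z) = 0 := Finsupp.ext fun i => by rw [φa, Nq]; simp
    have := h1 _ (lU c) (by
      rw [hz, map_sub, map_nsmul, hy, smul_zero, zero_sub, neg_eq_zero] at q0; exact q0)
    obtain ⟨a, ha, hb⟩ := h2 z
    exact ⟨_, hb, by rw [smul_sub, h3 a ha, hz, this, sub_zero, sub_zero]⟩

theorem main (e : ℕ) (he : e = 0 ∨ ∃ p v, Nat.Prime p ∧ e = p ^ (v + 1)) (κ : Cardinal.{u})
    (hκ : 𝔠 ≤ κ) (d : ℕ) : ¬e ∣ d → ∀ (G : Type u) [AddCommGroup G], (∀ x : G, e • x = 0) →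
      (∀ m, ¬e ∣ m → κ ≤ Sz G m) → Sz G d ≤ κ → Nice G := by
  have k0 : ℵ₀ ≤ κ := aleph0_le_continuum.trans hκ
  induction d using induction_on_primes with
  | zero => simp
  | one =>
    intro h1 G _ h2 h3 h4
    have c : #G ≤ κ := by
      refine le_trans (le_of_eq ?_) h4
      simp [Sz]
    have c' : 𝔠 ≤ #G := hκ.trans ((h3 1 h1).trans mk_range_le)
    rcases he with rfl | ⟨p, v, hp, rfl⟩
    · exact core0 (fun m hm => c.trans (h3 m (by simpa using hm))) c'
    · exact coreq hp h2 (c.trans (h3 _ (by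
        rw [Nat.pow_dvd_pow_iff_le_right hp.one_lt]; omega))) c'
  | prime_mul p d hp ih =>
    intro h1 G _ h2 h3 h4
    have d0 : d ≠ 0 := fun h => h1 (by simp [h])
    have h1' : ¬e ∣ d := fun h => h1 (h.mul_left p)
    obtain ⟨v, f, hf, hd⟩ := Nat.exists_eq_pow_mul_and_not_dvd d0 p hp.ne_one
    obtain ⟨U, H, u1, u2, u3, u4, u5⟩ := split G hp v
    have s1 : Sz H d ≤ κ := by
      rw [sz_sub]
      let A := H.map (nsmulAddMonoidHom (α := G) d)
      refine le_trans (mk_le_mk_of_subset (t := {x | x ∈ A ∧ p • x ∈ range fun x : G => (p * d) • x})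
        ?_) ((fib A p _).trans (mul_le_of_le k0 h4 ((mk_le_mk_of_subset ?_).trans h4)))
      · rintro _ ⟨y, hy, rfl⟩
        exact ⟨⟨y, hy, rfl⟩, y, mul_smul _ _ _⟩
      · rintro _ ⟨⟨y, hy, rfl⟩, h⟩
        simp only [nsmulAddMonoidHom_apply] at h ⊢
        obtain ⟨z, -, hz⟩ := u5 (f • y) (H.nsmul_mem hy f) (by
          rw [← h, hd, pow_succ', ← mul_smul, ← mul_smul, mul_assoc])
        rw [← mul_smul, ← hd] at hz
        obtain ⟨s, hs⟩ := gcd_mul (d • y) f p h
        rw [Int.gcd_natCast_natCast, ((Nat.Prime.coprime_iff_not_dvd hp).2 hf).symm, one_smul] at hs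
        refine ⟨s • z, ?_⟩
        simp only
        rw [← hs, hz, natCast_zsmul, smul_comm _ s, ← mul_smul, hd, pow_succ']
        congr 2; ring
    rcases le_or_gt 𝔠 #U with hU | hU
    · refine nice_compl U H (coreq hp (fun x => Subtype.ext (u3 x x.2)) ?_ hU)
        (ih h1' H (fun x => Subtype.ext (h2 x)) (fun m hm => ?_) s1) u1 u2
      · exact (le_max_iff.1 u4).resolve_left (not_le.2 (aleph0_lt_continuum.trans_le hU))
      · refine (h3 (m.lcm (p * d)) fun h => ?_).trans ?_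
        · have m0 : m ≠ 0 := fun h => hm (by simp [h])
          have p0 : p * d ≠ 0 := mul_ne_zero hp.ne_zero d0
          rcases he with rfl | ⟨r, w, hr, rfl⟩
          · exact Nat.lcm_ne_zero m0 p0 (zero_dvd_iff.1 h)
          · rw [hr.pow_dvd_iff_le_factorization (Nat.lcm_ne_zero m0 p0), Nat.factorization_lcm m0 p0,
              Finsupp.sup_apply, le_sup_iff, ← hr.pow_dvd_iff_le_factorization m0,
              ← hr.pow_dvd_iff_le_factorization p0] at h
            exact h.elim hm h1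
        · rw [sz_sub]
          refine mk_le_mk_of_subset ?_
          rintro _ ⟨x, rfl⟩
          obtain ⟨a, ha, hb⟩ := u2 x
          obtain ⟨s, hs⟩ := Nat.dvd_lcm_left m (p * d)
          obtain ⟨t, ht⟩ := Nat.dvd_lcm_right m (p * d)
          refine ⟨s • (x - a), H.nsmul_mem hb s, ?_⟩
          have : m.lcm (p * d) • a = 0 := by
            rw [ht, hd, show p * (p ^ v * f) * t = f * t * p ^ (v + 1) by ring, mul_smul, u3 a ha,
              smul_zero]
          simp only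
          rw [← mul_smul, ← hs, smul_sub, this, sub_zero]
    · refine ih h1' G h2 h3 (le_trans ?_ (mul_le_of_le k0 (hU.le.trans hκ) s1))
      rw [sz_sub, mul_def]
      refine mk_le_of_surjective (f := fun x : U × ((fun x => d • x) '' (H : Set G)) =>
        (⟨d • x.1.1 + x.2.1, ?_⟩ : range fun x : G => d • x)) ?_
      · obtain ⟨y, -, hy⟩ := x.2.2
        exact ⟨x.1.1 + y, by simp only at hy ⊢; rw [smul_add, hy]⟩
      · rintro ⟨_, x, rfl⟩
        obtain ⟨a, ha, hb⟩ := u2 x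
        exact ⟨(⟨a, ha⟩, ⟨_, _, hb, rfl⟩), Subtype.ext (by simp [smul_sub])⟩

theorem main' (e : ℕ) (he : e = 0 ∨ ∃ p v, Nat.Prime p ∧ e = p ^ (v + 1)) (G : Type u)
    [AddCommGroup G] (h1 : ∀ x : G, e • x = 0) (h2 : ∀ m, ¬e ∣ m → 𝔠 ≤ Sz G m) : Nice G := by
  have : (Sz G '' {m | ¬e ∣ m}).Nonempty := ⟨_, 1, by
    rcases he with rfl | ⟨p, v, hp, rfl⟩
    · simp
    · simp [hp.ne_one], rfl⟩
  obtain ⟨d, hd, e1⟩ := csInf_mem this
  exact main e he (Sz G d) (h2 d hd) d hd G h1 (fun m hm => e1 ▸ csInf_le' ⟨m, hm, rfl⟩) le_rfl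

def MC (G : Type u) [AddCommGroup G] : Prop := ∀ m : ℕ, (∀ x : G, m • x = 0) ∨ 𝔠 ≤ Sz G m

theorem bdd (e : ℕ) : e ≠ 0 → ∀ (G : Type u) [AddCommGroup G], MC G → (∀ x : G, e • x = 0) →
    Nice G := by
  induction e using Nat.strong_induction_on with
  | _ e ih =>
  intro e0 G _ h1 h2
  by_cases h : ∃ m, ¬e ∣ m ∧ ∀ x : G, m • x = 0
  · obtain ⟨m, h3, h4⟩ := h
    refine ih (m.gcd e) (lt_of_le_of_ne (Nat.gcd_le_right _ (Nat.pos_of_ne_zero e0)) fun h =>
      h3 (h ▸ Nat.gcd_dvd_left _ _)) (Nat.gcd_ne_zero_right e0) G h1 fun x => ?_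
    obtain ⟨s, hs⟩ := gcd_mul x m e (h2 x)
    rw [← Int.gcd_natCast_natCast, ← hs, natCast_zsmul, h4, smul_zero]
  push Not at h
  have h3 : ∀ m, ¬e ∣ m → 𝔠 ≤ Sz G m := fun m hm => (h1 m).resolve_left (not_forall.2 (h m hm))
  by_cases e1 : e = 1
  · subst e1
    refine Nice.of_equiv (A := PUnit) ⟨PUnit, inferInstance, AddEquiv.refl _, fun y =>
      ⟨fun _ => 0, continuous_const, rfl, rfl, fun _ _ => Or.inr rfl⟩⟩ ?_
    haveI : Unique G := ⟨⟨0⟩, fun x => by simpa using h2 x⟩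
    exact AddEquiv.ofUnique
  obtain ⟨p, hp, hpe⟩ := Nat.exists_prime_and_dvd e1
  obtain ⟨v, f, hf, hd⟩ := Nat.exists_eq_pow_mul_and_not_dvd e0 p hp.ne_one
  cases v with
  | zero => exact absurd (by simpa [hd] using hpe) hf
  | succ v =>
  by_cases f1 : f = 1
  · exact main' e (Or.inr ⟨p, v, hp, by rw [hd, f1, mul_one]⟩) G h2 h3
  have key : ∀ a b : ℕ, a.Coprime b → e = a * b → b ≠ 1 →
      Nice (nsmulAddMonoidHom (α := G) a).ker := fun a b hab he b1 => by
    have a0 : a ≠ 0 := fun h => e0 (by simp [he, h])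
    have b0 : b ≠ 0 := fun h => e0 (by simp [he, h])
    refine ih a (he ▸ lt_mul_of_one_lt_right (Nat.pos_of_ne_zero a0) (by omega)) a0 _
      (fun m => (h1 (m * b)).imp (fun h x => Subtype.ext ?_) fun h => h.trans ?_)
      fun x => Subtype.ext x.2
    · obtain ⟨s, hs⟩ := gcd_mul x.1 b a x.2
      rw [Int.gcd_natCast_natCast, hab.symm, one_smul] at hs
      change m • x.1 = 0
      rw [← hs, natCast_zsmul, smul_comm, ← mul_smul, h, smul_zero]
    · rw [sz_sub]
      refine mk_le_mk_of_subset ?_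
      rintro _ ⟨x, rfl⟩
      exact ⟨b • x, by simp [← mul_smul, ← he, h2], (mul_smul _ _ _).symm⟩
  have cop : (p ^ (v + 1)).Coprime f := ((Nat.Prime.coprime_iff_not_dvd hp).2 hf).pow_left _
  refine nice_compl _ _ (key _ _ cop hd f1) (key _ _ cop.symm (hd.trans (mul_comm _ _))
    (Nat.one_lt_pow (by omega) hp.one_lt).ne') (fun x a b => ?_) fun x => ?_
  · obtain ⟨s, hs⟩ := gcd_mul x f _ a
    rw [Int.gcd_natCast_natCast, cop.symm, one_smul] at hs
    rw [← hs, natCast_zsmul, show f • x = 0 from b, smul_zero]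
  · obtain ⟨s, hs⟩ := gcd_mul (f • x) f (p ^ (v + 1)) (by rw [← mul_smul, ← hd, h2])
    rw [Int.gcd_natCast_natCast, cop.symm, one_smul] at hs
    refine ⟨s • f • x, ?_, ?_⟩
    · change p ^ (v + 1) • s • f • x = 0
      rw [smul_comm, ← mul_smul, ← hd, h2, smul_zero]
    · change f • (x - s • f • x) = 0
      rw [smul_sub, smul_comm f s, ← natCast_zsmul (f • x), hs, sub_self]

theorem nice_of_mc (G : Type u) [AddCommGroup G] (h : MC G) : Nice G := by
  by_cases h1 : ∃ e : ℕ, e ≠ 0 ∧ ∀ x : G, e • x = 0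
  · obtain ⟨e, e0, he⟩ := h1
    exact bdd e e0 G h he
  · exact main' 0 (Or.inl rfl) G (fun x => zero_smul _ _) fun m hm =>
      (h m).resolve_left fun h => h1 ⟨m, by simpa using hm, h⟩

end Pool.Agent.H89.MG
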