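import Mathlib

set_option autoImplicit false

namespace Pool.Agent.H89.MX
open Finset Function
open scoped Classical

section avg
variable {ι α : Type} [Fintype ι] [DecidableEq ι] [Fintype α]

noncomputable def Ex (g : (ι → α) → ℝ) : ℝ := (∑ x, g x) / (Fintype.card α : ℝ) ^ Fintype.card ι

lemma indep1 (g : (ι → α) → ℝ) (i : ι) (hg : ∀ x t, g (update x i t) = g x) (h : α → ℝ) :
    (∑ x, g x * h (x i)) * Fintype.card α = (∑ x, g x) * ∑ t, h t := by
  let e : (ι → α) × α ≃ (ι → α) × α :=
    { toFun := fun p => (update p.1 i p.2, p.1 i)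
      invFun := fun p => (update p.1 i p.2, p.1 i)
      left_inv := fun p => by simp
      right_inv := fun p => by simp }
  have h1 : (∑ x, g x) * ∑ t, h t = ∑ p : (ι → α) × α, g p.1 * h p.2 := by
    rw [Fintype.sum_prod_type, Finset.sum_mul_sum]
  have h2 : (∑ x, g x * h (x i)) * Fintype.card α = ∑ p : (ι → α) × α, g p.1 * h (p.1 i) := by
    rw [Fintype.sum_prod_type, Finset.sum_mul]
    refine Finset.sum_congr rfl fun x _ => ?_
    simp [mul_comm]
  rw [h1, h2, ← e.sum_comp (fun p => g p.1 * h p.2)]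
  refine Finset.sum_congr rfl fun p _ => ?_
  simp [e, hg]

lemma Ex_mono {f g : (ι → α) → ℝ} (h : ∀ x, f x ≤ g x) : Ex f ≤ Ex g :=
  div_le_div_of_nonneg_right (Finset.sum_le_sum fun x _ => h x) (by positivity)

lemma Ex_add (f g : (ι → α) → ℝ) : Ex (fun x => f x + g x) = Ex f + Ex g := by
  simp [Ex, Finset.sum_add_distrib, add_div]

lemma Ex_sub (f g : (ι → α) → ℝ) : Ex (fun x => f x - g x) = Ex f - Ex g := by
  simp [Ex, Finset.sum_sub_distrib, sub_div]

lemma Ex_mul (c : ℝ) (f : (ι → α) → ℝ) : Ex (fun x => c * f x) = c * Ex f := by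
  simp [Ex, ← Finset.mul_sum, mul_div_assoc]

lemma Ex_sum {β : Type} (s : Finset β) (f : β → (ι → α) → ℝ) :
    Ex (fun x => ∑ b ∈ s, f b x) = ∑ b ∈ s, Ex (f b) := by
  simp only [Ex]
  rw [Finset.sum_comm, Finset.sum_div]

lemma Ex_const [Nonempty α] (c : ℝ) : Ex (fun _ : ι → α => c) = c := by
  have : (0 : ℝ) < (Fintype.card α : ℝ) ^ Fintype.card ι := by
    have := Fintype.card_pos (α := α); positivity
  simp only [Ex, Finset.sum_const, Finset.card_univ, Fintype.card_fun, nsmul_eq_mul]
  push_cast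
  field_simp

lemma Ex_indep1 [Nonempty α] (g : (ι → α) → ℝ) (i : ι) (hg : ∀ x t, g (update x i t) = g x)
    (h : α → ℝ) : Ex (fun x => g x * h (x i)) = Ex g * ((∑ t, h t) / Fintype.card α) := by
  have hp : (0 : ℝ) < (Fintype.card α : ℝ) := by exact_mod_cast Fintype.card_pos (α := α)
  have := indep1 g i hg h
  simp only [Ex]
  rw [div_mul_div_comm, ← this]
  field_simp

lemma Ex_indepT [Nonempty α] {β : Type} (c : β → ι) (hc : Injective c) (h : β → α → ℝ)
    (T : Finset β) (g : (ι → α) → ℝ) (hg : ∀ l ∈ T, ∀ x t, g (update x (c l) t) = g x) :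
    Ex (fun x => g x * ∏ l ∈ T, h l (x (c l))) =
      Ex g * ∏ l ∈ T, ((∑ t, h l t) / Fintype.card α) := by
  induction T using Finset.induction_on with
  | empty => simp
  | insert a T ha ih =>
    simp only [Finset.prod_insert ha]
    have := Ex_indep1 (fun x => g x * ∏ l ∈ T, h l (x (c l))) (c a) (fun x t => by
      rw [hg a (mem_insert_self _ _)]
      congr 1
      refine Finset.prod_congr rfl fun l hl => ?_
      rw [update_of_ne]
      intro e
      exact ha (hc e ▸ hl)) (h a)
    rw [ih fun l hl => hg l (mem_insert_of_mem hl)] at this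
    rw [mul_comm ((∑ t, h a t) / _), ← mul_assoc, ← this]
    congr 1
    funext x
    ring
end avg

noncomputable def ind (p : Prop) : ℝ := if p then 1 else 0
lemma ind_nonneg (p : Prop) : 0 ≤ ind p := by unfold ind; split_ifs <;> norm_num
lemma ind_pos {p : Prop} (h : p) : ind p = 1 := by simp [ind, h]
lemma ind_neg {p : Prop} (h : ¬ p) : ind p = 0 := by simp [ind, h]
lemma ind_congr {p q : Prop} (h : p ↔ q) : ind p = ind q := by rw [propext h]
lemma ind_le_one (p : Prop) : ind p ≤ 1 := by unfold ind; split_ifs <;> norm_num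
lemma ind_and (p q : Prop) : ind (p ∧ q) = ind p * ind q := by
  by_cases hp : p <;> by_cases hq : q <;> simp [ind, hp, hq]
lemma sum_ind_eq {α : Type} [Fintype α] (a : α) : ∑ t, ind (t = a) = 1 := by
  simp [ind]
lemma sum_ind_eq' {α : Type} [Fintype α] (a : α) : ∑ t, ind (a = t) = 1 := by
  simp [ind]

abbrev Al (h : ℕ) := Fin (h + 1) × Bool
abbrev Ix (h N k : ℕ) := (Fin (N + 1) × Bool) ⊕ (Fin (N + 1) ⊕ (Al h × Fin k))

variable {h N k : ℕ}

def o : Al h := (0, false)

def trig (x : Ix h N k → Al h) (t : Fin (N + 1)) : Prop :=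
  x (Sum.inl (t, false)) = o ∧ x (Sum.inl (t, true)) = o

noncomputable def sel (S : Fin (N + 1) → Prop) : Fin (N + 1) :=
  if hS : ∃ t, S t then hS.choose else 0

lemma sel_spec (S : Fin (N + 1) → Prop) : S (sel S) ∨ ∀ t, ¬ S t := by
  by_cases hS : ∃ t, S t
  · left; simp only [sel, dif_pos hS]; exact hS.choose_spec
  · right; push Not at hS; exact hS

noncomputable def addr (x : Ix h N k → Al h) : Al h := x (Sum.inr (Sum.inl (sel (trig x))))

noncomputable def F (x : Ix h N k → Al h) : Fin k → Bool :=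
  fun l => (x (Sum.inr (Sum.inr (addr x, l)))).2

lemma trig_inr (x : Ix h N k → Al h) (j) (t : Al h) : trig (update x (Sum.inr j) t) = trig x := by
  funext s
  simp [trig, update_of_ne]

lemma addr_z (x : Ix h N k → Al h) (j) (t : Al h) :
    addr (update x (Sum.inr (Sum.inr j)) t) = addr x := by
  simp [addr, trig_inr, update_of_ne]

lemma card_Al : (Fintype.card (Al h) : ℝ) = 2 * (h + 1) := by
  simp [Al]; ring

lemma P_addr (a : Al h) : Ex (fun x : Ix h N k → Al h => ind (addr x = a)) = 1 / (2 * (h + 1)) := by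
  have e : (fun x : Ix h N k → Al h => ind (addr x = a)) =
      fun x => ∑ s : Fin (N + 1), ind (sel (trig x) = s) * ind (x (Sum.inr (Sum.inl s)) = a) := by
    funext x
    rw [Finset.sum_eq_single (sel (trig x))]
    · simp [ind, addr]
    · intro b _ hb; rw [ind_neg (Ne.symm hb), zero_mul]
    · simp
  rw [e, Ex_sum]
  have : ∀ s : Fin (N + 1), Ex (fun x : Ix h N k → Al h =>
      ind (sel (trig x) = s) * ind (x (Sum.inr (Sum.inl s)) = a)) =
      Ex (fun x : Ix h N k → Al h => ind (sel (trig x) = s)) * (1 / (2 * (h + 1))) := by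
    intro s
    rw [Ex_indep1 (fun x : Ix h N k → Al h => ind (sel (trig x) = s)) _
      (fun x t => by rw [trig_inr]) (fun t => ind (t = a)), sum_ind_eq, card_Al]
  simp only [this]
  rw [← Finset.sum_mul, ← Ex_sum]
  simp only [sum_ind_eq', Ex_const, one_mul]

lemma P_one (j : Ix h N k) : Ex (fun x : Ix h N k → Al h => ind (x j = o)) = 1 / (2 * (h + 1)) := by
  have := Ex_indep1 (fun _ : Ix h N k → Al h => (1 : ℝ)) j (fun _ _ => rfl) (fun t => ind (t = o))
  simp only [one_mul, Ex_const, sum_ind_eq, card_Al] at this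
  exact this

lemma P_trig (g : (Ix h N k → Al h) → ℝ) (s : Fin (N + 1))
    (hg : ∀ b x t, g (update x (Sum.inl (s, b)) t) = g x) :
    Ex (fun x => g x * ind (trig x s)) = Ex g * (1 / (2 * (h + 1))) ^ 2 := by
  have := Ex_indepT (fun b : Bool => (Sum.inl (s, b) : Ix h N k))
    (fun a b e => by simpa using e) (fun _ t => ind (t = (o : Al h))) univ g (fun b _ => hg b)
  simp only [sum_ind_eq, card_Al, Finset.prod_const, Finset.card_univ, Fintype.card_bool,
    Fintype.prod_bool] at this
  rw [← this]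
  congr 1
  funext x
  rw [trig, ind_and, mul_comm (ind _) (ind _)]

lemma P_none (T : Finset (Fin (N + 1))) :
    Ex (fun x : Ix h N k → Al h => ind (∀ s ∈ T, ¬ trig x s)) =
      (1 - (1 / (2 * (h + 1))) ^ 2) ^ T.card := by
  induction T using Finset.induction_on with
  | empty => simp [ind, Ex_const]
  | insert a T ha ih =>
    have e : (fun x : Ix h N k → Al h => ind (∀ s ∈ insert a T, ¬ trig x s)) =
        fun x => ind (∀ s ∈ T, ¬ trig x s) - ind (∀ s ∈ T, ¬ trig x s) * ind (trig x a) := by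
      funext x
      by_cases h1 : trig x a <;> by_cases h2 : ∀ s ∈ T, ¬ trig x s <;> simp [ind, h1, h2]
      all_goals simp_all
    rw [e, Ex_sub, P_trig, ih, card_insert_of_notMem ha, pow_succ]
    · ring
    · intro b x t
      refine ind_congr (forall₂_congr fun s hs => not_congr ?_)
      have : s ≠ a := fun e => ha (e ▸ hs)
      simp [trig, update_of_ne, this]

end Pool.Agent.H89.MX
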