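import Mathlib

set_option autoImplicit false
open Set Topology Filter Metric InnerProductSpace Real MeasureTheory

namespace Pool.Agent.H89.Mill

/-- Minus the harmonic measure of the radius in the slit disc. -/
noncomputable def U (w : ℂ) : ℝ :=
  -1 + 2 / π * arctan (2 * √((‖w‖ - w.re) / 2) / (1 - ‖w‖))

/-- Disc automorphism. -/
noncomputable def mob (c : ℝ) (z : ℂ) : ℂ := (z - c) / (1 - c * z)

lemma den_sq (c : ℝ) (z : ℂ) :
    ‖1 - c * z‖ ^ 2 = ‖z - c‖ ^ 2 + (1 - c ^ 2) * (1 - ‖z‖ ^ 2) := by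
  simp only [Complex.sq_norm, Complex.normSq_apply]
  simp
  ring

lemma den_ge {c : ℝ} (h0 : 0 ≤ c) (z : ℂ) : 1 - c * ‖z‖ ≤ ‖1 - c * z‖ := by
  have := norm_sub_norm_le (1 : ℂ) (c * z)
  rwa [norm_one, norm_mul, Complex.norm_real, Real.norm_eq_abs, abs_of_nonneg h0] at this

lemma den_ne {c : ℝ} (h0 : 0 ≤ c) (h1 : c < 1) {z : ℂ} (hz : ‖z‖ ≤ 1) : 1 - c * z ≠ 0 := by
  have := den_ge h0 z
  rw [← norm_pos_iff]
  nlinarith

lemma mob_sq {c : ℝ} (h0 : 0 ≤ c) (h1 : c < 1) {z : ℂ} (hz : ‖z‖ ≤ 1) :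
    1 - ‖mob c z‖ ^ 2 = (1 - c ^ 2) * (1 - ‖z‖ ^ 2) / ‖1 - c * z‖ ^ 2 := by
  have := norm_pos_iff.2 (den_ne h0 h1 hz)
  rw [mob, norm_div, div_pow, eq_div_iff (by positivity), sub_mul, div_mul_cancel₀ _ (by positivity),
    den_sq]
  ring

lemma mob_lt {c : ℝ} (h0 : 0 ≤ c) (h1 : c < 1) {z : ℂ} (hz : ‖z‖ < 1) : ‖mob c z‖ < 1 := by
  have h2 := mob_sq h0 h1 hz.le
  have := norm_pos_iff.2 (den_ne h0 h1 hz.le)
  have h3 : 0 < (1 - c ^ 2) * (1 - ‖z‖ ^ 2) / ‖1 - c * z‖ ^ 2 :=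
    div_pos (mul_pos (by nlinarith) (by nlinarith [norm_nonneg z])) (by positivity)
  nlinarith [norm_nonneg (mob c z)]

lemma mob_an {c : ℝ} (h0 : 0 ≤ c) (h1 : c < 1) {z : ℂ} (hz : ‖z‖ ≤ 1) :
    AnalyticAt ℂ (mob c) z :=
  (analyticAt_id.sub analyticAt_const).div
    (analyticAt_const.sub (analyticAt_const.mul analyticAt_id)) (den_ne h0 h1 hz)

lemma mob_real (c x : ℝ) : mob c x = ((x - c) / (1 - c * x) : ℝ) := by
  simp [mob]

lemma mob_inv {c : ℝ} (h0 : 0 ≤ c) (h1 : c < 1) {z : ℂ} (hz : ‖z‖ ≤ 1) {x : ℝ} (hx : 0 ≤ x)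
    (h : mob c z = x) : z = ((x + c) / (1 + c * x) : ℝ) := by
  have h2 := den_ne h0 h1 hz
  have h3 : (1 + c * x : ℝ) ≠ 0 := by positivity
  have h4 : (1 + c * x : ℂ) ≠ 0 := by exact_mod_cast h3
  rw [mob, div_eq_iff h2] at h
  push_cast
  rw [eq_div_iff h4]
  linear_combination h

lemma U_ge {w : ℂ} (h : ‖w‖ < 1) : -1 ≤ U w := by
  have : 0 ≤ arctan (2 * √((‖w‖ - w.re) / 2) / (1 - ‖w‖)) :=
    arctan_nonneg.2 (div_nonneg (by positivity) (by linarith))
  unfold U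
  have := pi_pos
  have : 0 ≤ 2 / π * arctan (2 * √((‖w‖ - w.re) / 2) / (1 - ‖w‖)) := by positivity
  linarith

lemma U_le (w : ℂ) : U w ≤ 0 := by
  have h := (arctan_lt_pi_div_two (2 * √((‖w‖ - w.re) / 2) / (1 - ‖w‖))).le
  have := pi_pos
  have h2 : 2 / π * arctan (2 * √((‖w‖ - w.re) / 2) / (1 - ‖w‖)) ≤ 2 / π * (π / 2) := by gcongr
  have h3 : 2 / π * (π / 2) = 1 := by field_simp
  unfold U
  linarith

lemma U_real {x : ℝ} (h : 0 ≤ x) : U x = -1 := by
  simp [U, abs_of_nonneg h]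

lemma U_alt {w : ℂ} (h : ‖w‖ < 1) (h2 : w.re < ‖w‖) :
    U w = -(2 / π * arctan ((1 - ‖w‖) / (2 * √((‖w‖ - w.re) / 2)))) := by
  have h3 : 0 < √((‖w‖ - w.re) / 2) := sqrt_pos.2 (by linarith)
  have h4 : 0 < 2 * √((‖w‖ - w.re) / 2) / (1 - ‖w‖) := div_pos (by positivity) (by linarith)
  have h5 := arctan_inv_of_pos h4
  rw [inv_div] at h5
  have := pi_pos
  rw [h5, U]
  field_simp
  ring

lemma U_cont {w : ℂ} (h : ‖w‖ < 1) : ContinuousAt U w := by
  unfold U
  refine continuousAt_const.add (continuousAt_const.mul (continuous_arctan.continuousAt.comp ?_))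
  exact ContinuousAt.div (by fun_prop) (by fun_prop) (by linarith)

lemma U_im {w : ℂ} (h : ‖w‖ < 1) :
    U w = (-Complex.I - (2 / π : ℝ) * Complex.log ((Complex.I + (-w) ^ (2⁻¹ : ℂ)) /
      (Complex.I - (-w) ^ (2⁻¹ : ℂ)))).im ∧
    0 < ((Complex.I + (-w) ^ (2⁻¹ : ℂ)) / (Complex.I - (-w) ^ (2⁻¹ : ℂ))).re ∧
    Complex.I - (-w) ^ (2⁻¹ : ℂ) ≠ 0 := by
  have h1 := Complex.cpow_inv_two_re (-w)
  have h2 : ((-w) ^ (2⁻¹ : ℂ)) ^ 2 = -w := by
    have := Complex.cpow_nat_inv_pow (-w) (n := 2) two_ne_zero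
    simpa using this
  generalize (-w) ^ (2⁻¹ : ℂ) = ζ at h1 h2
  have h3 : ζ.re ^ 2 + ζ.im ^ 2 = ‖w‖ := by
    have := congrArg norm h2
    rw [norm_pow, norm_neg, Complex.sq_norm, Complex.normSq_apply] at this
    linarith
  rw [norm_neg, Complex.neg_re, ← sub_eq_add_neg] at h1
  have hn : 0 < Complex.normSq (Complex.I - ζ) := by
    rw [Complex.normSq_apply]
    simp only [Complex.sub_re, Complex.I_re, Complex.sub_im, Complex.I_im]
    have : ζ.im < 1 := by nlinarith [sq_nonneg ζ.re]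
    nlinarith [sq_nonneg ζ.re]
  have hre : ((Complex.I + ζ) / (Complex.I - ζ)).re =
      (1 - ‖w‖) / Complex.normSq (Complex.I - ζ) := by
    rw [Complex.div_re, ← h3]
    simp only [Complex.add_re, Complex.I_re, Complex.sub_re, Complex.add_im, Complex.I_im,
      Complex.sub_im]
    ring
  have him : ((Complex.I + ζ) / (Complex.I - ζ)).im =
      -(2 * ζ.re) / Complex.normSq (Complex.I - ζ) := by
    rw [Complex.div_im]
    simp only [Complex.add_re, Complex.I_re, Complex.sub_re, Complex.add_im, Complex.I_im,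
      Complex.sub_im]
    ring
  have hpos : 0 < ((Complex.I + ζ) / (Complex.I - ζ)).re := by
    rw [hre]; exact div_pos (by linarith) hn
  refine ⟨?_, hpos, fun e => by rw [e] at hn; simp at hn⟩
  have h5 := abs_lt.1 (Complex.abs_arg_lt_pi_div_two_iff.2 (Or.inl hpos))
  have h6 := arctan_tan h5.1 h5.2
  rw [Complex.tan_arg, hre, him, div_div_div_cancel_right₀ hn.ne', neg_div, arctan_neg, h1] at h6
  simp only [Complex.sub_im, Complex.neg_im, Complex.I_im, Complex.mul_im, Complex.ofReal_re,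
    Complex.ofReal_im, zero_mul, add_zero, Complex.log_im, ← h6, U]
  ring

lemma U_harm {ψ : ℂ → ℂ} {z : ℂ} (hψ : AnalyticAt ℂ ψ z) (h : ‖ψ z‖ < 1)
    (h2 : -ψ z ∈ Complex.slitPlane) : HarmonicAt (fun z => U (ψ z)) z := by
  have h3 : ∀ᶠ w in 𝓝 z, ‖ψ w‖ < 1 :=
    hψ.continuousAt.norm.eventually_lt continuousAt_const h
  have h4 : AnalyticAt ℂ (fun w => (-ψ w) ^ (2⁻¹ : ℂ)) z := hψ.neg.cpow analyticAt_const h2
  have h5 : AnalyticAt ℂ (fun w => -Complex.I - (2 / π : ℝ) *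
      Complex.log ((Complex.I + (-ψ w) ^ (2⁻¹ : ℂ)) / (Complex.I - (-ψ w) ^ (2⁻¹ : ℂ)))) z :=
    analyticAt_const.sub (analyticAt_const.mul
      (((analyticAt_const.add h4).div (analyticAt_const.sub h4) (U_im h).2.2).clog
        (Or.inl (U_im h).2.1)))
  refine (harmonicAt_congr_nhds ?_).2 h5.harmonicAt_im
  filter_upwards [h3] with w hw using (U_im hw).1

lemma slit_or (w : ℂ) : -w ∈ Complex.slitPlane ∨ ∃ x : ℝ, 0 ≤ x ∧ w = x := by
  by_cases h : -w ∈ Complex.slitPlane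
  · exact Or.inl h
  · right
    simp only [Complex.mem_slitPlane_iff, Complex.neg_re, Complex.neg_im, not_or, not_lt, ne_eq,
      not_not, neg_eq_zero] at h
    exact ⟨w.re, by linarith [h.1], Complex.ext rfl (by simp [h.2])⟩

lemma slit_re {w : ℂ} (h : -w ∈ Complex.slitPlane) : w.re < ‖w‖ := by
  refine lt_of_le_of_ne (Complex.re_le_norm w) fun e => ?_
  have h2 : w.im = 0 := by
    have := Complex.sq_norm w
    rw [Complex.normSq_apply, ← e] at this
    nlinarith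
  rcases h with h | h
  · simp only [Complex.neg_re] at h
    linarith [norm_nonneg w]
  · simp [h2] at h

lemma arctan_le {x : ℝ} (h : 0 ≤ x) : arctan x ≤ x := by
  have := Real.le_tan (arctan_nonneg.2 h) (arctan_lt_pi_div_two x)
  rwa [tan_arctan] at this

lemma U_bd {c : ℝ} (h0 : 999 / 1000 ≤ c) (h1 : c < 1) {z : ℂ} (hz : ‖z‖ = 4 / 5) :
    -(116 / 1000 * (1 - c) / ‖1 - c * z‖ ^ 2) ≤ U (mob c z) := by
  have hc : 0 ≤ c := by linarith
  have hd := den_ge hc z
  rw [hz] at hd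
  have hd' : 1 / 5 ≤ ‖1 - c * z‖ := by linarith
  have hne := den_ne hc h1 (z := z) (by linarith)
  have hlt := mob_lt hc h1 (z := z) (by linarith)
  have hsq := mob_sq hc h1 (z := z) (by linarith)
  have h2 : ‖1 + mob c z‖ ≤ 9 / 1000 := by
    have : 1 + mob c z = ((1 - c : ℝ) : ℂ) * (1 + z) / (1 - c * z) := by
      unfold mob
      rw [eq_div_iff hne, add_mul, div_mul_cancel₀ _ hne]
      push_cast
      ring
    rw [this, norm_div, norm_mul, Complex.norm_real, Real.norm_eq_abs, abs_of_pos (by linarith),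
      div_le_iff₀ (by linarith)]
    have : ‖1 + z‖ ≤ 9 / 5 := by
      have := norm_add_le 1 z
      rw [norm_one, hz] at this
      linarith
    nlinarith [norm_nonneg (1 + z)]
  generalize mob c z = w at *
  have h3 : w.re ≤ -(991 / 1000) := by
    have := Complex.re_le_norm (1 + w)
    simp only [Complex.add_re, Complex.one_re] at this
    linarith
  have h4 : 991 / 1000 ≤ ‖w‖ := by
    have := Complex.re_le_norm (-w)
    rw [norm_neg, Complex.neg_re] at this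
    linarith
  have h5 : 995 / 1000 ≤ √((‖w‖ - w.re) / 2) := le_sqrt_of_sq_le (by linarith)
  rw [U_alt hlt (by linarith), neg_le_neg_iff]
  have h6 : 0 ≤ (1 - ‖w‖) / (2 * √((‖w‖ - w.re) / 2)) := div_nonneg (by linarith) (by positivity)
  have h7 : (1 - ‖w‖) / (2 * √((‖w‖ - w.re) / 2)) ≤ (1 - ‖w‖) / (2 * (995 / 1000)) := by
    gcongr
  have h8 : 2 / π ≤ 2 / 3.14 := by gcongr; exact pi_gt_d2.le
  have h9 : 1 - ‖w‖ ≤ (1 - ‖w‖ ^ 2) / (1991 / 1000) := by
    rw [le_div_iff₀ (by norm_num)]; nlinarith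
  have h10 : 1 - ‖w‖ ^ 2 ≤ 72 / 100 * ((1 - c) / ‖1 - c * z‖ ^ 2) := by
    rw [hsq, hz, ← mul_div_assoc]
    exact div_le_div_of_nonneg_right (by nlinarith) (by positivity)
  have h11 : 0 ≤ (1 - c) / ‖1 - c * z‖ ^ 2 := div_nonneg (by linarith) (by positivity)
  calc 2 / π * arctan ((1 - ‖w‖) / (2 * √((‖w‖ - w.re) / 2)))
      ≤ 2 / 3.14 * ((1 - ‖w‖) / (2 * (995 / 1000))) := by
        gcongr
        exact (arctan_le h6).trans h7
    _ ≤ _ := by
        rw [mul_div_assoc (116 / 1000 : ℝ)]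
        norm_num at h9 ⊢
        linarith

lemma den_far {c : ℝ} (h0 : 0 ≤ c) {z : ℂ} (hz : z.re ≤ 0) : 1 ≤ ‖1 - c * z‖ ^ 2 := by
  have := Complex.re_le_norm (1 - c * z)
  simp only [Complex.sub_re, Complex.one_re, Complex.mul_re, Complex.ofReal_re, Complex.ofReal_im,
    zero_mul, sub_zero] at this
  nlinarith [mul_nonneg h0 (neg_nonneg.2 hz)]

/-- The extremal candidate. -/
noncomputable def uE (z : ℂ) : ℝ := U (mob (999 / 1000) z)

/-- The truncated Green potential. -/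
noncomputable def v (z : ℂ) : ℝ := 2 / 7 * log (max ‖mob (19981 / 20000) z‖ (1 / 36))

/-- The competitor. -/
noncomputable def u (z : ℂ) : ℝ := U (mob (9991 / 10000) (-z)) + v z

lemma uE_r : uE (4 / 5 : ℝ) < -(277 / 100000) := by
  have h1 : mob (999 / 1000) (4 / 5 : ℝ) = ((-(995 / 1004) : ℝ) : ℂ) := by
    rw [mob_real]; norm_num
  have h2 : ‖((-(995 / 1004) : ℝ) : ℂ)‖ = 995 / 1004 := by
    rw [Complex.norm_real, Real.norm_eq_abs, abs_neg, abs_of_pos (by norm_num)]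
  rw [uE, h1, U_alt (by rw [h2]; norm_num) (by rw [h2, Complex.ofReal_re]; norm_num), h2,
    Complex.ofReal_re, neg_lt_neg_iff]
  have h3 : √((995 / 1004 - -(995 / 1004)) / 2) ≤ 1 := sqrt_le_one.2 (by norm_num)
  have h4 : 0 < √((995 / 1004 - -(995 / 1004)) / 2) := sqrt_pos.2 (by norm_num)
  have h5 : (1 - 995 / 1004 : ℝ) / (2 * 1) ≤
      (1 - 995 / 1004) / (2 * √((995 / 1004 - -(995 / 1004)) / 2)) := by gcongr
  have hp := pi_gt_d2
  have hp' := pi_lt_d2
  have h6 : tan (437 / 100000) < (1 - 995 / 1004 : ℝ) / (2 * 1) := by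
    have a1 := sin_le (x := 437 / 100000) (by norm_num)
    have a2 := one_sub_sq_div_two_le_cos (x := 437 / 100000)
    rw [tan_eq_sin_div_cos, div_lt_iff₀ (by linarith)]
    linarith
  have h7 := arctan_strictMono (h6.trans_le h5)
  rw [arctan_tan (by linarith) (by linarith)] at h7
  rw [div_mul_eq_mul_div, lt_div_iff₀ pi_pos]
  linarith

lemma uE_far {z : ℂ} (hz : ‖z‖ = 4 / 5) (h : z.re ≤ 0) : -(277 / 100000) ≤ uE z := by
  refine le_trans ?_ (U_bd le_rfl (by norm_num) hz)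
  have := den_far (c := 999 / 1000) (by norm_num) h
  rw [neg_le_neg_iff, div_le_iff₀ (by linarith)]
  linarith

lemma v_bd {z : ℂ} (hz : ‖z‖ = 4 / 5) :
    -(978 / 10000000 / ‖z - (19981 / 20000 : ℝ)‖ ^ 2) ≤ v z := by
  have h1 : 0 < ‖z - (19981 / 20000 : ℝ)‖ := by
    rw [norm_pos_iff, sub_ne_zero]
    rintro rfl
    rw [Complex.norm_real, Real.norm_eq_abs, abs_of_pos (by norm_num)] at hz
    norm_num at hz
  have h2 := norm_pos_iff.2 (den_ne (c := 19981 / 20000) (by norm_num) (by norm_num) (z := z)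
    (by linarith))
  have h3 : 0 < ‖mob (19981 / 20000) z‖ := by rw [mob, norm_div]; positivity
  have h4 : log ‖mob (19981 / 20000) z‖ ≤ log (max ‖mob (19981 / 20000) z‖ (1 / 36)) :=
    log_le_log h3 (le_max_left _ _)
  have h5 := log_le_sub_one_of_pos (x := (‖mob (19981 / 20000) z‖ ^ 2)⁻¹) (by positivity)
  rw [log_inv, log_pow] at h5
  have h6 : (‖mob (19981 / 20000) z‖ ^ 2)⁻¹ - 1 =
      (1 - (19981 / 20000) ^ 2) * (1 - (4 / 5) ^ 2) * (1 / ‖z - (19981 / 20000 : ℝ)‖ ^ 2) := by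
    rw [mob, norm_div, div_pow, inv_div, den_sq, hz]
    field_simp
    ring
  rw [h6] at h5
  have h7 : 0 < 1 / ‖z - (19981 / 20000 : ℝ)‖ ^ 2 := by positivity
  rw [div_eq_mul_one_div (978 / 10000000 : ℝ)]
  unfold v
  rw [Nat.cast_ofNat] at h5
  linarith

lemma u_circ {z : ℂ} (hz : ‖z‖ = 4 / 5) : -(277 / 100000) ≤ u z := by
  have h1 := U_bd (c := 9991 / 10000) (by norm_num) (by norm_num) (z := -z) (by rwa [norm_neg])
  have h2 := v_bd hz
  have h3 : 19905 / 100000 ≤ ‖z - (19981 / 20000 : ℝ)‖ := by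
    have := norm_sub_norm_le ((19981 / 20000 : ℝ) : ℂ) z
    rw [norm_sub_rev, Complex.norm_real, Real.norm_eq_abs, abs_of_pos (by norm_num), hz] at this
    linarith
  have h4 := den_ge (c := 9991 / 10000) (by norm_num) (-z)
  rw [norm_neg, hz] at h4
  unfold u
  rcases le_total 0 z.re with h | h
  · have a1 := den_far (c := 9991 / 10000) (by norm_num) (z := -z) (by simpa using h)
    have a2 : 116 / 1000 * (1 - 9991 / 10000) / ‖1 - ((9991 / 10000 : ℝ) : ℂ) * -z‖ ^ 2 ≤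
        (105 / 1000000 : ℝ) := by
      rw [div_le_iff₀ (by linarith)]; linarith
    have a3 : 978 / 10000000 / ‖z - (19981 / 20000 : ℝ)‖ ^ 2 ≤ (2500 / 1000000 : ℝ) := by
      rw [div_le_iff₀ (by positivity)]; nlinarith
    linarith
  · have a1 : 19981 / 20000 ≤ ‖z - (19981 / 20000 : ℝ)‖ := by
      have := Complex.re_le_norm (((19981 / 20000 : ℝ) : ℂ) - z)
      rw [norm_sub_rev, Complex.sub_re, Complex.ofReal_re] at this
      linarith
    have a2 : 116 / 1000 * (1 - 9991 / 10000) / ‖1 - ((9991 / 10000 : ℝ) : ℂ) * -z‖ ^ 2 ≤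
        (2610 / 1000000 : ℝ) := by
      rw [div_le_iff₀ (by positivity)]; nlinarith
    have a3 : 978 / 10000000 / ‖z - (19981 / 20000 : ℝ)‖ ^ 2 ≤ (100 / 1000000 : ℝ) := by
      rw [div_le_iff₀ (by positivity)]; nlinarith
    linarith

lemma v_le {z : ℂ} (hz : ‖z‖ < 1) : v z ≤ 0 := by
  have := mob_lt (c := 19981 / 20000) (by norm_num) (by norm_num) hz
  have h2 : log (max ‖mob (19981 / 20000) z‖ (1 / 36)) ≤ 0 :=
    log_nonpos (by positivity) (max_le this.le (by norm_num))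
  unfold v
  linarith

lemma u_le {z : ℂ} (hz : ‖z‖ < 1) : u z ≤ 0 := add_nonpos (U_le _) (v_le hz)

lemma log36 : 2 / 7 * log (1 / 36) ≤ -1 := by
  have h1 : exp (7 / 2) ≤ 36 := by
    have a1 : exp (7 / 2) ^ 2 = exp 1 ^ 7 := by
      rw [← exp_nat_mul, ← exp_nat_mul]; norm_num
    have a2 : exp 1 ^ 7 ≤ 2.72 ^ 7 := by
      gcongr; linarith [exp_one_lt_d9]
    refine le_of_sq_le_sq (a := exp (7 / 2)) ?_ (by norm_num)
    rw [a1]
    refine a2.trans (by norm_num)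
  have h2 := (le_log_iff_exp_le (by norm_num)).2 h1
  rw [one_div, log_inv]
  linarith

lemma u_E {t : ℝ} (h0 : 999 / 1000 ≤ t) (h1 : t < 1) : ∃ z : ℂ, ‖z‖ = t ∧ u z ≤ -1 := by
  have hn : ‖(t : ℂ)‖ = t := by rw [Complex.norm_real, Real.norm_eq_abs, abs_of_pos (by linarith)]
  rcases le_total (9991 / 10000) t with h | h
  · refine ⟨-t, by rw [norm_neg, hn], ?_⟩
    have := v_le (z := -t) (by rw [norm_neg, hn]; exact h1)
    rw [u, neg_neg, mob_real, U_real (div_nonneg (by linarith) (by nlinarith))]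
    linarith
  · refine ⟨t, hn, ?_⟩
    have h2 : ‖mob (19981 / 20000) t‖ ≤ 1 / 36 := by
      rw [mob_real, Complex.norm_real, Real.norm_eq_abs, abs_div, abs_of_pos (a := 1 - _) (by nlinarith),
        div_le_iff₀ (by nlinarith), abs_le]
      constructor <;> linarith
    have := U_le (mob (9991 / 10000) (-t))
    rw [u, v, max_eq_right h2]
    linarith [log36]

lemma u_cont {z : ℂ} (hz : ‖z‖ < 1) : ContinuousAt u z := by
  have h1 := (mob_an (c := 9991 / 10000) (by norm_num) (by norm_num) (z := -z)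
    (by rw [norm_neg]; exact hz.le)).continuousAt
  have h2 := (mob_an (c := 19981 / 20000) (by norm_num) (by norm_num) hz.le).continuousAt
  have h3 : ContinuousAt (fun z => mob (9991 / 10000) (-z)) z := h1.comp continuous_neg.continuousAt
  refine ContinuousAt.add (ContinuousAt.comp (f := fun z => mob (9991 / 10000) (-z))
    (U_cont (mob_lt (by norm_num) (by norm_num) (by rwa [norm_neg]))) h3) ?_
  exact continuousAt_const.mul ((h2.norm.max continuousAt_const).log (by positivity))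

lemma u_low {z : ℂ} (hz : ‖z‖ < 1) :
    ∃ g : ℂ → ℝ, HarmonicAt g z ∧ g z = u z ∧ ∀ᶠ w in 𝓝 z, g w ≤ u w := by
  have hb : ∀ᶠ w in 𝓝 z, ‖w‖ < 1 := continuous_norm.continuousAt.eventually_lt continuousAt_const hz
  have hz' : ‖-z‖ < 1 := by rwa [norm_neg]
  obtain ⟨g1, a1, a2, a3⟩ : ∃ g : ℂ → ℝ, HarmonicAt g z ∧ g z = U (mob (9991 / 10000) (-z)) ∧
      ∀ᶠ w in 𝓝 z, g w ≤ U (mob (9991 / 10000) (-w)) := by
    rcases slit_or (mob (9991 / 10000) (-z)) with h | ⟨x, hx, h⟩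
    · exact ⟨_, U_harm (ψ := fun z => mob (9991 / 10000) (-z))
        ((mob_an (by norm_num) (by norm_num) hz'.le).comp analyticAt_id.neg)
        (mob_lt (by norm_num) (by norm_num) hz') h, rfl, Eventually.of_forall fun _ => le_rfl⟩
    · refine ⟨fun _ => -1, harmonicAt_const _, by rw [h, U_real hx], ?_⟩
      filter_upwards [hb] with w hw
      exact U_ge (mob_lt (by norm_num) (by norm_num) (by rwa [norm_neg]))
  obtain ⟨g2, b1, b2, b3⟩ : ∃ g : ℂ → ℝ, HarmonicAt g z ∧ g z = v z ∧ ∀ᶠ w in 𝓝 z, g w ≤ v w := by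
    rcases le_total ‖mob (19981 / 20000) z‖ (1 / 36) with h | h
    · refine ⟨fun _ => 2 / 7 * log (1 / 36), harmonicAt_const _, by rw [v, max_eq_right h],
        Eventually.of_forall fun w => ?_⟩
      exact mul_le_mul_of_nonneg_left (log_le_log (by norm_num) (le_max_right _ _)) (by norm_num)
    · have h2 := mob_an (c := 19981 / 20000) (by norm_num) (by norm_num) hz.le
      have h3 : mob (19981 / 20000) z ≠ 0 := by rw [← norm_pos_iff]; linarith
      refine ⟨(2 / 7 : ℝ) • fun w => log ‖mob (19981 / 20000) w‖,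
        (h2.harmonicAt_log_norm h3).const_smul, by rw [v, max_eq_left h]; rfl, ?_⟩
      filter_upwards [h2.continuousAt.eventually_ne h3] with w hw
      have := norm_pos_iff.2 hw
      simp only [Pi.smul_apply, smul_eq_mul, v]
      gcongr
      exact le_max_left _ _
  refine ⟨g1 + g2, a1.add b1, by rw [Pi.add_apply, a2, b2, u], ?_⟩
  filter_upwards [a3, b3] with w h1 h2 using add_le_add h1 h2

lemma u_sub {z : ℂ} (hz : ‖z‖ < 1) : ∃ ε : ℝ, 0 < ε ∧ ∀ ρ : ℝ, 0 < ρ → ρ < ε →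
    (u z : EReal) ≤ -((((ENNReal.ofReal (2 * π))⁻¹ * ∫⁻ θ in Set.Ioc 0 (2 * π),
      (-(u (z + (ρ : ℂ) * Complex.exp ((θ : ℂ) * Complex.I)) : EReal)).toENNReal) : ENNReal) :
        EReal) := by
  obtain ⟨g, h1, h2, h3⟩ := u_low hz
  have hb : ∀ᶠ w in 𝓝 z, ‖w‖ < 1 := continuous_norm.continuousAt.eventually_lt continuousAt_const hz
  obtain ⟨ε, hε, h4⟩ := Metric.eventually_nhds_iff.1 (h1.eventually.and (h3.and hb))
  refine ⟨ε, hε, fun ρ h0 hρ => ?_⟩
  have h5 : ∀ w ∈ closedBall z |ρ|, HarmonicAt g w ∧ g w ≤ u w ∧ ‖w‖ < 1 := fun w hw =>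
    h4 (lt_of_le_of_lt (by simpa [abs_of_pos h0] using hw) hρ)
  have h6 : HarmonicOnNhd g (closedBall z |ρ|) := fun w hw => (h5 w hw).1
  have h7 : ContinuousOn u (sphere z |ρ|) := fun w hw =>
    (u_cont (h5 w (sphere_subset_closedBall hw)).2.2).continuousWithinAt
  have h8 : circleAverage g z ρ ≤ circleAverage u z ρ :=
    circleAverage_mono (h6.continuousOn.mono sphere_subset_closedBall).circleIntegrable'
      h7.circleIntegrable' fun w hw => (h5 w (sphere_subset_closedBall hw)).2.1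
  rw [h6.circleAverage_eq, h2, circleAverage_def, intervalIntegral.integral_of_le (by positivity)]
    at h8
  have h9 : IntegrableOn (fun θ => u (circleMap z ρ θ)) (Ioc 0 (2 * π)) :=
    (intervalIntegrable_iff_integrableOn_Ioc_of_le (by positivity)).1 h7.circleIntegrable'
  have h10 : ∀ θ, u (circleMap z ρ θ) ≤ 0 := fun θ =>
    u_le (h5 _ (sphere_subset_closedBall (circleMap_mem_sphere' z ρ θ))).2.2
  have h11 : (∫⁻ θ in Set.Ioc 0 (2 * π),
      (-(u (z + (ρ : ℂ) * Complex.exp ((θ : ℂ) * Complex.I)) : EReal)).toENNReal) =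
      ENNReal.ofReal (∫ θ in Set.Ioc 0 (2 * π), -u (circleMap z ρ θ)) := by
    rw [ofReal_integral_eq_lintegral_ofReal (f := fun θ => -u (circleMap z ρ θ)) h9.neg
      (Eventually.of_forall fun θ => neg_nonneg.2 (h10 θ))]
    refine lintegral_congr fun θ => ?_
    rw [← EReal.coe_neg, EReal.real_coe_toENNReal]
    rfl
  have h12 : 0 ≤ ∫ θ in Set.Ioc 0 (2 * π), -u (circleMap z ρ θ) :=
    integral_nonneg fun θ => neg_nonneg.2 (h10 θ)
  rw [h11, ← ENNReal.ofReal_inv_of_pos (by positivity), ← ENNReal.ofReal_mul (by positivity),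
    EReal.coe_ennreal_ofReal, max_eq_left (by positivity), ← EReal.coe_neg, EReal.coe_le_coe_iff,
    integral_neg]
  simpa using h8

end Pool.Agent.H89.Mill
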