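import Mathlib

set_option autoImplicit false
open Filter Topology
open scoped RealInnerProductSpace

namespace Pool.Agent.H89.MonoDom

/-- A set is a countable union of closed sets. -/
def FSig {X : Type*} [TopologicalSpace X] (C : Set X) : Prop :=
  ∃ K : ℕ → Set X, (∀ k, IsClosed (K k)) ∧ C = ⋃ k, K k

lemma not_fsig_irr : ¬ FSig {t : ℝ | Irrational t} := by
  rintro ⟨K, hK, h⟩
  have h1 : IsGδ ({t : ℝ | Irrational t}ᶜ) := by
    rw [h, Set.compl_iUnion]
    exact IsGδ.iInter fun k => (hK k).isOpen_compl.isGδ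
  have h2 : Dense ({t : ℝ | Irrational t}ᶜ) := by
    have : ({t : ℝ | Irrational t}ᶜ) = Set.range ((↑) : ℚ → ℝ) := by
      ext t; simp [Irrational]
    rw [this]; exact Rat.denseRange_cast
  have h3 := Dense.inter_of_Gδ IsGδ.setOfPred_irrational h1 dense_irrational h2
  simpa using h3.nonempty

lemma fsig_proj {E : Type*} [NormedAddCommGroup E] [ProperSpace E] (G : Set (E × E))
    (hG : IsClosed G) : FSig (Prod.fst '' G) ∧ FSig (Prod.snd '' G) := by
  have hc : ∀ k : ℕ, IsCompact (G ∩ Metric.closedBall (0 : E × E) k) := fun k =>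
    (isCompact_closedBall _ _).inter_left hG
  have hu : G = ⋃ k : ℕ, G ∩ Metric.closedBall (0 : E × E) k := by
    rw [← Set.inter_iUnion, Metric.iUnion_closedBall_nat, Set.inter_univ]
  constructor
  · refine ⟨fun k => Prod.fst '' (G ∩ Metric.closedBall (0 : E × E) k),
      fun k => ((hc k).image continuous_fst).isClosed, ?_⟩
    rw [← Set.image_iUnion, ← hu]
  · refine ⟨fun k => Prod.snd '' (G ∩ Metric.closedBall (0 : E × E) k),
      fun k => ((hc k).image continuous_snd).isClosed, ?_⟩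
    rw [← Set.image_iUnion, ← hu]

theorem exists_convex (n : ℕ) (hn : 2 ≤ n) :
    ∃ C : Set (EuclideanSpace ℝ (Fin n)), C.Nonempty ∧ Convex ℝ C ∧ ¬ FSig C := by
  obtain ⟨n, rfl⟩ := Nat.exists_eq_add_of_le' hn
  refine ⟨{x | x 0 ^ 2 < x 1 ∨ (x 0 ^ 2 = x 1 ∧ Irrational (x 0))}, ?_, ?_, ?_⟩
  · exact ⟨EuclideanSpace.single 1 1, Or.inl (by simp)⟩
  · intro x hx y hy a b ha hb hab
    simp only [Set.mem_ofPred_eq, PiLp.add_apply, PiLp.smul_apply, smul_eq_mul] at hx hy ⊢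
    have hb' : b = 1 - a := by linarith
    have hx' : x 0 ^ 2 ≤ x 1 := by rcases hx with h | h; exact h.le; exact h.1.le
    have hy' : y 0 ^ 2 ≤ y 1 := by rcases hy with h | h; exact h.le; exact h.1.le
    rcases eq_or_lt_of_le ha with ha0 | ha0
    · subst ha0
      have : b = 1 := by linarith
      subst this
      simpa using hy
    rcases eq_or_lt_of_le hb with hb0 | hb0
    · subst hb0
      have : a = 1 := by linarith
      subst this
      simpa using hx
    have key : a * x 0 ^ 2 + b * y 0 ^ 2 - (a * x 0 + b * y 0) ^ 2 = a * b * (x 0 - y 0) ^ 2 := by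
      rw [hb']; ring
    have hab0 : 0 < a * b := mul_pos ha0 hb0
    by_cases hxy : x 0 = y 0
    · have e : a * x 0 + b * y 0 = x 0 := by rw [← hxy, ← add_mul, hab, one_mul]
      rw [e]
      have e2 : x 0 ^ 2 = a * x 0 ^ 2 + b * y 0 ^ 2 := by rw [← hxy, ← add_mul, hab, one_mul]
      rcases hx with h | h
      · left; nlinarith
      · rcases hy with h' | h'
        · left; nlinarith
        · right; refine ⟨?_, h.2⟩
          rw [e2, h.1, h'.1]
    · left
      have : 0 < (x 0 - y 0) ^ 2 := by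
        have := sub_ne_zero.mpr hxy
        positivity
      have := mul_pos hab0 this
      nlinarith
  · rintro ⟨K, hK, h⟩
    apply not_fsig_irr
    let γ : ℝ → EuclideanSpace ℝ (Fin (n + 2)) := fun t =>
      t • EuclideanSpace.single 0 (1:ℝ) + t ^ 2 • EuclideanSpace.single 1 (1:ℝ)
    have hγ : Continuous γ := by fun_prop
    refine ⟨fun k => γ ⁻¹' K k, fun k => (hK k).preimage hγ, ?_⟩
    rw [← Set.preimage_iUnion, ← h]
    ext t
    simp [γ]

theorem closed_maxmono {E : Type*} [NormedAddCommGroup E] [InnerProductSpace ℝ E]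
    (A : E → Set E) (hA : ∀ x y, ∀ u ∈ A x, ∀ v ∈ A y, 0 ≤ ⟪u - v, x - y⟫)
    (hmax : ∀ B : E → Set E, (∀ x y, ∀ u ∈ B x, ∀ v ∈ B y, 0 ≤ ⟪u - v, x - y⟫) →
      (∀ x, A x ⊆ B x) → B = A) : IsClosed {p : E × E | p.2 ∈ A p.1} := by
  have : {p : E × E | p.2 ∈ A p.1} = ⋂ y, ⋂ v ∈ A y, {p : E × E | 0 ≤ ⟪p.2 - v, p.1 - y⟫} := by
    ext ⟨x, u⟩
    simp only [Set.mem_ofPred_eq, Set.mem_iInter]
    refine ⟨fun hu y v hv => hA x y u hu v hv, fun h => ?_⟩
    have hB := hmax (fun z => A z ∪ {w | z = x ∧ w = u}) ?_ (fun z => Set.subset_union_left)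
    · rw [← hB]; exact Or.inr ⟨rfl, rfl⟩
    · intro z y w hw v hv
      rcases hw with hw | ⟨rfl, rfl⟩ <;> rcases hv with hv | ⟨rfl, rfl⟩
      · exact hA _ _ _ hw _ hv
      · have := h z w hw
        rwa [← neg_sub, ← neg_sub z, inner_neg_neg] at this
      · exact h _ _ hv
      · simp
  rw [this]
  exact isClosed_iInter fun y => isClosed_biInter fun v _ =>
    isClosed_le continuous_const (by fun_prop)

theorem closed_subdiff {E : Type*} [NormedAddCommGroup E] [InnerProductSpace ℝ E]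
    (f : E → EReal) (hf : LowerSemicontinuous f) :
    IsClosed {p : E × E | ∀ y, f p.1 + ((⟪p.2, y - p.1⟫ : ℝ) : EReal) ≤ f y} := by
  rw [Set.ofPred_forall]
  refine isClosed_iInter fun y => ?_
  have h1 : LowerSemicontinuous fun p : E × E => f p.1 := hf.comp continuous_fst
  have h2 : LowerSemicontinuous fun p : E × E => ((⟪p.2, y - p.1⟫ : ℝ) : EReal) :=
    (continuous_coe_real_ereal.comp (by fun_prop)).lowerSemicontinuous
  have h3 := h1.add' h2 fun p => EReal.continuousAt_add (Or.inr (by simp)) (Or.inr (by simp))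
  exact h3.isClosed_preimage (f y)

theorem maxmono (n : ℕ) (C : Set (EuclideanSpace ℝ (Fin n))) (hC : ¬ FSig C)
    (A : EuclideanSpace ℝ (Fin n) → Set (EuclideanSpace ℝ (Fin n)))
    (hA : ∀ x y, ∀ u ∈ A x, ∀ v ∈ A y, 0 ≤ ⟪u - v, x - y⟫)
    (hmax : ∀ B : EuclideanSpace ℝ (Fin n) → Set (EuclideanSpace ℝ (Fin n)),
      (∀ x y, ∀ u ∈ B x, ∀ v ∈ B y, 0 ≤ ⟪u - v, x - y⟫) → (∀ x, A x ⊆ B x) → B = A) :
    {x | (A x).Nonempty} ≠ C ∧ (⋃ x, A x) ≠ C := by
  obtain ⟨h1, h2⟩ := fsig_proj _ (closed_maxmono A hA hmax)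
  constructor
  · rintro rfl
    apply hC
    have e : {x | (A x).Nonempty} = Prod.fst '' {p : _ × _ | p.2 ∈ A p.1} := by
      ext x; simp [Set.Nonempty]
    rwa [e]
  · rintro rfl
    apply hC
    have e : (⋃ x, A x) = Prod.snd '' {p : _ × _ | p.2 ∈ A p.1} := by
      ext x; simp
    rwa [e]

theorem subdiff (n : ℕ) (C : Set (EuclideanSpace ℝ (Fin n))) (hC : ¬ FSig C)
    (f : EuclideanSpace ℝ (Fin n) → EReal) (hf : LowerSemicontinuous f) :
    {x | ∃ u, ∀ y, f x + ((⟪u, y - x⟫ : ℝ) : EReal) ≤ f y} ≠ C ∧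
    {u | ∃ x, ∀ y, f x + ((⟪u, y - x⟫ : ℝ) : EReal) ≤ f y} ≠ C := by
  obtain ⟨h1, h2⟩ := fsig_proj _ (closed_subdiff f hf)
  constructor
  · rintro rfl
    apply hC
    have e : {x | ∃ u, ∀ y, f x + ((⟪u, y - x⟫ : ℝ) : EReal) ≤ f y} = Prod.fst ''
        {p : _ × _ | ∀ y, f p.1 + ((⟪p.2, y - p.1⟫ : ℝ) : EReal) ≤ f y} := by
      ext x; simp
    rwa [e]
  · rintro rfl
    apply hC
    have e : {u | ∃ x, ∀ y, f x + ((⟪u, y - x⟫ : ℝ) : EReal) ≤ f y} = Prod.snd ''
        {p : _ × _ | ∀ y, f p.1 + ((⟪p.2, y - p.1⟫ : ℝ) : EReal) ≤ f y} := by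
      ext x; simp
    rwa [e]

end Pool.Agent.H89.MonoDom
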