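import Mathlib

set_option autoImplicit false

namespace Pool.Agent.H89.OS

open Ordinal Filter Topology Set

abbrev K (n : ℕ) : Type 1 := Set.Icc (1 : Ordinal.{0}) (ω ^ (n : Ordinal.{0}))

lemma wpos (n : ℕ) : (0 : Ordinal.{0}) < ω ^ (n : Ordinal.{0}) := opow_pos _ omega0_pos

lemma wone (n : ℕ) : (1 : Ordinal.{0}) ≤ ω ^ (n : Ordinal.{0}) := Order.one_le_iff_pos.2 (wpos n)

noncomputable def top (n : ℕ) : K n := ⟨ω ^ (n : Ordinal.{0}), wone n, le_rfl⟩

lemma K0 (x : K 0) : x = top 0 := by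
  apply Subtype.ext
  have h := x.2
  simp only [Nat.cast_zero, opow_zero, mem_Icc] at h
  simp only [top, Nat.cast_zero, opow_zero]
  exact le_antisymm h.2 h.1

lemma wsucc (n : ℕ) : (ω : Ordinal.{0}) ^ ((n + 1 : ℕ) : Ordinal.{0}) = ω ^ (n : Ordinal.{0}) * ω := by
  rw [Nat.cast_add, Nat.cast_one, opow_add_one]

lemma mul_lt (n i : ℕ) : (ω : Ordinal.{0}) ^ (n : Ordinal.{0}) * i < ω ^ ((n + 1 : ℕ) : Ordinal.{0}) := by
  rw [wsucc]
  exact mul_lt_mul_of_pos_left (natCast_lt_omega0 i) (wpos n)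

lemma mul_succ' (n i : ℕ) : (ω : Ordinal.{0}) ^ (n : Ordinal.{0}) * ((i + 1 : ℕ) : Ordinal.{0})
    = ω ^ (n : Ordinal.{0}) * i + ω ^ (n : Ordinal.{0}) := by
  rw [Nat.cast_add, Nat.cast_one, mul_add, mul_one]

noncomputable def e (n i : ℕ) : C(K n, K (n + 1)) where
  toFun s := ⟨ω ^ (n : Ordinal.{0}) * i + s.1, s.2.1.trans (le_add_left le_rfl), by
    refine le_trans ?_ (mul_lt n (i + 1)).le
    rw [mul_succ']
    exact add_le_add_right s.2.2 _⟩
  continuous_toFun := by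
    apply Continuous.subtype_mk
    exact (isNormal_add_right _).continuous.comp continuous_subtype_val

lemma e_val (n i : ℕ) (s : K n) : (e n i s).1 = ω ^ (n : Ordinal.{0}) * i + s.1 := rfl

lemma e_gt (n i : ℕ) (s : K n) : ω ^ (n : Ordinal.{0}) * i < (e n i s).1 := by
  rw [e_val]
  have : (0 : Ordinal.{0}) < s.1 := lt_of_lt_of_le zero_lt_one s.2.1
  simpa using this

lemma e_le (n i : ℕ) (s : K n) :
    (e n i s).1 ≤ ω ^ (n : Ordinal.{0}) * ((i + 1 : ℕ) : Ordinal.{0}) := by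
  rw [e_val, mul_succ']
  exact add_le_add_right s.2.2 _

lemma mul_mono (n : ℕ) {i j : ℕ} (h : i ≤ j) :
    (ω : Ordinal.{0}) ^ (n : Ordinal.{0}) * i ≤ ω ^ (n : Ordinal.{0}) * j :=
  mul_le_mul_right (by exact_mod_cast h) _

lemma e_ne_top (n i : ℕ) (s : K n) : e n i s ≠ top (n + 1) := by
  intro h
  have h1 := e_le n i s
  rw [h] at h1
  exact absurd (mul_lt n (i + 1)) (not_lt.2 h1)

lemma e_idx {n i j : ℕ} {s t : K n} (h : e n i s = e n j t) : i = j := by
  by_contra hne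
  rcases lt_or_gt_of_ne hne with hl | hl
  · have h1 := e_le n i s
    have h2 := e_gt n j t
    rw [← h] at h2
    exact absurd (lt_of_le_of_lt (h1.trans (mul_mono n hl)) h2) (lt_irrefl _)
  · have h1 := e_le n j t
    have h2 := e_gt n i s
    rw [h] at h2
    exact absurd (lt_of_le_of_lt (h1.trans (mul_mono n hl)) h2) (lt_irrefl _)

lemma e_inj (n i : ℕ) : Function.Injective (e n i) := by
  intro s t h
  have := congrArg Subtype.val h
  rw [e_val, e_val] at this
  exact Subtype.ext (add_left_cancel this)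

lemma lt_ex {n : ℕ} {a : Ordinal.{0}} (h : a < ω ^ ((n + 1 : ℕ) : Ordinal.{0})) :
    ∃ i : ℕ, a < ω ^ (n : Ordinal.{0}) * i := by
  rw [Nat.cast_add, Nat.cast_one, ← Order.succ_eq_add_one] at h
  exact lt_omega0_opow_succ.1 h

lemma cover (n : ℕ) (x : K (n + 1)) : x = top (n + 1) ∨ ∃ i s, x = e n i s := by
  rcases eq_or_lt_of_le x.2.2 with h | h
  · left; exact Subtype.ext h
  right
  have hex : ∃ i : ℕ, x.1 ≤ ω ^ (n : Ordinal.{0}) * ((i + 1 : ℕ) : Ordinal.{0}) := by
    obtain ⟨i, hi⟩ := lt_ex h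
    exact ⟨i, hi.le.trans (mul_mono n (Nat.le_succ i))⟩
  classical
  set i := Nat.find hex with hi
  have h1 : x.1 ≤ ω ^ (n : Ordinal.{0}) * ((i + 1 : ℕ) : Ordinal.{0}) := Nat.find_spec hex
  have h2 : ω ^ (n : Ordinal.{0}) * i < x.1 := by
    rcases Nat.eq_zero_or_pos i with h0 | h0
    · rw [h0]; simpa using lt_of_lt_of_le zero_lt_one x.2.1
    · obtain ⟨j, hj⟩ : ∃ j, i = j + 1 := ⟨i - 1, by omega⟩
      have := Nat.find_min hex (show j < Nat.find hex by omega)
      rw [hj]; exact not_le.1 this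
  have h3 := Ordinal.add_sub_cancel_of_le h2.le
  refine ⟨i, ⟨x.1 - ω ^ (n : Ordinal.{0}) * i, ?_, ?_⟩, Subtype.ext h3.symm⟩
  · rw [Order.one_le_iff_pos]
    rw [← h3] at h2
    simpa using h2
  · rw [← h3, mul_succ'] at h1
    exact le_of_add_le_add_left h1

lemma conv (n : ℕ) {U : Set (K (n + 1))} (hU : U ∈ 𝓝 (top (n + 1))) :
    ∀ᶠ i in atTop, ∀ s, e n i s ∈ U := by
  have hlt : e n 0 (top n) < top (n + 1) :=
    lt_of_le_of_ne (show (e n 0 (top n)).1 ≤ _ from (e n 0 (top n)).2.2) (e_ne_top n 0 _)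
  obtain ⟨l, hl, hsub⟩ := exists_Ioc_subset_of_mem_nhds hU ⟨_, hlt⟩
  obtain ⟨i0, hi0⟩ := lt_ex (show l.1 < _ from hl)
  filter_upwards [eventually_ge_atTop i0] with i hi s
  apply hsub
  exact ⟨show l.1 < _ from hi0.trans (lt_of_le_of_lt (mul_mono n hi) (e_gt n i s)),
    show (e n i s).1 ≤ _ from (e n i s).2.2⟩

lemma glue {X : Type*} [TopologicalSpace X] (n : ℕ) (p : X) (φ : ℕ → C(K n, X))
    (hφ : ∀ U ∈ 𝓝 p, ∀ᶠ i in atTop, ∀ s, φ i s ∈ U) :
    ∃ Φ : C(K (n + 1), X), Φ (top (n + 1)) = p ∧ ∀ i s, Φ (e n i s) = φ i s := by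
  classical
  let F : K (n + 1) → X := fun x =>
    if h : ∃ q : ℕ × K n, x = e n q.1 q.2 then φ h.choose.1 h.choose.2 else p
  have F1 : F (top (n + 1)) = p := by
    apply dif_neg
    rintro ⟨q, hq⟩
    exact e_ne_top n _ _ hq.symm
  have F2 : ∀ i s, F (e n i s) = φ i s := by
    intro i s
    have h : ∃ q : ℕ × K n, e n i s = e n q.1 q.2 := ⟨(i, s), rfl⟩
    have h1 := h.choose_spec
    have h2 := e_idx h1
    show (if h : ∃ q : ℕ × K n, e n i s = e n q.1 q.2 then φ h.choose.1 h.choose.2 else p) = _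
    rw [dif_pos h]
    generalize h.choose = q at h1 h2
    obtain ⟨j, t⟩ := q
    simp only at h1 h2 ⊢
    subst h2
    rw [e_inj n i h1]
  have hcl : ∀ i, IsClosedEmbedding (e n i) := fun i =>
    (e n i).continuous.isClosedEmbedding (e_inj n i)
  have hon : ∀ i, ContinuousOn F (range (e n i)) := by
    intro i
    rw [← image_univ, (hcl i).isInducing.continuousOn_image_iff]
    have : F ∘ e n i = φ i := funext fun s => F2 i s
    rw [this]
    exact (φ i).continuous.continuousOn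
  refine ⟨⟨F, ?_⟩, F1, F2⟩
  rw [continuous_iff_continuousAt]
  intro x
  rcases cover n x with rfl | ⟨i, s, rfl⟩
  · intro U hU
    rw [F1] at hU
    obtain ⟨i0, hi0⟩ := eventually_atTop.1 (hφ U hU)
    have hlt : e n i0 (top n) < top (n + 1) :=
      lt_of_le_of_ne (show (e n i0 (top n)).1 ≤ _ from (e n i0 (top n)).2.2) (e_ne_top n i0 _)
    rw [mem_map]
    filter_upwards [Ioi_mem_nhds hlt] with y hy
    rcases cover n y with rfl | ⟨j, t, rfl⟩
    · show F _ ∈ U
      rw [F1]; exact mem_of_mem_nhds hU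
    · show F _ ∈ U
      rw [F2]
      apply hi0
      by_contra hj
      push Not at hj
      have h1 := (e_le n j t).trans (mul_mono n hj)
      have h2 := e_gt n i0 (top n)
      exact absurd (lt_of_le_of_lt h1 (h2.trans hy)) (lt_irrefl _)
  · have hfin : ContinuousOn F (⋃ j : Fin (i + 2), range (e n j)) :=
      (locallyFinite_of_finite _).continuousOn_iUnion (fun j => (hcl j).isClosed_range)
        (fun j => hon j)
    apply hfin.continuousAt
    have hlt : e n i s < e n (i + 1) (top n) :=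
      show (e n i s).1 < _ from lt_of_le_of_lt (e_le n i s) (e_gt n (i + 1) (top n))
    filter_upwards [Iio_mem_nhds hlt] with y hy
    rcases cover n y with rfl | ⟨j, t, rfl⟩
    · exact absurd (show (top (n + 1)).1 < _ from hy) (not_lt.2 (e n (i + 1) (top n)).2.2)
    · have hj : j < i + 2 := by
        by_contra hj
        push Not at hj
        have h1 := (e_le n (i + 1) (top n)).trans (mul_mono n hj)
        have h2 := e_gt n j t
        exact absurd (lt_of_le_of_lt h1 (h2.trans hy)) (lt_irrefl _)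
      exact mem_iUnion.2 ⟨⟨j, hj⟩, t, rfl⟩

end Pool.Agent.H89.OS
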