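import Mathlib
import Pool.Agent.H89.OS1

set_option autoImplicit false

namespace Pool.Agent.H89.OS

open Filter Topology Set

variable {X Y : Type*} [TopologicalSpace X] [TopologicalSpace Y]

def R (n : ℕ) (p : X) (S : Set X) : Prop := ∃ φ : C(K n, X), φ (top n) = p ∧ range φ = S

def Cv {ι : Type*} (S : ι → Set X) (p : X) : Prop := ∀ U ∈ 𝓝 p, ∀ᶠ i in cofinite, S i ⊆ U

lemma Cv.of_finite {ι : Type*} [Finite ι] (S : ι → Set X) (p : X) : Cv S p := by
  intro U _
  simp [cofinite_eq_bot]

lemma R.mem {n : ℕ} {p : X} {S : Set X} (h : R n p S) : p ∈ S := by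
  obtain ⟨φ, h1, h2⟩ := h
  rw [← h2, ← h1]; exact mem_range_self _

lemma R.const (n : ℕ) (p : X) : R n p {p} :=
  ⟨ContinuousMap.const _ p, rfl, by
    haveI : Nonempty (K n) := ⟨top n⟩
    exact range_const⟩

lemma R.zero {p : X} {S : Set X} (h : R 0 p S) : S = {p} := by
  obtain ⟨φ, h1, h2⟩ := h
  rw [← h2, ← h1]
  ext x
  constructor
  · rintro ⟨s, rfl⟩
    rw [K0 s]; rfl
  · rintro rfl
    exact mem_range_self _

lemma R.image {n : ℕ} {p : X} {S : Set X} (h : R n p S) {g : X → Y} (hg : Continuous g) :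
    R n (g p) (g '' S) := by
  obtain ⟨φ, h1, h2⟩ := h
  refine ⟨(⟨g, hg⟩ : C(X, Y)).comp φ, by simp [h1], ?_⟩
  rw [← h2, ← range_comp]; rfl

lemma R.glue {ι : Type*} [Countable ι] {n : ℕ} (p : X) (S : ι → Set X) (q : ι → X)
    (h : ∀ i, R n (q i) (S i)) (hc : Cv S p) : R (n + 1) p ({p} ∪ ⋃ i, S i) := by
  classical
  choose φ h1 h2 using h
  obtain ⟨f, hf⟩ := Countable.exists_injective_nat ι
  let ψ : ℕ → C(K n, X) := fun k =>
    if h : ∃ j, f j = k then φ h.choose else ContinuousMap.const _ p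
  have hψ : ∀ j, ψ (f j) = φ j := by
    intro j
    have h : ∃ j', f j' = f j := ⟨j, rfl⟩
    show (if h : ∃ j', f j' = f j then φ h.choose else ContinuousMap.const _ p) = _
    rw [dif_pos h, hf h.choose_spec]
  have hψ' : ∀ k, (¬ ∃ j, f j = k) → ψ k = ContinuousMap.const _ p := fun k h => dif_neg h
  obtain ⟨Φ, g1, g2⟩ := OS.glue n p ψ (by
    intro U hU
    have hfin := (eventually_cofinite.1 (hc U hU)).image f
    rw [← Nat.cofinite_eq_atTop]
    filter_upwards [hfin.compl_mem_cofinite] with k hk s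
    by_cases hx : ∃ j, f j = k
    · obtain ⟨j, rfl⟩ := hx
      rw [hψ]
      have : S j ⊆ U := by
        by_contra hn
        exact hk ⟨j, hn, rfl⟩
      apply this
      rw [← h2]; exact mem_range_self _
    · rw [hψ' k hx]; exact mem_of_mem_nhds hU)
  refine ⟨Φ, g1, ?_⟩
  ext x
  constructor
  · rintro ⟨y, rfl⟩
    rcases cover n y with rfl | ⟨k, s, rfl⟩
    · left; exact g1
    · rw [g2]
      by_cases hx : ∃ j, f j = k
      · obtain ⟨j, rfl⟩ := hx
        right
        rw [hψ]
        exact mem_iUnion.2 ⟨j, by rw [← h2]; exact mem_range_self _⟩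
      · left; rw [hψ' k hx]; rfl
  · rintro (rfl | hx)
    · exact ⟨_, g1⟩
    · obtain ⟨j, hj⟩ := mem_iUnion.1 hx
      rw [← h2] at hj
      obtain ⟨s, rfl⟩ := hj
      exact ⟨e n (f j) s, by rw [g2, hψ]⟩

lemma cv_e {n : ℕ} (φ : C(K (n + 1), X)) :
    Cv (fun i => range (φ.comp (e n i))) (φ (top (n + 1))) := by
  intro U hU
  rw [Nat.cofinite_eq_atTop]
  filter_upwards [conv n (φ.continuous.continuousAt hU)] with i hi
  rintro _ ⟨s, rfl⟩
  exact hi s

lemma R.decomp {n : ℕ} {p : X} {S : Set X} (h : R (n + 1) p S) :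
    ∃ (T : ℕ → Set X) (q : ℕ → X), (∀ i, R n (q i) (T i)) ∧ Cv T p ∧ S = {p} ∪ ⋃ i, T i := by
  obtain ⟨φ, h1, h2⟩ := h
  refine ⟨fun i => range (φ.comp (e n i)), fun i => φ (e n i (top n)),
    fun i => ⟨φ.comp (e n i), rfl, rfl⟩, h1 ▸ cv_e φ, ?_⟩
  rw [← h2]
  ext x
  constructor
  · rintro ⟨y, rfl⟩
    rcases cover n y with rfl | ⟨k, s, rfl⟩
    · left; exact h1
    · right; exact mem_iUnion.2 ⟨k, s, rfl⟩
  · rintro (rfl | hx)
    · exact ⟨_, h1⟩
    · obtain ⟨j, s, rfl⟩ := mem_iUnion.1 hx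
      exact ⟨_, rfl⟩

lemma R.iUnion {ι : Type*} [Countable ι] {n : ℕ} (p : X) (S : ι → Set X)
    (h : ∀ i, R (n + 1) p (S i)) (hc : Cv S p) : R (n + 1) p ({p} ∪ ⋃ i, S i) := by
  choose T q h1 h2 h3 using fun i => (h i).decomp
  have := R.glue p (fun a : ι × ℕ => T a.1 a.2) (fun a => q a.1 a.2) (fun a => h1 a.1 a.2) (by
    intro U hU
    rw [eventually_cofinite]
    have hA := eventually_cofinite.1 (hc U hU)
    have hB := fun i => eventually_cofinite.1 (h2 i U hU)
    refine (hA.biUnion (t := fun i => (fun j => (i, j)) '' {j | ¬ T i j ⊆ U})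
      (fun i _ => (hB i).image _)).subset ?_
    rintro ⟨i, j⟩ hij
    refine mem_biUnion (x := i) ?_ ⟨j, hij, rfl⟩
    intro hS
    apply hij
    refine subset_trans ?_ hS
    rw [h3 i]
    exact subset_union_of_subset_right (subset_iUnion _ j) _)
  have e1 : ({p} ∪ ⋃ i, S i) = {p} ∪ ⋃ a : ι × ℕ, T a.1 a.2 := by
    ext x
    simp only [mem_union, mem_iUnion, Prod.exists]
    constructor
    · rintro (hx | ⟨i, hi⟩)
      · exact Or.inl hx
      · rw [h3 i] at hi
        rcases hi with hi | hi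
        · exact Or.inl hi
        · obtain ⟨j, hj⟩ := mem_iUnion.1 hi
          exact Or.inr ⟨i, j, hj⟩
    · rintro (hx | ⟨i, j, hj⟩)
      · exact Or.inl hx
      · refine Or.inr ⟨i, ?_⟩
        rw [h3 i]
        exact Or.inr (mem_iUnion.2 ⟨j, hj⟩)
  rw [e1]; exact this

lemma R.union {n : ℕ} {p : X} {S T : Set X} (h1 : R (n + 1) p S) (h2 : R (n + 1) p T) :
    R (n + 1) p (S ∪ T) := by
  have := R.iUnion p (fun b : Bool => if b then S else T)
    (by rintro (_ | _) <;> simpa) (Cv.of_finite _ _)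
  have e1 : S ∪ T = {p} ∪ ⋃ b : Bool, (if b then S else T) := by
    ext x
    simp only [mem_union, mem_iUnion, Bool.exists_bool, mem_singleton_iff]
    simp only [Bool.false_eq_true, if_false, if_true]
    constructor
    · rintro (h | h)
      · exact Or.inr (Or.inr h)
      · exact Or.inr (Or.inl h)
    · rintro (rfl | h | h)
      · exact Or.inl h1.mem
      · exact Or.inr h
      · exact Or.inl h
  rw [e1]; exact this

lemma R.up {n : ℕ} {q : X} {T : Set X} (h : R n q T) (p : X) : R (n + 1) p ({p} ∪ T) := by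
  have := R.glue p (fun _ : Unit => T) (fun _ => q) (fun _ => h) (Cv.of_finite _ _)
  rwa [iUnion_const] at this

lemma R.absorb {n : ℕ} {p q : X} {S T : Set X} (h1 : R (n + 1) p S) (h2 : R n q T) :
    R (n + 1) p (S ∪ T) := by
  have := h1.union (h2.up p)
  rwa [← union_assoc, union_eq_self_of_subset_right (singleton_subset_iff.2 h1.mem)] at this

lemma R.mono {m n : ℕ} {p : X} {S : Set X} (h : R m p S) (hmn : m ≤ n) : R n p S := by
  induction n, hmn using Nat.le_induction with
  | base => exact h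
  | succ n _ ih =>
    have := ih.up p
    rwa [union_eq_self_of_subset_left (singleton_subset_iff.2 ih.mem)] at this

def tail (p : X) (T : ℕ → Set X) (i : ℕ) : Set X := {p} ∪ ⋃ j : {j // i ≤ j}, T j

lemma tail_R {n : ℕ} {p : X} {T : ℕ → Set X} {q : ℕ → X} (h : ∀ i, R n (q i) (T i))
    (hc : Cv T p) (i : ℕ) : R (n + 1) p (tail p T i) :=
  R.glue p (fun j : {j // i ≤ j} => T j) (fun j => q j) (fun j => h j)
    (fun U hU => Subtype.val_injective.tendsto_cofinite.eventually (hc U hU))

lemma tail_cv {p : X} {T : ℕ → Set X} (hc : Cv T p) : Cv (tail p T) p := by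
  intro U hU
  have := hc U hU
  rw [Nat.cofinite_eq_atTop] at this ⊢
  obtain ⟨i0, hi0⟩ := eventually_atTop.1 this
  filter_upwards [eventually_ge_atTop i0] with i hi
  exact union_subset (singleton_subset_iff.2 (mem_of_mem_nhds hU))
    (iUnion_subset fun j => hi0 j (hi.trans j.2))

lemma Cv.prod {ι : Type*} {S : ι → Set X} {T : ι → Set Y} {p : X} {q : Y} (h1 : Cv S p)
    (h2 : Cv T q) : Cv (fun i => S i ×ˢ T i) (p, q) := by
  intro U hU
  obtain ⟨A, hA, B, hB, hAB⟩ := mem_nhds_prod_iff.1 hU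
  filter_upwards [h1 A hA, h2 B hB] with i a b
  exact (prod_mono a b).trans hAB

lemma R.prod_aux (N : ℕ) : ∀ (m n : ℕ), m + n = N → ∀ (p : X) (q : Y) (S : Set X) (T : Set Y),
    R m p S → R n q T → R (m + n) (p, q) (S ×ˢ T) := by
  induction N with
  | zero =>
    intro m n hmn p q S T h1 h2
    obtain rfl : m = 0 := by omega
    obtain rfl : n = 0 := by omega
    rw [h1.zero, h2.zero, singleton_prod_singleton]
    exact R.const _ _
  | succ N ih =>
    intro m n hmn p q S T h1 h2
    rcases m with _ | m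
    · rw [h1.zero, singleton_prod, zero_add]
      exact h2.image (g := fun y => (p, y)) (by fun_prop)
    rcases n with _ | n
    · rw [h2.zero, prod_singleton, add_zero]
      exact h1.image (g := fun x => (x, q)) (by fun_prop)
    obtain ⟨A, a, a1, a2, a3⟩ := h1.decomp
    obtain ⟨B, b, b1, b2, b3⟩ := h2.decomp
    have g1 := R.glue (n := m + (n + 1)) (p, q) (fun i => A i ×ˢ tail q B i) (fun i => (a i, q))
      (fun i => ih m (n + 1) (by omega) _ _ _ _ (a1 i) (tail_R b1 b2 i)) (a2.prod (tail_cv b2))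
    have g2 := R.glue (n := m + 1 + n) (p, q) (fun i => tail p A i ×ˢ B i) (fun i => (p, b i))
      (fun i => ih (m + 1) n (by omega) _ _ _ _ (tail_R a1 a2 i) (b1 i)) ((tail_cv a2).prod b2)
    have e1 : m + (n + 1) = m + 1 + n := by omega
    rw [e1] at g1
    have g3 := g1.union g2
    have tA : ∀ i, tail p A i ⊆ S := fun i => by
      rw [a3]
      exact union_subset_union_right _ (iUnion_subset fun j => subset_iUnion _ j.1)
    have tB : ∀ i, tail q B i ⊆ T := fun i => by
      rw [b3]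
      exact union_subset_union_right _ (iUnion_subset fun j => subset_iUnion _ j.1)
    have sA : ∀ i, A i ⊆ S := fun i => by
      rw [a3]; exact subset_union_of_subset_right (subset_iUnion _ i) _
    have sB : ∀ i, B i ⊆ T := fun i => by
      rw [b3]; exact subset_union_of_subset_right (subset_iUnion _ i) _
    have e2 : S ×ˢ T = ({(p, q)} ∪ ⋃ i, A i ×ˢ tail q B i) ∪
        ({(p, q)} ∪ ⋃ i, tail p A i ×ˢ B i) := by
      apply Subset.antisymm
      · rintro ⟨x, y⟩ ⟨hx, hy⟩
        rw [a3] at hx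
        rw [b3] at hy
        rcases hx with hx | hx
        · rcases hy with hy | hy
          · left; left
            exact Prod.ext hx hy
          · obtain ⟨j, hj⟩ := mem_iUnion.1 hy
            right; right
            exact mem_iUnion.2 ⟨j, Or.inl hx, hj⟩
        · obtain ⟨i, hi⟩ := mem_iUnion.1 hx
          rcases hy with hy | hy
          · left; right
            exact mem_iUnion.2 ⟨i, hi, Or.inl hy⟩
          · obtain ⟨j, hj⟩ := mem_iUnion.1 hy
            rcases le_total i j with h | h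
            · left; right
              exact mem_iUnion.2 ⟨i, hi, Or.inr (mem_iUnion.2 ⟨⟨j, h⟩, hj⟩)⟩
            · right; right
              exact mem_iUnion.2 ⟨j, Or.inr (mem_iUnion.2 ⟨⟨i, h⟩, hi⟩), hj⟩
      · have hpq : ({(p, q)} : Set (X × Y)) ⊆ S ×ˢ T :=
          singleton_subset_iff.2 ⟨h1.mem, h2.mem⟩
        exact union_subset (union_subset hpq (iUnion_subset fun i => prod_mono (sA i) (tB i)))
          (union_subset hpq (iUnion_subset fun i => prod_mono (tA i) (sB i)))
    rw [e2]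
    exact g3

lemma R.prod {m n : ℕ} {p : X} {q : Y} {S : Set X} {T : Set Y} (h1 : R m p S) (h2 : R n q T) :
    R (m + n) (p, q) (S ×ˢ T) := R.prod_aux _ m n rfl p q S T h1 h2

end Pool.Agent.H89.OS
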