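import Mathlib
import Pool.Agent.H89.OS2

set_option autoImplicit false

namespace Pool.Agent.H89.OS

open Filter Topology Set

variable (Y : Type*) [TopologicalSpace Y] [CompactSpace Y]

def Ball := {μ : C(Y, ℝ) → ℝ // IsLinearMap ℝ μ ∧ ∀ f, |μ f| ≤ ‖f‖}

instance : TopologicalSpace (Ball Y) := instTopologicalSpaceSubtype

variable {Y}

def zeroB : Ball Y := ⟨fun _ => 0, ⟨by simp, by simp⟩, fun f => by simp⟩

def dl (y : Y) : Ball Y := ⟨fun f => f y, ⟨fun _ _ => rfl, fun _ _ => rfl⟩,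
  fun f => f.norm_coe_le_norm y⟩

noncomputable def cmb (ε : ℝ) (hε : |ε| ≤ 1) (a : Ball Y × Ball Y) : Ball Y :=
  ⟨fun f => (a.1.1 f + ε * a.2.1 f) / 2,
    ⟨fun f g => by rw [a.1.2.1.1, a.2.2.1.1]; ring,
     fun c f => by rw [a.1.2.1.2, a.2.2.1.2]; simp only [smul_eq_mul]; ring⟩,
    fun f => by
      have h1 := a.1.2.2 f
      have h2 := a.2.2.2 f
      have h3 : |ε * a.2.1 f| ≤ ‖f‖ := by
        rw [abs_mul]
        calc |ε| * |a.2.1 f| ≤ 1 * ‖f‖ := mul_le_mul hε h2 (abs_nonneg _) zero_le_one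
          _ = ‖f‖ := one_mul _
      have h4 := abs_add_le (a.1.1 f) (ε * a.2.1 f)
      rw [abs_div, abs_two]
      linarith⟩

lemma cont_ev (f : C(Y, ℝ)) : Continuous (fun μ : Ball Y => μ.1 f) :=
  (continuous_apply f).comp continuous_subtype_val

lemma cont_dl : Continuous (dl : Y → Ball Y) :=
  Continuous.subtype_mk (continuous_pi fun f => f.continuous) _

lemma cont_cmb (ε : ℝ) (hε : |ε| ≤ 1) : Continuous (cmb (Y := Y) ε hε) := by
  refine Continuous.subtype_mk (continuous_pi fun f => ?_) _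
  exact (((cont_ev f).comp continuous_fst).add
    (continuous_const.mul ((cont_ev f).comp continuous_snd))).div_const _

noncomputable def df (a : Y × Y) : Ball Y := cmb (-1) (by simp) (dl a.1, dl a.2)

lemma cont_df : Continuous (df : Y × Y → Ball Y) :=
  (cont_cmb _ _).comp ((cont_dl.comp continuous_fst).prodMk (cont_dl.comp continuous_snd))

lemma df_val (a : Y × Y) (f : C(Y, ℝ)) : (df a).1 f = (f a.1 - f a.2) / 2 := by
  show (f a.1 + -1 * f a.2) / 2 = _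
  ring

lemma df_diag (y : Y) : df (y, y) = zeroB := by
  apply Subtype.ext
  funext f
  rw [df_val]
  simp [zeroB]

def Nm (l n r k : ℕ) (ψ : C(K n, Y)) : Prop :=
  ∃ (N : Set (Ball Y)) (M : Set Y), R (l + 1) zeroB N ∧ N ⊆ df '' (range ψ ×ˢ range ψ) ∧
    R r (ψ (top n)) M ∧ M ⊆ range ψ ∧
    ∀ (f : C(Y, ℝ)) (c : ℝ), (∀ μ ∈ N, |μ.1 f| ≤ c) → ∀ t, ∃ s ∈ M, |f (ψ t) - f s| ≤ 2 * k * c

lemma zero_mem {n : ℕ} (ψ : C(K n, Y)) : zeroB ∈ df '' (range ψ ×ˢ range ψ) :=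
  ⟨(ψ (top n), ψ (top n)), ⟨mem_range_self _, mem_range_self _⟩, df_diag _⟩

lemma c_nonneg {n : ℕ} {N : Set (Ball Y)} (h : R n zeroB N) {f : C(Y, ℝ)} {c : ℝ}
    (hc : ∀ μ ∈ N, |μ.1 f| ≤ c) : 0 ≤ c := (abs_nonneg _).trans (hc _ h.mem)

lemma nm_all (l n : ℕ) : ∀ r k, r ≤ l + 1 → n ≤ r + k * (l + 1) → ∀ ψ : C(K n, Y), Nm l n r k ψ := by
  induction n with
  | zero =>
    intro r k _ _ ψ
    refine ⟨{zeroB}, {ψ (top 0)}, R.const _ _, singleton_subset_iff.2 (zero_mem ψ), R.const _ _,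
      singleton_subset_iff.2 (mem_range_self _), fun f c hc t => ⟨_, rfl, ?_⟩⟩
    have := c_nonneg (R.const 0 zeroB) hc
    rw [K0 t, sub_self, abs_zero]
    positivity
  | succ n ih =>
    have pos : ∀ r k, r + 1 ≤ l + 1 → n + 1 ≤ r + 1 + k * (l + 1) → ∀ ψ : C(K (n + 1), Y),
        Nm l (n + 1) (r + 1) k ψ := by
      intro r k hr hn ψ
      choose N M h1 h2 h3 h4 h5 using fun i => ih r k (by omega) (by omega) (ψ.comp (e n i))
      have hsub : ∀ i, range (ψ.comp (e n i)) ⊆ range ψ := by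
        rintro i _ ⟨s, rfl⟩
        exact mem_range_self _
      have hcv := cv_e ψ
      have g1 : R (l + 1) zeroB ({zeroB} ∪ ⋃ i, N i) := by
        apply R.iUnion _ _ h1
        intro U hU
        rw [← df_diag (ψ (top (n + 1)))] at hU
        filter_upwards [(hcv.prod hcv) _ (cont_df.continuousAt hU)] with i hi
        exact (h2 i).trans (image_subset_iff.2 hi)
      refine ⟨{zeroB} ∪ ⋃ i, N i, {ψ (top (n + 1))} ∪ ⋃ i, M i, g1, ?_, ?_, ?_, ?_⟩
      · exact union_subset (singleton_subset_iff.2 (zero_mem ψ)) (iUnion_subset fun i =>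
          (h2 i).trans (image_mono (prod_mono (hsub i) (hsub i))))
      · apply R.glue _ _ _ h3
        intro U hU
        filter_upwards [hcv U hU] with i hi
        exact (h4 i).trans hi
      · exact union_subset (singleton_subset_iff.2 (mem_range_self _))
          (iUnion_subset fun i => (h4 i).trans (hsub i))
      · intro f c hc t
        rcases cover n t with rfl | ⟨i, s, rfl⟩
        · refine ⟨_, Or.inl rfl, ?_⟩
          have := c_nonneg g1 hc
          rw [sub_self, abs_zero]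
          positivity
        · obtain ⟨u, hu, hu'⟩ := h5 i f c
            (fun μ hμ => hc μ (Or.inr (mem_iUnion.2 ⟨i, hμ⟩))) s
          exact ⟨u, Or.inr (mem_iUnion.2 ⟨i, hu⟩), hu'⟩
    intro r k hr hn ψ
    rcases r with _ | r
    · rcases k with _ | k
      · omega
      obtain ⟨N, M, h1, h2, h3, h4, h5⟩ := pos l k le_rfl (by
        have : (k + 1) * (l + 1) = k * (l + 1) + (l + 1) := by ring
        omega) ψ
      have g1 := h3.image (g := fun s => df (s, ψ (top (n + 1))))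
        (cont_df.comp (continuous_id.prodMk continuous_const))
      simp only [df_diag] at g1
      refine ⟨_, {ψ (top (n + 1))}, h1.union g1, union_subset h2 ?_, R.const _ _,
        singleton_subset_iff.2 (mem_range_self _), fun f c hc t => ⟨_, rfl, ?_⟩⟩
      · rintro _ ⟨s, hs, rfl⟩
        exact ⟨_, ⟨h4 hs, mem_range_self _⟩, rfl⟩
      · obtain ⟨u, hu, hu'⟩ := h5 f c (fun μ hμ => hc μ (Or.inl hμ)) t
        have h6 := hc _ (Or.inr ⟨u, hu, rfl⟩)
        rw [df_val, abs_div, abs_two] at h6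
        have h7 := abs_sub_le (f (ψ t)) (f u) (f (ψ (top (n + 1))))
        push_cast
        simp only at h6
        linarith
    · exact pos r k hr hn ψ

lemma norming (l n : ℕ) (hn : n ≤ 4 * (l + 1)) :
    ∃ N : Set (Ball (K n)), R (l + 1) zeroB N ∧
      ∀ f : C(K n, ℝ), ∃ μ ∈ N, ‖f‖ ≤ 10 * |μ.1 f| := by
  obtain ⟨N, M, h1, -, h3, -, h5⟩ := nm_all (Y := K n) l n 0 4 (by omega) (by omega)
    (ContinuousMap.id _)
  refine ⟨N ∪ {dl (top n)}, h1.absorb (R.const l _), fun f => ?_⟩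
  by_contra hcon
  push Not at hcon
  have h0 : 0 < ‖f‖ := lt_of_le_of_lt (by positivity) (hcon _ (Or.inl h1.mem))
  have h6 := h5 f (‖f‖ / 10) (fun μ hμ => by linarith [hcon μ (Or.inl hμ)])
  have h7 : 10 * |f (top n)| < ‖f‖ := hcon _ (Or.inr rfl)
  have : ‖f‖ ≤ 9 / 10 * ‖f‖ := by
    refine (ContinuousMap.norm_le _ (by positivity)).2 fun t => ?_
    obtain ⟨s, hs, hs'⟩ := h6 t
    rw [h3.zero] at hs
    obtain rfl : s = top n := hs
    have h8 := abs_add_le (f t - f (top n)) (f (top n))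
    rw [sub_add_cancel] at h8
    rw [Real.norm_eq_abs]
    simp only [ContinuousMap.id_apply] at hs'
    push_cast at hs'
    linarith
  linarith

lemma main (n : ℕ) (hn : 3 ≤ n) : ∃ Φ : C(K n, Ball (K n)), (∀ t, dl t ∈ range Φ) ∧
    ∀ u v : C(K n, ℝ), ∃ t, min ‖u‖ ‖v‖ ≤ 60 * min |(Φ t).1 u| |(Φ t).1 v| := by
  obtain ⟨m, rfl⟩ : ∃ m, n = m + 1 := ⟨n - 1, by omega⟩
  obtain ⟨N, h1, h2⟩ := norming (m / 2 - 1) (m + 1) (by omega)
  have h3 := ((h1.prod h1).image (cont_cmb 1 (by simp))).mono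
    (show m / 2 - 1 + 1 + (m / 2 - 1 + 1) ≤ m by omega)
  have h4 : R (m + 1) (top (m + 1)) (univ : Set (K (m + 1))) :=
    ⟨ContinuousMap.id _, rfl, range_id⟩
  obtain ⟨Φ, -, hΦ⟩ := (h4.image cont_dl).absorb h3
  refine ⟨Φ, fun t => by rw [hΦ]; exact Or.inl ⟨t, trivial, rfl⟩, fun u v => ?_⟩
  obtain ⟨μ, hμ, a1⟩ := h2 u
  obtain ⟨ν, hν, a2⟩ := h2 v
  have key : ∀ a ∈ N, ∀ b ∈ N, ∃ t, ∀ f, (Φ t).1 f = (a.1 f + b.1 f) / 2 := by
    intro a ha b hb
    have : cmb 1 (by simp) (a, b) ∈ range Φ := by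
      rw [hΦ]; exact Or.inr ⟨(a, b), ⟨ha, hb⟩, rfl⟩
    obtain ⟨t, ht⟩ := this
    refine ⟨t, fun f => ?_⟩
    rw [ht]
    show (a.1 f + 1 * b.1 f) / 2 = _
    rw [one_mul]
  set c := min ‖u‖ ‖v‖ with hc
  have c1 : c ≤ ‖u‖ := min_le_left _ _
  have c2 : c ≤ ‖v‖ := min_le_right _ _
  have c0 : 0 ≤ c := le_min (norm_nonneg _) (norm_nonneg _)
  have fin : ∀ t, c ≤ 60 * |(Φ t).1 u| → c ≤ 60 * |(Φ t).1 v| →
      c ≤ 60 * min |(Φ t).1 u| |(Φ t).1 v| := by
    intro t x y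
    rcases min_choice |(Φ t).1 u| |(Φ t).1 v| with h | h <;> rw [h] <;> assumption
  by_cases b1 : c ≤ 30 * |μ.1 v|
  · obtain ⟨t, ht⟩ := key μ hμ μ hμ
    refine ⟨t, fin t ?_ ?_⟩ <;> rw [ht, add_self_div_two]
    · linarith [abs_nonneg (μ.1 u)]
    · linarith [abs_nonneg (μ.1 v)]
  by_cases b2 : c ≤ 30 * |ν.1 u|
  · obtain ⟨t, ht⟩ := key ν hν ν hν
    refine ⟨t, fin t ?_ ?_⟩ <;> rw [ht, add_self_div_two]
    · linarith [abs_nonneg (ν.1 u)]
    · linarith [abs_nonneg (ν.1 v)]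
  push Not at b1 b2
  obtain ⟨t, ht⟩ := key μ hμ ν hν
  refine ⟨t, fin t ?_ ?_⟩ <;> rw [ht, abs_div, abs_two]
  · have := abs_add_le (μ.1 u + ν.1 u) (-ν.1 u)
    rw [add_neg_cancel_right, abs_neg] at this
    linarith
  · have := abs_add_le (μ.1 v + ν.1 v) (-μ.1 v)
    rw [add_neg_cancel_comm, abs_neg] at this
    linarith

end Pool.Agent.H89.OS
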