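import Pool.Agent.H89.MX1

set_option autoImplicit false

namespace Pool.Agent.H89.PM
open Finset Function Pool.Agent.H89.MX
open scoped Classical

section E
variable {Ω Ω' : Type} [Fintype Ω] [Fintype Ω']

noncomputable def E (f : Ω → ℝ) : ℝ := (∑ x, f x) / Fintype.card Ω

lemma E_mono {f g : Ω → ℝ} (h : ∀ x, f x ≤ g x) : E f ≤ E g :=
  div_le_div_of_nonneg_right (Finset.sum_le_sum fun x _ => h x) (by positivity)
lemma E_add (f g : Ω → ℝ) : E (fun x => f x + g x) = E f + E g := by
  simp [E, Finset.sum_add_distrib, add_div]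
lemma E_mul (c : ℝ) (f : Ω → ℝ) : E (fun x => c * f x) = c * E f := by
  simp [E, ← Finset.mul_sum, mul_div_assoc]
lemma E_sum {β : Type} (s : Finset β) (f : β → Ω → ℝ) :
    E (fun x => ∑ b ∈ s, f b x) = ∑ b ∈ s, E (f b) := by
  simp only [E]
  rw [Finset.sum_comm, Finset.sum_div]
lemma E_const [Nonempty Ω] (c : ℝ) : E (fun _ : Ω => c) = c := by
  have : (0 : ℝ) < Fintype.card Ω := by exact_mod_cast Fintype.card_pos
  simp only [E, Finset.sum_const, Finset.card_univ, nsmul_eq_mul]
  field_simp
lemma E_equiv (e : Ω ≃ Ω') (f : Ω' → ℝ) : E (fun x => f (e x)) = E f := by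
  simp only [E]; rw [e.sum_comp, Fintype.card_congr e]
lemma E_prod (f : Ω × Ω' → ℝ) : E f = E fun y => E fun x => f (x, y) := by
  simp only [E]
  rw [Fintype.sum_prod_type_right, ← Finset.sum_div, Fintype.card_prod, div_div]
  push_cast; rfl
lemma E_cons {m : ℕ} (f : (Fin (m + 1) → Ω) → ℝ) :
    E f = E fun v : Fin m → Ω => E fun x : Ω => f (Fin.cons x v) := by
  rw [← E_equiv (Fin.consEquiv fun _ => Ω), E_prod]
  rfl
lemma E_nonneg {f : Ω → ℝ} (h : ∀ x, 0 ≤ f x) : 0 ≤ E f :=
  div_nonneg (Finset.sum_nonneg fun x _ => h x) (by positivity)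

lemma fibres {V W : Type} [AddCommGroup V] [Fintype V] [AddCommGroup W] (L : V →+ W)
    (Y : Finset W) (hY : ∀ y ∈ Y, ∃ x, L x = y) :
    E (fun x => ind (L x ∈ Y)) = Y.card * E (fun x => ind (L x = 0)) := by
  have h1 : (fun x => ind (L x ∈ Y)) = fun x => ∑ y ∈ Y, ind (L x = y) := by
    funext x
    simp [ind]
  rw [h1, E_sum]
  have h2 : ∀ y ∈ Y, E (fun x => ind (L x = y)) = E (fun x => ind (L x = 0)) := by
    intro y hy
    obtain ⟨x0, rfl⟩ := hY y hy
    rw [← E_equiv (Equiv.addRight x0)]
    congr 1
    funext x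
    refine ind_congr ?_
    simp
  rw [Finset.sum_congr rfl h2]
  simp
end E

variable {ι F : Type} [Fintype ι] [DecidableEq ι] [Field F]

def D (x : ι → F) (g : Finset ι → F) : Finset ι → F :=
  fun S => ∑ j, if j ∈ S then 0 else x j * g (insert j S)

lemma D_add (x y : ι → F) (g : Finset ι → F) : D (x + y) g = D x g + D y g := by
  funext S
  simp only [D, Pi.add_apply, ← Finset.sum_add_distrib]
  refine Finset.sum_congr rfl fun j _ => ?_
  split_ifs <;> ring

lemma D_add' (x : ι → F) (g h : Finset ι → F) : D x (g + h) = D x g + D x h := by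
  funext S
  simp only [D, Pi.add_apply, ← Finset.sum_add_distrib]
  refine Finset.sum_congr rfl fun j _ => ?_
  split_ifs <;> ring

lemma D_zero (g : Finset ι → F) : D (0 : ι → F) g = 0 := by
  funext S; simp [D]

lemma D_zero' (x : ι → F) : D x (0 : Finset ι → F) = 0 := by
  funext S; simp [D]

def L (g : Finset ι → F) : (ι → F) →+ (Finset ι → F) where
  toFun x := D x g
  map_zero' := D_zero g
  map_add' x y := D_add x y g

def L' (x : ι → F) : (Finset ι → F) →+ (Finset ι → F) where
  toFun g := D x g
  map_zero' := D_zero' x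
  map_add' g h := D_add' x g h

lemma D_sub (x y : ι → F) (g : Finset ι → F) : D (x - y) g = D x g - D y g := (L g).map_sub x y
lemma D_sub' (x : ι → F) (g h : Finset ι → F) : D x (g - h) = D x g - D x h := (L' x).map_sub g h

lemma DD (x y : ι → F) (g : Finset ι → F) (S : Finset ι) :
    D x (D y g) S = ∑ j, ∑ k, if j ∈ S ∨ k ∈ S ∨ j = k then 0 else
      x j * y k * g (insert j (insert k S)) := by
  simp only [D]
  refine Finset.sum_congr rfl fun j _ => ?_
  by_cases hj : j ∈ S
  · simp [hj]
  · rw [if_neg hj, Finset.mul_sum]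
    refine Finset.sum_congr rfl fun k _ => ?_
    by_cases hk : k ∈ S
    · simp [hk]
    · by_cases e : j = k
      · simp [e]
      · have e' : ¬ k = j := fun h => e h.symm
        simp [hj, hk, e, e', Finset.insert_comm, mul_assoc]

lemma D_comm (x y : ι → F) (g : Finset ι → F) : D x (D y g) = D y (D x g) := by
  funext S
  rw [DD, DD, Finset.sum_comm]
  refine Finset.sum_congr rfl fun j _ => Finset.sum_congr rfl fun k _ => ?_
  by_cases h : k ∈ S ∨ j ∈ S ∨ k = j
  · rw [if_pos h, if_pos (by tauto)]
  · rw [if_neg h, if_neg (by tauto), Finset.insert_comm]; ring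

lemma D_single (j : ι) (g : Finset ι → F) (S : Finset ι) :
    D (Pi.single j 1) g S = if j ∈ S then 0 else g (insert j S) := by
  simp only [D]
  rw [Finset.sum_eq_single j]
  · simp
  · intro b _ hb; simp [Pi.single_eq_of_ne hb]
  · simp

lemma D_sq (j : ι) (g : Finset ι → F) : D (Pi.single j 1) (D (Pi.single j 1) g) = 0 := by
  funext S
  rw [D_single, D_single]
  simp

def G (U : Finset ι) : (m : ℕ) → (Fin m → ι → F) → Finset ι → F
  | 0, _ => fun S => if S = U then 1 else 0
  | m + 1, v => D (v 0) (G U m (Fin.tail v))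

lemma G_cons (U : Finset ι) (m : ℕ) (x : ι → F) (v : Fin m → ι → F) :
    G U (m + 1) (Fin.cons x v) = D x (G U m v) := by simp [G]

lemma G_card (U : Finset ι) : ∀ (m : ℕ) (v : Fin m → ι → F) (S : Finset ι), G U m v S ≠ 0 →
    S.card + m = U.card
  | 0, _, S, h => by
    have : S = U := by by_contra e; simp [G, e] at h
    simp [this]
  | m + 1, v, S, h => by
    simp only [G, D] at h
    obtain ⟨j, _, hj⟩ := Finset.exists_ne_zero_of_sum_ne_zero h
    by_cases hS : j ∈ S
    · simp [hS] at hj
    · rw [if_neg hS] at hj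
      have := G_card U m _ _ (right_ne_zero_of_mul hj)
      rw [card_insert_of_notMem hS] at this
      omega

def shear (j k : ι) (hjk : j ≠ k) : (ι → F) ≃ (ι → F) where
  toFun x := update x j (x j - x k)
  invFun x := update x j (x j + x k)
  left_inv x := by simp [update_of_ne hjk.symm]
  right_inv x := by simp [update_of_ne hjk.symm]

lemma twin (U : Finset ι) (j k : ι) (hjk : j ≠ k) (hk : k ∈ U) :
    ∀ (m : ℕ) (v : Fin m → ι → F) (S : Finset ι),
      G (U.erase k) m (fun i => shear j k hjk (v i)) S =
        if k ∈ S then 0 else D (Pi.single k 1 - Pi.single j 1) (G U m v) S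
  | 0, _, S => by
    rw [D_sub, Pi.sub_apply, D_single, D_single]
    simp only [G]
    by_cases hS : k ∈ S
    · rw [if_pos hS, if_neg]
      rintro rfl; simp at hS
    · have h1 : ¬ insert j S = U := by
        rintro rfl
        rcases mem_insert.1 hk with e | e
        · exact hjk e.symm
        · exact hS e
      have h2 : S = U.erase k ↔ insert k S = U := by
        constructor
        · rintro rfl; exact insert_erase hk
        · rintro rfl; exact (erase_insert hS).symm
      simp [hS, h1, h2]
  | m + 1, v, S => by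
    have ih := twin U j k hjk hk m (Fin.tail v)
    simp only [G]
    rw [D_comm]
    set h := D (Pi.single k 1 - Pi.single j 1) (G U m (Fin.tail v)) with hh
    have h0 : D (Pi.single k 1) h + D (Pi.single j 1) h = 0 := by
      rw [hh, D_sub, D_sub', D_sub', D_sq, D_sq, D_comm (Pi.single k 1)]
      simp
    have e : (Fin.tail fun i => shear j k hjk (v i)) = fun i => shear j k hjk (Fin.tail v i) := rfl
    rw [e]
    simp only [D, ih]
    by_cases hS : k ∈ S
    · simp [hS]
    · rw [if_neg hS]
      have h1 := congrFun h0 S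
      rw [Pi.add_apply, D_single, D_single, if_neg hS, Pi.zero_apply] at h1
      have hk' : k ∈ univ.erase j := by simp [hjk.symm]
      rw [← Finset.add_sum_erase _ _ (mem_univ j), ← Finset.add_sum_erase _ _ (mem_univ j),
        ← Finset.add_sum_erase _ _ hk', ← Finset.add_sum_erase _ _ hk', ← add_assoc, ← add_assoc]
      congr 1
      · have : k ∉ insert j S := by simp [hS, hjk.symm]
        simp only [shear, Equiv.coe_fn_mk, update_self, if_neg hS, mem_insert_self, if_true,
          if_neg this, mul_zero, add_zero]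
        by_cases hj : j ∈ S
        · rw [if_pos hj, add_zero] at h1
          simp [hj, h1]
        · rw [if_neg hj] at h1
          rw [if_neg hj, if_neg hj, eq_neg_of_add_eq_zero_left h1]; ring
      · refine Finset.sum_congr rfl fun l hl => ?_
        have l1 : l ≠ k := (mem_erase.1 hl).1
        have l2 : l ≠ j := (mem_erase.1 (mem_erase.1 hl).2).1
        have : k ∉ insert l S := by simp [hS, l1.symm]
        simp only [shear, Equiv.coe_fn_mk, update_of_ne l2, if_neg this]

end Pool.Agent.H89.PM
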