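import Pool.Agent.H89.PM1

set_option autoImplicit false

namespace Pool.Agent.H89.PM
open Finset Function Pool.Agent.H89.MX
open scoped Classical

variable {ι F : Type} [Fintype ι] [DecidableEq ι] [Field F] [Fintype F]

noncomputable def p (g : Finset ι → F) : ℝ := E fun x : ι → F => ind (D x g = 0)

lemma p_nonneg (g : Finset ι → F) : 0 ≤ p g := E_nonneg fun _ => ind_nonneg _
lemma p_le_one (g : Finset ι → F) : p g ≤ 1 := by
  rw [← E_const (Ω := ι → F) 1]; exact E_mono fun _ => ind_le_one _

lemma p_deg (g : Finset ι → F) (S : Finset ι) (hS : g S ≠ 0) : p g ≤ (1 / 2) ^ S.card := by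
  let X : Finset ι → ι → F := fun A l => if l ∈ A then 1 else 0
  have hX : ∀ A ⊆ S, ∀ j ∈ S, D (X A) g (S.erase j) = X A j * g S := by
    intro A hA j hj
    simp only [D]
    rw [Finset.sum_eq_single j]
    · simp [insert_erase hj]
    · intro b _ hb
      by_cases hb' : b ∈ S
      · simp [hb, hb']
      · have : b ∉ A := fun h => hb' (hA h)
        simp [X, this]
    · simp
  have hinj : Set.InjOn (fun A => L g (X A)) (S.powerset : Set (Finset ι)) := by
    intro A hA B hB e
    have hA' : A ⊆ S := by simpa using hA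
    have hB' : B ⊆ S := by simpa using hB
    ext j
    by_cases hj : j ∈ S
    · have h1 := congrFun e (S.erase j)
      change D (X A) g _ = D (X B) g _ at h1
      rw [hX A hA' j hj, hX B hB' j hj] at h1
      have h2 := mul_right_cancel₀ hS h1
      by_cases a : j ∈ A <;> by_cases b : j ∈ B <;> simp_all [X]
    · exact ⟨fun h => absurd (hA' h) hj, fun h => absurd (hB' h) hj⟩
  have h := fibres (L g) (S.powerset.image fun A => L g (X A))
    (fun y hy => by obtain ⟨A, _, rfl⟩ := mem_image.1 hy; exact ⟨_, rfl⟩)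
  rw [card_image_of_injOn hinj, card_powerset] at h
  have h1 : E (fun x : ι → F => ind (L g x ∈ S.powerset.image fun A => L g (X A))) ≤ 1 := by
    rw [← E_const (Ω := ι → F) 1]; exact E_mono fun _ => ind_le_one _
  rw [h] at h1
  rw [one_div_pow, le_div_iff₀ (by positivity)]
  push_cast at h1
  change (2 : ℝ) ^ S.card * p g ≤ 1 at h1
  linarith

lemma quad (h2 : (2 : F) ≠ 0) (g : Finset ι → F) (S : Finset ι) (hS : g S ≠ 0) (hc : 2 ≤ S.card) :
    E (fun x : ι → F => ind (D x (D x g) = 0)) ≤ 3 / 4 := by
  obtain ⟨j, hj, k, hk, hjk⟩ := Finset.one_lt_card.1 (show 1 < S.card by omega)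
  set a : ι → F := Pi.single j 1
  set b : ι → F := Pi.single k 1
  have hab : D a (D b g) ≠ 0 := by
    intro h
    have := congrFun h ((S.erase j).erase k)
    rw [D_single, D_single, if_neg (by simp), if_neg (by simp [hjk.symm])] at this
    rw [Finset.insert_comm, insert_erase (by simp [hk, hjk.symm]), insert_erase hj] at this
    exact hS this
  let Q : (ι → F) → ℝ := fun x => ind (D x (D x g) = 0)
  have key : ∀ x, Q x + Q (x + a) + Q (x + b) + Q (x + (a + b)) ≤ 3 := by
    intro x
    have := ind_le_one (D x (D x g) = 0)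
    have := ind_le_one (D (x + a) (D (x + a) g) = 0)
    have := ind_le_one (D (x + b) (D (x + b) g) = 0)
    have := ind_le_one (D (x + (a + b)) (D (x + (a + b)) g) = 0)
    by_cases q1 : D x (D x g) = 0
    · by_cases q2 : D (x + a) (D (x + a) g) = 0
      · by_cases q3 : D (x + b) (D (x + b) g) = 0
        · by_cases q4 : D (x + (a + b)) (D (x + (a + b)) g) = 0
          · exfalso
            apply hab
            simp only [D_add, D_add'] at q2 q3 q4
            rw [D_comm b a] at q4
            funext T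
            have e1 := congrFun q1 T
            have e2 := congrFun q2 T
            have e3 := congrFun q3 T
            have e4 := congrFun q4 T
            simp only [Pi.add_apply, Pi.zero_apply] at e1 e2 e3 e4 ⊢
            apply mul_left_cancel₀ h2
            linear_combination e4 - e2 - e3 + e1
          · simp only [Q, ind_neg q4]; linarith
        · simp only [Q, ind_neg q3]; linarith
      · simp only [Q, ind_neg q2]; linarith
    · simp only [Q, ind_neg q1]; linarith
  have h := E_mono key
  rw [E_const, E_add, E_add, E_add] at h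
  have s : ∀ c : ι → F, E (fun x => Q (x + c)) = E Q := fun c => E_equiv (Equiv.addRight c) Q
  rw [s, s, s] at h
  change E Q ≤ _
  change E Q + _ + _ + _ ≤ _ at h
  linarith

lemma coll {α β : Type} [DecidableEq β] (U : Finset α) (f : α → β) :
    (U.card : ℝ) ^ 2 ≤ (U.image f).card * ∑ j ∈ U, ∑ k ∈ U, ind (f j = f k) := by
  have h1 : (U.card : ℝ) = ∑ y ∈ U.image f, ((U.filter fun j => f j = y).card : ℝ) := by
    rw [card_eq_sum_card_image f U]; push_cast; rfl
  have h2 : ∑ j ∈ U, ∑ k ∈ U, ind (f j = f k) =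
      ∑ y ∈ U.image f, ((U.filter fun j => f j = y).card : ℝ) ^ 2 := by
    rw [← Finset.sum_fiberwise_of_maps_to (g := f) (t := U.image f)
      fun j hj => mem_image_of_mem f hj]
    refine Finset.sum_congr rfl fun y _ => ?_
    have : ∀ j ∈ U.filter (fun j => f j = y), ∑ k ∈ U, ind (f j = f k) =
        ((U.filter fun j => f j = y).card : ℝ) := by
      intro j hj
      rw [(mem_filter.1 hj).2]
      rw [Finset.card_filter]
      push_cast
      refine Finset.sum_congr rfl fun k _ => ?_
      by_cases e : f k = y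
      · rw [if_pos e, ind_pos e.symm]
      · rw [if_neg e, ind_neg fun h => e h.symm]
    rw [Finset.sum_congr rfl this]
    simp [sq]
  rw [h1, h2]
  exact sq_sum_le_card_mul_sum_sq

lemma p_step (h2 : (2 : F) ≠ 0) (g : Finset ι → F) (hg : ∀ S, g S ≠ 0 → 2 ≤ S.card)
    (U : Finset ι) (hU : 0 < U.card) :
    p g ≤ (1 / 4) * ind (g = 0) + (3 / 4 / (U.card : ℝ) ^ 2) *
      ∑ j ∈ U, ∑ k ∈ U, ind (D (Pi.single k 1 - Pi.single j 1) g = 0) := by
  have hU' : (0 : ℝ) < U.card := by exact_mod_cast hU
  by_cases h0 : g = 0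
  · subst h0
    have := p_le_one (0 : Finset ι → F)
    simp only [D_zero', ind_pos True.intro, Finset.sum_const, nsmul_eq_mul]
    refine le_trans this (le_of_eq ?_)
    field_simp; norm_num
  · rw [ind_neg h0, mul_zero, zero_add]
    obtain ⟨S, hS⟩ := Function.ne_iff.1 h0
    let f : ι → Finset ι → F := fun j => L g (Pi.single j 1)
    have h := fibres (L g) (U.image f)
      (fun y hy => by obtain ⟨A, _, rfl⟩ := mem_image.1 hy; exact ⟨_, rfl⟩)
    have h1 : E (fun x : ι → F => ind (L g x ∈ U.image f)) ≤ 3 / 4 := by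
      refine le_trans (E_mono fun x => ?_) (quad h2 g S hS (hg S hS))
      by_cases hx : L g x ∈ U.image f
      · obtain ⟨j, _, hj⟩ := mem_image.1 hx
        have hj' : D (Pi.single j 1) g = D x g := hj
        have : D x (D x g) = 0 := by rw [← hj', D_comm, ← hj', D_sq]
        rw [ind_pos hx, ind_pos this]
      · rw [ind_neg hx]; exact ind_nonneg _
    rw [h] at h1
    change _ * p g ≤ _ at h1
    have h3 := coll U f
    have e : ∀ j k : ι, ind (D (Pi.single k 1 - Pi.single j 1) g = 0) = ind (f j = f k) := by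
      intro j k
      refine ind_congr ?_
      rw [D_sub, sub_eq_zero, eq_comm]; rfl
    simp only [e]
    have hT : 0 ≤ ∑ j ∈ U, ∑ k ∈ U, ind (f j = f k) :=
      Finset.sum_nonneg fun _ _ => Finset.sum_nonneg fun _ _ => ind_nonneg _
    rw [div_mul_eq_mul_div, le_div_iff₀ (by positivity)]
    have := p_nonneg g
    nlinarith [mul_le_mul_of_nonneg_left h3 this, mul_le_mul_of_nonneg_right h1 hT]

noncomputable def β (F : Type) [Field F] [Fintype F] (U : Finset ι) (m : ℕ) : ℝ :=
  E fun v : Fin m → ι → F => ind (G U m v = 0)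

lemma β_nonneg (U : Finset ι) (m : ℕ) : 0 ≤ β F U m := E_nonneg fun _ => ind_nonneg _
lemma β_le_one (U : Finset ι) (m : ℕ) : β F U m ≤ 1 := by
  rw [← E_const (Ω := Fin m → ι → F) 1]; exact E_mono fun _ => ind_le_one _

lemma β_succ (U : Finset ι) (m : ℕ) : β F U (m + 1) = E fun v : Fin m → ι → F => p (G U m v) := by
  rw [β, E_cons]
  simp only [G_cons, p]

lemma β_tail (U : Finset ι) : ∀ (m d : ℕ), U.card = m + d → β F U m ≤ (1 / 2) ^ d
  | 0, d, _ => by
    have : β F U 0 = 0 := by
      rw [β, ← E_const (Ω := Fin 0 → ι → F) 0]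
      congr 1; funext v
      apply ind_neg
      intro h
      have := congrFun h U
      simp [G] at this
    rw [this]; positivity
  | m + 1, d, h => by
    have ih := β_tail U m (d + 1) (by omega)
    rw [β_succ]
    have : ∀ v : Fin m → ι → F, p (G U m v) ≤ ind (G U m v = 0) + (1 / 2) ^ (d + 1) := by
      intro v
      by_cases h0 : G U m v = 0
      · rw [ind_pos h0]; have := p_le_one (G U m v)
        have : (0 : ℝ) ≤ (1 / 2) ^ (d + 1) := by positivity
        linarith
      · obtain ⟨S, hS⟩ := Function.ne_iff.1 h0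
        have h1 := G_card U m v S hS
        have h2 := p_deg _ S hS
        rw [show S.card = d + 1 by omega] at h2
        rw [ind_neg h0, zero_add]; exact h2
    refine le_trans (E_mono this) ?_
    rw [E_add, E_const]
    change β F U m + _ ≤ _
    rw [pow_succ] at ih ⊢
    linarith

lemma twin_le (U : Finset ι) (j k : ι) (hjk : j ≠ k) (hk : k ∈ U) (m : ℕ) :
    E (fun v : Fin m → ι → F => ind (D (Pi.single k 1 - Pi.single j 1) (G U m v) = 0)) ≤
      β F (U.erase k) m := by
  refine le_trans (E_mono fun v => ?_) (le_of_eq (E_equiv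
    (Equiv.piCongrRight fun _ : Fin m => shear (F := F) j k hjk)
    (fun v => ind (G (U.erase k) m v = 0))))
  by_cases h : D (Pi.single k 1 - Pi.single j 1) (G U m v) = 0
  · rw [ind_pos h, ind_pos]
    funext S
    have := twin U j k hjk hk m v S
    rw [h] at this
    refine Eq.trans this ?_
    simp
  · rw [ind_neg h]; exact ind_nonneg _

lemma β_step (h2 : (2 : F) ≠ 0) (U : Finset ι) (m d : ℕ) (h : U.card = m + (d + 2)) (t : ℝ)
    (ht : ∀ k ∈ U, β F (U.erase k) m ≤ t) :
    β F U (m + 1) ≤ (1 / 4) * β F U m + (3 / 4) * (1 / U.card + t) := by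
  have hU : 0 < U.card := by omega
  have hU' : (0 : ℝ) < U.card := by exact_mod_cast hU
  obtain ⟨k0, hk0⟩ := Finset.card_pos.1 hU
  have ht0 : 0 ≤ t := le_trans (β_nonneg _ _) (ht k0 hk0)
  rw [β_succ]
  refine le_trans (E_mono fun v => p_step h2 (G U m v)
    (fun S hS => by have := G_card U m v S hS; omega) U hU) ?_
  rw [E_add, E_mul, E_mul, E_sum]
  simp only [E_sum]
  have : ∀ j ∈ U, ∑ k ∈ U, E (fun v : Fin m → ι → F =>
      ind (D (Pi.single k 1 - Pi.single j 1) (G U m v) = 0)) ≤ 1 + U.card * t := by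
    intro j hj
    have : ∀ k ∈ U, E (fun v : Fin m → ι → F =>
        ind (D (Pi.single k 1 - Pi.single j 1) (G U m v) = 0)) ≤ (if k = j then 1 else 0) + t := by
      intro k hk
      by_cases e : k = j
      · rw [if_pos e]
        have : E (fun v : Fin m → ι → F =>
          ind (D (Pi.single k 1 - Pi.single j 1) (G U m v) = 0)) ≤ 1 := by
          rw [← E_const (Ω := Fin m → ι → F) 1]; exact E_mono fun _ => ind_le_one _
        linarith
      · rw [if_neg e, zero_add]
        exact le_trans (twin_le U j k (Ne.symm e) hk m) (ht k hk)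
    refine le_trans (Finset.sum_le_sum this) (le_of_eq ?_)
    simp [Finset.sum_add_distrib, hj]
  have h3 := Finset.sum_le_sum this
  rw [Finset.sum_const, nsmul_eq_mul] at h3
  have h4 := mul_le_mul_of_nonneg_left h3 (show (0 : ℝ) ≤ 3 / 4 / (U.card : ℝ) ^ 2 by positivity)
  have h5 : 3 / 4 / (U.card : ℝ) ^ 2 * (U.card * (1 + U.card * t)) = 3 / 4 * (1 / U.card + t) := by
    field_simp
  change 1 / 4 * β F U m + _ ≤ _
  linarith

end Pool.Agent.H89.PM
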