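import Pool.Agent.H89.PM2

set_option autoImplicit false

namespace Pool.Agent.H89.PM
open Finset Function Pool.Agent.H89.MX
open scoped Classical

variable {F : Type} [Field F] [Fintype F]

def Bd (F : Type) [Field F] [Fintype F] (m d : ℕ) (t : ℝ) : Prop :=
  ∀ (N : ℕ) (U : Finset (Fin N)), U.card = m + d → β F U m ≤ t

lemma iter (h2 : (2 : F) ≠ 0) (d m0 : ℕ) (t δ : ℝ) (ht : 0 ≤ t) (hδ : 0 < δ)
    (hm : 3 / δ ≤ m0) (H : ∀ m ≥ m0, Bd F m (d + 2) t) :
    ∀ k : ℕ, Bd F (m0 + k) (d + 1) ((3 / 4) ^ k + t + δ)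
  | 0 => fun N U _ => by have := β_le_one (F := F) U (m0 + 0); simp at this ⊢; linarith
  | k + 1 => fun N U hU => by
    have h1 := β_step h2 U (m0 + k) d (by omega) _ fun j hj =>
      iter h2 d m0 t δ ht hδ hm H k N (U.erase j) (by rw [card_erase_of_mem hj]; omega)
    have h3 := H (m0 + k) (by omega) N U (by omega)
    have h4 : 1 / (U.card : ℝ) ≤ δ / 3 := by
      have : (m0 : ℝ) + 1 ≤ U.card := by exact_mod_cast (by omega : m0 + 1 ≤ U.card)
      have h0 : (0 : ℝ) ≤ m0 := by positivity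
      rw [div_le_iff₀ hδ] at hm
      rw [div_le_div_iff₀ (by linarith) (by norm_num)]
      nlinarith
    rw [← add_assoc, pow_succ]
    linarith

lemma down (h2 : (2 : F) ≠ 0) (t : ℝ) (ht : 0 ≤ t) : ∀ d : ℕ,
    (∀ ε > 0, ∃ m0, ∀ m ≥ m0, Bd F m (d + 1) (t + ε)) →
    ∀ ε > 0, ∃ m0, ∀ m ≥ m0, Bd F m 1 (t + ε)
  | 0, H => H
  | d + 1, H => by
    refine down h2 t ht d fun ε hε => ?_
    obtain ⟨m1, h1⟩ := H (ε / 3) (by positivity)
    obtain ⟨m2, h3⟩ := exists_nat_ge (3 / (ε / 3))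
    obtain ⟨k0, hk⟩ := exists_pow_lt_of_lt_one (show 0 < ε / 3 by positivity)
      (show (3 / 4 : ℝ) < 1 by norm_num)
    refine ⟨max m1 m2 + k0, fun m hm N U hU => ?_⟩
    obtain ⟨k, rfl⟩ : ∃ k, m = max m1 m2 + k := ⟨m - max m1 m2, by omega⟩
    have := iter h2 d (max m1 m2) (t + ε / 3) (ε / 3) (by positivity) (by positivity)
      (le_trans h3 (by exact_mod_cast le_max_right _ _))
      (fun m hm => h1 m (le_trans (le_max_left _ _) hm)) k N U hU
    have h4 : (3 / 4 : ℝ) ^ k ≤ (3 / 4) ^ k0 :=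
      pow_le_pow_of_le_one (by norm_num) (by norm_num) (by omega)
    linarith

theorem small (h2 : (2 : F) ≠ 0) (ε : ℝ) (hε : 0 < ε) : ∃ m0, ∀ m ≥ m0, Bd F m 1 ε := by
  obtain ⟨d, hd⟩ := exists_pow_lt_of_lt_one (show 0 < ε / 2 by positivity)
    (show (1 / 2 : ℝ) < 1 by norm_num)
  obtain ⟨m0, h⟩ := down h2 ((1 / 2) ^ (d + 1)) (by positivity) d
    (fun e he => ⟨0, fun m _ N U hU => by have := β_tail (F := F) U m (d + 1) hU; linarith⟩)
    (ε / 2) (by positivity)
  refine ⟨m0, fun m hm N U hU => le_trans (h m hm N U hU) ?_⟩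
  rw [pow_succ]
  have : (0 : ℝ) < (1 / 2) ^ d := by positivity
  linarith

section per
variable {ι K : Type} [Fintype ι] [DecidableEq ι] [Field K]

lemma G_eq : ∀ (m : ℕ) (v : Fin m → ι → K) (S : Finset ι), G univ m v S =
    ∑ f : Fin m → ι, if Injective f ∧ (∀ i, f i ∉ S) ∧ ∀ l, l ∈ S ∨ ∃ i, f i = l then
      ∏ i, v i (f i) else 0
  | 0, v, S => by
    simp [G, Finset.eq_univ_iff_forall, Function.injective_of_subsingleton]
  | m + 1, v, S => by
    simp only [G, D, G_eq m]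
    rw [← (Fin.consEquiv fun _ => ι).sum_comp, Fintype.sum_prod_type]
    refine Finset.sum_congr rfl fun j _ => ?_
    by_cases hj : j ∈ S
    · rw [if_pos hj, Finset.sum_eq_zero]
      intro f _
      rw [if_neg]
      rintro ⟨_, h, _⟩
      exact h 0 hj
    · rw [if_neg hj, Finset.mul_sum]
      refine Finset.sum_congr rfl fun f _ => ?_
      have : (Injective f ∧ (∀ i, f i ∉ insert j S) ∧ ∀ l, l ∈ insert j S ∨ ∃ i, f i = l) ↔
          (Injective ((Fin.consEquiv fun _ => ι) (j, f)) ∧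
            (∀ i, (Fin.consEquiv fun _ => ι) (j, f) i ∉ S) ∧
            ∀ l, l ∈ S ∨ ∃ i, (Fin.consEquiv fun _ => ι) (j, f) i = l) := by
        change _ ↔ (Injective (Fin.cons j f : Fin (m + 1) → ι) ∧
          (∀ i, (Fin.cons j f : Fin (m + 1) → ι) i ∉ S) ∧
            ∀ l, l ∈ S ∨ ∃ i, (Fin.cons j f : Fin (m + 1) → ι) i = l)
        rw [Fin.cons_injective_iff]
        simp only [Fin.forall_fin_succ, Fin.exists_fin_succ, Fin.cons_zero, Fin.cons_succ,
          mem_insert, Set.mem_range, not_or, not_exists, forall_and]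
        constructor
        · rintro ⟨a, ⟨b, c⟩, e⟩
          refine ⟨⟨b, a⟩, ⟨hj, c⟩, fun l => ?_⟩
          rcases e l with (rfl | h) | h <;> tauto
        · rintro ⟨⟨b, a⟩, ⟨_, c⟩, e⟩
          refine ⟨a, ⟨b, c⟩, fun l => ?_⟩
          rcases e l with h | rfl | h <;> tauto
      by_cases h : Injective f ∧ (∀ i, f i ∉ insert j S) ∧ ∀ l, l ∈ insert j S ∨ ∃ i, f i = l
      · rw [if_pos h, if_pos (this.1 h), Fin.prod_univ_succ]; rfl
      · rw [if_neg h, if_neg (fun h' => h (this.2 h')), mul_zero]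

lemma G_per (n : ℕ) (v : Fin n → Fin n → K) :
    G univ n v ∅ = ∑ σ : Equiv.Perm (Fin n), ∏ i, v i (σ i) := by
  have : G univ n v ∅ = ∑ f ∈ univ.filter (fun f : Fin n → Fin n => Injective f), ∏ i, v i (f i) := by
    rw [G_eq, Finset.sum_filter]
    refine Finset.sum_congr rfl fun f _ => ?_
    by_cases h : Injective f
    · rw [if_pos h, if_pos ⟨h, by simp, fun l => Or.inr (Finite.injective_iff_surjective.1 h l)⟩]
    · rw [if_neg h, if_neg fun h' => h h'.1]
  rw [this]
  symm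
  refine Finset.sum_bij (fun σ _ => (σ : Fin n → Fin n)) (fun σ _ => ?_)
    (fun a _ b _ e => Equiv.ext (congrFun e)) (fun f hf => ?_) (fun _ _ => rfl)
  · simp only [mem_filter, mem_univ, true_and]
    exact σ.injective
  · have h := (mem_filter.1 hf).2
    exact ⟨Equiv.ofBijective f (Finite.injective_iff_bijective.1 h), mem_univ _, rfl⟩
end per

lemma last {ι : Type} [Fintype ι] [DecidableEq ι] (g : Finset ι → F)
    (hg : ∀ S, g S ≠ 0 → S.card = 1) (a : F) :
    |E (fun x : ι → F => ind (D x g ∅ = a)) - 1 / Fintype.card F| ≤ ind (g = 0) := by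
  have hq : (1 : ℝ) ≤ Fintype.card F := by exact_mod_cast Fintype.card_pos
  by_cases h0 : g = 0
  · rw [ind_pos h0]
    have h1 : E (fun x : ι → F => ind (D x g ∅ = a)) ≤ 1 := by
      rw [← E_const (Ω := ι → F) 1]; exact E_mono fun _ => ind_le_one _
    have h2 : 0 ≤ E (fun x : ι → F => ind (D x g ∅ = a)) := E_nonneg fun _ => ind_nonneg _
    have h3 : 1 / (Fintype.card F : ℝ) ≤ 1 := by rw [div_le_one (by linarith)]; exact hq
    have h4 : 0 ≤ 1 / (Fintype.card F : ℝ) := by positivity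
    rw [abs_le]; constructor <;> linarith
  · rw [ind_neg h0]
    obtain ⟨S, hS⟩ := Function.ne_iff.1 h0
    obtain ⟨j, rfl⟩ := Finset.card_eq_one.1 (hg S hS)
    let M : (ι → F) →+ F := (Pi.evalAddMonoidHom (fun _ : Finset ι => F) ∅).comp (L g)
    have hM : ∀ y, ∃ x, M x = y := by
      intro y
      refine ⟨Pi.single j (y / g {j}), ?_⟩
      change D _ g ∅ = y
      simp only [D]
      rw [Finset.sum_eq_single j]
      · have : g {j} ≠ 0 := hS
        simp [this]
      · intro b _ hb; simp [Pi.single_eq_of_ne hb]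
      · simp
    have h1 := fibres M univ fun y _ => hM y
    have h2 := fibres M {a} fun y _ => hM y
    simp only [mem_univ, ind_pos True.intro, E_const, card_univ] at h1
    simp only [mem_singleton, card_singleton, Nat.cast_one, one_mul] at h2
    change E (fun x : ι → F => ind (D x g ∅ = a)) = _ at h2
    have h3 : E (fun x : ι → F => ind (M x = 0)) = 1 / Fintype.card F :=
      eq_div_of_mul_eq (by linarith) (by rw [mul_comm]; exact h1.symm)
    rw [h2, h3]
    simp

lemma E_abs {Ω : Type} [Fintype Ω] [Nonempty Ω] (f g : Ω → ℝ) (c : ℝ) (h : ∀ x, |f x - c| ≤ g x) :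
    |E f - c| ≤ E g := by
  rw [abs_le]
  have h1 := E_mono (f := fun _ => c) (g := fun x => f x + g x)
    fun x => by have := (abs_le.1 (h x)).1; linarith
  have h2 := E_mono (f := f) (g := fun x => c + g x)
    fun x => by have := (abs_le.1 (h x)).2; linarith
  rw [E_add, E_const] at h1 h2
  constructor <;> linarith

theorem main (h2 : (2 : F) ≠ 0) (a : F) (ε : ℝ) (hε : 0 < ε) : ∃ n0, ∀ n ≥ n0,
    |E (fun v : Fin n → Fin n → F => ind (∑ σ : Equiv.Perm (Fin n), ∏ i, v i (σ i) = a)) -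
      1 / Fintype.card F| ≤ ε := by
  obtain ⟨m0, h⟩ := small h2 ε hε
  refine ⟨m0 + 1, fun n hn => ?_⟩
  obtain ⟨m, rfl⟩ : ∃ m, n = m + 1 := ⟨n - 1, by omega⟩
  simp only [← G_per]
  rw [E_cons]
  simp only [G_cons]
  refine le_trans (E_abs _ _ _ fun v => last _ (fun S hS => ?_) a)
    (h m (by omega) (m + 1) univ (by simp))
  have := G_card _ _ _ _ hS
  simp at this
  omega

end Pool.Agent.H89.PM
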