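import Mathlib

set_option autoImplicit false
open Complex Metric Set Filter Topology Polynomial

namespace Pool.Agent.H89.PS

theorem exists_one (H : ℂ → ℂ) (hH : Differentiable ℂ H)
    (h : ∀ u : ℂ, ‖u‖ ≤ 1 / 2 → ‖H u - cexp u‖ ≤ 1 / 10) :
    ∃ u : ℂ, ‖u‖ ≤ 1 / 2 ∧ H u = 1 := by
  by_contra hc
  push Not at hc
  have hne : ∀ u ∈ closure (ball (0 : ℂ) (1 / 2)), H u - 1 ≠ 0 := by
    intro u hu
    rw [closure_ball _ (by norm_num), mem_closedBall_zero_iff] at hu
    exact sub_ne_zero.2 (hc u hu)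
  have hd : DiffContOnCl ℂ (fun u => (H u - 1)⁻¹) (ball (0 : ℂ) (1 / 2)) :=
    DiffContOnCl.inv ((hH.sub_const 1).diffContOnCl) hne
  have hb := norm_le_of_forall_mem_frontier_norm_le (isBounded_ball) hd (C := 20 / 3) (z := 0)
    (by
      intro z hz
      rw [frontier_ball _ (by norm_num), mem_sphere_zero_iff_norm] at hz
      have h1 := h z hz.le
      have h2 := Complex.norm_exp_sub_one_sub_id_le (x := z) (by rw [hz]; norm_num)
      have h3 : ‖z‖ ≤ ‖H z - 1‖ + ‖H z - cexp z‖ + ‖cexp z - 1 - z‖ := by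
        have : z = (H z - 1) - (H z - cexp z) - (cexp z - 1 - z) := by ring
        calc ‖z‖ = ‖(H z - 1) - (H z - cexp z) - (cexp z - 1 - z)‖ := by rw [← this]
          _ ≤ _ := (norm_sub_le _ _).trans (by gcongr; exact norm_sub_le _ _)
      rw [hz] at h2 h3
      have h4 : (3 / 20 : ℝ) ≤ ‖H z - 1‖ := by nlinarith
      rw [norm_inv]
      calc ‖H z - 1‖⁻¹ ≤ (3 / 20 : ℝ)⁻¹ := inv_anti₀ (by norm_num) h4
        _ = 20 / 3 := by norm_num)
    (subset_closure (mem_ball_self (by norm_num)))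
  have h0 := h 0 (by norm_num)
  rw [Complex.exp_zero] at h0
  have hp : 0 < ‖H 0 - 1‖ := norm_pos_iff.2 (hne 0 (subset_closure (mem_ball_self (by norm_num))))
  rw [norm_inv, inv_le_comm₀ hp (by norm_num)] at hb
  norm_num at hb
  linarith

theorem ms_bound (s : Multiset ℂ) (r : ℝ) (z : ℂ) (hz : ‖z‖ ≤ 2 * r) (hs : ∀ x ∈ s, r ≤ ‖x‖) :
    ‖(s.map (z - ·)).prod‖ ≤ 3 ^ s.card * ‖(s.map ((0 : ℂ) - ·)).prod‖ := by
  induction s using Multiset.induction_on with
  | empty => simp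
  | cons x s ih =>
    simp only [Multiset.map_cons, Multiset.prod_cons, Multiset.card_cons, norm_mul]
    have h1 := ih (fun y hy => hs y (Multiset.mem_cons_of_mem hy))
    have h2 : ‖z - x‖ ≤ 3 * ‖(0 : ℂ) - x‖ := by
      have := hs x (Multiset.mem_cons_self _ _)
      rw [zero_sub, norm_neg]
      exact (norm_sub_le _ _).trans (by linarith)
    calc ‖z - x‖ * ‖(s.map (z - ·)).prod‖
        ≤ (3 * ‖(0 : ℂ) - x‖) * (3 ^ s.card * ‖(s.map ((0 : ℂ) - ·)).prod‖) := by gcongr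
      _ = _ := by ring

theorem poly_bound (P : ℂ[X]) (n : ℕ) (hn : P.natDegree ≤ n) (r : ℝ)
    (hP : ∀ x : ℂ, ‖x‖ < r → P.eval x ≠ 0) (z : ℂ) (hz : ‖z‖ ≤ 2 * r) :
    ‖P.eval z‖ ≤ 3 ^ n * ‖P.eval 0‖ := by
  have hs : P.Splits := IsAlgClosed.splits P
  rw [hs.eval_eq_prod_roots z, hs.eval_eq_prod_roots 0, norm_mul, norm_mul]
  have h1 := ms_bound P.roots r z hz (by
    intro x hx
    by_contra hc
    push Not at hc
    exact hP x hc (isRoot_of_mem_roots hx))
  have h2 : (3 : ℝ) ^ P.roots.card ≤ 3 ^ n :=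
    pow_le_pow_right₀ (by norm_num) ((card_roots' P).trans hn)
  calc _ ≤ ‖P.leadingCoeff‖ * (3 ^ n * ‖(P.roots.map ((0 : ℂ) - ·)).prod‖) := by
        gcongr
        exact h1.trans (by gcongr)
    _ = _ := by ring

theorem first_order (T : ℂ → ℂ) (hT : Differentiable ℂ T) (δ M : ℝ) (c : ℂ)
    (h : ∀ w : ℂ, ‖w‖ < δ → ‖T w - c‖ ≤ M) (w : ℂ) (hw : ‖w‖ < δ) :
    ‖T w - T 0‖ ≤ 2 * M / δ * ‖w‖ := by
  have hδ : 0 < δ := (norm_nonneg _).trans_lt hw
  have := dist_le_div_mul_dist_of_mapsTo_ball (f := T) (c := 0) (R₁ := δ) (R₂ := 2 * M)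
    hT.differentiableOn (by
      intro x hx
      rw [mem_ball_zero_iff] at hx
      rw [mem_closedBall, dist_eq_norm]
      have h1 := h x hx
      have h2 := h 0 (by simpa using hδ)
      calc ‖T x - T 0‖ = ‖(T x - c) - (T 0 - c)‖ := by ring_nf
        _ ≤ _ := (norm_sub_le _ _).trans (by linarith)) (mem_ball_zero_iff.2 hw)
  simpa [dist_eq_norm] using this

theorem second_order (G : ℂ → ℂ) (hG : Differentiable ℂ G) (δ M : ℝ) (c : ℂ)
    (h : ∀ w : ℂ, ‖w‖ < δ → ‖G w - c‖ ≤ M) (w : ℂ) (hw : ‖w‖ < δ) :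
    ‖G w - G 0 - deriv G 0 * w‖ ≤ 4 * M / δ ^ 2 * ‖w‖ ^ 2 := by
  have hδ : 0 < δ := (norm_nonneg _).trans_lt hw
  have hD : Differentiable ℂ (dslope G 0) := by
    rw [← differentiableOn_univ]
    exact (differentiableOn_dslope (by simp)).2 hG.differentiableOn
  have h1 : ∀ x : ℂ, ‖x‖ < δ → ‖dslope G 0 x - 0‖ ≤ 2 * M / δ := by
    intro x hx
    rw [sub_zero]
    refine norm_dslope_le_div_of_mapsTo_ball hG.differentiableOn ?_ (mem_ball_zero_iff.2 hx)
    intro y hy
    rw [mem_ball_zero_iff] at hy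
    rw [mem_closedBall, dist_eq_norm]
    have h1 := h y hy
    have h2 := h 0 (by simpa using hδ)
    calc ‖G y - G 0‖ = ‖(G y - c) - (G 0 - c)‖ := by ring_nf
      _ ≤ _ := (norm_sub_le _ _).trans (by linarith)
  have h2 := first_order _ hD δ _ 0 h1 w hw
  have h3 : G w - G 0 - deriv G 0 * w = w * (dslope G 0 w - dslope G 0 0) := by
    have := sub_smul_dslope G 0 w
    rw [sub_zero, smul_eq_mul] at this
    rw [dslope_same, mul_sub, this]; ring
  rw [h3, norm_mul]
  calc ‖w‖ * ‖dslope G 0 w - dslope G 0 0‖ ≤ ‖w‖ * (2 * (2 * M / δ) / δ * ‖w‖) := by gcongr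
    _ = _ := by field_simp; ring

theorem deriv_real (G : ℂ → ℂ) (hG : Differentiable ℂ G)
    (h : ∀ w : ℂ, w.re ≤ 0 → (G 0).re ≤ (G w).re) :
    (deriv G 0).im = 0 ∧ (deriv G 0).re ≤ 0 := by
  have key : ∀ v : ℂ, v.re ≤ 0 → 0 ≤ (deriv G 0 * v).re := by
    intro v hv
    have h1 : HasDerivAt (fun t : ℝ => (G ((t : ℂ) * v)).re) (deriv G 0 * v).re 0 := by
      have h2 : HasDerivAt (fun x : ℂ => G (x * v)) (deriv G 0 * v) ((0 : ℝ) : ℂ) := by
        have h3 : HasDerivAt (fun x : ℂ => x * v) v ((0 : ℝ) : ℂ) := by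
          simpa using (hasDerivAt_id ((0 : ℝ) : ℂ)).mul_const v
        have h4 : HasDerivAt G (deriv G 0) (((0 : ℝ) : ℂ) * v) := by
          simpa using (hG 0).hasDerivAt
        exact HasDerivAt.comp (h := fun x : ℂ => x * v) ((0 : ℝ) : ℂ) h4 h3
      exact h2.real_of_complex
    have h5 := h1.hasDerivWithinAt (s := Ioi 0)
    rw [hasDerivWithinAt_iff_tendsto_slope' (by simp)] at h5
    refine ge_of_tendsto h5 ?_
    filter_upwards [self_mem_nhdsWithin] with t ht
    rw [slope_def_field]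
    have ht' : (0 : ℝ) < t := ht
    refine div_nonneg ?_ (by linarith)
    have := h ((t : ℂ) * v) (by simpa using mul_nonpos_of_nonneg_of_nonpos ht'.le hv)
    simpa using this
  have h1 := key I (by simp)
  have h2 := key (-I) (by simp)
  have h3 := key (-1) (by simp)
  simp at h1 h2 h3
  exact ⟨le_antisymm h1 h2, h3⟩

theorem local_zero (G U : ℂ → ℂ) (hG : Differentiable ℂ G) (hU : Differentiable ℂ U)
    (ν s α : ℝ) (hν : ν = s ^ 6) (hs : 10 ^ 8 ≤ s) (hα : 0 < α) (c A : ℂ)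
    (hGb : ∀ w : ℂ, ‖w‖ < 1 / (4 * s) → ‖G w - c‖ ≤ 16 * s ^ 7)
    (hUb : ∀ w : ℂ, ‖w‖ < 1 / (4 * s) → ‖U w‖ ≤ 4 * s * α)
    (hU0 : α / 2 ≤ ‖U 0‖) (hA : ‖cexp (G 0)‖ = 4 * s * α * ‖A‖)
    (hmin : ∀ w : ℂ, w.re ≤ 0 → (G 0).re ≤ (G w).re) :
    ∃ w : ℂ, A * cexp (ν * w) * U w = cexp (G w) ∧ ‖cexp (G w)‖ ≤ 3 * ‖cexp (G 0)‖ := by
  have hs0 : 0 < s := lt_of_lt_of_le (by norm_num) hs
  have hs1 : 1 ≤ s := le_trans (by norm_num) hs
  obtain ⟨hb1, hb2⟩ := deriv_real G hG hmin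
  set b : ℝ := -(deriv G 0).re with hb
  have hb0 : 0 ≤ b := by linarith
  have hdG : deriv G 0 = -(b : ℂ) := by
    apply Complex.ext <;> simp [hb, hb1]
  have hν0 : 0 < ν := by rw [hν]; positivity
  set N : ℝ := ν + b with hN
  have hN0 : 0 < N := by linarith
  have hNs : s ^ 6 ≤ N := by linarith
  have hU00 : U 0 ≠ 0 := by
    rw [← norm_pos_iff]; linarith
  have he0 : 0 < ‖cexp (G 0)‖ := norm_pos_iff.2 (Complex.exp_ne_zero _)
  have hA0 : 0 < ‖A‖ := by
    rw [hA] at he0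
    by_contra hc
    have : ‖A‖ = 0 := le_antisymm (not_lt.1 hc) (norm_nonneg _)
    rw [this, mul_zero] at he0
    exact lt_irrefl _ he0
  set F0 : ℂ := A * U 0 / cexp (G 0) with hF0
  have hF0n : ‖F0‖ = ‖U 0‖ / (4 * s * α) := by
    rw [hF0, norm_div, norm_mul, hA]; field_simp
  have hF1 : ‖F0‖ ≤ 1 := by
    rw [hF0n, div_le_one (by positivity)]
    exact hUb 0 (by simp; positivity)
  have hF2 : 1 / (8 * s) ≤ ‖F0‖ := by
    rw [hF0n, div_le_div_iff₀ (by positivity) (by positivity)]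
    nlinarith
  have hF3 : F0 ≠ 0 := by
    rw [← norm_pos_iff]; exact lt_of_lt_of_le (by positivity) hF2
  have hlogre : (log F0).re ≤ 0 := by
    rw [Complex.log_re]; exact Real.log_nonpos (norm_nonneg _) hF1
  have hlog : ‖log F0‖ ≤ 8 * s + 3 := by
    have h1 : -(8 * s - 1) ≤ (log F0).re := by
      rw [Complex.log_re]
      have h2 : Real.log (1 / (8 * s)) ≤ Real.log ‖F0‖ := Real.log_le_log (by positivity) hF2
      rw [one_div, Real.log_inv] at h2
      have h3 := Real.log_le_sub_one_of_pos (x := 8 * s) (by positivity)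
      linarith
    have h2 : |(log F0).im| ≤ 4 := by
      rw [Complex.log_im]
      exact (Complex.abs_arg_le_pi _).trans Real.pi_le_four
    have h3 : |(log F0).re| ≤ 8 * s - 1 := abs_le.2 ⟨h1, by linarith⟩
    have := Complex.norm_le_abs_re_add_abs_im (log F0)
    linarith
  set W : ℂ → ℂ := fun u => (u - log F0) / (N : ℂ) with hW
  have hNc : (N : ℂ) ≠ 0 := by exact_mod_cast hN0.ne'
  have hWd : Differentiable ℂ W := by
    rw [hW]; fun_prop
  have hWn : ∀ u : ℂ, ‖u‖ ≤ 1 / 2 → ‖W u‖ ≤ 12 / s ^ 5 := by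
    intro u hu
    simp only [hW]
    rw [norm_div, Complex.norm_real, Real.norm_eq_abs, abs_of_pos hN0,
      div_le_div_iff₀ hN0 (by positivity)]
    have h1 : ‖u - log F0‖ ≤ 12 * s := (norm_sub_le _ _).trans (by linarith)
    calc ‖u - log F0‖ * s ^ 5 ≤ 12 * s * s ^ 5 := by gcongr
      _ = 12 * s ^ 6 := by ring
      _ ≤ 12 * N := by gcongr
  have hs4 : 10 ^ 8 ≤ s ^ 4 := hs.trans (le_self_pow₀ hs1 (by norm_num))
  have hs3 : 10 ^ 8 ≤ s ^ 3 := hs.trans (le_self_pow₀ hs1 (by norm_num))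
  have hWl : ∀ u : ℂ, ‖u‖ ≤ 1 / 2 → ‖W u‖ < 1 / (4 * s) := by
    intro u hu
    refine (hWn u hu).trans_lt ?_
    rw [div_lt_div_iff₀ (by positivity) (by positivity)]
    have : s ^ 5 = s * s ^ 4 := by ring
    nlinarith
  have hE : ∀ u : ℂ, ‖u‖ ≤ 1 / 2 → ‖G (W u) - G 0 + b * W u‖ ≤ 1 / 100 := by
    intro u hu
    have h1 := second_order G hG _ _ c hGb (W u) (hWl u hu)
    rw [hdG] at h1
    have h2 : G (W u) - G 0 + b * W u = G (W u) - G 0 - -(b : ℂ) * W u := by ring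
    rw [h2]
    refine h1.trans ?_
    calc 4 * (16 * s ^ 7) / (1 / (4 * s)) ^ 2 * ‖W u‖ ^ 2
        ≤ 4 * (16 * s ^ 7) / (1 / (4 * s)) ^ 2 * (12 / s ^ 5) ^ 2 := by
          gcongr; exact hWn u hu
      _ = 147456 / s := by field_simp; ring
      _ ≤ 1 / 100 := by
          rw [div_le_div_iff₀ hs0 (by norm_num)]; linarith
  have hd : ∀ u : ℂ, ‖u‖ ≤ 1 / 2 → ‖U (W u) / U 0 - 1‖ ≤ 1 / 100 := by
    intro u hu
    have h1 := first_order U hU _ _ 0 (by simpa using hUb) (W u) (hWl u hu)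
    have h2 : U (W u) / U 0 - 1 = (U (W u) - U 0) / U 0 := by field_simp
    rw [h2, norm_div, div_le_iff₀ (by linarith)]
    refine h1.trans ?_
    calc 2 * (4 * s * α) / (1 / (4 * s)) * ‖W u‖
        ≤ 2 * (4 * s * α) / (1 / (4 * s)) * (12 / s ^ 5) := by
          gcongr; exact hWn u hu
      _ = 768 / s ^ 3 * (α / 2) := by field_simp; ring
      _ ≤ 1 / 100 * ‖U 0‖ := by
          refine mul_le_mul ?_ hU0 (by positivity) (by norm_num)
          rw [div_le_div_iff₀ (by positivity) (by norm_num)]; linarith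
  obtain ⟨u, hu, hu1⟩ := exists_one
    (fun u => A * cexp (ν * W u) * U (W u) / cexp (G (W u)))
    (by
      refine Differentiable.div ?_ (by fun_prop) (fun u => Complex.exp_ne_zero _)
      fun_prop) (by
      intro u hu
      have h1 := hE u hu
      have h2 := hd u hu
      set E := G (W u) - G 0 + b * W u with hEdef
      set d := U (W u) / U 0 - 1 with hddef
      have h3 : A * cexp (ν * W u) * U (W u) / cexp (G (W u)) = cexp u * ((1 + d) * cexp (-E)) := by
        have h4 : cexp u = F0 * cexp (N * W u) := by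
          simp only [hW]
          rw [mul_div_cancel₀ _ hNc, Complex.exp_sub, Complex.exp_log hF3]; field_simp
        have h5 : G (W u) = G 0 + E - b * W u := by rw [hEdef]; ring
        have h6 : (N : ℂ) * W u = ν * W u + b * W u := by rw [hN]; push_cast; ring
        have h7 : 1 + d = U (W u) / U 0 := by rw [hddef]; ring
        clear_value E d
        rw [h4, h5, h6, hF0, h7, Complex.exp_sub, Complex.exp_add, Complex.exp_add,
          Complex.exp_neg]
        field_simp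
      rw [h3]
      have h7 : ‖cexp u‖ ≤ 2 := by
        have := Complex.norm_exp_sub_one_le (x := u) (by linarith)
        calc ‖cexp u‖ = ‖(cexp u - 1) + 1‖ := by ring_nf
          _ ≤ ‖cexp u - 1‖ + ‖(1 : ℂ)‖ := norm_add_le _ _
          _ ≤ 2 := by rw [norm_one]; linarith
      have h8 : ‖cexp (-E) - 1‖ ≤ 2 / 100 := by
        have := Complex.norm_exp_sub_one_le (x := -E) (by rw [norm_neg]; linarith)
        rw [norm_neg] at this; linarith
      have h9 : cexp u * ((1 + d) * cexp (-E)) - cexp u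
          = cexp u * ((cexp (-E) - 1) + d + d * (cexp (-E) - 1)) := by ring
      rw [h9, norm_mul]
      have h10 : ‖(cexp (-E) - 1) + d + d * (cexp (-E) - 1)‖ ≤ 2 / 100 + 1 / 100 + 1 / 100 * (2 / 100) := by
        refine (norm_add_le _ _).trans (add_le_add ((norm_add_le _ _).trans (add_le_add h8 h2)) ?_)
        rw [norm_mul]; gcongr
      exact (mul_le_mul h7 h10 (norm_nonneg _) (by norm_num)).trans (by norm_num))
  refine ⟨W u, ?_, ?_⟩
  · rwa [div_eq_one_iff_eq (Complex.exp_ne_zero _)] at hu1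
  · have h1 := hE u hu
    have h2 : (G (W u)).re ≤ (G 0).re + 1 := by
      have h3 := (Complex.re_le_norm _).trans h1
      have h4 : -(1 / 2) / N ≤ (W u).re := by
        simp only [hW]
        rw [Complex.div_ofReal_re]
        gcongr
        have := (Complex.abs_re_le_norm u).trans hu
        rw [Complex.sub_re]
        linarith [(abs_le.1 this).1]
      have h5 : -(1 / 2) ≤ b * (W u).re := by
        have h6 : b * (-(1 / 2) / N) ≤ b * (W u).re := by gcongr
        have h7 : -(1 / 2) ≤ b * (-(1 / 2) / N) := by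
          rw [mul_div_assoc', le_div_iff₀ hN0]; nlinarith
        linarith
      simp only [Complex.add_re, Complex.sub_re, Complex.re_ofReal_mul] at h3
      linarith
    rw [Complex.norm_exp, Complex.norm_exp]
    calc Real.exp (G (W u)).re ≤ Real.exp ((G 0).re + 1) := Real.exp_le_exp.2 h2
      _ = Real.exp 1 * Real.exp (G 0).re := by rw [Real.exp_add]; ring
      _ ≤ _ := by
        gcongr
        exact Real.exp_one_lt_d9.le.trans (by norm_num)

end Pool.Agent.H89.PS
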