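import Pool.Agent.H89.PS1

set_option autoImplicit false
open Complex Metric Set Filter Topology Polynomial

namespace Pool.Agent.H89.PS

theorem central (a : ℕ → ℂ) (hsum : ∀ R : ℝ, 0 ≤ R → Summable (fun k => ‖a k‖ * R ^ k))
    (hinf : ∀ N : ℕ, ∃ m, N ≤ m ∧ a m ≠ 0) (N : ℕ) :
    ∃ (ν : ℕ) (ρ s : ℝ), N ≤ ν ∧ 1 ≤ ν ∧ 0 < ρ ∧ 0 < s ∧ (ν : ℝ) = s ^ 6 ∧ a ν ≠ 0 ∧
      (∀ k, ‖a k‖ * ρ ^ k ≤ ‖a ν‖ * ρ ^ ν) ∧ ‖a 0‖ ≤ ‖a ν‖ * (ρ * Real.exp (-1 / s)) ^ ν := by
  obtain ⟨m, hm, ham⟩ := hinf (N + 1)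
  set σ : ℕ → ℝ := fun k => (k : ℝ) ^ ((6 : ℕ)⁻¹ : ℝ) with hσ
  have hσ0 : ∀ k, 0 ≤ σ k := fun k => Real.rpow_nonneg (Nat.cast_nonneg _) _
  have hσ6 : ∀ k, σ k ^ 6 = k := fun k =>
    Real.rpow_inv_natCast_pow (Nat.cast_nonneg _) (by norm_num)
  set c : ℕ → ℝ := fun k => ‖a k‖ * Real.exp (-6 * σ k ^ 5) with hc
  have hc0 : ∀ k, 0 ≤ c k := fun k => by positivity
  have hcm : 0 < c m := mul_pos (norm_pos_iff.2 ham) (Real.exp_pos _)
  set R : ℝ := (∑ k ∈ Finset.range m, c k) / c m + 1 with hR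
  have hS0 : 0 ≤ ∑ k ∈ Finset.range m, c k := Finset.sum_nonneg (fun k _ => hc0 k)
  have hR1 : 1 ≤ R := by
    have : 0 ≤ (∑ k ∈ Finset.range m, c k) / c m := by positivity
    linarith
  have hR0 : 0 < R := by linarith
  have hlt : ∀ k < m, c k * R ^ k < c m * R ^ m := by
    intro k hk
    have h1 : c k ≤ ∑ k ∈ Finset.range m, c k :=
      Finset.single_le_sum (fun k _ => hc0 k) (Finset.mem_range.2 hk)
    have h2 : c k < c m * R := by
      rw [hR, mul_add, mul_div_cancel₀ _ hcm.ne']; linarith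
    calc c k * R ^ k < c m * R * R ^ k := by gcongr
      _ = c m * R ^ (k + 1) := by ring
      _ ≤ c m * R ^ m := by gcongr; omega
  have htend : Tendsto (fun k => c k * R ^ k) atTop (𝓝 0) := by
    refine squeeze_zero (fun k => by have := hc0 k; positivity) (fun k => ?_)
      (hsum R hR0.le).tendsto_atTop_zero
    simp only [hc]
    have h1 : Real.exp (-6 * σ k ^ 5) ≤ 1 := by
      rw [Real.exp_le_one_iff]; have := hσ0 k
      have : 0 ≤ σ k ^ 5 := by positivity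
      linarith
    calc ‖a k‖ * Real.exp (-6 * σ k ^ 5) * R ^ k ≤ ‖a k‖ * 1 * R ^ k := by gcongr
      _ = _ := by ring
  obtain ⟨K, hK⟩ := eventually_atTop.1 (htend.eventually (gt_mem_nhds (show 0 < c m * R ^ m by positivity)))
  obtain ⟨ν, -, hν⟩ := Finset.exists_max_image (Finset.range (K + m + 1)) (fun k => c k * R ^ k)
    ⟨0, by simp⟩
  have hmν : c m * R ^ m ≤ c ν * R ^ ν := hν m (Finset.mem_range.2 (by omega))
  have hmax : ∀ k, c k * R ^ k ≤ c ν * R ^ ν := by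
    intro k
    by_cases hk : k < K + m + 1
    · exact hν k (Finset.mem_range.2 hk)
    · exact (hK k (by omega)).le.trans hmν
  have hνm : m ≤ ν := by
    by_contra h
    exact absurd (hlt ν (by omega)) (not_lt.2 hmν)
  have hν1 : 1 ≤ ν := by omega
  have hs : 0 < σ ν := Real.rpow_pos_of_pos (by exact_mod_cast hν1) _
  have haν : a ν ≠ 0 := by
    intro h
    have : c ν = 0 := by simp [hc, h]
    rw [this, zero_mul] at hmν
    exact absurd hmν (not_le.2 (by positivity))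
  refine ⟨ν, R * Real.exp (-5 / σ ν), σ ν, by omega, hν1, by positivity, hs, (hσ6 ν).symm, haν,
    fun k => ?_, ?_⟩
  · have h1 := hmax k
    simp only [hc] at h1
    rw [mul_pow, mul_pow, ← Real.exp_nat_mul, ← Real.exp_nat_mul]
    have h2 : (k : ℝ) * (-5 / σ ν) + 6 * σ k ^ 5 ≤ ν * (-5 / σ ν) + 6 * σ ν ^ 5 := by
      rw [← hσ6 k, ← hσ6 ν]
      have hy := hσ0 k
      set x := σ ν
      set y := σ k
      have h3 : 0 ≤ (y - x) ^ 2 * (5 * y ^ 4 + 4 * x * y ^ 3 + 3 * x ^ 2 * y ^ 2 + 2 * x ^ 3 * y + x ^ 4) / x := by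
        positivity
      have h4 : (y - x) ^ 2 * (5 * y ^ 4 + 4 * x * y ^ 3 + 3 * x ^ 2 * y ^ 2 + 2 * x ^ 3 * y + x ^ 4) / x
          = x ^ 6 * (-5 / x) + 6 * x ^ 5 - (y ^ 6 * (-5 / x) + 6 * y ^ 5) := by
        field_simp; ring
      linarith
    calc ‖a k‖ * (R ^ k * Real.exp (k * (-5 / σ ν)))
        = ‖a k‖ * Real.exp (-6 * σ k ^ 5) * R ^ k * Real.exp (k * (-5 / σ ν) + 6 * σ k ^ 5) := by
          have : Real.exp (k * (-5 / σ ν))
              = Real.exp (-6 * σ k ^ 5) * Real.exp (k * (-5 / σ ν) + 6 * σ k ^ 5) := by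
            rw [← Real.exp_add]; ring_nf
          rw [this]; ring
      _ ≤ ‖a ν‖ * Real.exp (-6 * σ ν ^ 5) * R ^ ν * Real.exp (ν * (-5 / σ ν) + 6 * σ ν ^ 5) := by
          gcongr
      _ = ‖a ν‖ * (R ^ ν * Real.exp (ν * (-5 / σ ν))) := by
          have : Real.exp (ν * (-5 / σ ν))
              = Real.exp (-6 * σ ν ^ 5) * Real.exp (ν * (-5 / σ ν) + 6 * σ ν ^ 5) := by
            rw [← Real.exp_add]; ring_nf
          rw [this]; ring
  · have h1 := hmax 0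
    have h0 : σ 0 = 0 := by simp [hσ]
    simp only [hc, h0] at h1
    rw [mul_assoc R, ← Real.exp_add, mul_pow, ← Real.exp_nat_mul]
    have h2 : (ν : ℝ) * (-5 / σ ν + -1 / σ ν) = -6 * σ ν ^ 5 := by
      rw [← hσ6 ν]; field_simp; ring
    rw [h2]
    simpa [mul_assoc, mul_comm, mul_left_comm] using h1

theorem entire_of_summable (c : ℕ → ℂ) (h : ∀ R : ℝ, 0 < R → Summable (fun k => ‖c k‖ * R ^ k)) :
    Differentiable ℂ (fun z : ℂ => ∑' k, c k * z ^ k) := by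
  intro z
  have hR : 0 < ‖z‖ + 1 := by positivity
  have := differentiableOn_tsum_of_summable_norm (F := fun k (w : ℂ) => c k * w ^ k)
    (U := ball 0 (‖z‖ + 1)) (h _ hR) (fun k => by fun_prop) isOpen_ball (by
      intro k w hw
      rw [mem_ball_zero_iff] at hw
      rw [norm_mul, norm_pow]
      gcongr)
  exact this.differentiableAt (isOpen_ball.mem_nhds (by simp))

theorem min_principle (f : ℂ → ℂ) (hf : Differentiable ℂ f) (hne : ∀ z, f z ≠ 0) (R m : ℝ)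
    (hR : 0 < R) (hm : 0 < m) (h : ∀ z : ℂ, ‖z‖ = R → m ≤ ‖f z‖) (z : ℂ) (hz : ‖z‖ ≤ R) :
    m ≤ ‖f z‖ := by
  have hd : DiffContOnCl ℂ (fun u => (f u)⁻¹) (ball (0 : ℂ) R) :=
    (hf.inv hne).diffContOnCl
  have hb := norm_le_of_forall_mem_frontier_norm_le (isBounded_ball) hd (C := m⁻¹) (z := z)
    (by
      intro z hz
      rw [frontier_ball _ hR.ne', mem_sphere_zero_iff_norm] at hz
      rw [norm_inv]
      exact inv_anti₀ hm (h z hz))
    (by rw [closure_ball _ hR.ne', mem_closedBall_zero_iff]; exact hz)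
  rw [norm_inv] at hb
  exact (inv_le_inv₀ (norm_pos_iff.2 (hne z)) hm).1 hb

theorem exists_log (f : ℂ → ℂ) (hf : Differentiable ℂ f) (hne : ∀ z, f z ≠ 0) :
    ∃ g : ℂ → ℂ, Differentiable ℂ g ∧ ∀ z, cexp (g z) = f z := by
  have h1 : Differentiable ℂ (fun z => deriv f z / f z) := hf.deriv.div hf hne
  obtain ⟨g, hg⟩ := h1.isExactOn_univ
  have hg' : ∀ z, HasDerivAt g (deriv f z / f z) z := fun z => hg z (mem_univ _)
  have hgd : Differentiable ℂ g := fun z => (hg' z).differentiableAt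
  have h2 : ∀ z, HasDerivAt (fun z => f z * cexp (-g z)) 0 z := by
    intro z
    have h5 := (hf z).hasDerivAt.mul (hg' z).neg.cexp
    have h6 : deriv f z * cexp (-g z) + f z * (cexp (-g z) * -(deriv f z / f z)) = 0 := by
      have := hne z
      field_simp
      ring
    exact h6 ▸ h5
  have h3 : ∀ z, f z * cexp (-g z) = f 0 * cexp (-g 0) := fun z =>
    is_const_of_deriv_eq_zero (fun z => (h2 z).differentiableAt) (fun z => (h2 z).deriv) z 0
  have h4 : f 0 * cexp (-g 0) ≠ 0 := mul_ne_zero (hne 0) (Complex.exp_ne_zero _)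
  refine ⟨fun z => g z + log (f 0 * cexp (-g 0)), hgd.add_const _, fun z => ?_⟩
  rw [Complex.exp_add, Complex.exp_log h4, ← h3 z, Complex.exp_neg]
  field_simp

end Pool.Agent.H89.PS
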