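import Pool.Agent.H89.PS2

set_option autoImplicit false
open Complex Metric Set Filter Topology Polynomial

namespace Pool.Agent.H89.PS

theorem core (a : ℕ → ℂ) (f g T : ℂ → ℂ) (hf : Differentiable ℂ f) (hg : Differentiable ℂ g)
    (hT : Differentiable ℂ T) (hgf : ∀ z, cexp (g z) = f z) (ν : ℕ) (hν1 : 1 ≤ ν)
    (hfT : ∀ z, f z = ∑ k ∈ Finset.range ν, a k * z ^ k + z ^ ν * T z) (ρ s : ℝ) (hρ : 0 < ρ)
    (hs : 10 ^ 8 ≤ s) (hνs : (ν : ℝ) = s ^ 6) (haν : a ν ≠ 0)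
    (hTb : ∀ z : ℂ, ‖z‖ ≤ ρ * Real.exp (-1 / (2 * s)) → ‖T z‖ ≤ (1 + 2 * s) * ‖a ν‖)
    (ha0 : ‖a 0‖ ≤ ‖a ν‖ * (ρ * Real.exp (-1 / s)) ^ ν) (p : ℂ)
    (hp : ∀ z : ℂ, ‖z‖ ≤ ‖p‖ → 4 * s * ‖a ν‖ * ‖z‖ ^ ν < ‖f z‖) :
    ∃ z₀ : ℂ, ∃ n : ℕ, (∑ k ∈ Finset.range (n + 1), a k * z₀ ^ k) = 0 ∧ ‖f z₀‖ ≤ 3 * ‖f p‖ := by
  have hs0 : 0 < s := lt_of_lt_of_le (by norm_num) hs
  have hs1 : 1 ≤ s := le_trans (by norm_num) hs
  have hne : ∀ z, f z ≠ 0 := fun z => hgf z ▸ Complex.exp_ne_zero _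
  set α := ‖a ν‖ with hα
  have hα0 : 0 < α := norm_pos_iff.2 haν
  set r1 := ρ * Real.exp (-1 / s) with hr1
  have hr10 : 0 < r1 := by positivity
  have hf0 : f 0 = a 0 := by
    rw [hfT 0, zero_pow (by omega), zero_mul, add_zero, Finset.sum_eq_single 0]
    · simp
    · intro k _ hk; simp [hk]
    · intro h; exact absurd (Finset.mem_range.2 (by omega)) h
  set K : Set ℂ := closedBall 0 r1 ∩ {z | ‖f z‖ ≤ 4 * s * α * ‖z‖ ^ ν} with hK
  have hfc : Continuous f := hf.continuous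
  have hKc : IsCompact K :=
    (isCompact_closedBall 0 r1).inter_right (isClosed_le (by fun_prop) (by fun_prop))
  have hKn : K.Nonempty := by
    by_contra hc
    have h1 := min_principle f hf hne r1 (4 * s * α * r1 ^ ν) hr10 (by positivity) (by
      intro z hz
      by_contra h
      exact hc ⟨z, mem_closedBall_zero_iff.2 hz.le, by
        simp only [mem_ofPred_eq]; rw [hz]; exact (not_le.1 h).le⟩) 0 (by simpa using hr10.le)
    rw [hf0] at h1
    have : 0 < α * r1 ^ ν := by positivity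
    nlinarith
  obtain ⟨x, hxK, hxmin⟩ := hKc.exists_isMinOn hKn (continuous_norm.continuousOn)
  set r := ‖x‖ with hr
  have hrr1 : r ≤ r1 := mem_closedBall_zero_iff.1 hxK.1
  have hx1 : ‖f x‖ ≤ 4 * s * α * r ^ ν := hxK.2
  have hpr : ‖p‖ < r := by
    by_contra h
    exact absurd (hp x (not_lt.1 h)) (not_lt.2 hx1)
  have hr0 : 0 < r := (norm_nonneg _).trans_lt hpr
  have hin : ∀ z : ℂ, ‖z‖ < r → 4 * s * α * ‖z‖ ^ ν < ‖f z‖ := by
    intro z hz
    by_contra h
    have : z ∈ K := ⟨mem_closedBall_zero_iff.2 (hz.le.trans hrr1), not_lt.1 h⟩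
    exact absurd (hxmin this) (not_le.2 hz)
  have hcl : ∀ z : ℂ, ‖z‖ ≤ r → 4 * s * α * ‖z‖ ^ ν ≤ ‖f z‖ := by
    intro z hz
    have h1 : closure (ball (0 : ℂ) r) ⊆ {z | 4 * s * α * ‖z‖ ^ ν ≤ ‖f z‖} :=
      closure_minimal (fun z hz => (hin z (mem_ball_zero_iff.1 hz)).le)
        (isClosed_le (by fun_prop) (by fun_prop))
    rw [closure_ball _ hr0.ne'] at h1
    exact h1 (mem_closedBall_zero_iff.2 hz)
  have hx2 : ‖f x‖ = 4 * s * α * r ^ ν := le_antisymm hx1 (hcl x le_rfl)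
  have hmin : ∀ z : ℂ, ‖z‖ ≤ r → ‖f x‖ ≤ ‖f z‖ :=
    min_principle f hf hne r _ hr0 (norm_pos_iff.2 (hne x)) (by
      intro z hz
      rw [hx2, ← hz]; exact hcl z hz.le)
  set R := r * Real.exp (1 / (2 * s)) with hR
  have hrR : r ≤ R := le_mul_of_one_le_right hr0.le (Real.one_le_exp (by positivity))
  have hTb' : ∀ z : ℂ, ‖z‖ ≤ R → ‖T z‖ ≤ (1 + 2 * s) * α := by
    intro z hz
    refine hTb z (hz.trans ?_)
    calc R ≤ r1 * Real.exp (1 / (2 * s)) := by rw [hR]; gcongr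
      _ = _ := by
        rw [hr1, mul_assoc, ← Real.exp_add]; congr 2; field_simp; ring
  have hR2 : R ≤ 2 * r := by
    rw [hR, mul_comm]
    gcongr
    calc Real.exp (1 / (2 * s)) ≤ Real.exp (Real.log 2) := by
          rw [Real.exp_le_exp]
          have h1 : 1 / (2 * s) ≤ 1 / 2 := by gcongr; linarith
          linarith [Real.log_two_gt_d9]
      _ = 2 := Real.exp_log (by norm_num)
  set P : ℂ[X] := ∑ k ∈ Finset.range ν, C (a k) * X ^ k with hP
  have hPe : ∀ z, P.eval z = ∑ k ∈ Finset.range ν, a k * z ^ k := by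
    intro z; simp [hP, eval_finsetSum]
  have hPd : P.natDegree ≤ ν := by
    refine natDegree_sum_le_of_forall_le _ _ (fun k hk => ?_)
    exact (natDegree_C_mul_X_pow_le _ _).trans (Finset.mem_range.1 hk).le
  have hPz : ∀ z : ℂ, ‖z‖ < r → P.eval z ≠ 0 := by
    intro z hz h
    have h1 := hfT z
    rw [← hPe, h, zero_add] at h1
    have h2 := hin z hz
    rw [h1, norm_mul, norm_pow] at h2
    have h3 := hTb' z (hz.le.trans hrR)
    have h4 : ‖z‖ ^ ν * ‖T z‖ ≤ ‖z‖ ^ ν * (4 * s * α) := by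
      gcongr; nlinarith
    linarith
  have hP0 : P.eval 0 = f 0 := by
    rw [hfT 0, hPe, zero_pow (by omega), zero_mul, add_zero]
  have hup : ∀ z : ℂ, ‖z‖ ≤ R → ‖f z‖ ≤ Real.exp (2 * ν) * ‖f 0‖ := by
    intro z hz
    have h1 := poly_bound P ν hPd r hPz z (hz.trans hR2)
    rw [hP0] at h1
    have h2 : ‖z ^ ν * T z‖ ≤ 2 ^ ν * ‖f 0‖ := by
      rw [norm_mul, norm_pow]
      calc ‖z‖ ^ ν * ‖T z‖ ≤ (2 * r) ^ ν * (4 * s * α) := by
            gcongr
            · exact hz.trans hR2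
            · exact (hTb' z hz).trans (by nlinarith)
        _ = 2 ^ ν * ‖f x‖ := by rw [hx2, mul_pow]; ring
        _ ≤ _ := by gcongr; exact hmin 0 (by simpa using hr0.le)
    have h3 : (3 : ℝ) ^ ν + 2 ^ ν ≤ Real.exp (2 * ν) := by
      calc (3 : ℝ) ^ ν + 2 ^ ν ≤ (3 + 2) ^ ν := pow_add_pow_le (by norm_num) (by norm_num) (by omega)
        _ ≤ (Real.exp 2) ^ ν := by
          gcongr
          have := Real.quadratic_le_exp_of_nonneg (x := 2) (by norm_num)
          linarith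
        _ = _ := by rw [← Real.exp_nat_mul, mul_comm]
    calc ‖f z‖ ≤ ‖P.eval z‖ + ‖z ^ ν * T z‖ := by rw [hfT z, ← hPe]; exact norm_add_le _ _
      _ ≤ (3 ^ ν + 2 ^ ν) * ‖f 0‖ := by linarith
      _ ≤ _ := by gcongr
  have hν0 : (0 : ℝ) < ν := by exact_mod_cast hν1
  have hxw : ∀ w : ℂ, ‖w‖ < 1 / (4 * s) → ‖x * cexp w‖ ≤ r * Real.exp (1 / (4 * s)) := by
    intro w hw
    rw [norm_mul, Complex.norm_exp]
    gcongr
    exact (Complex.re_le_norm w).trans hw.le
  have hRe : R = r * Real.exp (1 / (4 * s)) * Real.exp (1 / (4 * s)) := by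
    rw [hR, mul_assoc, ← Real.exp_add]; congr 2; field_simp; ring
  have hRe2 : r * Real.exp (1 / (4 * s)) * (1 / (4 * s) + 1) ≤ R := by
    rw [hRe]; gcongr; exact Real.add_one_le_exp _
  have hxwR : ∀ w : ℂ, ‖w‖ < 1 / (4 * s) → ‖x * cexp w‖ * (1 / (4 * s) + 1) ≤ R := by
    intro w hw
    refine le_trans ?_ hRe2
    gcongr; exact hxw w hw
  have hxwR' : ∀ w : ℂ, ‖w‖ < 1 / (4 * s) → ‖x * cexp w‖ < R := by
    intro w hw
    refine lt_of_lt_of_le ?_ (hxwR w hw)
    have : 0 < ‖x * cexp w‖ := by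
      rw [norm_mul]; exact mul_pos hr0 (norm_pos_iff.2 (Complex.exp_ne_zero _))
    have h2 : 0 < 1 / (4 * s) := by positivity
    nlinarith
  have hGb : ∀ w : ℂ, ‖w‖ < 1 / (4 * s) → ‖g (x * cexp w) - g 0‖ ≤ 16 * s ^ 7 := by
    intro w hw
    have h1 := borelCaratheodory_zero (f := fun z => g z - g 0) (M := 2 * ν) (R := R)
      (z := x * cexp w) (by positivity) (by fun_prop) (by
        intro z hz
        have h2 := hup z (mem_ball_zero_iff.1 hz).le
        rw [← hgf, ← hgf, Complex.norm_exp, Complex.norm_exp, ← Real.exp_add, Real.exp_le_exp] at h2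
        simp only [mem_ofPred_eq, Complex.sub_re]
        linarith) (hr0.trans_le hrR) (mem_ball_zero_iff.2 (hxwR' w hw)) (by simp)
    refine h1.trans ?_
    have h2 := hxwR w hw
    have h3 := hxwR' w hw
    rw [div_le_iff₀ (by linarith), hνs]
    set t := ‖x * cexp w‖
    have h4 : t ≤ 4 * s * (R - t) := by
      have : 4 * s * (t * (1 / (4 * s) + 1)) = t + 4 * s * t := by field_simp
      nlinarith
    calc 2 * (2 * s ^ 6) * t ≤ 2 * (2 * s ^ 6) * (4 * s * (R - t)) := by gcongr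
      _ = _ := by ring
  have hGmin : ∀ w : ℂ, w.re ≤ 0 → (g (x * cexp 0)).re ≤ (g (x * cexp w)).re := by
    intro w hw
    have h1 := hmin (x * cexp w) (by
      rw [norm_mul, Complex.norm_exp]
      exact mul_le_of_le_one_right hr0.le (Real.exp_le_one_iff.2 hw))
    rw [← hgf, ← hgf, Complex.norm_exp, Complex.norm_exp, Real.exp_le_exp] at h1
    simpa using h1
  have key : ∀ θ : ℂ, ‖θ‖ ≤ α → α / 2 ≤ ‖T x - θ‖ →
      ∃ z₀ : ℂ, ∑ k ∈ Finset.range ν, a k * z₀ ^ k + θ * z₀ ^ ν = 0 ∧ ‖f z₀‖ ≤ 3 * ‖f p‖ := by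
    intro θ hθ hθ2
    obtain ⟨w, hw1, hw2⟩ := local_zero (fun w => g (x * cexp w)) (fun w => T (x * cexp w) - θ)
      (by fun_prop) (by fun_prop) ν s α hνs hs hα0 (g 0) (x ^ ν) hGb (by
        intro w hw
        refine (norm_sub_le _ _).trans ?_
        have := hTb' _ (hxwR' w hw).le
        nlinarith) (by simpa using hθ2) (by simpa [hgf, hr] using hx2) hGmin
    refine ⟨x * cexp w, ?_, ?_⟩
    · simp only [hgf] at hw1
      rw [hfT] at hw1
      have h1 : (x * cexp w) ^ ν = x ^ ν * cexp (((ν : ℝ) : ℂ) * w) := by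
        rw [mul_pow, ← Complex.exp_nat_mul]; simp
      rw [← h1] at hw1
      linear_combination -hw1
    · simp only [hgf, Complex.exp_zero, mul_one] at hw2
      have := hmin p hpr.le
      linarith
  by_cases h : α / 2 ≤ ‖T x‖
  · obtain ⟨z₀, h1, h2⟩ := key 0 (by simpa using hα0.le) (by simpa using h)
    refine ⟨z₀, ν - 1, ?_, h2⟩
    rw [Nat.sub_add_cancel hν1]; simpa using h1
  · obtain ⟨z₀, h1, h2⟩ := key (a ν) le_rfl (by
      have := norm_sub_norm_le (a ν) (T x)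
      rw [norm_sub_rev] at this
      linarith)
    exact ⟨z₀, ν, by rw [Finset.sum_range_succ]; exact h1, h2⟩

theorem main (a : ℕ → ℂ) (f : ℂ → ℂ) (hsum : ∀ z : ℂ, HasSum (fun k : ℕ => a k * z ^ k) (f z))
    (hne : ∀ z : ℂ, f z ≠ 0) (hnc : ∃ z w : ℂ, f z ≠ f w) (ε : ℝ) (hε : 0 < ε) :
    ∃ z₀ : ℂ, ∃ n : ℕ, (∑ k ∈ Finset.range (n + 1), a k * z₀ ^ k) = 0 ∧ ‖f z₀‖ < ε := by
  have hS : ∀ R : ℝ, 0 ≤ R → Summable (fun k => ‖a k‖ * R ^ k) := by
    intro R hR
    have := (summable_norm_iff.2 (hsum R).summable)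
    simpa [abs_of_nonneg hR] using this
  have hf : Differentiable ℂ f := by
    have h1 := entire_of_summable a (fun R hR => hS R hR.le)
    have h2 : f = fun z => ∑' k, a k * z ^ k := funext fun z => (hsum z).tsum_eq.symm
    rwa [h2]
  obtain ⟨g, hg, hgf⟩ := exists_log f hf hne
  obtain ⟨z1, z2, h12⟩ := hnc
  have hinf : ∀ N : ℕ, ∃ m, N ≤ m ∧ a m ≠ 0 := by
    intro N
    by_contra hc
    push Not at hc
    set P : ℂ[X] := ∑ k ∈ Finset.range N, C (a k) * X ^ k with hP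
    have hPe : ∀ z, P.eval z = f z := by
      intro z
      have h1 : HasSum (fun k : ℕ => a k * z ^ k) (∑ k ∈ Finset.range N, a k * z ^ k) :=
        hasSum_sum_of_ne_finset_zero (fun k hk => by
          rw [hc k (by simpa using hk), zero_mul])
      rw [(hsum z).unique h1]; simp [hP, eval_finsetSum]
    by_cases hd : 0 < P.degree
    · obtain ⟨z, hz⟩ := Complex.exists_root hd
      exact hne z (by rw [← hPe]; exact hz)
    · apply h12
      rw [← hPe, ← hPe, eq_C_of_degree_le_zero (not_lt.1 hd)]; simp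
  obtain ⟨p, hp⟩ : ∃ p, ‖f p‖ < ε / 3 := by
    by_contra hc
    push Not at hc
    apply h12
    have h1 := (hf.inv hne).apply_eq_apply_of_bounded (by
      refine (isBounded_closedBall (x := (0 : ℂ)) (r := (ε / 3)⁻¹)).subset ?_
      rintro _ ⟨z, rfl⟩
      rw [mem_closedBall_zero_iff, Pi.inv_apply, norm_inv]
      exact inv_anti₀ (by positivity) (hc z)) z1 z2
    simpa using h1
  obtain ⟨y, -, hy⟩ := (isCompact_closedBall (0 : ℂ) ‖p‖).exists_isMinOn
    ⟨0, by simp⟩ (hf.continuous.norm.continuousOn)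
  have hy0 : 0 < ‖f y‖ / 4 := by have := norm_pos_iff.2 (hne y); positivity
  obtain ⟨N, hN⟩ := eventually_atTop.1
    ((hS (2 * ‖p‖) (by positivity)).tendsto_atTop_zero.eventually (gt_mem_nhds hy0))
  obtain ⟨ν, ρ, s, hνN, hν1, hρ, hs0, hνs, haν, hcen, ha0⟩ := central a hS hinf (N + 10 ^ 48)
  have hs : 10 ^ 8 ≤ s := by
    have h1 : ((10 : ℝ) ^ 8) ^ 6 ≤ s ^ 6 := by
      rw [← hνs, ← pow_mul]
      exact_mod_cast (le_trans (by omega) hνN)
    exact le_of_pow_le_pow_left₀ (by norm_num) hs0.le h1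
  have hs1 : 1 ≤ s := le_trans (by norm_num) hs
  have hT : Differentiable ℂ (fun z : ℂ => ∑' k, a (k + ν) * z ^ k) := by
    refine entire_of_summable (fun k => a (k + ν)) (fun R hR => ?_)
    have h1 := ((summable_nat_add_iff ν).2 (hS R hR.le)).mul_right (R ^ ν)⁻¹
    refine h1.congr (fun k => ?_)
    field_simp
    ring
  obtain ⟨z₀, n, h1, h2⟩ := core a f g _ hf hg hT hgf ν hν1 (by
      intro z
      rw [← (hsum z).tsum_eq, ← (hsum z).summable.sum_add_tsum_nat_add ν, ← tsum_mul_left]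
      congr 1
      refine tsum_congr (fun k => by ring)) ρ s hρ hs hνs haν (by
      intro z hz
      set q := Real.exp (-1 / (2 * s)) with hq
      have hq0 : 0 < q := Real.exp_pos _
      have hq1 : q * (1 + 2 * s) ≤ 2 * s := by
        have h1 := Real.add_one_le_exp (1 / (2 * s))
        have h2 : q * Real.exp (1 / (2 * s)) = 1 := by
          rw [hq, ← Real.exp_add, ← Real.exp_zero]; congr 1; ring
        have h3 : q * (1 / (2 * s) + 1) ≤ 1 := (mul_le_mul_of_nonneg_left h1 hq0.le).trans h2.le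
        have h4 : q * (1 + 2 * s) = 2 * s * (q * (1 / (2 * s) + 1)) := by field_simp
        rw [h4]; nlinarith
      have hq2 : q < 1 := by nlinarith
      have h5 := tsum_of_norm_bounded (f := fun k => a (k + ν) * z ^ k)
        ((hasSum_geometric_of_lt_one hq0.le hq2).mul_left ‖a ν‖) (by
          intro k
          have h6 : ‖a (k + ν)‖ * ρ ^ k ≤ ‖a ν‖ := by
            have := hcen (k + ν)
            rw [pow_add, ← mul_assoc] at this
            exact le_of_mul_le_mul_right this (by positivity)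
          rw [norm_mul, norm_pow]
          calc ‖a (k + ν)‖ * ‖z‖ ^ k ≤ ‖a (k + ν)‖ * (ρ * q) ^ k := by gcongr
            _ = ‖a (k + ν)‖ * ρ ^ k * q ^ k := by rw [mul_pow]; ring
            _ ≤ _ := by gcongr)
      refine h5.trans ?_
      rw [mul_comm]
      gcongr
      rw [inv_le_comm₀ (by linarith) (by positivity), inv_eq_one_div, div_le_iff₀ (by positivity)]
      nlinarith) ha0 p (by
      intro z hz
      have h1 := hN ν (le_trans (by omega) hνN)
      have h2 : ‖f y‖ ≤ ‖f z‖ := hy (mem_closedBall_zero_iff.2 hz)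
      have h3 : s ≤ 2 ^ ν := by
        calc s ≤ s ^ 6 := le_self_pow₀ hs1 (by norm_num)
          _ = ν := hνs.symm
          _ ≤ 2 ^ ν := by exact_mod_cast Nat.lt_two_pow_self.le
      calc 4 * s * ‖a ν‖ * ‖z‖ ^ ν ≤ 4 * 2 ^ ν * ‖a ν‖ * ‖p‖ ^ ν := by gcongr
        _ = 4 * (‖a ν‖ * (2 * ‖p‖) ^ ν) := by rw [mul_pow]; ring
        _ < _ := by linarith)
  exact ⟨z₀, n, h1, by linarith⟩

end Pool.Agent.H89.PS
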