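import Mathlib

set_option autoImplicit false

namespace Pool.Agent.H89.Pac

open MeasureTheory ProbabilityTheory Set Filter Topology
open scoped NNReal ENNReal

variable {X : Type*} [MeasurableSpace X]

noncomputable abbrev pw (s : ℕ) (P : Measure X) : Measure (Fin s → X) := Measure.pi fun _ => P

lemma pw_mono (s : ℕ) {P Q : Measure X} [IsFiniteMeasure P] (h : P ≤ Q) : pw s P ≤ pw s Q := by
  refine Measure.le_iff.mpr fun B hB => ?_
  rw [pw, pw, Measure.pi_def fun _ => Q, toMeasure_apply _ _ hB]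
  exact OuterMeasure.le_pi.mpr (fun t _ => (Measure.pi_pi _ t).trans_le
    (Finset.prod_le_prod' fun i _ => h _)) B

lemma pw_smul (s : ℕ) (c : ℝ≥0) (P : Measure X) [IsFiniteMeasure P] :
    pw s (c • P) = c ^ s • pw s P :=
  Measure.pi_eq fun t _ => by simp [Finset.prod_mul_distrib]; rw [ENNReal.smul_def]; simp

def B01 (φ : X → ℝ) : Prop := Measurable φ ∧ ∀ x, 0 ≤ φ x ∧ φ x ≤ 1

lemma B01.int {φ : X → ℝ} (h : B01 φ) (P : Measure X) [IsFiniteMeasure P] : Integrable φ P :=
  Integrable.of_bound h.1.aestronglyMeasurable 1 (Eventually.of_forall fun x =>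
    abs_le.mpr ⟨by linarith [(h.2 x).1], (h.2 x).2⟩)

lemma B01.ind {φ : X → ℝ} (h : B01 φ) {B : Set X} (hB : MeasurableSet B) : B01 (B.indicator φ) :=
  ⟨h.1.indicator hB, fun x => by by_cases c : x ∈ B <;> simp [c, h.2 x]⟩

lemma dom {φ : X → ℝ} (h : B01 φ) (ν P Q : Measure X) [IsProbabilityMeasure P] [IsFiniteMeasure Q]
    (h1 : ν ≤ P) (h2 : ν ≤ Q) : ∫ x, φ x ∂P ≤ ∫ x, φ x ∂Q + (1 - ν.real univ) := by
  have := isFiniteMeasure_of_le P h1
  have a := integral_mono_measure h2 (Eventually.of_forall fun x => (h.2 x).1) (h.int Q)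
  have b := integral_mono_measure (f := fun x => 1 - φ x) h1
    (Eventually.of_forall fun x => sub_nonneg.mpr (h.2 x).2) ((integrable_const 1).sub (h.int P))
  rw [integral_sub (integrable_const 1) (h.int _), integral_sub (integrable_const 1) (h.int _)] at b
  simp at b; linarith

def Le (P Q : Measure X) (η : ℝ) : Prop := ∀ A, MeasurableSet A → P.real A ≤ Q.real A + η

lemma Le.symm {P Q : Measure X} [IsProbabilityMeasure P] [IsProbabilityMeasure Q] {η : ℝ}
    (h : Le P Q η) : Le Q P η := fun A hA => by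
  have := h _ hA.compl
  rw [probReal_compl_eq_one_sub hA, probReal_compl_eq_one_sub hA] at this
  linarith

lemma Le.trans {P Q R : Measure X} {η ε : ℝ} (h : Le P Q η) (k : Le Q R ε) : Le P R (η + ε) :=
  fun A hA => by linarith [h A hA, k A hA]

lemma common {P Q : Measure X} [IsProbabilityMeasure P] [IsProbabilityMeasure Q] {η : ℝ}
    (h : Le P Q η) : ∃ ν, ν ≤ P ∧ ν ≤ Q ∧ 1 - η ≤ ν.real univ := by
  obtain ⟨S, m, h1, h2⟩ := exists_isHahnDecomposition P Q
  refine ⟨P.restrict S + Q.restrict Sᶜ, ?_, ?_, ?_⟩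
  · conv_rhs => rw [← Measure.restrict_add_restrict_compl (μ := P) m]
    exact add_le_add le_rfl h2
  · conv_rhs => rw [← Measure.restrict_add_restrict_compl (μ := Q) m]
    exact add_le_add h1 le_rfl
  · have := h _ m.compl
    rw [probReal_compl_eq_one_sub m] at this
    rw [measureReal_add_apply]; simp; linarith

lemma tv1 {P Q : Measure X} [IsProbabilityMeasure P] [IsProbabilityMeasure Q] {η : ℝ}
    (h : Le P Q η) {φ : X → ℝ} (hφ : B01 φ) : ∫ x, φ x ∂P ≤ ∫ x, φ x ∂Q + η := by
  obtain ⟨ν, a, b, c⟩ := common h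
  linarith [dom hφ ν P Q a b]

lemma pw_univ (s : ℕ) (ν : Measure X) [IsFiniteMeasure ν] {η : ℝ} (h : 1 - η ≤ ν.real univ)
    (h1 : η ≤ 1) : 1 - s * η ≤ (pw s ν).real univ := by
  have := one_add_mul_le_pow (a := -η) (by linarith) s
  have e : (pw s ν).real univ = ν.real univ ^ s := by simp [measureReal_def, Measure.pi_univ]
  rw [e]
  exact le_trans (by linarith) (this.trans (pow_le_pow_left₀ (by linarith) h s))

lemma tvs (s : ℕ) {P Q : Measure X} [IsProbabilityMeasure P] [IsProbabilityMeasure Q] {η : ℝ}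
    (h : Le P Q η) (h1 : η ≤ 1) {φ : (Fin s → X) → ℝ} (hφ : B01 φ) :
    ∫ x, φ x ∂pw s P ≤ ∫ x, φ x ∂pw s Q + s * η := by
  obtain ⟨ν, a, b, c⟩ := common h
  have := isFiniteMeasure_of_le P a
  linarith [dom hφ _ _ _ (pw_mono s a) (pw_mono s b), pw_univ s ν c h1]

lemma lln (Ξ : Type) [Finite Ξ] {τ γ : ℝ} (hτ : 0 < τ) (hγ : 0 < γ) : ∀ᶠ N : ℕ in atTop,
    ∀ (R : Measure X) [IsProbabilityMeasure R] (φ : Ξ → X → ℝ), (∀ ξ, B01 (φ ξ)) →
      pw N R {y | ∃ ξ, N * τ ≤ |∑ b, φ ξ (y b) - N * ∫ x, φ ξ x ∂ R|} ≤ ENNReal.ofReal γ := by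
  have := Fintype.ofFinite Ξ
  filter_upwards [eventually_gt_atTop 0, tendsto_natCast_atTop_atTop.eventually_ge_atTop
    (Fintype.card Ξ / (τ ^ 2 * γ))] with N N0 hN R _ φ hφ
  have N1 : (0 : ℝ) < N := by exact_mod_cast N0
  rw [ofPred_exists]
  refine (measure_iUnion_fintype_le _ _).trans ((Finset.sum_le_sum (g := fun _ =>
    ENNReal.ofReal (1 / (N * τ ^ 2))) fun ξ _ => ?_).trans ?_)
  · have m : MemLp (φ ξ) 2 R := MemLp.of_bound (hφ ξ).1.aestronglyMeasurable 1
      (Eventually.of_forall fun x => abs_le.mpr ⟨by linarith [((hφ ξ).2 x).1], ((hφ ξ).2 x).2⟩)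
    have m2 : ∀ b : Fin N, MemLp (fun y : Fin N → X => φ ξ (y b)) 2 (pw N R) := fun b =>
      m.comp_measurePreserving (measurePreserving_eval _ b)
    have k := meas_ge_le_variance_div_sq (memLp_finsetSum' Finset.univ fun b _ => m2 b)
      (mul_pos N1 hτ)
    have e : ∀ b : Fin N, ∫ y, φ ξ (y b) ∂pw N R = ∫ x, φ ξ x ∂ R := fun b =>
      integral_comp_eval (μ := fun _ => R) m.1
    rw [variance_sum_pi fun _ => m] at k
    simp only [Finset.sum_apply] at k
    rw [integral_finsetSum _ fun b _ => (m2 b).integrable (by norm_num)] at k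
    simp only [e, Finset.sum_const, Finset.card_univ, Fintype.card_fin, nsmul_eq_mul] at k
    refine k.trans (ENNReal.ofReal_le_ofReal ?_)
    have := variance_le_sq_of_bounded (μ := R) (a := 0) (b := 1)
      (Eventually.of_forall (hφ ξ).2) (hφ ξ).1.aemeasurable
    field_simp; linarith
  · rw [← ENNReal.ofReal_sum_of_nonneg fun _ _ => by positivity]
    refine ENNReal.ofReal_le_ofReal ?_
    rw [div_le_iff₀ (by positivity)] at hN
    simp only [Finset.sum_const, Finset.card_univ, nsmul_eq_mul]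
    field_simp; linarith

lemma blocks (P : Measure X) [IsProbabilityMeasure P] {m N s : ℕ} (e : Fin N × Fin s → Fin m)
    (he : e.Injective) :
    MeasurePreserving (fun (x : Fin m → X) b j => x (e (b, j))) (pw m P) (pw N (pw s P)) := by
  have h1 : MeasurePreserving (fun (x : Fin m → X) p => x (e p)) (pw m P) (Measure.pi fun _ => P) :=
    ⟨by fun_prop, by
      refine ((iIndepFun_iff_map_fun_eq_pi_map fun i => (measurable_pi_apply (e i)).aemeasurable).mp
        ((iIndepFun_pi (X := fun _ => id) fun _ => aemeasurable_id).precomp he)).trans ?_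
      exact congrArg _ (funext fun i => (measurePreserving_eval (fun _ : Fin m => P) (e i)).map_eq)⟩
  have h2 := Measure.infinitePi_map_curry (fun (_ : Fin N) (_ : Fin s) => P)
  simp only [Measure.infinitePi_eq_pi] at h2
  exact (MeasurePreserving.mk (MeasurableEquiv.curry _ _ _).measurable h2).comp h1

lemma weights {K : Type} [Fintype K] [Nonempty K] (P : K → Measure X)
    [∀ i, IsProbabilityMeasure (P i)] (s : ℕ) (hs : 0 < s) (δ : ℝ≥0) (Q : Measure X)
    [IsProbabilityMeasure Q] (l : K → ℝ≥0) (hl : ∑ i, l i = 1)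
    (h : Le (∑ i, l i • P i) Q (δ / (16 * s))) :
    ∃ (I : Set K) (w : K → (Fin s → X) → ℝ), (∀ i, B01 (w i)) ∧
      (∀ i ∈ I, ∀ B, MeasurableSet B → ∫ y, B.indicator (w i) y ∂pw s Q ≤
        (δ / (2 * Fintype.card K)) ^ s * (pw s (P i)).real B) ∧
      (∀ i ∈ I, (δ / (2 * Fintype.card K)) ^ s * (7 / 8) ≤ ∫ y, w i y ∂pw s Q) ∧
      ∀ φ, B01 φ → (∀ i ∈ I, ∫ x, φ x ∂P i ≤ 2 * δ) → ∫ x, φ x ∂Q ≤ 5 * δ := by
  classical
  have s1 : (1 : ℝ) ≤ s := by exact_mod_cast hs
  have k0 : (0 : ℝ) < Fintype.card K := by exact_mod_cast Fintype.card_pos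
  choose S m h1 h2 using fun i => hahn_decomposition ((l i / 2) • P i) Q
  have hS : ∑ i, l i * (P i).real (S i) ≤ δ / (8 * s) := by
    have a := h _ (MeasurableSet.iUnion m)
    have b := measureReal_iUnion_fintype_le (μ := Q) S
    have c : ∑ i, Q.real (S i) ≤ ∑ i, l i * (P i).real (S i) / 2 := Finset.sum_le_sum fun i _ => by
      have := ENNReal.toReal_mono (measure_ne_top _ _) (h1 i _ (m i) subset_rfl)
      simp only [Measure.smul_apply, ENNReal.smul_def, smul_eq_mul, ENNReal.toReal_mul] at this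
      simpa [div_mul_eq_mul_div, measureReal_def] using this
    have d : ∑ i, l i * (P i).real (S i) ≤ (∑ i, l i • P i).real (⋃ i, S i) := by
      rw [measureReal_def, Measure.finsetSum_apply, ENNReal.toReal_sum fun _ _ => measure_ne_top _ _]
      exact Finset.sum_le_sum fun i _ => by
        simpa [measureReal_def] using mul_le_mul_of_nonneg_left
          (measureReal_mono (μ := P i) (subset_iUnion S i)) (l i).2
    rw [← Finset.sum_div] at c
    have : (δ : ℝ) / (8 * s) = 2 * (δ / (16 * s)) := by ring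
    linarith
  set c : ℝ≥0 := δ / (2 * Fintype.card K)
  have ec : (c : ℝ) = δ / (2 * Fintype.card K) := by simp [c]
  let ν := fun i => pw s (c • (P i).restrict (S i)ᶜ)
  let I := {i | (δ : ℝ) / Fintype.card K ≤ l i ∧ (P i).real (S i) ≤ 1 / (8 * s)}
  have hν : ∀ i ∈ I, ν i ≤ pw s Q := fun i hi => pw_mono s (Measure.le_iff.mpr fun B hB => by
    refine le_trans ?_ ((h2 i (B ∩ (S i)ᶜ) (hB.inter (m i).compl) inter_subset_right).trans
      (measure_mono inter_subset_left))
    simp only [Measure.smul_apply, Measure.restrict_apply hB, ENNReal.smul_def, smul_eq_mul]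
    gcongr
    rw [← NNReal.coe_le_coe, ec, NNReal.coe_div, NNReal.coe_ofNat, mul_comm, ← div_div]
    linarith [hi.1])
  have hw : ∀ i ∈ I, ∀ B, MeasurableSet B → ∫ y, B.indicator
      (fun y => min 1 ((ν i).rnDeriv (pw s Q) y).toReal) y ∂pw s Q =
        c ^ s * (pw s ((P i).restrict (S i)ᶜ)).real B := fun i hi B hB => by
    rw [integral_indicator hB, ← NNReal.coe_pow, ← measureReal_nnreal_smul_apply, ← pw_smul,
      ← Measure.setIntegral_toReal_rnDeriv (Measure.absolutelyContinuous_of_le (hν i hi))]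
    refine integral_congr_ae (ae_restrict_of_ae ?_)
    filter_upwards [Measure.rnDeriv_le_one_of_le (hν i hi)] with z hz
    exact min_eq_right (ENNReal.toReal_le_of_le_ofReal zero_le_one (by simpa using hz))
  refine ⟨I, fun i y => min 1 ((ν i).rnDeriv (pw s Q) y).toReal, fun i => ⟨measurable_const.min
    (Measure.measurable_rnDeriv _ _).ennreal_toReal, fun y =>
    ⟨le_min zero_le_one ENNReal.toReal_nonneg, min_le_left _ _⟩⟩, fun i hi B hB => ?_,
    fun i hi => ?_, fun φ hφ H => ?_⟩
  · rw [hw i hi B hB, ec]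
    exact mul_le_mul_of_nonneg_left (ENNReal.toReal_mono (measure_ne_top _ _)
      (pw_mono s Measure.restrict_le_self B)) (by positivity)
  · have := hw i hi univ .univ
    rw [indicator_univ] at this
    rw [this, ec]
    refine mul_le_mul_of_nonneg_left (le_trans ?_ (pw_univ s _ (η := 1 / (8 * s)) ?_ ?_))
      (by positivity)
    · field_simp; norm_num
    · rw [measureReal_restrict_apply_univ, probReal_compl_eq_one_sub (m i)]; linarith [hi.2]
    · rw [div_le_one (by positivity)]; linarith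
  · have : IsProbabilityMeasure (∑ i, l i • P i) := ⟨by
      simp [Measure.finsetSum_apply, ← ENNReal.ofNNReal_finsetSum, hl]⟩
    have a := tv1 h.symm hφ
    rw [integral_finsetSum_measure fun i _ => hφ.int _] at a
    have b : ∑ i, ∫ x, φ x ∂(l i • P i) ≤ ∑ i, (l i * (2 * δ) + δ / Fintype.card K +
        8 * s * (l i * (P i).real (S i)) : ℝ) := Finset.sum_le_sum fun i _ => by
      rw [integral_smul_nnreal_measure, NNReal.smul_def, smul_eq_mul]
      have l0 : (0 : ℝ) ≤ l i := (l i).2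
      have p0 : 0 ≤ (P i).real (S i) := measureReal_nonneg
      have d0 : (0 : ℝ) ≤ δ / Fintype.card K := by positivity
      have e0 : (0 : ℝ) ≤ l i * (2 * δ) := by positivity
      have f0 : (0 : ℝ) ≤ 8 * s * (l i * (P i).real (S i)) := by positivity
      by_cases hi : i ∈ I
      · linarith [mul_le_mul_of_nonneg_left (H i hi) l0]
      · have g : ∫ x, φ x ∂P i ≤ 1 := by
          simpa using integral_mono (hφ.int (P i)) (integrable_const 1) fun x => (hφ.2 x).2
        have g2 := mul_le_mul_of_nonneg_left g l0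
        rcases not_and_or.mp hi with c | c
        · linarith [not_le.mp c]
        · rw [not_le, div_lt_iff₀ (by positivity)] at c
          nlinarith
    have l1 : ∑ i, (l i : ℝ) = 1 := by exact_mod_cast hl
    simp only [Finset.sum_add_distrib, ← Finset.sum_mul, ← Finset.mul_sum, l1, Finset.sum_const,
      Finset.card_univ, nsmul_eq_mul, mul_div_cancel₀ _ k0.ne'] at b
    rw [le_div_iff₀ (by positivity)] at hS
    have : (δ : ℝ) / (16 * s) ≤ δ := div_le_self δ.2 (by linarith)
    linarith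

end Pool.Agent.H89.Pac
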