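import Mathlib

set_option autoImplicit false

namespace Pool.Agent.H89.QV

open Polynomial Matrix

abbrev Mx := Matrix (Fin 2) (Fin 2) ℤ[X]

noncomputable def nil (j : ℤ) : Mx := !![-C j, 1; -(C j * C j), C j]

theorem nil_sq (j : ℤ) : nil j * nil j = 0 := by
  ext1 a b; fin_cases a <;> fin_cases b <;> simp [nil, Matrix.mul_apply, Fin.sum_univ_two]
  ring

noncomputable def un (j : ℤ) : Mxˣ where
  val := 1 + (X : ℤ[X]) • nil j
  inv := 1 + (-X : ℤ[X]) • nil j
  val_inv := by simp [add_mul, mul_add, nil_sq]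
  inv_val := by simp [add_mul, mul_add, nil_sq]

def NZ := {p : Fin 2 → ℤ[X] // p ≠ 0}

noncomputable instance : MulAction Mxˣ NZ where
  smul g p := ⟨g.1 *ᵥ p.1, fun h => p.2 (by
    have := congrArg (fun q => g.inv *ᵥ q) h
    simpa only [Matrix.mulVec_mulVec, g.inv_val, Matrix.one_mulVec, Matrix.mulVec_zero]
      using this)⟩
  one_smul p := Subtype.ext (Matrix.one_mulVec _)
  mul_smul g h p := Subtype.ext (Matrix.mulVec_mulVec p.1 g.1 h.1).symm

theorem smul_val (g : Mxˣ) (p : NZ) : (g • p).1 = g.1 *ᵥ p.1 := rfl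

def near (j : ℤ) : Set NZ := {p | (p.1 1 - C j * p.1 0).degree < (p.1 0).degree}

theorem near_disj {i j : ℤ} (h : i ≠ j) : Disjoint (near i) (near j) := by
  refine Set.disjoint_left.2 fun p a b => ?_
  rw [near, Set.mem_setOf_eq] at a b
  have := (degree_sub_le _ _).trans_lt (max_lt a b)
  rw [show p.1 1 - C i * p.1 0 - (p.1 1 - C j * p.1 0) = C (j - i) * p.1 0 by
    rw [map_sub]; ring, degree_C_mul (sub_ne_zero.2 h.symm)] at this
  exact lt_irrefl _ this

theorem push (j : ℤ) (p : NZ) (hp : p ∉ near j) (g : Mxˣ) (c : ℤ[X]) (hc : c.degree = 1)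
    (hg : g.1 = 1 + c • nil j) : g • p ∈ near j := by
  have e0 : (g • p).1 0 = p.1 0 + c * (p.1 1 - C j * p.1 0) := by
    rw [smul_val]
    simp [hg, nil, Matrix.mulVec, dotProduct, Fin.sum_univ_two]; ring
  have e1 : (g • p).1 1 = p.1 1 + C j * (c * (p.1 1 - C j * p.1 0)) := by
    rw [smul_val]
    simp [hg, nil, Matrix.mulVec, dotProduct, Fin.sum_univ_two]; ring
  rw [near, Set.mem_setOf_eq, e0, e1]
  have hp' : (p.1 0).degree ≤ (p.1 1 - C j * p.1 0).degree := not_lt.1 hp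
  generalize hd : p.1 1 - C j * p.1 0 = d at *
  have d0 : d ≠ 0 := by
    rintro rfl
    have h0 : p.1 0 = 0 := degree_eq_bot.1 (le_bot_iff.1 (by simpa using hp'))
    refine p.2 (funext fun a => ?_)
    fin_cases a
    · exact h0
    · simpa [h0] using hd
  have k : d.degree < (c * d).degree := by
    rw [degree_mul, hc, degree_eq_natDegree d0]
    exact_mod_cast (by omega : d.natDegree < 1 + d.natDegree)
  rw [show p.1 1 + C j * (c * d) - C j * (p.1 0 + c * d) = d by rw [← hd]; ring,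
    degree_add_eq_right_of_degree_lt (hp'.trans_lt k)]
  exact k

noncomputable def rho : FreeGroup ℕ →* Mxˣ :=
  FreeGroup.lift fun i : ℕ => un (2 * i) * un (2 * i + 1)

theorem rho_inj : Function.Injective rho := by
  refine FreeGroup.injective_lift_of_ping_pong _ (fun i : ℕ => near (2 * i))
    (fun i : ℕ => near (2 * i + 1)) (fun i => ⟨⟨![1, C (2 * i : ℤ)], fun h => ?_⟩, ?_⟩)
    (fun i j h => near_disj (by omega)) (fun i j h => near_disj (by omega))
    (fun i j => near_disj (by omega)) (fun i => ?_) (fun i => ?_)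
  · simpa using congrFun h 0
  · simp [near]
  · rintro _ ⟨p, hp, rfl⟩
    change (_ * _) • p ∈ _
    rw [mul_smul]
    exact push _ _ (Set.disjoint_left.1 (near_disj (by omega))
      (push _ p hp _ X degree_X rfl)) _ X degree_X rfl
  · rintro _ ⟨p, hp, rfl⟩
    change (un _ * un _)⁻¹ • p ∈ _
    rw [_root_.mul_inv_rev, mul_smul]
    exact push _ _ (Set.disjoint_left.1 (near_disj (by omega))
      (push _ p hp _ (-X) (by simp) rfl)) _ (-X) (by simp) rfl

def Dv (n : ℕ) (A : Mx) : Prop := ∀ i j, (X : ℤ[X]) ^ n ∣ A i j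

theorem Dv.mul {m n : ℕ} {A B : Mx} (a : Dv m A) (b : Dv n B) : Dv (m + n) (A * B) :=
  fun i j => by
    rw [Matrix.mul_apply, pow_add]
    exact Finset.dvd_sum fun k _ => mul_dvd_mul (a i k) (b k j)

theorem Dv.add {n : ℕ} {A B : Mx} (a : Dv n A) (b : Dv n B) : Dv n (A + B) :=
  fun i j => dvd_add (a i j) (b i j)

theorem Dv.mono {m n : ℕ} {A : Mx} (a : Dv n A) (h : m ≤ n) : Dv m A :=
  fun i j => (pow_dvd_pow _ h).trans (a i j)

theorem Dv.coeff {m n : ℕ} {A : Mx} (a : Dv n A) (h : m < n) (i j : Fin 2) :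
    (A i j).coeff m = 0 := X_pow_dvd_iff.1 (a i j) m h

theorem dv_one (g : FreeGroup ℕ) : Dv 1 ((rho g).1 - 1) := by
  have z : ∀ A : Mx, Dv 0 A := fun A i j => by simp
  have mul : ∀ a b : Mxˣ, Dv 1 (a.1 - 1) → Dv 1 (b.1 - 1) → Dv 1 ((a * b).1 - 1) := by
    intro a b ha hb
    rw [show (a * b).1 - 1 = (a.1 - 1) * b.1 + (b.1 - 1) by simp [sub_mul]]
    exact (ha.mul (z _)).add hb
  have u : ∀ j, Dv 1 ((un j).1 - 1) := fun j a b => by simp [un]
  have v : ∀ j, Dv 1 ((un j)⁻¹.1 - 1) := fun j a b => by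
    change _ ∣ (1 + (-X : ℤ[X]) • nil j - 1) a b
    simp
  induction g using FreeGroup.induction_on with
  | C1 => intro a b; simp
  | of x => simpa only [rho, FreeGroup.lift_apply_of] using mul _ _ (u _) (u _)
  | inv_of x _ =>
    simpa only [rho, map_inv, FreeGroup.lift_apply_of, _root_.mul_inv_rev] using
      mul _ _ (v _) (v _)
  | mul x y hx hy => rw [map_mul]; exact mul _ _ hx hy

/-- a nontrivial subgroup of a free group has a conjugation invariant map onto `ℤ` -/
theorem magnus (R : Subgroup (FreeGroup ℕ)) (h : R ≠ ⊥) :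
    ∃ (lam : R →* Multiplicative ℤ) (r : R), ∀ g : FreeGroup ℕ, ∀ s : R,
      s.1 = g⁻¹ * r * g → lam s = Multiplicative.ofAdd 1 := by
  classical
  have ex : ∃ n, ¬∀ r ∈ R, Dv (n + 1) ((rho r).1 - 1) := by
    obtain ⟨r, r0⟩ := Subgroup.ne_bot_iff_exists_ne_one.1 h
    by_contra! k
    refine r0 (Subtype.ext (rho_inj (Units.ext ?_)))
    rw [OneMemClass.coe_one, map_one, Units.val_one, ← sub_eq_zero]
    ext a b n
    simpa using (k n r r.2).coeff n.lt_succ_self a b
  have h1 := Nat.find_spec ex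
  have h2 := fun m => Nat.find_min ex (m := m)
  generalize Nat.find ex = n at h1 h2
  have n0 : 0 < n := Nat.pos_of_ne_zero (by rintro rfl; exact h1 fun r _ => dv_one r)
  have h3 : ∀ r ∈ R, Dv n ((rho r).1 - 1) := by
    have := not_not.1 (h2 (n - 1) (by omega))
    rwa [Nat.sub_add_cancel n0] at this
  obtain ⟨r1, hr1, a, b, hab⟩ : ∃ r ∈ R, ∃ a b, (((rho r).1 - 1) a b).coeff n ≠ 0 := by
    by_contra! k
    exact h1 fun r hr a b => X_pow_dvd_iff.2 fun m hm =>
      (Nat.lt_succ_iff_lt_or_eq.1 hm).elim (fun hm => (h3 r hr).coeff hm a b) (· ▸ k r hr a b)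
  let l : FreeGroup ℕ → ℤ := fun r => (((rho r).1 - 1) a b).coeff n
  have lm : ∀ r ∈ R, ∀ s ∈ R, l (r * s) = l r + l s := fun r hr s hs => by
    have := ((h3 r hr).mul (h3 s hs)).coeff (show n < n + n by omega) a b
    simp only [l]
    rw [show (rho (r * s)).1 - 1 = ((rho r).1 - 1) * ((rho s).1 - 1) + (((rho r).1 - 1) +
      ((rho s).1 - 1)) by simp [sub_mul, mul_sub]; abel, Matrix.add_apply, Matrix.add_apply, coeff_add,
      coeff_add, this, zero_add]
  have lc : ∀ r ∈ R, ∀ g, l (g⁻¹ * r * g) = l r := fun r hr g => by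
    have e : (rho g⁻¹).1 * (rho g).1 = 1 := by rw [← Units.val_mul, ← map_mul]; simp
    have k := (((dv_one g⁻¹).mul (h3 r hr)).mul (show Dv 0 (rho g).1 from
      fun _ _ => by simp)).coeff (show n < 1 + n + 0 by omega) a b
    have k' := ((h3 r hr).mul (dv_one g)).coeff n.lt_succ_self a b
    simp only [l]
    rw [show (rho (g⁻¹ * r * g)).1 - 1 = ((rho g⁻¹).1 - 1) * ((rho r).1 - 1) * (rho g).1 +
      (((rho r).1 - 1) * ((rho g).1 - 1) + ((rho r).1 - 1)) by
        simp only [map_mul, Units.val_mul, sub_mul, mul_sub, mul_one, one_mul, e]; abel,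
      Matrix.add_apply, Matrix.add_apply, coeff_add, coeff_add, k, k', zero_add, zero_add]
  let lam : R →* Multiplicative ℤ := MonoidHom.mk' (fun r => Multiplicative.ofAdd (l r))
    fun r s => by rw [← ofAdd_add, ← lm r r.2 s s.2]; rfl
  obtain ⟨d, hd⟩ := Int.subgroup_cyclic (Subgroup.toAddSubgroup' lam.range)
  have dv : ∀ r : R, d ∣ l r := fun r => by
    have : l r ∈ Subgroup.toAddSubgroup' lam.range := ⟨r, rfl⟩
    rw [hd, AddSubgroup.mem_closure_singleton] at this
    obtain ⟨k, hk⟩ := this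
    exact ⟨k, by rw [← hk, smul_eq_mul, mul_comm]⟩
  have d0 : d ≠ 0 := by
    rintro rfl
    exact hab (zero_dvd_iff.1 (dv ⟨r1, hr1⟩))
  obtain ⟨r, hr⟩ : d ∈ Subgroup.toAddSubgroup' lam.range :=
    hd ▸ AddSubgroup.subset_closure rfl
  have hr' : l r = d := hr
  refine ⟨MonoidHom.mk' (fun r => Multiplicative.ofAdd (l r / d)) fun r s => ?_, r,
    fun g s hs => ?_⟩
  · rw [← ofAdd_add, ← Int.add_ediv_of_dvd_left (dv r), ← lm r r.2 s s.2]; rfl
  · change Multiplicative.ofAdd (l s / d) = _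
    rw [hs, lc r r.2, hr', Int.ediv_self d0]

end Pool.Agent.H89.QV
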