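import Pool.Agent.H89.QV1

set_option autoImplicit false

namespace Pool.Agent.H89.QV

open Function

/-- permutational (unrestricted) wreath product -/
@[ext] structure Wr (A B Ω : Type) where
  left : Ω → A
  right : B

namespace Wr
variable {A A' B Ω G : Type} [Group A] [Group A'] [Group B] [Group G] [MulAction B Ω]

instance : Mul (Wr A B Ω) := ⟨fun a b => ⟨fun x => a.1 x * b.1 (a.2⁻¹ • x), a.2 * b.2⟩⟩
instance : One (Wr A B Ω) := ⟨⟨fun _ => 1, 1⟩⟩
instance : Inv (Wr A B Ω) := ⟨fun a => ⟨fun x => (a.1 (a.2 • x))⁻¹, a.2⁻¹⟩⟩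

@[simp] theorem mul_left (a b : Wr A B Ω) (x : Ω) :
    (a * b).left x = a.left x * b.left (a.right⁻¹ • x) := rfl
@[simp] theorem mul_right (a b : Wr A B Ω) : (a * b).right = a.right * b.right := rfl
omit [MulAction B Ω] in
@[simp] theorem one_left (x : Ω) : (1 : Wr A B Ω).left x = 1 := rfl
omit [MulAction B Ω] in
@[simp] theorem one_right : (1 : Wr A B Ω).right = 1 := rfl
@[simp] theorem inv_left (a : Wr A B Ω) (x : Ω) : a⁻¹.left x = (a.left (a.right • x))⁻¹ := rfl
@[simp] theorem inv_right (a : Wr A B Ω) : a⁻¹.right = a.right⁻¹ := rfl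

instance : Group (Wr A B Ω) := Group.ofLeftAxioms
  (fun a b c => by ext <;> simp [mul_assoc, mul_smul]) (fun a => by ext <;> simp)
  (fun a => by ext <;> simp)

def rightHom : Wr A B Ω →* B := MonoidHom.mk' right fun _ _ => rfl

def inr : B →* Wr A B Ω := MonoidHom.mk' (fun b => ⟨fun _ => 1, b⟩) fun _ _ => by ext <;> simp

def diag : A →* Wr A B Ω := MonoidHom.mk' (fun a => ⟨fun _ => a, 1⟩) fun _ _ => by ext <;> simp

def map (f : A →* A') : Wr A B Ω →* Wr A' B Ω :=
  MonoidHom.mk' (fun a => ⟨fun x => f (a.1 x), a.2⟩) fun _ _ => by ext <;> simp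

def kk (π : G →* B) (s : Ω → G) : G →* Wr G B Ω :=
  MonoidHom.mk' (fun g => ⟨fun x => (s x)⁻¹ * g * s ((π g)⁻¹ • x), π g⟩) fun _ _ => by
    ext <;> simp [mul_assoc, mul_smul]

theorem diag_inj [Nonempty Ω] : Injective (diag : A →* Wr A B Ω) := fun _ _ h =>
  congrFun (congrArg left h) (Classical.arbitrary Ω)

end Wr

open Wr

theorem KK {G Q : Type} [Group G] [Group Q] (f : G →* Q) :
    ∃ (s : Q → G) (κ : G →* Wr f.ker Q Q), (∀ g, (κ g).right = f g) ∧
      (∀ g x, ((κ g).left x : G) = (s x)⁻¹ * g * s ((f g)⁻¹ • x)) ∧ Injective κ := by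
  let t : Q → Q := fun x => (Quotient.mk (QuotientGroup.rightRel f.range) x).out
  have t1 : ∀ x, ∃ g, f g = x * (t x)⁻¹ := fun x =>
    QuotientGroup.rightRel_apply.1 (Quotient.mk_out (s := QuotientGroup.rightRel f.range) x)
  have t2 : ∀ g x, t ((f g)⁻¹ • x) = t x := fun g x =>
    congrArg Quotient.out (Quotient.sound (QuotientGroup.rightRel_apply.2 ⟨g, by simp⟩))
  choose s hs using t1
  have k : ∀ g x, (s x)⁻¹ * g * s ((f g)⁻¹ • x) ∈ f.ker := fun g x => by
    rw [MonoidHom.mem_ker, map_mul, map_mul, map_inv, hs, hs, t2]; simp [mul_assoc]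
  refine ⟨s, MonoidHom.mk' (fun g => ⟨fun x => ⟨_, k g x⟩, f g⟩) fun _ _ => ?_, fun _ => rfl,
    fun _ _ => rfl, (injective_iff_map_eq_one _).2 fun g hg => ?_⟩
  · ext <;> simp [mul_assoc]
  · have a : f g = 1 := congrArg Wr.right hg
    have b : (s 1)⁻¹ * g * s ((f g)⁻¹ • 1) = 1 := congrArg (fun w => (w.left 1).1) hg
    simpa [a, mul_assoc, inv_mul_eq_one] using b

theorem lemK (R : Subgroup (FreeGroup ℕ)) [R.Normal] (h : R ≠ ⊥) :
    ∃ r ∈ R, ∀ (A : Type) [Group A] (a : A),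
      ∃ φ : FreeGroup ℕ →* Wr A (FreeGroup ℕ ⧸ R) (FreeGroup ℕ ⧸ R), φ r = diag a := by
  obtain ⟨lam, r, hr⟩ := magnus (QuotientGroup.mk' R).ker (by rwa [QuotientGroup.ker_mk'])
  obtain ⟨s, κ, k1, k2, -⟩ := KK (QuotientGroup.mk' R)
  have r1 : QuotientGroup.mk' R r = 1 := r.2
  refine ⟨r, (QuotientGroup.ker_mk' R).le r.2, fun A _ a =>
    ⟨(map ((zpowersHom A a).comp lam)).comp κ, Wr.ext (funext fun x => ?_) ((k1 r).trans r1)⟩⟩
  change zpowersHom A a (lam ((κ r).left x)) = a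
  rw [hr (s x) _ (by rw [k2, r1, inv_one, one_smul])]
  simp

/-- a class of groups -/
abbrev Cls := ∀ (G : Type) [Group G], Prop

def Law (P : Cls) {ι : Type} (w : FreeGroup ι) : Prop :=
  ∀ (A : Type) [Group A], P A → ∀ φ : FreeGroup ι →* A, φ w = 1

def LawLen (P : Cls) (n : ℕ) : Prop :=
  ∃ (ι : Type) (L : List (ι × Bool)), L.length = n ∧ FreeGroup.mk L ≠ 1 ∧ Law P (FreeGroup.mk L)

theorem shorten (P : Cls) (hP : P PUnit) {H Ω ι : Type} [Group H] [MulAction H Ω] (τ : H) (ω : Ω)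
    (hτ : τ • ω ≠ ω) (L : List (ι × Bool)) (hL : FreeGroup.mk L ≠ 1)
    (hyp : ∀ (A : Type) [Group A], P A → ∀ φ : FreeGroup ι →* Wr A H Ω,
      (∀ j, (φ (.of j)).right = 1 ∨ (φ (.of j)).right = τ) →
        (φ (.mk L)).left ω = 1 ∧ (φ (.mk L)).right = 1) : ∃ m < L.length, LawLen P m := by
  classical
  obtain _ | ⟨⟨i, ε⟩, L⟩ := L
  · exact absurd rfl hL
  let π : FreeGroup ι →* H := FreeGroup.lift fun j => if j = i then τ else 1
  have π1 : ∀ j, π (.of j) = 1 ∨ π (.of j) = τ := fun j => by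
    simp only [π, FreeGroup.lift_apply_of]; split_ifs <;> simp
  have πi : π (.of i) = τ := by simp [π]
  let c : Ω := if ε then ω else τ • ω
  have hc : c ≠ τ⁻¹ • c := by
    rw [Ne, eq_inv_smul_iff]
    cases ε
    · simpa [c] using hτ
    · exact hτ
  let e : Ω × ι → FreeGroup (Ω × ι) := fun p => if p = (c, i) then 1 else .of p
  let Φ : FreeGroup ι →* Wr (FreeGroup (Ω × ι)) H Ω :=
    FreeGroup.lift fun j => ⟨fun x => e (x, j), π (.of j)⟩
  have Φ1 : ∀ j, Φ (.of j) = ⟨fun x => e (x, j), π (.of j)⟩ := fun j => FreeGroup.lift_apply_of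
  have cons : ∀ (a : ι × Bool) L, FreeGroup.mk (a :: L) = .mk [a] * .mk L := fun _ _ => rfl
  have mf : ∀ {κ : Type} (j : κ), FreeGroup.mk [(j, false)] = (.of j)⁻¹ := fun _ => rfl
  have mt : ∀ j : ι, FreeGroup.mk [(j, true)] = .of j := fun _ => rfl
  have len : ∀ (L : List (ι × Bool)) x, ∃ L' : List ((Ω × ι) × Bool), L'.length ≤ L.length ∧
      (Φ (.mk L)).left x = .mk L' := by
    intro L
    induction L with
    | nil => exact fun x => ⟨[], le_rfl, by rw [← FreeGroup.one_eq_mk, map_one]; rfl⟩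
    | cons a L ih =>
      intro x
      rw [cons, map_mul, mul_left]
      obtain ⟨L', h1, h2⟩ := ih ((Φ (.mk [a])).right⁻¹ • x)
      rw [h2]
      obtain ⟨j, _ | _⟩ := a
      · rw [mf, map_inv, inv_left, Φ1]
        simp only [e]
        split_ifs
        · exact ⟨L', h1.trans (Nat.le_succ _), by simp⟩
        · exact ⟨(_, false) :: L', Nat.succ_le_succ h1, rfl⟩
      · rw [mt, Φ1]
        simp only [e]
        split_ifs
        · exact ⟨L', h1.trans (Nat.le_succ _), by simp⟩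
        · exact ⟨(_, true) :: L', Nat.succ_le_succ h1, rfl⟩
  have first : (Φ (.mk [(i, ε)])).left ω = 1 := by
    cases ε
    · rw [mf, map_inv, inv_left, Φ1, πi]; simp [e, c]
    · rw [mt, Φ1]; simp [e, c]
  obtain ⟨L', h1, h2⟩ := len L ((Φ (.mk [(i, ε)])).right⁻¹ • ω)
  have h3 : (Φ (.mk ((i, ε) :: L))).left ω = .mk L' := by
    rw [cons, map_mul, mul_left, first, one_mul, h2]
  refine ⟨_, Nat.lt_succ_of_le h1, _, L', rfl, fun h0 => hL ?_, fun A _ hA ψ => ?_⟩
  · let s : Ω → FreeGroup ι := fun x => if x = τ⁻¹ • c then (.of i)⁻¹ else 1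
    let θ : FreeGroup (Ω × ι) →* FreeGroup ι :=
      FreeGroup.lift fun p => (kk π s (.of p.2)).left p.1
    have k : (map θ).comp Φ = kk π s := by
      refine FreeGroup.ext_hom _ _ fun j => ?_
      rw [MonoidHom.comp_apply, Φ1]
      refine Wr.ext (funext fun x => ?_) rfl
      change θ (e (x, j)) = _
      simp only [e]
      split_ifs with h
      · obtain ⟨rfl, rfl⟩ := Prod.mk.inj h
        change _ = _ * _ * _
        simp [s, πi, hc]
      · exact FreeGroup.lift_apply_of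
    have k1 := (hyp PUnit hP (inr.comp π) π1).2
    have k2 := congrArg (fun f => (f (.mk ((i, ε) :: L))).left ω) k
    change θ _ = _ * _ * s ((π _)⁻¹ • ω) at k2
    change π _ = 1 at k1
    rw [h3, h0, map_one, k1] at k2
    simpa [mul_assoc, inv_mul_eq_one] using k2.symm
  · rw [← h3]
    exact (hyp A hA ((map ψ).comp Φ) fun j => by
      rw [MonoidHom.comp_apply, Φ1]; exact π1 j).1

end Pool.Agent.H89.QV
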