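import Pool.Agent.H89.QV2

set_option autoImplicit false

namespace Pool.Agent.H89.QV

open Function Wr

def uker {I : Type} (U : Ultrafilter I) (G : I → Type) [∀ i, Group (G i)] :
    Subgroup (∀ i, G i) where
  carrier := {f | ∀ᶠ i in (U : Filter I), f i = 1}
  one_mem' := Filter.Eventually.of_forall fun _ => rfl
  mul_mem' a b := (a.and b).mono fun i h => by simp [h.1, h.2]
  inv_mem' a := a.mono fun i h => by simp [h]

instance {I : Type} (U : Ultrafilter I) (G : I → Type) [∀ i, Group (G i)] : (uker U G).Normal :=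
  ⟨fun _ a _ => Filter.Eventually.mono a fun i h => by simp [h]⟩

def IsQV (X : Cls) : Prop :=
  X PUnit ∧ (∀ (G H : Type) [Group G] [Group H], (G ≃* H) → X G → X H) ∧
  (∀ (G : Type) [Group G] (K : Subgroup G), X G → X K) ∧
  (∀ (I : Type) (G : I → Type) [∀ i, Group (G i)], (∀ i, X (G i)) → X (∀ i, G i)) ∧
  ∀ (I : Type) (U : Ultrafilter I) (G : I → Type) [∀ i, Group (G i)],
    (∀ i, X (G i)) → X ((∀ i, G i) ⧸ uker U G)

def mul (X Y : Cls) : Cls := fun G _ => ∃ (N : Subgroup G) (_ : N.Normal), X N ∧ Y (G ⧸ N)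

def triv : Cls := fun G _ => Subsingleton G

variable {X Y Z : Cls} {G H A B Ω : Type} [Group G] [Group H] [Group A] [Group B] [MulAction B Ω]

theorem IsQV.emb (h : IsQV X) (f : G →* H) (hf : Injective f) (hH : X H) : X G :=
  h.2.1 _ _ (MonoidHom.ofInjective hf).symm (h.2.2.1 H f.range hH)

theorem IsQV.embS (h : IsQV X) {K : Subgroup H} (hK : X K) (f : G →* H) (hf : Injective f)
    (hr : ∀ g, f g ∈ K) : X G :=
  h.emb (f.codRestrict K hr) (fun _ _ e => hf (congrArg Subtype.val e)) hK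

def res (Y : Cls) (G : Type) [Group G] : Subgroup G where
  carrier := {g | ∀ (H : Type) [Group H], Y H → ∀ f : G →* H, f g = 1}
  one_mem' _ _ _ f := f.map_one
  mul_mem' a b H _ h f := by rw [map_mul, a H h, b H h, one_mul]
  inv_mem' a H _ h f := by rw [map_inv, a H h, inv_one]

instance : (res Y G).Normal := ⟨fun _ a _ H _ h f => by simp [a H h f]⟩

theorem res_map (f : G →* H) {g : G} (hg : g ∈ res Y G) : f g ∈ res Y H :=
  fun K _ hK φ => hg K hK (φ.comp f)

theorem IsQV.ofRes (h : IsQV Y) (h0 : ∀ g ∈ res Y G, g = 1) : Y G := by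
  have : ∀ g : {g : G // g ≠ 1}, ∃ (H : Type) (_ : Group H), Y H ∧ ∃ f : G →* H, f g ≠ 1 := by
    intro g
    by_contra! k
    exact g.2 (h0 g fun H _ => k H _)
  choose H i hH f hf using this
  refine h.emb (Pi.monoidHom f) ((injective_iff_map_eq_one _).2 fun g hg => ?_) (h.2.2.2.1 _ H hH)
  by_contra k
  exact hf ⟨g, k⟩ (congrFun hg ⟨g, k⟩)

theorem IsQV.sing (h : IsQV X) [Subsingleton G] : X G := h.ofRes fun _ _ => Subsingleton.elim _ _

theorem IsQV.prod (h : IsQV X) (a : X G) (b : X H) : X (G × H) :=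
  h.ofRes fun _ k => Prod.ext (k G a (.fst G H)) (k H b (.snd G H))

theorem IsQV.quot (h : IsQV Y) : Y (G ⧸ res Y G) := h.ofRes fun g k => by
  obtain ⟨g, rfl⟩ := QuotientGroup.mk_surjective g
  exact (QuotientGroup.eq_one_iff g).2 fun H _ hH f =>
    k H hH (QuotientGroup.lift _ f fun x hx => hx H hH f)

theorem mk_mul (hY : IsQV Y) (f : G →* H) (hH : Y H) (hk : X f.ker) : mul X Y G :=
  ⟨f.ker, inferInstance, hk, hY.emb _ (QuotientGroup.kerLift_injective f) hH⟩

theorem mul.ex (h : mul X Y G) : ∃ (H : Type) (_ : Group H), Y H ∧ ∃ f : G →* H, X f.ker := by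
  obtain ⟨N, _, a, b⟩ := h
  exact ⟨_, _, b, QuotientGroup.mk' N, by rwa [QuotientGroup.ker_mk']⟩

theorem mul.res (hX : IsQV X) (h : mul X Y G) : X (res Y G) := by
  obtain ⟨H, _, a, f, b⟩ := h.ex
  exact hX.embS b (Subgroup.subtype _) Subtype.val_injective fun g => g.2 H a f

theorem IsQV.base (h : IsQV X) {K : Subgroup A} (hK : X K) (j : G →* Wr A B Ω) (hj : Injective j)
    (h1 : ∀ g, (j g).right = 1) (h2 : ∀ g x, (j g).left x ∈ K) : X G := by
  refine h.emb (MonoidHom.mk' (fun g x => (⟨_, h2 g x⟩ : K)) fun a b => ?_) (fun a b e => hj ?_)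
    (h.2.2.2.1 Ω (fun _ => K) fun _ => hK)
  · ext x; simp [h1]
  · exact Wr.ext (funext fun x => congrArg Subtype.val (congrFun e x)) (by rw [h1, h1])

theorem wr_mem (hX : IsQV X) (hY : IsQV Y) (a : X A) (b : Y B) : mul X Y (Wr A B Ω) :=
  mk_mul hY rightHom b (hX.base (hX.2.2.1 A ⊤ a) (Subgroup.subtype _) Subtype.val_injective
    (fun g => g.2) fun _ _ => trivial)

section
variable {I : Type} {G H : I → Type} [∀ i, Group (G i)] [∀ i, Group (H i)]

def piMap (φ : ∀ i, G i →* H i) : (∀ i, G i) →* ∀ i, H i :=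
  MonoidHom.mk' (fun g i => φ i (g i)) fun _ _ => funext fun i => (φ i).map_mul _ _

def umap (U : Ultrafilter I) (φ : ∀ i, G i →* H i) :
    (∀ i, G i) ⧸ uker U G →* (∀ i, H i) ⧸ uker U H :=
  QuotientGroup.map _ _ (piMap φ) fun _ a => Filter.Eventually.mono a fun i h => by
    change φ i _ = 1
    rw [h, map_one]

theorem umap_inj (U : Ultrafilter I) (φ : ∀ i, G i →* H i) (h : ∀ i, Injective (φ i)) :
    Injective (umap U φ) := (injective_iff_map_eq_one _).2 fun g hg => by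
  obtain ⟨g, rfl⟩ := QuotientGroup.mk_surjective g
  exact (QuotientGroup.eq_one_iff g).2 (Filter.Eventually.mono
    ((QuotientGroup.eq_one_iff (piMap φ g)).1 hg) fun i k => (map_eq_one_iff _ (h i)).1 k)

end

theorem mul_emb (hX : IsQV X) (hY : IsQV Y) (f : G →* H) (hf : Injective f) (h : mul X Y H) :
    mul X Y G := by
  obtain ⟨K, _, a, φ, b⟩ := h.ex
  exact mk_mul hY (φ.comp f) a (hX.embS b (f.comp (Subgroup.subtype _))
    (hf.comp Subtype.val_injective) fun g => g.2)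

theorem IsQV.mul (hX : IsQV X) (hY : IsQV Y) : IsQV (mul X Y) := by
  classical
  refine ⟨mk_mul hY (.id _) hY.1 hX.sing, fun G H _ _ e => mul_emb hX hY e.symm e.symm.injective,
    fun G _ K => mul_emb hX hY K.subtype Subtype.val_injective, fun I G _ h => ?_,
    fun I U G _ h => ?_⟩
  · choose H _ a φ b using fun i => (h i).ex
    refine mk_mul hY (piMap φ) (hY.2.2.2.1 I H a) (hX.emb (MonoidHom.mk'
      (fun g i => (⟨g.1 i, congrFun g.2 i⟩ : (φ i).ker)) fun _ _ => rfl) (fun x y e => ?_)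
      (hX.2.2.2.1 I _ b))
    exact Subtype.ext (funext fun i => congrArg Subtype.val (congrFun e i))
  · choose H _ a φ b using fun i => (h i).ex
    refine mk_mul hY (umap U φ) (hY.2.2.2.2 I U H a) (hX.embS (hX.2.1 _ _ (MonoidHom.ofInjective
      (umap_inj U (fun i => (φ i).ker.subtype) fun _ => Subtype.val_injective))
      (hX.2.2.2.2 I U _ b)) (Subgroup.subtype _) Subtype.val_injective ?_)
    rintro ⟨g, hg⟩
    obtain ⟨g, rfl⟩ := QuotientGroup.mk_surjective g
    refine ⟨QuotientGroup.mk fun i => if h : φ i (g i) = 1 then ⟨g i, h⟩ else 1,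
      QuotientGroup.eq.2 (Filter.Eventually.mono
        ((QuotientGroup.eq_one_iff (piMap φ g)).1 hg) fun i k => ?_)⟩
    have k : φ i (g i) = 1 := k
    simp [piMap, k]

theorem cls_ext (h1 : ∀ (G : Type) [Group G], X G → Y G) (h2 : ∀ (G : Type) [Group G], Y G → X G) :
    X = Y := funext fun G => funext fun _ => propext ⟨h1 G, h2 G⟩

theorem mul_assoc' (hX : IsQV X) (hY : IsQV Y) (hZ : IsQV Z) :
    mul (mul X Y) Z = mul X (mul Y Z) := by
  refine cls_ext (fun G _ h => ?_) fun G _ h => ?_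
  · obtain ⟨K, _, a, f, b⟩ := h.ex
    obtain ⟨H, _, c, φ, d⟩ := b.ex
    obtain ⟨-, κ, -, -, k⟩ := KK f
    exact mk_mul (hY.mul hZ) ((map φ).comp κ) (wr_mem hY hZ c a) (hX.base d
      (κ.comp (Subgroup.subtype _)) (k.comp Subtype.val_injective)
      (fun g => congrArg Wr.right g.2) fun g x => congrFun (congrArg Wr.left g.2) x)
  · obtain ⟨H, _, a, f, b⟩ := h.ex
    obtain ⟨K, _, c, φ, d⟩ := a.ex
    refine mk_mul hZ (φ.comp f) c (mk_mul hY ((f.comp (Subgroup.subtype _)).codRestrict φ.ker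
      fun g => g.2) d (hX.embS b ((Subgroup.subtype _).comp (Subgroup.subtype _))
      (Subtype.val_injective.comp Subtype.val_injective) fun g => congrArg Subtype.val g.2))

theorem triv_qv : IsQV triv :=
  ⟨inferInstanceAs (Subsingleton PUnit), fun _ _ _ _ e (_ : Subsingleton _) =>
    e.symm.injective.subsingleton, fun _ _ K (_ : Subsingleton _) =>
    inferInstanceAs (Subsingleton K), fun _ G _ (_ : ∀ i, Subsingleton (G i)) =>
    inferInstanceAs (Subsingleton (∀ i, G i)), fun _ _ G _ (_ : ∀ i, Subsingleton (G i)) =>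
    QuotientGroup.mk_surjective.subsingleton⟩

theorem le_mul_left (hX : IsQV X) (hY : IsQV Y) (h : X G) : mul X Y G :=
  mk_mul hY (1 : G →* PUnit) hY.1 (hX.2.2.1 _ _ h)

theorem le_mul_right (hX : IsQV X) (hY : IsQV Y) (h : Y G) : mul X Y G :=
  mk_mul hY (.id G) h (hX.ofRes fun g _ => Subtype.ext g.2)

theorem mul_triv (hX : IsQV X) : mul X triv = X :=
  cls_ext (fun G _ h => by
    obtain ⟨H, _, (a : Subsingleton H), f, b⟩ := h.ex
    exact hX.embS b (.id G) injective_id fun _ => Subsingleton.elim _ _)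
    fun _ _ => le_mul_left hX triv_qv

theorem triv_mul (hX : IsQV X) : mul triv X = X :=
  cls_ext (fun G _ h => by
    obtain ⟨H, _, a, f, (b : Subsingleton _)⟩ := h.ex
    exact hX.emb f ((injective_iff_map_eq_one _).2 fun g hg =>
      congrArg Subtype.val (b.elim ⟨g, hg⟩ 1)) a) fun _ _ => le_mul_right triv_qv hX

theorem law_mul (hX : res X (FreeGroup ℕ) ≠ ⊥) (hY : res Y (FreeGroup ℕ) ≠ ⊥) :
    res (mul X Y) (FreeGroup ℕ) ≠ ⊥ := by
  obtain ⟨⟨u, hu⟩, u1⟩ := Subgroup.ne_bot_iff_exists_ne_one.1 hX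
  obtain ⟨r, hr, k⟩ := lemK _ hY
  choose φ hφ using fun n : ℕ => k (FreeGroup ℕ) (.of n)
  let σ : FreeGroup ℕ →* FreeGroup (ℕ × ℕ) :=
    FreeGroup.lift fun n => FreeGroup.map (fun j => (n, j)) r
  let e := FreeGroup.freeGroupCongr (Denumerable.eqv (ℕ × ℕ))
  refine Subgroup.ne_bot_iff_exists_ne_one.2 ⟨⟨e (σ u), fun G _ h χ => ?_⟩, fun h => u1 ?_⟩
  · obtain ⟨H, _, a, f, b⟩ := h.ex
    let χ' := χ.comp e.toMonoidHom
    have m : ∀ n, χ' (σ (.of n)) ∈ f.ker := fun n => by
      rw [FreeGroup.lift_apply_of]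
      exact hr H a ((f.comp χ').comp (FreeGroup.map fun j => (n, j)))
    have : f.ker.subtype.comp (FreeGroup.lift fun n => ⟨_, m n⟩) = χ'.comp σ :=
      FreeGroup.ext_hom _ _ fun n => by simp
    change (χ'.comp σ) u = 1
    rw [← this, MonoidHom.comp_apply, hu _ b, map_one]
  · have h : σ u = 1 := (map_eq_one_iff e e.injective).1 (congrArg Subtype.val h)
    let ψ := FreeGroup.lift fun p : ℕ × ℕ => φ p.1 (.of p.2)
    have a : ∀ n, ψ.comp (FreeGroup.map fun j => (n, j)) = φ n := fun n =>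
      FreeGroup.ext_hom _ _ fun j => by simp [ψ]
    have b : ψ.comp σ = diag := FreeGroup.ext_hom _ _ fun n => by
      rw [← hφ, ← a]; simp [σ]
    refine Subtype.ext (diag_inj (B := FreeGroup ℕ ⧸ res Y _) (Ω := FreeGroup ℕ ⧸ res Y _) ?_)
    rw [← b, MonoidHom.comp_apply, h, map_one, OneMemClass.coe_one, map_one]

end Pool.Agent.H89.QV
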