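import Pool.Agent.H89.QV3

set_option autoImplicit false

namespace Pool.Agent.H89.QV

open Function Wr

def PA (Ω : Type) := Ω × Ω

instance {B Ω : Type} [Group B] [MulAction B Ω] : MulAction (B × B) (PA Ω) where
  smul b p := (b.1 • p.1, b.2 • p.2)
  one_smul _ := Prod.ext (one_smul B _) (one_smul B _)
  mul_smul a b _ := Prod.ext (mul_smul a.1 b.1 _) (mul_smul a.2 b.2 _)

def CD (C D : Type) := C × D

instance {C D : Type} [Group C] [Group D] : MulAction (Wr C D D) (CD C D) where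
  smul w p := (w.left (w.right * p.2) * p.1, w.right * p.2)
  one_smul _ := Prod.ext (one_mul _) (one_mul _)
  mul_smul a b p := Prod.ext (show (a * b).left ((a * b).right * p.2) * p.1 =
    a.left (a.right * (b.right * p.2)) * (b.left (b.right * p.2) * p.1) by simp [mul_assoc])
    (mul_assoc _ _ _)

variable {X Y X' Y' : Cls} {B Ω : Type} [Group B] [MulAction B Ω]

def pm (x y : Ω) : PA Ω := (x, y)

theorem pa_smul (b : B × B) (x y : Ω) : b • pm x y = pm (b.1 • x) (b.2 • y) := rfl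

theorem keyS (hX : IsQV X) (P : Cls) (hP : P PUnit) {b : B} (hb : b ∈ res Y B) {ω : Ω}
    (hω : b • ω ≠ ω) (h : ∀ (A : Type) [Group A], P A → mul X Y (Wr A (B × B) (PA Ω))) {n : ℕ}
    (hn : LawLen X n) : ∃ m < n, LawLen P m := by
  classical
  obtain ⟨ι, L, rfl, L1, L2⟩ := hn
  refine shorten P hP (H := B × B) (Ω := PA Ω) (b, 1) (pm ω ω) (fun e => hω (congrArg Prod.fst e)) L L1
    fun A _ hA φ hφ => ?_
  let Rel : Wr A (B × B) (PA Ω) → Wr A (B × B) (PA Ω) → Prop := fun n g =>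
    n.right = g.right ∧ g.right.2 = 1 ∧ ∀ x, n.left (pm x ω) = g.left (pm x ω)
  have gen : ∀ j, ∃ n : res Y (Wr A (B × B) (PA Ω)), Rel n (φ (.of j)) := fun j => by
    let f : Wr A (B × B) (PA Ω) := ⟨fun p => if p.2 = ω then (φ (.of j)).left p else 1, 1⟩
    have s : inr (1, b) ∈ res Y (Wr A (B × B) (PA Ω)) := res_map (inr.comp (.inr B B)) hb
    refine ⟨⟨f * inr (1, b) * f⁻¹ * (inr (1, b))⁻¹ * inr (φ (.of j)).right,
      mul_mem (mul_mem (Subgroup.Normal.conj_mem inferInstance _ s f) (inv_mem s)) ?_⟩,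
      by simp [f, inr], ?_, fun x => ?_⟩
    · rcases hφ j with e | e <;> rw [e]
      · rw [map_one]; exact one_mem _
      · exact res_map (inr.comp (.inl B B)) hb
    · rcases hφ j with e | e <;> rw [e]; rfl
    · have : b⁻¹ • ω ≠ ω := fun e => hω (by rw [inv_smul_eq_iff] at e; exact e.symm)
      have e : f.left (pm x (b⁻¹ • ω)) = 1 := if_neg this
      have e' : f.left (pm x ω) = (φ (.of j)).left (pm x ω) := if_pos rfl
      have e'' : f.right = 1 := rfl
      simp [inr, e, e', e'', pa_smul]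
  choose n hn using gen
  have all : ∀ w, Rel (FreeGroup.lift n w) (φ w) := fun w => by
    induction w using FreeGroup.induction_on with
    | C1 => simp [Rel]
    | of j => rw [FreeGroup.lift_apply_of]; exact hn j
    | inv_of j k =>
      rw [map_inv, map_inv]
      refine ⟨congrArg Inv.inv k.1, by simp [k.2.1], fun x => ?_⟩
      rw [Subgroup.coe_inv, inv_left, inv_left, k.1, pa_smul, k.2.1, one_smul, k.2.2]
    | mul x y k l =>
      rw [map_mul, map_mul]
      refine ⟨by simp [k.1, l.1], by simp [k.2.1, l.2.1], fun x => ?_⟩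
      rw [Subgroup.coe_mul, mul_left, mul_left, k.1, k.2.2, pa_smul, Prod.snd_inv, k.2.1, inv_one,
        one_smul, l.2.2]
  have := all (.mk L)
  rw [L2 _ ((h A hA).res hX)] at this
  exact ⟨(this.2.2 ω).symm, this.1.symm⟩

noncomputable def ell (X : Cls) : ℕ := sInf {n | LawLen X n}

theorem ell_spec (h : res X (FreeGroup ℕ) ≠ ⊥) : LawLen X (ell X) := by
  classical
  obtain ⟨⟨u, hu⟩, u1⟩ := Subgroup.ne_bot_iff_exists_ne_one.1 h
  refine Nat.sInf_mem (s := {n | LawLen X n}) ⟨_, ℕ, u.toWord, rfl, ?_, ?_⟩ <;>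
    rw [FreeGroup.mk_toWord]
  · exact fun e => u1 (Subtype.ext e)
  · exact hu

theorem ell_lt (hX : IsQV X) (hY : IsQV Y) (l : res X (FreeGroup ℕ) ≠ ⊥) (hP : X' PUnit)
    (fa : ∀ b : B, (∀ ω : Ω, b • ω = ω) → b = 1) (hB : ¬Y B)
    (h : ∀ (A : Type) [Group A], X' A → mul X Y (Wr A (B × B) (PA Ω))) : ell X' < ell X := by
  by_contra k
  refine hB (hY.ofRes fun b hb => fa b fun ω => by_contra fun hω => ?_)
  obtain ⟨m, h1, h2⟩ := keyS hX X' hP hb hω h (ell_spec l)
  exact k ((Nat.sInf_le h2).trans_lt h1)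

theorem ell_lt' (hX : IsQV X) (hY : IsQV Y) (hX' : IsQV X') (hY' : IsQV Y')
    (l : res X (FreeGroup ℕ) ≠ ⊥) (e : mul X' Y' = mul X Y) (h1 : Y' B) (h2 : ¬Y B) :
    ell X' < ell X :=
  ell_lt (Ω := B) hX hY l hX'.1 (fun b k => by simpa using k 1) h2 fun A _ hA =>
    e ▸ wr_mem hX' hY' hA (hY'.prod h1 h1)

def Zc (Y Y' : Cls) : Cls := fun C _ =>
  ∃ (G : Type) (_ : Group G), Y G ∧ ∃ e : C →* G, Injective e ∧ ∀ c, e c ∈ res Y' G

section
variable (hX : IsQV X) (hY : IsQV Y) (hX' : IsQV X') (hY' : IsQV Y')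
  (lX : res X (FreeGroup ℕ) ≠ ⊥) (lY : res Y (FreeGroup ℕ) ≠ ⊥) (e : mul X Y = mul X' Y')
  (le : ∀ (G : Type) [Group G], Y' G → Y G)
include hX hY hX' hY' lY e le

theorem stepB {K G : Type} [Group K] [Group G] (hG : Y G) (f : K →* G) (hf : X f.ker)
    (hr : ∀ g, f g ∈ res Y' G) : X' K := by
  obtain ⟨r, r1, r2⟩ := lemK _ lY
  have r3 : r ∈ res Y' (FreeGroup ℕ) := fun H _ hH => r1 H (le H hH)
  have hQ : Y (FreeGroup ℕ ⧸ res Y _) := hY.quot
  generalize_proofs at r2 hQ
  set Q := FreeGroup ℕ ⧸ res Y _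
  obtain ⟨-, κ, k1, -, k2⟩ := KK f
  let j : Wr f.ker G G →* Wr f.ker (G × Q) (G × Q) :=
    MonoidHom.mk' (fun a => ⟨fun p => a.left p.1, (a.right, 1)⟩) fun _ _ => by ext <;> simp
  let j' : Wr (G → f.ker) Q Q →* Wr f.ker (G × Q) (G × Q) :=
    MonoidHom.mk' (fun a => ⟨fun p => a.left p.2 p.1, (1, a.right)⟩) fun _ _ => by ext <;> simp
  have ji : Injective j := fun a b h => Wr.ext
    (funext fun x => congrFun (congrArg Wr.left h) (x, 1)) (congrArg (fun w => w.right.1) h)
  refine hX'.embS (mul.res hX' (e ▸ wr_mem hX hY hf (hY.prod hG hQ))) (j.comp κ) (ji.comp k2)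
    fun g => ?_
  obtain ⟨φ, hφ⟩ := r2 _ (κ g).left
  have : j (κ g) = j' (φ r) * inr (f g, 1) := by
    rw [hφ]; ext <;> simp [j, j', diag, inr, k1]
  rw [MonoidHom.comp_apply, this]
  exact mul_mem (res_map (j'.comp φ) r3) (res_map (inr.comp (.inl G Q)) (hr g))

include lX

theorem stepD {C D : Type} [Group C] [Group D] (hC : Zc Y Y' C) (hD : Y' D) : Y (Wr C D D) := by
  by_contra k
  refine lt_irrefl _ (ell_lt (Ω := CD C D) hX hY lX hX.1 (fun b h => ?_) k fun A _ hA => ?_)
  · have a : b.right = 1 := (mul_one _).symm.trans (congrArg Prod.snd (h (1, 1)))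
    refine Wr.ext (funext fun x => ?_) a
    have c : b.left (b.right * x) * 1 = 1 := congrArg Prod.fst (h (1, x))
    simpa [a] using c
  obtain ⟨G, _, hG, ε, e1, e2⟩ := hC
  have hW : X' (Wr A (C × C) (C × C)) := by
    refine stepB hX hY hX' hY' lY e le (hY.prod hG hG) ((ε.prodMap ε).comp rightHom)
      (hX.base (hX.2.2.1 A ⊤ hA) (Subgroup.subtype _) Subtype.val_injective
        (fun g => (map_eq_one_iff (ε.prodMap ε) (e1.prodMap e1)).1 g.2) fun _ _ => trivial) fun g => ?_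
    rw [show (ε.prodMap ε).comp rightHom g = (ε g.right.1, 1) * (1, ε g.right.2) by
      simp [rightHom, Prod.ext_iff]]
    exact mul_mem (res_map (.inl G G) (e2 _)) (res_map (.inr G G) (e2 _))
  rw [e]
  refine mk_mul hY' ((MonoidHom.prodMap rightHom rightHom).comp rightHom) (hY'.prod hD hD)
    (hX'.emb (MonoidHom.mk' (fun k (q : D × D) => (⟨fun c => k.1.left ((c.1, q.1), (c.2, q.2)),
      (k.1.right.1.left q.1, k.1.right.2.left q.2)⟩ : Wr A (C × C) (C × C))) fun a b => ?_)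
      (fun a b h => Subtype.ext (Wr.ext (funext fun p => ?_) (Prod.ext ?_ ?_)))
      (hX'.2.2.2.1 _ _ fun _ => hW))
  · have a1 : a.1.right.1.right = 1 := congrArg Prod.fst a.2
    have a2 : a.1.right.2.right = 1 := congrArg Prod.snd a.2
    ext q c
    · change _ * b.1.left ((_ * _, _ * _), (_ * _, _ * _)) = _ * b.1.left _
      simp [a1, a2]
    · simp [a1]
    · simp [a2]
  · exact congrFun (congrArg Wr.left (congrFun h (p.1.2, p.2.2))) (p.1.1, p.2.1)
  · exact Wr.ext (funext fun x => congrArg (fun w => w.right.1) (congrFun h (x, 1)))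
      ((congrArg Prod.fst a.2).trans (congrArg Prod.fst b.2).symm)
  · exact Wr.ext (funext fun x => congrArg (fun w => w.right.2) (congrFun h (1, x)))
      ((congrArg Prod.snd a.2).trans (congrArg Prod.snd b.2).symm)

theorem equi : IsQV (Zc Y Y') ∧ X' = mul X (Zc Y Y') ∧ Y = mul (Zc Y Y') Y' := by
  obtain ⟨r, r1, r2⟩ := lemK (res Y' _) fun h => lY (eq_bot_iff.2 (h ▸ fun g hg H _ hH =>
    hg H (le H hH)))
  have D := fun (C : Type) [Group C] (h : Zc Y Y' C) =>
    stepD hX hY hX' hY' lX lY e le h (hY'.quot (G := FreeGroup ℕ))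
  have emb : ∀ (G H : Type) [Group G] [Group H] (f : G →* H), Injective f → Zc Y Y' H →
      Zc Y Y' G := fun G H _ _ f hf ⟨K, _, a, ε, b, c⟩ =>
    ⟨K, _, a, ε.comp f, b.comp hf, fun _ => c _⟩
  have hZ : IsQV (Zc Y Y') := by
    refine ⟨⟨PUnit, _, hY.1, .id _, injective_id, fun _ => one_mem _⟩,
      fun G H _ _ f => emb _ _ f.symm f.symm.injective,
      fun G _ K => emb _ _ K.subtype Subtype.val_injective, fun I G _ h => ⟨_, _,
        hY.2.2.2.1 I _ fun i => D _ (h i), piMap fun _ => diag,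
        fun a b k => funext fun i => diag_inj (congrFun k i), fun c => ?_⟩,
      fun I U G _ h => ⟨_, _, hY.2.2.2.2 I U _ fun i => D _ (h i), umap U fun _ => diag,
        umap_inj U _ fun _ => diag_inj, fun c => ?_⟩⟩
    · choose φ hφ using fun i => r2 (G i) (c i)
      exact (funext hφ : Pi.monoidHom φ r = piMap (fun _ => diag) c) ▸ res_map _ r1
    · obtain ⟨c, rfl⟩ := QuotientGroup.mk_surjective c
      choose φ hφ using fun i => r2 (G i) (c i)
      exact res_map (QuotientGroup.mk' _)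
        ((funext hφ : Pi.monoidHom φ r = piMap (fun _ => diag) c) ▸ res_map _ r1)
  have self : ∀ (G : Type) [Group G], Y G → Zc Y Y' (res Y' G) := fun G _ h =>
    ⟨G, _, h, Subgroup.subtype _, Subtype.val_injective, fun c => c.2⟩
  refine ⟨hZ, cls_ext (fun A _ hA => ?_) fun K _ h => ?_, cls_ext (fun G _ h =>
    ⟨res Y' G, inferInstance, self G h, hY'.quot⟩) fun K _ h => ?_⟩
  · obtain ⟨G, _, hG, f, hf⟩ := mul.ex (e ▸ wr_mem (Ω := FreeGroup ℕ ⧸ res Y' _) hX' hY' hA
      (hY'.quot (G := FreeGroup ℕ)) : mul X Y _)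
    refine mk_mul hZ ((f.comp diag).codRestrict (res Y' G) fun a => ?_) (self G hG)
      (hX.embS hf (diag.comp (Subgroup.subtype _)) (diag_inj.comp Subtype.val_injective)
        fun g => congrArg Subtype.val g.2)
    obtain ⟨φ, hφ⟩ := r2 A a
    exact res_map f (hφ ▸ res_map φ r1)
  · obtain ⟨C, _, ⟨G, _, hG, ε, e1, e2⟩, f, hf⟩ := h.ex
    exact stepB hX hY hX' hY' lY e le hG (ε.comp f) (hX.embS hf (Subgroup.subtype _)
      Subtype.val_injective fun g => (map_eq_one_iff _ e1).1 g.2) fun g => e2 _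
  · obtain ⟨Q, _, hQ, f, hf⟩ := h.ex
    obtain ⟨-, κ, -, -, k⟩ := KK f
    exact hY.emb κ k (stepD hX hY hX' hY' lX lY e le hf hQ)

end

theorem free_of {M : Type*} [Monoid M] (l : M → ℕ) (hl : ∀ x y : M, y ≠ 1 → l x < l (x * y))
    (eq : ∀ x y x' y' : M, x * y = x' * y' →
      (∃ z, x' = x * z ∧ y = z * y') ∨ ∃ z, x = x' * z ∧ y' = z * y) :
    ∃ S : Set M, 1 ∉ S ∧ ∀ x, ∃! L : List M, (∀ y ∈ L, y ∈ S) ∧ L.prod = x := by
  have u : ∀ x y : M, x * y = 1 → x = 1 := fun x y h => by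
    by_contra k
    by_cases y1 : y = 1
    · exact k (by simpa [y1] using h)
    · have a := hl x y y1
      have b := hl 1 x k
      rw [h] at a; rw [one_mul] at b; omega
  refine ⟨{p | p ≠ 1 ∧ ∀ a b, p = a * b → a = 1 ∨ b = 1}, fun h => h.1 rfl, fun x =>
    existsUnique_of_exists_of_unique ?_ ?_⟩
  · induction h : l x using Nat.strong_induction_on generalizing x with
    | _ n ih =>
      by_cases x1 : x = 1
      · exact ⟨[], by simp, x1.symm⟩
      have : ∀ k y p, x = y * p → p ≠ 1 → l x - l y = k → ∃ y p, x = y * p ∧ p ≠ 1 ∧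
          ∀ a b, p = a * b → a = 1 ∨ b = 1 := by
        intro k
        induction k using Nat.strong_induction_on with
        | _ k ik =>
          intro y p e p1 hk
          by_cases i : ∀ a b, p = a * b → a = 1 ∨ b = 1
          · exact ⟨y, p, e, p1, i⟩
          push Not at i
          obtain ⟨a, b, rfl, a1, b1⟩ := i
          have h1 := hl y a a1
          have h2 := hl (y * a) b b1
          rw [mul_assoc, ← e] at h2
          exact ik _ (by omega) (y * a) b (by rw [e, mul_assoc]) b1 rfl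
      obtain ⟨y, p, rfl, p1, p2⟩ := this _ 1 x (one_mul x).symm x1 rfl
      obtain ⟨L, L1, rfl⟩ := ih _ (h ▸ hl y p p1) y rfl
      refine ⟨L ++ [p], fun z hz => ?_, by simp⟩
      rcases List.mem_append.1 hz with hz | hz
      · exact L1 z hz
      · exact List.mem_singleton.1 hz ▸ ⟨p1, p2⟩
  · rintro L L' ⟨h, rfl⟩ ⟨h', e⟩
    induction L generalizing L' with
    | nil =>
      obtain _ | ⟨q, L'⟩ := L'
      · rfl
      · exact absurd (u _ _ (List.prod_cons.symm.trans e)) (h' q (by simp)).1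
    | cons p L ih =>
      obtain _ | ⟨q, L'⟩ := L'
      · exact absurd (u _ _ (List.prod_cons.symm.trans e.symm)) (h p (by simp)).1
      rw [List.prod_cons, List.prod_cons] at e
      have hp := h p (by simp)
      have hq := h' q (by simp)
      have : p = q ∧ L'.prod = L.prod := by
        rcases eq _ _ _ _ e with ⟨z, a, b⟩ | ⟨z, a, b⟩
        · obtain rfl := (hp.2 _ _ a).resolve_left hq.1
          exact ⟨by rw [a, mul_one], by rw [b, one_mul]⟩
        · obtain rfl := (hq.2 _ _ a).resolve_left hp.1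
          exact ⟨by rw [a, mul_one], by rw [b, one_mul]⟩
      rw [this.1, ih L' (fun y hy => h y (by simp [hy])) (fun y hy => h' y (by simp [hy])) this.2]

end Pool.Agent.H89.QV
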