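import Pool.Agent.H89.QV4

set_option autoImplicit false

namespace Pool.Agent.H89.QV

open Function Wr Filter

theorem lift_comp {ι G H : Type} [Group G] [Group H] (f : G →* H) (g : ι → G) (w : FreeGroup ι) :
    FreeGroup.lift (fun i => f (g i)) w = f (FreeGroup.lift g w) :=
  DFunLike.congr_fun (FreeGroup.ext_hom (FreeGroup.lift fun i => f (g i))
    (f.comp (FreeGroup.lift g)) fun _ => by simp) w

theorem malcev (X : Cls) : (∃ T : Set (List (FreeGroup ℕ) × FreeGroup ℕ),
    ∀ (G : Type) [Group G], X G ↔ ∀ q ∈ T, ∀ g : ℕ → G,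
      (∀ u ∈ q.1, FreeGroup.lift g u = 1) → FreeGroup.lift g q.2 = 1) ↔ IsQV X := by
  constructor
  · rintro ⟨T, h⟩
    have emb : ∀ (G H : Type) [Group G] [Group H] (f : G →* H), Injective f → X H → X G :=
      fun G H _ _ f hf k => (h G).2 fun q hq g hg => (map_eq_one_iff f hf).1 (by
        rw [← lift_comp]
        exact (h H).1 k q hq _ fun u hu => by rw [lift_comp, hg u hu, map_one])
    refine ⟨(h _).2 fun _ _ _ _ => rfl, fun G H _ _ f => emb _ _ f.symm f.symm.injective,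
      fun G _ K => emb _ _ K.subtype Subtype.val_injective,
      fun I G _ k => (h _).2 fun q hq g hg => funext fun i => ?_,
      fun I U G _ k => (h _).2 fun q hq g hg => ?_⟩
    · exact (lift_comp (Pi.evalMonoidHom G i) g _).symm.trans ((h _).1 (k i) q hq _ fun u hu =>
        (lift_comp (Pi.evalMonoidHom G i) g _).trans (by rw [hg u hu, map_one]))
    · choose g' hg' using fun n => QuotientGroup.mk'_surjective _ (g n)
      obtain rfl := funext hg'
      simp only [lift_comp] at hg ⊢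
      simp only [QuotientGroup.mk'_apply, QuotientGroup.eq_one_iff] at hg ⊢
      exact ((eventually_all_finite (List.finite_toSet q.1)).2 hg).mono fun i hi =>
        (lift_comp (Pi.evalMonoidHom G i) g' _).symm.trans ((h _).1 (k i) q hq _ fun u hu =>
          (lift_comp (Pi.evalMonoidHom G i) g' _).trans (hi u hu))
  · intro hX
    classical
    refine ⟨{q | ∀ (G : Type) [Group G], X G → ∀ g : ℕ → G,
      (∀ u ∈ q.1, FreeGroup.lift g u = 1) → FreeGroup.lift g q.2 = 1}, fun G _ =>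
      ⟨fun k q hq => hq G k, fun k => hX.ofRes fun g hg => by_contra fun g1 => ?_⟩⟩
    have : ∀ S : Finset (G × G), ∃ (H : Type) (_ : Group H), X H ∧ ∃ f : G → H,
        (∀ p ∈ S, f (p.1 * p.2) = f p.1 * f p.2) ∧ f g ≠ 1 := by
      intro S
      obtain ⟨d, hd⟩ := Set.countable_iff_exists_subset_range.1 (Finset.countable_toSet
        (insert g (S.image Prod.fst ∪ S.image Prod.snd ∪ S.image fun p => p.1 * p.2)))
      have c : ∀ a ∈ _, d (invFun d a) = a := fun a ha => invFun_eq (hd ha)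
      by_contra! n
      refine g1 ((c g (by simp)).symm.trans (FreeGroup.lift_apply_of.symm.trans (k
        (S.toList.map fun p => (FreeGroup.of (invFun d (p.1 * p.2)))⁻¹ *
          (.of (invFun d p.1) * .of (invFun d p.2)), .of (invFun d g))
        (fun H _ hH h hh => FreeGroup.lift_apply_of.trans
          (n H _ hH (fun a => h (invFun d a)) fun p hp => ?_)) d fun u hu => ?_)))
      · simpa [inv_mul_eq_one] using hh _ (List.mem_map_of_mem (Finset.mem_toList.2 hp))
      · obtain ⟨p, hp, rfl⟩ := List.mem_map.1 hu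
        have hp := Finset.mem_toList.1 hp
        simp only [map_mul, map_inv, FreeGroup.lift_apply_of]
        rw [c, c, c, inv_mul_cancel] <;>
          simp only [Finset.coe_insert, Finset.coe_union, Finset.coe_image, Set.mem_insert_iff,
            Set.mem_union]
        · exact .inr (.inl (.inr ⟨p, hp, rfl⟩))
        · exact .inr (.inl (.inl ⟨p, hp, rfl⟩))
        · exact .inr (.inr ⟨p, hp, rfl⟩)
    choose H _ hH f f1 f2 using this
    let U : Ultrafilter (Finset (G × G)) := Ultrafilter.of atTop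
    have := hg _ (hX.2.2.2.2 _ U H hH) (MonoidHom.mk' (fun a => QuotientGroup.mk fun S => f S a)
      fun a b => QuotientGroup.eq.2 (Eventually.mono (Ultrafilter.of_le atTop
        (eventually_ge_atTop {(a, b)})) fun S hS =>
          inv_mul_eq_one.2 (f1 S (a, b) (hS (Finset.mem_singleton_self _)))))
    obtain ⟨S, hS⟩ := Eventually.exists ((QuotientGroup.eq_one_iff _).1 this)
    exact f2 S hS

theorem law_iff (X : Cls) : (∃ (n : ℕ) (w : FreeGroup (Fin n)), w ≠ 1 ∧
    ∀ (G : Type) [Group G], X G → ∀ g : Fin n → G, FreeGroup.lift g w = 1) ↔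
    res X (FreeGroup ℕ) ≠ ⊥ := by
  rw [Subgroup.ne_bot_iff_exists_ne_one]
  constructor
  · rintro ⟨n, w, h1, h2⟩
    refine ⟨⟨FreeGroup.map Fin.val w, fun G _ hG φ => ?_⟩, fun e => h1 (FreeGroup.map_injective
      Fin.val_injective ((congrArg Subtype.val e).trans (map_one _).symm))⟩
    rw [← h2 G hG fun i => φ (.of i)]
    exact DFunLike.congr_fun (FreeGroup.ext_hom (φ.comp (FreeGroup.map Fin.val)) _
      fun _ => by simp) w
  · rintro ⟨⟨w, h1⟩, h2⟩
    obtain ⟨L, rfl⟩ := Quot.exists_rep w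
    refine ⟨(L.map Prod.fst).sum + 1, FreeGroup.map (Fin.ofNat _) (.mk L), fun e => h2
      (Subtype.ext ?_), fun G _ hG g => h1 G hG ((FreeGroup.lift g).comp (FreeGroup.map _))⟩
    have := congrArg (FreeGroup.map Fin.val) e
    rw [map_one, FreeGroup.map.mk, FreeGroup.map.mk, List.map_map] at this
    rw [List.map_congr_left (g := id), List.map_id] at this
    · exact this
    exact fun a ha => Prod.ext (Nat.mod_eq_of_lt (Nat.lt_succ_of_le
      (List.single_le_sum (fun _ _ => Nat.zero_le _) _ (List.mem_map_of_mem ha)))) rfl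

abbrev SS := {X : Cls // IsQV X ∧ res X (FreeGroup ℕ) ≠ ⊥}

theorem triv_law : res triv (FreeGroup ℕ) ≠ ⊥ := Subgroup.ne_bot_iff_exists_ne_one.2
  ⟨⟨.of 0, fun _ _ (_ : Subsingleton _) _ => Subsingleton.elim _ _⟩,
    fun e => FreeGroup.of_ne_one 0 (congrArg Subtype.val e)⟩

instance : Monoid SS where
  mul X Y := ⟨mul X.1 Y.1, X.2.1.mul Y.2.1, law_mul X.2.2 Y.2.2⟩
  one := ⟨triv, triv_qv, triv_law⟩
  mul_assoc X Y Z := Subtype.ext (mul_assoc' X.2.1 Y.2.1 Z.2.1)
  one_mul X := Subtype.ext (triv_mul X.2.1)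
  mul_one X := Subtype.ext (mul_triv X.2.1)

theorem free_SS : ∃ S : Set SS, 1 ∉ S ∧ ∀ x, ∃! L : List SS, (∀ y ∈ L, y ∈ S) ∧ L.prod = x := by
  have half : ∀ x y x' y' : SS, x * y = x' * y' → (∀ (G : Type) [Group G], y'.1 G → y.1 G) →
      ∃ z, x' = x * z ∧ y = z * y' := fun x y x' y' e le => by
    obtain ⟨a, b, c⟩ := equi x.2.1 y.2.1 x'.2.1 y'.2.1 x.2.2 y.2.2 (congrArg Subtype.val e) le
    exact ⟨⟨_, a, fun h => y.2.2 (eq_bot_iff.2 (le_of_le_of_eq (fun g hg => by
      intro H _ hH; exact hg H (by rw [c]; exact le_mul_left a y'.2.1 hH)) h))⟩, Subtype.ext b, Subtype.ext c⟩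
  refine free_of (fun X => ell X.1) (fun x y h => ?_) fun x y x' y' e => ?_
  · obtain ⟨B, _, hB, b⟩ : ∃ (B : Type) (_ : Group B), y.1 B ∧ ¬triv B := by
      by_contra! k
      exact h (Subtype.ext (cls_ext (fun G _ => k G _) fun G _ (_ : Subsingleton G) => y.2.1.sing))
    exact ell_lt' (x * y).2.1 triv_qv x.2.1 y.2.1 (x * y).2.2 (mul_triv (x * y).2.1).symm hB b
  · by_cases le : ∀ (G : Type) [Group G], y'.1 G → y.1 G
    · exact .inl (half _ _ _ _ e le)
    refine .inr (half _ _ _ _ e.symm fun G _ h => by_contra fun k => le fun H _ h' =>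
      by_contra fun k' => lt_asymm (show ell x'.1 < ell x.1 from ?_) ?_)
    · exact ell_lt' x.2.1 y.2.1 x'.2.1 y'.2.1 x.2.2 (congrArg Subtype.val e).symm h' k'
    · exact ell_lt' x'.2.1 y'.2.1 x.2.1 y.2.1 x'.2.2 (congrArg Subtype.val e) h k

theorem free_main : ∃ B : Set Cls, (∀ X ∈ B, (IsQV X ∧ res X (FreeGroup ℕ) ≠ ⊥) ∧ X ≠ triv) ∧
    ∀ X, IsQV X ∧ res X (FreeGroup ℕ) ≠ ⊥ →
      ∃! L : List Cls, (∀ Y ∈ L, Y ∈ B) ∧ L.foldr mul triv = X := by
  obtain ⟨S, s1, s2⟩ := free_SS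
  have pr : ∀ L : List SS, (L.map Subtype.val).foldr mul triv = L.prod.1 := fun L => by
    induction L with
    | nil => rfl
    | cons a L ih => rw [List.map_cons, List.foldr_cons, ih, List.prod_cons]; rfl
  refine ⟨Subtype.val '' S, ?_, fun X hX => ?_⟩
  · rintro _ ⟨x, hx, rfl⟩
    exact ⟨x.2, fun e => s1 ((Subtype.ext e : x = 1) ▸ hx)⟩
  obtain ⟨L, ⟨l1, l2⟩, l3⟩ := s2 ⟨X, hX⟩
  refine ⟨L.map Subtype.val, ⟨fun Y hY => ?_, by rw [pr, l2]⟩, fun M ⟨m1, m2⟩ => ?_⟩
  · obtain ⟨y, hy, rfl⟩ := List.mem_map.1 hY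
    exact ⟨y, l1 y hy, rfl⟩
  · have : ∀ M : List Cls, (∀ Y ∈ M, Y ∈ Subtype.val '' S) →
        ∃ M' : List SS, (∀ y ∈ M', y ∈ S) ∧ M'.map Subtype.val = M := fun M m1 => by
      induction M with
      | nil => exact ⟨[], by simp, rfl⟩
      | cons a M ih =>
        obtain ⟨M', h1, rfl⟩ := ih fun Y hY => m1 Y (List.mem_cons_of_mem _ hY)
        obtain ⟨y, hy, rfl⟩ := m1 a List.mem_cons_self
        exact ⟨y :: M', List.forall_mem_cons.2 ⟨hy, h1⟩, rfl⟩
    obtain ⟨M, hM, rfl⟩ := this M m1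
    rw [l3 M ⟨hM, Subtype.ext ((pr M).symm.trans m2)⟩]

end Pool.Agent.H89.QV
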