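import Mathlib

set_option autoImplicit false

namespace Pool.Agent.H89.Quat

open Matrix Quaternion Finset

variable {ι : Type*} [Fintype ι]

noncomputable def R (v : ι → ℍ[ℝ]) (q : ℍ[ℝ]) : ι → ℍ[ℝ] := fun i => v i * q

lemma mv_R {κ : Type*} (A : Matrix κ ι ℍ[ℝ]) (v : ι → ℍ[ℝ]) (q : ℍ[ℝ]) :
    A *ᵥ R v q = fun i => (A *ᵥ v) i * q := by
  ext1 i; simp [R, mulVec, dotProduct, sum_mul, mul_assoc]

lemma dot_R (u v : ι → ℍ[ℝ]) (q : ℍ[ℝ]) : u ⬝ᵥ R v q = u ⬝ᵥ v * q := by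
  simp [R, dotProduct, sum_mul, mul_assoc]

lemma R_dot (u v : ι → ℍ[ℝ]) (q : ℍ[ℝ]) : star (R u q) ⬝ᵥ v = star q * star u ⬝ᵥ v := by
  simp [R, dotProduct, mul_sum, mul_assoc]

omit [Fintype ι] in
lemma RR (v : ι → ℍ[ℝ]) (p q : ℍ[ℝ]) : R (R v p) q = R v (p * q) := by ext1 i; simp [R, mul_assoc]

noncomputable def f (K : Matrix ι ι ℍ[ℝ]) (u w : ι → ℍ[ℝ]) : ℍ[ℝ] := star u ⬝ᵥ K *ᵥ w

lemma f_R (K : Matrix ι ι ℍ[ℝ]) (u w : ι → ℍ[ℝ]) (p q : ℍ[ℝ]) :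
    f K (R u p) (R w q) = star p * f K u w * q := by
  rw [f, mv_R, R_dot, mul_assoc]; congr 1; exact dot_R _ _ _

lemma f_adj (K C : Matrix ι ι ℍ[ℝ]) (u w : ι → ℍ[ℝ]) : f K (C *ᵥ u) w = f (Cᴴ * K) u w := by
  rw [f, f, star_mulVec, ← dotProduct_mulVec, mulVec_mulVec]

lemma f_star (K : Matrix ι ι ℍ[ℝ]) (u w : ι → ℍ[ℝ]) : star (f K u w) = f Kᴴ w u := by
  rw [f, ← star_dotProduct, star_mulVec, ← dotProduct_mulVec, f]

omit [Fintype ι] in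
lemma ss (r : ℝ) (u : ι → ℍ[ℝ]) : star (r • u) = r • star u := by ext1 i; simp

def mu (ω : ℝ) : ℍ[ℝ] := ⟨0, ω, 0, 0⟩

theorem neutral [DecidableEq ι] (K C : Matrix ι ι ℍ[ℝ]) (hK : Cᴴ * K = -(K * C)) (ω : ℝ) (hω : ω ≠ 0)
    (N : ℕ) (v w : ι → ℍ[ℝ]) (v0 : v ≠ 0) (w0 : w ≠ 0) (hv : (C ^ 2 + (ω ^ 2) • 1) ^ N *ᵥ v = 0)
    (hw : (C ^ 2 + (ω ^ 2) • 1) ^ N *ᵥ w = 0) (h1 : (f K v v).re ≤ 0) (h2 : 0 ≤ (f K w w).re) :
    ∃ z ≠ 0, C *ᵥ z = R z (mu ω) ∧ (f K z z).re = 0 := by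
  by_contra hno
  have no : ∀ z, C *ᵥ z = R z (mu ω) → (f K z z).re = 0 → z = 0 := fun z a b => by
    by_contra c; exact hno ⟨z, c, a, b⟩
  set P : Matrix ι ι ℍ[ℝ] := C ^ 2 + (ω ^ 2) • 1 with hP
  have eP : ∀ u, P *ᵥ u = C *ᵥ C *ᵥ u + (ω ^ 2) • u := fun u => by
    rw [hP, add_mulVec, sq C, smul_mulVec, one_mulVec, mulVec_mulVec]
  have sk : ∀ u w, f K (C *ᵥ u) w = -f K u (C *ᵥ w) := fun u w => by
    rw [f_adj, hK]; simp [f, neg_mulVec]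
  have sP : ∀ u w, f K (P *ᵥ u) w = f K u (P *ᵥ w) := fun u w => by
    have := sk (C *ᵥ u) w
    rw [sk u, neg_neg] at this
    simp only [f, eP, star_add, add_dotProduct, mulVec_add, dotProduct_add, ss, mulVec_smul,
      smul_dotProduct, dotProduct_smul] at this ⊢
    rw [this]
  let J : ℍ[ℝ] := ⟨0, 0, 1, 0⟩
  let a : (ι → ℍ[ℝ]) → ι → ℍ[ℝ] := fun u => (ω ^ 2) • u - R (C *ᵥ u) (mu ω)
  let b : (ι → ℍ[ℝ]) → ι → ℍ[ℝ] := fun u => R ((ω ^ 2) • u + R (C *ᵥ u) (mu ω)) J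
  have cP : ∀ u, P *ᵥ C *ᵥ u = C *ᵥ P *ᵥ u := fun u => by simp [eP, mulVec_add, mulVec_smul]
  have aP : ∀ u, P *ᵥ a u = a (P *ᵥ u) := fun u => by
    simp only [a, mulVec_sub, mulVec_smul, mv_R, cP]; rfl
  have bP : ∀ u, P *ᵥ b u = b (P *ᵥ u) := fun u => by
    simp only [b, mulVec_add, mulVec_smul, mv_R, cP]; rfl
  have a0 : a 0 = 0 := by ext1; simp [a, R]
  have b0 : b 0 = 0 := by ext1; simp [b, R]
  have ab : ∀ u, a u = 0 → b u = 0 → u = 0 := fun u h1 h2 => by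
    ext1 i
    have k1 := congrFun h1 i
    have k2 := congrFun h2 i
    have : J ≠ 0 := fun h => by simpa [J] using congrArg QuaternionAlgebra.imJ h
    simp only [a, b, R, Pi.sub_apply, Pi.add_apply, Pi.smul_apply, Pi.zero_apply, mul_eq_zero, this,
      or_false, sub_eq_zero] at k1 k2
    rw [← k1, ← add_smul, smul_eq_zero] at k2
    exact k2.resolve_left (by positivity)
  have CC : ∀ u, P *ᵥ u = 0 → C *ᵥ C *ᵥ u = -(ω ^ 2) • u := fun u h => by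
    rw [eP] at h; rw [neg_smul]; exact eq_neg_of_add_eq_zero_left h
  have ea : ∀ u, P *ᵥ u = 0 → C *ᵥ a u = R (a u) (mu ω) := fun u h => by
    simp only [a, mulVec_sub, mulVec_smul, mv_R, CC u h]
    ext i <;> simp [R, mu] <;> ring
  have eb : ∀ u, P *ᵥ u = 0 → C *ᵥ b u = R (b u) (mu ω) := fun u h => by
    simp only [b, mulVec_add, mulVec_smul, mv_R, CC u h]
    ext i <;> simp [R, mu, J] <;> ring
  have s1 : ∀ u, P *ᵥ P *ᵥ u = 0 → P *ᵥ u = 0 := fun u h =>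
    ab _ (no _ (ea _ h) (by rw [← aP, sP, aP, aP, h, a0]; simp [f]))
      (no _ (eb _ h) (by rw [← bP, sP, bP, bP, h, b0]; simp [f]))
  have s2 : ∀ (N : ℕ) u, P ^ N *ᵥ u = 0 → P *ᵥ u = 0 := fun N => by
    induction N with
    | zero => exact fun u h => by simp_all
    | succ N ih => exact fun u h => s1 u (ih _ (by rwa [mulVec_mulVec, ← pow_succ]))
  have s3 : ∀ u, P *ᵥ u = 0 → (f K (a u) (a u)).re + (f K (b u) (b u)).re =
      4 * ω ^ 4 * (f K u u).re := fun u h => by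
    have k1 := f_R K (C *ᵥ u) (C *ᵥ u) (mu ω) (mu ω)
    rw [sk, CC u h] at k1
    have k2 := congrArg QuaternionAlgebra.re k1
    simp only [a, b, f_R]
    generalize R (C *ᵥ u) (mu ω) = y at k2 ⊢
    simp [f, ss, mulVec_add, mulVec_sub, mulVec_smul, mulVec_neg, J, mu] at k2 ⊢
    linear_combination 2 * k2
  have s4 : ∀ (σ : ℝ) u, u ≠ 0 → P *ᵥ u = 0 → σ * (f K u u).re ≤ 0 → σ ≠ 0 →
      ∃ z, C *ᵥ z = R z (mu ω) ∧ σ * (f K z z).re < 0 := fun σ u u0 h k σ0 => by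
    by_contra c
    push Not at c
    have k1 := c _ (ea u h)
    have k2 := c _ (eb u h)
    have k3 := congrArg (σ * ·) (s3 u h)
    have k4 : 4 * ω ^ 4 * (σ * (f K u u).re) ≤ 0 := mul_nonpos_of_nonneg_of_nonpos (by positivity) k
    exact u0 (ab u (no _ (ea u h) (mul_left_cancel₀ σ0 (by linarith)))
      (no _ (eb u h) (mul_left_cancel₀ σ0 (by linarith))))
  obtain ⟨x, ex, hx⟩ := s4 1 v v0 (s2 N v hv) (by linarith) one_ne_zero
  obtain ⟨y, ey, hy⟩ := s4 (-1) w w0 (s2 N w hw) (by linarith) (by norm_num)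
  have ct : Continuous fun t : ℝ => (f K ((1 - t) • x + t • y) ((1 - t) • x + t • y)).re := by
    simp [f, ss, mulVec_add, mulVec_smul]; fun_prop
  obtain ⟨t, -, ht⟩ := intermediate_value_Icc zero_le_one ct.continuousOn
    (show (0 : ℝ) ∈ Set.Icc _ _ by simp; constructor <;> linarith)
  have k := no _ (by
    rw [mulVec_add, mulVec_smul, mulVec_smul, ex, ey]; ext1; simp [R, add_mul]) ht
  have k1 := congrArg (fun u => (f K u u).re) (eq_neg_of_add_eq_zero_left k)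
  simp [f, ss, mulVec_smul, mulVec_neg] at k1 hx hy
  rcases eq_or_ne t 0 with rfl | t0
  · simp at k1; linarith
  · nlinarith [mul_pos (sq_pos_of_ne_zero t0) hy, mul_nonneg (sq_nonneg (1 - t)) (neg_pos.mpr hx).le]

theorem perturb (x : ι → ℍ[ℝ]) (x0 : x ≠ 0) (ω : ℝ) (hω : ω ≠ 0) (r : ℝ → ι → ℍ[ℝ]) (g : ℝ → ℍ[ℝ])
    (cr : Continuous r) (cg : Continuous g) (r0 : r 0 = 0) (g0 : (g 0).imI = 0)
    (e : ∀ δ, -(star x ⬝ᵥ r δ) = mu ω * g δ - g δ * (δ + mu ω)) (ε : ℝ) (hε : 0 < ε) :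
    ∃ (δ : ℝ) (H S : Matrix ι ι ℍ[ℝ]), δ ≠ 0 ∧ Hᴴ = H ∧ Sᴴ = -S ∧ (∀ a b, ‖H a b‖ < ε) ∧
      (∀ a b, ‖S a b‖ < ε) ∧ r δ + H *ᵥ x + R (S *ᵥ x) (δ + mu ω) = 0 := by
  obtain ⟨N, hN, eN⟩ : ∃ N : ℝ, N ≠ 0 ∧ star x ⬝ᵥ x = N := by
    refine ⟨∑ i, normSq (x i), fun h => x0 (funext fun i => normSq_eq_zero.mp
      ((sum_eq_zero_iff_of_nonneg fun i _ => normSq_nonneg).mp h i (mem_univ i))), ?_⟩
    simp only [dotProduct, Pi.star_apply, star_mul_self]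
    exact (map_sum (algebraMap ℝ ℍ[ℝ]) _ _).symm
  have l0 : ∀ δ : ℝ, (δ + mu ω : ℍ[ℝ]) ≠ 0 := fun δ h =>
    hω (by simpa [mu] using congrArg QuaternionAlgebra.imI h)
  let t : ℝ → ℍ[ℝ] := fun δ => -(star x ⬝ᵥ r δ) * (δ + mu ω : ℍ[ℝ])⁻¹
  let s : ℝ → ℍ[ℝ] := fun δ => (t δ).im - ((t δ).imI + (g δ).imI) • mu 1
  let h : ℝ → ι → ℍ[ℝ] := fun δ => -r δ - N⁻¹ • R x (s δ * (δ + mu ω))
  let H : ℝ → Matrix ι ι ℍ[ℝ] := fun δ => N⁻¹ • (vecMulVec (h δ) (star x) +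
    vecMulVec x (star (h δ))) - (N⁻¹ ^ 2 * (star x ⬝ᵥ h δ).re) • vecMulVec x (star x)
  let S : ℝ → Matrix ι ι ℍ[ℝ] := fun δ => (N⁻¹ ^ 2) • vecMulVec (R x (s δ)) (star x)
  have cl : Continuous fun δ : ℝ => (δ + mu ω : ℍ[ℝ]) := continuous_coe.add continuous_const
  have ct : Continuous t := (by fun_prop : Continuous fun δ => -(star x ⬝ᵥ r δ)).mul (cl.inv₀ l0)
  have cs : Continuous s := (continuous_im.comp ct).sub
    (((continuous_imI.comp ct).add (continuous_imI.comp cg)).smul continuous_const)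
  have ch : Continuous h := by unfold h R; fun_prop
  have s0 : s 0 = 0 := by simp [s, t, r0, g0]
  have h0 : h 0 = 0 := by ext1; simp [h, r0, s0, R]
  have cH : ∀ a b, Continuous fun δ => ‖H δ a b‖ := fun a b => by
    simp only [H, Matrix.sub_apply, Matrix.smul_apply, Matrix.add_apply, vecMulVec_apply,
      Pi.star_apply]
    have := continuous_re.comp (by fun_prop : Continuous fun δ => star x ⬝ᵥ h δ)
    exact ((by fun_prop : Continuous fun δ => N⁻¹ • (h δ a * star (x b) + x a * star (h δ b))).sub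
      ((continuous_const.mul this).smul continuous_const)).norm
  have cS : ∀ a b, Continuous fun δ => ‖S δ a b‖ := fun a b => by
    simp only [S, R, Matrix.smul_apply, vecMulVec_apply]
    fun_prop
  have ev : ∀ᶠ δ in nhds (0 : ℝ), (∀ a b, ‖H δ a b‖ < ε) ∧ ∀ a b, ‖S δ a b‖ < ε := by
    simp only [Filter.eventually_and, Filter.eventually_all]
    exact ⟨fun a b => (cH a b).continuousAt.eventually_lt_const (by simpa [H, h0] using hε),
      fun a b => (cS a b).continuousAt.eventually_lt_const (by simpa [S, s0, R, vecMulVec] using hε)⟩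
  obtain ⟨δ, ⟨k1, k2⟩, hδ⟩ := ((ev.filter_mono nhdsWithin_le_nhds).and
    (self_mem_nhdsWithin (a := (0 : ℝ)) (s := {0}ᶜ))).exists
  have ss' : star (s δ) = -s δ := by ext <;> simp [s, mu]
  have k3 : star x ⬝ᵥ h δ = (t δ - s δ) * (δ + mu ω) := by
    simp only [h, dotProduct_sub, dotProduct_neg, dotProduct_smul, dot_R, eN, t, sub_mul,
      inv_mul_cancel_right₀ (l0 δ), coe_mul_eq_smul, smul_smul, inv_mul_cancel₀ hN, one_smul]
  have k4 : t δ * (δ + mu ω) = mu ω * g δ - g δ * (δ + mu ω) := by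
    rw [← e, inv_mul_cancel_right₀ (l0 δ)]
  have k5 : star x ⬝ᵥ h δ = (star x ⬝ᵥ h δ).re := by
    have := congrArg QuaternionAlgebra.imI k4
    rw [k3]
    ext <;> simp [s, mu] at this ⊢
    linarith
  refine ⟨δ, H δ, S δ, hδ, ?_, ?_, k1, k2, ?_⟩
  · ext1 a b; simp [H, vecMulVec_apply, add_comm]
  · ext1 a b; simp [S, R, vecMulVec_apply, ss', mul_assoc]
  · have k6 : star (h δ) ⬝ᵥ x = (star x ⬝ᵥ h δ).re := by rw [star_dotProduct, k5]; simp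
    simp only [H, S, sub_mulVec, smul_mulVec, add_mulVec, vecMulVec_mulVec, eN, k6]
    ext1 i
    have : h δ i = -r δ i - N⁻¹ • (x i * (s δ * (δ + mu ω))) := rfl
    simp only [R, Pi.add_apply, Pi.sub_apply, Pi.smul_apply, MulOpposite.smul_eq_mul_unop,
      MulOpposite.unop_op, mul_coe_eq_smul, this, Pi.zero_apply, smul_mul_assoc, mul_assoc,
      mul_smul_comm]
    match_scalars <;> field_simp <;> ring

end Pool.Agent.H89.Quat
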