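import Mathlib

set_option autoImplicit false

namespace Pool.Agent.H89.RC

variable {B : Type*} [CStarAlgebra B]

def Bd (A : NonUnitalStarSubalgebra ℝ B) {ι : Type*} (a : ι → B) : Prop :=
  (∀ i, a i ∈ A) ∧ ∃ M : ℝ, ∀ i, ‖a i‖ ≤ M

section
variable {A : NonUnitalStarSubalgebra ℝ B} {ι : Type*} {a b : ι → B}

theorem Bd.add (ha : Bd A a) (hb : Bd A b) : Bd A (fun i => a i + b i) := by
  obtain ⟨h1, M, hM⟩ := ha
  obtain ⟨h2, N, hN⟩ := hb
  exact ⟨fun i => add_mem (h1 i) (h2 i), M + N,
    fun i => (norm_add_le _ _).trans (add_le_add (hM i) (hN i))⟩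

theorem Bd.smul (c : ℝ) (ha : Bd A a) : Bd A (fun i => c • a i) := by
  obtain ⟨h1, M, hM⟩ := ha
  refine ⟨fun i => SMulMemClass.smul_mem c (h1 i), ‖c‖ * M, fun i => ?_⟩
  rw [norm_smul]; exact mul_le_mul_of_nonneg_left (hM i) (norm_nonneg _)

theorem Bd.neg (ha : Bd A a) : Bd A (fun i => -a i) := by
  simpa using ha.smul (-1)

theorem Bd.sub (ha : Bd A a) (hb : Bd A b) : Bd A (fun i => a i - b i) := by
  simpa [sub_eq_add_neg] using ha.add hb.neg

theorem Bd.const {x : B} (hx : x ∈ A) : Bd A (fun _ : ι => x) := ⟨fun _ => hx, ‖x‖, fun _ => le_rfl⟩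

theorem Bd.star (ha : Bd A a) : Bd A (fun i => star (a i)) := by
  obtain ⟨h1, M, hM⟩ := ha
  exact ⟨fun i => star_mem (h1 i), M, fun i => by rw [norm_star]; exact hM i⟩

theorem Bd.lmul {m : B} (hm : m ∈ A) (ha : Bd A a) : Bd A (fun i => m * a i) := by
  obtain ⟨h1, M, hM⟩ := ha
  exact ⟨fun i => mul_mem hm (h1 i), ‖m‖ * M, fun i =>
    (norm_mul_le _ _).trans (mul_le_mul_of_nonneg_left (hM i) (norm_nonneg _))⟩

theorem Bd.rmul {m : B} (hm : m ∈ A) (ha : Bd A a) : Bd A (fun i => a i * m) := by
  obtain ⟨h1, M, hM⟩ := ha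
  exact ⟨fun i => mul_mem (h1 i) hm, M * ‖m‖, fun i =>
    (norm_mul_le _ _).trans (mul_le_mul_of_nonneg_right (hM i) (norm_nonneg _))⟩
end

/-- An abstract limit operation on bounded families. -/
structure LimStr (A : NonUnitalStarSubalgebra ℝ B) (ι : Type*) where
  L : (ι → B) → B
  mem : ∀ a, Bd A a → L a ∈ A
  add : ∀ a b, Bd A a → Bd A b → L (fun i => a i + b i) = L a + L b
  smul : ∀ (c : ℝ) a, Bd A a → L (fun i => c • a i) = c • L a
  const : ∀ x ∈ A, L (fun _ => x) = x
  norm : ∀ a c, Bd A a → (∀ i, ‖a i‖ ≤ c) → ‖L a‖ ≤ c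

namespace LimStr
variable {A : NonUnitalStarSubalgebra ℝ B} {ι : Type*} (S : LimStr A ι) {a b : ι → B}

theorem neg (ha : Bd A a) : S.L (fun i => -a i) = -S.L a := by
  simpa using S.smul (-1) a ha

theorem sub (ha : Bd A a) (hb : Bd A b) : S.L (fun i => a i - b i) = S.L a - S.L b := by
  simp only [sub_eq_add_neg]
  rw [S.add _ _ ha hb.neg, S.neg hb]

def conj : LimStr A ι where
  L a := star (S.L fun i => star (a i))
  mem a ha := star_mem (S.mem _ ha.star)
  add a b ha hb := by simp only [star_add]; rw [S.add _ _ ha.star hb.star, star_add]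
  smul c a ha := by simp only [star_smul, star_trivial]; rw [S.smul _ _ ha.star]; simp
  const x hx := by rw [S.const _ (star_mem hx), star_star]
  norm a c ha h := by
    rw [norm_star]; exact S.norm _ _ ha.star fun i => by rw [norm_star]; exact h i

theorem shift (ha : Bd A a) {z : B} (hz : z ∈ A) (c : ℝ) (h : ∀ i, ‖a i + z‖ ^ 2 ≤ c) :
    ‖S.L a + z‖ ^ 2 ≤ c := by
  have := S.norm _ √c (ha.add (Bd.const hz)) fun i => Real.le_sqrt_of_sq_le (h i)
  rw [S.add _ _ ha (Bd.const hz), S.const _ hz] at this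
  by_cases hc : 0 ≤ c
  · calc _ ≤ (√c) ^ 2 := pow_le_pow_left₀ (norm_nonneg _) this 2
      _ = c := Real.sq_sqrt hc
  · by_cases hι : Nonempty ι
    · obtain ⟨i⟩ := hι
      exact absurd ((sq_nonneg _).trans (h i)) hc
    · have := S.norm _ (-1) ha (fun i => (hι ⟨i⟩).elim)
      linarith [norm_nonneg (S.L a)]

end LimStr

theorem zero_of_bound {r C : ℝ} (hr : 0 ≤ r) (h : ∀ n : ℝ, 0 ≤ n → n * r ≤ C) : r = 0 := by
  by_contra hne
  have hp : 0 < r := lt_of_le_of_ne hr (Ne.symm hne)
  have h0 := h 0 le_rfl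
  have := h ((C + 1) / r) (by rw [zero_mul] at h0; positivity)
  rw [div_mul_cancel₀ _ hne] at this
  linarith

theorem orth_norm {x z : B} {M : ℝ} (hx : ‖x‖ ≤ M) (h : x * star z + z * star x = 0) (n : ℝ) :
    ‖x + n • z‖ ^ 2 ≤ M ^ 2 + n ^ 2 * ‖z‖ ^ 2 := by
  have e : (x + n • z) * star (x + n • z) = x * star x + (n ^ 2) • (z * star z) := by
    have : (x + n • z) * star (x + n • z) = x * star x + (n ^ 2) • (z * star z) +
        n • (x * star z + z * star x) := by
      simp only [star_add, star_smul, star_trivial, mul_add, add_mul, smul_mul_assoc,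
        mul_smul_comm, smul_add, smul_smul, sq]
      abel
    rw [this, h, smul_zero, add_zero]
  rw [sq, ← CStarRing.norm_self_mul_star, e]
  refine (norm_add_le _ _).trans ?_
  rw [norm_smul, CStarRing.norm_self_mul_star, CStarRing.norm_self_mul_star, Real.norm_eq_abs,
    abs_of_nonneg (sq_nonneg n)]
  nlinarith [norm_nonneg x, mul_self_le_mul_self (norm_nonneg x) hx]

variable [PartialOrder B] [StarOrderedRing B]

theorem sub_sq_nonneg {u : B} (h0 : 0 ≤ u) (h1 : u ≤ 1) : 0 ≤ u - u * u := by
  have hs : star u = u := (IsSelfAdjoint.of_nonneg h0)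
  have a1 := star_left_conjugate_nonneg h0 (1 - u)
  have a2 := star_left_conjugate_nonneg (sub_nonneg.2 h1) u
  rw [star_sub, star_one, hs] at a1
  rw [hs] at a2
  have := add_nonneg a1 a2
  convert this using 1
  noncomm_ring

namespace LimStr
variable {A : NonUnitalStarSubalgebra ℝ B} {ι : Type*} (S : LimStr A ι) {a b : ι → B}

theorem ann0 (ha : Bd A a) {u : B} (h0 : 0 ≤ u) (h1 : u ≤ 1) (hu : ∀ x ∈ A, x * u ∈ A)
    (h : ∀ i, a i * u = 0) : S.L a * u = 0 := by
  have hs : star u = u := (IsSelfAdjoint.of_nonneg h0)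
  set x := S.L a
  obtain ⟨M, hM⟩ := ha.2
  have key : ∀ n : ℝ, 0 ≤ n → n * (2 * ‖x * u‖ ^ 2) ≤ M ^ 2 := by
    intro n hn
    have b1 := S.shift ha (SMulMemClass.smul_mem n (hu _ (S.mem _ ha))) _
      fun i => orth_norm (hM i) (z := x * u) (by
        have h2 : u * star (a i) = 0 := by
          have := congrArg star (h i); simpa [hs] using this
        rw [star_mul, hs, ← mul_assoc, h i, mul_assoc, h2]; simp) n
    have b2 : (n ^ 2 + 2 * n) • ((x * u) * star (x * u)) ≤
        (x + n • (x * u)) * star (x + n • (x * u)) := by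
      rw [← sub_nonneg]
      have c1 := star_right_conjugate_nonneg (sub_sq_nonneg h0 h1) x
      have c2 := add_nonneg (mul_star_self_nonneg x) (smul_nonneg (by positivity : 0 ≤ 2 * n) c1)
      convert c2 using 1
      simp only [star_add, star_smul, star_trivial, star_mul, hs, mul_add, add_mul, smul_mul_assoc,
        mul_smul_comm, smul_add, smul_smul, sq, mul_sub, sub_mul, smul_sub, mul_assoc, add_smul,
        two_mul]
      abel
    have b3 := CStarAlgebra.norm_le_norm_of_nonneg_of_le
      (smul_nonneg (by positivity) (mul_star_self_nonneg _)) b2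
    rw [norm_smul, CStarRing.norm_self_mul_star, CStarRing.norm_self_mul_star, Real.norm_eq_abs,
      abs_of_nonneg (by positivity)] at b3
    change ‖x + n • (x * u)‖ ^ 2 ≤ _ at b1
    nlinarith
  have := zero_of_bound (by positivity) key
  have h3 : ‖x * u‖ = 0 := by
    have : ‖x * u‖ ^ 2 = 0 := by linarith
    exact pow_eq_zero_iff (by norm_num) |>.1 this
  exact norm_eq_zero.1 h3

theorem ann_right (ha : Bd A a) {b : B} (hb : star b = b) (hu : ∀ x ∈ A, x * b ∈ A)
    (h : ∀ i, a i * b = 0) : S.L a * b = 0 := by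
  have hp : (0 : ℝ) < (‖b‖ ^ 2 + 1)⁻¹ := by positivity
  have hbb : 0 ≤ b * b := by simpa [hb] using mul_star_self_nonneg b
  have := S.ann0 ha (u := (‖b‖ ^ 2 + 1)⁻¹ • (b * b)) (smul_nonneg hp.le hbb) (by
      rw [← CStarAlgebra.norm_le_one_iff_of_nonneg _ (smul_nonneg hp.le hbb), norm_smul,
        Real.norm_eq_abs, abs_of_pos hp, inv_mul_le_iff₀ (by positivity)]
      nlinarith [norm_mul_le b b])
    (fun x hx => by
      rw [mul_smul_comm, ← mul_assoc]; exact SMulMemClass.smul_mem _ (hu _ (hu _ hx)))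
    (fun i => by rw [mul_smul_comm, ← mul_assoc, h i]; simp)
  rw [mul_smul_comm, smul_eq_zero] at this
  have h2 := this.resolve_left hp.ne'
  rw [← CStarRing.mul_star_self_eq_zero_iff, star_mul, hb, mul_assoc, ← mul_assoc b,
    ← mul_assoc, h2, zero_mul]

theorem ann_left (ha : Bd A a) {b : B} (hb : star b = b) (hu : ∀ x ∈ A, x * b ∈ A)
    (h : ∀ i, b * a i = 0) : b * S.L a = 0 := by
  have := S.conj.ann_right ha.star hb hu fun i => by
    have := congrArg star (h i); simpa [hb] using this
  have h2 := congrArg star this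
  simpa [conj, hb] using h2

theorem proj_right (ha : Bd A a) {e : B} (heA : e ∈ A) (he : star e = e) (hee : e * e = e) :
    S.L (fun i => a i * e) = S.L a * e := by
  have h1 := S.ann_right (ha.rmul heA) (b := 1 - e) (by simp [he])
    (fun x hx => by rw [mul_sub, mul_one]; exact sub_mem hx (mul_mem hx heA))
    (fun i => by simp [mul_sub, mul_assoc, hee])
  have h2 := S.ann_right (ha.sub (ha.rmul heA)) he (fun x hx => mul_mem hx heA)
    (fun i => by simp [sub_mul, mul_assoc, hee])
  rw [S.sub ha (ha.rmul heA), sub_mul, sub_eq_zero] at h2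
  rw [mul_sub, mul_one, sub_eq_zero] at h1
  rw [h2, ← h1]

theorem proj_left (ha : Bd A a) {e : B} (heA : e ∈ A) (he : star e = e) (hee : e * e = e) :
    S.L (fun i => e * a i) = e * S.L a := by
  have := S.conj.proj_right ha.star heA he hee
  have h2 := congrArg star this
  simpa [conj, he] using h2

theorem ku (ha : Bd A a) {p w : B} (hpA : p ∈ A) (hp : star p = p) (hpp : p * p = p)
    (hw : w ∈ A) {c : ℝ} (hc : 0 < c) (hww : star w * w = c • p) (hap : ∀ i, a i * p = a i)
    (h : ∀ i, star w * a i + star (a i) * w = 0) :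
    star w * S.L a + star (S.L a) * w = 0 := by
  set x := S.L a
  obtain ⟨M, hM⟩ := ha.2
  have hxp : x * p = x := by
    have := S.proj_right ha hpA hp hpp
    simp only [hap] at this; exact this.symm
  have hwp : w * p = w := by
    have : star (w - w * p) * (w - w * p) = 0 := by
      simp only [star_sub, star_mul, hp, mul_sub, sub_mul, mul_assoc, ← mul_assoc (star w) w, hww,
        smul_mul_assoc, mul_smul_comm, hpp]
      simp
    rw [CStarRing.star_mul_self_eq_zero_iff, sub_eq_zero] at this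
    exact this.symm
  have hpw : p * star w = star w := by simpa [hp] using congrArg star hwp
  have hpx : p * star x = star x := by simpa [hp] using congrArg star hxp
  have hpn : ‖p‖ ≤ 1 := by
    have := CStarRing.norm_star_mul_self (x := p)
    rw [hp, hpp] at this
    nlinarith [norm_nonneg p]
  have hwn : ‖w‖ ^ 2 ≤ c := by
    have := CStarRing.norm_star_mul_self (x := w)
    rw [hww, norm_smul, Real.norm_eq_abs, abs_of_pos hc] at this
    nlinarith
  set r := star w * x + star x * w with hr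
  have hrs : star r = r := by simp [hr, add_comm]
  have hprp : p * r * p = r := by
    simp only [hr, mul_add, add_mul, ← mul_assoc, hpw, hpx]
    simp only [mul_assoc, hxp, hwp]
  have hp0 : 0 ≤ p := by simpa [hp, hpp] using star_mul_self_nonneg p
  have b1 : ∀ n : ℝ, ‖r + (2 * n * c) • p‖ ^ 2 ≤ 4 * c * (M ^ 2 + n ^ 2 * c) := by
    intro n
    have b0 := S.shift ha (SMulMemClass.smul_mem n hw) (M ^ 2 + n ^ 2 * ‖w‖ ^ 2) fun i => by
      have := orth_norm (x := star (a i)) (z := star w) (M := M) (by rw [norm_star]; exact hM i)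
        (by simp only [star_star]; rw [add_comm]; exact h i) n
      rw [← norm_star] at this
      simpa using this
    change ‖x + n • w‖ ^ 2 ≤ _ at b0
    have e : r + (2 * n * c) • p = star w * (x + n • w) + star (x + n • w) * w := by
      simp only [hr, star_add, star_smul, star_trivial, mul_add, add_mul, mul_smul_comm,
        smul_mul_assoc, hww, smul_smul, two_mul, add_smul]
      abel
    have e2 : ‖r + (2 * n * c) • p‖ ≤ 2 * (‖w‖ * ‖x + n • w‖) := by
      rw [e]
      refine (norm_add_le _ _).trans ?_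
      have q1 := norm_mul_le (star w) (x + n • w)
      have q2 := norm_mul_le (star (x + n • w)) w
      rw [norm_star] at q1 q2
      linarith
    have e3 := pow_le_pow_left₀ (norm_nonneg _) e2 2
    have e4 : ‖x + n • w‖ ^ 2 ≤ M ^ 2 + n ^ 2 * c := by nlinarith [sq_nonneg n]
    have e5 := mul_le_mul hwn e4 (sq_nonneg _) hc.le
    nlinarith
  have gen : ∀ r : B, star r = r → p * r * p = r →
      (∀ n : ℝ, 0 < n → ‖r + (2 * n * c) • p‖ ^ 2 ≤ 4 * c * (M ^ 2 + n ^ 2 * c)) → r ≤ 0 := by
    intro r hrs hprp b1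
    have b2 : ∀ n : ℝ, 0 < n → r ≤ (M ^ 2 / n) • p := by
      intro n hn
      have s1 : IsSelfAdjoint (r + (2 * n * c) • p) := by
        simp [IsSelfAdjoint, hrs, hp]
      have s2 := star_left_conjugate_le_conjugate s1.le_algebraMap_norm_self p
      have s3 : ‖r + (2 * n * c) • p‖ ≤ 2 * n * c + M ^ 2 / n := by
        apply (abs_le_of_sq_le_sq' _ (by positivity)).2
        have : n * (M ^ 2 / n) = M ^ 2 := by field_simp
        nlinarith [b1 n hn, sq_nonneg (M ^ 2 / n)]
      rw [hp, Algebra.algebraMap_eq_smul_one] at s2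
      simp only [mul_add, add_mul, mul_smul_comm, smul_mul_assoc, hprp, hpp, mul_one] at s2
      have s4 := smul_le_smul_of_nonneg_right s3 hp0
      have := s2.trans s4
      rw [add_smul, add_comm ((2 * n * c) • p)] at this
      exact le_of_add_le_add_right this
    have t : Filter.Tendsto (fun n : ℝ => (M ^ 2 / n) • p) Filter.atTop (nhds ((0 : ℝ) • p)) :=
      (tendsto_const_nhds.div_atTop Filter.tendsto_id).smul_const p
    rw [zero_smul] at t
    exact ge_of_tendsto t ((Filter.eventually_gt_atTop 0).mono b2)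
  have g1 := gen r hrs hprp fun n _ => b1 n
  have g2 := gen (-r) (by simp [hrs]) (by simp [hprp]) fun n _ => by
    have := b1 (-n)
    rw [← norm_neg, show -(r + (2 * -n * c) • p) = -r + (2 * n * c) • p by
      rw [neg_add, ← neg_smul]; congr 2; ring, neg_sq] at this
    exact this
  exact le_antisymm g1 (neg_nonpos.1 g2)

end LimStr

end Pool.Agent.H89.RC
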