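import Pool.Agent.H89.RC1

set_option autoImplicit false

namespace Pool.Agent.H89.RC

variable {B : Type*} [CStarAlgebra B]

def Cl {A : NonUnitalStarSubalgebra ℝ B} {ι : Type*} (F : Set (LimStr A ι))
    (N : Submodule ℝ B) : Prop :=
  ∀ S ∈ F, ∀ a, Bd A a → (∀ i, a i ∈ N) → S.L a ∈ N

def HasExt {A : NonUnitalStarSubalgebra ℝ B} {ι : Type*} (F : Set (LimStr A ι)) : Prop :=
  ∀ N : Submodule ℝ B, (∀ x ∈ N, x ∈ A) → Cl F N →
    ∃ v ∈ N, ‖v‖ ≤ 1 ∧ ∀ z ∈ N, ‖v + z‖ ≤ 1 → ‖v - z‖ ≤ 1 → z = 0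

variable [PartialOrder B] [StarOrderedRing B]

theorem norm_le_one_of {x : B} (h : star x * x ≤ 1) : ‖x‖ ≤ 1 := by
  rw [← CStarAlgebra.norm_le_one_iff_of_nonneg _ (star_mul_self_nonneg x),
    CStarRing.norm_star_mul_self] at h
  nlinarith [norm_nonneg x]

theorem le_one_of {x : B} (h : ‖x‖ ≤ 1) : star x * x ≤ 1 := by
  rw [← CStarAlgebra.norm_le_one_iff_of_nonneg _ (star_mul_self_nonneg x),
    CStarRing.norm_star_mul_self]
  nlinarith [norm_nonneg x]

theorem tri {v : B} (hv : ‖v‖ ≤ 1) :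
    ‖v + (1 / 2 : ℝ) • (v - v * star v * v)‖ ≤ 1 ∧ ‖v - (1 / 2 : ℝ) • (v - v * star v * v)‖ ≤ 1 := by
  constructor
  · apply norm_le_one_of
    set q := star v * v with hq
    have hqs : star q = q := by simp [hq]
    have h1 : q ≤ 1 := le_one_of hv
    have h2 : (0 : B) ≤ (1 - q) + 1 + 1 + 1 :=
      add_nonneg (add_nonneg (add_nonneg (sub_nonneg.2 h1) zero_le_one) zero_le_one) zero_le_one
    have h3 := smul_nonneg (show (0 : ℝ) ≤ 1 / 4 by norm_num) (star_left_conjugate_nonneg h2 (1 - q))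
    rw [← sub_nonneg]
    convert h3 using 1
    have e : v + (1 / 2 : ℝ) • (v - v * star v * v) = v * ((1 / 2 : ℝ) • (1 + 1 + 1 - q)) := by
      simp only [hq, mul_smul_comm, mul_sub, mul_add, mul_one, mul_assoc]; module
    rw [e, star_mul, mul_assoc, ← mul_assoc (star v), ← hq]
    simp only [star_smul, star_trivial, star_sub, star_add, star_one, hqs, mul_smul_comm,
      smul_mul_assoc, mul_sub, sub_mul, mul_add, add_mul, mul_one, one_mul, mul_assoc]
    module
  · have e : v - (1 / 2 : ℝ) • (v - v * star v * v) =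
        (1 / 2 : ℝ) • v + (1 / 2 : ℝ) • (v * star v * v) := by module
    rw [e]
    refine (norm_add_le _ _).trans ?_
    rw [norm_smul, norm_smul]
    have h1 : ‖v * star v * v‖ ≤ 1 := by
      refine (norm_mul_le _ _).trans ?_
      rw [CStarRing.norm_self_mul_star]
      exact mul_le_one₀ (mul_le_one₀ hv (norm_nonneg _) hv) (norm_nonneg _) hv
    norm_num; linarith

variable {A : NonUnitalStarSubalgebra ℝ B} {ι : Type*} {F : Set (LimStr A ι)}

theorem ext_tri (hF : HasExt F) (N : Submodule ℝ B) (hN : ∀ x ∈ N, x ∈ A) (hc : Cl F N)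
    (ht : ∀ x ∈ N, x * star x * x ∈ N) :
    ∃ v ∈ N, v * star v * v = v ∧ ∀ z ∈ N, ‖v + z‖ ≤ 1 → ‖v - z‖ ≤ 1 → z = 0 := by
  obtain ⟨v, hv, h1, h2⟩ := hF N hN hc
  refine ⟨v, hv, ?_, h2⟩
  have := h2 _ (N.smul_mem _ (N.sub_mem hv (ht v hv))) (tri h1).1 (tri h1).2
  rw [smul_eq_zero, sub_eq_zero] at this
  exact (this.resolve_left (by norm_num)).symm

theorem zero_of_small {N : Submodule ℝ B} {v z : B} (hz : z ∈ N)
    (h : ∀ z ∈ N, ‖v + z‖ ≤ 1 → ‖v - z‖ ≤ 1 → z = 0)
    (h2 : ∀ c : ℝ, ‖c • z‖ ≤ 1 → ‖v + c • z‖ ≤ 1) : z = 0 := by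
  by_contra hne
  have hp : 0 < ‖z‖ := norm_pos_iff.2 hne
  have := h (‖z‖⁻¹ • z) (N.smul_mem _ hz) (h2 _ (by rw [norm_smul]; simp [hp.ne'])) (by
    rw [sub_eq_add_neg, ← neg_smul]; exact h2 _ (by rw [norm_smul]; simp [hp.ne']))
  rw [smul_eq_zero] at this
  exact hne (this.resolve_left (by positivity))

theorem unit (hF : HasExt F) (N : Submodule ℝ B) (hN : ∀ x ∈ N, x ∈ A) (hc : Cl F N)
    (hm : ∀ x ∈ N, ∀ y ∈ N, x * y ∈ N) (hs : ∀ x ∈ N, star x ∈ N) :
    ∃ f ∈ N, star f = f ∧ ∀ x ∈ N, f * x = x ∧ x * f = x := by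
  obtain ⟨v, hv, h1, h2⟩ := ext_tri hF N hN hc fun x hx => hm _ (hm _ hx _ (hs _ hx)) _ hx
  have h1' : star v * v * star v = star v := by simpa [mul_assoc] using congrArg star h1
  set P := v * star v with hP
  set Q := star v * v with hQ
  have hPN : P ∈ N := hm _ hv _ (hs _ hv)
  have hQN : Q ∈ N := hm _ (hs _ hv) _ hv
  have hPs : star P = P := by simp [hP]
  have hQs : star Q = Q := by simp [hQ]
  have hQQ : Q * Q = Q := by rw [hQ, ← mul_assoc, h1']
  have hvP : star v * (1 - P) = 0 := by rw [mul_sub, mul_one, hP, ← mul_assoc, h1', sub_self]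
  have mem : ∀ x ∈ N, (1 - P) * x ∈ N ∧ x * (1 - P) ∈ N ∧ (1 - Q) * x ∈ N ∧ x * (1 - Q) ∈ N := by
    intro x hx
    simp only [sub_mul, mul_sub, one_mul, mul_one]
    exact ⟨N.sub_mem hx (hm _ hPN _ hx), N.sub_mem hx (hm _ hx _ hPN),
      N.sub_mem hx (hm _ hQN _ hx), N.sub_mem hx (hm _ hx _ hQN)⟩
  have key : ∀ x ∈ N, (1 - P) * x * (1 - Q) = 0 := by
    intro x hx
    refine zero_of_small (mem _ (mem x hx).1).2.2.2 h2 fun c hc => ?_
    set z := c • ((1 - P) * x * (1 - Q)) with hz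
    have z1 : star v * z = 0 := by
      rw [hz, mul_smul_comm, ← mul_assoc, ← mul_assoc, hvP]; simp
    have z2 : star z * v = 0 := by simpa using congrArg star z1
    have z3 : z * (1 - Q) = z := by
      rw [hz, smul_mul_assoc, mul_assoc _ (1 - Q)]
      congr 2; rw [mul_sub, mul_one, sub_mul, one_mul, hQQ]; simp
    have z4 : (1 - Q) * star z = star z := by simpa [hQs] using congrArg star z3
    have z5 := star_left_conjugate_le_conjugate (le_one_of hc) (1 - Q)
    rw [star_sub, star_one, hQs, ← mul_assoc, z4, mul_assoc, z3, mul_one, mul_sub, mul_one,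
      sub_mul, one_mul, hQQ, sub_self, sub_zero] at z5
    apply norm_le_one_of
    rw [star_add, mul_add, add_mul, add_mul, z1, z2, ← hQ, add_zero, zero_add]
    exact le_sub_iff_add_le'.1 z5
  have l : ∀ x ∈ N, (1 - P) * (1 - Q) * x = 0 := by
    intro x hx
    rw [← CStarRing.mul_star_self_eq_zero_iff]
    have := key _ (mem _ (hm _ hx _ (hs _ hx))).2.2.1
    simp only [star_mul, star_sub, star_one, hPs, hQs]
    calc _ = ((1 - P) * ((1 - Q) * (x * star x)) * (1 - Q)) * (1 - P) := by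
          simp only [mul_assoc]
      _ = 0 := by rw [this, zero_mul]
  have r : ∀ x ∈ N, x * ((1 - P) * (1 - Q)) = 0 := by
    intro x hx
    rw [← CStarRing.star_mul_self_eq_zero_iff]
    have := key _ (mem _ (hm _ (hs _ hx) _ hx)).2.1
    simp only [star_mul, star_sub, star_one, hPs, hQs]
    calc _ = (1 - Q) * ((1 - P) * (star x * x * (1 - P)) * (1 - Q)) := by
          simp only [mul_assoc]
      _ = 0 := by rw [this, mul_zero]
  have hf : P + Q - P * Q ∈ N := N.sub_mem (N.add_mem hPN hQN) (hm _ hPN _ hQN)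
  have e : (1 - P) * (1 - Q) = 1 - (P + Q - P * Q) := by noncomm_ring
  generalize P + Q - P * Q = f at hf e
  rw [e] at l r
  have u : ∀ x ∈ N, f * x = x ∧ x * f = x := fun x hx =>
    ⟨by have := l x hx; rw [sub_mul, one_mul, sub_eq_zero] at this; exact this.symm,
     by have := r x hx; rw [mul_sub, mul_one, sub_eq_zero] at this; exact this.symm⟩
  refine ⟨f, hf, ?_, u⟩
  have a1 := (u _ (hs _ hf)).1
  have a2 := congrArg star a1
  rw [star_mul, star_star] at a2
  rw [← a1, a2]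

theorem lemZ (hF : HasExt F) (hA : IsClosed (A : Set B)) {w h : B}
    (hw : ∀ f ∈ A, star f = f → f * f = f → w * f = f * w) (hh : h ∈ A) (hs : star h = h)
    (hwh : w * h = -(h * w)) : w * h = 0 := by
  have main : ∀ h ∈ A, star h = h → w * h = -(h * w) →
      w * (CFC.sqrt (h * h) + h) = 0 := by
    intro h hh hs hwh
    have h0 : 0 ≤ h * h := by simpa [hs] using star_mul_self_nonneg h
    set r := CFC.sqrt (h * h) with hr
    have rA : r ∈ A := by
      rw [hr, CFC.sqrt_eq_real_sqrt _ h0]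
      exact cfcₙ_mem (hs := hA) _ (mul_mem hh hh)
    have rs : star r = r := IsSelfAdjoint.of_nonneg (CFC.sqrt_nonneg _)
    have rr : r * r = h * h := CFC.sqrt_mul_sqrt_self _ h0
    have rh : r * h = h * r :=
      Commute.cfcₙ_nnreal (show Commute (h * h) h from mul_assoc h h h) NNReal.sqrt
    have rw' : r * w = w * r :=
      Commute.cfcₙ_nnreal (show Commute (h * h) w from by
        change h * h * w = w * (h * h)
        rw [← mul_assoc w, hwh, neg_mul, mul_assoc h w h, hwh]; simp [mul_assoc]) NNReal.sqrt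
    have bs : star (r - h) = r - h := by simp [rs, hs]
    have bA : r - h ∈ A := sub_mem rA hh
    let N : Submodule ℝ B :=
      { carrier := {x | x ∈ A ∧ x * (r - h) = 0 ∧ (r - h) * x = 0}
        add_mem' := fun hx hy => ⟨add_mem hx.1 hy.1, by rw [add_mul, hx.2.1, hy.2.1, add_zero],
          by rw [mul_add, hx.2.2, hy.2.2, add_zero]⟩
        zero_mem' := ⟨zero_mem _, by simp, by simp⟩
        smul_mem' := fun c x hx => ⟨SMulMemClass.smul_mem c hx.1,
          by rw [smul_mul_assoc, hx.2.1, smul_zero], by rw [mul_smul_comm, hx.2.2, smul_zero]⟩ }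
    obtain ⟨f, hf, fs, fu⟩ := unit hF N (fun x hx => hx.1)
      (fun S _ a ha hN => ⟨S.mem _ ha,
        S.ann_right ha bs (fun x hx => mul_mem hx bA) fun i => (hN i).2.1,
        S.ann_left ha bs (fun x hx => mul_mem hx bA) fun i => (hN i).2.2⟩)
      (fun x hx y hy => ⟨mul_mem hx.1 hy.1, by rw [mul_assoc, hy.2.1, mul_zero],
        by rw [← mul_assoc, hx.2.2, zero_mul]⟩)
      (fun x hx => ⟨star_mem hx.1, by simpa only [star_mul, bs, star_zero] using congrArg star hx.2.2,
        by simpa only [star_mul, bs, star_zero] using congrArg star hx.2.1⟩)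
    have aN : r + h ∈ N := ⟨add_mem rA hh,
      by simp only [mul_sub, add_mul, rr, rh]; abel, by simp only [sub_mul, mul_add, rr, rh]; abel⟩
    have c := hw f hf.1 fs (fu f hf).1
    have e : w * (r + h) = (r - h) * w := by rw [mul_add, sub_mul, rw', hwh, sub_eq_add_neg]
    rw [← (fu _ aN).1, ← mul_assoc, c, mul_assoc, e, ← mul_assoc, hf.2.1, zero_mul]
  have m1 := main h hh hs hwh
  have m2 := main (-h) (neg_mem hh) (by simp [hs]) (by simp [hwh])
  rw [neg_mul_neg] at m2
  have : (2 : ℝ) • (w * h) = w * (CFC.sqrt (h * h) + h) - w * (CFC.sqrt (h * h) + -h) := by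
    simp only [mul_add, mul_neg]; module
  rw [m1, m2, sub_self, smul_eq_zero] at this
  exact this.resolve_left (by norm_num)

end Pool.Agent.H89.RC
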