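import Pool.Agent.H89.RC2

set_option autoImplicit false

namespace Pool.Agent.H89.RC

variable {B : Type*} [CStarAlgebra B] [PartialOrder B] [StarOrderedRing B]
variable {A : NonUnitalStarSubalgebra ℝ B} {ι : Type*} {F : Set (LimStr A ι)}

omit [PartialOrder B] [StarOrderedRing B] in
theorem two_zero {x : B} (h : x + x = 0) : x = 0 := by
  rw [← two_smul ℝ, smul_eq_zero] at h
  exact h.resolve_left (by norm_num)

/-- The degenerate case: a skew element `j` with `-j^2 = p` central which commutes with all
self-adjoint elements. -/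
theorem bad (S : LimStr A ι) {e p j : B} (heA : e ∈ A) (hes : star e = e)
    (heu : ∀ x ∈ A, e * x = x ∧ x * e = x)
    (hjA : j ∈ A) (hjs : star j = -j) (hp : j * j = -p) (hpj : p * j = j)
    (hpc : ∀ x ∈ A, p * x = x * p) (hjc : ∀ h ∈ A, star h = h → j * h = h * j)
    {a : ι → B} (ha : Bd A a) :
    S.L (fun i => j * a i + a i * j) = j * S.L a + S.L a * j := by
  have hp' : p = -(j * j) := by rw [hp, neg_neg]
  have hpA : p ∈ A := hp' ▸ neg_mem (mul_mem hjA hjA)
  have hps : star p = p := by rw [hp']; simp [hjs]
  have hjp : j * p = j := by rw [← hpc j hjA, hpj]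
  have hpp : p * p = p := by
    conv_lhs => rw [hp']; congr; rw [← hp']
    rw [mul_neg, ← mul_assoc, hpj, hp, neg_neg]
  have jj : ∀ y, j * (j * y) = -(p * y) := fun y => by rw [← mul_assoc, hp, neg_mul]
  have skew : ∀ k : ι → B, Bd A k → (∀ i, star (k i) = -k i) → star (S.L k) = -S.L k := by
    intro k hk h
    have := S.ku hk heA hes (heu e heA).1 heA one_pos (by simp [hes, (heu e heA).1])
      (fun i => (heu _ (hk.1 i)).2)
      (fun i => by rw [hes, (heu _ (hk.1 i)).1, h i, neg_mul, (heu _ (hk.1 i)).2]; simp)
    rw [hes, (heu _ (S.mem _ hk)).1, (heu _ (star_mem (S.mem _ hk))).2] at this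
    exact eq_neg_of_add_eq_zero_right this
  have kj : ∀ k : ι → B, Bd A k → (∀ i, k i * p = k i) → (∀ i, star (k i) * j = j * k i) →
      star (S.L k) * j = j * S.L k := by
    intro k hk h1 h2
    have := S.ku hk hpA hps hpp hjA one_pos (by simp [hjs, hp]) h1
      (fun i => by rw [hjs, h2 i]; simp)
    rw [hjs, neg_mul, add_comm, ← sub_eq_add_neg, sub_eq_zero] at this
    exact this
  have sup : ∀ k : ι → B, Bd A k → (∀ i, k i * p = k i) → S.L k * p = S.L k := by
    intro k hk h
    have := S.proj_right hk hpA hps hpp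
    simp only [h] at this; exact this.symm
  have kill : ∀ y ∈ A, y * p = y → j * y = y * j → j * y = -(y * j) → y = 0 := by
    intro y hy h1 h2 h3
    have : j * y = 0 := two_zero (by nth_rewrite 1 [h2]; rw [h3]; simp)
    have h4 := jj y
    rw [this, mul_zero, hpc y hy, h1] at h4
    exact neg_eq_zero.1 h4.symm
  have hk : ∀ k ∈ A, k * p = k → star k = -k → j * k = -(k * j) →
      ∀ h ∈ A, star h = h → h * k = k * h := by
    intro k hk k1 k2 k3 h hh hs
    rw [← sub_eq_zero]
    have mem := sub_mem (mul_mem hh hk) (mul_mem hk hh)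
    refine kill _ mem ?_ (hjc _ mem (by simp [hs, k2]; abel)) ?_
    · rw [sub_mul, mul_assoc, k1, mul_assoc, ← hpc h hh, ← mul_assoc, k1]
    · rw [mul_sub, ← mul_assoc, hjc h hh hs, mul_assoc, k3, ← mul_assoc j k, k3, sub_mul,
        mul_assoc k h, ← hjc h hh hs]
      simp only [mul_assoc, neg_mul, mul_neg]; abel
  have lemC : ∀ c : ι → B, Bd A c → (∀ i, c i * p = c i) → (∀ i, j * c i = c i * j) →
      star (S.L c) = -S.L c → j * S.L c = -(S.L c * j) → S.L c = 0 := by
    intro c hc c1 c2 k2 k3
    have kA := S.mem _ hc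
    have k1 := sup c hc c1
    set k := S.L c
    obtain ⟨M, hM⟩ := hc.2
    have cross : ∀ i, c i * star k + k * star (c i) = 0 := by
      intro i
      have ci := hc.1 i
      have sj : j * star (c i) = star (c i) * j := by
        have := congrArg star (c2 i); simpa [hjs] using this.symm
      have sp : p * star (c i) = star (c i) := by simpa [hps] using congrArg star (c1 i)
      have q1 := hk k kA k1 k2 k3 (c i + star (c i)) (add_mem ci (star_mem ci)) (by simp [add_comm])
      have q2 := hk k kA k1 k2 k3 (j * (c i - star (c i))) (mul_mem hjA (sub_mem ci (star_mem ci)))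
        (by simp only [star_mul, star_sub, star_star, hjs, mul_neg, neg_mul, mul_sub, sub_mul, c2 i,
          sj]; abel)
      have q3 : j * (j * (c i - star (c i)) * k) = j * (k * (j * (c i - star (c i)))) := by rw [q2]
      rw [mul_assoc, jj, ← mul_assoc j k, k3, neg_mul, mul_assoc k, jj, ← mul_assoc p,
        mul_sub p, hpc _ ci, c1 i, sp] at q3
      apply two_zero
      rw [k2]
      simp only [mul_add, add_mul, mul_sub, sub_mul, mul_neg, neg_neg] at q1 q3 ⊢
      have t1 : c i * k = k * c i + k * star (c i) - star (c i) * k := by rw [← q1]; abel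
      have t2 : c i * k = star (c i) * k - k * c i + k * star (c i) := by
        rw [← sub_eq_zero] at q3 ⊢; rw [← neg_eq_zero, ← q3]; abel
      nth_rewrite 1 [t1]
      rw [t2]; abel
    have key : ∀ n : ℝ, 0 ≤ n → n * (2 * ‖k‖ ^ 2) ≤ M ^ 2 := by
      intro n hn
      have b1 := S.shift hc (SMulMemClass.smul_mem n kA) _ fun i => orth_norm (hM i) (cross i) n
      change ‖k + n • k‖ ^ 2 ≤ _ at b1
      rw [show k + n • k = (1 + n) • k by module, norm_smul, Real.norm_eq_abs, mul_pow,
        sq_abs] at b1
      nlinarith [sq_nonneg ‖k‖]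
    have := zero_of_bound (by positivity) key
    have h3 : ‖k‖ ^ 2 = 0 := by linarith
    exact norm_eq_zero.1 (pow_eq_zero_iff (by norm_num) |>.1 h3)
  have lemG : ∀ s : ι → B, Bd A s → (∀ i, star (s i) = s i) → (∀ i, s i * p = s i) →
      (S.L s = 0 ↔ S.L (fun i => j * s i) = 0) := by
    intro s hs s1 s2
    have sj : ∀ i, j * s i = s i * j := fun i => hjc _ (hs.1 i) (s1 i)
    have hjs' := hs.lmul hjA
    have t2 : ∀ i, j * s i * p = j * s i := fun i => by rw [mul_assoc, s2]
    have a1 := skew _ hjs' fun i => by rw [star_mul, s1, hjs, sj]; simp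
    have a2 := kj _ hs s2 fun i => by rw [s1, sj]
    have a3 := S.ku (hs.add hjs') hpA hps hpp (sub_mem hpA hjA) two_pos
      (by simp only [star_sub, hps, hjs, mul_sub, sub_mul, hpp, hpj, neg_mul, hjp, hp]; module)
      (fun i => by rw [add_mul, s2, t2])
      (fun i => by
        have ps : p * s i = s i := by rw [hpc _ (hs.1 i), s2]
        simp only [star_sub, star_add, star_mul, hps, hjs, s1, mul_sub, sub_mul, add_mul, mul_add,
          neg_mul, mul_neg, jj, ← mul_assoc p j, hpj, ps, s2, mul_assoc (s i) j, hjp, hp, ← sj]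
        rw [mul_assoc j (s i) j, ← sj, jj, ps, mul_assoc j (s i) p, s2]
        abel)
    rw [S.add _ _ hs hjs'] at a3
    have b1 := sup _ hs s2
    have b2 := sup _ hjs' t2
    have m1 := S.mem _ hs
    have m2 := S.mem _ hjs'
    constructor
    · intro h0
      refine lemC _ hjs' t2 (fun i => by rw [mul_assoc, ← sj]) a1 ?_
      rw [h0, zero_add, a1] at a3
      simp only [star_sub, hps, hjs, mul_sub, sub_mul, neg_mul, hpc _ m2, b2] at a3
      rw [← sub_eq_zero, ← a3]; abel
    · intro h0
      rw [h0, add_zero] at a3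
      have b3 : star (S.L s) * p = star (S.L s) := by
        rw [← hpc _ (star_mem m1)]; simpa [hps] using congrArg star b1
      simp only [star_sub, hps, hjs, mul_sub, sub_mul, neg_mul, hpc _ m1, b1, b3, a2] at a3
      have b4 : star (S.L s) = -S.L s := by
        rw [← sub_eq_zero, ← a3]; abel
      refine lemC _ hs s2 sj b4 ?_
      rw [← a2, b4, neg_mul]
  have zero : ∀ a : ι → B, Bd A a → S.L a = 0 → S.L (fun i => j * a i + a i * j) = 0 := by
    intro a ha h0
    have hc : Bd A fun i => p * a i - j * a i * j := (ha.lmul hpA).sub ((ha.lmul hjA).rmul hjA)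
    have hd : Bd A fun i => p * a i + j * a i * j := (ha.lmul hpA).add ((ha.lmul hjA).rmul hjA)
    have pa : ∀ i, p * a i * p = p * a i := fun i => by
      rw [mul_assoc, ← hpc _ (ha.1 i), ← mul_assoc, hpp]
    have l1 : ∀ i, j * (p * a i) = j * a i := fun i => by rw [← mul_assoc, hjp]
    have l2 : ∀ i, p * a i * j = a i * j := fun i => by rw [hpc _ (ha.1 i), mul_assoc, hpj]
    have l3 : ∀ i, j * (j * a i * j) = -(a i * j) := fun i => by
      rw [mul_assoc j (a i), jj, ← mul_assoc, l2]
    have l4 : ∀ i, j * a i * j * j = -(j * a i) := fun i => by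
      rw [mul_assoc _ j j, hp, mul_neg, mul_assoc, ← hpc _ (ha.1 i), l1]
    have c1 : ∀ i, (p * a i - j * a i * j) * p = p * a i - j * a i * j := fun i => by
      rw [sub_mul, pa, mul_assoc _ j p, hjp]
    have d1 : ∀ i, (p * a i + j * a i * j) * p = p * a i + j * a i * j := fun i => by
      rw [add_mul, pa, mul_assoc _ j p, hjp]
    have c2 : ∀ i, j * (p * a i - j * a i * j) = (p * a i - j * a i * j) * j := fun i => by
      rw [mul_sub, sub_mul, l1, l2, l3, l4]; abel
    have c3 : ∀ i, j * (p * a i - j * a i * j) = j * a i + a i * j := fun i => by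
      rw [mul_sub, l1, l3]; abel
    have d2 : ∀ i, j * (p * a i + j * a i * j) = -((p * a i + j * a i * j) * j) := fun i => by
      rw [mul_add, add_mul, l1, l2, l3, l4]; abel
    have cd : S.L (fun i => p * a i - j * a i * j) = -S.L (fun i => p * a i + j * a i * j) := by
      rw [S.sub (ha.lmul hpA) ((ha.lmul hjA).rmul hjA), S.add _ _ (ha.lmul hpA)
        ((ha.lmul hjA).rmul hjA), S.proj_left ha hpA hps hpp, h0]; simp
    simp only [← c3]
    generalize hcdef : (fun i => p * a i - j * a i * j) = c at hc cd
    generalize hddef : (fun i => p * a i + j * a i * j) = d at hd cd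
    have c1' : ∀ i, c i * p = c i := hcdef ▸ c1
    have c2' : ∀ i, j * c i = c i * j := hcdef ▸ c2
    have d1' : ∀ i, d i * p = d i := hddef ▸ d1
    have d2' : ∀ i, j * d i = -(d i * j) := hddef ▸ d2
    have goal : S.L (fun i => j * c i) = 0 := by
      have d3 : ∀ i, star (d i) = -d i := by
        intro i
        have di := hd.1 i
        have s1 : j * star (d i) = -(star (d i) * j) := by
          have := congrArg star (d2' i)
          simp only [star_mul, hjs, star_neg, mul_neg, neg_mul, neg_neg] at this
          exact this.symm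
        have s2 : star (d i) * p = star (d i) := by
          rw [← hpc _ (star_mem di)]; simpa [hps] using congrArg star (d1' i)
        have := kill (d i + star (d i)) (add_mem di (star_mem di)) (by rw [add_mul, d1', s2])
          (hjc _ (add_mem di (star_mem di)) (by simp [add_comm]))
          (by rw [mul_add, add_mul, d2', s1]; abel)
        exact eq_neg_of_add_eq_zero_right this
      have e1 := skew d hd d3
      have e2 := kj d hd d1' fun i => by rw [d3, d2']; simp
      have e3 : S.L c = 0 := lemC c hc c1' c2' (by rw [cd, star_neg, e1])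
        (by rw [cd, mul_neg, ← e2, e1])
      have sj : ∀ i, j * star (c i) = star (c i) * j := fun i => by
        have := congrArg star (c2' i); simpa [hjs] using this.symm
      have sp : ∀ i, star (c i) * p = star (c i) := fun i => by
        rw [← hpc _ (star_mem (hc.1 i))]; simpa [hps] using congrArg star (c1' i)
      have hh := hc.add hc.star
      have hg := hc.sub hc.star
      have h1 : ∀ i, star (c i + star (c i)) = c i + star (c i) := fun i => by simp [add_comm]
      have h2 : ∀ i, (c i + star (c i)) * p = c i + star (c i) := fun i => by rw [add_mul, c1', sp]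
      have h3 : ∀ i, j * (c i + star (c i)) = (c i + star (c i)) * j := fun i => by
        rw [mul_add, add_mul, c2', sj]
      have f1 := skew _ hg fun i => by simp
      have f2 := kj _ hh h2 fun i => by rw [h1, h3]
      have f3 : S.L (fun i => c i + star (c i)) = -S.L (fun i => c i - star (c i)) := by
        rw [S.add _ _ hc hc.star, S.sub hc hc.star, e3]; simp
      have f4 : star (S.L (fun i => c i + star (c i))) = -S.L (fun i => c i + star (c i)) := by
        rw [f3, star_neg, f1]
      have f5 := lemC _ hh h2 h3 f4 (by rw [← f2, f4, neg_mul])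
      have f6 : S.L (fun i => c i - star (c i)) = 0 := by rw [f5] at f3; simpa using f3
      have g1 := (lemG _ hh h1 h2).1 f5
      have g2 := (lemG _ (hg.lmul hjA)
        (fun i => by
          simp only [star_mul, star_sub, star_star, hjs, mul_neg, neg_mul, mul_sub, sub_mul, c2' i,
            sj]; abel)
        (fun i => by rw [mul_assoc, sub_mul, c1', sp])).2 (by
          have : (fun i => j * (j * (c i - star (c i)))) = fun i => -(c i - star (c i)) := by
            funext i
            rw [jj, hpc _ (hg.1 i), sub_mul, c1', sp]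
          rw [this, S.neg hg, f6, neg_zero])
      apply two_zero
      rw [← S.add _ _ (hc.lmul hjA) (hc.lmul hjA), ← add_zero 0]
      nth_rewrite 1 [← g1]
      rw [← g2, ← S.add _ _ (hh.lmul hjA) (hg.lmul hjA)]
      congr 1; funext i
      simp only [mul_add, mul_sub]; abel
    rw [← goal, ← hcdef]
  have xA := S.mem _ ha
  have := zero _ (ha.sub (Bd.const xA)) (by rw [S.sub ha (Bd.const xA), S.const _ xA, sub_self])
  have hT := (ha.lmul hjA).add (ha.rmul hjA)
  have xT := add_mem (mul_mem hjA xA) (mul_mem xA hjA)
  rw [← sub_eq_zero, ← this, ← S.const _ xT, ← S.sub hT (Bd.const xT)]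
  congr 1; funext i
  simp only [mul_sub, sub_mul]; abel

end Pool.Agent.H89.RC
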