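import Pool.Agent.H89.RC3

set_option autoImplicit false

namespace Pool.Agent.H89.RC

variable {B : Type*} [CStarAlgebra B] [PartialOrder B] [StarOrderedRing B]
variable {A : NonUnitalStarSubalgebra ℝ B} {ι : Type*} {F : Set (LimStr A ι)}

theorem alg (hF : HasExt F) (hA : IsClosed (A : Set B)) {k : B} (hk : k ∈ A)
    (hks : star k = -k) (hk0 : k ≠ 0) :
    ∃ m ∈ A, ∃ m' ∈ A, star m = -m ∧ star m' = -m' ∧ (∃ x ∈ A, m * x + x * m' ≠ 0) ∧
      ∀ S ∈ F, ∀ a, Bd A a → S.L (fun i => m * a i + a i * m') = m * S.L a + S.L a * m' := by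
  obtain ⟨e, heA, hes, heu⟩ := unit hF A.toNonUnitalSubalgebra.toSubmodule (fun x hx => hx)
    (fun S _ a ha _ => S.mem _ ha) (fun x hx y hy => mul_mem (s := A) hx hy)
    (fun x hx => star_mem (s := A) hx)
  change e ∈ A at heA
  replace heu : ∀ x ∈ A, e * x = x ∧ x * e = x := heu
  let K : Submodule ℝ B :=
    { carrier := {x | x ∈ A ∧ star x = -x}
      add_mem' := fun hx hy => ⟨add_mem hx.1 hy.1, by rw [star_add, hx.2, hy.2, neg_add]⟩
      zero_mem' := ⟨zero_mem _, by simp⟩
      smul_mem' := fun c x hx => ⟨SMulMemClass.smul_mem c hx.1, by simp [hx.2]⟩ }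
  obtain ⟨j, ⟨hjA, hjs⟩, hj3, hje⟩ := ext_tri hF K (fun x hx => hx.1)
    (fun S _ k hk h => ⟨S.mem _ hk, by
      have := S.ku hk heA hes (heu e heA).1 heA one_pos (by simp [hes, (heu e heA).1])
        (fun i => (heu _ (hk.1 i)).2)
        (fun i => by rw [hes, (heu _ (hk.1 i)).1, (h i).2, neg_mul, (heu _ (hk.1 i)).2]; simp)
      rw [hes, (heu _ (S.mem _ hk)).1, (heu _ (star_mem (S.mem _ hk))).2] at this
      exact eq_neg_of_add_eq_zero_right this⟩)
    (fun x hx => ⟨mul_mem (mul_mem hx.1 (star_mem hx.1)) hx.1, by simp [hx.2, mul_assoc]⟩)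
  have hj0 : j ≠ 0 := by
    rintro rfl
    exact hk0 (zero_of_small (N := K) ⟨hk, hks⟩ hje fun c hc => by simpa using hc)
  let M : B → Prop := fun m => m ∈ A ∧ ∀ S ∈ F, ∀ a, Bd A a → S.L (fun i => m * a i) = m * S.L a
  have Mmul : ∀ {m n}, M m → M n → M (m * n) := fun hm hn => ⟨mul_mem hm.1 hn.1,
    fun S hS a ha => by
      simp only [mul_assoc]; rw [hm.2 S hS _ (ha.lmul hn.1), hn.2 S hS _ ha]⟩
  have Msub : ∀ {m n}, M m → M n → M (m - n) := fun hm hn => ⟨sub_mem hm.1 hn.1,
    fun S hS a ha => by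
      simp only [sub_mul]; rw [S.sub (ha.lmul hm.1) (ha.lmul hn.1), hm.2 S hS _ ha, hn.2 S hS _ ha]⟩
  have Madd : ∀ {m n}, M m → M n → M (m + n) := fun hm hn => ⟨add_mem hm.1 hn.1,
    fun S hS a ha => by
      simp only [add_mul]
      rw [S.add _ _ (ha.lmul hm.1) (ha.lmul hn.1), hm.2 S hS _ ha, hn.2 S hS _ ha]⟩
  have Mproj : ∀ f ∈ A, star f = f → f * f = f → M f := fun f hf h1 h2 =>
    ⟨hf, fun S _ a ha => S.proj_left ha hf h1 h2⟩
  by_cases good : ∃ m, M m ∧ star m = -m ∧ m ≠ 0
  · obtain ⟨m, hm, h1, h2⟩ := good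
    refine ⟨m, hm.1, 0, zero_mem _, h1, by simp, ⟨e, heA, by simpa [(heu m hm.1).2] using h2⟩, ?_⟩
    intro S hS a ha
    simpa using hm.2 S hS a ha
  have nb : ∀ m, M m → star m = -m → m = 0 := fun m h1 h2 => by
    by_contra h3; exact good ⟨m, h1, h2, h3⟩
  have comm : ∀ f g, M f → M g → star f = f → star g = g → f * g = g * f := fun f g hf hg h1 h2 =>
    sub_eq_zero.1 (nb _ (Msub (Mmul hf hg) (Mmul hg hf)) (by simp [h1, h2]))
  obtain ⟨p, hp⟩ : ∃ p, j * j = -p := ⟨-(j * j), by simp⟩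
  have hp' : p = -(j * j) := by rw [hp, neg_neg]
  have hpA : p ∈ A := hp' ▸ neg_mem (mul_mem hjA hjA)
  have hps : star p = p := by rw [hp']; simp [hjs]
  have hpj : p * j = j := by
    rw [hjs, mul_neg, hp, neg_neg] at hj3; exact hj3
  have hjp : j * p = j := by
    have := congrArg star hpj; simpa [hjs, hps] using this
  have hpp : p * p = p := by
    conv_lhs => rw [hp']; congr; rw [← hp']
    rw [mul_neg, ← mul_assoc, hpj, hp, neg_neg]
  have jj : ∀ y, j * (j * y) = -(p * y) := fun y => by rw [← mul_assoc, hp, neg_mul]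
  have pp : ∀ y, p * (p * y) = p * y := fun y => by rw [← mul_assoc, hpp]
  have pj : ∀ y, p * (j * y) = j * y := fun y => by rw [← mul_assoc, hpj]
  have jp : ∀ y, j * (p * y) = j * y := fun y => by rw [← mul_assoc, hjp]
  have hpf : ∀ f ∈ A, star f = f → f * f = f → p * f = f * p := fun f hf h1 h2 =>
    comm _ _ (Mproj p hpA hps hpp) (Mproj f hf h1 h2) hps h1
  have hpc0 : ∀ x ∈ A, p * x = p * x * p := by
    intro x hx
    have yA : p * x - p * x * p ∈ A := sub_mem (mul_mem hpA hx) (mul_mem (mul_mem hpA hx) hpA)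
    have y1 : p * (p * x - p * x * p) = p * x - p * x * p := by
      simp only [mul_sub, mul_assoc, pp]
    have y2 : (p * x - p * x * p) * p = 0 := by simp only [sub_mul, mul_assoc, hpp, sub_self]
    rw [← sub_eq_zero]
    generalize p * x - p * x * p = y at yA y1 y2
    have y3 : star y * p = star y := by simpa [hps] using congrArg star y1
    have y4 : p * star y = 0 := by simpa [hps] using congrArg star y2
    have := lemZ hF hA (w := p + p - 1) (h := y + star y)
      (fun f hf h1 h2 => by simp only [sub_mul, add_mul, mul_sub, mul_add, hpf f hf h1 h2]; simp)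
      (add_mem yA (star_mem yA)) (by simp [add_comm])
      (by simp only [sub_mul, add_mul, mul_sub, mul_add, y1, y2, y3, y4, one_mul, mul_one]; abel)
    have h2 := congrArg (p * ·) this
    simp only [sub_mul, add_mul, mul_sub, mul_add, y1, y4, one_mul, mul_zero] at h2
    rw [← h2]; abel
  have hpc : ∀ x ∈ A, p * x = x * p := fun x hx => by
    have := congrArg star (hpc0 _ (star_mem hx))
    simp only [star_mul, star_star, hps, ← mul_assoc] at this
    rw [this, ← hpc0 x hx]
  have hjf : ∀ f ∈ A, star f = f → f * f = f → j * f = f * j := by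
    intro f0 hf0 s0 i0
    have hf : f0 * p ∈ A := mul_mem hf0 hpA
    have fs : star (f0 * p) = f0 * p := by rw [star_mul, hps, s0, hpc _ hf0]
    have ff : f0 * p * (f0 * p) = f0 * p := by
      rw [mul_assoc, ← mul_assoc p, hpc _ hf0, mul_assoc, hpp, ← mul_assoc, i0]
    have fp : f0 * p * p = f0 * p := by rw [mul_assoc, hpp]
    suffices h : j * (f0 * p) = f0 * p * j by
      rw [← hpc _ hf0, jp, hpc _ hf0, mul_assoc, hpj] at h; exact h
    generalize f0 * p = f at hf fs ff fp
    have pf : p * f = f := by rw [hpc _ hf, fp]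
    have ff' : ∀ y, f * (f * y) = f * y := fun y => by rw [← mul_assoc, ff]
    have pf' : ∀ y, p * (f * y) = f * y := fun y => by rw [← mul_assoc, pf]
    have fp' : ∀ y, f * (p * y) = f * y := fun y => by rw [← mul_assoc, fp]
    have g1 := Mproj ((1 / 2 : ℝ) • ((p + j) * f * (p - j)))
      (SMulMemClass.smul_mem _ (mul_mem (mul_mem (add_mem hpA hjA) hf) (sub_mem hpA hjA)))
      (by simp only [star_smul, star_trivial, star_mul, star_sub, star_add, hps, hjs, fs,
            sub_neg_eq_add, ← sub_eq_add_neg, mul_assoc])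
      (by simp only [smul_mul_assoc, mul_smul_comm, mul_add, add_mul, mul_sub, sub_mul, mul_assoc,
            jj, pp, pj, jp, pf', fp', ff', fp, pf, ff, hpj, hjp, mul_neg, neg_mul]; module)
    have g2 := Mproj (-(j * f * j)) (neg_mem (mul_mem (mul_mem hjA hf) hjA))
      (by simp [hjs, fs, mul_assoc])
      (by simp only [mul_assoc, jj, pf', ff', mul_neg, neg_mul, neg_neg])
    have g0 := Mproj f hf fs ff
    have g3 := Msub (Msub (Madd g1 g1) g0) g2
    have e3 : (1 / 2 : ℝ) • ((p + j) * f * (p - j)) + (1 / 2 : ℝ) • ((p + j) * f * (p - j)) - f -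
        -(j * f * j) = j * f - f * j := by
      simp only [mul_add, add_mul, mul_sub, sub_mul, mul_assoc, pf', fp, pf]; module
    rw [e3] at g3
    have c := comm _ _ g0 g3 fs (by simp [hjs, fs]; abel)
    have c1 := congrArg (f * ·) c
    have c2 := congrArg (· * f) c
    simp only [mul_sub, sub_mul, mul_assoc, ff', ff] at c1 c2
    rw [sub_self, sub_eq_zero] at c1
    rw [sub_self, eq_comm, sub_eq_zero] at c2
    rw [c2, c1]
  have hjc : ∀ h ∈ A, star h = h → j * h = h * j := by
    intro h hh hs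
    have a1 : j * (p * h + j * h * j) = j * h - h * j := by
      rw [mul_add, jp, mul_assoc j h, jj, ← mul_assoc p, hpc _ hh, mul_assoc, hpj, sub_eq_add_neg]
    have := lemZ hF hA hjf (h := p * h + j * h * j)
      (add_mem (mul_mem hpA hh) (mul_mem (mul_mem hjA hh) hjA))
      (by simp [hjs, hs, hps, hpc _ hh, mul_assoc])
      (by rw [a1, add_mul, hpc _ hh, mul_assoc h, hpj, mul_assoc _ j j, hp, mul_neg, mul_assoc,
            ← hpc _ hh, jp]; abel)
    rw [a1, sub_eq_zero] at this
    exact this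
  refine ⟨j, hjA, j, hjA, hjs, hjs, ⟨e, heA, ?_⟩, fun S _ a ha =>
    bad S heA hes heu hjA hjs hp hpj hpc hjc ha⟩
  rw [(heu j hjA).1, (heu j hjA).2]
  exact fun h => hj0 (two_zero h)

end Pool.Agent.H89.RC
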