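import Pool.Agent.H89.RC4

set_option autoImplicit false

namespace Pool.Agent.H89.RC

open Filter Topology

def Zr (X : Type*) [NormedAddCommGroup X] [NormedSpace ℝ X] : Prop :=
  ∃ T : X →L[ℝ] X, T ≠ 0 ∧
    ∀ (x : X) (f : X →L[ℝ] ℝ), ‖x‖ = 1 → ‖f‖ = 1 → f x = 1 → f (T x) = 0

def On (X : Type*) [NormedAddCommGroup X] [NormedSpace ℝ X] : Prop :=
  ∀ (T : X →L[ℝ] X) (ε : ℝ), 0 < ε →
    ∃ (x : X) (f : X →L[ℝ] ℝ), ‖x‖ = 1 ∧ ‖f‖ = 1 ∧ f x = 1 ∧ ‖T‖ - ε < |f (T x)|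

section
variable {X Y : Type*} [NormedAddCommGroup X] [NormedSpace ℝ X] [NormedAddCommGroup Y]
  [NormedSpace ℝ Y]

theorem Zr.map (e : X ≃ₗᵢ[ℝ] Y) (h : Zr X) : Zr Y := by
  obtain ⟨T, h0, h⟩ := h
  refine ⟨(e : X →L[ℝ] Y) ∘L T ∘L (e.symm : Y →L[ℝ] X), fun hz => h0 ?_, fun y f h1 h2 h3 => ?_⟩
  · ext x
    have := congrArg (fun S : Y →L[ℝ] Y => S (e x)) hz
    simpa using this
  · have := h (e.symm y) (f ∘L (e : X →L[ℝ] Y)) (by simpa using h1)
      (by rw [← h2]; exact f.opNorm_comp_linearIsometryEquiv e) (by simpa using h3)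
    simpa using this

theorem On.map (e : X ≃ₗᵢ[ℝ] Y) (h : On X) : On Y := by
  intro T ε hε
  obtain ⟨x, f, h1, h2, h3, h4⟩ := h ((e.symm : Y →L[ℝ] X) ∘L T ∘L (e : X →L[ℝ] Y)) ε hε
  refine ⟨e x, f ∘L (e.symm : Y →L[ℝ] X), by simpa using h1,
    by rw [← h2]; exact f.opNorm_comp_linearIsometryEquiv e.symm, by simpa using h3, ?_⟩
  have e1 : ‖(e.symm : Y →L[ℝ] X) ∘L T ∘L (e : X →L[ℝ] Y)‖ = ‖T‖ := by
    rw [← T.opNorm_comp_linearIsometryEquiv e]
    exact e.symm.toLinearIsometry.norm_toContinuousLinearMap_comp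
  rw [e1] at h4
  simpa using h4

theorem On.of_dual (h : On (StrongDual ℝ X)) : On X := by
  intro T ε hε
  by_contra hc
  push Not at hc
  set v := ‖T‖ - ε with hv
  obtain ⟨a, G, h1, h2, h3, h4⟩ := h ((ContinuousLinearMap.compL ℝ X X ℝ).flip T) (ε / 2)
    (by positivity)
  have n1 : ‖T‖ ≤ ‖(ContinuousLinearMap.compL ℝ X X ℝ).flip T‖ := by
    refine T.opNorm_le_bound (norm_nonneg _) fun x => ?_
    obtain ⟨f, f1, f2⟩ := exists_dual_vector'' ℝ (T x)
    have q1 := ((ContinuousLinearMap.compL ℝ X X ℝ).flip T).le_opNorm f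
    have q2 := ((ContinuousLinearMap.compL ℝ X X ℝ).flip T f).le_opNorm x
    have q3 : (ContinuousLinearMap.compL ℝ X X ℝ).flip T f x = ‖T x‖ := f2
    rw [q3, norm_norm] at q2
    have q4 := mul_le_mul_of_nonneg_left f1 (norm_nonneg ((ContinuousLinearMap.compL ℝ X X ℝ).flip T))
    nlinarith [norm_nonneg x]
  set γ := G ((ContinuousLinearMap.compL ℝ X X ℝ).flip T a) with hγ
  have low : ∀ (t : ℝ) (ξ : X), (1 - |t| * v) * ‖ξ‖ ≤ ‖ξ - t • T ξ‖ := by
    intro t ξ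
    by_cases h0 : ξ = 0
    · simp [h0]
    have hp : 0 < ‖ξ‖ := norm_pos_iff.2 h0
    obtain ⟨f, f1, f2⟩ := exists_dual_vector ℝ ξ hp.ne'
    have f2' : f ξ = ‖ξ‖ := f2
    have := hc (‖ξ‖⁻¹ • ξ) f (by rw [norm_smul]; simp [hp.ne']) f1 (by simp [f2', hp.ne'])
    rw [map_smul, map_smul, smul_eq_mul, abs_mul, abs_of_pos (inv_pos.2 hp),
      inv_mul_le_iff₀ hp] at this
    have q := f.le_opNorm (ξ - t • T ξ)
    rw [f1, one_mul, map_sub, map_smul, f2', smul_eq_mul, Real.norm_eq_abs] at q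
    have q2 := le_abs_self (t * f (T ξ))
    rw [abs_mul] at q2
    have q3 := mul_le_mul_of_nonneg_left this (abs_nonneg t)
    have q4 := le_abs_self (‖ξ‖ - t * f (T ξ))
    nlinarith
  have up : ∀ t : ℝ, |t| * v < 1 → (1 - |t| * v) * (1 + t * γ) ≤ 1 + t ^ 2 * ‖T‖ ^ 2 := by
    intro t ht
    have hp : 0 < 1 - |t| * v := by linarith
    have b1 : ‖a + t • (ContinuousLinearMap.compL ℝ X X ℝ).flip T a‖ ≤
        (1 + t ^ 2 * ‖T‖ ^ 2) / (1 - |t| * v) := by
      refine ContinuousLinearMap.opNorm_le_bound _ (by positivity) fun η => ?_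
      have e1 : (a + t • (ContinuousLinearMap.compL ℝ X X ℝ).flip T a) η = a (η + t • T η) := by
        simp
      have e2 := low t (η + t • T η)
      have e3 : η + t • T η - t • T (η + t • T η) = η - (t ^ 2) • T (T η) := by
        simp only [map_add, map_smul, smul_add, smul_smul, sq]; abel
      have e4 : ‖η - (t ^ 2) • T (T η)‖ ≤ (1 + t ^ 2 * ‖T‖ ^ 2) * ‖η‖ := by
        refine (norm_sub_le _ _).trans ?_
        rw [norm_smul, Real.norm_eq_abs, abs_of_nonneg (sq_nonneg t)]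
        have r1 := T.le_opNorm (T η)
        have r2 := mul_le_mul_of_nonneg_left (T.le_opNorm η) (norm_nonneg T)
        nlinarith [sq_nonneg t]
      have e5 := a.le_opNorm (η + t • T η)
      rw [e1, div_mul_eq_mul_div, le_div_iff₀ hp]
      rw [e3] at e2
      rw [h1, one_mul] at e5
      nlinarith
    have b2 := G.le_opNorm (a + t • (ContinuousLinearMap.compL ℝ X X ℝ).flip T a)
    rw [h2, one_mul, map_add, map_smul, h3, ← hγ, smul_eq_mul, Real.norm_eq_abs] at b2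
    have b3 := ((le_abs_self _).trans b2).trans b1
    rw [le_div_iff₀ hp] at b3
    linarith
  have up2 : ∀ s : ℝ, 0 < s → s * v < 1 → |γ| - v ≤ s * (‖T‖ ^ 2 + v * |γ|) := by
    intro s hs hsv
    have : (1 - s * v) * (1 + s * |γ|) ≤ 1 + s ^ 2 * ‖T‖ ^ 2 := by
      rcases abs_cases γ with h | h
      · have := up s (by rwa [abs_of_pos hs])
        rwa [abs_of_pos hs, ← h.1] at this
      · have := up (-s) (by rwa [abs_neg, abs_of_pos hs])
        rw [abs_neg, abs_of_pos hs, neg_sq] at this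
        rw [h.1]; linarith
    by_contra hn
    push Not at hn
    nlinarith [mul_lt_mul_of_pos_left hn hs]
  have t1 : Tendsto (fun s : ℝ => s * (‖T‖ ^ 2 + v * |γ|)) (𝓝[>] 0) (𝓝 0) := by
    have : Continuous fun s : ℝ => s * (‖T‖ ^ 2 + v * |γ|) := by fun_prop
    simpa using (this.tendsto 0).mono_left nhdsWithin_le_nhds
  have t2 : Tendsto (fun s : ℝ => s * v) (𝓝[>] 0) (𝓝 0) := by
    have : Continuous fun s : ℝ => s * v := by fun_prop
    simpa using (this.tendsto 0).mono_left nhdsWithin_le_nhds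
  have := ge_of_tendsto t1 (by
    filter_upwards [self_mem_nhdsWithin, t2.eventually (gt_mem_nhds zero_lt_one)] with s h1 h2
    exact up2 s h1 h2)
  linarith

theorem mem_range_of [CompleteSpace X] (l : X →ₗᵢ[ℝ] Y) (z : Y)
    (h : ∀ ε : ℝ, 0 < ε → ∃ ξ, ‖z - l ξ‖ < ε) : z ∈ Set.range l := by
  rw [← l.isometry.isClosedEmbedding.isClosed_range.closure_eq, Metric.mem_closure_iff]
  intro ε hε
  obtain ⟨ξ, h⟩ := h ε hε
  exact ⟨_, ⟨ξ, rfl⟩, by rwa [dist_eq_norm]⟩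

theorem in_range [CompleteSpace X] (G : StrongDual ℝ X →L[ℝ] ℝ)
    (h : ∀ ε : ℝ, 0 < ε → ∃ s : Finset X, ∀ f : StrongDual ℝ X, ‖f‖ ≤ 1 → (∀ η ∈ s, f η = 0) →
      |G f| ≤ ε) : ∃ ξ : X, ∀ f, G f = f ξ := by
  have : G ∈ Set.range (NormedSpace.inclusionInDoubleDualLi ℝ (E := X)) := by
    apply mem_range_of (Y := StrongDual ℝ (StrongDual ℝ X))
    intro ε hε
    obtain ⟨s, hs⟩ := h (ε / 2) (by positivity)
    let N : Submodule ℝ (StrongDual ℝ X) :=
      { carrier := {f | ∀ η ∈ s, f η = 0}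
        add_mem' := fun hx hy η hη => by simp [hx η hη, hy η hη]
        zero_mem' := fun η _ => rfl
        smul_mem' := fun c x hx η hη => by simp [hx η hη] }
    obtain ⟨g, g1, g2⟩ := exists_extension_norm_eq N (G ∘L N.subtypeL)
    have g3 : ‖g‖ ≤ ε / 2 := by
      rw [g2]
      refine ContinuousLinearMap.opNorm_le_of_unit_norm (by positivity) fun f hf => ?_
      exact hs f.1 hf.le f.2
    have := mem_span_of_iInf_ker_le_ker (𝕜 := ℝ) (ι := s)
      (L := fun η : s => ((NormedSpace.inclusionInDoubleDual ℝ X η.1 : StrongDual ℝ X →L[ℝ] ℝ) :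
        StrongDual ℝ X →ₗ[ℝ] ℝ)) (K := ((G - g : StrongDual ℝ X →L[ℝ] ℝ) : StrongDual ℝ X →ₗ[ℝ] ℝ))
      (by
        intro f hf
        have hfN : f ∈ N := fun η hη => by
          have := (Submodule.mem_iInf _).1 hf ⟨η, hη⟩
          simpa using this
        have := g1 ⟨f, hfN⟩
        simp only [LinearMap.mem_ker, ContinuousLinearMap.coe_coe, ContinuousLinearMap.sub_apply]
        rw [this]; simp)
    obtain ⟨c, hc⟩ := (Submodule.mem_span_range_iff_exists_fun ℝ).1 this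
    refine ⟨∑ η : s, c η • η.1, ?_⟩
    have e : G - NormedSpace.inclusionInDoubleDualLi ℝ (∑ η : s, c η • η.1) = g := by
      ext f
      have := congrArg (fun L : StrongDual ℝ X →ₗ[ℝ] ℝ => L f) hc
      simp only [LinearMap.coe_sum, Finset.sum_apply, LinearMap.smul_apply,
        ContinuousLinearMap.coe_coe, NormedSpace.dual_def, ContinuousLinearMap.sub_apply] at this
      have e2 : (NormedSpace.inclusionInDoubleDualLi ℝ (∑ η : s, c η • η.1)) f =
          f (∑ η : s, c η • η.1) := rfl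
      rw [ContinuousLinearMap.sub_apply, e2, map_sum]
      simp only [map_smul]
      rw [this]; ring
    exact e ▸ (by linarith : ‖g‖ < ε)
  obtain ⟨ξ, rfl⟩ := this
  exact ⟨ξ, fun f => rfl⟩

end

end Pool.Agent.H89.RC
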