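import Pool.Agent.H89.RC5

set_option autoImplicit false

namespace Pool.Agent.H89.RC

open Filter Topology

variable {B : Type*} [CStarAlgebra B] {A : NonUnitalStarSubalgebra ℝ B}

noncomputable def lr {m m' : B} (hm : m ∈ A) (hm' : m' ∈ A) : A →L[ℝ] A :=
  LinearMap.mkContinuous
    { toFun := fun x => ⟨m * x + x * m', add_mem (mul_mem hm x.2) (mul_mem x.2 hm')⟩
      map_add' := fun x y => Subtype.ext (by simp only [AddMemClass.coe_add, mul_add, add_mul]; abel)
      map_smul' := fun c x => Subtype.ext (by simp) } (‖m‖ + ‖m'‖) fun x => by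
    change ‖m * x + x * m'‖ ≤ (‖m‖ + ‖m'‖) * ‖(x : B)‖
    refine (norm_add_le _ _).trans ?_
    nlinarith [norm_mul_le m x, norm_mul_le (x : B) m']

theorem lr_coe {m m' : B} (hm : m ∈ A) (hm' : m' ∈ A) (x : A) :
    (lr hm hm' x : B) = m * x + x * m' := rfl

theorem quad {γ c : ℝ} (h : ∀ t : ℝ, (1 + t * γ) ^ 2 ≤ 1 + t ^ 2 * c) : γ = 0 := by
  have : 2 * γ ^ 2 = 0 := zero_of_bound (C := γ ^ 2 * |c|) (by positivity) fun n hn => by
    rcases hn.eq_or_lt with rfl | hn
    · rw [zero_mul]; positivity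
    have h1 := mul_le_mul_of_nonneg_left (h (γ / n)) (sq_nonneg n)
    have e1 : n ^ 2 * (1 + γ / n * γ) ^ 2 = (n + γ ^ 2) ^ 2 := by field_simp
    have e2 : n ^ 2 * (1 + (γ / n) ^ 2 * c) = n ^ 2 + γ ^ 2 * c := by field_simp
    rw [e1, e2] at h1
    nlinarith [mul_le_mul_of_nonneg_left (le_abs_self c) (sq_nonneg γ), sq_nonneg (γ ^ 2)]
  have : γ ^ 2 = 0 := by linarith
  exact pow_eq_zero_iff (by norm_num) |>.1 this

theorem lr_zero {m m' : B} (hm : m ∈ A) (hm' : m' ∈ A) (h1 : star m = -m) (h2 : star m' = -m')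
    (G : A →ₗ[ℝ] ℝ) (hG : ∀ b, |G b| ≤ ‖b‖) (a : A) (ha : ‖a‖ = 1) (hGa : G a = 1) :
    G (lr hm hm' a) = 0 := by
  have one : ‖(1 : B)‖ ≤ 1 := by
    have := CStarRing.norm_star_mul_self (x := (1 : B))
    rw [star_one, mul_one] at this
    nlinarith [norm_nonneg (1 : B)]
  have ha' : ‖(a : B)‖ = 1 := ha
  have gen : ∀ (b : A) (m : B), star m = -m → ((b : B) = m * a ∨ (b : B) = a * m) → G b = 0 := by
    intro b m hm hb
    refine quad (c := ‖m‖ ^ 2) fun t => ?_
    have q1 := orth_norm one (z := m) (by simp [hm]) t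
    have q2 := hG (a + t • b)
    rw [map_add, map_smul, hGa, smul_eq_mul] at q2
    have q3 : ‖a + t • b‖ ≤ ‖1 + t • m‖ := by
      change ‖(a : B) + t • (b : B)‖ ≤ _
      rcases hb with hb | hb
      · rw [hb, show (a : B) + t • (m * a) = (1 + t • m) * a by simp [add_mul]]
        exact (norm_mul_le _ _).trans (by rw [ha', mul_one])
      · rw [hb, show (a : B) + t • (a * m) = a * (1 + t • m) by simp [mul_add]]
        exact (norm_mul_le _ _).trans (by rw [ha', one_mul])
    have q4 := pow_le_pow_left₀ (abs_nonneg _) (q2.trans q3) 2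
    rw [sq_abs] at q4
    linarith
  have : lr hm hm' a = ⟨m * a, mul_mem hm a.2⟩ + ⟨a * m', mul_mem a.2 hm'⟩ := rfl
  rw [this, map_add, gen _ m h1 (Or.inl rfl), gen _ m' h2 (Or.inr rfl), add_zero]

theorem zr_self {k : B} (hk : k ∈ A) (hks : star k = -k) (hk0 : k ≠ 0) : Zr A := by
  refine ⟨lr hk (zero_mem A), fun h => hk0 ?_, fun x f h1 h2 h3 =>
    lr_zero hk (zero_mem A) hks (by simp) f (fun b => ?_) x h1 h3⟩
  · have := lr_coe hk (zero_mem A) ⟨star k, star_mem hk⟩
    rw [h] at this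
    simpa using this.symm
  · simpa [h2] using f.le_opNorm b

variable {X : Type*} [NormedAddCommGroup X] [NormedSpace ℝ X] (φ : A ≃ₗᵢ[ℝ] StrongDual ℝ X)

open Classical in
noncomputable def ev (b : B) : StrongDual ℝ X := if h : b ∈ A then φ ⟨b, h⟩ else 0

theorem ev_coe (b : A) : ev φ (b : B) = φ b := by simp [ev]

theorem ev_symm (f : StrongDual ℝ X) : ev φ (φ.symm f : B) = f := by simp [ev_coe]

theorem ev_add {a b : B} (ha : a ∈ A) (hb : b ∈ A) : ev φ (a + b) = ev φ a + ev φ b := by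
  have := ev_coe φ (⟨a, ha⟩ + ⟨b, hb⟩)
  rw [map_add, ← ev_coe, ← ev_coe] at this
  exact this

theorem ev_smul (c : ℝ) {a : B} (ha : a ∈ A) : ev φ (c • a) = c • ev φ a := by
  have := ev_coe φ (c • ⟨a, ha⟩)
  rw [map_smul, ← ev_coe] at this
  exact this

theorem ev_norm {a : B} (ha : a ∈ A) : ‖ev φ a‖ = ‖a‖ := by
  have := ev_coe φ ⟨a, ha⟩
  rw [show ev φ a = φ ⟨a, ha⟩ from this, φ.norm_map]; rfl

theorem ev_inj {a b : B} (ha : a ∈ A) (hb : b ∈ A) (h : ev φ a = ev φ b) : a = b := by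
  have h1 := ev_coe φ ⟨a, ha⟩
  have h2 := ev_coe φ ⟨b, hb⟩
  exact congrArg Subtype.val (φ.injective (h1.symm.trans (h.trans h2)))

variable {ι : Type*} (U : Ultrafilter ι)

def IsLim (a : ι → B) (x : B) : Prop :=
  x ∈ A ∧ ∀ ξ, Tendsto (fun i => ev φ (a i) ξ) U (𝓝 (ev φ x ξ))

theorem IsLim.unique {a : ι → B} {x y : B} (hx : IsLim φ U a x) (hy : IsLim φ U a y) : x = y :=
  ev_inj φ hx.1 hy.1 (ContinuousLinearMap.ext fun ξ => tendsto_nhds_unique (hx.2 ξ) (hy.2 ξ))

theorem ex_lim {a : ι → B} (ha : Bd A a) : ∃ x, IsLim φ U a x := by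
  obtain ⟨h1, M, hM⟩ := ha
  obtain ⟨f, -, hf⟩ := (WeakDual.isCompact_closedBall (0 : StrongDual ℝ X) M).ultrafilter_le_nhds
    (U.map fun i => StrongDual.toWeakDual (ev φ (a i))) (by
      rw [le_principal_iff, Ultrafilter.mem_coe, Ultrafilter.mem_map]
      refine univ_mem' fun i => ?_
      simpa [ev_norm φ (h1 i)] using hM i)
  refine ⟨φ.symm (WeakDual.toStrongDual f), (φ.symm _).2, fun ξ => ?_⟩
  rw [ev_symm]
  exact ((WeakDual.eval_continuous ξ).tendsto f).comp hf

open Classical in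
noncomputable def lim0 (a : ι → B) : B := if h : Bd A a then (ex_lim φ U h).choose else 0

theorem lim0_spec {a : ι → B} (ha : Bd A a) : IsLim φ U a (lim0 φ U a) := by
  rw [lim0, dif_pos ha]; exact (ex_lim φ U ha).choose_spec

noncomputable def limS : LimStr A ι where
  L := lim0 φ U
  mem a ha := (lim0_spec φ U ha).1
  add a b ha hb := (lim0_spec φ U (ha.add hb)).unique φ U
    ⟨add_mem (lim0_spec φ U ha).1 (lim0_spec φ U hb).1, fun ξ => by
      simp only [ev_add φ (ha.1 _) (hb.1 _), ev_add φ (lim0_spec φ U ha).1 (lim0_spec φ U hb).1]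
      exact ((lim0_spec φ U ha).2 ξ).add ((lim0_spec φ U hb).2 ξ)⟩
  smul c a ha := (lim0_spec φ U (ha.smul c)).unique φ U
    ⟨SMulMemClass.smul_mem c (lim0_spec φ U ha).1, fun ξ => by
      simp only [ev_smul φ c (ha.1 _), ev_smul φ c (lim0_spec φ U ha).1]
      exact ((lim0_spec φ U ha).2 ξ).const_smul c⟩
  const x hx := (lim0_spec φ U (Bd.const hx)).unique φ U ⟨hx, fun ξ => tendsto_const_nhds⟩
  norm a c ha h := by
    obtain ⟨i⟩ : Nonempty ι := U.neBot.nonempty
    rw [← ev_norm φ (lim0_spec φ U ha).1]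
    refine ContinuousLinearMap.opNorm_le_bound _ ((norm_nonneg _).trans (h i)) fun ξ => ?_
    refine le_of_tendsto' ((lim0_spec φ U ha).2 ξ).norm fun i => ?_
    refine ((ev φ (a i)).le_opNorm ξ).trans ?_
    rw [ev_norm φ (ha.1 i)]
    exact mul_le_mul_of_nonneg_right (h i) (norm_nonneg _)

theorem hasExt : HasExt (Set.range (limS φ (ι := WeakDual ℝ X))) := by
  classical
  intro N hN hc
  let K : Set (WeakDual ℝ X) := {f | ‖WeakDual.toStrongDual f‖ ≤ 1 ∧
    (φ.symm (WeakDual.toStrongDual f) : B) ∈ N}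
  have hb : IsCompact {f : WeakDual ℝ X | ‖WeakDual.toStrongDual f‖ ≤ 1} := by
    convert WeakDual.isCompact_closedBall (0 : StrongDual ℝ X) 1 using 1
    ext f; simp
  have hK : IsClosed K := by
    rw [isClosed_iff_ultrafilter]
    intro f U hU hK
    refine ⟨isClosed_iff_ultrafilter.1 hb.isClosed f U hU
      (mem_of_superset hK fun g hg => hg.1), ?_⟩
    let a : WeakDual ℝ X → B := fun g =>
      if g ∈ K then (φ.symm (WeakDual.toStrongDual g) : B) else 0
    have aN : ∀ g, a g ∈ N := fun g => by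
      by_cases h : g ∈ K
      · simp only [a, if_pos h]; exact h.2
      · simp only [a, if_neg h]; exact N.zero_mem
    have ha : Bd A a := ⟨fun g => hN _ (aN g), 1, fun g => by
      by_cases h : g ∈ K
      · simp only [a, if_pos h]; exact (φ.symm.norm_map _).trans_le h.1
      · simp [a, if_neg h]⟩
    have := hc _ ⟨U, rfl⟩ a ha aN
    have e : (limS φ U).L a = φ.symm (WeakDual.toStrongDual f) :=
      (lim0_spec φ U ha).unique φ U ⟨(φ.symm _).2, fun ξ => by
        rw [ev_symm]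
        refine (((WeakDual.eval_continuous ξ).tendsto f).mono_left hU).congr' ?_
        filter_upwards [hK] with g hg
        simp only [a, if_pos hg, ev_symm]; rfl⟩
    exact e ▸ this
  have : LocallyConvexSpace ℝ (WeakDual ℝ X) := WeakBilin.locallyConvexSpace
  obtain ⟨f, hf, hf2⟩ := (hb.of_isClosed_subset hK fun g hg => hg.1).extremePoints_nonempty
    ⟨0, by simp [K]⟩
  refine ⟨_, hf.2, (φ.symm.norm_map _).trans_le hf.1, fun z hz h1 h2 => ?_⟩
  set v := φ.symm (WeakDual.toStrongDual f) with hv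
  have fv : f = StrongDual.toWeakDual (φ v) := by simp [hv]
  let z' : A := ⟨z, hN z hz⟩
  have k1 : StrongDual.toWeakDual (φ (v + z')) ∈ K :=
    ⟨(φ.norm_map _).trans_le h1, by simpa using N.add_mem hf.2 hz⟩
  have k2 : StrongDual.toWeakDual (φ (v - z')) ∈ K :=
    ⟨(φ.norm_map _).trans_le h2, by simpa using N.sub_mem hf.2 hz⟩
  have := hf2 k1 k2 ⟨1 / 2, 1 / 2, by norm_num, by norm_num, by norm_num, by
    rw [fv, ← map_smul, ← map_smul, ← map_smul, ← map_smul, ← map_add, ← map_add]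
    congr 2; module⟩
  rw [fv] at this
  have h3 := φ.injective (StrongDual.toWeakDual.injective this)
  have h4 : z' = 0 := by simpa using h3
  exact congrArg Subtype.val h4

include φ in
theorem zr_pre [CompleteSpace X] [PartialOrder B] [StarOrderedRing B] (hA : IsClosed (A : Set B))
    {k : B} (hk : k ∈ A) (hks : star k = -k) (hk0 : k ≠ 0) : Zr X := by
  classical
  obtain ⟨m, hm, m', hm', s1, s2, ⟨x, hx, hx0⟩, hc⟩ := alg (hasExt φ) hA hk hks hk0
  let T := lr hm hm'
  have pre : ∀ ξ : X, ∃ η : X, ∀ a : A, φ (T a) ξ = φ a η := by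
    intro ξ
    obtain ⟨η, hη⟩ := in_range ((ContinuousLinearMap.apply ℝ ℝ ξ) ∘L (φ : A →L[ℝ] StrongDual ℝ X) ∘L
        T ∘L (φ.symm : StrongDual ℝ X →L[ℝ] A)) (by
      intro ε hε
      by_contra hn
      push Not at hn
      choose g g1 g2 g3 using hn
      let U : Ultrafilter (WeakDual ℝ X) :=
        (Ultrafilter.of (atTop : Filter (Finset X))).map fun s => StrongDual.toWeakDual (g s)
      let a : WeakDual ℝ X → B := fun g =>
        if ‖WeakDual.toStrongDual g‖ ≤ 1 then (φ.symm (WeakDual.toStrongDual g) : B) else 0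
      have ha : Bd A a := ⟨fun g => by
        by_cases h : ‖WeakDual.toStrongDual g‖ ≤ 1
        · simp only [a, if_pos h]; exact (φ.symm _).2
        · simp only [a, if_neg h]; exact zero_mem A, 1, fun g => by
        by_cases h : ‖WeakDual.toStrongDual g‖ ≤ 1
        · simp only [a, if_pos h]; exact (φ.symm.norm_map _).trans_le h
        · simp [a, if_neg h]⟩
      have ag : ∀ s, a (StrongDual.toWeakDual (g s)) = φ.symm (g s) := fun s => by
        simp [a, g1 s]
      have e0 : ev φ (0 : B) = 0 := by simpa using ev_coe φ 0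
      have e : (limS φ U).L a = 0 :=
        (lim0_spec φ U ha).unique φ U ⟨zero_mem A, fun η => by
          rw [e0]
          change Tendsto (fun s => ev φ (a (StrongDual.toWeakDual (g s))) η) _ _
          refine tendsto_const_nhds.congr' ?_
          filter_upwards [Ultrafilter.of_le _ (eventually_ge_atTop ({η} : Finset X))] with s hs
          rw [ag, ev_symm, g2 s η (hs (by simp))]; rfl⟩
      have h1 := hc _ ⟨U, rfl⟩ a ha
      rw [e, mul_zero, zero_mul, add_zero] at h1
      have h2 := (lim0_spec φ U ((ha.lmul hm).add (ha.rmul hm'))).2 ξ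
      rw [show lim0 φ U _ = 0 from h1, e0] at h2
      change Tendsto (fun s => ev φ (m * a (StrongDual.toWeakDual (g s)) +
        a (StrongDual.toWeakDual (g s)) * m') ξ) _ _ at h2
      have h3 := ge_of_tendsto' h2.abs (b := ε) fun s => by
        rw [ag, ← lr_coe hm hm', ev_coe]; exact (g3 s).le
      simp at h3
      linarith)
    exact ⟨η, fun a => by simpa using hη (φ a)⟩
  choose t ht using pre
  have sep : ∀ η η' : X, (∀ a : A, φ a η = φ a η') → η = η' := fun η η' h =>
    (NormedSpace.eq_iff_forall_dual_eq ℝ).2 fun f => by simpa using h (φ.symm f)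
  let T' : X →L[ℝ] X := LinearMap.mkContinuous
    { toFun := t
      map_add' := fun x y => sep _ _ fun a => by simp only [map_add, ← ht]
      map_smul' := fun c x => sep _ _ fun a => by simp only [map_smul, ← ht, RingHom.id_apply] }
    ‖T‖ fun ξ => by
      refine NormedSpace.norm_le_dual_bound ℝ _ (by positivity) fun f => ?_
      have := ht ξ (φ.symm f)
      rw [φ.apply_symm_apply] at this
      change ‖f (t ξ)‖ ≤ _
      rw [← this]
      refine ((φ _).le_opNorm ξ).trans ?_
      rw [φ.norm_map]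
      have q := T.le_opNorm (φ.symm f)
      rw [φ.symm.norm_map] at q
      nlinarith [norm_nonneg ξ]
  refine ⟨T', fun h0 => hx0 ?_, fun ξ f h1 h2 h3 => ?_⟩
  · have : φ (T ⟨x, hx⟩) = 0 := ContinuousLinearMap.ext fun ξ => by
      rw [ht, show t ξ = T' ξ from rfl, h0]; simp
    have h4 : T ⟨x, hx⟩ = 0 := by simpa using this
    exact congrArg Subtype.val h4
  · have := ht ξ (φ.symm f)
    rw [φ.apply_symm_apply] at this
    change f (t ξ) = 0
    rw [← this]
    exact lr_zero hm hm' s1 s2 (((ContinuousLinearMap.apply ℝ ℝ ξ) ∘L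
      (φ : A →L[ℝ] StrongDual ℝ X) : A →L[ℝ] ℝ) : A →ₗ[ℝ] ℝ)
      (fun b => by simpa [h1] using (φ b).le_opNorm ξ) (φ.symm f) (by simpa using h2)
      (by simpa using h3)

end Pool.Agent.H89.RC
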