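import Pool.Agent.H89.RC6

set_option autoImplicit false

namespace Pool.Agent.H89.RC

variable {B : Type*} [CStarAlgebra B] {A : NonUnitalStarSubalgebra ℝ B}

theorem char0 {C : Type*} [CommCStarAlgebra C] (a : C) (ha : IsSelfAdjoint a) :
    a = 0 ∨ ∃ φ : WeakDual.characterSpace ℂ C, |(φ a).re| = ‖a‖ := by
  rcases subsingleton_or_nontrivial C with h | h
  · exact Or.inl (Subsingleton.elim _ _)
  right
  rcases CStarAlgebra.norm_or_neg_norm_mem_spectrum ha with h | h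
  · obtain ⟨φ, hφ⟩ := WeakDual.CharacterSpace.mem_spectrum_iff_exists.1
      (spectrum.algebraMap_mem ℂ h)
    exact ⟨φ, by rw [hφ]; simp⟩
  · obtain ⟨φ, hφ⟩ := WeakDual.CharacterSpace.mem_spectrum_iff_exists.1
      (spectrum.algebraMap_mem ℂ h)
    exact ⟨φ, by rw [hφ]; simp⟩

open scoped IsMulCommutative in
theorem chars (hc : ∀ a ∈ A, star a = a) (a : A) :
    ∃ ψ : A →ₗ[ℝ] ℝ, (∀ x y, ψ (x * y) = ψ x * ψ y) ∧ (∀ b, |ψ b| ≤ ‖b‖) ∧ |ψ a| = ‖a‖ := by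
  have comm : ∀ x ∈ A, ∀ y ∈ A, x * y = y * x := fun x hx y hy => by
    rw [← hc _ (mul_mem hx hy), star_mul, hc x hx, hc y hy]
  let S : StarSubalgebra ℂ B := (StarAlgebra.adjoin ℂ (A : Set B)).topologicalClosure
  have hS : IsClosed (S : Set B) := (StarAlgebra.adjoin ℂ (A : Set B)).isClosed_topologicalClosure
  have : IsMulCommutative (StarAlgebra.adjoin ℂ (A : Set B)) :=
    StarAlgebra.isMulCommutative_adjoin ℂ (fun x hx y hy => comm x hx y hy)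
      (fun x hx y hy => by rw [hc y hy]; exact comm x hx y hy)
  let _ : CommRing S := (StarAlgebra.adjoin ℂ (A : Set B)).commRingTopologicalClosure mul_comm
  let _ : CommCStarAlgebra S := { }
  have mem : ∀ x : A, (x : B) ∈ S := fun x =>
    StarSubalgebra.le_topologicalClosure _ (StarAlgebra.subset_adjoin ℂ _ x.2)
  have sa : ∀ x : A, IsSelfAdjoint (⟨x, mem x⟩ : S) := fun x => Subtype.ext (hc _ x.2)
  rcases char0 (⟨a, mem a⟩ : S) (sa a) with h | ⟨φ, hφ⟩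
  · have : a = 0 := Subtype.ext (congrArg (Subtype.val : S → B) h)
    exact ⟨0, by simp, by simp, by simp [this]⟩
  have im : ∀ x : A, (φ ⟨x, mem x⟩).im = 0 := fun x => by
    have := map_star φ (⟨x, mem x⟩ : S)
    rw [(sa x).star_eq] at this
    exact Complex.conj_eq_iff_im.1 this.symm
  refine ⟨{ toFun := fun x => (φ ⟨x, mem x⟩).re
            map_add' := fun x y => by rw [← Complex.add_re, ← map_add]; rfl
            map_smul' := fun c x => by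
              have : (⟨(c • x : A), mem _⟩ : S) = (c : ℂ) • ⟨x, mem x⟩ :=
                Subtype.ext (by simp)
              rw [this, map_smul]; simp }, fun x y => ?_, fun b => ?_, hφ⟩
  · change (φ (⟨x, mem x⟩ * ⟨y, mem y⟩)).re = (φ ⟨x, mem x⟩).re * (φ ⟨y, mem y⟩).re
    rw [map_mul, Complex.mul_re, im, zero_mul, sub_zero]
  · exact (Complex.abs_re_le_norm _).trans
      (AlgHom.norm_apply_le_self_mul_norm_one φ (⟨b, mem b⟩ : S) |>.trans (by
        have := CStarRing.norm_star_mul_self (x := (1 : S))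
        rw [star_one, mul_one] at this
        exact mul_le_of_le_one_right (norm_nonneg _) (by nlinarith [norm_nonneg (1 : S)])))

theorem on_self (hc : ∀ a ∈ A, star a = a) [Nontrivial A] : On A := by
  intro T ε hε
  by_cases hT : ‖T‖ < ε
  · obtain ⟨x, hx⟩ := exists_norm_eq A zero_le_one
    obtain ⟨f, f1, f2⟩ := exists_dual_vector ℝ x (by rw [hx]; norm_num)
    exact ⟨x, f, hx, f1, by rw [f2, hx]; rfl, by linarith [abs_nonneg (f (T x))]⟩
  push Not at hT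
  obtain ⟨x, hx, hy⟩ := T.exists_lt_apply_of_lt_opNorm (r := ‖T‖ - ε / 2) (by linarith)
  set y := T x with hyd
  have hy0 : 0 < ‖y‖ := by linarith
  obtain ⟨δ, δ1, δ2, δ3⟩ := chars hc y
  have nb : ∀ (b : A) (c : ℝ), (∀ ψ : A →ₗ[ℝ] ℝ, (∀ x y, ψ (x * y) = ψ x * ψ y) →
      (∀ b, |ψ b| ≤ ‖b‖) → |ψ b| ≤ c) → ‖b‖ ≤ c := fun b c h => by
    obtain ⟨ψ, h1, h2, h3⟩ := chars hc b
    rw [← h3]; exact h ψ h1 h2
  set x0 := δ x with hx0
  have hx0' : |x0| ≤ 1 := (δ2 x).trans hx.le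
  set η : ℝ := min (ε / (2 * ‖T‖)) 1 with hη
  have hTp : 0 < ‖T‖ := by linarith
  have η0 : 0 < η := by positivity
  have η1 : η ≤ 1 := min_le_right _ _
  have η2 : ‖T‖ * η ≤ ε / 2 := by
    have : η ≤ ε / (2 * ‖T‖) := min_le_left _ _
    rw [le_div_iff₀ (by positivity)] at this; linarith
  obtain ⟨N, hN⟩ := exists_pow_lt_of_lt_one (show 0 < η / 2 by positivity)
    (show 1 - η ^ 2 / 4 < 1 by have := pow_pos η0 2; linarith)
  have exg : ∀ N : ℕ, ∃ g : A, ∀ ψ : A →ₗ[ℝ] ℝ, (∀ x y, ψ (x * y) = ψ x * ψ y) →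
      ψ g = (ψ y / ‖y‖) ^ 2 * (1 - (ψ x - x0) ^ 2 / 4) ^ N := by
    intro N
    induction N with
    | zero => exact ⟨(‖y‖ ^ 2)⁻¹ • (y * y), fun ψ h => by simp [h]; field_simp⟩
    | succ N ih =>
      obtain ⟨g, hg⟩ := ih
      refine ⟨g - (1 / 4 : ℝ) • (g * x * x - (2 * x0) • (g * x) + (x0 ^ 2) • g), fun ψ h => ?_⟩
      simp only [map_sub, map_add, map_smul, h, smul_eq_mul, hg ψ h]; ring
  obtain ⟨g, hg⟩ := exg N
  have gb : ∀ ψ : A →ₗ[ℝ] ℝ, (∀ x y, ψ (x * y) = ψ x * ψ y) → (∀ b, |ψ b| ≤ ‖b‖) →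
      |ψ x| ≤ 1 ∧ 0 ≤ ψ g ∧ ψ g ≤ 1 ∧ |ψ g * (x0 - ψ x)| ≤ η := by
    intro ψ h1 h2
    have a1 : |ψ x| ≤ 1 := (h2 x).trans hx.le
    have a2 : (ψ y / ‖y‖) ^ 2 ≤ 1 := by
      rw [div_pow, div_le_one (by positivity), ← sq_abs]
      exact pow_le_pow_left₀ (abs_nonneg _) (h2 y) 2
    have a3 : |x0 - ψ x| ≤ 2 := (abs_sub _ _).trans (by linarith)
    have a4 : (ψ x - x0) ^ 2 = |x0 - ψ x| ^ 2 := by rw [sq_abs]; ring
    have a5 : 0 ≤ 1 - (ψ x - x0) ^ 2 / 4 := by rw [a4]; nlinarith [abs_nonneg (x0 - ψ x)]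
    have a6 : (1 - (ψ x - x0) ^ 2 / 4) ^ N ≤ 1 := pow_le_one₀ a5 (by nlinarith [sq_nonneg (ψ x - x0)])
    have a7 : 0 ≤ ψ g := by rw [hg ψ h1]; positivity
    have a8 : ψ g ≤ (1 - (ψ x - x0) ^ 2 / 4) ^ N := by
      rw [hg ψ h1]; exact mul_le_of_le_one_left (by positivity) a2
    refine ⟨a1, a7, a8.trans a6, ?_⟩
    rw [abs_mul, abs_of_nonneg a7]
    rcases le_total |x0 - ψ x| η with h | h
    · nlinarith [abs_nonneg (x0 - ψ x)]
    · have : (1 - (ψ x - x0) ^ 2 / 4) ^ N ≤ (1 - η ^ 2 / 4) ^ N :=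
        pow_le_pow_left₀ a5 (by rw [a4]; nlinarith) N
      nlinarith [abs_nonneg (x0 - ψ x)]
  have δg : δ g = 1 := by
    rw [hg δ δ1, div_pow, ← sq_abs, δ3, div_self (by positivity)]; simp [hx0]
  have n1 : ‖x + g - g * x‖ ≤ 1 := nb _ _ fun ψ h1 h2 => by
    obtain ⟨a1, a2, a3, -⟩ := gb ψ h1 h2
    rw [map_sub, map_add, h1, abs_le] at *
    constructor <;> nlinarith
  have n2 : ‖-(x - g - g * x)‖ ≤ 1 := nb _ _ fun ψ h1 h2 => by
    obtain ⟨a1, a2, a3, -⟩ := gb ψ h1 h2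
    rw [map_neg, map_sub, map_sub, h1, abs_le] at *
    constructor <;> nlinarith
  have n3 : ‖x0 • g - g * x‖ ≤ η := nb _ _ fun ψ h1 h2 => by
    obtain ⟨-, -, -, a4⟩ := gb ψ h1 h2
    rw [map_sub, map_smul, h1, smul_eq_mul]
    convert a4 using 2; ring
  let f : A →L[ℝ] ℝ := δ.mkContinuous 1 fun b => by simpa using δ2 b
  have fin : ∀ z : A, ‖z‖ ≤ 1 → δ z = 1 → ‖z‖ = 1 ∧ ‖f‖ = 1 ∧ f z = 1 := fun z h1 h2 => by
    have b1 : ‖z‖ = 1 := le_antisymm h1 (by simpa [h2] using δ2 z)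
    have b2 : f z = 1 := h2
    refine ⟨b1, le_antisymm (δ.mkContinuous_norm_le zero_le_one _) ?_, b2⟩
    simpa [b1, b2] using f.le_opNorm z
  obtain ⟨p1, p2, p3⟩ := fin _ n1 (by rw [map_sub, map_add, δ1, δg]; ring)
  obtain ⟨q1, -, q3⟩ := fin _ n2 (by rw [map_neg, map_sub, map_sub, δ1, δg]; ring)
  by_contra hcon
  push Not at hcon
  have c1 := hcon _ f p1 p2 p3
  have c2 := hcon _ f q1 p2 q3
  have e : y = ((1 + x0) / 2) • T (x + g - g * x) - ((1 - x0) / 2) • T (-(x - g - g * x)) -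
      T (x0 • g - g * x) := by
    rw [hyd, ← map_smul, ← map_smul, ← map_sub, ← map_sub]; congr 1; module
  have c3 : |δ (T (x0 • g - g * x))| ≤ ε / 2 :=
    (δ2 _).trans ((T.le_opNorm _).trans ((mul_le_mul_of_nonneg_left n3 hTp.le).trans η2))
  have e2 := congrArg δ e
  rw [map_sub, map_sub, map_smul, map_smul, smul_eq_mul, smul_eq_mul] at e2
  change |δ _| ≤ _ at c1 c2
  rw [abs_le] at c1 c2 c3 hx0'
  have : |δ y| ≤ ‖T‖ - ε / 2 := by
    rw [e2, abs_le]; constructor <;> nlinarith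
  linarith

end Pool.Agent.H89.RC
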