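import Mathlib

set_option autoImplicit false

namespace Pool.Agent.H89.RG

open Finset Real

abbrev V := (ℕ × ℕ) →₀ ℝ

noncomputable def n1 (y : V) : ℝ := ∑ k ∈ y.support, |y k|

theorem n1_nn (y : V) : 0 ≤ n1 y := by unfold n1; positivity

theorem le_n1 (y : V) (s : Finset (ℕ × ℕ)) : ∑ k ∈ s, |y k| ≤ n1 y := by
  rw [← sum_filter_ne_zero]
  exact sum_le_sum_of_subset_of_nonneg (fun k h => Finsupp.mem_support_iff.2
    (abs_ne_zero.1 (mem_filter.1 h).2)) fun _ _ _ => abs_nonneg _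

theorem n1_mono {y z : V} (h : ∀ k, |y k| ≤ |z k|) : n1 y ≤ n1 z :=
  (sum_le_sum fun k _ => h k).trans (le_n1 z _)

theorem n1_sum {ι : Type} (s : Finset ι) (y : ι → V) : n1 (∑ j ∈ s, y j) ≤ ∑ j ∈ s, n1 (y j) := by
  refine le_trans ?_ (sum_le_sum fun j _ => le_n1 (y j) (∑ j ∈ s, y j).support)
  rw [sum_comm]
  exact sum_le_sum fun k _ => by rw [Finsupp.finset_sum_apply]; exact abs_sum_le_sum_abs _ _

theorem n1_smul (t : ℝ) (y : V) : n1 (t • y) ≤ |t| * n1 y := by
  refine le_trans (le_of_eq ?_) (mul_le_mul_of_nonneg_left (le_n1 y (t • y).support) (abs_nonneg t))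
  simp [n1, mul_sum]

theorem n1_single (p : ℕ × ℕ) (t : ℝ) : n1 (Finsupp.single p t) ≤ |t| :=
  (sum_le_sum_of_subset_of_nonneg Finsupp.support_single_subset fun _ _ _ =>
    abs_nonneg _).trans (by simp)

theorem lev_le (y : V) (N n : ℕ) : ∑ i ∈ range N, |y (n, i)| ≤ n1 y := by
  refine le_trans (le_of_eq ?_) (le_n1 y ((range N).image fun i => (n, i)))
  rw [sum_image fun _ _ _ _ h => (Prod.mk.inj h).2]

theorem scal {ι : Type} (s : Finset ι) (t w : ι → ℝ) (w0 : ∀ j ∈ s, 0 ≤ w j)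
    (w1 : ∀ j ∈ s, t j ≠ 0 → 0 < w j) (w2 : ∑ j ∈ s, w j ≤ 1) :
    |(∑ j ∈ s, t j) * log (∑ j ∈ s, t j) - ∑ j ∈ s, t j * log (t j)| ≤
      ∑ j ∈ s, |t j| * (1 - log (w j)) := by
  have hT := abs_sum_le_sum_abs t s
  have hj := fun j (h : j ∈ s) => single_le_sum (f := fun j => |t j|) (fun _ _ => abs_nonneg _) h
  generalize hM : ∑ j ∈ s, |t j| = M at hT hj
  have key : ∀ u : ℝ, |u| ≤ M → ∀ v, 0 ≤ v → (u ≠ 0 → 0 < v) →
      |u * (log M - log u)| ≤ M * v - |u| - |u| * log v := fun u h v v0 v1 => by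
    by_cases u0 : u = 0
    · simpa [u0] using mul_nonneg ((abs_nonneg u).trans h) v0
    have a := abs_pos.2 u0
    have b := v1 u0
    have c := log_le_sub_one_of_pos (show 0 < M * v / |u| from div_pos (mul_pos (a.trans_le h) b) a)
    rw [log_div (mul_pos (a.trans_le h) b).ne' a.ne', log_mul (a.trans_le h).ne' b.ne'] at c
    have := mul_le_mul_of_nonneg_left c a.le
    rw [mul_sub _ (_ / _), mul_div_cancel₀ _ a.ne'] at this
    rw [abs_mul, ← log_abs u, abs_of_nonneg (sub_nonneg.2 (log_le_log a h))]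
    linarith
  have h1 := key _ hT 1 zero_le_one fun _ => one_pos
  have h2 := (abs_sum_le_sum_abs _ s).trans
    (sum_le_sum fun j h => key _ (hj j h) (w j) (w0 j h) (w1 j h))
  simp only [mul_sub, sum_sub_distrib, ← sum_mul, ← mul_sum, hM, mul_one] at h1 h2 ⊢
  have M0 := (abs_nonneg _).trans hT
  rw [abs_le] at *
  simp only [log_one, mul_zero] at h1
  constructor <;> nlinarith [abs_nonneg (∑ j ∈ s, t j)]

noncomputable def Om (N n : ℕ) (y : V) : ℝ :=
  (∑ i ∈ range N, y (n, i)) * log (∑ i ∈ range N, y (n, i)) -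
    ∑ i ∈ range N, y (n, i) * log (y (n, i))

theorem Om_congr (N n : ℕ) {y z : V} (h : ∀ i, y (n, i) = z (n, i)) : Om N n y = Om N n z := by
  simp only [Om, h]

theorem Om_zero (N n : ℕ) {y : V} (h : ∀ i, y (n, i) = 0) : Om N n y = 0 := by simp [Om, h]

theorem Om_smul (N n : ℕ) (c : ℝ) (y : V) : Om N n (c • y) = c * Om N n y := by
  have : ∀ t, c * t * log (c * t) = c * (t * log t) + c * log c * t := fun t => by
    by_cases h : c = 0 ∨ t = 0
    · rcases h with h | h <;> simp [h]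
    · rw [log_mul (fun e => h (.inl e)) fun e => h (.inr e)]; ring
  simp only [Om, Finsupp.smul_apply, smul_eq_mul, ← mul_sum, this, sum_add_distrib]
  ring

theorem Om_single (N n : ℕ) (p : ℕ × ℕ) (t : ℝ) : Om N n (Finsupp.single p t) = 0 := by
  by_cases h : p.1 = n
  · obtain ⟨m, k⟩ := p
    obtain rfl : m = n := h
    have : ∀ i, Finsupp.single (m, k) t (m, i) * log (Finsupp.single (m, k) t (m, i)) =
        if k = i then t * log t else 0 := fun i => by
      by_cases h : k = i <;> simp [h]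
    simp only [Om, this]
    by_cases h : k < N <;> simp [Finsupp.single_apply, h]
  · exact Om_zero _ _ fun i => Finsupp.single_eq_of_ne fun e => h (e ▸ rfl)

theorem Om_le {N : ℕ} (hN : 1 ≤ N) (n : ℕ) (y : V) : |Om N n y| ≤ N * n1 y := by
  have N0 : (0 : ℝ) < N := by exact_mod_cast hN
  refine (scal (range N) _ (fun _ => (N : ℝ)⁻¹) (fun _ _ => by positivity)
    (fun _ _ _ => by positivity) (by simp [N0.ne'])).trans ?_
  rw [← sum_mul, mul_comm, log_inv]
  exact mul_le_mul (by linarith [log_le_sub_one_of_pos N0]) (lev_le y N n) (by positivity) N0.le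

theorem Om_sum {ι : Type} (s : Finset ι) (y : ι → V) (N n : ℕ) :
    |Om N n (∑ j ∈ s, y j) - ∑ j ∈ s, Om N n (y j)| ≤ 2 * (∑ j ∈ s, √(n1 (y j))) ^ 2 := by
  have hj := fun j (h : j ∈ s) =>
    single_le_sum (f := fun j => √(n1 (y j))) (fun _ _ => sqrt_nonneg _) h
  generalize hR : ∑ j ∈ s, √(n1 (y j)) = R at hj
  have R0 : 0 ≤ R := hR ▸ by positivity
  have key : ∀ t : ι → ℝ, (∀ j, |t j| ≤ n1 (y j)) → |(∑ j ∈ s, t j) * log (∑ j ∈ s, t j) -
      ∑ j ∈ s, t j * log (t j)| ≤ ∑ j ∈ s, |t j| * (R / √(n1 (y j))) := fun t ht => by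
    have p : ∀ j ∈ s, t j ≠ 0 → 0 < √(n1 (y j)) / R := fun j h e =>
      have := sqrt_pos.2 ((abs_pos.2 e).trans_le (ht j))
      div_pos this (this.trans_le (hj j h))
    refine (scal s t _ (fun _ _ => by positivity) p (by
      rw [← sum_div, hR]; exact div_self_le_one R)).trans (sum_le_sum fun j h => ?_)
    by_cases e : t j = 0
    · simp [e]
    · have := log_le_sub_one_of_pos (inv_pos.2 (p j h e))
      rw [log_inv, inv_div] at this
      exact mul_le_mul_of_nonneg_left (by linarith) (abs_nonneg _)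
  have fin : ∀ u : ι → ℝ, (∀ j, u j ≤ n1 (y j)) → ∑ j ∈ s, u j * (R / √(n1 (y j))) ≤ R ^ 2 :=
    fun u hu => by
      rw [sq]; nth_rewrite 2 [← hR]; rw [sum_mul]
      refine sum_le_sum fun j _ => (mul_le_mul_of_nonneg_right (hu j) (by positivity)).trans
        (le_of_eq ?_)
      rw [mul_div_left_comm, div_sqrt, mul_comm]
  have h0 := fun j => (abs_sum_le_sum_abs _ _).trans (lev_le (y j) N n)
  have h1 := (key _ h0).trans (fin _ h0)
  have h2 := (abs_sum_le_sum_abs _ (range N)).trans (sum_le_sum fun i hi =>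
    key (fun j => y j (n, i)) fun j => (single_le_sum (f := fun i => |y j (n, i)|)
      (fun _ _ => abs_nonneg _) hi).trans (lev_le (y j) N n))
  rw [sum_comm] at h2
  simp only [← sum_mul] at h2
  have h3 := h2.trans (fin _ fun j => lev_le (y j) N n)
  simp only [Om, Finsupp.finset_sum_apply, sum_sub_distrib] at h3 ⊢
  rw [sum_comm (s := range N) (f := fun i j => y j (n, i)),
    sum_comm (s := s) (f := fun j i => y j (n, i) * log (y j (n, i)))]
  rw [abs_le] at *
  constructor <;> linarith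

noncomputable def eta' (n s : ℕ) : ℝ := (1 / 2) ^ (n + 4) / (s + 1)

noncomputable def NN' (n s : ℕ) : ℕ := ⌈exp (((n + 1) * (s + 1) / eta' n s) ^ 2)⌉₊

noncomputable def SS : ℕ → ℕ
  | 0 => 0
  | n + 1 => SS n + NN' n (SS n)

noncomputable def NN (n : ℕ) : ℕ := NN' n (SS n)

noncomputable def eta (n : ℕ) : ℝ := eta' n (SS n)

theorem eta_pos (n : ℕ) : 0 < eta n := by unfold eta eta'; positivity

theorem eta_le (n : ℕ) : eta n * (SS n + 1) = (1 / 2) ^ (n + 4) :=
  div_mul_cancel₀ _ (by positivity)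

theorem SS_eq (n : ℕ) : SS n = ∑ m ∈ range n, NN m := by
  induction n with
  | zero => rfl
  | succ n ih => rw [sum_range_succ, ← ih]; rfl

theorem NN_pos (n : ℕ) : 1 ≤ NN n := Nat.ceil_pos.2 (exp_pos _)

theorem NN_big (n : ℕ) : ((n + 1) * (SS n + 1) : ℝ) ^ 2 ≤ eta n ^ 2 * log (NN n) := by
  have : ((n + 1) * (SS n + 1) / eta n) ^ 2 ≤ log (NN n) :=
    (le_log_iff_exp_le (by exact_mod_cast NN_pos n)).2 (Nat.le_ceil _)
  rwa [div_pow, div_le_iff₀' (pow_pos (eta_pos n) 2)] at this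

open Classical in
noncomputable def xx (n : ℕ) : V :=
  let q := (Denumerable.ofNat (((ℕ × ℕ) × (ℕ × ℕ)) × ℕ) n).1
  if q.1.1 < n ∧ q.2.1 < n then Finsupp.single q.1 1 + Finsupp.single q.2 1 else 0

theorem xx_often (a b : ℕ × ℕ) (k : ℕ) :
    ∃ n, k < n ∧ xx n = Finsupp.single a 1 + Finsupp.single b 1 := by
  obtain ⟨_, ⟨j, rfl⟩, h⟩ := (Set.infinite_range_of_injective (f := fun j : ℕ =>
    Encodable.encode ((a, b), j)) fun _ _ e => (Prod.mk.inj
      (Encodable.encode_injective e)).2).exists_gt (k + a.1 + b.1)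
  refine ⟨_, lt_of_le_of_lt (by omega) h, ?_⟩
  simp only [xx, Denumerable.ofNat_encode]
  exact if_pos ⟨lt_of_le_of_lt (by omega) h, lt_of_le_of_lt (by omega) h⟩

def below (k : ℕ) (y : V) : Prop := ∀ m i, k ≤ m → y (m, i) = 0

theorem below.mono {k l : ℕ} {y : V} (h : below k y) (hk : k ≤ l) : below l y :=
  fun m i e => h m i (hk.trans e)

theorem ex_below (y : V) : ∃ k, below k y :=
  ⟨y.support.sup Prod.fst + 1, fun m i h => Finsupp.notMem_support_iff.1 fun e =>
    absurd (le_sup (f := Prod.fst) e) (by simp only; omega)⟩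

noncomputable def AA (y : V) : V :=
  y + ∑ m ∈ y.support.image Prod.fst, (eta m ^ 2 * Om (NN m) m y) • xx m

theorem AA_eq {k : ℕ} {y : V} (h : below k y) :
    AA y = y + ∑ m ∈ range k, (eta m ^ 2 * Om (NN m) m y) • xx m := by
  rw [AA, sum_subset]
  · intro m hm
    obtain ⟨p, hp, rfl⟩ := mem_image.1 hm
    exact mem_range.2 (not_le.1 fun e => Finsupp.mem_support_iff.1 hp (h _ _ e))
  · intro m _ hm
    rw [Om_zero _ _ fun i => Finsupp.notMem_support_iff.1 fun e => hm (mem_image_of_mem _ e)]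
    simp

def Rep (k : ℕ) (z : V) (c : ℝ) : Prop := ∃ (ι : Type) (s : Finset ι) (y : ι → V),
  (∀ j, below k (y j)) ∧ z = ∑ j ∈ s, AA (y j) ∧ ∑ j ∈ s, √(n1 (y j)) ≤ c

variable {k l : ℕ} {z z' : V} {c c' : ℝ}

theorem Rep.mono (h : Rep k z c) (hk : k ≤ l) (hc : c ≤ c') : Rep l z c' :=
  let ⟨ι, s, y, a, b, d⟩ := h; ⟨ι, s, y, fun j => (a j).mono hk, b, d.trans hc⟩

theorem Rep.nn (h : Rep k z c) : 0 ≤ c :=
  let ⟨_, _, _, _, _, d⟩ := h; le_trans (by positivity) d

theorem Rep.add (h : Rep k z c) (h' : Rep k z' c') : Rep k (z + z') (c + c') := by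
  obtain ⟨ι, s, y, a, rfl, d⟩ := h
  obtain ⟨ι', s', y', a', rfl, d'⟩ := h'
  exact ⟨_, s.disjSum s', Sum.elim y y', by rintro (j | j); exacts [a j, a' j], by simp,
    by simpa using add_le_add d d'⟩

theorem AA_smul (t : ℝ) (y : V) : AA (t • y) = t • AA y := by
  obtain ⟨k, h⟩ := ex_below y
  rw [AA_eq h, AA_eq (k := k) fun m i e => by simp [h m i e], smul_add, smul_sum]
  simp only [Om_smul, smul_smul, mul_left_comm]

theorem Rep.smul (h : Rep k z c) (t : ℝ) : Rep k (t • z) (√|t| * c) := by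
  obtain ⟨ι, s, y, a, rfl, d⟩ := h
  refine ⟨ι, s, fun j => t • y j, fun j m i e => by simp [a j m i e],
    by simp only [AA_smul, smul_sum], le_trans ?_ (mul_le_mul_of_nonneg_left d (sqrt_nonneg _))⟩
  rw [mul_sum]
  exact sum_le_sum fun j _ => (sqrt_le_sqrt (n1_smul t _)).trans_eq (sqrt_mul (abs_nonneg t) _)

theorem rep_atom {y : V} (h : below k y) : Rep k (AA y) √(n1 y) :=
  ⟨Unit, univ, fun _ => y, fun _ => h, by simp, by simp⟩

theorem rep_single (p : ℕ × ℕ) (h : p.1 < k) (t : ℝ) : Rep k (Finsupp.single p t) √|t| := by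
  have := rep_atom (k := k) (y := Finsupp.single p t) fun m i e =>
    Finsupp.single_eq_of_ne (by rintro rfl; exact absurd h (not_lt.2 e))
  simp only [AA, Om_single, mul_zero, zero_smul, sum_const_zero, add_zero] at this
  exact this.mono le_rfl (sqrt_le_sqrt (n1_single p t))

theorem rep_zero : Rep k 0 0 := ⟨Unit, ∅, 0, fun _ _ _ _ => rfl, rfl, by simp⟩

theorem rep_xx (n : ℕ) : Rep n (xx n) 2 ∧ below n (xx n) := by
  unfold xx
  dsimp only
  split_ifs with h
  · refine ⟨((rep_single _ h.1 1).add (rep_single _ h.2 1)).mono le_rfl (by norm_num),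
      fun m i e => ?_⟩
    rw [Finsupp.add_apply, Finsupp.single_eq_of_ne, Finsupp.single_eq_of_ne, add_zero] <;>
      intro e' <;> simp only [← e'] at h <;> omega
  · exact ⟨rep_zero.mono le_rfl zero_le_two, fun _ _ _ => rfl⟩

theorem rep_mul (n : ℕ) {t r : ℝ} (r0 : 0 ≤ r) (h : |t| ≤ 2 * r ^ 2) :
    Rep n ((eta n ^ 2 * t) • xx n) (3 * eta n * r) := by
  refine ((rep_xx n).1.smul _).mono le_rfl ?_
  have := eta_pos n
  rw [← le_div_iff₀ two_pos, sqrt_le_left (by positivity), abs_mul, abs_of_nonneg (sq_nonneg _)]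
  nlinarith [mul_le_mul_of_nonneg_left h (sq_nonneg (eta n)), sq_nonneg (eta n * r)]

theorem AA_top {y : V} (h : below (k + 1) y) (i : ℕ) : AA y (k, i) = y (k, i) := by
  rw [AA_eq h, Finsupp.add_apply, Finsupp.finset_sum_apply, sum_eq_zero, add_zero]
  intro m hm
  rw [Finsupp.smul_apply, (rep_xx m).2 k i (by have := mem_range.1 hm; omega), smul_zero]

theorem Rep.red (hz : below k z) (h : Rep (k + 1) z c) : Rep k z (c + 3 * eta k * c) := by
  have c0 := h.nn
  obtain ⟨ι, s, y, a, b, d⟩ := h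
  have e : ∀ i, (∑ j ∈ s, y j) (k, i) = 0 := fun i => by
    rw [← hz k i le_rfl, b]; simp only [Finsupp.finset_sum_apply, AA_top (a _)]
  let y' : ι → V := fun j => (y j).filter fun p => p.1 < k
  have a' : ∀ j, below k (y' j) := fun j m i e => Finsupp.filter_apply_neg _ _ (not_lt.2 e)
  have e1 : ∑ j ∈ s, y j = ∑ j ∈ s, y' j := by
    ext ⟨m, i⟩
    rcases lt_trichotomy m k with h | rfl | h
    · simp [y', Finsupp.finset_sum_apply, h]
    · rw [e]; simp [y', Finsupp.finset_sum_apply]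
    · simp [Finsupp.finset_sum_apply, a _ m i h, a' _ m i h.le]
  have e2 : z = ∑ j ∈ s, AA (y' j) + (eta k ^ 2 * ∑ j ∈ s, Om (NN k) k (y j)) • xx k := by
    simp only [b, AA_eq (a _), AA_eq (a' _), sum_range_succ, sum_add_distrib, e1, mul_sum,
      sum_smul, add_assoc]
    congr 2
    refine sum_congr rfl fun j _ => sum_congr rfl fun m hm => ?_
    rw [Om_congr (z := y' j) _ _ fun i => by simp [y', mem_range.1 hm]]
  have := Om_sum s y (NN k) k
  rw [Om_zero _ _ e, zero_sub, abs_neg] at this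
  rw [e2]
  exact Rep.add ⟨ι, s, y', a', rfl, le_trans (sum_le_sum fun j _ => sqrt_le_sqrt (n1_mono fun p => by
    simp only [y', Finsupp.filter_apply]; split_ifs <;> simp)) d⟩
    (rep_mul k c0 (this.trans (by gcongr)))

theorem Rep.down (hz : below k z) (d : ℕ) (c0 : 0 ≤ c)
    (h : Rep (k + d) z (c * (1 + (1 / 2) ^ (k + d)))) : Rep k z (c * (1 + (1 / 2) ^ k)) := by
  induction d with
  | zero => exact h
  | succ d ih =>
    refine ih ((Rep.red (hz.mono (Nat.le_add_right k d)) h).mono le_rfl ?_)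
    have h1 := eta_le (k + d)
    have h2 := eta_pos (k + d)
    have h3 : ((1 : ℝ) / 2) ^ (k + d) ≤ 1 := pow_le_one₀ (by norm_num) (by norm_num)
    have h4 : (0 : ℝ) ≤ SS (k + d) := by positivity
    rw [pow_add] at h1
    rw [← add_assoc, pow_succ]
    generalize ((1 : ℝ) / 2) ^ (k + d) = u at *
    have h5 : eta (k + d) ≤ u / 16 := by nlinarith
    have h6 : eta (k + d) * (1 + u * (1 / 2)) ≤ u / 16 * 2 :=
      mul_le_mul h5 (by linarith) (by linarith) (by linarith)
    nlinarith [mul_le_mul_of_nonneg_left h6 c0]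

theorem Rep.top (hz : below (k + 1) z) (h : Rep l z c) (i : ℕ) : √|z (k, i)| ≤ 2 * c := by
  have c0 := h.nn
  obtain ⟨ι, s, y, a, b, d⟩ := Rep.down hz l c0 (h.mono (by omega) (le_mul_of_one_le_right c0
    (le_add_of_nonneg_right (by positivity))))
  have h3 : ((1 : ℝ) / 2) ^ (k + 1) ≤ 1 := pow_le_one₀ (by norm_num) (by norm_num)
  refine le_trans ?_ (d.trans (by nlinarith))
  rw [sqrt_le_left (by positivity), b, Finsupp.finset_sum_apply]
  refine (abs_sum_le_sum_abs _ _).trans (le_trans (sum_le_sum fun j _ => ?_)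
    (sum_sq_le_sq_sum_of_nonneg fun _ _ => sqrt_nonneg _))
  rw [AA_top (a j), sq_sqrt (n1_nn _)]
  simpa using le_n1 (y j) {(k, i)}

end Pool.Agent.H89.RG
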