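import Pool.Agent.H89.RG1

set_option autoImplicit false

namespace Pool.Agent.H89.RG

open Finset Real Filter Topology UniformSpace

theorem ex_rep (z : V) : ∃ k c, Rep k z c := by
  induction z using Finsupp.induction_linear with
  | zero => exact ⟨0, 0, rep_zero⟩
  | add f g hf hg =>
    obtain ⟨k, c, h⟩ := hf
    obtain ⟨l, d, h'⟩ := hg
    exact ⟨k + l, _, (h.mono (by omega) le_rfl).add (h'.mono (by omega) le_rfl)⟩
  | single p t => exact ⟨_, _, rep_single p (Nat.lt_succ_self _) t⟩

noncomputable def nrm (z : V) : ℝ := sInf {c | ∃ k, Rep k z c}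

theorem Rep.le {k : ℕ} {z : V} {c : ℝ} (h : Rep k z c) : nrm z ≤ c :=
  csInf_le ⟨0, fun _ ⟨_, h⟩ => h.nn⟩ ⟨k, h⟩

theorem le_nrm {z : V} {a : ℝ} (h : ∀ k c, Rep k z c → a ≤ c) : a ≤ nrm z :=
  le_csInf (let ⟨k, c, h⟩ := ex_rep z; ⟨c, k, h⟩) fun c ⟨k, e⟩ => h k c e

theorem rep_of_lt {z : V} {a : ℝ} (h : nrm z < a) : ∃ k, Rep k z a := by
  by_contra! n
  exact h.not_ge (le_nrm fun k c e => le_of_not_ge fun l => n k (e.mono le_rfl l))

theorem nrm_smul (t : ℝ) (z : V) : nrm (t • z) ≤ √|t| * nrm z := by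
  rcases (sqrt_nonneg |t|).eq_or_lt with h | h
  · obtain ⟨k, c, e⟩ := ex_rep z
    simpa [← h] using (e.smul t).le
  · rw [← div_le_iff₀' h]
    exact le_nrm fun k c e => (div_le_iff₀' h).2 (e.smul t).le

theorem nrm_add (z z' : V) : nrm (z + z') ≤ nrm z + nrm z' := by
  rw [← sub_le_iff_le_add]
  refine le_nrm fun k c e => ?_
  rw [sub_le_comm]
  refine le_nrm fun l d e' => ?_
  rw [sub_le_iff_le_add']
  exact ((e.mono (Nat.le_add_right k l) le_rfl).add (e'.mono (Nat.le_add_left l k) le_rfl)).le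

def W := V

noncomputable instance : AddCommGroup W := inferInstanceAs (AddCommGroup V)
noncomputable instance : Module ℝ W := inferInstanceAs (Module ℝ V)

noncomputable instance : SeminormedAddCommGroup W := AddGroupSeminorm.toSeminormedAddCommGroup
  { toFun := nrm
    map_zero' := (rep_zero (k := 0)).le.antisymm (le_nrm fun _ _ h => h.nn)
    add_le' := nrm_add
    neg' := fun z => le_antisymm (by simpa using! nrm_smul (-1) z)
      (by
        have : ∀ z : V, nrm z ≤ nrm (-z) := fun z => by simpa using nrm_smul (-1) (-z)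
        exact this z) }

theorem W_smul (t : ℝ) (z : W) : ‖t • z‖ ≤ √|t| * ‖z‖ := nrm_smul t z

theorem cont_smul {E : Type} [SeminormedAddCommGroup E] [Module ℝ E]
    (h : ∀ (t : ℝ) (z : E), ‖t • z‖ ≤ √|t| * ‖z‖) : ContinuousSMul ℝ E := ⟨by
  refine continuous_iff_continuousAt.2 fun p => tendsto_iff_norm_sub_tendsto_zero.2 ?_
  have c : Continuous fun q : ℝ × E => √|q.1 - p.1| * ‖p.2‖ + √|q.1| * ‖q.2 - p.2‖ := by fun_prop
  refine squeeze_zero (fun _ => norm_nonneg _) (fun q => ?_) (by simpa using c.tendsto p)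
  rw [show q.1 • q.2 - p.1 • p.2 = (q.1 - p.1) • p.2 + q.1 • (q.2 - p.2) by
    rw [sub_smul, smul_sub]; abel]
  exact (norm_add_le _ _).trans (add_le_add (h _ _) (h _ _))⟩

instance : ContinuousSMul ℝ W := cont_smul W_smul

instance : UniformContinuousConstSMul ℝ W := uniformContinuousConstSMul_of_continuousConstSMul ℝ W

theorem span_top :
    Submodule.span ℝ (Set.range fun p : ℕ × ℕ => (Finsupp.single p 1 : V)) = ⊤ := by
  rw [← Set.image_univ, ← Finsupp.supported_eq_span_single, Finsupp.supported_univ]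

instance : TopologicalSpace.SeparableSpace W := by
  rw [← TopologicalSpace.isSeparable_univ_iff]
  let e : ℕ × ℕ → W := fun p => Finsupp.single p 1
  have := ((Set.countable_range e).isSeparable).span (R := ℝ)
  rwa [show Submodule.span ℝ (Set.range e) = ⊤ from span_top]
    at this

abbrev Z := Completion W

theorem Z_smul (t : ℝ) (z : Z) : ‖t • z‖ ≤ √|t| * ‖z‖ := by
  refine Completion.induction_on z (isClosed_le (continuous_const_smul t).norm
    (continuous_const.mul continuous_norm)) fun a => ?_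
  rw [← Completion.coe_smul, Completion.norm_coe, Completion.norm_coe]
  exact W_smul t a

instance : ContinuousSMul ℝ Z := cont_smul Z_smul

noncomputable def io : V →ₗ[ℝ] Z where
  toFun z := Completion.coe' (α := W) z
  map_add' := Completion.coe_add (α := W)
  map_smul' t z := Completion.coe_smul (X := W) t z

theorem norm_io (z : V) : ‖io z‖ = nrm z := Completion.norm_coe (E := W) z

theorem io_dense : DenseRange io := Completion.denseRange_coe (α := W)

theorem io_inj : Function.Injective io := (injective_iff_map_eq_zero _).2 fun z h => by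
  have h0 : nrm z = 0 := by rw [← norm_io, h, norm_zero]
  obtain ⟨k, hk⟩ := ex_below z
  induction k with
  | zero => ext ⟨m, i⟩; exact hk m i m.zero_le
  | succ k ih =>
    refine ih fun m i e => e.eq_or_lt.elim (fun e => ?_) (hk m i)
    have := le_nrm (a := √|z (k, i)| / 2) fun l c r => by linarith [r.top hk i]
    rw [← e, ← abs_nonpos_iff, ← sqrt_eq_zero']
    exact le_antisymm (by linarith) (sqrt_nonneg _)

theorem avg (n : ℕ) (v : ℕ → V) {K : ℝ} (hv : ∀ i, nrm (v i) < K) : ∃ l : ℝ,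
    nrm ((NN n : ℝ)⁻¹ • ∑ i ∈ range (NN n), v i - l • xx n) ≤ K + 3 * K * (SS n + 2) := by
  classical
  have N0 : (0 : ℝ) < NN n := by exact_mod_cast NN_pos n
  choose k0 hk using fun i => rep_of_lt (hv i)
  have K0 := (hk 0).nn
  choose ι s y a b d using hk
  let k := (range (NN n)).sup k0 + n + 1
  let S := (range (NN n)).sigma s
  let Y : (Σ i, ι i) → V := fun p => (NN n : ℝ)⁻¹ • y p.1 p.2
  have Yb : ∀ p ∈ S, below k (Y p) := fun p hp m i e => by
    have := le_sup (f := k0) (mem_sigma.1 hp).1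
    simp [Y, a p.1 p.2 m i (by omega)]
  have Y1 : ∀ p, n1 (Y p) ≤ (NN n : ℝ)⁻¹ * n1 (y p.1 p.2) := fun p =>
    (n1_smul _ _).trans_eq (by rw [abs_of_pos (inv_pos.2 N0)])
  have mass : ∑ p ∈ S, n1 (Y p) ≤ K ^ 2 := by
    refine (sum_le_sum fun p _ => Y1 p).trans ?_
    rw [← mul_sum, sum_sigma, inv_mul_le_iff₀ N0]
    refine (sum_le_card_nsmul _ _ (K ^ 2) fun i _ => ?_).trans (by simp)
    refine le_trans ?_ ((sum_sq_le_sq_sum_of_nonneg fun _ _ => sqrt_nonneg _).trans
      (pow_le_pow_left₀ (by positivity) (d i) 2))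
    simp [sq_sqrt (n1_nn _)]
  have cost : ∑ p ∈ S, √(n1 (Y p)) ≤ NN n * K := by
    rw [sum_sigma]
    refine (sum_le_card_nsmul _ _ K fun i _ => le_trans (sum_le_sum fun j _ => sqrt_le_sqrt
      ((Y1 _).trans (mul_le_of_le_one_left (n1_nn _) (inv_le_one_of_one_le₀
        (by exact_mod_cast NN_pos n))))) (d i)).trans (by simp)
  have tb : below k (∑ p ∈ S, Y p) := fun m i e => by
    rw [Finsupp.finset_sum_apply]; exact sum_eq_zero fun p hp => Yb p hp m i e
  have tm := (n1_sum S Y).trans mass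
  let lam : ℕ → ℝ := fun m => ∑ p ∈ S, Om (NN m) m (Y p) - Om (NN m) m (∑ p ∈ S, Y p)
  have e : (NN n : ℝ)⁻¹ • ∑ i ∈ range (NN n), v i - (eta n ^ 2 * lam n) • xx n =
      AA (∑ p ∈ S, Y p) + ∑ m ∈ (range k).erase n, (eta m ^ 2 * lam m) • xx m := by
    have : (NN n : ℝ)⁻¹ • ∑ i ∈ range (NN n), v i = ∑ p ∈ S, AA (Y p) := by
      simp only [b, Y, AA_smul, ← smul_sum]; rw [sum_sigma]
    rw [this, sum_congr rfl fun p hp => AA_eq (Yb p hp), AA_eq tb, sum_add_distrib, sum_comm,
      sum_erase_eq_sub (mem_range.2 (by omega)), ← add_sub_assoc, add_assoc, ← sum_add_distrib]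
    congr 2
    refine sum_congr rfl fun m _ => ?_
    rw [← sum_smul, ← add_smul, ← mul_sum]
    congr 1; simp only [lam]; ring
  refine ⟨_, e ▸ (nrm_add _ _).trans (add_le_add ((rep_atom tb).le.trans
    ((sqrt_le_left K0).2 tm)) ?_)⟩
  have one : ∀ m, m ≠ n → nrm ((eta m ^ 2 * lam m) • xx m) ≤
      3 * K * ((if m < n then (NN m : ℝ) else 0) + (1 / 2) ^ m) := fun m hm => by
    have h1 := eta_le m
    have h2 := eta_pos m
    have h3 : ((1 : ℝ) / 2) ^ m ≤ 1 := pow_le_one₀ (by norm_num) (by norm_num)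
    have h4 : (0 : ℝ) ≤ SS m := by positivity
    have h5 : (0 : ℝ) < (1 / 2) ^ m := by positivity
    rw [pow_add] at h1
    split_ifs with h
    · have M1 : (1 : ℝ) ≤ NN m := by exact_mod_cast NN_pos m
      refine (rep_mul m (r := NN m * K) (by positivity) ((abs_sub _ _).trans ?_)).le.trans ?_
      · have := (abs_sum_le_sum_abs _ S).trans (sum_le_sum fun p _ => Om_le (NN_pos m) m (Y p))
        rw [← mul_sum] at this
        have := Om_le (NN_pos m) m (∑ p ∈ S, Y p)
        have := mul_le_mul_of_nonneg_left mass (zero_le_one.trans M1)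
        have := mul_le_mul_of_nonneg_left tm (zero_le_one.trans M1)
        nlinarith [mul_nonneg (mul_nonneg (zero_le_one.trans M1) (sub_nonneg.2 M1)) (sq_nonneg K)]
      · have : eta m ≤ 1 := by nlinarith
        nlinarith [mul_le_of_le_one_left (show 0 ≤ NN m * K by positivity) this, mul_nonneg K0 h5.le]
    · have : (NN n : ℝ) ≤ SS m := by
        rw [SS_eq]
        exact_mod_cast single_le_sum (f := NN) (fun _ _ => Nat.zero_le _) (mem_range.2 (by omega))
      refine (rep_mul m (r := NN n * K) (by positivity) ((abs_sub_comm _ _).trans_le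
        ((Om_sum S Y _ _).trans (by gcongr)))).le.trans ?_
      have : eta m * NN n ≤ (1 / 2) ^ m := by nlinarith
      nlinarith [mul_le_mul_of_nonneg_left this K0]
  refine (norm_sum_le (E := W) _ _).trans ((sum_le_sum fun m hm =>
    one m (ne_of_mem_erase hm)).trans ?_)
  rw [← mul_sum]
  refine mul_le_mul_of_nonneg_left ((sum_le_sum_of_subset_of_nonneg (erase_subset _ _)
    fun _ _ _ => by positivity).trans ?_) (by positivity)
  rw [sum_add_distrib, ← sum_filter, SS_eq, Nat.cast_sum]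
  exact add_le_add (sum_le_sum_of_subset_of_nonneg (fun m h => mem_range.2 (mem_filter.1 h).2)
    fun _ _ _ => by positivity) (sum_geometric_two_le _)

theorem needle (n : ℕ) : ∃ w : V, nrm w ≤ 1 ∧ (eta n ^ 2 * log (NN n)) • xx n =
    w - (NN n : ℝ)⁻¹ • ∑ i ∈ range (NN n), Finsupp.single (n, i) 1 := by
  have N0 : (0 : ℝ) < NN n := by exact_mod_cast NN_pos n
  generalize hy : ((NN n : ℝ)⁻¹ • ∑ i ∈ range (NN n), Finsupp.single (n, i) 1 : V) = y
  have e : ∀ m i, y (m, i) = if m = n ∧ i < NN n then (NN n : ℝ)⁻¹ else 0 := fun m i => by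
    simp only [← hy, Finsupp.smul_apply, Finsupp.finset_sum_apply, Finsupp.single_apply,
      Prod.mk.injEq]
    by_cases h : n = m
    · simp [h]
    · simp [h, Ne.symm h]
  have b : below (n + 1) y := fun m i h => by rw [e, if_neg (by omega)]
  refine ⟨AA y, (rep_atom b).le.trans (sqrt_le_one.2 ?_), ?_⟩
  · rw [← hy]
    refine (n1_smul _ _).trans ?_
    rw [abs_of_pos (inv_pos.2 N0), inv_mul_le_iff₀ N0]
    exact (n1_sum _ _).trans ((sum_le_card_nsmul _ _ _ fun i _ => n1_single _ _).trans (by simp))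
  · rw [AA_eq b, add_sub_cancel_left, sum_range_succ, sum_eq_zero fun m hm => by
      rw [Om_zero _ _ fun i => by rw [e, if_neg (by have := mem_range.1 hm; omega)]]; simp,
      zero_add, Om, sum_congr rfl fun i hi => by rw [e, if_pos ⟨rfl, mem_range.1 hi⟩],
      sum_congr (f := fun i => y (n, i) * log (y (n, i))) rfl fun i hi => by
        rw [e, if_pos ⟨rfl, mem_range.1 hi⟩]]
    simp [N0.ne']

theorem op_bdd (C : Z →L[ℝ] Z) : ∃ K, ∀ z, ‖z‖ ≤ 1 → ‖C z‖ ≤ K := by
  obtain ⟨δ, δ0, h⟩ := Metric.continuousAt_iff.1 (C.continuous.continuousAt (x := 0)) 1 one_pos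
  refine ⟨2 / δ, fun z hz => ?_⟩
  have h1 := Z_smul ((δ / 2) ^ 2) z
  rw [abs_sq, sqrt_sq (by positivity)] at h1
  have h2 := @h (((δ / 2) ^ 2) • z) (by rw [dist_zero_right]; nlinarith)
  have h3 := Z_smul ((2 / δ) ^ 2) (C (((δ / 2) ^ 2) • z))
  rw [map_zero, dist_zero_right] at h2
  rw [abs_sq, sqrt_sq (by positivity), map_smul, smul_smul, ← mul_pow,
    show 2 / δ * (δ / 2) = 1 by field_simp, one_pow, one_smul, ← map_smul] at h3
  exact h3.trans (mul_le_of_le_one_right (by positivity) h2.le)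

theorem eig (C : Z →L[ℝ] Z) (a b : ℕ × ℕ) : ∃ l : ℝ, l • io (Finsupp.single a 1 +
    Finsupp.single b 1) = C (io (Finsupp.single a 1 + Finsupp.single b 1)) := by
  rw [← Submodule.mem_span_singleton, ← SetLike.mem_coe,
    ← (Submodule.closed_of_finiteDimensional _).closure_eq, Metric.mem_closure_iff]
  intro ε ε0
  obtain ⟨K, hK⟩ := op_bdd C
  have K0 : 0 ≤ K := by simpa using hK 0 (by simp)
  obtain ⟨k, hk⟩ := exists_nat_gt (8 * (K + 1) / ε)
  obtain ⟨n, hn, e⟩ := xx_often a b k
  rw [← e]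
  have N1 : (1 : ℝ) ≤ NN n := by exact_mod_cast NN_pos n
  obtain ⟨w, w1, w2⟩ := needle n
  choose v hv using fun i => io_dense.exists_dist_lt (C (io (Finsupp.single (n, i) 1)))
    (inv_pos.2 (zero_lt_one.trans_le N1))
  simp only [dist_eq_norm] at hv
  obtain ⟨l, hl⟩ := avg n v (K := K + 1) fun i => by
    have := hK (io (Finsupp.single (n, i) 1))
      ((norm_io _).trans_le ((rep_single _ (Nat.lt_succ_self _) 1).le.trans (by simp)))
    have := norm_sub_norm_le (io (v i)) (C (io (Finsupp.single (n, i) 1)))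
    rw [norm_sub_rev, norm_io] at this
    linarith [hv i, inv_le_one_of_one_le₀ N1]
  have big := NN_big n
  generalize eta n ^ 2 * log (NN n) = A at w2 big
  have S0 : (0 : ℝ) ≤ SS n := by positivity
  have p0 : (0 : ℝ) < (n + 1) * (SS n + 1) := by positivity
  have A0 : 0 < A := lt_of_lt_of_le (by positivity) big
  have h1 : ‖A • C (io (xx n)) + l • io (xx n)‖ ≤ 8 * (K + 1) * (SS n + 1) := by
    have : A • C (io (xx n)) + l • io (xx n) = C (io w) - (NN n : ℝ)⁻¹ • ∑ i ∈ range (NN n),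
        (C (io (Finsupp.single (n, i) 1)) - io (v i)) -
        io ((NN n : ℝ)⁻¹ • ∑ i ∈ range (NN n), v i - l • xx n) := by
      rw [← map_smul, ← map_smul, w2]
      simp only [map_sub, map_smul, map_sum, sum_sub_distrib, smul_sub]
      abel
    rw [this]
    have h2 := hK (io w) ((norm_io _).trans_le w1)
    have h3 := (Z_smul (NN n : ℝ)⁻¹ _).trans (mul_le_mul (sqrt_le_one.2 (by
      rw [abs_of_nonneg (by positivity)]; exact inv_le_one_of_one_le₀ N1)) ((norm_sum_le _ _).trans
      (sum_le_card_nsmul (range (NN n)) _ _ fun i _ => (hv i).le)) (norm_nonneg _) zero_le_one)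
    rw [card_range, nsmul_eq_mul, mul_inv_cancel₀ (by positivity)] at h3
    rw [← norm_io] at hl
    refine ((norm_sub_le _ _).trans (add_le_add (norm_sub_le _ _) le_rfl)).trans ?_
    nlinarith [mul_nonneg K0 S0]
  refine ⟨-(A⁻¹ * l) • io (xx n), Submodule.smul_mem _ _ (Submodule.mem_span_singleton_self _), ?_⟩
  have h2 := Z_smul A⁻¹ (A • C (io (xx n)) + l • io (xx n))
  rw [smul_add, smul_smul, smul_smul, inv_mul_cancel₀ A0.ne', one_smul, abs_of_pos (inv_pos.2 A0),
    sqrt_inv] at h2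
  rw [dist_eq_norm, neg_smul, sub_neg_eq_add]
  refine h2.trans_lt ((mul_le_mul (inv_anti₀ p0 (le_sqrt_of_sq_le big)) h1 (norm_nonneg _)
    (by positivity)).trans_lt ?_)
  rw [div_lt_iff₀ ε0] at hk
  have : (k : ℝ) < n := by exact_mod_cast hn
  rw [inv_mul_lt_iff₀ p0]
  nlinarith [mul_pos (show (0 : ℝ) < SS n + 1 by positivity)
    (show 0 < (n + 1) * ε - 8 * (K + 1) by nlinarith)]

theorem rigid (C : Z →L[ℝ] Z) : ∃ l : ℝ, ∀ z, C z = l • z := by
  have h1 : ∀ a, ∃ l : ℝ, C (io (Finsupp.single a 1)) = io (Finsupp.single a l) := fun a => by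
    obtain ⟨l, h⟩ := eig C a a
    refine ⟨l, smul_right_injective Z (two_ne_zero' ℝ) ?_⟩
    simp only [two_smul]
    rw [← map_add, ← map_add, ← h, ← map_smul, ← map_add]; simp
  choose l hl using h1
  have h2 : ∀ a b, l a = l b := fun a b => by
    by_cases e : a = b
    · rw [e]
    obtain ⟨m, h⟩ := eig C a b
    rw [← map_smul, map_add io (Finsupp.single a 1), map_add, hl, hl, ← map_add] at h
    have h := io_inj h
    have h1 := DFunLike.congr_fun h a
    have h2 := DFunLike.congr_fun h b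
    simp [e, Ne.symm e] at h1 h2
    rw [← h1, h2]
  refine ⟨l 0, fun z => io_dense.induction_on z (isClosed_eq C.continuous (continuous_const_smul _))
    fun v => ?_⟩
  induction v using Finsupp.induction_linear with
  | zero => simp
  | add f g hf hg => simp [hf, hg]
  | single p t =>
    rw [← mul_one t, ← smul_eq_mul, ← Finsupp.smul_single, map_smul, map_smul, hl, smul_comm,
      ← map_smul io (l 0), h2 p 0]
    simp

end Pool.Agent.H89.RG
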