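import Mathlib

set_option autoImplicit false

namespace Pool.Agent.H89.Refl

abbrev E := EuclideanSpace ℝ (Fin 2)

noncomputable def ev : List ℚ → ℝ → ℝ
  | [], _ => 0
  | c :: cs, t => (c : ℝ) + t * ev cs t

def ladd : List ℚ → List ℚ → List ℚ
  | [], q => q
  | c :: cs, [] => c :: cs
  | c :: cs, d :: ds => (c + d) :: ladd cs ds

def lsm (a : ℚ) : List ℚ → List ℚ
  | [] => []
  | c :: cs => (a * c) :: lsm a cs

def lmul : List ℚ → List ℚ → List ℚ
  | [], _ => []
  | c :: cs, q => ladd (lsm c q) (0 :: lmul cs q)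

def lder : List ℚ → List ℚ
  | [] => []
  | _ :: cs => ladd cs (0 :: lder cs)

def lzero : List ℚ → Bool
  | [] => true
  | c :: cs => decide (c = 0) && lzero cs

@[simp] lemma ev_nil (t : ℝ) : ev [] t = 0 := rfl
@[simp] lemma ev_cons (c : ℚ) (cs : List ℚ) (t : ℝ) : ev (c :: cs) t = c + t * ev cs t := rfl

@[simp] lemma ev_ladd (p q : List ℚ) (t : ℝ) : ev (ladd p q) t = ev p t + ev q t := by
  induction p generalizing q with
  | nil => simp [ladd]
  | cons c cs ih =>
    cases q with
    | nil => simp [ladd]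
    | cons d ds => simp [ladd, ih]; ring

@[simp] lemma ev_lsm (a : ℚ) (p : List ℚ) (t : ℝ) : ev (lsm a p) t = a * ev p t := by
  induction p with
  | nil => simp [lsm]
  | cons c cs ih => simp [lsm, ih]; ring

@[simp] lemma ev_lmul (p q : List ℚ) (t : ℝ) : ev (lmul p q) t = ev p t * ev q t := by
  induction p with
  | nil => simp [lmul]
  | cons c cs ih => simp [lmul, ih]; ring

lemma ev_zero (p : List ℚ) (h : lzero p = true) (t : ℝ) : ev p t = 0 := by
  induction p with
  | nil => simp
  | cons c cs ih =>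
    simp only [lzero, Bool.and_eq_true, decide_eq_true_eq] at h
    simp [h.1, ih h.2]

lemma hasDerivAt_ev (p : List ℚ) (t : ℝ) : HasDerivAt (ev p) (ev (lder p) t) t := by
  induction p with
  | nil => exact hasDerivAt_const t (0 : ℝ)
  | cons c cs ih =>
    have h := ((hasDerivAt_id' t).fun_mul ih).const_add (c : ℝ)
    exact h.congr_deriv (by simp [lder])

lemma contDiff_ev (p : List ℚ) (n : WithTop ℕ∞) : ContDiff ℝ n (ev p) := by
  induction p with
  | nil => exact contDiff_const
  | cons c cs ih => exact contDiff_const.add (contDiff_id.mul ih)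

def sh (a : ℚ) : List ℚ → List ℚ
  | [] => []
  | c :: cs => ladd [c] (lmul [a, 1] (sh a cs))

lemma ev_sh (a : ℚ) (p : List ℚ) (u : ℝ) : ev (sh a p) u = ev p (a + u) := by
  induction p with
  | nil => simp [sh]
  | cons c cs ih => simp [sh, ih]

def lb (h : ℚ) : List ℚ → ℚ
  | [] => 0
  | c :: cs => c + h * min (lb h cs) 0

lemma lb_le (h : ℚ) (p : List ℚ) (u : ℝ) (h0 : 0 ≤ u) (h1 : u ≤ h) : (lb h p : ℝ) ≤ ev p u := by
  induction p with
  | nil => simp [lb]
  | cons c cs ih =>
    simp only [lb, ev_cons]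
    push_cast
    have a1 : min (lb h cs : ℝ) 0 ≤ 0 := min_le_right _ _
    have a2 : min (lb h cs : ℝ) 0 ≤ ev cs u := (min_le_left _ _).trans ih
    nlinarith [mul_le_mul_of_nonneg_left a2 h0, mul_le_mul_of_nonpos_right h1 a1]

def chk (p : List ℚ) (h : ℚ) : ℕ → Bool
  | 0 => true
  | n + 1 => decide (0 < lb h (sh (n * h) p)) && chk p h n

lemma pos_of_chk (p : List ℚ) (h : ℚ) (n : ℕ) (hc : chk p h (n + 1) = true) (t : ℝ)
    (h0 : 0 ≤ t) (h1 : t ≤ (n + 1) * h) : 0 < ev p t := by
  induction n with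
  | zero =>
    simp only [chk, Bool.and_true, decide_eq_true_eq] at hc
    have := lb_le h (sh ((0 : ℕ) * h) p) t h0 (by simpa using h1)
    rw [ev_sh] at this
    have h2 : (0 : ℝ) < (lb h (sh ((0 : ℕ) * h) p) : ℚ) := by exact_mod_cast hc
    simpa using h2.trans_le this
  | succ n ih =>
    rw [chk] at hc
    simp only [Bool.and_eq_true, decide_eq_true_eq] at hc
    by_cases ht : t ≤ (n + 1) * h
    · exact ih hc.2 ht
    · push Not at ht
      have := lb_le h (sh (((n + 1 : ℕ) : ℚ) * h) p) (t - (n + 1) * h) (by linarith)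
        (by push_cast at h1; linarith)
      rw [ev_sh] at this
      have h2 : (0 : ℝ) < (lb h (sh (((n + 1 : ℕ) : ℚ) * h) p) : ℚ) := by exact_mod_cast hc.1
      simpa using h2.trans_le this

abbrev B := List (List ℚ)

noncomputable def ev2 : B → E → ℝ
  | [], _ => 0
  | p :: ps, x => ev p (x 1) + x 0 * ev2 ps x

def badd : B → B → B
  | [], q => q
  | c :: cs, [] => c :: cs
  | c :: cs, d :: ds => ladd c d :: badd cs ds

def bsm (a : List ℚ) : B → B
  | [] => []
  | c :: cs => lmul a c :: bsm a cs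

def bmul : B → B → B
  | [], _ => []
  | c :: cs, q => badd (bsm c q) ([] :: bmul cs q)

def d0 : B → B
  | [] => []
  | _ :: cs => badd cs ([] :: d0 cs)

def d1 : B → B
  | [] => []
  | c :: cs => lder c :: d1 cs

def bzero : B → Bool
  | [] => true
  | c :: cs => lzero c && bzero cs

def comp (T : B) : List ℚ → B
  | [] => []
  | c :: cs => badd [[c]] (bmul T (comp T cs))

@[simp] lemma ev2_nil (x : E) : ev2 [] x = 0 := rfl
@[simp] lemma ev2_cons (c : List ℚ) (cs : B) (x : E) :
    ev2 (c :: cs) x = ev c (x 1) + x 0 * ev2 cs x := rfl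

@[simp] lemma ev2_badd (p q : B) (x : E) : ev2 (badd p q) x = ev2 p x + ev2 q x := by
  induction p generalizing q with
  | nil => simp [badd]
  | cons c cs ih =>
    cases q with
    | nil => simp [badd]
    | cons d ds => simp [badd, ih]; ring

@[simp] lemma ev2_bsm (a : List ℚ) (p : B) (x : E) : ev2 (bsm a p) x = ev a (x 1) * ev2 p x := by
  induction p with
  | nil => simp [bsm]
  | cons c cs ih => simp [bsm, ih]; ring

@[simp] lemma ev2_bmul (p q : B) (x : E) : ev2 (bmul p q) x = ev2 p x * ev2 q x := by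
  induction p with
  | nil => simp [bmul]
  | cons c cs ih => simp [bmul, ih]; ring

@[simp] lemma ev2_comp (T : B) (p : List ℚ) (x : E) : ev2 (comp T p) x = ev p (ev2 T x) := by
  induction p with
  | nil => simp [comp]
  | cons c cs ih => simp [comp, ih]

lemma ev2_zero (p : B) (h : bzero p = true) (x : E) : ev2 p x = 0 := by
  induction p with
  | nil => simp
  | cons c cs ih =>
    simp only [bzero, Bool.and_eq_true] at h
    simp [ev_zero c h.1, ih h.2]

lemma contDiff_ev2 (p : B) (n : WithTop ℕ∞) : ContDiff ℝ n (ev2 p) := by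
  induction p with
  | nil => exact contDiff_const
  | cons c cs ih =>
    have h0 : ContDiff ℝ n (fun x : E => x 0) := (EuclideanSpace.proj (0 : Fin 2) : E →L[ℝ] ℝ).contDiff
    have h1 : ContDiff ℝ n (fun x : E => x 1) := (EuclideanSpace.proj (1 : Fin 2) : E →L[ℝ] ℝ).contDiff
    exact ((contDiff_ev c n).comp h1).add (h0.mul ih)

lemma fderiv_ev2 (p : B) (x v : E) :
    fderiv ℝ (ev2 p) x v = ev2 (d0 p) x * v 0 + ev2 (d1 p) x * v 1 := by
  induction p with
  | nil =>
    have : ev2 [] = fun _ => (0 : ℝ) := rfl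
    simp [this, d0, d1]
  | cons c cs ih =>
    have h0 : HasFDerivAt (fun x : E => x 0) (EuclideanSpace.proj (0 : Fin 2) : E →L[ℝ] ℝ) x :=
      (EuclideanSpace.proj (0 : Fin 2) : E →L[ℝ] ℝ).hasFDerivAt
    have h1 : HasFDerivAt (fun x : E => x 1) (EuclideanSpace.proj (1 : Fin 2) : E →L[ℝ] ℝ) x :=
      (EuclideanSpace.proj (1 : Fin 2) : E →L[ℝ] ℝ).hasFDerivAt
    have h2 := (hasDerivAt_ev c (x 1)).comp_hasFDerivAt x h1
    have h3 := ((contDiff_ev2 cs 1).differentiable (by simp) x).hasFDerivAt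
    have h4 : HasFDerivAt (ev2 (c :: cs)) _ x := h2.add (h0.mul h3)
    rw [h4.fderiv]
    simp [ih, d0, d1]
    ring

end Pool.Agent.H89.Refl
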