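import Mathlib

set_option autoImplicit false

namespace Pool.Agent.H89.SN

variable {S : Type*} [Semigroup S]

/-- The generating matrices of `M_S(α₁,…,αₙ)`, `n = k+1`: rows are indexed by `ε ∈ {0,1}^k`,
each row is a pair. -/
def gens {k : ℕ} (α : Fin (k + 1) → Con S) : Set ((Fin k → Bool) → S × S) :=
  {x | ∃ (i : Fin k) (a b : S), α i.castSucc a b ∧ x = fun ε => if ε i then (b, b) else (a, a)} ∪
  {x | ∃ a b : S, α (Fin.last k) a b ∧ x = fun _ => (a, b)}

/-- `M_S(α₁,…,αₙ)`: the subsemigroup generated by the generating matrices. -/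
def mats {k : ℕ} (α : Fin (k + 1) → Con S) : Subsemigroup ((Fin k → Bool) → S × S) :=
  Subsemigroup.closure (gens α)

/-- The higher (term condition) commutator `[α₁,…,αₙ]`: the least congruence `δ` such that every
matrix whose rows other than `(1,…,1)` are `δ`-related has its row `(1,…,1)` `δ`-related. -/
def hcomm {k : ℕ} (α : Fin (k + 1) → Con S) : Con S :=
  sInf {δ | ∀ x ∈ mats α, (∀ ε, ε ≠ (fun _ => true) → δ (x ε).1 (x ε).2) →
    δ (x fun _ => true).1 (x fun _ => true).2}

/-- `leftSeries S d = [1,[1,…,[1,1]…]]` with `d+1` copies of the total congruence. -/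
def leftSeries (S : Type*) [Semigroup S] : ℕ → Con S
  | 0 => ⊤
  | d + 1 => hcomm ![⊤, leftSeries S d]

/-- `rightSeries S d = […[[1,1],1],…,1]` with `d+1` copies of the total congruence. -/
def rightSeries (S : Type*) [Semigroup S] : ℕ → Con S
  | 0 => ⊤
  | d + 1 => hcomm ![rightSeries S d, ⊤]

def Supernilpotent (S : Type*) [Semigroup S] : Prop :=
  ∃ d : ℕ, hcomm (fun _ : Fin (d + 1) => (⊤ : Con S)) = ⊥

def LeftNilpotent (S : Type*) [Semigroup S] : Prop := ∃ d : ℕ, leftSeries S d = ⊥

def RightNilpotent (S : Type*) [Semigroup S] : Prop := ∃ d : ℕ, rightSeries S d = ⊥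

end Pool.Agent.H89.SN
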