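import Pool.Agent.H89.SN0

set_option autoImplicit false

namespace Pool.Agent.H89.SN

variable {S : Type*} [Semigroup S]

theorem hcomm_tc {k : ℕ} (α : Fin (k + 1) → Con S) : ∀ x ∈ mats α,
    (∀ ε, ε ≠ (fun _ => true) → hcomm α (x ε).1 (x ε).2) →
      hcomm α (x fun _ => true).1 (x fun _ => true).2 := by
  intro x hx h
  have key : ∀ a b, hcomm α a b ↔ ∀ δ ∈ {δ : Con S | ∀ x ∈ mats α,
      (∀ ε, ε ≠ (fun _ => true) → δ (x ε).1 (x ε).2) →
        δ (x fun _ => true).1 (x fun _ => true).2}, δ a b := by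
    intro a b
    rw [hcomm, Con.coe_sInf]
    simp only [sInf_image, iInf_apply, iInf_Prop_eq]
  rw [key]
  intro δ hδ
  exact hδ x hx (fun ε hε => (key _ _).1 (h ε hε) δ hδ)

/-- 2×2 matrices `((a,b),(c,e))` whose rows are `θ`-related -/
inductive Mat (θ : Con S) : S → S → S → S → Prop
  | row (a c : S) : Mat θ a a c c
  | col (a b : S) : θ a b → Mat θ a b a b
  | mul {a b c e a' b' c' e' : S} : Mat θ a b c e → Mat θ a' b' c' e' →
      Mat θ (a * a') (b * b') (c * c') (e * e')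

theorem Mat.rel {θ : Con S} {a b c e : S} (h : Mat θ a b c e) : θ a b ∧ θ c e := by
  induction h with
  | row a c => exact ⟨θ.refl _, θ.refl _⟩
  | col a b h => exact ⟨h, h⟩
  | mul _ _ h1 h2 => exact ⟨θ.mul h1.1 h2.1, θ.mul h1.2 h2.2⟩

def Step (θ θ' : Con S) : Prop :=
  ∀ a b c e, Mat θ a b c e → (θ' a b → θ' c e) ∧ (θ' a c → θ' b e)

theorem step_left {θ θ' α : Con S} (h : Step θ θ') (hα : α ≤ θ) : hcomm ![⊤, α] ≤ θ' := by
  refine sInf_le (fun x hx hx' => ?_)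
  have : Mat θ (x fun _ => false).1 (x fun _ => false).2 (x fun _ => true).1 (x fun _ => true).2 := by
    clear hx'
    induction hx using Subsemigroup.closure_induction with
    | mem x hx =>
      rcases hx with ⟨i, a, b, -, rfl⟩ | ⟨a, b, hab, rfl⟩
      · exact Mat.row a b
      · exact Mat.col a b (hα hab)
    | mul x y _ _ hx hy => exact Mat.mul hx hy
  exact (h _ _ _ _ this).1 (hx' _ (fun h => by simpa using congrFun h 0))

theorem step_right {θ θ' α : Con S} (h : Step θ θ') (hα : α ≤ θ) : hcomm ![α, ⊤] ≤ θ' := by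
  refine sInf_le (fun x hx hx' => ?_)
  have : Mat θ (x fun _ => false).1 (x fun _ => true).1 (x fun _ => false).2 (x fun _ => true).2 := by
    clear hx'
    induction hx using Subsemigroup.closure_induction with
    | mem x hx =>
      rcases hx with ⟨i, a, b, hab, rfl⟩ | ⟨a, b, -, rfl⟩
      · have : i = 0 := Subsingleton.elim _ _
        subst this
        exact Mat.col a b (hα hab)
      · exact Mat.row a b
    | mul x y _ _ hx hy => exact Mat.mul hx hy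
  exact (h _ _ _ _ this).2 (hx' _ (fun h => by simpa using congrFun h 0))

/-- eventually both series are below `θ` -/
def Ev (θ : Con S) : Prop := ∃ n, ∀ m, n ≤ m → leftSeries S m ≤ θ ∧ rightSeries S m ≤ θ

theorem Ev.top : Ev (⊤ : Con S) := ⟨0, fun _ _ => ⟨le_top, le_top⟩⟩

theorem Ev.mono {θ θ' : Con S} (h : Ev θ) (hle : θ ≤ θ') : Ev θ' := by
  obtain ⟨n, hn⟩ := h
  exact ⟨n, fun m hm => ⟨(hn m hm).1.trans hle, (hn m hm).2.trans hle⟩⟩

theorem Ev.inf {θ θ' : Con S} (h : Ev θ) (h' : Ev θ') : Ev (θ ⊓ θ') := by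
  obtain ⟨n, hn⟩ := h
  obtain ⟨k, hk⟩ := h'
  exact ⟨n + k, fun m hm => ⟨le_inf (hn m (by omega)).1 (hk m (by omega)).1,
    le_inf (hn m (by omega)).2 (hk m (by omega)).2⟩⟩

theorem Ev.step {θ θ' : Con S} (h : Ev θ) (hs : Step θ θ') : Ev θ' := by
  obtain ⟨n, hn⟩ := h
  refine ⟨n + 1, fun m hm => ?_⟩
  obtain ⟨m, rfl⟩ : ∃ k, m = k + 1 := ⟨m - 1, by omega⟩
  exact ⟨step_left hs (hn m (by omega)).1, step_right hs (hn m (by omega)).2⟩

theorem Ev.down {θ : ℕ → Con S} (hs : ∀ k, Step (θ (k + 1)) (θ k)) : ∀ n, Ev (θ n) → Ev (θ 0)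
  | 0, h => h
  | n + 1, h => Ev.down hs n (h.step (hs n))

theorem Ev.nilp (h : Ev (⊥ : Con S)) : LeftNilpotent S ∧ RightNilpotent S := by
  obtain ⟨n, hn⟩ := h
  exact ⟨⟨n, le_bot_iff.1 (hn n le_rfl).1⟩, ⟨n, le_bot_iff.1 (hn n le_rfl).2⟩⟩

/-- products of at least `k` elements of `S` -/
def P (S : Type*) [Semigroup S] : ℕ → Set (WithOne S)
  | 0 => Set.univ
  | k + 1 => {z | ∃ (a : S) (x : WithOne S), x ∈ P S k ∧ z = a * x}

theorem P_right : ∀ {k : ℕ} {x : WithOne S} (y : WithOne S), x ∈ P S k → x * y ∈ P S k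
  | 0, _, _, _ => trivial
  | _ + 1, _, y, ⟨a, x, hx, h⟩ => ⟨a, x * y, P_right y hx, by rw [h, mul_assoc]⟩

theorem P_left {k : ℕ} {x : WithOne S} (y : WithOne S) (hx : x ∈ P S k) : y * x ∈ P S k := by
  rcases k with _ | k
  · trivial
  · obtain ⟨a, x, hx, rfl⟩ := hx
    induction y using WithOne.recOneCoe with
    | one => exact ⟨a, x, hx, one_mul _⟩
    | coe b => exact ⟨b * a, x, hx, by rw [WithOne.coe_mul, mul_assoc]⟩

theorem P_mul : ∀ {j k : ℕ} {x y : WithOne S}, x ∈ P S j → y ∈ P S k → x * y ∈ P S (j + k)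
  | 0, k, x, y, _, hy => by rw [Nat.zero_add]; exact P_left x hy
  | j + 1, k, _, y, ⟨a, x, hx, h⟩, hy => by
    rw [Nat.add_right_comm]
    exact ⟨a, x * y, P_mul hx hy, by rw [h, mul_assoc]⟩

theorem P_coe (a : S) : (a : WithOne S) ∈ P S 1 := ⟨a, 1, trivial, (mul_one _).symm⟩

theorem P_anti : ∀ {j k : ℕ} {x : WithOne S}, j ≤ k → x ∈ P S k → x ∈ P S j
  | 0, _, _, _, _ => trivial
  | j + 1, 0, _, h, _ => absurd h (by omega)
  | j + 1, k + 1, _, h, ⟨a, x, hx, hz⟩ => ⟨a, x, P_anti (by omega) hx, hz⟩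

theorem P_one {x : WithOne S} (hx : x ∈ P S 1) : ∃ a : S, x = a := by
  obtain ⟨a, x, -, rfl⟩ := hx
  induction x using WithOne.recOneCoe with
  | one => exact ⟨a, mul_one _⟩
  | coe b => exact ⟨a * b, rfl⟩

theorem P_l {k : ℕ} (y : S) {x : S} (hx : (x : WithOne S) ∈ P S k) :
    ((y * x : S) : WithOne S) ∈ P S k := by rw [WithOne.coe_mul]; exact P_left _ hx

theorem P_r {k : ℕ} (y : S) {x : S} (hx : (x : WithOne S) ∈ P S k) :
    ((x * y : S) : WithOne S) ∈ P S k := by rw [WithOne.coe_mul]; exact P_right _ hx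

/-- Rees congruences -/
def rees (S : Type*) [Semigroup S] (k : ℕ) : Con S where
  r a b := a = b ∨ ((a : WithOne S) ∈ P S k ∧ (b : WithOne S) ∈ P S k)
  iseqv := ⟨fun _ => Or.inl rfl, fun h => h.elim (fun h => Or.inl h.symm) (fun h => Or.inr h.symm),
    by
      rintro a b c (rfl | h) (rfl | h')
      · exact Or.inl rfl
      · exact Or.inr h'
      · exact Or.inr h
      · exact Or.inr ⟨h.1, h'.2⟩⟩
  mul' := by
    rintro a b c e (rfl | h) (rfl | h')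
    · exact Or.inl rfl
    · exact Or.inr ⟨P_l _ h'.1, P_l _ h'.2⟩
    · exact Or.inr ⟨P_r _ h.1, P_r _ h.2⟩
    · exact Or.inr ⟨P_r _ h.1, P_r _ h.2⟩

theorem step_rees (k : ℕ) : Step (rees S k) (rees S (k + 1)) := by
  intro a b c e h
  have key : (a = b ∧ c = e) ∨ (a = c ∧ b = e ∧ (a : WithOne S) ∈ P S k ∧ (b : WithOne S) ∈ P S k) ∨
      ((a : WithOne S) ∈ P S (k + 1) ∧ (b : WithOne S) ∈ P S (k + 1) ∧
        (c : WithOne S) ∈ P S (k + 1) ∧ (e : WithOne S) ∈ P S (k + 1)) := by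
    induction h with
    | row a c => exact Or.inl ⟨rfl, rfl⟩
    | col a b h =>
      rcases h with rfl | h
      · exact Or.inl ⟨rfl, rfl⟩
      · exact Or.inr (Or.inl ⟨rfl, rfl, h⟩)
    | mul _ _ h1 h2 =>
      have l : ∀ (x y : S), (y : WithOne S) ∈ P S k → ((x * y : S) : WithOne S) ∈ P S (k + 1) :=
        fun x y hy => by rw [add_comm]; exact P_mul (P_coe x) hy
      have r : ∀ (x y : S), (x : WithOne S) ∈ P S k → ((x * y : S) : WithOne S) ∈ P S (k + 1) :=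
        fun x y hx => P_mul hx (P_coe y)
      rcases h1 with ⟨rfl, rfl⟩ | ⟨rfl, rfl, h3, h4⟩ | ⟨h3, h4, h5, h6⟩
      · rcases h2 with ⟨rfl, rfl⟩ | ⟨rfl, rfl, h3, h4⟩ | ⟨h3, h4, h5, h6⟩
        · exact Or.inl ⟨rfl, rfl⟩
        · exact Or.inr (Or.inr ⟨l _ _ h3, l _ _ h4, l _ _ h3, l _ _ h4⟩)
        · exact Or.inr (Or.inr ⟨P_l _ h3, P_l _ h4, P_l _ h5, P_l _ h6⟩)
      · exact Or.inr (Or.inr ⟨r _ _ h3, r _ _ h4, r _ _ h3, r _ _ h4⟩)
      · exact Or.inr (Or.inr ⟨P_r _ h3, P_r _ h4, P_r _ h5, P_r _ h6⟩)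
  rcases key with ⟨rfl, rfl⟩ | ⟨rfl, rfl, -⟩ | ⟨h3, h4, h5, h6⟩
  · exact ⟨fun _ => Or.inl rfl, fun h => h⟩
  · exact ⟨fun h => h, fun _ => Or.inl rfl⟩
  · exact ⟨fun _ => Or.inr ⟨h5, h6⟩, fun _ => Or.inr ⟨h4, h6⟩⟩

theorem ev_rees : ∀ k, Ev (rees S k)
  | 0 => Ev.top.mono (fun _ _ _ => Or.inr ⟨trivial, trivial⟩)
  | k + 1 => (ev_rees k).step (step_rees k)

/-- equality in all contexts of total length `k` -/
def rho (S : Type*) [Semigroup S] (k : ℕ) : Con S where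
  r a b := ∀ i j x y, k ≤ i + j → x ∈ P S i → y ∈ P S j → x * a * y = x * b * y
  iseqv := ⟨fun _ _ _ _ _ _ _ _ => rfl, fun h i j x y h1 h2 h3 => (h i j x y h1 h2 h3).symm,
    fun h h' i j x y h1 h2 h3 => (h i j x y h1 h2 h3).trans (h' i j x y h1 h2 h3)⟩
  mul' := by
    intro a b c e h h' i j x y h1 h2 h3
    have h4 := h i j x (c * y) h1 h2 (P_left _ h3)
    have h5 := h' i j (x * b) y h1 (P_right _ h2) h3
    simp only [WithOne.coe_mul, mul_assoc] at *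
    rw [h4, h5]

theorem step_rho (k : ℕ) : Step (rho S (k + 1)) (rho S k) := by
  intro a b c e h
  have hm : ∀ {a b a' b' : S}, rho S (k + 1) a b → rho S (k + 1) a' b' →
      rho S k (a * a') (b * b') := by
    intro a b a' b' h h' i j x y h1 h2 h3
    have h4 := h i (1 + j) x (a' * y) (by omega) h2 (P_mul (P_coe _) h3)
    have h5 := h' (i + 1) j (x * b) y (by omega) (P_mul h2 (P_coe _)) h3
    simp only [WithOne.coe_mul, mul_assoc] at *
    rw [h4, h5]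
  have key : (a = c ∧ b = e) ∨ (rho S k a b ∧ rho S k c e) := by
    cases h with
    | row a c => exact Or.inr ⟨(rho S k).refl _, (rho S k).refl _⟩
    | col a b h => exact Or.inl ⟨rfl, rfl⟩
    | mul h1 h2 => exact Or.inr ⟨hm h1.rel.1 h2.rel.1, hm h1.rel.2 h2.rel.2⟩
  rcases key with ⟨rfl, rfl⟩ | ⟨h1, h2⟩
  · exact ⟨fun h => h, fun _ => (rho S k).refl _⟩
  · exact ⟨fun _ => h2, fun h => (rho S k).trans ((rho S k).symm h1) ((rho S k).trans h h2)⟩

theorem ev_of_rho {k : ℕ} (h : Ev (rho S k)) : Ev (⊥ : Con S) :=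
  (Ev.down step_rho k h).mono (fun a b h => by
    have := h 0 0 1 1 le_rfl trivial trivial
    exact (by simpa using this : a = b))

section group
variable {G : Type*} [Group G]

/-- the group part of the chain -/
def kappa (β : Con S) (ψ : S → G)
    (hl : ∀ a b x, β a b → ∃ p, ψ (x * a) = p * ψ a ∧ ψ (x * b) = p * ψ b)
    (hr : ∀ a b x, β a b → ∃ p, ψ (a * x) = ψ a * p ∧ ψ (b * x) = ψ b * p) (j : ℕ) : Con S where
  r a b := β a b ∧ ψ a * (ψ b)⁻¹ ∈ Subgroup.upperCentralSeries G j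
  iseqv := ⟨fun a => ⟨β.refl a, by simp⟩, fun h => ⟨β.symm h.1, by simpa using inv_mem h.2⟩,
    fun h h' => ⟨β.trans h.1 h'.1, by simpa [mul_assoc] using mul_mem h.2 h'.2⟩⟩
  mul' := by
    rintro a b c e ⟨h1, h2⟩ ⟨h3, h4⟩
    refine ⟨β.mul h1 h3, ?_⟩
    obtain ⟨p, hp1, hp2⟩ := hr a b c h1
    obtain ⟨q, hq1, hq2⟩ := hl c e b h3
    have h5 : ψ (a * c) * (ψ (b * e))⁻¹ = (ψ a * (ψ b)⁻¹) * (q * (ψ c * (ψ e)⁻¹) * q⁻¹) := by
      have : ψ (a * c) = ψ a * (ψ b)⁻¹ * ψ (b * c) := by rw [hp1, hp2]; group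
      rw [this, hq1, hq2]; group
    rw [h5]
    exact mul_mem h2 (Subgroup.Normal.conj_mem inferInstance _ h4 q)

theorem step_kappa (β : Con S) (ψ : S → G)
    (hl : ∀ a b x, β a b → ∃ p, ψ (x * a) = p * ψ a ∧ ψ (x * b) = p * ψ b)
    (hr : ∀ a b x, β a b → ∃ p, ψ (a * x) = ψ a * p ∧ ψ (b * x) = ψ b * p) (j : ℕ) :
    Step (kappa β ψ hl hr (j + 1)) (kappa β ψ hl hr j) := by
  intro a b c e h
  let π : G →* G ⧸ Subgroup.upperCentralSeries G j := QuotientGroup.mk' _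
  have hπ : ∀ g, g ∈ Subgroup.upperCentralSeries G j ↔ π g = 1 := fun g =>
    (QuotientGroup.eq_one_iff g).symm
  have hc : ∀ g ∈ Subgroup.upperCentralSeries G (j + 1), ∀ q, π (q * g * q⁻¹) = π g := by
    intro g hg q
    have := (hπ _).1 (Subgroup.mem_upperCentralSeries_succ_iff.1 hg q)
    rw [commutatorElement_def] at this
    simp only [map_mul, map_inv] at this ⊢
    have h1 : π g * π q = π q * π g := by
      rw [mul_inv_eq_one, mul_inv_eq_iff_eq_mul] at this; exact this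
    rw [← h1]; group
  have hm : ∀ {a b a' b' : S}, kappa β ψ hl hr (j + 1) a b → kappa β ψ hl hr (j + 1) a' b' →
      π (ψ (a * a') * (ψ (b * b'))⁻¹) = π (ψ a * (ψ b)⁻¹) * π (ψ a' * (ψ b')⁻¹) := by
    rintro a b c e ⟨h1, -⟩ ⟨h3, h4⟩
    obtain ⟨p, hp1, hp2⟩ := hr a b c h1
    obtain ⟨q, hq1, hq2⟩ := hl c e b h3
    have h5 : ψ (a * c) * (ψ (b * e))⁻¹ = (ψ a * (ψ b)⁻¹) * (q * (ψ c * (ψ e)⁻¹) * q⁻¹) := by
      have : ψ (a * c) = ψ a * (ψ b)⁻¹ * ψ (b * c) := by rw [hp1, hp2]; group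
      rw [this, hq1, hq2]; group
    rw [h5, map_mul, hc _ h4]
  have key : π (ψ a * (ψ b)⁻¹) = π (ψ c * (ψ e)⁻¹) := by
    induction h with
    | row a c => simp
    | col a b h => rfl
    | mul h1 h2 ih1 ih2 => rw [hm h1.rel.1 h2.rel.1, hm h1.rel.2 h2.rel.2, ih1, ih2]
  refine ⟨fun h1 => ⟨h.rel.2.1, ?_⟩, fun h1 => ⟨β.trans (β.symm h.rel.1.1) (β.trans h1.1 h.rel.2.1), ?_⟩⟩
  · rw [hπ, ← key, ← hπ]; exact h1.2
  · have h2 := (hπ _).1 h1.2
    rw [hπ]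
    simp only [map_mul, map_inv] at h2 key ⊢
    rw [mul_inv_eq_one] at h2 ⊢
    rw [h2] at key
    simpa using key

theorem ev_kappa (β : Con S) (hβ : Ev β) (ψ : S → G)
    (hl : ∀ a b x, β a b → ∃ p, ψ (x * a) = p * ψ a ∧ ψ (x * b) = p * ψ b)
    (hr : ∀ a b x, β a b → ∃ p, ψ (a * x) = ψ a * p ∧ ψ (b * x) = ψ b * p) (n : ℕ)
    (hn : Subgroup.upperCentralSeries G n = ⊤) (θ : Con S)
    (hθ : ∀ a b, β a b → ψ a = ψ b → θ a b) : Ev θ := by
  have h1 : Ev (kappa β ψ hl hr n) := hβ.mono (fun a b h => ⟨h, by simp [hn]⟩)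
  refine (Ev.down (step_kappa β ψ hl hr) n h1).mono (fun a b h => hθ a b h.1 ?_)
  have := h.2
  rwa [Subgroup.upperCentralSeries_zero, Subgroup.mem_bot, mul_inv_eq_one] at this

end group

end Pool.Agent.H89.SN
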