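import Pool.Agent.H89.SN1

set_option autoImplicit false

namespace Pool.Agent.H89.SN

variable {S : Type*} [Semigroup S]

def Lt (a b : WithOne S) : Prop := ∃ u v, a * u = b * v
def Rt (a b : WithOne S) : Prop := ∃ u v, u * a = v * b

theorem Lt.rfl' (a : WithOne S) : Lt a a := ⟨1, 1, rfl⟩
theorem Lt.symm {a b : WithOne S} : Lt a b → Lt b a := fun ⟨u, v, h⟩ => ⟨v, u, h.symm⟩
theorem Lt.pre (a y : WithOne S) : Lt (a * y) a := ⟨1, y, mul_one _⟩
theorem Lt.mul {a b : WithOne S} (x : WithOne S) : Lt a b → Lt (x * a) (x * b) :=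
  fun ⟨u, v, h⟩ => ⟨u, v, by rw [mul_assoc, h, mul_assoc]⟩
theorem Rt.rfl' (a : WithOne S) : Rt a a := ⟨1, 1, rfl⟩
theorem Rt.symm {a b : WithOne S} : Rt a b → Rt b a := fun ⟨u, v, h⟩ => ⟨v, u, h.symm⟩
theorem Rt.pre (a y : WithOne S) : Rt (y * a) a := ⟨1, y, one_mul _⟩
theorem Rt.mul {a b : WithOne S} (x : WithOne S) : Rt a b → Rt (a * x) (b * x) :=
  fun ⟨u, v, h⟩ => ⟨u, v, by rw [← mul_assoc, h, mul_assoc]⟩

structure TrL (S : Type*) [Semigroup S] (d : ℕ) : Prop where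
  t : ∀ {a b c : WithOne S}, b ∈ P S d → Lt a b → Lt b c → Lt a c
structure TrR (S : Type*) [Semigroup S] (d : ℕ) : Prop where
  t : ∀ {a b c : WithOne S}, b ∈ P S d → Rt a b → Rt b c → Rt a c

section left
variable {d : ℕ} (tr : TrL S d)
include tr

theorem Lt.ext {a b : WithOne S} (x y : WithOne S) (ha : a ∈ P S d) (hb : b ∈ P S d) (h : Lt a b) :
    Lt (a * x) (b * y) := tr.t ha (Lt.pre _ _) (tr.t hb h (Lt.pre _ _).symm)

def betaL (k : ℕ) : Con S where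
  r a b := a = b ∨ ((a : WithOne S) ∈ P S d ∧ (b : WithOne S) ∈ P S d ∧
    ∀ w : WithOne S, w ∈ P S k → Lt (w * (a : WithOne S)) (w * (b : WithOne S)))
  iseqv := ⟨fun _ => Or.inl rfl,
    fun h => h.elim (fun h => Or.inl h.symm) (fun h => Or.inr ⟨h.2.1, h.1, fun w hw => (h.2.2 w hw).symm⟩),
    by
      rintro a b c (rfl | h) (rfl | h')
      · exact Or.inl rfl
      · exact Or.inr h'
      · exact Or.inr h
      · exact Or.inr ⟨h.1, h'.2.1, fun w hw => tr.t (P_left _ h.2.1) (h.2.2 w hw) (h'.2.2 w hw)⟩⟩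
  mul' := by
    have h1 : ∀ {a b : S} (c e : S), ((a : WithOne S) ∈ P S d ∧ (b : WithOne S) ∈ P S d ∧
        ∀ w : WithOne S, w ∈ P S k → Lt (w * (a : WithOne S)) (w * (b : WithOne S))) → (((a * c : S) : WithOne S) ∈ P S d ∧
        ((b * e : S) : WithOne S) ∈ P S d ∧ ∀ w : WithOne S, w ∈ P S k → Lt (w * ((a * c : S) : WithOne S))
          (w * ((b * e : S) : WithOne S))) := by
      intro a b c e h
      refine ⟨P_r _ h.1, P_r _ h.2.1, fun w hw => ?_⟩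
      rw [WithOne.coe_mul, WithOne.coe_mul, ← mul_assoc, ← mul_assoc]
      exact Lt.ext tr _ _ (P_left _ h.1) (P_left _ h.2.1) (h.2.2 w hw)
    rintro a b c e (rfl | h) (rfl | h')
    · exact Or.inl rfl
    · refine Or.inr ⟨P_l _ h'.1, P_l _ h'.2.1, fun w hw => ?_⟩
      rw [WithOne.coe_mul, WithOne.coe_mul, ← mul_assoc, ← mul_assoc]
      exact h'.2.2 _ (P_right _ hw)
    · exact Or.inr (h1 _ _ h)
    · exact Or.inr (h1 _ _ h)

theorem betaL_lt {k : ℕ} {a b : S} (h : betaL tr k a b) (w : WithOne S) (hw : w ∈ P S k) :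
    Lt (w * (a : WithOne S)) (w * (b : WithOne S)) := by
  rcases h with rfl | h
  · exact Lt.rfl' _
  · exact h.2.2 w hw

theorem step_betaL (k : ℕ) : Step (betaL tr (k + 1)) (betaL tr k) := by
  intro a b c e h
  have key : (a = b ∧ c = e) ∨ (((a : WithOne S) ∈ P S d ∧ (b : WithOne S) ∈ P S d ∧
      (c : WithOne S) ∈ P S d ∧ (e : WithOne S) ∈ P S d) ∧
      ((Lt (a : WithOne S) (c : WithOne S) ∧ Lt (b : WithOne S) (e : WithOne S)) ∨
        ∀ w : WithOne S, w ∈ P S k → Lt (w * (a : WithOne S)) (w * (b : WithOne S)) ∧ Lt (w * (c : WithOne S)) (w * (e : WithOne S)))) := by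
    induction h with
    | row a c => exact Or.inl ⟨rfl, rfl⟩
    | col a b h =>
      rcases h with rfl | h
      · exact Or.inl ⟨rfl, rfl⟩
      · exact Or.inr ⟨⟨h.1, h.2.1, h.1, h.2.1⟩, Or.inl ⟨Lt.rfl' _, Lt.rfl' _⟩⟩
    | mul _ hm h1 h2 =>
      rcases h1 with ⟨rfl, rfl⟩ | ⟨⟨h3, h4, h5, h6⟩, h7⟩
      · rcases h2 with ⟨rfl, rfl⟩ | ⟨⟨h3, h4, h5, h6⟩, -⟩
        · exact Or.inl ⟨rfl, rfl⟩
        · refine Or.inr ⟨⟨P_l _ h3, P_l _ h4, P_l _ h5, P_l _ h6⟩, Or.inr fun w hw => ?_⟩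
          simp only [WithOne.coe_mul, ← mul_assoc]
          exact ⟨betaL_lt tr hm.rel.1 _ (P_mul hw (P_coe _)),
            betaL_lt tr hm.rel.2 _ (P_mul hw (P_coe _))⟩
      · refine Or.inr ⟨⟨P_r _ h3, P_r _ h4, P_r _ h5, P_r _ h6⟩, ?_⟩
        simp only [WithOne.coe_mul, ← mul_assoc]
        rcases h7 with ⟨h7, h8⟩ | h7
        · exact Or.inl ⟨Lt.ext tr _ _ h3 h5 h7, Lt.ext tr _ _ h4 h6 h8⟩
        · exact Or.inr fun w hw => ⟨Lt.ext tr _ _ (P_left _ h3) (P_left _ h4) (h7 w hw).1,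
            Lt.ext tr _ _ (P_left _ h5) (P_left _ h6) (h7 w hw).2⟩
  rcases key with ⟨rfl, rfl⟩ | ⟨⟨h3, h4, h5, h6⟩, ⟨h7, h8⟩ | h7⟩
  · exact ⟨fun _ => Or.inl rfl, fun h => h⟩
  · exact ⟨fun h => Or.inr ⟨h5, h6, fun w hw => tr.t (P_left _ h3) (h7.mul w).symm
      (tr.t (P_left _ h4) (betaL_lt tr h w hw) (h8.mul w))⟩,
      fun _ => Or.inr ⟨h4, h6, fun w _ => h8.mul w⟩⟩
  · exact ⟨fun _ => Or.inr ⟨h5, h6, fun w hw => (h7 w hw).2⟩,
      fun h => Or.inr ⟨h4, h6, fun w hw => tr.t (P_left _ h3) (h7 w hw).1.symm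
        (tr.t (P_left _ h5) (betaL_lt tr h w hw) (h7 w hw).2)⟩⟩

theorem ev_betaL : Ev (betaL tr 0) :=
  Ev.down (step_betaL tr) d ((ev_rees d).mono (fun _ _ h => h.elim Or.inl
    (fun h => Or.inr ⟨h.1, h.2, fun _ hw => Lt.ext tr _ _ hw hw (Lt.rfl' _)⟩)))

end left

section right
variable {d : ℕ} (tr : TrR S d)
include tr

theorem Rt.ext {a b : WithOne S} (x y : WithOne S) (ha : a ∈ P S d) (hb : b ∈ P S d) (h : Rt a b) :
    Rt (x * a) (y * b) := tr.t ha (Rt.pre _ _) (tr.t hb h (Rt.pre _ _).symm)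

def betaR (k : ℕ) : Con S where
  r a b := a = b ∨ ((a : WithOne S) ∈ P S d ∧ (b : WithOne S) ∈ P S d ∧
    ∀ w : WithOne S, w ∈ P S k → Rt ((a : WithOne S) * w) ((b : WithOne S) * w))
  iseqv := ⟨fun _ => Or.inl rfl,
    fun h => h.elim (fun h => Or.inl h.symm) (fun h => Or.inr ⟨h.2.1, h.1, fun w hw => (h.2.2 w hw).symm⟩),
    by
      rintro a b c (rfl | h) (rfl | h')
      · exact Or.inl rfl
      · exact Or.inr h'
      · exact Or.inr h
      · exact Or.inr ⟨h.1, h'.2.1, fun w hw => tr.t (P_right _ h.2.1) (h.2.2 w hw) (h'.2.2 w hw)⟩⟩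
  mul' := by
    have h1 : ∀ {a b : S} (c e : S), ((a : WithOne S) ∈ P S d ∧ (b : WithOne S) ∈ P S d ∧
        ∀ w : WithOne S, w ∈ P S k → Rt ((a : WithOne S) * w) ((b : WithOne S) * w)) → (((c * a : S) : WithOne S) ∈ P S d ∧
        ((e * b : S) : WithOne S) ∈ P S d ∧ ∀ w : WithOne S, w ∈ P S k → Rt (((c * a : S) : WithOne S) * w)
          (((e * b : S) : WithOne S) * w)) := by
      intro a b c e h
      refine ⟨P_l _ h.1, P_l _ h.2.1, fun w hw => ?_⟩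
      rw [WithOne.coe_mul, WithOne.coe_mul, mul_assoc, mul_assoc]
      exact Rt.ext tr _ _ (P_right _ h.1) (P_right _ h.2.1) (h.2.2 w hw)
    rintro a b c e (rfl | h) (rfl | h')
    · exact Or.inl rfl
    · exact Or.inr (h1 _ _ h')
    · refine Or.inr ⟨P_r _ h.1, P_r _ h.2.1, fun w hw => ?_⟩
      rw [WithOne.coe_mul, WithOne.coe_mul, mul_assoc, mul_assoc]
      exact h.2.2 _ (P_left _ hw)
    · exact Or.inr (h1 _ _ h')

theorem betaR_rt {k : ℕ} {a b : S} (h : betaR tr k a b) (w : WithOne S) (hw : w ∈ P S k) :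
    Rt ((a : WithOne S) * w) ((b : WithOne S) * w) := by
  rcases h with rfl | h
  · exact Rt.rfl' _
  · exact h.2.2 w hw

theorem step_betaR (k : ℕ) : Step (betaR tr (k + 1)) (betaR tr k) := by
  intro a b c e h
  have key : (a = b ∧ c = e) ∨ (((a : WithOne S) ∈ P S d ∧ (b : WithOne S) ∈ P S d ∧
      (c : WithOne S) ∈ P S d ∧ (e : WithOne S) ∈ P S d) ∧
      ((Rt (a : WithOne S) (c : WithOne S) ∧ Rt (b : WithOne S) (e : WithOne S)) ∨
        ∀ w : WithOne S, w ∈ P S k → Rt ((a : WithOne S) * w) ((b : WithOne S) * w) ∧ Rt ((c : WithOne S) * w) ((e : WithOne S) * w))) := by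
    induction h with
    | row a c => exact Or.inl ⟨rfl, rfl⟩
    | col a b h =>
      rcases h with rfl | h
      · exact Or.inl ⟨rfl, rfl⟩
      · exact Or.inr ⟨⟨h.1, h.2.1, h.1, h.2.1⟩, Or.inl ⟨Rt.rfl' _, Rt.rfl' _⟩⟩
    | mul hm _ h1 h2 =>
      rcases h2 with ⟨rfl, rfl⟩ | ⟨⟨h3, h4, h5, h6⟩, h7⟩
      · rcases h1 with ⟨rfl, rfl⟩ | ⟨⟨h3, h4, h5, h6⟩, -⟩
        · exact Or.inl ⟨rfl, rfl⟩
        · refine Or.inr ⟨⟨P_r _ h3, P_r _ h4, P_r _ h5, P_r _ h6⟩, Or.inr fun w hw => ?_⟩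
          simp only [WithOne.coe_mul, mul_assoc]
          have hp : ∀ x : S, (x : WithOne S) * w ∈ P S (k + 1) := fun x => ⟨x, w, hw, rfl⟩
          exact ⟨betaR_rt tr hm.rel.1 _ (hp _), betaR_rt tr hm.rel.2 _ (hp _)⟩
      · refine Or.inr ⟨⟨P_l _ h3, P_l _ h4, P_l _ h5, P_l _ h6⟩, ?_⟩
        simp only [WithOne.coe_mul, mul_assoc]
        rcases h7 with ⟨h7, h8⟩ | h7
        · exact Or.inl ⟨Rt.ext tr _ _ h3 h5 h7, Rt.ext tr _ _ h4 h6 h8⟩
        · exact Or.inr fun w hw => ⟨Rt.ext tr _ _ (P_right _ h3) (P_right _ h4) (h7 w hw).1,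
            Rt.ext tr _ _ (P_right _ h5) (P_right _ h6) (h7 w hw).2⟩
  rcases key with ⟨rfl, rfl⟩ | ⟨⟨h3, h4, h5, h6⟩, ⟨h7, h8⟩ | h7⟩
  · exact ⟨fun _ => Or.inl rfl, fun h => h⟩
  · exact ⟨fun h => Or.inr ⟨h5, h6, fun w hw => tr.t (P_right _ h3) (h7.mul w).symm
      (tr.t (P_right _ h4) (betaR_rt tr h w hw) (h8.mul w))⟩,
      fun _ => Or.inr ⟨h4, h6, fun w _ => h8.mul w⟩⟩
  · exact ⟨fun _ => Or.inr ⟨h5, h6, fun w hw => (h7 w hw).2⟩,
      fun h => Or.inr ⟨h4, h6, fun w hw => tr.t (P_right _ h3) (h7 w hw).1.symm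
        (tr.t (P_right _ h5) (betaR_rt tr h w hw) (h7 w hw).2)⟩⟩

theorem ev_betaR : Ev (betaR tr 0) :=
  Ev.down (step_betaR tr) d ((ev_rees d).mono (fun _ _ h => h.elim Or.inl
    (fun h => Or.inr ⟨h.1, h.2, fun _ hw => Rt.ext tr _ _ hw hw (Rt.rfl' _)⟩)))

end right

theorem chain {G : Type*} [Group G] (d : ℕ)
    (LC : ∀ w ∈ P S d, ∀ y c e : WithOne S, c ∈ P S 1 → e ∈ P S 1 → y * w * c = y * w * e →
      w * c = w * e)
    (RC : ∀ w ∈ P S d, ∀ y c e : WithOne S, c ∈ P S 1 → e ∈ P S 1 → c * w * y = e * w * y →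
      c * w = e * w)
    (Z : WithOne S) (hZ : Z ∈ P S 1) (ψ : WithOne S → G)
    (hψ : ∀ a b, ψ a = ψ b ↔ Z * a * Z = Z * b * Z) (hm : ∀ a b, ψ (a * Z * b) = ψ a * ψ b)
    (oreL : ∀ a b, ∃ u v, ψ u * ψ a = ψ v * ψ b) (oreR : ∀ a b, ∃ u v, ψ a * ψ u = ψ b * ψ v)
    (n : ℕ) (hn : Subgroup.upperCentralSeries G n = ⊤) : Ev (⊥ : Con S) := by
  have lc : ∀ w ∈ P S d, ∀ x y u v, ψ (w * x) * ψ u = ψ (w * y) * ψ v →
      w * x * Z * u * Z = w * y * Z * v * Z := by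
    intro w hw x y u v h
    rw [← hm, ← hm, hψ] at h
    have := LC w hw Z (x * Z * u * Z) (y * Z * v * Z) (P_left _ hZ) (P_left _ hZ)
      (by simpa only [mul_assoc] using h)
    simpa only [mul_assoc] using this
  have rc : ∀ w ∈ P S d, ∀ x y u v, ψ u * ψ (x * w) = ψ v * ψ (y * w) →
      Z * u * Z * x * w = Z * v * Z * y * w := by
    intro w hw x y u v h
    rw [← hm, ← hm, hψ] at h
    exact RC w hw Z _ _ (P_right _ (P_right _ (P_right _ hZ))) (P_right _ (P_right _ (P_right _ hZ)))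
      (by simpa only [mul_assoc] using h)
  have trL : TrL S d := by
    constructor
    rintro a b c hb ⟨u, v, h⟩ ⟨u', v', h'⟩
    obtain ⟨r, r', hr⟩ := oreR (b * v) (b * u')
    have := lc b hb _ _ _ _ hr
    rw [← h, h'] at this
    exact ⟨u * Z * r * Z, v' * Z * r' * Z, by simpa only [mul_assoc] using this⟩
  have trR : TrR S d := by
    constructor
    rintro a b c hb ⟨u, v, h⟩ ⟨u', v', h'⟩
    obtain ⟨r, r', hr⟩ := oreL (v * b) (u' * b)
    have := rc b hb _ _ _ _ hr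
    rw [mul_assoc _ v, mul_assoc _ u', ← h, h'] at this
    exact ⟨Z * r * Z * u, Z * r' * Z * v', by simpa only [mul_assoc] using this⟩
  have F0 : ∀ a ∈ P S d, ∀ x y, ψ (x * a * y) = ψ (x * a) * (ψ a)⁻¹ * ψ (a * y) := by
    intro a ha x y
    obtain ⟨u, v, h⟩ := oreL (x * a) (1 * a)
    have h1 := rc a ha _ _ _ _ h
    have h2 : ψ u * ψ (x * a * y) = ψ v * ψ (a * y) := by
      rw [← hm, ← hm, hψ]
      have := congrArg (· * (y * Z)) h1
      simpa only [mul_assoc, one_mul] using this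
    rw [one_mul] at h
    rw [eq_inv_mul_of_mul_eq h2, eq_inv_mul_of_mul_eq h]; group
  have FL : ∀ a ∈ P S d, ∀ b ∈ P S d, Lt a b → ∀ x, ψ (x * a) * (ψ a)⁻¹ = ψ (x * b) * (ψ b)⁻¹ := by
    rintro a ha b hb ⟨u, v, h⟩ x
    have h1 := F0 a ha x u
    rw [mul_assoc x, h, ← mul_assoc x, F0 b hb] at h1
    exact (mul_right_cancel h1).symm
  have FR : ∀ a ∈ P S d, ∀ b ∈ P S d, Rt a b → ∀ x, (ψ a)⁻¹ * ψ (a * x) = (ψ b)⁻¹ * ψ (b * x) := by
    rintro a ha b hb ⟨u, v, h⟩ x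
    have h1 := F0 a ha u x
    rw [h, F0 b hb, mul_assoc, mul_assoc] at h1
    exact (mul_left_cancel h1).symm
  have hβ : ∀ a b : S, (betaL trL 0 ⊓ betaR trR 0) a b → a = b ∨
      ((a : WithOne S) ∈ P S d ∧ (b : WithOne S) ∈ P S d ∧ Lt (a : WithOne S) b ∧
        Rt (a : WithOne S) b) := by
    rintro a b ⟨rfl | h, h'⟩
    · exact Or.inl rfl
    · exact Or.inr ⟨h.1, h.2.1, by simpa using h.2.2 1 trivial,
        by simpa using betaR_rt trR h' 1 trivial⟩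
  refine ev_of_rho (k := 2 * d) (ev_kappa _ ((ev_betaL trL).inf (ev_betaR trR)) (fun a => ψ a)
    (fun a b x h => ?_) (fun a b x h => ?_) n hn _ (fun a b h hab => ?_))
  · rcases hβ a b h with rfl | ⟨ha, hb, h1, -⟩
    · exact ⟨ψ (x * a) * (ψ a)⁻¹, by simp, by simp⟩
    · exact ⟨ψ (x * a) * (ψ a)⁻¹, by simp, by rw [FL _ ha _ hb h1]; simp⟩
  · rcases hβ a b h with rfl | ⟨ha, hb, -, h1⟩
    · exact ⟨(ψ a)⁻¹ * ψ (a * x), by simp, by simp⟩
    · exact ⟨(ψ a)⁻¹ * ψ (a * x), by simp, by rw [FR _ ha _ hb h1]; simp⟩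
  · rcases hβ a b h with rfl | ⟨ha, hb, h1, h2⟩
    · exact (rho S _).refl _
    have hl : ∀ x, ψ (x * a) = ψ (x * b) := fun x => by
      have := FL _ ha _ hb h1 x
      rw [hab] at this; exact mul_right_cancel this
    have hr : ∀ x, ψ (a * x) = ψ (b * x) := fun x => by
      have := FR _ ha _ hb h2 x
      rw [hab] at this; exact mul_left_cancel this
    intro i j x y hij hx hy
    by_cases hj : d ≤ j
    · have hy' := P_anti hj hy
      obtain ⟨u, v, huv⟩ := h1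
      obtain ⟨r, r', hrr⟩ := oreR (a * u) (a * y)
      have h3 := lc _ ha _ _ _ _ hrr
      rw [huv, hr] at hrr
      have h4 := lc _ hb _ _ _ _ hrr
      rw [huv, h4] at h3
      have h5 := RC y hy' (Z * r' * Z) b a (P_coe _) (P_coe _) (by simpa only [mul_assoc] using h3)
      rw [mul_assoc, mul_assoc, h5]
    · have hx' := P_anti (show d ≤ i by omega) hx
      obtain ⟨u, v, huv⟩ := h2
      obtain ⟨r, r', hrr⟩ := oreL (u * a) (x * a)
      have h3 := rc _ ha _ _ _ _ hrr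
      rw [huv, hl] at hrr
      have h4 := rc _ hb _ _ _ _ hrr
      rw [mul_assoc _ u, huv, ← mul_assoc, h4] at h3
      have h5 := LC x hx' (Z * r' * Z) b a (P_coe _) (P_coe _) h3
      rw [h5]

end Pool.Agent.H89.SN
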