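import Pool.Agent.H89.SN2

set_option autoImplicit false

namespace Pool.Agent.H89.SN

universe u
variable {d : ℕ} {Q : Type u} [Monoid Q]

abbrev V (d : ℕ) := Option (Fin d) → Bool

def vx (ε : Fin d → Bool) (κ : Bool) : V d := fun o => o.elim κ ε

def gen (i : Option (Fin d)) (a b : Q) : V d → Q := fun v => if v i then b else a

def T (d : ℕ) (A : Submonoid Q) : ℕ → Set (V d → Q)
  | 0 => {1}
  | n + 1 => {Y | ∃ X i a b, X ∈ T d A n ∧ a ∈ A ∧ b ∈ A ∧ Y = X * gen i a b}

def TC (d N : ℕ) (A : Submonoid Q) : Prop :=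
  ∀ n ≤ N, ∀ X ∈ T d A n, (∀ ε, ε ≠ (fun _ => true) → X (vx ε false) = X (vx ε true)) →
    X (vx (fun _ => true) false) = X (vx (fun _ => true) true)

variable {A : Submonoid Q}

theorem T_gen (i : Option (Fin d)) {a b : Q} (ha : a ∈ A) (hb : b ∈ A) : gen i a b ∈ T d A 1 :=
  ⟨1, i, a, b, rfl, ha, hb, (one_mul _).symm⟩

theorem T_mul {X : V d → Q} {n : ℕ} (hX : X ∈ T d A n) :
    ∀ {m : ℕ} {Y : V d → Q}, Y ∈ T d A m → X * Y ∈ T d A (n + m)
  | 0, _, rfl => by simpa using hX
  | _ + 1, _, ⟨Y, i, a, b, hY, ha, hb, h⟩ => ⟨X * Y, i, a, b, T_mul hX hY, ha, hb, by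
      rw [h, mul_assoc]⟩

theorem T_mono {X : V d → Q} {n m : ℕ} (hX : X ∈ T d A n) (h : n ≤ m) : X ∈ T d A m := by
  induction m, h using Nat.le_induction with
  | base => exact hX
  | succ m _ ih => exact ⟨X, none, 1, 1, ih, A.one_mem, A.one_mem, by ext v; simp [gen]⟩

theorem T_val : ∀ {n : ℕ} {X : V d → Q}, X ∈ T d A n → ∀ v, X v ∈ A
  | 0, _, rfl, _ => A.one_mem
  | _ + 1, _, ⟨X, i, a, b, hX, ha, hb, h⟩, v => by
    rw [h]
    refine A.mul_mem (T_val hX v) ?_
    simp only [gen]; split_ifs <;> assumption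

def flip (v : V d) : V d := fun o => o.elim (!v none) (fun i => v (some i))

theorem T_flip : ∀ {n : ℕ} {X : V d → Q}, X ∈ T d A n → (fun v => X (flip v)) ∈ T d A n
  | 0, _, rfl => rfl
  | _ + 1, _, ⟨X, some i, a, b, hX, ha, hb, h⟩ => ⟨_, some i, a, b, T_flip hX, ha, hb, by
      rw [h]; rfl⟩
  | _ + 1, _, ⟨X, none, a, b, hX, ha, hb, h⟩ => ⟨_, none, b, a, T_flip hX, hb, ha, by
      rw [h]; ext v; by_cases hv : v none = true <;> simp [gen, flip, hv]⟩

theorem T_lift {H : Type*} [Monoid H] (f : H →* Q) (B : Submonoid H) (hB : ∀ a ∈ A, ∃ b ∈ B, f b = a) :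
    ∀ {n : ℕ} {X : V d → Q}, X ∈ T d A n → ∃ Y ∈ T d B n, ∀ v, f (Y v) = X v
  | 0, _, rfl => ⟨1, rfl, fun _ => map_one f⟩
  | _ + 1, _, ⟨X, i, a, b, hX, ha, hb, h⟩ => by
    obtain ⟨Y, hY, hf⟩ := T_lift f B hB hX
    obtain ⟨a', ha', rfl⟩ := hB a ha
    obtain ⟨b', hb', rfl⟩ := hB b hb
    refine ⟨_, ⟨Y, i, a', b', hY, ha', hb', rfl⟩, fun v => ?_⟩
    rw [h]; simp only [gen, Pi.mul_apply, map_mul, hf]; split_ifs <;> rfl

theorem powword {x : Q} (hx : x ∈ A) : ∃ X ∈ T d A d,
    (∀ κ, X (vx (fun _ => true) κ) = 1) ∧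
      ∀ ε, ε ≠ (fun _ => true) → ∃ j, ∀ κ, X (vx ε κ) = x ^ (j + 1) := by
  have h : ∀ l : List (Fin d), (fun v : V d => x ^ l.countP (fun i => !v (some i))) ∈ T d A l.length := by
    intro l
    induction l with
    | nil => exact funext fun v => by simp
    | cons i l ih =>
      refine ⟨_, some i, x, 1, ih, hx, A.one_mem, ?_⟩
      ext v
      simp only [List.countP_cons, gen, Pi.mul_apply]
      cases v (some i) <;> simp [pow_succ]
  refine ⟨_, by simpa using h (List.finRange d), fun κ => by simp [vx], fun ε hε => ?_⟩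
  obtain ⟨i, hi⟩ : ∃ i, ε i = false := by
    by_contra hc
    push Not at hc
    exact hε (funext fun i => by simpa using hc i)
  have : 0 < (List.finRange d).countP (fun i => !ε i) :=
    List.countP_pos_iff.2 ⟨i, List.mem_finRange i, by simp [hi]⟩
  exact ⟨(List.finRange d).countP (fun i => !ε i) - 1, fun κ => by
    rw [Nat.sub_add_cancel this]; rfl⟩

theorem TC.cancel {N : ℕ} (h : TC d N (⊤ : Submonoid Q)) (hN : d + 1 ≤ N) (x a b : Q) :
    (x * a = x * b → a = b) ∧ (a * x = b * x → a = b) := by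
  obtain ⟨X, hX, h1, h2⟩ := powword (d := d) (Submonoid.mem_top x)
  constructor
  · intro hx
    have := h _ hN _ (T_mul hX (T_gen none (Submonoid.mem_top a) (Submonoid.mem_top b))) (fun ε hε => by
      obtain ⟨j, hj⟩ := h2 ε hε
      simp [hj, gen, vx, pow_succ, mul_assoc, hx])
    simpa [h1, gen, vx] using this
  · intro hx
    have := h _ (by omega) _ (T_mul (T_gen none (Submonoid.mem_top a) (Submonoid.mem_top b)) hX) (fun ε hε => by
      obtain ⟨j, hj⟩ := h2 ε hε
      simp [hj, gen, vx, pow_succ', ← mul_assoc, hx])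
    simpa [h1, gen, vx] using this

def ev {R : Type*} [Monoid R] (x y : R) (l : List Bool) : R :=
  (l.map (fun b => if b then y else x)).prod

def mu (l : List Bool) : List Bool := l.flatMap (fun b => [b, !b])

abbrev W (d : ℕ) := List (Option (Fin d) × Bool × Bool)

def wd (w : W d) (v : V d) : List Bool := w.flatMap (fun g => if v g.1 = g.2.1 then [g.2.2] else [])

def stp (i : Fin d) (w : W d) : W d := w.flatMap (fun g =>
  if g.2.2 then [(some i, false, false), (g.1, g.2.1, true), (g.1, g.2.1, false), (some i, false, true)]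
  else [(g.1, g.2.1, false), (g.1, g.2.1, true)])

theorem wd_T {x y : Q} (hx : x ∈ A) (hy : y ∈ A) (w : W d) :
    (fun v => ev x y (wd w v)) ∈ T d A w.length := by
  induction w with
  | nil => rfl
  | cons g w ih =>
    obtain ⟨i, s, b⟩ := g
    have hz : (if b then y else x) ∈ A := by split_ifs <;> assumption
    have : gen i (if s then 1 else if b then y else x) (if s then (if b then y else x) else 1)
        ∈ T d A 1 := T_gen i (by cases s <;> simp [hz, A.one_mem]) (by cases s <;> simp [hz, A.one_mem])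
    have h2 := T_mul this ih
    rw [add_comm] at h2
    convert h2 using 1
    · rfl
    · ext v
      simp only [ev, wd, gen, List.flatMap_cons, List.map_append, List.prod_append, Pi.mul_apply]
      cases v i <;> cases s <;> simp

theorem wd_stp_true (i : Fin d) (w : W d) (v : V d) (h : v (some i) = true) :
    wd (stp i w) v = mu (wd w v) := by
  induction w with
  | nil => rfl
  | cons g w ih =>
    obtain ⟨j, s, b⟩ := g
    simp only [wd, stp, mu, List.flatMap_cons, List.flatMap_append] at ih ⊢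
    rw [ih]
    cases b <;> by_cases hj : v j = s <;> simp [h, hj]

theorem wd_stp_false (i : Fin d) (w : W d) (v : V d) (h : v (some i) = false) :
    wd (stp i w) v = (List.replicate ((wd w v).length + w.countP (·.2.2)) [false, true]).flatten := by
  induction w with
  | nil => rfl
  | cons g w ih =>
    obtain ⟨j, s, b⟩ := g
    simp only [wd, stp, List.flatMap_cons, List.flatMap_append] at ih ⊢
    rw [ih]
    cases b <;> by_cases hj : v j = s <;>
      simp [h, hj, Nat.add_right_comm _ 1, ← Nat.add_assoc, List.replicate_succ]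

theorem length_stp (i : Fin d) (w : W d) : (stp i w).length ≤ 4 * w.length := by
  induction w with
  | nil => simp [stp]
  | cons g w ih =>
    simp only [stp, List.flatMap_cons, List.length_append, List.length_cons] at ih ⊢
    split_ifs <;> simp only [List.length_cons, List.length_nil] <;> omega

theorem length_mu (l : List Bool) : (mu l).length = 2 * l.length := by
  induction l with
  | nil => rfl
  | cons b l ih => simp only [mu, List.flatMap_cons, List.length_append] at ih ⊢; simp [ih]; omega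

theorem mu_not (l : List Bool) : mu (l.map not) = (mu l).map not := by
  induction l with
  | nil => rfl
  | cons b l ih => simp only [mu, List.map_cons, List.flatMap_cons, List.map_append] at ih ⊢; simp [ih]

def tm : ℕ → List Bool
  | 0 => [false]
  | n + 1 => mu (tm n)

theorem length_tm : ∀ n, (tm n).length = 2 ^ n
  | 0 => rfl
  | n + 1 => by rw [tm, length_mu, length_tm n, pow_succ, mul_comm]

theorem tm_head : ∀ n, ∃ t, tm n = false :: t
  | 0 => ⟨[], rfl⟩
  | n + 1 => by
    obtain ⟨t, ht⟩ := tm_head n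
    exact ⟨_, by rw [tm, ht, mu, List.flatMap_cons]; rfl⟩

theorem exists_word (l : List (Fin d)) : ∃ w : W d, w.length ≤ 2 * 4 ^ l.length ∧ ∀ ε,
    (wd w (vx ε false)).length = (wd w (vx ε true)).length ∧
    ((∀ i ∈ l, ε i = true) → wd w (vx ε false) = tm l.length ∧
      wd w (vx ε true) = (tm l.length).map not) ∧
    ((∃ i ∈ l, ε i = false) → wd w (vx ε false) = wd w (vx ε true)) := by
  induction l with
  | nil => exact ⟨[(none, false, false), (none, true, true)], by simp, fun ε => by simp [wd, vx, tm]⟩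
  | cons i l ih =>
    obtain ⟨w, hw, h⟩ := ih
    refine ⟨stp i w, (length_stp i w).trans (by rw [List.length_cons, pow_succ]; omega), fun ε => ?_⟩
    obtain ⟨h1, h2, h3⟩ := h ε
    cases hi : ε i
    · rw [wd_stp_false i w _ hi, wd_stp_false i w _ hi, h1]
      exact ⟨rfl, fun h => by simp [hi] at h, fun _ => rfl⟩
    · rw [wd_stp_true i w _ hi, wd_stp_true i w _ hi]
      refine ⟨by rw [length_mu, length_mu, h1], fun h => ?_, fun h => ?_⟩
      · obtain ⟨h4, h5⟩ := h2 (fun j hj => h j (List.mem_cons_of_mem _ hj))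
        rw [h4, h5, mu_not]; exact ⟨rfl, rfl⟩
      · rw [h3 (by simpa [hi] using h)]

theorem ev_not {R : Type*} [Monoid R] (x y : R) (l : List Bool) : ev x y (l.map not) = ev y x l := by
  simp only [ev, List.map_map]
  congr 2
  ext b; cases b <;> rfl

theorem TC.ident {N : ℕ} (h : TC d N A) (hN : 2 * 4 ^ d ≤ N) {x y : Q} (hx : x ∈ A) (hy : y ∈ A) :
    ev x y (tm d) = ev y x (tm d) := by
  obtain ⟨w, hw, h1⟩ := exists_word (List.finRange d)
  rw [List.length_finRange] at hw h1
  have := h _ (hw.trans hN) _ (wd_T hx hy w) (fun ε hε => by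
    obtain ⟨i, hi⟩ : ∃ i, ε i = false := by
      by_contra hc
      push Not at hc
      exact hε (funext fun i => by simpa using hc i)
    simp only [(h1 ε).2.2 ⟨i, List.mem_finRange i, hi⟩])
  obtain ⟨h2, h3⟩ := (h1 fun _ => true).2.1 (fun _ _ => rfl)
  simpa only [h2, h3, ev_not] using this

theorem ore_of_ident {R : Type*} [Monoid R] {x y : R} (h : ev x y (tm d) = ev y x (tm d)) :
    (∃ t : List Bool, t.length ≤ 2 ^ d ∧ tm d = false :: t ∧ x * ev x y t = y * ev y x t) ∧
      ∃ u v, u * x = v * y := by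
  obtain ⟨t, ht⟩ := tm_head d
  constructor
  · refine ⟨t, ?_, ht, ?_⟩
    · have := length_tm d
      rw [ht] at this; simp at this; omega
    · rw [ht] at h; simpa [ev] using h
  · obtain ⟨t', c, hc⟩ := (List.eq_nil_or_concat' (tm d)).resolve_left (by simp [ht])
    rw [hc] at h
    cases c
    · exact ⟨ev x y t', ev y x t', by simpa [ev] using h⟩
    · exact ⟨ev y x t', ev x y t', by simpa [ev] using h.symm⟩

theorem ev_T {X Y : V d → Q} {n : ℕ} (hX : X ∈ T d A n) (hY : Y ∈ T d A n) (l : List Bool) :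
    ev X Y l ∈ T d A (l.length * n) := by
  induction l with
  | nil => simp [ev]; rfl
  | cons b l ih =>
    have : (if b then Y else X) ∈ T d A n := by split_ifs <;> assumption
    have h := T_mul this ih
    rw [List.length_cons, add_mul, one_mul, add_comm]
    exact h

theorem ev_apply (X Y : V d → Q) (l : List Bool) (v : V d) : ev X Y l v = ev (X v) (Y v) l := by
  induction l with
  | nil => rfl
  | cons b l ih =>
    simp only [ev, List.map_cons, List.prod_cons, Pi.mul_apply] at ih ⊢
    rw [ih]; cases b <;> rfl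

end Pool.Agent.H89.SN
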