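import Pool.Agent.H89.SN3

set_option autoImplicit false

namespace Pool.Agent.H89.SN

universe u
variable {d : ℕ}

section frac
variable {G : Type u} [Group G] {A : Submonoid G}

def Frac (d : ℕ) (A : Submonoid G) (n : ℕ) (X : V d → G) : Prop :=
  ∃ s ∈ T d A n, ∃ t ∈ T d A n, X = s * t⁻¹

theorem T_ore (hid : ∀ x ∈ A, ∀ y ∈ A, ev x y (tm d) = ev y x (tm d)) {n : ℕ} {s t : V d → G}
    (hs : s ∈ T d A n) (ht : t ∈ T d A n) : ev s t (tm d) = ev t s (tm d) := by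
  ext v
  rw [ev_apply, ev_apply]
  exact hid _ (T_val hs v) _ (T_val ht v)

theorem Frac.mul (hid : ∀ x ∈ A, ∀ y ∈ A, ev x y (tm d) = ev y x (tm d)) {n : ℕ} {X Y : V d → G}
    (hX : Frac d A n X) (hY : Frac d A n Y) : Frac d A ((2 ^ d + 1) * n) (X * Y) := by
  obtain ⟨s, hs, t, ht, rfl⟩ := hX
  obtain ⟨s', hs', t', ht', rfl⟩ := hY
  obtain ⟨l, hl, -, h⟩ := (ore_of_ident (T_ore hid ht hs')).1
  have hle : n + l.length * n ≤ (2 ^ d + 1) * n := by nlinarith
  refine ⟨s * ev t s' l, T_mono (T_mul hs (ev_T ht hs' l)) hle, t' * ev s' t l,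
    T_mono (T_mul ht' (ev_T hs' ht l)) hle, ?_⟩
  rw [eq_inv_mul_of_mul_eq h]; group

theorem Frac.inv {n : ℕ} {X : V d → G} (hX : Frac d A n X) : Frac d A n X⁻¹ := by
  obtain ⟨s, hs, t, ht, rfl⟩ := hX
  exact ⟨t, ht, s, hs, by group⟩

theorem Frac.mono {n m : ℕ} {X : V d → G} (hX : Frac d A n X) (h : n ≤ m) : Frac d A m X := by
  obtain ⟨s, hs, t, ht, rfl⟩ := hX
  exact ⟨s, T_mono hs h, t, T_mono ht h, rfl⟩

theorem Frac.gen (hA : ∀ g : G, ∃ a ∈ A, ∃ b ∈ A, g = a * b⁻¹) (i : Option (Fin d)) (g : G) :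
    Frac d A 1 (gen i 1 g) := by
  obtain ⟨a, ha, b, hb, rfl⟩ := hA g
  refine ⟨_, T_gen i A.one_mem ha, _, T_gen i A.one_mem hb, ?_⟩
  ext v
  simp only [SN.gen, Pi.mul_apply, Pi.inv_apply]
  split_ifs <;> simp

theorem mem_upper : ∀ (n : ℕ) (x : G),
    (∀ gs : List G, gs.length = n → gs.foldl (fun a g => a * g * a⁻¹ * g⁻¹) x = 1) →
      x ∈ Subgroup.upperCentralSeries G n
  | 0, x, h => by simpa using h [] rfl
  | n + 1, x, h => Subgroup.mem_upperCentralSeries_succ_iff.2 fun y =>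
      mem_upper n (x * y * x⁻¹ * y⁻¹) fun gs hgs => h (y :: gs) (by simp [hgs])

theorem corner (hid : ∀ x ∈ A, ∀ y ∈ A, ev x y (tm d) = ev y x (tm d))
    (hA : ∀ g : G, ∃ a ∈ A, ∃ b ∈ A, g = a * b⁻¹) (l : List (Fin d × G)) :
    ∀ (n : ℕ) (X : V d → G), 1 ≤ n → Frac d A n X → ∃ Y, Frac d A ((2 ^ d + 1) ^ (2 * l.length) * n) Y ∧
      ∀ v, ((X v = 1 ∨ ∃ p ∈ l, v (some p.1) = false) → Y v = 1) ∧
        ((∀ p ∈ l, v (some p.1) = true) → Y v = (l.map Prod.snd).foldl (fun a g => a * g * a⁻¹ * g⁻¹) (X v)) := by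
  induction l with
  | nil => exact fun n X _ hX => ⟨X, by simpa using hX, fun v => by simp⟩
  | cons p l ih =>
    intro n X hn hX
    have h1 := (Frac.gen hA (some p.1) p.2).mono hn
    have h2 := (hX.mul hid h1).mul hid (hX.inv.mul hid h1.inv)
    obtain ⟨Y, hY, h3⟩ := ih _ _ (by
      have : 0 < (2 ^ d + 1) * ((2 ^ d + 1) * n) := by positivity
      omega) h2
    refine ⟨Y, hY.mono (le_of_eq (by rw [List.length_cons]; ring)), fun v => ⟨fun h => ?_, fun h => ?_⟩⟩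
    · refine (h3 v).1 ?_
      rcases h with h | ⟨q, hq, h⟩
      · left; simp [h]
      · rcases List.mem_cons.1 hq with rfl | hq
        · left; simp [SN.gen, h]
        · exact Or.inr ⟨q, hq, h⟩
    · rw [(h3 v).2 (fun q hq => h q (List.mem_cons_of_mem _ hq))]
      simp [SN.gen, h p List.mem_cons_self, mul_assoc]

theorem nilp_of_TC {N : ℕ} (h : TC d N A) (hN : 2 * 4 ^ d ≤ N) (hN' : (2 ^ d + 1) ^ (2 * d + 1) ≤ N)
    (hA : ∀ g : G, ∃ a ∈ A, ∃ b ∈ A, g = a * b⁻¹) : Subgroup.upperCentralSeries G d = ⊤ := by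
  have hid : ∀ x ∈ A, ∀ y ∈ A, ev x y (tm d) = ev y x (tm d) := fun x hx y hy => h.ident hN hx hy
  rw [eq_top_iff]
  refine fun x _ => mem_upper d x fun gs hgs => ?_
  obtain ⟨Y, ⟨s, hs, t, ht, rfl⟩, hY⟩ := corner hid hA ((List.finRange d).zip gs) 1 _ le_rfl
    (Frac.gen hA none x)
  have hlen : ((List.finRange d).zip gs).length = d := by simp [hgs]
  rw [hlen, mul_one] at hs ht
  obtain ⟨l, hl, htm, -⟩ := (ore_of_ident (T_ore hid ht (T_flip ht))).1
  set r := ev t (fun v => t (flip v)) l with hr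
  have hu : ∀ ε, (t * r) (vx ε false) = (t * r) (vx ε true) := by
    intro ε
    have h1 : t * r = ev t (fun v => t (flip v)) (tm d) := by rw [htm, hr]; simp [ev]
    have h2 : ∀ κ, flip (vx ε κ) = vx ε (!κ) := fun κ => by
      ext o; cases o <;> rfl
    rw [h1, ev_apply, ev_apply, h2, h2]
    exact hid _ (T_val ht _) _ (T_val ht _)
  have h3 : s * r = s * t⁻¹ * (t * r) := by group
  have h4 := h _ (le_trans (by
      have := Nat.mul_le_mul_right ((2 ^ d + 1) ^ (2 * d)) hl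
      rw [pow_succ]; nlinarith) hN') _ (T_mul hs (ev_T ht (T_flip ht) l))
    (fun ε hε => by
      obtain ⟨i, hi⟩ : ∃ i, ε i = false := by
        by_contra hc
        push Not at hc
        exact hε (funext fun i => by simpa using hc i)
      obtain ⟨g, hg⟩ : ∃ g, (i, g) ∈ (List.finRange d).zip gs := by
        have : i ∈ ((List.finRange d).zip gs).map Prod.fst := by
          rw [List.map_fst_zip (by simp [hgs])]; exact List.mem_finRange i
        obtain ⟨⟨j, g⟩, hp, rfl⟩ := List.mem_map.1 this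
        exact ⟨g, hp⟩
      rw [← hr, h3, Pi.mul_apply (s * t⁻¹), Pi.mul_apply (s * t⁻¹),
        (hY _).1 (Or.inr ⟨_, hg, hi⟩), (hY _).1 (Or.inr ⟨_, hg, hi⟩), hu])
  rw [← hr, h3, Pi.mul_apply (s * t⁻¹), Pi.mul_apply (s * t⁻¹), hu, mul_left_inj,
    (hY _).1 (Or.inl (by simp [SN.gen, vx])), (hY _).2 (fun _ _ => rfl),
    List.map_snd_zip (by simp [hgs])] at h4
  simpa [SN.gen, vx] using h4.symm

end frac

def bound (d : ℕ) : ℕ := (d + 1) + 2 * 4 ^ d + (2 ^ d + 1) ^ (2 * d + 1)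

open OreLocalization in
theorem core {Q : Type u} [Monoid Q] (h : TC d (bound d) (⊤ : Submonoid Q)) :
    ∃ (G : Type u) (_ : Group G) (f : Q →* G), Function.Injective f ∧
      Subgroup.upperCentralSeries G d = ⊤ ∧ (∀ x y : Q, ∃ u v, u * x = v * y) ∧
      (∀ x y : Q, ∃ u v, x * u = y * v) := by
  have hc := h.cancel (by unfold bound; omega)
  have hid : ∀ x y : Q, ev x y (tm d) = ev y x (tm d) := fun x y =>
    h.ident (by unfold bound; omega) trivial trivial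
  have hL : ∀ x y : Q, ∃ u v, u * x = v * y := fun x y => (ore_of_ident (hid x y)).2
  have hR : ∀ x y : Q, ∃ u v, x * u = y * v := fun x y => by
    obtain ⟨t, -, -, ht⟩ := (ore_of_ident (hid x y)).1
    exact ⟨_, _, ht⟩
  choose u v huv using hL
  let _ : OreSet (⊤ : Submonoid Q) :=
    { ore_right_cancel := fun r₁ r₂ s h => ⟨1, by rw [(hc _ _ _).2 h]⟩
      oreNum := fun r s => v r s
      oreDenom := fun r s => ⟨u r s, trivial⟩
      ore_eq := fun r s => huv r s }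
  let f : Q →* (Q[(⊤ : Submonoid Q)⁻¹])ˣ :=
    { toFun := fun q => numeratorUnit (⟨q, trivial⟩ : (⊤ : Submonoid Q))
      map_one' := Units.ext numeratorHom.map_one
      map_mul' := fun a b => Units.ext (numeratorHom.map_mul a b) }
  have hf : Function.Injective f := by
    intro a b hab
    have h1 : a /ₒ (1 : (⊤ : Submonoid Q)) = b /ₒ 1 := congrArg Units.val hab
    obtain ⟨s, t, h2, h3⟩ := oreDiv_eq_iff.1 h1
    simp only [OneMemClass.coe_one, mul_one] at h3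
    rw [← h3] at h2
    exact ((hc _ _ _).1 h2).symm
  have hA : ∀ g : (Q[(⊤ : Submonoid Q)⁻¹])ˣ, ∃ a ∈ MonoidHom.mrange f, ∃ b ∈ MonoidHom.mrange f,
      g = a * b⁻¹ := by
    intro g
    obtain ⟨r, s, hrs⟩ : ∃ r s, (g : Q[(⊤ : Submonoid Q)⁻¹]) = r /ₒ s := by
      induction (g : Q[(⊤ : Submonoid Q)⁻¹]) using OreLocalization.ind with
      | c r s => exact ⟨r, s, rfl⟩
    have h1 : f s * g = f r := by
      apply Units.ext
      change ((s : Q) /ₒ 1) * (g : Q[(⊤ : Submonoid Q)⁻¹]) = r /ₒ 1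
      rw [hrs, OreLocalization.mul_cancel]
    obtain ⟨a, b, hab⟩ := hR s r
    refine ⟨f a, ⟨a, rfl⟩, f b, ⟨b, rfl⟩, ?_⟩
    have h2 := congrArg f hab
    rw [map_mul, map_mul, ← h1, mul_assoc, mul_right_inj] at h2
    rw [h2]; simp
  refine ⟨_, inferInstance, f, hf, nilp_of_TC (N := bound d) (A := MonoidHom.mrange f) ?_
    (by unfold bound; omega) (by unfold bound; omega) hA, fun x y => ⟨_, _, huv x y⟩, hR⟩
  intro n hn X hX hg
  obtain ⟨Y, hY, hfY⟩ := T_lift f ⊤ (fun a ha => by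
    obtain ⟨b, hb⟩ := MonoidHom.mem_mrange.1 ha
    exact ⟨b, trivial, hb⟩) hX
  rw [← hfY, ← hfY, h n hn Y hY (fun ε hε => hf (by rw [hfY, hfY, hg ε hε]))]

end Pool.Agent.H89.SN
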