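import Pool.Agent.H89.SN4

set_option autoImplicit false

namespace Pool.Agent.H89.SN

universe u
variable {d : ℕ} {S : Type u} [Semigroup S]

theorem T_map {Q H : Type*} [Monoid Q] [Monoid H] (f : H →* Q) (B : Submonoid H) (A : Submonoid Q)
    (hB : ∀ b ∈ B, f b ∈ A) : ∀ {n : ℕ} {X : V d → H}, X ∈ T d B n → (fun v => f (X v)) ∈ T d A n
  | 0, _, rfl => funext fun _ => map_one f
  | _ + 1, _, ⟨X, i, a, b, hX, ha, hb, h⟩ => ⟨_, i, f a, f b, T_map f B A hB hX, hB a ha, hB b hb, by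
      rw [h]; ext v; simp only [gen, Pi.mul_apply, map_mul]; split_ifs <;> rfl⟩

def G0 (d : ℕ) (S : Type u) [Semigroup S] : Set (V d → WithOne S) :=
  {X | ∃ (i : Option (Fin d)) (a b : S), X = gen i (a : WithOne S) b}

theorem gen_mem (i : Option (Fin d)) {a b : WithOne S} (ha : a ∈ P S 1) (hb : b ∈ P S 1) :
    gen i a b ∈ G0 d S := by
  obtain ⟨a, rfl⟩ := P_one ha
  obtain ⟨b, rfl⟩ := P_one hb
  exact ⟨i, a, b, rfl⟩

theorem tc_of_super (h : hcomm (fun _ : Fin (d + 1) => (⊤ : Con S)) = ⊥) :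
    ∀ X ∈ Subsemigroup.closure (G0 d S),
      (∀ ε, ε ≠ (fun _ => true) → X (vx ε false) = X (vx ε true)) →
        X (vx (fun _ => true) false) = X (vx (fun _ => true) true) := by
  intro X hX hg
  obtain ⟨x, hx, h1⟩ : ∃ x ∈ mats (fun _ : Fin (d + 1) => (⊤ : Con S)),
      ∀ ε, X (vx ε false) = (x ε).1 ∧ X (vx ε true) = (x ε).2 := by
    clear hg
    induction hX using Subsemigroup.closure_induction with
    | mem X hX =>
      obtain ⟨i, a, b, rfl⟩ := hX
      rcases i with _ | i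
      · exact ⟨_, Subsemigroup.subset_closure (Or.inr ⟨a, b, trivial, rfl⟩), fun ε => by
          simp [gen, vx]⟩
      · refine ⟨_, Subsemigroup.subset_closure (Or.inl ⟨i, a, b, trivial, rfl⟩), fun ε => ?_⟩
        by_cases hi : ε i = true <;> simp [gen, vx, hi]
    | mul X Y _ _ hX hY =>
      obtain ⟨x, hx, h1⟩ := hX
      obtain ⟨y, hy, h2⟩ := hY
      exact ⟨x * y, mul_mem hx hy, fun ε => by simp [h1 ε, h2 ε]⟩
  have h2 := hcomm_tc _ x hx (fun ε hε => by
    rw [h]
    have := hg ε hε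
    rw [(h1 ε).1, (h1 ε).2] at this
    exact WithOne.coe_inj.1 this)
  rw [h] at h2
  rw [(h1 _).1, (h1 _).2]
  exact congrArg _ h2

theorem cm_mul {X Y : V d → WithOne S} (hX : X ∈ Submonoid.closure (G0 d S))
    (hY : Y ∈ Subsemigroup.closure (G0 d S)) :
    X * Y ∈ Subsemigroup.closure (G0 d S) ∧ Y * X ∈ Subsemigroup.closure (G0 d S) := by
  induction hX using Submonoid.closure_induction generalizing Y with
  | mem X hX => exact ⟨mul_mem (Subsemigroup.subset_closure hX) hY,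
      mul_mem hY (Subsemigroup.subset_closure hX)⟩
  | one => simpa using hY
  | mul X X' _ _ h1 h2 => exact ⟨by rw [mul_assoc]; exact (h1 (h2 hY).1).1,
      by rw [← mul_assoc]; exact (h2 (h1 hY).2).2⟩

def Zp (l : List S) : WithOne S := (List.map (fun a : S => (a : WithOne S)) l).prod

theorem Zp_split (l : List S) (t : ℕ) : Zp (l.take t) * Zp (l.drop t) = Zp l := by
  rw [Zp, Zp, Zp, ← List.prod_append, ← List.map_append, List.take_append_drop]

theorem Zp_mem {l : List S} (h : l ≠ []) : Zp l ∈ P S 1 := by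
  obtain ⟨a, l, rfl⟩ := List.exists_cons_of_ne_nil h
  exact ⟨a, Zp l, trivial, by simp [Zp]⟩

theorem P_list : ∀ {k : ℕ} {w : WithOne S}, w ∈ P S k →
    (∃ l x, l.length = k ∧ w = Zp l * x) ∧ ∃ l x, l.length = k ∧ w = x * Zp l
  | 0, w, _ => ⟨⟨[], w, rfl, by simp [Zp]⟩, ⟨[], w, rfl, by simp [Zp]⟩⟩
  | k + 1, _, ⟨a, y, hy, h⟩ => by
    obtain ⟨⟨l, x, hl, h1⟩, ⟨l', x', hl', h2⟩⟩ := P_list hy
    obtain ⟨b, hb⟩ := P_one (P_right x' (P_coe a))
    refine ⟨⟨a :: l, x, by simp [hl], by simp [h, h1, Zp, mul_assoc]⟩,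
      ⟨b :: l', 1, by simp [hl'], ?_⟩⟩
    rw [h, h2, ← mul_assoc, hb]; simp [Zp]

def HZ (l : List S) : Submonoid (WithOne S) := Submonoid.closure {z | ∃ a, z = Zp l * a}

theorem HZ_mem (l : List S) (a : WithOne S) : Zp l * a ∈ HZ l := Submonoid.subset_closure ⟨a, rfl⟩

theorem HZ_conj {l : List S} {h : WithOne S} (hh : h ∈ HZ l) (t : ℕ) :
    ∃ h', h * Zp (l.take t) = Zp (l.take t) * h' := by
  induction hh using Submonoid.closure_induction with
  | mem x hx =>
    obtain ⟨a, rfl⟩ := hx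
    exact ⟨Zp (l.drop t) * a * Zp (l.take t), by
      rw [← mul_assoc, ← mul_assoc, Zp_split]⟩
  | one => exact ⟨1, by simp⟩
  | mul x y _ _ hx hy =>
    obtain ⟨x', hx⟩ := hx
    obtain ⟨y', hy⟩ := hy
    exact ⟨x' * y', by rw [mul_assoc, hy, ← mul_assoc, hx, mul_assoc]⟩

theorem sim (l : List S) : ∀ {n : ℕ} {X : V d → WithOne S}, n ≤ l.length → X ∈ T d (HZ l) n →
    (fun v => X v * Zp (l.take n)) ∈ Submonoid.closure (G0 d S)
  | 0, _, _, rfl => by
    convert Submonoid.one_mem _ using 1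
    ext v; simp [Zp]
  | n + 1, _, hn, ⟨X, i, a, b, hX, ha, hb, h⟩ => by
    obtain ⟨a', ha'⟩ := HZ_conj ha n
    obtain ⟨b', hb'⟩ := HZ_conj hb n
    have h1 : Zp (l.take (n + 1)) = Zp (l.take n) * (l[n] : S) := by
      rw [List.take_add_one, List.getElem?_eq_getElem (by omega), Zp, List.map_append,
        List.prod_append]; simp [Zp]
    convert Submonoid.mul_mem _ (sim l (by omega) hX) (Submonoid.subset_closure
      (gen_mem i (P_left a' (P_coe l[n])) (P_left b' (P_coe l[n])))) using 1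
    ext v
    simp only [h, gen, Pi.mul_apply, h1]
    split_ifs
    · rw [mul_assoc, ← mul_assoc b, hb']; simp only [mul_assoc]
    · rw [mul_assoc, ← mul_assoc a, ha']; simp only [mul_assoc]

theorem LCRC (h : hcomm (fun _ : Fin (d + 1) => (⊤ : Con S)) = ⊥) :
    (∀ w ∈ P S d, ∀ y c e : WithOne S, c ∈ P S 1 → e ∈ P S 1 → y * w * c = y * w * e →
      w * c = w * e) ∧
    (∀ w ∈ P S d, ∀ y c e : WithOne S, c ∈ P S 1 → e ∈ P S 1 → c * w * y = e * w * y →
      c * w = e * w) := by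
  have key : ∀ l : List S, l.length = d → ∀ y c e : WithOne S, c ∈ P S 1 → e ∈ P S 1 →
      (y * Zp l * c = y * Zp l * e → Zp l * c = Zp l * e) ∧
      (c * Zp l * y = e * Zp l * y → c * Zp l = e * Zp l) := by
    intro l hl y c e hc he
    obtain ⟨X, hX, h1, h2⟩ := powword (d := d) (HZ_mem l y)
    have h3 := cm_mul (sim l hl.ge hX) (Subsemigroup.subset_closure (gen_mem none hc he))
    rw [List.take_of_length_le hl.le] at h3
    constructor
    · intro hy
      have := tc_of_super h _ h3.1 (fun ε hε => by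
        obtain ⟨j, hj⟩ := h2 ε hε
        simp only [Pi.mul_apply, hj, gen, vx, Option.elim, pow_succ, mul_assoc] at hy ⊢
        simp [hy])
      simpa [h1, gen, vx] using this
    · intro hy
      have := tc_of_super h _ h3.2 (fun ε hε => by
        obtain ⟨j, hj⟩ := h2 ε hε
        simp only [Pi.mul_apply, hj, gen, vx, Option.elim, pow_succ', ← mul_assoc] at hy ⊢
        simp [hy])
      simpa [h1, gen, vx] using this
  constructor
  · intro w hw y c e hc he hy
    obtain ⟨l, x, hl, rfl⟩ := (P_list hw).1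
    have := (key l hl y (x * c) (x * e) (P_left _ hc) (P_left _ he)).1
      (by simpa only [mul_assoc] using hy)
    simpa only [mul_assoc] using this
  · intro w hw y c e hc he hy
    obtain ⟨l, x, hl, rfl⟩ := (P_list hw).2
    have := (key l hl y (c * x) (e * x) (P_right _ hc) (P_right _ he)).2
      (by simpa only [mul_assoc] using hy)
    simpa only [mul_assoc] using this

def conZ (l : List S) : Con (HZ l) where
  r a b := (a : WithOne S) * Zp l = b * Zp l
  iseqv := ⟨fun _ => rfl, fun h => h.symm, fun h h' => h.trans h'⟩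
  mul' := by
    intro a b c e h h'
    obtain ⟨c', hc⟩ := HZ_conj c.2 l.length
    rw [List.take_length] at hc
    simp only [Submonoid.coe_mul, mul_assoc]
    rw [← h', hc, ← mul_assoc, h, mul_assoc]

theorem q1 (h : Supernilpotent S) : LeftNilpotent S ∧ RightNilpotent S := by
  obtain ⟨d, h⟩ := h
  rcases isEmpty_or_nonempty S with hS | ⟨⟨s0⟩⟩
  · exact Ev.nilp (Ev.top.mono (fun a => isEmptyElim a))
  set l := List.replicate (bound d + 1) s0 with hl
  have hlen : l.length = bound d + 1 := by simp [hl]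
  obtain ⟨G, _, f, hf, hn, hL, hR⟩ := core (d := d) (Q := (conZ l).Quotient) (by
    intro n hn X hX hg
    obtain ⟨Y, hY, hfY⟩ := T_lift (conZ l).mk' ⊤
      (fun a _ => by
        obtain ⟨b, hb⟩ := (conZ l).mk'_surjective a
        exact ⟨b, trivial, hb⟩) hX
    have h1 := sim l (by omega) (T_map (HZ l).subtype ⊤ (HZ l) (fun b _ => b.2) hY)
    have h2 : Zp (l.drop n) ∈ P S 1 := Zp_mem (by
      intro h; have := congrArg List.length h; simp [hlen] at this; omega)
    have h3 := tc_of_super h _ (cm_mul h1 (Subsemigroup.subset_closure (gen_mem none h2 h2))).1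
    simp only [Pi.mul_apply, gen, ite_self, mul_assoc, Zp_split] at h3
    rw [← hfY, ← hfY]
    refine (Con.eq _).2 (h3 fun ε hε => ?_)
    have h4 : (conZ l).mk' (Y (vx ε false)) = (conZ l).mk' (Y (vx ε true)) := by
      rw [hfY, hfY, hg ε hε]
    exact (Con.eq _).1 h4)
  let ψ : WithOne S → G := fun a => f ((conZ l).mk' ⟨Zp l * a, HZ_mem l a⟩)
  have hm : ∀ a b, ψ (a * Zp l * b) = ψ a * ψ b := fun a b => by
    simp only [ψ]
    rw [← map_mul, ← map_mul]
    congr 2
    exact Subtype.ext (by simp [mul_assoc])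
  have h1 : ∀ q : (conZ l).Quotient, (∃ u, ψ u = ψ 1 * f q) ∧ ∃ u, ψ u = f q * ψ 1 := by
    intro q
    obtain ⟨b, rfl⟩ := (conZ l).mk'_surjective q
    obtain ⟨b', hb⟩ := HZ_conj b.2 l.length
    rw [List.take_length] at hb
    refine ⟨⟨b, ?_⟩, ⟨b', ?_⟩⟩
    · simp only [ψ]
      rw [← map_mul, ← map_mul]
      congr 2
      exact Subtype.ext (by simp)
    · simp only [ψ]
      rw [← map_mul, ← map_mul]
      congr 2
      exact Subtype.ext (by simp [hb])
  refine Ev.nilp (chain d (LCRC h).1 (LCRC h).2 (Zp l) (Zp_mem (by simp [hl])) ψ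
    (fun a b => hf.eq_iff.trans (Con.eq _)) hm (fun a b => ?_) (fun a b => ?_) d hn)
  · obtain ⟨u, v, huv⟩ := hL ((conZ l).mk' ⟨Zp l * a, HZ_mem l a⟩) ((conZ l).mk' ⟨Zp l * b, HZ_mem l b⟩)
    obtain ⟨u', hu⟩ := (h1 u).1
    obtain ⟨v', hv⟩ := (h1 v).1
    refine ⟨u', v', ?_⟩
    rw [hu, hv, mul_assoc, mul_assoc]
    simp only [ψ]
    rw [← map_mul f u, huv, map_mul f v]
  · obtain ⟨u, v, huv⟩ := hR ((conZ l).mk' ⟨Zp l * a, HZ_mem l a⟩) ((conZ l).mk' ⟨Zp l * b, HZ_mem l b⟩)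
    obtain ⟨u', hu⟩ := (h1 u).2
    obtain ⟨v', hv⟩ := (h1 v).2
    refine ⟨u', v', ?_⟩
    rw [hu, hv, ← mul_assoc, ← mul_assoc]
    simp only [ψ]
    rw [← map_mul f _ u, huv, map_mul f _ v]

end Pool.Agent.H89.SN
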