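import Pool.Agent.H89.SN5

set_option autoImplicit false

namespace Pool.Agent.H89.SN

abbrev Λ := ℕ × ℕ × Bool

@[ext] structure Heis where
  v : Λ → ℤ
  t : Λ → Λ → ℤ
  z : ℤ

instance : Mul Heis := ⟨fun a b => ⟨a.v + b.v, fun x y => a.t x y + b.t x y + a.v x * b.v y, a.z + b.z⟩⟩
instance : One Heis := ⟨⟨0, 0, 0⟩⟩
instance : Inv Heis := ⟨fun a => ⟨-a.v, fun x y => -a.t x y + a.v x * a.v y, -a.z⟩⟩
@[simp] theorem mul_v (a b : Heis) : (a * b).v = a.v + b.v := rfl
@[simp] theorem mul_t (a b : Heis) (x y : Λ) :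
    (a * b).t x y = a.t x y + b.t x y + a.v x * b.v y := rfl
@[simp] theorem mul_z (a b : Heis) : (a * b).z = a.z + b.z := rfl
@[simp] theorem one_v : (1 : Heis).v = 0 := rfl
@[simp] theorem one_t : (1 : Heis).t = 0 := rfl
@[simp] theorem one_z : (1 : Heis).z = 0 := rfl
@[simp] theorem inv_v (a : Heis) : a⁻¹.v = -a.v := rfl
@[simp] theorem inv_t (a : Heis) (x y : Λ) : a⁻¹.t x y = -a.t x y + a.v x * a.v y := rfl
@[simp] theorem inv_z (a : Heis) : a⁻¹.z = -a.z := rfl

instance : Group Heis := Group.ofLeftAxioms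
  (fun a b c => by ext <;> simp <;> ring) (fun a => by ext <;> simp)
  (fun a => by ext <;> simp)

theorem heis_nilp : Subgroup.upperCentralSeries Heis 2 = ⊤ := by
  rw [eq_top_iff]
  refine fun x _ => mem_upper 2 x fun gs hgs => ?_
  match gs, hgs with
  | [a, b], _ => ext <;> simp <;> ring

def und (a : Λ) : Λ := (a.1, a.2.1, a.2.2 || decide (Even a.2.1))
def wt (a : Λ) : ℤ := if a.2.2 = true ∧ Even a.2.1 then (if a.2.1 = 2 * a.1 then -(a.1 : ℤ) else 1) else 0
def φ (l : List Λ) : Heis := (l.map (fun a => (⟨Pi.single (und a) 1, 0, wt a⟩ : Heis))).prod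

def pr : List Λ → Λ → Λ → ℕ
  | [], _, _ => 0
  | h :: U, a, b => (if h = a then U.count b else 0) + pr U a b

theorem φ_append (l l' : List Λ) : φ (l ++ l') = φ l * φ l' := by simp [φ]

theorem φ_spec (l : List Λ) : (∀ a, (φ l).v a = (l.map und).count a) ∧
    (∀ a b, (φ l).t a b = pr (l.map und) a b) ∧ (φ l).z = (l.map wt).sum := by
  induction l with
  | nil => simp [φ, pr]
  | cons h l ih =>
    have : φ (h :: l) = (⟨Pi.single (und h) 1, 0, wt h⟩ : Heis) * φ l := by simp [φ]
    rw [this]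
    refine ⟨fun a => ?_, fun a b => ?_, by simp [ih.2.2]⟩
    · by_cases ha : und h = a <;> simp [ih.1, ha, List.count_cons, Pi.single_apply, eq_comm, add_comm]
    · by_cases ha : und h = a <;> simp [ih.1, ih.2.1, ha, pr, Pi.single_apply, eq_comm, add_comm]

theorem φ_ext {l l' : List Λ} (h : l.map und = l'.map und) (h' : (l.map wt).sum = (l'.map wt).sum) :
    φ l = φ l' := by
  ext
  · rw [(φ_spec l).1, (φ_spec l').1, h]
  · rw [(φ_spec l).2.1, (φ_spec l').2.1, h]
  · rw [(φ_spec l).2.2, (φ_spec l').2.2, h']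

theorem pairwise_iff (R : Λ → Λ → Prop) (U : List Λ) :
    U.Pairwise R ↔ ∀ a b, ¬ R a b → pr U a b = 0 := by
  induction U with
  | nil => simp [pr]
  | cons h U ih =>
    rw [List.pairwise_cons, ih]
    constructor
    · rintro ⟨h1, h2⟩ a b hab
      rw [pr, h2 a b hab]
      split_ifs with ha
      · subst ha; simpa [List.count_eq_zero] using fun hb => hab (h1 b hb)
      · rfl
    · intro h1
      refine ⟨fun b hb => ?_, fun a b hab => ?_⟩
      · by_contra hab
        have := h1 h b hab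
        rw [pr, if_pos rfl] at this
        exact absurd hb (List.count_eq_zero.1 (by omega))
      · have := h1 a b hab
        rw [pr] at this; omega

def u (m : ℕ) : List Λ := (List.range (2 * m + 1)).map (fun k => (m, k, true))

theorem wt_le {a' a : Λ} (h : und a' = a) (ha : a.2.1 ≠ 2 * a.1) :
    0 ≤ wt a' ∧ wt a' ≤ wt a ∧ (wt a' = wt a → a.2.2 = true → a' = a) := by
  obtain ⟨m, k, b⟩ := a'
  subst h
  simp only [und] at ha
  by_cases hk : Even k <;> cases b <;> simp [und, wt, hk, ha]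

theorem sum_le : ∀ {s' s : List Λ}, s'.map und = s → (∀ a ∈ s, a.2.1 ≠ 2 * a.1 ∧ a.2.2 = true) →
    0 ≤ (s'.map wt).sum ∧ (s'.map wt).sum ≤ (s.map wt).sum ∧
      ((s'.map wt).sum = (s.map wt).sum → s' = s)
  | [], _, rfl, _ => by simp
  | a' :: s', _, rfl, h => by
    have h1 := wt_le (a' := a') rfl (h _ List.mem_cons_self).1
    have h2 := sum_le (s' := s') rfl (fun a ha => h a (List.mem_cons_of_mem _ ha))
    simp only [List.map_cons, List.sum_cons] at h2 ⊢
    refine ⟨by omega, by omega, fun h3 => ?_⟩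
    rw [← h1.2.2 (by omega) (h _ List.mem_cons_self).2, ← h2.2.2 (by omega)]

theorem sum_pre (m : ℕ) : ∀ j, j ≤ m →
    (((List.range (2 * j)).map (fun k => ((m, k, true) : Λ))).map wt).sum = j
  | 0, _ => by simp
  | j + 1, h => by
    rw [show 2 * (j + 1) = 2 * j + 1 + 1 by ring, List.range_succ, List.range_succ]
    simp only [List.map_append, List.sum_append, sum_pre m j (by omega)]
    have h1 : ¬ Even (2 * j + 1) := by simp
    have h2 : j ≠ m := by omega
    simp [wt, h2]

theorem u_eq (m : ℕ) : u m = (List.range (2 * m)).map (fun k => ((m, k, true) : Λ)) ++ [(m, 2 * m, true)] := by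
  simp [u, List.range_succ]

theorem sum_u (m : ℕ) : ((u m).map wt).sum = 0 := by
  rw [u_eq, List.map_append, List.sum_append, sum_pre m m le_rfl]; simp [wt]

theorem rigid {m : ℕ} {x s y s' : List Λ} (h : x ++ s ++ y = u m) (hxy : x ≠ [] ∨ y ≠ [])
    (hφ : φ s = φ s') : s' = s := by
  have hsub : s.Sublist (u m) := h ▸ (List.sublist_append_right _ _).trans (List.sublist_append_left _ _)
  have hmem : ∀ a ∈ u m, a.1 = m ∧ a.2.2 = true := by
    intro a ha
    obtain ⟨k, -, rfl⟩ := List.mem_map.1 ha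
    exact ⟨rfl, rfl⟩
  have hund : ∀ l : List Λ, (∀ a ∈ l, a.2.2 = true) → l.map und = l := fun l hl => by
    conv_rhs => rw [← List.map_id l]
    refine List.map_congr_left fun a ha => ?_
    obtain ⟨a, b, c⟩ := a
    have : c = true := hl _ ha
    simp [und, this]
  have hs := hund s (fun a ha => (hmem a (hsub.subset ha)).2)
  have hp : s.Pairwise (fun a b => a.2.1 < b.2.1) := by
    refine List.Pairwise.sublist hsub ?_
    rw [u, List.pairwise_map]; exact List.pairwise_lt_range
  have hp' : (s'.map und).Pairwise (fun a b => a.2.1 < b.2.1) := by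
    rw [pairwise_iff] at hp ⊢
    intro a b hab
    have h1 := (φ_spec s').2.1 a b
    rw [← hφ, (φ_spec s).2.1, hs, hp a b hab] at h1
    exact_mod_cast h1.symm
  have hperm : (s'.map und).Perm s := List.perm_iff_count.2 fun a => by
    have h1 := (φ_spec s').1 a
    rw [← hφ, (φ_spec s).1, hs] at h1
    exact_mod_cast h1.symm
  have heq : s'.map und = s := hperm.eq_of_pairwise (fun a b _ _ h1 h2 => by omega) hp' hp
  have hw : (s'.map wt).sum = (s.map wt).sum := by rw [← (φ_spec s').2.2, ← hφ, (φ_spec s).2.2]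
  have hpre : ∀ a ∈ (List.range (2 * m)).map (fun k => ((m, k, true) : Λ)),
      a.2.1 ≠ 2 * a.1 ∧ a.2.2 = true := by
    intro a ha
    obtain ⟨k, hk, rfl⟩ := List.mem_map.1 ha
    exact ⟨(List.mem_range.1 hk).ne, rfl⟩
  rcases List.eq_nil_or_concat' y with rfl | ⟨y, c, rfl⟩
  · obtain ⟨x0, x, rfl⟩ := List.exists_cons_of_ne_nil (hxy.resolve_right (by simp))
    rcases List.eq_nil_or_concat' s with rfl | ⟨s, c, rfl⟩
    · simpa using heq
    rw [u_eq, List.append_nil, ← List.append_assoc] at h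
    obtain ⟨h1, h2⟩ := List.append_inj' h rfl
    obtain rfl : c = (m, 2 * m, true) := by simpa using h2
    obtain ⟨s0, s1, rfl, h3, h4⟩ := List.map_eq_append_iff.1 heq
    obtain ⟨c', rfl, hc'⟩ := List.map_eq_singleton_iff.1 h4
    have h5 := sum_le h3 (fun a ha => hpre a (h1 ▸ List.mem_append_right _ ha))
    obtain ⟨m', k', b'⟩ := c'
    simp only [und, Prod.mk.injEq] at hc'
    obtain ⟨rfl, rfl, -⟩ := hc'
    simp only [List.map_append, List.sum_append] at hw
    cases b'
    · exfalso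
      have h6 := sum_pre m' m' le_rfl
      rw [← h1] at h6
      have h7 := sum_le (hund x (fun a ha => (hpre a (h1 ▸ by simp [ha])).2))
        (fun a ha => hpre a (h1 ▸ by simp [ha]))
      have h8 : wt x0 = 1 := by
        rcases m' with _ | m'
        · simp at h1
        · rw [show 2 * (m' + 1) = 2 * m' + 1 + 1 by ring, List.range_succ_eq_map] at h1
          simp only [List.map_cons, List.cons_append, List.cons.injEq] at h1
          rw [h1.1]; simp [wt]
      simp only [List.cons_append, List.map_cons, List.map_append, List.sum_cons,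
        List.sum_append] at h6
      simp [wt] at hw
      omega
    · rw [h5.2.2 (by simpa using hw)]
  · rw [u_eq, ← List.append_assoc] at h
    obtain ⟨h1, -⟩ := List.append_inj' h rfl
    exact (sum_le heq (fun a ha => hpre a (h1 ▸ by simp [ha]))).2.2 hw

def L (w : FreeSemigroup Λ) : List Λ := w.head :: w.tail

theorem L_mul (a b : FreeSemigroup Λ) : L (a * b) = L a ++ L b := rfl

theorem L_inj {a b : FreeSemigroup Λ} (h : L a = L b) : a = b := by
  obtain ⟨h1, h2⟩ := List.cons.inj h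
  exact FreeSemigroup.ext h1 h2

def θr (a b : FreeSemigroup Λ) : Prop :=
  φ (L a) = φ (L b) ∧ (a = b ∨ ((∀ m, L a ≠ u m) ∧ ∀ m, L b ≠ u m))

theorem θ_ctx {a b : FreeSemigroup Λ} (h : φ (L a) = φ (L b)) (c : FreeSemigroup Λ) :
    θr (c * a) (c * b) ∧ θr (a * c) (b * c) := by
  by_cases hab : a = b
  · subst hab; exact ⟨⟨rfl, Or.inl rfl⟩, ⟨rfl, Or.inl rfl⟩⟩
  have hc : L c ≠ [] := by simp [L]
  refine ⟨⟨by simp [L_mul, φ_append, h], Or.inr ⟨fun m hm => hab ?_, fun m hm => hab ?_⟩⟩,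
    ⟨by simp [L_mul, φ_append, h], Or.inr ⟨fun m hm => hab ?_, fun m hm => hab ?_⟩⟩⟩
  · exact (L_inj (rigid (y := []) (by simpa [L_mul] using hm) (Or.inl hc) h)).symm
  · exact L_inj (rigid (y := []) (by simpa [L_mul] using hm) (Or.inl hc) h.symm)
  · exact (L_inj (rigid (x := []) (by simpa [L_mul] using hm) (Or.inr hc) h)).symm
  · exact L_inj (rigid (x := []) (by simpa [L_mul] using hm) (Or.inr hc) h.symm)

theorem θ_trans {a b c : FreeSemigroup Λ} : θr a b → θr b c → θr a c := by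
  rintro ⟨h1, rfl | h2⟩ ⟨h3, rfl | h4⟩
  · exact ⟨rfl, Or.inl rfl⟩
  · exact ⟨h3, Or.inr h4⟩
  · exact ⟨h1, Or.inr h2⟩
  · exact ⟨h1.trans h3, Or.inr ⟨h2.1, h4.2⟩⟩

def θ : Con (FreeSemigroup Λ) where
  r := θr
  iseqv := ⟨fun _ => ⟨rfl, Or.inl rfl⟩,
    fun h => ⟨h.1.symm, h.2.elim (fun h => Or.inl h.symm) (fun h => Or.inr h.symm)⟩, θ_trans⟩
  mul' := fun h h' => θ_trans (θ_ctx h.1 _).2 (θ_ctx h'.1 _).1

def ψ : θ.Quotient → Heis := fun q => Con.liftOn q (fun a => φ (L a)) (fun _ _ h => h.1)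

theorem ψ_mul (a b : θ.Quotient) : ψ (a * b) = ψ a * ψ b :=
  Con.induction_on₂ a b fun x y => φ_append (L x) (L y)

theorem ex_nilp : LeftNilpotent θ.Quotient ∧ RightNilpotent θ.Quotient := by
  refine Ev.nilp (ev_of_rho (k := 1) (ev_kappa ⊤ Ev.top ψ
    (fun a b x _ => ⟨ψ x, ψ_mul _ _, ψ_mul _ _⟩) (fun a b x _ => ⟨ψ x, ψ_mul _ _, ψ_mul _ _⟩)
    2 heis_nilp _ ?_))
  intro a b _ hab i j x y hij hx hy
  have key : ∀ c : θ.Quotient, c * a = c * b ∧ a * c = b * c := by
    intro c
    induction a using Con.induction_on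
    induction b using Con.induction_on
    induction c using Con.induction_on
    exact ⟨(Con.eq θ).2 (θ_ctx hab _).1, (Con.eq θ).2 (θ_ctx hab _).2⟩
  by_cases hi : 1 ≤ i
  · obtain ⟨c, rfl⟩ := P_one (P_anti hi hx)
    rw [← WithOne.coe_mul, ← WithOne.coe_mul, (key c).1]
  · obtain ⟨c, rfl⟩ := P_one (P_anti (show 1 ≤ j by omega) hy)
    rw [mul_assoc, mul_assoc, ← WithOne.coe_mul, ← WithOne.coe_mul, (key c).2]

def lt (m : ℕ) (ε : Fin m → Bool) (κ : Bool) (k : ℕ) : Λ :=
  (m, k, if Even k then κ else if h : k / 2 < m then ε ⟨k / 2, h⟩ else true)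

def wrd (m : ℕ) (ε : Fin m → Bool) (κ : Bool) : ℕ → FreeSemigroup Λ
  | 0 => FreeSemigroup.of (lt m ε κ 0)
  | n + 1 => wrd m ε κ n * FreeSemigroup.of (lt m ε κ (n + 1))

theorem L_wrd (m : ℕ) (ε : Fin m → Bool) (κ : Bool) :
    ∀ n, L (wrd m ε κ n) = (List.range (n + 1)).map (lt m ε κ)
  | 0 => rfl
  | n + 1 => by rw [wrd, L_mul, L_wrd m ε κ n, List.range_succ (n := n + 1), List.map_append]; rfl

theorem ex_not : ¬ Supernilpotent θ.Quotient := by
  rintro ⟨m, h⟩
  have hg : ∀ k, (fun ε => (((FreeSemigroup.of (lt m ε true k) : FreeSemigroup Λ) : θ.Quotient),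
      ((FreeSemigroup.of (lt m ε false k) : FreeSemigroup Λ) : θ.Quotient))) ∈
        mats (fun _ : Fin (m + 1) => (⊤ : Con θ.Quotient)) := by
    intro k
    refine Subsemigroup.subset_closure ?_
    by_cases hk : Even k
    · exact Or.inr ⟨_, _, trivial, by ext ε <;> simp only [lt, if_pos hk] <;> rfl⟩
    by_cases hm : k / 2 < m
    · refine Or.inl ⟨⟨k / 2, hm⟩, ((FreeSemigroup.of (m, k, false) : FreeSemigroup Λ) : θ.Quotient),
        ((FreeSemigroup.of (m, k, true) : FreeSemigroup Λ) : θ.Quotient), trivial, ?_⟩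
      funext ε
      simp only [lt, if_neg hk, dif_pos hm]
      cases ε ⟨k / 2, hm⟩ <;> rfl
    · exact Or.inr ⟨_, _, trivial, by ext ε <;> simp only [lt, if_neg hk, dif_neg hm] <;> rfl⟩
  have hx : ∀ n, (fun ε => (((wrd m ε true n : FreeSemigroup Λ) : θ.Quotient),
      ((wrd m ε false n : FreeSemigroup Λ) : θ.Quotient))) ∈
        mats (fun _ : Fin (m + 1) => (⊤ : Con θ.Quotient)) := by
    intro n
    induction n with
    | zero => exact hg 0
    | succ n ih => exact mul_mem ih (hg (n + 1))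
  have hf : ∀ (ε : Fin m → Bool) κ k, k < 2 * m + 1 → (lt m ε κ k).2.2 = false →
      ∀ m', L (wrd m ε κ (2 * m)) ≠ u m' := by
    intro ε κ k hk h1 m' h2
    have : lt m ε κ k ∈ u m' := by
      rw [← h2, L_wrd]; exact List.mem_map_of_mem (List.mem_range.2 hk)
    obtain ⟨j, -, hj⟩ := List.mem_map.1 this
    rw [← hj] at h1; simp at h1
  have h1 := hcomm_tc _ _ (hx (2 * m)) (fun ε hε => by
    rw [h]
    obtain ⟨i, hi⟩ : ∃ i, ε i = false := by
      by_contra hc
      push Not at hc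
      exact hε (funext fun i => by simpa using hc i)
    have h2 : ∀ κ, (lt m ε κ (2 * i + 1)).2.2 = false := fun κ => by
      have h3 : (2 * (i : ℕ) + 1) / 2 = i := by omega
      simp [lt, h3, hi]
    refine (Con.eq θ).2 ⟨?_, Or.inr ⟨hf ε _ _ (by omega) (h2 _), hf ε _ _ (by omega) (h2 _)⟩⟩
    rw [L_wrd, L_wrd]
    refine φ_ext ?_ ?_
    · rw [List.map_map, List.map_map]
      refine List.map_congr_left fun k _ => ?_
      by_cases hk : Even k <;> simp [und, lt, hk]
    · have h3 := sum_u m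
      rw [u, List.map_map] at h3
      rw [List.map_map, List.map_map]
      have h4 : wt ∘ lt m ε true = wt ∘ fun k => (m, k, true) := by
        funext k; by_cases hk : Even k <;> simp [wt, lt, hk]
      have h5 : wt ∘ lt m ε false = fun _ => 0 := by
        funext k; by_cases hk : Even k <;> simp [wt, lt, hk]
      rw [h4, h3, h5]; simp)
  rw [h] at h1
  have h2 : L (wrd m (fun _ => true) true (2 * m)) = u m := by
    rw [L_wrd, u]
    refine List.map_congr_left fun k _ => ?_
    simp [lt]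
  rcases ((Con.eq θ).1 h1).2 with h3 | h3
  · exact hf _ false 0 (by omega) (by simp [lt]) m (h3 ▸ h2)
  · exact h3.1 m h2

end Pool.Agent.H89.SN
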