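import Mathlib

set_option autoImplicit false

namespace Pool.Agent.H89.SZ
open Set Ordinal Order Topology Filter

/-- transfinite iteration of a set operation -/
noncomputable def iter {Y : Type*} (D : Set Y → Set Y) (A : Set Y) (o : Ordinal.{0}) : Set Y :=
  Ordinal.limitRecOn o A (fun _ B => D B) (fun o _ f => ⋂ b : Set.Iio o, f b.1 b.2)

section gen
variable {Y : Type*} {D : Set Y → Set Y}

theorem iter_zero (A : Set Y) : iter D A 0 = A := by simp [iter]

theorem iter_succ (A : Set Y) (o : Ordinal.{0}) : iter D A (o + 1) = D (iter D A o) := by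
  simp [iter]

theorem iter_limit (A : Set Y) {o : Ordinal.{0}} (h : IsSuccLimit o) (x : Y) :
    x ∈ iter D A o ↔ ∀ b < o, x ∈ iter D A b := by
  unfold iter
  rw [Ordinal.limitRecOn_limit _ _ _ _ h]
  simp

theorem iter_anti (hs : ∀ A, D A ⊆ A) (A : Set Y) {a b : Ordinal.{0}} (h : a ≤ b) :
    iter D A b ⊆ iter D A a := by
  induction b using Ordinal.limitRecOn with
  | zero => rw [nonpos_iff_eq_zero.1 h]
  | add_one b ih =>
    rcases h.eq_or_lt with rfl | h
    · exact subset_rfl
    · rw [iter_succ]; exact (hs _).trans (ih (Order.lt_add_one_iff.1 h))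
  | limit b hb ih =>
    rcases h.eq_or_lt with rfl | h
    · exact subset_rfl
    · intro x hx; exact (iter_limit A hb x).1 hx a h

theorem iter_sub (hs : ∀ A, D A ⊆ A) (A : Set Y) (a : Ordinal.{0}) : iter D A a ⊆ A := by
  have := iter_anti hs A (zero_le (a := a))
  rwa [iter_zero] at this

theorem iter_map {Z : Type*} {D' : Set Z → Set Z} (f : Y → Z)
    (h : ∀ A A', MapsTo f A A' → MapsTo f (D A) (D' A')) {A : Set Y} {A' : Set Z}
    (hA : MapsTo f A A') (a : Ordinal.{0}) : MapsTo f (iter D A a) (iter D' A' a) := by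
  induction a using Ordinal.limitRecOn with
  | zero => rwa [iter_zero, iter_zero]
  | add_one b ih => rw [iter_succ, iter_succ]; exact h _ _ ih
  | limit b hb ih =>
    intro x hx
    rw [iter_limit _ hb] at hx ⊢
    exact fun c hc => ih c hc (hx c hc)

theorem iter_mono (hm : ∀ A B, A ⊆ B → D A ⊆ D B) {A B : Set Y} (h : A ⊆ B) (a : Ordinal.{0}) :
    iter D A a ⊆ iter D B a :=
  iter_map (D := D) (D' := D) id (fun A A' h => hm A A' h) h a

theorem iter_add (hs : ∀ A, D A ⊆ A) (A : Set Y) (a b : Ordinal.{0}) :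
    iter D A (a + b) = iter D (iter D A a) b := by
  induction b using Ordinal.limitRecOn with
  | zero => rw [add_zero, iter_zero]
  | add_one b ih => rw [← add_assoc, iter_succ, iter_succ, ih]
  | limit b hb ih =>
    ext x
    rw [iter_limit _ hb, iter_limit _ (Ordinal.isSuccLimit_add a hb)]
    constructor
    · intro h c hc
      rw [← ih c hc]
      exact h _ (by gcongr)
    · intro h c hc
      obtain ⟨d, hd, hcd⟩ := (Ordinal.lt_add_iff_of_isSuccLimit hb).1 hc
      have := h d hd
      rw [← ih d hd] at this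
      exact iter_anti hs A hcd.le this

variable [TopologicalSpace Y]

theorem iter_loc (hm : ∀ A B, A ⊆ B → D A ⊆ D B)
    (hl : ∀ A N, IsOpen N → D A ∩ N ⊆ D (A ∩ N)) (A : Set Y) {N : Set Y} (hN : IsOpen N)
    (a : Ordinal.{0}) : iter D A a ∩ N ⊆ iter D (A ∩ N) a := by
  induction a using Ordinal.limitRecOn with
  | zero => rw [iter_zero, iter_zero]
  | add_one b ih => rw [iter_succ, iter_succ]; exact (hl _ _ hN).trans (hm _ _ ih)
  | limit b hb ih =>
    intro x hx
    rw [iter_limit _ hb]
    exact fun c hc => ih c hc ⟨(iter_limit _ hb x).1 hx.1 c hc, hx.2⟩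

/-- Cantor-Bendixson derivative of an arbitrary set -/
def cb (A : Set Y) : Set Y := A ∩ derivedSet A

theorem cb_sub (A : Set Y) : cb A ⊆ A := inter_subset_left

theorem cb_mono (A B : Set Y) (h : A ⊆ B) : cb A ⊆ cb B :=
  inter_subset_inter h (derivedSet_mono _ _ h)

theorem cb_loc (A N : Set Y) (hN : IsOpen N) : cb A ∩ N ⊆ cb (A ∩ N) := by
  rintro x ⟨⟨h1, h2⟩, h3⟩
  refine ⟨⟨h1, h3⟩, ?_⟩
  have := AccPt.nhds_inter h2 (hN.mem_nhds h3)
  rwa [inter_comm] at this

theorem iter_cb_closed [T1Space Y] {A : Set Y} (hA : IsClosed A) (a : Ordinal.{0}) :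
    IsClosed (iter cb A a) := by
  induction a using Ordinal.limitRecOn with
  | zero => rwa [iter_zero]
  | add_one b ih => rw [iter_succ]; exact ih.inter (isClosed_derivedSet _)
  | limit b hb ih =>
    have : iter cb A b = ⋂ c : Set.Iio b, iter cb A c.1 := by
      ext x; rw [iter_limit _ hb]; simp
    rw [this]
    exact isClosed_iInter fun c => ih c.1 c.2

theorem compact_limit [T1Space Y] {A T : Set Y} (hA : IsClosed A) (hT : IsCompact T)
    {b : Ordinal.{0}} (hb : IsSuccLimit b) (h : Disjoint T (iter cb A b)) :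
    ∃ c < b, Disjoint T (iter cb A c) := by
  have hne : Nonempty (Set.Iio b) := ⟨⟨0, hb.bot_lt⟩⟩
  have := hT.elim_directed_family_closed (fun c : Set.Iio b => iter cb A c.1)
    (fun c => iter_cb_closed hA _) (by
      ext x
      simp only [mem_inter_iff, mem_iInter, mem_empty_iff_false, iff_false, not_and]
      intro hx hx'
      exact Set.disjoint_left.1 h hx ((iter_limit _ hb x).2 fun c hc => hx' ⟨c, hc⟩))
    (by
      intro c d
      rcases le_total c.1 d.1 with h | h
      · exact ⟨d, iter_anti cb_sub A h, subset_rfl⟩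
      · exact ⟨c, subset_rfl, iter_anti cb_sub A h⟩)
  obtain ⟨c, hc⟩ := this
  exact ⟨c.1, c.2, Set.disjoint_iff_inter_eq_empty.2 hc⟩

theorem finite_of_cb {T A : Set Y} (hT : IsCompact T) (hTA : T ⊆ A) (h : Disjoint T (cb A)) :
    T.Finite := by
  by_contra hf
  obtain ⟨x, hx, hx'⟩ := Set.Infinite.exists_accPt_of_subset_isCompact hf hT subset_rfl
  exact Set.disjoint_left.1 h hx ⟨hTA hx, derivedSet_mono _ _ hTA hx'⟩

theorem exists_iter_empty [Countable Y] [CompactSpace Y] [T2Space Y] :
    ∃ b : Ordinal.{0}, iter cb (univ : Set Y) b = ∅ := by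
  by_contra hne
  push Not at hne
  have key : ∀ b : Ordinal.{0}, ∃ x ∈ iter cb (univ : Set Y) b, x ∉ iter cb univ (b + 1) := by
    intro b
    set A := iter cb (univ : Set Y) b with hA
    have hc : IsClosed A := iter_cb_closed isClosed_univ b
    haveI : CompactSpace A := isCompact_iff_compactSpace.1 hc.isCompact
    haveI : Nonempty A := (hne b).to_subtype
    obtain ⟨x, hx⟩ := nonempty_interior_of_iUnion_of_closed (X := A) (ι := A)
      (f := fun x => {x}) (fun x => isClosed_singleton) (by ext; simp)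
    refine ⟨x.1, x.2, ?_⟩
    rw [iter_succ]
    rintro ⟨-, h2⟩
    obtain ⟨y, hy⟩ := hx
    have hyx : y = x := mem_singleton_iff.1 (interior_subset hy)
    subst hyx
    have h3 : ({y} : Set A) ∈ 𝓝 y := mem_interior_iff_mem_nhds.1 hy
    rw [mem_nhds_subtype] at h3
    obtain ⟨U, hU, hU'⟩ := h3
    rw [mem_derivedSet, accPt_iff_nhds] at h2
    obtain ⟨z, ⟨hz1, hz2⟩, hz3⟩ := h2 U hU
    have : (⟨z, hz2⟩ : A) ∈ ({y} : Set A) := hU' hz1
    exact hz3 (congrArg Subtype.val this)
  choose f hf hf' using key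
  apply not_injective_of_ordinal f
  intro a b hab
  by_contra hne
  rcases lt_or_gt_of_ne hne with h | h
  · exact hf' a (hab ▸ iter_anti cb_sub _ (Order.add_one_le_of_lt h) (hf b))
  · exact hf' b (hab ▸ iter_anti cb_sub _ (Order.add_one_le_of_lt h) (hf a))

theorem totDisc [Countable Y] [CompactSpace Y] [T2Space Y] : TotallyDisconnectedSpace Y := by
  haveI : TotallySeparatedSpace Y := by
    refine ⟨fun x _ y _ hxy => ?_⟩
    obtain ⟨f, hf0, hf1, -⟩ := exists_continuous_zero_one_of_isClosed (isClosed_singleton (x := x))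
      (isClosed_singleton (x := y)) (by simpa using hxy)
    have h0 : f x = 0 := hf0 rfl
    have h1 : f y = 1 := hf1 rfl
    have : ∃ r ∈ Ioo (0:ℝ) 1, r ∉ range f := by
      by_contra h
      push Not at h
      have h2 : (Ioo (0:ℝ) 1).Countable := (countable_range f).mono h
      have := h2.measure_zero MeasureTheory.volume
      simp at this
    obtain ⟨r, hr, hr'⟩ := this
    refine ⟨{z | f z < r}, {z | r < f z}, isOpen_lt f.continuous continuous_const,
      isOpen_lt continuous_const f.continuous, by simpa [h0] using hr.1, by simpa [h1] using hr.2,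
      ?_, ?_⟩
    · intro z _
      rcases lt_trichotomy (f z) r with h | h | h
      · exact Or.inl h
      · exact absurd ⟨z, h⟩ hr'
      · exact Or.inr h
    · exact Set.disjoint_left.2 fun z h1 h2 => lt_asymm (show f z < r from h1) h2
  infer_instance

end gen
end Pool.Agent.H89.SZ
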