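import Pool.Agent.H89.SZ1

set_option autoImplicit false

namespace Pool.Agent.H89.SZ
open Set Ordinal Order Topology Filter

variable {K : Type*} [TopologicalSpace K]

open Classical in
noncomputable def ind (V : Set K) : C(K, ℝ) :=
  if h : IsClopen V then ⟨V.indicator (fun _ => 1), h.continuous_indicator continuous_const⟩ else 0

theorem ind_mem {V : Set K} (h : IsClopen V) {x : K} (hx : x ∈ V) : ind V x = 1 := by
  simp [ind, h, hx]

theorem ind_not {V : Set K} {x : K} (hx : x ∉ V) : ind V x = 0 := by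
  unfold ind; split_ifs <;> simp [hx]

theorem ind_bd (V : Set K) (x : K) : 0 ≤ ind V x ∧ ind V x ≤ 1 := by
  by_cases hx : x ∈ V
  · by_cases h : IsClopen V
    · rw [ind_mem h hx]; norm_num
    · simp [ind, h]
  · rw [ind_not hx]; norm_num

theorem ind_nonneg (V : Set K) : 0 ≤ ind V := fun x => (ind_bd V x).1

/-- weight attached to a choice of clopen sets -/
noncomputable def wt (w : C(K, ℝ)) (τ : ℝ) (k : ℕ) (V : ℕ → Set K) : C(K, ℝ) :=
  w + τ • ∑ j ∈ Finset.range (k + 1), ind (V j)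

def Adm (D V : ℕ → Set K) : Prop := ∀ j, IsClopen (V j) ∧ Disjoint (V j) (D j)

theorem sum_bd (k : ℕ) (V : ℕ → Set K) (x : K) :
    0 ≤ (∑ j ∈ Finset.range (k + 1), ind (V j)) x ∧
      (∑ j ∈ Finset.range (k + 1), ind (V j)) x ≤ k + 1 := by
  rw [ContinuousMap.coe_sum, Finset.sum_apply]
  refine ⟨Finset.sum_nonneg fun j _ => (ind_bd _ _).1, ?_⟩
  calc _ ≤ ∑ _j ∈ Finset.range (k + 1), (1:ℝ) := Finset.sum_le_sum fun j _ => (ind_bd _ _).2
    _ = _ := by simp

theorem wt_split (w : C(K, ℝ)) (τ : ℝ) (k : ℕ) (V : ℕ → Set K) :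
    wt w τ k V = wt w τ k (Function.update V 0 ∅) + τ • ind (V 0) := by
  have h0 : ind (∅ : Set K) = 0 := by ext x; exact ind_not (notMem_empty x)
  simp only [wt, Finset.sum_range_succ', Function.update_self, h0, add_zero, smul_add, add_assoc]
  simp

theorem adm_update {D V : ℕ → Set K} (h : Adm D V) : Adm D (Function.update V 0 ∅) := by
  intro j
  by_cases hj : j = 0
  · subst hj; simp [isClopen_empty]
  · rw [Function.update_of_ne hj]; exact h j

theorem le_wt (w : C(K, ℝ)) {τ : ℝ} (hτ : 0 ≤ τ) (k : ℕ) (V : ℕ → Set K) : w ≤ wt w τ k V := by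
  refine ContinuousMap.le_def.2 fun x => ?_
  have := (sum_bd k V x).1
  simp only [wt, ContinuousMap.add_apply, ContinuousMap.smul_apply, _root_.smul_eq_mul]
  nlinarith [mul_nonneg hτ this]

variable [CompactSpace K] [T2Space K] [TotallyDisconnectedSpace K]

theorem cover (w : C(K, ℝ)) {τ : ℝ} (hτ : 0 ≤ τ) (k : ℕ) {D U : ℕ → Set K}
    (hD : ∀ j, IsClosed (D j)) (hU : Adm D U) {P : Set K} (hP : IsClopen P)
    (hd : Disjoint P {x | ∀ j ≤ k, x ∈ D j ∪ U j}) :
    ∃ V, Adm D V ∧ wt w τ k U + τ • ind P ≤ wt w τ k V := by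
  classical
  obtain ⟨v, hv1, hv2, hv3⟩ := exists_subset_iUnion_closed_subset (s := P)
    (u := fun j : ℕ => if j ≤ k then (D j ∪ U j)ᶜ else ∅) hP.isClosed
    (fun j => by
      split_ifs
      · exact ((hD j).union (hU j).1.isClosed).isOpen_compl
      · exact isOpen_empty)
    (fun x _ => (Set.finite_Iic k).subset fun j hj => by
      by_contra h
      have h' : ¬ j ≤ k := h
      simp [h'] at hj)
    (fun x hx => by
      have := Set.disjoint_left.1 hd hx
      simp only [mem_setOf_eq, not_forall] at this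
      obtain ⟨j, hj, hj'⟩ := this
      exact mem_iUnion.2 ⟨j, by rw [if_pos hj]; exact hj'⟩)
  have : ∀ j, ∃ Q : Set K, IsClopen Q ∧ v j ⊆ Q ∧ Q ⊆ (D j ∪ U j)ᶜ := fun j =>
    exists_clopen_of_closed_subset_open (hv2 j) ((hD j).union (hU j).1.isClosed).isOpen_compl
      ((hv3 j).trans (by split_ifs <;> simp))
  choose Q hQ1 hQ2 hQ3 using this
  refine ⟨fun j => U j ∪ Q j, fun j => ⟨(hU j).1.union (hQ1 j), ?_⟩,
    ContinuousMap.le_def.2 fun x => ?_⟩
  · exact Set.disjoint_union_left.2 ⟨(hU j).2,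
      Set.disjoint_left.2 fun x hx hx' => hQ3 j hx (Or.inl hx')⟩
  · have hle : ∀ j, ind (U j) x ≤ ind (U j ∪ Q j) x := fun j => by
      by_cases h : x ∈ U j
      · rw [ind_mem (hU j).1 h, ind_mem ((hU j).1.union (hQ1 j)) (Or.inl h)]
      · rw [ind_not h]; exact (ind_bd _ _).1
    simp only [wt, ContinuousMap.add_apply, ContinuousMap.smul_apply, _root_.smul_eq_mul,
      ContinuousMap.coe_sum, Finset.sum_apply]
    rw [add_assoc, ← mul_add]
    gcongr
    by_cases hx : x ∈ P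
    · obtain ⟨j, hj⟩ := mem_iUnion.1 (hv1 hx)
      have hjk : j ≤ k := by
        by_contra h
        have := hv3 j hj
        simp [h] at this
      have hm : j ∈ Finset.range (k + 1) := Finset.mem_range.2 (Nat.lt_succ_of_le hjk)
      rw [← Finset.add_sum_erase _ _ hm, ← Finset.add_sum_erase _ (fun j => ind (U j ∪ Q j) x) hm,
        ind_mem hP hx, ind_not (fun h => hQ3 j (hQ2 j hj) (Or.inr h)),
        ind_mem ((hU j).1.union (hQ1 j)) (Or.inr (hQ2 j hj))]
      have := Finset.sum_le_sum (s := (Finset.range (k + 1)).erase j) fun j _ => hle j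
      linarith
    · rw [ind_not hx, add_zero]
      exact Finset.sum_le_sum fun j _ => hle j

omit [CompactSpace K] [T2Space K] [TotallyDisconnectedSpace K] in
theorem strata {k : ℕ} {D U : ℕ → Set K} (hk : D k = ∅) (h0 : U 0 = ∅) {x : K}
    (hx : ∀ j ≤ k, x ∈ D j ∪ U j) : ∃ i < k, x ∈ D i ∩ U (i + 1) := by
  classical
  have hex : ∃ j, x ∉ D j := ⟨k, by simp [hk]⟩
  have h1 := Nat.find_spec hex
  have h2 : Nat.find hex ≤ k := Nat.find_min' hex (by simp [hk])
  have h3 : Nat.find hex ≠ 0 := by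
    intro h
    rw [h] at h1
    have := hx 0 (Nat.zero_le _)
    rw [h0, union_empty] at this
    exact h1 this
  obtain ⟨i, hi⟩ := Nat.exists_eq_succ_of_ne_zero h3
  have h4 := Nat.find_min hex (m := i) (by omega)
  rw [hi] at h1 h2
  exact ⟨i, by omega, not_not.1 h4, (hx _ h2).resolve_left h1⟩

structure Sys {Y : Type*} [TopologicalSpace Y] (Der : Set Y → Set Y) (Y0 : Set Y)
    (a : Y → C(K, ℝ) → ℝ) (C c : ℝ) : Prop where
  hs : ∀ A, Der A ⊆ A
  hm : ∀ A B, A ⊆ B → Der A ⊆ Der B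
  hl : ∀ A N, IsOpen N → Der A ∩ N ⊆ Der (A ∩ N)
  hC : 0 ≤ C
  mono : ∀ y ∈ Y0, ∀ d d', 0 ≤ d → d ≤ d' → a y d ≤ a y d'
  sub : ∀ y ∈ Y0, ∀ d d', 0 ≤ d → 0 ≤ d' → a y (d + d') ≤ a y d + a y d'
  hom : ∀ y ∈ Y0, ∀ d, ∀ s : ℝ, 0 ≤ d → 0 ≤ s → a y (s • d) ≤ s * a y d
  bdd : ∀ y ∈ Y0, ∀ d, 0 ≤ d → 0 ≤ a y d ∧ a y d ≤ C * ‖d‖
  lsc : ∀ d r, 0 ≤ d → IsOpen {y | r < a y d}
  gor : ∀ A ⊆ Y0, ∀ y ∈ Der A, ∀ d, 0 ≤ d → ∀ S : Set K, S.Finite → ∀ σ ε M : ℝ, 0 < σ → 0 < ε →
    (∀ V, IsClopen V → Disjoint V S → a y (d + σ • ind V) ≤ M) →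
    ∃ y' ∈ A, ∃ V, IsClopen V ∧ Disjoint V S ∧ 2 * a y d - M + c * σ - ε ≤ a y' (d + σ • ind V)

variable {Y : Type*} [TopologicalSpace Y] {Der : Set Y → Set Y} {Y0 : Set Y}
  {a : Y → C(K, ℝ) → ℝ} {C c : ℝ}

omit [T2Space K] [TotallyDisconnectedSpace K] in
theorem Sys.slope (H : Sys Der Y0 a C c) {y : Y} (hy : y ∈ Y0) {w : C(K, ℝ)} (hw : 0 ≤ w)
    {κ η τ : ℝ} (hτ : 0 < τ) (hτκ : τ ≤ κ) (k : ℕ) (U : ℕ → Set K) (P : Set K)
    (h : a y (w + κ • ind P) ≤ a y w + η * κ) :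
    a y (wt w τ k U + τ • ind P) ≤ a y (wt w τ k U) + (η + (k + 1) * τ * C / κ) * τ := by
  have hκ : 0 < κ := hτ.trans_le hτκ
  have h0 : 0 ≤ wt w τ k U := hw.trans (le_wt w hτ.le k U)
  have hi : 0 ≤ κ • ind P := smul_nonneg hκ.le (ind_nonneg P)
  have hs0 : 0 ≤ τ / κ := by positivity
  have hs1 : 0 ≤ 1 - τ / κ := by rw [sub_nonneg, div_le_one hκ]; exact hτκ
  have e : wt w τ k U + τ • ind P =
      (1 - τ / κ) • wt w τ k U + (τ / κ) • (wt w τ k U + κ • ind P) := by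
    rw [smul_add, smul_smul, div_mul_cancel₀ _ hκ.ne', ← add_assoc, ← add_smul]; simp
  have hS : (0 : C(K, ℝ)) ≤ τ • ∑ j ∈ Finset.range (k + 1), ind (U j) :=
    smul_nonneg hτ.le fun x => (sum_bd k U x).1
  have hn : ‖τ • ∑ j ∈ Finset.range (k + 1), ind (U j)‖ ≤ (k + 1) * τ := by
    rw [ContinuousMap.norm_le _ (by positivity)]
    intro x
    have := sum_bd k U x
    show ‖τ * (∑ j ∈ Finset.range (k + 1), ind (U j)) x‖ ≤ _
    rw [Real.norm_of_nonneg (mul_nonneg hτ.le this.1)]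
    nlinarith
  have h1 : a y (wt w τ k U + κ • ind P) ≤ a y (wt w τ k U) + η * κ + (k + 1) * τ * C := by
    have e2 : wt w τ k U + κ • ind P =
        (w + κ • ind P) + τ • ∑ j ∈ Finset.range (k + 1), ind (U j) := by
      simp only [wt]; abel
    rw [e2]
    have h2 := H.sub y hy _ _ (add_nonneg hw hi) hS
    have h3 := (H.bdd y hy _ hS).2
    have h4 := H.mono y hy _ _ hw (le_wt w hτ.le k U)
    have h5 := mul_le_mul_of_nonneg_left hn H.hC
    linarith
  rw [e]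
  have h2 := H.sub y hy _ _ (smul_nonneg hs1 h0) (smul_nonneg hs0 (add_nonneg h0 hi))
  have h3 := H.hom y hy _ _ h0 hs1
  have h4 := H.hom y hy _ _ (add_nonneg h0 hi) hs0
  have h5 := mul_le_mul_of_nonneg_left h1 hs0
  have e3 : τ / κ * (a y (wt w τ k U) + η * κ + (k + 1) * τ * C) =
      τ / κ * a y (wt w τ k U) + (η + (k + 1) * τ * C / κ) * τ := by field_simp; ring
  linarith

theorem Sys.main (H : Sys Der Y0 a C c) (α : Ordinal.{0}) : ∀ (D : Set K), IsClosed D →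
    ∀ k : ℕ, iter cb D (ω ^ α * k) = ∅ → ∀ w : C(K, ℝ), 0 ≤ w → ∀ κ η : ℝ, 0 < κ → η < c / 2 →
    ∀ A ⊆ Y0, (∀ y ∈ A, ∀ V, IsClopen V → Disjoint V D → a y (w + κ • ind V) ≤ a y w + η * κ) →
    ∃ n : ℕ, iter Der A (ω ^ α * n) = ∅ := by
  induction α using WellFoundedLT.induction with
  | ind α ih =>
  intro D0 hD0 k hk w hw κ η hκ hη A hA hyp
  set D : ℕ → Set K := fun j => iter cb D0 (ω ^ α * j) with hDdef
  have hDc : ∀ j, IsClosed (D j) := fun j => iter_cb_closed hD0 _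
  have hDs : ∀ j, D (j + 1) = iter cb (D j) (ω ^ α) := fun j => by
    simp only [hDdef]
    rw [← iter_add cb_sub, Nat.cast_add_one, mul_add_one]
  have hD00 : D 0 = D0 := by simp [hDdef, iter_zero]
  have hC := H.hC
  obtain ⟨τ, hτ, hτκ, hη'⟩ : ∃ τ : ℝ, 0 < τ ∧ τ ≤ κ ∧ η + (k + 1) * τ * C / κ < c / 2 := by
    have hp : 0 < (c / 2 - η) * κ / (((k:ℝ) + 1) * C + 1) := by
      have : 0 < c / 2 - η := by linarith
      positivity
    refine ⟨min κ ((c / 2 - η) * κ / (((k:ℝ) + 1) * C + 1)), lt_min hκ hp, min_le_left _ _, ?_⟩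
    have h1 := min_le_right κ ((c / 2 - η) * κ / (((k:ℝ) + 1) * C + 1))
    have h2 := lt_min hκ hp
    set t := min κ ((c / 2 - η) * κ / (((k:ℝ) + 1) * C + 1))
    rw [le_div_iff₀ (by positivity)] at h1
    have : (k + 1) * t * C / κ < c / 2 - η := by rw [div_lt_iff₀ hκ]; nlinarith
    linarith
  set η' := η + (k + 1) * τ * C / κ with hη'def
  set δ := (c / 2 - η') * τ / 4 with hδdef
  have hδ : 0 < δ := by
    have : 0 < c / 2 - η' := by linarith
    positivity
  set p : Y → ℝ := fun y => sSup {r | ∃ V, Adm D V ∧ r = a y (wt w τ k V)} with hp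
  have hne : ∀ y, {r | ∃ V, Adm D V ∧ r = a y (wt w τ k V)}.Nonempty := fun y =>
    ⟨_, fun _ => ∅, fun j => ⟨isClopen_empty, by simp⟩, rfl⟩
  have hbd : ∀ y ∈ Y0, ∀ r ∈ {r | ∃ V, Adm D V ∧ r = a y (wt w τ k V)},
      0 ≤ r ∧ r ≤ C * (‖w‖ + (k + 1) * τ) := by
    rintro y hy r ⟨V, -, rfl⟩
    have h0 : 0 ≤ wt w τ k V := hw.trans (le_wt w hτ.le k V)
    refine ⟨(H.bdd y hy _ h0).1, (H.bdd y hy _ h0).2.trans ?_⟩
    gcongr
    rw [ContinuousMap.norm_le _ (by positivity)]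
    intro x
    rw [Real.norm_of_nonneg (show 0 ≤ wt w τ k V x from h0 x)]
    have h1 := sum_bd k V x
    have h2 := (le_abs_self _).trans (w.norm_coe_le_norm x)
    simp only [wt, ContinuousMap.add_apply, ContinuousMap.smul_apply, _root_.smul_eq_mul]
    nlinarith
  have hle : ∀ y ∈ Y0, ∀ V, Adm D V → a y (wt w τ k V) ≤ p y := fun y hy V hV =>
    le_csSup ⟨_, fun r hr => (hbd y hy r hr).2⟩ ⟨V, hV, rfl⟩
  have hp0 : ∀ y ∈ Y0, 0 ≤ p y ∧ p y ≤ C * (‖w‖ + (k + 1) * τ) := fun y hy => by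
    obtain ⟨r, V, hV, rfl⟩ := hne y
    exact ⟨(hbd y hy _ ⟨V, hV, rfl⟩).1.trans (hle y hy V hV),
      csSup_le (hne y) fun r hr => (hbd y hy r hr).2⟩
  have claim : ∀ B ⊆ A, ∀ y ∈ iter Der B (ω ^ α), ∃ y' ∈ B, p y + δ ≤ p y' := by
    intro B hB y hy
    have hyB : y ∈ B := iter_sub H.hs _ _ hy
    have hy0 : y ∈ Y0 := hA (hB hyB)
    obtain ⟨r, ⟨V, hV, rfl⟩, hr⟩ := exists_lt_of_lt_csSup (hne y) (show p y - δ < p y by linarith)
    set U := Function.update V 0 ∅ with hUdef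
    have hU : Adm D U := adm_update hV
    have hU0 : U 0 = ∅ := by simp [hUdef]
    have hsl := H.slope hy0 hw hτ hτκ k U (V 0) (hyp y (hB hyB) _ (hV 0).1 (hD00 ▸ (hV 0).2))
    rw [← wt_split, ← hη'def] at hsl
    have hd0 : 0 ≤ wt w τ k U := hw.trans (le_wt w hτ.le k U)
    set D' := {x | ∀ j ≤ k, x ∈ D j ∪ U j} with hD'
    have hcov : ∀ y' ∈ Y0, ∀ P, IsClopen P → Disjoint P D' →
        a y' (wt w τ k U + τ • ind P) ≤ p y' := by
      intro y' hy' P hP hd
      obtain ⟨V', hV', hle'⟩ := cover w hτ.le k hDc hU hP hd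
      exact (H.mono y' hy' _ _ (add_nonneg hd0 (smul_nonneg hτ.le (ind_nonneg P))) hle').trans
        (hle y' hy' V' hV')
    have hstr : ∀ x ∈ D', ∃ i < k, x ∈ D i ∩ U (i + 1) := fun x hx => strata hk hU0 hx
    have hTc : ∀ i, IsCompact (D i ∩ U (i + 1)) := fun i =>
      ((hDc i).inter (hU _).1.isClosed).isCompact
    have hTd : ∀ i, Disjoint (D i ∩ U (i + 1)) (iter cb (D i) (ω ^ α)) := fun i => by
      rw [← hDs]; exact (hU _).2.mono_left inter_subset_right
    by_cases hα : α = 0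
    · subst hα
      have e1 : (ω : Ordinal.{0}) ^ (0 : Ordinal.{0}) = 0 + 1 := by simp
      have hfin : D'.Finite := by
        refine ((Set.finite_Iio k).biUnion (t := fun i => D i ∩ U (i + 1)) fun i _ => ?_).subset ?_
        · have := hTd i
          rw [e1, iter_succ, iter_zero] at this
          exact finite_of_cb (hTc i) inter_subset_left this
        · intro x hx
          obtain ⟨i, hi, hx'⟩ := hstr x hx
          exact mem_biUnion hi hx'
      rw [e1, iter_succ, iter_zero] at hy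
      obtain ⟨y', hy', P, hP, hd, hin⟩ := H.gor B (hB.trans hA) y hy _ hd0 D' hfin τ δ (p y) hτ hδ
        (hcov y hy0)
      refine ⟨y', hy', ?_⟩
      have := hcov y' (hA (hB hy')) P hP hd
      have e2 : c * τ = 8 * δ + 2 * (η' * τ) := by rw [hδdef]; ring
      linarith
    · by_contra hcon
      push Not at hcon
      have hlim : IsSuccLimit (ω ^ α) := isSuccLimit_opow_left isSuccLimit_omega0 hα
      have hβ : ∀ m : ℕ, ∃ β < ω ^ α, ∀ i < m, Disjoint (D i ∩ U (i + 1)) (iter cb (D i) β) := by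
        intro m
        induction m with
        | zero => exact ⟨0, hlim.bot_lt, fun i hi => absurd hi (Nat.not_lt_zero _)⟩
        | succ m ihm =>
          obtain ⟨β, h1, h2⟩ := ihm
          obtain ⟨γ, h3, h4⟩ := compact_limit (hDc m) (hTc m) hlim (hTd m)
          refine ⟨max β γ, max_lt h1 h3, fun i hi => ?_⟩
          rcases (Nat.lt_succ_iff.1 hi).eq_or_lt with rfl | hi
          · exact h4.mono_right (iter_anti cb_sub _ (le_max_right _ _))
          · exact (h2 i hi).mono_right (iter_anti cb_sub _ (le_max_left _ _))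
      obtain ⟨β, hβ1, hβ2⟩ := hβ k
      obtain ⟨α', hα', k', hk'⟩ := (lt_omega0_opow hα).1 hβ1
      have hD'c : IsClosed D' := by
        have : D' = ⋂ j ∈ Set.Iic k, D j ∪ U j := by ext x; simp [hD']
        rw [this]
        exact isClosed_biInter fun j _ => (hDc j).union (hU j).1.isClosed
      have hemp : iter cb D' (ω ^ α' * k') = ∅ := by
        rw [eq_empty_iff_forall_notMem]
        intro x hx
        have hx1 := iter_anti cb_sub _ hk'.le hx
        obtain ⟨i, hi, hx2⟩ := hstr x (iter_sub cb_sub _ _ hx)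
        have hx3 := iter_loc cb_mono cb_loc D' (hU i).1.compl.isOpen β
          ⟨hx1, fun h => Set.disjoint_left.1 (hU i).2 h hx2.1⟩
        have hx4 : x ∈ iter cb (D i) β :=
          iter_mono cb_mono (fun z hz => (hz.1 i hi.le).resolve_right hz.2) β hx3
        exact Set.disjoint_left.1 (hβ2 i hi) hx2 hx4
      set N := {y' | p y - δ - η' * τ < a y' (wt w τ k U)} with hN
      have hNo : IsOpen N := H.lsc _ _ hd0
      obtain ⟨n, hn⟩ := ih α' hα' D' hD'c k' hemp (wt w τ k U) hd0 τ (η' + 2 * δ / τ) hτ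
        (by
          have : 2 * δ / τ = (c / 2 - η') / 2 := by rw [hδdef]; field_simp; ring
          rw [this]; linarith)
        (B ∩ N) (inter_subset_left.trans (hB.trans hA))
        (by
          intro y' hy' P hP hd
          have h1 := hcov y' (hA (hB hy'.1)) P hP hd
          have h2 := hcon y' hy'.1
          have h3 : p y - δ - η' * τ < a y' (wt w τ k U) := hy'.2
          have e : (η' + 2 * δ / τ) * τ = η' * τ + 2 * δ := by field_simp
          linarith)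
      have hyN : y ∈ N := by rw [hN, mem_setOf_eq]; linarith
      have h1 := iter_loc H.hm H.hl B hNo (ω ^ α) ⟨hy, hyN⟩
      have h2 := iter_anti H.hs _ (opow_mul_lt_opow (natCast_lt_omega0 n) hα').le h1
      rw [hn] at h2
      exact h2
  have it : ∀ n : ℕ, ∀ y ∈ iter Der A (ω ^ α * n), ∃ y' ∈ A, p y + n * δ ≤ p y' := by
    intro n
    induction n with
    | zero => intro y hy; exact ⟨y, iter_sub H.hs _ _ hy, by simp⟩
    | succ n ihn =>
      intro y hy
      rw [Nat.cast_add_one, mul_add_one, iter_add H.hs] at hy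
      obtain ⟨y1, h1, h2⟩ := claim _ (iter_sub H.hs _ _) y hy
      obtain ⟨y2, h3, h4⟩ := ihn y1 h1
      exact ⟨y2, h3, by push_cast; linarith⟩
  obtain ⟨n, hn⟩ := exists_nat_gt (C * (‖w‖ + (k + 1) * τ) / δ)
  refine ⟨n, eq_empty_iff_forall_notMem.2 fun y hy => ?_⟩
  obtain ⟨y', h1, h2⟩ := it n y hy
  rw [div_lt_iff₀ hδ] at hn
  have h3 := (hp0 y (hA (iter_sub H.hs _ _ hy))).1
  have h4 := (hp0 y' (hA h1)).2
  linarith

end Pool.Agent.H89.SZ
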