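import Pool.Agent.H89.SZ2
import Pool.Agent.H15.Brouwer

set_option autoImplicit false

namespace Pool.Agent.H89.SZ
open Set Order Topology Filter

variable {X : Type*} [NormedAddCommGroup X] [NormedSpace ℝ X]

def sder (ε : ℝ) (A : Set (WeakDual ℝ X)) : Set (WeakDual ℝ X) :=
  {x | x ∈ A ∧ ∀ U ∈ 𝓝 x, ENNReal.ofReal ε ≤ Metric.ediam (WeakDual.toStrongDual '' (U ∩ A))}

def ball0 (X : Type*) [NormedAddCommGroup X] [NormedSpace ℝ X] : Set (WeakDual ℝ X) :=
  {x | ‖WeakDual.toStrongDual x‖ ≤ 1}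

theorem sder_sub (ε : ℝ) (A : Set (WeakDual ℝ X)) : sder ε A ⊆ A := fun _ h => h.1

theorem sder_mono (ε : ℝ) (A B : Set (WeakDual ℝ X)) (h : A ⊆ B) : sder ε A ⊆ sder ε B :=
  fun _ hx => ⟨h hx.1, fun U hU => (hx.2 U hU).trans
    (Metric.ediam_mono (image_mono (inter_subset_inter_right _ h)))⟩

theorem sder_loc (ε : ℝ) (A N : Set (WeakDual ℝ X)) (hN : IsOpen N) :
    sder ε A ∩ N ⊆ sder ε (A ∩ N) := by
  rintro x ⟨h1, h2⟩
  refine ⟨⟨h1.1, h2⟩, fun U hU => (h1.2 (U ∩ N) (inter_mem hU (hN.mem_nhds h2))).trans ?_⟩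
  exact Metric.ediam_mono (image_mono fun z hz => ⟨hz.1.1, hz.2, hz.1.2⟩)

theorem ball_bd {y : WeakDual ℝ X} (hy : y ∈ ball0 X) (v : X) : |y v| ≤ ‖v‖ := by
  have h1 := (WeakDual.toStrongDual y).le_opNorm v
  have h2 : ‖WeakDual.toStrongDual y‖ ≤ 1 := hy
  have h3 := mul_le_mul_of_nonneg_right h2 (norm_nonneg v)
  rw [one_mul] at h3
  exact h1.trans h3

theorem exists_far {ε : ℝ} (hε : 0 < ε) {A : Set (WeakDual ℝ X)} {y : WeakDual ℝ X}
    (hy : y ∈ sder ε A) {U : Set (WeakDual ℝ X)} (hU : U ∈ 𝓝 y) :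
    ∃ y' ∈ U ∩ A, ∃ h : X, ‖h‖ ≤ 1 ∧ ε / 3 ≤ y' h - y h := by
  have : ∃ y' ∈ U ∩ A, ε / 3 < ‖WeakDual.toStrongDual y' - WeakDual.toStrongDual y‖ := by
    by_contra hc
    push Not at hc
    have h1 : Metric.ediam (WeakDual.toStrongDual '' (U ∩ A)) ≤ ENNReal.ofReal (2 * ε / 3) := by
      apply Metric.ediam_le
      rintro _ ⟨p, hp, rfl⟩ _ ⟨q, hq, rfl⟩
      rw [edist_dist]
      apply ENNReal.ofReal_le_ofReal
      have := dist_triangle_right (WeakDual.toStrongDual p) (WeakDual.toStrongDual q)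
        (WeakDual.toStrongDual y)
      rw [dist_eq_norm (WeakDual.toStrongDual p) (WeakDual.toStrongDual y),
        dist_eq_norm (WeakDual.toStrongDual q) (WeakDual.toStrongDual y)] at this
      linarith [hc p hp, hc q hq]
    have h2 := (hy.2 U hU).trans h1
    rw [ENNReal.ofReal_le_ofReal_iff (by positivity)] at h2
    linarith
  obtain ⟨y', hy', h⟩ := this
  obtain ⟨v, hv1, hv2⟩ := ContinuousLinearMap.exists_lt_apply_of_lt_opNorm _ h
  have hv3 : ε / 3 < |y' v - y v| := hv2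
  refine ⟨y', hy', ?_⟩
  rcases lt_abs.1 hv3 with h | h
  · exact ⟨v, hv1.le, h.le⟩
  · exact ⟨-v, by simpa using hv1.le, by rw [map_neg, map_neg]; linarith⟩

theorem nhds_compact {y : WeakDual ℝ X} (hy : y ∈ ball0 X) {Q : Set X} (hQ : IsCompact Q) {ρ : ℝ}
    (hρ : 0 < ρ) : ∃ U ∈ 𝓝 y, ∀ y' ∈ U, y' ∈ ball0 X → ∀ q ∈ Q, |y' q - y q| ≤ ρ := by
  obtain ⟨T, -, hT, hcov⟩ := hQ.finite_cover_balls (show 0 < ρ / 3 by positivity)
  refine ⟨⋂ q ∈ T, {y' | |y' q - y q| < ρ / 3}, ?_, ?_⟩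
  · refine (biInter_mem hT).2 fun q _ => IsOpen.mem_nhds ?_ (by simpa using hρ)
    exact isOpen_lt ((WeakDual.eval_continuous q).sub continuous_const).abs continuous_const
  · intro y' hy' hb q hq
    obtain ⟨q', hq', hd⟩ := mem_iUnion₂.1 (hcov hq)
    have h1 : |y' q' - y q'| < ρ / 3 := mem_iInter₂.1 hy' q' hq'
    have h2 := ball_bd hb (q - q')
    have h3 := ball_bd hy (q - q')
    rw [Metric.mem_ball, dist_eq_norm] at hd
    rw [map_sub] at h2 h3
    rw [abs_le] at h2 h3 ⊢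
    rw [abs_lt] at h1
    constructor <;> linarith

theorem fixed_pi {ι : Type*} [Fintype ι] (T : (ι → ℝ) → (ι → ℝ)) (hT : Continuous T) (R : ℝ)
    (hR : ∀ x, ‖T x‖ ≤ R) : ∃ x, T x = x := by
  let e := EuclideanSpace.equiv ι ℝ
  obtain ⟨x, hx⟩ := Pool.Agent.H15.Brouwer.fixed_of_bounded (fun x => e.symm (T (e x)))
    (by fun_prop) (‖(e.symm : (ι → ℝ) →L[ℝ] EuclideanSpace ℝ ι)‖ * R) (fun x =>
      ((e.symm : (ι → ℝ) →L[ℝ] EuclideanSpace ℝ ι).le_opNorm _).trans (by gcongr; exact hR _))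
  exact ⟨e x, by have := congrArg e hx; simpa using this⟩

variable {K : Type*} [TopologicalSpace K] [CompactSpace K] [T2Space K]

theorem exists_ext {S : Set K} (hS : S.Finite) {r : ℝ} (hr : 0 ≤ r) :
    ∃ E : (S → ℝ) → C(K, ℝ), Continuous E ∧ (∀ v, ‖E v‖ ≤ r) ∧
      ∀ v (s : S), |v s| ≤ r → E v s = v s := by
  classical
  have := hS.fintype
  have : ∀ s : S, ∃ b : C(K, ℝ), b s = 1 ∧ ∀ s' : S, s' ≠ s → b s' = 0 := by
    intro s
    obtain ⟨f, h0, h1, -⟩ := exists_continuous_zero_one_of_isClosed (s := S \ {s.1}) (t := {s.1})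
      (hS.subset diff_subset).isClosed isClosed_singleton (by simp)
    exact ⟨f, h1 rfl, fun s' hs' => h0 ⟨s'.2, fun h => hs' (Subtype.ext h)⟩⟩
  choose b hb1 hb0 using this
  refine ⟨fun v => ((∑ s, v s • b s) ⊓ ContinuousMap.const K r) ⊔ ContinuousMap.const K (-r),
    ?_, fun v => ?_, fun v s hv => ?_⟩
  · apply ContinuousMap.continuous_of_continuous_uncurry
    have : Continuous fun p : (S → ℝ) × K => max (min (∑ s, p.1 s * b s p.2) r) (-r) := by
      fun_prop
    refine this.congr fun p => ?_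
    simp [Function.uncurry]
  · rw [ContinuousMap.norm_le _ hr]
    intro x
    simp only [ContinuousMap.sup_apply, ContinuousMap.inf_apply, ContinuousMap.const_apply,
      Real.norm_eq_abs, abs_le]
    exact ⟨le_max_right _ _, max_le (min_le_right _ _) (by linarith)⟩
  · have : (∑ s, v s • b s) s.1 = v s := by
      rw [ContinuousMap.coe_sum, Finset.sum_apply, Finset.sum_eq_single s]
      · simp [hb1]
      · intro s' _ h; simp [hb0 s' s h.symm]
      · simp
    simp only [ContinuousMap.sup_apply, ContinuousMap.inf_apply, ContinuousMap.const_apply, this]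
    rw [abs_le] at hv
    rw [min_eq_left hv.2, max_eq_left hv.1]

/-- bi-Lipschitz data -/
structure BL (F : C(K, ℝ) → X) (G : X → C(K, ℝ)) (C C' : ℝ) : Prop where
  hC : 0 ≤ C
  hC' : 0 < C'
  lF : ∀ u v, ‖F u - F v‖ ≤ C * ‖u - v‖
  lG : ∀ u v, ‖G u - G v‖ ≤ C' * ‖u - v‖
  GF : ∀ u, G (F u) = u
  FG : ∀ v, F (G v) = v

variable {F : C(K, ℝ) → X} {G : X → C(K, ℝ)} {C C' : ℝ}

omit [NormedSpace ℝ X] [T2Space K] in
theorem BL.contF (H : BL F G C C') : Continuous F :=
  (LipschitzWith.of_dist_le_mul (K := ⟨C, H.hC⟩) fun u v => by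
    rw [dist_eq_norm, dist_eq_norm]; exact H.lF u v).continuous

omit [NormedSpace ℝ X] [T2Space K] in
theorem BL.contG (H : BL F G C C') : Continuous G :=
  (LipschitzWith.of_dist_le_mul (K := ⟨C', H.hC'.le⟩) fun u v => by
    rw [dist_eq_norm, dist_eq_norm]; exact H.lG u v).continuous

omit [NormedSpace ℝ X] in
/-- Gorelik principle -/
theorem BL.gorelik (H : BL F G C C') {S : Set K} (hS : S.Finite) (u : C(K, ℝ)) {r : ℝ}
    (hr : 0 ≤ r) : ∃ Q : Set X, IsCompact Q ∧ ∀ h : X, C' * ‖h‖ ≤ r → ∃ z : C(K, ℝ),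
      (∀ s ∈ S, z s = 0) ∧ ‖z‖ ≤ 2 * r ∧ F (u + z) - h ∈ Q := by
  have := hS.fintype
  obtain ⟨E, hE, hE1, hE2⟩ := exists_ext hS hr
  have hF := H.contF
  have hG := H.contG
  refine ⟨(fun v => F (u + E v)) '' Metric.closedBall 0 r,
    (isCompact_closedBall _ _).image (by fun_prop), fun h hh => ?_⟩
  have hb : ∀ v, ‖(u + E v) - G (F (u + E v) + h)‖ ≤ r := fun v => by
    have := H.lG (F (u + E v)) (F (u + E v) + h)
    rw [H.GF, sub_add_cancel_left, norm_neg] at this
    exact this.trans hh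
  have hb' : ∀ v, ‖fun s : S => ((u + E v) - G (F (u + E v) + h)) s.1‖ ≤ r := fun v =>
    (pi_norm_le_iff_of_nonneg hr).2 fun s => (ContinuousMap.norm_coe_le_norm _ _).trans (hb v)
  obtain ⟨v, hv⟩ := fixed_pi (fun v (s : S) => ((u + E v) - G (F (u + E v) + h)) s.1)
    (continuous_pi fun s => (continuous_eval_const s.1).comp (by fun_prop)) r hb'
  have hvr : ‖v‖ ≤ r := by rw [← hv]; exact hb' v
  refine ⟨G (F (u + E v) + h) - u, fun s hs => ?_, ?_, v, by simpa using hvr, ?_⟩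
  · have h1 := congrFun hv ⟨s, hs⟩
    have h2 := hE2 v ⟨s, hs⟩ ((norm_le_pi_norm v ⟨s, hs⟩).trans hvr)
    simp only [ContinuousMap.sub_apply, ContinuousMap.add_apply] at h1 h2 ⊢
    linarith
  · have e : G (F (u + E v) + h) - u = E v - ((u + E v) - G (F (u + E v) + h)) := by abel
    rw [e]
    exact (norm_sub_le _ _).trans (by linarith [hE1 v, hb v])
  · simp [H.FG]

def slopes (F : C(K, ℝ) → X) (y : WeakDual ℝ X) (d : C(K, ℝ)) : Set ℝ :=
  {r | ∃ (u v : C(K, ℝ)) (t : ℝ), 0 < t ∧ (∀ x, |v x - u x| ≤ t * d x) ∧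
    r = (y (F v) - y (F u)) / t}

noncomputable def aa (F : C(K, ℝ) → X) (y : WeakDual ℝ X) (d : C(K, ℝ)) : ℝ := sSup (slopes F y d)

omit [CompactSpace K] [T2Space K] in
theorem zero_mem_slopes (y : WeakDual ℝ X) {d : C(K, ℝ)} (hd : 0 ≤ d) : (0:ℝ) ∈ slopes F y d :=
  ⟨0, 0, 1, one_pos, fun x => by simpa using (show 0 ≤ d x from hd x), by simp⟩

omit [T2Space K] in
theorem BL.slopes_le (H : BL F G C C') (y : WeakDual ℝ X) {d : C(K, ℝ)} {r : ℝ}
    (hr : r ∈ slopes F y d) : r ≤ ‖WeakDual.toStrongDual y‖ * (C * ‖d‖) := by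
  obtain ⟨u, v, t, ht, h, rfl⟩ := hr
  have h1 : ‖v - u‖ ≤ t * ‖d‖ := by
    rw [ContinuousMap.norm_le _ (by positivity)]
    intro x
    exact (h x).trans (mul_le_mul_of_nonneg_left ((le_abs_self _).trans (d.norm_coe_le_norm x)) ht.le)
  have h2 := (WeakDual.toStrongDual y).le_opNorm (F v - F u)
  have h3 : y (F v) - y (F u) ≤ ‖WeakDual.toStrongDual y (F v - F u)‖ := by
    rw [← map_sub]; exact le_abs_self _
  have h4 := (H.lF v u).trans (mul_le_mul_of_nonneg_left h1 H.hC)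
  have h5 := mul_le_mul_of_nonneg_left h4 (norm_nonneg (WeakDual.toStrongDual y))
  rw [div_le_iff₀ ht]
  nlinarith

omit [T2Space K] in
theorem BL.diff_le (H : BL F G C C') (y : WeakDual ℝ X) {d u v : C(K, ℝ)} {t : ℝ} (ht : 0 < t)
    (h : ∀ x, |v x - u x| ≤ t * d x) : y (F v) - y (F u) ≤ t * aa F y d := by
  have : (y (F v) - y (F u)) / t ≤ aa F y d :=
    le_csSup ⟨_, fun r hr => H.slopes_le y hr⟩ ⟨u, v, t, ht, h, rfl⟩
  rwa [div_le_iff₀' ht] at this

omit [CompactSpace K] [T2Space K] in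
theorem aa_le (y : WeakDual ℝ X) {d : C(K, ℝ)} (hd : 0 ≤ d) {M : ℝ}
    (h : ∀ (u v : C(K, ℝ)) (t : ℝ), 0 < t → (∀ x, |v x - u x| ≤ t * d x) →
      y (F v) - y (F u) ≤ t * M) : aa F y d ≤ M := by
  refine csSup_le ⟨0, zero_mem_slopes y hd⟩ ?_
  rintro r ⟨u, v, t, ht, h', rfl⟩
  rw [div_le_iff₀' ht]
  exact h u v t ht h'

omit [T2Space K] in
theorem BL.aa_sub (H : BL F G C C') (y : WeakDual ℝ X) {d d' : C(K, ℝ)} (hd : 0 ≤ d)
    (hd' : 0 ≤ d') : aa F y (d + d') ≤ aa F y d + aa F y d' := by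
  refine aa_le y (add_nonneg hd hd') fun u v t ht h => ?_
  set m := u + (((v - u) ⊓ t • d) ⊔ (-(t • d))) with hm
  have hmx : ∀ x, m x = u x + max (min (v x - u x) (t * d x)) (-(t * d x)) := fun x => by
    simp [hm]
  have h1 := H.diff_le y (d := d) (u := u) (v := m) ht fun x => by
    have : 0 ≤ t * d x := mul_nonneg ht.le (hd x)
    rw [hmx, add_sub_cancel_left, abs_le]
    exact ⟨le_max_right _ _, max_le (min_le_right _ _) (by linarith)⟩
  have h2 := H.diff_le y (d := d') (u := m) (v := v) ht fun x => by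
    have h3 : 0 ≤ t * d x := mul_nonneg ht.le (hd x)
    have h4 : 0 ≤ t * d' x := mul_nonneg ht.le (hd' x)
    have h5 := h x
    rw [ContinuousMap.add_apply, mul_add, abs_le] at h5
    rw [hmx, abs_le]
    rcases le_total (v x - u x) (t * d x) with h6 | h6
    · rw [min_eq_left h6]
      rcases le_total (v x - u x) (-(t * d x)) with h7 | h7
      · rw [max_eq_right h7]; constructor <;> linarith
      · rw [max_eq_left h7]; constructor <;> linarith
    · rw [min_eq_right h6, max_eq_left (by linarith)]; constructor <;> linarith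
  linarith

omit [T2Space K] in
theorem BL.aa_bdd (H : BL F G C C') {y : WeakDual ℝ X} (hy : y ∈ ball0 X) {d : C(K, ℝ)}
    (hd : 0 ≤ d) : 0 ≤ aa F y d ∧ aa F y d ≤ C * ‖d‖ := by
  refine ⟨le_csSup ⟨_, fun r hr => H.slopes_le y hr⟩ (zero_mem_slopes y hd),
    csSup_le ⟨0, zero_mem_slopes y hd⟩ fun r hr => (H.slopes_le y hr).trans ?_⟩
  have h1 : ‖WeakDual.toStrongDual y‖ ≤ 1 := hy
  have h2 := mul_le_mul_of_nonneg_right h1 (mul_nonneg H.hC (norm_nonneg d))
  linarith

theorem BL.sys [TotallyDisconnectedSpace K] (H : BL F G C C') {ε : ℝ} (hε : 0 < ε) :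
    Sys (sder ε) (ball0 X) (aa F) C (ε / (6 * C')) where
  hs := sder_sub ε
  hm := sder_mono ε
  hl := sder_loc ε
  hC := H.hC
  mono y _ d d' hd hdd := aa_le y hd fun u v t ht h => H.diff_le y ht fun x =>
    (h x).trans (mul_le_mul_of_nonneg_left (hdd x) ht.le)
  sub y _ d d' hd hd' := H.aa_sub y hd hd'
  hom y hy d s hd hs := aa_le y (smul_nonneg hs hd) fun u v t ht h => by
    rcases hs.eq_or_lt with rfl | hs
    · have : v = u := by
        ext x
        have := h x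
        simp only [zero_smul, ContinuousMap.zero_apply, mul_zero, abs_nonpos_iff] at this
        linarith
      simp [this]
    · have := H.diff_le y (d := d) (u := u) (v := v) (mul_pos ht hs) fun x => by
        simpa [mul_assoc] using h x
      linarith
  bdd y hy d hd := H.aa_bdd hy hd
  lsc d r hd := by
    rw [isOpen_iff_mem_nhds]
    intro y hy
    obtain ⟨_, ⟨u, v, t, ht, h, rfl⟩, hr⟩ := exists_lt_of_lt_csSup ⟨0, zero_mem_slopes y hd⟩ hy
    have : {y : WeakDual ℝ X | r < (y (F v) - y (F u)) / t} ∈ 𝓝 y :=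
      (isOpen_lt continuous_const (((WeakDual.eval_continuous _).sub
        (WeakDual.eval_continuous _)).div_const _)).mem_nhds hr
    filter_upwards [this] with y' hy'
    have h2 := H.diff_le y' ht h
    rw [lt_div_iff₀' ht] at hy'
    exact lt_of_mul_lt_mul_left (hy'.trans_le h2) ht.le
  gor A hA y hy d hd S hS σ ε' M hσ hε' hM := by
    have hC := H.hC
    have hC' := H.hC'
    have hy0 := hA hy.1
    set θ := ε' / (2 * C + 4) with hθdef
    have hθ : 0 < θ := by positivity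
    obtain ⟨_, ⟨u0, u1, t0, ht0, h01, rfl⟩, hr⟩ := exists_lt_of_lt_csSup
      ⟨0, zero_mem_slopes (F := F) y hd⟩ (show aa F y d - θ < aa F y d by linarith)
    rw [lt_div_iff₀' ht0] at hr
    obtain ⟨t, rfl⟩ : ∃ t, t0 = 2 * t := ⟨t0 / 2, by ring⟩
    have ht : 0 < t := by linarith
    set u := (1 / 2 : ℝ) • (u0 + u1) with hu
    have hux : ∀ x, u x = (u0 x + u1 x) / 2 := fun x => by simp [hu]; ring
    obtain ⟨Q, hQ, hQ'⟩ := H.gorelik hS u (r := σ * t / 2) (by positivity)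
    obtain ⟨U, hU, hU'⟩ := nhds_compact hy0 (hQ.insert (F u0)) (ρ := θ * t) (by positivity)
    obtain ⟨y', hy', h0, hh0, hfar⟩ := exists_far hε hy hU
    have hy1 := hA hy'.2
    obtain ⟨z, hz1, hz2, hz3⟩ := hQ' ((σ * t / 2 / C') • h0) (by
      rw [norm_smul, Real.norm_of_nonneg (by positivity), ← mul_assoc,
        mul_div_cancel₀ _ hC'.ne']
      exact mul_le_of_le_one_right (by positivity) hh0)
    obtain ⟨V, hV, hV1, hV2⟩ := exists_clopen_of_closed_subset_open
      (Z := {x | θ * t ≤ |z x|}) (U := Sᶜ) (isClosed_le continuous_const z.continuous.abs)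
      hS.isClosed.isOpen_compl (fun x hx hx' => by
        have : θ * t ≤ |z x| := hx
        rw [hz1 x hx', abs_zero] at this
        exact absurd this (not_le.2 (by positivity)))
    have hVd : Disjoint V S := Set.disjoint_left.2 fun x hx => hV2 hx
    refine ⟨y', hy'.2, V, hV, hVd, ?_⟩
    have hzx : ∀ x, |z x| ≤ t * (σ * ind V x + θ) := fun x => by
      by_cases hx : x ∈ V
      · rw [ind_mem hV hx]
        have := (z.norm_coe_le_norm x).trans hz2
        rw [Real.norm_eq_abs] at this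
        nlinarith [mul_pos hθ ht]
      · rw [ind_not hx]
        have : ¬ θ * t ≤ |z x| := fun h => hx (hV1 h)
        nlinarith
    have hd' : 0 ≤ d + σ • ind V := add_nonneg hd (smul_nonneg hσ.le (ind_nonneg V))
    have hc0 : (0 : C(K, ℝ)) ≤ ContinuousMap.const K θ := fun _ => hθ.le
    have hadd : ∀ w ∈ ball0 X, aa F w (d + σ • ind V + ContinuousMap.const K θ) ≤
        aa F w (d + σ • ind V) + C * θ := fun w hw => by
      have h1 := H.aa_sub w hd' hc0
      have h2 := (H.aa_bdd hw hc0).2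
      have h3 : ‖ContinuousMap.const K θ‖ ≤ θ :=
        (ContinuousMap.norm_le _ hθ.le).2 fun x => by simp [abs_of_pos hθ]
      have := mul_le_mul_of_nonneg_left h3 hC
      linarith
    have h1 := H.diff_le y (d := d + σ • ind V + ContinuousMap.const K θ) (u := u + z) (v := u1) ht
      fun x => by
        have h2 := hzx x
        have h3 := h01 x
        simp only [ContinuousMap.add_apply, ContinuousMap.smul_apply, smul_eq_mul,
          ContinuousMap.const_apply, hux]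
        rw [abs_le] at h2 h3 ⊢
        constructor <;> nlinarith
    have h2 := H.diff_le y' (d := d + σ • ind V + ContinuousMap.const K θ) (u := u0) (v := u + z) ht
      fun x => by
        have h2 := hzx x
        have h3 := h01 x
        simp only [ContinuousMap.add_apply, ContinuousMap.smul_apply, smul_eq_mul,
          ContinuousMap.const_apply, hux]
        rw [abs_le] at h2 h3 ⊢
        constructor <;> nlinarith
    have h3 := mul_le_mul_of_nonneg_left ((hadd y hy0).trans (add_le_add_left (hM V hV hVd) _)) ht.le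
    have h4 := mul_le_mul_of_nonneg_left (hadd y' hy1) ht.le
    have h5 := hU' y' hy'.1 hy1 _ (mem_insert_of_mem _ hz3)
    have h6 := hU' y' hy'.1 hy1 _ (mem_insert _ _)
    rw [map_sub, map_sub, map_smul, map_smul, smul_eq_mul, smul_eq_mul, abs_le] at h5
    rw [abs_le] at h6
    have h7 := mul_le_mul_of_nonneg_left hfar (show 0 ≤ σ * t / 2 / C' by positivity)
    have e1 : σ * t / 2 / C' * (ε / 3) = t * (ε / (6 * C') * σ) := by field_simp; ring
    have e2 : ε' = (2 * C + 4) * θ := by rw [hθdef]; field_simp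
    refine le_of_mul_le_mul_left ?_ ht
    rw [e2]
    nlinarith

end Pool.Agent.H89.SZ
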