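import Pool.Agent.H89.SZ3

set_option autoImplicit false

namespace Pool.Agent.H89.SZ
open Set Order Topology Filter Ordinal

variable {X : Type*} [NormedAddCommGroup X] [NormedSpace ℝ X]

noncomputable def szE (X : Type*) [NormedAddCommGroup X] [NormedSpace ℝ X] (ε : ℝ) : Ordinal.{0} :=
  sInf {α | iter (sder ε) (ball0 X) α = ∅}

noncomputable def sz (X : Type*) [NormedAddCommGroup X] [NormedSpace ℝ X] : Ordinal.{0} :=
  ⨆ ε : Set.Ioi (0 : ℝ), szE X ε.1

theorem affine_map (z : WeakDual ℝ X) {r ε : ℝ} (hr : 0 < r) (A A' : Set (WeakDual ℝ X))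
    (h : MapsTo (fun u => z + r • u) A A') :
    MapsTo (fun u => z + r • u) (sder ε A) (sder (r * ε) A') := by
  intro x hx
  refine ⟨h hx.1, fun U hU => ?_⟩
  have hc : Continuous fun u : WeakDual ℝ X => z + r • u := by fun_prop
  have h1 := hx.2 _ (hc.continuousAt.preimage_mem_nhds hU)
  by_contra hlt
  push Not at hlt
  have hfin : Metric.ediam (WeakDual.toStrongDual '' (U ∩ A')) ≠ ⊤ := ne_top_of_lt hlt
  set ρ := (Metric.ediam (WeakDual.toStrongDual '' (U ∩ A'))).toReal with hρ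
  have hρ0 : 0 ≤ ρ := ENNReal.toReal_nonneg
  have hρ1 : ρ < r * ε := by
    rw [← ENNReal.ofReal_toReal hfin, ENNReal.ofReal_lt_ofReal_iff_of_nonneg hρ0] at hlt
    exact hlt
  have h2 : Metric.ediam (WeakDual.toStrongDual '' ((fun u => z + r • u) ⁻¹' U ∩ A)) ≤
      ENNReal.ofReal (ρ / r) := by
    apply Metric.ediam_le
    rintro _ ⟨p, hp, rfl⟩ _ ⟨q, hq, rfl⟩
    have h3 := Metric.edist_le_ediam_of_mem (s := WeakDual.toStrongDual '' (U ∩ A'))
      ⟨_, ⟨hp.1, h hp.2⟩, rfl⟩ ⟨_, ⟨hq.1, h hq.2⟩, rfl⟩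
    rw [← ENNReal.ofReal_toReal hfin, edist_dist, ENNReal.ofReal_le_ofReal_iff hρ0, map_add,
      map_add, map_smul, map_smul, dist_add_left, dist_eq_norm] at h3
    have h3' : ‖r • (WeakDual.toStrongDual p - WeakDual.toStrongDual q)‖ ≤ ρ := by
      rw [_root_.smul_sub]; exact h3
    rw [norm_smul, Real.norm_of_nonneg hr.le] at h3'
    rw [edist_dist, dist_eq_norm]
    apply ENNReal.ofReal_le_ofReal
    rwa [le_div_iff₀' hr]
  have h4 := h1.trans h2
  rw [ENNReal.ofReal_le_ofReal_iff (by positivity), le_div_iff₀' hr] at h4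
  linarith

theorem zero_mem {ε : ℝ} {β : Ordinal.{0}} (h : (iter (sder ε) (ball0 X) β).Nonempty) :
    (0 : WeakDual ℝ X) ∈ iter (sder (1 / 2 * ε)) (ball0 X) β := by
  obtain ⟨x, hx⟩ := h
  have hx0 : ‖WeakDual.toStrongDual x‖ ≤ 1 := iter_sub (sder_sub ε) _ _ hx
  have := iter_map (D := sder ε) (D' := sder (1 / 2 * ε))
    (fun u => (-((1 / 2 : ℝ) • x)) + (1 / 2 : ℝ) • u) (affine_map _ (by norm_num))
    (A := ball0 X) (A' := ball0 X) (fun u hu => by
      have hu0 : ‖WeakDual.toStrongDual u‖ ≤ 1 := hu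
      show ‖WeakDual.toStrongDual _‖ ≤ 1
      rw [map_add, map_neg, map_smul, map_smul]
      refine (norm_add_le _ _).trans ?_
      rw [norm_neg, norm_smul, norm_smul]
      norm_num
      linarith) β hx
  simpa using this

theorem amplify {ε : ℝ} {β : Ordinal.{0}} (h : (0 : WeakDual ℝ X) ∈ iter (sder ε) (ball0 X) β)
    {r : ℝ} (hr : 0 < r) (j : ℕ) : ∀ z : WeakDual ℝ X, ‖WeakDual.toStrongDual z‖ ≤ 1 - j * r →
      z ∈ iter (sder (r * ε)) (ball0 X) (β * j) := by
  induction j with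
  | zero => intro z hz; rw [Nat.cast_zero, mul_zero, iter_zero]; simpa [ball0] using hz
  | succ j ih =>
    intro z hz
    rw [Nat.cast_add_one, mul_add_one, iter_add (sder_sub _)]
    have := iter_map (D := sder ε) (D' := sder (r * ε)) (fun u => z + r • u) (affine_map _ hr)
      (A := ball0 X) (A' := iter (sder (r * ε)) (ball0 X) (β * j)) (fun u hu => by
        have hu0 : ‖WeakDual.toStrongDual u‖ ≤ 1 := hu
        apply ih
        rw [map_add, map_smul]
        refine (norm_add_le _ _).trans ?_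
        rw [norm_smul, Real.norm_of_nonneg hr.le]
        push_cast at hz
        nlinarith) β h
    simpa using this

variable {K : Type*} [TopologicalSpace K] [CompactSpace K] [T2Space K]

noncomputable def dirac (x : K) : WeakDual ℝ C(K, ℝ) :=
  StrongDual.toWeakDual (ContinuousMap.evalCLM ℝ x)

omit [T2Space K] in
theorem dirac_apply (x : K) (f : C(K, ℝ)) : dirac x f = f x := rfl

theorem dirac_mem {β : Ordinal.{0}} {x : K} (hx : x ∈ iter cb (univ : Set K) β) :
    dirac x ∈ iter (sder 1) (ball0 C(K, ℝ)) β := by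
  have hc : Continuous (dirac (K := K)) :=
    WeakDual.continuous_of_continuous_eval fun f => f.continuous
  refine iter_map (D := cb) (D' := sder 1) dirac ?_ (A := univ) ?_ β hx
  · intro A A' h x hx
    refine ⟨h hx.1, fun U hU => ?_⟩
    have h2 := hx.2
    rw [mem_derivedSet, accPt_iff_nhds] at h2
    obtain ⟨x', ⟨h3, h4⟩, h5⟩ := h2 _ (hc.continuousAt.preimage_mem_nhds hU)
    refine le_trans ?_ (Metric.edist_le_ediam_of_mem (s := WeakDual.toStrongDual '' (U ∩ A'))
      ⟨_, ⟨h3, h h4⟩, rfl⟩ ⟨_, ⟨mem_of_mem_nhds hU, h hx.1⟩, rfl⟩)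
    rw [edist_dist, dist_eq_norm]
    apply ENNReal.ofReal_le_ofReal
    obtain ⟨f, h0, h1, h6⟩ := exists_continuous_zero_one_of_isClosed
      (isClosed_singleton (x := x)) (isClosed_singleton (x := x')) (by simpa using h5.symm)
    have h7 : ‖f‖ ≤ 1 := (ContinuousMap.norm_le _ zero_le_one).2 fun z => by
      rw [Real.norm_of_nonneg (h6 z).1]; exact (h6 z).2
    have h8 := (WeakDual.toStrongDual (dirac x') - WeakDual.toStrongDual (dirac x)).le_opNorm f
    have h9 : (WeakDual.toStrongDual (dirac x') - WeakDual.toStrongDual (dirac x)) f = 1 := by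
      show f x' - f x = 1
      rw [h0 rfl, h1 rfl]; simp
    rw [h9, norm_one] at h8
    exact h8.trans (mul_le_of_le_one_right (norm_nonneg _) h7)
  · intro x _
    exact ContinuousLinearMap.opNorm_le_bound _ zero_le_one fun f => by
      rw [one_mul]; exact f.norm_coe_le_norm x

variable {F : C(K, ℝ) → X} {G : X → C(K, ℝ)} {C C' : ℝ}

theorem BL.upper [TotallyDisconnectedSpace K] (H : BL F G C C') {α : Ordinal.{0}} {k : ℕ}
    (hk : iter cb (univ : Set K) (ω ^ α * k) = ∅) {ε : ℝ} (hε : 0 < ε) :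
    ∃ n : ℕ, iter (sder ε) (ball0 X) (ω ^ α * n) = ∅ := by
  have := H.hC'
  refine (H.sys hε).main α univ isClosed_univ k hk 0 le_rfl 1 0 one_pos (by positivity) _
    subset_rfl fun y _ V _ hV => ?_
  have h0 : ind V = 0 := by
    ext x; exact ind_not fun hx => Set.disjoint_left.1 hV hx (mem_univ x)
  simp [h0]

theorem BL.finite [TotallyDisconnectedSpace K] [Finite K] (H : BL F G C C') {ε : ℝ} (hε : 0 < ε) :
    sder ε (ball0 X) = ∅ := by
  have := H.hC'
  rw [eq_empty_iff_forall_notMem]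
  intro y hy
  have h0 : ∀ V : Set K, Disjoint V univ → (0 : C(K, ℝ)) + (1 : ℝ) • ind V = 0 := fun V hV => by
    ext x
    simp [ind_not fun hx => Set.disjoint_left.1 hV hx (mem_univ x)]
  have h1 : ∀ y ∈ ball0 X, aa F y 0 = 0 := fun y hy => by
    have := H.aa_bdd hy (d := 0) le_rfl
    simp only [norm_zero, mul_zero] at this
    linarith [this.1, this.2]
  obtain ⟨y', hy', V, -, hV, h⟩ := (H.sys hε).gor _ subset_rfl y hy 0 le_rfl univ finite_univ 1
    (ε / (12 * C')) 0 one_pos (by positivity) (fun V _ hV => by rw [h0 V hV, h1 y hy.1])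
  rw [h0 V hV, h1 y hy.1, h1 y' hy'] at h
  have e : ε / (6 * C') = 2 * (ε / (12 * C')) := by field_simp; ring
  have : 0 < ε / (12 * C') := by positivity
  linarith

omit [T2Space K] in
theorem BL.refl : BL (K := K) id id 1 1 :=
  ⟨zero_le_one, one_pos, by simp, by simp, fun _ => rfl, fun _ => rfl⟩

theorem exists_rank [Countable K] :
    ∃ α : Ordinal.{0}, ∃ k : ℕ, iter cb (univ : Set K) (ω ^ α * k) = ∅ := by
  obtain ⟨b, hb⟩ := exists_iter_empty (Y := K)
  refine ⟨b, 1, eq_empty_of_subset_empty (hb ▸ iter_anti cb_sub _ ?_)⟩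
  simpa using right_le_opow b one_lt_omega0

theorem BL.exists_empty [Countable K] (H : BL F G C C') {ε : ℝ} (hε : 0 < ε) :
    ∃ α, iter (sder ε) (ball0 X) α = ∅ := by
  have := totDisc (Y := K)
  obtain ⟨α, k, hk⟩ := exists_rank (K := K)
  obtain ⟨n, hn⟩ := H.upper hk hε
  exact ⟨_, hn⟩

theorem le_sz [Countable K] {β : Ordinal.{0}} {ε : ℝ} (hε : 0 < ε)
    (h : (iter (sder ε) (ball0 C(K, ℝ)) β).Nonempty) : β < sz C(K, ℝ) := by
  refine lt_of_lt_of_le ?_ (Ordinal.le_iSup (fun ε : Set.Ioi (0 : ℝ) => szE C(K, ℝ) ε.1) ⟨ε, hε⟩)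
  have h1 := csInf_mem (s := {α | iter (sder ε) (ball0 C(K, ℝ)) α = ∅})
    ((BL.refl (K := K)).exists_empty hε)
  by_contra hc
  push Not at hc
  obtain ⟨x, hx⟩ := h
  have := iter_anti (sder_sub ε) _ hc hx
  rw [show iter (sder ε) (ball0 C(K, ℝ)) (szE C(K, ℝ) ε) = ∅ from h1] at this
  exact this

theorem BL.sz_le [Countable K] (H : BL F G C C') : sz X ≤ sz C(K, ℝ) := by
  have := totDisc (Y := K)
  refine Ordinal.iSup_le fun ε => ?_
  obtain ⟨ε, hε⟩ := ε
  have hε : 0 < ε := hε
  rcases finite_or_infinite K with hK | hK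
  · have h1 : szE X ε ≤ 0 + 1 := csInf_le' (by
      show iter _ _ _ = ∅
      rw [iter_succ, iter_zero]; exact H.finite hε)
    refine h1.trans (Order.add_one_le_of_lt (le_sz one_pos ?_))
    rw [iter_zero]
    exact ⟨0, by simp [ball0]⟩
  · obtain ⟨α, ⟨k, hk⟩, hmin⟩ := WellFounded.has_min (wellFounded_lt (α := Ordinal.{0}))
      {α | ∃ k : ℕ, iter cb (univ : Set K) (ω ^ α * k) = ∅} exists_rank
    have hne : (iter cb (univ : Set K) (ω ^ α)).Nonempty := by
      rw [nonempty_iff_ne_empty]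
      intro he
      by_cases hα : α = 0
      · subst hα
        have e1 : (ω : Ordinal.{0}) ^ (0 : Ordinal.{0}) = 0 + 1 := by simp
        rw [e1, iter_succ, iter_zero] at he
        exact Set.infinite_univ (finite_of_cb (T := (univ : Set K)) isCompact_univ subset_rfl
          (by rw [he]; simp))
      · obtain ⟨c, hc, hc'⟩ := compact_limit (A := (univ : Set K)) isClosed_univ isCompact_univ
          (isSuccLimit_opow_left isSuccLimit_omega0 hα) (by rw [he]; simp)
        obtain ⟨α', hα', k', hk'⟩ := (lt_omega0_opow hα).1 hc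
        refine hmin α' ⟨k', eq_empty_iff_forall_notMem.2 fun x hx => ?_⟩ hα'
        exact Set.disjoint_left.1 hc' (mem_univ x) (iter_anti cb_sub _ hk'.le hx)
    obtain ⟨n, hn⟩ := H.upper hk hε
    obtain ⟨x, hx⟩ := hne
    have h1 := zero_mem ⟨_, dirac_mem hx⟩
    have hr : (0 : ℝ) < 1 / (n + 1) := by positivity
    have h2 := amplify h1 hr n 0 (by
      rw [map_zero, norm_zero, sub_nonneg, mul_one_div, div_le_one (by positivity)]; linarith)
    exact (csInf_le' (show ω ^ α * n ∈ {α | iter (sder ε) (ball0 X) α = ∅} from hn)).trans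
      (le_sz (by positivity) ⟨_, h2⟩).le

theorem exists_BL (F : C(K, ℝ) → X) (hb : Function.Bijective F) {c c' : NNReal}
    (h1 : LipschitzWith c F) (h2 : AntilipschitzWith c' F) : ∃ G C C', BL F G C C' := by
  let e := Equiv.ofBijective F hb
  refine ⟨e.symm, c, c' + 1, c.2, by positivity, fun u v => ?_, fun u v => ?_,
    fun u => e.symm_apply_apply u, fun v => e.apply_symm_apply v⟩
  · simpa [dist_eq_norm] using h1.dist_le_mul u v
  · have := h2.le_mul_dist (e.symm u) (e.symm v)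
    rw [show F (e.symm u) = u from e.apply_symm_apply u,
      show F (e.symm v) = v from e.apply_symm_apply v, dist_eq_norm, dist_eq_norm] at this
    nlinarith [norm_nonneg (u - v)]

theorem BL.symm {L : Type*} [TopologicalSpace L] [CompactSpace L] {F : C(K, ℝ) → C(L, ℝ)}
    {G : C(L, ℝ) → C(K, ℝ)} (H : BL F G C C') : BL G F C' (C + 1) :=
  ⟨H.hC'.le, by linarith [H.hC], H.lG, fun u v => (H.lF u v).trans (by
    nlinarith [norm_nonneg (u - v)]), H.FG, H.GF⟩

end Pool.Agent.H89.SZ
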