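import Pool.Agent.H89.SZ2

set_option autoImplicit false

namespace Pool.Agent.H89.SZ
open Set Order Topology Filter

theorem iter_derived {Y : Type*} [TopologicalSpace Y] [T1Space Y] (a : Ordinal.{0}) :
    iter derivedSet (univ : Set Y) a = iter cb univ a := by
  induction a using Ordinal.limitRecOn with
  | zero => rw [iter_zero, iter_zero]
  | add_one b ih =>
    rw [iter_succ, iter_succ, ih, cb, inter_eq_right.2]
    exact isClosed_iff_derivedSet_subset _ |>.1 (iter_cb_closed isClosed_univ b)
  | limit b hb ih =>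
    ext x
    rw [iter_limit _ hb, iter_limit _ hb]
    exact forall₂_congr fun c hc => by rw [ih c hc]

variable {K L : Type*} [TopologicalSpace K] [CompactSpace K] [T2Space K]
  [TotallyDisconnectedSpace K] [TopologicalSpace L] [CompactSpace L] [T2Space L]

omit [CompactSpace K] [T2Space K] [TotallyDisconnectedSpace K] in
theorem ind_split {W W1 : Set K} (hW : IsClopen W) (h1 : IsClopen W1) (h : W1 ⊆ W) :
    ind W1 + ind (W \ W1) = ind W := by
  ext x
  rw [ContinuousMap.add_apply]
  by_cases hx : x ∈ W1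
  · rw [ind_mem h1 hx, ind_mem hW (h hx), ind_not (fun h' => h'.2 hx), add_zero]
  · by_cases hx' : x ∈ W
    · rw [ind_not hx, ind_mem hW hx', ind_mem (hW.diff h1) ⟨hx', hx⟩, zero_add]
    · rw [ind_not hx, ind_not hx', ind_not (fun h' => hx' h'.1), add_zero]

theorem split_inf {W A : Set K} (hW : IsClopen W) (h : (W ∩ A).Infinite) :
    ∃ W1, IsClopen W1 ∧ W1 ⊆ W ∧ (W1 ∩ A).Nonempty ∧ ((W \ W1) ∩ A).Infinite := by
  obtain ⟨p, hp, q, hq, hpq⟩ := h.nontrivial
  obtain ⟨Z, hZ, hZ1, hZ2⟩ := exists_clopen_of_closed_subset_open (Z := {p}) (U := {q}ᶜ)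
    isClosed_singleton isOpen_compl_singleton (by simpa using hpq.symm)
  by_cases hf : ((W \ (W ∩ Z)) ∩ A).Infinite
  · exact ⟨W ∩ Z, hW.inter hZ, inter_subset_left, ⟨p, ⟨hp.1, hZ1 rfl⟩, hp.2⟩, hf⟩
  · refine ⟨W \ Z, hW.diff hZ, fun _ h => h.1, ⟨q, ⟨hq.1, fun h => hZ2 h rfl⟩, hq.2⟩, fun hf' => ?_⟩
    refine h (((not_infinite.1 hf).union hf').subset fun x hx => ?_)
    by_cases hx' : x ∈ Z
    · exact Or.inr ⟨⟨hx.1, fun h => h.2 hx'⟩, hx.2⟩
    · exact Or.inl ⟨⟨hx.1, fun h => hx' h.2⟩, hx.2⟩

theorem height_le (F : C(K, ℝ) → C(L, ℝ)) (hm : Monotone F) {c : ℝ} (hc : 0 < c)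
    (hl : ∀ u v, c * ‖u - v‖ ≤ ‖F u - F v‖) (β : Ordinal.{0}) :
    ∀ g W, IsClopen W → iter cb {y | c ≤ F (g + ind W) y - F g y} β = ∅ →
      Disjoint W (iter cb (univ : Set K) β) := by
  have hnn : ∀ g W y, 0 ≤ F (g + ind W) y - F g y := fun g W y =>
    sub_nonneg.2 (ContinuousMap.le_def.1 (hm (le_add_of_nonneg_right (ind_nonneg W))) y)
  have hcl : ∀ g W, IsClosed {y | c ≤ F (g + ind W) y - F g y} := fun g W =>
    isClosed_le continuous_const (by fun_prop)
  induction β using Ordinal.limitRecOn with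
  | zero =>
    intro g W hW h
    rw [iter_zero] at h ⊢
    refine Set.disjoint_left.2 fun x hx _ => ?_
    have h1 : 1 ≤ ‖ind W‖ := by
      have := (ind W).norm_coe_le_norm x
      rwa [ind_mem hW hx, norm_one] at this
    have h2 := hl (g + ind W) g
    rw [add_sub_cancel_left] at h2
    have h3 : ‖F (g + ind W) - F g‖ < c := (ContinuousMap.norm_lt_iff _ hc).2 fun y => by
      rw [ContinuousMap.sub_apply, Real.norm_of_nonneg (hnn g W y)]
      by_contra h4
      exact (h ▸ (not_lt.1 h4 : y ∈ {y | c ≤ F (g + ind W) y - F g y}) : y ∈ (∅ : Set L))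
    nlinarith
  | limit b hb ih =>
    intro g W hW h
    obtain ⟨e, he, he'⟩ := compact_limit (hcl g W) (hcl g W).isCompact hb (by rw [h]; simp)
    exact (ih e he g W hW (eq_empty_iff_forall_notMem.2 fun y hy =>
      Set.disjoint_left.1 he' (iter_sub cb_sub _ _ hy) hy)).mono_right (iter_anti cb_sub _ he.le)
  | add_one b ih =>
    intro g W hW h
    rw [iter_succ] at h ⊢
    have hfin := finite_of_cb (iter_cb_closed (hcl g W) b).isCompact subset_rfl (by rw [h]; simp)
    have key : ∀ n : ℕ, ∀ g' W', IsClopen W' →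
        iter cb {y | c ≤ F (g' + ind W') y - F g' y} b ⊆ hfin.toFinset →
        ∑ y ∈ hfin.toFinset, (F (g' + ind W') y - F g' y) < n * c →
        (W' ∩ iter cb (univ : Set K) b).Finite := by
      intro n
      induction n with
      | zero =>
        intro g' W' _ _ hs
        have := Finset.sum_nonneg (s := hfin.toFinset) fun y _ => hnn g' W' y
        simp only [Nat.cast_zero, zero_mul] at hs
        linarith
      | succ n ihn =>
        intro g' W' hW' hsub hs
        by_contra hinf
        obtain ⟨W1, h1, h2, h3, h4⟩ := split_inf hW' hinf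
        have e := ind_split hW' h1 h2
        have e' : g' + ind W1 + ind (W' \ W1) = g' + ind W' := by rw [add_assoc, e]
        have hne : (iter cb {y | c ≤ F (g' + ind W1) y - F g' y} b).Nonempty := by
          rw [nonempty_iff_ne_empty]
          intro h5
          obtain ⟨x, hx⟩ := h3
          exact Set.disjoint_left.1 (ih g' W1 h1 h5) hx.1 hx.2
        obtain ⟨y0, hy0⟩ := hne
        have h6' := iter_sub cb_sub _ _ hy0
        have h6 : c ≤ F (g' + ind W1) y0 - F g' y0 := h6'
        have h7 : y0 ∈ hfin.toFinset := hsub (iter_mono cb_mono (fun y hy => by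
          have h8 := hnn (g' + ind W1) (W' \ W1) y
          rw [e'] at h8
          have h9 : c ≤ F (g' + ind W1) y - F g' y := hy
          show c ≤ F (g' + ind W') y - F g' y
          linarith) b hy0)
        refine h4 (ihn (g' + ind W1) (W' \ W1) (hW'.diff h1)
          ((iter_mono cb_mono (fun y hy => ?_) b).trans hsub) ?_)
        · have h9 : c ≤ F (g' + ind W1 + ind (W' \ W1)) y - F (g' + ind W1) y := hy
          rw [e'] at h9
          show c ≤ F (g' + ind W') y - F g' y
          linarith [hnn g' W1 y]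
        · rw [e']
          have h8 := Finset.single_le_sum (f := fun y => F (g' + ind W1) y - F g' y)
            (fun y _ => hnn g' W1 y) h7
          simp only [Finset.sum_sub_distrib] at hs h8 ⊢
          push_cast at hs
          linarith
    obtain ⟨n, hn⟩ := exists_nat_gt ((∑ y ∈ hfin.toFinset, (F (g + ind W) y - F g y)) / c)
    have hf := key n g W hW (by simp) (by rwa [div_lt_iff₀ hc] at hn)
    refine Set.disjoint_left.2 fun x hx hx' => ?_
    have h1 := AccPt.nhds_inter hx'.2 (hW.isOpen.mem_nhds hx)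
    exact (Set.Infinite.of_accPt h1) hf

theorem height_le' (F : C(K, ℝ) → C(L, ℝ)) (hm : Monotone F) {c : ℝ} (hc : 0 < c)
    (hl : ∀ u v, c * ‖u - v‖ ≤ ‖F u - F v‖) (β : Ordinal.{0})
    (h : iter cb (univ : Set L) β = ∅) : iter cb (univ : Set K) β = ∅ := by
  have := height_le F hm hc hl β 0 univ isClopen_univ
    (eq_empty_of_subset_empty (h ▸ iter_mono cb_mono (subset_univ _) β))
  simpa using this

end Pool.Agent.H89.SZ
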