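import Pool.Agent.H89.SZ5

set_option autoImplicit false

namespace Pool.Agent.H89.SZ
open Set Order Topology Filter OnePoint

abbrev II := ℕ ⊕ ℕ × ℕ
abbrev KK := OnePoint II
abbrev LL := OnePoint (ℕ × OnePoint ℕ)

instance : Countable (OnePoint ℕ) := inferInstanceAs (Countable (Option ℕ))
instance : Countable KK := inferInstanceAs (Countable (Option II))
instance : Countable LL := inferInstanceAs (Countable (Option (ℕ × OnePoint ℕ)))

def pr : II → ℕ := Sum.elim id Prod.fst

theorem fst_tendsto : Tendsto Prod.fst (coclosedCompact (ℕ × OnePoint ℕ)) cofinite := by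
  intro s hs
  rw [Filter.coclosedCompact_eq_cocompact, mem_map, mem_cocompact]
  refine ⟨sᶜ ×ˢ univ, (mem_cofinite.1 hs).isCompact.prod isCompact_univ, fun x hx => ?_⟩
  by_contra h
  exact hx ⟨h, mem_univ _⟩

theorem coe_tendsto {Z : Type*} [TopologicalSpace Z] [DiscreteTopology Z] :
    Tendsto ((↑) : Z → OnePoint Z) cofinite (𝓝 ∞) := by
  have := OnePoint.tendsto_coe_infty (X := Z)
  rwa [Filter.coclosedCompact_eq_cocompact, cocompact_eq_cofinite] at this

theorem tendsto_of_pr (φ : ℕ × OnePoint ℕ → KK) (h : ∀ x (i : II), φ x = i → pr i = x.1) :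
    Tendsto φ (coclosedCompact _) (𝓝 ∞) := by
  intro U hU
  have h1 : ((↑) ⁻¹' U : Set II)ᶜ.Finite := mem_cofinite.1 (coe_tendsto hU)
  have h2 := fst_tendsto (h1.image pr).compl_mem_cofinite
  rw [mem_map] at h2 ⊢
  filter_upwards [h2] with x hx
  show φ x ∈ U
  induction hφ : φ x using OnePoint.rec with
  | infty => exact mem_of_mem_nhds hU
  | coe i =>
    by_contra h3
    exact hx ⟨i, h3, h x i hφ⟩

def al : LL → KK := fun y => y.elim ∞ fun x => ((Sum.inl x.1 : II) : KK)
def be : LL → KK := fun y => y.elim ∞ fun x => x.2.elim ∞ fun m => ((Sum.inr (x.1, m) : II) : KK)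

theorem al_cont : Continuous al := by
  rw [OnePoint.continuous_iff]
  refine ⟨tendsto_of_pr _ fun x i h => ?_, ?_⟩
  · have : (Sum.inl x.1 : II) = i := OnePoint.coe_injective h
    subst this; rfl
  · exact (continuous_of_discreteTopology (f := fun n : ℕ => ((Sum.inl n : II) : KK))).comp
      continuous_fst

theorem be_cont : Continuous be := by
  rw [OnePoint.continuous_iff]
  refine ⟨tendsto_of_pr _ fun x i h => ?_, ?_⟩
  · obtain ⟨n, m⟩ := x
    induction m using OnePoint.rec with
    | infty => exact absurd h (OnePoint.infty_ne_coe _)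
    | coe m =>
      have : (Sum.inr (n, m) : II) = i := OnePoint.coe_injective h
      subst this; rfl
  · rw [continuous_prod_of_discrete_left]
    intro n
    rw [OnePoint.continuous_iff_from_discrete]
    exact coe_tendsto.comp (Function.Injective.tendsto_cofinite
      (f := fun m : ℕ => (Sum.inr (n, m) : II)) fun a b h => by simpa using h)

def ga : KK → LL := fun x => x.elim ∞ fun i =>
  Sum.elim (fun n => (((n, ∞) : ℕ × OnePoint ℕ) : LL)) (fun p => ((p.1, (p.2 : OnePoint ℕ)) : ℕ × OnePoint ℕ)) i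
def de : KK → LL := fun x => x.elim ∞ fun i =>
  Sum.elim (fun _ => (∞ : LL)) (fun p => ((p.1, ∞) : ℕ × OnePoint ℕ)) i

theorem inv_cont (g : C(LL, ℝ)) : Continuous fun x : KK => g (ga x) - g (de x) + g ∞ / 2 := by
  refine Continuous.add ?_ continuous_const
  rw [OnePoint.continuous_iff_from_discrete]
  show Tendsto _ _ (𝓝 (g ∞ - g ∞))
  rw [sub_self, Metric.tendsto_nhds]
  intro ε hε
  have h1 : ∀ᶠ x : ℕ × OnePoint ℕ in coclosedCompact _, dist (g x) (g ∞) < ε / 2 :=
    Metric.tendsto_nhds.1 ((g.continuous.tendsto ∞).comp OnePoint.tendsto_coe_infty) _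
      (half_pos hε)
  rw [Filter.coclosedCompact_eq_cocompact, Filter.Eventually, mem_cocompact] at h1
  obtain ⟨T, hT, hT'⟩ := h1
  have hfin : (Prod.fst '' T).Finite := (hT.image continuous_fst).finite_of_discrete
  have h2 : ∀ n : ℕ, {m : ℕ | ¬ dist (g ((n, (m : OnePoint ℕ)) : ℕ × OnePoint ℕ))
      (g ((n, ∞) : ℕ × OnePoint ℕ)) < ε}.Finite := fun n => by
    have hc : Continuous fun m : OnePoint ℕ => g ((n, m) : ℕ × OnePoint ℕ) :=
      g.continuous.comp (OnePoint.continuous_coe.comp (by fun_prop))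
    exact Metric.tendsto_nhds.1 ((hc.tendsto ∞).comp coe_tendsto) ε hε
  rw [eventually_cofinite]
  refine ((hfin.image Sum.inl).union (hfin.biUnion fun n _ =>
    (h2 n).image fun m => (Sum.inr (n, m) : II))).subset ?_
  have h3 : ∀ n ∉ Prod.fst '' T, ∀ m, |g ((n, m) : ℕ × OnePoint ℕ) - g ∞| < ε / 2 :=
    fun n hn m => hT' fun h => hn ⟨_, h, rfl⟩
  rintro (n | ⟨n, m⟩) hi
  · left
    refine ⟨n, ?_, rfl⟩
    by_contra hn
    apply hi
    have := h3 n hn ∞
    rw [Real.dist_eq, sub_zero]
    exact this.trans (half_lt_self hε)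
  · right
    have hi' : ¬ dist (g ((n, (m : OnePoint ℕ)) : ℕ × OnePoint ℕ))
      (g ((n, ∞) : ℕ × OnePoint ℕ)) < ε := by
      intro h; apply hi
      rw [Real.dist_eq, sub_zero]; exact h
    refine mem_biUnion (x := n) ?_ ⟨m, hi', rfl⟩
    by_contra hn
    apply hi'
    have h4 := h3 n hn ∞
    have h5 := h3 n hn m
    rw [Real.dist_eq]
    rw [abs_lt] at h4 h5 ⊢
    constructor <;> linarith

noncomputable def exF : C(KK, ℝ) ≃ C(LL, ℝ) where
  toFun f := f.comp ⟨al, al_cont⟩ + f.comp ⟨be, be_cont⟩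
  invFun g := ⟨_, inv_cont g⟩
  left_inv f := by
    ext x
    induction x using OnePoint.rec with
    | infty => simp [ga, de, al, be]
    | coe i => rcases i with n | ⟨n, m⟩ <;> simp [ga, de, al, be]
  right_inv g := by
    ext y
    induction y using OnePoint.rec with
    | infty => simp [ga, de, al, be]
    | coe x =>
      obtain ⟨n, m⟩ := x
      induction m using OnePoint.rec with
      | infty => simp [ga, de, al, be]; ring
      | coe m => simp [ga, de, al, be]; ring

theorem exF_mono : Monotone exF := fun f g h => ContinuousMap.le_def.2 fun y =>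
  add_le_add (ContinuousMap.le_def.1 h (al y)) (ContinuousMap.le_def.1 h (be y))

theorem exF_lip : LipschitzWith 2 exF := LipschitzWith.of_dist_le_mul fun f g => by
  refine (ContinuousMap.dist_le (by positivity)).2 fun y => ?_
  have h1 := ContinuousMap.dist_apply_le_dist (f := f) (g := g) (al y)
  have h2 := ContinuousMap.dist_apply_le_dist (f := f) (g := g) (be y)
  show dist (f (al y) + f (be y)) (g (al y) + g (be y)) ≤ _
  refine (dist_add_add_le _ _ _ _).trans ?_
  push_cast; linarith

theorem exF_lip' : LipschitzWith 3 exF.symm := LipschitzWith.of_dist_le_mul fun f g => by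
  refine (ContinuousMap.dist_le (by positivity)).2 fun y => ?_
  have h1 := ContinuousMap.dist_apply_le_dist (f := f) (g := g) (ga y)
  have h2 := ContinuousMap.dist_apply_le_dist (f := f) (g := g) (de y)
  have h3 := ContinuousMap.dist_apply_le_dist (f := f) (g := g) ∞
  show dist (f (ga y) - f (de y) + f ∞ / 2) (g (ga y) - g (de y) + g ∞ / 2) ≤ _
  have h4 := dist_nonneg (x := f) (y := g)
  rw [Real.dist_eq, abs_le] at h1 h2 h3 ⊢
  push_cast
  constructor <;> linarith

theorem KK_two : iter cb (univ : Set KK) (0 + 1 + 1) = ∅ := by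
  rw [iter_succ, iter_succ, iter_zero]
  have h1 : cb (univ : Set KK) ⊆ {∞} := by
    intro x hx
    induction x using OnePoint.rec with
    | infty => rfl
    | coe i =>
      exfalso
      have h2 : IsOpen ((↑) '' {i} : Set KK) := OnePoint.isOpen_image_coe.2 (isOpen_discrete _)
      have h3 := AccPt.nhds_inter hx.2 (h2.mem_nhds ⟨i, rfl, rfl⟩)
      exact Set.Infinite.of_accPt h3 (((finite_singleton i).image _).subset inter_subset_left)
  exact eq_empty_iff_forall_notMem.2 fun x hx =>
    Set.Infinite.of_accPt hx.2 ((finite_singleton _).subset h1)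

theorem LL_two : (∞ : LL) ∈ iter cb (univ : Set LL) (0 + 1 + 1) := by
  rw [iter_succ, iter_succ, iter_zero]
  have h1 : ∀ n : ℕ, (((n, ∞) : ℕ × OnePoint ℕ) : LL) ∈ cb (univ : Set LL) := fun n => by
    refine ⟨mem_univ _, ?_⟩
    rw [mem_derivedSet, accPt_iff_nhds]
    intro U hU
    have hc : Continuous fun m : OnePoint ℕ => (((n, m) : ℕ × OnePoint ℕ) : LL) :=
      OnePoint.continuous_coe.comp (by fun_prop)
    obtain ⟨m, hm⟩ := (((hc.tendsto ∞).comp coe_tendsto).eventually hU).exists
    exact ⟨_, ⟨hm, mem_univ _⟩, by simp⟩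
  have h2 : AccPt (∞ : LL) (𝓟 (cb univ)) := by
    rw [accPt_iff_nhds]
    intro U hU
    have h3 := OnePoint.tendsto_coe_infty hU
    rw [Filter.coclosedCompact_eq_cocompact, mem_map, mem_cocompact] at h3
    obtain ⟨T, hT, hT'⟩ := h3
    obtain ⟨n, hn⟩ := ((hT.image continuous_fst).finite_of_discrete).exists_notMem
    exact ⟨_, ⟨hT' (a := (n, ∞)) fun h => hn ⟨_, h, rfl⟩, h1 n⟩, by simp⟩
  exact ⟨⟨mem_univ _, h2.mono (by simp)⟩, h2⟩

end Pool.Agent.H89.SZ
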