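import Mathlib

set_option autoImplicit false

namespace Pool.Agent.H89.Spike

open MeasureTheory Filter Topology Set Metric Real

abbrev E := EuclideanSpace ℝ (Fin 2)

noncomputable def G (t : ℝ) : ℝ := if t ≤ 0 then t else arctan t
noncomputable def g (t : ℝ) : ℝ := 1 / (1 + (max t 0) ^ 2)
noncomputable def g1 (t : ℝ) : ℝ := -(2 * max t 0) / (1 + (max t 0) ^ 2) ^ 2

lemma glue (f f1 f2 : ℝ → ℝ) (d1 d2 : ℝ → ℝ) (h1 : ∀ t, HasDerivAt f1 (d1 t) t)
    (h2 : ∀ t, HasDerivAt f2 (d2 t) t) (e1 : ∀ t, t ≤ 0 → f t = f1 t) (e2 : ∀ t, 0 ≤ t → f t = f2 t)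
    (e0 : d1 0 = d2 0) (t : ℝ) : HasDerivAt f (if t ≤ 0 then d1 t else d2 t) t := by
  rcases lt_trichotomy t 0 with h | h | h
  · rw [if_pos h.le]
    exact (h1 t).congr_of_eventuallyEq ((Iio_mem_nhds h : Iio 0 ∈ 𝓝 t) |> fun k =>
      mem_of_superset k fun s hs => e1 s (le_of_lt hs))
  · subst h
    rw [if_pos le_rfl]
    have a1 : HasDerivWithinAt f (d1 0) (Iic 0) 0 :=
      (h1 0).hasDerivWithinAt.congr (fun s hs => e1 s hs) (e1 0 le_rfl)
    have a2 : HasDerivWithinAt f (d1 0) (Ici 0) 0 :=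
      e0 ▸ (h2 0).hasDerivWithinAt.congr (fun s hs => e2 s hs) (e2 0 le_rfl)
    have := a1.union a2
    rwa [Iic_union_Ici, hasDerivWithinAt_univ] at this
  · rw [if_neg h.not_ge]
    exact (h2 t).congr_of_eventuallyEq ((Ioi_mem_nhds h : Ioi 0 ∈ 𝓝 t) |> fun k =>
      mem_of_superset k fun s hs => e2 s (le_of_lt hs))

lemma dG (t : ℝ) : HasDerivAt G (g t) t := by
  have := glue G id arctan (fun _ => 1) (fun t => 1 / (1 + t ^ 2)) (fun t => hasDerivAt_id t)
    hasDerivAt_arctan (fun t ht => by simp [G, ht])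
    (fun t ht => by
      rcases ht.eq_or_lt with h | h
      · simp [G, ← h]
      · simp [G, h.not_ge]) (by simp) t
  convert this using 1
  unfold g
  split_ifs with h
  · simp [max_eq_right h]
  · rw [max_eq_left (le_of_not_ge h)]

lemma dg (t : ℝ) : HasDerivAt g (g1 t) t := by
  have h0 := glue (fun t => (max t 0) ^ 2) (fun _ => 0) (fun t => t ^ 2) (fun _ => 0)
    (fun t => 2 * t) (fun t => hasDerivAt_const t 0) (fun t => by simpa using hasDerivAt_pow 2 t)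
    (fun t ht => by simp [max_eq_right ht]) (fun t ht => by simp [max_eq_left ht]) (by simp) t
  have h1 : HasDerivAt (fun t : ℝ => (max t 0) ^ 2) (2 * max t 0) t := by
    convert h0 using 1
    split_ifs with h
    · simp [max_eq_right h]
    · rw [max_eq_left (le_of_not_ge h)]
  have h2 := (h1.const_add 1).fun_inv (by positivity)
  simp only [← one_div] at h2
  exact h2

lemma cg1 : Continuous g1 := by
  unfold g1
  exact Continuous.div (by fun_prop) (by fun_prop) (fun t => by positivity)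

lemma g_pos (t : ℝ) : 0 < g t := by unfold g; positivity

lemma g_le (t : ℝ) : g t ≤ 1 := by
  unfold g; rw [div_le_one (by positivity)]; nlinarith [sq_nonneg (max t 0)]

lemma g1_abs (t : ℝ) : |g1 t| ≤ g t := by
  unfold g1 g
  have h : 0 ≤ max t 0 := le_max_right _ _
  generalize max t 0 = s at h
  rw [abs_div, abs_neg, abs_of_nonneg (by positivity), abs_of_nonneg (by positivity),
    div_le_div_iff₀ (by positivity) (by positivity)]
  nlinarith [sq_nonneg (s - 1), sq_nonneg s]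

lemma g1_sq (t : ℝ) : g1 t ^ 2 ≤ 4 * g t ^ 3 := by
  unfold g1 g
  generalize max t 0 = s
  have : 0 < 1 + s ^ 2 := by positivity
  rw [div_pow, div_pow, ← mul_div_assoc, div_le_div_iff₀ (by positivity) (by positivity)]
  have : (-(2 * s)) ^ 2 * (1 + s ^ 2) ^ 3 + 4 * (1 + s ^ 2) ^ 3 = 4 * 1 ^ 3 * ((1 + s ^ 2) ^ 2) ^ 2 := by
    ring
  nlinarith [pow_pos ‹0 < 1 + s ^ 2› 3]

lemma G_le (t : ℝ) : G t ≤ 2 := by
  unfold G; split_ifs with h
  · linarith
  · linarith [arctan_lt_pi_div_two t, pi_le_four]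

lemma G_ge (t : ℝ) : min t 0 ≤ G t := by
  unfold G; split_ifs with h
  · exact min_le_left _ _
  · exact (min_le_right _ _).trans (arctan_nonneg.mpr (le_of_not_ge h))

noncomputable def ta (a κ Q : ℝ) : ℝ := a / 2 * (κ - log Q)
noncomputable def A (a κ Q : ℝ) : ℝ := G (ta a κ Q)
noncomputable def m (a κ Q : ℝ) : ℝ := g (ta a κ Q) / Q
noncomputable def A1 (a κ Q : ℝ) : ℝ := -(a / 2) * m a κ Q
noncomputable def A2 (a κ Q : ℝ) : ℝ :=
  a ^ 2 * g1 (ta a κ Q) / (4 * Q ^ 2) + a * g (ta a κ Q) / (2 * Q ^ 2)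

lemma dta (a κ Q : ℝ) (hQ : 0 < Q) : HasDerivAt (ta a κ) (-(a / 2) / Q) Q :=
  (((hasDerivAt_log hQ.ne').const_sub κ).const_mul (a / 2)).congr_deriv (by field_simp)

lemma dA (a κ Q : ℝ) (hQ : 0 < Q) : HasDerivAt (A a κ) (A1 a κ Q) Q :=
  ((dG _).comp Q (dta a κ Q hQ)).congr_deriv (by unfold A1 m; field_simp)

lemma dA1 (a κ Q : ℝ) (hQ : 0 < Q) : HasDerivAt (A1 a κ) (A2 a κ Q) Q := by
  have h := ((((dg _).comp Q (dta a κ Q hQ)).fun_div (hasDerivAt_id' Q) hQ.ne').const_mul (-(a / 2)))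
  exact h.congr_deriv (by unfold A2; simp only [Function.comp]; field_simp; ring)

lemma cA2 (a κ Q : ℝ) (hQ : 0 < Q) : ContinuousAt (A2 a κ) Q := by
  have h1 := cg1.continuousAt.comp (dta a κ Q hQ).continuousAt
  have h2 := (dg _).continuousAt.comp (dta a κ Q hQ).continuousAt
  unfold A2
  exact ((h1.const_mul _).div (by fun_prop) (by positivity)).add
    ((h2.const_mul _).div (by fun_prop) (by positivity))

lemma m_pos (a κ Q : ℝ) (hQ : 0 < Q) : 0 < m a κ Q := div_pos (g_pos _) hQ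

lemma m_nonneg (a κ Q : ℝ) (hQ : 0 ≤ Q) : 0 ≤ m a κ Q := div_nonneg (g_pos _).le hQ

lemma m_anti (a κ q Q : ℝ) (ha : 0 < a) (ha1 : a ≤ 1) (hq : 0 < q) (h : q ≤ Q) :
    m a κ Q ≤ m a κ q := by
  have hQ : 0 < Q := hq.trans_le h
  set y := log Q - log q with hy
  have hy0 : 0 ≤ y := sub_nonneg.mpr (log_le_log hq h)
  have hE : Q = q * (exp (y / 2)) ^ 2 := by
    rw [← exp_nat_mul, show ((2 : ℕ) : ℝ) * (y / 2) = log Q - log q by push_cast; ring, exp_sub,
      exp_log hQ, exp_log hq]; field_simp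
  have h1 : 1 + y / 2 ≤ exp (y / 2) := by linarith [add_one_le_exp (y / 2)]
  have h2 : max (ta a κ q) 0 ≤ max (ta a κ Q) 0 + y / 2 := by
    have : ta a κ q = ta a κ Q + a * (y / 2) := by unfold ta; rw [hy]; ring
    have h3 : a * (y / 2) ≤ y / 2 := by nlinarith
    exact max_le (by linarith [le_max_left (ta a κ Q) 0]) (by linarith [le_max_right (ta a κ Q) 0])
  unfold m g
  have h4 : 0 ≤ max (ta a κ q) 0 := le_max_right _ _
  have h5 : 0 ≤ max (ta a κ Q) 0 := le_max_right _ _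
  generalize max (ta a κ q) 0 = s at *
  generalize max (ta a κ Q) 0 = t at *
  rw [div_div, div_div]
  apply one_div_le_one_div_of_le (by positivity)
  have h6 : s ^ 2 ≤ (t + y / 2) ^ 2 := by gcongr
  have h7 : (1 + y / 2) ^ 2 ≤ exp (y / 2) ^ 2 := by gcongr
  have h8 : 1 + (t + y / 2) ^ 2 ≤ (1 + t ^ 2) * (1 + y / 2) ^ 2 := by
    nlinarith [sq_nonneg (t - 1), mul_nonneg hy0 (sq_nonneg (t - 1)), sq_nonneg (t * y),
      mul_nonneg hy0 h5]
  calc (1 + s ^ 2) * q ≤ ((1 + t ^ 2) * exp (y / 2) ^ 2) * q := by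
        gcongr
        calc 1 + s ^ 2 ≤ (1 + t ^ 2) * (1 + y / 2) ^ 2 := by linarith
          _ ≤ _ := by gcongr
    _ = (1 + t ^ 2) * Q := by conv_rhs => rw [hE]
                              ring

lemma radial (a κ : ℝ) (ha : 0 < a) :
    IntegrableOn (fun r => r * m a κ (r ^ 2)) (Ioo 0 1) ∧
      ∫ r in Ioo (0 : ℝ) 1, r * m a κ (r ^ 2) ≤ (2 - A a κ 1) / a := by
  have hd : ∀ r : ℝ, 0 < r → HasDerivAt (fun r => -A a κ (r ^ 2) / a) (r * m a κ (r ^ 2)) r := by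
    intro r hr
    have := (((dA a κ (r ^ 2) (by positivity)).comp r (hasDerivAt_pow 2 r)).fun_neg).div_const a
    exact this.congr_deriv (by unfold A1; field_simp; simp; ring)
  have hc : ∀ r : ℝ, 0 < r → ContinuousAt (fun r => r * m a κ (r ^ 2)) r := by
    intro r hr
    have h1 := (dA1 a κ (r ^ 2) (by positivity)).continuousAt.comp (f := fun r : ℝ => r ^ 2)
      (by fun_prop)
    have h2 := (h1.const_mul (-(2 / a))).mul continuousAt_id
    convert h2 using 2 with r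
    simp only [A1, Function.comp, id, Pi.mul_apply]; field_simp
  have key : ∀ ε : ℝ, 0 < ε → ε ≤ 1 → IntegrableOn (fun r => r * m a κ (r ^ 2)) (Ioc ε 1) ∧
      ∫ r in Ioc ε 1, r * m a κ (r ^ 2) ≤ (2 - A a κ 1) / a := by
    intro ε h0 h1
    have hi : IntervalIntegrable (fun r => r * m a κ (r ^ 2)) volume ε 1 :=
      ContinuousOn.intervalIntegrable_of_Icc h1 fun r hr =>
        (hc r (h0.trans_le hr.1)).continuousWithinAt
    refine ⟨hi.1, ?_⟩
    rw [← intervalIntegral.integral_of_le h1, intervalIntegral.integral_eq_sub_of_hasDerivAt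
      (fun r hr => hd r (h0.trans_le (by rw [uIcc_of_le h1] at hr; exact hr.1))) hi, one_pow,
      ← sub_div]
    refine div_le_div_of_nonneg_right ?_ ha.le
    linarith [G_le (ta a κ (ε ^ 2)), show A a κ (ε ^ 2) = G (ta a κ (ε ^ 2)) from rfl]
  have hU : Ioc (0 : ℝ) 1 = ⋃ n : ℕ, Ioc (1 / ((n : ℝ) + 1)) 1 := by
    ext r
    simp only [mem_Ioc, mem_iUnion]
    exact ⟨fun h => (exists_nat_one_div_lt h.1).imp fun n hn => ⟨hn, h.2⟩,
      fun ⟨n, hn⟩ => ⟨lt_trans (by positivity) hn.1, hn.2⟩⟩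
  have hn1 : ∀ n : ℕ, 1 / ((n : ℝ) + 1) ≤ 1 := fun n => by
    rw [div_le_one (by positivity)]; linarith [n.cast_nonneg (α := ℝ)]
  have hI : IntegrableOn (fun r => r * m a κ (r ^ 2)) (Ioc 0 1) := by
    refine integrableOn_Ioc_of_intervalIntegral_norm_bounded_left (l := atTop)
      (I := (2 - A a κ 1) / a) (fun n : ℕ => (key _ (by positivity) (hn1 n)).1)
      tendsto_one_div_add_atTop_nhds_zero_nat (Eventually.of_forall fun n => ?_)
    refine le_trans (le_of_eq ?_) (key _ (by positivity) (hn1 n)).2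
    refine setIntegral_congr_fun measurableSet_Ioc fun r hr => ?_
    have : 0 < r := lt_trans (by positivity) hr.1
    exact norm_of_nonneg (mul_nonneg this.le (m_nonneg _ _ _ (by positivity)))
  refine ⟨hI.mono_set Ioo_subset_Ioc_self, ?_⟩
  rw [← integral_Ioc_eq_integral_Ioo]
  have := tendsto_setIntegral_of_monotone (μ := volume) (f := fun r => r * m a κ (r ^ 2))
    (s := fun n : ℕ => Ioc (1 / ((n : ℝ) + 1)) 1) (fun _ => measurableSet_Ioc)
    (fun i j hij => Ioc_subset_Ioc_left (by gcongr)) (hU ▸ hI)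
  rw [hU]
  exact le_of_tendsto' this fun n => (key _ (by positivity) (hn1 n)).2

noncomputable def K : ℝ := 2 * volume.real (ball (0 : E) 1)

lemma planar (a κ : ℝ) (ha : 0 < a) (p : E) (hp : ‖p‖ ≤ 1 / 2) :
    IntegrableOn (fun x : E => m a κ (‖x - p‖ ^ 2)) (ball 0 (1 / 2)) ∧
      ∫ x in ball (0 : E) (1 / 2), m a κ (‖x - p‖ ^ 2) ≤ K * ((2 - A a κ 1) / a) := by
  obtain ⟨h1, h2⟩ := radial a κ ha
  set f : ℝ → ℝ := indicator (Iio 1) fun r => m a κ (r ^ 2) with hf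
  have he : ∀ r ∈ Ioi (0 : ℝ), r ^ (Module.finrank ℝ E - 1) • f r =
      indicator (Ioo 0 1) (fun r => r * m a κ (r ^ 2)) r := by
    intro r hr
    by_cases h : r < 1 <;> simp [hf, h, show 0 < r from hr]
  have hi : Integrable (fun x : E => f ‖x‖) := by
    rw [integrable_fun_norm_addHaar, integrableOn_congr_fun he measurableSet_Ioi]
    exact ((integrable_indicator_iff measurableSet_Ioo).mpr h1).integrableOn
  have hi2 : Integrable (fun x : E => f ‖x - p‖) := hi.comp_sub_right p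
  have hb : ∀ x ∈ ball (0 : E) (1 / 2), f ‖x - p‖ = m a κ (‖x - p‖ ^ 2) := by
    intro x hx
    have : ‖x - p‖ < 1 := by
      have := norm_sub_le x p
      rw [mem_ball_zero_iff] at hx; linarith
    simp [hf, this]
  refine ⟨(integrableOn_congr_fun hb measurableSet_ball).mp hi2.integrableOn, ?_⟩
  rw [← setIntegral_congr_fun measurableSet_ball hb]
  refine (setIntegral_le_integral hi2 (Eventually.of_forall fun x => ?_)).trans ?_
  · exact indicator_nonneg (fun r _ => m_nonneg _ _ _ (by positivity)) _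
  · rw [integral_sub_right_eq_self (fun x : E => f ‖x‖) p, integral_fun_norm_addHaar,
      setIntegral_congr_fun measurableSet_Ioi he, setIntegral_indicator measurableSet_Ioo,
      inter_eq_right.mpr Ioo_subset_Ioi_self]
    simp only [finrank_euclideanSpace, Fintype.card_fin, K, smul_eq_mul, nsmul_eq_mul]
    rw [← mul_assoc]
    push_cast
    gcongr

noncomputable def U (a κ : ℝ) (p : E) (δ : ℝ) (x : E) : ℝ := A a κ (‖x - p‖ ^ 2 + δ)
noncomputable def V (a κ : ℝ) (p : E) (δ : ℝ) (x : E) : E :=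
  (2 * A1 a κ (‖x - p‖ ^ 2 + δ)) • (x - p)
noncomputable def L (a κ : ℝ) (p : E) (δ : ℝ) (x : E) : ℝ :=
  4 * A1 a κ (‖x - p‖ ^ 2 + δ) + 4 * A2 a κ (‖x - p‖ ^ 2 + δ) * ‖x - p‖ ^ 2

lemma ibp (f : E → ℝ) (f' : E → E →L[ℝ] ℝ) (hf : ∀ x, HasFDerivAt f (f' x) x) (v : E)
    (d : E → ℝ) (hd : ∀ x, f' x v = d x) (hc : Continuous d) (h : E → ℝ) (hh : ContDiff ℝ 1 h)
    (hs : HasCompactSupport h) :
    Integrable (fun x => f x * fderiv ℝ h x v + d x * h x) ∧
      ∫ x, (f x * fderiv ℝ h x v + d x * h x) = 0 := by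
  have cf : Continuous f := continuous_iff_continuousAt.mpr fun x => (hf x).continuousAt
  have c1 : Continuous fun x => fderiv ℝ h x v :=
    (hh.continuous_fderiv (by simp)).clm_apply continuous_const
  have i1 : Integrable fun x => f x * fderiv ℝ h x v :=
    (cf.mul c1).integrable_of_hasCompactSupport (hs.fderiv_apply (𝕜 := ℝ) v).mul_left
  have i2 : Integrable fun x => d x * h x :=
    (hc.mul hh.continuous).integrable_of_hasCompactSupport hs.mul_left
  have i3 : Integrable fun x => f x * h x :=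
    (cf.mul hh.continuous).integrable_of_hasCompactSupport hs.mul_left
  have := integral_bilinear_hasFDerivAt_right_eq_neg_left_of_integrable (μ := volume)
    (B := ContinuousLinearMap.mul ℝ ℝ) (f := f) (f' := f') (g := h) (g' := fderiv ℝ h) (v := v)
    (by simpa [hd] using i2) (by simpa using i1) (by simpa using i3) (fun x _ => hf x)
    (fun x _ => (hh.differentiable (by simp) x).hasFDerivAt)
  refine ⟨i1.add i2, ?_⟩
  rw [integral_add i1 i2]
  simp only [ContinuousLinearMap.mul_apply', hd] at this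
  rw [this, neg_add_cancel]

lemma dQ (p : E) (δ : ℝ) (x : E) : HasFDerivAt (fun x : E => ‖x - p‖ ^ 2 + δ)
    (2 • (innerSL ℝ (x - p)).comp (ContinuousLinearMap.id ℝ E)) x :=
  ((hasFDerivAt_id x).sub_const p).norm_sq.add_const δ

lemma cont_comp (f : ℝ → ℝ) (hf : ∀ Q, 0 < Q → ContinuousAt f Q) (p : E) (δ : ℝ) (hδ : 0 < δ) :
    Continuous fun x : E => f (‖x - p‖ ^ 2 + δ) :=
  continuous_iff_continuousAt.mpr fun x =>
    (hf _ (by positivity)).comp (f := fun x : E => ‖x - p‖ ^ 2 + δ) (by fun_prop)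

lemma W_reg (a κ : ℝ) (p : E) (δ : ℝ) (hδ : 0 < δ) (v : E) (h : E → ℝ) (hh : ContDiff ℝ 1 h)
    (hs : HasCompactSupport h) :
    Integrable (fun x => U a κ p δ x * fderiv ℝ h x v + inner ℝ (V a κ p δ x) v * h x) ∧
      ∫ x, (U a κ p δ x * fderiv ℝ h x v + inner ℝ (V a κ p δ x) v * h x) = 0 := by
  have c1 := cont_comp (A1 a κ) (fun Q hQ => (dA1 a κ Q hQ).continuousAt) p δ hδ
  refine ibp _ _ (fun x => (dA a κ _ (by positivity)).comp_hasFDerivAt x (dQ p δ x)) v _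
    (fun x => ?_) ?_ h hh hs
  · simp [V, inner_smul_left, inner_sub_left]; ring
  · unfold V; fun_prop

lemma E_reg (a κ : ℝ) (p : E) (δ : ℝ) (hδ : 0 < δ) (h : E → ℝ) (hh : ContDiff ℝ 1 h)
    (hs : HasCompactSupport h) :
    Integrable (fun x => fderiv ℝ h x (V a κ p δ x) + L a κ p δ x * h x) ∧
      ∫ x, (fderiv ℝ h x (V a κ p δ x) + L a κ p δ x * h x) = 0 := by
  have c1 := cont_comp (A1 a κ) (fun Q hQ => (dA1 a κ Q hQ).continuousAt) p δ hδ
  have c2 := cont_comp (A2 a κ) (cA2 a κ) p δ hδ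
  have key : ∀ i : Fin 2, _ := fun i => ibp (fun x => 2 * A1 a κ (‖x - p‖ ^ 2 + δ) * (x i - p i)) _
    (fun x => (((dA1 a κ _ (by positivity)).comp_hasFDerivAt x (dQ p δ x)).const_mul 2).mul
      ((EuclideanSpace.proj i : E →L[ℝ] ℝ).hasFDerivAt.sub_const (p i)))
    (EuclideanSpace.single i 1)
    (fun x => 2 * A1 a κ (‖x - p‖ ^ 2 + δ) + 4 * A2 a κ (‖x - p‖ ^ 2 + δ) * (x i - p i) ^ 2)
    (fun x => by simp [EuclideanSpace.inner_single_right]; ring) (by fun_prop) h hh hs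
  have e : (fun x => fderiv ℝ h x (V a κ p δ x) + L a κ p δ x * h x) = fun x =>
      (2 * A1 a κ (‖x - p‖ ^ 2 + δ) * (x 0 - p 0) * fderiv ℝ h x (EuclideanSpace.single 0 1) +
        (2 * A1 a κ (‖x - p‖ ^ 2 + δ) + 4 * A2 a κ (‖x - p‖ ^ 2 + δ) * (x 0 - p 0) ^ 2) * h x) +
      (2 * A1 a κ (‖x - p‖ ^ 2 + δ) * (x 1 - p 1) * fderiv ℝ h x (EuclideanSpace.single 1 1) +
        (2 * A1 a κ (‖x - p‖ ^ 2 + δ) + 4 * A2 a κ (‖x - p‖ ^ 2 + δ) * (x 1 - p 1) ^ 2) * h x) := by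
    funext x
    have e1 : x - p = (x 0 - p 0) • EuclideanSpace.single (0 : Fin 2) (1 : ℝ) +
        (x 1 - p 1) • EuclideanSpace.single (1 : Fin 2) (1 : ℝ) := by
      ext i; fin_cases i <;> simp
    have e2 : ‖x - p‖ ^ 2 = (x 0 - p 0) ^ 2 + (x 1 - p 1) ^ 2 := by
      rw [EuclideanSpace.real_norm_sq_eq]; simp [Fin.sum_univ_two]
    have e3 : fderiv ℝ h x (x - p) = (x 0 - p 0) * fderiv ℝ h x (EuclideanSpace.single 0 1) +
        (x 1 - p 1) * fderiv ℝ h x (EuclideanSpace.single 1 1) := by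
      conv_lhs => rw [e1]
      simp only [map_add, map_smul, smul_eq_mul]
    simp only [V, L, map_smul, smul_eq_mul, e3]
    generalize A1 a κ (‖x - p‖ ^ 2 + δ) = s
    generalize A2 a κ (‖x - p‖ ^ 2 + δ) = t
    rw [e2]; ring
  rw [e]
  refine ⟨(key 0).1.add (key 1).1, ?_⟩
  rw [integral_add (key 0).1 (key 1).1, (key 0).2, (key 1).2, add_zero]

lemma lim (a κ : ℝ) (ha : 0 < a) (p : E) (hp : ‖p‖ ≤ 1 / 2) (F : ℝ → E → ℝ) (C : ℝ)
    (h0 : ∀ δ, 0 < δ → Integrable (F δ) ∧ ∫ x, F δ x = 0)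
    (hz : ∀ δ x, x ∉ ball (0 : E) (1 / 2) → F δ x = 0)
    (hb : ∀ δ, 0 < δ → δ ≤ 1 → ∀ x ∈ ball (0 : E) (1 / 2), x ≠ p →
      |F δ x| ≤ C * (1 + m a κ (‖x - p‖ ^ 2)))
    (hl : ∀ x, x ≠ p → ContinuousAt (fun δ => F δ x) 0) :
    ∫ x in ball (0 : E) (1 / 2), F 0 x = 0 := by
  have hne : ∀ᵐ x ∂(volume.restrict (ball (0 : E) (1 / 2))), x ≠ p :=
    ae_restrict_of_ae (Measure.ae_ne _ _)
  have ht := tendsto_integral_filter_of_dominated_convergence
    (μ := volume.restrict (ball (0 : E) (1 / 2))) (l := 𝓝[>] (0 : ℝ)) (F := F) (f := F 0)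
    (fun x => C * (1 + m a κ (‖x - p‖ ^ 2)))
    (by filter_upwards [self_mem_nhdsWithin] with δ hδ using (h0 δ hδ).1.1.restrict)
    (by
      filter_upwards [Ioc_mem_nhdsGT (zero_lt_one' ℝ)] with δ hδ
      filter_upwards [hne, ae_restrict_mem measurableSet_ball] with x hx hx'
      exact hb δ hδ.1 hδ.2 x hx' hx)
    (((integrableOn_const measure_ball_lt_top.ne).add (planar a κ ha p hp).1).const_mul C)
    (by filter_upwards [hne] with x hx using (hl x hx).tendsto.mono_left nhdsWithin_le_nhds)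
  refine tendsto_nhds_unique ht (tendsto_const_nhds.congr' ?_)
  filter_upwards [self_mem_nhdsWithin] with δ hδ
  rw [setIntegral_eq_integral_of_forall_compl_eq_zero (hz δ), (h0 δ hδ).2]

lemma cδ (f : ℝ → ℝ) (hf : ∀ Q, 0 < Q → ContinuousAt f Q) (p x : E) (hx : x ≠ p) :
    ContinuousAt (fun δ : ℝ => f (‖x - p‖ ^ 2 + δ)) 0 := by
  have : 0 < ‖x - p‖ := norm_pos_iff.mpr (sub_ne_zero.mpr hx)
  exact ContinuousAt.comp (f := fun δ : ℝ => ‖x - p‖ ^ 2 + δ) (hf _ (by positivity)) (by fun_prop)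

lemma bounds (a κ : ℝ) (ha : 0 < a) (ha1 : a ≤ 1) (p : E) (hp : ‖p‖ ≤ 1 / 2) (δ : ℝ) (h0 : 0 < δ)
    (h1 : δ ≤ 1) (x : E) (hx : x ∈ ball (0 : E) (1 / 2)) (hxp : x ≠ p) :
    |U a κ p δ x| ≤ 3 + |κ| ∧ ‖V a κ p δ x‖ ≤ m a κ (‖x - p‖ ^ 2) ∧
      |L a κ p δ x| ≤ 3 * m a κ (‖x - p‖ ^ 2) := by
  have hr : 0 < ‖x - p‖ := norm_pos_iff.mpr (sub_ne_zero.mpr hxp)
  have hr1 : ‖x - p‖ ≤ 1 := by
    have := norm_sub_le x p
    rw [mem_ball_zero_iff] at hx; linarith
  have hm := m_anti a κ (‖x - p‖ ^ 2) (‖x - p‖ ^ 2 + δ) ha ha1 (by positivity) (by linarith)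
  have hm0 := m_pos a κ (‖x - p‖ ^ 2 + δ) (by positivity)
  refine ⟨abs_le.mpr ⟨?_, (G_le _).trans (by linarith [abs_nonneg κ])⟩, ?_, ?_⟩
  · refine le_trans (le_min ?_ (by linarith [abs_nonneg κ])) (G_ge _)
    have := log_le_sub_one_of_pos (show 0 < ‖x - p‖ ^ 2 + δ by positivity)
    have h2 : ‖x - p‖ ^ 2 ≤ 1 := by nlinarith
    unfold ta
    nlinarith [neg_abs_le κ, abs_nonneg κ]
  · simp only [V, A1, norm_smul, norm_eq_abs]
    rw [abs_of_nonpos (by nlinarith)]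
    nlinarith [mul_le_mul ha1 hr1 hr.le zero_le_one]
  · refine le_trans ?_ (mul_le_mul_of_nonneg_left hm (by norm_num))
    have hq : 0 < ‖x - p‖ ^ 2 := by positivity
    unfold L A1 A2 m
    generalize ‖x - p‖ ^ 2 = q at *
    have g0 := g_pos (ta a κ (q + δ))
    have g2 := abs_le.mp (g1_abs (ta a κ (q + δ)))
    generalize g (ta a κ (q + δ)) = s at *
    generalize g1 (ta a κ (q + δ)) = t at *
    have e : 4 * (-(a / 2) * (s / (q + δ))) + 4 * (a ^ 2 * t / (4 * (q + δ) ^ 2) +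
        a * s / (2 * (q + δ) ^ 2)) * q = (a ^ 2 * t * q - 2 * a * s * δ) / (q + δ) / (q + δ) := by
      field_simp; ring
    rw [e, ← mul_div_assoc, abs_div, abs_of_pos (show 0 < q + δ by positivity)]
    refine div_le_div_of_nonneg_right ?_ (by positivity)
    rw [abs_div, abs_of_pos (show 0 < q + δ by positivity), div_le_iff₀ (by positivity), abs_le]
    have a2 : a ^ 2 ≤ 1 := by nlinarith
    have a3 : a ^ 2 * t ≤ s := by nlinarith [sq_nonneg a]
    have a4 : -s ≤ a ^ 2 * t := by nlinarith [sq_nonneg a]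
    have a5 : a * s ≤ s := by nlinarith
    constructor <;> nlinarith [mul_pos ha g0, mul_pos g0 hq, mul_pos g0 h0]

lemma test_bound (h : E → ℝ) (hh : ContDiff ℝ 1 h) (hs : HasCompactSupport h) :
    ∃ C, 0 ≤ C ∧ ∀ x, |h x| ≤ C ∧ ‖fderiv ℝ h x‖ ≤ C := by
  obtain ⟨C1, h1⟩ := hh.continuous.bounded_above_of_compact_support hs
  obtain ⟨C2, h2⟩ := (hh.continuous_fderiv (by simp)).bounded_above_of_compact_support
    (hs.fderiv (𝕜 := ℝ))
  exact ⟨max C1 C2, (norm_nonneg _).trans ((h1 0).trans (le_max_left _ _)),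
    fun x => ⟨(h1 x).trans (le_max_left _ _), (h2 x).trans (le_max_right _ _)⟩⟩

lemma test_zero (h : E → ℝ) (ht : tsupport h ⊆ ball (0 : E) (1 / 2)) (x : E)
    (hx : x ∉ ball (0 : E) (1 / 2)) : h x = 0 ∧ fderiv ℝ h x = 0 :=
  ⟨image_eq_zero_of_notMem_tsupport fun k => hx (ht k),
    fderiv_of_notMem_tsupport ℝ fun k => hx (ht k)⟩

lemma W_lim (a κ : ℝ) (ha : 0 < a) (ha1 : a ≤ 1) (p : E) (hp : ‖p‖ ≤ 1 / 2) (v : E) (h : E → ℝ)
    (hh : ContDiff ℝ 1 h) (hs : HasCompactSupport h) (ht : tsupport h ⊆ ball (0 : E) (1 / 2)) :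
    ∫ x in ball (0 : E) (1 / 2),
      (U a κ p 0 x * fderiv ℝ h x v + inner ℝ (V a κ p 0 x) v * h x) = 0 := by
  obtain ⟨C, hC, hb⟩ := test_bound h hh hs
  refine lim a κ ha p hp (fun δ x => U a κ p δ x * fderiv ℝ h x v + inner ℝ (V a κ p δ x) v * h x)
    ((3 + |κ|) * (C * ‖v‖)) (fun δ hδ => W_reg a κ p δ hδ v h hh hs)
    (fun δ x hx => by simp [test_zero h ht x hx]) (fun δ h0 h1 x hx hxp => ?_) (fun x hx => ?_)
  · obtain ⟨b1, b2, -⟩ := bounds a κ ha ha1 p hp δ h0 h1 x hx hxp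
    have hm := m_nonneg a κ (‖x - p‖ ^ 2) (by positivity)
    have c1 : |fderiv ℝ h x v| ≤ C * ‖v‖ :=
      ((fderiv ℝ h x).le_opNorm v).trans (by gcongr; exact (hb x).2)
    have c2 : |inner ℝ (V a κ p δ x) v| ≤ m a κ (‖x - p‖ ^ 2) * ‖v‖ :=
      (abs_real_inner_le_norm _ _).trans (by gcongr)
    refine (abs_add_le _ _).trans ?_
    rw [abs_mul, abs_mul]
    have c3 := mul_le_mul b1 c1 (abs_nonneg _) (by positivity)
    have c4 := mul_le_mul c2 (hb x).1 (abs_nonneg _) (by positivity)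
    have c5 : 0 ≤ C * ‖v‖ * m a κ (‖x - p‖ ^ 2) := by positivity
    nlinarith [mul_nonneg (abs_nonneg κ) c5]
  · have c0 := cδ (A a κ) (fun Q hQ => (dA a κ Q hQ).continuousAt) p x hx
    have c1 := cδ (A1 a κ) (fun Q hQ => (dA1 a κ Q hQ).continuousAt) p x hx
    unfold U V
    fun_prop

lemma E_lim (a κ : ℝ) (ha : 0 < a) (ha1 : a ≤ 1) (p : E) (hp : ‖p‖ ≤ 1 / 2) (h : E → ℝ)
    (hh : ContDiff ℝ 1 h) (hs : HasCompactSupport h) (ht : tsupport h ⊆ ball (0 : E) (1 / 2)) :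
    ∫ x in ball (0 : E) (1 / 2), (fderiv ℝ h x (V a κ p 0 x) + L a κ p 0 x * h x) = 0 := by
  obtain ⟨C, hC, hb⟩ := test_bound h hh hs
  refine lim a κ ha p hp (fun δ x => fderiv ℝ h x (V a κ p δ x) + L a κ p δ x * h x)
    (4 * C) (fun δ hδ => E_reg a κ p δ hδ h hh hs)
    (fun δ x hx => by simp [test_zero h ht x hx]) (fun δ h0 h1 x hx hxp => ?_) (fun x hx => ?_)
  · obtain ⟨-, b2, b3⟩ := bounds a κ ha ha1 p hp δ h0 h1 x hx hxp
    have hm := m_nonneg a κ (‖x - p‖ ^ 2) (by positivity)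
    have c1 : |fderiv ℝ h x (V a κ p δ x)| ≤ C * m a κ (‖x - p‖ ^ 2) :=
      ((fderiv ℝ h x).le_opNorm _).trans (by gcongr; exact (hb x).2)
    refine (abs_add_le _ _).trans ?_
    rw [abs_mul]
    have c4 := mul_le_mul b3 (hb x).1 (abs_nonneg _) (by positivity)
    nlinarith
  · have c1 := cδ (A1 a κ) (fun Q hQ => (dA1 a κ Q hQ).continuousAt) p x hx
    have c2 := cδ (A2 a κ) (cA2 a κ) p x hx
    unfold L V
    fun_prop

lemma pt (a : ℝ) (ha : 0 < a) (ha1 : a ≤ 1 / 2) (p x : E) (hx : x ≠ p) (h1 : ‖x - p‖ ≤ 1) :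
    ‖V a (4 * log a) p 0 x‖ ^ 2 ≤ a ^ 2 * m a (4 * log a) (‖x - p‖ ^ 2) ∧
    |L a (4 * log a) p 0 x| ≤ a ^ 2 * m a (4 * log a) (‖x - p‖ ^ 2) ∧
    L a (4 * log a) p 0 x ^ 2 ≤
      4 * (a ^ 2 * m a (4 * log a) (‖x - p‖ ^ 2)) * ‖V a (4 * log a) p 0 x‖ ^ 2 ∧
    ‖V a (4 * log a) p 0 x‖ ≤ a / ‖x - p‖ ∧
    2 * a * log a ≤ U a (4 * log a) p 0 x ∧ U a (4 * log a) p 0 x ≤ 2 ∧
    (a ^ 2 ≤ ‖x - p‖ → L a (4 * log a) p 0 x = 0 ∧ U a (4 * log a) p 0 x ≤ 0) ∧
    (‖x - p‖ < a ^ 2 → 1 ≤ a ^ 2 * m a (4 * log a) (‖x - p‖ ^ 2) ∧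
      1 / a ≤ ‖V a (4 * log a) p 0 x‖) ∧
    (‖x - p‖ ≤ a ^ 2 * exp (-1 / a) → 3 / 4 ≤ U a (4 * log a) p 0 x) := by
  have hr : 0 < ‖x - p‖ := norm_pos_iff.mpr (sub_ne_zero.mpr hx)
  have hV : ‖V a (4 * log a) p 0 x‖ = a * g (ta a (4 * log a) (‖x - p‖ ^ 2)) / ‖x - p‖ := by
    have := g_pos (ta a (4 * log a) (‖x - p‖ ^ 2))
    simp only [V, A1, m, norm_smul, norm_eq_abs, add_zero, neg_mul, mul_neg, abs_neg]
    rw [abs_of_pos (by positivity)]; field_simp
  have hL : L a (4 * log a) p 0 x = a ^ 2 * g1 (ta a (4 * log a) (‖x - p‖ ^ 2)) / ‖x - p‖ ^ 2 := by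
    simp only [L, A1, A2, m, add_zero]; field_simp; ring
  have hT : ta a (4 * log a) (‖x - p‖ ^ 2) = a * log (a ^ 2 / ‖x - p‖) := by
    unfold ta
    rw [log_div (by positivity) hr.ne', log_pow, log_pow]; push_cast; ring
  have hU : U a (4 * log a) p 0 x = G (ta a (4 * log a) (‖x - p‖ ^ 2)) := by simp [U, A]
  rw [hV, hL, hU]
  unfold m
  rw [hT]
  generalize ‖x - p‖ = r at *
  have hla : log a ≤ 0 := log_nonpos ha.le (by linarith)
  set y := log (a ^ 2 / r) with hy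
  have g0 := g_pos (a * y)
  have g2 := g_le (a * y)
  have hg : r < a ^ 2 → r / a ^ 2 ≤ g (a * y) := by
    intro h
    have hy0 : 0 ≤ y := log_nonneg (by rw [le_div_iff₀ hr]; linarith)
    have h2 := quadratic_le_exp_of_nonneg hy0
    rw [hy, exp_log (by positivity), ← hy] at h2
    unfold g
    rw [max_eq_left (by positivity), ← one_div_div]
    apply one_div_le_one_div_of_le (by positivity)
    have : a ^ 2 ≤ 1 / 2 := by nlinarith
    nlinarith [sq_nonneg y]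
  refine ⟨?_, ?_, ?_, ?_, ?_, G_le _, fun h => ?_, fun h => ⟨?_, ?_⟩, fun h => ?_⟩
  · rw [div_pow, mul_pow, ← mul_div_assoc]
    gcongr; nlinarith
  · rw [abs_div, abs_mul, abs_of_pos (show 0 < a ^ 2 by positivity),
      abs_of_pos (show 0 < r ^ 2 by positivity), ← mul_div_assoc]
    gcongr; exact g1_abs _
  · have := g1_sq (a * y)
    calc (a ^ 2 * g1 (a * y) / r ^ 2) ^ 2 = (a ^ 2 / r ^ 2) ^ 2 * g1 (a * y) ^ 2 := by ring
      _ ≤ (a ^ 2 / r ^ 2) ^ 2 * (4 * g (a * y) ^ 3) := by gcongr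
      _ = _ := by field_simp
  · gcongr; nlinarith
  · refine le_trans (le_min ?_ (by nlinarith)) (G_ge _)
    have : log (a ^ 2) ≤ y := log_le_log (by positivity) (by rw [le_div_iff₀ hr]; nlinarith)
    rw [log_pow] at this; push_cast at this
    nlinarith
  · have hy0 : a * y ≤ 0 :=
      mul_nonpos_of_nonneg_of_nonpos ha.le (log_nonpos (by positivity) (by rwa [div_le_one hr]))
    simp [g1, G, hy0]
  · have h2 := hg h
    rw [div_le_iff₀ (by positivity)] at h2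
    rw [← mul_div_assoc, le_div_iff₀ (by positivity)]
    nlinarith
  · have h2 := hg h
    rw [div_le_iff₀ (by positivity)] at h2
    rw [div_le_div_iff₀ ha hr]
    nlinarith
  · have h2 : 1 / a ≤ y := by
      rw [hy, le_log_iff_exp_le (by positivity), le_div_iff₀ hr]
      calc exp (1 / a) * r ≤ exp (1 / a) * (a ^ 2 * exp (-1 / a)) := by gcongr
        _ = a ^ 2 * (exp (1 / a) * exp (-1 / a)) := by ring
        _ = a ^ 2 := by rw [← exp_add, show 1 / a + -1 / a = 0 by ring, exp_zero, mul_one]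
    have h3 : 1 ≤ a * y := by rw [div_le_iff₀ ha] at h2; linarith
    unfold G
    rw [if_neg (by linarith)]
    have := arctan_strictMono.monotone h3
    rw [arctan_one] at this
    linarith [pi_gt_three]

lemma meas (a κ : ℝ) (p : E) : Measurable (U a κ p 0) ∧ Measurable (V a κ p 0) ∧
    Measurable (L a κ p 0) := by
  have c0 : Measurable G := (continuous_iff_continuousAt.mpr fun t => (dG t).continuousAt).measurable
  have c1 : Measurable g := (continuous_iff_continuousAt.mpr fun t => (dg t).continuousAt).measurable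
  have c2 := cg1.measurable
  unfold U V L A A1 A2 m ta
  refine ⟨?_, ?_, ?_⟩ <;> fun_prop

lemma sumB {μ : Measure E} (B : ℕ → E → ℝ) (hi : ∀ k, Integrable (B k) μ)
    (hs : Summable fun k => ∫ x, ‖B k x‖ ∂μ) :
    (∀ᵐ x ∂μ, Summable fun k => ‖B k x‖) ∧ Integrable (fun x => ∑' k, B k x) μ := by
  have h : ∑' k, ∫⁻ x, ‖B k x‖ₑ ∂μ ≠ ⊤ := by
    simp_rw [fun k => (ofReal_integral_norm_eq_lintegral_enorm (hi k)).symm]
    rw [← ENNReal.ofReal_tsum_of_nonneg (fun k => by positivity) hs]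
    exact ENNReal.ofReal_ne_top
  refine ⟨summable_norm_of_tsum_eLpNorm_ne_top le_rfl (fun k => (hi k).1)
    (by simpa only [eLpNorm_one_eq_lintegral_enorm] using h),
    AEStronglyMeasurable.tsum fun k => (hi k).1, ?_⟩
  refine lt_of_le_of_lt (lintegral_mono fun x => enorm_tsum_le_tsum_enorm) ?_
  rw [lintegral_tsum fun k => (hi k).1.enorm]
  exact h.lt_top

lemma amgm (y P Q : ℝ) (hP : 0 ≤ P) (hQ : 0 ≤ Q) (h : y ^ 2 ≤ P * Q) : y ≤ (P + Q) / 2 := by
  by_contra k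
  push Not at k
  nlinarith [sq_nonneg (P - Q)]

end Pool.Agent.H89.Spike
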