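import Pool.Agent.H89.FP2

set_option autoImplicit false
open Set Topology Filter

namespace Pool.Agent.H89.TS

/-- Successive finite sets. -/
abbrev Lt (A B : Finset ℕ) : Prop := ∀ a ∈ A, ∀ b ∈ B, a < b

/-- Restriction of a finitely supported sequence. -/
noncomputable abbrev res (A : Finset ℕ) (x : ℕ →₀ ℝ) : ℕ →₀ ℝ := x.filter (· ∈ A)

lemma res_empty (x : ℕ →₀ ℝ) : res ∅ x = 0 := by ext; simp

lemma res_res {A B : Finset ℕ} (h : A ⊆ B) (x : ℕ →₀ ℝ) : res A (res B x) = res A x := by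
  ext i
  by_cases hi : i ∈ A
  · simp [Finsupp.filter_apply, hi, h hi]
  · simp [Finsupp.filter_apply, hi]

lemma res_inter (A B : Finset ℕ) (x : ℕ →₀ ℝ) : res A (res B x) = res (A ∩ B) x := by
  ext i
  by_cases hi : i ∈ A <;> by_cases hj : i ∈ B <;> simp [Finsupp.filter_apply, hi, hj]

lemma sum_filter_ne (N : (ℕ →₀ ℝ) → ℝ) (h0 : N 0 = 0) (x : ℕ →₀ ℝ) (L : List (Finset ℕ)) :
    ((L.filter fun A => A.Nonempty).map fun A => N (res A x)).sum =
      (L.map fun A => N (res A x)).sum := by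
  induction L with
  | nil => simp
  | cons A L ih =>
    rcases A.eq_empty_or_nonempty with rfl | h
    · simp [ih, res_empty, h0]
    · simp [ih, h]

lemma split (N : (ℕ →₀ ℝ) → ℝ) (h0 : N 0 = 0) (x : ℕ →₀ ℝ) {L : List (Finset ℕ)}
    (hL : L.Pairwise Lt) : (∀ A ∈ L, (res A x).support.card < x.support.card) ∨
      (L.map fun A => N (res A x)).sum = N x := by
  by_cases h : ∃ A ∈ L, x.support ⊆ A
  · obtain ⟨A, hA, hs⟩ := h
    obtain ⟨s, t, rfl⟩ := List.append_of_mem hA
    rw [List.pairwise_append, List.pairwise_cons] at hL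
    have e1 : res A x = x := by
      ext i
      by_cases hi : i ∈ x.support
      · simp [Finsupp.filter_apply, hs hi]
      · simp [Finsupp.filter_apply, Finsupp.notMem_support_iff.1 hi]
    have e2 : ∀ u : List (Finset ℕ), (∀ B ∈ u, ∀ i ∈ B, i ∉ A) →
        (u.map fun A => N (res A x)).sum = 0 := by
      intro u hu
      refine List.sum_eq_zero fun r hr => ?_
      obtain ⟨B, hB, rfl⟩ := List.mem_map.1 hr
      rw [← h0]
      congr 1
      ext i
      by_cases hi : i ∈ B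
      · simp [Finsupp.filter_apply, Finsupp.notMem_support_iff.1 fun h => hu B hB i hi (hs h)]
      · simp [Finsupp.filter_apply, hi]
    right
    rw [List.map_append, List.sum_append, List.map_cons, List.sum_cons, e1,
      e2 s fun B hB i hi hi' => lt_irrefl _ (hL.2.2 B hB A (by simp) i hi i hi'),
      e2 t fun B hB i hi hi' => lt_irrefl _ (hL.2.1.1 B hB i hi' i hi)]
    simp
  · push Not at h
    refine Or.inl fun A hA => Finset.card_lt_card ?_
    rw [Finsupp.support_filter]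
    refine Finset.filter_ssubset.2 ?_
    by_contra hc
    push Not at hc
    exact h A hA hc

lemma l1_list (g : ℕ → ℝ) (hg : ∀ i, 0 ≤ g i) {L : List (Finset ℕ)} (hL : L.Pairwise Lt)
    (J : Finset ℕ) : (L.map fun A => ∑ k ∈ A ∩ J, g k).sum ≤ ∑ k ∈ J, g k := by
  induction L generalizing J with
  | nil => simpa using Finset.sum_nonneg fun i _ => hg i
  | cons A L ih =>
    rw [List.pairwise_cons] at hL
    have e1 : (L.map fun B => ∑ k ∈ B ∩ J, g k) = L.map fun B => ∑ k ∈ B ∩ (J \ A), g k := by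
      refine List.map_congr_left fun B hB => Finset.sum_congr ?_ fun _ _ => rfl
      ext i
      simp only [Finset.mem_inter, Finset.mem_sdiff]
      exact ⟨fun h => ⟨h.1, h.2, fun h' => lt_irrefl _ (hL.1 B hB i h' i h.1)⟩,
        fun h => ⟨h.1, h.2.1⟩⟩
    rw [List.map_cons, List.sum_cons, e1, ← Finset.sum_inter_add_sum_sdiff J A g,
      Finset.inter_comm]
    exact add_le_add le_rfl (ih hL.2 _)

lemma drop_ge {L : List (Finset ℕ)} (hL : L.Pairwise Lt) (hne : ∀ A ∈ L, A.Nonempty) {m : ℕ}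
    (hm : ∀ A ∈ L, ∀ k ∈ A, m ≤ k) (t : ℕ) : ∀ A ∈ L.drop t, ∀ k ∈ A, m + t ≤ k := by
  induction t generalizing L m with
  | zero => simpa using hm
  | succ t ih =>
    rcases L with _ | ⟨B, L⟩
    · simp
    · rw [List.pairwise_cons] at hL
      obtain ⟨b, hb⟩ := hne B (by simp)
      intro A hA k hk
      have := ih hL.2 (fun A hA => hne A (by simp [hA])) (m := m + 1)
        (fun A hA k hk => (hm B (by simp) b hb).trans_lt (hL.1 A hA b hb k hk)) A hA k hk
      omega

/-- Admissible families (coordinates are numbered from `0`). -/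
def Adm (L : List (Finset ℕ)) : Prop :=
  (∀ A ∈ L, A.Nonempty) ∧ L.Pairwise Lt ∧ ∀ A ∈ L, ∀ k ∈ A, L.length ≤ k + 1

/-- The Tsirelson equation. -/
def Eqn (N : (ℕ →₀ ℝ) → ℝ) : Prop := ∀ x, IsLUB
  {r | (∃ k, r = |x k|) ∨ ∃ L, Adm L ∧ r = 1 / 2 * (L.map fun A => N (res A x)).sum} (N x)

variable {N : (ℕ →₀ ℝ) → ℝ}

lemma Eqn.coord (H : Eqn N) (x : ℕ →₀ ℝ) (k : ℕ) : |x k| ≤ N x := (H x).1 (Or.inl ⟨k, rfl⟩)

lemma Eqn.nonneg (H : Eqn N) (x : ℕ →₀ ℝ) : 0 ≤ N x := (abs_nonneg _).trans (H.coord x 0)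

lemma Eqn.up (H : Eqn N) (h0 : N 0 = 0) (x : ℕ →₀ ℝ) {L : List (Finset ℕ)} (hL : L.Pairwise Lt)
    (h : ∀ A ∈ L, ∀ k ∈ A, L.length ≤ k + 1) : (L.map fun A => N (res A x)).sum ≤ 2 * N x := by
  have := (H x).1 (Or.inr ⟨L.filter fun A => A.Nonempty, ⟨fun A hA => by
    simpa using (List.mem_filter.1 hA).2, hL.filter _, fun A hA k hk =>
      (List.length_filter_le _ _).trans (h A (List.mem_filter.1 hA).1 k hk)⟩, rfl⟩)
  rw [sum_filter_ne N h0] at this
  linarith

lemma Eqn.approx (H : Eqn N) {x : ℕ →₀ ℝ} {r : ℝ} (hr : r < N x) :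
    (∃ k, r < |x k|) ∨ ∃ L, Adm L ∧ r < 1 / 2 * (L.map fun A => N (res A x)).sum := by
  obtain ⟨_, ⟨k, rfl⟩ | ⟨L, hL, rfl⟩, h⟩ := (lt_isLUB_iff (H x)).1 hr
  · exact Or.inl ⟨k, h⟩
  · exact Or.inr ⟨L, hL, h⟩

lemma Eqn.dom (H : Eqn N) (h0 : N 0 = 0) {a : ℕ → ℕ} (ha : StrictMono a) (x y : ℕ →₀ ℝ)
    (h : ∀ j, |x j| ≤ |y (a j)|) : N x ≤ N y := by
  induction hn : x.support.card using Nat.strong_induction_on generalizing x y with
  | _ n ih =>
  subst hn
  by_contra hc
  rw [not_le] at hc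
  have h1 := H.nonneg y
  rcases H.approx (max_lt hc (show N x / 2 < N x by linarith)) with ⟨k, hk⟩ | ⟨L, hL, hr⟩
  · linarith [le_max_left (N y) (N x / 2), h k, H.coord y (a k)]
  rcases split N h0 x hL.2.1 with h2 | h2
  · have a1 := H.up h0 y (L := L.map (Finset.image a)) (by
      rw [List.pairwise_map]
      refine hL.2.1.imp fun hAB i hi j hj => ?_
      obtain ⟨i, hi', rfl⟩ := Finset.mem_image.1 hi
      obtain ⟨j, hj', rfl⟩ := Finset.mem_image.1 hj
      exact ha (hAB i hi' j hj')) (by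
      intro A hA k hk
      obtain ⟨A, hA', rfl⟩ := List.mem_map.1 hA
      obtain ⟨k, hk', rfl⟩ := Finset.mem_image.1 hk
      rw [List.length_map]
      exact (hL.2.2 A hA' k hk').trans (Nat.succ_le_succ ha.le_apply))
    rw [List.map_map] at a1
    have a2 : (L.map fun A => N (res A x)).sum ≤
        (L.map ((fun A => N (res A y)) ∘ Finset.image a)).sum :=
      List.sum_le_sum fun A hA => ih _ (h2 A hA) _ _ (fun j => by
        by_cases hj : j ∈ A
        · simpa [Finsupp.filter_apply, hj, ha.injective.eq_iff] using h j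
        · simp [Finsupp.filter_apply, hj]) rfl
    linarith [le_max_left (N y) (N x / 2)]
  · rw [h2] at hr
    linarith [le_max_right (N y) (N x / 2)]

lemma Eqn.res_le (H : Eqn N) (h0 : N 0 = 0) (A : Finset ℕ) (x : ℕ →₀ ℝ) : N (res A x) ≤ N x :=
  H.dom h0 strictMono_id _ _ fun j => by
    by_cases hj : j ∈ A <;> simp [Finsupp.filter_apply, hj]

lemma Eqn.single (H : Eqn N) (h0 : N 0 = 0) (k : ℕ) : N (Finsupp.single k 1) = 1 := by
  refine le_antisymm ?_ (by simpa using H.coord (Finsupp.single k 1) k)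
  by_contra hc
  rw [not_le] at hc
  rcases H.approx (max_lt hc (show N (Finsupp.single k 1) / 2 < _ by linarith)) with
    ⟨j, hj⟩ | ⟨L, hL, hr⟩
  · have : |Finsupp.single k (1 : ℝ) j| ≤ 1 := by
      rw [Finsupp.single_apply]; split_ifs <;> simp
    linarith [le_max_left 1 (N (Finsupp.single k 1) / 2)]
  rcases split N h0 (Finsupp.single k 1) hL.2.1 with h2 | h2
  · rw [List.sum_eq_zero fun r hr => ?_] at hr
    · linarith [le_max_left 1 (N (Finsupp.single k 1) / 2)]
    · obtain ⟨A, hA, rfl⟩ := List.mem_map.1 hr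
      have := h2 A hA
      rw [Finsupp.support_single_ne_zero _ one_ne_zero, Finset.card_singleton, Nat.lt_one_iff,
        Finset.card_eq_zero, Finsupp.support_eq_empty] at this
      rw [this, h0]
  · rw [h2] at hr
    linarith [le_max_right 1 (N (Finsupp.single k 1) / 2)]

lemma Eqn.group (H : Eqn N) (h0 : N 0 = 0) (x : ℕ →₀ ℝ) {L : List (Finset ℕ)}
    (hL : L.Pairwise Lt) {m : ℕ} (hm : ∀ A ∈ L, ∀ k ∈ A, m ≤ k) (hl : L.length ≤ 3 * (m + 1)) :
    ∃ A B : Finset ℕ, Lt A B ∧ (∀ k ∈ A, m ≤ k) ∧ (∀ k ∈ B, m ≤ k) ∧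
      (L.map fun A => N (res A x)).sum ≤ 2 * N (res A x) + 2 * N (res B x) := by
  wlog hne : ∀ A ∈ L, A.Nonempty generalizing L
  · rw [← sum_filter_ne N h0]
    exact this (hL.filter _) (fun A hA => hm A (List.mem_filter.1 hA).1)
      ((List.length_filter_le _ _).trans hl) fun A hA => by simpa using (List.mem_filter.1 hA).2
  have key : ∀ u : List (Finset ℕ), u.Pairwise Lt → (∀ A ∈ u, ∀ k ∈ A, u.length ≤ k + 1) →
      (u.map fun A => N (res A x)).sum ≤ 2 * N (res (u.toFinset.biUnion id) x) := by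
    intro u h1 h2
    refine le_trans (le_of_eq ?_) (H.up h0 _ h1 h2)
    congr 1
    refine List.map_congr_left fun A hA => ?_
    rw [res_res (A := A) (Finset.subset_biUnion_of_mem id (List.mem_toFinset.2 hA))]
  have hp := hL
  rw [← List.take_append_drop (m + 1) L, List.pairwise_append] at hp
  refine ⟨(L.take (m + 1)).toFinset.biUnion id, (L.drop (m + 1)).toFinset.biUnion id, ?_, ?_, ?_,
    ?_⟩
  · intro a ha b hb
    simp only [Finset.mem_biUnion, List.mem_toFinset, id] at ha hb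
    obtain ⟨A, hA, ha⟩ := ha
    obtain ⟨B, hB, hb⟩ := hb
    exact hp.2.2 A hA B hB a ha b hb
  · intro a ha
    simp only [Finset.mem_biUnion, List.mem_toFinset, id] at ha
    obtain ⟨A, hA, ha⟩ := ha
    exact hm A (List.mem_of_mem_take hA) a ha
  · intro a ha
    simp only [Finset.mem_biUnion, List.mem_toFinset, id] at ha
    obtain ⟨A, hA, ha⟩ := ha
    exact hm A (List.mem_of_mem_drop hA) a ha
  · conv_lhs => rw [← List.take_append_drop (m + 1) L, List.map_append, List.sum_append]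
    refine add_le_add (key _ hp.1 fun A hA k hk => ?_) (key _ hp.2.1 fun A hA k hk => ?_)
    · have := hm A (List.mem_of_mem_take hA) k hk
      rw [List.length_take]
      omega
    · have := drop_ge hL hne hm (m + 1) A hA k hk
      rw [List.length_drop]
      omega

end Pool.Agent.H89.TS
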