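import Pool.Agent.H89.TS1

set_option autoImplicit false
open Set Topology Filter

namespace Pool.Agent.H89.TS

variable {N : (ℕ →₀ ℝ) → ℝ}

/-- Uniform `l1` estimate on the intervals `[n, g n)`. -/
def L1 (N : (ℕ →₀ ℝ) → ℝ) (g : ℕ → ℕ) (C : ℝ) : Prop :=
  ∀ n x, ∑ k ∈ Finset.Ico n (g n), |x k| ≤ C * N x

lemma L1.mono {g h : ℕ → ℕ} {C : ℝ} (H : L1 N h C) (hg : ∀ n, g n ≤ h n) : L1 N g C :=
  fun n x => (Finset.sum_le_sum_of_subset_of_nonneg (Finset.Ico_subset_Ico le_rfl (hg n))
    fun _ _ _ => abs_nonneg _).trans (H n x)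

lemma ico_split (u : ℕ → ℝ) (hu : ∀ i, 0 ≤ u i) (a b c : ℕ) :
    ∑ k ∈ Finset.Ico a c, u k ≤ ∑ k ∈ Finset.Ico a b, u k + ∑ k ∈ Finset.Ico b c, u k := by
  rw [← Finset.sum_union (Finset.Ico_disjoint_Ico_consecutive a b c)]
  exact Finset.sum_le_sum_of_subset_of_nonneg (Finset.Ico_subset_Ico_union_Ico)
    fun i _ _ => hu i

lemma L1.comp {g h : ℕ → ℕ} {C D : ℝ} (H : L1 N g C) (H' : L1 N h D) :
    L1 N (h ∘ g) (C + D) := fun n x => by
  have := ico_split (fun k => |x k|) (fun _ => abs_nonneg _) n (g n) (h (g n))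
  have := H n x
  have := H' (g n) x
  simp only [Function.comp]
  linarith

lemma L1.iter {g : ℕ → ℕ} {C : ℝ} (H : L1 N g C) (c : ℕ) : L1 N g^[c] (c * C) := by
  induction c with
  | zero => intro n x; simp
  | succ c ih =>
    rw [Function.iterate_succ']
    push_cast
    rw [add_mul, one_mul]
    exact ih.comp H

lemma Eqn.diag (H : Eqn N) (h0 : N 0 = 0) {g : ℕ → ℕ} {C : ℝ} (hC : 0 ≤ C) (hg : ∀ n, n ≤ g n)
    (H' : L1 N g C) : L1 N (fun n => g^[n + 1] n) (2 * C) := by
  intro n x
  have hm : Monotone fun i => g^[i] n := monotone_nat_of_le_succ fun i => by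
    rw [Function.iterate_succ_apply']; exact hg _
  have a1 := H.up h0 x (L := (List.range (n + 1)).map fun i => Finset.Ico (g^[i] n) (g^[i + 1] n))
    (by
      rw [List.pairwise_map]
      refine List.pairwise_lt_range.imp fun hij a ha b hb => ?_
      exact (Finset.mem_Ico.1 ha).2.trans_le ((hm hij).trans (Finset.mem_Ico.1 hb).1))
    (by
      intro A hA k hk
      obtain ⟨i, -, rfl⟩ := List.mem_map.1 hA
      have := (hm (Nat.zero_le i)).trans (Finset.mem_Ico.1 hk).1
      simpa using this)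
  have a2 : ∀ t, ∑ k ∈ Finset.Ico n (g^[t] n), |x k| ≤ C * (((List.range t).map fun i =>
      Finset.Ico (g^[i] n) (g^[i + 1] n)).map fun A => N (res A x)).sum := by
    intro t
    induction t with
    | zero => simp
    | succ t ih =>
      have b1 := ico_split (fun k => |x k|) (fun _ => abs_nonneg _) n (g^[t] n) (g^[t + 1] n)
      have b2 := H' (g^[t] n) (res (Finset.Ico (g^[t] n) (g^[t + 1] n)) x)
      rw [← Function.iterate_succ_apply' g, Finset.sum_congr rfl (g := fun k => |x k|)
        fun k hk => by rw [Finsupp.filter_apply_pos _ _ hk]] at b2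
      rw [List.range_succ, List.map_append, List.map_append, List.sum_append, mul_add]
      simp only [List.map_cons, List.map_nil, List.sum_cons, List.sum_nil, add_zero]
      linarith
  have := mul_le_mul_of_nonneg_left a1 hC
  linarith [a2 (n + 1)]

lemma Eqn.l1_one (H : Eqn N) (h0 : N 0 = 0) : L1 N (fun n => 2 * n + 1) 2 := by
  have h1 : L1 N (· + 1) 1 := fun n x => by simpa using H.coord x n
  have := H.diag h0 zero_le_one (fun n => Nat.le_succ n) h1
  rw [mul_one] at this
  refine this.mono fun n => ?_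
  have : ∀ t, (fun x => x + 1)^[t] n = n + t := fun t => by
    induction t with
    | zero => rfl
    | succ t ih => rw [Function.iterate_succ_apply', ih]; rfl
  rw [this]
  omega

lemma Eqn.l1_exp (H : Eqn N) (h0 : N 0 = 0) : L1 N (fun n => 2 ^ n) 4 := by
  have := H.diag h0 zero_le_two (fun n => by omega) (H.l1_one h0)
  rw [show (2 : ℝ) * 2 = 4 by norm_num] at this
  refine this.mono fun n => ?_
  have : ∀ t, 2 ^ t ≤ (fun n => 2 * n + 1)^[t + 1] n := by
    intro t
    induction t with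
    | zero => simp
    | succ t ih => rw [Function.iterate_succ_apply', pow_succ]; omega
  exact this n

/-- Upward shifts along sequences of controlled growth are bounded. -/
theorem Eqn.shift (H : Eqn N) (h0 : N 0 = 0) (hadd : ∀ x y, N (x + y) ≤ N x + N y)
    (hl1 : ∀ (A : Finset ℕ) (a : ℕ → ℕ) (x : ℕ →₀ ℝ),
      N ((res A x).mapDomain a) ≤ ∑ k ∈ A, |x k|)
    {a G : ℕ → ℕ} (ha : StrictMono a) (hG : ∀ j, a j < G j) {C : ℝ} (hC : 1 ≤ C)
    (hL1 : L1 N G C) (y : ℕ →₀ ℝ) : N (y.mapDomain a) ≤ 6 * C * N y := by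
  suffices key : ∀ r < N (y.mapDomain a), ∃ A B D : Finset ℕ, Lt A B ∧ Lt A D ∧ Lt B D ∧
      r < 2 * C * (N (res A y) + N (res B y) + N (res D y)) by
    refine le_of_forall_lt_imp_le_of_dense fun r hr => ?_
    obtain ⟨A, B, D, -, -, -, h⟩ := key r hr
    nlinarith [H.res_le h0 A y, H.res_le h0 B y, H.res_le h0 D y]
  induction hn : y.support.card using Nat.strong_induction_on generalizing y with
  | _ n ih =>
  subst hn
  intro r hr
  have hE : ∀ A : Finset ℕ, Lt A ∅ := fun A _ _ _ hb => absurd hb (by simp)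
  rcases (H.nonneg (y.mapDomain a)).eq_or_lt with hz | hz
  · exact ⟨∅, ∅, ∅, hE _, hE _, hE _, by simp [res_empty, h0, hr.trans_eq hz.symm]⟩
  have hr1 := le_max_left r (N (y.mapDomain a) / 2)
  have hr2 := le_max_right r (N (y.mapDomain a) / 2)
  rcases H.approx (max_lt hr (show N (y.mapDomain a) / 2 < _ by linarith)) with
    ⟨k, hk⟩ | ⟨L, hL, hs⟩
  · by_cases h : k ∈ range a
    · obtain ⟨j, rfl⟩ := h
      rw [Finsupp.mapDomain_apply ha.injective] at hk
      refine ⟨{j}, ∅, ∅, hE _, hE _, hE _, ?_⟩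
      have := H.coord (res {j} y) j
      rw [Finsupp.filter_apply_pos _ _ (by simp)] at this
      simp only [res_empty, h0, add_zero]
      nlinarith [H.nonneg (res {j} y)]
    · rw [Finsupp.mapDomain_notin_range _ _ h, abs_zero] at hk
      linarith
  let pre : Finset ℕ → Finset ℕ := fun A => y.support.filter fun j => a j ∈ A
  have e1 : ∀ A, res A (y.mapDomain a) = (res (pre A) y).mapDomain a := by
    intro A
    ext k
    by_cases h : k ∈ range a
    · obtain ⟨j, rfl⟩ := h
      simp only [Finsupp.filter_apply, Finsupp.mapDomain_apply ha.injective, pre,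
        Finset.mem_filter, Finsupp.mem_support_iff]
      by_cases h1 : y j = 0 <;> simp [h1]
    · simp [Finsupp.filter_apply, Finsupp.mapDomain_notin_range _ _ h]
  have hP : (L.map pre).Pairwise Lt := by
    rw [List.pairwise_map]
    refine hL.2.1.imp ?_
    intro A B hAB i hi j hj
    exact ha.lt_iff_lt.1 (hAB _ (Finset.mem_filter.1 hi).2 _ (Finset.mem_filter.1 hj).2)
  have e2 : (L.map fun A => N (res A (y.mapDomain a))) =
      (L.map pre).map fun A => N ((res A y).mapDomain a) := by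
    rw [List.map_map]
    exact List.map_congr_left fun A _ => by rw [e1]; rfl
  rw [e2] at hs
  have hlen : ∀ A ∈ L.map pre, ∀ k ∈ A, (L.map pre).length ≤ G k := by
    intro A hA k hk
    obtain ⟨A, hA', rfl⟩ := List.mem_map.1 hA
    rw [List.length_map]
    exact (hL.2.2 A hA' _ (Finset.mem_filter.1 hk).2).trans (hG k)
  generalize L.map pre = M at hs hP hlen
  rcases split (fun x => N (x.mapDomain a)) (by simp [h0]) y hP with h2 | h2
  swap
  · rw [h2] at hs
    linarith
  have hex : ∃ n, ∃ A ∈ M, n ∈ A := by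
    by_contra hc
    push Not at hc
    rw [List.sum_eq_zero fun r hr => ?_] at hs
    · linarith
    · obtain ⟨A, hA, rfl⟩ := List.mem_map.1 hr
      rw [Finset.eq_empty_of_forall_notMem fun n => hc n A hA]
      simp [res_empty, h0]
  classical
  obtain ⟨n, ⟨A0, hA0, hn0⟩, hn⟩ : ∃ n, (∃ A ∈ M, n ∈ A) ∧ ∀ A ∈ M, ∀ k ∈ A, n ≤ k :=
    ⟨Nat.find hex, Nat.find_spec hex, fun A hA k hk => Nat.find_min' hex ⟨A, hA, hk⟩⟩
  set J := Finset.Ico n (G n) with hJ
  have Q : ∀ u : List (Finset ℕ), u.Pairwise Lt →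
      (∀ A ∈ u, (res A y).support.card < y.support.card) →
      ∀ s < (u.map fun A => N ((res (A \ J) y).mapDomain a)).sum, ∃ v : List (Finset ℕ),
        v.Pairwise Lt ∧ v.length = 3 * u.length ∧ (∀ F ∈ v, ∃ A ∈ u, F ⊆ A \ J) ∧
        s < 2 * C * (v.map fun A => N (res A y)).sum := by
    intro u hu hc
    induction u with
    | nil => intro s hs; exact ⟨[], by simp, by simp, by simp, by simpa using hs⟩
    | cons A u ihu =>
      intro s hs
      rw [List.pairwise_cons] at hu
      rw [List.map_cons, List.sum_cons] at hs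
      set p := N ((res (A \ J) y).mapDomain a)
      set q := (u.map fun A => N ((res (A \ J) y).mapDomain a)).sum
      obtain ⟨v, v1, v2, v3, v4⟩ := ihu hu.2 (fun B hB => hc B (by simp [hB]))
        (q - (p + q - s) / 2) (by linarith)
      obtain ⟨A1, A2, A3, w1, w2, w3, w4⟩ := ih _ (lt_of_le_of_lt (Finset.card_le_card (by
        simp only [Finsupp.support_filter]
        exact Finset.monotone_filter_right _ fun k _ hk => (Finset.mem_sdiff.1 hk).1))
        (hc A (by simp))) (res (A \ J) y) rfl (p - (p + q - s) / 2) (by linarith)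
      simp only [res_inter] at w4
      have w5 : ∀ B : Finset ℕ, ∀ F ∈ v, Lt (B ∩ (A \ J)) F := by
        intro B F hF i hi j hj
        obtain ⟨A', hA', hs⟩ := v3 F hF
        exact hu.1 A' hA' i (Finset.mem_sdiff.1 (Finset.mem_inter.1 hi).2).1 j
          (Finset.mem_sdiff.1 (hs hj)).1
      have w6 : ∀ {B B' : Finset ℕ}, Lt B B' → Lt (B ∩ (A \ J)) (B' ∩ (A \ J)) :=
        fun h i hi j hj => h i (Finset.mem_inter.1 hi).1 j (Finset.mem_inter.1 hj).1
      refine ⟨A1 ∩ (A \ J) :: A2 ∩ (A \ J) :: A3 ∩ (A \ J) :: v, ?_, ?_, ?_, ?_⟩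
      · simp only [List.pairwise_cons, List.forall_mem_cons]
        exact ⟨⟨w6 w1, w6 w2, w5 _⟩, ⟨w6 w3, w5 _⟩, w5 _, v1⟩
      · simp only [List.length_cons, v2]; ring
      · simp only [List.forall_mem_cons]
        exact ⟨⟨A, by simp, Finset.inter_subset_right⟩, ⟨A, by simp, Finset.inter_subset_right⟩,
          ⟨A, by simp, Finset.inter_subset_right⟩, fun F hF => by
            obtain ⟨A', hA', hs⟩ := v3 F hF
            exact ⟨A', by simp [hA'], hs⟩⟩
      · simp only [List.map_cons, List.sum_cons]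
        linarith
  have a1 : (M.map fun A => N ((res A y).mapDomain a)).sum ≤
      (M.map fun A => ∑ k ∈ A ∩ J, |y k|).sum +
        (M.map fun A => N ((res (A \ J) y).mapDomain a)).sum := by
    rw [← List.sum_map_add]
    refine List.sum_le_sum fun A _ => ?_
    have : res A y = res (A ∩ J) y + res (A \ J) y := by
      ext k
      by_cases h1 : k ∈ A <;> by_cases h2 : k ∈ J <;> simp [Finsupp.filter_apply, h1, h2]
    rw [this, Finsupp.mapDomain_add]
    exact (hadd _ _).trans (add_le_add (hl1 _ _ _) le_rfl)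
  have a2 := l1_list (fun k => |y k|) (fun _ => abs_nonneg _) hP J
  have a3 := hL1 n (res J y)
  rw [← hJ, Finset.sum_congr rfl (g := fun k => |y k|)
    fun k hk => by rw [Finsupp.filter_apply_pos _ _ hk]] at a3
  obtain ⟨v, v1, v2, v3, v4⟩ := Q M hP h2 (2 * r - C * N (res J y)) (by linarith)
  obtain ⟨B, D, b1, b2, b3, b4⟩ := H.group h0 y v1 (m := G n) (fun F hF k hk => by
    obtain ⟨A, hA, hs⟩ := v3 F hF
    have c1 := Finset.mem_sdiff.1 (hs hk)
    have c2 := hn A hA k c1.1
    have c3 := c1.2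
    rw [hJ, Finset.mem_Ico] at c3
    omega) (by have := hlen A0 hA0 n hn0; omega)
  refine ⟨J, B, D, fun i hi j hj => (Finset.mem_Ico.1 hi).2.trans_le (b2 j hj),
    fun i hi j hj => (Finset.mem_Ico.1 hi).2.trans_le (b3 j hj), b1, ?_⟩
  have := mul_le_mul_of_nonneg_left b4 (show 0 ≤ 2 * C by linarith)
  nlinarith [H.nonneg (res J y)]

end Pool.Agent.H89.TS
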