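import Pool.Agent.H89.TS2

set_option autoImplicit false
open Set Topology Filter

namespace Pool.Agent.H89.TS
open FP

lemma exp_add (c n : ℕ) : n + c ≤ (fun n => 2 ^ n)^[c] n := by
  induction c with
  | zero => simp
  | succ c ih =>
    rw [Function.iterate_succ_apply']
    exact Nat.succ_le_of_lt (ih.trans_lt Nat.lt_two_pow_self)

variable {X : Type} [NormedAddCommGroup X] [NormedSpace ℝ X]
  {e : ℕ → X} {f : ℕ → X →L[ℝ] ℝ}

lemma lc_res (e : ℕ → X) (A : Finset ℕ) (x : ℕ →₀ ℝ) :
    Finsupp.linearCombination ℝ e (res A x) = ∑ k ∈ A, x k • e k := by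
  rw [Finsupp.linearCombination_apply, Finsupp.sum_of_support_subset (s := A)]
  · exact Finset.sum_congr rfl fun k hk => by rw [Finsupp.filter_apply_pos _ _ hk]
  · rw [Finsupp.support_filter]
    exact fun k hk => (Finset.mem_filter.1 hk).2
  · simp

lemma norm_e (H : Eqn fun x => ‖Finsupp.linearCombination ℝ e x‖) (k : ℕ) : ‖e k‖ = 1 := by
  simpa using H.single (by simp) k

lemma schauder' (hd : DenseRange (Finsupp.linearCombination ℝ e))
    (hbi : ∀ i j, f i (e j) = if i = j then 1 else 0)
    (H : Eqn fun x => ‖Finsupp.linearCombination ℝ e x‖) (x : X) :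
    Tendsto (fun n => ∑ i ∈ Finset.range n, f i x • e i) atTop (𝓝 x) := by
  refine schauder hd hbi (fun n y => ?_) x
  refine hd.induction_on y (isClosed_le (by fun_prop) (by fun_prop)) fun z => ?_
  simp only [coord_lc hbi, ← lc_res]
  exact H.res_le (by simp) _ _

theorem fp [CompleteSpace X] (hd : DenseRange (Finsupp.linearCombination ℝ e))
    (hbi : ∀ i j, f i (e j) = if i = j then 1 else 0)
    (H : Eqn fun x => ‖Finsupp.linearCombination ℝ e x‖)
    (U : X →L[ℝ] X) {δ : ℝ} (hδ : 0 < δ) (hU : ∀ n, δ ≤ |f n (U (e n))|) :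
    ∃ R S : X →L[ℝ] X, S ∘L U ∘L R = ContinuousLinearMap.id ℝ X := by
  classical
  have h0 : (fun x => ‖Finsupp.linearCombination ℝ e x‖) 0 = 0 := by simp
  obtain ⟨c, hc⟩ := exists_nat_ge (16 * ‖U‖ / δ)
  let n : ℕ → ℕ := fun j => 2 ^ ((3 * (j + c) + 2) * (j + c + 2) + 1)
  have hn : ∀ j, 2 * n j + 1 ≤ n (j + 1) := by
    intro j
    have : n (j + 1) = n j * 2 ^ (6 * (j + c) + 11) := by
      simp only [n]; rw [← pow_add]; congr 1; ring
    have h1 : 0 < n j := by positivity
    have h2 : 2 ^ 2 ≤ 2 ^ (6 * (j + c) + 11) := Nat.pow_le_pow_right (by omega) (by omega)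
    nlinarith
  have hmono : ∀ a : ℕ → ℕ, (∀ j, a j ∈ Finset.Ico (n j) (2 * n j + 1)) → StrictMono a :=
    fun a ha => strictMono_nat_of_lt_succ fun j =>
      ((Finset.mem_Ico.1 (ha j)).2.trans_le (hn j)).trans_le (Finset.mem_Ico.1 (ha (j + 1))).1
  refine factor (schauder' hd hbi H) (fun i => (norm_e H i).le) (fun i x => ?_) hbi U hδ hU c
    ((div_le_iff₀ hδ).1 hc) (fun j => Finset.Ico (n j) (2 * n j + 1)) (fun j => 2 * (c * 4 ^ j))
    (fun j y η hη hy => ?_) (fun j => ?_) (fun a ha hi => ?_) (fun a d ha hi hd' => ?_)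
  · refine hd.induction_on x (isClosed_le (by fun_prop) (by fun_prop)) fun z => ?_
    rw [coord_lc hbi]
    exact H.coord z i
  · have a1 : ∑ k ∈ Finset.Ico (n j) (2 * n j + 1), |f k y| ≤ 2 * ‖y‖ := by
      refine hd.induction_on y (isClosed_le (by fun_prop) (by fun_prop)) fun z => ?_
      simp only [coord_lc hbi]
      exact H.l1_one h0 _ z
    have a2 := Finset.card_nsmul_le_sum
      ((Finset.Ico (n j) (2 * n j + 1)).filter fun i => η < |f i y|) (fun i => |f i y|) η
      fun i hi => (Finset.mem_filter.1 hi).2.le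
    have a3 := a2.trans ((Finset.sum_le_sum_of_subset_of_nonneg (Finset.filter_subset _ _)
      fun _ _ _ => abs_nonneg _).trans a1)
    rw [nsmul_eq_mul] at a3
    have a4 := le_of_mul_le_mul_right
      (a3.trans (show _ ≤ ((2 * (c * 4 ^ j) : ℕ) : ℝ) * η by push_cast at hy ⊢; linarith)) hη
    exact_mod_cast a4
  · rw [Nat.card_Ico]
    set q := 2 ^ (3 * (j + c) + 2) with hq
    have a1 : 2 * (c * 4 ^ j) + 1 ≤ q := by
      have b1 : c ≤ 2 ^ (j + c) := le_trans (by omega) Nat.lt_two_pow_self.le
      have b2 : 4 ^ j ≤ 4 ^ (j + c) := Nat.pow_le_pow_right (by omega) (by omega)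
      have b3 : q = 4 * (2 ^ (j + c) * 4 ^ (j + c)) := by
        rw [hq, ← mul_pow, pow_add, pow_mul]; norm_num [mul_comm]
      have b4 := Nat.mul_le_mul b1 b2
      have b5 : 0 < 2 ^ (j + c) * 4 ^ (j + c) := by positivity
      omega
    have a2 : 2 * j ≤ q := by
      have : 3 * (j + c) + 2 < q := Nat.lt_two_pow_self
      omega
    have a3 : n j = 2 * q ^ (j + c + 2) := by
      simp only [n]; rw [hq, ← pow_mul, pow_succ, mul_comm]
    have hq0 : 0 < q := by positivity
    have a4 : (2 * (c * 4 ^ j) + 1) ^ j * (2 * (c * 4 ^ j) + 1) ≤ q ^ (j + c + 2) := by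
      rw [← pow_succ]
      exact (Nat.pow_le_pow_left a1 _).trans (Nat.pow_le_pow_right hq0 (by omega))
    have a5 : 2 * j * (2 * (c * 4 ^ j) + 1) ≤ q ^ (j + c + 2) := by
      refine (Nat.mul_le_mul a2 a1).trans ?_
      rw [← pow_two]
      exact Nat.pow_le_pow_right hq0 (by omega)
    omega
  · have hL := ((H.l1_exp h0).iter (c + 2 + 3)).mono (g := fun j => 2 * n j + 1) fun j => by
      rw [add_comm _ 3, Function.iterate_add_apply]
      have b1 := exp_add (c + 2) j
      generalize (fun n => 2 ^ n)^[c + 2] j = z at b1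
      change _ ≤ 2 ^ 2 ^ 2 ^ z
      have b2 : 2 * n j + 1 ≤ 2 ^ ((3 * (j + c) + 2) * (j + c + 2) + 3) := by
        have h1 : 0 < n j := by positivity
        have : 2 ^ ((3 * (j + c) + 2) * (j + c + 2) + 3) = n j * 4 := by
          simp only [n]; ring
        omega
      refine b2.trans (Nat.pow_le_pow_right (by omega) ?_)
      have b3 : 2 ^ (j + c) * 4 ≤ 2 ^ z := by
        rw [show 4 = 2 ^ 2 by norm_num, ← pow_add]
        exact Nat.pow_le_pow_right (by omega) (by omega)
      refine le_trans ?_ (Nat.pow_le_pow_right (by omega) b3)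
      rw [pow_mul]
      have b4 : j + c + 2 ≤ 2 ^ 2 ^ (j + c) := by
        have h1 : j + c < 2 ^ (j + c) := Nat.lt_two_pow_self
        have h2 : 2 ^ (j + c) < 2 ^ 2 ^ (j + c) := Nat.lt_two_pow_self
        omega
      refine le_trans ?_ (Nat.pow_le_pow_left b4 4)
      generalize j + c = y
      have : (y + 2) ^ 4 = (y + 2) ^ 2 * (y + 2) ^ 2 := by ring
      have h4 : 2 ^ 2 ≤ (y + 2) ^ 2 := Nat.pow_le_pow_left (by omega) 2
      nlinarith [Nat.mul_le_mul_right ((y + 2) ^ 2) h4]
    have hs := H.shift h0 (fun x y => by simpa using norm_add_le _ _) (fun A a x => by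
      simp only [Finsupp.linearCombination_mapDomain, lc_res]
      exact (norm_sum_le _ _).trans (le_of_eq (Finset.sum_congr rfl fun k _ => by
        simp [norm_smul, norm_e H]))) (hmono a ha) (fun j => (Finset.mem_Ico.1 (ha j)).2)
      (by push_cast; nlinarith [(Nat.cast_nonneg c : (0 : ℝ) ≤ c)]) hL
    obtain ⟨R, -, hR⟩ := ext_op hd (Finsupp.linearCombination ℝ (e ∘ a))
      (C := 6 * ((c + 2 + 3 : ℕ) * 4)) (by positivity) fun x => by
        simpa only [Finsupp.linearCombination_mapDomain] using hs x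
    exact ⟨R, fun j => by simpa using hR (Finsupp.single j 1)⟩
  · have hfin : ∀ x : ℕ →₀ ℝ, (Function.support fun i => d i * x (a i)).Finite := fun x =>
      Set.Finite.of_injOn (f := a) (t := x.support)
        (fun i hi => by simpa using right_ne_zero_of_mul hi) hi.injOn x.support.finite_toSet
    let T0 : (ℕ →₀ ℝ) →ₗ[ℝ] (ℕ →₀ ℝ) :=
      { toFun := fun x => Finsupp.ofSupportFinite _ (hfin x)
        map_add' := fun x y => by
          ext i; simp [Finsupp.ofSupportFinite_coe, mul_add]
        map_smul' := fun t x => by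
          ext i; simp [Finsupp.ofSupportFinite_coe, mul_left_comm] }
    have hT0 : ∀ x i, T0 x i = d i * x (a i) := fun x i => rfl
    obtain ⟨T, -, h2⟩ := ext_op hd (Finsupp.linearCombination ℝ e ∘ₗ T0) (C := δ⁻¹)
      (by positivity) fun x => by
        have := H.dom h0 (hmono a ha) (T0 x) (δ⁻¹ • x) fun j => by
          rw [hT0, Finsupp.smul_apply, smul_eq_mul, abs_mul, abs_mul, abs_of_pos (inv_pos.2 hδ)]
          exact mul_le_mul_of_nonneg_right (hd' j) (abs_nonneg _)
        simpa [norm_smul, abs_of_pos hδ] using this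
    refine ⟨T, fun i y => hd.induction_on y (isClosed_eq (by fun_prop) (by fun_prop))
      fun x => ?_⟩
    rw [h2, LinearMap.comp_apply, coord_lc hbi, coord_lc hbi, hT0]

/-- The norming set of the Tsirelson space. -/
inductive TK : (ℕ →₀ ℝ) → Prop
  | base (k : ℕ) (s : ℝ) (hs : |s| ≤ 1) : TK (Finsupp.single k s)
  | comb (L : List (Finset ℕ)) (g : Finset ℕ → ℕ →₀ ℝ) (hL : Adm L) (h : ∀ A, TK (g A)) :
      TK ((1 / 2 : ℝ) • (L.map fun A => res A (g A)).sum)

lemma TK.le_one {l : ℕ →₀ ℝ} (h : TK l) (i : ℕ) : |l i| ≤ 1 := by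
  induction h with
  | base k s hs => rw [Finsupp.single_apply]; split_ifs <;> simp [hs]
  | comb L g hL h ih =>
    have a1 := l1_list (fun _ => 1) (fun _ => zero_le_one) hL.2.1 {i}
    have a2 : ∀ u : List (Finset ℕ), |(u.map fun A => res A (g A)).sum i| ≤
        (u.map fun A => ∑ k ∈ A ∩ {i}, (1 : ℝ)).sum := by
      intro u
      induction u with
      | nil => simp
      | cons A u ihu =>
        simp only [List.map_cons, List.sum_cons, Finsupp.add_apply]
        refine (abs_add_le _ _).trans (add_le_add ?_ ihu)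
        by_cases hi : i ∈ A <;> simp [Finsupp.filter_apply, hi, ih A]
    rw [Finsupp.smul_apply, smul_eq_mul, abs_mul]
    have := (a2 L).trans a1
    simp only [Finset.sum_singleton] at this
    norm_num
    linarith

lemma TK.neg {l : ℕ →₀ ℝ} (h : TK l) : TK (-l) := by
  induction h with
  | base k s hs => rw [← Finsupp.single_neg]; exact TK.base k _ (by rwa [abs_neg])
  | comb L g hL h ih =>
    have := TK.comb L (fun A => -g A) hL ih
    rw [← smul_neg, List.sum_neg, List.map_map]
    simpa only [Finsupp.filter_neg, Function.comp_def] using this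

theorem exists_space : ∃ (X : Type) (_ : NormedAddCommGroup X) (_ : NormedSpace ℝ X)
    (_ : CompleteSpace X) (e : ℕ → X) (f : ℕ → X →L[ℝ] ℝ),
    DenseRange (Finsupp.linearCombination ℝ e) ∧ (∀ i j, f i (e j) = if i = j then 1 else 0) ∧
    Eqn fun x => ‖Finsupp.linearCombination ℝ e x‖ := by
  obtain ⟨X, i1, i2, i3, e, f, hd, hbi, hL, hU⟩ := space {l | TK l} (fun l h => h.le_one)
    fun i => TK.base i 1 (by simp)
  refine ⟨X, i1, i2, i3, e, f, hd, hbi, fun x => ?_⟩
  have hL' : ∀ l, TK l → ∀ y : ℕ →₀ ℝ,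
      |Finsupp.linearCombination ℝ y l| ≤ ‖Finsupp.linearCombination ℝ e y‖ := by
    intro l hl y
    have := hL l hl (Finsupp.linearCombination ℝ e y)
    simp only [coord_lc hbi] at this
    exact this
  have hU' : ∀ (y : ℕ →₀ ℝ) C, 0 ≤ C → (∀ l, TK l → |Finsupp.linearCombination ℝ y l| ≤ C) →
      ‖Finsupp.linearCombination ℝ e y‖ ≤ C := by
    intro y C hC h
    refine hU _ C hC fun l hl => ?_
    simp only [coord_lc hbi]
    exact h l hl
  have sw : ∀ (A : Finset ℕ) (l : ℕ →₀ ℝ), Finsupp.linearCombination ℝ x (res A l) =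
      Finsupp.linearCombination ℝ (res A x) l := by
    intro A l
    induction l using Finsupp.induction_linear with
    | zero => simp [Finsupp.filter_zero]
    | add u v hu hv => simp only [Finsupp.filter_add, map_add, hu, hv]
    | single a b =>
      by_cases h : a ∈ A <;> simp [h, Finsupp.filter_apply]
  have cm : ∀ (L : List (Finset ℕ)) (g : Finset ℕ → ℕ →₀ ℝ),
      Finsupp.linearCombination ℝ x ((1 / 2 : ℝ) • (L.map fun A => res A (g A)).sum) =
      1 / 2 * (L.map fun A => Finsupp.linearCombination ℝ (res A x) (g A)).sum := by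
    intro L g
    rw [map_smul, map_list_sum, List.map_map, smul_eq_mul]
    simp only [Function.comp_def, sw]
  constructor
  · rintro _ (⟨k, rfl⟩ | ⟨L, hA, rfl⟩)
    · simpa using hL' _ (TK.base k 1 (by simp)) x
    · refine le_of_forall_pos_le_add fun ε hε => ?_
      have hη : 0 < ε / (L.length + 1) := by positivity
      have : ∀ A, ∃ l, TK l ∧ ‖Finsupp.linearCombination ℝ e (res A x)‖ ≤
          Finsupp.linearCombination ℝ (res A x) l + ε / (L.length + 1) := by
        intro A
        by_contra hc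
        push Not at hc
        have b0 := hc _ (TK.base 0 0 (by simp))
        simp only [Finsupp.single_zero, map_zero, zero_add] at b0
        have := hU' (res A x) (‖Finsupp.linearCombination ℝ e (res A x)‖ - ε / (L.length + 1))
          (by linarith) fun l hl => by
            have b1 := hc l hl
            have b2 := hc _ hl.neg
            rw [map_neg] at b2
            rw [abs_le]
            constructor <;> linarith
        linarith
      choose g hg1 hg2 using this
      have a1 := (le_abs_self _).trans (hL' _ (TK.comb L g hA hg1) x)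
      rw [cm] at a1
      have a2 := List.sum_le_sum (l := L) fun A _ => hg2 A
      rw [List.sum_map_add, List.map_const', List.sum_replicate, nsmul_eq_mul] at a2
      have a3 : L.length * (ε / (L.length + 1)) ≤ ε := by
        rw [← mul_div_assoc, div_le_iff₀ (by positivity)]; nlinarith
      linarith
  · intro C hC
    have h1 : ∀ k, |x k| ≤ C := fun k => hC (Or.inl ⟨k, rfl⟩)
    refine hU' x C ((abs_nonneg _).trans (h1 0)) fun l hl => ?_
    cases hl with
    | base k s hs =>
      rw [Finsupp.linearCombination_single, smul_eq_mul, abs_mul]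
      exact (mul_le_of_le_one_left (abs_nonneg _) hs).trans (h1 k)
    | comb L g hA h =>
      refine le_trans ?_ (hC (Or.inr ⟨L, hA, rfl⟩))
      rw [cm, abs_mul, abs_of_pos (show (0 : ℝ) < 1 / 2 by norm_num)]
      refine mul_le_mul_of_nonneg_left ?_ (by norm_num)
      clear hA
      induction L with
      | nil => simp
      | cons A L ih =>
        simp only [List.map_cons, List.sum_cons]
        exact (abs_add_le _ _).trans (add_le_add (hL' _ (h A) _) ih)

end Pool.Agent.H89.TS
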