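import Mathlib

set_option autoImplicit false

namespace Pool.Agent.H89.Tame

open Function Submodule

def M := ℕ ↪ ℕ

instance : Monoid M where
  mul f g := g.trans f
  one := Embedding.refl ℕ
  mul_assoc _ _ _ := rfl
  one_mul _ := rfl
  mul_one _ := rfl

instance : CoeFun M fun _ => ℕ → ℕ := ⟨fun f => f.toFun⟩

lemma M.inj (f : M) : Injective f := f.inj'
@[simp] lemma mul_ap (f g : M) (i : ℕ) : (f * g) i = f (g i) := rfl
@[simp] lemma one_ap (i : ℕ) : (1 : M) i = i := rfl
lemma M.ext {f g : M} (h : ∀ i, f i = g i) : f = g := Embedding.ext h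

def patch (f : ℕ → ℕ) (m K : ℕ) (hf : ∀ i < m, ∀ j < m, f i = f j → i = j) (h : ∀ j < m, f j < K) : M :=
  ⟨fun j => if j < m then f j else j + K, fun i j e => by
    dsimp only at e
    split_ifs at e with a b b
    · exact hf i a j b e
    · have := h i a; omega
    · have := h j b; omega
    · omega⟩

lemma bnd (f : ℕ → ℕ) (m : ℕ) : ∃ K, m < K ∧ ∀ j < m, f j < K :=
  ⟨m + ∑ j ∈ Finset.range m, f j + 1, by omega, fun j hj => by
    have := Finset.single_le_sum (f := f) (fun _ _ => Nat.zero_le _) (Finset.mem_range.mpr hj)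
    omega⟩

def sg : M := ⟨(· + 1), add_left_injective 1⟩

def up : M →* M where
  toFun f := ⟨fun i => Nat.casesOn i 0 fun j => f j + 1, fun i j e => by
    cases i <;> cases j <;> simp_all [f.inj.eq_iff]⟩
  map_one' := M.ext fun i => by cases i <;> rfl
  map_mul' f g := M.ext fun i => by cases i <;> rfl

lemma up_sg (f : M) : up f * sg = sg * f := rfl

abbrev R (k : Type*) [Field k] := MonoidAlgebra k M

universe u w

variable {k : Type u} [Field k]

noncomputable def o (k : Type u) [Field k] (f : M) : R k := MonoidAlgebra.of k M f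

section
variable {W : Type w} [AddCommGroup W] [Module (R k) W]

lemma oo (f g : M) (x : W) : o k f • o k g • x = o k (f * g) • x := by
  rw [o, o, o, map_mul, mul_smul]

lemma o1 (x : W) : o k 1 • x = x := by rw [o, map_one, one_smul]

variable (k) in
def Supp (n : ℕ) (x : W) : Prop := ∀ f g : M, (∀ i < n, f i = g i) → o k f • x = o k g • x

lemma Supp.mono {n m : ℕ} {x : W} (h : Supp k n x) (l : n ≤ m) : Supp k m x :=
  fun f g e => h f g fun i hi => e i (hi.trans_le l)

lemma Supp.act {n m : ℕ} {x : W} (h : Supp k n x) (f : M) (l : ∀ i < n, f i < m) :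
    Supp k m (o k f • x) := fun a b e => by
  rw [oo, oo]; exact h _ _ fun i hi => e _ (l i hi)

lemma Supp.map {V : Type*} [AddCommGroup V] [Module (R k) V] {n : ℕ} {x : W} (h : Supp k n x)
    (φ : W →ₗ[R k] V) : Supp k n (φ x) := fun a b e => by
  rw [← map_smul, ← map_smul, h a b e]

lemma Supp.cancel {n : ℕ} {x : W} (h : Supp k n x) : ∃ t, o k t • o k sg • x = x := by
  refine ⟨patch (fun j => Nat.casesOn j n id) (n + 1) (n + 1) (fun i a j b e => ?_)
    fun j a => ?_, ?_⟩
  · cases i <;> cases j <;> simp at e ⊢ <;> omega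
  · cases j <;> simp <;> omega
  · rw [oo]; exact (h _ 1 fun i hi => if_pos (Nat.succ_lt_succ hi)).trans (o1 x)

lemma Supp.triv {n : ℕ} {x y : W} (h : Supp k n x) (e : x = o k (sg ^ n) • y) (f : M) :
    o k f • x = x := by
  obtain ⟨K, h1, h2⟩ := bnd f n
  have s : ∀ m i, (sg ^ m) i = i + m := fun m => by
    induction m with
    | zero => exact fun i => rfl
    | succ m ih => exact fun i => by rw [pow_succ', mul_ap, ih]; rfl
  rw [h f (patch f n K (fun i _ j _ e => f.inj e) h2) fun i hi => (if_pos hi).symm]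
  refine Eq.trans ?_ ((h (patch id n K (fun i _ j _ e => e) fun j hj => hj.trans h1) 1
    fun i hi => if_pos hi).trans (o1 x))
  rw [e, oo, oo]
  congr 2
  exact M.ext fun i => by simp [s, patch]

variable [Module k W] [IsScalarTower k (R k) W]

def mkR (A : Submodule k W) (h : ∀ f, ∀ x ∈ A, o k f • x ∈ A) : Submodule (R k) W where
  toAddSubmonoid := A.toAddSubmonoid
  smul_mem' r x hx := by
    induction r using MonoidAlgebra.induction_on with
    | of m => exact h m x hx
    | add a b ha hb => rw [add_smul]; exact A.add_mem ha hb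
    | smul c a ha => rw [smul_assoc]; exact A.smul_mem c ha

lemma osm (f : M) (c : k) (x : W) : o k f • c • x = c • o k f • x := smul_comm _ _ _

lemma gen_ind {X : Set W} (A : Submodule k W) (h : ∀ f, ∀ x ∈ X, o k f • x ∈ A) :
    ∀ x ∈ span (R k) X, x ∈ A := fun x hx =>
  (span_le (p := mkR (A ⊓ ⨅ f, A.comap (DistribSMul.toLinearMap k W (o k f))) fun f x hx =>
    ⟨(mem_iInf _).mp hx.2 f, (mem_iInf _).mpr fun g => by
      simpa only [mem_comap, DistribSMul.toLinearMap_apply, oo] using
        (mem_iInf _).mp hx.2 (g * f)⟩)).mpr (fun x hx => ⟨o1 (k := k) x ▸ h 1 x hx,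
      (mem_iInf _).mpr fun f => h f x hx⟩) hx |>.1

variable (k W) in
def sub (n : ℕ) : Submodule k W where
  carrier := {x | Supp k n x}
  add_mem' a b f g e := by rw [smul_add, smul_add, a f g e, b f g e]
  zero_mem' f g _ := by simp
  smul_mem' c x a f g e := by rw [osm, osm, a f g e]

variable (k W) in
def Gen (n : ℕ) : Prop := ∃ (r : ℕ) (X : Fin r → W), (∀ i, Supp k n (X i)) ∧
  span (R k) (Set.range X) = ⊤

lemma Gen.tame {n : ℕ} (h : Gen k W n) (x : W) : ∃ m, Supp k m x := by
  obtain ⟨r, X, h1, h2⟩ := h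
  have mo : Monotone (sub k W) := fun a b l x hx => Supp.mono hx l
  refine (mem_iSup_of_directed _ mo.directed_le).mp (gen_ind _ ?_ x (h2 ▸ mem_top))
  rintro f _ ⟨i, rfl⟩
  obtain ⟨K, -, hK⟩ := bnd f n
  exact mem_iSup_of_mem K ((h1 i).act f hK)

lemma wqo (r n : ℕ) (s : ℕ → Fin r × (Fin n → ℕ)) : ∃ a b, a < b ∧ (s a).1 = (s b).1 ∧
    ∃ f : ℕ ↪o ℕ, f ∘ (s a).2 = (s b).2 := by
  let w : Fin r × (Fin n → ℕ) → List (Fin r × (Fin n → Bool)) := fun m =>
    (List.range (Finset.univ.sup m.2 + 1)).map fun j => (m.1, fun i => decide (m.2 i = j))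
  obtain ⟨a, b, h, e⟩ := Set.partiallyWellOrderedOn_iff_exists_lt.mp
    (Set.finite_univ.partiallyWellOrderedOn (r := Eq)).partiallyWellOrderedOn_sublistForall₂
    (fun a => w (s a)) fun _ _ _ => trivial
  simp only [List.sublistForall₂_iff, List.forall₂_eq_eq_eq, exists_eq_left'] at e
  obtain ⟨f, hf⟩ := List.sublist_iff_exists_orderEmbedding_getElem?_eq.mp e
  have key : ∀ j ≤ Finset.univ.sup (s a).2, ((s a).1, fun i => decide ((s a).2 i = j)) =
      ((s b).1, fun i => decide ((s b).2 i = f j)) := fun j hj => by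
    have := hf j
    simp only [w, List.getElem?_map, List.getElem?_range (Nat.lt_succ_of_le hj)] at this
    by_cases c : f j < Finset.univ.sup (s b).2 + 1
    · simpa [List.getElem?_range c] using this
    · simp [List.getElem?_eq_none (show (List.range _).length ≤ f j from
        List.length_range.trans_le (not_lt.mp c))] at this
  refine ⟨a, b, h, (Prod.ext_iff.mp (key 0 (Nat.zero_le _))).1, f, funext fun i => ?_⟩
  have := congrFun (congrArg Prod.snd (key _ (Finset.le_sup (Finset.mem_univ i)))) i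
  simpa [eq_comm] using this

theorem Gen.noeth {n : ℕ} (h : Gen k W n) : IsNoetherian (R k) W := by
  classical
  obtain ⟨r, X, h1, h2⟩ := h
  let ι := Fin r ×ₗ Lex (Fin n → ℕ)
  let v : ι → W := fun m => if c : ∃ g : M, ∀ i : Fin n, g i = m.2 i then o k c.choose • X m.1 else 0
  have hv : ∀ (g : M) j, v (j, fun i => g i) = o k g • X j := fun g j => by
    have c : ∃ g' : M, ∀ i : Fin n, g' i = g i := ⟨g, fun _ => rfl⟩
    exact (dif_pos c).trans (h1 j _ _ fun i hi => c.choose_spec ⟨i, hi⟩)
  let t : (ℕ ↪o ℕ) → ι → ι := fun f m => (m.1, f ∘ m.2)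
  have tv : ∀ f m, v (t f m) = o k f.toEmbedding • v m := fun f m => by
    by_cases c : ∃ g : M, ∀ i : Fin n, g i = m.2 i
    · obtain ⟨g, hg⟩ := c
      have e : m = (m.1, fun i : Fin n => g i) := Prod.ext rfl (funext hg).symm
      rw [e, hv, oo, ← hv]; rfl
    · rw [show v m = 0 from dif_neg c, smul_zero]
      refine dif_neg fun ⟨g, hg⟩ => c ?_
      let e : ℕ → ℕ := fun i => if h : i < n then m.2 ⟨i, h⟩ else 0
      obtain ⟨K, -, hK⟩ := bnd e n
      refine ⟨patch e n K (fun i a j b q => g.inj ?_) hK, fun i => by simp [patch, e]⟩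
      simp only [e, a, b, dif_pos] at q
      exact (hg ⟨i, a⟩).trans ((congrArg f q).trans (hg ⟨j, b⟩).symm)
  have tm : ∀ f, StrictMono (t f) := fun f a b h => by
    rcases Prod.Lex.lt_iff.mp h with h | ⟨h, i, h3, h4⟩
    · exact Prod.Lex.lt_iff.mpr (Or.inl h)
    · exact Prod.Lex.lt_iff.mpr (Or.inr ⟨h, i, fun j hj => congrArg f (h3 j hj), f.strictMono h4⟩)
  let π := Finsupp.linearCombination k v
  refine ⟨fun A => ?_⟩
  let L : ι → Prop := fun m => ∃ p, π p ∈ A ∧ p m = 1 ∧ ∀ a ∈ p.support, a ≤ m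
  obtain ⟨s, hs, H⟩ : ∃ s : Finset ι, (∀ x ∈ s, L x) ∧ ∀ y, L y → ∃ x ∈ s, ∃ f, t f x = y := by
    by_contra c
    push Not at c
    obtain ⟨q, -, hq⟩ := exists_seq_of_forall_finset_exists L _ c
    obtain ⟨a, b, h, e, f, hf⟩ := wqo r n q
    exact hq a b h f (Prod.ext e hf)
  choose! p p1 p2 p3 using hs
  refine ⟨s.image fun m => π (p m), le_antisymm (span_le.mpr fun x hx => ?_) fun x hx => ?_⟩
  · obtain ⟨m, hm, rfl⟩ := Finset.mem_image.mp hx
    exact p1 m hm
  obtain ⟨q, rfl⟩ : x ∈ LinearMap.range π := gen_ind _ (by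
    rintro f _ ⟨j, rfl⟩
    exact ⟨Finsupp.single (j, fun i => f i) 1, by simpa [π] using hv f j⟩) x (h2 ▸ mem_top)
  set S := span (R k) ((s.image fun m => π (p m) : Finset W) : Set W)
  have key : ∀ m q, π q ∈ A → (∀ a ∈ q.support, a ≤ m) → π q ∈ S := fun m => by
    induction m using WellFoundedLT.induction with | ind m ih =>
    intro q hq hm
    have sm : ∀ q, π q ∈ A → (∀ a ∈ q.support, a ≤ m) → q m = 0 → π q ∈ S := fun q a b c => by
      rcases q.support.eq_empty_or_nonempty with e | e
      · simp [Finsupp.support_eq_empty.mp e]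
      · refine ih _ ((b _ (q.support.max'_mem e)).lt_of_ne fun k => ?_) q a (q.support.le_max' ·)
        exact Finsupp.mem_support_iff.mp (k ▸ q.support.max'_mem e) c
    by_cases c : q m = 0
    · exact sm q hq hm c
    obtain ⟨x, hx, f, rfl⟩ := H m ⟨(q m)⁻¹ • q, by
      rw [map_smul]; exact A.smul_of_tower_mem _ hq, by simp [c],
      fun a ha => hm a (Finsupp.support_smul ha)⟩
    have e : π ((p x).mapDomain (t f)) = o k f.toEmbedding • π (p x) := by
      rw [Finsupp.linearCombination_mapDomain, show v ∘ t f = DistribSMul.toLinearMap k W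
        (o k f.toEmbedding) ∘ v from funext (tv f), ← Finsupp.apply_linearCombination]; rfl
    have := sm (q - q (t f x) • (p x).mapDomain (t f)) (by
      rw [map_sub, map_smul, e]
      exact A.sub_mem hq (A.smul_of_tower_mem _ (A.smul_mem _ (p1 x hx)))) (fun a ha => by
      rcases Finset.mem_union.mp (Finsupp.support_sub ha) with b | b
      · exact hm a b
      · obtain ⟨y, hy, rfl⟩ := Finset.mem_image.mp
          (Finsupp.mapDomain_support (Finsupp.support_smul b))
        exact (tm f).monotone (p3 x hx y hy)) (by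
      simp [Finsupp.mapDomain_apply (tm f).injective, p2 x hx])
    rw [map_sub, map_smul, e] at this
    exact (S.sub_mem_iff_left (S.smul_of_tower_mem _ (S.smul_mem _
      (subset_span (Finset.mem_image_of_mem _ hx))))).mp this
  rcases q.support.eq_empty_or_nonempty with e | e
  · simp [Finsupp.support_eq_empty.mp e]
  · exact key (q.support.max' e) q hx fun a ha => q.support.le_max' a ha

lemma fin0 [IsNoetherian (R k) W] (A : Submodule (R k) W) : ∃ Y : Submodule k W, Y.FG ∧
    (∀ y ∈ Y, y ∈ A) ∧ ∀ B : Submodule k W, (∀ f, ∀ x ∈ A, o k f • x - x ∈ B) →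
      ∀ x ∈ A, x ∈ B ⊔ Y := by
  obtain ⟨s, rfl⟩ := IsNoetherian.noetherian A
  refine ⟨span k s, fg_span s.finite_toSet, fun y hy => span_subset_span k _ _ hy,
    fun B h => gen_ind _ fun f x hx => ?_⟩
  rw [← sub_add_cancel (o k f • x) x]
  exact add_mem_sup (h f x (subset_span hx)) (subset_span hx)

def Tw (_ : Type u) (W : Type w) := W

instance : AddCommGroup (Tw k W) := ‹AddCommGroup W›
instance : Module k (Tw k W) := ‹Module k W›
noncomputable instance : Module (R k) (Tw k W) :=
  Module.compHom W (MonoidAlgebra.mapDomainAlgHom k k up).toRingHom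
instance : IsScalarTower k (R k) (Tw k W) := ⟨fun c r (x : W) => by
  show MonoidAlgebra.mapDomainAlgHom k k up (c • r) • x = c • MonoidAlgebra.mapDomainAlgHom k k up r • x
  rw [map_smul, smul_assoc]⟩

def tw : W ≃ₗ[k] Tw k W := LinearEquiv.refl k W

lemma tw_o (f : M) (x : W) : o k f • tw (k := k) x = tw (k := k) (o k (up f) • x) := by
  show MonoidAlgebra.mapDomainAlgHom k k up (o k f) • x = o k (up f) • x
  simp [o]

variable (k W) in
noncomputable def im : Submodule (R k) (Tw k W) :=
  mkR (LinearMap.range (tw.toLinearMap ∘ₗ DistribSMul.toLinearMap k W (o k sg))) (by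
    rintro f _ ⟨x, rfl⟩
    exact ⟨o k f • x, ((tw_o f (o k sg • x)).trans (congrArg tw (by
      rw [oo, up_sg, ← oo]; rfl))).symm⟩)

noncomputable def pr : W →ₗ[k] Tw k W ⧸ im k W := (im k W).mkQ.restrictScalars k ∘ₗ tw.toLinearMap

lemma pr_o (f : M) (x : W) : o k f • pr (k := k) x = pr (k := k) (o k (up f) • x) :=
  ((im k W).mkQ.map_smul _ _).symm.trans (congrArg _ (tw_o f x))

lemma pr_0 (x : W) : pr (k := k) x = 0 ↔ ∃ y, o k sg • y = x := Quotient.mk_eq_zero _

lemma Gen.step {n : ℕ} (h : Gen k W (n + 1)) : Gen k (Tw k W ⧸ im k W) n := by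
  obtain ⟨r, X, h1, h2⟩ := h
  let s : ℕ → M := fun i => (Equiv.swap 0 i).toEmbedding
  let Y : Fin r × Fin (n + 1) → Tw k W ⧸ im k W := fun p => pr (o k (s p.2) • X p.1)
  refine ⟨_, Y ∘ finProdFinEquiv.symm, fun p f g e => ?_, eq_top_iff.mpr fun y _ => ?_⟩
  · simp only [Y, comp, pr_o, oo]
    refine congrArg _ (h1 _ _ _ fun i hi => ?_)
    have : s (finProdFinEquiv.symm p).2 i < n + 1 := by
      show Equiv.swap 0 _ i < _
      rw [Equiv.swap_apply_def]; split_ifs <;> omega
    rw [mul_ap, mul_ap]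
    generalize s _ i = j at this
    cases j
    · rfl
    · exact congrArg (· + 1) (e _ (by omega))
  obtain ⟨y, rfl⟩ : ∃ x : W, pr x = y := (im k W).mkQ_surjective y
  rw [finProdFinEquiv.symm.surjective.range_comp]
  refine gen_ind (((span (R k) (Set.range Y)).restrictScalars k).comap pr) ?_ y (h2 ▸ mem_top)
  rintro f _ ⟨j, rfl⟩
  by_cases c : ∃ i < n + 1, f i = 0
  · obtain ⟨i, hi, c⟩ := c
    have z : ∀ a, (f * s i) (a + 1) ≠ 0 := fun a e => by
      have := (f * s i).inj (e.trans (show (f * s i) 0 = 0 by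
        show f (Equiv.swap 0 i 0) = 0; rw [Equiv.swap_apply_left, c]).symm)
      omega
    have := (span (R k) (Set.range Y)).smul_mem (o k ⟨fun a => (f * s i) (a + 1) - 1, fun a b e => by
      have := (f * s i).inj (show (f * s i) (a + 1) = (f * s i) (b + 1) by
        have := z a; have := z b; dsimp only at e; omega)
      omega⟩) (subset_span ⟨(j, ⟨i, hi⟩), rfl⟩)
    simp only [Y, pr_o, oo] at this
    convert this using 1
    refine Iff.of_eq (congrArg (fun g => pr (o k g • X j) ∈ span (R k) (Set.range Y))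
      (M.ext fun a => ?_))
    obtain ⟨b, rfl⟩ := (Equiv.swap 0 i).surjective a
    rw [mul_ap, show s i (Equiv.swap 0 i b) = b from Equiv.swap_apply_self _ _ _]
    cases b
    · rw [Equiv.swap_apply_left, c]; rfl
    · exact (Nat.sub_add_cancel (Nat.pos_of_ne_zero (z _))).symm
  · push Not at c
    obtain ⟨K, -, hK⟩ := bnd f (n + 1)
    have : pr (k := k) (o k f • X j) = 0 := (pr_0 _).mpr ⟨o k (patch (fun a => f a - 1) (n + 1) K
      (fun a ha b hb e => f.inj (by have := c a ha; have := c b hb; omega))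
      fun a ha => (Nat.sub_le _ _).trans_lt (hK a ha)) • X j, by
        rw [oo]
        refine h1 j _ _ fun a ha => ?_
        show (if _ then _ else _) + 1 = _
        have := c a ha
        rw [if_pos ha]; omega⟩
    simp [this]

lemma Gen.fd0 {n : ℕ} (h : Gen k W n) : (sub k W 0).FG := by
  have := h.noeth
  obtain ⟨Y, h1, h2, h3⟩ := fin0 (mkR (sub k W 0) fun f x hx => Supp.act hx f (by simp))
  rwa [show sub k W 0 = Y from le_antisymm (fun x hx => by
    simpa using h3 ⊥ (fun f x hx => by simp [hx f 1 (by simp), o1]) x hx) h2]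

end

theorem main (n : ℕ) : ∀ (W : Type w) [AddCommGroup W] [Module (R k) W] [Module k W]
    [IsScalarTower k (R k) W], Gen k W n → IsArtinian (R k) W ∧ ∀ m, (sub k W m).FG := by
  induction n with
  | zero =>
    intro W _ _ _ _ h
    have e : sub k W 0 = ⊤ := by
      obtain ⟨r, X, h1, h2⟩ := h
      refine eq_top_iff.mpr fun x _ => gen_ind _ ?_ x (h2 ▸ mem_top)
      rintro f _ ⟨j, rfl⟩
      exact (h1 j).act f (by simp)
    have : Module.Finite k W := ⟨e ▸ h.fd0⟩
    exact ⟨isArtinian_of_tower k inferInstance, fun m => IsNoetherian.noetherian _⟩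
  | succ n ih =>
    intro W _ _ _ _ h
    obtain ⟨h1, h2⟩ := ih _ h.step
    have can : ∀ x : W, ∃ t, o k t • o k sg • x = x := fun x => (h.tame x).choose_spec.cancel
    refine ⟨monotone_stabilizes_iff_artinian.mp fun A => ?_, fun m => ?_⟩
    · have := h.noeth
      let D : Submodule (R k) W → Submodule (R k) (Tw k W ⧸ im k W) := fun B =>
        mkR ((B.restrictScalars k).map pr) (by
          rintro f _ ⟨x, hx, rfl⟩
          exact ⟨_, B.smul_mem _ hx, (pr_o f x).symm⟩)
      obtain ⟨a, ha⟩ := IsArtinian.monotone_stabilizes (R := R k)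
        ⟨fun i => OrderDual.toDual (D (A i)), fun i j l => map_mono (A.monotone l)⟩
      obtain ⟨Y, y1, y2, y3⟩ := fin0 (OrderDual.ofDual (A a))
      have : Module.Finite k Y := Module.Finite.iff_fg.mpr y1
      obtain ⟨b, hb⟩ := IsArtinian.monotone_stabilizes (R := k) ⟨fun i => OrderDual.toDual
        (((OrderDual.ofDual (A i)).restrictScalars k).comap Y.subtype),
        fun i j l => comap_mono (A.monotone l)⟩
      have t : ∀ j, a ≤ j → ∀ f, ∀ x ∈ OrderDual.ofDual (A a),
          o k f • x - x ∈ OrderDual.ofDual (A j) := fun j hj f x hx => by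
        set B := OrderDual.ofDual (A j)
        have u : ∀ m, ∀ x ∈ OrderDual.ofDual (A a), ∃ y ∈ OrderDual.ofDual (A a),
            B.mkQ x = o k (sg ^ m) • B.mkQ y := fun m => by
          induction m with
          | zero => exact fun x hx => ⟨x, hx, (o1 _).symm⟩
          | succ m ih2 =>
            intro x hx
            obtain ⟨y, hy, e⟩ := ih2 x hx
            obtain ⟨z, hz, e2⟩ : pr y ∈ D B := (show D (A a) = D B from ha j hj) ▸ ⟨y, hy, rfl⟩
            obtain ⟨w, hw⟩ := (pr_0 (y - z)).mp (by rw [map_sub, e2, sub_self])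
            obtain ⟨t, ht⟩ := can w
            refine ⟨w, ht ▸ smul_mem _ _ (hw ▸ sub_mem hy (A.monotone hj hz)), ?_⟩
            rw [e, pow_succ, ← oo, ← map_smul _ (o k sg), hw, map_sub,
              show B.mkQ z = 0 from (Quotient.mk_eq_zero _).mpr hz, sub_zero]
        obtain ⟨m, hm⟩ := h.tame x
        obtain ⟨y, -, e⟩ := u m x hx
        rw [← Submodule.Quotient.eq]
        exact (map_smul B.mkQ _ _).trans ((hm.map B.mkQ).triv e f)
      refine ⟨max a b, fun j hj => le_antisymm (A.monotone hj) fun x hx => ?_⟩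
      have aj := (le_max_left a b).trans hj
      obtain ⟨u, hu, v, hv, rfl⟩ := mem_sup.mp (y3 ((⨅ i, OrderDual.ofDual (A (a + i))).restrictScalars
        k) (fun f x hx => (mem_iInf _).mpr fun i => t _ (by omega) f x hx) x
        (A.monotone (le_max_left a b) hx))
      have hu2 : ∀ i, a ≤ i → u ∈ OrderDual.ofDual (A i) := fun i hi => by
        have := (mem_iInf _).mp hu (i - a)
        rwa [Nat.add_sub_cancel' hi] at this
      refine add_mem (hu2 j aj) ?_
      have e := (hb _ (le_max_right a b)).symm.trans (hb j ((le_max_right a b).trans hj))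
      exact (congrArg (fun S => (⟨v, hv⟩ : Y) ∈ OrderDual.ofDual S) e).mp
        ((Submodule.add_mem_iff_right _ (hu2 _ (le_max_left a b))).mp hx)
    · induction m with
      | zero => exact h.fd0
      | succ m ih2 =>
        refine fg_of_fg_map_of_fg_inf_ker pr ((h2 m).of_le ?_)
          ((ih2.map (DistribSMul.toLinearMap k W (o k sg))).of_le ?_)
        · rintro _ ⟨x, hx, rfl⟩ f g e
          rw [pr_o, pr_o, hx (up f) (up g) fun i hi => ?_]
          cases i
          · rfl
          · exact congrArg (· + 1) (e _ (by omega))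
        · rintro _ ⟨hx, h0⟩
          obtain ⟨y, rfl⟩ := (pr_0 _).mp h0
          refine ⟨y, fun f g e => ?_, rfl⟩
          have := hx (up f) (up g) fun i hi => by
            cases i
            · rfl
            · exact congrArg (· + 1) (e _ (by omega))
          obtain ⟨t, ht⟩ := can (o k f • y - o k g • y)
          rw [oo, oo, up_sg, up_sg, ← oo, ← oo] at this
          rw [← sub_eq_zero, ← ht, smul_sub, this, sub_self, smul_zero]

theorem uniform (J : Type w) [AddCommGroup J] [Module (R k) J] [Module k J]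
    [IsScalarTower k (R k) J] (ht : ∀ x : J, ∃ m, Supp k m x)
    (hu : ∀ A B : Submodule (R k) J, A ≠ ⊥ → B ≠ ⊥ → A ⊓ B ≠ ⊥) (n : ℕ) : (sub k J n).FG := by
  have sim : ∀ (T : Type u) [AddCommGroup T] [Module (R k) T] [IsSimpleModule (R k) T],
      Module.Finite k (T →ₗ[R k] J) := fun T _ _ _ => by
    by_cases c : ∃ f : T →ₗ[R k] J, f ≠ 0
    swap
    · push Not at c
      have : Subsingleton (T →ₗ[R k] J) := ⟨fun a b => (c a).trans (c b).symm⟩
      infer_instance
    obtain ⟨f, hf⟩ := c
    have := IsSimpleModule.nontrivial (R k) T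
    obtain ⟨t, t0⟩ := exists_ne (0 : T)
    have st := IsSimpleModule.span_singleton_eq_top (R k) t0
    obtain ⟨a, ha⟩ := ht (f t)
    have fi := LinearMap.injective_of_ne_zero hf
    have ta : Supp k a t := fun g h e => fi (by rw [map_smul, map_smul, ha g h e])
    have fg := ((main a (LinearMap.range f) ⟨1, fun _ => f.rangeRestrict t, fun _ => ta.map _, by
      rw [Set.range_const, ← Set.image_singleton, ← map_span, st, Submodule.map_top,
        LinearMap.range_rangeRestrict]⟩).2 a).map ((LinearMap.range f).subtype.restrictScalars k)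
    let ev : (T →ₗ[R k] J) →ₗ[k] J := ⟨⟨fun g => g t, fun _ _ => rfl⟩, fun _ _ => rfl⟩
    have ei : Injective ev := (injective_iff_map_eq_zero ev).mpr fun g hg =>
      LinearMap.ext_on st (by rintro _ rfl; exact hg)
    refine ⟨fg_of_fg_map_injective ev ei (fg.of_le ?_)⟩
    rintro _ ⟨g, -, rfl⟩
    by_cases g0 : g = 0
    · simp [g0]
    have m : (LinearMap.range f).comap g = ⊤ := (eq_bot_or_eq_top _).resolve_left fun e =>
      hu _ _ (mt LinearMap.range_eq_bot.mp hf) (mt LinearMap.range_eq_bot.mp g0) (by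
        rw [← map_comap_eq_self (inf_le_right : LinearMap.range f ⊓ LinearMap.range g ≤ _),
          comap_inf, e, bot_inf_eq, Submodule.map_bot])
    refine ⟨⟨g t, show t ∈ (LinearMap.range f).comap g from m ▸ mem_top⟩,
      fun x y e => Subtype.ext (ta.map g x y e), rfl⟩
  have len : ∀ (T : Type u) [AddCommGroup T] [Module (R k) T], IsFiniteLength (R k) T →
      Module.Finite k (T →ₗ[R k] J) := fun T _ _ h => by
    induction h with
    | of_subsingleton => infer_instance
    | @of_simple_quotient T _ _ N _ _ ih =>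
      let a : (T →ₗ[R k] J) →ₗ[k] (N →ₗ[R k] J) :=
        ⟨⟨fun g => g ∘ₗ N.subtype, fun _ _ => rfl⟩, fun _ _ => rfl⟩
      let b : (T ⧸ N →ₗ[R k] J) →ₗ[k] (T →ₗ[R k] J) :=
        ⟨⟨fun g => g ∘ₗ N.mkQ, fun _ _ => rfl⟩, fun _ _ => rfl⟩
      refine ⟨fg_of_fg_map_of_fg_inf_ker a (IsNoetherian.noetherian _)
        (((sim (T ⧸ N)).1.map b).of_le fun g hg => ⟨N.liftQ g fun x hx => ?_, trivial, ?_⟩)⟩
      · exact LinearMap.congr_fun hg.2 ⟨x, hx⟩
      · exact N.liftQ_mkQ _ _
  let L : Submodule (R k) (R k) := span _ {r | ∃ f g : M, (∀ i < n, f i = g i) ∧ r = o k f - o k g}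
  have G : Gen k (R k ⧸ L) n := ⟨1, fun _ => L.mkQ 1, fun _ f g e => by
    rw [← map_smul, ← map_smul]
    exact (Submodule.Quotient.eq _).mpr (subset_span ⟨f, g, e, by simp⟩), by
    rw [Set.range_const, ← Set.image_singleton, ← map_span, Ideal.submodule_span_eq,
      Ideal.span_singleton_one, Submodule.map_top, range_mkQ]⟩
  let ev : (R k ⧸ L →ₗ[R k] J) →ₗ[k] J := ⟨⟨fun g => g (L.mkQ 1), fun _ _ => rfl⟩, fun _ _ => rfl⟩
  refine ((len _ (isFiniteLength_iff_isNoetherian_isArtinian.mpr
    ⟨G.noeth, (main n _ G).1⟩)).1.map ev).of_le fun x hx =>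
    ⟨L.liftQ (LinearMap.toSpanSingleton _ _ x) (span_le.mpr ?_), trivial, by simp [ev]⟩
  rintro _ ⟨f, g, e, rfl⟩
  simp [sub_smul, hx f g e]

end Pool.Agent.H89.Tame
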