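import Pool.Agent.H89.WO1

set_option autoImplicit false

namespace Pool.Agent.H89.WO

open Set

abbrev X : Type := Lex (ℚ →₀ ℚ)

def A (γ : ℚ) (x y : X) : Prop := ∀ j < γ, ofLex x j = ofLex y j

theorem A.symm {γ : ℚ} {x y : X} (h : A γ x y) : A γ y x := fun j hj => (h j hj).symm
theorem A.trans {γ : ℚ} {x y z : X} (h : A γ x y) (h' : A γ y z) : A γ x z :=
  fun j hj => (h j hj).trans (h' j hj)
theorem A.mono {γ δ : ℚ} {x y : X} (h : A γ x y) (hd : δ ≤ γ) : A δ x y :=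
  fun j hj => h j (hj.trans_le hd)

theorem lt_of_A {γ : ℚ} {x y : X} (h : A γ x y) (h' : ofLex x γ < ofLex y γ) : x < y :=
  Finsupp.Lex.lt_iff.2 ⟨γ, h, h'⟩

theorem lt_iff_A {γ : ℚ} {x y : X} (h : A γ x y) (h' : ofLex x γ ≠ ofLex y γ) :
    x < y ↔ ofLex x γ < ofLex y γ :=
  ⟨fun a => (h'.lt_or_gt).resolve_right fun b => lt_asymm a (lt_of_A h.symm b), lt_of_A h⟩

theorem ex_v {x y : X} (h : x ≠ y) : ∃ γ, A γ x y ∧ ofLex x γ ≠ ofLex y γ := by
  rcases h.lt_or_gt with h | h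
  · obtain ⟨γ, a, b⟩ := Finsupp.Lex.lt_iff.1 h
    exact ⟨γ, a, b.ne⟩
  · obtain ⟨γ, a, b⟩ := Finsupp.Lex.lt_iff.1 h
    exact ⟨γ, A.symm a, b.ne'⟩

open Classical in
noncomputable def v (x y : X) : ℚ := if h : x ≠ y then (ex_v h).choose else 0

theorem v_spec {x y : X} (h : x ≠ y) : A (v x y) x y ∧ ofLex x (v x y) ≠ ofLex y (v x y) := by
  rw [v, dif_pos h]; exact (ex_v h).choose_spec

theorem le_v {x y : X} (h : x ≠ y) {γ : ℚ} : γ ≤ v x y ↔ A γ x y :=
  ⟨(v_spec h).1.mono, fun a => le_of_not_gt fun b => (v_spec h).2 (a _ b)⟩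

theorem ne_of {γ : ℚ} {x y : X} (h' : ofLex x γ ≠ ofLex y γ) : x ≠ y := fun e => h' (e ▸ rfl)

theorem v_eq {γ : ℚ} {x y : X} (h : A γ x y) (h' : ofLex x γ ≠ ofLex y γ) : v x y = γ :=
  le_antisymm (le_of_not_gt fun b => h' ((v_spec (ne_of h')).1 _ b)) ((le_v (ne_of h')).2 h)

theorem v_symm (x y : X) : v x y = v y x := by
  by_cases h : x = y
  · rw [h]
  · exact v_eq (v_spec (Ne.symm h)).1.symm (v_spec (Ne.symm h)).2.symm

/-- if `z` agrees with `y` strictly beyond `v x y` then `x` sees `z` as it sees `y` -/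
theorem v_far {x y z : X} {γ : ℚ} (h : x ≠ y) (hz : A γ y z) (hγ : v x y < γ) :
    x ≠ z ∧ v x z = v x y ∧ (x < z ↔ x < y) ∧ (z < x ↔ y < x) := by
  obtain ⟨a, b⟩ := v_spec h
  have a' := a.trans (hz.mono hγ.le)
  have b' : ofLex x (v x y) ≠ ofLex z (v x y) := hz _ hγ ▸ b
  refine ⟨ne_of b', v_eq a' b', ?_, ?_⟩
  · rw [lt_iff_A a' b', lt_iff_A a b, hz _ hγ]
  · rw [lt_iff_A a'.symm b'.symm, lt_iff_A a.symm b.symm, hz _ hγ]

theorem v_btw {x y z : X} (h : x < y) (h' : y < z) : v x z ≤ v x y ∧ v x z ≤ v y z := by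
  have xz := (h.trans h').ne
  have : v x z ≤ v x y := le_of_not_gt fun c => by
    obtain ⟨-, -, a, -⟩ := v_far h.ne' (v_spec xz).1 (v_symm x y ▸ c)
    exact lt_asymm h (a.1 h')
  exact ⟨this, (le_v h'.ne).2 (((le_v h.ne).1 this).symm.trans (v_spec xz).1)⟩

noncomputable def upd (x : X) (γ q : ℚ) : X := toLex ((ofLex x).update γ q)

theorem upd_A (x : X) (γ q : ℚ) : A γ x (upd x γ q) := fun j hj => by
  simp [upd, Finsupp.update_apply, hj.ne]

theorem upd_at (x : X) (γ q : ℚ) : ofLex (upd x γ q) γ = q := by simp [upd]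

instance : Countable X := inferInstanceAs (Countable (ℚ →₀ ℚ))
instance : NoMaxOrder X := ⟨fun x => ⟨upd x 0 (ofLex x 0 + 1), lt_of_A (upd_A _ _ _) (by simp [upd_at])⟩⟩
instance : NoMinOrder X :=
  ⟨fun x => ⟨upd x 0 (ofLex x 0 - 1), lt_of_A (upd_A _ _ _).symm (by simp [upd_at])⟩⟩
instance : DenselyOrdered X := ⟨fun x y h => by
  obtain ⟨γ, a, b⟩ := Finsupp.Lex.lt_iff.1 h
  replace b : ofLex x γ < ofLex y γ := b
  exact ⟨upd x γ ((ofLex x γ + ofLex y γ) / 2), lt_of_A (upd_A _ _ _) (by rw [upd_at]; linarith),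
    lt_of_A ((upd_A _ _ _).symm.trans a) (by rw [upd_at]; linarith)⟩⟩

noncomputable def e : X ≃o ℚ := (Order.iso_of_countable_dense X ℚ).some

def R (h : ℚ ≃o ℚ) (ι : Type) (p : ι → X × X) : Prop :=
  ∀ i j, ((p i).1 < (p j).1 ↔ (p i).2 < (p j).2) ∧
    ((p i).1 ≠ (p j).1 → v (p i).2 (p j).2 = h (v (p i).1 (p j).1))

theorem R.eq {h : ℚ ≃o ℚ} {ι : Type} {p : ι → X × X} (H : R h ι p) (i j : ι) :
    (p i).1 = (p j).1 ↔ (p i).2 = (p j).2 := by
  rw [le_antisymm_iff, le_antisymm_iff, ← not_lt, ← not_lt, ← not_lt, ← not_lt, (H i j).1, (H j i).1]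

theorem R.symm {h : ℚ ≃o ℚ} {ι : Type} {p : ι → X × X} (H : R h ι p) :
    R h.symm ι fun i => (p i).swap := fun i j =>
  ⟨(H i j).1.symm, fun a => by
    rw [eq_comm, OrderIso.symm_apply_eq]; exact (H i j).2 fun b => a ((H.eq i j).1 b)⟩

theorem R.forth {h : ℚ ≃o ℚ} (ι : Type) [Finite ι] (p : ι → X × X) (H : R h ι p) (x : X) :
    ∃ y, R h (Option ι) fun o => o.elim (x, y) p := by
  classical
  suffices ∃ y, ∀ i, (x < (p i).1 ↔ y < (p i).2) ∧ ((p i).1 < x ↔ (p i).2 < y) ∧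
      (x ≠ (p i).1 → v y (p i).2 = h (v x (p i).1)) by
    obtain ⟨y, hy⟩ := this
    refine ⟨y, fun i j => ?_⟩
    cases i <;> cases j
    · simp
    · exact ⟨(hy _).1, (hy _).2.2⟩
    · exact ⟨(hy _).2.1, fun a => by
        simp only [Option.elim]; rw [v_symm, v_symm _ x]; exact (hy _).2.2 (Ne.symm a)⟩
    · exact H _ _
  by_cases hx : ∃ i, x = (p i).1
  · obtain ⟨i, rfl⟩ := hx
    exact ⟨(p i).2, fun j => ⟨(H i j).1, (H j i).1, (H i j).2⟩⟩
  push Not at hx
  rcases isEmpty_or_nonempty ι with _ | _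
  · exact ⟨0, fun i => isEmptyElim i⟩
  obtain ⟨k, hk⟩ := Finite.exists_max fun i => v x (p i).1
  set δ := v x (p k).1 with hδ
  have ag : ∀ i, v x (p i).1 = δ → A δ x (p i).1 ∧ ofLex x δ ≠ ofLex (p i).1 δ :=
    fun i hi => hi ▸ v_spec (hx i)
  have ag' : ∀ i j, v x (p i).1 = δ → v x (p j).1 = δ → A (h δ) (p i).2 (p j).2 := fun i j a b => by
    by_cases c : (p i).1 = (p j).1
    · rw [(H.eq i j).1 c]; exact fun _ _ => rfl
    · rw [← le_v fun d => c ((H.eq i j).2 d), (H i j).2 c, h.le_iff_le, le_v c]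
      exact (ag i a).1.symm.trans (ag j b).1
  cases nonempty_fintype ι
  obtain ⟨q, q1, q2⟩ := Order.exists_between_finsets
    ((Finset.univ.filter fun i => v x (p i).1 = δ ∧ (p i).1 < x).image fun i => ofLex (p i).2 (h δ))
    ((Finset.univ.filter fun i => v x (p i).1 = δ ∧ x < (p i).1).image fun i => ofLex (p i).2 (h δ))
    (by
      simp only [Finset.mem_image, Finset.mem_filter, Finset.mem_univ, true_and]
      rintro _ ⟨i, ⟨a, b⟩, rfl⟩ _ ⟨j, ⟨c, d⟩, rfl⟩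
      have f := ((lt_iff_A (ag i a).1.symm (ag i a).2.symm).1 b).trans
        ((lt_iff_A (ag j c).1 (ag j c).2).1 d)
      have g := v_eq ((ag i a).1.symm.trans (ag j c).1) f.ne
      have l := (H i j).1.1 (b.trans d)
      have := v_spec l.ne
      rw [(H i j).2 (b.trans d).ne, g] at this
      exact (lt_iff_A this.1 this.2).1 l)
  simp only [Finset.mem_image, Finset.mem_filter, Finset.mem_univ, true_and, forall_exists_index,
    and_imp] at q1 q2
  refine ⟨upd (p k).2 (h δ) q, fun i => ?_⟩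
  rcases (hk i).eq_or_lt with c | c
  · have a := (upd_A (p k).2 (h δ) q).symm.trans (ag' k i rfl c)
    rcases (hx i).lt_or_gt with d | d
    · have b : ofLex (upd (p k).2 (h δ) q) (h δ) < _ := (upd_at _ _ _).trans_lt (q2 _ i c d rfl)
      exact ⟨iff_of_true d (lt_of_A a b), iff_of_false d.not_gt (lt_of_A a b).not_gt,
        fun _ => (v_eq a b.ne).trans (congrArg h c.symm)⟩
    · have b : _ < ofLex (upd (p k).2 (h δ) q) (h δ) := (q1 _ i c d rfl).trans_eq (upd_at _ _ _).symm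
      exact ⟨iff_of_false d.not_gt (lt_of_A a.symm b).not_gt, iff_of_true d (lt_of_A a.symm b),
        fun _ => (v_eq a b.ne').trans (congrArg h c.symm)⟩
  · obtain ⟨a1, a2, a3, a4⟩ := v_far (hx i).symm (ag k rfl).1 (v_symm _ _ ▸ c)
    have f := (H i k).2 a1
    obtain ⟨-, b2, b3, b4⟩ := v_far (fun d => a1 ((H.eq i k).2 d)) (upd_A (p k).2 (h δ) q)
      (by rw [f, a2, v_symm]; exact h.strictMono c)
    exact ⟨by rw [b4, ← a4, (H k i).1], by rw [b3, ← a3, (H i k).1],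
      fun _ => by rw [v_symm, b2, f, a2, v_symm]⟩

noncomputable def V (x y : X) : X := e.symm (v x y)

def G : Subgroup (X ≃o X) where
  carrier := {g | ∃ s : ℕ → X ≃o X, s 0 = g ∧ ∀ k x y, x ≠ y → V (s k x) (s k y) = s (k + 1) (V x y)}
  one_mem' := ⟨fun _ => 1, rfl, fun _ _ _ _ => rfl⟩
  mul_mem' := by
    rintro _ _ ⟨s, rfl, hs⟩ ⟨t, rfl, ht⟩
    exact ⟨fun k => s k * t k, rfl, fun k x y h => by
      simp only [RelIso.mul_apply]
      rw [hs k _ _ ((t k).injective.ne h), ht k _ _ h]⟩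
  inv_mem' := by
    rintro _ ⟨s, rfl, hs⟩
    exact ⟨fun k => (s k)⁻¹, rfl, fun k x y h => (s (k + 1)).injective (by
      rw [← hs k _ _ ((s k)⁻¹.injective.ne h)]; simp)⟩

theorem shift {g : X ≃o X} (hg : g ∈ G) : ∃ h ∈ G, ∀ x y, x ≠ y → V (g x) (g y) = h (V x y) := by
  obtain ⟨s, rfl, hs⟩ := hg
  exact ⟨s 1, ⟨fun k => s (k + 1), rfl, fun k => hs _⟩, hs 0⟩

theorem lift {h : X ≃o X} (hh : h ∈ G) (ι : Type) [Finite ι] (a b : ι → X)
    (h1 : ∀ i j, a i < a j ↔ b i < b j) (h2 : ∀ i j, a i ≠ a j → V (b i) (b j) = h (V (a i) (a j))) :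
    ∃ g ∈ G, ∀ i, g (a i) = b i := by
  let h' : ℚ ≃o ℚ := (e.symm.trans h).trans e
  have k : ∀ x y z w, v z w = h' (v x y) ↔ V z w = h (V x y) := fun x y z w => by
    simp only [V, h', OrderIso.trans_apply]; rw [OrderIso.symm_apply_eq]
  obtain ⟨g, g1, g2⟩ := bf (R h') (fun _ _ _ H f i j => H (f i) (f j)) R.forth
    (fun ι _ p H y => by
      obtain ⟨x, hx⟩ := H.symm.forth ι _ y
      refine ⟨x, ?_⟩
      have e1 : (fun o : Option ι => o.elim (x, y) p) =
          fun o : Option ι => (o.elim (y, x) fun i => (p i).swap).swap :=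
        funext fun o => by cases o <;> rfl
      rw [e1]; exact hx.symm)
    (fun _ _ H => H.eq) ι (fun i => (a i, b i)) fun i j => ⟨h1 i j, fun c => (k _ _ _ _).2 (h2 i j c)⟩
  have g3 := fun x y => g2 Bool (fun c => cond c x y) true false
  obtain ⟨s, rfl, hs⟩ := hh
  let g' : X ≃o X := g.toOrderIso (fun x y c => le_of_not_gt fun d => c.not_gt ((g3 _ _).1.2 d))
    (fun x y c => le_of_not_gt fun d => c.not_gt (by simpa using (g3 _ _).1.1 d))
  refine ⟨g', ⟨fun k => Nat.casesOn k g' s, rfl, fun n x y c => ?_⟩, g1⟩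
  cases n with
  | zero => exact (k _ _ _ _).1 ((g3 x y).2 c)
  | succ n => exact hs n x y c

theorem V_symm (x y : X) : V x y = V y x := by rw [V, v_symm, V]

theorem V_le {x y z w : X} : V x y ≤ V z w ↔ v x y ≤ v z w := e.symm.le_iff_le

theorem V_btw {x y z : X} (h : x < y) (h' : y < z) : V x z ≤ V x y ∧ V x z ≤ V y z :=
  ⟨V_le.2 (v_btw h h').1, V_le.2 (v_btw h h').2⟩

theorem V_ult {x y z : X} (h : x ≠ y) (h' : x ≠ z) (c : V x y < V x z) : y ≠ z ∧ V y z = V x y := by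
  obtain ⟨a, b, -⟩ := v_far h.symm (v_spec h').1 (v_symm x y ▸ e.symm.lt_iff_lt.1 c)
  exact ⟨a, by rw [V, b, v_symm, V]⟩

noncomputable def lev (S : Finset X) : Finset X := S.offDiag.image fun p => V p.1 p.2

theorem mem_lev {S : Finset X} {x y : X} (hx : x ∈ S) (hy : y ∈ S) (h : x ≠ y) : V x y ∈ lev S :=
  Finset.mem_image.2 ⟨(x, y), Finset.mem_offDiag.2 ⟨hx, hy, h⟩, rfl⟩

theorem lev_card (S : Finset X) : S.Nonempty → (lev S).card < S.card := by
  induction S using Finset.induction_on_max with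
  | empty => simp
  | insert a S ha ih =>
    intro _
    rcases S.eq_empty_or_nonempty with rfl | hS
    · simp [lev]
    rw [Finset.card_insert_of_notMem fun h => lt_irrefl _ (ha a h)]
    have m := S.max'_mem hS
    refine lt_of_le_of_lt ((Finset.card_le_card (t := insert (V (S.max' hS) a) (lev S)) ?_).trans
      (Finset.card_insert_le _ _)) (Nat.succ_lt_succ (ih hS))
    have k : ∀ c ∈ S, V c a ∈ insert (V (S.max' hS) a) (lev S) := fun c hc => by
      rcases (S.le_max' c hc).eq_or_lt with h | h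
      · rw [← h]; exact Finset.mem_insert_self _ _
      rcases (V_btw h (ha _ m)).2.eq_or_lt with f | f
      · rw [f]; exact Finset.mem_insert_self _ _
      · rw [V_symm c, V_symm _ a] at f
        rw [V_symm c, ← (V_ult (ha c hc).ne' (ha _ m).ne' f).2]
        exact Finset.mem_insert_of_mem (mem_lev hc m h.ne)
    intro z hz
    obtain ⟨⟨x, y⟩, h, rfl⟩ := Finset.mem_image.1 hz
    simp only [Finset.mem_offDiag, Finset.mem_insert] at h
    obtain ⟨rfl | hx, rfl | hy, h⟩ := h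
    · exact absurd rfl h
    · exact V_symm y x ▸ k _ hy
    · exact k _ hx
    · exact Finset.mem_insert_of_mem (mem_lev hx hy h)

theorem pieces (S : Finset X) : ∃ (κ : Type) (_ : Finite κ) (τ : X → κ),
    (∀ k, (τ ⁻¹' {k}).OrdConnected) ∧
      ∀ x y, τ x = τ y → ∃ g ∈ G, (∀ a ∈ S, g a = a) ∧ g x = y := by
  induction hn : S.card using Nat.strong_induction_on generalizing S with
  | _ n ih =>
  rcases S.eq_empty_or_nonempty with rfl | hS
  · refine ⟨Unit, inferInstance, fun _ => (), fun _ => ⟨fun _ _ _ _ _ _ => rfl⟩, fun x y _ => ?_⟩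
    obtain ⟨g, h1, h2⟩ := lift G.one_mem Unit (fun _ => x) (fun _ => y) (by simp) (by simp)
    exact ⟨g, h1, by simp, h2 ()⟩
  obtain ⟨κ, _, τ, t1, t2⟩ := ih _ (hn ▸ lev_card S hS) (lev S) rfl
  refine ⟨S → Prop × Prop × κ, inferInstance, fun x a => (x < a, a < x, τ (V x a)), fun k => ?_,
    fun x y h => ?_⟩
  · refine ordConnected_iff.2 fun x hx y hy _ z hz => ?_
    rcases hz.1.eq_or_lt with rfl | h1
    · exact hx
    rcases hz.2.eq_or_lt with rfl | h2
    · exact hy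
    refine Eq.trans (funext fun a => ?_) hx
    have := congrFun (hx.trans hy.symm) a
    simp only [Prod.mk.injEq, eq_iff_iff] at this ⊢
    obtain ⟨a1, a2, a3⟩ := this
    rcases lt_trichotomy x a with c | c | c
    · have d := a1.1 c
      exact ⟨iff_of_true (h2.trans d) c, iff_of_false (h2.trans d).not_gt c.not_gt,
        (t1 _).out rfl a3.symm ⟨(V_btw h1 (h2.trans d)).2, (V_btw h2 d).2⟩⟩
    · exact absurd (a2.2 (c ▸ h1.trans h2)) (c ▸ lt_irrefl _)
    · refine ⟨iff_of_false (c.trans h1).not_gt c.not_gt, iff_of_true (c.trans h1) c,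
        (t1 _).out a3.symm rfl ?_⟩
      simp only [V_symm _ a.1]
      exact ⟨(V_btw (c.trans h1) h2).1, (V_btw c h1).1⟩
  have h' : ∀ a ∈ S, (x < a ↔ y < a) ∧ (a < x ↔ a < y) ∧ τ (V x a) = τ (V y a) := fun a ha => by
    simpa using congrFun h ⟨a, ha⟩
  by_cases hx : x ∈ S
  · have : y = x := le_antisymm (not_lt.1 fun c => lt_irrefl _ ((h' x hx).2.1.2 c))
      (not_lt.1 fun c => lt_irrefl _ ((h' x hx).1.2 c))
    exact ⟨1, G.one_mem, fun _ _ => rfl, this.symm⟩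
  have xa : ∀ a ∈ S, x ≠ a := fun a ha c => hx (c ▸ ha)
  have ya : ∀ a ∈ S, y ≠ a := fun a ha c => by
    rcases (xa a ha).lt_or_gt with d | d
    exacts [((h' a ha).1.1 d).ne c, ((h' a ha).2.1.1 d).ne' c]
  obtain ⟨m, hm, m1⟩ := S.exists_max_image (V x) hS
  obtain ⟨f, f1, f2, f3⟩ := t2 _ _ (h' m hm).2.2
  have key : ∀ a ∈ S, V y a = f (V x a) := fun a ha => by
    obtain ⟨l, -, l2, l3⟩ := t2 _ _ (h' a ha).2.2
    rcases (m1 a ha).eq_or_lt with c | c
    · rw [c, f3]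
      rcases lt_trichotomy (V y a) (V y m) with d | d | d
      · obtain ⟨d1, d2⟩ := V_ult (ya a ha) (ya m hm) d
        have i1 := l2 _ (mem_lev ha hm d1)
        have i2 := f2 _ (mem_lev ha hm d1)
        rw [d2] at i1 i2
        rw [← f3, ← i2, f.lt_iff_lt, ← c, l.injective (l3.trans i1.symm)] at d
        exact absurd d (lt_irrefl _)
      · exact d
      · obtain ⟨d1, d2⟩ := V_ult (ya m hm) (ya a ha) d
        have i1 := l2 _ (mem_lev hm ha d1)
        have i2 := f2 _ (mem_lev hm ha d1)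
        rw [d2] at i1 i2
        rw [← l3, ← i1, l.lt_iff_lt, c, f.injective (f3.trans i2.symm)] at d
        exact absurd d (lt_irrefl _)
    · obtain ⟨d1, d2⟩ := V_ult (xa a ha) (xa m hm) c
      rw [← l3, ← d2, l2 _ (mem_lev ha hm d1), f2 _ (mem_lev ha hm d1)]
  obtain ⟨g, g1, g2⟩ := lift f1 (Option S) (fun o => o.elim x Subtype.val)
    (fun o => o.elim y Subtype.val) (by
      rintro (_ | i) (_ | j)
      exacts [by simp, (h' _ j.2).1, (h' _ i.2).2.1, Iff.rfl]) (by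
      rintro (_ | i) (_ | j) c
      · exact absurd rfl c
      · exact key _ j.2
      · simp only [Option.elim]; rw [V_symm, V_symm _ x]; exact key _ i.2
      · exact (f2 _ (mem_lev i.2 j.2 c)).symm)
  exact ⟨g, g1, fun a ha => g2 (some ⟨a, ha⟩), g2 none⟩

theorem orbits (n : ℕ) : ∃ (κ : Type) (_ : Finite κ) (σ : (Fin n → X) → κ),
    ∀ a b, σ a = σ b → ∃ g ∈ G, ∀ i, g (a i) = b i := by
  classical
  induction n with
  | zero => exact ⟨Unit, inferInstance, fun _ => (), fun _ _ _ => ⟨1, G.one_mem, fun i => i.elim0⟩⟩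
  | succ n ih =>
    obtain ⟨κ, _, σ, hσ⟩ := ih
    let r : κ → Fin n → X := Function.invFun σ
    choose g g1 g2 using fun a => hσ a (r (σ a)) (Function.invFun_eq ⟨a, rfl⟩).symm
    choose κ' fin τ _ t2 using fun k => pieces (Finset.univ.image (r k))
    refine ⟨Σ k, κ' k, inferInstance, fun a => ⟨σ (Fin.tail a), τ _ (g (Fin.tail a) (a 0))⟩,
      fun a b h => ?_⟩
    obtain ⟨h1, h2⟩ := Sigma.mk.inj h
    have a2 := g2 (Fin.tail a)
    have b2 := g2 (Fin.tail b)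
    generalize σ (Fin.tail a) = k at *
    subst h1
    obtain ⟨f, f1, f2, f3⟩ := t2 _ _ _ (eq_of_heq h2)
    refine ⟨(g (Fin.tail b))⁻¹ * f * g (Fin.tail a),
      G.mul_mem (G.mul_mem (G.inv_mem (g1 _)) f1) (g1 _), fun i => ?_⟩
    simp only [RelIso.mul_apply]
    refine Fin.cases ?_ (fun i => ?_) i
    · rw [f3]; simp
    · change (g (Fin.tail b))⁻¹ (f (g (Fin.tail a) (Fin.tail a i))) = Fin.tail b i
      rw [a2, f2 _ (Finset.mem_image_of_mem _ (Finset.mem_univ i)), ← b2]; simp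

end Pool.Agent.H89.WO
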