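import Pool.Agent.H89.WO2

set_option autoImplicit false

namespace Pool.Agent.H89.WO

open Set FirstOrder FirstOrder.Language

noncomputable def t : ℕ → X
  | 0 => 0
  | n + 1 => upd (t n) (e (t n)) (ofLex (t n) (e (t n)) + 1)

theorem t_mono : StrictMono t := strictMono_nat_of_lt_succ fun n =>
  lt_of_A (upd_A _ _ _) (by simp [t, upd_at])

theorem V_upd (x c : X) (q : ℚ) (h : ofLex x (e c) ≠ q) :
    x ≠ upd x (e c) q ∧ V x (upd x (e c) q) = c := by
  have : ofLex x (e c) ≠ ofLex (upd x (e c) q) (e c) := by rwa [upd_at]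
  exact ⟨ne_of this, by rw [V, v_eq (upd_A _ _ _) this]; simp⟩

theorem V_t (n : ℕ) : V (t n) (t (n + 1)) = t n := (V_upd _ _ _ (by simp)).2

theorem A_t (n m : ℕ) (h : n ≤ m) : A (e (t n)) (t n) (t m) := by
  induction h with
  | refl => exact fun _ _ => rfl
  | step h ih => exact ih.trans ((upd_A _ _ _).mono (e.monotone (t_mono.monotone h)))

def U : Set X := {x | ∃ n, x < t n}

theorem t_mem (n : ℕ) : t n ∈ U := ⟨n + 1, t_mono n.lt_succ_self⟩

def E (a c : X) : Prop := ∃ u0 ∈ U, ∀ u ∈ U, u0 < u → a ≠ u ∧ V a u = c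

theorem E.uniq {a c d : X} (h : E a c) (h' : E a d) : c = d := by
  obtain ⟨u, ⟨n, hn⟩, h⟩ := h
  obtain ⟨w, ⟨m, hm⟩, h'⟩ := h'
  rw [← (h _ (t_mem (max n m)) (hn.trans_le (t_mono.monotone (le_max_left _ _)))).2,
    (h' _ (t_mem (max n m)) (hm.trans_le (t_mono.monotone (le_max_right _ _)))).2]

theorem E.mem {a c : X} (h : E a c) : c ∈ U := by
  obtain ⟨u, ⟨n, hn⟩, h⟩ := h
  have l := t_mono n.lt_succ_self
  obtain ⟨a1, a2⟩ := h _ (t_mem n) hn
  obtain ⟨-, b2⟩ := h _ (t_mem (n + 1)) (hn.trans l)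
  refine ⟨n + 1, lt_of_le_of_lt (le_of_not_gt fun d => ?_) l⟩
  have := (V_ult l.ne a1.symm (by rwa [V_t, V_symm, a2])).2
  rw [V_symm, b2, V_t] at this
  exact d.ne' this

theorem E_of {a : X} {n : ℕ} (h : a ≠ t n) (h' : V a (t n) < t n) : E a (V a (t n)) := by
  refine ⟨t n, t_mem n, fun u ⟨m, hm⟩ hu => ?_⟩
  have nm := t_mono.lt_iff_lt.1 (hu.trans hm)
  obtain ⟨a1, a2, -⟩ := v_far h ((le_v hu.ne).1 (((le_v (hu.trans hm).ne).2 (A_t n m nm.le)).trans
    (v_btw hu hm).1)) (by rw [← e.symm.lt_iff_lt]; simpa using! h')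
  exact ⟨a1, by rw [V, a2, V]⟩

theorem E_ex {c : X} {n : ℕ} (h : c < t n) :
    E (upd (t n) (e c) (ofLex (t n) (e c) - 1)) c := by
  obtain ⟨a, b⟩ := V_upd (t n) c (ofLex (t n) (e c) - 1) (by linarith)
  have := E_of a.symm (by rwa [V_symm, b])
  rwa [V_symm, b] at this

def Tr : Bool → X → X → X → X → Prop
  | false, a, b, c, d => E a c ∧ E b d ∧ c ≠ d
  | true, a, b, c, d => E a c ∧ E b c ∧ a ≠ b ∧ V a b = d

def P : ℕ → (ℕ → Bool) → X → X → Prop
  | 0, _, _, _ => True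
  | n + 1, s, a, b => ∃ c d, Tr (s 0) a b c d ∧ P n (fun k => s (k + 1)) c d

theorem P_mono (n : ℕ) : ∀ s a b, P (n + 1) s a b → P n s a b := by
  induction n with
  | zero => exact fun _ _ _ _ => trivial
  | succ n ih => exact fun s a b ⟨c, d, h1, h2⟩ => ⟨c, d, h1, ih _ _ _ h2⟩

theorem P_uniq (n : ℕ) : ∀ s s' a b, P (n + 1) s a b → P (n + 1) s' a b → s n = s' n := by
  have k : ∀ i j a b c d c' d', Tr i a b c d → Tr j a b c' d' → i = j ∧ c = c' ∧ d = d' := by
    rintro (_ | _) (_ | _) a b c d c' d' h h'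
    · exact ⟨rfl, h.1.uniq h'.1, h.2.1.uniq h'.2.1⟩
    · exact absurd ((h.1.uniq h'.1).trans (h'.2.1.uniq h.2.1)) h.2.2
    · exact absurd ((h'.1.uniq h.1).trans (h.2.1.uniq h'.2.1)) h'.2.2
    · exact ⟨rfl, h.1.uniq h'.1, h.2.2.2.symm.trans h'.2.2.2⟩
  induction n with
  | zero => exact fun s s' a b ⟨_, _, h, _⟩ ⟨_, _, h', _⟩ => (k _ _ _ _ _ _ _ _ h h').1
  | succ n ih =>
    rintro s s' a b ⟨c, d, h, h1⟩ ⟨c', d', h', h2⟩
    obtain ⟨-, rfl, rfl⟩ := k _ _ _ _ _ _ _ _ h h'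
    exact ih _ _ _ _ h1 h2

theorem P_ex (n : ℕ) : ∀ s, ∃ a b, a < b ∧ b ∈ U ∧ P n s a b := by
  induction n with
  | zero => exact fun _ => ⟨t 0, t 1, t_mono one_pos, t_mem 1, trivial⟩
  | succ n ih =>
    intro s
    obtain ⟨c, d, h1, ⟨m, h2⟩, h3⟩ := ih fun k => s (k + 1)
    have cd := e.strictMono h1
    set a := upd (t m) (e c) (ofLex (t m) (e c) - 1) with ha
    have a1 : A (e c) a (t m) := (upd_A _ _ _).symm
    have a2 : ofLex a (e c) < ofLex (t m) (e c) := by rw [ha, upd_at]; linarith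
    have a3 : E a c := E_ex (h1.trans h2)
    cases hs : s 0
    · refine ⟨a, upd (t m) (e d) (ofLex (t m) (e d) - 1),
        lt_of_A (a1.trans ((upd_A _ _ _).mono cd.le)) (upd_A _ _ _ _ cd ▸ a2),
        ⟨m, lt_of_A (upd_A _ _ _).symm (by rw [upd_at]; linarith)⟩, c, d, ?_, h3⟩
      rw [hs]; exact ⟨a3, E_ex h2, h1.ne⟩
    · set b := upd a (e d) (ofLex a (e d) + 1) with hb
      have b1 : A (e c) b (t m) := ((upd_A _ _ _).mono cd.le).symm.trans a1
      have b2 : ofLex b (e c) < ofLex (t m) (e c) := upd_A a _ _ _ cd ▸ a2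
      have b3 : V b (t m) = c := by rw [V, v_eq b1 b2.ne]; simp
      obtain ⟨b4, b5⟩ := V_upd a d (ofLex a (e d) + 1) (by linarith)
      refine ⟨a, b, lt_of_A (upd_A _ _ _) (by rw [hb, upd_at]; linarith), ⟨m, lt_of_A b1 b2⟩,
        c, d, ?_, h3⟩
      rw [hs]
      exact ⟨a3, b3 ▸ E_of (ne_of b2.ne) (b3.symm ▸ h1.trans h2), b4, b5⟩

theorem V_surj (c : X) : ∃ p q, p ≠ q ∧ V p q = c := ⟨0, _, V_upd 0 c 1 (by simp)⟩

def Inv {β : Type} (S : (β → X) → Prop) : Prop := ∀ g ∈ G, ∀ x, S x → S (g ∘ x)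

inductive Def : (α : Type) → ((α → X) → Prop) → Prop
  | inv (β : Type) (hf : Finite β) (S : (β → X) → Prop) (h : Inv S) : Def β S
  | u : Def Unit fun x => x () ∈ U
  | not {α φ} : Def α φ → Def α fun x => ¬φ x
  | and {α φ ψ} : Def α φ → Def α ψ → Def α fun x => φ x ∧ ψ x
  | ex {α φ} : Def (Option α) φ → Def α fun x => ∃ y, φ fun o => o.elim y x
  | comp {α β φ} (f : α → β) : Def α φ → Def β fun x => φ (x ∘ f)

theorem Def.congr {α : Type} {φ ψ : (α → X) → Prop} (h : Def α φ) (e : ∀ x, ψ x ↔ φ x) : Def α ψ :=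
  (funext fun x => propext (e x) : ψ = φ) ▸ h

theorem Def.formula {L : FirstOrder.Language.{0, 0}} [L.Structure X]
    (hI : ∀ n (S : (Fin n → X) → Prop), Inv S → ∃ r : L.Relations n, ∀ x, Structure.RelMap r x ↔ S x)
    (hU : ∃ r : L.Relations 1, ∀ x : Fin 1 → X, Structure.RelMap r x ↔ x 0 ∈ U)
    {α : Type} {φ : (α → X) → Prop} (h : Def α φ) :
    ∃ ψ : L.Formula α, ∀ x, ψ.Realize x ↔ φ x := by
  induction h with
  | inv β hf S h =>
    obtain ⟨n, ⟨f⟩⟩ := Finite.exists_equiv_fin β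
    obtain ⟨r, hr⟩ := hI n (fun x => S (x ∘ f)) fun g hg x hx => h g hg _ hx
    refine ⟨r.formula fun i => Term.var (f.symm i), fun x => ?_⟩
    simp [hr, Function.comp_def]
  | u =>
    obtain ⟨r, hr⟩ := hU
    exact ⟨r.formula fun _ => Term.var (), fun x => by simp [hr]⟩
  | not _ ih =>
    obtain ⟨ψ, h⟩ := ih
    exact ⟨ψ.not, fun x => by simp [h]⟩
  | and _ _ ih ih' =>
    obtain ⟨ψ, h⟩ := ih
    obtain ⟨ψ', h'⟩ := ih'
    exact ⟨ψ ⊓ ψ', fun x => by simp [h, h']⟩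
  | @ex α φ _ ih =>
    obtain ⟨ψ, h⟩ := ih
    refine ⟨(ψ.relabel fun o => o.elim (Sum.inr ()) Sum.inl).iExs Unit, fun v => ?_⟩
    simp only [Formula.realize_iExs, Formula.realize_relabel, h]
    have : ∀ y : Unit → X, (fun a => Sum.elim v y a) ∘
        (fun o : Option α => o.elim (Sum.inr ()) Sum.inl) = fun o => o.elim (y ()) v :=
      fun y => funext fun o => by cases o <;> rfl
    simp only [this]
    exact ⟨fun ⟨y, h⟩ => ⟨_, h⟩, fun ⟨y, h⟩ => ⟨fun _ => y, h⟩⟩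
  | comp f _ ih =>
    obtain ⟨ψ, h⟩ := ih
    exact ⟨ψ.relabel f, fun x => by simp [h]⟩

variable {α : Type}

theorem d4 (i j k l : α) :
    Def α fun x => x i ≠ x j ∧ x k ≠ x l ∧ V (x i) (x j) = V (x k) (x l) :=
  (Def.inv (Fin 4) inferInstance (fun x => x 0 ≠ x 1 ∧ x 2 ≠ x 3 ∧ V (x 0) (x 1) = V (x 2) (x 3))
    fun g hg x ⟨a, b, c⟩ => by
      obtain ⟨h, -, h1⟩ := shift hg
      exact ⟨g.injective.ne a, g.injective.ne b, (h1 _ _ a).trans (c ▸ (h1 _ _ b).symm)⟩).comp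
    ![i, j, k, l]

theorem dlt (i j : α) : Def α fun x => x i < x j :=
  (Def.inv (Fin 2) inferInstance (fun x => x 0 < x 1) fun g _ _ h => g.strictMono h).comp ![i, j]

theorem dne (i j : α) : Def α fun x => x i ≠ x j :=
  (Def.inv (Fin 2) inferInstance (fun x => x 0 ≠ x 1) fun g _ _ h => g.injective.ne h).comp ![i, j]

theorem dU (i : α) : Def α fun x => x i ∈ U := Def.u.comp fun _ => i

theorem dE (i j k : α) : Def α fun x => x j ≠ x k ∧ E (x i) (V (x j) (x k)) := by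
  refine ((dne j k).and (((dU none).and (((dU none).and ((dlt (some none) none).and
    (d4 (some (some i)) none (some (some j)) (some (some k))).not)).ex.not)).ex)).congr fun x => ?_
  refine and_congr_right fun h => exists_congr fun u0 => and_congr_right fun _ => ?_
  simp [h]

theorem pull {φ : (α → X) → Prop} (h : Def α φ) : ∃ ψ, Def (α × Bool) ψ ∧
    ∀ z, (∀ i, z (i, true) ≠ z (i, false)) → (ψ z ↔ φ fun i => V (z (i, true)) (z (i, false))) := by
  induction h with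
  | inv β hf S h =>
    refine ⟨fun z => (∀ i, z (i, true) ≠ z (i, false)) ∧ S fun i => V (z (i, true)) (z (i, false)),
      Def.inv _ inferInstance _ fun g hg z ⟨a, b⟩ => ⟨fun i => g.injective.ne (a i), ?_⟩,
      fun z hz => and_iff_right hz⟩
    obtain ⟨f, f1, f2⟩ := shift hg
    convert h f f1 _ b using 1
    exact funext fun i => f2 _ _ (a i)
  | u =>
    refine ⟨_, (dE none (some ((), true)) (some ((), false))).ex, fun z hz => ?_⟩
    exact ⟨fun ⟨_, h⟩ => h.2.mem, fun ⟨n, h⟩ => ⟨_, hz (), E_ex h⟩⟩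
  | not _ ih =>
    obtain ⟨ψ, h, h'⟩ := ih
    exact ⟨_, h.not, fun z hz => not_congr (h' z hz)⟩
  | and _ _ ih ih' =>
    obtain ⟨ψ, h, h'⟩ := ih
    obtain ⟨ψ', k, k'⟩ := ih'
    exact ⟨_, h.and k, fun z hz => and_congr (h' z hz) (k' z hz)⟩
  | @ex α φ _ ih =>
    obtain ⟨ψ, h, h'⟩ := ih
    let m : Option α × Bool → Option (Option (α × Bool)) := fun p => match p with
      | (none, true) => some none
      | (none, false) => none
      | (some i, b) => some (some (i, b))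
    refine ⟨_, ((dne (some none) none).and (h.comp m)).ex.ex, fun z hz => ?_⟩
    have : ∀ p q : X, p ≠ q → (ψ ((fun o : Option (Option (α × Bool)) =>
        o.elim q fun o => o.elim p z) ∘ m) ↔
        φ fun o => o.elim (V p q) fun i => V (z (i, true)) (z (i, false))) := fun p q c => by
      rw [h' _ (by rintro (_ | i); exacts [c, hz i])]
      exact iff_of_eq (congrArg φ (funext fun o => by cases o <;> rfl))
    refine ⟨fun ⟨p, q, a, b⟩ => ⟨_, (this p q a).1 b⟩, fun ⟨y, hy⟩ => ?_⟩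
    obtain ⟨p, q, a, rfl⟩ := V_surj y
    exact ⟨p, q, a, (this p q a).2 hy⟩
  | comp f _ ih =>
    obtain ⟨ψ, h, h'⟩ := ih
    exact ⟨_, h.comp (Prod.map f id), fun z hz => h' _ fun i => hz (f i)⟩

theorem dP (n : ℕ) : ∀ s, Def (Fin 2) fun x => P n s (x 0) (x 1) := by
  induction n with
  | zero => exact fun _ => Def.inv _ inferInstance _ fun _ _ _ _ => trivial
  | succ n ih =>
    intro s
    obtain ⟨ψ, h, h'⟩ := pull (ih fun k => s (k + 1))
    let a : Option (Option (Option (Option (Fin 2)))) := some (some (some (some 0)))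
    let b : Option (Option (Option (Option (Fin 2)))) := some (some (some (some 1)))
    let p : Option (Option (Option (Option (Fin 2)))) := some (some (some none))
    let q : Option (Option (Option (Option (Fin 2)))) := some (some none)
    let r : Option (Option (Option (Option (Fin 2)))) := some none
    have tr : Def _ fun x => x p ≠ x q ∧ x r ≠ x none ∧
        Tr (s 0) (x a) (x b) (V (x p) (x q)) (V (x r) (x none)) := by
      cases s 0
      · exact ((dE a p q).and ((dE b r none).and (d4 p q r none).not)).congr fun x => by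
          simp only [Tr]; tauto
      · exact ((dE a p q).and ((dE b p q).and (d4 a b r none))).congr fun x => by
          simp only [Tr]; tauto
    let m : Fin 2 × Bool → Option (Option (Option (Option (Fin 2)))) := fun z =>
      if z.1 = 0 then cond z.2 p q else cond z.2 r none
    refine (tr.and (h.comp m)).ex.ex.ex.ex.congr fun x => ⟨fun ⟨c, d, h1, h2⟩ => ?_,
      fun ⟨p, q, r, w, ⟨h1, h2, h3⟩, h4⟩ => ⟨_, _, h3, (h' _ ?_).1 h4⟩⟩
    · obtain ⟨p, q, h3, rfl⟩ := V_surj c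
      obtain ⟨r, w, h4, rfl⟩ := V_surj d
      exact ⟨p, q, r, w, ⟨h3, h4, h1⟩, (h' _ (Fin.forall_fin_two.2 ⟨h3, h4⟩)).2 h2⟩
    · exact Fin.forall_fin_two.2 ⟨h1, h2⟩

end Pool.Agent.H89.WO
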