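import Mathlib

set_option autoImplicit false

namespace Pool.Agent.H89.WX

variable {F A K : Type*} [Field F] [CommRing A] [IsDomain A] [Algebra F A]
  [Field K] [Algebra A K] [IsFractionRing A K] [Algebra F K] [IsScalarTower F A K]

open TrivSqZeroExt in
theorem exists_ext (K : Type*) [Field K] [Algebra A K] [IsFractionRing A K] [Algebra F K]
    [IsScalarTower F A K] (D : Derivation F A A) :
    ∃ D' : Derivation F K K, ∀ a, D' (algebraMap A K a) = algebraMap A K (D a) := by
  let g : A →ₐ[F] DualNumber K :=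
    { toFun := fun a => inl (algebraMap A K a) + inr (algebraMap A K (D a))
      map_one' := by ext <;> simp
      map_mul' := fun a b => by
        ext
        · simp
        · simp [DualNumber.snd_mul, Algebra.smul_def, algebraMap_eq_inl]; ring
      map_zero' := by ext <;> simp
      map_add' := fun a b => by ext <;> simp [Algebra.smul_def]
      commutes' := fun r => by
        ext
        · simp [algebraMap_eq_inl', ← IsScalarTower.algebraMap_apply]
        · simp [algebraMap_eq_inl'] }
  have hg : ∀ y : nonZeroDivisors A, IsUnit (g y) := by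
    intro y
    rw [isUnit_iff_isUnit_fst]
    simp [g]
  let G : K →ₐ[F] DualNumber K := IsLocalization.liftAlgHom (M := nonZeroDivisors A) hg
  have hG : ∀ a, G (algebraMap A K a) = g a := fun a => by simp [G]
  have hfst : ∀ x, (G x).fst = x := by
    have : ((fstHom F K K).comp G).toRingHom = RingHom.id K := by
      refine IsLocalization.ringHom_ext (nonZeroDivisors A) (RingHom.ext fun a => ?_)
      simp [hG, g]
    exact fun x => DFunLike.congr_fun this x
  refine ⟨Derivation.mk' (((sndHom K K).restrictScalars F) ∘ₗ G.toLinearMap) (fun a b => ?_),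
    fun a => ?_⟩
  · simp [DualNumber.snd_mul, hfst]; ring
  · simp [hG, g, Algebra.smul_def, algebraMap_eq_inl]

omit [IsDomain A] [Algebra F A] [IsScalarTower F A K] in
theorem ext_unique {D1 D2 : Derivation F K K}
    (h : ∀ a : A, D1 (algebraMap A K a) = D2 (algebraMap A K a)) : D1 = D2 := by
  ext x
  obtain ⟨a, b, hb, rfl⟩ := IsFractionRing.div_surjective (A := A) x
  rw [Derivation.leibniz_div, Derivation.leibniz_div, h, h]

noncomputable def ex (K : Type*) [Field K] [Algebra A K] [IsFractionRing A K] [Algebra F K]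
    [IsScalarTower F A K] (D : Derivation F A A) : Derivation F K K := (exists_ext K D).choose

@[simp] theorem ex_apply (D : Derivation F A A) (a : A) :
    ex K D (algebraMap A K a) = algebraMap A K (D a) := (exists_ext K D).choose_spec a

theorem ex_add (D E : Derivation F A A) : ex K (D + E) = ex K D + ex K E :=
  ext_unique (A := A) fun a => by simp
theorem ex_sub (D E : Derivation F A A) : ex K (D - E) = ex K D - ex K E :=
  ext_unique (A := A) fun a => by simp
theorem ex_smul (f : A) (E : Derivation F A A) : ex K (f • E) = algebraMap A K f • ex K E :=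
  ext_unique (A := A) fun a => by simp [Algebra.smul_def]
theorem ex_lie (D E : Derivation F A A) : ex K ⁅D, E⁆ = ⁅ex K D, ex K E⁆ :=
  ext_unique (A := A) fun a => by simp [Derivation.commutator_apply]
theorem ex_inj {D E : Derivation F A A} (h : ex K D = ex K E) : D = E := by
  ext a
  have := DFunLike.congr_fun h (algebraMap A K a)
  simpa using this

theorem casimir {R : Type*} [CommRing R] [Algebra F R] (δ D : Derivation F R R) (y : R)
    (h : δ y = 1) :
    ⁅δ, ⁅(y ^ 2) • δ, D⁆⁆ - ⁅y • δ, ⁅y • δ, D⁆⁆ - ⁅y • δ, D⁆ = -((D y • δ) + (D y • δ)) := by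
  ext b
  simp [Derivation.commutator_apply, h, pow_two]
  ring

theorem ring_lemma {R : Type*} [Ring R] (P M : R) (hP : P * P + (P + P) = 0)
    (h3 : ((P * M - M * P) * M - M * (P * M - M * P)) * M
      = M * ((P * M - M * P) * M - M * (P * M - M * P))) :
    6 * (((P * M - M * P) * M - M * (P * M - M * P)) *
      ((P * M - M * P) * M - M * (P * M - M * P))) = 0 := by
  let c : R → R := fun X => X * M - M * X
  have cm : ∀ X Y, c (X * Y) = c X * Y + X * c Y := fun X Y => by simp only [c]; noncomm_ring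
  have ca : ∀ X Y, c (X + Y) = c X + c Y := fun X Y => by simp only [c]; noncomm_ring
  have c0 : c 0 = 0 := by simp [c]
  have c3 : c (c (c P)) = 0 := sub_eq_zero.2 h3
  have h := congrArg (fun X => c (c (c (c X)))) hP
  simp only [cm, ca, c3, c0, mul_zero, zero_mul, add_zero, zero_add] at h
  change 6 * (c (c P) * c (c P)) = 0
  rw [← h]; noncomm_ring

theorem symbol [CharZero F] (E E0 E1 : Derivation F A A) (x0 : Derivation F A A) (hx0 : x0 ≠ 0)
    (h : ∀ D : Derivation F A A, let P := fun D => ⁅E, ⁅E1, D⁆⁆ - ⁅E0, ⁅E0, D⁆⁆ - ⁅E0, D⁆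
      P (P D) + (P D + P D) = 0) (a : A) : E a * E1 a = E0 a ^ 2 := by
  let ad : Derivation F A A → Module.End F (Derivation F A A) := LieAlgebra.ad F _
  let P : Module.End F (Derivation F A A) := ad E * ad E1 - ad E0 * ad E0 - ad E0
  let M : Module.End F (Derivation F A A) :=
    { toFun := fun D => a • D
      map_add' := fun D D' => smul_add _ _ _
      map_smul' := fun r D => smul_comm _ _ _ }
  have h2 : ∀ D, ((P * M - M * P) * M - M * (P * M - M * P)) D
      = (2 * (E a * E1 a - E0 a ^ 2)) • D := by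
    intro D
    ext b
    simp [P, M, ad, Derivation.commutator_apply]
    ring
  have h3 := ring_lemma P M (LinearMap.ext fun D => h D) (LinearMap.ext fun D => by
    rw [Module.End.mul_apply, Module.End.mul_apply, h2, h2]
    exact smul_comm _ _ _)
  have h4 := LinearMap.congr_fun h3 x0
  rw [Module.End.mul_apply, Module.End.mul_apply, h2, h2] at h4
  obtain ⟨b, hb⟩ : ∃ b, x0 b ≠ 0 := by
    by_contra hc
    push Not at hc
    exact hx0 (Derivation.ext hc)
  have h5 := DFunLike.congr_fun h4 b
  have : CharZero A := charZero_of_injective_algebraMap (algebraMap F A).injective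
  simp [hb] at h5
  exact sub_eq_zero.1 h5

theorem key [CharZero F] (K : Type*) [Field K] [Algebra A K] [IsFractionRing A K] [Algebra F K]
    [IsScalarTower F A K] (ψ : Derivation F A A ≃ₗ⁅F⁆ Derivation F A A) (δ : Derivation F A A)
    (y : A) (h : δ y = 1) :
    ∃ u : K, ex K (ψ δ) u = 1 ∧ ∀ D, ex K (ψ (D y • δ)) = ex K (ψ D) u • ex K (ψ δ) := by
  have hδ : δ ≠ 0 := by rintro rfl; simp at h
  have hE : ψ δ ≠ 0 := by simpa using hδ
  set E := ψ δ with hEd
  set E0 := ψ (y • δ) with hE0
  set E1 := ψ ((y ^ 2) • δ) with hE1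
  have hP : ∀ D, ⁅E, ⁅E1, ψ D⁆⁆ - ⁅E0, ⁅E0, ψ D⁆⁆ - ⁅E0, ψ D⁆ = -(ψ (D y • δ) + ψ (D y • δ)) := by
    intro D
    have := congrArg ψ (casimir δ D y h)
    simpa only [map_sub, map_neg, map_add, LieEquiv.map_lie] using this
  have hs := symbol E E0 E1 E hE (by
    intro D
    obtain ⟨D, rfl⟩ : ∃ D', ψ D' = D := ⟨_, ψ.apply_symm_apply D⟩
    intro P
    simp only [P]
    rw [hP D, ← map_add, ← map_neg, hP]
    simp [h, add_smul]
    abel)
  obtain ⟨a, ha⟩ : ∃ a, E a ≠ 0 := by
    by_contra hc
    push Not at hc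
    exact hE (Derivation.ext hc)
  have hpol : ∀ b, E a * E1 b + E b * E1 a = 2 * E0 a * E0 b := by
    intro b
    have h1 := hs (a + b)
    simp only [map_add] at h1
    linear_combination h1 - hs a - hs b
  have h0 : ∀ b, E0 a * E b = E0 b * E a := by
    intro b
    have : (E0 a * E b - E0 b * E a) ^ 2 = 0 := by
      linear_combination (E a * E b) * hpol b - (E b) ^ 2 * hs a - (E a) ^ 2 * hs b
    exact sub_eq_zero.1 (pow_eq_zero_iff (by norm_num) |>.1 this)
  have h1 : ∀ b, E1 b * E a ^ 2 = E0 a ^ 2 * E b := by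
    intro b
    linear_combination (E a) * hpol b - (E b) * hs a - 2 * (E0 a) * h0 b
  have hp : algebraMap A K (E a) ≠ 0 := by simpa using ha
  set u : K := algebraMap A K (E0 a) / algebraMap A K (E a) with hu
  have e0 : ex K E0 = u • ex K E := ext_unique (A := A) fun b => by
    have := congrArg (algebraMap A K) (h0 b)
    simp only [map_mul] at this
    simp only [ex_apply, Derivation.smul_apply, smul_eq_mul, hu]
    field_simp
    exact this.symm
  have e1 : ex K E1 = (u ^ 2) • ex K E := ext_unique (A := A) fun b => by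
    have := congrArg (algebraMap A K) (h1 b)
    simp only [map_mul, map_pow] at this
    simp only [ex_apply, Derivation.smul_apply, smul_eq_mul, hu]
    field_simp
    exact this
  have hu1 : ex K E u = 1 := by
    have h2 : ⁅δ, y • δ⁆ = δ := by
      ext b; simp [Derivation.commutator_apply, h]
    have h3 : ⁅E, E0⁆ = E := by rw [hEd, hE0, ← LieEquiv.map_lie, h2]
    have h4 := congrArg (ex K) h3
    rw [ex_lie, e0] at h4
    have h5 := DFunLike.congr_fun h4 (algebraMap A K a)
    simp only [Derivation.commutator_apply, Derivation.smul_apply, smul_eq_mul, ex_apply,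
      Derivation.leibniz] at h5
    apply mul_left_cancel₀ hp
    linear_combination h5
  refine ⟨u, hu1, fun D => ?_⟩
  have h6 := congrArg (ex K) (hP D)
  have h7 := casimir (ex K E) (ex K (ψ D)) u hu1
  rw [ex_sub, ex_sub, ex_lie, ex_lie, ex_lie, ex_lie, e0, e1, h7, ← zero_sub (ψ _ + _), ex_sub,
    ex_add] at h6
  have h8 : ex K (0 : Derivation F A A) = 0 := ext_unique (A := A) fun a => by simp
  rw [h8, zero_sub, neg_inj, ← two_smul F, ← two_smul F] at h6
  exact (smul_right_injective _ (two_ne_zero) h6).symm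

theorem semilinear [CharZero F] (ψ : Derivation F A A ≃ₗ⁅F⁆ Derivation F A A)
    (d1 d2 : Derivation F A A) (x1 x2 : A) (h11 : d1 x1 = 1) (h21 : d2 x1 = 0) (h12 : d1 x2 = 0)
    (h22 : d2 x2 = 1) (f : A) : ∃ g : A, ∀ D, ψ (f • D) = g • ψ D := by
  let K := FractionRing A
  have hsl : ∀ (d : Derivation F A A) (x : A), d x = 1 → ∃ c : K, ∀ δ : Derivation F A A,
      δ x = 1 → ex K (ψ (f • δ)) = c • ex K (ψ δ) := by
    intro d x hd
    obtain ⟨u, hu1, hu⟩ := key K ψ d x hd
    refine ⟨ex K (ψ (f • d)) u, fun δ hδ => ?_⟩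
    obtain ⟨v, -, hv⟩ := key K ψ δ x hδ
    have h1 := hv (f • δ)
    have h2 := hu (f • δ)
    have h3 := hu δ
    have h4 := hu (f • d)
    simp only [Derivation.smul_apply, hδ, hd, smul_eq_mul, mul_one, one_smul] at h1 h2 h3 h4
    have h5 := DFunLike.congr_fun h2 u
    have h6 := DFunLike.congr_fun h3 u
    have h7 := DFunLike.congr_fun h1 u
    simp only [Derivation.smul_apply, hu1, smul_eq_mul, mul_one] at h5 h6 h7
    rw [h5, h7, ← h6, mul_one]
    exact h1
  obtain ⟨c1, hc1⟩ := hsl d1 x1 h11
  obtain ⟨c2, hc2⟩ := hsl d2 x2 h22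
  have hc : c1 = c2 := by
    have h1 := hc1 (d1 + d2) (by simp [h11, h21])
    rw [hc2 (d1 + d2) (by simp [h12, h22])] at h1
    obtain ⟨u, hu, -⟩ := key K ψ (d1 + d2) x1 (by simp [h11, h21])
    have := DFunLike.congr_fun h1 u
    simpa only [Derivation.smul_apply, hu, smul_eq_mul, mul_one] using this.symm
  subst hc
  have hall : ∀ D, ex K (ψ (f • D)) = c1 • ex K (ψ D) := by
    intro D
    have h1 := hc1 (D - D x1 • d1 + d1) (by simp [h11])
    have h2 := hc1 d1 h11
    have h3 := hc2 (D x1 • d1 + d2) (by simp [h12, h22])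
    have h4 := hc2 d2 h22
    have h5 : D = (D - D x1 • d1 + d1) - d1 + (D x1 • d1 + d2) - d2 := by abel
    generalize D - D x1 • d1 + d1 = D1 at h1 h5
    generalize D x1 • d1 + d2 = D2 at h3 h5
    rw [h5]
    simp only [smul_sub, smul_add, map_sub, map_add, ex_sub, ex_add, h1, h2, h3, h4]
  have h6 := DFunLike.congr_fun (hall (ψ.symm d1)) (algebraMap A K x1)
  simp only [LieEquiv.apply_symm_apply, ex_apply, Derivation.smul_apply, h11, map_one,
    smul_eq_mul, mul_one] at h6
  refine ⟨ψ (f • ψ.symm d1) x1, fun D => ex_inj (K := K) ?_⟩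
  rw [hall, ex_smul, h6]

theorem main [CharZero F] (ψ : Derivation F A A ≃ₗ⁅F⁆ Derivation F A A)
    (d1 d2 : Derivation F A A) (x1 x2 : A) (h11 : d1 x1 = 1) (h21 : d2 x1 = 0) (h12 : d1 x2 = 0)
    (h22 : d2 x2 = 1) : ∃ φ : A ≃ₐ[F] A, ∀ D g, ψ D g = φ (D (φ.symm g)) := by
  choose φ hφ using semilinear ψ d1 d2 x1 x2 h11 h21 h12 h22
  choose φ' hφ' using semilinear ψ.symm d1 d2 x1 x2 h11 h21 h12 h22
  have hc : ∀ g g' : A, g • d1 = g' • d1 → g = g' := fun g g' h => by
    simpa [h11] using DFunLike.congr_fun h x1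
  have hφ1 : ∀ f, ψ (f • ψ.symm d1) = φ f • d1 := fun f => by rw [hφ, LieEquiv.apply_symm_apply]
  let Φ : A ≃ₐ[F] A :=
    { toFun := φ
      invFun := φ'
      left_inv := fun f => hc _ _ (by
        have := hφ' (φ f) (ψ d1)
        rw [← hφ, LieEquiv.symm_apply_apply, LieEquiv.symm_apply_apply] at this
        exact this.symm)
      right_inv := fun f => hc _ _ (by
        rw [← hφ1, ← hφ', LieEquiv.apply_symm_apply])
      map_mul' := fun f g => hc _ _ (by rw [← hφ1, mul_smul, hφ, hφ1, mul_smul])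
      map_add' := fun f g => hc _ _ (by rw [← hφ1, add_smul, map_add, hφ1, hφ1, add_smul])
      commutes' := fun r => hc _ _ (by
        rw [← hφ1, algebraMap_smul, algebraMap_smul, map_smul, LieEquiv.apply_symm_apply]) }
  refine ⟨Φ, fun D g => ?_⟩
  obtain ⟨f, rfl⟩ := Φ.surjective g
  rw [AlgEquiv.symm_apply_apply]
  change ψ D (φ f) = φ (D f)
  have hb : ∀ (D E : Derivation F A A) (f : A), ⁅D, f • E⁆ = D f • E + f • ⁅D, E⁆ := by
    intro D E f
    ext b; simp [Derivation.commutator_apply]; ring
  have h1 := congrArg ψ (hb D (ψ.symm d1) f)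
  rw [LieEquiv.map_lie, map_add, hφ1, hφ1, hφ, LieEquiv.map_lie, LieEquiv.apply_symm_apply,
    hb] at h1
  exact hc _ _ (add_right_cancel h1)

end Pool.Agent.H89.WX
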