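import Mathlib

set_option autoImplicit false
open Set Topology Filter Metric

namespace Pool.Agent.H89.Wael

/-- Index of the nearest centre. -/
noncomputable def J (z : ℂ) : ℕ := ⌊z.re / 3 + 1 / 2⌋₊

/-- Position relative to the nearest centre. -/
noncomputable def w (z : ℂ) : ℂ := z - 3 * J z

/-- The weight. -/
noncomputable def d (z : ℂ) : ℝ := max 0 (1 - ‖w z‖) / (J z + 1)

lemma J_eq {z : ℂ} {j : ℕ} (h : ‖z - 3 * j‖ ≤ 1) : J z = j := by
  have h1 := (Complex.abs_re_le_norm (z - 3 * j)).trans h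
  have h2 : (z - 3 * j).re = z.re - 3 * j := by simp
  rw [h2, abs_le] at h1
  have hj : (0 : ℝ) ≤ j := Nat.cast_nonneg j
  unfold J
  rw [Nat.floor_eq_iff (by linarith)]
  constructor <;> linarith

lemma d_nonneg (z : ℂ) : 0 ≤ d z := by unfold d; positivity

lemma d_pos {z : ℂ} (h : 0 < d z) : ‖w z‖ < 1 := by
  by_contra hc
  have : max 0 (1 - ‖w z‖) = 0 := max_eq_left (by linarith)
  unfold d at h
  rw [this] at h
  simp at h

lemma d_eq {z : ℂ} {j : ℕ} (h : ‖z - 3 * j‖ ≤ 1) : d z = (1 - ‖z - 3 * j‖) / (j + 1) := by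
  unfold d w
  rw [J_eq h, max_eq_right (by linarith)]

lemma d_le (z : ℂ) : d z ≤ max 0 (1 - ‖w z‖) := by
  unfold d
  exact div_le_self (le_max_left _ _) (by have : (0 : ℝ) ≤ J z := Nat.cast_nonneg _; linarith)

lemma d_lip (z z' : ℂ) : d z ≤ d z' + ‖z - z'‖ := by
  have h0 := d_nonneg z'
  have h1 := norm_nonneg (z - z')
  have h2 : ‖z' - 3 * J z‖ ≤ ‖w z‖ + ‖z - z'‖ := by
    have : z' - 3 * J z = w z - (z - z') := by unfold w; ring
    rw [this]; exact norm_sub_le _ _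
  by_cases h : ‖z' - 3 * J z‖ ≤ 1
  · rw [d_eq h]
    unfold d
    have hj : (1 : ℝ) ≤ J z + 1 := by have : (0 : ℝ) ≤ J z := Nat.cast_nonneg _; linarith
    rw [div_le_iff₀ (by linarith), add_mul, div_mul_cancel₀ _ (by linarith)]
    refine max_le (by nlinarith) (by nlinarith)
  · refine (d_le z).trans (max_le (by linarith) (by linarith))

lemma norm_d (z : ℂ) : ‖z‖ * d z ≤ 3 := by
  rcases (d_nonneg z).eq_or_lt with h | h
  · rw [← h]; norm_num
  have h1 := d_pos h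
  have h2 : ‖z‖ ≤ ‖w z‖ + 3 * J z := by
    have : z = w z + 3 * J z := by unfold w; ring
    calc ‖z‖ = ‖w z + 3 * J z‖ := by rw [← this]
      _ ≤ ‖w z‖ + ‖(3 * J z : ℂ)‖ := norm_add_le _ _
      _ = _ := by simp
  have hj : (0 : ℝ) ≤ J z := Nat.cast_nonneg _
  have h3 : d z ≤ 1 / (J z + 1) := by
    unfold d
    gcongr
    exact max_le zero_le_one (by linarith [norm_nonneg (w z)])
  calc ‖z‖ * d z ≤ (3 * (J z + 1)) * (1 / (J z + 1)) := by gcongr; linarith
    _ = 3 := by field_simp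

lemma d_cont : Continuous d :=
  (LipschitzWith.of_le_add (f := d) fun x y => by rw [dist_eq_norm]; exact d_lip x y).continuous

lemma same {a b : ℂ} (h : ∀ ζ : ℂ, ‖ζ‖ ≤ 1 → 0 < d (a + ζ * b)) (ζ : ℂ) (hζ : ‖ζ‖ ≤ 1) :
    ‖a + ζ * b - 3 * J a‖ ≤ 1 := by
  by_contra hc
  have ha : ‖w a‖ < 1 := d_pos (by simpa using h 0 (by simp))
  have hcont : ContinuousOn (fun t : ℝ => ‖a + (t * ζ) * b - 3 * J a‖) (Icc 0 1) := by fun_prop
  obtain ⟨t, ht, ht'⟩ := intermediate_value_Icc zero_le_one hcont (a := 0) (b := 1)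
    (show (1 : ℝ) ∈ _ from ⟨by simpa [w] using ha.le, by simpa using (not_le.1 hc).le⟩)
  have h1 := h (t * ζ) (by
    rw [norm_mul, Complex.norm_real, Real.norm_eq_abs, abs_of_nonneg ht.1]
    nlinarith [ht.1, ht.2, norm_nonneg ζ])
  simp only at ht'
  rw [d_eq ht'.le, ht'] at h1
  simp at h1

lemma psh {a b : ℂ} (h : ∀ ζ : ℂ, ‖ζ‖ ≤ 1 → 0 < d (a + ζ * b)) :
    (∫ θ in (0 : ℝ)..(2 * Real.pi), Real.log (d (a + Complex.exp ((θ : ℂ) * Complex.I) * b)))
      ≤ 2 * Real.pi * Real.log (d a) := by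
  let F : ℝ → ℝ := fun θ => Real.log (d (a + Complex.exp ((θ : ℂ) * Complex.I) * b))
  have hn : ∀ θ : ℝ, ‖Complex.exp ((θ : ℂ) * Complex.I)‖ ≤ 1 := fun θ => by
    rw [Complex.norm_exp_ofReal_mul_I]
  have hF : Continuous F :=
    Continuous.log (d_cont.comp (by fun_prop)) fun θ => (h _ (hn θ)).ne'
  have ha : 0 < d a := by simpa using h 0 (by simp)
  have key : ∀ θ : ℝ, F θ + F (θ + Real.pi) ≤ 2 * Real.log (d a) := by
    intro θ
    have e : Complex.exp (((θ + Real.pi : ℝ) : ℂ) * Complex.I) =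
        -Complex.exp ((θ : ℂ) * Complex.I) := by
      push_cast
      rw [add_mul, Complex.exp_add, Complex.exp_pi_mul_I]; ring
    simp only [F, e]
    set ζ := Complex.exp ((θ : ℂ) * Complex.I)
    have h1 := h ζ (hn θ)
    have h2 := h (-ζ) (by rw [norm_neg]; exact hn θ)
    have s0 := same h 0 (by simp)
    have s1 := same h ζ (hn θ)
    have s2 := same h (-ζ) (by rw [norm_neg]; exact hn θ)
    rw [zero_mul, add_zero] at s0
    have h3 : d (a + ζ * b) + d (a + -ζ * b) ≤ 2 * d a := by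
      rw [d_eq s0, d_eq s1, d_eq s2, ← add_div, ← mul_div_assoc]
      gcongr
      have : ‖(a + ζ * b - 3 * J a) + (a + -ζ * b - 3 * J a)‖ = 2 * ‖a - 3 * J a‖ := by
        have : (a + ζ * b - 3 * J a) + (a + -ζ * b - 3 * J a) = 2 * (a - 3 * J a) := by ring
        rw [this, norm_mul]; simp
      linarith [norm_add_le (a + ζ * b - 3 * J a) (a + -ζ * b - 3 * J a)]
    rw [← Real.log_mul h1.ne' h2.ne']
    have : 2 * Real.log (d a) = Real.log (d a * d a) := by rw [Real.log_mul ha.ne' ha.ne']; ring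
    rw [this]
    apply Real.log_le_log (mul_pos h1 h2)
    nlinarith [sq_nonneg (d (a + ζ * b) - d (a + -ζ * b))]
  have hF' : Continuous fun θ => F (θ + Real.pi) := hF.comp (continuous_add_const _)
  have h1 : (∫ θ in (0 : ℝ)..(2 * Real.pi), F θ) =
      ∫ θ in (0 : ℝ)..Real.pi, (F θ + F (θ + Real.pi)) := by
    rw [intervalIntegral.integral_add (hF.intervalIntegrable _ _)
      (hF'.intervalIntegrable _ _),
      intervalIntegral.integral_comp_add_right, zero_add, ← two_mul,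
      intervalIntegral.integral_add_adjacent_intervals (hF.intervalIntegrable _ _)
        (hF.intervalIntegrable _ _)]
  change (∫ θ in (0 : ℝ)..(2 * Real.pi), F θ) ≤ _
  rw [h1]
  have h2 := intervalIntegral.integral_mono_on (μ := MeasureTheory.volume) Real.pi_pos.le
    ((hF.add hF').intervalIntegrable _ _)
    (continuous_const.intervalIntegrable _ _) (fun θ _ => key θ)
  refine h2.trans (le_of_eq ?_)
  simp
  ring

lemma ev_J {z : ℂ} (h : 0 < d z) : ∀ᶠ z' in 𝓝 z, J z' = J z := by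
  have h1 : ∀ᶠ z' : ℂ in 𝓝 z, ‖z' - 3 * (J z : ℂ)‖ < 1 :=
    (show ContinuousAt (fun z' : ℂ => ‖z' - 3 * J z‖) z by fun_prop).eventually_lt
      continuousAt_const (d_pos h)
  filter_upwards [h1] with z' hz using J_eq hz.le

lemma diff_J (P : ℕ → ℂ → ℂ) (hP : ∀ j, Differentiable ℂ (P j)) {z : ℂ} (h : 0 < d z) :
    DifferentiableAt ℂ (fun z => P (J z) (w z)) z := by
  have : DifferentiableAt ℂ (fun z' => P (J z) (z' - 3 * J z)) z :=
    ((hP _).comp (differentiable_id.sub_const _)).differentiableAt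
  refine this.congr_of_eventuallyEq ?_
  filter_upwards [ev_J h] with z' hz
  simp only [w, hz]

lemma d_le_one (z : ℂ) : d z ≤ 1 :=
  (d_le z).trans (max_le zero_le_one (by linarith [norm_nonneg (w z)]))

lemma ball_J {s z : ℂ} (hs : 0 < d s) (h : ‖z - s‖ < 1 / 2 * d s) :
    J z = J s ∧ ‖w z - w s‖ < 1 / 2 / (J s + 1) := by
  have h1 := d_pos hs
  have h2 : d s ≤ 1 - ‖w s‖ := (d_le s).trans (max_le (by linarith) le_rfl)
  have h3 : ‖z - 3 * J s‖ ≤ ‖z - s‖ + ‖w s‖ := by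
    have : z - 3 * J s = (z - s) + w s := by unfold w; ring
    rw [this]; exact norm_add_le _ _
  have h4 : J z = J s := J_eq (by linarith)
  refine ⟨h4, ?_⟩
  have : w z - w s = z - s := by unfold w; rw [h4]; ring
  rw [this]
  refine h.trans_le ?_
  have h3 : d s ≤ 1 / (J s + 1) := by
    unfold d
    gcongr
    exact max_le zero_le_one (by linarith [norm_nonneg (w s)])
  calc 1 / 2 * d s ≤ 1 / 2 * (1 / (J s + 1)) := by gcongr
    _ = _ := by ring

lemma pow_bd (k : ℕ) {x : ℝ} (h0 : 0 ≤ x) (h : x ≤ 1 + 2 / (k + 1)) : x ^ k < 10 := by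
  have h1 : x ≤ Real.exp (2 / (k + 1)) := h.trans (by linarith [Real.add_one_le_exp (2 / ((k : ℝ) + 1))])
  have h2 : x ^ k ≤ Real.exp 2 := by
    calc x ^ k ≤ Real.exp (2 / (k + 1)) ^ k := by gcongr
      _ = Real.exp (k * (2 / (k + 1))) := by rw [Real.exp_nat_mul]
      _ ≤ Real.exp 2 := by
        apply Real.exp_le_exp.2
        rw [← mul_div_assoc, div_le_iff₀ (by positivity)]
        linarith
  have h3 : Real.exp 2 = Real.exp 1 * Real.exp 1 := by rw [← Real.exp_add]; norm_num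
  nlinarith [Real.exp_one_lt_d9, Real.exp_pos 1]

lemma no_global (h0 h1 : ℂ → ℂ) (d0 : ∀ z, 0 < d z → DifferentiableAt ℂ h0 z) (N : ℕ) (C : ℝ)
    (hb : ∀ z, 0 < d z → d z ^ N * ‖h1 z‖ ≤ C)
    (he : ∀ z, 0 < d z →
      1 / 2 * w z ^ J z = h0 z * w z ^ (J z + 1) + h1 z * (1 / 2) ^ (J z + 1)) : False := by
  have key : ∀ j : ℕ, (1 / 2 : ℝ) ≤ C * 4 ^ N * (((j + 1 : ℕ) : ℝ) ^ N * (2 / 3) ^ (j + 1)) := by
    intro j
    have hin : ∀ u : ℂ, ‖u‖ ≤ 3 / 4 → J (u + 3 * j) = j ∧ w (u + 3 * j) = u ∧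
        d (u + 3 * j) = (1 - ‖u‖) / (j + 1) ∧ 0 < d (u + 3 * j) := by
      intro u hu
      have a1 : ‖u + 3 * j - 3 * j‖ ≤ 1 := by rw [add_sub_cancel_right]; linarith
      have a2 := d_eq a1
      rw [add_sub_cancel_right] at a2
      refine ⟨J_eq a1, by unfold w; rw [J_eq a1]; ring, a2, ?_⟩
      rw [a2]
      apply div_pos (by linarith) (by positivity)
    have hG : DiffContOnCl ℂ (fun u : ℂ => 1 / 2 - u * h0 (u + 3 * j)) (ball 0 (3 / 4)) := by
      apply DifferentiableOn.diffContOnCl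
      rw [closure_ball _ (by norm_num)]
      intro u hu
      have hu' : ‖u‖ ≤ 3 / 4 := by simpa using hu
      have := (d0 _ (hin u hu').2.2.2).comp u (differentiableAt_id.add_const (3 * (j : ℂ)))
      exact ((differentiableAt_id.mul this).const_sub _).differentiableWithinAt
    have := Complex.norm_le_of_forall_mem_frontier_norm_le isBounded_ball hG
      (C := C * 4 ^ N * (((j + 1 : ℕ) : ℝ) ^ N * (2 / 3) ^ (j + 1))) (z := 0) ?_
      (subset_closure (mem_ball_self (by norm_num)))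
    · simpa using this
    intro u hu
    rw [frontier_ball _ (by norm_num)] at hu
    have hu' : ‖u‖ = 3 / 4 := by simpa using hu
    obtain ⟨a1, a2, a3, a4⟩ := hin u hu'.le
    have e := he _ a4
    have b := hb _ a4
    rw [a1, a2] at e
    rw [a3, hu'] at b
    have hu0 : u ≠ 0 := by rintro rfl; norm_num at hu'
    have e2 : 1 / 2 - u * h0 (u + 3 * j) = u * (h1 (u + 3 * j) * (1 / 2 / u) ^ (j + 1)) := by
      rw [div_pow _ u]
      field_simp
      linear_combination 2 * u * e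
    have b2 : ‖h1 (u + 3 * j)‖ ≤ C * 4 ^ N * ((j + 1 : ℕ) : ℝ) ^ N := by
      have : ‖h1 (u + 3 * j)‖ = (((1 - 3 / 4) / ((j : ℝ) + 1)) ^ N * ‖h1 (u + 3 * j)‖) *
          (4 ^ N * ((j + 1 : ℕ) : ℝ) ^ N) := by
        rw [mul_right_comm, ← mul_pow, ← mul_pow]
        push_cast
        have : (1 - 3 / 4) / ((j : ℝ) + 1) * (4 * ((j : ℝ) + 1)) = 1 := by field_simp; norm_num
        rw [this]; simp
      rw [this, mul_assoc C]
      gcongr
    rw [e2, norm_mul, norm_mul, norm_pow, norm_div, hu']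
    have : ‖(1 / 2 : ℂ)‖ / (3 / 4) = 2 / 3 := by simp; norm_num
    rw [this, ← mul_assoc (C * 4 ^ N)]
    have h5 : ‖h1 (u + 3 * j)‖ * (2 / 3 : ℝ) ^ (j + 1) ≤
        C * 4 ^ N * ((j + 1 : ℕ) : ℝ) ^ N * (2 / 3) ^ (j + 1) := by gcongr
    have h6 : 0 ≤ ‖h1 (u + 3 * j)‖ * (2 / 3 : ℝ) ^ (j + 1) := by positivity
    linarith
  have h1 := ((tendsto_pow_const_mul_const_pow_of_abs_lt_one N (r := 2 / 3)
    (by rw [abs_of_pos] <;> norm_num)).comp (tendsto_add_atTop_nat 1)).const_mul (C * 4 ^ N)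
  have h2 := ge_of_tendsto' h1 key
  norm_num at h2

end Pool.Agent.H89.Wael
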